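import Pool.Agent.WW.TupSets

/-!
Tuples of rational numbers of bounded denominators: the proportion of exceptions tends to zero.
-/

set_option autoImplicit false

namespace Pool.Agent.WW

open Finset Filter Topology Pool.Agent.Helper29.Rohr

namespace Tup

/-- pairs `(b, a)` with `1 ≤ a < b ≤ X` -/
def pairsUp (X : ℕ) : Finset (Σ _ : ℕ, ℕ) := (range (X + 1)).sigma (fun b => Ico 1 b)

lemma mem_pairsUp {X : ℕ} {p : Σ _ : ℕ, ℕ} : p ∈ pairsUp X ↔ 1 ≤ p.2 ∧ p.2 < p.1 ∧ p.1 ≤ X := by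
  unfold pairsUp
  rw [mem_sigma, mem_range, mem_Ico]
  constructor
  · rintro ⟨h1, h2, h3⟩
    exact ⟨h2, h3, by omega⟩
  · rintro ⟨h1, h2, h3⟩
    exact ⟨by omega, h1, h2⟩

lemma card_pairsUp (X : ℕ) : 2 * (pairsUp X).card = X * (X - 1) := by
  unfold pairsUp
  rw [card_sigma, sum_congr rfl (fun b _ => Nat.card_Ico 1 b), sum_range_succ']
  simp only [add_tsub_cancel_right]
  have := Finset.sum_range_id_mul_two X
  omega

/-- pairs with a common factor -/
lemma card_noncop (X : ℕ) :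
    ((pairsUp X).filter (fun p => ¬ p.2.Coprime p.1)).card ≤
      ∑ d ∈ Icc 2 X, (pairsUp (X / d)).card := by
  classical
  have hsub : (pairsUp X).filter (fun p => ¬ p.2.Coprime p.1) ⊆
      (Icc 2 X).biUnion (fun d => (pairsUp (X / d)).image
        (fun p => (⟨d * p.1, d * p.2⟩ : Σ _ : ℕ, ℕ))) := by
    rintro ⟨b, a⟩ hp
    rw [mem_filter, mem_pairsUp] at hp
    obtain ⟨⟨h1, h2, h3⟩, h4⟩ := hp
    simp only at h1 h2 h3 h4
    have hg : 0 < Nat.gcd a b := Nat.gcd_pos_of_pos_left _ h1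
    have hg2 : 2 ≤ Nat.gcd a b := by
      have : Nat.gcd a b ≠ 1 := h4
      omega
    obtain ⟨a', ha'⟩ := Nat.gcd_dvd_left a b
    obtain ⟨b', hb'⟩ := Nat.gcd_dvd_right a b
    set g := Nat.gcd a b with hgdef
    rw [mem_biUnion]
    refine ⟨g, mem_Icc.2 ⟨hg2, ?_⟩, mem_image.2 ⟨⟨b', a'⟩, mem_pairsUp.2 ⟨?_, ?_, ?_⟩, ?_⟩⟩
    · exact (Nat.le_of_dvd (by omega) (Nat.gcd_dvd_left a b)).trans (by omega)
    · rcases Nat.eq_zero_or_pos a' with h | h
      · rw [h, mul_zero] at ha'; omega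
      · exact h
    · rw [ha', hb'] at h2
      exact Nat.lt_of_mul_lt_mul_left h2
    · rw [Nat.le_div_iff_mul_le hg, mul_comm, ← hb']
      exact h3
    · rw [← ha', ← hb']
  refine (card_le_card hsub).trans (card_biUnion_le.trans (sum_le_sum fun d _ => card_image_le))

lemma sum_inv_sq (X : ℕ) : ∑ d ∈ Icc 2 X, (1 : ℝ) / (d : ℝ) ^ 2 ≤ 3 / 4 := by
  have key : ∀ n : ℕ, ∑ d ∈ Icc 2 (n + 2), (1 : ℝ) / (d : ℝ) ^ 2 ≤ 3 / 4 - 1 / ((n : ℝ) + 2) + 0 := by
    intro n
    induction n with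
    | zero => norm_num
    | succ n ih =>
      rw [Finset.sum_Icc_succ_top (by omega)]
      have h1 : (1 : ℝ) / (((n + 2 + 1 : ℕ) : ℝ)) ^ 2 ≤ 1 / ((n : ℝ) + 2) - 1 / ((n : ℝ) + 3) := by
        have hn : (0 : ℝ) ≤ n := Nat.cast_nonneg _
        push_cast
        rw [div_sub_div _ _ (by positivity) (by positivity), div_le_div_iff₀ (by positivity)
          (by positivity)]
        nlinarith
      push_cast at ih h1 ⊢
      have e : (n : ℝ) + 1 + 2 = n + 3 := by ring
      rw [e]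
      linarith
  rcases Nat.lt_or_ge X 2 with h | h
  · rw [Icc_eq_empty (by omega), sum_empty]
    norm_num
  · obtain ⟨n, rfl⟩ : ∃ n, X = n + 2 := ⟨X - 2, by omega⟩
    have h1 := key n
    have h2 : (0 : ℝ) ≤ 1 / ((n : ℝ) + 2) := by positivity
    linarith

/-- lower bound for the number of rationals in `(0, 1)` with denominator at most `X` -/
lemma card_ratSet_ge (X : ℕ) : (X : ℝ) ^ 2 / 8 - X / 2 ≤ ((ratSet X).card : ℝ) := by
  classical
  have h1 : ((pairsUp X).filter (fun p => p.2.Coprime p.1)).card ≤ (ratSet X).card := by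
    refine card_le_card_of_injOn (fun p => (p.2 : ℚ) / p.1) ?_ ?_
    · rintro ⟨b, a⟩ hp
      have hp' := mem_filter.1 (mem_coe.1 hp)
      rw [mem_pairsUp] at hp'
      obtain ⟨⟨h1, h2, h3⟩, -⟩ := hp'
      simp only at h1 h2 h3
      refine mem_coe.2 ?_
      unfold ratSet
      rw [mem_biUnion]
      exact ⟨b, mem_range.2 (by omega), mem_ratLevel.2 ⟨a, by omega, h2, rfl⟩⟩
    · rintro ⟨b, a⟩ hp ⟨b', a'⟩ hp' h
      have h1 := mem_filter.1 (mem_coe.1 hp)
      have h2 := mem_filter.1 (mem_coe.1 hp')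
      rw [mem_pairsUp] at h1 h2
      simp only at h h1 h2
      have hb : 0 < b := by omega
      have hb' : 0 < b' := by omega
      have e1 := Rat.div_int_inj (a := (a : ℤ)) (b := (b : ℤ)) (c := (a' : ℤ)) (d := (b' : ℤ))
        (by exact_mod_cast hb) (by exact_mod_cast hb')
        (by simpa using h1.2) (by simpa using h2.2) (by simpa only [Int.cast_natCast] using h)
      obtain ⟨e2, e3⟩ := e1
      have e4 : a = a' := by exact_mod_cast e2
      have e5 : b = b' := by exact_mod_cast e3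
      subst e4 e5
      rfl
  have h2 := card_noncop X
  have h3 : ((pairsUp X).filter (fun p => p.2.Coprime p.1)).card +
      ((pairsUp X).filter (fun p => ¬ p.2.Coprime p.1)).card = (pairsUp X).card :=
    card_filter_add_card_filter_not (s := pairsUp X) (fun p => p.2.Coprime p.1)
  have hc : ∀ Y : ℕ, ((pairsUp Y).card : ℝ) ≤ (Y : ℝ) ^ 2 / 2 := by
    intro Y
    have h4 := card_pairsUp Y
    have h5 : 2 * (pairsUp Y).card ≤ Y * Y := by
      rw [h4]; exact Nat.mul_le_mul_left _ (Nat.sub_le _ _)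
    have h6 : (2 : ℝ) * ((pairsUp Y).card : ℝ) ≤ (Y : ℝ) * Y := by exact_mod_cast h5
    linarith
  have h4 : ((((pairsUp X).filter (fun p => ¬ p.2.Coprime p.1)).card : ℕ) : ℝ) ≤
      (X : ℝ) ^ 2 / 2 * (3 / 4) := by
    calc ((((pairsUp X).filter (fun p => ¬ p.2.Coprime p.1)).card : ℕ) : ℝ)
        ≤ ∑ d ∈ Icc 2 X, ((pairsUp (X / d)).card : ℝ) := by
          rw [← Nat.cast_sum]; exact Nat.cast_le.2 h2
      _ ≤ ∑ d ∈ Icc 2 X, (X : ℝ) ^ 2 / 2 * (1 / (d : ℝ) ^ 2) := by
          refine sum_le_sum fun d hd => (hc _).trans ?_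
          have hd2 : 2 ≤ d := (mem_Icc.1 hd).1
          have hd0 : (0 : ℝ) < d := by
            have : 0 < d := by omega
            exact_mod_cast this
          have h5 : ((X / d : ℕ) : ℝ) ≤ (X : ℝ) / d := Nat.cast_div_le
          have h6 : ((X / d : ℕ) : ℝ) ^ 2 ≤ ((X : ℝ) / d) ^ 2 :=
            pow_le_pow_left₀ (Nat.cast_nonneg _) h5 2
          rw [div_pow] at h6
          calc ((X / d : ℕ) : ℝ) ^ 2 / 2 ≤ (X : ℝ) ^ 2 / (d : ℝ) ^ 2 / 2 := by linarith
            _ = _ := by field_simp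
      _ = (X : ℝ) ^ 2 / 2 * ∑ d ∈ Icc 2 X, 1 / (d : ℝ) ^ 2 := by rw [mul_sum]
      _ ≤ _ := mul_le_mul_of_nonneg_left (sum_inv_sq X) (by positivity)
  have h5 : (2 : ℝ) * ((pairsUp X).card : ℝ) = (X : ℝ) * ((X : ℝ) - 1) := by
    have h6 := card_pairsUp X
    rcases Nat.eq_zero_or_pos X with h | h
    · have h7 : (pairsUp X).card = 0 := by
        rw [h] at h6 ⊢
        omega
      rw [h7, h]
      simp
    · have h7 : (2 : ℝ) * ((pairsUp X).card : ℝ) = (X : ℝ) * ((X - 1 : ℕ) : ℝ) := by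
        exact_mod_cast h6
      rw [h7, Nat.cast_sub (by omega)]
      simp
  have h6 : ((((pairsUp X).filter (fun p => p.2.Coprime p.1)).card : ℕ) : ℝ) +
      ((((pairsUp X).filter (fun p => ¬ p.2.Coprime p.1)).card : ℕ) : ℝ) =
      ((pairsUp X).card : ℝ) := by exact_mod_cast h3
  have h7 : ((((pairsUp X).filter (fun p => p.2.Coprime p.1)).card : ℕ) : ℝ) ≤
      ((ratSet X).card : ℝ) := Nat.cast_le.2 h1
  nlinarith

/-- the level sets are negligible -/
lemma tendsto_setBound : Tendsto (fun X : ℕ => setBound X / (X : ℝ) ^ 2) atTop (𝓝 0) := by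
  set u : ℕ → ℝ := fun D => Real.sqrt ((2 * classBound D + 1) / ((D : ℝ) - 1)) with hu
  have hu0 : Tendsto u atTop (𝓝 0) := by
    have := tendsto_classBound.sqrt
    rw [Real.sqrt_zero] at this
    exact this
  have hces := (hu0.cesaro.comp (tendsto_add_atTop_nat 1)).const_mul 2
  rw [mul_zero] at hces
  refine squeeze_zero' (Eventually.of_forall fun X => ?_) ?_ hces
  · exact div_nonneg (sum_nonneg fun D _ => Real.sqrt_nonneg _) (by positivity)
  · filter_upwards [eventually_ge_atTop 1] with X hX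
    have hX0 : (1 : ℝ) ≤ X := by exact_mod_cast hX
    have hun : ∀ D, 0 ≤ u D := fun D => Real.sqrt_nonneg _
    have h1 : setBound X ≤ (X : ℝ) * ∑ D ∈ range (X + 1), u D := by
      calc setBound X ≤ ∑ D ∈ Icc 2 X, (X : ℝ) * u D := by
            refine sum_le_sum fun D hD => ?_
            rw [mem_Icc] at hD
            have h2 : (2 : ℝ) ≤ D := by exact_mod_cast hD.1
            have h3 : (D : ℝ) ≤ X := by exact_mod_cast hD.2
            have h4 : (0 : ℝ) < (D : ℝ) - 1 := by linarith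
            have hU := classBound_nonneg (D := D)
            have e1 : (2 * classBound D + 1) * ((D : ℝ) - 1) =
                (2 * classBound D + 1) / ((D : ℝ) - 1) * ((D : ℝ) - 1) ^ 2 := by
              field_simp
            rw [e1, Real.sqrt_mul (by positivity), Real.sqrt_sq h4.le, mul_comm]
            exact mul_le_mul_of_nonneg_right (by linarith) (hun D)
        _ = (X : ℝ) * ∑ D ∈ Icc 2 X, u D := by rw [mul_sum]
        _ ≤ (X : ℝ) * ∑ D ∈ range (X + 1), u D := by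
            refine mul_le_mul_of_nonneg_left ?_ (by positivity)
            refine sum_le_sum_of_subset_of_nonneg ?_ fun D _ _ => hun D
            intro D hD
            rw [mem_Icc] at hD
            exact mem_range.2 (by omega)
    simp only [Function.comp]
    have hs : 0 ≤ ∑ D ∈ range (X + 1), u D := sum_nonneg fun D _ => hun D
    rw [div_le_iff₀ (by positivity)]
    refine h1.trans ?_
    have e : 2 * ((((X + 1 : ℕ) : ℝ))⁻¹ * ∑ D ∈ range (X + 1), u D) * (X : ℝ) ^ 2 =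
        (X : ℝ) * (∑ D ∈ range (X + 1), u D) * (2 * X / (X + 1)) := by
      push_cast
      field_simp
    rw [e]
    have h2 : 1 ≤ 2 * (X : ℝ) / (X + 1) := by
      rw [le_div_iff₀ (by positivity)]; linarith
    exact le_mul_of_one_le_right (by positivity) h2

/-- bounded denominators -/
theorem tendsto_notRohr_set (hTT : TwoTerm) (N r : ℕ) (hr : 1 ≤ r) :
    Tendsto (fun X : ℕ => (notRohr (ratSet X) N r : ℝ) / ((ratSet X).card : ℝ) ^ r) atTop
      (𝓝 0) := by
  have h1 : Tendsto (fun X : ℕ => (1 : ℝ) / (X : ℝ) ^ 2) atTop (𝓝 0) := by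
    have := (tendsto_const_div_atTop_nhds_zero_nat (1 : ℝ)).pow 2
    rw [zero_pow two_ne_zero] at this
    refine this.congr fun X => ?_
    rw [div_pow, one_pow]
  have hlim := (tendsto_setBound.add h1).const_mul ((2 * (N : ℝ) + 1) ^ r * (N + 1) * 16)
  simp only [add_zero, mul_zero] at hlim
  refine squeeze_zero' (Eventually.of_forall fun X => by positivity) ?_ hlim
  filter_upwards [eventually_ge_atTop 8] with X hX
  have hX8 : (8 : ℝ) ≤ X := by exact_mod_cast hX
  have hX0 : (0 : ℝ) < X := by linarith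
  have h2 := card_ratSet_ge X
  have h3 : (X : ℝ) ^ 2 / 16 ≤ ((ratSet X).card : ℝ) := by
    have : (X : ℝ) ^ 2 / 16 ≤ (X : ℝ) ^ 2 / 8 - X / 2 := by nlinarith
    linarith
  have h4 : (0 : ℝ) < ((ratSet X).card : ℝ) := lt_of_lt_of_le (by positivity) h3
  have h5 := notRohr_set hTT X N r
  have hs : 0 ≤ setBound X := sum_nonneg fun D _ => Real.sqrt_nonneg _
  obtain ⟨k, rfl⟩ : ∃ k, r = k + 1 := ⟨r - 1, by omega⟩
  rw [add_tsub_cancel_right] at h5
  have e1 : ((ratSet X).card : ℝ) ^ (k + 1) = ((ratSet X).card : ℝ) ^ k * (ratSet X).card :=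
    pow_succ _ _
  rw [div_le_iff₀ (by positivity), e1]
  refine h5.trans ?_
  have e2 : (2 * (N : ℝ) + 1) ^ (k + 1) * (N + 1) * 16 * (setBound X / (X : ℝ) ^ 2 +
      1 / (X : ℝ) ^ 2) * (((ratSet X).card : ℝ) ^ k * (ratSet X).card) =
      (2 * (N : ℝ) + 1) ^ (k + 1) * (N + 1) * ((ratSet X).card : ℝ) ^ k * (setBound X + 1) *
        (16 * (ratSet X).card / (X : ℝ) ^ 2) := by
    field_simp
  rw [e2]
  refine le_mul_of_one_le_right (by positivity) ?_
  rw [le_div_iff₀ (by positivity)]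
  linarith

/-- fixed common denominator -/
theorem tendsto_notRohr_level (hTT : TwoTerm) (N r : ℕ) (hr : 1 ≤ r) :
    Tendsto (fun D : ℕ => (notRohr (ratLevel D) N r : ℝ) / ((D : ℝ) - 1) ^ r) atTop (𝓝 0) := by
  have hsq := (tendsto_classBound.sqrt.add tendsto_two).const_mul ((2 * (N : ℝ) + 1) ^ r * (N + 1))
  simp only [Real.sqrt_zero, add_zero, mul_zero] at hsq
  refine squeeze_zero' ?_ ?_ hsq
  · filter_upwards [eventually_ge_atTop 2] with D hD
    have h2 : (2 : ℝ) ≤ D := by exact_mod_cast hD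
    have h4 : (0 : ℝ) < (D : ℝ) - 1 := by linarith
    positivity
  · filter_upwards [eventually_ge_atTop 2] with D hD
    have h2 : (2 : ℝ) ≤ D := by exact_mod_cast hD
    have hU := classBound_nonneg (D := D)
    have h4 : (0 : ℝ) < (D : ℝ) - 1 := by linarith
    have h5 := notRohr_level hTT D hD N r
    obtain ⟨k, rfl⟩ : ∃ k, r = k + 1 := ⟨r - 1, by omega⟩
    rw [add_tsub_cancel_right] at h5
    have e : Real.sqrt ((2 * classBound D + 1) * ((D : ℝ) - 1)) =
        Real.sqrt ((2 * classBound D + 1) / ((D : ℝ) - 1)) * ((D : ℝ) - 1) := by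
      have e1 : (2 * classBound D + 1) * ((D : ℝ) - 1) =
          (2 * classBound D + 1) / ((D : ℝ) - 1) * ((D : ℝ) - 1) ^ 2 := by
        field_simp
      rw [e1, Real.sqrt_mul (by positivity), Real.sqrt_sq h4.le]
    rw [e] at h5
    rw [div_le_iff₀ (by positivity)]
    refine h5.trans ?_
    have e2 : (2 * (N : ℝ) + 1) ^ (k + 1) * (N + 1) *
        (Real.sqrt ((2 * classBound D + 1) / ((D : ℝ) - 1)) +
          (2 * classBound D + 2) / ((D : ℝ) - 1)) * ((D : ℝ) - 1) ^ (k + 1) =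
        (2 * (N : ℝ) + 1) ^ (k + 1) * (N + 1) * ((D : ℝ) - 1) ^ k *
          (Real.sqrt ((2 * classBound D + 1) / ((D : ℝ) - 1)) * ((D : ℝ) - 1) +
            (2 * classBound D + 2)) := by
      rw [pow_succ ((D : ℝ) - 1) k]
      field_simp
    rw [e2]
    refine mul_le_mul_of_nonneg_left ?_ (by positivity)
    linarith

end Tup

/-- Rohrlich's question for all words of bounded length in almost all tuples. -/
theorem almost_all_words (hTT : TwoTerm) :
    (∀ N r D : ℕ, 2 ≤ D → (notRohr (ratLevel D) N r : ℝ) ≤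
      (2 * N + 1) ^ r * (N + 1) * ((D : ℝ) - 1) ^ (r - 1) *
        (Real.sqrt ((2 * classBound D + 1) * ((D : ℝ) - 1)) + 1)) ∧
    (∀ N r X : ℕ, (notRohr (ratSet X) N r : ℝ) ≤
      (2 * N + 1) ^ r * (N + 1) * ((ratSet X).card : ℝ) ^ (r - 1) * (setBound X + 1)) ∧
    (∀ N r : ℕ, 1 ≤ r → Tendsto (fun D : ℕ => (notRohr (ratLevel D) N r : ℝ) /
      ((D : ℝ) - 1) ^ r) atTop (𝓝 0)) ∧
    (∀ N r : ℕ, 1 ≤ r → Tendsto (fun X : ℕ => (notRohr (ratSet X) N r : ℝ) /
      ((ratSet X).card : ℝ) ^ r) atTop (𝓝 0)) ∧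
    Tendsto (fun X : ℕ => setBound X / (X : ℝ) ^ 2) atTop (𝓝 0) :=
  ⟨fun N r D hD => Tup.notRohr_level hTT D hD N r, fun N r X => Tup.notRohr_set hTT X N r,
    Tup.tendsto_notRohr_level hTT, Tup.tendsto_notRohr_set hTT, Tup.tendsto_setBound⟩

end Pool.Agent.WW
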