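import Pool.Agent.GP.Defs
import Pool.Agent.Helper29.Rohr.GenLink

/-!
Tuples of gamma values and the two-term theorem: definitions.
-/

set_option autoImplicit false

namespace Pool.Agent.WW

open Finset Pool.Agent.Helper29.Rohr

/-- The two-term theorem for beta values of the first kind: if the quotient of two beta values
`B(j₁/D, k₁/D)`, `B(j₂/D, k₂/D)` with `j₁ + k₁ < D`, `j₂ + k₂ < D` is algebraic, then the two
sets of indices `t` for which the `t`-th conjugate is of the first kind agree. -/
def TwoTerm : Prop :=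
  ∀ D j₁ k₁ j₂ k₂ : ℕ, 0 < j₁ → 0 < k₁ → j₁ + k₁ < D → 0 < j₂ → 0 < k₂ → j₂ + k₂ < D →
    IsAlgebraic ℚ (Pool.Agent.GP.bet D j₁ k₁ / Pool.Agent.GP.bet D j₂ k₂) →
    ∀ t : ℕ, t.Coprime D →
      ((t * j₁) % D + (t * k₁) % D < D ↔ (t * j₂) % D + (t * k₂) % D < D)

open Classical in
/-- Number of `r`-tuples of level `D` with sum `n` whose gamma product is an algebraic multiple
of `z`. -/
noncomputable def countSum (D r n : ℕ) (z : ℝ) : ℕ :=
  ((box D r).filter (fun j => ∑ i, j i = n ∧ GammaMult D r j z)).card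

end Pool.Agent.WW
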