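import Pool.Agent.WW.Fin2
import Pool.Agent.WW.TupDefs

/-!
The two-term theorem in the form used for the counting results.
-/

set_option autoImplicit false

namespace Pool.Agent.WW

/-- The two-term theorem. -/
theorem twoTerm : TwoTerm := fun _ _ _ _ _ hj₁ hk₁ h₁ hj₂ hk₂ h₂ hal t ht =>
  two_term hj₁ hk₁ h₁ hj₂ hk₂ h₂ hal t (ht.mul_right ht)

end Pool.Agent.WW
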