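import Pool.Agent.WW.PDefs

/-!
Types, Beta values and period lattices of the curves `y^D = x^j (1-x)^k`.
-/

set_option autoImplicit false

namespace Pool.Agent.WW

noncomputable section

/-- the type: units `t` mod `D` with `{t j / D} + {t k / D} < 1` -/
abbrev Ph (D j k : ℕ) : Type :=
  {t : Fin D // Nat.Coprime (t : ℕ) D ∧ (t : ℕ) * j % D + (t : ℕ) * k % D < D}

/-- the primitive `D`-th root of unity -/
def ze (D : ℕ) : ℂ := Complex.exp (2 * Real.pi * Complex.I / D)

/-- the Beta value of the differential with index `t` -/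
def be (D j k t : ℕ) : ℂ :=
  Complex.betaIntegral (((t * j % D : ℕ) : ℂ) / D) (((t * k % D : ℕ) : ℂ) / D)

/-- the period vector attached to the polynomial `p` with integer coefficients -/
def pe (D j k : ℕ) (p : Polynomial ℤ) (t : Ph D j k) : ℂ :=
  Polynomial.aeval (ze D ^ (t.1 : ℕ)) p *
    ((1 - ze D ^ ((t.1 : ℕ) * j)) * (1 - ze D ^ ((t.1 : ℕ) * k)) * be D j k t.1)

/-- the period lattice -/
def Lam (D j k : ℕ) : AddSubgroup (Ph D j k → ℂ) where
  carrier := {z | ∃ p : Polynomial ℤ, z = pe D j k p}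
  zero_mem' := ⟨0, by funext t; simp [pe]⟩
  add_mem' := by
    rintro _ _ ⟨p, rfl⟩ ⟨q, rfl⟩
    exact ⟨p + q, by funext t; simp [pe, add_mul]⟩
  neg_mem' := by
    rintro _ ⟨p, rfl⟩
    exact ⟨-p, by funext t; simp [pe]⟩

end

end Pool.Agent.WW
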