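import Pool.Agent.WW.JS

set_option autoImplicit false

namespace Pool.Agent.WW

open MvPolynomial Metric Filter Topology

variable {D j k : ℕ}

/-- a move: continuation with translation `v` from the sheet `κ` to the sheet `κ'` -/
private def Mv (D j k : ℕ) (v : Ph D j k → ℂ) (κ κ' : ℕ) : Prop :=
  ∃ R : ℝ, 0 < R ∧ ∀ (f g : (Ph D j k → ℂ) → ℂ) (M N : MvPolynomial (Fin 2) ℂ)
      (c : Ph D j k → ℂ) (ρ : ℝ), ‖c‖ + R < ρ → DifferentiableOn ℂ f (ball 0 ρ) →
      DifferentiableOn ℂ g (ball 0 ρ) → (Rel D j k f g M N c κ ↔ Rel D j k f g M N (c + v) κ')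

private lemma Mv.refl (κ : ℕ) : Mv D j k 0 κ κ :=
  ⟨1, one_pos, fun _ _ _ _ c _ _ _ _ => by rw [add_zero]⟩

private lemma Mv.trans {v v' : Ph D j k → ℂ} {κ κ' κ'' : ℕ} (h : Mv D j k v κ κ')
    (h' : Mv D j k v' κ' κ'') : Mv D j k (v + v') κ κ'' := by
  obtain ⟨R, hR, H⟩ := h
  obtain ⟨R', hR', H'⟩ := h'
  refine ⟨R + R' + ‖v‖, by positivity, fun f g M N c ρ hc hf hg => ?_⟩
  rw [H f g M N c ρ (by have := norm_nonneg v; linarith) hf hg,
    H' f g M N (c + v) ρ (by have := norm_add_le c v; linarith) hf hg, add_assoc]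

private lemma Mv.symm {v : Ph D j k → ℂ} {κ κ' : ℕ} (h : Mv D j k v κ κ') :
    Mv D j k (-v) κ' κ := by
  obtain ⟨R, hR, H⟩ := h
  refine ⟨R + ‖v‖, by positivity, fun f g M N c ρ hc hf hg => ?_⟩
  have := H f g M N (c + -v) ρ
    (by have := norm_add_le c (-v); rw [norm_neg] at this; linarith) hf hg
  rw [neg_add_cancel_right] at this
  exact this.symm

private lemma ze_powD (hD : 0 < D) : ze D ^ D = 1 := by
  unfold ze
  rw [← Complex.exp_nat_mul, mul_div_cancel₀ _ (by exact_mod_cast hD.ne'),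
    Complex.exp_two_pi_mul_I]

private lemma ze_mod (hD : 0 < D) (n : ℕ) : ze D ^ n = ze D ^ (n % D) := by
  conv_lhs => rw [← Nat.div_add_mod n D, pow_add, pow_mul, ze_powD hD, one_pow, one_mul]

private lemma ze_modEq (hD : 0 < D) {n n' : ℕ} (h : n ≡ n' [MOD D]) : ze D ^ n = ze D ^ n' := by
  rw [ze_mod hD n, ze_mod hD n', h]

private lemma Rel.congr (hD : 0 < D) {f g : (Ph D j k → ℂ) → ℂ} {M N : MvPolynomial (Fin 2) ℂ}
    {c : Ph D j k → ℂ} {κ κ' : ℕ} (e : κ ≡ κ' [MOD D]) :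
    Rel D j k f g M N c κ ↔ Rel D j k f g M N c κ' := by
  unfold Rel
  have h1 : ∀ t : Ph D j k, ze D ^ ((t.1 : ℕ) * κ) = ze D ^ ((t.1 : ℕ) * κ') := fun t =>
    ze_modEq hD (Nat.ModEq.mul_left _ e)
  have h2 : ze D ^ κ = ze D ^ κ' := ze_modEq hD e
  simp only [h1, h2]

private lemma Mv.congr (hD : 0 < D) {v : Ph D j k → ℂ} {κ κ' κ'' : ℕ} (h : Mv D j k v κ κ')
    (e : κ' ≡ κ'' [MOD D]) : Mv D j k v κ κ'' := by
  obtain ⟨R, hR, H⟩ := h
  exact ⟨R, hR, fun f g M N c ρ hc hf hg => by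
    rw [H f g M N c ρ hc hf hg, Rel.congr hD e]⟩

private lemma mv0 (hD : 3 ≤ D) (hj : 0 < j) (hk : 0 < k) (hjk : j + k < D) (κ : ℕ) :
    Mv D j k (fun t => ze D ^ ((t.1 : ℕ) * κ) * (ze D ^ ((t.1 : ℕ) * j) - 1) * bh D j k t.1)
      κ (κ + j) := by
  obtain ⟨R, hR, H⟩ := rel_zero hD hj hk hjk
  exact ⟨R, hR, fun f g M N c ρ hc hf hg => H f g M N c κ ρ hc hf hg⟩

private lemma mv1 (hD : 3 ≤ D) (hj : 0 < j) (hk : 0 < k) (hjk : j + k < D) (κ : ℕ) :
    Mv D j k (fun t => ze D ^ ((t.1 : ℕ) * κ) * (1 - ze D ^ ((t.1 : ℕ) * k)) * bh' D j k t.1)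
      κ (κ + k) := by
  obtain ⟨R, hR, H⟩ := rel_one hD hj hk hjk
  exact ⟨R, hR, fun f g M N c ρ hc hf hg => H f g M N c κ ρ hc hf hg⟩

private lemma mvc (hD : 3 ≤ D) (hj : 0 < j) (hk : 0 < k) (hjk : j + k < D) (κ : ℕ) :
    Mv D j k (fun t => ze D ^ ((t.1 : ℕ) * κ) *
      ((1 - ze D ^ ((t.1 : ℕ) * j)) * (1 - ze D ^ ((t.1 : ℕ) * k)) * be D j k t.1)) κ κ := by
  have h := (((mv0 hD hj hk hjk κ).trans (mv1 hD hj hk hjk (κ + j))).congr (by omega)
    (κ'' := κ + k + j) (by rw [add_right_comm])).trans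
      (((mv0 hD hj hk hjk (κ + k)).symm).trans (mv1 hD hj hk hjk κ).symm)
  convert h.symm using 1
  funext t
  simp only [Pi.neg_apply, Pi.add_apply, ← bh_add hD hj hk hjk t]
  rw [mul_add (t.1 : ℕ) κ j, mul_add (t.1 : ℕ) κ k, pow_add, pow_add]
  ring

private lemma reach (hD : 3 ≤ D) (hj : 0 < j) (hk : 0 < k) (hjk : j + k < D)
    (hg : Nat.gcd (Nat.gcd j k) D = 1) (l : ℕ) : ∃ v, Mv D j k v 0 l := by
  have h0 : ∀ a : ℕ, ∃ v, Mv D j k v 0 (a * j) := by
    intro a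
    induction a with
    | zero => exact ⟨0, by rw [zero_mul]; exact Mv.refl 0⟩
    | succ a ih =>
      obtain ⟨v, hv⟩ := ih
      exact ⟨_, by rw [Nat.succ_mul]; exact hv.trans (mv0 hD hj hk hjk _)⟩
  have h1 : ∀ a b : ℕ, ∃ v, Mv D j k v 0 (a * j + b * k) := by
    intro a b
    induction b with
    | zero => simpa using h0 a
    | succ b ih =>
      obtain ⟨v, hv⟩ := ih
      exact ⟨_, by rw [Nat.succ_mul, ← add_assoc]; exact hv.trans (mv1 hD hj hk hjk _)⟩
  obtain ⟨a, b, hab⟩ : ∃ a b : ℕ, a * j + b * k ≡ l [MOD D] := by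
    have e1 := Int.gcd_eq_gcd_ab (j : ℤ) (k : ℤ)
    have e2 := Int.gcd_eq_gcd_ab ((Nat.gcd j k : ℕ) : ℤ) (D : ℤ)
    rw [Int.gcd_natCast_natCast] at e1 e2
    rw [hg] at e2
    obtain ⟨x, hx⟩ : ∃ x, x = Int.gcdA ((Nat.gcd j k : ℕ) : ℤ) (D : ℤ) := ⟨_, rfl⟩
    obtain ⟨y, hy⟩ : ∃ y, y = Int.gcdB ((Nat.gcd j k : ℕ) : ℤ) (D : ℤ) := ⟨_, rfl⟩
    obtain ⟨u, hu⟩ : ∃ u, u = Int.gcdA (j : ℤ) (k : ℤ) := ⟨_, rfl⟩
    obtain ⟨w, hw⟩ : ∃ w, w = Int.gcdB (j : ℤ) (k : ℤ) := ⟨_, rfl⟩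
    rw [← hx, ← hy] at e2
    rw [← hu, ← hw] at e1
    have hDp : (0 : ℤ) < D := by exact_mod_cast (by omega : 0 < D)
    refine ⟨((l * x * u) % D).toNat, ((l * x * w) % D).toNat, ?_⟩
    rw [← Int.natCast_modEq_iff]
    push_cast
    rw [Int.toNat_of_nonneg (Int.emod_nonneg _ hDp.ne'),
      Int.toNat_of_nonneg (Int.emod_nonneg _ hDp.ne')]
    have e3 : (l * x * u % D * j + l * x * w % D * k : ℤ) ≡ l * x * u * j + l * x * w * k
        [ZMOD D] := Int.ModEq.add ((Int.mod_modEq _ _).mul_right _)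
          ((Int.mod_modEq _ _).mul_right _)
    refine e3.trans ?_
    have e4 : (l * x * u * j + l * x * w * k : ℤ) = l + D * (-(l * y)) := by
      have : (l * x * u * j + l * x * w * k : ℤ) = l * x * (j * u + k * w) := by ring
      rw [this, ← e1]
      have e5 : (1 : ℤ) = (Nat.gcd j k : ℕ) * x + D * y := by exact_mod_cast e2
      linear_combination (-(l : ℤ)) * e5
    rw [e4]
    exact Int.modEq_add_fac_self
  obtain ⟨v, hv⟩ := h1 a b
  exact ⟨v, hv.congr (by omega) hab⟩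

private lemma loop (hD : 3 ≤ D) (hj : 0 < j) (hk : 0 < k) (hjk : j + k < D)
    (hg : Nat.gcd (Nat.gcd j k) D = 1) (l : ℕ) :
    Mv D j k (fun t => ze D ^ ((t.1 : ℕ) * l) *
      ((1 - ze D ^ ((t.1 : ℕ) * j)) * (1 - ze D ^ ((t.1 : ℕ) * k)) * be D j k t.1)) 0 0 := by
  obtain ⟨v, hv⟩ := reach hD hj hk hjk hg l
  have h := (hv.trans (mvc hD hj hk hjk l)).trans hv.symm
  rwa [add_neg_cancel_comm] at h

private def mvG (D j k : ℕ) : AddSubgroup (Ph D j k → ℂ) where
  carrier := {v | Mv D j k v 0 0}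
  zero_mem' := Mv.refl 0
  add_mem' := fun h h' => Mv.trans h h'
  neg_mem' := fun h => Mv.symm h

/-- (JS3) continuation along a path with period `l` -/
theorem rel_period (hD : 3 ≤ D) (hj : 0 < j) (hk : 0 < k) (hjk : j + k < D)
    (hg : Nat.gcd (Nat.gcd j k) D = 1)
    (p : Polynomial ℤ) :
    ∃ R : ℝ, 0 < R ∧ ∀ (f g : (Ph D j k → ℂ) → ℂ) (M N : MvPolynomial (Fin 2) ℂ)
      (c : Ph D j k → ℂ) (ρ : ℝ), ‖c‖ + R < ρ → DifferentiableOn ℂ f (ball 0 ρ) →
      DifferentiableOn ℂ g (ball 0 ρ) → Rel D j k f g M N c 0 →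
      Rel D j k f g M N (fun t => c t + pe D j k p t) 0 := by
  have h : pe D j k p ∈ mvG D j k := by
    induction p using Polynomial.induction_on' with
    | add p q hp hq =>
      have : pe D j k (p + q) = pe D j k p + pe D j k q := by
        funext t
        simp [pe, add_mul]
      rw [this]
      exact add_mem hp hq
    | monomial n a =>
      have : pe D j k (Polynomial.monomial n a) = a • (fun t : Ph D j k =>
          ze D ^ ((t.1 : ℕ) * n) *
      ((1 - ze D ^ ((t.1 : ℕ) * j)) * (1 - ze D ^ ((t.1 : ℕ) * k)) * be D j k t.1)) := by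
        funext t
        simp only [pe, Polynomial.aeval_monomial, Pi.smul_apply, zsmul_eq_mul, ← pow_mul]
        simp only [eq_intCast, mul_assoc]
      rw [this]
      exact zsmul_mem (loop hD hj hk hjk hg n) a
  obtain ⟨R, hR, H⟩ := h
  exact ⟨R, hR, fun f g M N c ρ hc hf hg hr => (H f g M N c ρ hc hf hg).1 hr⟩

/-- polynomials in the generators are fractions -/
private lemma clr {π : Type} (δ : MvPolynomial (π ⊕ π) ℂ) (H : MvPolynomial (Gx π) ℂ) :
    ∃ (e : ℕ) (Q : MvPolynomial (π ⊕ π) ℂ), ∀ (v : π ⊕ π → ℂ) (b : Gx π → ℂ), eval v δ ≠ 0 →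
      b none = (eval v δ)⁻¹ → (∀ i, b (some i) = v i) → eval b H * eval v δ ^ e = eval v Q := by
  induction H using MvPolynomial.induction_on with
  | C a => exact ⟨0, C a, fun v b _ _ _ => by simp⟩
  | add p q hp hq =>
    obtain ⟨e, Q, h⟩ := hp
    obtain ⟨e', Q', h'⟩ := hq
    refine ⟨e + e', Q * δ ^ e' + Q' * δ ^ e, fun v b h0 h1 h2 => ?_⟩
    rw [map_add, map_add, map_mul, map_mul, map_pow, map_pow, ← h v b h0 h1 h2,
      ← h' v b h0 h1 h2]
    ring
  | mul_X p n hp =>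
    obtain ⟨e, Q, h⟩ := hp
    rcases n with _ | i
    · refine ⟨e + 1, Q, fun v b h0 h1 h2 => ?_⟩
      rw [map_mul, eval_X, h1, ← h v b h0 h1 h2, pow_succ]
      field_simp
    · refine ⟨e, Q * X i, fun v b h0 h1 h2 => ?_⟩
      rw [map_mul, eval_X, h2, map_mul, eval_X, ← h v b h0 h1 h2]
      ring

/-- identity theorem on a ball -/
private lemma ident {ι : Type} [Fintype ι] {F : (ι → ℂ) → ℂ} {r : ℝ}
    (hF : DifferentiableOn ℂ F (ball 0 r)) (h0 : ∀ᶠ z in 𝓝 (0 : ι → ℂ), F z = 0) :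
    ∀ z ∈ ball (0 : ι → ℂ) r, F z = 0 := by
  intro z hz
  obtain ⟨U, hU⟩ : ∃ U : Set ℂ, U = (fun w : ℂ => w • z) ⁻¹' ball (0 : ι → ℂ) r := ⟨_, rfl⟩
  have hUo : IsOpen U := by
    rw [hU]
    exact isOpen_ball.preimage (continuous_id.smul continuous_const)
  have hUc : Convex ℝ U := by
    rw [hU]
    have : (fun w : ℂ => w • z) = (((LinearMap.toSpanSingleton ℂ (ι → ℂ) z).restrictScalars ℝ :
      ℂ →ₗ[ℝ] (ι → ℂ)) : ℂ → (ι → ℂ)) := by
      funext w; rfl
    rw [this]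
    exact (convex_ball (0 : ι → ℂ) r).linear_preimage _
  have hd : DifferentiableOn ℂ (fun w : ℂ => F (w • z)) U := by
    refine hF.comp (fun w _ => ?_) (fun w hw => by rw [hU] at hw; exact hw)
    exact (differentiableAt_id.smul_const z).differentiableWithinAt
  have ha : AnalyticOnNhd ℂ (fun w : ℂ => F (w • z)) U := hd.analyticOnNhd hUo
  have h0U : (0 : ℂ) ∈ U := by
    rw [hU]
    change (0 : ℂ) • z ∈ ball (0 : ι → ℂ) r
    rw [zero_smul]
    exact mem_ball_self ((norm_nonneg z).trans_lt (mem_ball_zero_iff.1 hz))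
  have h1U : (1 : ℂ) ∈ U := by
    rw [hU]
    change (1 : ℂ) • z ∈ ball (0 : ι → ℂ) r
    rw [one_smul]
    exact hz
  have hev : (fun w : ℂ => F (w • z)) =ᶠ[𝓝 0] 0 := by
    have hc : Tendsto (fun w : ℂ => w • z) (𝓝 0) (𝓝 (0 : ι → ℂ)) := by
      have : ContinuousAt (fun w : ℂ => w • z) 0 := by fun_prop
      simpa [ContinuousAt] using this
    exact hc.eventually h0
  have := ha.eqOn_zero_of_preconnected_of_eventuallyEq_zero hUc.isPreconnected h0U hev h1U
  simpa using this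

private lemma ident2 {ι : Type} [Fintype ι] {u F : (ι → ℂ) → ℂ} {ρ r : ℝ} {l : ι → ℂ}
    (hl : ∀ z ∈ ball (0 : ι → ℂ) r, l + z ∈ ball (0 : ι → ℂ) ρ)
    (hu : DifferentiableOn ℂ u (ball 0 ρ)) (hu0 : u 0 ≠ 0) (hF : ContinuousOn F (ball 0 r))
    (h : ∀ z ∈ ball (0 : ι → ℂ) r, u (l + z) * F z = 0) :
    ∀ z ∈ ball (0 : ι → ℂ) r, F z = 0 := by
  intro z hz
  obtain ⟨w, hw⟩ : ∃ w, w = l + z := ⟨_, rfl⟩
  have hwρ : w ∈ ball (0 : ι → ℂ) ρ := by rw [hw]; exact hl z hz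
  obtain ⟨U, hU⟩ : ∃ U : Set ℂ, U = (fun x : ℂ => w - x • w) ⁻¹' ball (0 : ι → ℂ) ρ := ⟨_, rfl⟩
  have hUo : IsOpen U := by
    rw [hU]
    exact isOpen_ball.preimage (by fun_prop)
  have hUc : Convex ℝ U := by
    have e : U = (fun x : ℂ => x • w) ⁻¹' ball w ρ := by
      rw [hU]
      ext x
      simp only [Set.mem_preimage, mem_ball, dist_eq_norm, sub_zero]
      rw [norm_sub_rev]
    rw [e]
    have : (fun x : ℂ => x • w) = (((LinearMap.toSpanSingleton ℂ (ι → ℂ) w).restrictScalars ℝ :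
      ℂ →ₗ[ℝ] (ι → ℂ)) : ℂ → (ι → ℂ)) := by
      funext x; rfl
    rw [this]
    exact (convex_ball w ρ).linear_preimage _
  have hd : DifferentiableOn ℂ (fun x : ℂ => u (w - x • w)) U := by
    refine hu.comp (fun x _ => ?_) (fun x hx => by rw [hU] at hx; exact hx)
    exact ((differentiableAt_const w).sub
      (differentiableAt_id.smul_const w)).differentiableWithinAt
  have ha : AnalyticOnNhd ℂ (fun x : ℂ => u (w - x • w)) U := hd.analyticOnNhd hUo
  have h0U : (0 : ℂ) ∈ U := by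
    rw [hU]
    change w - (0 : ℂ) • w ∈ ball (0 : ι → ℂ) ρ
    rw [zero_smul, sub_zero]
    exact hwρ
  have h1U : (1 : ℂ) ∈ U := by
    rw [hU]
    change w - (1 : ℂ) • w ∈ ball (0 : ι → ℂ) ρ
    rw [one_smul, sub_self]
    exact mem_ball_self ((norm_nonneg w).trans_lt (mem_ball_zero_iff.1 hwρ))
  have hne : ∀ᶠ x in 𝓝[≠] (0 : ℂ), u (w - x • w) ≠ 0 := by
    rcases (ha 0 h0U).eventually_eq_zero_or_eventually_ne_zero with h1 | h1
    · exfalso
      have := ha.eqOn_zero_of_preconnected_of_eventuallyEq_zero hUc.isPreconnected h0U h1 h1U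
      simp only [one_smul, sub_self, Pi.zero_apply] at this
      exact hu0 this
    · exact h1
  have hzt : Tendsto (fun x : ℂ => z - x • w) (𝓝 0) (𝓝 z) := by
    have : ContinuousAt (fun x : ℂ => z - x • w) 0 := by fun_prop
    simpa [ContinuousAt] using this
  have hball : ∀ᶠ x in 𝓝 (0 : ℂ), z - x • w ∈ ball (0 : ι → ℂ) r :=
    hzt.eventually (isOpen_ball.mem_nhds hz)
  have hF0 : ∀ᶠ x in 𝓝[≠] (0 : ℂ), F (z - x • w) = 0 := by
    filter_upwards [hne, hball.filter_mono nhdsWithin_le_nhds] with x hx1 hx2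
    have h3 := h _ hx2
    have h4 : l + (z - x • w) = w - x • w := by rw [hw]; abel
    rw [h4] at h3
    exact (mul_eq_zero.1 h3).resolve_left hx1
  have hFt : Tendsto (fun x : ℂ => F (z - x • w)) (𝓝[≠] 0) (𝓝 (F z)) :=
    ((hF.continuousAt (isOpen_ball.mem_nhds hz)).tendsto.comp hzt).mono_left nhdsWithin_le_nhds
  have hFt' : Tendsto (fun x : ℂ => F (z - x • w)) (𝓝[≠] 0) (𝓝 0) :=
    (tendsto_congr' (hF0.mono fun x hx => hx)).2 tendsto_const_nhds
  exact tendsto_nhds_unique hFt hFt'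

private lemma ybr_cont' (D j k : ℕ) {s : ℂ} (hs : ‖s‖ < 1 / 4) :
    DifferentiableAt ℂ (ybr D j k) s := by
  have h1 : 1 / 2 + s ∈ Complex.slitPlane := by
    left
    have := Complex.abs_re_le_norm s
    have h2 := abs_le.1 (this.trans hs.le)
    simp only [Complex.add_re]
    norm_num
    linarith [h2.1]
  have h2 : 1 / 2 - s ∈ Complex.slitPlane := by
    left
    have := Complex.abs_re_le_norm s
    have h2 := abs_le.1 (this.trans hs.le)
    simp only [Complex.sub_re]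
    norm_num
    linarith [h2.2]
  unfold ybr
  exact (((differentiableAt_id.const_add (1 / 2 : ℂ)).cpow (differentiableAt_const _) h1)).mul
    (((differentiableAt_id.const_sub (1 / 2 : ℂ)).cpow (differentiableAt_const _) h2))

/-- the values of `x_i`, `y_i` -/
private noncomputable def vv (D j k : ℕ) {m : ℕ} (ξ : Fin m → ℂ) : Fin m ⊕ Fin m → ℂ :=
  Sum.elim (fun i => 1 / 2 + ξ i) (fun i => ze D ^ (i : ℕ) * ybr D j k (ξ i))

private lemma zp_update {m : ℕ} (i0 : Fin m) (ξ : Fin m → ℂ) (s : ℂ) (t : Ph D j k) :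
    zp D j k m Subtype.val (Function.update ξ i0 s) t =
      zp D j k m Subtype.val (Function.update ξ i0 0) t +
        ze D ^ ((t.1 : ℕ) * (i0 : ℕ)) * aint D j k t.1 s := by
  have h0 : aint D j k t.1 0 = 0 := aint_zero _
  unfold zp
  rw [← Finset.add_sum_erase _ _ (Finset.mem_univ i0), ← Finset.add_sum_erase _
    (fun i : Fin m => ze D ^ ((t.1 : ℕ) * (i : ℕ)) *
      aint D j k t.1 (Function.update ξ i0 0 i)) (Finset.mem_univ i0)]
  rw [Function.update_self, Function.update_self, h0, mul_zero, zero_add, add_comm]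
  congr 1
  refine Finset.sum_congr rfl fun i hi => ?_
  rw [Function.update_of_ne (Finset.ne_of_mem_erase hi),
    Function.update_of_ne (Finset.ne_of_mem_erase hi)]

/-- substitution of all variables except `x_{i0}`, `y_{i0}` -/
private noncomputable def sg (D j k : ℕ) {m : ℕ} (i0 : Fin m) (ξ : Fin m → ℂ) :
    Fin m ⊕ Fin m → MvPolynomial (Fin 2) ℂ :=
  Sum.elim (fun i => if i = i0 then X 0 else C (1 / 2 + ξ i))
    (fun i => if i = i0 then X 1 else C (ze D ^ (i : ℕ) * ybr D j k (ξ i)))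

private lemma eval_sg {m : ℕ} (i0 : Fin m) (ξ : Fin m → ℂ) (s : ℂ)
    (p : MvPolynomial (Fin m ⊕ Fin m) ℂ) :
    eval ![1 / 2 + s, ze D ^ (i0 : ℕ) * ybr D j k s] (aeval (sg D j k i0 ξ) p) =
      eval (vv D j k (Function.update ξ i0 s)) p := by
  induction p using MvPolynomial.induction_on with
  | C a => simp [MvPolynomial.algebraMap_eq]
  | add p q hp hq => rw [map_add, map_add, map_add, hp, hq]
  | mul_X p n hp =>
    rw [map_mul, map_mul, map_mul, hp, aeval_X, eval_X]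
    congr 1
    rcases n with i | i
    · by_cases h : i = i0
      · subst h; simp [sg, vv]
      · simp [sg, vv, h]
    · by_cases h : i = i0
      · subst h; simp [sg, vv]
      · simp [sg, vv, h]

private lemma aint_cont (t : ℕ) {s : ℂ} (hs : ‖s‖ < 1 / 2) : DifferentiableAt ℂ (aint D j k t) s :=
  (aint_deriv t hs).differentiableAt

private lemma eval_diff (M : MvPolynomial (Fin 2) ℂ) {u v : ℂ → ℂ} {U : Set ℂ}
    (hu : DifferentiableOn ℂ u U) (hv : DifferentiableOn ℂ v U) :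
    DifferentiableOn ℂ (fun s => eval ![u s, v s] M) U := by
  induction M using MvPolynomial.induction_on with
  | C a => simp only [eval_C]; exact differentiableOn_const _
  | add p q hp hq => simp only [map_add]; exact hp.add hq
  | mul_X p n hp =>
    simp only [map_mul, eval_X]
    refine hp.mul ?_
    fin_cases n
    · simpa using hu
    · simpa using hv

private lemma core (hD : 3 ≤ D) (hj : 0 < j) (hk : 0 < k) (hjk : j + k < D)
    (hg : Nat.gcd (Nat.gcd j k) D = 1) (m : ℕ) (hm : Fintype.card (Ph D j k) = m)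
    (P : Pkg (Fin m) (Ph D j k)) (hP : P.Ok0) (eD : ∀ i, P.D i = D) (ej : ∀ i, P.j i = j)
    (ek : ∀ i, P.k i = k) (es : ∀ i, P.s i = ze D ^ (i : ℕ))
    (hch : ∀ z ∈ ball (0 : Ph D j k → ℂ) P.r, zp D j k m Subtype.val (P.ξ z) = z) :
    ∀ l ∈ Lam D j k, ∀ n, ‖l‖ + P.r ≤ 2 ^ n * P.r → ∀ z ∈ ball (0 : Ph D j k → ℂ) P.r, ∀ a,
      P.G n a (l + z) * P.G0 n z = P.G n a z * P.G0 n (l + z) := by
  classical
  have hr := P.hr
  -- the local inverse
  have hloc : ∃ ε : ℝ, 0 < ε ∧ ε ≤ 1 / 4 ∧ ∀ ξ : Fin m → ℂ, ‖ξ‖ < ε →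
      zp D j k m Subtype.val ξ ∈ ball (0 : Ph D j k → ℂ) P.r ∧
        P.ξ (zp D j k m Subtype.val ξ) = ξ := by
    obtain ⟨ρ, Ξ, hρ, -, -, -, -, -, ρ', hρ', hΞ⟩ := chart (j := j) (k := k) hD
      (Subtype.val : Ph D j k → Fin D) Subtype.val_injective m hm
    have hz0 : zp D j k m Subtype.val (0 : Fin m → ℂ) = (0 : Ph D j k → ℂ) := by
      funext t
      have h0 : aint D j k t.1 0 = 0 := aint_zero _
      simp [zp, h0]
    have hzc : ContinuousAt (fun ξ : Fin m → ℂ =>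
        (zp D j k m Subtype.val ξ : Ph D j k → ℂ)) 0 := by
      rw [continuousAt_pi]
      intro t
      unfold zp
      refine tendsto_finsetSum _ fun i _ => ?_
      refine Tendsto.const_mul _ ?_
      have h1 : ContinuousAt (aint D j k t.1) ((0 : Fin m → ℂ) i) :=
        (aint_cont t.1 (by simp)).continuousAt
      exact ContinuousAt.comp (f := fun ξ : Fin m → ℂ => ξ i) h1
        (continuous_apply i).continuousAt
    have hξc : ContinuousAt P.ξ 0 :=
      P.ξana.continuousOn.continuousAt (isOpen_ball.mem_nhds (mem_ball_self hr))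
    have e1 : ∀ᶠ ξ in 𝓝 (0 : Fin m → ℂ), zp D j k m Subtype.val ξ ∈
        ball (0 : Ph D j k → ℂ) P.r := by
      refine hzc.eventually (isOpen_ball.mem_nhds ?_)
      change (zp D j k m Subtype.val (0 : Fin m → ℂ) : Ph D j k → ℂ) ∈ _
      rw [hz0]
      exact mem_ball_self hr
    have e2 : ∀ᶠ ξ in 𝓝 (0 : Fin m → ℂ), P.ξ (zp D j k m Subtype.val ξ) ∈
        ball (0 : Fin m → ℂ) ρ' := by
      have h1 : ContinuousAt (fun ξ : Fin m → ℂ => P.ξ (zp D j k m Subtype.val ξ)) 0 := by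
        refine ContinuousAt.comp (g := P.ξ) ?_ hzc
        rw [hz0]
        exact hξc
      refine h1.eventually (isOpen_ball.mem_nhds ?_)
      change P.ξ (zp D j k m Subtype.val (0 : Fin m → ℂ)) ∈ _
      rw [hz0, P.ξ0]
      exact mem_ball_self hρ'
    obtain ⟨ε, hε, H⟩ := Metric.eventually_nhds_iff_ball.1 (e1.and e2)
    refine ⟨min ε (min ρ' (1 / 4)), by positivity, (min_le_right _ _).trans (min_le_right _ _),
      fun ξ hξ => ?_⟩
    have hξ1 : ‖ξ‖ < ε := hξ.trans_le (min_le_left _ _)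
    have hξ2 : ‖ξ‖ < ρ' := hξ.trans_le ((min_le_right _ _).trans (min_le_left _ _))
    obtain ⟨h1, h2⟩ := H ξ (mem_ball_zero_iff.2 hξ1)
    refine ⟨h1, ?_⟩
    have h3 := (hΞ _ (mem_ball_zero_iff.1 h2)).2
    rw [hch _ h1, (hΞ ξ hξ2).2] at h3
    exact h3.symm
  obtain ⟨ε, hε, hε4, hloc⟩ := hloc
  have hm0 : 0 < m := by
    rw [← hm]
    have h1D : 1 < D := by omega
    refine Fintype.card_pos_iff.2 ⟨⟨⟨1, h1D⟩, by simp, ?_⟩⟩
    simp only [one_mul]
    rw [Nat.mod_eq_of_lt (by omega), Nat.mod_eq_of_lt (by omega)]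
    exact hjk
  obtain ⟨i0, hi0⟩ : ∃ i0 : Fin m, (i0 : ℕ) = 0 := ⟨⟨0, hm0⟩, rfl⟩
  -- the generators
  have hvv : ∀ ξ : Fin m → ℂ, ‖ξ‖ < ε → Sum.elim
      (fun i => 1 / 2 + P.ξ (zp D j k m Subtype.val ξ) i)
      (fun i => P.s i * ybr (P.D i) (P.j i) (P.k i) (P.ξ (zp D j k m Subtype.val ξ) i)) =
        vv D j k ξ := by
    intro ξ hξ
    rw [(hloc ξ hξ).2]
    unfold vv
    simp only [eD, ej, ek, es]
  have hδ : ∀ ξ : Fin m → ℂ, ‖ξ‖ < ε → eval (vv D j k ξ) P.δ ≠ 0 := by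
    intro ξ hξ
    rw [← hvv ξ hξ]
    exact P.δne _ (hloc ξ hξ).1
  rintro l ⟨p, rfl⟩ n hn
  -- reduction to a relation for a large index
  have star : ∀ a, ∃ (e : ℕ) (Q : MvPolynomial (Fin m ⊕ Fin m) ℂ), ∀ n, ∀ ξ : Fin m → ℂ,
      ‖ξ‖ < ε → P.G n a (zp D j k m Subtype.val ξ) * eval (vv D j k ξ) (P.δ ^ e) =
        P.G0 n (zp D j k m Subtype.val ξ) * eval (vv D j k ξ) Q := by
    intro a
    obtain ⟨e, Q, h⟩ := clr P.δ (P.H a)
    refine ⟨e, Q, fun n ξ hξ => ?_⟩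
    have h1 := h (vv D j k ξ) (P.bv (zp D j k m Subtype.val ξ)) (hδ ξ hξ)
      (by rw [← hvv ξ hξ]; rfl) (by rw [← hvv ξ hξ]; rintro (i | i) <;> rfl)
    rw [hP.Geq n a _ (hloc ξ hξ).1, map_pow, ← h1]
    unfold Pkg.h
    ring
  obtain ⟨R, hR, HR⟩ := rel_period hD hj hk hjk hg p
  have big : ∀ n', P.r + R < 2 ^ n' * P.r →
      ‖pe D j k p‖ + P.r ≤ 2 ^ n' * P.r → ∀ a, ∀ z ∈ ball (0 : Ph D j k → ℂ) P.r,
      P.G n' a (pe D j k p + z) * P.G0 n' z = P.G n' a z * P.G0 n' (pe D j k p + z) := by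
    intro n' hn1 hn2 a
    obtain ⟨e, Q, hs⟩ := star a
    have hmem : ∀ z ∈ ball (0 : Ph D j k → ℂ) P.r,
        pe D j k p + z ∈ ball (0 : Ph D j k → ℂ) (2 ^ n' * P.r) := by
      intro z hz
      rw [mem_ball_zero_iff] at hz ⊢
      have := norm_add_le (pe D j k p) z
      linarith
    have hsub : ball (0 : Ph D j k → ℂ) P.r ⊆ ball (0 : Ph D j k → ℂ) (2 ^ n' * P.r) :=
      ball_subset_ball (by have := norm_nonneg (pe D j k p); linarith)
    have two : ∀ ξ : Fin m → ℂ, ‖ξ‖ < ε →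
        P.G n' a (pe D j k p + zp D j k m Subtype.val ξ) * eval (vv D j k ξ) (P.δ ^ e) =
          P.G0 n' (pe D j k p + zp D j k m Subtype.val ξ) * eval (vv D j k ξ) Q := by
      intro ξ hξ
      have hup : ∀ s : ℂ, ‖s‖ < ε → ‖Function.update ξ i0 s‖ < ε := by
        intro s hs
        rw [pi_norm_lt_iff hε]
        intro i
        by_cases h : i = i0
        · subst h
          rwa [Function.update_self]
        · rw [Function.update_of_ne h]
          exact (norm_le_pi_norm ξ i).trans_lt hξ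
      obtain ⟨c, hc⟩ : ∃ c : Ph D j k → ℂ, c = zp D j k m Subtype.val (Function.update ξ i0 0) :=
        ⟨_, rfl⟩
      have hc1 : ‖c‖ < P.r := by
        rw [hc]
        exact mem_ball_zero_iff.1 (hloc _ (hup 0 (by simpa using hε))).1
      have hzpc : ∀ s : ℂ, (zp D j k m Subtype.val (Function.update ξ i0 s) : Ph D j k → ℂ) =
          fun t => c t + ze D ^ ((t.1 : ℕ) * 0) * aint D j k t.1 s := by
        intro s
        funext t
        rw [zp_update, hc, hi0]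
      have hnear : ∀ᶠ s in 𝓝 (0 : ℂ), ‖s‖ < ε := by
        filter_upwards [Metric.ball_mem_nhds (0 : ℂ) hε] with s hs using mem_ball_zero_iff.1 hs
      have hrel : Rel D j k (P.G n' a) (P.G0 n') (aeval (sg D j k i0 ξ) (P.δ ^ e))
          (aeval (sg D j k i0 ξ) Q) c 0 := by
        unfold Rel
        filter_upwards [hnear] with s hs'
        have h1 := hs n' (Function.update ξ i0 s) (hup s hs')
        rw [← eval_sg, ← eval_sg, hzpc, hi0] at h1
        exact h1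
      have hrel2 := HR (P.G n' a) (P.G0 n') _ _ c (2 ^ n' * P.r) (by linarith)
        (hP.Gana n' a) (hP.G0ana n') hrel
      obtain ⟨w, hw⟩ : ∃ w : ℂ → (Ph D j k → ℂ), w = fun s t => c t + pe D j k p t +
        ze D ^ ((t.1 : ℕ) * 0) * aint D j k t.1 s := ⟨_, rfl⟩
      have hw1 : ∀ s, w s = pe D j k p + zp D j k m Subtype.val (Function.update ξ i0 s) := by
        intro s
        rw [hzpc, hw]
        funext t
        simp only [Pi.add_apply]
        ring
      have hwd : DifferentiableOn ℂ w (ball 0 ε) := by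
        rw [hw, differentiableOn_pi]
        intro t s hs
        have hs2 : ‖s‖ < 1 / 2 := by
          have := mem_ball_zero_iff.1 hs
          linarith
        exact (((aint_cont t.1 hs2).const_mul _).const_add _).differentiableWithinAt
      have hwm : Set.MapsTo w (ball 0 ε) (ball (0 : Ph D j k → ℂ) (2 ^ n' * P.r)) := by
        intro s hs
        rw [hw1]
        exact hmem _ (hloc _ (hup s (mem_ball_zero_iff.1 hs))).1
      have hyd : DifferentiableOn ℂ (fun s => ze D ^ 0 * ybr D j k s) (ball 0 ε) := by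
        intro s hs
        exact ((ybr_cont' D j k ((mem_ball_zero_iff.1 hs).trans_le
          hε4)).const_mul _).differentiableWithinAt
      have hxd : DifferentiableOn ℂ (fun s : ℂ => 1 / 2 + s) (ball 0 ε) := by fun_prop
      have hFd : DifferentiableOn ℂ (fun s => P.G n' a (w s) *
          eval ![1 / 2 + s, ze D ^ 0 * ybr D j k s] (aeval (sg D j k i0 ξ) (P.δ ^ e)) -
            P.G0 n' (w s) * eval ![1 / 2 + s, ze D ^ 0 * ybr D j k s]
              (aeval (sg D j k i0 ξ) Q)) (ball 0 ε) :=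
        (((hP.Gana n' a).comp hwd hwm).mul (eval_diff _ hxd hyd)).sub
          (((hP.G0ana n').comp hwd hwm).mul (eval_diff _ hxd hyd))
      have hF0 : (fun s => P.G n' a (w s) *
          eval ![1 / 2 + s, ze D ^ 0 * ybr D j k s] (aeval (sg D j k i0 ξ) (P.δ ^ e)) -
            P.G0 n' (w s) * eval ![1 / 2 + s, ze D ^ 0 * ybr D j k s]
              (aeval (sg D j k i0 ξ) Q)) =ᶠ[𝓝 0] 0 := by
        unfold Rel at hrel2
        filter_upwards [hrel2] with s hs
        rw [hw]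
        simp only [Pi.zero_apply]
        exact sub_eq_zero.2 hs
      have hi : ξ i0 ∈ ball (0 : ℂ) ε := mem_ball_zero_iff.2 ((norm_le_pi_norm ξ i0).trans_lt hξ)
      have h1 := (hFd.analyticOnNhd isOpen_ball).eqOn_zero_of_preconnected_of_eventuallyEq_zero
        (convex_ball (0 : ℂ) ε).isPreconnected (mem_ball_self hε) hF0 hi
      have h2 := sub_eq_zero.1 h1
      simp only [hw1] at h2
      have h3 := eval_sg (D := D) (j := j) (k := k) i0 ξ (ξ i0)
      rw [hi0] at h3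
      rw [h3, h3, Function.update_eq_self] at h2
      exact h2
    have hξc : ContinuousAt P.ξ 0 :=
      P.ξana.continuousOn.continuousAt (isOpen_ball.mem_nhds (mem_ball_self hr))
    have near : ∀ᶠ z in 𝓝 (0 : Ph D j k → ℂ), P.G n' a (pe D j k p + z) * P.G0 n' z -
        P.G n' a z * P.G0 n' (pe D j k p + z) = 0 := by
      have h1 : ∀ᶠ z in 𝓝 (0 : Ph D j k → ℂ), P.ξ z ∈ ball (0 : Fin m → ℂ) ε := by
        refine hξc.eventually (isOpen_ball.mem_nhds ?_)
        rw [P.ξ0]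
        exact mem_ball_self hε
      have h2 : ∀ᶠ z in 𝓝 (0 : Ph D j k → ℂ), z ∈ ball (0 : Ph D j k → ℂ) P.r :=
        isOpen_ball.mem_nhds (mem_ball_self hr)
      filter_upwards [h1, h2] with z hz1 hz2
      have h3 := two (P.ξ z) (mem_ball_zero_iff.1 hz1)
      have h4 := hs n' (P.ξ z) (mem_ball_zero_iff.1 hz1)
      rw [hch z hz2] at h3 h4
      have h6 : eval (vv D j k (P.ξ z)) (P.δ ^ e) ≠ 0 := by
        rw [map_pow]
        exact pow_ne_zero _ (hδ (P.ξ z) (mem_ball_zero_iff.1 hz1))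
      refine (mul_eq_zero.1 (?_ : _ * eval (vv D j k (P.ξ z)) (P.δ ^ e) = 0)).resolve_right h6
      linear_combination (P.G0 n' z) * h3 - (P.G0 n' (pe D j k p + z)) * h4
    have had : DifferentiableOn ℂ (fun z : Ph D j k → ℂ => pe D j k p + z) (ball 0 P.r) := by
      fun_prop
    have hFd : DifferentiableOn ℂ (fun z : Ph D j k → ℂ =>
        P.G n' a (pe D j k p + z) * P.G0 n' z - P.G n' a z * P.G0 n' (pe D j k p + z))
        (ball 0 P.r) :=
      (((hP.Gana n' a).comp had hmem).mul ((hP.G0ana n').mono hsub)).sub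
        (((hP.Gana n' a).mono hsub).mul ((hP.G0ana n').comp had hmem))
    intro z hz
    exact sub_eq_zero.1 (ident hFd near z hz)
  -- the general index
  obtain ⟨N0, hN0⟩ := pow_unbounded_of_one_lt ((P.r + R) / P.r) (one_lt_two : (1 : ℝ) < 2)
  obtain ⟨n', hn'⟩ : ∃ n', n' = max N0 n := ⟨_, rfl⟩
  have hn1 : P.r + R < 2 ^ n' * P.r := by
    rw [div_lt_iff₀ hr] at hN0
    refine hN0.trans_le (mul_le_mul_of_nonneg_right ?_ hr.le)
    exact pow_le_pow_right₀ one_le_two (by rw [hn']; exact le_max_left _ _)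
  have hnn : (2 : ℝ) ^ n * P.r ≤ 2 ^ n' * P.r :=
    mul_le_mul_of_nonneg_right (pow_le_pow_right₀ one_le_two (by rw [hn']; exact le_max_right _ _))
      hr.le
  have hr1 : P.r ≤ 2 ^ n * P.r := by have := norm_nonneg (pe D j k p); linarith
  have hG0 : ∀ n, ∀ z ∈ ball (0 : Ph D j k → ℂ) P.r, P.G0 n z ≠ 0 := by
    intro n z hz h
    have h1 := hP.G0ge n z hz
    rw [h, norm_zero] at h1
    exact absurd h1 (not_le.2 (Real.exp_pos _))
  intro z hz a
  have hcr : ∀ w ∈ ball (0 : Ph D j k → ℂ) (2 ^ n * P.r),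
      P.G n' a w * P.G0 n w - P.G n a w * P.G0 n' w = 0 := by
    refine ident ((((hP.Gana n' a).mono (ball_subset_ball hnn)).mul (hP.G0ana n)).sub
      ((hP.Gana n a).mul ((hP.G0ana n').mono (ball_subset_ball hnn)))) ?_
    filter_upwards [isOpen_ball.mem_nhds (mem_ball_self hr)] with w hw
    rw [hP.Geq n' a w hw, hP.Geq n a w hw]
    ring
  have hmem : ∀ z ∈ ball (0 : Ph D j k → ℂ) P.r,
      pe D j k p + z ∈ ball (0 : Ph D j k → ℂ) (2 ^ n * P.r) := by
    intro z hz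
    rw [mem_ball_zero_iff] at hz ⊢
    have := norm_add_le (pe D j k p) z
    linarith
  have had : DifferentiableOn ℂ (fun z : Ph D j k → ℂ => pe D j k p + z) (ball 0 P.r) := by
    fun_prop
  have hsub : ball (0 : Ph D j k → ℂ) P.r ⊆ ball (0 : Ph D j k → ℂ) (2 ^ n * P.r) :=
    ball_subset_ball hr1
  have hFc : ContinuousOn (fun z : Ph D j k → ℂ =>
      P.G n a (pe D j k p + z) * P.G0 n z - P.G n a z * P.G0 n (pe D j k p + z))
      (ball 0 P.r) :=
    ((((hP.Gana n a).comp had hmem).mul ((hP.G0ana n).mono hsub)).sub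
      (((hP.Gana n a).mono hsub).mul ((hP.G0ana n).comp had hmem))).continuousOn
  refine sub_eq_zero.1 (ident2 (u := P.G0 n') (l := pe D j k p) (ρ := 2 ^ n' * P.r)
    (fun w hw => ball_subset_ball hnn (hmem w hw)) (hP.G0ana n')
    (hG0 n' 0 (mem_ball_self hr)) hFc (fun w hw => ?_) z hz)
  have h1 := hcr _ (hmem w hw)
  have h2 := hcr w (hsub hw)
  have h3 := big n' hn1 (hn.trans hnn) a w hw
  refine (mul_eq_zero.1 (?_ : P.G0 n' w * _ = 0)).resolve_left (hG0 n' w hw)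
  linear_combination (-(P.G0 n w * P.G0 n' w)) * h1 +
    (P.G0 n (pe D j k p + w) * P.G0 n' (pe D j k p + w)) * h2 +
      (P.G0 n w * P.G0 n (pe D j k p + w)) * h3

/-- (JS4) periodicity -/
theorem per_of_std (hD : 3 ≤ D) (hj : 0 < j) (hk : 0 < k) (hjk : j + k < D)
    (hg : Nat.gcd (Nat.gcd j k) D = 1)
    (P : Pkg (Fin (Fintype.card (Ph D j k))) (Ph D j k)) (hP : P.Ok0) (hS : Std D j k P) :
    ∀ l ∈ Lam D j k, ∀ n, ‖l‖ + P.r ≤ 2 ^ n * P.r → ∀ z ∈ ball (0 : Ph D j k → ℂ) P.r, ∀ a,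
      P.G n a (l + z) * P.G0 n z = P.G n a z * P.G0 n (l + z) :=
  core hD hj hk hjk hg _ rfl P hP hS.eD hS.ej hS.ek hS.es hS.chart

end Pool.Agent.WW
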