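import Pool.Agent.WW.JR
import Pool.Agent.WW.JS3

set_option autoImplicit false

namespace Pool.Agent.WW

/-- (CURVE) the package of the primitive part of the Jacobian of `y^D = x^j (1-x)^k` -/
theorem curve_pkg (D j k : ℕ) (hD : 3 ≤ D) (hj : 0 < j) (hk : 0 < k) (hjk : j + k < D)
    (hg : Nat.gcd (Nat.gcd j k) D = 1) :
    ∃ (π : Type) (_ : Fintype π) (_ : DecidableEq π) (P : Pkg π (Ph D j k)),
      P.Ok ∧ P.Λ = Lam D j k := by
  obtain ⟨P, hP, hS⟩ := exists_pkg0 hD hj hk hjk hg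
  exact ⟨_, inferInstance, inferInstance, P.setL (Lam D j k),
    hP.ok P _ (per_of_std hD hj hk hjk hg P hP hS) (Lam_full hD hj hk hjk), rfl⟩

end Pool.Agent.WW
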