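import Pool.Agent.WW.CDefs

set_option autoImplicit false

namespace Pool.Agent.WW

open Polynomial

private lemma ze_prim {D : ℕ} (hD : 0 < D) : IsPrimitiveRoot (ze D) D :=
  Complex.isPrimitiveRoot_exp D hD.ne'

private lemma mod_pos' {D t j : ℕ} (ht : Nat.Coprime t D) (hj : 0 < j) (hjD : j < D) :
    0 < t * j % D := by
  rcases Nat.eq_zero_or_pos (t * j % D) with h | h
  · exfalso
    have h1 : D ∣ t * j := Nat.dvd_of_mod_eq_zero h
    have h2 : D ∣ j := (Nat.Coprime.symm ht).dvd_of_dvd_mul_left h1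
    exact absurd (Nat.le_of_dvd hj h2) (by omega)
  · exact h

/-- (FIN0a) the Beta values do not vanish -/
theorem be_ne_zero {D j k : ℕ} (hD : 3 ≤ D) (hj : 0 < j) (hk : 0 < k) (hjk : j + k < D)
    (t : Ph D j k) : be D j k t.1 ≠ 0 := by
  have hDpos : (0 : ℝ) < D := by
    have : 0 < D := by omega
    exact_mod_cast this
  have hre : ∀ a : ℕ, 0 < a → 0 < (((a : ℕ) : ℂ) / (D : ℂ)).re := by
    intro a ha
    have h1 : ((a : ℂ) / (D : ℂ)) = (((a : ℝ) / (D : ℝ) : ℝ) : ℂ) := by push_cast; rfl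
    rw [h1, Complex.ofReal_re]
    have : (0 : ℝ) < a := by exact_mod_cast ha
    positivity
  have h1 := hre _ (mod_pos' t.2.1 hj (by omega))
  have h2 := hre _ (mod_pos' t.2.1 hk (by omega))
  intro h
  have h3 := Complex.Gamma_mul_Gamma_eq_betaIntegral h1 h2
  unfold be at h
  rw [h, mul_zero] at h3
  rcases mul_eq_zero.1 h3 with h4 | h4
  · exact Complex.Gamma_ne_zero_of_re_pos h1 h4
  · exact Complex.Gamma_ne_zero_of_re_pos h2 h4

private lemma one_sub_ne {D j : ℕ} (hD : 0 < D) {t : ℕ} (ht : Nat.Coprime t D) (hj : 0 < j)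
    (hjD : j < D) : 1 - ze D ^ (t * j) ≠ 0 := by
  intro h
  have h1 : ze D ^ (t * j) = 1 := (sub_eq_zero.1 h).symm
  have h2 : D ∣ t * j := ((ze_prim hD).pow_eq_one_iff_dvd _).1 h1
  have h3 := mod_pos' ht hj hjD
  rw [Nat.mod_eq_zero_of_dvd h2] at h3
  exact lt_irrefl _ h3

/-- (FIN0b) the factors of the periods do not vanish -/
theorem pe_factor_ne_zero {D j k : ℕ} (hD : 3 ≤ D) (hj : 0 < j) (hk : 0 < k) (hjk : j + k < D)
    (t : Ph D j k) :
    (1 - ze D ^ ((t.1 : ℕ) * j)) * (1 - ze D ^ ((t.1 : ℕ) * k)) * be D j k t.1 ≠ 0 :=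
  mul_ne_zero (mul_ne_zero (one_sub_ne (by omega) t.2.1 hj (by omega))
    (one_sub_ne (by omega) t.2.1 hk (by omega))) (be_ne_zero hD hj hk hjk t)

/-- the nodes `ζ^t` and their conjugates -/
private noncomputable def node (D j k : ℕ) : Ph D j k ⊕ Ph D j k → ℂ :=
  Sum.elim (fun t => ze D ^ (t.1 : ℕ)) (fun t => starRingEnd ℂ (ze D ^ (t.1 : ℕ)))

private lemma conj_ze {D : ℕ} : starRingEnd ℂ (ze D) * ze D = 1 := by
  rw [mul_comm, Complex.mul_conj, Complex.normSq_eq_norm_sq]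
  have : ‖ze D‖ = 1 := by
    unfold ze
    have h1 : (2 * (Real.pi : ℂ) * Complex.I / D) = ((2 * Real.pi / D : ℝ) : ℂ) * Complex.I := by
      push_cast; ring
    rw [h1, Complex.norm_exp_ofReal_mul_I]
  rw [this]
  norm_num

private lemma node_inj {D j k : ℕ} (hD : 3 ≤ D) (hj : 0 < j) (hk : 0 < k) (hjk : j + k < D) :
    Function.Injective (node D j k) := by
  have hz := ze_prim (D := D) (by omega)
  have h1 : ∀ t t' : Ph D j k, ze D ^ (t.1 : ℕ) = ze D ^ (t'.1 : ℕ) → t = t' := by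
    intro t t' h
    apply Subtype.ext
    apply Fin.ext
    exact hz.pow_inj t.1.2 t'.1.2 h
  have h2 : ∀ t t' : Ph D j k, ze D ^ (t.1 : ℕ) ≠ starRingEnd ℂ (ze D ^ (t'.1 : ℕ)) := by
    intro t t' h
    have h3 : ze D ^ ((t.1 : ℕ) + (t'.1 : ℕ)) = 1 := by
      rw [pow_add, h, map_pow, ← mul_pow, conj_ze, one_pow]
    have h4 : D ∣ (t.1 : ℕ) + (t'.1 : ℕ) := (hz.pow_eq_one_iff_dvd _).1 h3
    have h5 : ∀ i : ℕ, 0 < i → i < D → (t.1 : ℕ) * i % D + (t'.1 : ℕ) * i % D = D := by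
      intro i hi hiD
      have h6 := mod_pos' t.2.1 hi hiD
      have h7 := mod_pos' t'.2.1 hi hiD
      have h8 : D ∣ (t.1 : ℕ) * i % D + (t'.1 : ℕ) * i % D := by
        rw [Nat.dvd_iff_mod_eq_zero, ← Nat.add_mod, ← add_mul]
        exact Nat.mod_eq_zero_of_dvd (Dvd.dvd.mul_right h4 i)
      have h9 : (t.1 : ℕ) * i % D < D := Nat.mod_lt _ (by omega)
      have h10 : (t'.1 : ℕ) * i % D < D := Nat.mod_lt _ (by omega)
      obtain ⟨c, hc⟩ := h8
      have hc1 : c = 1 := by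
        rcases Nat.lt_or_ge c 1 with hlt | hge
        · interval_cases c; omega
        · rcases Nat.lt_or_ge c 2 with hlt | hge2
          · omega
          · have : D * 2 ≤ D * c := Nat.mul_le_mul_left D hge2
            omega
      rw [hc, hc1, mul_one]
    have h6 := h5 j hj (by omega)
    have h7 := h5 k hk (by omega)
    have h8 := t.2.2
    have h9 := t'.2.2
    omega
  rintro (t | t) (t' | t') h
  · rw [h1 t t' h]
  · exact absurd h (h2 t t')
  · exact absurd h.symm (h2 t' t)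
  · have h3 : ze D ^ (t.1 : ℕ) = ze D ^ (t'.1 : ℕ) := (starRingEnd ℂ).injective h
    rw [h1 t t' h3]

/-- (FIN0c) the periods span -/
theorem Lam_full {D j k : ℕ} (hD : 3 ≤ D) (hj : 0 < j) (hk : 0 < k) (hjk : j + k < D) :
    Submodule.span ℝ (Lam D j k : Set (Ph D j k → ℂ)) = ⊤ := by
  classical
  rw [eq_top_iff]
  intro z _
  obtain ⟨f, hf⟩ : ∃ f : Ph D j k → ℂ, ∀ t, f t = (1 - ze D ^ ((t.1 : ℕ) * j)) *
      (1 - ze D ^ ((t.1 : ℕ) * k)) * be D j k t.1 := ⟨_, fun _ => rfl⟩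
  have hf0 : ∀ t, f t ≠ 0 := fun t => by rw [hf]; exact pe_factor_ne_zero hD hj hk hjk t
  obtain ⟨q, hq⟩ : ∃ q : ℂ[X], q = Lagrange.interpolate Finset.univ (node D j k)
      (Sum.elim (fun t => z t / f t) (fun t => starRingEnd ℂ (z t / f t))) := ⟨_, rfl⟩
  have hinj : Set.InjOn (node D j k) ((Finset.univ : Finset (Ph D j k ⊕ Ph D j k)) : Set _) :=
    (node_inj hD hj hk hjk).injOn
  have hq1 : ∀ t : Ph D j k, q.eval (ze D ^ (t.1 : ℕ)) = z t / f t := by
    intro t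
    have := Lagrange.eval_interpolate_at_node
      (r := Sum.elim (fun t => z t / f t) (fun t => starRingEnd ℂ (z t / f t))) hinj
      (Finset.mem_univ (Sum.inl t))
    rw [← hq] at this
    exact this
  have hq2 : ∀ t : Ph D j k, q.eval (starRingEnd ℂ (ze D ^ (t.1 : ℕ))) =
      starRingEnd ℂ (z t / f t) := by
    intro t
    have := Lagrange.eval_interpolate_at_node
      (r := Sum.elim (fun t => z t / f t) (fun t => starRingEnd ℂ (z t / f t))) hinj
      (Finset.mem_univ (Sum.inr t))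
    rw [← hq] at this
    exact this
  have hz : z = ∑ i ∈ Finset.range (q.natDegree + 1), (q.coeff i).re • pe D j k (X ^ i) := by
    funext t
    rw [Finset.sum_apply]
    have h1 : ∀ i, ((q.coeff i).re • pe D j k (X ^ i)) t =
        (q.coeff i * (ze D ^ (t.1 : ℕ)) ^ i +
          starRingEnd ℂ (q.coeff i * (starRingEnd ℂ (ze D ^ (t.1 : ℕ))) ^ i)) / 2 * f t := by
      intro i
      rw [Pi.smul_apply, pe, ← hf, map_pow, aeval_X, Complex.real_smul, map_mul, map_pow,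
        Complex.conj_conj, Complex.re_eq_add_conj]
      ring
    rw [Finset.sum_congr rfl (fun i _ => h1 i), ← Finset.sum_mul, ← Finset.sum_div,
      Finset.sum_add_distrib, ← map_sum, ← eval_eq_sum_range, ← eval_eq_sum_range, hq1, hq2,
      Complex.conj_conj]
    have := hf0 t
    field_simp
    ring
  rw [hz]
  refine Submodule.sum_mem _ fun i _ => Submodule.smul_mem _ _ (Submodule.subset_span ?_)
  exact ⟨X ^ i, rfl⟩

/-- (FIN0d) an integral relation between roots of unity can be conjugated -/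
theorem conj_rel {D₁ D₂ : ℕ} (h₁ : 0 < D₁) (h₂ : 0 < D₂) (x x0 y y0 : Polynomial ℤ) (t : ℕ)
    (ht : Nat.Coprime t (D₁ * D₂))
    (h : Polynomial.aeval (ze D₁) x * Polynomial.aeval (ze D₂) y0 =
      Polynomial.aeval (ze D₂) y * Polynomial.aeval (ze D₁) x0) :
    Polynomial.aeval (ze D₁ ^ t) x * Polynomial.aeval (ze D₂ ^ t) y0 =
      Polynomial.aeval (ze D₂ ^ t) y * Polynomial.aeval (ze D₁ ^ t) x0 := by
  have hD : 0 < D₁ * D₂ := Nat.mul_pos h₁ h₂
  obtain ⟨ζ, hζ⟩ : ∃ ζ, ζ = ze (D₁ * D₂) := ⟨_, rfl⟩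
  have hp : IsPrimitiveRoot ζ (D₁ * D₂) := by rw [hζ]; exact ze_prim hD
  have hD₁ : (D₁ : ℂ) ≠ 0 := by exact_mod_cast h₁.ne'
  have hD₂ : (D₂ : ℂ) ≠ 0 := by exact_mod_cast h₂.ne'
  have hz1 : ze D₁ = ζ ^ D₂ := by
    rw [hζ]
    unfold ze
    rw [← Complex.exp_nat_mul]
    congr 1
    push_cast
    field_simp
  have hz2 : ze D₂ = ζ ^ D₁ := by
    rw [hζ]
    unfold ze
    rw [← Complex.exp_nat_mul]
    congr 1
    push_cast
    field_simp
  obtain ⟨F, hF⟩ : ∃ F : ℤ[X], F = (expand ℤ D₂ x) * (expand ℤ D₁ y0) -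
    (expand ℤ D₁ y) * (expand ℤ D₂ x0) := ⟨_, rfl⟩
  have hFv : ∀ w : ℂ, aeval w F = aeval (w ^ D₂) x * aeval (w ^ D₁) y0 -
      aeval (w ^ D₁) y * aeval (w ^ D₂) x0 := by
    intro w
    rw [hF, map_sub, map_mul, map_mul, expand_aeval, expand_aeval, expand_aeval, expand_aeval]
  have hF0 : aeval ζ F = 0 := by
    rw [hFv, ← hz1, ← hz2, h, sub_self]
  have hdvd : minpoly ℤ ζ ∣ F := minpoly.isIntegrallyClosed_dvd (hp.isIntegral hD) hF0
  have hmp := hp.minpoly_eq_pow_coprime ht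
  have hFt : aeval (ζ ^ t) F = 0 := by
    obtain ⟨R, hR⟩ := hdvd
    rw [hR, map_mul, hmp, minpoly.aeval, zero_mul]
  rw [hFv, sub_eq_zero] at hFt
  have e1 : (ζ ^ t) ^ D₂ = ze D₁ ^ t := by rw [hz1, ← pow_mul, ← pow_mul, mul_comm]
  have e2 : (ζ ^ t) ^ D₁ = ze D₂ ^ t := by rw [hz2, ← pow_mul, ← pow_mul, mul_comm]
  rw [e1, e2] at hFt
  exact hFt

end Pool.Agent.WW
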