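import Pool.Agent.WW.Fin0

set_option autoImplicit false

namespace Pool.Agent.WW

/-- the index `t = 1` -/
def ph1 {D j k : ℕ} (hD : 3 ≤ D) (hj : 0 < j) (hk : 0 < k) (hjk : j + k < D) : Ph D j k :=
  ⟨⟨1, by omega⟩, by
    refine ⟨Nat.coprime_one_left D, ?_⟩
    show 1 * j % D + 1 * k % D < D
    rw [one_mul, one_mul, Nat.mod_eq_of_lt (by omega), Nat.mod_eq_of_lt (by omega)]
    exact hjk⟩

namespace Fin1

open ComplexConjugate

theorem ze_prim {D : ℕ} (hD : 0 < D) : IsPrimitiveRoot (ze D) D :=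
  Complex.isPrimitiveRoot_exp D hD.ne'

theorem ze_ne {D : ℕ} : ze D ≠ 0 := Complex.exp_ne_zero _

theorem ze_mod {D : ℕ} (hD : 0 < D) (t : ℕ) : ze D ^ (t % D) = ze D ^ t :=
  (pow_eq_pow_mod t (ze_prim hD).pow_eq_one).symm

theorem conj_ze (D : ℕ) : conj (ze D) = (ze D)⁻¹ := by
  unfold ze
  rw [← Complex.exp_conj, ← Complex.exp_neg]
  congr 1
  simp only [map_div₀, map_mul, Complex.conj_I, Complex.conj_ofReal, map_ofNat, map_natCast]
  ring

theorem aeval_conj (w : ℂ) (p : Polynomial ℤ) :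
    Polynomial.aeval (conj w) p = conj (Polynomial.aeval w p) := by
  rw [Polynomial.aeval_def, Polynomial.aeval_def, Polynomial.hom_eval₂]
  congr 1
  exact RingHom.ext_int _ _

theorem zero_conj {D : ℕ} (hD : 0 < D) (x : Polynomial ℤ) (s : ℕ) (hs : Nat.Coprime s D)
    (h : Polynomial.aeval (ze D) x = 0) : Polynomial.aeval (ze D ^ s) x = 0 := by
  have := conj_rel (D₁ := D) (D₂ := 1) hD one_pos x 0 0 1 s (by simpa using hs)
    (by simp [h])
  simpa using this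

theorem coprime_mod {t D : ℕ} : Nat.Coprime (t % D) D ↔ Nat.Coprime t D := by
  rw [Nat.coprime_comm, Nat.coprime_comm (n := t), Nat.Coprime, Nat.Coprime, Nat.gcd_rec,
    Nat.mod_mod, ← Nat.gcd_rec]

theorem zero_back {D : ℕ} (hD : 3 ≤ D) (x : Polynomial ℤ) (t : ℕ) (ht : Nat.Coprime t D)
    (h : Polynomial.aeval (ze D ^ t) x = 0) : Polynomial.aeval (ze D) x = 0 := by
  obtain ⟨m, _, hm⟩ := Nat.exists_mul_mod_eq_one_of_coprime ht (by omega)
  have hmc : Nat.Coprime m D := by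
    have h1 : Nat.Coprime (t * m) D := by
      rw [← coprime_mod, hm]
      exact Nat.coprime_one_left D
    exact Nat.Coprime.coprime_mul_left h1
  have h1 : Polynomial.aeval (ze D) (Polynomial.expand ℤ t x) = 0 := by
    rw [Polynomial.expand_aeval]
    exact h
  have h2 := zero_conj (by omega) _ m hmc h1
  rw [Polynomial.expand_aeval, ← pow_mul, mul_comm m t, ← ze_mod (by omega) (t * m), hm,
    pow_one] at h2
  exact h2

theorem not_dvd {D j t : ℕ} (ht : Nat.Coprime t D) (hj : 0 < j) (hjD : j < D) :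
    t * j % D ≠ 0 := by
  intro h
  have h1 : D ∣ t * j := Nat.dvd_of_mod_eq_zero h
  have h2 : D ∣ j := (Nat.Coprime.symm ht).dvd_of_dvd_mul_left h1
  exact absurd (Nat.le_of_dvd hj h2) (by omega)

theorem neg_mod {D j t : ℕ} (hD : 0 < D) (ht : Nat.Coprime t D) (hj : 0 < j) (hjD : j < D)
    (htD : t % D < D) : (D - t % D) * j % D + t * j % D = D := by
  have h0 := not_dvd ht hj hjD
  have h1 : ((D - t % D) * j + (t % D) * j) % D = 0 := by
    rw [← add_mul, Nat.sub_add_cancel htD.le]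
    exact Nat.mul_mod_right D j
  have h2 : (t % D) * j % D = t * j % D := by
    rw [Nat.mod_mul_mod]
  rw [Nat.add_mod, h2] at h1
  have h3 : (D - t % D) * j % D < D := Nat.mod_lt _ hD
  have h4 : t * j % D < D := Nat.mod_lt _ hD
  set a := (D - t % D) * j % D
  set b := t * j % D
  have h5 : D ∣ a + b := Nat.dvd_of_mod_eq_zero h1
  obtain ⟨c, hc⟩ := h5
  have hc1 : c < 2 := by
    by_contra hcon
    have : D * 2 ≤ D * c := Nat.mul_le_mul_left D (by omega)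
    omega
  have hc2 : c ≠ 0 := by
    rintro rfl
    omega
  have hc3 : c = 1 := by omega
  rw [hc, hc3, mul_one]

/-- positive index -/
theorem exA {D j k : ℕ} (hD : 3 ≤ D) (hj : 0 < j) (hk : 0 < k) (hjk : j + k < D) (t : ℕ)
    (ht : Nat.Coprime t D) (h : t * j % D + t * k % D < D) :
    ∃ (s : Ph D j k) (F : ℂ), F ≠ 0 ∧
      ∀ p, pe D j k p s = Polynomial.aeval (ze D ^ t) p * F := by
  have hlt : t % D < D := Nat.mod_lt _ (by omega)
  have hc : Nat.Coprime (t % D) D := coprime_mod.mpr ht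
  refine ⟨⟨⟨t % D, hlt⟩, hc, ?_⟩, _, pe_factor_ne_zero hD hj hk hjk ⟨⟨t % D, hlt⟩, hc, ?_⟩, ?_⟩
  · show t % D * j % D + t % D * k % D < D
    rw [Nat.mod_mul_mod, Nat.mod_mul_mod]
    exact h
  · show t % D * j % D + t % D * k % D < D
    rw [Nat.mod_mul_mod, Nat.mod_mul_mod]
    exact h
  · intro p
    unfold pe
    show Polynomial.aeval (ze D ^ (t % D)) p * _ = _
    rw [ze_mod (by omega)]

/-- negative index -/
theorem exB {D j k : ℕ} (hD : 3 ≤ D) (hj : 0 < j) (hk : 0 < k) (hjk : j + k < D) (t : ℕ)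
    (ht : Nat.Coprime t D) (h : ¬ (t * j % D + t * k % D < D)) :
    ∃ (s : Ph D j k) (F : ℂ), F ≠ 0 ∧
      ∀ p, pe D j k p s = conj (Polynomial.aeval (ze D ^ t) p) * F := by
  have hlt : t % D < D := Nat.mod_lt _ (by omega)
  have hc : Nat.Coprime (t % D) D := coprime_mod.mpr ht
  have hpos : 0 < t % D := by
    rcases Nat.eq_zero_or_pos (t % D) with h0 | h0
    · rw [h0] at hc
      simp at hc
      omega
    · exact h0
  have hlt' : D - t % D < D := by omega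
  have hc' : Nat.Coprime (D - t % D) D := by
    rw [Nat.coprime_comm]
    exact (Nat.coprime_self_sub_right hlt.le).mpr (Nat.coprime_comm.mp hc)
  have hJ := neg_mod (D := D) (j := j) (t := t) (by omega) ht hj (by omega) hlt
  have hK := neg_mod (D := D) (j := k) (t := t) (by omega) ht hk (by omega) hlt
  have hS := not_dvd (D := D) (j := j + k) (t := t) ht (by omega) hjk
  have hlt2 : (D - t % D) * j % D + (D - t % D) * k % D < D := by
    have h6 : t * j % D + t * k % D ≠ D := by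
      intro h7
      apply hS
      rw [mul_add, Nat.add_mod, h7]
      exact Nat.mod_self D
    omega
  refine ⟨⟨⟨D - t % D, hlt'⟩, hc', hlt2⟩, _,
    pe_factor_ne_zero hD hj hk hjk ⟨⟨D - t % D, hlt'⟩, hc', hlt2⟩, ?_⟩
  intro p
  unfold pe
  show Polynomial.aeval (ze D ^ (D - t % D)) p * _ = _
  have h8 : ze D ^ (D - t % D) = conj (ze D ^ t) := by
    rw [map_pow, conj_ze, inv_pow, ← mul_eq_one_iff_eq_inv₀ (pow_ne_zero _ ze_ne),
      ← ze_mod (by omega) t, ← pow_add, Nat.sub_add_cancel hlt.le]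
    exact (ze_prim (by omega)).pow_eq_one
  rw [h8, aeval_conj]

/-- a real relation between a linear form and a conjugate linear form -/
theorem real_rel {V : Type} [AddCommGroup V] [Module ℂ V] (N : Submodule ℂ V) (S : Set V)
    (hS : Submodule.span ℝ S = N.restrictScalars ℝ) (f g : V →ₗ[ℂ] ℂ) (κ : ℂ)
    (h : ∀ z ∈ S, g z = κ * conj (f z)) (z : V) (hz : z ∈ N) : g z = 0 := by
  have key : ∀ z ∈ N, g z = κ * conj (f z) := by
    intro z hz
    have hz' : z ∈ Submodule.span ℝ S := by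
      rw [hS]
      exact hz
    induction hz' using Submodule.span_induction with
    | mem x hx => exact h x hx
    | zero => simp
    | add x y hx hy ihx ihy =>
      rw [map_add, map_add, map_add, ihx (by rw [hS] at hx; exact hx),
        ihy (by rw [hS] at hy; exact hy)]
      ring
    | smul a x hx ihx =>
      have e1 : g (a • x) = (a : ℂ) * g x := by
        rw [← smul_eq_mul, ← map_smul]
        rfl
      have e2 : f (a • x) = (a : ℂ) * f x := by
        rw [← smul_eq_mul, ← map_smul]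
        rfl
      rw [e1, e2, map_mul, Complex.conj_ofReal, ihx (by rw [hS] at hx; exact hx)]
      ring
  have h1 := key z hz
  have h2 := key (Complex.I • z) (N.smul_mem _ hz)
  rw [map_smul, map_smul, smul_eq_mul, smul_eq_mul, map_mul, Complex.conj_I] at h2
  have h4 : Complex.I * g z = 0 := by
    linear_combination (1 / 2 : ℂ) * h2 + (Complex.I / 2) * h1
  rcases mul_eq_zero.mp h4 with h5 | h5
  · exact absurd h5 Complex.I_ne_zero
  · exact h5

end Fin1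

/-- (FIN1) if the types differ at `t`, a complex subspace of the hyperplane `z_1 = α z'_1` is not
spanned over the reals by periods -/
theorem no_sub {D₁ j₁ k₁ D₂ j₂ k₂ : ℕ} (hD₁ : 3 ≤ D₁) (hj₁ : 0 < j₁) (hk₁ : 0 < k₁)
    (hjk₁ : j₁ + k₁ < D₁) (hD₂ : 3 ≤ D₂) (hj₂ : 0 < j₂) (hk₂ : 0 < k₂) (hjk₂ : j₂ + k₂ < D₂)
    (α : ℂ) (hα : α ≠ 0) (t : ℕ) (ht : Nat.Coprime t (D₁ * D₂))
    (hne : ¬ (t * j₁ % D₁ + t * k₁ % D₁ < D₁ ↔ t * j₂ % D₂ + t * k₂ % D₂ < D₂))
    (N : Submodule ℂ (Ph D₁ j₁ k₁ ⊕ Ph D₂ j₂ k₂ → ℂ)) (hN : N ≠ ⊥)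
    (hV : ∀ z ∈ N, z (Sum.inl (ph1 hD₁ hj₁ hk₁ hjk₁)) = α * z (Sum.inr (ph1 hD₂ hj₂ hk₂ hjk₂))) :
    Submodule.span ℝ {z : Ph D₁ j₁ k₁ ⊕ Ph D₂ j₂ k₂ → ℂ | z ∈ N ∧
      (fun i => z (Sum.inl i)) ∈ Lam D₁ j₁ k₁ ∧ (fun i => z (Sum.inr i)) ∈ Lam D₂ j₂ k₂} ≠
      N.restrictScalars ℝ := by
  intro hspan
  have ht1 : Nat.Coprime t D₁ := Nat.Coprime.coprime_mul_right_right ht
  have ht2 : Nat.Coprime t D₂ := Nat.Coprime.coprime_mul_left_right ht
  set S := {z : Ph D₁ j₁ k₁ ⊕ Ph D₂ j₂ k₂ → ℂ | z ∈ N ∧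
      (fun i => z (Sum.inl i)) ∈ Lam D₁ j₁ k₁ ∧ (fun i => z (Sum.inr i)) ∈ Lam D₂ j₂ k₂} with hSdef
  -- a nonzero element of S
  obtain ⟨z0, hz0S, hz0⟩ : ∃ z0 ∈ S, z0 ≠ 0 := by
    by_contra hcon
    push Not at hcon
    apply hN
    have h1 : Submodule.span ℝ S = ⊥ := Submodule.span_eq_bot.mpr hcon
    rw [h1] at hspan
    rw [Submodule.eq_bot_iff]
    intro z hz
    have : z ∈ N.restrictScalars ℝ := hz
    rw [← hspan] at this
    simpa using this
  obtain ⟨hz0N, ⟨x0, hx0⟩, ⟨y0, hy0⟩⟩ := hz0S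
  have hx0' : ∀ i, z0 (Sum.inl i) = pe D₁ j₁ k₁ x0 i := fun i => congrFun hx0 i
  have hy0' : ∀ i, z0 (Sum.inr i) = pe D₂ j₂ k₂ y0 i := fun i => congrFun hy0 i
  -- factors at 1
  set f1 := (1 - ze D₁ ^ (((ph1 hD₁ hj₁ hk₁ hjk₁).1 : ℕ) * j₁)) *
    (1 - ze D₁ ^ (((ph1 hD₁ hj₁ hk₁ hjk₁).1 : ℕ) * k₁)) *
    be D₁ j₁ k₁ (ph1 hD₁ hj₁ hk₁ hjk₁).1 with hf1
  set f2 := (1 - ze D₂ ^ (((ph1 hD₂ hj₂ hk₂ hjk₂).1 : ℕ) * j₂)) *
    (1 - ze D₂ ^ (((ph1 hD₂ hj₂ hk₂ hjk₂).1 : ℕ) * k₂)) *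
    be D₂ j₂ k₂ (ph1 hD₂ hj₂ hk₂ hjk₂).1 with hf2
  have hf1n : f1 ≠ 0 := pe_factor_ne_zero hD₁ hj₁ hk₁ hjk₁ _
  have hf2n : f2 ≠ 0 := pe_factor_ne_zero hD₂ hj₂ hk₂ hjk₂ _
  have hpe1 : ∀ p, pe D₁ j₁ k₁ p (ph1 hD₁ hj₁ hk₁ hjk₁) = Polynomial.aeval (ze D₁) p * f1 := by
    intro p
    unfold pe
    show Polynomial.aeval (ze D₁ ^ 1) p * _ = _
    rw [pow_one]
  have hpe2 : ∀ p, pe D₂ j₂ k₂ p (ph1 hD₂ hj₂ hk₂ hjk₂) = Polynomial.aeval (ze D₂) p * f2 := by
    intro p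
    unfold pe
    show Polynomial.aeval (ze D₂ ^ 1) p * _ = _
    rw [pow_one]
  have h0 : Polynomial.aeval (ze D₁) x0 * f1 = α * (Polynomial.aeval (ze D₂) y0 * f2) := by
    have := hV z0 hz0N
    rw [hx0', hy0', hpe1, hpe2] at this
    exact this
  -- the values of x0 and y0 do not vanish
  have hx0n : Polynomial.aeval (ze D₁) x0 ≠ 0 := by
    intro hx
    rw [hx, zero_mul] at h0
    have hy : Polynomial.aeval (ze D₂) y0 = 0 := by
      rcases mul_eq_zero.mp h0.symm with h | h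
      · exact absurd h hα
      · rcases mul_eq_zero.mp h with h | h
        · exact h
        · exact absurd h hf2n
    apply hz0
    funext i
    rcases i with i | i
    · rw [hx0']
      unfold pe
      rw [Fin1.zero_conj (by omega) x0 _ i.2.1 hx, zero_mul]
      rfl
    · rw [hy0']
      unfold pe
      rw [Fin1.zero_conj (by omega) y0 _ i.2.1 hy, zero_mul]
      rfl
  have hy0n : Polynomial.aeval (ze D₂) y0 ≠ 0 := by
    intro hy
    rw [hy, zero_mul, mul_zero] at h0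
    rcases mul_eq_zero.mp h0 with h | h
    · exact hx0n h
    · exact hf1n h
  have hx0t : Polynomial.aeval (ze D₁ ^ t) x0 ≠ 0 := fun h => hx0n (Fin1.zero_back hD₁ x0 t ht1 h)
  have hy0t : Polynomial.aeval (ze D₂ ^ t) y0 ≠ 0 := fun h => hy0n (Fin1.zero_back hD₂ y0 t ht2 h)
  -- the relation at t
  have hrel : ∀ (z : Ph D₁ j₁ k₁ ⊕ Ph D₂ j₂ k₂ → ℂ) (x y : Polynomial ℤ), z ∈ N →
      (∀ i, z (Sum.inl i) = pe D₁ j₁ k₁ x i) → (∀ i, z (Sum.inr i) = pe D₂ j₂ k₂ y i) →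
      Polynomial.aeval (ze D₁ ^ t) x * Polynomial.aeval (ze D₂ ^ t) y0 =
      Polynomial.aeval (ze D₂ ^ t) y * Polynomial.aeval (ze D₁ ^ t) x0 := by
    intro z x y hz hx hy
    apply conj_rel (by omega) (by omega) x x0 y y0 t ht
    have h1 := hV z hz
    rw [hx, hy, hpe1, hpe2] at h1
    have h2 : f1 * (f2 * α) ≠ 0 := mul_ne_zero hf1n (mul_ne_zero hf2n hα)
    apply mul_right_cancel₀ h2
    linear_combination (Polynomial.aeval (ze D₂) y0 * f2 * α) * h1 -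
      (α * Polynomial.aeval (ze D₂) y * f2) * h0
  by_cases hA : t * j₁ % D₁ + t * k₁ % D₁ < D₁
  · have hB : ¬ (t * j₂ % D₂ + t * k₂ % D₂ < D₂) := fun h => hne ⟨fun _ => h, fun _ => hA⟩
    obtain ⟨s1, F1, hF1, hs1⟩ := Fin1.exA hD₁ hj₁ hk₁ hjk₁ t ht1 hA
    obtain ⟨s2, F2, hF2, hs2⟩ := Fin1.exB hD₂ hj₂ hk₂ hjk₂ t ht2 hB
    have h1 := Fin1.real_rel N S hspan (LinearMap.proj (Sum.inl s1)) (LinearMap.proj (Sum.inr s2))
      (F2 * (starRingEnd ℂ) (Polynomial.aeval (ze D₂ ^ t) y0 /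
        (Polynomial.aeval (ze D₁ ^ t) x0 * F1))) (by
        rintro z ⟨hz, ⟨x, hx⟩, ⟨y, hy⟩⟩
        have hr := hrel z x y hz (fun i => congrFun hx i) (fun i => congrFun hy i)
        have e1 : z (Sum.inl s1) = Polynomial.aeval (ze D₁ ^ t) x * F1 :=
          (congrFun hx s1).trans (hs1 x)
        have e2 : z (Sum.inr s2) = (starRingEnd ℂ) (Polynomial.aeval (ze D₂ ^ t) y) * F2 :=
          (congrFun hy s2).trans (hs2 y)
        simp only [LinearMap.coe_proj, Function.eval]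
        rw [e1, e2, mul_comm _ F2, mul_assoc, ← map_mul]
        congr 2
        rw [div_mul_eq_mul_div, eq_div_iff (mul_ne_zero hx0t hF1)]
        linear_combination (-F1) * hr) z0 hz0N
    simp only [LinearMap.coe_proj, Function.eval] at h1
    rw [hy0', hs2] at h1
    rcases mul_eq_zero.mp h1 with h | h
    · exact hy0t ((map_eq_zero _).mp h)
    · exact hF2 h
  · have hB : t * j₂ % D₂ + t * k₂ % D₂ < D₂ := by
      by_contra hB
      exact hne ⟨fun h => absurd h hA, fun h => absurd h hB⟩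
    obtain ⟨s1, F1, hF1, hs1⟩ := Fin1.exB hD₁ hj₁ hk₁ hjk₁ t ht1 hA
    obtain ⟨s2, F2, hF2, hs2⟩ := Fin1.exA hD₂ hj₂ hk₂ hjk₂ t ht2 hB
    have h1 := Fin1.real_rel N S hspan (LinearMap.proj (Sum.inr s2)) (LinearMap.proj (Sum.inl s1))
      (F1 * (starRingEnd ℂ) (Polynomial.aeval (ze D₁ ^ t) x0 /
        (Polynomial.aeval (ze D₂ ^ t) y0 * F2))) (by
        rintro z ⟨hz, ⟨x, hx⟩, ⟨y, hy⟩⟩
        have hr := hrel z x y hz (fun i => congrFun hx i) (fun i => congrFun hy i)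
        have e1 : z (Sum.inl s1) = (starRingEnd ℂ) (Polynomial.aeval (ze D₁ ^ t) x) * F1 :=
          (congrFun hx s1).trans (hs1 x)
        have e2 : z (Sum.inr s2) = Polynomial.aeval (ze D₂ ^ t) y * F2 :=
          (congrFun hy s2).trans (hs2 y)
        simp only [LinearMap.coe_proj, Function.eval]
        rw [e1, e2, mul_comm _ F1, mul_assoc, ← map_mul]
        congr 2
        rw [div_mul_eq_mul_div, eq_div_iff (mul_ne_zero hy0t hF2)]
        linear_combination F2 * hr) z0 hz0N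
    simp only [LinearMap.coe_proj, Function.eval] at h1
    rw [hx0', hs1] at h1
    rcases mul_eq_zero.mp h1 with h | h
    · exact hx0t ((map_eq_zero _).mp h)
    · exact hF1 h

end Pool.Agent.WW
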