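import Pool.Agent.WW.PS

set_option autoImplicit false

namespace Pool.Agent.WW

open MvPolynomial Metric

private theorem algC_iff {τ : Type} (p : MvPolynomial τ ℂ) :
    AlgC p ↔ ∀ a, p.coeff a ∈ algebraicClosure ℚ ℂ := by
  simp only [AlgC, mem_algebraicClosure_iff]

private theorem algC_mul {τ : Type} [DecidableEq τ] {p q : MvPolynomial τ ℂ} (hp : AlgC p) (hq : AlgC q) :
    AlgC (p * q) := by
  rw [algC_iff] at *
  intro a
  rw [coeff_mul]
  exact sum_mem fun x _ => mul_mem (hp _) (hq _)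

private theorem algC_sum {τ σ : Type} (s : Finset σ) (f : σ → MvPolynomial τ ℂ)
    (h : ∀ i ∈ s, AlgC (f i)) : AlgC (∑ i ∈ s, f i) := by
  rw [algC_iff]
  intro a
  rw [coeff_sum]
  exact sum_mem fun i hi => (algC_iff _).1 (h i hi) a

private theorem algC_C {τ : Type} [DecidableEq τ] {c : ℂ} (hc : IsAlgebraic ℚ c) :
    AlgC (C c : MvPolynomial τ ℂ) := by
  rw [algC_iff]
  intro a
  rw [coeff_C]
  split_ifs
  · rwa [mem_algebraicClosure_iff]
  · exact zero_mem _

/-- (PL) linear change of coordinates `z = E z'` with algebraic coefficients -/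
theorem Pkg.Ok.lin {π ι ι' : Type} [Fintype π] [Fintype ι] [DecidableEq π] [DecidableEq ι]
    [Fintype ι'] [DecidableEq ι'] (P : Pkg π ι) (hP : P.Ok) (E : Matrix ι ι' ℂ)
    (E' : Matrix ι' ι ℂ) (h : E * E' = 1) (h' : E' * E = 1) (hE : ∀ i i', IsAlgebraic ℚ (E i i'))
    (hE' : ∀ i i', IsAlgebraic ℚ (E' i i')) :
    ∃ P' : Pkg π ι', P'.Ok ∧ ∀ z : ι' → ℂ, z ∈ P'.Λ ↔ E.mulVec z ∈ P.Λ := by
  classical
  let A : (ι' → ℂ) ≃L[ℂ] (ι → ℂ) := (Matrix.toLin'OfInv h' h).toContinuousLinearEquiv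
  have hA : ∀ z, A z = E.mulVec z := fun z => rfl
  let c : ℝ := 1 + ‖(A : (ι' → ℂ) →L[ℂ] (ι → ℂ))‖
  have hc1 : 1 ≤ c := by
    have := norm_nonneg (A : (ι' → ℂ) →L[ℂ] (ι → ℂ))
    show 1 ≤ 1 + ‖(A : (ι' → ℂ) →L[ℂ] (ι → ℂ))‖
    linarith
  have hc0 : 0 < c := by linarith
  have hAle : ∀ z, ‖A z‖ ≤ c * ‖z‖ := by
    intro z
    refine ((A : (ι' → ℂ) →L[ℂ] (ι → ℂ)).le_opNorm z).trans ?_
    refine mul_le_mul_of_nonneg_right ?_ (norm_nonneg z)
    show ‖(A : (ι' → ℂ) →L[ℂ] (ι → ℂ))‖ ≤ 1 + ‖(A : (ι' → ℂ) →L[ℂ] (ι → ℂ))‖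
    linarith
  have hball : ∀ (s : ℝ) (z : ι' → ℂ), z ∈ ball (0 : ι' → ℂ) (s / c) → A z ∈ ball (0 : ι → ℂ) s := by
    intro s z hz
    rw [mem_ball_zero_iff] at hz ⊢
    refine (hAle z).trans_lt ?_
    rw [lt_div_iff₀ hc0] at hz
    linarith
  have hballr : ∀ z, z ∈ ball (0 : ι' → ℂ) (P.r / c) → A z ∈ ball (0 : ι → ℂ) P.r := hball P.r
  have hball2 : ∀ z, z ∈ ball (0 : ι' → ℂ) (P.r / c / 2) → A z ∈ ball (0 : ι → ℂ) (P.r / 2) := by
    intro z hz
    refine hball (P.r / 2) z ?_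
    have : P.r / 2 / c = P.r / c / 2 := by ring
    rwa [this]
  have hballn : ∀ (n : ℕ) z, z ∈ ball (0 : ι' → ℂ) (2 ^ n * (P.r / c)) →
      A z ∈ ball (0 : ι → ℂ) (2 ^ n * P.r) := by
    intro n z hz
    refine hball (2 ^ n * P.r) z ?_
    have : 2 ^ n * P.r / c = 2 ^ n * (P.r / c) := by ring
    rwa [this]
  have hAsingle : ∀ t' : ι', A (Pi.single t' 1) = ∑ t, E t t' • (Pi.single t (1 : ℂ) : ι → ℂ) := by
    intro t'
    rw [hA]
    funext s
    rw [Matrix.mulVec_single_one, Finset.sum_apply]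
    simp [Pi.single_apply]
  have hfd : ∀ (f : (ι → ℂ) → ℂ) (z : ι' → ℂ) (t' : ι'),
      fderiv ℂ (fun w => f (A w)) z (Pi.single t' 1)
        = ∑ t, E t t' * fderiv ℂ f (A z) (Pi.single t 1) := by
    intro f z t'
    have h1 : fderiv ℂ (f ∘ A) z = (fderiv ℂ f (A z)).comp (A : (ι' → ℂ) →L[ℂ] (ι → ℂ)) :=
      A.comp_right_fderiv
    have h2 : (fun w => f (A w)) = f ∘ A := rfl
    rw [h2, h1, ContinuousLinearMap.comp_apply]
    change (fderiv ℂ f (A z)) (A (Pi.single t' 1)) = _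
    rw [hAsingle, map_sum]
    refine Finset.sum_congr rfl fun t _ => ?_
    rw [map_smul, smul_eq_mul]
  have hAd : Differentiable ℂ A := A.differentiable
  let P' : Pkg π ι' :=
    { D := P.D
      j := P.j
      k := P.k
      hD := P.hD
      s := P.s
      hs := P.hs
      r := P.r / c
      hr := div_pos P.hr hc0
      ξ := fun z => P.ξ (A z)
      ξana := P.ξana.comp hAd.differentiableOn hballr
      ξ0 := by
        show P.ξ (A 0) = 0
        rw [map_zero, P.ξ0]
      ξinj := by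
        intro x hx y hy hxy
        exact A.injective (P.ξinj (hballr x hx) (hballr y hy) hxy)
      ξle := fun z hz => P.ξle (A z) (hballr z hz)
      δ := P.δ
      δalg := P.δalg
      δne := fun z hz => P.δne (A z) (hballr z hz)
      ux := P.ux
      uxalg := P.uxalg
      Jf := fun i t' => ∑ t, P.Jf i t * C (E t t')
      Jb := fun t' i => ∑ t, C (E' t' t) * P.Jb t i
      Jfalg := fun i t' => algC_sum _ _ fun t _ => algC_mul (P.Jfalg i t) (algC_C (hE t t'))
      Jbalg := fun t' i => algC_sum _ _ fun t _ => algC_mul (algC_C (hE' t' t)) (P.Jbalg t i)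
      μ := P.μ
      H := P.H
      Halg := P.Halg
      ad0 := P.ad0
      ad := P.ad
      ad0alg := P.ad0alg
      adalg := P.adalg
      B := P.B
      hB := P.hB
      Cg := P.Cg
      hCg := P.hCg
      G0 := fun n z => P.G0 n (A z)
      G := fun n a z => P.G n a (A z)
      Λ := P.Λ.comap (A : (ι' → ℂ) →L[ℂ] (ι → ℂ)).toLinearMap.toAddMonoidHom }
  have hbv : ∀ z, P'.bv z = P.bv (A z) := by
    intro z
    funext x
    rcases x with _ | i | i <;> rfl
  have hh : ∀ z a, P'.h z a = P.h (A z) a := by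
    intro z a
    show eval (P'.bv z) (P.H a) = eval (P.bv (A z)) (P.H a)
    rw [hbv]
  have hhf : ∀ z, P'.h z = P.h (A z) := fun z => funext (hh z)
  -- matrices
  let MJ : (ι → ℂ) → Matrix π ι ℂ := fun z => Matrix.of fun i t => eval (P.bv z) (P.Jf i t)
  let MB : (ι → ℂ) → Matrix ι π ℂ := fun z => Matrix.of fun t i => eval (P.bv z) (P.Jb t i)
  have hMJB : ∀ z ∈ ball (0 : ι → ℂ) P.r, MJ z * MB z = 1 := by
    intro z hz
    ext i i'
    rw [Matrix.mul_apply, Matrix.one_apply]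
    exact hP.Jfb z hz i i'
  have hMBJ : ∀ z ∈ ball (0 : ι → ℂ) P.r, MB z * MJ z = 1 := by
    intro z hz
    ext t t'
    rw [Matrix.mul_apply, Matrix.one_apply]
    exact hP.Jbf z hz t t'
  have hJf' : ∀ z i t', eval (P'.bv z) (P'.Jf i t') = (MJ (A z) * E) i t' := by
    intro z i t'
    rw [hbv, Matrix.mul_apply]
    show eval (P.bv (A z)) (∑ t, P.Jf i t * C (E t t')) = _
    rw [map_sum]
    refine Finset.sum_congr rfl fun t _ => ?_
    rw [map_mul, eval_C]
    rfl
  have hJb' : ∀ z t' i, eval (P'.bv z) (P'.Jb t' i) = (E' * MB (A z)) t' i := by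
    intro z t' i
    rw [hbv, Matrix.mul_apply]
    show eval (P.bv (A z)) (∑ t, C (E' t' t) * P.Jb t i) = _
    rw [map_sum]
    refine Finset.sum_congr rfl fun t _ => ?_
    rw [map_mul, eval_C]
    rfl
  refine ⟨P', ?_, fun z => ?_⟩
  swap
  · show A z ∈ P.Λ ↔ _
    rw [hA]
  constructor
  · -- ux
    intro z hz i
    rw [hbv]
    exact hP.ux (A z) (hballr z hz) i
  · -- Jf
    intro z hz i t'
    rw [hJf', Matrix.mul_apply]
    show fderiv ℂ (fun w => P.ξ (A w) i) z (Pi.single t' 1) = _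
    rw [hfd (fun w => P.ξ w i) z t']
    refine Finset.sum_congr rfl fun t _ => ?_
    rw [hP.Jf (A z) (hballr z hz) i t, mul_comm]
    rfl
  · -- Jfb
    intro z hz i i'
    have h1 : ∑ t, eval (P'.bv z) (P'.Jf i t) * eval (P'.bv z) (P'.Jb t i')
        = ((MJ (A z) * E) * (E' * MB (A z))) i i' := by
      rw [Matrix.mul_apply]
      exact Finset.sum_congr rfl fun t _ => by rw [hJf', hJb']
    rw [h1, Matrix.mul_assoc, ← Matrix.mul_assoc E, h, Matrix.one_mul,
      hMJB _ (hballr z hz), Matrix.one_apply]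
  · -- Jbf
    intro z hz t t'
    have h1 : ∑ i, eval (P'.bv z) (P'.Jb t i) * eval (P'.bv z) (P'.Jf i t')
        = ((E' * MB (A z)) * (MJ (A z) * E)) t t' := by
      rw [Matrix.mul_apply]
      exact Finset.sum_congr rfl fun i _ => by rw [hJf', hJb']
    rw [h1, Matrix.mul_assoc, ← Matrix.mul_assoc (MB (A z)), hMBJ _ (hballr z hz),
      Matrix.one_mul, h', Matrix.one_apply]
  · -- ad0
    intro z hz w hw
    rw [hhf, hhf]
    exact hP.ad0 (A z) (hball2 z hz) (A w) (hball2 w hw)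
  · -- ad
    intro z hz w hw a
    rw [hhf, hhf, hhf, map_add]
    exact hP.ad (A z) (hball2 z hz) (A w) (hball2 w hw) a
  · -- imm
    obtain ⟨u, hu⟩ := hP.imm
    have hcard : Fintype.card ι' = Fintype.card ι := by
      have := A.toLinearEquiv.finrank_eq
      simpa using this
    let e : ι' ≃ ι := Fintype.equivOfCardEq hcard
    refine ⟨fun t => u (e t), ?_⟩
    set W : Matrix ι ι ℂ :=
      Matrix.of fun t t' => fderiv ℂ (fun w => P.h w (u t')) 0 (Pi.single t 1) with hW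
    have h1 : (Matrix.of fun t t' => fderiv ℂ (fun w => P'.h w (u (e t'))) 0
        (Pi.single t (1 : ℂ))) = (E.transpose.submatrix id e) * (W.submatrix e e) := by
      rw [Matrix.submatrix_mul_equiv]
      ext t' s'
      rw [Matrix.submatrix_apply, Matrix.mul_apply, Matrix.of_apply]
      have h2 : (fun w => P'.h w (u (e s'))) = fun w => (fun w => P.h w (u (e s'))) (A w) := by
        funext w
        exact hh w _
      rw [h2, hfd (fun w => P.h w (u (e s'))) 0 t', map_zero]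
      rfl
    rw [h1, Matrix.det_mul, Matrix.det_submatrix_equiv_self]
    refine mul_ne_zero ?_ hu
    have h3 : (E.transpose.submatrix id e) * (E'.transpose.submatrix e id) = 1 := by
      rw [Matrix.submatrix_mul_equiv, ← Matrix.transpose_mul, h', Matrix.transpose_one]
      rfl
    intro h4
    have h5 := congrArg Matrix.det h3
    rw [Matrix.det_mul, h4, zero_mul, Matrix.det_one] at h5
    exact zero_ne_one h5
  · -- G0ana
    intro n
    exact (hP.G0ana n).comp hAd.differentiableOn (hballn n)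
  · intro n a
    exact (hP.Gana n a).comp hAd.differentiableOn (hballn n)
  · intro n z hz
    exact hP.G0le n (A z) (hballn n z hz)
  · intro n a z hz
    exact hP.Gle n a (A z) (hballn n z hz)
  · intro n z hz
    exact hP.G0ge n (A z) (hballr z hz)
  · intro n a z hz
    rw [hh]
    exact hP.Geq n a (A z) (hballr z hz)
  · -- per
    intro l hl n hn z hz a
    have hn' : ‖l‖ + P.r / c ≤ 2 ^ n * (P.r / c) := hn
    have h1 : ‖A l‖ + P.r ≤ 2 ^ n * P.r := by
      have h2 := mul_le_mul_of_nonneg_left hn' hc0.le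
      have h3 : c * (‖l‖ + P.r / c) = c * ‖l‖ + P.r := by
        field_simp
      have h4 : c * (2 ^ n * (P.r / c)) = 2 ^ n * P.r := by
        field_simp
      rw [h3, h4] at h2
      have := hAle l
      linarith
    have h5 := hP.per (A l) hl n h1 (A z) (hballr z hz) a
    show P.G n a (A (l + z)) * P.G0 n (A z) = P.G n a (A z) * P.G0 n (A (l + z))
    rw [map_add]
    exact h5
  · -- full
    let As : (ι → ℂ) ≃ₗ[ℝ] (ι' → ℂ) := A.symm.toLinearEquiv.restrictScalars ℝ
    have h1 : ((P.Λ.comap (A : (ι' → ℂ) →L[ℂ] (ι → ℂ)).toLinearMap.toAddMonoidHom :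
        AddSubgroup (ι' → ℂ)) : Set (ι' → ℂ)) = As '' (P.Λ : Set (ι → ℂ)) := by
      ext z
      constructor
      · intro hz
        exact ⟨A z, hz, A.symm_apply_apply z⟩
      · rintro ⟨w, hw, rfl⟩
        show A (A.symm w) ∈ P.Λ
        rw [A.apply_symm_apply]
        exact hw
    show Submodule.span ℝ ((P.Λ.comap (A : (ι' → ℂ) →L[ℂ] (ι → ℂ)).toLinearMap.toAddMonoidHom :
        AddSubgroup (ι' → ℂ)) : Set (ι' → ℂ)) = ⊤
    rw [h1]
    have h2 := Submodule.map_span (As : (ι → ℂ) →ₗ[ℝ] (ι' → ℂ)) (P.Λ : Set (ι → ℂ))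
    have h3 : ((As : (ι → ℂ) →ₗ[ℝ] (ι' → ℂ)) '' (P.Λ : Set (ι → ℂ))) = As '' (P.Λ : Set (ι → ℂ)) :=
      rfl
    rw [h3] at h2
    rw [← h2, hP.full, Submodule.map_top, LinearEquiv.range]

end Pool.Agent.WW
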