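import Pool.Agent.WW.PS

set_option autoImplicit false
set_option linter.unusedSectionVars false

namespace Pool.Agent.WW

open MvPolynomial Metric

noncomputable section

namespace PPaux

private abbrev KA : IntermediateField ℚ ℂ := algebraicClosure ℚ ℂ

private theorem algC_iff {τ : Type} (p : MvPolynomial τ ℂ) :
    AlgC p ↔ ∃ q : MvPolynomial τ KA, MvPolynomial.map (algebraMap KA ℂ) q = p := by
  constructor
  · intro h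
    have h2 : p ∈ Set.range (MvPolynomial.map (σ := τ) (algebraMap KA ℂ)) := by
      rw [mem_range_map_iff_coeffs_subset]
      intro c hc
      rw [Finset.mem_coe, mem_coeffs_iff] at hc
      obtain ⟨a, ha, hc⟩ := hc
      rw [hc]
      exact ⟨⟨p.coeff a, mem_algebraicClosure_iff.2 (h a)⟩, rfl⟩
    exact h2
  · rintro ⟨q, rfl⟩ a
    rw [coeff_map]
    exact mem_algebraicClosure_iff.1 (q.coeff a).2

private theorem algC_X {τ : Type} (i : τ) : AlgC (X i : MvPolynomial τ ℂ) :=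
  (algC_iff _).2 ⟨X i, by simp⟩

private theorem algC_zero {τ : Type} : AlgC (0 : MvPolynomial τ ℂ) :=
  (algC_iff _).2 ⟨0, by simp⟩

private theorem algC_mul {τ : Type} {p q : MvPolynomial τ ℂ} (hp : AlgC p) (hq : AlgC q) :
    AlgC (p * q) := by
  rw [algC_iff] at *
  obtain ⟨p', rfl⟩ := hp
  obtain ⟨q', rfl⟩ := hq
  exact ⟨p' * q', by simp⟩

private theorem algC_rename {τ τ' : Type} (f : τ → τ') {p : MvPolynomial τ ℂ} (hp : AlgC p) :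
    AlgC (rename f p) := by
  rw [algC_iff] at *
  obtain ⟨p', rfl⟩ := hp
  exact ⟨rename f p', by rw [map_rename]⟩

private theorem algC_aeval {τ τ' : Type} (f : τ → MvPolynomial τ' ℂ) (hf : ∀ i, AlgC (f i))
    {p : MvPolynomial τ ℂ} (hp : AlgC p) : AlgC (aeval f p) := by
  have hf' := fun i => (algC_iff _).1 (hf i)
  choose g hg using hf'
  rw [algC_iff] at hp ⊢
  obtain ⟨p', rfl⟩ := hp
  refine ⟨bind₁ g p', ?_⟩
  rw [map_bind₁]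
  have : (fun i => MvPolynomial.map (algebraMap KA ℂ) (g i)) = f := by
    funext i; exact hg i
  rw [this]
  rfl

/-- restriction to the left block -/
private def Ll (α β : Type) : (α ⊕ β → ℂ) →L[ℂ] (α → ℂ) :=
  ContinuousLinearMap.pi fun i => ContinuousLinearMap.proj (Sum.inl i)

/-- restriction to the right block -/
private def Lr (α β : Type) : (α ⊕ β → ℂ) →L[ℂ] (β → ℂ) :=
  ContinuousLinearMap.pi fun i => ContinuousLinearMap.proj (Sum.inr i)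

variable {α β : Type} [Fintype α] [Fintype β] [DecidableEq α] [DecidableEq β]

private theorem Ll_inl (t : α) :
    Ll α β (Pi.single (Sum.inl t) 1) = Pi.single t 1 := by
  funext i
  simp [Ll, Pi.single_apply]

private theorem Ll_inr (t : β) :
    Ll α β (Pi.single (Sum.inr t) 1) = 0 := by
  funext i
  simp [Ll]

private theorem Lr_inr (t : β) :
    Lr α β (Pi.single (Sum.inr t) 1) = Pi.single t 1 := by
  funext i
  simp [Lr, Pi.single_apply]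

private theorem Lr_inl (t : α) :
    Lr α β (Pi.single (Sum.inl t) 1) = 0 := by
  funext i
  simp [Lr]

private theorem fderiv_l (f : (α → ℂ) → ℂ) (z : α ⊕ β → ℂ) :
    fderiv ℂ (fun w : α ⊕ β → ℂ => f (Ll α β w)) z =
      (fderiv ℂ f (Ll α β z)).comp (Ll α β) := by
  by_cases hf : DifferentiableAt ℂ f (Ll α β z)
  · exact (hf.hasFDerivAt.comp z (Ll α β).hasFDerivAt).fderiv
  · rw [fderiv_zero_of_not_differentiableAt hf, ContinuousLinearMap.zero_comp]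
    apply fderiv_zero_of_not_differentiableAt
    intro hg
    apply hf
    have hs : DifferentiableAt ℂ
        (fun w : α → ℂ => (Sum.elim w (Lr α β z) : α ⊕ β → ℂ)) (Ll α β z) := by
      rw [differentiableAt_pi]
      rintro (i | i)
      · exact differentiableAt_pi.1 differentiableAt_id i
      · exact differentiableAt_const _
    have hz : (Sum.elim (Ll α β z) (Lr α β z) : α ⊕ β → ℂ) = z := by
      funext i
      rcases i with i | i <;> rfl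
    have hg' : DifferentiableAt ℂ (fun w : α ⊕ β → ℂ => f (Ll α β w))
        (Sum.elim (Ll α β z) (Lr α β z) : α ⊕ β → ℂ) := by rw [hz]; exact hg
    exact DifferentiableAt.comp (g := fun w : α ⊕ β → ℂ => f (Ll α β w))
      (f := fun w : α → ℂ => (Sum.elim w (Lr α β z) : α ⊕ β → ℂ)) (Ll α β z) hg' hs

private theorem fderiv_r (f : (β → ℂ) → ℂ) (z : α ⊕ β → ℂ) :
    fderiv ℂ (fun w : α ⊕ β → ℂ => f (Lr α β w)) z =
      (fderiv ℂ f (Lr α β z)).comp (Lr α β) := by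
  by_cases hf : DifferentiableAt ℂ f (Lr α β z)
  · exact (hf.hasFDerivAt.comp z (Lr α β).hasFDerivAt).fderiv
  · rw [fderiv_zero_of_not_differentiableAt hf, ContinuousLinearMap.zero_comp]
    apply fderiv_zero_of_not_differentiableAt
    intro hg
    apply hf
    have hs : DifferentiableAt ℂ
        (fun w : β → ℂ => (Sum.elim (Ll α β z) w : α ⊕ β → ℂ)) (Lr α β z) := by
      rw [differentiableAt_pi]
      rintro (i | i)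
      · exact differentiableAt_const _
      · exact differentiableAt_pi.1 differentiableAt_id i
    have hz : (Sum.elim (Ll α β z) (Lr α β z) : α ⊕ β → ℂ) = z := by
      funext i
      rcases i with i | i <;> rfl
    have hg' : DifferentiableAt ℂ (fun w : α ⊕ β → ℂ => f (Lr α β w))
        (Sum.elim (Ll α β z) (Lr α β z) : α ⊕ β → ℂ) := by rw [hz]; exact hg
    exact DifferentiableAt.comp (g := fun w : α ⊕ β → ℂ => f (Lr α β w))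
      (f := fun w : β → ℂ => (Sum.elim (Ll α β z) w : α ⊕ β → ℂ)) (Lr α β z) hg' hs

private theorem mem_ball_iff' {r : ℝ} (hr : 0 < r) (z : α ⊕ β → ℂ) :
    z ∈ ball (0 : α ⊕ β → ℂ) r ↔ Ll α β z ∈ ball (0 : α → ℂ) r ∧ Lr α β z ∈ ball (0 : β → ℂ) r := by
  rw [mem_ball_zero_iff, mem_ball_zero_iff, mem_ball_zero_iff, pi_norm_lt_iff hr,
    pi_norm_lt_iff hr, pi_norm_lt_iff hr]
  constructor
  · intro h
    exact ⟨fun i => h (Sum.inl i), fun i => h (Sum.inr i)⟩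
  · rintro ⟨h1, h2⟩ (i | i)
    · exact h1 i
    · exact h2 i

private theorem norm_Ll_le (z : α ⊕ β → ℂ) : ‖Ll α β z‖ ≤ ‖z‖ := by
  rw [pi_norm_le_iff_of_nonneg (norm_nonneg _)]
  intro i
  exact norm_le_pi_norm z (Sum.inl i)

private theorem norm_Lr_le (z : α ⊕ β → ℂ) : ‖Lr α β z‖ ≤ ‖z‖ := by
  rw [pi_norm_le_iff_of_nonneg (norm_nonneg _)]
  intro i
  exact norm_le_pi_norm z (Sum.inr i)

variable {π₁ ι₁ π₂ ι₂ : Type} [Fintype π₁] [Fintype ι₁] [DecidableEq π₁]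
    [DecidableEq ι₁] [Fintype π₂] [Fintype ι₂] [DecidableEq π₂] [DecidableEq ι₂]

/-- substitution for the generators of the left factor -/
private def sl (δ₂ : MvPolynomial (π₂ ⊕ π₂) ℂ) : Gx π₁ → MvPolynomial (Gx (π₁ ⊕ π₂)) ℂ
  | none => X none * rename (fun a => some (Sum.map Sum.inr Sum.inr a)) δ₂
  | some a => X (some (Sum.map Sum.inl Sum.inl a))

/-- substitution for the generators of the right factor -/
private def sr (δ₁ : MvPolynomial (π₁ ⊕ π₁) ℂ) : Gx π₂ → MvPolynomial (Gx (π₁ ⊕ π₂)) ℂ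
  | none => X none * rename (fun a => some (Sum.map Sum.inl Sum.inl a)) δ₁
  | some a => X (some (Sum.map Sum.inr Sum.inr a))

private theorem sl_alg {δ₂ : MvPolynomial (π₂ ⊕ π₂) ℂ} (h : AlgC δ₂) (g : Gx π₁) :
    AlgC (sl δ₂ g) := by
  rcases g with _ | a
  · exact algC_mul (algC_X _) (algC_rename _ h)
  · exact algC_X _

private theorem sr_alg {δ₁ : MvPolynomial (π₁ ⊕ π₁) ℂ} (h : AlgC δ₁) (g : Gx π₂) :
    AlgC (sr δ₁ g) := by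
  rcases g with _ | a
  · exact algC_mul (algC_X _) (algC_rename _ h)
  · exact algC_X _

/-- values of the coordinates of a package -/
private def xy {π ι : Type} [Fintype π] [Fintype ι] [DecidableEq π] [DecidableEq ι] (P : Pkg π ι)
    (z : ι → ℂ) : π ⊕ π → ℂ :=
  Sum.elim (fun i => 1 / 2 + P.ξ z i) (fun i => P.s i * ybr (P.D i) (P.j i) (P.k i) (P.ξ z i))

private theorem fun_left (P₁ : Pkg π₁ ι₁) (P₂ : Pkg π₂ ι₂) (z : ι₁ ⊕ ι₂ → ℂ) :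
    (Sum.elim (fun i => 1 / 2 + (Sum.elim (P₁.ξ (Ll ι₁ ι₂ z)) (P₂.ξ (Lr ι₁ ι₂ z)) : π₁ ⊕ π₂ → ℂ) i)
      (fun i => (Sum.elim P₁.s P₂.s : π₁ ⊕ π₂ → ℂ) i * ybr (Sum.elim P₁.D P₂.D i)
        (Sum.elim P₁.j P₂.j i) (Sum.elim P₁.k P₂.k i)
        ((Sum.elim (P₁.ξ (Ll ι₁ ι₂ z)) (P₂.ξ (Lr ι₁ ι₂ z)) : π₁ ⊕ π₂ → ℂ) i))) ∘
        (Sum.map Sum.inl Sum.inl) = xy P₁ (Ll ι₁ ι₂ z) := by
  funext i
  rcases i with i | i <;> rfl

private theorem fun_right (P₁ : Pkg π₁ ι₁) (P₂ : Pkg π₂ ι₂) (z : ι₁ ⊕ ι₂ → ℂ) :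
    (Sum.elim (fun i => 1 / 2 + (Sum.elim (P₁.ξ (Ll ι₁ ι₂ z)) (P₂.ξ (Lr ι₁ ι₂ z)) : π₁ ⊕ π₂ → ℂ) i)
      (fun i => (Sum.elim P₁.s P₂.s : π₁ ⊕ π₂ → ℂ) i * ybr (Sum.elim P₁.D P₂.D i)
        (Sum.elim P₁.j P₂.j i) (Sum.elim P₁.k P₂.k i)
        ((Sum.elim (P₁.ξ (Ll ι₁ ι₂ z)) (P₂.ξ (Lr ι₁ ι₂ z)) : π₁ ⊕ π₂ → ℂ) i))) ∘
        (Sum.map Sum.inr Sum.inr) = xy P₂ (Lr ι₁ ι₂ z) := by
  funext i
  rcases i with i | i <;> rfl

/-- the product of two packages with the same radius -/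
private def pk (P₁ : Pkg π₁ ι₁) (P₂ : Pkg π₂ ι₂) (hr : P₂.r = P₁.r) : Pkg (π₁ ⊕ π₂) (ι₁ ⊕ ι₂) where
  D := Sum.elim P₁.D P₂.D
  j := Sum.elim P₁.j P₂.j
  k := Sum.elim P₁.k P₂.k
  hD := by
    rintro (i | i)
    · exact P₁.hD i
    · exact P₂.hD i
  s := Sum.elim P₁.s P₂.s
  hs := by
    rintro (i | i)
    · exact P₁.hs i
    · exact P₂.hs i
  r := P₁.r
  hr := P₁.hr
  ξ z := Sum.elim (P₁.ξ (Ll ι₁ ι₂ z)) (P₂.ξ (Lr ι₁ ι₂ z))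
  ξana := by
    rw [differentiableOn_pi]
    rintro (i | i)
    · exact (differentiableOn_pi.1 P₁.ξana i).comp (Ll ι₁ ι₂).differentiable.differentiableOn
        (fun z hz => ((mem_ball_iff' P₁.hr z).1 hz).1)
    · exact (differentiableOn_pi.1 P₂.ξana i).comp (Lr ι₁ ι₂).differentiable.differentiableOn
        (fun z hz => by rw [hr]; exact ((mem_ball_iff' P₁.hr z).1 hz).2)
  ξ0 := by
    rw [map_zero, map_zero, P₁.ξ0, P₂.ξ0]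
    funext i
    rcases i with i | i <;> rfl
  ξinj := by
    intro z hz w hw h
    have h1 : P₁.ξ (Ll ι₁ ι₂ z) = P₁.ξ (Ll ι₁ ι₂ w) := by
      funext i
      exact congrFun h (Sum.inl i)
    have h2 : P₂.ξ (Lr ι₁ ι₂ z) = P₂.ξ (Lr ι₁ ι₂ w) := by
      funext i
      exact congrFun h (Sum.inr i)
    have h3 := P₁.ξinj ((mem_ball_iff' P₁.hr z).1 hz).1 ((mem_ball_iff' P₁.hr w).1 hw).1 h1
    have h4 := P₂.ξinj (by rw [hr]; exact ((mem_ball_iff' P₁.hr z).1 hz).2)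
      (by rw [hr]; exact ((mem_ball_iff' P₁.hr w).1 hw).2) h2
    funext i
    rcases i with i | i
    · exact congrFun h3 i
    · exact congrFun h4 i
  ξle := by
    intro z hz i
    rcases i with i | i
    · exact P₁.ξle _ ((mem_ball_iff' P₁.hr z).1 hz).1 i
    · exact P₂.ξle _ (by rw [hr]; exact ((mem_ball_iff' P₁.hr z).1 hz).2) i
  δ := rename (Sum.map Sum.inl Sum.inl) P₁.δ * rename (Sum.map Sum.inr Sum.inr) P₂.δ
  δalg := algC_mul (algC_rename _ P₁.δalg) (algC_rename _ P₂.δalg)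
  δne := by
    intro z hz
    rw [map_mul, eval_rename, eval_rename, fun_left, fun_right]
    exact mul_ne_zero (P₁.δne _ ((mem_ball_iff' P₁.hr z).1 hz).1)
      (P₂.δne _ (by rw [hr]; exact ((mem_ball_iff' P₁.hr z).1 hz).2))
  ux := Sum.elim (fun i => aeval (sl P₂.δ) (P₁.ux i)) (fun i => aeval (sr P₁.δ) (P₂.ux i))
  uxalg := by
    rintro (i | i)
    · exact algC_aeval _ (sl_alg P₂.δalg) (P₁.uxalg i)
    · exact algC_aeval _ (sr_alg P₁.δalg) (P₂.uxalg i)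
  Jf := Sum.elim (fun i => Sum.elim (fun t => aeval (sl P₂.δ) (P₁.Jf i t)) (fun _ => 0))
    (fun i => Sum.elim (fun _ => 0) (fun t => aeval (sr P₁.δ) (P₂.Jf i t)))
  Jb := Sum.elim (fun i => Sum.elim (fun t => aeval (sl P₂.δ) (P₁.Jb i t)) (fun _ => 0))
    (fun i => Sum.elim (fun _ => 0) (fun t => aeval (sr P₁.δ) (P₂.Jb i t)))
  Jfalg := by
    rintro (i | i) (t | t)
    · exact algC_aeval _ (sl_alg P₂.δalg) (P₁.Jfalg i t)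
    · exact algC_zero
    · exact algC_zero
    · exact algC_aeval _ (sr_alg P₁.δalg) (P₂.Jfalg i t)
  Jbalg := by
    rintro (i | i) (t | t)
    · exact algC_aeval _ (sl_alg P₂.δalg) (P₁.Jbalg i t)
    · exact algC_zero
    · exact algC_zero
    · exact algC_aeval _ (sr_alg P₁.δalg) (P₂.Jbalg i t)
  μ := P₁.μ ⊕ P₂.μ
  H := Sum.elim (fun a => aeval (sl P₂.δ) (P₁.H a)) (fun a => aeval (sr P₁.δ) (P₂.H a))
  Halg := by
    rintro (a | a)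
    · exact algC_aeval _ (sl_alg P₂.δalg) (P₁.Halg a)
    · exact algC_aeval _ (sr_alg P₁.δalg) (P₂.Halg a)
  ad0 := rename (Sum.map Sum.inl Sum.inl) P₁.ad0 * rename (Sum.map Sum.inr Sum.inr) P₂.ad0
  ad := Sum.elim
    (fun a => rename (Sum.map Sum.inl Sum.inl) (P₁.ad a) *
      rename (Sum.map Sum.inr Sum.inr) P₂.ad0)
    (fun a => rename (Sum.map Sum.inl Sum.inl) P₁.ad0 *
      rename (Sum.map Sum.inr Sum.inr) (P₂.ad a))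
  ad0alg := algC_mul (algC_rename _ P₁.ad0alg) (algC_rename _ P₂.ad0alg)
  adalg := by
    rintro (a | a)
    · exact algC_mul (algC_rename _ (P₁.adalg a)) (algC_rename _ P₂.ad0alg)
    · exact algC_mul (algC_rename _ P₁.ad0alg) (algC_rename _ (P₂.adalg a))
  B := max P₁.B P₂.B
  hB := le_max_of_le_left P₁.hB
  Cg := P₁.Cg + P₂.Cg
  hCg := add_nonneg P₁.hCg P₂.hCg
  G0 n z := P₁.G0 n (Ll ι₁ ι₂ z) * P₂.G0 n (Lr ι₁ ι₂ z)
  G n := Sum.elim (fun a z => P₁.G n a (Ll ι₁ ι₂ z) * P₂.G0 n (Lr ι₁ ι₂ z))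
    (fun a z => P₁.G0 n (Ll ι₁ ι₂ z) * P₂.G n a (Lr ι₁ ι₂ z))
  Λ := P₁.Λ.comap (Ll ι₁ ι₂ : (ι₁ ⊕ ι₂ → ℂ) →+ (ι₁ → ℂ)) ⊓
    P₂.Λ.comap (Lr ι₁ ι₂ : (ι₁ ⊕ ι₂ → ℂ) →+ (ι₂ → ℂ))

variable (P₁ : Pkg π₁ ι₁) (P₂ : Pkg π₂ ι₂) (hr : P₂.r = P₁.r)

private theorem ball_l {z : ι₁ ⊕ ι₂ → ℂ} {c : ℝ} (hc : 0 < c)
    (hz : z ∈ ball (0 : ι₁ ⊕ ι₂ → ℂ) c) : Ll ι₁ ι₂ z ∈ ball (0 : ι₁ → ℂ) c :=
  ((mem_ball_iff' hc z).1 hz).1

private theorem ball_r {z : ι₁ ⊕ ι₂ → ℂ} {c : ℝ} (hc : 0 < c)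
    (hz : z ∈ ball (0 : ι₁ ⊕ ι₂ → ℂ) c) : Lr ι₁ ι₂ z ∈ ball (0 : ι₂ → ℂ) c :=
  ((mem_ball_iff' hc z).1 hz).2

private theorem bv_none (z : ι₁ ⊕ ι₂ → ℂ) :
    (pk P₁ P₂ hr).bv z none =
      (eval (xy P₁ (Ll ι₁ ι₂ z)) P₁.δ * eval (xy P₂ (Lr ι₁ ι₂ z)) P₂.δ)⁻¹ := by
  show (eval _ (rename (Sum.map Sum.inl Sum.inl) P₁.δ *
    rename (Sum.map Sum.inr Sum.inr) P₂.δ))⁻¹ = _
  rw [map_mul, eval_rename, eval_rename]
  exact congrArg _ (congrArg₂ _ (congrArg (fun f => eval f P₁.δ) (fun_left P₁ P₂ z))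
    (congrArg (fun f => eval f P₂.δ) (fun_right P₁ P₂ z)))

private theorem bv_il (z : ι₁ ⊕ ι₂ → ℂ) (a : π₁ ⊕ π₁) :
    (pk P₁ P₂ hr).bv z (some (Sum.map Sum.inl Sum.inl a)) = xy P₁ (Ll ι₁ ι₂ z) a := by
  rcases a with a | a <;> rfl

private theorem bv_ir (z : ι₁ ⊕ ι₂ → ℂ) (a : π₂ ⊕ π₂) :
    (pk P₁ P₂ hr).bv z (some (Sum.map Sum.inr Sum.inr a)) = xy P₂ (Lr ι₁ ι₂ z) a := by
  rcases a with a | a <;> rfl

private theorem xy_eq {π ι : Type} [Fintype π] [Fintype ι] [DecidableEq π] [DecidableEq ι]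
    (P : Pkg π ι) (z : ι → ℂ) (a : π ⊕ π) : xy P z a = P.bv z (some a) := by
  rcases a with a | a <;> rfl

private theorem eval_aev {τ τ' : Type} (f : τ → MvPolynomial τ' ℂ) (v : τ' → ℂ)
    (Q : MvPolynomial τ ℂ) : eval v (aeval f Q) = eval (fun i => eval v (f i)) Q := by
  induction Q using MvPolynomial.induction_on with
  | C a => simp [algebraMap_eq]
  | add p q hp hq => rw [map_add, map_add, map_add, hp, hq]
  | mul_X p i hp => rw [map_mul, map_mul, map_mul, hp, aeval_X, eval_X]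

/-- values of the substituted polynomials, left -/
private theorem eval_sl {z : ι₁ ⊕ ι₂ → ℂ} (hz : z ∈ ball (0 : ι₁ ⊕ ι₂ → ℂ) P₁.r)
    (Q : MvPolynomial (Gx π₁) ℂ) :
    eval ((pk P₁ P₂ hr).bv z) (aeval (sl P₂.δ) Q) = eval (P₁.bv (Ll ι₁ ι₂ z)) Q := by
  have h2 : eval (xy P₂ (Lr ι₁ ι₂ z)) P₂.δ ≠ 0 :=
    P₂.δne _ (by rw [hr]; exact ball_r P₁.hr hz)
  have h1 : eval (xy P₁ (Ll ι₁ ι₂ z)) P₁.δ ≠ 0 := P₁.δne _ (ball_l P₁.hr hz)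
  have key : ∀ g : Gx π₁, eval ((pk P₁ P₂ hr).bv z) (sl P₂.δ g) = P₁.bv (Ll ι₁ ι₂ z) g := by
    rintro (_ | a)
    · show eval _ (X none * rename (fun a => some (Sum.map Sum.inr Sum.inr a)) P₂.δ) = _
      rw [map_mul, eval_X, eval_rename, bv_none]
      have e : ((pk P₁ P₂ hr).bv z) ∘ (fun a => some (Sum.map Sum.inr Sum.inr a)) =
          xy P₂ (Lr ι₁ ι₂ z) := by
        funext a
        exact bv_ir P₁ P₂ hr z a
      rw [e]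
      show _ = (eval (xy P₁ (Ll ι₁ ι₂ z)) P₁.δ)⁻¹
      field_simp
    · show eval _ (X (some (Sum.map Sum.inl Sum.inl a))) = _
      rw [eval_X, bv_il, xy_eq]
  rw [eval_aev, funext key]

/-- values of the substituted polynomials, right -/
private theorem eval_sr {z : ι₁ ⊕ ι₂ → ℂ} (hz : z ∈ ball (0 : ι₁ ⊕ ι₂ → ℂ) P₁.r)
    (Q : MvPolynomial (Gx π₂) ℂ) :
    eval ((pk P₁ P₂ hr).bv z) (aeval (sr P₁.δ) Q) = eval (P₂.bv (Lr ι₁ ι₂ z)) Q := by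
  have h2 : eval (xy P₂ (Lr ι₁ ι₂ z)) P₂.δ ≠ 0 :=
    P₂.δne _ (by rw [hr]; exact ball_r P₁.hr hz)
  have h1 : eval (xy P₁ (Ll ι₁ ι₂ z)) P₁.δ ≠ 0 := P₁.δne _ (ball_l P₁.hr hz)
  have key : ∀ g : Gx π₂, eval ((pk P₁ P₂ hr).bv z) (sr P₁.δ g) = P₂.bv (Lr ι₁ ι₂ z) g := by
    rintro (_ | a)
    · show eval _ (X none * rename (fun a => some (Sum.map Sum.inl Sum.inl a)) P₁.δ) = _
      rw [map_mul, eval_X, eval_rename, bv_none]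
      have e : ((pk P₁ P₂ hr).bv z) ∘ (fun a => some (Sum.map Sum.inl Sum.inl a)) =
          xy P₁ (Ll ι₁ ι₂ z) := by
        funext a
        exact bv_il P₁ P₂ hr z a
      rw [e]
      show _ = (eval (xy P₂ (Lr ι₁ ι₂ z)) P₂.δ)⁻¹
      field_simp
    · show eval _ (X (some (Sum.map Sum.inr Sum.inr a))) = _
      rw [eval_X, bv_ir, xy_eq]
  rw [eval_aev, funext key]

private theorem h_l {z : ι₁ ⊕ ι₂ → ℂ} (hz : z ∈ ball (0 : ι₁ ⊕ ι₂ → ℂ) P₁.r) (a : P₁.μ) :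
    (pk P₁ P₂ hr).h z (Sum.inl a) = P₁.h (Ll ι₁ ι₂ z) a :=
  eval_sl P₁ P₂ hr hz (P₁.H a)

private theorem h_r {z : ι₁ ⊕ ι₂ → ℂ} (hz : z ∈ ball (0 : ι₁ ⊕ ι₂ → ℂ) P₁.r) (a : P₂.μ) :
    (pk P₁ P₂ hr).h z (Sum.inr a) = P₂.h (Lr ι₁ ι₂ z) a :=
  eval_sr P₁ P₂ hr hz (P₂.H a)

private theorem ad_gen {μ₁ μ₂ : Type} (f g : μ₁ ⊕ μ₂ → ℂ) (f1 g1 : μ₁ → ℂ) (f2 g2 : μ₂ → ℂ)
    (hf1 : ∀ a, f (Sum.inl a) = f1 a) (hf2 : ∀ a, f (Sum.inr a) = f2 a)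
    (hg1 : ∀ a, g (Sum.inl a) = g1 a) (hg2 : ∀ a, g (Sum.inr a) = g2 a)
    (p : MvPolynomial (μ₁ ⊕ μ₁) ℂ) (q : MvPolynomial (μ₂ ⊕ μ₂) ℂ) :
    eval (Sum.elim f g) (rename (Sum.map Sum.inl Sum.inl) p *
      rename (Sum.map Sum.inr Sum.inr) q) = eval (Sum.elim f1 g1) p * eval (Sum.elim f2 g2) q := by
  have e1 : (Sum.elim f g) ∘ (Sum.map Sum.inl Sum.inl) = Sum.elim f1 g1 := by
    funext a
    rcases a with a | a
    · exact hf1 a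
    · exact hg1 a
  have e2 : (Sum.elim f g) ∘ (Sum.map Sum.inr Sum.inr) = Sum.elim f2 g2 := by
    funext a
    rcases a with a | a
    · exact hf2 a
    · exact hg2 a
  rw [map_mul, eval_rename, eval_rename, e1, e2]

private theorem ad0_eq {z w : ι₁ ⊕ ι₂ → ℂ} (hz : z ∈ ball (0 : ι₁ ⊕ ι₂ → ℂ) P₁.r)
    (hw : w ∈ ball (0 : ι₁ ⊕ ι₂ → ℂ) P₁.r) :
    eval (Sum.elim ((pk P₁ P₂ hr).h z) ((pk P₁ P₂ hr).h w)) (pk P₁ P₂ hr).ad0 =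
      eval (Sum.elim (P₁.h (Ll ι₁ ι₂ z)) (P₁.h (Ll ι₁ ι₂ w))) P₁.ad0 *
        eval (Sum.elim (P₂.h (Lr ι₁ ι₂ z)) (P₂.h (Lr ι₁ ι₂ w))) P₂.ad0 :=
  ad_gen ((pk P₁ P₂ hr).h z) ((pk P₁ P₂ hr).h w) _ _ _ _ (h_l P₁ P₂ hr hz) (h_r P₁ P₂ hr hz)
    (h_l P₁ P₂ hr hw) (h_r P₁ P₂ hr hw) P₁.ad0 P₂.ad0

private theorem ad_l {z w : ι₁ ⊕ ι₂ → ℂ} (hz : z ∈ ball (0 : ι₁ ⊕ ι₂ → ℂ) P₁.r)
    (hw : w ∈ ball (0 : ι₁ ⊕ ι₂ → ℂ) P₁.r) (a : P₁.μ) :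
    eval (Sum.elim ((pk P₁ P₂ hr).h z) ((pk P₁ P₂ hr).h w)) ((pk P₁ P₂ hr).ad (Sum.inl a)) =
      eval (Sum.elim (P₁.h (Ll ι₁ ι₂ z)) (P₁.h (Ll ι₁ ι₂ w))) (P₁.ad a) *
        eval (Sum.elim (P₂.h (Lr ι₁ ι₂ z)) (P₂.h (Lr ι₁ ι₂ w))) P₂.ad0 :=
  ad_gen ((pk P₁ P₂ hr).h z) ((pk P₁ P₂ hr).h w) _ _ _ _ (h_l P₁ P₂ hr hz) (h_r P₁ P₂ hr hz)
    (h_l P₁ P₂ hr hw) (h_r P₁ P₂ hr hw) (P₁.ad a) P₂.ad0

private theorem ad_r {z w : ι₁ ⊕ ι₂ → ℂ} (hz : z ∈ ball (0 : ι₁ ⊕ ι₂ → ℂ) P₁.r)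
    (hw : w ∈ ball (0 : ι₁ ⊕ ι₂ → ℂ) P₁.r) (a : P₂.μ) :
    eval (Sum.elim ((pk P₁ P₂ hr).h z) ((pk P₁ P₂ hr).h w)) ((pk P₁ P₂ hr).ad (Sum.inr a)) =
      eval (Sum.elim (P₁.h (Ll ι₁ ι₂ z)) (P₁.h (Ll ι₁ ι₂ w))) P₁.ad0 *
        eval (Sum.elim (P₂.h (Lr ι₁ ι₂ z)) (P₂.h (Lr ι₁ ι₂ w))) (P₂.ad a) :=
  ad_gen ((pk P₁ P₂ hr).h z) ((pk P₁ P₂ hr).h w) _ _ _ _ (h_l P₁ P₂ hr hz) (h_r P₁ P₂ hr hz)
    (h_l P₁ P₂ hr hw) (h_r P₁ P₂ hr hw) P₁.ad0 (P₂.ad a)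

private theorem imm_pk (h₁ : P₁.Ok) (h₂ : P₂.Ok) : ∃ u : ι₁ ⊕ ι₂ → (pk P₁ P₂ hr).μ,
    (Matrix.of fun t t' => fderiv ℂ (fun w => (pk P₁ P₂ hr).h w (u t')) 0
      (Pi.single t 1)).det ≠ 0 := by
  obtain ⟨u₁, hu₁⟩ := h₁.imm
  obtain ⟨u₂, hu₂⟩ := h₂.imm
  have e1 : ∀ a : P₁.μ, fderiv ℂ (fun w => (pk P₁ P₂ hr).h w (Sum.inl a)) 0 =
      (fderiv ℂ (fun w => P₁.h w a) 0).comp (Ll ι₁ ι₂) := by
    intro a
    have hf := fderiv_l (fun w => P₁.h w a) (0 : ι₁ ⊕ ι₂ → ℂ)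
    rw [map_zero] at hf
    rw [← hf]
    apply Filter.EventuallyEq.fderiv_eq
    filter_upwards [ball_mem_nhds (0 : ι₁ ⊕ ι₂ → ℂ) P₁.hr] with w hw
    exact h_l P₁ P₂ hr hw a
  have e2 : ∀ a : P₂.μ, fderiv ℂ (fun w => (pk P₁ P₂ hr).h w (Sum.inr a)) 0 =
      (fderiv ℂ (fun w => P₂.h w a) 0).comp (Lr ι₁ ι₂) := by
    intro a
    have hf := fderiv_r (fun w => P₂.h w a) (0 : ι₁ ⊕ ι₂ → ℂ)
    rw [map_zero] at hf
    rw [← hf]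
    apply Filter.EventuallyEq.fderiv_eq
    filter_upwards [ball_mem_nhds (0 : ι₁ ⊕ ι₂ → ℂ) P₁.hr] with w hw
    exact h_r P₁ P₂ hr hw a
  have e3 : ∀ U : ι₁ ⊕ ι₂ → (pk P₁ P₂ hr).μ, (∀ t, U (Sum.inl t) = Sum.inl (u₁ t)) →
      (∀ t, U (Sum.inr t) = Sum.inr (u₂ t)) →
      (Matrix.of fun t t' => fderiv ℂ (fun w => (pk P₁ P₂ hr).h w (U t')) 0 (Pi.single t 1)) =
      Matrix.fromBlocks
        (Matrix.of fun t t' => fderiv ℂ (fun w => P₁.h w (u₁ t')) 0 (Pi.single t 1)) 0 0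
        (Matrix.of fun t t' => fderiv ℂ (fun w => P₂.h w (u₂ t')) 0 (Pi.single t 1)) := by
    intro U hU1 hU2
    ext t t'
    rcases t with t | t <;> rcases t' with t' | t'
    · rw [Matrix.of_apply, Matrix.fromBlocks_apply₁₁, Matrix.of_apply, hU1, e1,
        ContinuousLinearMap.comp_apply, Ll_inl]
    · rw [Matrix.of_apply, Matrix.fromBlocks_apply₁₂, hU2, e2,
        ContinuousLinearMap.comp_apply, Lr_inl, map_zero]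
      rfl
    · rw [Matrix.of_apply, Matrix.fromBlocks_apply₂₁, hU1, e1,
        ContinuousLinearMap.comp_apply, Ll_inr, map_zero]
      rfl
    · rw [Matrix.of_apply, Matrix.fromBlocks_apply₂₂, Matrix.of_apply, hU2, e2,
        ContinuousLinearMap.comp_apply, Lr_inr]
  refine ⟨fun t => match t with
    | Sum.inl t => (Sum.inl (u₁ t) : P₁.μ ⊕ P₂.μ)
    | Sum.inr t => (Sum.inr (u₂ t) : P₁.μ ⊕ P₂.μ), ?_⟩
  rw [e3 _ (fun t => rfl) (fun t => rfl), Matrix.det_fromBlocks_zero₂₁]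
  exact mul_ne_zero hu₁ hu₂

private theorem jf_pk (h₁ : P₁.Ok) (h₂ : P₂.Ok) :
    ∀ z ∈ ball (0 : ι₁ ⊕ ι₂ → ℂ) (pk P₁ P₂ hr).r, ∀ i t,
    fderiv ℂ (fun w => (pk P₁ P₂ hr).ξ w i) z (Pi.single t 1) =
      eval ((pk P₁ P₂ hr).bv z) ((pk P₁ P₂ hr).Jf i t) := by
  intro z hz i t
  have hz1 := ball_l P₁.hr hz
  have hz2 : Lr ι₁ ι₂ z ∈ ball (0 : ι₂ → ℂ) P₂.r := by rw [hr]; exact ball_r P₁.hr hz
  rcases i with i | i
  · have hf := fderiv_l (fun w => P₁.ξ w i) z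
    have hg : fderiv ℂ (fun w => (pk P₁ P₂ hr).ξ w (Sum.inl i)) z =
      (fderiv ℂ (fun w => P₁.ξ w i) (Ll ι₁ ι₂ z)).comp (Ll ι₁ ι₂) := hf
    rw [hg, ContinuousLinearMap.comp_apply]
    rcases t with t | t
    · rw [Ll_inl, h₁.Jf _ hz1]
      exact (eval_sl P₁ P₂ hr hz (P₁.Jf i t)).symm
    · rw [Ll_inr, map_zero]
      show (0 : ℂ) = eval _ 0
      rw [map_zero]
  · have hf := fderiv_r (fun w => P₂.ξ w i) z
    have hg : fderiv ℂ (fun w => (pk P₁ P₂ hr).ξ w (Sum.inr i)) z =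
      (fderiv ℂ (fun w => P₂.ξ w i) (Lr ι₁ ι₂ z)).comp (Lr ι₁ ι₂) := hf
    rw [hg, ContinuousLinearMap.comp_apply]
    rcases t with t | t
    · rw [Lr_inl, map_zero]
      show (0 : ℂ) = eval _ 0
      rw [map_zero]
    · rw [Lr_inr, h₂.Jf _ hz2]
      exact (eval_sr P₁ P₂ hr hz (P₂.Jf i t)).symm

private theorem jb_zero (z : ι₁ ⊕ ι₂ → ℂ) (t : ι₁) (i : π₂) :
    eval ((pk P₁ P₂ hr).bv z) ((pk P₁ P₂ hr).Jb (Sum.inl t) (Sum.inr i)) = 0 := by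
  show eval _ 0 = 0
  rw [map_zero]

private theorem jb_zero' (z : ι₁ ⊕ ι₂ → ℂ) (t : ι₂) (i : π₁) :
    eval ((pk P₁ P₂ hr).bv z) ((pk P₁ P₂ hr).Jb (Sum.inr t) (Sum.inl i)) = 0 := by
  show eval _ 0 = 0
  rw [map_zero]

private theorem jf_zero (z : ι₁ ⊕ ι₂ → ℂ) (i : π₁) (t : ι₂) :
    eval ((pk P₁ P₂ hr).bv z) ((pk P₁ P₂ hr).Jf (Sum.inl i) (Sum.inr t)) = 0 := by
  show eval _ 0 = 0
  rw [map_zero]

private theorem jf_zero' (z : ι₁ ⊕ ι₂ → ℂ) (i : π₂) (t : ι₁) :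
    eval ((pk P₁ P₂ hr).bv z) ((pk P₁ P₂ hr).Jf (Sum.inr i) (Sum.inl t)) = 0 := by
  show eval _ 0 = 0
  rw [map_zero]

private theorem jf_ll {z : ι₁ ⊕ ι₂ → ℂ} (hz : z ∈ ball (0 : ι₁ ⊕ ι₂ → ℂ) P₁.r) (i : π₁) (t : ι₁) :
    eval ((pk P₁ P₂ hr).bv z) ((pk P₁ P₂ hr).Jf (Sum.inl i) (Sum.inl t)) =
      eval (P₁.bv (Ll ι₁ ι₂ z)) (P₁.Jf i t) := eval_sl P₁ P₂ hr hz (P₁.Jf i t)

private theorem jf_rr {z : ι₁ ⊕ ι₂ → ℂ} (hz : z ∈ ball (0 : ι₁ ⊕ ι₂ → ℂ) P₁.r) (i : π₂) (t : ι₂) :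
    eval ((pk P₁ P₂ hr).bv z) ((pk P₁ P₂ hr).Jf (Sum.inr i) (Sum.inr t)) =
      eval (P₂.bv (Lr ι₁ ι₂ z)) (P₂.Jf i t) := eval_sr P₁ P₂ hr hz (P₂.Jf i t)

private theorem jb_ll {z : ι₁ ⊕ ι₂ → ℂ} (hz : z ∈ ball (0 : ι₁ ⊕ ι₂ → ℂ) P₁.r) (t : ι₁) (i : π₁) :
    eval ((pk P₁ P₂ hr).bv z) ((pk P₁ P₂ hr).Jb (Sum.inl t) (Sum.inl i)) =
      eval (P₁.bv (Ll ι₁ ι₂ z)) (P₁.Jb t i) := eval_sl P₁ P₂ hr hz (P₁.Jb t i)

private theorem jb_rr {z : ι₁ ⊕ ι₂ → ℂ} (hz : z ∈ ball (0 : ι₁ ⊕ ι₂ → ℂ) P₁.r) (t : ι₂) (i : π₂) :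
    eval ((pk P₁ P₂ hr).bv z) ((pk P₁ P₂ hr).Jb (Sum.inr t) (Sum.inr i)) =
      eval (P₂.bv (Lr ι₁ ι₂ z)) (P₂.Jb t i) := eval_sr P₁ P₂ hr hz (P₂.Jb t i)

private theorem jfb_pk (h₁ : P₁.Ok) (h₂ : P₂.Ok) :
    ∀ z ∈ ball (0 : ι₁ ⊕ ι₂ → ℂ) (pk P₁ P₂ hr).r, ∀ i i',
    ∑ t, eval ((pk P₁ P₂ hr).bv z) ((pk P₁ P₂ hr).Jf i t) *
      eval ((pk P₁ P₂ hr).bv z) ((pk P₁ P₂ hr).Jb t i') = if i = i' then 1 else 0 := by
  intro z hz i i'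
  have hz1 := ball_l P₁.hr hz
  have hz2 : Lr ι₁ ι₂ z ∈ ball (0 : ι₂ → ℂ) P₂.r := by rw [hr]; exact ball_r P₁.hr hz
  rw [Fintype.sum_sum_type]
  rcases i with i | i <;> rcases i' with i' | i'
  · simp only [jf_zero, jf_ll P₁ P₂ hr hz, jb_ll P₁ P₂ hr hz, zero_mul, Finset.sum_const_zero,
      add_zero, Sum.inl.injEq]
    exact h₁.Jfb _ hz1 i i'
  · simp [jf_zero, jb_zero]
  · simp [jf_zero', jb_zero']
  · simp only [jf_zero', jf_rr P₁ P₂ hr hz, jb_rr P₁ P₂ hr hz, zero_mul, Finset.sum_const_zero,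
      zero_add, Sum.inr.injEq]
    exact h₂.Jfb _ hz2 i i'

private theorem jbf_pk (h₁ : P₁.Ok) (h₂ : P₂.Ok) :
    ∀ z ∈ ball (0 : ι₁ ⊕ ι₂ → ℂ) (pk P₁ P₂ hr).r, ∀ t t',
    ∑ i, eval ((pk P₁ P₂ hr).bv z) ((pk P₁ P₂ hr).Jb t i) *
      eval ((pk P₁ P₂ hr).bv z) ((pk P₁ P₂ hr).Jf i t') = if t = t' then 1 else 0 := by
  intro z hz i i'
  have hz1 := ball_l P₁.hr hz
  have hz2 : Lr ι₁ ι₂ z ∈ ball (0 : ι₂ → ℂ) P₂.r := by rw [hr]; exact ball_r P₁.hr hz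
  rw [Fintype.sum_sum_type]
  rcases i with i | i <;> rcases i' with i' | i'
  · simp only [jb_zero, jf_ll P₁ P₂ hr hz, jb_ll P₁ P₂ hr hz, zero_mul, Finset.sum_const_zero,
      add_zero, Sum.inl.injEq]
    exact h₁.Jbf _ hz1 i i'
  · simp [jf_zero, jb_zero]
  · simp [jf_zero', jb_zero']
  · simp only [jb_zero', jf_rr P₁ P₂ hr hz, jb_rr P₁ P₂ hr hz, zero_mul, Finset.sum_const_zero,
      zero_add, Sum.inr.injEq]
    exact h₂.Jbf _ hz2 i i'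

private theorem full_pk (h₁ : P₁.Ok) (h₂ : P₂.Ok) :
    Submodule.span ℝ ((pk P₁ P₂ hr).Λ : Set (ι₁ ⊕ ι₂ → ℂ)) = ⊤ := by
  set S := Submodule.span ℝ ((pk P₁ P₂ hr).Λ : Set (ι₁ ⊕ ι₂ → ℂ)) with hS
  have hl : ∀ x : ι₁ → ℂ, (Sum.elim x 0 : ι₁ ⊕ ι₂ → ℂ) ∈ S := by
    intro x
    have hx : x ∈ Submodule.span ℝ (P₁.Λ : Set (ι₁ → ℂ)) := by rw [h₁.full]; trivial
    induction hx using Submodule.span_induction with
    | mem x hx =>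
      apply Submodule.subset_span
      show _ ∈ (pk P₁ P₂ hr).Λ
      refine ⟨hx, ?_⟩
      show (0 : ι₂ → ℂ) ∈ P₂.Λ
      exact P₂.Λ.zero_mem
    | zero =>
      have : (Sum.elim 0 0 : ι₁ ⊕ ι₂ → ℂ) = 0 := by
        funext i
        rcases i with i | i <;> rfl
      rw [this]
      exact S.zero_mem
    | add x y _ _ hx hy =>
      have : (Sum.elim (x + y) 0 : ι₁ ⊕ ι₂ → ℂ) = Sum.elim x 0 + Sum.elim y 0 := by
        funext i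
        rcases i with i | i <;> simp
      rw [this]
      exact S.add_mem hx hy
    | smul a x _ hx =>
      have : (Sum.elim (a • x) 0 : ι₁ ⊕ ι₂ → ℂ) = a • Sum.elim x 0 := by
        funext i
        rcases i with i | i <;> simp
      rw [this]
      exact S.smul_mem a hx
  have hrr : ∀ x : ι₂ → ℂ, (Sum.elim 0 x : ι₁ ⊕ ι₂ → ℂ) ∈ S := by
    intro x
    have hx : x ∈ Submodule.span ℝ (P₂.Λ : Set (ι₂ → ℂ)) := by rw [h₂.full]; trivial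
    induction hx using Submodule.span_induction with
    | mem x hx =>
      apply Submodule.subset_span
      show _ ∈ (pk P₁ P₂ hr).Λ
      refine ⟨?_, hx⟩
      show (0 : ι₁ → ℂ) ∈ P₁.Λ
      exact P₁.Λ.zero_mem
    | zero =>
      have : (Sum.elim 0 0 : ι₁ ⊕ ι₂ → ℂ) = 0 := by
        funext i
        rcases i with i | i <;> rfl
      rw [this]
      exact S.zero_mem
    | add x y _ _ hx hy =>
      have : (Sum.elim (0 : ι₁ → ℂ) (x + y) : ι₁ ⊕ ι₂ → ℂ) =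
          Sum.elim (0 : ι₁ → ℂ) x + Sum.elim (0 : ι₁ → ℂ) y := by
        funext i
        rcases i with i | i <;> simp
      rw [this]
      exact S.add_mem hx hy
    | smul a x _ hx =>
      have : (Sum.elim (0 : ι₁ → ℂ) (a • x) : ι₁ ⊕ ι₂ → ℂ) =
          a • Sum.elim (0 : ι₁ → ℂ) x := by
        funext i
        rcases i with i | i <;> simp
      rw [this]
      exact S.smul_mem a hx
  rw [eq_top_iff]
  rintro z -
  have : z = Sum.elim (Ll ι₁ ι₂ z) (0 : ι₂ → ℂ) + Sum.elim (0 : ι₁ → ℂ) (Lr ι₁ ι₂ z) := by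
    funext i
    rcases i with i | i
    · show z (Sum.inl i) = z (Sum.inl i) + 0
      rw [add_zero]
    · show z (Sum.inr i) = 0 + z (Sum.inr i)
      rw [zero_add]
  rw [this]
  exact S.add_mem (hl _) (hrr _)

private theorem exp_bd {a b A B : ℝ} (ha : 0 ≤ a) (hb : 0 ≤ b) (hA : 1 ≤ A) (hB : 1 ≤ B) (n : ℕ) :
    a * A ^ n + b * B ^ n ≤ (a + b) * (max A B) ^ n := by
  have h1 : A ^ n ≤ (max A B) ^ n := pow_le_pow_left₀ (by linarith) (le_max_left _ _) n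
  have h2 : B ^ n ≤ (max A B) ^ n := pow_le_pow_left₀ (by linarith) (le_max_right _ _) n
  nlinarith [mul_le_mul_of_nonneg_left h1 ha, mul_le_mul_of_nonneg_left h2 hb]

private theorem le_aux {a b A B : ℝ} (ha : 0 ≤ a) (hb : 0 ≤ b) (hA : 1 ≤ A) (hB : 1 ≤ B) (n : ℕ)
    {x y : ℂ} (hx : ‖x‖ ≤ Real.exp (a * A ^ n)) (hy : ‖y‖ ≤ Real.exp (b * B ^ n)) :
    ‖x * y‖ ≤ Real.exp ((a + b) * (max A B) ^ n) := by
  rw [norm_mul]
  calc ‖x‖ * ‖y‖ ≤ Real.exp (a * A ^ n) * Real.exp (b * B ^ n) :=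
        mul_le_mul hx hy (norm_nonneg _) (Real.exp_pos _).le
    _ = Real.exp (a * A ^ n + b * B ^ n) := (Real.exp_add _ _).symm
    _ ≤ _ := Real.exp_le_exp.2 (exp_bd ha hb hA hB n)

private theorem ge_aux {a b A B : ℝ} (ha : 0 ≤ a) (hb : 0 ≤ b) (hA : 1 ≤ A) (hB : 1 ≤ B) (n : ℕ)
    {x y : ℂ} (hx : Real.exp (-(a * A ^ n)) ≤ ‖x‖) (hy : Real.exp (-(b * B ^ n)) ≤ ‖y‖) :
    Real.exp (-((a + b) * (max A B) ^ n)) ≤ ‖x * y‖ := by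
  rw [norm_mul]
  calc Real.exp (-((a + b) * (max A B) ^ n)) ≤ Real.exp (-(a * A ^ n) + -(b * B ^ n)) := by
        apply Real.exp_le_exp.2
        linarith [exp_bd ha hb hA hB n]
    _ = Real.exp (-(a * A ^ n)) * Real.exp (-(b * B ^ n)) := Real.exp_add _ _
    _ ≤ ‖x‖ * ‖y‖ := mul_le_mul hx hy (Real.exp_pos _).le (norm_nonneg _)

private theorem ok_pk (h₁ : P₁.Ok) (h₂ : P₂.Ok) : (pk P₁ P₂ hr).Ok where
  ux := by
    intro z hz i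
    have hz1 := ball_l P₁.hr hz
    have hz2 : Lr ι₁ ι₂ z ∈ ball (0 : ι₂ → ℂ) P₂.r := by rw [hr]; exact ball_r P₁.hr hz
    rcases i with i | i
    · have h := h₁.ux _ hz1 i
      rw [← eval_sl P₁ P₂ hr hz (P₁.ux i)] at h
      exact h
    · have h := h₂.ux _ hz2 i
      rw [← eval_sr P₁ P₂ hr hz (P₂.ux i)] at h
      exact h
  Jf := jf_pk P₁ P₂ hr h₁ h₂
  Jfb := jfb_pk P₁ P₂ hr h₁ h₂
  Jbf := jbf_pk P₁ P₂ hr h₁ h₂
  ad0 := by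
    intro z hz w hw
    have hr2 : (0 : ℝ) < P₁.r / 2 := by have := P₁.hr; linarith
    have hle : P₁.r / 2 ≤ P₁.r := by have := P₁.hr; linarith
    have hz' : z ∈ ball (0 : ι₁ ⊕ ι₂ → ℂ) P₁.r := ball_subset_ball hle hz
    have hw' : w ∈ ball (0 : ι₁ ⊕ ι₂ → ℂ) P₁.r := ball_subset_ball hle hw
    rw [ad0_eq P₁ P₂ hr hz' hw']
    exact mul_ne_zero (h₁.ad0 _ (ball_l hr2 hz) _ (ball_l hr2 hw))
      (h₂.ad0 _ (by rw [hr]; exact ball_r hr2 hz) _ (by rw [hr]; exact ball_r hr2 hw))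
  ad := by
    intro z hz w hw a
    have hr2 : (0 : ℝ) < P₁.r / 2 := by have := P₁.hr; linarith
    have hle : P₁.r / 2 ≤ P₁.r := by have := P₁.hr; linarith
    have hz' : z ∈ ball (0 : ι₁ ⊕ ι₂ → ℂ) P₁.r := ball_subset_ball hle hz
    have hw' : w ∈ ball (0 : ι₁ ⊕ ι₂ → ℂ) P₁.r := ball_subset_ball hle hw
    have hzw : z + w ∈ ball (0 : ι₁ ⊕ ι₂ → ℂ) P₁.r := by
      rw [mem_ball_zero_iff]
      have h1 : ‖z‖ < P₁.r / 2 := mem_ball_zero_iff.1 hz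
      have h2 : ‖w‖ < P₁.r / 2 := mem_ball_zero_iff.1 hw
      have := norm_add_le z w
      linarith
    rcases a with a | a
    · have e1 := h_l P₁ P₂ hr hzw a
      have e2 := ad_l P₁ P₂ hr hz' hw' a
      have e3 := ad0_eq P₁ P₂ hr hz' hw'
      have e4 := h₁.ad _ (ball_l hr2 hz) _ (ball_l hr2 hw) a
      rw [e3]
      refine Eq.trans (congrArg (fun x => x * _) e1) (Eq.trans ?_ e2.symm)
      rw [map_add, ← mul_assoc, e4]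
    · have e1 := h_r P₁ P₂ hr hzw a
      have e2 := ad_r P₁ P₂ hr hz' hw' a
      have e3 := ad0_eq P₁ P₂ hr hz' hw'
      have e4 := h₂.ad _ (by rw [hr]; exact ball_r hr2 hz) _ (by rw [hr]; exact ball_r hr2 hw) a
      rw [e3]
      refine Eq.trans (congrArg (fun x => x * _) e1) (Eq.trans ?_ e2.symm)
      rw [map_add, mul_left_comm, e4]
  imm := imm_pk P₁ P₂ hr h₁ h₂
  G0ana := by
    intro n
    have hp : (0 : ℝ) < 2 ^ n * P₁.r := mul_pos (by positivity) P₁.hr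
    have e1 := (h₁.G0ana n).comp (Ll ι₁ ι₂).differentiable.differentiableOn
      (fun z hz => ball_l hp hz)
    have e2 := (h₂.G0ana n).comp (Lr ι₁ ι₂).differentiable.differentiableOn
      (fun z hz => by rw [hr]; exact ball_r hp hz)
    exact e1.mul e2
  Gana := by
    intro n a
    have hp : (0 : ℝ) < 2 ^ n * P₁.r := mul_pos (by positivity) P₁.hr
    rcases a with a | a
    · have e1 := (h₁.Gana n a).comp (Ll ι₁ ι₂).differentiable.differentiableOn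
        (fun z hz => ball_l hp hz)
      have e2 := (h₂.G0ana n).comp (Lr ι₁ ι₂).differentiable.differentiableOn
        (fun z hz => by rw [hr]; exact ball_r hp hz)
      exact e1.mul e2
    · have e1 := (h₁.G0ana n).comp (Ll ι₁ ι₂).differentiable.differentiableOn
        (fun z hz => ball_l hp hz)
      have e2 := (h₂.Gana n a).comp (Lr ι₁ ι₂).differentiable.differentiableOn
        (fun z hz => by rw [hr]; exact ball_r hp hz)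
      exact e1.mul e2
  G0le := by
    intro n z hz
    have hp : (0 : ℝ) < 2 ^ n * P₁.r := mul_pos (by positivity) P₁.hr
    exact le_aux P₁.hCg P₂.hCg P₁.hB P₂.hB n (h₁.G0le n _ (ball_l hp hz))
      (h₂.G0le n _ (by rw [hr]; exact ball_r hp hz))
  Gle := by
    intro n a z hz
    have hp : (0 : ℝ) < 2 ^ n * P₁.r := mul_pos (by positivity) P₁.hr
    rcases a with a | a
    · exact le_aux P₁.hCg P₂.hCg P₁.hB P₂.hB n (h₁.Gle n a _ (ball_l hp hz))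
        (h₂.G0le n _ (by rw [hr]; exact ball_r hp hz))
    · exact le_aux P₁.hCg P₂.hCg P₁.hB P₂.hB n (h₁.G0le n _ (ball_l hp hz))
        (h₂.Gle n a _ (by rw [hr]; exact ball_r hp hz))
  G0ge := by
    intro n z hz
    exact ge_aux P₁.hCg P₂.hCg P₁.hB P₂.hB n (h₁.G0ge n _ (ball_l P₁.hr hz))
      (h₂.G0ge n _ (by rw [hr]; exact ball_r P₁.hr hz))
  Geq := by
    intro n a z hz
    have hz1 := ball_l P₁.hr hz
    have hz2 : Lr ι₁ ι₂ z ∈ ball (0 : ι₂ → ℂ) P₂.r := by rw [hr]; exact ball_r P₁.hr hz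
    rcases a with a | a
    · have e1 := h_l P₁ P₂ hr hz a
      have e2 := h₁.Geq n a _ hz1
      refine Eq.trans ?_ (congrArg (fun x => x * _) e1.symm)
      show P₁.G n a (Ll ι₁ ι₂ z) * P₂.G0 n (Lr ι₁ ι₂ z) =
        P₁.h (Ll ι₁ ι₂ z) a * (P₁.G0 n (Ll ι₁ ι₂ z) * P₂.G0 n (Lr ι₁ ι₂ z))
      rw [e2, mul_assoc]
    · have e1 := h_r P₁ P₂ hr hz a
      have e2 := h₂.Geq n a _ hz2
      refine Eq.trans ?_ (congrArg (fun x => x * _) e1.symm)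
      show P₁.G0 n (Ll ι₁ ι₂ z) * P₂.G n a (Lr ι₁ ι₂ z) =
        P₂.h (Lr ι₁ ι₂ z) a * (P₁.G0 n (Ll ι₁ ι₂ z) * P₂.G0 n (Lr ι₁ ι₂ z))
      rw [e2, mul_left_comm]
  per := by
    intro l hl n hn z hz a
    have hz1 := ball_l P₁.hr hz
    have hz2 : Lr ι₁ ι₂ z ∈ ball (0 : ι₂ → ℂ) P₂.r := by rw [hr]; exact ball_r P₁.hr hz
    have hn1 : ‖Ll ι₁ ι₂ l‖ + P₁.r ≤ 2 ^ n * P₁.r := le_trans (by
      have := norm_Ll_le l
      show ‖Ll ι₁ ι₂ l‖ + P₁.r ≤ ‖l‖ + P₁.r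
      linarith) hn
    have hn2 : ‖Lr ι₁ ι₂ l‖ + P₂.r ≤ 2 ^ n * P₂.r := by
      rw [hr]
      refine le_trans ?_ hn
      have := norm_Lr_le l
      show ‖Lr ι₁ ι₂ l‖ + P₁.r ≤ ‖l‖ + P₁.r
      linarith
    rcases a with a | a
    · have e := h₁.per _ hl.1 n hn1 _ hz1 a
      show P₁.G n a (Ll ι₁ ι₂ (l + z)) * P₂.G0 n (Lr ι₁ ι₂ (l + z)) *
          (P₁.G0 n (Ll ι₁ ι₂ z) * P₂.G0 n (Lr ι₁ ι₂ z)) =
        P₁.G n a (Ll ι₁ ι₂ z) * P₂.G0 n (Lr ι₁ ι₂ z) *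
          (P₁.G0 n (Ll ι₁ ι₂ (l + z)) * P₂.G0 n (Lr ι₁ ι₂ (l + z)))
      rw [map_add, map_add]
      have e' : P₁.G n a (Ll ι₁ ι₂ l + Ll ι₁ ι₂ z) * P₁.G0 n (Ll ι₁ ι₂ z) =
        P₁.G n a (Ll ι₁ ι₂ z) * P₁.G0 n (Ll ι₁ ι₂ l + Ll ι₁ ι₂ z) := e
      linear_combination (P₂.G0 n (Lr ι₁ ι₂ l + Lr ι₁ ι₂ z) * P₂.G0 n (Lr ι₁ ι₂ z)) * e'
    · have e := h₂.per _ hl.2 n hn2 _ hz2 a
      show P₁.G0 n (Ll ι₁ ι₂ (l + z)) * P₂.G n a (Lr ι₁ ι₂ (l + z)) *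
          (P₁.G0 n (Ll ι₁ ι₂ z) * P₂.G0 n (Lr ι₁ ι₂ z)) =
        P₁.G0 n (Ll ι₁ ι₂ z) * P₂.G n a (Lr ι₁ ι₂ z) *
          (P₁.G0 n (Ll ι₁ ι₂ (l + z)) * P₂.G0 n (Lr ι₁ ι₂ (l + z)))
      rw [map_add, map_add]
      have e' : P₂.G n a (Lr ι₁ ι₂ l + Lr ι₁ ι₂ z) * P₂.G0 n (Lr ι₁ ι₂ z) =
        P₂.G n a (Lr ι₁ ι₂ z) * P₂.G0 n (Lr ι₁ ι₂ l + Lr ι₁ ι₂ z) := e
      linear_combination (P₁.G0 n (Ll ι₁ ι₂ l + Ll ι₁ ι₂ z) * P₁.G0 n (Ll ι₁ ι₂ z)) * e'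
  full := full_pk P₁ P₂ hr h₁ h₂

end PPaux

/-- (PP) product of packages -/
theorem Pkg.Ok.prod {π₁ ι₁ π₂ ι₂ : Type} [Fintype π₁] [Fintype ι₁] [DecidableEq π₁]
    [DecidableEq ι₁] [Fintype π₂] [Fintype ι₂] [DecidableEq π₂] [DecidableEq ι₂]
    (P₁ : Pkg π₁ ι₁) (h₁ : P₁.Ok) (P₂ : Pkg π₂ ι₂) (h₂ : P₂.Ok) :
    ∃ P : Pkg (π₁ ⊕ π₂) (ι₁ ⊕ ι₂), P.Ok ∧
      ∀ z : ι₁ ⊕ ι₂ → ℂ, z ∈ P.Λ ↔ (fun i => z (Sum.inl i)) ∈ P₁.Λ ∧ (fun i => z (Sum.inr i)) ∈ P₂.Λ := by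
  have hpos : 0 < min P₁.r P₂.r := lt_min P₁.hr P₂.hr
  obtain ⟨P, hP, hPr, hPL⟩ := h₁.shrink P₁ (min P₁.r P₂.r) hpos (min_le_left _ _)
  obtain ⟨Q, hQ, hQr, hQL⟩ := h₂.shrink P₂ (min P₁.r P₂.r) hpos (min_le_right _ _)
  have hr : Q.r = P.r := by rw [hPr, hQr]
  refine ⟨PPaux.pk P Q hr, PPaux.ok_pk P Q hr hP hQ, ?_⟩
  intro z
  rw [← hPL, ← hQL]
  exact Iff.rfl

end

end Pool.Agent.WW
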