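import Pool.Agent.WW.Main
import Pool.Agent.WW.PP
import Pool.Agent.WW.PL
import Pool.Agent.WW.Fin1
import Pool.Agent.WW.CurvePkg

set_option autoImplicit false

namespace Pool.Agent.WW

open Matrix

theorem ze_alg {D : ℕ} (hD : 0 < D) : IsAlgebraic ℚ (ze D) := by
  have h : ze D ^ D = 1 := by
    unfold ze
    rw [← Complex.exp_nat_mul]
    have hD' : (D : ℂ) ≠ 0 := by exact_mod_cast hD.ne'
    rw [mul_div_cancel₀ _ hD', Complex.exp_two_pi_mul_I]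
  refine ⟨Polynomial.X ^ D - 1, ?_, ?_⟩
  · exact (Polynomial.monic_X_pow_sub_C (1 : ℚ) hD.ne').ne_zero
  · simp [h]

/-- (FIN2a) two-term theorem, `gcd = 1` -/
theorem two_term_gcd {D₁ j₁ k₁ D₂ j₂ k₂ : ℕ} (hj₁ : 0 < j₁) (hk₁ : 0 < k₁)
    (hjk₁ : j₁ + k₁ < D₁) (hj₂ : 0 < j₂) (hk₂ : 0 < k₂) (hjk₂ : j₂ + k₂ < D₂)
    (hg₁ : Nat.gcd (Nat.gcd j₁ k₁) D₁ = 1) (hg₂ : Nat.gcd (Nat.gcd j₂ k₂) D₂ = 1)
    (h : IsAlgebraic ℚ (be D₁ j₁ k₁ 1 / be D₂ j₂ k₂ 1)) (t : ℕ) (ht : Nat.Coprime t (D₁ * D₂)) :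
    t * j₁ % D₁ + t * k₁ % D₁ < D₁ ↔ t * j₂ % D₂ + t * k₂ % D₂ < D₂ := by
  have hD₁ : 3 ≤ D₁ := by omega
  have hD₂ : 3 ≤ D₂ := by omega
  by_contra hne
  obtain ⟨π₁, i1, i2, P₁, hP₁, hΛ₁⟩ := curve_pkg D₁ j₁ k₁ hD₁ hj₁ hk₁ hjk₁ hg₁
  obtain ⟨π₂, i3, i4, P₂, hP₂, hΛ₂⟩ := curve_pkg D₂ j₂ k₂ hD₂ hj₂ hk₂ hjk₂ hg₂
  obtain ⟨P, hP, hΛ⟩ := Pkg.Ok.prod P₁ hP₁ P₂ hP₂
  let u₁ : Ph D₁ j₁ k₁ := ph1 hD₁ hj₁ hk₁ hjk₁
  let u₂ : Ph D₂ j₂ k₂ := ph1 hD₂ hj₂ hk₂ hjk₂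
  -- the numbering of the coordinates
  obtain ⟨m, hm⟩ : ∃ m, Fintype.card (Ph D₁ j₁ k₁ ⊕ Ph D₂ j₂ k₂) = m + 1 :=
    Nat.exists_eq_succ_of_ne_zero (Fintype.card_pos_iff.2 ⟨Sum.inl u₁⟩).ne'
  obtain ⟨e, he⟩ : ∃ e : Ph D₁ j₁ k₁ ⊕ Ph D₂ j₂ k₂ ≃ Fin (m + 1), e (Sum.inl u₁) = Fin.last m := by
    let e0 := Fintype.equivFinOfCardEq hm
    exact ⟨e0.trans (Equiv.swap (e0 (Sum.inl u₁)) (Fin.last m)), by simp⟩
  have he' : e.symm (Fin.last m) = Sum.inl u₁ := by rw [← he, Equiv.symm_apply_apply]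
  -- the periods
  have hv₁ : (u₁.1 : ℕ) = 1 := rfl
  have hv₂ : (u₂.1 : ℕ) = 1 := rfl
  have hc₁ : pe D₁ j₁ k₁ 1 u₁ ≠ 0 := by
    have := pe_factor_ne_zero hD₁ hj₁ hk₁ hjk₁ u₁
    simpa [pe] using this
  have hc₂ : pe D₂ j₂ k₂ 1 u₂ ≠ 0 := by
    have := pe_factor_ne_zero hD₂ hj₂ hk₂ hjk₂ u₂
    simpa [pe] using this
  obtain ⟨α, hα⟩ : ∃ α : ℂ, α = pe D₁ j₁ k₁ 1 u₁ / pe D₂ j₂ k₂ 1 u₂ := ⟨_, rfl⟩
  have hα0 : α ≠ 0 := by rw [hα]; exact div_ne_zero hc₁ hc₂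
  have hαalg : IsAlgebraic ℚ α := by
    have h1 : α = ((1 - ze D₁ ^ j₁) * (1 - ze D₁ ^ k₁)) * (((1 - ze D₂ ^ j₂) * (1 - ze D₂ ^ k₂)))⁻¹ *
        (be D₁ j₁ k₁ 1 / be D₂ j₂ k₂ 1) := by
      rw [hα]
      simp only [pe, hv₁, hv₂, one_mul, map_one, div_eq_mul_inv, mul_inv]
      ring
    rw [h1]
    have hz1 := ze_alg (D := D₁) (by omega)
    have hz2 := ze_alg (D := D₂) (by omega)
    have h1' : IsAlgebraic ℚ (1 : ℂ) := isAlgebraic_one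
    exact ((((h1'.sub (hz1.pow _)).mul (h1'.sub (hz1.pow _))).mul
      ((h1'.sub (hz2.pow _)).mul (h1'.sub (hz2.pow _))).inv)).mul h
  -- the change of coordinates
  have hij : (Sum.inl u₁ : Ph D₁ j₁ k₁ ⊕ Ph D₂ j₂ k₂) ≠ Sum.inr u₂ := Sum.inl_ne_inr
  let T : ℂ → Matrix (Ph D₁ j₁ k₁ ⊕ Ph D₂ j₂ k₂) (Ph D₁ j₁ k₁ ⊕ Ph D₂ j₂ k₂) ℂ :=
    fun c => Matrix.transvection (Sum.inl u₁) (Sum.inr u₂) c
  have hTT : T α * T (-α) = 1 := by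
    simp only [T]
    rw [Matrix.transvection_mul_transvection_same _ _ hij, add_neg_cancel, Matrix.transvection_zero]
  have hTT' : T (-α) * T α = 1 := by
    simp only [T]
    rw [Matrix.transvection_mul_transvection_same _ _ hij, neg_add_cancel, Matrix.transvection_zero]
  have hTalg : ∀ c : ℂ, IsAlgebraic ℚ c → ∀ i i', IsAlgebraic ℚ (T c i i') := by
    intro c hc i i'
    simp only [T, Matrix.transvection, Matrix.add_apply, Matrix.one_apply, Matrix.single_apply]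
    refine IsAlgebraic.add ?_ ?_
    · split_ifs
      · exact isAlgebraic_one
      · exact isAlgebraic_zero
    · split_ifs
      · exact hc
      · exact isAlgebraic_zero
  have hT1 : ∀ c w, (T c *ᵥ w) (Sum.inl u₁) = w (Sum.inl u₁) + c * w (Sum.inr u₂) := by
    intro c w
    simp only [T, Matrix.transvection, Matrix.add_mulVec, Matrix.one_mulVec, Pi.add_apply,
      Matrix.single_mulVec, Function.update_self]
  let E : Matrix (Ph D₁ j₁ k₁ ⊕ Ph D₂ j₂ k₂) (Fin (m + 1)) ℂ := (T α).submatrix id e.symm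
  let E' : Matrix (Fin (m + 1)) (Ph D₁ j₁ k₁ ⊕ Ph D₂ j₂ k₂) ℂ := (T (-α)).submatrix e.symm id
  have hEE' : E * E' = 1 := by
    simp only [E, E']
    rw [Matrix.submatrix_mul_equiv, hTT, Matrix.submatrix_id_id]
  have hE'E : E' * E = 1 := by
    simp only [E, E']
    have := Matrix.submatrix_mul_equiv (T (-α)) (T α) e.symm (Equiv.refl _) e.symm
    simp only [Equiv.coe_refl] at this
    rw [this, hTT', Matrix.submatrix_one_equiv]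
  have hlast : ∀ w, (E' *ᵥ w) (Fin.last m) = w (Sum.inl u₁) - α * w (Sum.inr u₂) := by
    intro w
    have h1 : (E' *ᵥ w) (Fin.last m) = (T (-α) *ᵥ w) (e.symm (Fin.last m)) := rfl
    rw [h1, he', hT1]
    ring
  obtain ⟨P', hP', hΛ'⟩ := Pkg.Ok.lin P hP E E' hEE' hE'E (fun i i' => hTalg α hαalg _ _)
    (fun i i' => hTalg (-α) hαalg.neg _ _)
  -- no subspace
  have hNS : P'.NoSub := by
    intro N hN hN0 hspan
    let φ : (Fin (m + 1) → ℂ) →ₗ[ℂ] (Ph D₁ j₁ k₁ ⊕ Ph D₂ j₂ k₂ → ℂ) := E.mulVecLin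
    have hφ : ∀ z, E' *ᵥ (φ z) = z := by
      intro z
      simp only [φ, Matrix.mulVecLin_apply, Matrix.mulVec_mulVec, hE'E, Matrix.one_mulVec]
    refine no_sub hD₁ hj₁ hk₁ hjk₁ hD₂ hj₂ hk₂ hjk₂ α hα0 t ht hne (N.map φ) ?_ ?_ ?_
    · intro hbot
      apply hN
      rw [Submodule.eq_bot_iff]
      intro z hz
      have h1 : φ z ∈ N.map φ := Submodule.mem_map_of_mem hz
      rw [hbot, Submodule.mem_bot] at h1
      rw [← hφ z, h1, Matrix.mulVec_zero]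
    · rintro _ ⟨z, hz, rfl⟩
      have h1 := hN0 z hz
      rw [← hφ z, hlast] at h1
      exact sub_eq_zero.1 h1
    · have h1 : {z : Ph D₁ j₁ k₁ ⊕ Ph D₂ j₂ k₂ → ℂ | z ∈ N.map φ ∧
          (fun i => z (Sum.inl i)) ∈ Lam D₁ j₁ k₁ ∧ (fun i => z (Sum.inr i)) ∈ Lam D₂ j₂ k₂} =
          (φ.restrictScalars ℝ) '' {z : Fin (m + 1) → ℂ | z ∈ N ∧ z ∈ P'.Λ} := by
        ext w
        constructor
        · rintro ⟨⟨z, hz, rfl⟩, h2, h3⟩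
          refine ⟨z, ⟨hz, ?_⟩, rfl⟩
          rw [hΛ', hΛ, hΛ₁, hΛ₂]
          exact ⟨h2, h3⟩
        · rintro ⟨z, ⟨hz, hz'⟩, rfl⟩
          rw [hΛ', hΛ, hΛ₁, hΛ₂] at hz'
          exact ⟨⟨z, hz, rfl⟩, hz'.1, hz'.2⟩
      rw [h1, Submodule.span_image, hspan]
      ext w
      simp [Submodule.mem_map]
  -- the period
  let L : Ph D₁ j₁ k₁ ⊕ Ph D₂ j₂ k₂ → ℂ := Sum.elim (pe D₁ j₁ k₁ 1) (pe D₂ j₂ k₂ 1)
  have hEL : E *ᵥ (E' *ᵥ L) = L := by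
    rw [Matrix.mulVec_mulVec, hEE', Matrix.one_mulVec]
  have h0 : E' *ᵥ L = 0 := by
    refine hP'.main P' hNS _ ?_ ?_
    · rw [hΛ', hEL, hΛ, hΛ₁, hΛ₂]
      exact ⟨⟨1, rfl⟩, ⟨1, rfl⟩⟩
    · rw [hlast]
      simp only [L, Sum.elim_inl, Sum.elim_inr]
      rw [hα, div_mul_cancel₀ _ hc₂, sub_self]
  rw [h0, Matrix.mulVec_zero] at hEL
  exact hc₁ (congrFun hEL.symm (Sum.inl u₁))

/-- (FIN2b) two-term theorem: if the quotient of two Beta values of the first kind is algebraic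
then the types agree -/
theorem two_term {D₁ j₁ k₁ D₂ j₂ k₂ : ℕ} (hj₁ : 0 < j₁) (hk₁ : 0 < k₁)
    (hjk₁ : j₁ + k₁ < D₁) (hj₂ : 0 < j₂) (hk₂ : 0 < k₂) (hjk₂ : j₂ + k₂ < D₂)
    (h : IsAlgebraic ℚ (Complex.betaIntegral ((j₁ : ℂ) / D₁) ((k₁ : ℂ) / D₁) /
      Complex.betaIntegral ((j₂ : ℂ) / D₂) ((k₂ : ℂ) / D₂))) (t : ℕ)
    (ht : Nat.Coprime t (D₁ * D₂)) :
    t * j₁ % D₁ + t * k₁ % D₁ < D₁ ↔ t * j₂ % D₂ + t * k₂ % D₂ < D₂ := by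
  have key : ∀ {D j k : ℕ}, 0 < j → 0 < k → j + k < D → ∃ g D' j' k' : ℕ, 0 < g ∧ D = g * D' ∧
      j = g * j' ∧ k = g * k' ∧ 0 < j' ∧ 0 < k' ∧ j' + k' < D' ∧ Nat.gcd (Nat.gcd j' k') D' = 1 ∧
      Complex.betaIntegral ((j : ℂ) / D) ((k : ℂ) / D) = be D' j' k' 1 := by
    intro D j k hj hk hjk
    have hg : 0 < Nat.gcd (Nat.gcd j k) D := Nat.gcd_pos_of_pos_right _ (by omega)
    obtain ⟨j', hj'⟩ := (Nat.gcd_dvd_left (Nat.gcd j k) D).trans (Nat.gcd_dvd_left j k)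
    obtain ⟨k', hk'⟩ := (Nat.gcd_dvd_left (Nat.gcd j k) D).trans (Nat.gcd_dvd_right j k)
    obtain ⟨D', hD'⟩ := Nat.gcd_dvd_right (Nat.gcd j k) D
    set g := Nat.gcd (Nat.gcd j k) D with hgdef
    have hj'0 : 0 < j' := Nat.pos_of_ne_zero (by rintro rfl; omega)
    have hk'0 : 0 < k' := Nat.pos_of_ne_zero (by rintro rfl; omega)
    have hlt : j' + k' < D' := by
      have h1 : g * (j' + k') < g * D' := by rw [mul_add, ← hj', ← hk', ← hD']; exact hjk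
      exact lt_of_mul_lt_mul_left h1 (Nat.zero_le g)
    refine ⟨g, D', j', k', hg, hD', hj', hk', hj'0, hk'0, hlt, ?_, ?_⟩
    · have h1 : g * Nat.gcd (Nat.gcd j' k') D' = g * 1 := by
        rw [← Nat.gcd_mul_left, ← Nat.gcd_mul_left, ← hj', ← hk', ← hD', mul_one]
      exact Nat.eq_of_mul_eq_mul_left hg h1
    · unfold be
      have hg0 : (g : ℂ) ≠ 0 := by exact_mod_cast hg.ne'
      have h1 : (j : ℂ) / D = (j' : ℂ) / D' := by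
        rw [hj', hD']
        push_cast
        rw [mul_div_mul_left _ _ hg0]
      have h2 : (k : ℂ) / D = (k' : ℂ) / D' := by
        rw [hk', hD']
        push_cast
        rw [mul_div_mul_left _ _ hg0]
      rw [h1, h2, one_mul, one_mul, Nat.mod_eq_of_lt (by omega), Nat.mod_eq_of_lt (by omega)]
  obtain ⟨g₁, D₁', j₁', k₁', hg₁, rfl, rfl, rfl, hj₁', hk₁', hjk₁', hgcd₁, hb₁⟩ := key hj₁ hk₁ hjk₁
  obtain ⟨g₂, D₂', j₂', k₂', hg₂, rfl, rfl, rfl, hj₂', hk₂', hjk₂', hgcd₂, hb₂⟩ := key hj₂ hk₂ hjk₂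
  rw [hb₁, hb₂] at h
  have ht' : Nat.Coprime t (D₁' * D₂') := by
    refine Nat.Coprime.coprime_dvd_right ?_ ht
    exact Nat.mul_dvd_mul (Dvd.intro_left g₁ rfl) (Dvd.intro_left g₂ rfl)
  have hmain := two_term_gcd hj₁' hk₁' hjk₁' hj₂' hk₂' hjk₂' hgcd₁ hgcd₂ h t ht'
  have hred : ∀ g D' j' k' : ℕ, 0 < g → ((t * (g * j') % (g * D') + t * (g * k') % (g * D') < g * D') ↔
      (t * j' % D' + t * k' % D' < D')) := by
    intro g D' j' k' hg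
    rw [mul_left_comm t g j', mul_left_comm t g k', Nat.mul_mod_mul_left, Nat.mul_mod_mul_left, ← mul_add]
    exact ⟨fun h => lt_of_mul_lt_mul_left h (Nat.zero_le g), fun h => Nat.mul_lt_mul_of_pos_left h hg⟩
  rw [hred _ _ _ _ hg₁, hred _ _ _ _ hg₂]
  exact hmain

end Pool.Agent.WW
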