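import Pool.Agent.WW.JDefs

set_option autoImplicit false

namespace Pool.Agent.WW

open Metric Filter Topology

variable {D j k : ℕ}

namespace JA

theorem re_add {s : ℂ} (hs : ‖s‖ < 1 / 2) : 0 < (1 / 2 + s).re := by
  have h1 := Complex.abs_re_le_norm s
  have h2 := neg_abs_le s.re
  have h3 : (1 / 2 + s : ℂ).re = 1 / 2 + s.re := by
    rw [Complex.add_re]
    norm_num
  rw [h3]
  linarith

theorem re_sub {s : ℂ} (hs : ‖s‖ < 1 / 2) : 0 < (1 / 2 - s).re := by
  have h1 := re_add (s := -s) (by rw [norm_neg]; exact hs)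
  rwa [← sub_eq_add_neg] at h1

theorem add_ne {s : ℂ} (hs : ‖s‖ < 1 / 2) : (1 / 2 + s : ℂ) ≠ 0 := fun h => by
  have h1 := re_add hs
  rw [h] at h1
  simp at h1

theorem sub_ne {s : ℂ} (hs : ‖s‖ < 1 / 2) : (1 / 2 - s : ℂ) ≠ 0 := fun h => by
  have h1 := re_sub hs
  rw [h] at h1
  simp at h1

theorem cp {x : ℂ} (hx : x ≠ 0) (hD : 0 < D) (a b : ℕ) :
    x ^ ((a : ℂ) / D) * x ^ ((b : ℂ) / D) =
      x ^ ((a + b) / D) * x ^ ((((a + b) % D : ℕ) : ℂ) / D) := by
  have hD' : (D : ℂ) ≠ 0 := Nat.cast_ne_zero.mpr hD.ne'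
  have h1 : (a : ℂ) / D + (b : ℂ) / D =
      (((a + b) / D : ℕ) : ℂ) + (((a + b) % D : ℕ) : ℂ) / D := by
    have h2 : ((D * ((a + b) / D) + (a + b) % D : ℕ) : ℂ) = ((a + b : ℕ) : ℂ) := by
      rw [Nat.div_add_mod]
    rw [Nat.cast_add, Nat.cast_mul, Nat.cast_add] at h2
    rw [← add_div, div_eq_iff hD', add_mul, div_mul_cancel₀ _ hD', ← h2]
    ring
  rw [← Complex.cpow_add _ _ hx, h1, Complex.cpow_add _ _ hx, Complex.cpow_natCast]

theorem cp2 {x : ℂ} (hx : x ≠ 0) (hD : 0 < D) (t j : ℕ) :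
    x ^ (((t * j % D : ℕ) : ℂ) / D) * x ^ (t * j / D) = (x ^ ((j : ℂ) / D)) ^ t := by
  have hD' : (D : ℂ) ≠ 0 := Nat.cast_ne_zero.mpr hD.ne'
  rw [← Complex.cpow_natCast x (t * j / D), ← Complex.cpow_add _ _ hx, ← Complex.cpow_nat_mul]
  congr 1
  have h2 : ((D * (t * j / D) + t * j % D : ℕ) : ℂ) = ((t * j : ℕ) : ℂ) := by
    rw [Nat.div_add_mod]
  rw [Nat.cast_add, Nat.cast_mul, Nat.cast_mul] at h2
  rw [mul_div_assoc', eq_div_iff hD', add_mul, div_mul_cancel₀ _ hD', ← h2]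
  ring

theorem mod_eq (u v j : ℕ) : (u * j % D + v * j % D) % D = (u + v) % D * j % D := by
  rw [← Nat.add_mod, ← add_mul, Nat.mod_mul_mod]

theorem ze_pow_D (hD : 0 < D) : ze D ^ D = 1 :=
  (Complex.isPrimitiveRoot_exp D hD.ne').pow_eq_one

theorem ze_mod (hD : 0 < D) (a : ℕ) : ze D ^ (a % D) = ze D ^ a :=
  (pow_eq_pow_mod a (ze_pow_D hD)).symm

theorem ze_eq (hD : 0 < D) {a b : ℕ} (h : a % D = b % D) : ze D ^ a = ze D ^ b := by
  rw [← ze_mod hD a, ← ze_mod hD b, h]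

theorem ze_inj (hD : 0 < D) : Function.Injective fun t : Fin D => ze D ^ (t : ℕ) := by
  intro a b h
  exact Fin.ext ((Complex.isPrimitiveRoot_exp D hD.ne').pow_inj a.2 b.2 h)

end JA

open JA

theorem et_ne_zero (t : ℕ) {s : ℂ} (hs : ‖s‖ < 1 / 2) : et D j k t s ≠ 0 := by
  unfold et
  rw [Complex.cpow_def_of_ne_zero (add_ne hs), Complex.cpow_def_of_ne_zero (sub_ne hs)]
  exact mul_ne_zero (Complex.exp_ne_zero _) (Complex.exp_ne_zero _)

theorem et_diff (t : ℕ) : DifferentiableOn ℂ (et D j k t) (ball 0 (1 / 2)) := by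
  intro s hs
  have hs' : ‖s‖ < 1 / 2 := by simpa using hs
  refine DifferentiableAt.differentiableWithinAt ?_
  unfold et
  refine DifferentiableAt.mul ?_ ?_
  · exact DifferentiableAt.cpow ((differentiableAt_const _).add differentiableAt_id)
      (differentiableAt_const _) (Complex.mem_slitPlane_iff.mpr (Or.inl (re_add hs')))
  · exact DifferentiableAt.cpow ((differentiableAt_const _).sub differentiableAt_id)
      (differentiableAt_const _) (Complex.mem_slitPlane_iff.mpr (Or.inl (re_sub hs')))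

theorem et_mul (hD : 0 < D) (u v : ℕ) {s : ℂ} (hs : ‖s‖ < 1 / 2) :
    et D j k u s * et D j k v s = (1 / 2 + s) ^ ((u * j % D + v * j % D) / D) *
      (1 / 2 - s) ^ ((u * k % D + v * k % D) / D) * et D j k ((u + v) % D) s := by
  have h1 := cp (add_ne hs) hD (u * j % D) (v * j % D)
  have h2 := cp (sub_ne hs) hD (u * k % D) (v * k % D)
  rw [mod_eq] at h1 h2
  unfold et
  calc (1 / 2 + s) ^ (((u * j % D : ℕ) : ℂ) / D) * (1 / 2 - s) ^ (((u * k % D : ℕ) : ℂ) / D) *
        ((1 / 2 + s) ^ (((v * j % D : ℕ) : ℂ) / D) * (1 / 2 - s) ^ (((v * k % D : ℕ) : ℂ) / D))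
      = ((1 / 2 + s) ^ (((u * j % D : ℕ) : ℂ) / D) * (1 / 2 + s) ^ (((v * j % D : ℕ) : ℂ) / D)) *
        ((1 / 2 - s) ^ (((u * k % D : ℕ) : ℂ) / D) * (1 / 2 - s) ^ (((v * k % D : ℕ) : ℂ) / D)) := by
          ring
    _ = _ := by rw [h1, h2]; ring

/-- the functions `η_t` as rational functions of `x`, `y` -/
theorem et_ybr (hD : 0 < D) (t : ℕ) {s : ℂ} (hs : ‖s‖ < 1 / 2) :
    et D j k t s * ((1 / 2 + s) ^ (t * j / D) * (1 / 2 - s) ^ (t * k / D)) = ybr D j k s ^ t := by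
  have h1 := cp2 (add_ne hs) hD t j
  have h2 := cp2 (sub_ne hs) hD t k
  unfold et ybr
  rw [mul_pow, ← h1, ← h2]
  ring

theorem sh_diff (g : Fn D) (i : ℕ) : DifferentiableOn ℂ (sh D j k g i) (ball 0 (1 / 2)) := by
  unfold sh
  refine DifferentiableOn.fun_sum fun t _ => ?_
  exact ((Polynomial.differentiable _).differentiableOn.mul (differentiableOn_const _)).mul
    (et_diff t)

theorem sh_mulF (hD : 0 < D) (g h : Fn D) (i : ℕ) {s : ℂ} (hs : ‖s‖ < 1 / 2) :
    sh D j k (mulF D j k g h) i s = sh D j k g i s * sh D j k h i s := by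
  have hlt : ∀ u v : Fin D, ((u : ℕ) + v) % D < D := fun u v => Nat.mod_lt _ hD
  have h1 : sh D j k (mulF D j k g h) i s = ∑ u : Fin D, ∑ v : Fin D,
      ∑ t : Fin D, (if ((u : ℕ) + v) % D = t then
        ((1 / 2 + s) ^ (((u : ℕ) * j % D + (v : ℕ) * j % D) / D) *
          (1 / 2 - s) ^ (((u : ℕ) * k % D + (v : ℕ) * k % D) / D) *
          (g u).eval s * (h v).eval s) * ze D ^ ((t : ℕ) * i) * et D j k t s else 0) := by
    unfold sh mulF
    simp only [Polynomial.eval_finset_sum, Finset.sum_mul]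
    rw [Finset.sum_comm]
    refine Finset.sum_congr rfl fun u _ => ?_
    rw [Finset.sum_comm]
    refine Finset.sum_congr rfl fun v _ => ?_
    refine Finset.sum_congr rfl fun t _ => ?_
    split_ifs
    · simp only [Polynomial.eval_mul, Polynomial.eval_pow, Polynomial.eval_add,
        Polynomial.eval_sub, Polynomial.eval_C, Polynomial.eval_X]
    · simp
  rw [h1]
  unfold sh
  rw [Finset.sum_mul_sum]
  refine Finset.sum_congr rfl fun u _ => Finset.sum_congr rfl fun v _ => ?_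
  rw [Finset.sum_eq_single (⟨((u : ℕ) + v) % D, hlt u v⟩ : Fin D)]
  · rw [if_pos rfl]
    have h2 := et_mul (j := j) (k := k) hD u v hs
    have h3 : ze D ^ (((u : ℕ) + v) % D * i) = ze D ^ ((u : ℕ) * i) * ze D ^ ((v : ℕ) * i) := by
      rw [← pow_add, ← add_mul]
      refine ze_eq hD ?_
      rw [Nat.mul_mod, Nat.mod_mod, ← Nat.mul_mod]
    show ((1 / 2 + s) ^ (((u : ℕ) * j % D + (v : ℕ) * j % D) / D) *
          (1 / 2 - s) ^ (((u : ℕ) * k % D + (v : ℕ) * k % D) / D) *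
          (g u).eval s * (h v).eval s) * ze D ^ (((u : ℕ) + v) % D * i) *
          et D j k (((u : ℕ) + v) % D) s = _
    rw [h3]
    linear_combination (- ((g u).eval s * (h v).eval s * ze D ^ ((u : ℕ) * i) *
      ze D ^ ((v : ℕ) * i))) * h2
  · intro t _ ht
    rw [if_neg]
    intro h2
    exact ht (Fin.ext h2.symm)
  · intro h2
    exact absurd (Finset.mem_univ _) h2

theorem sh_inj (hD : 0 < D) (g : Fn D) {ρ : ℝ} (hρ : 0 < ρ)
    (h : ∀ i : Fin D, ∀ s ∈ ball (0 : ℂ) ρ, sh D j k g i s = 0) : g = 0 := by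
  have key : ∀ s ∈ ball (0 : ℂ) (min ρ (1 / 2)), ∀ t : Fin D, (g t).eval s = 0 := by
    intro s hs t
    have hs1 : s ∈ ball (0 : ℂ) ρ := ball_subset_ball (min_le_left _ _) hs
    have hs2 : ‖s‖ < 1 / 2 := by
      have := ball_subset_ball (min_le_right ρ (1 / 2)) hs
      simpa using this
    have hdet : (Matrix.vandermonde fun t : Fin D => ze D ^ (t : ℕ)).det ≠ 0 :=
      Matrix.det_vandermonde_ne_zero_iff.mpr (ze_inj hD)
    have h1 : (fun t : Fin D => (g t).eval s * et D j k t s) = 0 := by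
      refine Matrix.eq_zero_of_vecMul_eq_zero hdet ?_
      funext i
      have h2 := h i s hs1
      unfold sh at h2
      rw [Matrix.vecMul, dotProduct]
      simp only [Matrix.vandermonde_apply, Pi.zero_apply]
      rw [← h2]
      refine Finset.sum_congr rfl fun t _ => ?_
      rw [← pow_mul]
      ring
    have h3 : (g t).eval s * et D j k t s = 0 := congrFun h1 t
    exact (mul_eq_zero.mp h3).resolve_right (et_ne_zero t hs2)
  funext t
  have hpos : 0 < min ρ (1 / 2) := lt_min hρ (by norm_num)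
  refine Polynomial.eq_zero_of_infinite_isRoot _
    ((infinite_of_mem_nhds (0 : ℂ) (ball_mem_nhds 0 hpos)).mono fun s hs => key s hs t)

theorem sh_tw (hD : 0 < D) (l : ℕ) (g : Fn D) (i : ℕ) (s : ℂ) :
    sh D j k (tw D l g) i s = sh D j k g (i + l) s := by
  unfold sh tw
  refine Finset.sum_congr rfl fun t _ => ?_
  rw [Polynomial.eval_mul, Polynomial.eval_C, mul_add, pow_add]
  ring

theorem sh_mod (hD : 0 < D) (g : Fn D) (i : ℕ) (s : ℂ) :
    sh D j k g (i % D) s = sh D j k g i s := by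
  unfold sh
  refine Finset.sum_congr rfl fun t _ => ?_
  rw [ze_eq hD (a := (t : ℕ) * (i % D)) (b := (t : ℕ) * i)]
  rw [Nat.mul_mod, Nat.mod_mod, ← Nat.mul_mod]

theorem sh_xp (hD : 0 < D) (d i : ℕ) {s : ℂ} (hs : ‖s‖ < 1 / 2) : sh D j k (xp D d) i s = s ^ d := by
  unfold sh xp
  rw [Finset.sum_eq_single (⟨0, hD⟩ : Fin D)]
  · simp [et]
  · intro t _ ht
    have h1 : (t : ℕ) ≠ 0 := fun h2 => ht (Fin.ext h2)
    rw [if_neg h1]
    simp
  · intro h2
    exact absurd (Finset.mem_univ _) h2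

/-- the product as a bilinear map -/
theorem exists_mulL : ∃ M : Fn D →ₗ[ℂ] Fn D →ₗ[ℂ] Fn D, ∀ g h, M g h = mulF D j k g h := by
  refine ⟨LinearMap.mk₂ ℂ (mulF D j k) ?_ ?_ ?_ ?_, fun g h => rfl⟩
  · intro g g' h
    funext t
    simp only [mulF, Pi.add_apply]
    rw [← Finset.sum_add_distrib]
    refine Finset.sum_congr rfl fun u _ => ?_
    rw [← Finset.sum_add_distrib]
    refine Finset.sum_congr rfl fun v _ => ?_
    split_ifs
    · ring
    · ring
  · intro c g h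
    funext t
    simp only [mulF, Pi.smul_apply]
    rw [Finset.smul_sum]
    refine Finset.sum_congr rfl fun u _ => ?_
    rw [Finset.smul_sum]
    refine Finset.sum_congr rfl fun v _ => ?_
    split_ifs
    · simp only [Polynomial.smul_eq_C_mul]
      ring
    · rw [smul_zero]
  · intro g h h'
    funext t
    simp only [mulF, Pi.add_apply]
    rw [← Finset.sum_add_distrib]
    refine Finset.sum_congr rfl fun u _ => ?_
    rw [← Finset.sum_add_distrib]
    refine Finset.sum_congr rfl fun v _ => ?_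
    split_ifs
    · ring
    · ring
  · intro c g h
    funext t
    simp only [mulF, Pi.smul_apply]
    rw [Finset.smul_sum]
    refine Finset.sum_congr rfl fun u _ => ?_
    rw [Finset.smul_sum]
    refine Finset.sum_congr rfl fun v _ => ?_
    split_ifs
    · simp only [Polynomial.smul_eq_C_mul]
      ring
    · rw [smul_zero]

theorem mulF_comm' (g h : Fn D) : mulF D j k g h = mulF D j k h g := by
  funext t
  unfold mulF
  rw [Finset.sum_comm]
  refine Finset.sum_congr rfl fun u _ => Finset.sum_congr rfl fun v _ => ?_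
  rw [add_comm (v : ℕ) (u : ℕ), add_comm ((v : ℕ) * j % D), add_comm ((v : ℕ) * k % D)]
  split_ifs
  · ring
  · rfl

namespace JA

theorem mem_W {n : ℕ} {g : Fn D} :
    g ∈ W D j k n ↔ ∀ t : Fin D, g t ∈ Polynomial.degreeLT ℂ (n + 1 - cc D j k t) := by
  unfold W
  rw [Submodule.mem_pi]
  exact ⟨fun h t => h t (Set.mem_univ _), fun h t _ => h t⟩

theorem cc_le (hD : 0 < D) (u v : ℕ) :
    (u * j % D + v * j % D) / D + (u * k % D + v * k % D) / D + cc D j k ((u + v) % D) ≤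
      cc D j k u + cc D j k v := by
  unfold cc
  rw [← mod_eq u v j, ← mod_eq u v k]
  obtain ⟨x, hx⟩ : ∃ x, x = u * j % D := ⟨_, rfl⟩
  obtain ⟨y, hy⟩ : ∃ y, y = v * j % D := ⟨_, rfl⟩
  obtain ⟨z, hz⟩ : ∃ z, z = u * k % D := ⟨_, rfl⟩
  obtain ⟨w, hw⟩ : ∃ w, w = v * k % D := ⟨_, rfl⟩
  rw [← hx, ← hy, ← hz, ← hw]
  have h1 := Nat.div_add_mod (x + y) D
  have h2 := Nat.div_add_mod (z + w) D
  have h3 := Nat.div_mul_le_self ((x + y) % D + (z + w) % D + D - 1) D
  have h4 := Nat.lt_div_mul_add (a := x + z + D - 1) hD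
  have h5 := Nat.lt_div_mul_add (a := y + w + D - 1) hD
  obtain ⟨A, hA⟩ : ∃ A, A = (x + y) / D := ⟨_, rfl⟩
  obtain ⟨B, hB⟩ : ∃ B, B = (z + w) / D := ⟨_, rfl⟩
  obtain ⟨C, hC⟩ : ∃ C, C = ((x + y) % D + (z + w) % D + D - 1) / D := ⟨_, rfl⟩
  obtain ⟨E, hE⟩ : ∃ E, E = (x + z + D - 1) / D := ⟨_, rfl⟩
  obtain ⟨F, hF⟩ : ∃ F, F = (y + w + D - 1) / D := ⟨_, rfl⟩
  rw [← hA] at h1
  rw [← hB] at h2
  rw [← hC] at h3
  rw [← hE] at h4
  rw [← hF] at h5
  rw [← hA, ← hB, ← hC, ← hE, ← hF]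
  by_contra hcon
  have h6 : E + F + 1 ≤ A + B + C := by omega
  have h7 := Nat.mul_le_mul_right D h6
  have e1 : (A + B + C) * D = D * A + D * B + C * D := by ring
  have e2 : (E + F + 1) * D = E * D + F * D + D := by ring
  rw [e1, e2] at h7
  omega

end JA

theorem mulF_mem (hD : 0 < D) {n m : ℕ} {g h : Fn D} (hg : g ∈ W D j k n) (hh : h ∈ W D j k m) :
    mulF D j k g h ∈ W D j k (n + m) := by
  rw [mem_W] at hg hh ⊢
  intro t
  unfold mulF
  refine Submodule.sum_mem _ fun u _ => Submodule.sum_mem _ fun v _ => ?_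
  split_ifs with huv
  swap
  · exact Submodule.zero_mem _
  by_cases hgu : g u = 0
  · rw [hgu, mul_zero, zero_mul]
    exact Submodule.zero_mem _
  by_cases hhv : h v = 0
  · rw [hhv, mul_zero]
    exact Submodule.zero_mem _
  have h1 : (g u).natDegree < n + 1 - cc D j k u := by
    have := Polynomial.mem_degreeLT.mp (hg u)
    exact (Polynomial.natDegree_lt_iff_degree_lt hgu).mpr this
  have h2 : (h v).natDegree < m + 1 - cc D j k v := by
    have := Polynomial.mem_degreeLT.mp (hh v)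
    exact (Polynomial.natDegree_lt_iff_degree_lt hhv).mpr this
  have h3 := cc_le (j := j) (k := k) hD u v
  rw [huv] at h3
  rw [Polynomial.mem_degreeLT]
  refine lt_of_le_of_lt Polynomial.degree_le_natDegree ?_
  rw [Nat.cast_lt]
  have a1 : (Polynomial.C (1 / 2 : ℂ) + Polynomial.X).natDegree ≤ 1 := by
    refine (Polynomial.natDegree_add_le _ _).trans ?_
    rw [Polynomial.natDegree_C, Polynomial.natDegree_X]
    simp
  have a2 : (Polynomial.C (1 / 2 : ℂ) - Polynomial.X).natDegree ≤ 1 := by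
    refine (Polynomial.natDegree_sub_le _ _).trans ?_
    rw [Polynomial.natDegree_C, Polynomial.natDegree_X]
    simp
  have b1 : ((Polynomial.C (1 / 2 : ℂ) + Polynomial.X) ^
      (((u : ℕ) * j % D + (v : ℕ) * j % D) / D)).natDegree ≤
      ((u : ℕ) * j % D + (v : ℕ) * j % D) / D := by
    refine Polynomial.natDegree_pow_le.trans ?_
    calc _ ≤ ((u : ℕ) * j % D + (v : ℕ) * j % D) / D * 1 := Nat.mul_le_mul_left _ a1
      _ = _ := mul_one _
  have b2 : ((Polynomial.C (1 / 2 : ℂ) - Polynomial.X) ^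
      (((u : ℕ) * k % D + (v : ℕ) * k % D) / D)).natDegree ≤
      ((u : ℕ) * k % D + (v : ℕ) * k % D) / D := by
    refine Polynomial.natDegree_pow_le.trans ?_
    calc _ ≤ ((u : ℕ) * k % D + (v : ℕ) * k % D) / D * 1 := Nat.mul_le_mul_left _ a2
      _ = _ := mul_one _
  refine lt_of_le_of_lt (Polynomial.natDegree_mul_le.trans (Nat.add_le_add_right
    (Polynomial.natDegree_mul_le.trans (Nat.add_le_add_right
      (Polynomial.natDegree_mul_le.trans (Nat.add_le_add b1 b2)) _)) _)) ?_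
  omega

theorem W_mono {n m : ℕ} (h : n ≤ m) : W D j k n ≤ W D j k m := by
  intro g hg
  rw [mem_W] at hg ⊢
  intro t
  exact Polynomial.degreeLT_mono (by omega) (hg t)

theorem tw_mem {n l : ℕ} {g : Fn D} (hg : g ∈ W D j k n) : tw D l g ∈ W D j k n := by
  rw [mem_W] at hg ⊢
  intro t
  unfold tw
  rw [← Polynomial.smul_eq_C_mul]
  exact Submodule.smul_mem _ _ (hg t)

theorem xp_mem (hD : 0 < D) {n d : ℕ} (h : d ≤ n) : xp D d ∈ W D j k n := by
  rw [mem_W]
  intro t
  unfold xp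
  split_ifs with ht
  · rw [Polynomial.mem_degreeLT, Polynomial.degree_X_pow]
    have h1 : cc D j k (t : ℕ) = 0 := by
      rw [ht]
      unfold cc
      simp only [zero_mul, Nat.zero_mod, zero_add]
      exact Nat.div_eq_of_lt (by omega)
    rw [h1, Nat.cast_lt]
    omega
  · exact Submodule.zero_mem _

end Pool.Agent.WW
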