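import Pool.Agent.WW.JDefs

set_option autoImplicit false

namespace Pool.Agent.WW

variable {D j k : ℕ}

theorem cc_le (D j k t : ℕ) (hD : 0 < D) : cc D j k t ≤ 2 := by
  have h1 := Nat.mod_lt (t * j) hD
  have h2 := Nat.mod_lt (t * k) hD
  unfold cc
  refine Nat.le_of_lt_succ (Nat.div_lt_of_lt_mul ?_)
  omega

theorem cc_zero (D j k : ℕ) (hD : 0 < D) : cc D j k 0 = 0 := by
  unfold cc
  simp only [zero_mul, Nat.zero_mod]
  exact Nat.div_eq_of_lt (by omega)

theorem jb_mod_zero (hg : Nat.gcd (Nat.gcd j k) D = 1) (t : ℕ) (h1 : t * j % D = 0)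
    (h2 : t * k % D = 0) : D ∣ t := by
  have h3 : D ∣ t * j := Nat.dvd_of_mod_eq_zero h1
  have h4 : D ∣ t * k := Nat.dvd_of_mod_eq_zero h2
  have h5 : D ∣ t * Nat.gcd j k := by
    rw [← Nat.gcd_mul_left]
    exact Nat.dvd_gcd h3 h4
  exact (Nat.Coprime.dvd_mul_right (Nat.Coprime.symm hg)).1 h5

theorem cc_pos (hD : 3 ≤ D) (hj : 0 < j) (hk : 0 < k) (hjk : j + k < D)
    (hg : Nat.gcd (Nat.gcd j k) D = 1) (t : ℕ) (ht : 0 < t)
    (htD : t < D) : 0 < cc D j k t := by
  have h0 : ¬ (t * j % D = 0 ∧ t * k % D = 0) := by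
    rintro ⟨h1, h2⟩
    exact absurd (Nat.le_of_dvd ht (jb_mod_zero hg t h1 h2)) (by omega)
  unfold cc
  refine Nat.div_pos ?_ (by omega)
  omega

theorem jb_cc_eq_two (D j k t : ℕ) (hD : 0 < D) :
    cc D j k t = 2 ↔ D < t * j % D + t * k % D := by
  have h1 := Nat.mod_lt (t * j) hD
  have h2 := Nat.mod_lt (t * k) hD
  unfold cc
  constructor
  · intro h
    by_contra hh
    have : (t * j % D + t * k % D + D - 1) / D < 2 := by
      refine Nat.div_lt_of_lt_mul ?_
      omega
    omega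
  · intro h
    refine le_antisymm (Nat.le_of_lt_succ (Nat.div_lt_of_lt_mul ?_)) ?_
    · omega
    · rw [Nat.le_div_iff_mul_le hD]
      omega

theorem jb_cc_eq_one (D j k t : ℕ) (hD : 0 < D) (h3 : 0 < t * j % D + t * k % D)
    (h4 : t * j % D + t * k % D ≤ D) :
    cc D j k t = 1 := by
  unfold cc
  refine le_antisymm (Nat.le_of_lt_succ (Nat.div_lt_of_lt_mul ?_)) ?_
  · omega
  · rw [Nat.le_div_iff_mul_le hD]
    omega

theorem jb_neg_mod (D j t : ℕ) (htD : t ≤ D) (h : 0 < t * j % D) :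
    (D - t) * j % D = D - t * j % D := by
  have hD : 0 < D := by
    rcases Nat.eq_zero_or_pos D with h0 | h0
    · subst h0
      have : t = 0 := by omega
      subst this
      simp at h
    · exact h0
  have h1 := Nat.mod_lt (t * j) hD
  have h2 : ((D - t) * j + t * j) % D = 0 := by
    rw [← Nat.add_mul, Nat.sub_add_cancel htD]
    exact Nat.mul_mod_right D j
  rw [Nat.add_mod] at h2
  have h3 := Nat.mod_lt ((D - t) * j) hD
  have h4 : D ∣ (D - t) * j % D + t * j % D := Nat.dvd_of_mod_eq_zero h2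
  obtain ⟨c, hc⟩ := h4
  have h5 : c = 1 := by
    have h6 : 0 < D * c := by omega
    have h7 : D * c < D * 2 := by omega
    have h8 : c < 2 := Nat.lt_of_mul_lt_mul_left h7
    have h9 : 0 < c := by
      rcases Nat.eq_zero_or_pos c with h0 | h0
      · subst h0
        omega
      · exact h0
    omega
  subst h5
  omega

/-- for a holomorphic differential `t` the index `D - t` has `cc = 2` -/
theorem cc_neg (hD : 3 ≤ D) (hj : 0 < j) (hk : 0 < k) (hjk : j + k < D)
    (hg : Nat.gcd (Nat.gcd j k) D = 1) (t : PJ D j k) :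
    cc D j k (D - (t.1 : ℕ)) = 2 := by
  obtain ⟨t, h1, h2, h3⟩ := t
  rw [jb_cc_eq_two _ _ _ _ (by omega)]
  have e1 := jb_neg_mod D j t t.2.le h1
  have e2 := jb_neg_mod D k t t.2.le h2
  have h4 := Nat.mod_lt ((t : ℕ) * j) (show 0 < D by omega)
  have h5 := Nat.mod_lt ((t : ℕ) * k) (show 0 < D by omega)
  show D < (D - (t : ℕ)) * j % D + (D - (t : ℕ)) * k % D
  rw [e1, e2]
  omega

theorem jb_card_two (hD : 3 ≤ D) (hj : 0 < j) (hk : 0 < k) (hjk : j + k < D)
    (hg : Nat.gcd (Nat.gcd j k) D = 1) :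
    (Finset.univ.filter fun t : Fin D => cc D j k t = 2).card = genus D j k := by
  have hD0 : 0 < D := by omega
  rw [genus, Fintype.card_subtype]
  symm
  have hpos : ∀ t : Fin D, 0 < (t : ℕ) * j % D → 0 < (t : ℕ) := by
    intro t ht
    rcases Nat.eq_zero_or_pos (t : ℕ) with h0 | h0
    · rw [h0] at ht
      simp at ht
    · exact h0
  refine Finset.card_bij (fun t ht => ⟨D - (t : ℕ), ?_⟩) ?_ ?_ ?_
  · have := hpos t (Finset.mem_filter.1 ht).2.1
    omega
  · intro t ht
    have ht' := (Finset.mem_filter.1 ht).2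
    refine Finset.mem_filter.2 ⟨Finset.mem_univ _, ?_⟩
    exact cc_neg hD hj hk hjk hg ⟨t, ht'⟩
  · intro a ha b hb hab
    have := congrArg Fin.val hab
    simp only at this
    have h1 := a.2
    have h2 := b.2
    exact Fin.ext (by omega)
  · intro t ht
    have ht' := (Finset.mem_filter.1 ht).2
    rw [jb_cc_eq_two _ _ _ _ hD0] at ht'
    have h4 := Nat.mod_lt ((t : ℕ) * j) hD0
    have h5 := Nat.mod_lt ((t : ℕ) * k) hD0
    have h6 : 0 < (t : ℕ) * j % D := by omega
    have h7 : 0 < (t : ℕ) * k % D := by omega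
    have h8 := hpos t h6
    have h9 := t.2
    have e1 := jb_neg_mod D j t t.2.le h6
    have e2 := jb_neg_mod D k t t.2.le h7
    refine ⟨⟨D - (t : ℕ), by omega⟩, ?_, ?_⟩
    · refine Finset.mem_filter.2 ⟨Finset.mem_univ _, ?_⟩
      show 0 < (D - (t : ℕ)) * j % D ∧ 0 < (D - (t : ℕ)) * k % D ∧
        (D - (t : ℕ)) * j % D + (D - (t : ℕ)) * k % D < D
      rw [e1, e2]
      omega
    · apply Fin.ext
      show D - (D - (t : ℕ)) = t
      omega

theorem jb_card_zero (hD : 3 ≤ D) (hj : 0 < j) (hk : 0 < k) (hjk : j + k < D)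
    (hg : Nat.gcd (Nat.gcd j k) D = 1) :
    (Finset.univ.filter fun t : Fin D => cc D j k t = 0).card = 1 := by
  rw [Finset.card_eq_one]
  refine ⟨⟨0, by omega⟩, ?_⟩
  ext t
  simp only [Finset.mem_filter, Finset.mem_univ, true_and, Finset.mem_singleton]
  constructor
  · intro h
    by_contra hne
    have h0 : 0 < (t : ℕ) := by
      rcases Nat.eq_zero_or_pos (t : ℕ) with h0 | h0
      · exact absurd (Fin.ext h0) hne
      · exact h0
    have := cc_pos hD hj hk hjk hg t h0 t.2
    omega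
  · rintro rfl
    exact cc_zero D j k (by omega)

theorem card_cc (hD : 3 ≤ D) (hj : 0 < j) (hk : 0 < k) (hjk : j + k < D)
    (hg : Nat.gcd (Nat.gcd j k) D = 1) :
    (Finset.univ.filter fun t : Fin D => cc D j k t ≤ 1).card + genus D j k = D := by
  rw [← jb_card_two hD hj hk hjk hg]
  have h := Finset.card_filter_add_card_filter_not (s := (Finset.univ : Finset (Fin D)))
    (fun t : Fin D => cc D j k t ≤ 1)
  have e : (Finset.univ.filter fun t : Fin D => ¬ cc D j k t ≤ 1) =
      Finset.univ.filter fun t : Fin D => cc D j k t = 2 := by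
    ext t
    simp only [Finset.mem_filter, Finset.mem_univ, true_and]
    have := cc_le D j k t (by omega)
    omega
  rw [e] at h
  rw [h]
  simp

theorem sum_cc (hD : 3 ≤ D) (hj : 0 < j) (hk : 0 < k) (hjk : j + k < D)
    (hg : Nat.gcd (Nat.gcd j k) D = 1) :
    ∑ t : Fin D, cc D j k t = D - 1 + genus D j k := by
  have h2 := jb_card_two hD hj hk hjk hg
  have h0 := jb_card_zero hD hj hk hjk hg
  have e : ∀ t : Fin D, cc D j k t + (if cc D j k t = 0 then 1 else 0) =
      1 + (if cc D j k t = 2 then 1 else 0) := by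
    intro t
    have := cc_le D j k t (by omega)
    interval_cases hh : cc D j k t <;> simp
  have hs := Finset.sum_congr rfl fun (t : Fin D) (_ : t ∈ Finset.univ) => e t
  rw [Finset.sum_add_distrib, Finset.sum_add_distrib, ← Finset.card_filter, ← Finset.card_filter,
    h0, h2] at hs
  simp only [Finset.sum_const, Finset.card_univ, Fintype.card_fin, smul_eq_mul, mul_one] at hs
  omega

theorem genus_le (hD : 3 ≤ D) (hj : 0 < j) (hk : 0 < k) (hjk : j + k < D)
    (hg : Nat.gcd (Nat.gcd j k) D = 1) :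
    2 * genus D j k + 1 ≤ D := by
  have h2 := jb_card_two hD hj hk hjk hg
  have h0 := jb_card_zero hD hj hk hjk hg
  have hJ : (Finset.univ.filter fun t : Fin D => 0 < (t : ℕ) * j % D ∧ 0 < (t : ℕ) * k % D ∧
      (t : ℕ) * j % D + (t : ℕ) * k % D < D).card = genus D j k := by
    rw [genus, Fintype.card_subtype]
  have hsum : ∀ t : Fin D, (if cc D j k t = 0 then 1 else 0) +
      (if cc D j k t = 2 then 1 else 0) +
      (if 0 < (t : ℕ) * j % D ∧ 0 < (t : ℕ) * k % D ∧
      (t : ℕ) * j % D + (t : ℕ) * k % D < D then 1 else 0) ≤ 1 := by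
    intro t
    have hc2 := jb_cc_eq_two D j k t (by omega)
    by_cases hp : 0 < (t : ℕ) * j % D ∧ 0 < (t : ℕ) * k % D ∧
      (t : ℕ) * j % D + (t : ℕ) * k % D < D
    · have hc1 := jb_cc_eq_one D j k t (by omega) (by omega) (by omega)
      simp [hc1, hp]
    · rw [if_neg hp]
      by_cases hc0 : cc D j k t = 0
      · simp [hc0]
      · rw [if_neg hc0]
        split_ifs <;> simp
  have hs := Finset.sum_le_sum fun (t : Fin D) (_ : t ∈ Finset.univ) => hsum t
  rw [Finset.sum_add_distrib, Finset.sum_add_distrib, ← Finset.card_filter, ← Finset.card_filter,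
    ← Finset.card_filter, h0, h2, hJ] at hs
  simp only [Finset.sum_const, Finset.card_univ, Fintype.card_fin, smul_eq_mul, mul_one] at hs
  omega

theorem jb_finrank_pi {D : ℕ} (m : Fin D → ℕ) :
    Module.finrank ℂ (Submodule.pi Set.univ fun t : Fin D => Polynomial.degreeLT ℂ (m t) :
      Submodule ℂ (Fn D)) = ∑ t, m t := by
  let e : (Submodule.pi Set.univ fun t : Fin D => Polynomial.degreeLT ℂ (m t) :
      Submodule ℂ (Fn D)) ≃ₗ[ℂ] (∀ t : Fin D, Polynomial.degreeLT ℂ (m t)) :=
    { toFun := fun g t => ⟨g.1 t, (Submodule.mem_pi.1 g.2) t (Set.mem_univ t)⟩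
      map_add' := fun a b => rfl
      map_smul' := fun a b => rfl
      invFun := fun g => ⟨fun t => (g t).1, Submodule.mem_pi.2 fun t _ => (g t).2⟩
      left_inv := fun g => rfl
      right_inv := fun g => rfl }
  have hfr : ∀ n : ℕ, Module.finrank ℂ (Polynomial.degreeLT ℂ n) = n := by
    intro n
    rw [(Polynomial.degreeLTEquiv ℂ n).finrank_eq]
    simp
  have : ∀ t, Module.Finite ℂ (Polynomial.degreeLT ℂ (m t)) := fun t =>
    Module.Finite.equiv (Polynomial.degreeLTEquiv ℂ (m t)).symm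
  have : ∀ t, Module.Free ℂ (Polynomial.degreeLT ℂ (m t)) := fun t =>
    Module.Free.of_equiv (Polynomial.degreeLTEquiv ℂ (m t)).symm
  rw [e.finrank_eq, Module.finrank_pi_fintype]
  simp only [hfr]

theorem finrank_W (hD : 3 ≤ D) (hj : 0 < j) (hk : 0 < k) (hjk : j + k < D)
    (hg : Nat.gcd (Nat.gcd j k) D = 1) {n : ℕ}
    (hn : 1 ≤ n) : Module.finrank ℂ (W D j k n) + genus D j k = D * n + 1 := by
  unfold W
  rw [jb_finrank_pi]
  have h := sum_cc hD hj hk hjk hg
  have e : ∑ t : Fin D, (n + 1 - cc D j k t) + ∑ t : Fin D, cc D j k t = D * (n + 1) := by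
    rw [← Finset.sum_add_distrib]
    have : ∀ t : Fin D, n + 1 - cc D j k t + cc D j k t = n + 1 := by
      intro t
      have := cc_le D j k t (by omega)
      omega
    rw [Finset.sum_congr rfl fun t _ => this t]
    simp
  rw [h, Nat.mul_add, mul_one] at e
  omega

theorem card_Ph_le (hD : 3 ≤ D) (hj : 0 < j) (hk : 0 < k) (hjk : j + k < D) :
    Fintype.card (Ph D j k) ≤ genus D j k := by
  have hpos : ∀ (t : ℕ) (i : ℕ), Nat.Coprime t D → 0 < i → i < D → 0 < t * i % D := by
    intro t i ht hi hiD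
    rcases Nat.eq_zero_or_pos (t * i % D) with h0 | h0
    · have h1 : D ∣ t * i := Nat.dvd_of_mod_eq_zero h0
      have h2 : D ∣ i := (Nat.Coprime.dvd_mul_left (Nat.Coprime.symm ht)).1 h1
      exact absurd (Nat.le_of_dvd hi h2) (by omega)
    · exact h0
  unfold genus
  refine Fintype.card_le_of_injective
    (fun t : Ph D j k => (⟨t.1, hpos _ _ t.2.1 hj (by omega), hpos _ _ t.2.1 hk (by omega),
      t.2.2⟩ : PJ D j k)) ?_
  intro a b hab
  have := congrArg (fun x : PJ D j k => x.1) hab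
  exact Subtype.ext this

end Pool.Agent.WW
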