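import Pool.Agent.WW.JA
import Pool.Agent.WW.JB

set_option autoImplicit false

namespace Pool.Agent.WW

open Metric Filter Topology

variable {D j k : ℕ}

namespace JC

theorem ze_prim (hD : 0 < D) : IsPrimitiveRoot (ze D) D :=
  Complex.isPrimitiveRoot_exp D hD.ne'

theorem ze_ne (D : ℕ) : ze D ≠ 0 := Complex.exp_ne_zero _

/-- Vandermonde for consecutive exponents -/
theorem vdm (hD : 0 < D) (S : Finset (Fin D)) (c : Fin D → ℂ) (hc : ∀ t, t ∉ S → c t = 0) (i0 : ℕ)
    (h : ∀ i, i0 ≤ i → i < i0 + S.card → ∑ t, c t * ze D ^ ((t : ℕ) * i) = 0) (t : Fin D) :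
    c t = 0 := by
  classical
  by_cases ht : t ∈ S
  swap
  · exact hc t ht
  have key : ∀ p : Polynomial ℂ, p.natDegree < S.card →
      ∑ t, c t * ze D ^ ((t : ℕ) * i0) * p.eval (ze D ^ (t : ℕ)) = 0 := by
    intro p hp
    have h1 : ∀ t : Fin D, c t * ze D ^ ((t : ℕ) * i0) * p.eval (ze D ^ (t : ℕ)) =
        ∑ l ∈ Finset.range S.card, p.coeff l * (c t * ze D ^ ((t : ℕ) * (i0 + l))) := by
      intro t
      rw [Polynomial.eval_eq_sum_range' hp, Finset.mul_sum]
      refine Finset.sum_congr rfl fun l _ => ?_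
      rw [← pow_mul, Nat.mul_add, pow_add]
      ring
    rw [Finset.sum_congr rfl fun t _ => h1 t, Finset.sum_comm]
    refine Finset.sum_eq_zero fun l hl => ?_
    rw [← Finset.mul_sum, h (i0 + l) (by omega) (by have := Finset.mem_range.1 hl; omega),
      mul_zero]
  have h2 := key (∏ u ∈ S.erase t, (Polynomial.X - Polynomial.C (ze D ^ (u : ℕ)))) (by
    rw [Polynomial.natDegree_prod_of_monic _ _ fun u _ => Polynomial.monic_X_sub_C _]
    simp only [Polynomial.natDegree_X_sub_C, Finset.sum_const, smul_eq_mul, mul_one]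
    rw [Finset.card_erase_of_mem ht]
    have := Finset.card_pos.2 ⟨t, ht⟩
    omega)
  rw [Finset.sum_eq_single t] at h2
  · have h3 : (∏ u ∈ S.erase t, (Polynomial.X - Polynomial.C (ze D ^ (u : ℕ)))).eval
        (ze D ^ (t : ℕ)) ≠ 0 := by
      rw [Polynomial.eval_prod]
      refine Finset.prod_ne_zero_iff.2 fun u hu => ?_
      simp only [Polynomial.eval_sub, Polynomial.eval_X, Polynomial.eval_C]
      intro h4
      have h5 := (ze_prim hD).pow_inj t.2 u.2 (sub_eq_zero.1 h4)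
      exact (Finset.mem_erase.1 hu).1 (Fin.ext h5.symm)
    have h6 := (mul_eq_zero.1 h2).resolve_right h3
    exact (mul_eq_zero.1 h6).resolve_right (pow_ne_zero _ (ze_ne D))
  · intro u _ hu
    by_cases huS : u ∈ S
    · have h3 : (∏ u ∈ S.erase t, (Polynomial.X - Polynomial.C (ze D ^ (u : ℕ)))).eval
          (ze D ^ (u : ℕ)) = 0 := by
        rw [Polynomial.eval_prod]
        refine Finset.prod_eq_zero (i := u) (Finset.mem_erase.2 ⟨hu, huS⟩) ?_
        simp
      rw [h3, mul_zero]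
    · rw [hc u huS, zero_mul, zero_mul]
  · intro h3
    exact absurd (Finset.mem_univ t) h3

/-- injectivity of the discrete Fourier transform -/
theorem dft_inj (hD : 0 < D) (c : Fin D → ℂ)
    (h : ∀ i : Fin D, ∑ t, c t * ze D ^ ((t : ℕ) * (i : ℕ)) = 0) (t : Fin D) : c t = 0 := by
  refine vdm hD Finset.univ c (fun t ht => absurd (Finset.mem_univ t) ht) 0 (fun i _ hi => ?_) t
  rw [Finset.card_univ, Fintype.card_fin, zero_add] at hi
  exact h ⟨i, hi⟩

/-- surjectivity of the discrete Fourier transform -/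
theorem dft_surj (hD : 0 < D) (a : Fin D → ℂ) :
    ∃ c : Fin D → ℂ, ∀ i : Fin D, ∑ t, c t * ze D ^ ((t : ℕ) * (i : ℕ)) = a i := by
  let L : (Fin D → ℂ) →ₗ[ℂ] (Fin D → ℂ) :=
    { toFun := fun c i => ∑ t, c t * ze D ^ ((t : ℕ) * (i : ℕ))
      map_add' := by
        intro x y
        funext i
        simp only [Pi.add_apply, add_mul, Finset.sum_add_distrib]
      map_smul' := by
        intro r x
        funext i
        simp only [Pi.smul_apply, smul_eq_mul, RingHom.id_apply, Finset.mul_sum, mul_assoc] }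
  have hinj : Function.Injective L := by
    rw [injective_iff_map_eq_zero]
    intro c hc
    funext t
    exact dft_inj hD c (fun i => congrFun hc i) t
  obtain ⟨c, hc⟩ := LinearMap.surjective_of_injective hinj a
  exact ⟨c, fun i => congrFun hc i⟩

theorem mem_W {n : ℕ} {φ : Fn D} : φ ∈ W D j k n ↔
    ∀ t : Fin D, ∀ l, n + 1 - cc D j k t ≤ l → (φ t).coeff l = 0 := by
  unfold W
  rw [Submodule.mem_pi]
  simp only [Set.mem_univ, true_imp_iff, Polynomial.mem_degreeLT, Polynomial.degree_lt_iff_coeff_zero]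

theorem sh_zero (φ : Fn D) (i : ℕ) : sh D j k φ i 0 =
    ∑ t : Fin D, ((φ t).coeff 0 * et D j k t 0) * ze D ^ ((t : ℕ) * i) := by
  unfold sh
  refine Finset.sum_congr rfl fun t _ => ?_
  rw [Polynomial.coeff_zero_eq_eval_zero]
  ring

theorem half : ‖(0 : ℂ)‖ < 1 / 2 := by norm_num

theorem mulF_xp (hD : 0 < D) (d : ℕ) (χ : Fn D) (t : Fin D) :
    mulF D j k (xp D d) χ t = Polynomial.X ^ d * χ t := by
  classical
  unfold mulF
  rw [Finset.sum_eq_single (⟨0, hD⟩ : Fin D)]
  · rw [Finset.sum_eq_single t]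
    · have h1 : ((0 : ℕ) + (t : ℕ)) % D = t := by
        rw [zero_add]
        exact Nat.mod_eq_of_lt t.2
      simp only [zero_mul, Nat.zero_mod, zero_add]
      rw [Nat.div_eq_of_lt (Nat.mod_lt _ hD), Nat.div_eq_of_lt (Nat.mod_lt _ hD)]
      simp [xp, Nat.mod_eq_of_lt t.2]
    · intro v _ hv
      have h1 : ¬ (((0 : ℕ) + (v : ℕ)) % D = t) := by
        rw [zero_add, Nat.mod_eq_of_lt v.2]
        exact fun h => hv (Fin.ext h)
      simp only [h1, if_false]
    · intro h
      exact absurd (Finset.mem_univ t) h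
  · intro u _ hu
    have h1 : (u : ℕ) ≠ 0 := fun h => hu (Fin.ext h)
    refine Finset.sum_eq_zero fun v _ => ?_
    simp [xp, h1]
  · intro h
    exact absurd (Finset.mem_univ _) h

theorem coeff_zero_of (hD : 0 < D) (φ : Fn D) (h : ∀ i : Fin D, sh D j k φ i 0 = 0) (t : Fin D) :
    (φ t).coeff 0 = 0 := by
  have h1 := dft_inj hD (fun t => (φ t).coeff 0 * et D j k t 0) (fun i => by
    rw [← sh_zero]
    exact h i) t
  exact (mul_eq_zero.1 h1).resolve_right (et_ne_zero _ half)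

/-- derivative of a multiple of `s` at the fibre -/
theorem deriv_mulX (hD : 0 < D) (χ : Fn D) (i : ℕ) :
    deriv (sh D j k (mulF D j k (xp D 1) χ) i) 0 = sh D j k χ i 0 := by
  have h0 : (0 : ℂ) ∈ ball (0 : ℂ) (1 / 2) := mem_ball_self (by norm_num)
  have h1 : sh D j k (mulF D j k (xp D 1) χ) i =ᶠ[𝓝 0] fun s => s * sh D j k χ i s := by
    filter_upwards [isOpen_ball.mem_nhds h0] with s hs
    have hs' : ‖s‖ < 1 / 2 := by simpa using hs
    rw [sh_mulF hD _ _ _ hs', sh_xp hD _ _ hs', pow_one]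
  rw [h1.deriv_eq]
  have h2 : HasDerivAt (sh D j k χ i) (deriv (sh D j k χ i) 0) 0 :=
    ((sh_diff χ i).differentiableAt (isOpen_ball.mem_nhds h0)).hasDerivAt
  have h3 := (hasDerivAt_id (0 : ℂ)).mul h2
  have h4 : deriv (fun s => s * sh D j k χ i s) 0 =
      1 * sh D j k χ i 0 + id 0 * deriv (sh D j k χ i) 0 := h3.deriv
  rw [h4]
  simp

end JC

open JC

/-- (JC1) values on `D - g` consecutive sheets, functions in `W 1` -/
theorem fibre_one (hD : 3 ≤ D) (hj : 0 < j) (hk : 0 < k) (hjk : j + k < D)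
    (hg : Nat.gcd (Nat.gcd j k) D = 1)
    (φ : Fn D) (hφ : φ ∈ W D j k 1) (i0 : ℕ)
    (h : ∀ i, i0 ≤ i → i + genus D j k < i0 + D → sh D j k φ i 0 = 0) :
    ∃ β : ℂ, φ = β • xp D 1 := by
  classical
  have hD0 : 0 < D := by omega
  have hc := card_cc hD hj hk hjk hg
  have hW := mem_W.1 hφ
  have h1 := vdm hD0 (Finset.univ.filter fun t : Fin D => cc D j k t ≤ 1)
    (fun t => (φ t).coeff 0 * et D j k t 0) (by
      intro t ht
      have h2 : ¬ cc D j k t ≤ 1 := fun h3 => ht (Finset.mem_filter.2 ⟨Finset.mem_univ _, h3⟩)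
      change (φ t).coeff 0 * et D j k t 0 = 0
      rw [hW t 0 (by omega), zero_mul]) i0 (by
      intro i hi1 hi2
      rw [← sh_zero]
      exact h i hi1 (by omega))
  have h2 : ∀ t, (φ t).coeff 0 = 0 := fun t =>
    (mul_eq_zero.1 (h1 t)).resolve_right (et_ne_zero _ half)
  refine ⟨(φ ⟨0, hD0⟩).coeff 1, ?_⟩
  funext t
  ext l
  simp only [Pi.smul_apply, Polynomial.coeff_smul, smul_eq_mul, xp]
  by_cases ht : (t : ℕ) = 0
  · have ht' : t = ⟨0, hD0⟩ := Fin.ext ht
    rw [if_pos ht, pow_one, Polynomial.coeff_X]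
    subst ht'
    by_cases hl : 1 = l
    · subst hl
      rw [if_pos rfl, mul_one]
    · rw [if_neg hl, mul_zero]
      rcases Nat.eq_zero_or_pos l with h3 | h3
      · rw [h3]
        exact h2 _
      · exact hW _ l (by omega)
  · rw [if_neg ht, Polynomial.coeff_zero, mul_zero]
    have h3 := cc_pos hD hj hk hjk hg t (Nat.pos_of_ne_zero ht) t.2
    rcases Nat.eq_zero_or_pos l with h4 | h4
    · rw [h4]
      exact h2 _
    · exact hW _ l (by omega)

/-- (JC2) functions vanishing on the fibre -/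
theorem fibre_div1 (hD : 3 ≤ D) (hj : 0 < j) (hk : 0 < k) (hjk : j + k < D)
    (hg : Nat.gcd (Nat.gcd j k) D = 1) {n : ℕ}
    (φ : Fn D) (hφ : φ ∈ W D j k (n + 1)) (h : ∀ i : Fin D, sh D j k φ i 0 = 0) :
    ∃ χ ∈ W D j k n, φ = mulF D j k (xp D 1) χ := by
  have hD0 : 0 < D := by omega
  have h1 := coeff_zero_of hD0 φ h
  have hW := mem_W.1 hφ
  refine ⟨fun t => (φ t).divX, ?_, ?_⟩
  · rw [mem_W]
    intro t l hl
    rw [Polynomial.coeff_divX]
    exact hW t (l + 1) (by omega)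
  · funext t
    rw [mulF_xp hD0, pow_one]
    have h2 := Polynomial.X_mul_divX_add (φ t)
    rw [h1 t, map_zero, add_zero] at h2
    exact h2.symm

/-- (JC3) functions vanishing doubly on the fibre -/
theorem fibre_div2 (hD : 3 ≤ D) (hj : 0 < j) (hk : 0 < k) (hjk : j + k < D)
    (hg : Nat.gcd (Nat.gcd j k) D = 1) {n : ℕ}
    (φ : Fn D) (hφ : φ ∈ W D j k (n + 2)) (h : ∀ i : Fin D, sh D j k φ i 0 = 0)
    (h' : ∀ i : Fin D, deriv (sh D j k φ i) 0 = 0) :
    ∃ χ ∈ W D j k n, φ = mulF D j k (xp D 2) χ := by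
  have hD0 : 0 < D := by omega
  obtain ⟨χ, hχ, rfl⟩ := fibre_div1 hD hj hk hjk hg (n := n + 1) φ hφ h
  obtain ⟨χ', hχ', rfl⟩ := fibre_div1 hD hj hk hjk hg χ hχ (fun i => by
    rw [← deriv_mulX hD0]
    exact h' i)
  refine ⟨χ', hχ', ?_⟩
  funext t
  rw [mulF_xp hD0, mulF_xp hD0, mulF_xp hD0]
  ring

/-- (JC4) the 2-jets on the fibre are arbitrary -/
theorem fibre_jets (hD : 3 ≤ D) (hj : 0 < j) (hk : 0 < k) (hjk : j + k < D)
    (hg : Nat.gcd (Nat.gcd j k) D = 1) {n : ℕ}
    (hn : 3 ≤ n) (a b : Fin D → ℂ) :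
    ∃ φ ∈ W D j k n, ∀ i : Fin D, sh D j k φ i 0 = a i ∧ deriv (sh D j k φ i) 0 = b i := by
  have hD0 : 0 < D := by omega
  obtain ⟨c, hc⟩ := dft_surj hD0 a
  obtain ⟨c', hc'⟩ := dft_surj hD0 b
  let α : Fin D → ℂ := fun t => c t / et D j k t 0
  let β : Fin D → ℂ := fun t => (c' t - α t * deriv (et D j k t) 0) / et D j k t 0
  let φ : Fn D := fun t => Polynomial.C (α t) + Polynomial.C (β t) * Polynomial.X
  have he : ∀ t : Fin D, et D j k t 0 ≠ 0 := fun t => et_ne_zero _ half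
  refine ⟨φ, ?_, fun i => ⟨?_, ?_⟩⟩
  · rw [mem_W]
    intro t l hl
    have h1 := cc_le D j k t hD0
    have h2 : l ≠ 0 := by omega
    have h3 : ¬ 1 = l := by omega
    simp only [φ, Polynomial.coeff_add, Polynomial.coeff_C_mul, Polynomial.coeff_C_of_ne_zero h2,
      Polynomial.coeff_X, if_neg h3, mul_zero, add_zero]
  · rw [sh_zero, ← hc i]
    refine Finset.sum_congr rfl fun t _ => ?_
    have h1 : (φ t).coeff 0 = α t := by
      simp [φ]
    rw [h1]
    simp only [α]
    rw [div_mul_cancel₀ _ (he t)]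
  · have h0 : (0 : ℂ) ∈ ball (0 : ℂ) (1 / 2) := mem_ball_self (by norm_num)
    have h1 : ∀ t : Fin D, HasDerivAt
        (fun s => (φ t).eval s * ze D ^ ((t : ℕ) * (i : ℕ)) * et D j k t s)
        (((Polynomial.derivative (φ t)).eval 0 * ze D ^ ((t : ℕ) * (i : ℕ))) * et D j k t 0 +
          (φ t).eval 0 * ze D ^ ((t : ℕ) * (i : ℕ)) * deriv (et D j k t) 0) 0 := by
      intro t
      have h2 : HasDerivAt (et D j k t) (deriv (et D j k t) 0) 0 :=
        ((et_diff (D := D) (j := j) (k := k) t).differentiableAt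
          (isOpen_ball.mem_nhds h0)).hasDerivAt
      exact (((φ t).hasDerivAt 0).mul_const _).mul h2
    have h2 : HasDerivAt (sh D j k φ i) _ 0 := HasDerivAt.fun_sum fun t _ => h1 t
    rw [h2.deriv, ← hc' i]
    refine Finset.sum_congr rfl fun t _ => ?_
    have h3 : (Polynomial.derivative (φ t)).eval 0 = β t := by
      simp [φ]
    have h4 : (φ t).eval 0 = α t := by
      simp [φ]
    rw [h3, h4]
    have h5 : β t * et D j k t 0 = c' t - α t * deriv (et D j k t) 0 := by
      simp only [β]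
      rw [div_mul_cancel₀ _ (he t)]
    linear_combination (ze D ^ ((t : ℕ) * (i : ℕ))) * h5

/-- (JC5) functions in `W 2` -/
theorem fibre_two (hD : 3 ≤ D) (hj : 0 < j) (hk : 0 < k) (hjk : j + k < D)
    (hg : Nat.gcd (Nat.gcd j k) D = 1)
    (φ : Fn D) (hφ : φ ∈ W D j k 2) (h : ∀ i : Fin D, sh D j k φ i 0 = 0)
    (h' : ∀ i : Fin D, (i : ℕ) + genus D j k < D → deriv (sh D j k φ i) 0 = 0) :
    ∃ β : ℂ, φ = β • xp D 2 := by
  have hD0 : 0 < D := by omega
  obtain ⟨χ, hχ, rfl⟩ := fibre_div1 hD hj hk hjk hg (n := 1) φ hφ h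
  obtain ⟨β, rfl⟩ := fibre_one hD hj hk hjk hg χ hχ 0 (fun i _ hi => by
    have h1 := h' ⟨i, by omega⟩ (by
      change i + _ < D
      omega)
    rw [deriv_mulX hD0] at h1
    exact h1)
  refine ⟨β, ?_⟩
  funext t
  rw [mulF_xp hD0]
  simp only [Pi.smul_apply, xp]
  split_ifs with ht
  · rw [mul_smul_comm]
    congr 1
    ring
  · rw [smul_zero, mul_zero]

/-- (JC6) `W 4` is spanned by the products of elements of `W 2` -/
theorem W_four (hD : 3 ≤ D) (hj : 0 < j) (hk : 0 < k) (hjk : j + k < D)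
    (hg : Nat.gcd (Nat.gcd j k) D = 1) :
    W D j k 4 ≤ mulS D j k (W D j k 2) (W D j k 2) := by
  classical
  have hD0 : 0 < D := by omega
  intro φ hφ
  have h1 : φ = ∑ t, Pi.single t (φ t) := (Finset.univ_sum_single φ).symm
  rw [h1]
  refine Submodule.sum_mem _ fun t _ => ?_
  have h2 : φ t ∈ Polynomial.degreeLT ℂ (4 + 1 - cc D j k t) :=
    (Submodule.mem_pi.1 hφ) t (Set.mem_univ _)
  have h3 : Polynomial.degreeLT ℂ (4 + 1 - cc D j k t) ≤
      (mulS D j k (W D j k 2) (W D j k 2)).comap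
        (LinearMap.single ℂ (fun _ : Fin D => Polynomial ℂ) t) := by
    rw [Polynomial.degreeLT_eq_span_X_pow, Submodule.span_le]
    intro p hp
    rw [Finset.mem_coe, Finset.mem_image] at hp
    obtain ⟨l, hl, rfl⟩ := hp
    rw [Finset.mem_range] at hl
    have hc := cc_le D j k t hD0
    refine Submodule.subset_span ?_
    refine ⟨xp D (min l 2), xp_mem hD0 (min_le_right _ _),
      Pi.single t (Polynomial.X ^ (l - min l 2)), ?_, ?_⟩
    · rw [mem_W]
      intro u m hm
      by_cases hu : u = t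
      · subst hu
        rw [Pi.single_eq_same, Polynomial.coeff_X_pow, if_neg]
        omega
      · rw [Pi.single_eq_of_ne hu, Polynomial.coeff_zero]
    · funext u
      rw [mulF_xp hD0]
      change (Pi.single t (Polynomial.X ^ l) : Fin D → Polynomial ℂ) u = _
      by_cases hu : u = t
      · subst hu
        rw [Pi.single_eq_same, Pi.single_eq_same, ← pow_add]
        congr 1
        omega
      · rw [Pi.single_eq_of_ne hu, Pi.single_eq_of_ne hu, mul_zero]
  exact h3 h2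

end Pool.Agent.WW
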