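import Pool.Agent.WW.JDefs

/-!
Divided differences near the fibre (auxiliary file for JD).
-/

set_option autoImplicit false

namespace Pool.Agent.WW

open Metric Filter Topology

variable {D j k : ℕ}

namespace JD0

/-! one variable -/

theorem dslope_add {f g : ℂ → ℂ} {a : ℂ} (b : ℂ) (hf : DifferentiableAt ℂ f a)
    (hg : DifferentiableAt ℂ g a) : dslope (f + g) a b = dslope f a b + dslope g a b := by
  by_cases h : b = a
  · subst h
    rw [dslope_same, dslope_same, dslope_same]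
    exact deriv_add hf hg
  · rw [dslope_of_ne _ h, dslope_of_ne _ h, dslope_of_ne _ h]
    simp only [slope_def_field, Pi.add_apply]
    ring

theorem dslope_smul {f : ℂ → ℂ} {a : ℂ} (c b : ℂ) (hf : DifferentiableAt ℂ f a) :
    dslope (c • f) a b = c * dslope f a b := by
  by_cases h : b = a
  · subst h
    rw [dslope_same, dslope_same]
    exact deriv_const_mul c hf
  · rw [dslope_of_ne _ h, dslope_of_ne _ h]
    simp only [slope_def_field, Pi.smul_apply, smul_eq_mul]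
    ring

theorem tendsto_dslope {f : ℂ → ℂ} (hf : AnalyticAt ℂ f 0) :
    Tendsto (fun p : ℂ × ℂ => dslope f p.1 p.2) (𝓝 (0, 0)) (𝓝 (deriv f 0)) := by
  rw [Metric.tendsto_nhds]
  intro η hη
  have h1 : HasStrictFDerivAt f (fderiv ℂ f 0) 0 := hf.hasStrictFDerivAt
  have h2 := h1.isLittleO.def (half_pos hη)
  have h3 : ContinuousAt (deriv f) 0 := hf.deriv.continuousAt
  have h4 : ∀ᶠ p : ℂ × ℂ in 𝓝 (0, 0), dist (deriv f p.1) (deriv f 0) < η := by
    have := Metric.tendsto_nhds.mp h3 η hη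
    exact (continuous_fst.tendsto ((0 : ℂ), (0 : ℂ))).eventually this
  filter_upwards [h2, h4] with p hp hp4
  by_cases h : p.2 = p.1
  · rw [h, dslope_same]
    exact hp4
  · rw [dslope_of_ne _ h, dist_eq_norm, slope_def_field]
    have h5 : p.2 - p.1 ≠ 0 := sub_ne_zero.mpr h
    have h6 : (f p.2 - f p.1) / (p.2 - p.1) - deriv f 0 =
        -(f p.1 - f p.2 - (fderiv ℂ f 0) (p.1 - p.2)) / (p.2 - p.1) := by
      have e : (fderiv ℂ f 0) (p.1 - p.2) = (p.1 - p.2) * deriv f 0 :=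
        fderiv_eq_smul_deriv _
      rw [e]
      field_simp
      ring
    rw [h6, norm_div, norm_neg, div_lt_iff₀ (norm_pos_iff.mpr h5)]
    calc ‖f p.1 - f p.2 - (fderiv ℂ f 0) (p.1 - p.2)‖ ≤ η / 2 * ‖p.1 - p.2‖ := hp
      _ < η * ‖p.2 - p.1‖ := by
        rw [norm_sub_rev p.1 p.2]
        have : 0 < ‖p.2 - p.1‖ := norm_pos_iff.mpr h5
        nlinarith

theorem van_zero {f : ℂ → ℂ} (hf : DifferentiableOn ℂ f (ball 0 (1 / 4))) : Van f 0 :=
  ⟨f, hf, by simp⟩

theorem factor {f : ℂ → ℂ} {a : ℂ} (ha : f a = 0) (s : ℂ) : f s = (s - a) * dslope f a s := by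
  have := sub_smul_dslope f a s
  rw [ha, sub_zero, smul_eq_mul] at this
  exact this.symm

theorem diff_dslope {f : ℂ → ℂ} (hf : DifferentiableOn ℂ f (ball 0 (1 / 4))) {a : ℂ}
    (ha : ‖a‖ < 1 / 4) : DifferentiableOn ℂ (dslope f a) (ball 0 (1 / 4)) :=
  (Complex.differentiableOn_dslope (isOpen_ball.mem_nhds (by simpa using ha))).mpr hf

theorem van_one {f : ℂ → ℂ} (hf : DifferentiableOn ℂ f (ball 0 (1 / 4))) {a : ℂ}
    (ha : ‖a‖ < 1 / 4) : Van f {a} ↔ f a = 0 := by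
  constructor
  · rintro ⟨χ, -, h⟩
    rw [h a (by simpa using ha)]
    simp
  · intro h
    exact ⟨dslope f a, diff_dslope hf ha, fun s _ => by simpa using factor h s⟩

theorem van_two {f : ℂ → ℂ} (hf : DifferentiableOn ℂ f (ball 0 (1 / 4))) {a b : ℂ}
    (ha : ‖a‖ < 1 / 4) (hb : ‖b‖ < 1 / 4) :
    Van f {a, b} ↔ f a = 0 ∧ dslope f a b = 0 := by
  constructor
  · rintro ⟨χ, hχ, h⟩
    have h' : ∀ s ∈ ball (0 : ℂ) (1 / 4), f s = (s - a) * (s - b) * χ s := by
      intro s hs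
      rw [h s hs]
      simp
    have hfa : f a = 0 := by
      rw [h' a (by simpa using ha)]
      simp
    refine ⟨hfa, ?_⟩
    by_cases hab : b = a
    · subst hab
      rw [dslope_same]
      have h1 : f =ᶠ[𝓝 b] fun s => (s - b) * (s - b) * χ s := by
        filter_upwards [isOpen_ball.mem_nhds (show b ∈ ball (0 : ℂ) (1 / 4) by simpa using ha)]
          with s hs using h' s hs
      rw [h1.deriv_eq]
      have h2 : HasDerivAt χ (deriv χ b) b :=
        (hχ.differentiableAt (isOpen_ball.mem_nhds (by simpa using ha))).hasDerivAt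
      have h3 : HasDerivAt (fun s : ℂ => s - b) 1 b := (hasDerivAt_id b).sub_const b
      have h4 : HasDerivAt (fun s => (s - b) * (s - b) * χ s)
          ((1 * (b - b) + (b - b) * 1) * χ b + (b - b) * (b - b) * deriv χ b) b :=
        (h3.mul h3).mul h2
      rw [h4.deriv]
      simp
    · rw [dslope_of_ne _ hab, slope_def_field, hfa, h' b (by simpa using hb)]
      simp
  · rintro ⟨h1, h2⟩
    have hg := diff_dslope hf ha
    refine ⟨dslope (dslope f a) b, diff_dslope hg hb, fun s _ => ?_⟩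
    rw [factor h1 s, factor h2 s]
    simp [mul_assoc]

/-! divided differences on the sheets -/

/-- value (index 0) or divided difference (index 1) -/
noncomputable def fl (F : ℂ → ℂ) (l : ℕ) (a b : ℂ) : ℂ := if l = 0 then F a else dslope F a b

theorem fl_add {F G : ℂ → ℂ} {a : ℂ} (l : ℕ) (b : ℂ) (hF : DifferentiableAt ℂ F a)
    (hG : DifferentiableAt ℂ G a) : fl (F + G) l a b = fl F l a b + fl G l a b := by
  unfold fl
  split_ifs
  · rfl
  · exact dslope_add b hF hG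

theorem fl_smul {F : ℂ → ℂ} {a : ℂ} (l : ℕ) (c b : ℂ) (hF : DifferentiableAt ℂ F a) :
    fl (c • F) l a b = c * fl F l a b := by
  unfold fl
  split_ifs
  · rfl
  · exact dslope_smul c b hF

theorem tendsto_fl {F : ℂ → ℂ} (hF : AnalyticAt ℂ F 0) (l : ℕ) :
    Tendsto (fun p : ℂ × ℂ => fl F l p.1 p.2) (𝓝 0) (𝓝 (fl F l 0 0)) := by
  rw [show (0 : ℂ × ℂ) = (0, 0) from rfl]
  unfold fl
  by_cases h : l = 0
  · simp only [if_pos h]
    have h1 : Tendsto F (𝓝 0) (𝓝 (F 0)) := hF.continuousAt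
    have h2 : Tendsto (fun p : ℂ × ℂ => p.1) (𝓝 ((0 : ℂ), (0 : ℂ))) (𝓝 (0 : ℂ)) :=
      continuous_fst.tendsto ((0 : ℂ), (0 : ℂ))
    exact h1.comp h2
  · simp only [if_neg h, dslope_same]
    exact tendsto_dslope hF

theorem fl_zero (F : ℂ → ℂ) (a b : ℂ) : fl F 0 a b = F a := if_pos rfl

theorem fl_one (F : ℂ → ℂ) (a b : ℂ) : fl F 1 a b = dslope F a b := if_neg one_ne_zero

theorem sh_add (f g : Fn D) (i : ℕ) : sh D j k (f + g) i = sh D j k f i + sh D j k g i := by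
  funext s
  simp only [sh, Pi.add_apply, Polynomial.eval_add, add_mul, Finset.sum_add_distrib]

theorem sh_smul (c : ℂ) (f : Fn D) (i : ℕ) : sh D j k (c • f) i = c • sh D j k f i := by
  funext s
  simp only [sh, Pi.smul_apply, Polynomial.eval_smul, smul_eq_mul, Finset.mul_sum]
  exact Finset.sum_congr rfl fun t _ => by ring

/-- the functionals -/
noncomputable def Fl (D j k : ℕ) {d : Fin D → ℕ} (a b : Fin D → ℂ) (f : Fn D)
    (p : (i : Fin D) × Fin (d i)) : ℂ := fl (sh D j k f p.1) p.2 (a p.1) (b p.1)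

/-- the functions on the sheets are holomorphic -/
def HSh (D j k : ℕ) : Prop :=
  ∀ (g : Fn D) (i : ℕ), DifferentiableOn ℂ (sh D j k g i) (ball 0 (1 / 2))

theorem HSh.diffAt (hsh : HSh D j k) (g : Fn D) (i : ℕ) {a : ℂ} (ha : ‖a‖ < 1 / 2) :
    DifferentiableAt ℂ (sh D j k g i) a :=
  (hsh g i).differentiableAt (isOpen_ball.mem_nhds (by simpa using ha))

/-- the linear map given by the divided differences -/
noncomputable def FlL (hsh : HSh D j k) {d : Fin D → ℕ} (a b : Fin D → ℂ)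
    (ha : ∀ i, ‖a i‖ < 1 / 2) : Fn D →ₗ[ℂ] ((i : Fin D) × Fin (d i)) → ℂ where
  toFun f p := Fl D j k a b f p
  map_add' f g := by
    funext p
    show fl (sh D j k (f + g) p.1) p.2 (a p.1) (b p.1) =
      fl (sh D j k f p.1) p.2 (a p.1) (b p.1) + fl (sh D j k g p.1) p.2 (a p.1) (b p.1)
    rw [sh_add, fl_add _ _ (hsh.diffAt f _ (ha p.1)) (hsh.diffAt g _ (ha p.1))]
  map_smul' c f := by
    funext p
    show fl (sh D j k (c • f) p.1) p.2 (a p.1) (b p.1) =
      c * fl (sh D j k f p.1) p.2 (a p.1) (b p.1)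
    rw [sh_smul, fl_smul _ _ _ (hsh.diffAt f _ (ha p.1))]

theorem FlL_apply (hsh : HSh D j k)
    {d : Fin D → ℕ} (a b : Fin D → ℂ) (ha : ∀ i, ‖a i‖ < 1 / 2) (f : Fn D)
    (p : (i : Fin D) × Fin (d i)) : FlL hsh a b ha f p = Fl D j k a b f p := rfl

theorem tendsto_pt (i : Fin D) :
    Tendsto (fun ab : (Fin D → ℂ) × (Fin D → ℂ) => (ab.1 i, ab.2 i)) (𝓝 0) (𝓝 (0 : ℂ × ℂ)) := by
  have h : Continuous (fun ab : (Fin D → ℂ) × (Fin D → ℂ) => (ab.1 i, ab.2 i)) :=
    ((continuous_apply i).comp continuous_fst).prodMk ((continuous_apply i).comp continuous_snd)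
  have h2 := h.tendsto 0
  exact h2

theorem tendsto_fl2 {F : ℂ → ℂ} (hF : AnalyticAt ℂ F 0) (l : ℕ) (i : Fin D) :
    Tendsto (fun ab : (Fin D → ℂ) × (Fin D → ℂ) => fl F l (ab.1 i) (ab.2 i)) (𝓝 0)
      (𝓝 (fl F l 0 0)) := by
  have h := (tendsto_fl hF l).comp (tendsto_pt i)
  exact h

theorem tendsto_Fl (hsh : HSh D j k) {d : Fin D → ℕ} (f : Fn D)
    (p : (i : Fin D) × Fin (d i)) :
    Tendsto (fun ab : (Fin D → ℂ) × (Fin D → ℂ) => Fl D j k ab.1 ab.2 f p) (𝓝 0)
      (𝓝 (Fl D j k 0 0 f p)) := by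
  have han : AnalyticAt ℂ (sh D j k f p.1) 0 :=
    (hsh f p.1).analyticAt (isOpen_ball.mem_nhds (mem_ball_self (by norm_num)))
  have h := tendsto_fl2 han p.2 p.1
  unfold Fl
  exact h

/-- the points of a multiset with at most two elements -/
theorem exists_pts (m : Multiset ℂ) (hm : m.card ≤ 2) :
    ∃ a b : ℂ, (∀ ε : ℝ, 0 < ε → (∀ α ∈ m, ‖α‖ < ε) → ‖a‖ < ε ∧ ‖b‖ < ε) ∧
      (m.card = 0 → m = 0) ∧ (m.card = 1 → m = {a}) ∧ (m.card = 2 → m = {a, b}) := by
  interval_cases h : m.card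
  · refine ⟨0, 0, fun ε hε _ => by simpa using hε, fun _ => Multiset.card_eq_zero.mp h,
      by simp, by simp⟩
  · obtain ⟨a, rfl⟩ := Multiset.card_eq_one.mp h
    refine ⟨a, 0, fun ε hε hh => ⟨hh a (by simp), by simpa using hε⟩, by simp, by simp, by simp⟩
  · obtain ⟨a, b, rfl⟩ := Multiset.card_eq_two.mp h
    exact ⟨a, b, fun ε hε hh => ⟨hh a (by simp), hh b (by simp)⟩, by simp, by simp, by simp⟩

theorem mem_WE_iff (hsh : HSh D j k)
    {n : ℕ} {d : Fin D → ℕ} (hd : ∀ i, d i ≤ 2) {E : Dv D} (hE : Typ E d) {a b : Fin D → ℂ}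
    (ha : ∀ i, ‖a i‖ < 1 / 4) (hb : ∀ i, ‖b i‖ < 1 / 4)
    (h0 : ∀ i, (E i).card = 0 → E i = 0) (h1 : ∀ i, (E i).card = 1 → E i = {a i})
    (h2 : ∀ i, (E i).card = 2 → E i = {a i, b i}) (f : Fn D) :
    f ∈ WE D j k n E ↔ f ∈ W D j k n ∧ ∀ p : (i : Fin D) × Fin (d i), Fl D j k a b f p = 0 := by
  have hsh' : ∀ i : Fin D, DifferentiableOn ℂ (sh D j k f i) (ball 0 (1 / 4)) := fun i =>
    (hsh f i).mono (ball_subset_ball (by norm_num))
  have key : ∀ i : Fin D, Van (sh D j k f i) (E i) ↔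
      ∀ l : Fin (d i), fl (sh D j k f i) l (a i) (b i) = 0 := by
    intro i
    have hc := hE i
    have hdi := hd i
    generalize hF : sh D j k f i = F at *
    have hF' : DifferentiableOn ℂ F (ball 0 (1 / 4)) := hF ▸ hsh' i
    rcases (by omega : d i = 0 ∨ d i = 1 ∨ d i = 2) with h | h | h
    · rw [h0 i (by omega)]
      constructor
      · intro _ l
        exact absurd l.2 (by omega)
      · intro _
        exact van_zero hF'
    · rw [h1 i (by omega), van_one hF' (ha i)]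
      constructor
      · intro hv l
        have hl : (l : ℕ) = 0 := by have := l.2; omega
        rw [hl, fl_zero]
        exact hv
      · intro hv
        have := hv ⟨0, by omega⟩
        rwa [fl_zero] at this
    · rw [h2 i (by omega), van_two hF' (ha i) (hb i)]
      constructor
      · rintro ⟨hv, hv'⟩ l
        have hl : (l : ℕ) = 0 ∨ (l : ℕ) = 1 := by have := l.2; omega
        rcases hl with hl | hl
        · rw [hl, fl_zero]
          exact hv
        · rw [hl, fl_one]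
          exact hv'
      · intro hv
        have e0 := hv ⟨0, by omega⟩
        have e1 := hv ⟨1, by omega⟩
        rw [fl_zero] at e0
        rw [fl_one] at e1
        exact ⟨e0, e1⟩
  constructor
  · rintro ⟨hW, hV⟩
    exact ⟨hW, fun p => (key p.1).mp (hV p.1) p.2⟩
  · rintro ⟨hW, hV⟩
    exact ⟨hW, fun i => (key i).mpr fun l => hV ⟨i, l⟩⟩

/-! linear algebra -/

theorem mat_bound {ι : Type} [Fintype ι] [DecidableEq ι] (M : ι → ι → ℂ) {η : ℝ}
    (hη : η * Fintype.card ι ≤ 1 / 2)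
    (h : ∀ p q, ‖M p q - (if p = q then 1 else 0)‖ ≤ η) (c : ι → ℂ) {δ : ℝ} (_hδ : 0 ≤ δ)
    (hc : ∀ p, ‖∑ q, M p q * c q‖ ≤ δ) (q : ι) : ‖c q‖ ≤ 2 * δ := by
  classical
  obtain ⟨q0, -, hq0⟩ := Finset.exists_max_image (Finset.univ : Finset ι) (fun q => ‖c q‖)
    ⟨q, Finset.mem_univ q⟩
  have hmax : ∀ q, ‖c q‖ ≤ ‖c q0‖ := fun q => hq0 q (Finset.mem_univ q)
  have e : c q0 = (∑ q, M q0 q * c q) - ∑ q, (M q0 q - (if q0 = q then 1 else 0)) * c q := by
    rw [← Finset.sum_sub_distrib]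
    have : ∀ q, M q0 q * c q - (M q0 q - (if q0 = q then 1 else 0)) * c q =
        (if q0 = q then 1 else 0) * c q := fun q => by ring
    rw [Finset.sum_congr rfl fun q _ => this q]
    simp
  have h1 : ‖∑ q, (M q0 q - (if q0 = q then 1 else 0)) * c q‖ ≤ 1 / 2 * ‖c q0‖ := by
    calc ‖∑ q, (M q0 q - (if q0 = q then 1 else 0)) * c q‖
        ≤ ∑ q : ι, ‖(M q0 q - (if q0 = q then 1 else 0)) * c q‖ := norm_sum_le _ _
      _ ≤ ∑ _q : ι, η * ‖c q0‖ := by
        apply Finset.sum_le_sum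
        intro q _
        rw [norm_mul]
        exact mul_le_mul (h q0 q) (hmax q) (norm_nonneg _) ((norm_nonneg _).trans (h q0 q))
      _ = η * Fintype.card ι * ‖c q0‖ := by
        rw [Finset.sum_const, Finset.card_univ, nsmul_eq_mul]
        ring
      _ ≤ 1 / 2 * ‖c q0‖ := mul_le_mul_of_nonneg_right hη (norm_nonneg _)
  have h2 : ‖c q0‖ ≤ δ + 1 / 2 * ‖c q0‖ := by
    calc ‖c q0‖ = ‖(∑ q, M q0 q * c q) - ∑ q, (M q0 q - (if q0 = q then 1 else 0)) * c q‖ := by
          rw [← e]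
      _ ≤ ‖∑ q, M q0 q * c q‖ + ‖∑ q, (M q0 q - (if q0 = q then 1 else 0)) * c q‖ :=
          norm_sub_le _ _
      _ ≤ δ + 1 / 2 * ‖c q0‖ := add_le_add (hc q0) h1
  have h3 := hmax q
  linarith

end JD0

end Pool.Agent.WW
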