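import Pool.Agent.WW.JC
import Pool.Agent.WW.JD0

set_option autoImplicit false

namespace Pool.Agent.WW

open Metric Filter Topology

variable {D j k : ℕ}

namespace JD0

theorem hsh (D j k : ℕ) : HSh D j k := fun g i => sh_diff g i

theorem finite_W (hD : 3 ≤ D) (hj : 0 < j) (hk : 0 < k) (hjk : j + k < D)
    (hg : Nat.gcd (Nat.gcd j k) D = 1) {n : ℕ} (hn : 1 ≤ n) :
    FiniteDimensional ℂ (W D j k n) := by
  apply FiniteDimensional.of_finrank_pos
  have h1 := finrank_W hD hj hk hjk hg hn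
  have h2 := genus_le hD hj hk hjk hg
  have h3 : D ≤ D * n := Nat.le_mul_of_pos_right D hn
  omega

theorem card_idx (d : Fin D → ℕ) : Fintype.card ((i : Fin D) × Fin (d i)) = ∑ i, d i := by
  rw [Fintype.card_sigma]
  simp

/-- the neighbourhood on which a finite system of functions is close to its values on the fibre -/
theorem exists_eps {d : Fin D → ℕ} {κ : Type} [Fintype κ] (f : κ → Fn D) {η : ℝ} (hη : 0 < η) :
    ∃ ε : ℝ, 0 < ε ∧ ε ≤ 1 / 8 ∧ ∀ a b : Fin D → ℂ, (∀ i, ‖a i‖ < ε) → (∀ i, ‖b i‖ < ε) →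
      ∀ (q : κ) (p : (i : Fin D) × Fin (d i)),
        ‖Fl D j k a b (f q) p - Fl D j k 0 0 (f q) p‖ < η := by
  have h : ∀ᶠ ab : (Fin D → ℂ) × (Fin D → ℂ) in 𝓝 0, ∀ (q : κ) (p : (i : Fin D) × Fin (d i)),
      ‖Fl D j k ab.1 ab.2 (f q) p - Fl D j k 0 0 (f q) p‖ < η := by
    rw [eventually_all]
    intro q
    rw [eventually_all]
    intro p
    have h1 := Metric.tendsto_nhds.mp (tendsto_Fl (hsh D j k) (f q) p) η hη
    simpa only [dist_eq_norm] using h1
  obtain ⟨ε, hε, hball⟩ := Metric.eventually_nhds_iff_ball.mp h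
  refine ⟨min ε (1 / 8), by positivity, min_le_right _ _, fun a b ha hb q p => ?_⟩
  refine hball (a, b) ?_ q p
  rw [mem_ball_zero_iff, Prod.norm_def, max_lt_iff]
  constructor
  · exact (pi_norm_lt_iff hε).mpr fun i => (ha i).trans_le (min_le_left _ _)
  · exact (pi_norm_lt_iff hε).mpr fun i => (hb i).trans_le (min_le_left _ _)

/-- the points of a divisor -/
theorem exists_ab {d : Fin D → ℕ} (hd : ∀ i, d i ≤ 2) {E : Dv D} (hE : Typ E d) {ε : ℝ}
    (hε : 0 < ε) (hS : SmallD ε E) :
    ∃ a b : Fin D → ℂ, (∀ i, ‖a i‖ < ε) ∧ (∀ i, ‖b i‖ < ε) ∧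
      (∀ i, (E i).card = 0 → E i = 0) ∧ (∀ i, (E i).card = 1 → E i = {a i}) ∧
      (∀ i, (E i).card = 2 → E i = {a i, b i}) := by
  have h : ∀ i, ∃ a b : ℂ, (∀ ε : ℝ, 0 < ε → (∀ α ∈ E i, ‖α‖ < ε) → ‖a‖ < ε ∧ ‖b‖ < ε) ∧
      ((E i).card = 0 → E i = 0) ∧ ((E i).card = 1 → E i = {a}) ∧
      ((E i).card = 2 → E i = {a, b}) := fun i =>
    exists_pts (E i) (by rw [hE i]; exact hd i)
  choose a b h1 h2 h3 h4 using h
  exact ⟨a, b, fun i => (h1 i ε hε (hS i)).1, fun i => (h1 i ε hε (hS i)).2, h2, h3, h4⟩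

theorem Fl_sum {κ : Type} [Fintype κ] {d : Fin D → ℕ} {a b : Fin D → ℂ} (ha : ∀ i, ‖a i‖ < 1 / 2)
    (f : κ → Fn D) (c : κ → ℂ) (p : (i : Fin D) × Fin (d i)) :
    Fl D j k a b (∑ q, c q • f q) p = ∑ q, Fl D j k a b (f q) p * c q := by
  have h : FlL (hsh D j k) (d := d) a b ha (∑ q, c q • f q) =
      ∑ q, c q • FlL (hsh D j k) a b ha (f q) := by
    rw [map_sum]
    exact Finset.sum_congr rfl fun q _ => map_smul _ _ _
  have h2 := congrFun h p
  rw [Finset.sum_apply] at h2
  rw [← FlL_apply (hsh D j k) a b ha, h2]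
  exact Finset.sum_congr rfl fun q _ => by
    rw [Pi.smul_apply, smul_eq_mul, FlL_apply, mul_comm]

end JD0

open JD0

/-- (JD1) dimension of the space of functions vanishing on a divisor near the fibre -/
theorem dim_WE (hD : 3 ≤ D) (hj : 0 < j) (hk : 0 < k) (hjk : j + k < D)
    (hg : Nat.gcd (Nat.gcd j k) D = 1) {n : ℕ}
    (hn : 3 ≤ n) (d : Fin D → ℕ) (hd : ∀ i, d i ≤ 2) :
    ∃ ε : ℝ, 0 < ε ∧ ∀ E : Dv D, Typ E d → SmallD ε E →
      Module.finrank ℂ (WE D j k n E) + ∑ i, d i + genus D j k = D * n + 1 := by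
  classical
  have hfin : FiniteDimensional ℂ (W D j k n) := finite_W hD hj hk hjk hg (by omega)
  -- dual functions
  have hdual : ∀ q : (i : Fin D) × Fin (d i), ∃ φ ∈ W D j k n, ∀ p : (i : Fin D) × Fin (d i),
      Fl D j k 0 0 φ p = if p = q then 1 else 0 := by
    intro q
    obtain ⟨φ, hφ, h⟩ := fibre_jets hD hj hk hjk hg hn
      (fun i => if i = q.1 ∧ (q.2 : ℕ) = 0 then 1 else 0)
      (fun i => if i = q.1 ∧ (q.2 : ℕ) = 1 then 1 else 0)
    refine ⟨φ, hφ, ?_⟩
    rintro ⟨i, l⟩
    obtain ⟨h1, h2⟩ := h i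
    have hl : (l : ℕ) = 0 ∨ (l : ℕ) = 1 := by have := l.2; have := hd i; omega
    obtain ⟨i', l'⟩ := q
    have hl' : (l' : ℕ) = 0 ∨ (l' : ℕ) = 1 := by have := l'.2; have := hd i'; omega
    show fl (sh D j k φ i) l ((0 : Fin D → ℂ) i) ((0 : Fin D → ℂ) i) = _
    rcases hl with hl | hl
    · rw [hl, fl_zero, Pi.zero_apply, h1]
      simp only
      by_cases hi : i = i'
      · subst hi
        by_cases hll : l = l'
        · subst hll
          simp [hl]
        · have : (l' : ℕ) ≠ 0 := fun h => hll (Fin.ext (hl.trans h.symm))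
          simp [this, hll]
      · simp [hi]
    · rw [hl, fl_one, Pi.zero_apply, dslope_same, h2]
      simp only
      by_cases hi : i = i'
      · subst hi
        by_cases hll : l = l'
        · subst hll
          simp [hl]
        · have : (l' : ℕ) ≠ 1 := fun h => hll (Fin.ext (hl.trans h.symm))
          simp [this, hll]
      · simp [hi]
  choose f hfW hf using hdual
  obtain ⟨ε, hε, hε8, hclose⟩ := exists_eps (j := j) (k := k) (d := d) f
    (η := 1 / (2 * (Fintype.card ((i : Fin D) × Fin (d i)) + 1))) (by positivity)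
  refine ⟨ε, hε, fun E hE hS => ?_⟩
  obtain ⟨a, b, ha, hb, h0, h1, h2⟩ := exists_ab hd hE hε hS
  have ha2 : ∀ i, ‖a i‖ < 1 / 2 := fun i => (ha i).trans_le (by linarith)
  have ha4 : ∀ i, ‖a i‖ < 1 / 4 := fun i => (ha i).trans_le (by linarith)
  have hb4 : ∀ i, ‖b i‖ < 1 / 4 := fun i => (hb i).trans_le (by linarith)
  let A : W D j k n →ₗ[ℂ] ((i : Fin D) × Fin (d i)) → ℂ :=
    (FlL (hsh D j k) a b ha2).comp (W D j k n).subtype
  have hker : LinearMap.ker A = (WE D j k n E).comap (W D j k n).subtype := by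
    ext φ
    rw [LinearMap.mem_ker, Submodule.mem_comap,
      mem_WE_iff (hsh D j k) hd hE ha4 hb4 h0 h1 h2]
    constructor
    · intro h
      refine ⟨φ.2, fun p => ?_⟩
      exact congrFun h p
    · rintro ⟨-, h⟩
      funext p
      exact h p
  have hle : WE D j k n E ≤ W D j k n := fun φ hφ => hφ.1
  have hkf : Module.finrank ℂ (LinearMap.ker A) = Module.finrank ℂ (WE D j k n E) := by
    rw [hker]
    exact (Submodule.comapSubtypeEquivOfLe hle).finrank_eq
  -- surjectivity
  have hη : 1 / (2 * ((Fintype.card ((i : Fin D) × Fin (d i)) : ℝ) + 1)) *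
      (Fintype.card ((i : Fin D) × Fin (d i)) : ℝ) ≤ 1 / 2 := by
    rw [div_mul_eq_mul_div, one_mul, div_le_div_iff₀ (by positivity) (by norm_num)]
    nlinarith
  let B : (((i : Fin D) × Fin (d i)) → ℂ) →ₗ[ℂ] W D j k n :=
    Fintype.linearCombination ℂ (fun q => (⟨f q, hfW q⟩ : W D j k n))
  have hAB : ∀ c p, A (B c) p = ∑ q, Fl D j k a b (f q) p * c q := by
    intro c p
    have e : ((B c : W D j k n) : Fn D) = ∑ q, c q • f q := by
      show ((Fintype.linearCombination ℂ (fun q => (⟨f q, hfW q⟩ : W D j k n)) c :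
        W D j k n) : Fn D) = _
      rw [Fintype.linearCombination_apply]
      push_cast
      rfl
    rw [← Fl_sum ha2, ← e]
    rfl
  have hinj : Function.Injective (A.comp B) := by
    rw [← LinearMap.ker_eq_bot, LinearMap.ker_eq_bot']
    intro c hc
    funext q
    have := mat_bound (fun p q => Fl D j k a b (f q) p) hη (fun p q => by
      have := (hclose a b ha hb q p).le
      rwa [hf q p] at this) c (le_refl 0) (fun p => by
        rw [← hAB c p]
        have := congrFun hc p
        simp only [LinearMap.comp_apply] at this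
        rw [this]
        simp) q
    simpa using this
  have hsurj : Function.Surjective A := by
    have h := LinearMap.surjective_of_injective hinj
    intro y
    obtain ⟨c, hc⟩ := h y
    exact ⟨B c, hc⟩
  have hrn := LinearMap.finrank_range_add_finrank_ker A
  rw [LinearMap.range_eq_top.mpr hsurj, finrank_top, hkf, Module.finrank_pi, card_idx] at hrn
  have hW := finrank_W hD hj hk hjk hg (n := n) (by omega)
  omega

namespace JD0

theorem sum_tA {g : ℕ} (hg : g ≤ D) :
    (∑ i : Fin D, if (i : ℕ) + g < D then 1 else 0) + g = D := by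
  rw [Fin.sum_univ_eq_sum_range (fun i => if i + g < D then 1 else 0) D, Finset.sum_boole]
  have : (Finset.range D).filter (fun i => i + g < D) = Finset.range (D - g) := by
    ext i
    simp only [Finset.mem_filter, Finset.mem_range]
    omega
  rw [this, Finset.card_range]
  simp only [Nat.cast_id]
  omega

theorem sum_tB {g : ℕ} (hg : g ≤ D) :
    (∑ i : Fin D, if g ≤ (i : ℕ) then 1 else 0) + g = D := by
  rw [Fin.sum_univ_eq_sum_range (fun i => if g ≤ i then 1 else 0) D, Finset.sum_boole]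
  have : (Finset.range D).filter (fun i => g ≤ i) = Finset.Ico g D := by
    ext i
    simp only [Finset.mem_filter, Finset.mem_range, Finset.mem_Ico]
    omega
  rw [this, Nat.card_Ico]
  simp only [Nat.cast_id]
  omega

theorem sum_tC {g : ℕ} (hg : g ≤ D) :
    (∑ i : Fin D, if (i : ℕ) + g < D then 2 else 1) + g = D * 2 := by
  have h : ∀ i : Fin D, (if (i : ℕ) + g < D then 2 else 1) =
      (if (i : ℕ) + g < D then 1 else 0) + 1 := by
    intro i
    split_ifs <;> rfl
  rw [Finset.sum_congr rfl fun i _ => h i, Finset.sum_add_distrib]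
  have := sum_tA hg
  simp only [Finset.sum_const, Finset.card_univ, Fintype.card_fin, smul_eq_mul, mul_one]
  omega

theorem poly_bdd (p : Polynomial ℂ) : ∃ K : ℝ, 0 ≤ K ∧ ∀ l, ‖p.coeff l‖ ≤ K := by
  refine ⟨∑ l ∈ p.support, ‖p.coeff l‖, Finset.sum_nonneg fun _ _ => norm_nonneg _, fun l => ?_⟩
  by_cases hl : l ∈ p.support
  · exact Finset.single_le_sum (f := fun l => ‖p.coeff l‖) (fun _ _ => norm_nonneg _) hl
  · rw [Polynomial.notMem_support_iff.mp hl, norm_zero]
    exact Finset.sum_nonneg fun _ _ => norm_nonneg _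

/-- the facts about the types needed for JD2 -/
theorem adt_facts (hD : 3 ≤ D) (hj : 0 < j) (hk : 0 < k) (hjk : j + k < D)
    (hg : Nat.gcd (Nat.gcd j k) D = 1) {d : ℕ} {ty : Fin D → ℕ} (ha : Adt D j k d ty) :
    1 ≤ d ∧ (∀ i, ty i ≤ 2) ∧ (∀ i, ty i ≤ d) ∧ (∑ i, ty i) + genus D j k = D * d ∧
    ∀ φ ∈ W D j k d, (∀ p : (i : Fin D) × Fin (ty i), Fl D j k 0 0 φ p = 0) →
      ∃ β : ℂ, φ = β • xp D d := by
  have hgD : genus D j k ≤ D := by
    have := genus_le hD hj hk hjk hg
    omega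
  rcases ha with ⟨rfl, rfl⟩ | ⟨rfl, rfl⟩ | ⟨rfl, rfl⟩
  · refine ⟨le_rfl, fun i => ?_, fun i => ?_, ?_, ?_⟩
    · unfold tA; split_ifs <;> omega
    · unfold tA; split_ifs <;> omega
    · rw [mul_one]
      exact sum_tA hgD
    · intro φ hφ h
      refine fibre_one hD hj hk hjk hg φ hφ 0 fun i _ hi => ?_
      have hi' : i + genus D j k < D := by omega
      have hiD : i < D := by omega
      have ht : tA D j k ⟨i, hiD⟩ = 1 := by
        unfold tA
        exact if_pos hi'
      have := h ⟨⟨i, hiD⟩, ⟨0, by rw [ht]; norm_num⟩⟩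
      unfold Fl at this
      rw [fl_zero] at this
      exact this
  · refine ⟨le_rfl, fun i => ?_, fun i => ?_, ?_, ?_⟩
    · unfold tB; split_ifs <;> omega
    · unfold tB; split_ifs <;> omega
    · rw [mul_one]
      exact sum_tB hgD
    · intro φ hφ h
      refine fibre_one hD hj hk hjk hg φ hφ (genus D j k) fun i hi1 hi2 => ?_
      have hiD : i < D := by omega
      have ht : tB D j k ⟨i, hiD⟩ = 1 := by
        unfold tB
        exact if_pos hi1
      have := h ⟨⟨i, hiD⟩, ⟨0, by rw [ht]; norm_num⟩⟩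
      unfold Fl at this
      rw [fl_zero] at this
      exact this
  · refine ⟨by norm_num, fun i => ?_, fun i => ?_, ?_, ?_⟩
    · unfold tC; split_ifs <;> omega
    · unfold tC; split_ifs <;> omega
    · exact sum_tC hgD
    · intro φ hφ h
      refine fibre_two hD hj hk hjk hg φ hφ (fun i => ?_) fun i hi => ?_
      · have ht : 0 < tC D j k i := by
          unfold tC
          split_ifs <;> norm_num
        have := h ⟨i, ⟨0, ht⟩⟩
        unfold Fl at this
        rw [fl_zero] at this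
        exact this
      · have ht : 1 < tC D j k i := by
          unfold tC
          rw [if_pos hi]
          norm_num
        have := h ⟨i, ⟨1, ht⟩⟩
        unfold Fl at this
        rw [fl_one] at this
        have h0 : dslope (sh D j k φ i) 0 0 = 0 := this
        rwa [dslope_same] at h0

theorem Fl_xp (hD : 0 < D) {d : ℕ} (hd : 1 ≤ d) {ty : Fin D → ℕ} (hty : ∀ i, ty i ≤ d)
    (hty2 : ∀ i, ty i ≤ 2) (p : (i : Fin D) × Fin (ty i)) : Fl D j k 0 0 (xp D d) p = 0 := by
  have h0 : sh D j k (xp D d) p.1 0 = 0 := by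
    rw [sh_xp hD d p.1 (by simp)]
    exact zero_pow (by omega)
  have hl : (p.2 : ℕ) = 0 ∨ (p.2 : ℕ) = 1 := by
    have := p.2.2
    have := hty2 p.1
    omega
  show fl (sh D j k (xp D d) p.1) p.2 ((0 : Fin D → ℂ) p.1) ((0 : Fin D → ℂ) p.1) = 0
  rw [Pi.zero_apply]
  rcases hl with hl | hl
  · rw [hl, fl_zero]
    exact h0
  · rw [hl, fl_one, dslope_same]
    have hd2 : 2 ≤ d := by
      have := p.2.2
      have := hty p.1
      omega
    have e : sh D j k (xp D d) p.1 =ᶠ[𝓝 0] fun s => s ^ d := by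
      filter_upwards [isOpen_ball.mem_nhds (mem_ball_self (x := (0 : ℂ)) (ε := 1 / 2)
        (by norm_num))] with s hs
      exact sh_xp hD d p.1 (by simpa using hs)
    rw [e.deriv_eq, deriv_pow_field]
    rw [zero_pow (by omega), mul_zero]

end JD0

/-- (JD2) the generator of the one-dimensional spaces -/
theorem gen_WE (hD : 3 ≤ D) (hj : 0 < j) (hk : 0 < k) (hjk : j + k < D)
    (hg : Nat.gcd (Nat.gcd j k) D = 1) {d : ℕ}
    {ty : Fin D → ℕ} (ha : Adt D j k d ty) (η : ℝ) (hη : 0 < η) :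
    ∃ ε : ℝ, 0 < ε ∧ ∀ E : Dv D, Typ E ty → SmallD ε E → ∃ φ : Fn D, φ ≠ 0 ∧
      WE D j k d E = Submodule.span ℂ {φ} ∧ ∀ t l, ‖((φ - xp D d) t).coeff l‖ < η := by
  classical
  obtain ⟨hd1, hty2, htyd, hsum, hinj0⟩ := adt_facts hD hj hk hjk hg ha
  have hfin : FiniteDimensional ℂ (W D j k d) := finite_W hD hj hk hjk hg hd1
  -- the coefficient functional
  let z : Fin D := ⟨0, by omega⟩
  let lam : Fn D →ₗ[ℂ] ℂ := (Polynomial.lcoeff ℂ d).comp (LinearMap.proj z)
  have hlam : ∀ g : Fn D, lam g = (g z).coeff d := fun g => rfl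
  have hxpW : xp D d ∈ W D j k d := xp_mem (by omega) le_rfl
  have hlamxp : lam (xp D d) = 1 := by
    rw [hlam]
    unfold xp
    rw [if_pos rfl, Polynomial.coeff_X_pow, if_pos rfl]
  let W0 : Submodule ℂ (Fn D) := W D j k d ⊓ LinearMap.ker lam
  have hW0le : W0 ≤ W D j k d := inf_le_left
  have hfin0 : FiniteDimensional ℂ W0 := Submodule.finiteDimensional_of_le hW0le
  have hdim0 : Module.finrank ℂ W0 = ∑ i, ty i := by
    have h1 := LinearMap.finrank_range_add_finrank_ker (lam.comp (W D j k d).subtype)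
    have h2 : LinearMap.range (lam.comp (W D j k d).subtype) = ⊤ := by
      rw [LinearMap.range_eq_top]
      intro y
      refine ⟨y • ⟨xp D d, hxpW⟩, ?_⟩
      rw [map_smul]
      show y * lam (xp D d) = y
      rw [hlamxp, mul_one]
    have h3 : LinearMap.ker (lam.comp (W D j k d).subtype) = W0.comap (W D j k d).subtype := by
      ext φ
      rw [LinearMap.mem_ker, Submodule.mem_comap, Submodule.mem_inf, LinearMap.mem_ker]
      exact ⟨fun h => ⟨φ.2, h⟩, fun h => h.2⟩
    have h4 : Module.finrank ℂ (LinearMap.ker (lam.comp (W D j k d).subtype)) =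
        Module.finrank ℂ W0 := by
      rw [h3]
      exact (Submodule.comapSubtypeEquivOfLe hW0le).finrank_eq
    rw [h2, finrank_top, h4, Module.finrank_self] at h1
    have h5 := finrank_W hD hj hk hjk hg hd1
    omega
  have ha0 : ∀ i : Fin D, ‖(0 : Fin D → ℂ) i‖ < 1 / 2 := fun i => by simp
  let A0 : W0 →ₗ[ℂ] ((i : Fin D) × Fin (ty i)) → ℂ :=
    (FlL (hsh D j k) 0 0 ha0).comp W0.subtype
  have hA0inj : Function.Injective A0 := by
    rw [← LinearMap.ker_eq_bot, LinearMap.ker_eq_bot']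
    intro φ hφ
    obtain ⟨β, hβ⟩ := hinj0 φ.1 (hW0le φ.2) fun p => congrFun hφ p
    have h1 : lam φ.1 = 0 := φ.2.2
    rw [hβ, map_smul, hlamxp, smul_eq_mul, mul_one] at h1
    apply Subtype.ext
    rw [hβ, h1, zero_smul]
    rfl
  have hcard : Module.finrank ℂ W0 = Module.finrank ℂ (((i : Fin D) × Fin (ty i)) → ℂ) := by
    rw [Module.finrank_pi, card_idx, hdim0]
  let e0 : W0 ≃ₗ[ℂ] (((i : Fin D) × Fin (ty i)) → ℂ) :=
    LinearEquiv.ofInjectiveOfFinrankEq A0 hA0inj hcard
  have he0 : ∀ φ, e0 φ = A0 φ := fun φ => rfl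
  let f : ((i : Fin D) × Fin (ty i)) → Fn D := fun q => (e0.symm (Pi.single q 1) : W0)
  have hfW0 : ∀ q, f q ∈ W0 := fun q => (e0.symm (Pi.single q 1)).2
  have hf : ∀ q p, Fl D j k 0 0 (f q) p = if p = q then 1 else 0 := by
    intro q p
    have h1 : e0 (e0.symm (Pi.single q 1)) = Pi.single q 1 := e0.apply_symm_apply _
    have h2 := congrFun h1 p
    rw [he0, Pi.single_apply] at h2
    exact h2
  have hrep : ∀ g ∈ W0, g = ∑ q, Fl D j k 0 0 g q • f q := by
    intro g hg
    have h1 : (⟨g, hg⟩ : W0) = e0.symm (e0 ⟨g, hg⟩) := (e0.symm_apply_apply _).symm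
    have h2 : e0 ⟨g, hg⟩ = ∑ q, Fl D j k 0 0 g q • (Pi.single q 1 : _ → ℂ) := by
      funext p
      rw [Finset.sum_apply]
      simp only [Pi.smul_apply, Pi.single_apply, smul_eq_mul, mul_ite, mul_one, mul_zero]
      rw [Finset.sum_ite_eq]
      simp only [Finset.mem_univ, if_true]
      rfl
    rw [h2, map_sum] at h1
    have h3 := congrArg Subtype.val h1
    simp only [map_smul] at h3
    push_cast at h3
    exact h3
  -- bounds for the coefficients
  have hK : ∃ K : ℝ, 0 ≤ K ∧ ∀ q t l, ‖(f q t).coeff l‖ ≤ K := by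
    choose K hK0 hK using fun (qt : ((i : Fin D) × Fin (ty i)) × Fin D) => poly_bdd (f qt.1 qt.2)
    refine ⟨∑ qt, K qt, Finset.sum_nonneg fun _ _ => hK0 _, fun q t l => ?_⟩
    exact (hK (q, t) l).trans
      (Finset.single_le_sum (f := K) (fun _ _ => hK0 _) (Finset.mem_univ (q, t)))
  obtain ⟨K, hK0, hK⟩ := hK
  set N : ℝ := (Fintype.card ((i : Fin D) × Fin (ty i)) : ℝ) with hN
  have hN0 : 0 ≤ N := Nat.cast_nonneg _
  set δ : ℝ := η / (2 * (K + 1) * (N + 1)) with hδ
  have hδ0 : 0 < δ := by positivity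
  obtain ⟨ε, hε, hε8, hclose⟩ := exists_eps (j := j) (k := k) (d := ty)
    (fun o : Option ((i : Fin D) × Fin (ty i)) => o.elim (xp D d) f)
    (η := min (1 / (2 * (N + 1))) δ) (by positivity)
  refine ⟨ε, hε, fun E hE hS => ?_⟩
  obtain ⟨a, b, ha, hb, h0, h1, h2⟩ := exists_ab hty2 hE hε hS
  have ha2 : ∀ i, ‖a i‖ < 1 / 2 := fun i => (ha i).trans_le (by linarith)
  have ha4 : ∀ i, ‖a i‖ < 1 / 4 := fun i => (ha i).trans_le (by linarith)
  have hb4 : ∀ i, ‖b i‖ < 1 / 4 := fun i => (hb i).trans_le (by linarith)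
  have hηN : 1 / (2 * (N + 1)) * N ≤ 1 / 2 := by
    rw [div_mul_eq_mul_div, one_mul, div_le_div_iff₀ (by positivity) (by norm_num)]
    nlinarith
  have hM : ∀ p q, ‖Fl D j k a b (f q) p - (if p = q then 1 else 0)‖ ≤ 1 / (2 * (N + 1)) := by
    intro p q
    have := (hclose a b ha hb (some q) p).le
    simp only [Option.elim] at this
    rw [hf q p] at this
    exact this.trans (min_le_left _ _)
  have hr : ∀ (p : (i : Fin D) × Fin (ty i)), ‖Fl D j k a b (xp D d) p‖ ≤ δ := by
    intro p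
    have := (hclose a b ha hb none p).le
    simp only [Option.elim] at this
    rw [Fl_xp (by omega) hd1 htyd hty2 p, sub_zero] at this
    exact this.trans (min_le_right _ _)
  -- the matrix is invertible
  let M : Matrix ((i : Fin D) × Fin (ty i)) ((i : Fin D) × Fin (ty i)) ℂ :=
    Matrix.of fun p q => Fl D j k a b (f q) p
  have hMv : ∀ c p, M.mulVec c p = ∑ q, Fl D j k a b (f q) p * c q := fun c p => rfl
  have hMinj : Function.Injective (Matrix.mulVecLin M) := by
    rw [← LinearMap.ker_eq_bot, LinearMap.ker_eq_bot']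
    intro c hc
    funext q
    have := mat_bound (fun p q => Fl D j k a b (f q) p) hηN hM c (le_refl 0) (fun p => by
      have := congrFun hc p
      rw [Matrix.mulVecLin_apply, hMv] at this
      rw [this]
      simp) q
    simpa using this
  have hMsurj := LinearMap.surjective_of_injective hMinj
  obtain ⟨c, hc⟩ := hMsurj fun p : (i : Fin D) × Fin (ty i) => -Fl D j k a b (xp D d) p
  have hc' : ∀ (p : (i : Fin D) × Fin (ty i)), ∑ q, Fl D j k a b (f q) p * c q = -Fl D j k a b (xp D d) p := by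
    intro p
    have := congrFun hc p
    rw [Matrix.mulVecLin_apply, hMv] at this
    exact this
  have hcb : ∀ q, ‖c q‖ ≤ 2 * δ := by
    intro q
    refine mat_bound (fun p q => Fl D j k a b (f q) p) hηN hM c hδ0.le (fun p => ?_) q
    rw [hc' p, norm_neg]
    exact hr p
  set ψ : Fn D := ∑ q, c q • f q with hψ
  have hψW0 : ψ ∈ W0 := Submodule.sum_mem _ fun q _ => Submodule.smul_mem _ _ (hfW0 q)
  have hFadd : ∀ (g g' : Fn D) (p : (i : Fin D) × Fin (ty i)), Fl D j k a b (g + g') p =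
      Fl D j k a b g p + Fl D j k a b g' p := by
    intro g g' p
    have := congrFun (map_add (FlL (hsh D j k) (d := ty) a b ha2) g g') p
    exact this
  have hFsub : ∀ (g g' : Fn D) (p : (i : Fin D) × Fin (ty i)), Fl D j k a b (g - g') p =
      Fl D j k a b g p - Fl D j k a b g' p := by
    intro g g' p
    have := congrFun (map_sub (FlL (hsh D j k) (d := ty) a b ha2) g g') p
    exact this
  have hFsmul : ∀ (x : ℂ) (g : Fn D) (p : (i : Fin D) × Fin (ty i)), Fl D j k a b (x • g) p = x * Fl D j k a b g p := by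
    intro x g p
    have := congrFun (map_smul (FlL (hsh D j k) (d := ty) a b ha2) x g) p
    exact this
  have hFφ : ∀ (p : (i : Fin D) × Fin (ty i)), Fl D j k a b (xp D d + ψ) p = 0 := by
    intro p
    rw [hFadd, hψ, Fl_sum ha2, hc' p]
    ring
  have hlamφ : lam (xp D d + ψ) = 1 := by
    have : lam ψ = 0 := hψW0.2
    rw [map_add, hlamxp, this, add_zero]
  have hφWE : xp D d + ψ ∈ WE D j k d E := by
    rw [mem_WE_iff (hsh D j k) hty2 hE ha4 hb4 h0 h1 h2]
    exact ⟨Submodule.add_mem _ hxpW (hW0le hψW0), hFφ⟩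
  refine ⟨xp D d + ψ, ?_, ?_, ?_⟩
  · intro h
    rw [h, map_zero] at hlamφ
    exact zero_ne_one hlamφ
  · apply le_antisymm
    · intro g hgE
      rw [mem_WE_iff (hsh D j k) hty2 hE ha4 hb4 h0 h1 h2] at hgE
      rw [Submodule.mem_span_singleton]
      refine ⟨lam g, ?_⟩
      set g' : Fn D := g - lam g • (xp D d + ψ) with hg'
      have hg'0 : g' ∈ W0 := by
        refine ⟨Submodule.sub_mem _ hgE.1 (Submodule.smul_mem _ _
          (Submodule.add_mem _ hxpW (hW0le hψW0))), ?_⟩
        show lam g' = 0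
        rw [hg', map_sub, map_smul, hlamφ, smul_eq_mul, mul_one, sub_self]
      have hFg' : ∀ (p : (i : Fin D) × Fin (ty i)), Fl D j k a b g' p = 0 := by
        intro p
        rw [hg', hFsub, hFsmul, hFφ, hgE.2 p]
        ring
      have hrep' := hrep g' hg'0
      have hz : ∀ (q : (i : Fin D) × Fin (ty i)), Fl D j k 0 0 g' q = 0 := by
        intro q
        have := mat_bound (fun p q => Fl D j k a b (f q) p) hηN hM (fun q => Fl D j k 0 0 g' q)
          (le_refl 0) (fun p => by
            rw [← Fl_sum ha2, ← hrep', hFg' p]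
            simp) q
        simpa using this
      have hg'z : g' = 0 := by
        rw [hrep']
        exact Finset.sum_eq_zero fun q _ => by rw [hz q, zero_smul]
      rw [hg'] at hg'z
      exact (sub_eq_zero.mp hg'z).symm
    · rw [Submodule.span_singleton_le_iff_mem]
      exact hφWE
  · intro t l
    rw [add_sub_cancel_left, hψ, Finset.sum_apply, Polynomial.finsetSum_coeff]
    calc ‖∑ q, ((c q • f q) t).coeff l‖ ≤ ∑ q, ‖((c q • f q) t).coeff l‖ := norm_sum_le _ _
      _ ≤ ∑ _q : (i : Fin D) × Fin (ty i), 2 * δ * K := by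
        apply Finset.sum_le_sum
        intro q _
        rw [Pi.smul_apply, Polynomial.coeff_smul, smul_eq_mul, norm_mul]
        exact mul_le_mul (hcb q) (hK q t l) (norm_nonneg _) (by positivity)
      _ = N * (2 * δ * K) := by
        rw [Finset.sum_const, Finset.card_univ, nsmul_eq_mul]
      _ < η := by
        rw [hδ]
        rw [show N * (2 * (η / (2 * (K + 1) * (N + 1))) * K) =
          η * ((N / (N + 1)) * (K / (K + 1))) by field_simp]
        have h1 : N / (N + 1) ≤ 1 := by
          rw [div_le_one (by positivity)]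
          linarith
        have h2 : K / (K + 1) < 1 := by
          rw [div_lt_one (by positivity)]
          linarith
        have h4 : 0 ≤ K / (K + 1) := by positivity
        have h5 : N / (N + 1) * (K / (K + 1)) < 1 := lt_of_le_of_lt (mul_le_of_le_one_left h4 h1) h2
        exact mul_lt_of_lt_one_right hη h5

end Pool.Agent.WW
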