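import Pool.Agent.WW.CDefs

/-!
Definitions for the Jacobian of `y^D = x^j (1-x)^k` near the fibre over `x = 1/2`.
`s = x - 1/2`.  The sheets are numbered by `i < D` (`y = ζ^i ybr D j k s` on sheet `i`).
-/

set_option autoImplicit false

namespace Pool.Agent.WW

open MvPolynomial Metric Filter Topology

noncomputable section

/-- all coefficients are algebraic numbers / degree `< n` etc. are expressed through `coeff`.
An element `g` of `Fn D` is the function `∑_t g_t(s) η_t`, where on sheet `i`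
`η_t = ζ^(t i) (1/2+s)^{tj/D} (1/2-s)^{tk/D}` (fractional parts in the exponents) -/
abbrev Fn (D : ℕ) : Type := Fin D → Polynomial ℂ

/-- `⌈{tj/D} + {tk/D}⌉` -/
def cc (D j k t : ℕ) : ℕ := (t * j % D + t * k % D + D - 1) / D

/-- `(1/2+s)^{tj/D} (1/2-s)^{tk/D}` with fractional parts in the exponents -/
def et (D j k t : ℕ) (s : ℂ) : ℂ :=
  (1 / 2 + s) ^ (((t * j % D : ℕ) : ℂ) / D) * (1 / 2 - s) ^ (((t * k % D : ℕ) : ℂ) / D)

/-- the function on sheet `i` -/
def sh (D j k : ℕ) (g : Fn D) (i : ℕ) (s : ℂ) : ℂ :=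
  ∑ t : Fin D, (g t).eval s * ze D ^ ((t : ℕ) * i) * et D j k t s

/-- functions with poles of order at most `n` along infinity -/
def W (D j k n : ℕ) : Submodule ℂ (Fn D) :=
  Submodule.pi Set.univ fun t : Fin D => Polynomial.degreeLT ℂ (n + 1 - cc D j k t)

/-- product of functions -/
def mulF (D j k : ℕ) (g h : Fn D) : Fn D := fun t =>
  ∑ u : Fin D, ∑ v : Fin D, if ((u : ℕ) + v) % D = t then
    (Polynomial.C (1 / 2) + Polynomial.X) ^ (((u : ℕ) * j % D + (v : ℕ) * j % D) / D) *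
      (Polynomial.C (1 / 2) - Polynomial.X) ^ (((u : ℕ) * k % D + (v : ℕ) * k % D) / D) *
        g u * h v else 0

/-- the twist by the automorphism: `sh (tw l g) i = sh g (i + l)` -/
def tw (D l : ℕ) (g : Fn D) : Fn D := fun t => Polynomial.C (ze D ^ ((t : ℕ) * l)) * g t

/-- the function `s^d` -/
def xp (D d : ℕ) : Fn D := fun t => if (t : ℕ) = 0 then Polynomial.X ^ d else 0

/-- indices of the holomorphic differentials -/
abbrev PJ (D j k : ℕ) : Type :=
  {t : Fin D // 0 < (t : ℕ) * j % D ∧ 0 < (t : ℕ) * k % D ∧ (t : ℕ) * j % D + (t : ℕ) * k % D < D}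

/-- the genus -/
def genus (D j k : ℕ) : ℕ := Fintype.card (PJ D j k)

/-- divisors near the fibre: a finite multiset of values of `s` on each sheet -/
abbrev Dv (D : ℕ) : Type := Fin D → Multiset ℂ

/-- `f` vanishes on the multiset `E` -/
def Van (f : ℂ → ℂ) (E : Multiset ℂ) : Prop :=
  ∃ χ : ℂ → ℂ, DifferentiableOn ℂ χ (ball 0 (1 / 4)) ∧
    ∀ s ∈ ball (0 : ℂ) (1 / 4), f s = (E.map fun α => s - α).prod * χ s

/-- functions in `W n` vanishing on the divisor `E` -/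
def WE (D j k n : ℕ) (E : Dv D) : Submodule ℂ (Fn D) where
  carrier := {g | g ∈ W D j k n ∧ ∀ i : Fin D, Van (sh D j k g i) (E i)}
  zero_mem' := ⟨zero_mem _, fun i => ⟨fun _ => 0, differentiableOn_const _, by simp [sh]⟩⟩
  add_mem' := by
    rintro a b ⟨ha, ha'⟩ ⟨hb, hb'⟩
    refine ⟨add_mem ha hb, fun i => ?_⟩
    obtain ⟨χ, h1, h2⟩ := ha' i
    obtain ⟨χ', h1', h2'⟩ := hb' i
    refine ⟨fun s => χ s + χ' s, h1.add h1', fun s hs => ?_⟩
    have e : sh D j k (a + b) i s = sh D j k a i s + sh D j k b i s := by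
      simp only [sh, Pi.add_apply, Polynomial.eval_add, add_mul, Finset.sum_add_distrib]
    rw [e, h2 s hs, h2' s hs]
    ring
  smul_mem' := by
    rintro c a ⟨ha, ha'⟩
    refine ⟨Submodule.smul_mem _ c ha, fun i => ?_⟩
    obtain ⟨χ, h1, h2⟩ := ha' i
    refine ⟨fun s => c * χ s, h1.const_mul c, fun s hs => ?_⟩
    have e : sh D j k (c • a) i s = c * sh D j k a i s := by
      simp only [sh, Pi.smul_apply, Polynomial.eval_smul, smul_eq_mul, Finset.mul_sum]
      exact Finset.sum_congr rfl fun t _ => by ring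
    rw [e, h2 s hs]
    ring

/-- all points are within `ε` of the fibre -/
def SmallD {D : ℕ} (ε : ℝ) (E : Dv D) : Prop := ∀ i, ∀ α ∈ E i, ‖α‖ < ε

/-- number of points on the sheets -/
def Typ {D : ℕ} (E : Dv D) (d : Fin D → ℕ) : Prop := ∀ i, (E i).card = d i

/-- `E` is the full divisor of zeros near the fibre -/
def DivOf (D j k : ℕ) (φ : Fn D) (E : Dv D) : Prop :=
  ∀ i : Fin D, ∃ v : ℂ → ℂ, DifferentiableOn ℂ v (ball 0 (1 / 4)) ∧
    (∀ s ∈ ball (0 : ℂ) (1 / 8), v s ≠ 0) ∧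
    ∀ s ∈ ball (0 : ℂ) (1 / 4), sh D j k φ i s = ((E i).map fun α => s - α).prod * v s

/-- the differential: `(1/2+s)^({tj/D}-1) (1/2-s)^({tk/D}-1)` -/
def wt (D j k t : ℕ) (s : ℂ) : ℂ :=
  (1 / 2 + s) ^ (((t * j % D : ℕ) : ℂ) / D - 1) * (1 / 2 - s) ^ (((t * k % D : ℕ) : ℂ) / D - 1)

/-- its integral from `0` to `s` -/
def aint (D j k t : ℕ) (s : ℂ) : ℂ := ∫ u in (0 : ℝ)..1, s * wt D j k t (u * s)

/-- Abel-Jacobi sum -/
def AJ (D j k : ℕ) (E : Dv D) (t : ℕ) : ℂ :=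
  ∑ i : Fin D, ze D ^ (t * (i : ℕ)) * ((E i).map (aint D j k t)).sum

/-- one point on each of the first `n` sheets -/
def PD {D n : ℕ} (ξ : Fin n → ℂ) : Dv D := fun i => if h : (i : ℕ) < n then {ξ ⟨i, h⟩} else 0

/-- `d i` copies of the point of the fibre on sheet `i` -/
def D0 {D : ℕ} (d : Fin D → ℕ) : Dv D := fun i => Multiset.replicate (d i) 0

/-- type A: one point on each of the sheets `0 .. D-g-1` -/
def tA (D j k : ℕ) (i : Fin D) : ℕ := if (i : ℕ) + genus D j k < D then 1 else 0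

/-- type B: one point on each of the sheets `g .. D-1` -/
def tB (D j k : ℕ) (i : Fin D) : ℕ := if genus D j k ≤ (i : ℕ) then 1 else 0

/-- type C: two points on each of the sheets `0 .. D-g-1`, one on the others -/
def tC (D j k : ℕ) (i : Fin D) : ℕ := if (i : ℕ) + genus D j k < D then 2 else 1

/-- the admissible pairs (order, type) -/
def Adt (D j k : ℕ) (d : ℕ) (ty : Fin D → ℕ) : Prop :=
  (d = 1 ∧ ty = tA D j k) ∨ (d = 1 ∧ ty = tB D j k) ∨ (d = 2 ∧ ty = tC D j k)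

/-! regular functions -/

/-- `f` is a rational function of `h`, regular at `x0`, with algebraic coefficients -/
def RegF {X μ : Type} [TopologicalSpace X] (h : X → μ → ℂ) (x0 : X) (f : X → ℂ) : Prop :=
  ∃ p q : MvPolynomial μ ℂ, AlgC p ∧ AlgC q ∧ eval (h x0) q ≠ 0 ∧
    ∀ᶠ x in 𝓝 x0, f x * eval (h x) q = eval (h x) p

/-- a family of subspaces of `Fn D` with a basis whose coefficients are regular functions -/
def RegFam {X μ : Type} [TopologicalSpace X] {D : ℕ} (h : X → μ → ℂ) (x0 : X)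
    (U : X → Submodule ℂ (Fn D)) : Prop :=
  ∃ (n d : ℕ) (v : Fin d → X → Fn D),
    (∀ a x t, v a x t ∈ Polynomial.degreeLT ℂ n) ∧
    (∀ a t l, RegF h x0 fun x => (v a x t).coeff l) ∧
    ∀ᶠ x in 𝓝 x0, LinearIndependent ℂ (fun a => v a x) ∧
      U x = Submodule.span ℂ (Set.range fun a => v a x)

/-- the span of the products -/
def mulS (D j k : ℕ) (U V : Submodule ℂ (Fn D)) : Submodule ℂ (Fn D) :=
  Submodule.span ℂ {f | ∃ g ∈ U, ∃ h ∈ V, f = mulF D j k g h}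

/-- a family of divisors of type `d` converging to the fibre, with regular `WE 3` -/
structure Fam {X μ : Type} [TopologicalSpace X] (D j k : ℕ) (h : X → μ → ℂ) (x0 : X)
    (E : X → Dv D) (d : Fin D → ℕ) : Prop where
  typ : ∀ x, Typ (E x) d
  small : ∀ ε : ℝ, 0 < ε → ∀ᶠ x in 𝓝 x0, SmallD ε (E x)
  reg : RegFam h x0 fun x => WE D j k 3 (E x)

/-- colon: `{ψ ∈ W n : ψ Θ ⊆ L W n'}` where `L` is a line -/
def colon (D j k n n' : ℕ) (T L : Submodule ℂ (Fn D)) : Set (Fn D) :=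
  {ψ | ψ ∈ W D j k n ∧ ∀ ϑ ∈ T, ∀ φ ∈ L, φ ≠ 0 → ∃ χ ∈ W D j k n', mulF D j k ψ ϑ = mulF D j k φ χ}

/-- coordinates on `W 3` -/
def co {D : ℕ} (g : Fn D) (p : Fin D × Fin 4) : ℂ := (g p.1).coeff (p.2 : ℕ)

/-- the coordinates in `J` are coordinates on `U` -/
def Good {D : ℕ} (J : Finset (Fin D × Fin 4)) (U : Submodule ℂ (Fn D)) : Prop :=
  ∀ c : J → ℂ, ∃! g : Fn D, g ∈ U ∧ ∀ a : J, co g a = c a

open Classical in
/-- the normalised basis of `U` -/
def nb {D : ℕ} (J : Finset (Fin D × Fin 4)) (U : Submodule ℂ (Fn D)) (a : J) : Fn D :=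
  Classical.epsilon fun g => g ∈ U ∧ ∀ b : J, co g b = if b = a then 1 else 0

/-- the normal coordinates of `U` -/
def nc {D : ℕ} (J : Finset (Fin D × Fin 4)) (U : Submodule ℂ (Fn D)) (q : J × (Fin D × Fin 4)) :
    ℂ := co (nb J U q.1) q.2

/-- the functions `x_i`, `y_i` of `n` points on the sheets `0 .. n-1` -/
def gens (D j k n : ℕ) (ξ : Fin n → ℂ) : Fin n ⊕ Fin n → ℂ :=
  Sum.elim (fun i => 1 / 2 + ξ i) (fun i => ze D ^ (i : ℕ) * ybr D j k (ξ i))

/-- the integrals of `n` points -/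
def zp {T : Type} (D j k n : ℕ) (τ : T → Fin D) (ξ : Fin n → ℂ) (t : T) : ℂ :=
  ∑ i : Fin n, ze D ^ ((τ t : ℕ) * (i : ℕ)) * aint D j k (τ t) (ξ i)

/-- local inverse of the Abel-Jacobi map of `g` points -/
structure ChartOK (D j k : ℕ) (Ξ : (PJ D j k → ℂ) → (Fin (genus D j k) → ℂ)) : Prop where
  ana : AnalyticAt ℂ Ξ 0
  zero : Ξ 0 = 0
  right : ∀ᶠ z in 𝓝 (0 : PJ D j k → ℂ), zp D j k (genus D j k) Subtype.val (Ξ z) = z
  left : ∀ᶠ ξ in 𝓝 (0 : Fin (genus D j k) → ℂ),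
    Ξ (zp D j k (genus D j k) Subtype.val ξ) = ξ

/-- the family `WE 3` of the divisor class with coordinates `z` -/
def UU (D j k : ℕ) (Ξ : (PJ D j k → ℂ) → (Fin (genus D j k) → ℂ)) (z : PJ D j k → ℂ) :
    Submodule ℂ (Fn D) := WE D j k 3 (PD (Ξ z))

end

end Pool.Agent.WW
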