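import Mathlib

set_option autoImplicit false

namespace Pool.Agent.WW

open Metric

private theorem prod_near (η : ℝ) (hη : η ≤ 1 / 16) (hη0 : 0 ≤ η) (s : ℂ) (hs : ‖s‖ ≤ 1 / 4)
    (E : Multiset ℂ) (hE : ∀ α ∈ E, ‖α‖ < η) :
    ‖(E.map fun α => s - α).prod - s ^ E.card‖ ≤ E.card * η := by
  induction E using Multiset.induction_on with
  | empty => simp
  | cons a E ih =>
    have h1 := ih (fun α hα => hE α (Multiset.mem_cons_of_mem hα))
    have ha := hE a (Multiset.mem_cons_self a E)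
    rw [Multiset.map_cons, Multiset.prod_cons, Multiset.card_cons]
    have e1 : (s - a) * (E.map fun α => s - α).prod - s ^ (E.card + 1) =
        (s - a) * ((E.map fun α => s - α).prod - s ^ E.card) - a * s ^ E.card := by ring
    rw [e1]
    have h2 : ‖s - a‖ ≤ 1 := (norm_sub_le s a).trans (by linarith)
    have h3 : ‖s ^ E.card‖ ≤ 1 := by
      rw [norm_pow]
      exact pow_le_one₀ (norm_nonneg s) (by linarith)
    calc ‖(s - a) * ((E.map fun α => s - α).prod - s ^ E.card) - a * s ^ E.card‖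
        ≤ ‖(s - a) * ((E.map fun α => s - α).prod - s ^ E.card)‖ + ‖a * s ^ E.card‖ :=
          norm_sub_le _ _
      _ = ‖s - a‖ * ‖(E.map fun α => s - α).prod - s ^ E.card‖ + ‖a‖ * ‖s ^ E.card‖ := by
          rw [norm_mul, norm_mul]
      _ ≤ 1 * (E.card * η) + η * 1 := by
          refine add_le_add (mul_le_mul h2 h1 (norm_nonneg _) zero_le_one)
            (mul_le_mul ha.le h3 (norm_nonneg _) hη0)
      _ = ((E.card + 1 : ℕ) : ℝ) * η := by push_cast; ring

private theorem prod_lower (η : ℝ) (hη : η ≤ 1 / 16) (s : ℂ) (hs : 1 / 8 ≤ ‖s‖)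
    (E : Multiset ℂ) (hE : ∀ α ∈ E, ‖α‖ < η) :
    (1 / 16 : ℝ) ^ E.card ≤ ‖(E.map fun α => s - α).prod‖ := by
  induction E using Multiset.induction_on with
  | empty => simp
  | cons a E ih =>
    have h1 := ih (fun α hα => hE α (Multiset.mem_cons_of_mem hα))
    have ha := hE a (Multiset.mem_cons_self a E)
    rw [Multiset.map_cons, Multiset.prod_cons, Multiset.card_cons, norm_mul, pow_succ, mul_comm]
    have h2 : 1 / 16 ≤ ‖s - a‖ := by
      have := norm_sub_norm_le s a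
      linarith
    exact mul_le_mul h2 h1 (by positivity) (norm_nonneg _)

private theorem max_ball (g : ℂ → ℂ) (hg : DifferentiableOn ℂ g (ball 0 (1 / 4))) (r C : ℝ)
    (hr0 : 0 < r) (hr : r < 1 / 4) (hC : ∀ z : ℂ, ‖z‖ = r → ‖g z‖ ≤ C) (z : ℂ) (hz : ‖z‖ ≤ r) :
    ‖g z‖ ≤ C := by
  have h1 : closure (ball (0 : ℂ) r) = closedBall 0 r := closure_ball 0 hr0.ne'
  refine Complex.norm_le_of_forall_mem_frontier_norm_le (U := ball (0 : ℂ) r) isBounded_ball
    ?_ ?_ ?_
  · apply DifferentiableOn.diffContOnCl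
    rw [h1]
    exact hg.mono (closedBall_subset_ball hr)
  · intro w hw
    rw [frontier_ball 0 hr0.ne', mem_sphere_zero_iff_norm] at hw
    exact hC w hw
  · rw [h1, mem_closedBall_zero_iff]
    exact hz

/-- (JE2) division by a divisor close to the origin keeps functions close to powers close to powers -/
theorem div_near (d d' : ℕ) (ε : ℝ) (hε : 0 < ε) :
    ∃ η : ℝ, 0 < η ∧ ∀ (f χ : ℂ → ℂ) (E : Multiset ℂ), DifferentiableOn ℂ χ (ball 0 (1 / 4)) →
      (∀ s ∈ ball (0 : ℂ) (1 / 4), ‖f s - s ^ (d + d')‖ ≤ η) → E.card = d → (∀ α ∈ E, ‖α‖ < η) →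
      (∀ s ∈ ball (0 : ℂ) (1 / 4), f s = (E.map fun α => s - α).prod * χ s) →
      ∀ s ∈ ball (0 : ℂ) (1 / 4), ‖χ s - s ^ d'‖ ≤ ε := by
  obtain ⟨η, hη⟩ : ∃ η : ℝ, η = min (1 / 16) (ε / ((d + 1) * 16 ^ d)) := ⟨_, rfl⟩
  have hη0 : 0 < η := by
    rw [hη]
    exact lt_min (by norm_num) (by positivity)
  have hη1 : η ≤ 1 / 16 := by rw [hη]; exact min_le_left _ _
  have hη2 : η * ((d + 1) * 16 ^ d) ≤ ε := by
    have h1 : η ≤ ε / ((d + 1) * 16 ^ d) := by rw [hη]; exact min_le_right _ _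
    rwa [le_div_iff₀ (by positivity)] at h1
  refine ⟨η, hη0, fun f χ E hχ hf hEd hE hfE => ?_⟩
  have key : ∀ s ∈ ball (0 : ℂ) (1 / 4), 1 / 8 ≤ ‖s‖ → ‖χ s - s ^ d'‖ ≤ ε := by
    intro s hs hs8
    have hs4 : ‖s‖ ≤ 1 / 4 := by
      rw [mem_ball_zero_iff] at hs
      exact hs.le
    have h1 := prod_near η hη1 hη0.le s hs4 E hE
    have h2 := prod_lower η hη1 s hs8 E hE
    rw [hEd] at h1 h2
    have h3 := hf s hs
    rw [hfE s hs] at h3
    have h4 : ‖s ^ d'‖ ≤ 1 := by
      rw [norm_pow]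
      exact pow_le_one₀ (norm_nonneg s) (by linarith)
    have h5 : (E.map fun α => s - α).prod * (χ s - s ^ d') =
        ((E.map fun α => s - α).prod * χ s - s ^ (d + d')) -
          ((E.map fun α => s - α).prod - s ^ d) * s ^ d' := by
      rw [pow_add]
      ring
    have h6 : ‖(E.map fun α => s - α).prod * (χ s - s ^ d')‖ ≤ η + d * η * 1 := by
      rw [h5]
      refine (norm_sub_le _ _).trans (add_le_add h3 ?_)
      rw [norm_mul]
      exact mul_le_mul h1 h4 (norm_nonneg _) (by positivity)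
    rw [norm_mul] at h6
    have h7 : (1 / 16 : ℝ) ^ d * ‖χ s - s ^ d'‖ ≤ η + d * η * 1 :=
      (mul_le_mul_of_nonneg_right h2 (norm_nonneg _)).trans h6
    have h8 : (16 : ℝ) ^ d * ((1 / 16 : ℝ) ^ d * ‖χ s - s ^ d'‖) ≤ 16 ^ d * (η + d * η * 1) :=
      mul_le_mul_of_nonneg_left h7 (by positivity)
    have h9 : (16 : ℝ) ^ d * ((1 / 16 : ℝ) ^ d * ‖χ s - s ^ d'‖) = ‖χ s - s ^ d'‖ := by
      rw [← mul_assoc, ← mul_pow]
      norm_num
    rw [h9] at h8
    calc ‖χ s - s ^ d'‖ ≤ 16 ^ d * (η + d * η * 1) := h8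
      _ = η * ((d + 1) * 16 ^ d) := by ring
      _ ≤ ε := hη2
  intro s hs
  rcases le_or_gt (1 / 8) ‖s‖ with h | h
  · exact key s hs h
  · refine max_ball (fun s => χ s - s ^ d') (hχ.sub (differentiableOn_id.pow d')) (1 / 8) ε
      (by norm_num) (by norm_num) (fun z hz => ?_) s h.le
    refine key z ?_ hz.ge
    rw [mem_ball_zero_iff, hz]
    norm_num

/-- (JE) zeros of a function close to `s^d` -/
theorem zeros_near (d : ℕ) (ε : ℝ) (hε : 0 < ε) :
    ∃ η : ℝ, 0 < η ∧ ∀ f : ℂ → ℂ, DifferentiableOn ℂ f (ball 0 (1 / 4)) →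
      (∀ s ∈ ball (0 : ℂ) (1 / 4), ‖f s - s ^ d‖ ≤ η) →
      ∃ (e : Multiset ℂ) (v : ℂ → ℂ), e.card = d ∧ (∀ α ∈ e, ‖α‖ < ε) ∧
        DifferentiableOn ℂ v (ball 0 (1 / 4)) ∧ (∀ s ∈ ball (0 : ℂ) (1 / 8), v s ≠ 0) ∧
        ∀ s ∈ ball (0 : ℂ) (1 / 4), f s = (e.map fun α => s - α).prod * v s := by
  induction d with
  | zero =>
    refine ⟨1 / 2, by norm_num, fun f hf hs => ⟨0, f, by simp, by simp, hf, fun s hs' => ?_,
      fun s _ => by simp⟩⟩
    intro h0
    have h1 := hs s (ball_subset_ball (by norm_num) hs')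
    rw [h0, pow_zero] at h1
    norm_num at h1
  | succ d ih =>
    obtain ⟨η₁, hη₁, ih⟩ := ih
    obtain ⟨η₂, hη₂, hdiv⟩ := div_near 1 d η₁ hη₁
    obtain ⟨r, hr⟩ : ∃ r : ℝ, r = min (min ε η₂) (1 / 4) / 2 := ⟨_, rfl⟩
    have hr0 : 0 < r := by rw [hr]; positivity
    have hr1 : r < ε := by
      have h1 : min (min ε η₂) (1 / 4) ≤ ε := (min_le_left _ _).trans (min_le_left _ _)
      linarith
    have hr2 : r < η₂ := by
      have h1 : min (min ε η₂) (1 / 4) ≤ η₂ := (min_le_left _ _).trans (min_le_right _ _)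
      linarith
    have hr3 : r < 1 / 4 := by
      have h1 : min (min ε η₂) (1 / 4) ≤ 1 / 4 := min_le_right _ _
      linarith
    refine ⟨min η₂ (r ^ (d + 1) / 3), lt_min hη₂ (by positivity), fun f hf hs => ?_⟩
    have hs1 : ∀ s ∈ ball (0 : ℂ) (1 / 4), ‖f s - s ^ (d + 1)‖ ≤ η₂ := fun s h =>
      (hs s h).trans (min_le_left _ _)
    have hs2 : ∀ s ∈ ball (0 : ℂ) (1 / 4), ‖f s - s ^ (d + 1)‖ ≤ r ^ (d + 1) / 3 := fun s h =>
      (hs s h).trans (min_le_right _ _)
    -- a zero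
    obtain ⟨α, hα, hfα⟩ : ∃ α : ℂ, ‖α‖ ≤ r ∧ f α = 0 := by
      by_contra hcon
      push Not at hcon
      have h1 : closure (ball (0 : ℂ) r) = closedBall 0 r := closure_ball 0 hr0.ne'
      have h2 : ‖(f 0)⁻¹‖ ≤ (2 * r ^ (d + 1) / 3)⁻¹ := by
        refine Complex.norm_le_of_forall_mem_frontier_norm_le (U := ball (0 : ℂ) r)
          (f := fun s => (f s)⁻¹) isBounded_ball ?_ ?_ ?_
        · apply DifferentiableOn.diffContOnCl
          rw [h1]
          refine (hf.mono (closedBall_subset_ball hr3)).inv fun x hx => ?_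
          rw [mem_closedBall_zero_iff] at hx
          exact hcon x hx
        · intro w hw
          rw [frontier_ball 0 hr0.ne', mem_sphere_zero_iff_norm] at hw
          rw [norm_inv]
          have h3 := hs2 w (by rw [mem_ball_zero_iff, hw]; exact hr3)
          have h4 : ‖w ^ (d + 1)‖ = r ^ (d + 1) := by rw [norm_pow, hw]
          have h5 : ‖w ^ (d + 1)‖ - ‖f w‖ ≤ ‖f w - w ^ (d + 1)‖ := by
            rw [norm_sub_rev]
            exact norm_sub_norm_le _ _
          apply inv_anti₀ (by positivity)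
          linarith
        · rw [h1]
          exact mem_closedBall_self hr0.le
      have h3 := hs2 0 (mem_ball_self (by norm_num))
      rw [zero_pow (by omega), sub_zero] at h3
      have h4 : f 0 ≠ 0 := hcon 0 (by rw [norm_zero]; exact hr0.le)
      have h5 : 0 < ‖f 0‖ := norm_pos_iff.2 h4
      rw [norm_inv, inv_le_inv₀ h5 (by positivity)] at h2
      have h6 : 0 < r ^ (d + 1) := by positivity
      linarith
    have hαb : α ∈ ball (0 : ℂ) (1 / 4) := by
      rw [mem_ball_zero_iff]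
      exact lt_of_le_of_lt hα hr3
    have hfs : ∀ s, f s = (s - α) * dslope f α s := by
      intro s
      have h1 := sub_smul_dslope f α s
      rw [smul_eq_mul, hfα, sub_zero] at h1
      exact h1.symm
    have hd1 : DifferentiableOn ℂ (dslope f α) (ball 0 (1 / 4)) :=
      (Complex.differentiableOn_dslope (isOpen_ball.mem_nhds hαb)).2 hf
    have hclose : ∀ s ∈ ball (0 : ℂ) (1 / 4), ‖dslope f α s - s ^ d‖ ≤ η₁ := by
      refine hdiv f (dslope f α) {α} hd1 ?_ (by simp) ?_ ?_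
      · intro s h
        rw [add_comm 1 d]
        exact hs1 s h
      · intro β hβ
        rw [Multiset.mem_singleton] at hβ
        rw [hβ]
        exact lt_of_le_of_lt hα hr2
      · intro s _
        rw [Multiset.map_singleton, Multiset.prod_singleton]
        exact hfs s
    obtain ⟨e, v, he1, he2, he3, he4, he5⟩ := ih (dslope f α) hd1 hclose
    refine ⟨α ::ₘ e, v, by rw [Multiset.card_cons, he1], ?_, he3, he4, ?_⟩
    · intro β hβ
      rw [Multiset.mem_cons] at hβ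
      rcases hβ with rfl | hβ
      · exact lt_of_le_of_lt hα hr1
      · exact he2 β hβ
    · intro s hs'
      rw [hfs s, he5 s hs', Multiset.map_cons, Multiset.prod_cons, mul_assoc]

end Pool.Agent.WW
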