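import Mathlib

set_option autoImplicit false

namespace Pool.Agent.WW

/-- (JF2) the integral of `κ / N` around all zeros of `N` vanishes if the degree of the
denominator is large -/
theorem contour_zero (n : ℕ) (ρ : ℝ) (hρ : 0 < ρ) :
    ∃ ε : ℝ, 0 < ε ∧ ∀ N κ : Polynomial ℂ, N.natDegree ≤ n →
      (∀ l, ‖(N - Polynomial.X ^ n).coeff l‖ < ε) → κ.natDegree + 2 ≤ n →
      (∀ s : ℂ, ρ ≤ ‖s‖ → N.eval s ≠ 0) ∧ (∮ s in C(0, ρ), κ.eval s / N.eval s) = 0 := by
  set B : ℝ := max 1 ρ⁻¹ with hB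
  have hB1 : 1 ≤ B := le_max_left _ _
  have hB2 : 1 ≤ B * ρ := by
    calc (1 : ℝ) = ρ⁻¹ * ρ := by field_simp
      _ ≤ B * ρ := mul_le_mul_of_nonneg_right (le_max_right _ _) hρ.le
  have hBn : 0 < B ^ n := pow_pos (lt_of_lt_of_le one_pos hB1) n
  refine ⟨1 / (2 * (n + 1) * B ^ n), by positivity, ?_⟩
  intro N κ hN hε hκ
  -- the lower bound for `N`
  have hlow : ∀ s : ℂ, ρ ≤ ‖s‖ → ‖s‖ ^ n / 2 ≤ ‖N.eval s‖ := by
    intro s hs
    have hspos : 0 < ‖s‖ := lt_of_lt_of_le hρ hs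
    have hdeg : (N - Polynomial.X ^ n).natDegree < n + 1 := by
      refine Nat.lt_succ_of_le ((Polynomial.natDegree_sub_le _ _).trans (max_le hN ?_))
      simp
    have h1 : ‖(N - Polynomial.X ^ n).eval s‖ ≤ ∑ i ∈ Finset.range (n + 1), 1 / (2 * (n + 1) * B ^ n) * (B ^ n * ‖s‖ ^ n) := by
      rw [Polynomial.eval_eq_sum_range' hdeg]
      refine (norm_sum_le _ _).trans (Finset.sum_le_sum fun i hi => ?_)
      rw [norm_mul, norm_pow]
      refine mul_le_mul (hε i).le ?_ (by positivity) (by positivity)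
      have hi' : i ≤ n := Nat.lt_succ_iff.1 (Finset.mem_range.1 hi)
      have hBs : 1 ≤ B * ‖s‖ := hB2.trans (mul_le_mul_of_nonneg_left hs (by positivity))
      calc ‖s‖ ^ i ≤ B ^ i * ‖s‖ ^ i := le_mul_of_one_le_left (by positivity) (one_le_pow₀ hB1)
        _ = (B * ‖s‖) ^ i := by rw [mul_pow]
        _ ≤ (B * ‖s‖) ^ n := pow_le_pow_right₀ hBs hi'
        _ = B ^ n * ‖s‖ ^ n := by rw [mul_pow]
    have h2 : ∑ i ∈ Finset.range (n + 1), 1 / (2 * (n + 1) * B ^ n) * (B ^ n * ‖s‖ ^ n) = ‖s‖ ^ n / 2 := by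
      rw [Finset.sum_const, Finset.card_range, nsmul_eq_mul]
      push_cast
      field_simp
    rw [h2] at h1
    have h3 : s ^ n = N.eval s - (N - Polynomial.X ^ n).eval s := by
      simp
    have h4 : ‖s‖ ^ n ≤ ‖N.eval s‖ + ‖(N - Polynomial.X ^ n).eval s‖ := by
      have h5 := norm_sub_le (N.eval s) ((N - Polynomial.X ^ n).eval s)
      rw [← h3, norm_pow] at h5
      exact h5
    linarith
  have hne : ∀ s : ℂ, ρ ≤ ‖s‖ → N.eval s ≠ 0 := by
    intro s hs h0
    have h := hlow s hs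
    rw [h0, norm_zero] at h
    have : 0 < ‖s‖ ^ n := pow_pos (lt_of_lt_of_le hρ hs) n
    linarith
  refine ⟨hne, ?_⟩
  -- independence of the radius
  have hR : ∀ R : ℝ, ρ ≤ R → (∮ s in C(0, R), κ.eval s / N.eval s) = ∮ s in C(0, ρ), κ.eval s / N.eval s := by
    intro R hR
    refine Complex.circleIntegral_eq_of_differentiable_on_annulus_off_countable hρ hR Set.countable_empty ?_ ?_
    · refine ContinuousOn.div κ.continuous.continuousOn N.continuous.continuousOn ?_
      intro z hz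
      apply hne
      have := hz.2
      simpa [dist_zero_right] using this
    · intro z hz
      refine DifferentiableAt.div κ.differentiableAt N.differentiableAt (hne z ?_)
      have := hz.1.2
      simp only [Metric.mem_closedBall, dist_zero_right, not_le] at this
      exact this.le
  -- the upper bound for `κ`
  set K : ℝ := ∑ i ∈ Finset.range (κ.natDegree + 1), ‖κ.coeff i‖ with hK
  have hK0 : 0 ≤ K := Finset.sum_nonneg fun _ _ => norm_nonneg _
  have hup : ∀ s : ℂ, 1 ≤ ‖s‖ → ‖κ.eval s‖ ≤ K * ‖s‖ ^ (n - 2) := by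
    intro s hs
    rw [Polynomial.eval_eq_sum_range, hK, Finset.sum_mul]
    refine (norm_sum_le _ _).trans (Finset.sum_le_sum fun i hi => ?_)
    rw [norm_mul, norm_pow]
    refine mul_le_mul_of_nonneg_left ?_ (norm_nonneg _)
    have hi' : i ≤ κ.natDegree := Nat.lt_succ_iff.1 (Finset.mem_range.1 hi)
    exact pow_le_pow_right₀ hs (by omega)
  have hbd : ∀ R : ℝ, max 1 ρ ≤ R → ‖∮ s in C(0, ρ), κ.eval s / N.eval s‖ ≤ 4 * Real.pi * K / R := by
    intro R hRR
    have hR1 : 1 ≤ R := (le_max_left _ _).trans hRR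
    have hRρ : ρ ≤ R := (le_max_right _ _).trans hRR
    have hRpos : 0 < R := lt_of_lt_of_le one_pos hR1
    rw [← hR R hRρ]
    have h1 : ∀ z ∈ Metric.sphere (0 : ℂ) R, ‖κ.eval z / N.eval z‖ ≤ 2 * K / R ^ 2 := by
      intro z hz
      have hz' : ‖z‖ = R := by simpa using hz
      rw [norm_div]
      have ha := hup z (by rw [hz']; exact hR1)
      have hb := hlow z (by rw [hz']; exact hRρ)
      rw [hz'] at ha hb
      have hpos : 0 < R ^ n / 2 := by positivity
      have hpow : R ^ n = R ^ (n - 2) * R ^ 2 := by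
        rw [← pow_add]; congr 1; omega
      calc ‖κ.eval z‖ / ‖N.eval z‖ ≤ (K * R ^ (n - 2)) / (R ^ n / 2) := by
            exact div_le_div₀ (by positivity) ha hpos hb
        _ = 2 * K / R ^ 2 := by
            rw [hpow]
            field_simp
    refine (circleIntegral.norm_integral_le_of_norm_le_const hRpos.le h1).trans (le_of_eq ?_)
    field_simp
    ring
  by_contra hcon
  have hpos : 0 < ‖∮ s in C(0, ρ), κ.eval s / N.eval s‖ := norm_pos_iff.2 hcon
  set I : ℝ := ‖∮ s in C(0, ρ), κ.eval s / N.eval s‖ with hI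
  have h1 := hbd (max (max 1 ρ) (4 * Real.pi * K / I + 1)) (le_max_left _ _)
  set R : ℝ := max (max 1 ρ) (4 * Real.pi * K / I + 1) with hRdef
  have hRpos : 0 < R := lt_of_lt_of_le one_pos ((le_max_left 1 ρ).trans (le_max_left _ _))
  have h2 : 4 * Real.pi * K / I + 1 ≤ R := le_max_right _ _
  rw [le_div_iff₀ hRpos] at h1
  have h3 : I * (4 * Real.pi * K / I + 1) ≤ I * R := mul_le_mul_of_nonneg_left h2 hpos.le
  have h4 : I * (4 * Real.pi * K / I + 1) = 4 * Real.pi * K + I := by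
    field_simp
  linarith

end Pool.Agent.WW
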