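import Pool.Agent.WW.JF1
import Pool.Agent.WW.JF2

set_option autoImplicit false

namespace Pool.Agent.WW

open Metric Filter Topology

variable {D j k : ℕ}

/-! ### one sheet -/

theorem hasDerivAt_prodE (E : Multiset ℂ) {s : ℂ} (hs : ∀ α ∈ E, s ≠ α) :
    HasDerivAt (fun z : ℂ => (E.map fun α => z - α).prod)
      ((E.map fun α => s - α).prod * (E.map fun α => (s - α)⁻¹).sum) s := by
  induction E using Multiset.induction_on with
  | empty => simpa using hasDerivAt_const s (1 : ℂ)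
  | cons a E ih =>
    have h1 := ih (fun α hα => hs α (Multiset.mem_cons_of_mem hα))
    have h2 : s - a ≠ 0 := sub_ne_zero.2 (hs a (Multiset.mem_cons_self a E))
    have h3 := ((hasDerivAt_id s).sub_const a).mul h1
    simp only [Multiset.map_cons, Multiset.prod_cons, Multiset.sum_cons]
    refine h3.congr_deriv ?_
    simp only [id_eq]
    field_simp

theorem contOn_sumE {ρ : ℝ} (E : Multiset ℂ) (hE : ∀ α ∈ E, ‖α‖ < ρ) :
    ContinuousOn (fun s : ℂ => (E.map fun α => (s - α)⁻¹).sum) (sphere (0 : ℂ) ρ) := by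
  induction E using Multiset.induction_on with
  | empty => simpa using continuousOn_const
  | cons a E ih =>
    have h1 := ih (fun α hα => hE α (Multiset.mem_cons_of_mem hα))
    simp only [Multiset.map_cons, Multiset.sum_cons]
    refine ContinuousOn.add ?_ h1
    refine ContinuousOn.inv₀ (continuousOn_id.sub continuousOn_const) ?_
    intro s hs h
    have h2 : s = a := sub_eq_zero.1 h
    have h3 := hE a (Multiset.mem_cons_self a E)
    rw [← h2] at h3
    rw [mem_sphere_zero_iff_norm] at hs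
    linarith

theorem cauchy_sumE {ρ : ℝ} (hρ : 0 < ρ) {A : ℂ → ℂ} (hA : DifferentiableOn ℂ A (closedBall 0 ρ))
    (E : Multiset ℂ) (hE : ∀ α ∈ E, ‖α‖ < ρ) :
    (∮ s in C(0, ρ), A s * (E.map fun α => (s - α)⁻¹).sum) = 2 * Real.pi * Complex.I * (E.map A).sum := by
  have hAc : ContinuousOn A (sphere 0 ρ) := hA.continuousOn.mono sphere_subset_closedBall
  induction E using Multiset.induction_on with
  | empty => simp [circleIntegral]
  | cons a E ih =>
    have hE' : ∀ α ∈ E, ‖α‖ < ρ := fun α hα => hE α (Multiset.mem_cons_of_mem hα)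
    have h1 := ih hE'
    have ha := hE a (Multiset.mem_cons_self a E)
    simp only [Multiset.map_cons, Multiset.sum_cons, mul_add]
    have hc1 : ContinuousOn (fun s : ℂ => A s * (s - a)⁻¹) (sphere 0 ρ) := by
      have := contOn_sumE ({a} : Multiset ℂ) (ρ := ρ) (by simpa using ha)
      simp only [Multiset.map_singleton, Multiset.sum_singleton] at this
      exact hAc.mul this
    have hc2 : ContinuousOn (fun s : ℂ => A s * (E.map fun α => (s - α)⁻¹).sum) (sphere 0 ρ) :=
      hAc.mul (contOn_sumE E hE')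
    rw [circleIntegral.integral_add (hc1.circleIntegrable hρ.le) (hc2.circleIntegrable hρ.le), h1]
    congr 1
    have h2 := hA.circleIntegral_sub_inv_smul (w := a) (by simpa [mem_ball_zero_iff] using ha)
    simp only [smul_eq_mul] at h2
    rw [← h2]
    congr 1
    funext s
    ring

theorem abel_sheet {A w F v : ℂ → ℂ} {E : Multiset ℂ} {d : ℕ}
    (hA : ∀ s : ℂ, ‖s‖ < 1 / 2 → HasDerivAt A (w s) s) (hA0 : A 0 = 0)
    (hw : ContinuousOn w (sphere 0 (3 / 32)))
    (hv : DifferentiableOn ℂ v (ball 0 (1 / 4))) (hv0 : ∀ s ∈ ball (0 : ℂ) (1 / 8), v s ≠ 0)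
    (hE : ∀ α ∈ E, ‖α‖ < 1 / 16)
    (hF : ∀ s ∈ ball (0 : ℂ) (1 / 4), F s = (E.map fun α => s - α).prod * v s)
    (hu : ∀ s ∈ sphere (0 : ℂ) (3 / 32), ‖F s / s ^ d - 1‖ < 1) :
    2 * Real.pi * Complex.I * (E.map A).sum =
      - ∮ s in C(0, 3 / 32), w s * Complex.log (F s / s ^ d) := by
  have hρ : (0 : ℝ) < 3 / 32 := by norm_num
  have hE' : ∀ α ∈ E, ‖α‖ < 3 / 32 := fun α hα => lt_trans (hE α hα) (by norm_num)
  have hnorm : ∀ s ∈ sphere (0 : ℂ) (3 / 32), ‖s‖ = 3 / 32 := fun s hs => by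
    simpa using hs
  have hne : ∀ s ∈ sphere (0 : ℂ) (3 / 32), s ≠ 0 := fun s hs h => by
    have := hnorm s hs; rw [h, norm_zero] at this; norm_num at this
  have hneα : ∀ s ∈ sphere (0 : ℂ) (3 / 32), ∀ α ∈ E, s ≠ α := fun s hs α hα h => by
    have h1 := hnorm s hs
    have h2 := hE' α hα
    rw [← h] at h2
    linarith
  have hb4 : ∀ s ∈ sphere (0 : ℂ) (3 / 32), s ∈ ball (0 : ℂ) (1 / 4) := fun s hs => by
    rw [mem_ball_zero_iff, hnorm s hs]; norm_num
  have hb8 : ∀ s ∈ sphere (0 : ℂ) (3 / 32), s ∈ ball (0 : ℂ) (1 / 8) := fun s hs => by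
    rw [mem_ball_zero_iff, hnorm s hs]; norm_num
  have hsl : ∀ s ∈ sphere (0 : ℂ) (3 / 32), F s / s ^ d ∈ Complex.slitPlane := fun s hs => by
    have := Complex.mem_slitPlane_of_norm_lt_one (hu s hs)
    simpa using this
  -- derivatives on the circle
  have hFd : ∀ s ∈ sphere (0 : ℂ) (3 / 32),
      HasDerivAt F (F s * ((E.map fun α => (s - α)⁻¹).sum + deriv v s / v s)) s := fun s hs => by
    have h1 := hasDerivAt_prodE E (hneα s hs)
    have h2 : HasDerivAt v (deriv v s) s := (hv.differentiableAt (isOpen_ball.mem_nhds (hb4 s hs))).hasDerivAt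
    have h3 := h1.mul h2
    have h4 : F =ᶠ[𝓝 s] fun z => (E.map fun α => z - α).prod * v z := by
      filter_upwards [isOpen_ball.mem_nhds (hb4 s hs)] with z hz using hF z hz
    refine (h3.congr_of_eventuallyEq h4).congr_deriv ?_
    have h5 := hv0 s (hb8 s hs)
    rw [hF s (hb4 s hs)]
    field_simp
  have hhd : ∀ s ∈ sphere (0 : ℂ) (3 / 32), HasDerivAt (fun s => Complex.log (F s / s ^ d))
      ((E.map fun α => (s - α)⁻¹).sum + deriv v s / v s - d * s⁻¹) s := fun s hs => by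
    have hs0 := hne s hs
    have hsd : s ^ d ≠ 0 := pow_ne_zero _ hs0
    have hF0 : F s ≠ 0 := fun h => by
      have := Complex.slitPlane_ne_zero (hsl s hs)
      rw [h, zero_div] at this
      exact this rfl
    have h1 := ((hFd s hs).div (hasDerivAt_pow d s) hsd).clog (hsl s hs)
    refine HasDerivAt.congr_deriv (f := fun s => Complex.log (F s / s ^ d)) h1 ?_
    simp only [Pi.div_apply]
    rcases Nat.eq_zero_or_pos d with h | h
    · subst h
      simp only [pow_zero, Nat.cast_zero, zero_mul, mul_zero, sub_zero, mul_one, one_pow, div_one]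
      field_simp
    · obtain ⟨d', rfl⟩ : ∃ d', d = d' + 1 := ⟨d - 1, by omega⟩
      simp only [Nat.add_sub_cancel, pow_succ]
      have hs' : s ^ d' ≠ 0 := pow_ne_zero _ hs0
      field_simp
  have hAd : ∀ s ∈ sphere (0 : ℂ) (3 / 32), HasDerivAt A (w s) s := fun s hs =>
    hA s (by rw [hnorm s hs]; norm_num)
  have hAD : DifferentiableOn ℂ A (closedBall 0 (3 / 32)) := fun s hs => by
    have : ‖s‖ ≤ 3 / 32 := by simpa using hs
    exact (hA s (by linarith)).differentiableAt.differentiableWithinAt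
  -- continuity on the circle
  have cA : ContinuousOn A (sphere 0 (3 / 32)) := fun s hs => (hAd s hs).continuousAt.continuousWithinAt
  have ch : ContinuousOn (fun s => Complex.log (F s / s ^ d)) (sphere 0 (3 / 32)) := fun s hs =>
    (hhd s hs).continuousAt.continuousWithinAt
  have cL := contOn_sumE (ρ := 3 / 32) E hE'
  have hvq : DifferentiableOn ℂ (fun s => deriv v s / v s) (ball 0 (1 / 8)) := by
    refine DifferentiableOn.div ?_ ?_ hv0
    · exact (hv.deriv isOpen_ball).mono (ball_subset_ball (by norm_num))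
    · exact hv.mono (ball_subset_ball (by norm_num))
  have hcb : closedBall (0 : ℂ) (3 / 32) ⊆ ball 0 (1 / 8) := closedBall_subset_ball (by norm_num)
  have cv : ContinuousOn (fun s => deriv v s / v s) (sphere 0 (3 / 32)) :=
    (hvq.continuousOn.mono hcb).mono sphere_subset_closedBall
  have ci : ContinuousOn (fun s : ℂ => (d : ℂ) * s⁻¹) (sphere 0 (3 / 32)) :=
    continuousOn_const.mul (continuousOn_id.inv₀ hne)
  -- integration by parts
  have h0 : (∮ s in C(0, 3 / 32), (w s * Complex.log (F s / s ^ d) +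
      A s * ((E.map fun α => (s - α)⁻¹).sum + deriv v s / v s - d * s⁻¹))) = 0 := by
    refine circleIntegral.integral_eq_zero_of_hasDerivWithinAt hρ.le
      (f := fun s => A s * Complex.log (F s / s ^ d)) ?_
    intro s hs
    exact ((hAd s hs).mul (hhd s hs)).hasDerivWithinAt
  have e1 : (∮ s in C(0, 3 / 32), (w s * Complex.log (F s / s ^ d) +
      A s * ((E.map fun α => (s - α)⁻¹).sum + deriv v s / v s - d * s⁻¹))) =
      (∮ s in C(0, 3 / 32), w s * Complex.log (F s / s ^ d)) +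
      ((∮ s in C(0, 3 / 32), A s * (E.map fun α => (s - α)⁻¹).sum) +
        (∮ s in C(0, 3 / 32), A s * (deriv v s / v s)) -
        ∮ s in C(0, 3 / 32), A s * (d * s⁻¹)) := by
    have c1 : CircleIntegrable (fun s => A s * (E.map fun α => (s - α)⁻¹).sum) 0 (3 / 32) :=
      (cA.mul cL).circleIntegrable hρ.le
    have c2 : CircleIntegrable (fun s => A s * (deriv v s / v s)) 0 (3 / 32) :=
      (cA.mul cv).circleIntegrable hρ.le
    have c3 : CircleIntegrable (fun s => A s * (d * s⁻¹)) 0 (3 / 32) :=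
      (cA.mul ci).circleIntegrable hρ.le
    have c4 : CircleIntegrable (fun s => w s * Complex.log (F s / s ^ d)) 0 (3 / 32) :=
      (hw.mul ch).circleIntegrable hρ.le
    have c12 : CircleIntegrable (fun s => A s * (E.map fun α => (s - α)⁻¹).sum +
        A s * (deriv v s / v s)) 0 (3 / 32) := c1.add c2
    have c123 : CircleIntegrable (fun s => A s * (E.map fun α => (s - α)⁻¹).sum +
        A s * (deriv v s / v s) - A s * (d * s⁻¹)) 0 (3 / 32) := c12.sub c3
    rw [← circleIntegral.integral_add c1 c2, ← circleIntegral.integral_sub c12 c3,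
      ← circleIntegral.integral_add c4 c123]
    congr 1
    funext s
    ring
  have e2 : (∮ s in C(0, 3 / 32), A s * (deriv v s / v s)) = 0 := by
    refine DiffContOnCl.circleIntegral_eq_zero hρ.le ?_
    refine DifferentiableOn.diffContOnCl ?_
    refine DifferentiableOn.mono ?_ closure_ball_subset_closedBall
    exact hAD.mul (hvq.mono hcb)
  have e3 : (∮ s in C(0, 3 / 32), A s * (d * s⁻¹)) = 0 := by
    have h1 := hAD.circleIntegral_sub_inv_smul (w := 0) (by simp)
    simp only [smul_eq_mul, sub_zero, hA0, mul_zero] at h1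
    have h2 : (fun s : ℂ => A s * (d * s⁻¹)) = fun s => (d : ℂ) * (s⁻¹ * A s) := by
      funext s; ring
    rw [h2, circleIntegral.integral_const_mul, h1, mul_zero]
  rw [e1, e2, e3, cauchy_sumE hρ hAD E hE'] at h0
  linear_combination h0


/-! ### powers and traces -/

theorem exists_powF (hD : 0 < D) {d : ℕ} (ψ : Fn D) (hψ : ψ ∈ W D j k d) (m : ℕ) (hm : 1 ≤ m) :
    ∃ g ∈ W D j k (d * m), ∀ (i : ℕ) (s : ℂ), ‖s‖ < 1 / 2 →
      sh D j k g i s = sh D j k ψ i s ^ m := by
  induction m, hm using Nat.le_induction with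
  | base => exact ⟨ψ, by simpa using hψ, fun i s _ => by simp⟩
  | succ m hm ih =>
    obtain ⟨g, hg, h⟩ := ih
    refine ⟨mulF D j k g ψ, ?_, fun i s hs => ?_⟩
    · have := mulF_mem hD hg hψ
      rwa [show d * (m + 1) = d * m + d by ring]
    · rw [sh_mulF hD g ψ i hs, h i s hs, pow_succ]

theorem trace_pow (hD : 3 ≤ D) (hj : 0 < j) (hk : 0 < k) (hjk : j + k < D)
    (hg : Nat.gcd (Nat.gcd j k) D = 1) (d : ℕ) (hd : 1 ≤ d) (ψ : Fn D) (hψ : ψ ∈ W D j k d)
    (t : PJ D j k) (m : ℕ) (hm : 1 ≤ m) :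
    (∮ s in C(0, 3 / 32), ∑ i : Fin D, ze D ^ ((t.1 : ℕ) * (i : ℕ)) * wt D j k t.1 s *
      (sh D j k ψ i s / s ^ d) ^ m) = 0 := by
  have hD0 : 0 < D := by omega
  obtain ⟨g, hgW, hgs⟩ := exists_powF hD0 ψ hψ m hm
  obtain ⟨κ, hκ, hκ'⟩ := trace_poly hD hj hk hjk hg (d * m) (Nat.mul_pos (by omega) (by omega))
    (xp D (d * m)) g (xp_mem hD0 le_rfl) hgW t
  obtain ⟨ε, hε, hc⟩ := contour_zero (d * m * D) (3 / 32) (by norm_num)
  obtain ⟨-, h0⟩ := hc (Polynomial.X ^ (d * m * D)) κ (by rw [Polynomial.natDegree_X_pow])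
    (fun l => by simpa using hε) hκ
  refine Eq.trans ?_ h0
  refine circleIntegral.integral_congr (by norm_num) ?_
  intro s hs
  have hs' : ‖s‖ = 3 / 32 := by simpa using hs
  have hs2 : ‖s‖ < 1 / 2 := by rw [hs']; norm_num
  have hs0 : s ≠ 0 := fun h => by rw [h, norm_zero] at hs'; norm_num at hs'
  have hκs := hκ' s (by simpa [mem_ball_zero_iff] using hs2)
  have hp : ∀ i : Fin D, (∏ l ∈ Finset.univ.erase i, sh D j k (xp D (d * m)) l s) =
      (s ^ (d * m)) ^ (D - 1) := by
    intro i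
    rw [Finset.prod_congr rfl (fun (l : Fin D) _ => sh_xp (j := j) (k := k) hD0 (d * m) (l : ℕ) hs2),
      Finset.prod_const,
      Finset.card_erase_of_mem (Finset.mem_univ i), Finset.card_univ, Fintype.card_fin]
  simp only [hp, hgs _ s hs2] at hκs
  show ∑ i : Fin D, ze D ^ ((t.1 : ℕ) * (i : ℕ)) * wt D j k t.1 s *
      (sh D j k ψ i s / s ^ d) ^ m = κ.eval s / (Polynomial.X ^ (d * m * D)).eval s
  rw [Polynomial.eval_pow, Polynomial.eval_X, ← hκs, Finset.sum_div]
  refine Finset.sum_congr rfl fun i _ => ?_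
  have e1 : s ^ (d * m * D) = (s ^ (d * m)) ^ (D - 1) * s ^ (d * m) := by
    rw [← pow_succ, ← pow_mul, Nat.sub_add_cancel (by omega)]
  have e2 : (s ^ (d * m)) ^ (D - 1) ≠ 0 := pow_ne_zero _ (pow_ne_zero _ hs0)
  have e3 : s ^ (d * m) ≠ 0 := pow_ne_zero _ hs0
  rw [e1, div_pow, ← pow_mul]
  field_simp

/-! ### the theorem -/

private theorem norm_ze (D : ℕ) (n : ℕ) : ‖ze D ^ n‖ = 1 := by
  rw [norm_pow]
  have : ‖ze D‖ = 1 := by
    have h : (2 * Real.pi * Complex.I / D : ℂ) = ((2 * Real.pi / D : ℝ) : ℂ) * Complex.I := by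
      push_cast; ring
    rw [ze, h, Complex.norm_exp_ofReal_mul_I]
  rw [this, one_pow]

theorem abel_core (hD : 3 ≤ D) (hj : 0 < j) (hk : 0 < k) (hjk : j + k < D)
    (hg : Nat.gcd (Nat.gcd j k) D = 1) (d : ℕ) (hd : 1 ≤ d) (ψ : Fn D) (hψ : ψ ∈ W D j k d)
    (hu : ∀ (i : Fin D), ∀ s ∈ sphere (0 : ℂ) (3 / 32), ‖sh D j k ψ i s / s ^ d‖ ≤ 1 / 2)
    (t : PJ D j k) :
    (∑ i : Fin D, ze D ^ ((t.1 : ℕ) * (i : ℕ)) *
      ∮ s in C(0, 3 / 32), wt D j k t.1 s * Complex.log (1 + sh D j k ψ i s / s ^ d)) = 0 := by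
  have hρ : (0 : ℝ) ≤ 3 / 32 := by norm_num
  have hnorm : ∀ s ∈ sphere (0 : ℂ) (3 / 32), ‖s‖ = 3 / 32 := fun s hs => by
    simpa using hs
  have hne : ∀ s ∈ sphere (0 : ℂ) (3 / 32), s ≠ 0 := fun s hs h => by
    have := hnorm s hs; rw [h, norm_zero] at this; norm_num at this
  have hb2 : sphere (0 : ℂ) (3 / 32) ⊆ ball (0 : ℂ) (1 / 2) := fun s hs => by
    rw [mem_ball_zero_iff, hnorm s hs]; norm_num
  have cw : ContinuousOn (wt D j k t.1) (sphere 0 (3 / 32)) := (wt_diff _).continuousOn.mono hb2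
  have cu : ∀ i : Fin D, ContinuousOn (fun s => sh D j k ψ i s / s ^ d) (sphere 0 (3 / 32)) :=
    fun i => ((sh_diff ψ i).continuousOn.mono hb2).div (continuousOn_id.pow d)
      fun s hs => pow_ne_zero _ (hne s hs)
  have cl : ∀ i : Fin D, ContinuousOn (fun s => Complex.log (1 + sh D j k ψ i s / s ^ d))
      (sphere 0 (3 / 32)) := fun i => by
    refine (continuousOn_const.add (cu i)).clog fun s hs => ?_
    exact Complex.mem_slitPlane_of_norm_lt_one (lt_of_le_of_lt (hu i s hs) (by norm_num))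
  obtain ⟨B, hB⟩ := (isCompact_sphere (0 : ℂ) (3 / 32)).exists_bound_of_continuousOn cw
  -- the sum as one integral
  set T : ℂ := ∮ s in C(0, 3 / 32), ∑ i : Fin D, ze D ^ ((t.1 : ℕ) * (i : ℕ)) *
    (wt D j k t.1 s * Complex.log (1 + sh D j k ψ i s / s ^ d)) with hT
  have e1 : (∑ i : Fin D, ze D ^ ((t.1 : ℕ) * (i : ℕ)) *
      ∮ s in C(0, 3 / 32), wt D j k t.1 s * Complex.log (1 + sh D j k ψ i s / s ^ d)) = T := by
    rw [hT, circleIntegral.integral_fun_sum]
    · refine Finset.sum_congr rfl fun i _ => ?_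
      rw [circleIntegral.integral_const_mul]
    · intro i _
      exact (continuousOn_const.mul (cw.mul (cl i))).circleIntegrable hρ
  rw [e1]
  -- approximation
  have key : ∀ n : ℕ, ‖T‖ ≤ 2 * Real.pi * (3 / 32) * (D * (B * 2)) * (1 / 2) ^ n := by
    intro n
    have c1 : ContinuousOn (fun s => ∑ i : Fin D, ze D ^ ((t.1 : ℕ) * (i : ℕ)) *
        (wt D j k t.1 s * Complex.log (1 + sh D j k ψ i s / s ^ d))) (sphere 0 (3 / 32)) :=
      continuousOn_finsetSum _ fun i _ => continuousOn_const.mul (cw.mul (cl i))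
    have c2 : ContinuousOn (fun s => ∑ i : Fin D, ze D ^ ((t.1 : ℕ) * (i : ℕ)) *
        (wt D j k t.1 s * Complex.logTaylor (n + 1) (sh D j k ψ i s / s ^ d)))
        (sphere 0 (3 / 32)) := by
      refine continuousOn_finsetSum _ fun i _ => continuousOn_const.mul (cw.mul ?_)
      have : (fun s => Complex.logTaylor (n + 1) (sh D j k ψ i s / s ^ d)) =
          fun s => ∑ m ∈ Finset.range (n + 1), (-1 : ℂ) ^ (m + 1) *
            (sh D j k ψ i s / s ^ d) ^ m / m := rfl
      rw [this]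
      exact continuousOn_finsetSum _ fun m _ =>
        (continuousOn_const.mul ((cu i).pow m)).div_const _
    have h0 : (∮ s in C(0, 3 / 32), ∑ i : Fin D, ze D ^ ((t.1 : ℕ) * (i : ℕ)) *
        (wt D j k t.1 s * Complex.logTaylor (n + 1) (sh D j k ψ i s / s ^ d))) = 0 := by
      have e2 : (fun s => ∑ i : Fin D, ze D ^ ((t.1 : ℕ) * (i : ℕ)) *
          (wt D j k t.1 s * Complex.logTaylor (n + 1) (sh D j k ψ i s / s ^ d))) =
          fun s => ∑ m ∈ Finset.range (n + 1), ((-1 : ℂ) ^ (m + 1) / m) *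
            ∑ i : Fin D, ze D ^ ((t.1 : ℕ) * (i : ℕ)) * wt D j k t.1 s *
              (sh D j k ψ i s / s ^ d) ^ m := by
        funext s
        simp only [Complex.logTaylor, Finset.mul_sum]
        rw [Finset.sum_comm]
        refine Finset.sum_congr rfl fun m _ => Finset.sum_congr rfl fun i _ => ?_
        ring
      rw [e2, circleIntegral.integral_fun_sum]
      · refine Finset.sum_eq_zero fun m _ => ?_
        rw [circleIntegral.integral_const_mul]
        rcases Nat.eq_zero_or_pos m with h | h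
        · subst h; simp
        · rw [trace_pow hD hj hk hjk hg d hd ψ hψ t m h, mul_zero]
      · intro m _
        refine ContinuousOn.circleIntegrable hρ (continuousOn_const.mul ?_)
        exact continuousOn_finsetSum _ fun i _ => (continuousOn_const.mul cw).mul ((cu i).pow m)
    have h1 : T = ∮ s in C(0, 3 / 32), ((∑ i : Fin D, ze D ^ ((t.1 : ℕ) * (i : ℕ)) *
        (wt D j k t.1 s * Complex.log (1 + sh D j k ψ i s / s ^ d))) -
        ∑ i : Fin D, ze D ^ ((t.1 : ℕ) * (i : ℕ)) *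
        (wt D j k t.1 s * Complex.logTaylor (n + 1) (sh D j k ψ i s / s ^ d))) := by
      rw [circleIntegral.integral_sub (c1.circleIntegrable hρ) (c2.circleIntegrable hρ), h0, sub_zero]
    rw [h1]
    have h2 : ∀ s ∈ sphere (0 : ℂ) (3 / 32), ‖(∑ i : Fin D, ze D ^ ((t.1 : ℕ) * (i : ℕ)) *
        (wt D j k t.1 s * Complex.log (1 + sh D j k ψ i s / s ^ d))) -
        ∑ i : Fin D, ze D ^ ((t.1 : ℕ) * (i : ℕ)) *
        (wt D j k t.1 s * Complex.logTaylor (n + 1) (sh D j k ψ i s / s ^ d))‖ ≤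
        (D * (B * 2)) * (1 / 2) ^ n := by
      intro s hs
      rw [← Finset.sum_sub_distrib]
      refine (norm_sum_le _ _).trans ?_
      have h3 : ∀ i : Fin D, ‖ze D ^ ((t.1 : ℕ) * (i : ℕ)) *
          (wt D j k t.1 s * Complex.log (1 + sh D j k ψ i s / s ^ d)) -
          ze D ^ ((t.1 : ℕ) * (i : ℕ)) *
          (wt D j k t.1 s * Complex.logTaylor (n + 1) (sh D j k ψ i s / s ^ d))‖ ≤
          B * 2 * (1 / 2) ^ n := by
        intro i
        have h4 := hu i s hs
        have h5 := Complex.norm_log_sub_logTaylor_le n (z := sh D j k ψ i s / s ^ d)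
          (lt_of_le_of_lt h4 (by norm_num))
        have h6 : ‖sh D j k ψ i s / s ^ d‖ ^ (n + 1) * (1 - ‖sh D j k ψ i s / s ^ d‖)⁻¹ / (n + 1)
            ≤ 2 * (1 / 2) ^ n := by
          have h7 : ‖sh D j k ψ i s / s ^ d‖ ^ (n + 1) ≤ (1 / 2) ^ n := by
            calc ‖sh D j k ψ i s / s ^ d‖ ^ (n + 1) ≤ (1 / 2) ^ (n + 1) := by gcongr
              _ ≤ (1 / 2) ^ n := pow_le_pow_of_le_one (by norm_num) (by norm_num) (by omega)
          have h8 : (1 - ‖sh D j k ψ i s / s ^ d‖)⁻¹ ≤ 2 := by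
            rw [inv_le_comm₀ (by linarith) (by norm_num)]
            linarith
          have h9 : 0 ≤ (1 - ‖sh D j k ψ i s / s ^ d‖)⁻¹ := inv_nonneg.2 (by linarith)
          calc ‖sh D j k ψ i s / s ^ d‖ ^ (n + 1) * (1 - ‖sh D j k ψ i s / s ^ d‖)⁻¹ / (n + 1)
              ≤ ‖sh D j k ψ i s / s ^ d‖ ^ (n + 1) * (1 - ‖sh D j k ψ i s / s ^ d‖)⁻¹ / 1 := by
                gcongr
                have : (0 : ℝ) ≤ n := Nat.cast_nonneg n
                linarith
            _ ≤ (1 / 2) ^ n * 2 := by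
                rw [div_one]
                gcongr
            _ = 2 * (1 / 2) ^ n := by ring
        have hBs := hB s hs
        have hB0 : 0 ≤ B := (norm_nonneg _).trans hBs
        rw [← mul_sub, ← mul_sub, norm_mul, norm_mul, norm_ze, one_mul]
        calc ‖wt D j k t.1 s‖ * ‖Complex.log (1 + sh D j k ψ i s / s ^ d) -
              Complex.logTaylor (n + 1) (sh D j k ψ i s / s ^ d)‖
            ≤ B * (2 * (1 / 2) ^ n) := by
              gcongr
              exact h5.trans h6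
          _ = B * 2 * (1 / 2) ^ n := by ring
      refine (Finset.sum_le_sum fun i _ => h3 i).trans ?_
      rw [Finset.sum_const, Finset.card_univ, Fintype.card_fin, nsmul_eq_mul]
      linarith
    refine (circleIntegral.norm_integral_le_of_norm_le_const hρ h2).trans ?_
    linarith
  have hlim : Filter.Tendsto (fun n : ℕ => 2 * Real.pi * (3 / 32) * (D * (B * 2)) * (1 / 2 : ℝ) ^ n)
      Filter.atTop (𝓝 0) := by
    have := (tendsto_pow_atTop_nhds_zero_of_lt_one (r := (1 / 2 : ℝ)) (by norm_num)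
      (by norm_num)).const_mul (2 * Real.pi * (3 / 32) * (D * (B * 2)))
    simpa using this
  have h3 : ‖T‖ ≤ 0 := ge_of_tendsto' hlim key
  exact norm_le_zero_iff.1 h3

/-- (JF) Abel's theorem near the fibre -/
theorem abel (hD : 3 ≤ D) (hj : 0 < j) (hk : 0 < k) (hjk : j + k < D)
    (hg : Nat.gcd (Nat.gcd j k) D = 1) (d : ℕ)
    (hd : 1 ≤ d) :
    ∃ η : ℝ, 0 < η ∧ ∀ φ ∈ W D j k d, (∀ t l, ‖((φ - xp D d) t).coeff l‖ < η) →
      ∀ E : Dv D, (Typ E fun _ => d) → SmallD (1 / 16) E → DivOf D j k φ E →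
        ∀ t : PJ D j k, AJ D j k E t.1 = 0 := by
  have hD0 : 0 < D := by omega
  have hρ : (0 : ℝ) < 3 / 32 := by norm_num
  have hnorm : ∀ s ∈ sphere (0 : ℂ) (3 / 32), ‖s‖ = 3 / 32 := fun s hs => by
    simpa using hs
  have hne : ∀ s ∈ sphere (0 : ℂ) (3 / 32), s ≠ 0 := fun s hs h => by
    have := hnorm s hs; rw [h, norm_zero] at this; norm_num at this
  have hb2 : sphere (0 : ℂ) (3 / 32) ⊆ ball (0 : ℂ) (1 / 2) := fun s hs => by
    rw [mem_ball_zero_iff, hnorm s hs]; norm_num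
  -- a bound for the functions `et`
  have hC0 : ∀ t : Fin D, ∃ C : ℝ, ∀ s ∈ sphere (0 : ℂ) (3 / 32), ‖et D j k t s‖ ≤ C := fun t =>
    (isCompact_sphere (0 : ℂ) (3 / 32)).exists_bound_of_continuousOn
      ((et_diff _).continuousOn.mono hb2)
  choose C0 hC0 using hC0
  set C : ℝ := ∑ t : Fin D, |C0 t| with hCdef
  have hC : ∀ t : Fin D, ∀ s ∈ sphere (0 : ℂ) (3 / 32), ‖et D j k t s‖ ≤ C := fun t s hs =>
    (hC0 t s hs).trans ((le_abs_self _).trans
      (Finset.single_le_sum (f := fun t => |C0 t|) (fun _ _ => abs_nonneg _) (Finset.mem_univ t)))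
  have hCn : 0 ≤ C := Finset.sum_nonneg fun _ _ => abs_nonneg _
  have hDr : (0 : ℝ) < D := by exact_mod_cast hD0
  have hden : (0 : ℝ) < 2 * (D * ((d + 1) * (C + 1))) := by positivity
  refine ⟨(3 / 32) ^ d / (2 * (D * ((d + 1) * (C + 1)))), by positivity, ?_⟩
  set η : ℝ := (3 / 32) ^ d / (2 * (D * ((d + 1) * (C + 1)))) with hη
  intro φ hφ hsm E _ hE hdiv t
  set ψ : Fn D := φ - xp D d with hψdef
  have hψ : ψ ∈ W D j k d := Submodule.sub_mem _ hφ (xp_mem hD0 le_rfl)
  have hsh : ∀ (i : ℕ) (s : ℂ), ‖s‖ < 1 / 2 → sh D j k φ i s = s ^ d + sh D j k ψ i s := by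
    intro i s hs
    rw [← sh_xp (j := j) (k := k) hD0 d i hs]
    simp only [sh, hψdef, Pi.sub_apply, Polynomial.eval_sub, sub_mul, Finset.sum_sub_distrib]
    ring
  -- smallness
  have hη0 : 0 < η := by positivity
  have hev : ∀ (t : Fin D), ∀ s ∈ sphere (0 : ℂ) (3 / 32), ‖(ψ t).eval s‖ ≤ (d + 1) * η := by
    intro t s hs
    have h1 : (ψ t).natDegree < d + 1 := by
      by_cases h0 : ψ t = 0
      · rw [h0, Polynomial.natDegree_zero]; omega
      · rw [Polynomial.natDegree_lt_iff_degree_lt h0]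
        have h2 := (Submodule.mem_pi.1 hψ) t (Set.mem_univ _)
        rw [Polynomial.mem_degreeLT] at h2
        refine lt_of_lt_of_le h2 ?_
        exact_mod_cast Nat.sub_le _ _
    rw [Polynomial.eval_eq_sum_range' h1]
    refine (norm_sum_le _ _).trans ?_
    have h3 : ∀ l ∈ Finset.range (d + 1), ‖(ψ t).coeff l * s ^ l‖ ≤ η := by
      intro l _
      rw [norm_mul, norm_pow, hnorm s hs]
      have h4 := (hsm t l).le
      have h5 : (3 / 32 : ℝ) ^ l ≤ 1 := pow_le_one₀ (by norm_num) (by norm_num)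
      calc ‖(ψ t).coeff l‖ * (3 / 32) ^ l ≤ η * 1 := by gcongr
        _ = η := mul_one _
    refine (Finset.sum_le_sum h3).trans ?_
    rw [Finset.sum_const, Finset.card_range, nsmul_eq_mul]
    push_cast
    exact le_rfl
  have hu : ∀ (i : Fin D), ∀ s ∈ sphere (0 : ℂ) (3 / 32), ‖sh D j k ψ i s / s ^ d‖ ≤ 1 / 2 := by
    intro i s hs
    rw [norm_div, norm_pow, hnorm s hs, div_le_iff₀ (by positivity)]
    have h1 : ‖sh D j k ψ i s‖ ≤ D * ((d + 1) * η * C) := by
      refine (norm_sum_le _ _).trans ?_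
      have h2 : ∀ t ∈ (Finset.univ : Finset (Fin D)),
          ‖(ψ t).eval s * ze D ^ ((t : ℕ) * (i : ℕ)) * et D j k t s‖ ≤ (d + 1) * η * C := by
        intro t _
        rw [norm_mul, norm_mul, norm_ze, mul_one]
        exact mul_le_mul (hev t s hs) (hC t s hs) (norm_nonneg _) (by positivity)
      refine (Finset.sum_le_sum h2).trans ?_
      rw [Finset.sum_const, Finset.card_univ, Fintype.card_fin, nsmul_eq_mul]
    refine h1.trans ?_
    have h3 : η * (2 * (D * ((d + 1) * (C + 1)))) = (3 / 32) ^ d := by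
      rw [hη, div_mul_cancel₀ _ hden.ne']
    rw [← h3]
    have h4 : (0 : ℝ) ≤ D * ((d + 1) * η) := by positivity
    nlinarith
  -- the sheets
  have hsheet : ∀ i : Fin D, 2 * Real.pi * Complex.I * ((E i).map (aint D j k t.1)).sum =
      - ∮ s in C(0, 3 / 32), wt D j k t.1 s * Complex.log (1 + sh D j k ψ i s / s ^ d) := by
    intro i
    obtain ⟨v, hv, hv0, hF⟩ := hdiv i
    have e1 : ∀ s ∈ sphere (0 : ℂ) (3 / 32),
        sh D j k φ i s / s ^ d = 1 + sh D j k ψ i s / s ^ d := by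
      intro s hs
      rw [hsh i s (by rw [hnorm s hs]; norm_num), add_div, div_self (pow_ne_zero _ (hne s hs))]
    rw [abel_sheet (A := aint D j k t.1) (w := wt D j k t.1) (F := sh D j k φ i) (v := v)
      (E := E i) (d := d) (fun s hs => aint_deriv _ hs) (aint_zero _)
      ((wt_diff _).continuousOn.mono hb2) hv hv0 (hE i) hF ?_]
    · congr 1
      refine circleIntegral.integral_congr hρ.le ?_
      intro s hs
      show wt D j k t.1 s * Complex.log (sh D j k φ i s / s ^ d) = _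
      rw [e1 s hs]
    · intro s hs
      rw [e1 s hs, add_sub_cancel_left]
      exact lt_of_le_of_lt (hu i s hs) (by norm_num)
  have hcore := abel_core hD hj hk hjk hg d hd ψ hψ hu t
  have h2 : 2 * Real.pi * Complex.I * AJ D j k E t.1 = 0 := by
    rw [AJ, Finset.mul_sum]
    calc ∑ i : Fin D, 2 * Real.pi * Complex.I *
          (ze D ^ ((t.1 : ℕ) * (i : ℕ)) * ((E i).map (aint D j k t.1)).sum)
        = ∑ i : Fin D, -(ze D ^ ((t.1 : ℕ) * (i : ℕ)) *
          ∮ s in C(0, 3 / 32), wt D j k t.1 s * Complex.log (1 + sh D j k ψ i s / s ^ d)) := by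
          refine Finset.sum_congr rfl fun i _ => ?_
          rw [mul_left_comm, hsheet i, mul_neg]
      _ = 0 := by rw [Finset.sum_neg_distrib, hcore, neg_zero]
  have h3 : (2 * Real.pi * Complex.I : ℂ) ≠ 0 := Complex.two_pi_I_ne_zero
  exact (mul_eq_zero.1 h2).resolve_left h3

end Pool.Agent.WW
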