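import Pool.Agent.WW.JDefs

set_option autoImplicit false

namespace Pool.Agent.WW

open Metric Filter Topology

variable {D j k : ℕ}

namespace JF0

theorem re_bound {s : ℂ} (hs : ‖s‖ < 1 / 2) : 0 < (1 / 2 + s).re ∧ 0 < (1 / 2 - s).re := by
  have h1 := abs_le.1 (Complex.abs_re_le_norm s)
  have h2 : ((1 : ℂ) / 2).re = 1 / 2 := by norm_num
  rw [Complex.add_re, Complex.sub_re, h2]
  constructor <;> linarith [h1.1, h1.2]

theorem slit_add {s : ℂ} (hs : ‖s‖ < 1 / 2) : 1 / 2 + s ∈ Complex.slitPlane :=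
  Or.inl (re_bound hs).1

theorem slit_sub {s : ℂ} (hs : ‖s‖ < 1 / 2) : 1 / 2 - s ∈ Complex.slitPlane :=
  Or.inl (re_bound hs).2

theorem add_ne {s : ℂ} (hs : ‖s‖ < 1 / 2) : 1 / 2 + s ≠ 0 := by
  intro h
  have := (re_bound hs).1
  rw [h] at this
  simp at this

theorem sub_ne {s : ℂ} (hs : ‖s‖ < 1 / 2) : 1 / 2 - s ≠ 0 := by
  intro h
  have := (re_bound hs).2
  rw [h] at this
  simp at this

end JF0

theorem wt_diff (t : ℕ) : DifferentiableOn ℂ (wt D j k t) (ball 0 (1 / 2)) := by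
  intro s hs
  rw [mem_ball_zero_iff] at hs
  apply DifferentiableAt.differentiableWithinAt
  unfold wt
  apply DifferentiableAt.mul
  · exact DifferentiableAt.cpow_const (by fun_prop) (JF0.slit_add hs)
  · exact DifferentiableAt.cpow_const (by fun_prop) (JF0.slit_sub hs)

theorem aint_zero (t : ℕ) : aint D j k t 0 = 0 := by
  simp [aint]

theorem aint_deriv (t : ℕ) {s : ℂ} (hs : ‖s‖ < 1 / 2) :
    HasDerivAt (aint D j k t) (wt D j k t s) s := by
  obtain ⟨F, hF⟩ := (wt_diff (D := D) (j := j) (k := k) t).isExactOn_ball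
  have hmem : ∀ z : ℂ, ‖z‖ < 1 / 2 → z ∈ ball (0 : ℂ) (1 / 2) := fun z hz => by
    rwa [mem_ball_zero_iff]
  have key : ∀ z : ℂ, ‖z‖ < 1 / 2 → aint D j k t z = F z - F 0 := by
    intro z hz
    have hu : ∀ u : ℝ, u ∈ Set.uIcc (0 : ℝ) 1 → ‖(u : ℂ) * z‖ < 1 / 2 := by
      intro u hu
      rw [Set.uIcc_of_le (by norm_num)] at hu
      rw [norm_mul, Complex.norm_real, Real.norm_eq_abs, abs_of_nonneg hu.1]
      have : u * ‖z‖ ≤ 1 * ‖z‖ := mul_le_mul_of_nonneg_right hu.2 (norm_nonneg _)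
      linarith
    have hd : ∀ u ∈ Set.uIcc (0 : ℝ) 1,
        HasDerivAt (fun u : ℝ => F ((u : ℂ) * z)) (z * wt D j k t ((u : ℂ) * z)) u := by
      intro u hu'
      have e1 : HasDerivAt F (wt D j k t ((u : ℂ) * z)) ((u : ℂ) * z) := hF _ (hmem _ (hu u hu'))
      have e2 : HasDerivAt (fun u : ℝ => (u : ℂ) * z) z u := by
        have := (Complex.ofRealCLM.hasDerivAt (x := u)).mul_const z
        simpa using this
      have e3 := e1.comp u e2
      refine e3.congr_deriv ?_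
      ring
    have hint : IntervalIntegrable (fun u : ℝ => z * wt D j k t ((u : ℂ) * z))
        MeasureTheory.volume 0 1 := by
      apply ContinuousOn.intervalIntegrable
      apply ContinuousOn.mul continuousOn_const
      intro u hu'
      have e1 : ContinuousAt (wt D j k t) ((u : ℂ) * z) :=
        ((wt_diff (D := D) (j := j) (k := k) t _ (hmem _ (hu u hu'))).differentiableAt
          (isOpen_ball.mem_nhds (hmem _ (hu u hu')))).continuousAt
      have e2 : ContinuousAt (fun u : ℝ => (u : ℂ) * z) u := by fun_prop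
      exact (ContinuousAt.comp (f := fun u : ℝ => (u : ℂ) * z) e1 e2).continuousWithinAt
    have h1 := intervalIntegral.integral_eq_sub_of_hasDerivAt hd hint
    unfold aint
    rw [h1]
    simp
  have h2 : aint D j k t =ᶠ[𝓝 s] fun z => F z - F 0 := by
    filter_upwards [isOpen_ball.mem_nhds (hmem s hs)] with z hz
    exact key z (by rwa [mem_ball_zero_iff] at hz)
  have h3 : HasDerivAt (fun z => F z - F 0) (wt D j k t s) s := (hF s (hmem s hs)).sub_const _
  exact h3.congr_of_eventuallyEq h2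

theorem wt_eq (t : ℕ) {s : ℂ} (hs : ‖s‖ < 1 / 2) :
    wt D j k t s * ((1 / 2 + s) * (1 / 2 - s)) = et D j k t s := by
  have h1 := JF0.add_ne hs
  have h2 := JF0.sub_ne hs
  unfold wt et
  have e1 : (1 / 2 + s) ^ (((t * j % D : ℕ) : ℂ) / D - 1) * (1 / 2 + s) =
      (1 / 2 + s) ^ (((t * j % D : ℕ) : ℂ) / D) := by
    rw [Complex.cpow_sub _ _ h1, Complex.cpow_one, div_mul_cancel₀ _ h1]
  have e2 : (1 / 2 - s) ^ (((t * k % D : ℕ) : ℂ) / D - 1) * (1 / 2 - s) =
      (1 / 2 - s) ^ (((t * k % D : ℕ) : ℂ) / D) := by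
    rw [Complex.cpow_sub _ _ h2, Complex.cpow_one, div_mul_cancel₀ _ h2]
  rw [← e1, ← e2]
  ring

/-- the residue of the negative index -/
theorem JF0.neg_mod {D t j : ℕ} (ht : t ≤ D) (h : 0 < t * j % D) :
    (D - t) * j % D = D - t * j % D := by
  have hD : 0 < D := by
    rcases Nat.eq_zero_or_pos D with h0 | h0
    · subst h0
      have : t = 0 := by omega
      subst this
      simp at h
    · exact h0
  have h1 : t * j % D < D := Nat.mod_lt _ hD
  have h2 : (D - t) * j + t * j = D * j := by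
    rw [← add_mul, Nat.sub_add_cancel ht]
  have h3 : ((D - t) * j + t * j) % D = 0 := by
    rw [h2]
    exact Nat.mul_mod_right D j
  rw [Nat.add_mod] at h3
  have h4 : (D - t) * j % D < D := Nat.mod_lt _ hD
  have h5 : (D - t) * j % D + t * j % D = D := by
    have h6 := Nat.dvd_of_mod_eq_zero h3
    obtain ⟨c, hc⟩ := h6
    have h7 : c < 2 := by
      by_contra hcon
      push Not at hcon
      have : D * 2 ≤ D * c := Nat.mul_le_mul_left D hcon
      omega
    interval_cases c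
    · omega
    · omega
  omega

/-- a positive index `t` and `D - t` -/
theorem et_neg (hD : 3 ≤ D) (t : PJ D j k) {s : ℂ} (hs : ‖s‖ < 1 / 2) :
    et D j k t.1 s * et D j k (D - (t.1 : ℕ)) s = (1 / 2 + s) * (1 / 2 - s) := by
  have h1 := JF0.add_ne hs
  have h2 := JF0.sub_ne hs
  obtain ⟨p1, p2, p3⟩ := t.2
  have hDC : (D : ℂ) ≠ 0 := by
    have : 0 < D := by omega
    exact_mod_cast this.ne'
  have hle : ((t.1 : Fin D) : ℕ) ≤ D := t.1.2.le
  have m1 := JF0.neg_mod hle p1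
  have m2 := JF0.neg_mod hle p2
  have l1 : (t.1 : ℕ) * j % D ≤ D := (Nat.mod_lt _ (by omega)).le
  have l2 : (t.1 : ℕ) * k % D ≤ D := (Nat.mod_lt _ (by omega)).le
  unfold et
  rw [m1, m2]
  have e1 : (1 / 2 + s) ^ ((((t.1 : ℕ) * j % D : ℕ) : ℂ) / D) *
      (1 / 2 + s) ^ (((D - (t.1 : ℕ) * j % D : ℕ) : ℂ) / D) = 1 / 2 + s := by
    rw [← Complex.cpow_add _ _ h1, Nat.cast_sub l1]
    have : (((t.1 : ℕ) * j % D : ℕ) : ℂ) / D + ((D : ℂ) - (((t.1 : ℕ) * j % D : ℕ) : ℂ)) / D = 1 := by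
      field_simp
      ring
    rw [this, Complex.cpow_one]
  have e2 : (1 / 2 - s) ^ ((((t.1 : ℕ) * k % D : ℕ) : ℂ) / D) *
      (1 / 2 - s) ^ (((D - (t.1 : ℕ) * k % D : ℕ) : ℂ) / D) = 1 / 2 - s := by
    rw [← Complex.cpow_add _ _ h2, Nat.cast_sub l2]
    have : (((t.1 : ℕ) * k % D : ℕ) : ℂ) / D + ((D : ℂ) - (((t.1 : ℕ) * k % D : ℕ) : ℂ)) / D = 1 := by
      field_simp
      ring
    rw [this, Complex.cpow_one]
  linear_combination ((1 / 2 - s) ^ ((((t.1 : ℕ) * k % D : ℕ) : ℂ) / D) *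
      (1 / 2 - s) ^ (((D - (t.1 : ℕ) * k % D : ℕ) : ℂ) / D)) * e1 + (1 / 2 + s) * e2

end Pool.Agent.WW
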