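import Pool.Agent.WW.JC
import Pool.Agent.WW.JF0

set_option autoImplicit false

namespace Pool.Agent.WW

open Metric Filter Topology

variable {D j k : ℕ}

namespace JF1

theorem ze_prim (hD : 0 < D) : IsPrimitiveRoot (ze D) D := Complex.isPrimitiveRoot_exp D hD.ne'

theorem sum_ze (hD : 0 < D) (m : ℕ) :
    ∑ i : Fin D, ze D ^ (m * (i : ℕ)) = if D ∣ m then (D : ℂ) else 0 := by
  split_ifs with h
  · have h1 : ze D ^ m = 1 := ((ze_prim hD).pow_eq_one_iff_dvd m).2 h
    simp [pow_mul, h1]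
  · have h1 : ze D ^ m ≠ 1 := fun h' => h (((ze_prim hD).pow_eq_one_iff_dvd m).1 h')
    simp_rw [pow_mul]
    rw [Fin.sum_univ_eq_sum_range (fun i => (ze D ^ m) ^ i) D, geom_sum_eq h1, ← pow_mul, mul_comm m,
      pow_mul, (ze_prim hD).pow_eq_one, one_pow, sub_self, zero_div]

theorem dft (hD : 0 < D) (g : Fn D) (t : ℕ) (u0 : Fin D) (h : D ∣ t + u0) (s : ℂ) :
    ∑ i : Fin D, ze D ^ (t * (i : ℕ)) * sh D j k g i s = D * ((g u0).eval s * et D j k u0 s) := by
  have h1 : ∀ u : Fin D, ∑ i : Fin D, ze D ^ (t * (i : ℕ)) *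
      ((g u).eval s * ze D ^ ((u : ℕ) * i) * et D j k u s) =
      (if D ∣ t + u then (D : ℂ) else 0) * ((g u).eval s * et D j k u s) := by
    intro u
    rw [← sum_ze hD, Finset.sum_mul]
    refine Finset.sum_congr rfl fun i _ => ?_
    rw [add_mul, pow_add]
    ring
  unfold sh
  simp_rw [Finset.mul_sum]
  rw [Finset.sum_comm]
  simp_rw [h1]
  rw [Finset.sum_eq_single u0]
  · rw [if_pos h]
  · intro u _ hu
    rw [if_neg, zero_mul]
    intro h2
    apply hu
    have h3 : (t + u) ≡ (t + u0) [MOD D] := by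
      rw [Nat.ModEq, Nat.mod_eq_zero_of_dvd h2, Nat.mod_eq_zero_of_dvd h]
    have h4 : (u : ℕ) ≡ u0 [MOD D] := Nat.ModEq.add_left_cancel' t h3
    have h5 : (u : ℕ) % D = u0 % D := h4
    rw [Nat.mod_eq_of_lt u.2, Nat.mod_eq_of_lt u0.2] at h5
    exact Fin.ext h5
  · intro h2; exact absurd (Finset.mem_univ u0) h2

theorem prod_shift (hD : 0 < D) (f : ℕ → ℂ) (hf : ∀ n, f (n % D) = f n) (i : Fin D) :
    ∏ l ∈ Finset.range (D - 1), f (i + 1 + l) = ∏ l ∈ Finset.univ.erase i, f (l : ℕ) := by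
  classical
  let e : ℕ → Fin D := fun l => ⟨(i + 1 + l) % D, Nat.mod_lt _ hD⟩
  have hinj : Set.InjOn e (Finset.range (D - 1) : Set ℕ) := by
    intro a ha b hb hab
    have h1 : (i + 1 + a : ℕ) ≡ i + 1 + b [MOD D] := congrArg Fin.val hab
    have h2 : a ≡ b [MOD D] := Nat.ModEq.add_left_cancel' _ h1
    have h3 : a % D = b % D := h2
    have ha' : a < D - 1 := Finset.mem_range.1 ha
    have hb' : b < D - 1 := Finset.mem_range.1 hb
    rwa [Nat.mod_eq_of_lt (by omega), Nat.mod_eq_of_lt (by omega)] at h3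
  have himg : (Finset.range (D - 1)).image e = Finset.univ.erase i := by
    apply Finset.eq_of_subset_of_card_le
    · intro m hm
      obtain ⟨l, hl, rfl⟩ := Finset.mem_image.1 hm
      refine Finset.mem_erase.2 ⟨?_, Finset.mem_univ _⟩
      intro h1
      have h2 : (i + 1 + l) % D = (i : ℕ) := congrArg Fin.val h1
      have h3 : (i + (1 + l) : ℕ) ≡ i + 0 [MOD D] := by
        rw [Nat.ModEq, add_zero, Nat.mod_eq_of_lt i.2, ← add_assoc]
        exact h2
      have h4 : (1 + l) % D = 0 % D := Nat.ModEq.add_left_cancel' _ h3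
      have h5 := Finset.mem_range.1 hl
      rw [Nat.mod_eq_of_lt (by omega), Nat.zero_mod] at h4
      omega
    · rw [Finset.card_image_of_injOn hinj, Finset.card_erase_of_mem (Finset.mem_univ _),
        Finset.card_univ, Fintype.card_fin, Finset.card_range]
  rw [← himg, Finset.prod_image hinj]
  refine Finset.prod_congr rfl fun l _ => ?_
  rw [← hf]

theorem prod_full (hD : 0 < D) (f : ℕ → ℂ) (hf : ∀ n, f (n % D) = f n) (i : Fin D) :
    ∏ l ∈ Finset.range D, f (i + l) = ∏ l : Fin D, f (l : ℕ) := by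
  classical
  have h1 : D = (D - 1) + 1 := by omega
  rw [← Finset.mul_prod_erase Finset.univ (fun l : Fin D => f (l : ℕ)) (Finset.mem_univ i),
    ← prod_shift hD f hf i]
  have h2 : ∏ l ∈ Finset.range D, f (i + l) = ∏ l ∈ Finset.range (D - 1 + 1), f (i + l) := by
    rw [← h1]
  rw [h2, Finset.prod_range_succ', add_zero, mul_comm]
  congr 1
  refine Finset.prod_congr rfl fun l _ => ?_
  congr 1
  omega

/-- products of twists -/
noncomputable def pr (j k : ℕ) (φ : Fn D) : ℕ → Fn D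
  | 0 => xp D 0
  | n + 1 => mulF D j k (pr j k φ n) (tw D n φ)

theorem sh_pr (hD : 0 < D) (φ : Fn D) (n i : ℕ) {s : ℂ} (hs : ‖s‖ < 1 / 2) :
    sh D j k (pr j k φ n) i s = ∏ l ∈ Finset.range n, sh D j k φ (i + l) s := by
  induction n with
  | zero => rw [pr, sh_xp hD 0 i hs, pow_zero, Finset.prod_range_zero]
  | succ n ih => rw [pr, sh_mulF hD _ _ i hs, ih, sh_tw hD, Finset.prod_range_succ]

theorem pr_mem (hD : 0 < D) {d : ℕ} {φ : Fn D} (hφ : φ ∈ W D j k d) (n : ℕ) :
    pr j k φ n ∈ W D j k (d * n) := by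
  induction n with
  | zero => exact xp_mem hD (Nat.zero_le _)
  | succ n ih => exact mulF_mem hD ih (tw_mem hφ)

/-- coefficients depend continuously on the parameter -/
def CC {C : Type} [TopologicalSpace C] (g : C → Polynomial ℂ) : Prop :=
  ∀ l, Continuous fun c => (g c).coeff l

theorem CC.const {C : Type} [TopologicalSpace C] (p : Polynomial ℂ) : CC fun _ : C => p :=
  fun _ => continuous_const

theorem CC.mul {C : Type} [TopologicalSpace C] {g h : C → Polynomial ℂ} (hg : CC g) (hh : CC h) :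
    CC fun c => g c * h c := by
  intro l
  simp_rw [Polynomial.coeff_mul]
  exact continuous_finsetSum _ fun x _ => (hg x.1).mul (hh x.2)

theorem CC.sum {C ι : Type} [TopologicalSpace C] (S : Finset ι) {g : ι → C → Polynomial ℂ}
    (hg : ∀ i ∈ S, CC (g i)) : CC fun c => ∑ i ∈ S, g i c := by
  intro l
  simp_rw [Polynomial.finsetSum_coeff]
  exact continuous_finsetSum _ fun i hi => hg i hi l

theorem CC.mulF {C : Type} [TopologicalSpace C] {g h : C → Fn D} (hg : ∀ t, CC fun c => g c t)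
    (hh : ∀ t, CC fun c => h c t) (t : Fin D) : CC fun c => mulF D j k (g c) (h c) t := by
  unfold Pool.Agent.WW.mulF
  refine CC.sum _ fun u _ => CC.sum _ fun v _ => ?_
  by_cases huv : ((u : ℕ) + v) % D = t
  · simp only [if_pos huv]
    exact ((CC.const _).mul (hg u)).mul (hh v)
  · simp only [if_neg huv]
    exact CC.const _

theorem CC.pr {C : Type} [TopologicalSpace C] {g : C → Fn D} (hg : ∀ t, CC fun c => g c t)
    (n : ℕ) (t : Fin D) : CC fun c => pr j k (g c) n t := by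
  induction n generalizing t with
  | zero => exact CC.const _
  | succ n ih =>
    refine CC.mulF (fun t => ih t) (fun t => ?_) t
    exact (CC.const _).mul (hg t)

/-- the element with given coefficients -/
noncomputable def P (D d : ℕ) (c : Fin D × Fin (d + 1) → ℂ) : Fn D :=
  fun t => ∑ l : Fin (d + 1), Polynomial.monomial (l : ℕ) (c (t, l))

theorem P_cc (d : ℕ) (t : Fin D) : CC fun c => P D d c t := by
  refine CC.sum _ fun l _ => ?_
  intro m
  simp_rw [Polynomial.coeff_monomial]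
  by_cases h : (l : ℕ) = m
  · simp only [if_pos h]
    exact continuous_apply _
  · simp only [if_neg h]
    exact continuous_const

theorem P_eq {d : ℕ} {φ : Fn D} (hφ : φ ∈ W D j k d) :
    P D d (fun x => (φ x.1).coeff (x.2 : ℕ)) = φ := by
  funext t
  unfold P
  have h1 : φ t ∈ Polynomial.degreeLT ℂ (d + 1 - cc D j k t) := (Submodule.mem_pi.1 hφ) t (Set.mem_univ t)
  have h2 : (φ t).natDegree < d + 1 := by
    rw [Polynomial.mem_degreeLT] at h1
    by_cases h0 : φ t = 0
    · rw [h0, Polynomial.natDegree_zero]; omega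
    · rw [Polynomial.natDegree_lt_iff_degree_lt h0]
      refine lt_of_lt_of_le h1 ?_
      exact_mod_cast Nat.sub_le _ _
  rw [Fin.sum_univ_eq_sum_range (fun l => Polynomial.monomial l ((φ t).coeff l)) (d + 1)]
  exact ((φ t).as_sum_range' (d + 1) h2).symm

end JF1

open JF1

/-- (JF1a) the norm of a function is a polynomial, close to a power of `s` -/
theorem norm_poly (hD : 3 ≤ D) (hj : 0 < j) (hk : 0 < k) (hjk : j + k < D)
    (hg : Nat.gcd (Nat.gcd j k) D = 1) (d : ℕ)
    (ε : ℝ) (hε : 0 < ε) :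
    ∃ η : ℝ, 0 < η ∧ ∀ φ ∈ W D j k d, (∀ t l, ‖((φ - xp D d) t).coeff l‖ < η) →
      ∃ N : Polynomial ℂ, N.natDegree ≤ d * D ∧
        (∀ l, ‖(N - Polynomial.X ^ (d * D)).coeff l‖ < ε) ∧
        ∀ s ∈ ball (0 : ℂ) (1 / 2), N.eval s = ∏ i : Fin D, sh D j k φ i s := by
  have hD0 : 0 < D := by omega
  let z : Fin D := ⟨0, hD0⟩
  -- values of the norm
  have hval : ∀ φ : Fn D, ∀ s ∈ ball (0 : ℂ) (1 / 2),
      (pr j k φ D z).eval s = ∏ i : Fin D, sh D j k φ i s := by
    intro φ s hs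
    have hs' : ‖s‖ < 1 / 2 := by rwa [mem_ball_zero_iff] at hs
    have h1 := dft (j := j) (k := k) hD0 (pr j k φ D) 0 z (by simp [z]) s
    have h2 : ∀ i : Fin D, ze D ^ (0 * (i : ℕ)) * sh D j k (pr j k φ D) i s =
        ∏ i : Fin D, sh D j k φ i s := by
      intro i
      rw [zero_mul, pow_zero, one_mul, sh_pr hD0 φ D i hs']
      exact prod_full hD0 (fun n => sh D j k φ n s) (fun n => sh_mod hD0 φ n s) i
    rw [Finset.sum_congr rfl fun i _ => h2 i, Finset.sum_const, Finset.card_univ, Fintype.card_fin,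
      nsmul_eq_mul] at h1
    have h3 : et D j k (z : ℕ) s = 1 := by simp [et, z]
    rw [h3, mul_one] at h1
    exact (mul_left_cancel₀ (by exact_mod_cast hD0.ne') h1).symm
  have hdeg : ∀ φ ∈ W D j k d, (pr j k φ D z).natDegree ≤ d * D := by
    intro φ hφ
    have h1 : pr j k φ D z ∈ Polynomial.degreeLT ℂ (d * D + 1 - cc D j k z) :=
      (Submodule.mem_pi.1 (pr_mem hD0 hφ D)) z (Set.mem_univ z)
    rw [Polynomial.mem_degreeLT] at h1
    by_cases h0 : pr j k φ D z = 0
    · rw [h0, Polynomial.natDegree_zero]; omega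
    · have h2 : (pr j k φ D z).natDegree < d * D + 1 - cc D j k z :=
        (Polynomial.natDegree_lt_iff_degree_lt h0).2 h1
      omega
  have hxp : xp D d ∈ W D j k d := xp_mem hD0 le_rfl
  have hN0 : pr j k (xp D d) D z = Polynomial.X ^ (d * D) := by
    apply Polynomial.eq_of_infinite_eval_eq
    refine (infinite_of_mem_nhds (0 : ℂ) (ball_mem_nhds 0 (by norm_num : (0 : ℝ) < 1 / 2))).mono ?_
    intro s hs
    have hs' : ‖s‖ < 1 / 2 := by rwa [mem_ball_zero_iff] at hs
    show (pr j k (xp D d) D z).eval s = (Polynomial.X ^ (d * D) : Polynomial ℂ).eval s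
    rw [hval _ s hs, Finset.prod_congr rfl fun (i : Fin D) _ => sh_xp (j := j) (k := k) hD0 d (i : ℕ) hs',
      Finset.prod_const,
      Finset.card_univ, Fintype.card_fin, Polynomial.eval_pow, Polynomial.eval_X, pow_mul]
  -- continuity
  let c0 : Fin D × Fin (d + 1) → ℂ := fun x => (xp D d x.1).coeff (x.2 : ℕ)
  have hc0 : P D d c0 = xp D d := P_eq hxp
  have hev : ∀ᶠ c in 𝓝 c0, ∀ l ∈ Finset.range (d * D + 1),
      ‖(pr j k (P D d c) D z - Polynomial.X ^ (d * D)).coeff l‖ < ε := by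
    rw [Filter.eventually_all_finset]
    intro l _
    have h1 : Continuous fun c => ‖(pr j k (P D d c) D z - Polynomial.X ^ (d * D)).coeff l‖ := by
      simp_rw [Polynomial.coeff_sub]
      exact (((CC.pr (j := j) (k := k) (P_cc d) D z) l).sub continuous_const).norm
    have h2 : ‖(pr j k (P D d c0) D z - Polynomial.X ^ (d * D)).coeff l‖ < ε := by
      rw [hc0, hN0, sub_self, Polynomial.coeff_zero, norm_zero]
      exact hε
    exact h1.continuousAt.eventually_lt continuousAt_const h2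
  obtain ⟨η, hη, h⟩ := Metric.eventually_nhds_iff.1 hev
  refine ⟨η, hη, fun φ hφ hc => ⟨pr j k φ D z, hdeg φ hφ, fun l => ?_, hval φ⟩⟩
  by_cases hl : l ≤ d * D
  · have h1 : dist (fun x : Fin D × Fin (d + 1) => (φ x.1).coeff (x.2 : ℕ)) c0 < η := by
      rw [dist_pi_lt_iff hη]
      intro x
      rw [dist_eq_norm, ← Polynomial.coeff_sub]
      exact hc x.1 x.2
    have h2 := h h1 l (Finset.mem_range.2 (by omega))
    rwa [P_eq hφ] at h2
  · have h1 : (pr j k φ D z).coeff l = 0 :=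
      Polynomial.coeff_eq_zero_of_natDegree_lt (lt_of_le_of_lt (hdeg φ hφ) (by omega))
    rw [Polynomial.coeff_sub, h1, Polynomial.coeff_X_pow, if_neg (by omega), sub_zero, norm_zero]
    exact hε

/-- (JF1b) the trace of a differential -/
theorem trace_poly (hD : 3 ≤ D) (hj : 0 < j) (hk : 0 < k) (hjk : j + k < D)
    (hg : Nat.gcd (Nat.gcd j k) D = 1) (d : ℕ)
    (hd : 1 ≤ d) (φ ψ : Fn D) (hφ : φ ∈ W D j k d) (hψ : ψ ∈ W D j k d) (t : PJ D j k) :
    ∃ κ : Polynomial ℂ, κ.natDegree + 2 ≤ d * D ∧ ∀ s ∈ ball (0 : ℂ) (1 / 2),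
      ∑ i : Fin D, ze D ^ ((t.1 : ℕ) * (i : ℕ)) * wt D j k t.1 s * sh D j k ψ i s *
        ∏ l ∈ Finset.univ.erase i, sh D j k φ l s = κ.eval s := by
  have hD0 : 0 < D := by omega
  have ht0 : 0 < (t.1 : ℕ) := by
    rcases Nat.eq_zero_or_pos (t.1 : ℕ) with h | h
    · have := t.2.1
      rw [h, zero_mul, Nat.zero_mod] at this
      omega
    · exact h
  have htD : (t.1 : ℕ) < D := t.1.2
  let u0 : Fin D := ⟨D - t.1, by omega⟩
  let g : Fn D := mulF D j k ψ (pr j k (tw D 1 φ) (D - 1))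
  have hdD : 3 ≤ d * D := by nlinarith
  have hgm : g ∈ W D j k (d + d * (D - 1)) := mulF_mem hD0 hψ (pr_mem hD0 (tw_mem hφ) _)
  have hdd : d + d * (D - 1) = d * D := by
    obtain ⟨m, rfl⟩ : ∃ m, D = m + 1 := ⟨D - 1, by omega⟩
    rw [Nat.add_sub_cancel]; ring
  rw [hdd] at hgm
  refine ⟨Polynomial.C (D : ℂ) * g u0, ?_, ?_⟩
  · have h1 : g u0 ∈ Polynomial.degreeLT ℂ (d * D + 1 - cc D j k u0) :=
      (Submodule.mem_pi.1 hgm) u0 (Set.mem_univ u0)
    have h2 : cc D j k (u0 : ℕ) = 2 := cc_neg hD hj hk hjk hg t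
    rw [h2, Polynomial.mem_degreeLT] at h1
    have h3 : (g u0).natDegree + 2 ≤ d * D := by
      by_cases h0 : g u0 = 0
      · rw [h0, Polynomial.natDegree_zero]; omega
      · have h4 : (g u0).natDegree < d * D + 1 - 2 := (Polynomial.natDegree_lt_iff_degree_lt h0).2 h1
        omega
    have h5 := Polynomial.natDegree_C_mul_le (D : ℂ) (g u0)
    omega
  · intro s hs
    have hs' : ‖s‖ < 1 / 2 := by rwa [mem_ball_zero_iff] at hs
    have h1 : ∀ i : Fin D, sh D j k g i s =
        sh D j k ψ i s * ∏ l ∈ Finset.univ.erase i, sh D j k φ l s := by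
      intro i
      rw [sh_mulF hD0 _ _ _ hs', sh_pr hD0 _ _ _ hs']
      congr 1
      rw [← prod_shift hD0 (fun n => sh D j k φ n s) (fun n => sh_mod hD0 φ n s) i]
      refine Finset.prod_congr rfl fun l _ => ?_
      rw [sh_tw hD0]
      congr 1
      omega
    have h2 := dft (j := j) (k := k) hD0 g t.1 u0 (by
      show D ∣ (t.1 : ℕ) + (D - t.1)
      rw [Nat.add_sub_cancel' htD.le]) s
    have h3 : ∑ i : Fin D, ze D ^ ((t.1 : ℕ) * (i : ℕ)) * wt D j k t.1 s * sh D j k ψ i s *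
        ∏ l ∈ Finset.univ.erase i, sh D j k φ l s =
        wt D j k t.1 s * ∑ i : Fin D, ze D ^ ((t.1 : ℕ) * (i : ℕ)) * sh D j k g i s := by
      rw [Finset.mul_sum]
      refine Finset.sum_congr rfl fun i _ => ?_
      rw [h1 i]
      ring
    rw [h3, h2, Polynomial.eval_mul, Polynomial.eval_C]
    have h4 := wt_eq (D := D) (j := j) (k := k) (t.1 : ℕ) hs'
    have h5 := et_neg hD t hs'
    have h6 : (1 / 2 + s) * (1 / 2 - s) ≠ 0 := by
      refine mul_ne_zero ?_ ?_
      · intro h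
        have : s = -(1 / 2) := by linear_combination h
        rw [this, norm_neg] at hs'
        norm_num at hs'
      · intro h
        have : s = 1 / 2 := by linear_combination -h
        rw [this] at hs'
        norm_num at hs'
    have h7 : wt D j k t.1 s * et D j k (u0 : ℕ) s = 1 := by
      have h8 : wt D j k t.1 s * et D j k (u0 : ℕ) s * ((1 / 2 + s) * (1 / 2 - s)) =
          1 * ((1 / 2 + s) * (1 / 2 - s)) := by
        calc wt D j k t.1 s * et D j k (u0 : ℕ) s * ((1 / 2 + s) * (1 / 2 - s))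
            = (wt D j k t.1 s * ((1 / 2 + s) * (1 / 2 - s))) * et D j k (u0 : ℕ) s := by ring
          _ = et D j k t.1 s * et D j k (D - (t.1 : ℕ)) s := by rw [h4]
          _ = 1 * ((1 / 2 + s) * (1 / 2 - s)) := by rw [h5, one_mul]
      exact mul_right_cancel₀ h6 h8
    calc wt D j k t.1 s * ((D : ℂ) * ((g u0).eval s * et D j k (u0 : ℕ) s))
        = (wt D j k t.1 s * et D j k (u0 : ℕ) s) * ((D : ℂ) * (g u0).eval s) := by ring
      _ = (D : ℂ) * (g u0).eval s := by rw [h7, one_mul]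

end Pool.Agent.WW
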