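import Pool.Agent.WW.JD
import Pool.Agent.WW.JE
import Pool.Agent.WW.JF

set_option autoImplicit false

namespace Pool.Agent.WW

open Metric Filter Topology

variable {D j k : ℕ}

/-- the divisor of zeros is determined by the function -/
theorem JG.van_unique (E : Multiset ℂ) : ∀ (E' : Multiset ℂ) (v v' : ℂ → ℂ),
    DifferentiableOn ℂ v (ball 0 (1 / 4)) → DifferentiableOn ℂ v' (ball 0 (1 / 4)) →
    (∀ s ∈ ball (0 : ℂ) (1 / 8), v s ≠ 0) → (∀ s ∈ ball (0 : ℂ) (1 / 8), v' s ≠ 0) →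
    (∀ α ∈ E, ‖α‖ < 1 / 8) → (∀ α ∈ E', ‖α‖ < 1 / 8) →
    (∀ s ∈ ball (0 : ℂ) (1 / 4), (E.map fun α => s - α).prod * v s =
      (E'.map fun α => s - α).prod * v' s) → E = E' := by
  induction E using Multiset.induction with
  | empty =>
    intro E' v v' _ _ h0 _ _ hE' h
    symm
    rw [Multiset.eq_zero_iff_forall_notMem]
    intro a ha
    have ha8 : ‖a‖ < 1 / 8 := hE' a ha
    have h1 := h a (by rw [mem_ball_zero_iff]; linarith)
    have h2 : (E'.map fun α => a - α).prod = 0 :=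
      Multiset.prod_eq_zero (Multiset.mem_map.2 ⟨a, ha, sub_self a⟩)
    rw [h2, Multiset.map_zero, Multiset.prod_zero, one_mul, zero_mul] at h1
    exact h0 a (by rw [mem_ball_zero_iff]; linarith) h1
  | cons a E ih =>
    intro E' v v' hv hv' h0 h0' hE hE' h
    have ha8 : ‖a‖ < 1 / 8 := hE a (Multiset.mem_cons_self a E)
    have h1 := h a (by rw [mem_ball_zero_iff]; linarith)
    rw [Multiset.map_cons, Multiset.prod_cons, sub_self, zero_mul, zero_mul] at h1
    have h2 : (E'.map fun α => a - α).prod = 0 := by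
      rcases mul_eq_zero.1 h1.symm with h3 | h3
      · exact h3
      · exact absurd h3 (h0' a (by rw [mem_ball_zero_iff]; linarith))
    rw [Multiset.prod_eq_zero_iff, Multiset.mem_map] at h2
    obtain ⟨b, hb, hab⟩ := h2
    have hba : b = a := (sub_eq_zero.1 hab).symm
    subst hba
    obtain ⟨F, rfl⟩ := Multiset.exists_cons_of_mem hb
    congr 1
    refine ih F v v' hv hv' h0 h0' (fun α hα => hE α (Multiset.mem_cons_of_mem hα))
      (fun α hα => hE' α (Multiset.mem_cons_of_mem hα)) ?_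
    have hcont : ∀ (G : Multiset ℂ) (w : ℂ → ℂ), DifferentiableOn ℂ w (ball 0 (1 / 4)) →
        ContinuousOn (fun s => (G.map fun α => s - α).prod * w s) (ball 0 (1 / 4)) := by
      intro G w hw
      refine ContinuousOn.mul ?_ hw.continuousOn
      exact (continuous_multiset_prod G fun α _ => continuous_id.sub continuous_const).continuousOn
    have hne : ∀ s ∈ ball (0 : ℂ) (1 / 4), s ≠ b → (E.map fun α => s - α).prod * v s =
        (F.map fun α => s - α).prod * v' s := by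
      intro s hs hsb
      have h3 := h s hs
      rw [Multiset.map_cons, Multiset.prod_cons, Multiset.map_cons, Multiset.prod_cons, mul_assoc,
        mul_assoc] at h3
      exact mul_left_cancel₀ (sub_ne_zero.2 hsb) h3
    intro s hs
    by_cases hsb : s = b
    · subst hsb
      have hc1 := ((hcont E v hv).sub (hcont F v' hv')).continuousAt
        (isOpen_ball.mem_nhds hs)
      have hev : ∀ᶠ z in 𝓝[≠] s, (E.map fun α => z - α).prod * v z -
          (F.map fun α => z - α).prod * v' z = 0 := by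
        rw [eventually_nhdsWithin_iff]
        filter_upwards [isOpen_ball.mem_nhds hs] with z hz hzs
        rw [hne z hz hzs, sub_self]
      have ht1 := hc1.tendsto.mono_left (nhdsWithin_le_nhds (s := {s}ᶜ))
      have ht2 : Tendsto (fun z => (E.map fun α => z - α).prod * v z -
          (F.map fun α => z - α).prod * v' z) (𝓝[≠] s) (𝓝 0) :=
        tendsto_const_nhds.congr' (by filter_upwards [hev] with z hz; exact hz.symm)
      exact sub_eq_zero.1 (tendsto_nhds_unique ht1 ht2)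
    · exact hne s hs hsb

/-- uniqueness of the divisor of zeros -/
theorem divOf_unique {φ : Fn D} {E E' : Dv D} {c : ℂ} (hc : c ≠ 0) (hE : DivOf D j k φ E)
    (hE' : DivOf D j k (c • φ) E') (h : SmallD (1 / 8) E) (h' : SmallD (1 / 8) E') : E = E' := by
  funext i
  obtain ⟨v, hv, hv0, hvs⟩ := hE i
  obtain ⟨v', hv', hv0', hvs'⟩ := hE' i
  refine JG.van_unique (E i) (E' i) (fun s => c * v s) v' (hv.const_mul c) hv'
    (fun s hs => mul_ne_zero hc (hv0 s hs)) hv0' (h i) (h' i) ?_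
  intro s hs
  rw [← hvs' s hs]
  have e : sh D j k (c • φ) i s = c * sh D j k φ i s := by
    simp only [sh, Pi.smul_apply, Polynomial.eval_smul, smul_eq_mul, Finset.mul_sum]
    exact Finset.sum_congr rfl fun t _ => by ring
  rw [e, hvs s hs]
  ring

theorem JG.sh_sub' (a b : Fn D) (i : ℕ) (s : ℂ) :
    sh D j k (a - b) i s = sh D j k a i s - sh D j k b i s := by
  simp only [sh, Pi.sub_apply, Polynomial.eval_sub, sub_mul, Finset.sum_sub_distrib]

theorem JG.norm_ze (D n : ℕ) : ‖ze D ^ n‖ = 1 := by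
  rw [norm_pow, ze]
  have h1 : (2 * (Real.pi : ℂ) * Complex.I / D) = ((2 * Real.pi / D : ℝ) : ℂ) * Complex.I := by
    push_cast
    ring
  rw [h1, Complex.norm_exp_ofReal_mul_I, one_pow]

/-- small coefficients give small values -/
theorem JG.sh_near (hD : 0 < D) (d : ℕ) (κ : ℝ) (hκ : 0 < κ) :
    ∃ η : ℝ, 0 < η ∧ ∀ φ ∈ W D j k d, (∀ t l, ‖((φ - xp D d) t).coeff l‖ < η) →
      ∀ i : ℕ, ∀ s ∈ ball (0 : ℂ) (1 / 4), ‖sh D j k φ i s - s ^ d‖ ≤ κ := by
  have hC : ∀ t : Fin D, ∃ C : ℝ, ∀ s ∈ closedBall (0 : ℂ) (1 / 4), ‖et D j k t s‖ ≤ C := by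
    intro t
    refine (isCompact_closedBall (0 : ℂ) (1 / 4)).exists_bound_of_continuousOn ?_
    exact (et_diff (t : ℕ)).continuousOn.mono
      (closedBall_subset_ball (by norm_num))
  choose C hC using hC
  have hC0 : ∀ t, 0 ≤ C t := fun t => (norm_nonneg _).trans (hC t 0 (mem_closedBall_self (by norm_num)))
  set S : ℝ := ∑ t : Fin D, ((d : ℝ) + 1) * C t with hS
  have hS0 : 0 ≤ S := Finset.sum_nonneg fun t _ => mul_nonneg (by positivity) (hC0 t)
  refine ⟨κ / (S + 1), by positivity, ?_⟩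
  intro φ hφ hco i s hs
  have hs4 : ‖s‖ < 1 / 4 := mem_ball_zero_iff.1 hs
  rw [← sh_xp (j := j) (k := k) hD d i (by linarith : ‖s‖ < 1 / 2), ← JG.sh_sub']
  have hψ : φ - xp D d ∈ W D j k d := sub_mem hφ (xp_mem hD le_rfl)
  have hdeg : ∀ t, ((φ - xp D d) t).natDegree < d + 1 := by
    intro t
    have h1 := hψ
    unfold W at h1
    rw [Submodule.mem_pi] at h1
    have h2 := h1 t (Set.mem_univ t)
    have h3 := Polynomial.degreeLT_mono (R := ℂ) (Nat.sub_le (d + 1) (cc D j k t)) h2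
    by_cases h0 : (φ - xp D d) t = 0
    · rw [h0, Polynomial.natDegree_zero]
      omega
    · exact (Polynomial.natDegree_lt_iff_degree_lt h0).2 (Polynomial.mem_degreeLT.1 h3)
  have heval : ∀ t, ‖((φ - xp D d) t).eval s‖ ≤ ((d : ℝ) + 1) * (κ / (S + 1)) := by
    intro t
    rw [Polynomial.eval_eq_sum_range' (hdeg t)]
    calc _ ≤ ∑ l ∈ Finset.range (d + 1), ‖((φ - xp D d) t).coeff l * s ^ l‖ := norm_sum_le _ _
      _ ≤ ∑ l ∈ Finset.range (d + 1), κ / (S + 1) := by
          refine Finset.sum_le_sum fun l _ => ?_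
          rw [norm_mul, norm_pow]
          calc _ ≤ (κ / (S + 1)) * 1 := by
                refine mul_le_mul (hco t l).le (pow_le_one₀ (norm_nonneg _) (by linarith))
                  (by positivity) (by positivity)
            _ = _ := mul_one _
      _ = _ := by
          rw [Finset.sum_const, Finset.card_range, nsmul_eq_mul]
          push_cast
          ring
  unfold sh
  calc _ ≤ ∑ t : Fin D, ‖((φ - xp D d) t).eval s * ze D ^ ((t : ℕ) * i) * et D j k t s‖ :=
        norm_sum_le _ _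
    _ ≤ ∑ t : Fin D, (κ / (S + 1)) * (((d : ℝ) + 1) * C t) := by
        refine Finset.sum_le_sum fun t _ => ?_
        rw [norm_mul, norm_mul, JG.norm_ze D, mul_one]
        calc _ ≤ (((d : ℝ) + 1) * (κ / (S + 1))) * C t :=
              mul_le_mul (heval t) (hC t s (ball_subset_closedBall hs)) (norm_nonneg _)
                (by positivity)
          _ = _ := by ring
    _ = (κ / (S + 1)) * S := by rw [← Finset.mul_sum]
    _ ≤ κ := by
        rw [div_mul_eq_mul_div, div_le_iff₀ (by positivity)]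
        nlinarith

theorem JG.AJ_add (E e : Dv D) (t : ℕ) :
    AJ D j k (fun i => E i + e i) t = AJ D j k E t + AJ D j k e t := by
  unfold AJ
  rw [← Finset.sum_add_distrib]
  refine Finset.sum_congr rfl fun i _ => ?_
  rw [Multiset.map_add, Multiset.sum_add, mul_add]

theorem JG.ty_le {d : ℕ} {ty : Fin D → ℕ} (ha : Adt D j k d ty) (i : Fin D) : ty i ≤ d := by
  rcases ha with ⟨rfl, rfl⟩ | ⟨rfl, rfl⟩ | ⟨rfl, rfl⟩
  · unfold tA; split_ifs <;> omega
  · unfold tB; split_ifs <;> omega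
  · unfold tC; split_ifs <;> omega

theorem JG.d_pos {d : ℕ} {ty : Fin D → ℕ} (ha : Adt D j k d ty) : 1 ≤ d := by
  rcases ha with ⟨rfl, rfl⟩ | ⟨rfl, rfl⟩ | ⟨rfl, rfl⟩ <;> omega

theorem JG.exists_pos_le (hD : 0 < D) (f : Fin D → ℝ) (hf : ∀ i, 0 < f i) :
    ∃ η : ℝ, 0 < η ∧ ∀ i, η ≤ f i := by
  have : Nonempty (Fin D) := ⟨⟨0, hD⟩⟩
  obtain ⟨i0, hi0⟩ := Finite.exists_min f
  exact ⟨f i0, hf i0, hi0⟩

/-- (JG) residual divisors -/
theorem residual (hD : 3 ≤ D) (hj : 0 < j) (hk : 0 < k) (hjk : j + k < D)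
    (hg : Nat.gcd (Nat.gcd j k) D = 1) {d : ℕ}
    {ty : Fin D → ℕ} (ha : Adt D j k d ty) (ε : ℝ) (hε : 0 < ε) :
    ∃ δ : ℝ, 0 < δ ∧ ∀ E : Dv D, Typ E ty → SmallD δ E → ∃ e : Dv D,
      (Typ e fun i => d - ty i) ∧ SmallD ε e ∧
      (∃ φ : Fn D, φ ≠ 0 ∧ WE D j k d E = Submodule.span ℂ {φ} ∧
        DivOf D j k φ fun i => E i + e i) ∧
      ∀ t : PJ D j k, AJ D j k e t.1 = - AJ D j k E t.1 := by
  have hD0 : 0 < D := by omega
  obtain ⟨ηa, hηa, habel⟩ := abel hD hj hk hjk hg d (JG.d_pos ha)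
  have hz := fun i : Fin D => zeros_near (d - ty i) (min ε (1 / 16)) (by positivity)
  choose ηz hηz hzero using hz
  have hn := fun i : Fin D => div_near (ty i) (d - ty i) (ηz i) (hηz i)
  choose ηn hηn hdiv using hn
  obtain ⟨η1, hη1, hη1le⟩ := JG.exists_pos_le hD0 ηn hηn
  obtain ⟨η2, hη2, hnear⟩ := JG.sh_near (j := j) (k := k) hD0 d η1 hη1
  obtain ⟨δ0, hδ0, hgen⟩ := gen_WE hD hj hk hjk hg ha (min ηa η2) (lt_min hηa hη2)
  refine ⟨min δ0 (min η1 (1 / 16)), by positivity, ?_⟩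
  intro E hE hs
  obtain ⟨φ, hφ0, hφ, hco⟩ := hgen E hE
    (fun i α hα => (hs i α hα).trans_le (min_le_left _ _))
  have hφm : φ ∈ WE D j k d E := by rw [hφ]; exact Submodule.mem_span_singleton_self φ
  obtain ⟨hφW, hφV⟩ := hφm
  have hsh : ∀ i : Fin D, ∀ s ∈ ball (0 : ℂ) (1 / 4), ‖sh D j k φ i s - s ^ d‖ ≤ η1 := fun i =>
    hnear φ hφW (fun t l => (hco t l).trans_le (min_le_right _ _)) i
  have hex : ∀ i : Fin D, ∃ (e : Multiset ℂ) (v : ℂ → ℂ), e.card = d - ty i ∧
      (∀ α ∈ e, ‖α‖ < min ε (1 / 16)) ∧ DifferentiableOn ℂ v (ball 0 (1 / 4)) ∧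
      (∀ s ∈ ball (0 : ℂ) (1 / 8), v s ≠ 0) ∧
      ∀ s ∈ ball (0 : ℂ) (1 / 4),
        sh D j k φ i s = ((E i + e).map fun α => s - α).prod * v s := by
    intro i
    obtain ⟨χ, hχ, hχs⟩ := hφV i
    have hty : ty i + (d - ty i) = d := Nat.add_sub_cancel' (JG.ty_le ha i)
    have h1 := hdiv i (sh D j k φ i) χ (E i) hχ
      (fun s hs' => by rw [hty]; exact (hsh i s hs').trans (hη1le i)) (hE i)
      (fun α hα => (hs i α hα).trans_le (((min_le_right _ _).trans (min_le_left _ _)).trans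
        (hη1le i))) hχs
    obtain ⟨e, v, he1, he2, hv1, hv2, hv3⟩ := hzero i χ hχ h1
    refine ⟨e, v, he1, he2, hv1, hv2, fun s hs' => ?_⟩
    rw [hχs s hs', hv3 s hs', Multiset.map_add, Multiset.prod_add, mul_assoc]
  choose e v he1 he2 hv1 hv2 hv3 using hex
  have hdivof : DivOf D j k φ fun i => E i + e i := fun i => ⟨v i, hv1 i, hv2 i, hv3 i⟩
  refine ⟨e, he1, fun i α hα => (he2 i α hα).trans_le (min_le_left _ _),
    ⟨φ, hφ0, hφ, hdivof⟩, fun t => ?_⟩
  have h1 := habel φ hφW (fun t l => (hco t l).trans_le (min_le_left _ _)) _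
    (fun i => by
      rw [Multiset.card_add, hE i, he1 i]
      exact Nat.add_sub_cancel' (JG.ty_le ha i))
    (fun i α hα => by
      rcases Multiset.mem_add.1 hα with h | h
      · exact (hs i α h).trans_le ((min_le_right _ _).trans (min_le_right _ _))
      · exact (he2 i α h).trans_le (min_le_right _ _)) hdivof t
  rw [JG.AJ_add] at h1
  exact eq_neg_of_add_eq_zero_right h1

theorem JG.finite_W (hD : 3 ≤ D) (hj : 0 < j) (hk : 0 < k) (hjk : j + k < D)
    (hg : Nat.gcd (Nat.gcd j k) D = 1) {n : ℕ} (hn : 1 ≤ n) : Module.Finite ℂ (W D j k n) := by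
  have h1 := finrank_W hD hj hk hjk hg hn
  have h2 := genus_le hD hj hk hjk hg
  have h3 : D ≤ D * n := Nat.le_mul_of_pos_right D hn
  exact Module.finite_of_finrank_pos (by omega)

/-- (JG2) functions vanishing on the divisor of `φ` are divisible by `φ` -/
theorem div_phi (hD : 3 ≤ D) (hj : 0 < j) (hk : 0 < k) (hjk : j + k < D)
    (hg : Nat.gcd (Nat.gcd j k) D = 1) {d m : ℕ}
    (hd : d ≤ 2) (hm : 1 ≤ m) (hdm : 3 ≤ m + d) :
    ∃ δ : ℝ, 0 < δ ∧ ∀ E : Dv D, (Typ E fun _ => d) → SmallD δ E → ∀ φ ∈ W D j k d,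
      DivOf D j k φ E → ∀ ψ ∈ WE D j k (m + d) E, ∃ χ ∈ W D j k m, ψ = mulF D j k φ χ := by
  have hD0 : 0 < D := by omega
  obtain ⟨δ, hδ, hdim⟩ := dim_WE hD hj hk hjk hg (n := m + d) hdm (fun _ => d) (fun _ => hd)
  refine ⟨δ, hδ, ?_⟩
  intro E hE hs φ hφ hdiv ψ hψ
  obtain ⟨M, hM⟩ := exists_mulL (D := D) (j := j) (k := k)
  have : Module.Finite ℂ (W D j k m) := JG.finite_W hD hj hk hjk hg hm
  have : Module.Finite ℂ (W D j k (m + d)) := JG.finite_W hD hj hk hjk hg (by omega)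
  have hle : WE D j k (m + d) E ≤ W D j k (m + d) := fun f hf => hf.1
  have : Module.Finite ℂ (WE D j k (m + d) E) := Submodule.finiteDimensional_of_le hle
  have hmem : ∀ χ ∈ W D j k m, mulF D j k φ χ ∈ WE D j k (m + d) E := by
    intro χ hχ
    refine ⟨by rw [add_comm]; exact mulF_mem hD0 hφ hχ, fun i => ?_⟩
    obtain ⟨v, hv1, _, hv3⟩ := hdiv i
    refine ⟨fun s => v s * sh D j k χ i s, hv1.mul ((sh_diff χ i).mono
      (ball_subset_ball (by norm_num))), fun s hs' => ?_⟩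
    have h4 : ‖s‖ < 1 / 4 := mem_ball_zero_iff.1 hs'
    rw [sh_mulF hD0 φ χ i (by linarith : ‖s‖ < 1 / 2), hv3 s hs', mul_assoc]
  let L : W D j k m →ₗ[ℂ] WE D j k (m + d) E :=
    LinearMap.codRestrict _ ((M φ).comp (W D j k m).subtype) (fun χ => by
      show M φ (χ : Fn D) ∈ _
      rw [hM]
      exact hmem _ χ.2)
  have hL : ∀ χ : W D j k m, (L χ : Fn D) = mulF D j k φ χ := fun χ => hM φ χ
  have hinj : Function.Injective L := by
    rw [← LinearMap.ker_eq_bot, LinearMap.ker_eq_bot']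
    intro χ hχ
    have h0 : mulF D j k φ χ = 0 := by rw [← hL, hχ]; rfl
    apply Subtype.ext
    show (χ : Fn D) = 0
    refine sh_inj hD0 (j := j) (k := k) χ (ρ := 1 / 8) (by norm_num) ?_
    intro i s hs8
    have hs8' : ‖s‖ < 1 / 8 := mem_ball_zero_iff.1 hs8
    obtain ⟨v, hv1, hv2, hv3⟩ := hdiv i
    have hprod : ∀ z ∈ ball (0 : ℂ) (1 / 8), (∀ α ∈ E i, z ≠ α) → sh D j k χ i z = 0 := by
      intro z hz hne
      have hz8 : ‖z‖ < 1 / 8 := mem_ball_zero_iff.1 hz
      have h1 := sh_mulF hD0 (j := j) (k := k) φ χ i (by linarith : ‖z‖ < 1 / 2)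
      rw [h0, hv3 z (by rw [mem_ball_zero_iff]; linarith)] at h1
      have h2 : sh D j k (0 : Fn D) i z = 0 := by simp [sh]
      rw [h2] at h1
      rcases mul_eq_zero.1 h1.symm with h3 | h3
      · exfalso
        rcases mul_eq_zero.1 h3 with h4 | h4
        · rw [Multiset.prod_eq_zero_iff, Multiset.mem_map] at h4
          obtain ⟨α, hα, hα0⟩ := h4
          exact hne α hα (sub_eq_zero.1 hα0)
        · exact hv2 z hz h4
      · exact h3
    have hev : ∀ᶠ z in 𝓝[≠] s, sh D j k χ i z = 0 := by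
      have hfin : ∀ᶠ z in 𝓝[≠] s, ∀ α ∈ (E i).toFinset, z ≠ α := by
        rw [Filter.eventually_all_finset]
        intro α _
        by_cases hα : s = α
        · subst hα
          exact eventually_mem_nhdsWithin
        · exact (isOpen_ne.mem_nhds hα : {z | z ≠ α} ∈ 𝓝 s) |> mem_nhdsWithin_of_mem_nhds
      filter_upwards [hfin, mem_nhdsWithin_of_mem_nhds (isOpen_ball.mem_nhds hs8)] with z hz1 hz2
      exact hprod z hz2 (fun α hα => hz1 α (Multiset.mem_toFinset.2 hα))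
    have hc : ContinuousAt (sh D j k χ i) s :=
      (sh_diff (χ : Fn D) (i : ℕ)).continuousOn.continuousAt
        (isOpen_ball.mem_nhds (by rw [mem_ball_zero_iff]; linarith))
    exact tendsto_nhds_unique (hc.tendsto.mono_left (nhdsWithin_le_nhds (s := {s}ᶜ)))
      (tendsto_const_nhds.congr' (by filter_upwards [hev] with z hz; exact hz.symm))
  have hfr : Module.finrank ℂ (W D j k m) = Module.finrank ℂ (WE D j k (m + d) E) := by
    have h1 := hdim E hE hs
    have h2 := finrank_W hD hj hk hjk hg hm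
    rw [Finset.sum_const, Finset.card_univ, Fintype.card_fin, smul_eq_mul] at h1
    have h3 : D * (m + d) = D * m + D * d := Nat.mul_add D m d
    omega
  have hsurj : Function.Surjective L := (LinearMap.injective_iff_surjective_of_finrank_eq_finrank hfr).1 hinj
  obtain ⟨χ, hχ⟩ := hsurj ⟨ψ, hψ⟩
  refine ⟨χ, χ.2, ?_⟩
  rw [← hL χ, hχ]

end Pool.Agent.WW
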