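import Pool.Agent.WW.JDefs

set_option autoImplicit false

namespace Pool.Agent.WW

open MvPolynomial Metric Filter Topology

variable {X μ : Type} [TopologicalSpace X] {h : X → μ → ℂ} {x0 : X}

/-! (JH) closure properties of regular functions -/

private noncomputable abbrev KAh : IntermediateField ℚ ℂ := algebraicClosure ℚ ℂ

private theorem algC_iff_h {τ : Type} (p : MvPolynomial τ ℂ) :
    AlgC p ↔ ∃ q : MvPolynomial τ KAh, MvPolynomial.map (algebraMap KAh ℂ) q = p := by
  constructor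
  · intro h
    have h2 : p ∈ Set.range (MvPolynomial.map (σ := τ) (algebraMap KAh ℂ)) := by
      rw [mem_range_map_iff_coeffs_subset]
      intro c hc
      rw [Finset.mem_coe, mem_coeffs_iff] at hc
      obtain ⟨a, ha, hc⟩ := hc
      rw [hc]
      exact ⟨⟨p.coeff a, mem_algebraicClosure_iff.2 (h a)⟩, rfl⟩
    exact h2
  · rintro ⟨q, rfl⟩ a
    rw [coeff_map]
    exact mem_algebraicClosure_iff.1 (q.coeff a).2

private theorem hC {τ : Type} {c : ℂ} (hc : IsAlgebraic ℚ c) : AlgC (C c : MvPolynomial τ ℂ) :=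
  (algC_iff_h _).2 ⟨C ⟨c, mem_algebraicClosure_iff.2 hc⟩, by rw [map_C]; rfl⟩

private theorem hone {τ : Type} : AlgC (1 : MvPolynomial τ ℂ) :=
  (algC_iff_h _).2 ⟨1, by simp⟩

private theorem hX {τ : Type} (i : τ) : AlgC (MvPolynomial.X i : MvPolynomial τ ℂ) :=
  (algC_iff_h _).2 ⟨MvPolynomial.X i, by simp⟩

private theorem hmul {τ : Type} {p q : MvPolynomial τ ℂ} (hp : AlgC p) (hq : AlgC q) :
    AlgC (p * q) := by
  rw [algC_iff_h] at *
  obtain ⟨p', rfl⟩ := hp
  obtain ⟨q', rfl⟩ := hq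
  exact ⟨p' * q', by simp⟩

private theorem hadd {τ : Type} {p q : MvPolynomial τ ℂ} (hp : AlgC p) (hq : AlgC q) :
    AlgC (p + q) := by
  rw [algC_iff_h] at *
  obtain ⟨p', rfl⟩ := hp
  obtain ⟨q', rfl⟩ := hq
  exact ⟨p' + q', by simp⟩

private theorem hneg {τ : Type} {p : MvPolynomial τ ℂ} (hp : AlgC p) : AlgC (-p) := by
  rw [algC_iff_h] at *
  obtain ⟨p', rfl⟩ := hp
  exact ⟨-p', by simp⟩

private theorem hcont (hc : ContinuousAt h x0) (p : MvPolynomial μ ℂ) :
    ContinuousAt (fun x => eval (h x) p) x0 :=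
  (MvPolynomial.continuous_eval p).continuousAt.comp hc

theorem RegF.const {c : ℂ} (hc : IsAlgebraic ℚ c) : RegF h x0 fun _ => c :=
  ⟨C c, 1, hC hc, hone, by simp, Eventually.of_forall fun x => by simp⟩

theorem RegF.gen (a : μ) : RegF h x0 fun x => h x a :=
  ⟨MvPolynomial.X a, 1, hX a, hone, by simp, Eventually.of_forall fun x => by simp⟩

theorem RegF.congr {f g : X → ℂ} (hf : RegF h x0 f) (hfg : ∀ᶠ x in 𝓝 x0, f x = g x) :
    RegF h x0 g := by
  obtain ⟨p, q, hp, hq, h0, he⟩ := hf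
  refine ⟨p, q, hp, hq, h0, ?_⟩
  filter_upwards [he, hfg] with x h1 h2
  rw [← h2, h1]

theorem RegF.add (hc : ContinuousAt h x0) {f g : X → ℂ} (hf : RegF h x0 f) (hg : RegF h x0 g) :
    RegF h x0 fun x => f x + g x := by
  obtain ⟨p, q, hp, hq, h0, he⟩ := hf
  obtain ⟨p', q', hp', hq', h0', he'⟩ := hg
  refine ⟨p * q' + p' * q, q * q', hadd (hmul hp hq') (hmul hp' hq), hmul hq hq', ?_, ?_⟩
  · rw [map_mul]; exact mul_ne_zero h0 h0'
  · filter_upwards [he, he'] with x h1 h2
    rw [map_mul, map_add, map_mul, map_mul, ← h1, ← h2]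
    ring

theorem RegF.mul (hc : ContinuousAt h x0) {f g : X → ℂ} (hf : RegF h x0 f) (hg : RegF h x0 g) :
    RegF h x0 fun x => f x * g x := by
  obtain ⟨p, q, hp, hq, h0, he⟩ := hf
  obtain ⟨p', q', hp', hq', h0', he'⟩ := hg
  refine ⟨p * p', q * q', hmul hp hp', hmul hq hq', ?_, ?_⟩
  · rw [map_mul]; exact mul_ne_zero h0 h0'
  · filter_upwards [he, he'] with x h1 h2
    rw [map_mul, map_mul, ← h1, ← h2]
    ring

theorem RegF.neg {f : X → ℂ} (hf : RegF h x0 f) : RegF h x0 fun x => - f x := by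
  obtain ⟨p, q, hp, hq, h0, he⟩ := hf
  refine ⟨-p, q, hneg hp, hq, h0, ?_⟩
  filter_upwards [he] with x h1
  rw [map_neg, ← h1]
  ring

theorem RegF.inv (hc : ContinuousAt h x0) {f : X → ℂ} (hf : RegF h x0 f) (h0 : f x0 ≠ 0) :
    RegF h x0 fun x => (f x)⁻¹ := by
  obtain ⟨p, q, hp, hq, hq0, he⟩ := hf
  have hp0 : eval (h x0) p ≠ 0 := by
    rw [← he.self_of_nhds]
    exact mul_ne_zero h0 hq0
  refine ⟨q, p, hq, hp, hp0, ?_⟩
  filter_upwards [he, (hcont hc p).eventually_ne hp0] with x h1 h2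
  have hf0 : f x ≠ 0 := by
    intro h3
    rw [h3, zero_mul] at h1
    exact h2 h1.symm
  rw [← h1]
  field_simp

theorem RegF.sum (hc : ContinuousAt h x0) {τ : Type} (S : Finset τ) {f : τ → X → ℂ}
    (hf : ∀ a ∈ S, RegF h x0 (f a)) : RegF h x0 fun x => ∑ a ∈ S, f a x := by
  classical
  induction S using Finset.induction_on with
  | empty =>
    simp only [Finset.sum_empty]
    exact RegF.const isAlgebraic_zero
  | insert a S ha ih =>
    simp only [Finset.sum_insert ha]
    exact RegF.add hc (hf a (Finset.mem_insert_self _ _))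
      (ih fun b hb => hf b (Finset.mem_insert_of_mem hb))

theorem RegF.prod (hc : ContinuousAt h x0) {τ : Type} (S : Finset τ) {f : τ → X → ℂ}
    (hf : ∀ a ∈ S, RegF h x0 (f a)) : RegF h x0 fun x => ∏ a ∈ S, f a x := by
  classical
  induction S using Finset.induction_on with
  | empty =>
    simp only [Finset.prod_empty]
    exact RegF.const isAlgebraic_one
  | insert a S ha ih =>
    simp only [Finset.prod_insert ha]
    exact RegF.mul hc (hf a (Finset.mem_insert_self _ _))
      (ih fun b hb => hf b (Finset.mem_insert_of_mem hb))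

theorem RegF.continuousAt (hc : ContinuousAt h x0) {f : X → ℂ} (hf : RegF h x0 f) :
    ContinuousAt f x0 := by
  obtain ⟨p, q, hp, hq, hq0, he⟩ := hf
  have h1 : ContinuousAt (fun x => eval (h x) p / eval (h x) q) x0 :=
    (hcont hc p).div (hcont hc q) hq0
  refine h1.congr ?_
  filter_upwards [he, (hcont hc q).eventually_ne hq0] with x h1 h2
  rw [← h1]
  field_simp

/-- powers of regular functions are regular -/
theorem RegF.pow (hc : ContinuousAt h x0) {f : X → ℂ} (hf : RegF h x0 f) (n : ℕ) :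
    RegF h x0 fun x => f x ^ n := by
  induction n with
  | zero => simp only [pow_zero]; exact RegF.const isAlgebraic_one
  | succ n ih => simp only [pow_succ]; exact RegF.mul hc ih hf

/-- polynomials with algebraic coefficients in regular functions are regular -/
theorem RegF.evalP (hc : ContinuousAt h x0) {ν : Type} {h' : X → ν → ℂ}
    (hh : ∀ b, RegF h x0 fun x => h' x b) {p : MvPolynomial ν ℂ} (hp : AlgC p) :
    RegF h x0 fun x => eval (h' x) p := by
  simp only [eval_eq]
  refine RegF.sum hc _ fun d _ => RegF.mul hc (RegF.const (hp d)) (RegF.prod hc _ fun i _ => ?_)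
  exact RegF.pow hc (hh i) _

/-- substitution of regular functions -/
theorem RegF.comp (hc : ContinuousAt h x0) {ν : Type} {h' : X → ν → ℂ}
    (hh : ∀ b, RegF h x0 fun x => h' x b) {f : X → ℂ} (hf : RegF h' x0 f) : RegF h x0 f := by
  obtain ⟨p, q, hp, hq, hq0, he⟩ := hf
  have h1 := RegF.evalP hc hh hp
  have h2 := RegF.evalP hc hh hq
  have h3 := RegF.mul hc h1 (RegF.inv hc h2 hq0)
  refine h3.congr ?_
  filter_upwards [he, (h2.continuousAt hc).eventually_ne hq0] with x h4 h5
  rw [← h4]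
  field_simp

/-- pull back by a continuous map -/
theorem RegF.pull {Y : Type} [TopologicalSpace Y] {y0 : Y} (π : Y → X) (hπ : ContinuousAt π y0)
    (h0 : π y0 = x0) {f : X → ℂ} (hf : RegF h x0 f) : RegF (fun y => h (π y)) y0 fun y => f (π y) := by
  subst h0
  obtain ⟨p, q, hp, hq, hq0, he⟩ := hf
  exact ⟨p, q, hp, hq, hq0, hπ.eventually he⟩

theorem RegF.analyticAt {E : Type} [NormedAddCommGroup E] [NormedSpace ℂ E] {ν : Type}
    {g : E → ν → ℂ} {y0 : E} (hg : ∀ a, AnalyticAt ℂ (fun y => g y a) y0) {f : E → ℂ}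
    (hf : RegF g y0 f) : AnalyticAt ℂ f y0 := by
  obtain ⟨p, q, hp, hq, hq0, he⟩ := hf
  have key : ∀ r : MvPolynomial ν ℂ, AnalyticAt ℂ (fun y => eval (g y) r) y0 := by
    intro r
    have := AnalyticAt.aeval_mvPolynomial (𝕜 := ℂ) (B := ℂ) (f := g) (z := y0) hg r
    simpa only [MvPolynomial.aeval_eq_eval, MvPolynomial.coe_aeval_eq_eval] using this
  have h1 : AnalyticAt ℂ (fun y => eval (g y) p / eval (g y) q) y0 := (key p).div (key q) hq0
  refine h1.congr ?_
  filter_upwards [he, (key q).continuousAt.eventually_ne hq0] with x h2 h3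
  rw [← h2]
  field_simp

end Pool.Agent.WW
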