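import Pool.Agent.WW.JH

set_option autoImplicit false

namespace Pool.Agent.WW

open MvPolynomial Metric Filter Topology

variable {X μ : Type} [TopologicalSpace X] {h : X → μ → ℂ} {x0 : X}

/-- determinants of regular functions are regular -/
theorem RegF.det (hc : ContinuousAt h x0) {n : Type} [Fintype n] [DecidableEq n]
    (N : X → Matrix n n ℂ) (hN : ∀ a b, RegF h x0 fun x => N x a b) :
    RegF h x0 fun x => (N x).det := by
  have h1 : (fun x => (N x).det) =
      fun x => ∑ σ : Equiv.Perm n, (((Equiv.Perm.sign σ : ℤˣ) : ℤ) : ℂ) * ∏ i, N x (σ i) i := by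
    funext x
    exact Matrix.det_apply' (N x)
  rw [h1]
  refine RegF.sum hc _ fun σ _ => ?_
  exact RegF.mul hc (RegF.const (isAlgebraic_intCast _)) (RegF.prod hc _ fun i _ => hN _ _)

/-- entries of the inverse of a matrix of regular functions are regular -/
theorem RegF.matInv (hc : ContinuousAt h x0) {n : Type} [Fintype n] [DecidableEq n]
    (N : X → Matrix n n ℂ) (hN : ∀ a b, RegF h x0 fun x => N x a b) (h0 : (N x0).det ≠ 0)
    (a b : n) : RegF h x0 fun x => (N x)⁻¹ a b := by
  have h1 : (fun x => (N x)⁻¹ a b) = fun x => (N x).det⁻¹ * (N x).adjugate a b := by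
    funext x
    rw [Matrix.inv_def, Matrix.smul_apply, smul_eq_mul, Ring.inverse_eq_inv']
  rw [h1]
  refine RegF.mul hc (RegF.inv hc (RegF.det hc N hN) h0) ?_
  have h2 : (fun x => (N x).adjugate a b) =
      fun x => ((N x).updateRow b (Pi.single a 1)).det := by
    funext x
    rw [Matrix.adjugate_apply]
  rw [h2]
  refine RegF.det hc _ fun i j => ?_
  by_cases hi : i = b
  · subst hi
    simp only [Matrix.updateRow_self]
    by_cases hj : j = a
    · subst hj
      simpa using RegF.const (h := h) (x0 := x0) isAlgebraic_one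
    · simpa [Pi.single_apply, hj] using RegF.const (h := h) (x0 := x0) isAlgebraic_zero
  · simp only [Matrix.updateRow_apply, if_neg hi]
    exact hN i j

/-- (JH2) kernels of matrices of regular functions, of constant dimension -/
theorem RegF.ker (hc : ContinuousAt h x0) {ι κ : Type} [Fintype ι] [Fintype κ] [DecidableEq ι]
    [DecidableEq κ] (M : X → Matrix κ ι ℂ) (hM : ∀ a b, RegF h x0 fun x => M x a b)
    (hd : ∀ᶠ x in 𝓝 x0, Module.finrank ℂ (LinearMap.ker (M x0).mulVecLin) ≤
      Module.finrank ℂ (LinearMap.ker (M x).mulVecLin)) :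
    ∃ v : Fin (Module.finrank ℂ (LinearMap.ker (M x0).mulVecLin)) → X → ι → ℂ,
      (∀ a i, RegF h x0 fun x => v a x i) ∧
      ∀ᶠ x in 𝓝 x0, LinearIndependent ℂ (fun a => v a x) ∧
        LinearMap.ker (M x).mulVecLin = Submodule.span ℂ (Set.range fun a => v a x) := by
  classical
  -- the rows of `M x` and the coordinates
  let w : X → κ ⊕ ι → ι → ℂ := fun x => Sum.elim (fun a => M x a) (fun i => Pi.single i 1)
  have hwr : ∀ p i, RegF h x0 fun x => w x p i := by
    rintro (a | j) i
    · exact hM a i
    · by_cases hj : i = j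
      · subst hj
        simpa [w] using RegF.const (h := h) (x0 := x0) isAlgebraic_one
      · simpa [w, Pi.single_apply, hj] using RegF.const (h := h) (x0 := x0) isAlgebraic_zero
  -- choose a basis adapted to the row space at `x0`
  have hem : LinearIndepOn ℂ (w x0) ∅ := linearIndepOn_empty ℂ (w x0)
  let s : Set (κ ⊕ ι) := hem.extend (Set.empty_subset (Set.range Sum.inl))
  have hs1 : s ⊆ Set.range Sum.inl := hem.extend_subset _
  have hs2 : LinearIndepOn ℂ (w x0) s := hem.linearIndepOn_extend _
  have hs3 : Submodule.span ℂ (w x0 '' s) = Submodule.span ℂ (w x0 '' Set.range Sum.inl) :=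
    hem.span_image_extend_eq_span_image _
  let t : Set (κ ⊕ ι) := hs2.extend (Set.subset_univ s)
  have ht1 : s ⊆ t := hs2.subset_extend _
  have ht2 : LinearIndepOn ℂ (w x0) t := hs2.linearIndepOn_extend _
  have ht3 : Submodule.span ℂ (w x0 '' t) = ⊤ := by
    have := hs2.span_image_extend_eq_span_image (Set.subset_univ s)
    change Submodule.span ℂ (w x0 '' t) = _ at this
    rw [this, eq_top_iff]
    rw [← (Pi.basisFun ℂ ι).span_eq]
    refine Submodule.span_mono ?_
    rintro _ ⟨i, rfl⟩
    exact ⟨Sum.inr i, trivial, by simp [w]⟩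
  have : Fintype t := Fintype.ofFinite t
  have hcard : Fintype.card t = Fintype.card ι := by
    let b : Module.Basis t ℂ (ι → ℂ) := Module.Basis.mk ht2 (by
      rw [← ht3]
      refine Submodule.span_mono ?_
      rintro _ ⟨p, hp, rfl⟩
      exact ⟨⟨p, hp⟩, rfl⟩)
    rw [← Module.finrank_eq_card_basis b, Module.finrank_fintype_fun_eq_card]
  let e : t ≃ ι := Fintype.equivOfCardEq hcard
  let B : X → Matrix ι ι ℂ := fun x => Matrix.of fun i => w x (e.symm i)
  have hB : ∀ a b, RegF h x0 fun x => B x a b := fun a b => hwr _ _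
  have hB0 : (B x0).det ≠ 0 := by
    have h1 : LinearIndependent ℂ (B x0).row := by
      have : (B x0).row = (fun p : t => w x0 p) ∘ e.symm := rfl
      rw [this]
      exact ht2.comp _ e.symm.injective
    have h2 := Matrix.linearIndependent_rows_iff_isUnit.1 h1
    exact ((Matrix.isUnit_iff_isUnit_det _).1 h2).ne_zero
  have hBx : ∀ᶠ x in 𝓝 x0, (B x).det ≠ 0 := by
    have h1 : ContinuousAt (fun x => (B x).det) x0 := RegF.continuousAt hc (RegF.det hc B hB)
    exact h1.eventually_ne hB0
  -- the index set of the kernel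
  let J : Type := {p : t // ∃ i, (p : κ ⊕ ι) = Sum.inr i}
  have : Fintype J := Fintype.ofFinite J
  let v : J → X → ι → ℂ := fun p x => (B x)⁻¹.mulVec (Pi.single (e p.1) 1)
  have hBv : ∀ x, (B x).det ≠ 0 → ∀ p : J, (B x).mulVec (v p x) = Pi.single (e p.1) 1 := by
    intro x hx p
    simp only [v]
    rw [Matrix.mulVec_mulVec, Matrix.mul_nonsing_inv _ (isUnit_iff_ne_zero.2 hx),
      Matrix.one_mulVec]
  have hvr : ∀ p i, RegF h x0 fun x => v p x i := by
    intro p i
    have h1 : (fun x => v p x i) = fun x => (B x)⁻¹ i (e p.1) := by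
      funext x
      simp [v]
    rw [h1]
    exact RegF.matInv hc B hB hB0 _ _
  have hvi : ∀ x, (B x).det ≠ 0 → LinearIndependent ℂ (fun p => v p x) := by
    intro x hx
    have h1 : LinearIndependent ℂ (fun p : J => (B x).mulVecLin (v p x)) := by
      have : (fun p : J => (B x).mulVecLin (v p x)) =
          (fun i => (Pi.basisFun ℂ ι) i) ∘ fun p : J => e p.1 := by
        funext p
        simp only [Matrix.mulVecLin_apply, hBv x hx p, Function.comp, Pi.basisFun_apply]
      rw [this]
      exact (Pi.basisFun ℂ ι).linearIndependent.comp _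
        (e.injective.comp Subtype.val_injective)
    exact LinearIndependent.of_comp _ h1
  have hker : ∀ x, (B x).det ≠ 0 → ∀ u : ι → ℂ, (M x).mulVec u = 0 →
      u ∈ Submodule.span ℂ (Set.range fun p => v p x) := by
    intro x hx u hu
    have h1 : u = ∑ p : J, ((B x).mulVec u (e p.1)) • v p x := by
      have h2 : Function.Injective (B x).mulVec :=
        Matrix.mulVec_injective_of_isUnit ((Matrix.isUnit_iff_isUnit_det _).2
          (isUnit_iff_ne_zero.2 hx))
      apply h2
      rw [Matrix.mulVec_sum]
      simp only [Matrix.mulVec_smul, hBv x hx]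
      funext i
      rw [Finset.sum_apply]
      simp only [Pi.smul_apply, smul_eq_mul, Pi.single_apply]
      by_cases hi : ∃ j, ((e.symm i : t) : κ ⊕ ι) = Sum.inr j
      · rw [Finset.sum_eq_single (⟨e.symm i, hi⟩ : J)]
        · simp
        · intro p _ hp
          rw [if_neg, mul_zero]
          rintro rfl
          exact hp (Subtype.ext (by simp))
        · simp
      · have h3 : (B x).mulVec u i = 0 := by
          rcases hq : ((e.symm i : t) : κ ⊕ ι) with a | j
          · have : (B x).mulVec u i = (M x).mulVec u a := by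
              simp only [Matrix.mulVec, dotProduct, B, Matrix.of_apply, hq, w, Sum.elim_inl]
            rw [this, hu]
            rfl
          · exact absurd ⟨j, hq⟩ hi
        rw [h3, eq_comm]
        refine Finset.sum_eq_zero fun p _ => ?_
        rw [if_neg, mul_zero]
        rintro rfl
        exact hi (by simpa using p.2)
    rw [h1]
    exact Submodule.sum_mem _ fun p _ => Submodule.smul_mem _ _
      (Submodule.subset_span ⟨p, rfl⟩)
  -- at `x0` the vectors are in the kernel
  have hx0 : ∀ p : J, (M x0).mulVec (v p x0) = 0 := by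
    intro p
    have h1 : ∀ y ∈ Submodule.span ℂ (w x0 '' s), y ⬝ᵥ v p x0 = 0 := by
      intro y hy
      induction hy using Submodule.span_induction with
      | mem y hy =>
        obtain ⟨q, hq, rfl⟩ := hy
        obtain ⟨a, rfl⟩ := hs1 hq
        have h2 : (B x0).mulVec (v p x0) (e ⟨Sum.inl a, ht1 hq⟩) = 0 := by
          rw [hBv x0 hB0, Pi.single_apply, if_neg]
          intro h3
          have h4 := e.injective h3
          obtain ⟨j, hj⟩ := p.2
          rw [← h4] at hj
          simp at hj
        simpa [Matrix.mulVec, B] using h2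
      | zero => simp
      | add y z _ _ hy hz => rw [add_dotProduct, hy, hz, add_zero]
      | smul c y _ hy => rw [smul_dotProduct, hy, smul_zero]
    funext a
    have h2 : M x0 a ∈ Submodule.span ℂ (w x0 '' s) := by
      rw [hs3]
      exact Submodule.subset_span ⟨Sum.inl a, ⟨a, rfl⟩, rfl⟩
    exact h1 _ h2
  have hspan0 : LinearMap.ker (M x0).mulVecLin =
      Submodule.span ℂ (Set.range fun p => v p x0) := by
    apply le_antisymm
    · intro u hu
      exact hker x0 hB0 u (by simpa using hu)
    · rw [Submodule.span_le]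
      rintro _ ⟨p, rfl⟩
      simpa using hx0 p
  have hJ : Fintype.card J = Module.finrank ℂ (LinearMap.ker (M x0).mulVecLin) := by
    rw [hspan0, finrank_span_eq_card (hvi x0 hB0)]
  let f : Fin (Module.finrank ℂ (LinearMap.ker (M x0).mulVecLin)) ≃ J :=
    (finCongr hJ.symm).trans (Fintype.equivFin J).symm
  refine ⟨fun a => v (f a), fun a i => hvr _ _, ?_⟩
  filter_upwards [hBx, hd] with x hx hdx
  have hr : (Set.range fun a => v (f a) x) = Set.range fun p => v p x := by
    ext y
    constructor
    · rintro ⟨a, rfl⟩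
      exact ⟨f a, rfl⟩
    · rintro ⟨p, rfl⟩
      exact ⟨f.symm p, by simp⟩
  refine ⟨(hvi x hx).comp f f.injective, ?_⟩
  rw [hr]
  refine Submodule.eq_of_le_of_finrank_le (fun u hu => hker x hx u (by simpa using hu)) ?_
  rw [finrank_span_eq_card (hvi x hx), hJ]
  exact hdx

end Pool.Agent.WW
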