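import Pool.Agent.WW.JH3a
import Pool.Agent.WW.JA
import Pool.Agent.WW.JB
import Pool.Agent.WW.JH2

set_option autoImplicit false

namespace Pool.Agent.WW

open MvPolynomial Metric Filter Topology

variable {X μ : Type} [TopologicalSpace X] {h : X → μ → ℂ} {x0 : X} {D j k : ℕ}

/-! (JH3) regular families of subspaces -/

namespace JH3b

/-- polynomials with regular coefficients -/
def RegP (h : X → μ → ℂ) (x0 : X) (F : X → Polynomial ℂ) : Prop :=
  ∀ l, RegF h x0 fun x => (F x).coeff l

theorem RegP.zero : RegP h x0 fun _ => (0 : Polynomial ℂ) := by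
  intro l
  simp only [Polynomial.coeff_zero]
  exact RegF.const (isAlgebraic_zero)

theorem RegP.mul (hc : ContinuousAt h x0) {F G : X → Polynomial ℂ} (hF : RegP h x0 F)
    (hG : RegP h x0 G) : RegP h x0 fun x => F x * G x := by
  intro l
  have : (fun x => (F x * G x).coeff l) =
      fun x => ∑ p ∈ Finset.HasAntidiagonal.antidiagonal l, (F x).coeff p.1 * (G x).coeff p.2 := by
    funext x
    rw [Polynomial.coeff_mul]
  rw [this]
  exact RegF.sum hc _ fun p _ => RegF.mul hc (hF p.1) (hG p.2)

theorem RegP.neg {F : X → Polynomial ℂ} (hF : RegP h x0 F) : RegP h x0 fun x => -F x := by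
  intro l
  simp only [Polynomial.coeff_neg]
  exact (hF l).neg

theorem RegP.sum (hc : ContinuousAt h x0) {τ : Type} (S : Finset τ) {F : τ → X → Polynomial ℂ}
    (hF : ∀ a ∈ S, RegP h x0 (F a)) : RegP h x0 fun x => ∑ a ∈ S, F a x := by
  intro l
  simp only [Polynomial.finsetSum_coeff]
  exact RegF.sum hc S fun a ha => hF a ha l

theorem RegP.smul (hc : ContinuousAt h x0) {f : X → ℂ} {F : X → Polynomial ℂ} (hf : RegF h x0 f)
    (hF : RegP h x0 F) : RegP h x0 fun x => f x • F x := by
  intro l
  simp only [Polynomial.coeff_smul, smul_eq_mul]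
  exact RegF.mul hc hf (hF l)

theorem RegP.const (p : Polynomial ℚ) :
    RegP h x0 fun _ => p.map (algebraMap ℚ ℂ) := by
  intro l
  simp only [Polynomial.coeff_map]
  exact RegF.const (isAlgebraic_algebraMap _)

theorem regP_mulF (hc : ContinuousAt h x0) {g g' : X → Fn D} (hg : ∀ t, RegP h x0 fun x => g x t)
    (hg' : ∀ t, RegP h x0 fun x => g' x t) (t : Fin D) :
    RegP h x0 fun x => mulF D j k (g x) (g' x) t := by
  unfold mulF
  refine RegP.sum hc _ fun u _ => RegP.sum hc _ fun v _ => ?_
  by_cases hcase : ((u : ℕ) + v) % D = t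
  · simp only [hcase, if_true]
    refine RegP.mul hc (RegP.mul hc ?_ (hg u)) (hg' v)
    have h1 := RegP.const (h := h) (x0 := x0)
      ((Polynomial.C (1 / 2) + Polynomial.X) ^ (((u : ℕ) * j % D + (v : ℕ) * j % D) / D) *
      (Polynomial.C (1 / 2) - Polynomial.X) ^ (((u : ℕ) * k % D + (v : ℕ) * k % D) / D))
    simpa using h1
  · simp only [hcase, if_false]
    exact RegP.zero

theorem mem_of_natDegree {p : Polynomial ℂ} {N : ℕ} (hp : p.natDegree < N) :
    p ∈ Polynomial.degreeLT ℂ N := by
  rw [Polynomial.mem_degreeLT]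
  exact (Polynomial.degree_le_natDegree).trans_lt (by exact_mod_cast hp)

theorem natDegree_of_mem {p : Polynomial ℂ} {N : ℕ} (hp : p ∈ Polynomial.degreeLT ℂ N) :
    p.natDegree ≤ N := by
  rw [Polynomial.mem_degreeLT] at hp
  exact Polynomial.natDegree_le_of_degree_le hp.le

theorem mulF_deg {n m : ℕ} {g g' : Fn D} (hg : ∀ t, g t ∈ Polynomial.degreeLT ℂ n)
    (hg' : ∀ t, g' t ∈ Polynomial.degreeLT ℂ m) (t : Fin D) :
    mulF D j k g g' t ∈ Polynomial.degreeLT ℂ (4 * D + n + m + 1) := by
  unfold mulF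
  refine Submodule.sum_mem _ fun u _ => Submodule.sum_mem _ fun v _ => ?_
  split_ifs
  · have hD : 0 < D := Fin.pos u
    apply mem_of_natDegree
    have e1 : ((u : ℕ) * j % D + (v : ℕ) * j % D) / D ≤ 2 * D := by
      have a1 := Nat.mod_lt ((u : ℕ) * j) hD
      have a2 := Nat.mod_lt ((v : ℕ) * j) hD
      exact (Nat.div_le_self _ _).trans (by omega)
    have e2 : ((u : ℕ) * k % D + (v : ℕ) * k % D) / D ≤ 2 * D := by
      have a1 := Nat.mod_lt ((u : ℕ) * k) hD
      have a2 := Nat.mod_lt ((v : ℕ) * k) hD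
      exact (Nat.div_le_self _ _).trans (by omega)
    have d1 : ((Polynomial.C (1 / 2 : ℂ) + Polynomial.X) ^
        (((u : ℕ) * j % D + (v : ℕ) * j % D) / D)).natDegree ≤ 2 * D := by
      refine (Polynomial.natDegree_pow_le_of_le _ (m := 1) ?_).trans (by omega)
      compute_degree
    have d2 : ((Polynomial.C (1 / 2 : ℂ) - Polynomial.X) ^
        (((u : ℕ) * k % D + (v : ℕ) * k % D) / D)).natDegree ≤ 2 * D := by
      refine (Polynomial.natDegree_pow_le_of_le _ (m := 1) ?_).trans (by omega)
      compute_degree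
    have d3 := natDegree_of_mem (hg u)
    have d4 := natDegree_of_mem (hg' v)
    have s1 := Polynomial.natDegree_mul_le_of_le d1 d2
    have s2 := Polynomial.natDegree_mul_le_of_le s1 d3
    have s3 := Polynomial.natDegree_mul_le_of_le s2 d4
    omega
  · exact zero_mem _

/-- coordinates -/
noncomputable def K (D N : ℕ) : Fn D →ₗ[ℂ] (Fin D × Fin N → ℂ) where
  toFun g q := (g q.1).coeff q.2
  map_add' g g' := by
    funext q
    simp
  map_smul' c g := by
    funext q
    simp

theorem K_apply {N : ℕ} (g : Fn D) (q : Fin D × Fin N) : K D N g q = (g q.1).coeff q.2 := rfl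

theorem K_inj {N : ℕ} {g : Fn D} (hg : ∀ t, g t ∈ Polynomial.degreeLT ℂ N) (h0 : K D N g = 0) :
    g = 0 := by
  funext t
  ext l
  by_cases hl : l < N
  · have := congrFun h0 (t, ⟨l, hl⟩)
    exact this
  · have h1 := Polynomial.mem_degreeLT.1 (hg t)
    rw [Polynomial.coeff_eq_zero_of_degree_lt (h1.trans_le (by exact_mod_cast not_lt.1 hl))]
    rfl

/-- polynomials of degree less than `N` -/
noncomputable def PN (D N : ℕ) : Submodule ℂ (Fn D) :=
  Submodule.pi Set.univ fun _ : Fin D => Polynomial.degreeLT ℂ N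

theorem mem_PN {N : ℕ} {g : Fn D} : g ∈ PN D N ↔ ∀ t, g t ∈ Polynomial.degreeLT ℂ N := by
  simp [PN, Submodule.mem_pi]

theorem disjoint_K {N : ℕ} {S : Submodule ℂ (Fn D)} (hS : S ≤ PN D N) :
    Disjoint S (LinearMap.ker (K D N)) := by
  rw [Submodule.disjoint_def]
  intro g hg hk
  exact K_inj (mem_PN.1 (hS hg)) hk

/-- linear independence is an open condition -/
theorem li_open (hc : ContinuousAt h x0) {ι : Type} [Fintype ι] (N : ℕ) (v : ι → X → Fn D)
    (hv : ∀ i x t, v i x t ∈ Polynomial.degreeLT ℂ N)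
    (hr : ∀ i t, RegP h x0 fun x => v i x t) (h0 : LinearIndependent ℂ fun i => v i x0) :
    ∀ᶠ x in 𝓝 x0, LinearIndependent ℂ fun i => v i x := by
  have hcont : ContinuousAt (fun x => fun i => K D N (v i x)) x0 := by
    refine continuousAt_pi.2 fun i => continuousAt_pi.2 fun q => ?_
    exact RegF.continuousAt hc (hr i q.1 q.2)
  have hli : LinearIndependent ℂ (fun i => K D N (v i x0)) := by
    refine h0.map (f := K D N) (disjoint_K ?_)
    rw [Submodule.span_le]
    rintro _ ⟨i, rfl⟩
    exact mem_PN.2 (hv i x0)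
  have hopen : IsOpen {f : ι → (Fin D × Fin N → ℂ) | LinearIndependent ℂ f} :=
    isOpen_setOfPred_linearIndependent
  have := hcont.preimage_mem_nhds (hopen.mem_nhds hli)
  filter_upwards [this] with x hx
  exact LinearIndependent.of_comp (K D N) hx

/-- a family of subspaces given by linear relations with regular coefficients -/
theorem regFam_rel (hc : ContinuousAt h x0) {ι β : Type} [Fintype ι] [Fintype β] [DecidableEq ι]
    [DecidableEq β] (N : ℕ) (f : ι → β → X → Fn D)
    (hf : ∀ i b x t, f i b x t ∈ Polynomial.degreeLT ℂ N)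
    (hfr : ∀ i b t, RegP h x0 fun x => f i b x t)
    (e : ι → X → Fn D) (he : ∀ i x t, e i x t ∈ Polynomial.degreeLT ℂ N)
    (her : ∀ i t, RegP h x0 fun x => e i x t) (U : X → Submodule ℂ (Fn D))
    (hU : ∀ᶠ x in 𝓝 x0, (∀ g, g ∈ U x ↔
        ∃ c : ι → ℂ, (∀ b, ∑ i, c i • f i b x = 0) ∧ g = ∑ i, c i • e i x) ∧
      ∀ c : ι → ℂ, (∀ b, ∑ i, c i • f i b x = 0) → ∑ i, c i • e i x = 0 → c = 0)
    (hle : ∀ᶠ x in 𝓝 x0, Module.finrank ℂ (U x0) ≤ Module.finrank ℂ (U x)) :
    RegFam h x0 U := by
  let M : X → Matrix (β × (Fin D × Fin N)) ι ℂ := fun x =>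
    Matrix.of fun q i => (f i q.1 x q.2.1).coeff q.2.2
  have hM : ∀ a b, RegF h x0 fun x => M x a b := fun a b => hfr b a.1 a.2.1 a.2.2
  have hker : ∀ x (c : ι → ℂ), c ∈ LinearMap.ker (M x).mulVecLin ↔
      ∀ b, ∑ i, c i • f i b x = 0 := by
    intro x c
    rw [LinearMap.mem_ker, Matrix.mulVecLin_apply]
    constructor
    · intro hcx b
      apply K_inj (N := N)
      · intro t
        rw [Finset.sum_apply]
        exact Submodule.sum_mem _ fun i _ => Submodule.smul_mem _ _ (hf i b x t)
      · funext q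
        have := congrFun hcx (b, q)
        rw [K_apply]
        simp only [Matrix.mulVec, dotProduct, M, Matrix.of_apply, Pi.zero_apply] at this
        rw [Finset.sum_apply, Polynomial.finsetSum_coeff]
        simp only [Pi.smul_apply, Polynomial.coeff_smul, smul_eq_mul, Pi.zero_apply]
        rw [← this]
        exact Finset.sum_congr rfl fun i _ => mul_comm _ _
    · intro hb
      funext q
      have := congrFun (congrArg (K D N) (hb q.1)) q.2
      rw [K_apply, Finset.sum_apply, Polynomial.finsetSum_coeff] at this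
      simp only [Pi.smul_apply, Polynomial.coeff_smul, smul_eq_mul, map_zero,
        Pi.zero_apply] at this
      simp only [Matrix.mulVec, dotProduct, M, Matrix.of_apply, Pi.zero_apply]
      rw [← this]
      exact Finset.sum_congr rfl fun i _ => mul_comm _ _
  let Φ : X → ((ι → ℂ) →ₗ[ℂ] Fn D) := fun x => Fintype.linearCombination ℂ fun i => e i x
  have hΦ : ∀ x c, Φ x c = ∑ i, c i • e i x := fun x c => rfl
  have hU' : ∀ᶠ x in 𝓝 x0, U x = Submodule.map (Φ x) (LinearMap.ker (M x).mulVecLin) ∧
      Disjoint (LinearMap.ker (M x).mulVecLin) (LinearMap.ker (Φ x)) := by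
    filter_upwards [hU] with x hx
    constructor
    · ext g
      rw [hx.1 g, Submodule.mem_map]
      constructor
      · rintro ⟨c, h1, h2⟩
        exact ⟨c, (hker x c).2 h1, h2.symm⟩
      · rintro ⟨c, h1, h2⟩
        exact ⟨c, (hker x c).1 h1, h2.symm⟩
    · rw [Submodule.disjoint_def]
      intro c h1 h2
      exact hx.2 c ((hker x c).1 h1) h2
  have hfin : ∀ᶠ x in 𝓝 x0, Module.finrank ℂ (U x) =
      Module.finrank ℂ (LinearMap.ker (M x).mulVecLin) := by
    filter_upwards [hU'] with x hx
    rw [hx.1, ← LinearMap.range_domRestrict]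
    apply LinearMap.finrank_range_of_inj
    rw [← LinearMap.ker_eq_bot, Submodule.eq_bot_iff]
    intro c hcx
    have h1 := Submodule.disjoint_def.1 hx.2 c c.2 hcx
    exact Subtype.ext h1
  have hd : ∀ᶠ x in 𝓝 x0, Module.finrank ℂ (LinearMap.ker (M x0).mulVecLin) ≤
      Module.finrank ℂ (LinearMap.ker (M x).mulVecLin) := by
    filter_upwards [hfin, hle] with x h1 h2
    rw [← h1, ← hfin.self_of_nhds]
    exact h2
  obtain ⟨v, hv1, hv2⟩ := RegF.ker hc M hM hd
  refine ⟨N, _, fun a x => Φ x (v a x), ?_, ?_, ?_⟩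
  · intro a x t
    show Φ x (v a x) t ∈ Polynomial.degreeLT ℂ N
    rw [hΦ, Finset.sum_apply]
    exact Submodule.sum_mem _ fun i _ => Submodule.smul_mem _ _ (he i x t)
  · intro a t l
    have : (fun x => (Φ x (v a x) t).coeff l) =
        fun x => ∑ i, v a x i * (e i x t).coeff l := by
      funext x
      rw [hΦ, Finset.sum_apply, Polynomial.finsetSum_coeff]
      simp
    rw [this]
    exact RegF.sum hc _ fun i _ => RegF.mul hc (hv1 a i) (her i t l)
  · filter_upwards [hv2, hU'] with x h1 h2
    constructor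
    · refine h1.1.map (f := Φ x) ?_
      rw [← h1.2]
      exact h2.2
    · rw [h2.1, h1.2, Submodule.map_span, ← Set.range_comp]
      rfl

theorem degLT_mono {n m : ℕ} (hnm : n ≤ m) {p : Polynomial ℂ} (hp : p ∈ Polynomial.degreeLT ℂ n) :
    p ∈ Polynomial.degreeLT ℂ m := by
  rw [Polynomial.mem_degreeLT] at hp ⊢
  exact hp.trans_le (by exact_mod_cast hnm)

/-- the span of the products is spanned by the products of the generators -/
theorem mulS_span {ι ι' : Type} (u : ι → Fn D) (v : ι' → Fn D) :
    mulS D j k (Submodule.span ℂ (Set.range u)) (Submodule.span ℂ (Set.range v)) =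
      Submodule.span ℂ (Set.range fun p : ι × ι' => mulF D j k (u p.1) (v p.2)) := by
  obtain ⟨M, hM⟩ := exists_mulL (D := D) (j := j) (k := k)
  apply le_antisymm
  · unfold mulS
    rw [Submodule.span_le]
    rintro _ ⟨g, hg, g', hg', rfl⟩
    rw [← hM]
    have h1 : ∀ a, M (u a) g' ∈ Submodule.span ℂ
        (Set.range fun p : ι × ι' => mulF D j k (u p.1) (v p.2)) := by
      intro a
      induction hg' using Submodule.span_induction with
      | mem y hy =>
        obtain ⟨b, rfl⟩ := hy
        rw [hM]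
        exact Submodule.subset_span ⟨(a, b), rfl⟩
      | zero => rw [map_zero]; exact zero_mem _
      | add y z _ _ hy hz => rw [map_add]; exact add_mem hy hz
      | smul c y _ hy => rw [map_smul]; exact Submodule.smul_mem _ _ hy
    induction hg using Submodule.span_induction with
    | mem y hy =>
      obtain ⟨a, rfl⟩ := hy
      exact h1 a
    | zero => rw [map_zero]; exact zero_mem _
    | add y z _ _ hy hz => rw [map_add]; exact add_mem hy hz
    | smul c y _ hy => rw [map_smul]; exact Submodule.smul_mem _ _ hy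
  · rw [Submodule.span_le]
    rintro _ ⟨p, rfl⟩
    exact Submodule.subset_span ⟨u p.1, Submodule.subset_span ⟨_, rfl⟩, v p.2,
      Submodule.subset_span ⟨_, rfl⟩, rfl⟩

/-- products independent at `x0` -/
theorem mul_aux (hc : ContinuousAt h x0) {U V : X → Submodule ℂ (Fn D)}
    (hU : RegFam h x0 U) (hV : RegFam h x0 V) :
    ∃ (N d : ℕ) (w : Fin d → X → Fn D), d = Module.finrank ℂ (mulS D j k (U x0) (V x0)) ∧
      (∀ a x t, w a x t ∈ Polynomial.degreeLT ℂ N) ∧
      (∀ a t, RegP h x0 fun x => w a x t) ∧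
      ∀ᶠ x in 𝓝 x0, LinearIndependent ℂ (fun a => w a x) ∧
        (∀ a, w a x ∈ mulS D j k (U x) (V x)) ∧ Module.Finite ℂ (mulS D j k (U x) (V x)) := by
  obtain ⟨n, d, u, hu1, hu2, hu3⟩ := hU
  obtain ⟨n', d', v, hv1, hv2, hv3⟩ := hV
  let m : Fin d × Fin d' → X → Fn D := fun p x => mulF D j k (u p.1 x) (v p.2 x)
  have hspan : ∀ᶠ x in 𝓝 x0, mulS D j k (U x) (V x) =
      Submodule.span ℂ (Set.range fun p => m p x) := by
    filter_upwards [hu3, hv3] with x h1 h2
    rw [h1.2, h2.2, mulS_span]
  obtain ⟨κ, a, ha, hsp, hli⟩ := exists_linearIndependent' ℂ (fun p => m p x0)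
  have : Finite κ := Finite.of_injective a ha
  have : Fintype κ := Fintype.ofFinite κ
  let e := Fintype.equivFin κ
  have hm1 : ∀ p x t, m p x t ∈ Polynomial.degreeLT ℂ (4 * D + n + n' + 1) := fun p x t =>
    mulF_deg (fun t => hu1 p.1 x t) (fun t => hv1 p.2 x t) t
  have hm2 : ∀ p t, RegP h x0 fun x => m p x t := fun p t =>
    regP_mulF hc (fun t => hu2 p.1 t) (fun t => hv2 p.2 t) t
  have hcard : Fintype.card κ = Module.finrank ℂ (mulS D j k (U x0) (V x0)) := by
    rw [hspan.self_of_nhds, ← hsp, finrank_span_eq_card hli]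
  refine ⟨4 * D + n + n' + 1, Fintype.card κ, fun i x => m (a (e.symm i)) x, hcard,
    fun i x t => hm1 _ x t, fun i t => hm2 _ t, ?_⟩
  have hli0 : LinearIndependent ℂ (fun i : Fin (Fintype.card κ) => m (a (e.symm i)) x0) :=
    hli.comp e.symm e.symm.injective
  have hopen := li_open hc (4 * D + n + n' + 1) (fun i x => m (a (e.symm i)) x)
    (fun i x t => hm1 _ x t) (fun i t => hm2 _ t) hli0
  filter_upwards [hopen, hspan] with x h1 h2
  refine ⟨h1, fun i => ?_, ?_⟩
  · rw [h2]
    exact Submodule.subset_span ⟨_, rfl⟩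
  · rw [h2]
    exact FiniteDimensional.span_of_finite ℂ (Set.finite_range _)

end JH3b

open JH3b

theorem RegFam.mul (hD : 0 < D) (hc : ContinuousAt h x0) {U V : X → Submodule ℂ (Fn D)}
    (hU : RegFam h x0 U) (hV : RegFam h x0 V)
    (hle : ∀ᶠ x in 𝓝 x0, Module.finrank ℂ (mulS D j k (U x) (V x)) ≤
      Module.finrank ℂ (mulS D j k (U x0) (V x0))) :
    RegFam h x0 fun x => mulS D j k (U x) (V x) := by
  obtain ⟨N, d, w, hd, hw1, hw2, hw3⟩ := mul_aux (j := j) (k := k) hc hU hV
  refine ⟨N, d, w, hw1, fun a t l => hw2 a t l, ?_⟩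
  filter_upwards [hw3, hle] with x h1 h2
  refine ⟨h1.1, ?_⟩
  have := h1.2.2
  symm
  apply Submodule.eq_of_le_of_finrank_le
  · rw [Submodule.span_le]
    rintro _ ⟨a, rfl⟩
    exact h1.2.1 a
  · rw [finrank_span_eq_card h1.1, Fintype.card_fin, hd]
    exact h2

/-- the dimension of the span of the products cannot drop -/
theorem RegFam.mul_le (hD : 0 < D) (hc : ContinuousAt h x0) {U V : X → Submodule ℂ (Fn D)}
    (hU : RegFam h x0 U) (hV : RegFam h x0 V) :
    ∀ᶠ x in 𝓝 x0, Module.finrank ℂ (mulS D j k (U x0) (V x0)) ≤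
      Module.finrank ℂ (mulS D j k (U x) (V x)) := by
  obtain ⟨N, d, w, hd, hw1, hw2, hw3⟩ := mul_aux (j := j) (k := k) hc hU hV
  filter_upwards [hw3] with x h1
  have := h1.2.2
  have h2 : Submodule.span ℂ (Set.range fun a => w a x) ≤ mulS D j k (U x) (V x) := by
    rw [Submodule.span_le]
    rintro _ ⟨a, rfl⟩
    exact h1.2.1 a
  have h3 := Submodule.finrank_mono h2
  rw [finrank_span_eq_card h1.1, Fintype.card_fin, hd] at h3
  exact h3

theorem RegFam.inf (hc : ContinuousAt h x0) {U V : X → Submodule ℂ (Fn D)}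
    (hU : RegFam h x0 U) (hV : RegFam h x0 V)
    (hle : ∀ᶠ x in 𝓝 x0, Module.finrank ℂ (U x0 ⊓ V x0 : Submodule ℂ (Fn D)) ≤
      Module.finrank ℂ (U x ⊓ V x : Submodule ℂ (Fn D))) :
    RegFam h x0 fun x => U x ⊓ V x := by
  obtain ⟨n, d, u, hu1, hu2, hu3⟩ := hU
  obtain ⟨n', d', v, hv1, hv2, hv3⟩ := hV
  refine regFam_rel hc (ι := Fin d ⊕ Fin d') (β := Unit) (max n n')
    (fun i _ x => Sum.elim (fun a => u a x) (fun b => -v b x) i) ?_ ?_
    (fun i x => Sum.elim (fun a => u a x) (fun _ => 0) i) ?_ ?_ _ ?_ hle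
  · rintro (a | b) _ x t
    · exact degLT_mono (le_max_left _ _) (hu1 a x t)
    · exact Submodule.neg_mem _ (degLT_mono (le_max_right _ _) (hv1 b x t))
  · rintro (a | b) _ t
    · exact hu2 a t
    · exact RegP.neg (hv2 b t)
  · rintro (a | b) x t
    · exact degLT_mono (le_max_left _ _) (hu1 a x t)
    · exact zero_mem _
  · rintro (a | b) t
    · exact hu2 a t
    · exact RegP.zero
  · filter_upwards [hu3, hv3] with x h1 h2
    constructor
    · intro g
      rw [Submodule.mem_inf, h1.2, h2.2, Submodule.mem_span_range_iff_exists_fun,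
        Submodule.mem_span_range_iff_exists_fun]
      constructor
      · rintro ⟨⟨c, hcc⟩, ⟨c', hc'⟩⟩
        refine ⟨Sum.elim c c', fun _ => ?_, ?_⟩
        · simp only [Fintype.sum_sum_type, Sum.elim_inl, Sum.elim_inr, smul_neg,
            Finset.sum_neg_distrib]
          rw [hcc, hc', add_neg_cancel]
        · simp only [Fintype.sum_sum_type, Sum.elim_inl, Sum.elim_inr, smul_zero,
            Finset.sum_const_zero, add_zero]
          exact hcc.symm
      · rintro ⟨c, h3, h4⟩
        have h5 := h3 ()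
        simp only [Fintype.sum_sum_type, Sum.elim_inl, Sum.elim_inr, smul_neg,
            Finset.sum_neg_distrib] at h5
        simp only [Fintype.sum_sum_type, Sum.elim_inl, Sum.elim_inr, smul_zero,
            Finset.sum_const_zero, add_zero] at h4
        refine ⟨⟨fun a => c (Sum.inl a), h4.symm⟩, ⟨fun b => c (Sum.inr b), ?_⟩⟩
        rw [h4]
        exact (add_neg_eq_zero.1 h5).symm
    · intro c h3 h4
      have h5 := h3 ()
      simp only [Fintype.sum_sum_type, Sum.elim_inl, Sum.elim_inr, smul_neg,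
            Finset.sum_neg_distrib] at h5
      simp only [Fintype.sum_sum_type, Sum.elim_inl, Sum.elim_inr, smul_zero,
            Finset.sum_const_zero, add_zero] at h4
      rw [h4, zero_add, neg_eq_zero] at h5
      have g1 := Fintype.linearIndependent_iff.1 h1.1 _ h4
      have g2 := Fintype.linearIndependent_iff.1 h2.1 _ h5
      funext i
      rcases i with a | b
      · exact g1 a
      · exact g2 b

theorem RegFam.colon (hD : 0 < D) (hc : ContinuousAt h x0) {n n' : ℕ}
    {T L C : X → Submodule ℂ (Fn D)} (hT : RegFam h x0 T) (hL : RegFam h x0 L)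
    (hL1 : Module.finrank ℂ (L x0) = 1)
    (hinj : ∀ᶠ x in 𝓝 x0, ∀ φ ∈ L x, φ ≠ 0 → ∀ χ : Fn D, mulF D j k φ χ = 0 → χ = 0)
    (hC : ∀ᶠ x in 𝓝 x0, (C x : Set (Fn D)) = colon D j k n n' (T x) (L x))
    (hle : ∀ᶠ x in 𝓝 x0, Module.finrank ℂ (C x0) ≤ Module.finrank ℂ (C x)) :
    RegFam h x0 C := by
  obtain ⟨Bl, hBl⟩ := exists_mulL (D := D) (j := j) (k := k)
  obtain ⟨nt, p, th, ht1, ht2, ht3⟩ := hT
  obtain ⟨nl, dl, ph, hl1, hl2, hl3⟩ := hL
  have hdl : dl = 1 := by
    have h1 := hl3.self_of_nhds
    rw [h1.2, finrank_span_eq_card h1.1, Fintype.card_fin] at hL1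
    exact hL1
  subst hdl
  obtain ⟨na, da, w, hw1, hw2, hw3⟩ := regFam_W (h := h) (x0 := x0) (j := j) (k := k) hD n
  obtain ⟨nb', db, w', hw1', hw2', hw3'⟩ := regFam_W (h := h) (x0 := x0) (j := j) (k := k) hD n'
  let N := (4 * D + na + nt + 1) + (4 * D + nl + nb' + 1)
  refine regFam_rel hc (ι := Fin da ⊕ (Fin p × Fin db)) (β := Fin p) N
    (fun i b x => Sum.elim (fun a => mulF D j k (w a x) (th b x))
      (fun q => if q.1 = b then -mulF D j k (ph 0 x) (w' q.2 x) else 0) i) ?_ ?_
    (fun i x => Sum.elim (fun a => w a x) (fun _ => 0) i) ?_ ?_ _ ?_ hle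
  · rintro (a | q) b x t
    · exact degLT_mono (Nat.le_add_right _ _)
        (mulF_deg (fun t => hw1 a x t) (fun t => ht1 b x t) t)
    · simp only [Sum.elim_inr]
      split_ifs
      · exact Submodule.neg_mem _ (degLT_mono (Nat.le_add_left _ _)
          (mulF_deg (fun t => hl1 0 x t) (fun t => hw1' q.2 x t) t))
      · exact zero_mem _
  · rintro (a | q) b t
    · exact regP_mulF hc (fun t => hw2 a t) (fun t => ht2 b t) t
    · simp only [Sum.elim_inr]
      by_cases hq : q.1 = b
      · simp only [hq, if_true]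
        exact RegP.neg (regP_mulF hc (fun t => hl2 0 t) (fun t => hw2' q.2 t) t)
      · simp only [hq, if_false]
        exact RegP.zero
  · rintro (a | q) x t
    · exact degLT_mono (by omega) (hw1 a x t)
    · exact zero_mem _
  · rintro (a | q) t
    · exact hw2 a t
    · exact RegP.zero
  · filter_upwards [ht3, hl3, hw3, hw3', hinj, hC] with x k1 k2 k3 k4 k5 k6
    have hph : ph 0 x ≠ 0 := k2.1.ne_zero 0
    have hLx : L x = Submodule.span ℂ {ph 0 x} := by
      rw [k2.2]
      congr 1
      ext y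
      simp [Set.mem_range, eq_comm]
    have hphL : ph 0 x ∈ L x := by
      rw [hLx]
      exact Submodule.mem_span_singleton_self _
    -- the relations
    have hrel : ∀ (c : Fin da ⊕ (Fin p × Fin db) → ℂ) (b : Fin p),
        ∑ i, c i • Sum.elim (fun a => mulF D j k (w a x) (th b x))
          (fun q => if q.1 = b then -mulF D j k (ph 0 x) (w' q.2 x) else 0) i =
        mulF D j k (∑ a, c (Sum.inl a) • w a x) (th b x) -
          mulF D j k (ph 0 x) (∑ a, c (Sum.inr (b, a)) • w' a x) := by
      intro c b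
      rw [Fintype.sum_sum_type, ← hBl, ← hBl, map_sum, map_sum, LinearMap.sum_apply,
        sub_eq_add_neg, ← Finset.sum_neg_distrib]
      congr 1
      · refine Finset.sum_congr rfl fun a _ => ?_
        rw [map_smul, LinearMap.smul_apply, hBl]
        rfl
      · rw [Fintype.sum_prod_type, Finset.sum_eq_single b]
        · refine Finset.sum_congr rfl fun a _ => ?_
          simp only [Sum.elim_inr, if_true]
          rw [map_smul, hBl, smul_neg]
        · intro b' _ hb'
          refine Finset.sum_eq_zero fun a _ => ?_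
          simp only [Sum.elim_inr, hb', if_false, smul_zero]
        · intro hb
          exact absurd (Finset.mem_univ b) hb
    have hmemC : ∀ g, g ∈ C x ↔ g ∈ Pool.Agent.WW.colon D j k n n' (T x) (L x) := by
      intro g
      rw [← k6]
      rfl
    constructor
    · intro g
      rw [hmemC]
      constructor
      · rintro ⟨hg, hg2⟩
        rw [k3.2, Submodule.mem_span_range_iff_exists_fun] at hg
        obtain ⟨c, hcg⟩ := hg
        have hch : ∀ b : Fin p, ∃ c' : Fin db → ℂ,
            mulF D j k g (th b x) = mulF D j k (ph 0 x) (∑ a, c' a • w' a x) := by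
          intro b
          have hb : th b x ∈ T x := by
            rw [k1.2]
            exact Submodule.subset_span ⟨b, rfl⟩
          obtain ⟨χ, hχ, hχ2⟩ := hg2 _ hb _ hphL hph
          rw [k4.2, Submodule.mem_span_range_iff_exists_fun] at hχ
          obtain ⟨c', hc'⟩ := hχ
          exact ⟨c', by rw [hc', hχ2]⟩
        choose c' hc' using hch
        refine ⟨Sum.elim c (fun q => c' q.1 q.2), fun b => ?_, ?_⟩
        · rw [hrel]
          simp only [Sum.elim_inl, Sum.elim_inr]
          rw [hcg, hc', sub_self]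
        · simp only [Fintype.sum_sum_type, Sum.elim_inl, Sum.elim_inr, smul_zero,
            Finset.sum_const_zero, add_zero]
          exact hcg.symm
      · rintro ⟨c, h3, h4⟩
        simp only [Fintype.sum_sum_type, Sum.elim_inl, Sum.elim_inr, smul_zero,
            Finset.sum_const_zero, add_zero] at h4
        have hgb : ∀ b, mulF D j k g (th b x) =
            mulF D j k (ph 0 x) (∑ a, c (Sum.inr (b, a)) • w' a x) := by
          intro b
          have := h3 b
          rw [hrel, ← h4, sub_eq_zero] at this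
          exact this
        refine ⟨?_, ?_⟩
        · rw [k3.2, h4, Submodule.mem_span_range_iff_exists_fun]
          exact ⟨_, rfl⟩
        · intro ϑ hϑ φ hφ hφ0
          rw [hLx, Submodule.mem_span_singleton] at hφ
          obtain ⟨lam, rfl⟩ := hφ
          have hlam : lam ≠ 0 := by
            rintro rfl
            exact hφ0 (zero_smul _ _)
          rw [k1.2, Submodule.mem_span_range_iff_exists_fun] at hϑ
          obtain ⟨s, rfl⟩ := hϑ
          refine ⟨∑ b, (s b * lam⁻¹) • ∑ a, c (Sum.inr (b, a)) • w' a x, ?_, ?_⟩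
          · rw [k4.2]
            exact Submodule.sum_mem _ fun b _ => Submodule.smul_mem _ _
              (Submodule.sum_mem _ fun a _ => Submodule.smul_mem _ _
                (Submodule.subset_span ⟨a, rfl⟩))
          · rw [← hBl, ← hBl, map_sum, map_sum]
            refine Finset.sum_congr rfl fun b _ => ?_
            rw [map_smul, map_smul, map_smul, LinearMap.smul_apply, hBl, hBl, hgb, smul_smul,
              mul_assoc, inv_mul_cancel₀ hlam, mul_one]
    · intro c h3 h4
      simp only [Fintype.sum_sum_type, Sum.elim_inl, Sum.elim_inr, smul_zero,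
            Finset.sum_const_zero, add_zero] at h4
      have g1 := Fintype.linearIndependent_iff.1 k3.1 _ h4
      have g2 : ∀ b, ∑ a, c (Sum.inr (b, a)) • w' a x = 0 := by
        intro b
        have := h3 b
        rw [hrel, h4] at this
        apply k5 _ hphL hph
        rw [← hBl, ← hBl, map_zero, LinearMap.zero_apply, zero_sub, neg_eq_zero] at this
        rw [← hBl]
        exact this
      funext i
      rcases i with a | ⟨b, a⟩
      · exact g1 a
      · exact Fintype.linearIndependent_iff.1 k4.1 _ (g2 b) a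

end Pool.Agent.WW
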