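import Pool.Agent.WW.JA
import Pool.Agent.WW.JB
import Pool.Agent.WW.JH2

set_option autoImplicit false

namespace Pool.Agent.WW

open MvPolynomial Metric Filter Topology

variable {X μ : Type} [TopologicalSpace X] {h : X → μ → ℂ} {x0 : X} {D j k : ℕ}

/-! (JH3) regular families of subspaces, part 1 -/

theorem RegFam.congr {U V : X → Submodule ℂ (Fn D)} (hU : RegFam h x0 U)
    (hUV : ∀ᶠ x in 𝓝 x0, U x = V x) : RegFam h x0 V := by
  obtain ⟨n, d, v, h1, h2, h3⟩ := hU
  refine ⟨n, d, v, h1, h2, ?_⟩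
  filter_upwards [h3, hUV] with x hx hx'
  exact ⟨hx.1, hx' ▸ hx.2⟩

theorem RegFam.comp (hc : ContinuousAt h x0) {ν : Type} {h' : X → ν → ℂ}
    (hh : ∀ b, RegF h x0 fun x => h' x b) {U : X → Submodule ℂ (Fn D)} (hU : RegFam h' x0 U) :
    RegFam h x0 U := by
  obtain ⟨n, d, v, h1, h2, h3⟩ := hU
  exact ⟨n, d, v, h1, fun a t l => RegF.comp hc hh (h2 a t l), h3⟩

theorem RegFam.pull {Y : Type} [TopologicalSpace Y] {y0 : Y} (π : Y → X) (hπ : ContinuousAt π y0)
    (h0 : π y0 = x0) {U : X → Submodule ℂ (Fn D)} (hU : RegFam h x0 U) :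
    RegFam (fun y => h (π y)) y0 fun y => U (π y) := by
  obtain ⟨n, d, v, h1, h2, h3⟩ := hU
  refine ⟨n, d, fun a y => v a (π y), fun a y t => h1 a (π y) t,
    fun a t l => RegF.pull π hπ h0 (h2 a t l), ?_⟩
  have h4 : Tendsto π (𝓝 y0) (𝓝 x0) := by
    rw [← h0]
    exact hπ
  exact h4.eventually h3

theorem RegFam.finrank {U : X → Submodule ℂ (Fn D)} (hU : RegFam h x0 U) :
    ∀ᶠ x in 𝓝 x0, Module.finrank ℂ (U x) = Module.finrank ℂ (U x0) := by
  obtain ⟨n, d, v, h1, h2, h3⟩ := hU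
  have h0 := h3.self_of_nhds
  filter_upwards [h3] with x hx
  rw [hx.2, h0.2, finrank_span_eq_card hx.1, finrank_span_eq_card h0.1]

namespace JH3a

theorem ze_pow {D : ℕ} (hD : 0 < D) : ze D ^ D = 1 := by
  unfold ze
  rw [← Complex.exp_nat_mul]
  have : (D : ℂ) ≠ 0 := by exact_mod_cast hD.ne'
  rw [mul_div_cancel₀ _ this]
  exact Complex.exp_two_pi_mul_I

theorem ze_ne {D : ℕ} : ze D ≠ 0 := Complex.exp_ne_zero _

theorem ze_alg {D : ℕ} (hD : 0 < D) : IsAlgebraic ℚ (ze D) :=
  IsAlgebraic.of_pow hD (by rw [ze_pow hD]; exact isAlgebraic_one)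

theorem alg_eval {τ : Type} (p : MvPolynomial τ ℂ) (hp : AlgC p) (v : τ → ℂ)
    (hv : ∀ i, IsAlgebraic ℚ (v i)) : IsAlgebraic ℚ (eval v p) := by
  rw [MvPolynomial.eval_eq]
  have : ∀ s : Finset (τ →₀ ℕ), IsAlgebraic ℚ (∑ d ∈ s, coeff d p * ∏ i ∈ d.support, v i ^ d i) := by
    intro s
    classical
    induction s using Finset.induction_on with
    | empty => simpa using isAlgebraic_zero
    | insert a s ha ih =>
      rw [Finset.sum_insert ha]
      refine IsAlgebraic.add (IsAlgebraic.mul (hp a) ?_) ih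
      have : ∀ t : Finset τ, IsAlgebraic ℚ (∏ i ∈ t, v i ^ a i) := by
        intro t
        induction t using Finset.induction_on with
        | empty => simpa using isAlgebraic_one
        | insert b t hb ih' =>
          rw [Finset.prod_insert hb]
          exact IsAlgebraic.mul (IsAlgebraic.pow (hv b) _) ih'
      exact this _
  exact this _

/-- the polynomials with given coefficients -/
noncomputable def S (D n : ℕ) : (Fin D × Fin n → ℂ) →ₗ[ℂ] Fn D where
  toFun c t := ∑ l : Fin n, Polynomial.C (c (t, l)) * Polynomial.X ^ (l : ℕ)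
  map_add' c c' := by
    funext t
    simp only [Pi.add_apply, map_add, add_mul, Finset.sum_add_distrib]
  map_smul' a c := by
    funext t
    simp only [Pi.smul_apply, smul_eq_mul, map_mul, RingHom.id_apply, Polynomial.smul_eq_C_mul,
      Finset.mul_sum, mul_assoc]

theorem coeff_S (D n : ℕ) (c : Fin D × Fin n → ℂ) (t : Fin D) (m : ℕ) :
    (S D n c t).coeff m = if hm : m < n then c (t, ⟨m, hm⟩) else 0 := by
  simp only [S, LinearMap.coe_mk, AddHom.coe_mk, Polynomial.finsetSum_coeff,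
    Polynomial.coeff_C_mul_X_pow]
  split_ifs with hm
  · rw [Finset.sum_eq_single (⟨m, hm⟩ : Fin n)]
    · simp
    · intro b _ hb
      rw [if_neg]
      intro h
      exact hb (Fin.ext h.symm)
    · intro h
      exact absurd (Finset.mem_univ _) h
  · refine Finset.sum_eq_zero fun b _ => ?_
    rw [if_neg]
    intro h
    exact hm (h ▸ b.2)

theorem S_mem (D n : ℕ) (c : Fin D × Fin n → ℂ) (t : Fin D) :
    S D n c t ∈ Polynomial.degreeLT ℂ n := by
  rw [Polynomial.mem_degreeLT, Polynomial.degree_lt_iff_coeff_zero]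
  intro m hm
  rw [coeff_S, dif_neg (by omega)]

theorem S_inj (D n : ℕ) : LinearMap.ker (S D n) = ⊥ := by
  rw [LinearMap.ker_eq_bot']
  intro c hc
  funext p
  have h1 := coeff_S D n c p.1 p.2
  rw [hc, dif_pos p.2.2] at h1
  simpa using h1.symm

theorem S_coeff (D n : ℕ) (g : Fn D) (hg : ∀ t, g t ∈ Polynomial.degreeLT ℂ n) :
    S D n (fun p => (g p.1).coeff p.2) = g := by
  funext t
  ext m
  rw [coeff_S]
  split_ifs with hm
  · rfl
  · have h1 := hg t
    rw [Polynomial.mem_degreeLT, Polynomial.degree_lt_iff_coeff_zero] at h1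
    exact (h1 m (by omega)).symm

/-- constant families defined by linear equations with algebraic coefficients -/
theorem constFam (n : ℕ) {κ : Type} [Fintype κ] [DecidableEq κ] (M : Matrix κ (Fin D × Fin n) ℂ)
    (hM : ∀ a b, IsAlgebraic ℚ (M a b)) (V : Submodule ℂ (Fn D))
    (hV : ∀ g, g ∈ V ↔ (∀ t, g t ∈ Polynomial.degreeLT ℂ n) ∧
      M.mulVec (fun p => (g p.1).coeff p.2) = 0) : RegFam h x0 fun _ => V := by
  let h' : Unit → Empty → ℂ := fun _ e => e.elim
  have hc' : ContinuousAt h' () := by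
    rw [show h' = fun _ => h' () from rfl]
    exact continuousAt_const
  obtain ⟨v, hv1, hv2⟩ := RegF.ker (h := h') (x0 := ()) hc' (fun _ => M)
    (fun a b => RegF.const (hM a b)) (Eventually.of_forall fun _ => le_rfl)
  obtain ⟨hv3, hv4⟩ := hv2.self_of_nhds
  have halg : ∀ a i, IsAlgebraic ℚ (v a () i) := by
    intro a i
    obtain ⟨p, q, hp, hq, hq0, hpq⟩ := hv1 a i
    have h1 := hpq.self_of_nhds
    have h2 : v a () i = eval (h' ()) p * (eval (h' ()) q)⁻¹ := by
      rw [eq_mul_inv_iff_mul_eq₀ hq0]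
      exact h1
    rw [h2]
    exact IsAlgebraic.mul (alg_eval p hp _ fun e => e.elim)
      (IsAlgebraic.inv (alg_eval q hq _ fun e => e.elim))
  refine ⟨n, _, fun a _ => S D n (v a ()), fun a _ t => S_mem _ _ _ _, ?_, ?_⟩
  · intro a t l
    simp only [coeff_S]
    split_ifs with hl
    · exact RegF.const (halg _ _)
    · exact RegF.const isAlgebraic_zero
  · refine Eventually.of_forall fun _ => ⟨hv3.map' _ (S_inj D n), ?_⟩
    have h5 : V = (LinearMap.ker M.mulVecLin).map (S D n) := by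
      ext g
      rw [hV, Submodule.mem_map]
      constructor
      · rintro ⟨h6, h7⟩
        refine ⟨fun p => (g p.1).coeff p.2, ?_, S_coeff D n g h6⟩
        rw [LinearMap.mem_ker, Matrix.mulVecLin_apply]
        exact h7
      · rintro ⟨c, hc, rfl⟩
        refine ⟨fun t => S_mem _ _ _ _, ?_⟩
        have h8 : (fun p : Fin D × Fin n => (S D n c p.1).coeff (p.2 : ℕ)) = c := by
          funext p
          rw [coeff_S, dif_pos p.2.2]
        rw [h8]
        rw [LinearMap.mem_ker, Matrix.mulVecLin_apply] at hc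
        exact hc
    have h6 := congrArg (Submodule.map (S D n)) hv4
    rw [Submodule.map_span, ← h5] at h6
    refine h6.trans (congrArg (Submodule.span ℂ) ?_)
    ext g
    simp

/-- the inverse twist -/
noncomputable def T (D l : ℕ) : Fn D →ₗ[ℂ] Fn D where
  toFun g t := Polynomial.C ((ze D ^ ((t : ℕ) * l))⁻¹) * g t
  map_add' g g' := by
    funext t
    simp only [Pi.add_apply, mul_add]
  map_smul' a g := by
    funext t
    simp only [Pi.smul_apply, RingHom.id_apply, Polynomial.smul_eq_C_mul]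
    ring

theorem T_tw (D l : ℕ) (g : Fn D) : T D l (tw D l g) = g := by
  funext t
  simp only [T, tw, LinearMap.coe_mk, AddHom.coe_mk]
  rw [← mul_assoc, ← Polynomial.C_mul, inv_mul_cancel₀ (pow_ne_zero _ ze_ne), Polynomial.C_1,
    one_mul]

theorem tw_T (D l : ℕ) (g : Fn D) : tw D l (T D l g) = g := by
  funext t
  simp only [T, tw, LinearMap.coe_mk, AddHom.coe_mk]
  rw [← mul_assoc, ← Polynomial.C_mul, mul_inv_cancel₀ (pow_ne_zero _ ze_ne), Polynomial.C_1,
    one_mul]

theorem T_inj (D l : ℕ) : LinearMap.ker (T D l) = ⊥ := by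
  rw [LinearMap.ker_eq_bot]
  exact Function.LeftInverse.injective (tw_T D l)

theorem T_mem (D l n : ℕ) (g : Fn D) (t : Fin D) (hg : g t ∈ Polynomial.degreeLT ℂ n) :
    T D l g t ∈ Polynomial.degreeLT ℂ n := by
  simp only [T, LinearMap.coe_mk, AddHom.coe_mk]
  rw [← Polynomial.smul_eq_C_mul]
  exact Submodule.smul_mem _ _ hg

theorem T_coeff (D l : ℕ) (g : Fn D) (t : Fin D) (m : ℕ) :
    (T D l g t).coeff m = (ze D ^ ((t : ℕ) * l))⁻¹ * (g t).coeff m := by
  simp only [T, LinearMap.coe_mk, AddHom.coe_mk, Polynomial.coeff_C_mul]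

end JH3a

namespace JH3a

theorem W_iff (n : ℕ) (g : Fn D) : g ∈ W D j k n ↔
    (∀ t, g t ∈ Polynomial.degreeLT ℂ (n + 1)) ∧ ∀ p : Fin D × Fin (n + 1),
      n + 1 - cc D j k p.1 ≤ (p.2 : ℕ) → (g p.1).coeff p.2 = 0 := by
  simp only [W, Submodule.mem_pi, Set.mem_univ, forall_true_left]
  constructor
  · intro hg
    refine ⟨fun t => Polynomial.degreeLT_mono (by omega) (hg t), fun p hp => ?_⟩
    have h1 := hg p.1
    rw [Polynomial.mem_degreeLT, Polynomial.degree_lt_iff_coeff_zero] at h1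
    exact h1 _ hp
  · rintro ⟨h1, h2⟩ t
    have h3 := h1 t
    rw [Polynomial.mem_degreeLT, Polynomial.degree_lt_iff_coeff_zero] at h3 ⊢
    intro m hm
    by_cases hm' : m < n + 1
    · exact h2 (t, ⟨m, hm'⟩) hm
    · exact h3 m (by omega)

theorem sum1 {ι : Type} [Fintype ι] [DecidableEq ι] (p : ι) (c : Prop) [Decidable c]
    (f : ι → ℂ) : ∑ q, (if p = q ∧ c then 1 else 0) * f q = if c then f p else 0 := by
  rw [Finset.sum_eq_single p]
  · simp
  · intro b _ hb
    rw [if_neg (fun h => hb h.1.symm), zero_mul]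
  · intro h
    exact absurd (Finset.mem_univ _) h

end JH3a

/-- constant families: the spaces `W n` -/
theorem regFam_W (hD : 0 < D) (n : ℕ) : RegFam h x0 fun _ => W D j k n := by
  classical
  have _ := hD
  refine JH3a.constFam (n + 1) (κ := Fin D × Fin (n + 1))
    (fun p q => if p = q ∧ n + 1 - cc D j k p.1 ≤ (p.2 : ℕ) then 1 else 0) ?_ _ ?_
  · intro a b
    split_ifs
    · exact isAlgebraic_one
    · exact isAlgebraic_zero
  · intro g
    rw [JH3a.W_iff]
    refine and_congr_right fun _ => ?_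
    rw [funext_iff]
    refine forall_congr' fun p => ?_
    have h1 := JH3a.sum1 p (n + 1 - cc D j k p.1 ≤ (p.2 : ℕ))
      (fun q : Fin D × Fin (n + 1) => (g q.1).coeff (q.2 : ℕ))
    rw [Pi.zero_apply]
    unfold Matrix.mulVec dotProduct
    rw [h1]
    split_ifs with h2
    · exact ⟨fun h => h h2, fun h _ => h⟩
    · exact ⟨fun _ => rfl, fun _ h => absurd h h2⟩

namespace JH3a

theorem van_iff {f : ℂ → ℂ} (hf : DifferentiableOn ℂ f (ball 0 (1 / 4))) (d : ℕ) (hd : d ≤ 2) :
    Van f (Multiset.replicate d 0) ↔ (1 ≤ d → f 0 = 0) ∧ (2 ≤ d → deriv f 0 = 0) := by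
  have hb : ball (0 : ℂ) (1 / 4) ∈ 𝓝 (0 : ℂ) := ball_mem_nhds _ (by norm_num)
  have h0 : (0 : ℂ) ∈ ball (0 : ℂ) (1 / 4) := mem_ball_self (by norm_num)
  interval_cases d
  · refine ⟨fun _ => ⟨fun h => absurd h (by norm_num), fun h => absurd h (by norm_num)⟩,
      fun _ => ⟨f, hf, fun s _ => by simp⟩⟩
  · constructor
    · rintro ⟨χ, h1, h2⟩
      refine ⟨fun _ => ?_, fun h => absurd h (by norm_num)⟩
      rw [h2 0 h0]
      simp
    · rintro ⟨h1, -⟩
      refine ⟨dslope f 0, (Complex.differentiableOn_dslope hb).2 hf, fun s _ => ?_⟩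
      have h3 := sub_smul_dslope f 0 s
      rw [h1 le_rfl, sub_zero, smul_eq_mul] at h3
      simpa using h3.symm
  · constructor
    · rintro ⟨χ, h1, h2⟩
      refine ⟨fun _ => ?_, fun _ => ?_⟩
      · rw [h2 0 h0]
        simp
      · have h3 : HasDerivAt (fun s : ℂ => s * s * χ s)
            ((1 * 0 + 0 * 1) * χ 0 + 0 * 0 * deriv χ 0) 0 :=
          ((hasDerivAt_id (0 : ℂ)).mul (hasDerivAt_id (0 : ℂ))).mul
            (h1.differentiableAt hb).hasDerivAt
        have h4 : f =ᶠ[𝓝 0] fun s : ℂ => s * s * χ s := by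
          filter_upwards [hb] with s hs
          rw [h2 s hs]
          simp
        rw [h4.deriv_eq, h3.deriv]
        ring
    · rintro ⟨h1, h2⟩
      have hf1 := (Complex.differentiableOn_dslope hb).2 hf
      refine ⟨dslope (dslope f 0) 0, (Complex.differentiableOn_dslope hb).2 hf1, fun s _ => ?_⟩
      have h3 := sub_smul_dslope f 0 s
      rw [h1 (by norm_num), sub_zero, sub_zero, smul_eq_mul] at h3
      have h4 := sub_smul_dslope (dslope f 0) 0 s
      rw [dslope_same, h2 le_rfl, sub_zero, sub_zero, smul_eq_mul] at h4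
      rw [← h3, ← h4]
      simp [Multiset.replicate_succ, Multiset.replicate_zero, mul_assoc]

theorem et_zero_alg (hD : 0 < D) (t : ℕ) : IsAlgebraic ℚ (et D j k t 0) := by
  have h1 : ∀ m : ℕ, IsAlgebraic ℚ ((1 / 2 : ℂ) ^ ((m : ℂ) / D)) := by
    intro m
    refine IsAlgebraic.of_pow hD ?_
    have h2 : (D : ℂ) ≠ 0 := by exact_mod_cast hD.ne'
    rw [← Complex.cpow_nat_mul, mul_div_cancel₀ _ h2, Complex.cpow_natCast]
    refine IsAlgebraic.pow ?_ _
    have h3 := isAlgebraic_algebraMap (R := ℚ) (A := ℂ) (1 / 2 : ℚ)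
    simpa using h3
  unfold et
  rw [add_zero, sub_zero]
  exact IsAlgebraic.mul (h1 _) (h1 _)

theorem et_deriv (t : ℕ) : HasDerivAt (et D j k t)
    (2 * (((t * j % D : ℕ) : ℂ) / D - ((t * k % D : ℕ) : ℂ) / D) * et D j k t 0) 0 := by
  unfold et
  set a : ℂ := ((t * j % D : ℕ) : ℂ) / D
  set b : ℂ := ((t * k % D : ℕ) : ℂ) / D
  have hh : (1 / 2 : ℂ) ∈ Complex.slitPlane := by
    left
    norm_num
  have h1 : HasDerivAt (fun s : ℂ => (1 / 2 + s) ^ a) (a * (1 / 2 + 0) ^ (a - 1) * 1) 0 :=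
    ((hasDerivAt_id (0 : ℂ)).const_add (1 / 2)).cpow_const (by simpa using hh)
  have h2 : HasDerivAt (fun s : ℂ => (1 / 2 - s) ^ b) (b * (1 / 2 - 0) ^ (b - 1) * -1) 0 :=
    ((hasDerivAt_id (0 : ℂ)).const_sub (1 / 2)).cpow_const (by simpa using hh)
  have h3 : HasDerivAt (fun s : ℂ => (1 / 2 + s) ^ a * (1 / 2 - s) ^ b)
      ((a * (1 / 2 + 0) ^ (a - 1) * 1) * (1 / 2 - 0) ^ b +
        (1 / 2 + 0) ^ a * (b * (1 / 2 - 0) ^ (b - 1) * -1)) 0 := h1.mul h2
  have h4 : ∀ c : ℂ, (1 / 2 : ℂ) ^ (c - 1) = 2 * (1 / 2 : ℂ) ^ c := by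
    intro c
    rw [Complex.cpow_sub _ _ (by norm_num), Complex.cpow_one]
    ring
  simp only [add_zero, sub_zero, h4] at h3 ⊢
  refine h3.congr_deriv ?_
  ring

theorem sh_zero (g : Fn D) (i : ℕ) : sh D j k g i 0 =
    ∑ t : Fin D, ze D ^ ((t : ℕ) * i) * et D j k t 0 * (g t).coeff 0 := by
  unfold sh
  refine Finset.sum_congr rfl fun t _ => ?_
  rw [Polynomial.coeff_zero_eq_eval_zero]
  ring

theorem sh_deriv (g : Fn D) (i : ℕ) : deriv (sh D j k g i) 0 =
    ∑ t : Fin D, (ze D ^ ((t : ℕ) * i) * (2 * (((t * j % D : ℕ) : ℂ) / D -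
      ((t * k % D : ℕ) : ℂ) / D) * et D j k t 0) * (g t).coeff 0 +
      ze D ^ ((t : ℕ) * i) * et D j k t 0 * (g t).coeff 1) := by
  have h1 : HasDerivAt (sh D j k g i) (∑ t : Fin D,
      ((g t).derivative.eval 0 * ze D ^ ((t : ℕ) * i) * et D j k t 0 +
        (g t).eval 0 * ze D ^ ((t : ℕ) * i) * (2 * (((t * j % D : ℕ) : ℂ) / D -
      ((t * k % D : ℕ) : ℂ) / D) * et D j k t 0))) 0 := by
    unfold sh
    refine HasDerivAt.fun_sum fun t _ => ?_
    exact (((g t).hasDerivAt 0).mul_const _).mul (et_deriv (t : ℕ))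
  rw [h1.deriv]
  refine Finset.sum_congr rfl fun t _ => ?_
  rw [← Polynomial.coeff_zero_eq_eval_zero, ← Polynomial.coeff_zero_eq_eval_zero,
    Polynomial.coeff_derivative]
  simp only [zero_add, Nat.cast_zero, mul_one]
  ring

theorem sum2 (N : ℕ) (A B : ℂ) (p : Polynomial ℂ) (hp : p ∈ Polynomial.degreeLT ℂ N) :
    ∑ l : Fin N, (if (l : ℕ) = 0 then A else if (l : ℕ) = 1 then B else 0) * p.coeff l =
      A * p.coeff 0 + B * p.coeff 1 := by
  rw [Polynomial.mem_degreeLT, Polynomial.degree_lt_iff_coeff_zero] at hp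
  rw [Fin.sum_univ_eq_sum_range
    (fun l => (if l = 0 then A else if l = 1 then B else 0) * p.coeff l) N]
  have h1 : ∑ l ∈ Finset.range N, (if l = 0 then A else if l = 1 then B else 0) * p.coeff l =
      ∑ l ∈ Finset.range (N + 2), (if l = 0 then A else if l = 1 then B else 0) * p.coeff l := by
    rw [Finset.sum_range_succ, Finset.sum_range_succ, hp N le_rfl, hp (N + 1) (by omega)]
    simp
  rw [h1, Finset.sum_range_succ', Finset.sum_range_succ', Finset.sum_eq_zero]
  · simp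
    ring
  · intro l _
    rw [if_neg (by omega), if_neg (by omega), zero_mul]

end JH3a

/-- constant families: conditions at points of the fibre -/
theorem regFam_D0 (hD : 3 ≤ D) (hj : 0 < j) (hk : 0 < k) (hjk : j + k < D) (n : ℕ)
    (d : Fin D → ℕ) (hd : ∀ i, d i ≤ 2) : RegFam h x0 fun _ => WE D j k n (D0 d) := by
  classical
  have _ := hj
  have _ := hk
  have _ := hjk
  have hD0 : 0 < D := by omega
  have hzA : ∀ m : ℕ, IsAlgebraic ℚ (ze D ^ m) := fun m => IsAlgebraic.pow (JH3a.ze_alg hD0) _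
  have hnA : ∀ m : ℕ, IsAlgebraic ℚ (m : ℂ) := fun m => by
    have h3 := isAlgebraic_algebraMap (R := ℚ) (A := ℂ) (m : ℚ)
    simpa using h3
  have hdA : ∀ t : ℕ, IsAlgebraic ℚ (2 * (((t * j % D : ℕ) : ℂ) / D -
      ((t * k % D : ℕ) : ℂ) / D) * et D j k t 0) := fun t =>
    IsAlgebraic.mul (IsAlgebraic.mul (by simpa using hnA 2) (IsAlgebraic.sub
      (IsAlgebraic.mul (hnA _) (IsAlgebraic.inv (hnA _)))
      (IsAlgebraic.mul (hnA _) (IsAlgebraic.inv (hnA _))))) (JH3a.et_zero_alg hD0 t)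
  refine JH3a.constFam (n + 1) (κ := (Fin D × Fin (n + 1)) ⊕ (Fin D ⊕ Fin D))
    (Sum.elim (fun p q => if p = q ∧ n + 1 - cc D j k p.1 ≤ (p.2 : ℕ) then 1 else 0)
      (Sum.elim (fun i q => if 1 ≤ d i then
          (if (q.2 : ℕ) = 0 then ze D ^ ((q.1 : ℕ) * i) * et D j k q.1 0 else
            if (q.2 : ℕ) = 1 then 0 else 0) else 0)
        (fun i q => if 2 ≤ d i then
          (if (q.2 : ℕ) = 0 then ze D ^ ((q.1 : ℕ) * i) * (2 * (((q.1 * j % D : ℕ) : ℂ) / D -
      ((q.1 * k % D : ℕ) : ℂ) / D) * et D j k q.1 0) else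
            if (q.2 : ℕ) = 1 then ze D ^ ((q.1 : ℕ) * i) * et D j k q.1 0 else 0) else 0)))
      ?_ _ ?_
  · rintro (a | a | a) b
    · simp only [Sum.elim_inl]
      split_ifs
      · exact isAlgebraic_one
      · exact isAlgebraic_zero
    · simp only [Sum.elim_inr, Sum.elim_inl]
      split_ifs
      · exact IsAlgebraic.mul (hzA _) (JH3a.et_zero_alg hD0 _)
      · exact isAlgebraic_zero
      · exact isAlgebraic_zero
      · exact isAlgebraic_zero
    · simp only [Sum.elim_inr]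
      split_ifs
      · exact IsAlgebraic.mul (hzA _) (hdA _)
      · exact IsAlgebraic.mul (hzA _) (JH3a.et_zero_alg hD0 _)
      · exact isAlgebraic_zero
      · exact isAlgebraic_zero
  · intro g
    have hmem : g ∈ WE D j k n (D0 d) ↔ g ∈ W D j k n ∧
        ∀ i : Fin D, Van (sh D j k g i) (Multiset.replicate (d i) 0) := Iff.rfl
    rw [hmem, JH3a.W_iff, and_assoc]
    refine and_congr_right fun hg => ?_
    rw [funext_iff, Sum.forall, Sum.forall]
    refine and_congr ?_ ?_
    · refine forall_congr' fun p => ?_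
      have h1 := JH3a.sum1 p (n + 1 - cc D j k p.1 ≤ (p.2 : ℕ))
        (fun q : Fin D × Fin (n + 1) => (g q.1).coeff (q.2 : ℕ))
      rw [Pi.zero_apply]
      unfold Matrix.mulVec dotProduct
      simp only [Sum.elim_inl]
      rw [h1]
      split_ifs with h2
      · exact ⟨fun h => h h2, fun h _ => h⟩
      · exact ⟨fun _ => rfl, fun _ h => absurd h h2⟩
    · rw [← forall_and]
      refine forall_congr' fun i => ?_
      rw [JH3a.van_iff ((sh_diff g i).mono (ball_subset_ball (by norm_num))) _ (hd i)]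
      refine and_congr ?_ ?_
      · rw [Pi.zero_apply, JH3a.sh_zero]
        unfold Matrix.mulVec dotProduct
        simp only [Sum.elim_inr, Sum.elim_inl]
        by_cases h1 : 1 ≤ d i
        · simp only [if_pos h1, forall_prop_of_true h1]
          rw [Fintype.sum_prod_type]
          simp only [JH3a.sum2 _ _ _ _ (hg _), zero_mul, add_zero]
        · simp [h1]
      · rw [Pi.zero_apply, JH3a.sh_deriv]
        unfold Matrix.mulVec dotProduct
        simp only [Sum.elim_inr]
        by_cases h1 : 2 ≤ d i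
        · simp only [if_pos h1, forall_prop_of_true h1]
          rw [Fintype.sum_prod_type]
          simp only [JH3a.sum2 _ _ _ _ (hg _)]
        · simp [h1]

theorem RegFam.tw (hD : 0 < D) (l : ℕ) {U V : X → Submodule ℂ (Fn D)} (hU : RegFam h x0 U)
    (hc : ContinuousAt h x0) (hV : ∀ᶠ x in 𝓝 x0, ∀ g, g ∈ V x ↔ tw D l g ∈ U x) :
    RegFam h x0 V := by
  obtain ⟨n, d, v, h1, h2, h3⟩ := hU
  refine ⟨n, d, fun a x => JH3a.T D l (v a x), fun a x t => JH3a.T_mem _ _ _ _ _ (h1 a x t), ?_, ?_⟩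
  · intro a t m
    simp only [JH3a.T_coeff]
    exact RegF.mul hc (RegF.const (IsAlgebraic.inv (IsAlgebraic.pow (JH3a.ze_alg hD) _))) (h2 a t m)
  · filter_upwards [h3, hV] with x hx hVx
    refine ⟨hx.1.map' _ (JH3a.T_inj D l), ?_⟩
    have h5 : V x = (U x).map (JH3a.T D l) := by
      ext g
      rw [hVx, Submodule.mem_map]
      constructor
      · intro h6
        exact ⟨_, h6, JH3a.T_tw D l g⟩
      · rintro ⟨c, hc, rfl⟩
        rw [JH3a.tw_T]
        exact hc
    rw [h5, hx.2, Submodule.map_span]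
    refine congrArg (Submodule.span ℂ) ?_
    ext g
    simp

end Pool.Agent.WW
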