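import Pool.Agent.WW.JD
import Pool.Agent.WW.JH3

set_option autoImplicit false

namespace Pool.Agent.WW

open MvPolynomial Metric Filter Topology

variable {X μ : Type} [TopologicalSpace X] {h : X → μ → ℂ} {x0 : X} {D j k : ℕ}

theorem ji_ball {s : ℂ} (hs : s ∈ ball (0 : ℂ) (1 / 4)) : ‖s‖ < 1 / 2 := by
  have h1 : ‖s‖ < 1 / 4 := by simpa using hs
  linarith

theorem ji_sh_diff (g : Fn D) (i : ℕ) : DifferentiableOn ℂ (sh D j k g i) (ball 0 (1 / 4)) :=
  (sh_diff g i).mono (ball_subset_ball (by norm_num))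

theorem ji_sh_sub (a b : Fn D) (i : ℕ) (s : ℂ) :
    sh D j k (a - b) i s = sh D j k a i s - sh D j k b i s := by
  simp only [sh, Pi.sub_apply, Polynomial.eval_sub, sub_mul, Finset.sum_sub_distrib]

theorem ji_sh_diffAt (g : Fn D) (i : ℕ) : DifferentiableAt ℂ (sh D j k g i) 0 :=
  (sh_diff g i).differentiableAt (ball_mem_nhds 0 (by norm_num))

/-- two elements with the same functions are equal -/
theorem ji_ext (hD : 0 < D) (a b : Fn D)
    (hab : ∀ i : Fin D, ∀ s ∈ ball (0 : ℂ) (1 / 4), sh D j k a i s = sh D j k b i s) : a = b := by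
  have := sh_inj (j := j) (k := k) hD (a - b) (ρ := 1 / 4) (by norm_num) (fun i s hs => by
    rw [ji_sh_sub, hab i s hs, sub_self])
  exact sub_eq_zero.1 this

theorem ji_van_zero {f : ℂ → ℂ} (hf : DifferentiableOn ℂ f (ball 0 (1 / 4))) : Van f 0 :=
  ⟨f, hf, fun s _ => by simp⟩

theorem ji_van_one {f : ℂ → ℂ} (hf : DifferentiableOn ℂ f (ball 0 (1 / 4))) (h0 : f 0 = 0) :
    Van f {0} := by
  refine ⟨dslope f 0, ?_, fun s _ => ?_⟩
  · exact (Complex.differentiableOn_dslope (ball_mem_nhds 0 (by norm_num))).2 hf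
  · have := sub_smul_dslope f 0 s
    rw [h0, smul_eq_mul, sub_zero (f s)] at this
    simp only [Multiset.map_singleton, Multiset.prod_singleton]
    exact this.symm

theorem ji_van_mul {f g : ℂ → ℂ} {E E' : Multiset ℂ} (hf : Van f E) (hg : Van g E') :
    Van (fun s => f s * g s) (E + E') := by
  obtain ⟨χ, h1, h2⟩ := hf
  obtain ⟨χ', h1', h2'⟩ := hg
  refine ⟨fun s => χ s * χ' s, h1.mul h1', fun s hs => ?_⟩
  simp only [h2 s hs, h2' s hs, Multiset.map_add, Multiset.prod_add]
  ring

theorem ji_van_congr {f g : ℂ → ℂ} {E : Multiset ℂ} (hf : Van f E)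
    (hfg : ∀ s ∈ ball (0 : ℂ) (1 / 4), g s = f s) : Van g E := by
  obtain ⟨χ, h1, h2⟩ := hf
  exact ⟨χ, h1, fun s hs => by rw [hfg s hs, h2 s hs]⟩

/-- vanishing at one point -/
theorem ji_val_zero {f : ℂ → ℂ} {n : ℕ} (hn : 1 ≤ n) (hf : Van f (Multiset.replicate n 0)) :
    f 0 = 0 := by
  obtain ⟨χ, h1, h2⟩ := hf
  rw [h2 0 (mem_ball_self (by norm_num))]
  simp [Multiset.map_replicate, Multiset.prod_replicate, show n ≠ 0 by omega]

/-- vanishing of the derivative -/
theorem ji_deriv_zero {f : ℂ → ℂ} {n : ℕ} (hn : 2 ≤ n) (hf : Van f (Multiset.replicate n 0)) :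
    deriv f 0 = 0 := by
  obtain ⟨χ, h1, h2⟩ := hf
  have e : f =ᶠ[𝓝 0] fun s => s ^ n * χ s := by
    filter_upwards [ball_mem_nhds (0 : ℂ) (show (0 : ℝ) < 1 / 4 by norm_num)] with s hs
    rw [h2 s hs]
    simp [Multiset.map_replicate, Multiset.prod_replicate]
  rw [e.deriv_eq]
  have hχ : DifferentiableAt ℂ χ 0 := h1.differentiableAt (ball_mem_nhds 0 (by norm_num))
  have hp : HasDerivAt (fun s : ℂ => s ^ n) ((n : ℂ) * 0 ^ (n - 1)) 0 := hasDerivAt_pow n 0
  have hq : deriv (fun s : ℂ => s ^ n * χ s) 0 = (n : ℂ) * 0 ^ (n - 1) * χ 0 + 0 ^ n * deriv χ 0 :=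
    (hp.mul hχ.hasDerivAt).deriv
  rw [hq]
  simp [show n ≠ 0 by omega, show n - 1 ≠ 0 by omega]

/-- products of functions vanishing on divisors -/
theorem ji_mulS_le (hD : 0 < D) (n m : ℕ) (E E' : Dv D) :
    mulS D j k (WE D j k n E) (WE D j k m E') ≤ WE D j k (n + m) fun i => E i + E' i := by
  unfold mulS
  rw [Submodule.span_le]
  rintro _ ⟨g, hg, f, hf, rfl⟩
  refine ⟨mulF_mem hD hg.1 hf.1, fun i => ?_⟩
  exact ji_van_congr (ji_van_mul (hg.2 i) (hf.2 i)) fun s hs => sh_mulF hD g f i (ji_ball hs)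

theorem ji_W_le_fin (hD : 3 ≤ D) (hj : 0 < j) (hk : 0 < k) (hjk : j + k < D)
    (hg : Nat.gcd (Nat.gcd j k) D = 1) {n : ℕ} (hn : 1 ≤ n) (E : Dv D) :
    FiniteDimensional ℂ (WE D j k n E) := by
  have h1 := finrank_W (n := n) hD hj hk hjk hg hn
  have h2 := genus_le hD hj hk hjk hg
  have h3 : 0 < Module.finrank ℂ (W D j k n) := by nlinarith
  have : FiniteDimensional ℂ (W D j k n) := Module.finite_of_finrank_pos h3
  have h4 : WE D j k n E ≤ W D j k n := fun g hg => hg.1
  exact Submodule.finiteDimensional_of_le h4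

/-- membership in `WE n (D0 d)` for `d ≤ 1` -/
theorem ji_mem_WE {n : ℕ} {d : Fin D → ℕ} (hd : ∀ i, d i ≤ 1) {g : Fn D} (hg : g ∈ W D j k n)
    (h0 : ∀ i : Fin D, d i = 1 → sh D j k g i 0 = 0) : g ∈ WE D j k n (D0 d) := by
  refine ⟨hg, fun i => ?_⟩
  rcases Nat.lt_or_ge (d i) 1 with h | h
  · have hz : d i = 0 := by omega
    simp only [D0, hz, Multiset.replicate_zero]
    exact ji_van_zero (ji_sh_diff g i)
  · have hz : d i = 1 := le_antisymm (hd i) h
    simp only [D0, hz, Multiset.replicate_one]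
    exact ji_van_one (ji_sh_diff g i) (h0 i hz)

/-- (JI1) product lemma on the fibre -/
theorem prod_base (hD : 3 ≤ D) (hj : 0 < j) (hk : 0 < k) (hjk : j + k < D)
    (hg : Nat.gcd (Nat.gcd j k) D = 1)
    (d d' : Fin D → ℕ) (hd : ∀ i, d i ≤ 1) (hd' : ∀ i, d' i ≤ 1) :
    mulS D j k (WE D j k 3 (D0 d)) (WE D j k 3 (D0 d')) = WE D j k 6 (D0 fun i => d i + d' i) := by
  have hD0 : 0 < D := by omega
  have hadd : (D0 fun i => d i + d' i) = fun i => D0 d i + D0 d' i := by
    funext i
    simp [D0, Multiset.replicate_add]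
  refine le_antisymm ?_ ?_
  · rw [hadd]
    exact ji_mulS_le hD0 3 3 (D0 d) (D0 d')
  · intro φ hφ
    -- the product with the same jets
    obtain ⟨g, hgW, hgj⟩ := fibre_jets (n := 3) hD hj hk hjk hg le_rfl
      (fun i => if d i = 0 then 1 else 0)
      (fun i => if d i = 0 then 0 else if d' i = 0 then deriv (sh D j k φ i) 0 else 0)
    obtain ⟨f, hfW, hfj⟩ := fibre_jets (n := 3) hD hj hk hjk hg le_rfl
      (fun i => if d' i = 0 then (if d i = 0 then sh D j k φ i 0 else 1) else 0)
      (fun i => if d i = 0 then deriv (sh D j k φ i) 0 else 0)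
    have hgE : g ∈ WE D j k 3 (D0 d) := by
      refine ji_mem_WE hd hgW fun i hi => ?_
      rw [(hgj i).1, if_neg (by omega)]
    have hfE : f ∈ WE D j k 3 (D0 d') := by
      refine ji_mem_WE hd' hfW fun i hi => ?_
      rw [(hfj i).1, if_neg (by omega)]
    have hval : ∀ i : Fin D, sh D j k (mulF D j k g f) i 0 = sh D j k φ i 0 := by
      intro i
      rw [sh_mulF hD0 g f i (by simp), (hgj i).1, (hfj i).1]
      have h1 := hd i
      have h2 := hd' i
      by_cases hi : d i = 0
      · by_cases hi' : d' i = 0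
        · simp [hi, hi']
        · have := ji_val_zero (n := d i + d' i) (by omega) (hφ.2 i)
          simp [hi, hi', this]
      · have := ji_val_zero (n := d i + d' i) (by omega) (hφ.2 i)
        simp [hi, this]
    have hder : ∀ i : Fin D, deriv (sh D j k (mulF D j k g f) i) 0 = deriv (sh D j k φ i) 0 := by
      intro i
      have e : sh D j k (mulF D j k g f) i =ᶠ[𝓝 0] sh D j k g i * sh D j k f i := by
        filter_upwards [ball_mem_nhds (0 : ℂ) (show (0 : ℝ) < 1 / 4 by norm_num)] with s hs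
        exact sh_mulF hD0 g f i (ji_ball hs)
      rw [e.deriv_eq, deriv_mul (ji_sh_diffAt g i) (ji_sh_diffAt f i), (hgj i).1, (hgj i).2,
        (hfj i).1, (hfj i).2]
      have h1 := hd i
      have h2 := hd' i
      by_cases hi : d i = 0
      · simp [hi]
      · by_cases hi' : d' i = 0
        · simp [hi, hi']
        · have := ji_deriv_zero (n := d i + d' i) (by omega) (hφ.2 i)
          simp [hi, hi', this]
    have hprod : mulF D j k g f ∈ mulS D j k (WE D j k 3 (D0 d)) (WE D j k 3 (D0 d')) :=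
      Submodule.subset_span ⟨g, hgE, f, hfE, rfl⟩
    -- the remainder
    have hr : φ - mulF D j k g f ∈ W D j k (4 + 2) :=
      sub_mem hφ.1 (mulF_mem (n := 3) (m := 3) hD0 hgW hfW)
    obtain ⟨χ, hχ, hχe⟩ := fibre_div2 (n := 4) hD hj hk hjk hg (φ - mulF D j k g f) hr
      (fun i => by rw [ji_sh_sub, hval i, sub_self])
      (fun i => by
        have e : sh D j k (φ - mulF D j k g f) i =
            sh D j k φ i - sh D j k (mulF D j k g f) i := by
          funext s
          exact ji_sh_sub _ _ _ _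
        rw [e, deriv_sub (ji_sh_diffAt _ i) (ji_sh_diffAt _ i), hder i, sub_self])
    have hχ4 := W_four hD hj hk hjk hg hχ
    obtain ⟨M, hM⟩ := exists_mulL (D := D) (j := j) (k := k)
    have key : ∀ χ ∈ mulS D j k (W D j k 2) (W D j k 2),
        mulF D j k (xp D 2) χ ∈ mulS D j k (WE D j k 3 (D0 d)) (WE D j k 3 (D0 d')) := by
      intro χ hχ
      unfold mulS at hχ
      induction hχ using Submodule.span_induction with
      | mem x hx =>
        obtain ⟨a, ha, b, hb, rfl⟩ := hx
        have e : mulF D j k (xp D 2) (mulF D j k a b) =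
            mulF D j k (mulF D j k (xp D 1) a) (mulF D j k (xp D 1) b) := by
          refine ji_ext (j := j) (k := k) hD0 _ _ fun i s hs => ?_
          have hs' := ji_ball hs
          rw [sh_mulF hD0 _ _ i hs', sh_mulF hD0 _ _ i hs', sh_mulF hD0 _ _ i hs',
            sh_mulF hD0 _ _ i hs', sh_mulF hD0 _ _ i hs', sh_xp hD0 2 i hs', sh_xp hD0 1 i hs']
          ring
        rw [e]
        refine Submodule.subset_span ⟨_, ?_, _, ?_, rfl⟩
        · refine ji_mem_WE hd (mulF_mem (n := 1) (m := 2) hD0 (xp_mem hD0 le_rfl) ha)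
            fun i _ => ?_
          rw [sh_mulF hD0 _ _ i (by simp), sh_xp hD0 1 i (by simp)]
          simp
        · refine ji_mem_WE hd' (mulF_mem (n := 1) (m := 2) hD0 (xp_mem hD0 le_rfl) hb)
            fun i _ => ?_
          rw [sh_mulF hD0 _ _ i (by simp), sh_xp hD0 1 i (by simp)]
          simp
      | zero =>
        rw [← hM, map_zero]
        exact zero_mem _
      | add x y _ _ hx hy =>
        rw [← hM, map_add, hM, hM]
        exact add_mem hx hy
      | smul c x _ hx =>
        rw [← hM, map_smul, hM]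
        exact Submodule.smul_mem _ c hx
    have h2 := key χ hχ4
    rw [← hχe] at h2
    have h3 := add_mem h2 hprod
    rwa [sub_add_cancel] at h3

theorem ji_at {E : X → Dv D} {d : Fin D → ℕ} (ht : ∀ x, Typ (E x) d)
    (hs : ∀ ε : ℝ, 0 < ε → ∀ᶠ x in 𝓝 x0, SmallD ε (E x)) : E x0 = D0 d := by
  funext i
  unfold D0
  rw [Multiset.eq_replicate]
  refine ⟨ht x0 i, fun b hb => ?_⟩
  by_contra hne
  have hpos : 0 < ‖b‖ := norm_pos_iff.2 hne
  have := (hs ‖b‖ hpos).self_of_nhds i b hb
  exact lt_irrefl _ this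

theorem ji_small_add {ε : ℝ} {E E' : Dv D} (hE : SmallD ε E) (hE' : SmallD ε E') :
    SmallD ε fun i => E i + E' i := by
  intro i α hα
  rcases Multiset.mem_add.1 hα with h | h
  · exact hE i α h
  · exact hE' i α h

/-- (JI2) product lemma for families -/
theorem Fam.mul (hD : 3 ≤ D) (hj : 0 < j) (hk : 0 < k) (hjk : j + k < D)
    (hg : Nat.gcd (Nat.gcd j k) D = 1)
    (hc : ContinuousAt h x0) {E E' : X → Dv D} {d d' : Fin D → ℕ} (hd : ∀ i, d i ≤ 1)
    (hd' : ∀ i, d' i ≤ 1) (hE : Fam D j k h x0 E d) (hE' : Fam D j k h x0 E' d') :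
    RegFam h x0 fun x => WE D j k 6 fun i => E x i + E' x i := by
  have hD0 : 0 < D := by omega
  obtain ⟨ε, hε, hdim⟩ := dim_WE (n := 6) hD hj hk hjk hg (by norm_num) (fun i => d i + d' i)
    (fun i => by have := hd i; have := hd' i; omega)
  have ht : ∀ x, Typ (fun i => E x i + E' x i) fun i => d i + d' i := by
    intro x i
    rw [Multiset.card_add, hE.typ x i, hE'.typ x i]
  have e0 : E x0 = D0 d := ji_at hE.typ hE.small
  have e0' : E' x0 = D0 d' := ji_at hE'.typ hE'.small
  have hbase : mulS D j k (WE D j k 3 (E x0)) (WE D j k 3 (E' x0)) =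
      WE D j k 6 fun i => E x0 i + E' x0 i := by
    rw [e0, e0', prod_base hD hj hk hjk hg d d' hd hd']
    congr 1
    funext i
    simp [D0, Multiset.replicate_add]
  have hsmall : ∀ᶠ x in 𝓝 x0, SmallD ε (fun i => E x i + E' x i) := by
    filter_upwards [hE.small ε hε, hE'.small ε hε] with x h1 h2
    exact ji_small_add h1 h2
  have hdimx0 := hdim _ (ht x0) hsmall.self_of_nhds
  have hdimeq : ∀ᶠ x in 𝓝 x0, Module.finrank ℂ (WE D j k 6 fun i => E x i + E' x i) =
      Module.finrank ℂ (WE D j k 6 fun i => E x0 i + E' x0 i) := by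
    filter_upwards [hsmall] with x hx
    have := hdim _ (ht x) hx
    omega
  have hle : ∀ x, mulS D j k (WE D j k 3 (E x)) (WE D j k 3 (E' x)) ≤
      WE D j k 6 fun i => E x i + E' x i := fun x => ji_mulS_le hD0 3 3 (E x) (E' x)
  have hfin : ∀ x, FiniteDimensional ℂ (WE D j k 6 fun i => E x i + E' x i) := fun x =>
    ji_W_le_fin hD hj hk hjk hg (by norm_num) _
  have hrl : ∀ x, Module.finrank ℂ (mulS D j k (WE D j k 3 (E x)) (WE D j k 3 (E' x))) ≤
      Module.finrank ℂ (WE D j k 6 fun i => E x i + E' x i) := fun x => by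
    have := hfin x
    exact Submodule.finrank_mono (hle x)
  have hreg := RegFam.mul hD0 hc hE.reg hE'.reg (j := j) (k := k) (by
    filter_upwards [hdimeq] with x hx
    have := hrl x
    rw [hbase, ← hx]
    exact this)
  refine hreg.congr ?_
  filter_upwards [hdimeq, RegFam.mul_le hD0 hc hE.reg hE'.reg (j := j) (k := k)] with x hx hm
  have := hfin x
  refine Submodule.eq_of_le_of_finrank_le (hle x) ?_
  rw [hx, ← hbase]
  exact hm

/-- (JI3) the empty divisor -/
theorem Fam.zero (hD : 3 ≤ D) (hj : 0 < j) (hk : 0 < k) (hjk : j + k < D)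
    (hg : Nat.gcd (Nat.gcd j k) D = 1) :
    Fam D j k h x0 (fun _ _ => 0) (fun _ => 0) where
  typ := fun _ _ => by simp
  small := fun ε _ => Filter.Eventually.of_forall fun _ i α hα => by simp at hα
  reg := by
    refine (regFam_W (j := j) (k := k) (h := h) (x0 := x0) (show 0 < D by omega) 3).congr
      (Filter.Eventually.of_forall fun _ => ?_)
    ext g
    refine ⟨fun hgm => ⟨hgm, fun i => ji_van_zero (ji_sh_diff g i)⟩, fun hgm => hgm.1⟩

/-- (JI4) adding constant points of the fibre on other sheets -/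
theorem RegFam.add_const (hD : 3 ≤ D) (hj : 0 < j) (hk : 0 < k) (hjk : j + k < D)
    (hg : Nat.gcd (Nat.gcd j k) D = 1)
    (hc : ContinuousAt h x0) {E : X → Dv D} {d d' : Fin D → ℕ} (hd : ∀ i, d i + d' i ≤ 2)
    (hdd : ∀ i, d i = 0 ∨ d' i = 0) (hE : ∀ x, Typ (E x) d)
    (hs : ∀ ε : ℝ, 0 < ε → ∀ᶠ x in 𝓝 x0, SmallD ε (E x))
    (hr : RegFam h x0 fun x => WE D j k 6 (E x)) :
    RegFam h x0 fun x => WE D j k 6 fun i => E x i + D0 d' i := by
  obtain ⟨ε, hε, hdim⟩ := dim_WE (n := 6) hD hj hk hjk hg (by norm_num) (fun i => d i + d' i) hd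
  have ht : ∀ x, Typ (fun i => E x i + D0 d' i) fun i => d i + d' i := by
    intro x i
    rw [Multiset.card_add, hE x i]
    simp [D0]
  have hsmall : ∀ᶠ x in 𝓝 x0, SmallD ε (fun i => E x i + D0 d' i) := by
    filter_upwards [hs ε hε] with x h1
    refine ji_small_add h1 ?_
    intro i α hα
    rw [Multiset.eq_of_mem_replicate hα]
    simpa using hε
  have heq : ∀ x, (WE D j k 6 (E x) ⊓ WE D j k 6 (D0 d') : Submodule ℂ (Fn D)) =
      WE D j k 6 fun i => E x i + D0 d' i := by
    intro x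
    ext g
    constructor
    · rintro ⟨h1, h2⟩
      refine ⟨h1.1, fun i => ?_⟩
      rcases hdd i with hi | hi
      · have : E x i = 0 := Multiset.card_eq_zero.1 ((hE x i).trans hi)
        simp only [this, zero_add]
        exact h2.2 i
      · have : D0 d' i = 0 := by simp [D0, hi]
        simp only [this, add_zero]
        exact h1.2 i
    · rintro ⟨h1, h2⟩
      refine ⟨⟨h1, fun i => ?_⟩, ⟨h1, fun i => ?_⟩⟩
      · rcases hdd i with hi | hi
        · have : E x i = 0 := Multiset.card_eq_zero.1 ((hE x i).trans hi)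
          rw [this]
          exact ji_van_zero (ji_sh_diff g i)
        · have h3 := h2 i
          have : D0 d' i = 0 := by simp [D0, hi]
          simp only [this, add_zero] at h3
          exact h3
      · rcases hdd i with hi | hi
        · have h3 := h2 i
          have : E x i = 0 := Multiset.card_eq_zero.1 ((hE x i).trans hi)
          simp only [this, zero_add] at h3
          exact h3
        · have : D0 d' i = 0 := by simp [D0, hi]
          rw [this]
          exact ji_van_zero (ji_sh_diff g i)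
  have hD0r : RegFam h x0 fun _ : X => WE D j k 6 (D0 d') :=
    regFam_D0 hD hj hk hjk 6 d' (fun i => by have := hd i; omega)
  refine (RegFam.inf hc hr hD0r ?_).congr (Filter.Eventually.of_forall heq)
  have hdimx0 := hdim _ (ht x0) hsmall.self_of_nhds
  filter_upwards [hsmall] with x hx
  rw [heq x, heq x0]
  have := hdim _ (ht x) hx
  omega

end Pool.Agent.WW
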