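import Pool.Agent.WW.JG
import Pool.Agent.WW.JI

set_option autoImplicit false

namespace Pool.Agent.WW

open MvPolynomial Metric Filter Topology

/-! auxiliary facts about divisors near the fibre -/
namespace JKaux

theorem van_zero {f : ℂ → ℂ} (hf : DifferentiableOn ℂ f (ball 0 (1 / 4))) : Van f 0 :=
  ⟨f, hf, fun s _ => by simp⟩

theorem van_add_of {f u : ℂ → ℂ} {E : Multiset ℂ} {α : ℂ}
    (hu : DifferentiableOn ℂ u (ball 0 (1 / 4)))
    (hf : ∀ s ∈ ball (0 : ℂ) (1 / 4), f s = (E.map fun a => s - a).prod * u s)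
    (hα : α ∈ ball (0 : ℂ) (1 / 4)) (h0 : u α = 0) : Van f (E + {α}) := by
  refine ⟨dslope u α, (Complex.differentiableOn_dslope (isOpen_ball.mem_nhds hα)).2 hu, ?_⟩
  intro s hs
  have h1 := sub_smul_dslope u α s
  rw [smul_eq_mul, h0, sub_zero] at h1
  rw [hf s hs, Multiset.map_add, Multiset.prod_add, Multiset.map_singleton,
    Multiset.prod_singleton, mul_assoc, h1]

theorem van_single {f : ℂ → ℂ} (hf : DifferentiableOn ℂ f (ball 0 (1 / 4))) {α : ℂ}
    (hα : α ∈ ball (0 : ℂ) (1 / 4)) (h0 : f α = 0) : Van f {α} := by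
  have := van_add_of (E := 0) (f := f) hf (fun s _ => by simp) hα h0
  simpa using this

theorem ev_not_mem (E : Multiset ℂ) (α : ℂ) : ∀ᶠ s in 𝓝[≠] α, s ∉ E := by
  classical
  have h : ∀ᶠ s in 𝓝 α, s ∉ (((E.toFinset.erase α : Finset ℂ)) : Set ℂ) :=
    (E.toFinset.erase α).finite_toSet.isClosed.isOpen_compl.mem_nhds (by simp)
  filter_upwards [nhdsWithin_le_nhds h, self_mem_nhdsWithin] with s hs hne hmem
  apply hs
  simp only [Finset.coe_erase, Set.mem_sdiff, Finset.mem_coe, Multiset.mem_toFinset,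
    Set.mem_singleton_iff]
  exact ⟨hmem, hne⟩

theorem prod_ne {E : Multiset ℂ} {s : ℂ} (h : s ∉ E) : (E.map fun a => s - a).prod ≠ 0 := by
  intro h0
  rw [Multiset.prod_eq_zero_iff, Multiset.mem_map] at h0
  obtain ⟨a, ha, h1⟩ := h0
  rw [sub_eq_zero] at h1
  exact h (h1 ▸ ha)

variable {D j k : ℕ}

theorem sh_diff' (g : Fn D) (i : ℕ) : DifferentiableOn ℂ (sh D j k g i) (ball 0 (1 / 4)) :=
  (sh_diff g i).mono (ball_subset_ball (by norm_num))

theorem sh_smul (c : ℂ) (g : Fn D) (i : ℕ) (s : ℂ) :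
    sh D j k (c • g) i s = c * sh D j k g i s := by
  simp only [sh, Pi.smul_apply, Polynomial.eval_smul, smul_eq_mul, Finset.mul_sum]
  exact Finset.sum_congr rfl fun t _ => by ring

theorem divOf_smul {φ : Fn D} {E : Dv D} (h : DivOf D j k φ E) {c : ℂ} (hc : c ≠ 0) :
    DivOf D j k (c • φ) E := by
  intro i
  obtain ⟨v, h1, h2, h3⟩ := h i
  refine ⟨fun s => c * v s, h1.const_mul c, fun s hs => mul_ne_zero hc (h2 s hs), fun s hs => ?_⟩
  rw [sh_smul, h3 s hs]
  ring

theorem mem_quarter {s : ℂ} (h : s ∈ ball (0 : ℂ) (1 / 4)) : ‖s‖ < 1 / 2 := by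
  have := mem_ball_zero_iff.1 h
  linarith

/-- multiplication by a function with finitely many zeros is injective -/
theorem mulF_inj (hD : 0 < D) {φ : Fn D} {E : Dv D} (h : DivOf D j k φ E) {χ : Fn D}
    (h0 : mulF D j k φ χ = 0) : χ = 0 := by
  refine sh_inj (j := j) (k := k) hD χ (ρ := 1 / 8) (by norm_num) fun i s hs => ?_
  obtain ⟨v, h1, h2, h3⟩ := h i
  have hs4 : s ∈ ball (0 : ℂ) (1 / 4) := ball_subset_ball (by norm_num) hs
  have hcont : ContinuousAt (sh D j k χ i) s :=
    ((sh_diff' χ i).differentiableAt (isOpen_ball.mem_nhds hs4)).continuousAt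
  have hev : ∀ᶠ s' in 𝓝[≠] s, sh D j k χ i s' = 0 := by
    filter_upwards [ev_not_mem (E i) s, nhdsWithin_le_nhds (isOpen_ball.mem_nhds hs)]
      with s' h4 h5
    have h5' : s' ∈ ball (0 : ℂ) (1 / 4) := ball_subset_ball (by norm_num) h5
    have h6 := sh_mulF (j := j) (k := k) hD φ χ i (mem_quarter h5')
    rw [h0] at h6
    have h7 : sh D j k (0 : Fn D) i s' = 0 := by simp [sh]
    rw [h7, h3 s' h5'] at h6
    have h8 : (Multiset.map (fun α => s' - α) (E i)).prod * v s' ≠ 0 :=
      mul_ne_zero (prod_ne h4) (h2 s' h5)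
    exact (mul_eq_zero.1 h6.symm).resolve_left h8
  have hlim : Tendsto (sh D j k χ i) (𝓝[≠] s) (𝓝 (sh D j k χ i s)) :=
    hcont.tendsto.mono_left nhdsWithin_le_nhds
  have hlim0 : Tendsto (sh D j k χ i) (𝓝[≠] s) (𝓝 0) :=
    tendsto_const_nhds.congr' (hev.mono fun s' h => h.symm)
  exact tendsto_nhds_unique hlim hlim0

theorem WE_eq_inf {n m : ℕ} (h : n ≤ m) (E : Dv D) :
    WE D j k n E = WE D j k m E ⊓ W D j k n := by
  ext g
  constructor
  · rintro ⟨h1, h2⟩
    exact ⟨⟨W_mono h h1, h2⟩, h1⟩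
  · rintro ⟨⟨_, h2⟩, h1⟩
    exact ⟨h1, h2⟩

theorem finite_W (hD : 3 ≤ D) (hj : 0 < j) (hk : 0 < k) (hjk : j + k < D)
    (hg : Nat.gcd (Nat.gcd j k) D = 1) {n : ℕ} (hn : 1 ≤ n) : Module.Finite ℂ (W D j k n) := by
  apply Module.finite_of_finrank_pos
  have h1 := finrank_W hD hj hk hjk hg hn
  have h2 := genus_le hD hj hk hjk hg
  have h3 : D * 1 ≤ D * n := Nat.mul_le_mul_left _ hn
  omega

theorem WE_le (n : ℕ) (E : Dv D) : WE D j k n E ≤ W D j k n := fun _ h => h.1

theorem adt_le {d : ℕ} {ty : Fin D → ℕ} (ha : Adt D j k d ty) :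
    d ≤ 2 ∧ 1 ≤ d ∧ ∀ i, ty i ≤ d ∧ d ≤ ty i + 1 := by
  rcases ha with ⟨rfl, rfl⟩ | ⟨rfl, rfl⟩ | ⟨rfl, rfl⟩
  · refine ⟨by norm_num, by norm_num, fun i => ?_⟩
    simp only [tA]
    split_ifs <;> omega
  · refine ⟨by norm_num, by norm_num, fun i => ?_⟩
    simp only [tB]
    split_ifs <;> omega
  · refine ⟨by norm_num, by norm_num, fun i => ?_⟩
    simp only [tC]
    split_ifs <;> omega

/-- there is a function in `WE n E` which does not vanish at an extra point -/
theorem exists_theta (hD : 3 ≤ D) (hj : 0 < j) (hk : 0 < k) (hjk : j + k < D)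
    (hg : Nat.gcd (Nat.gcd j k) D = 1) {n : ℕ} (hn : 3 ≤ n) (ty : Fin D → ℕ) (i : Fin D)
    (hty : ∀ l, ty l ≤ 2) (hi : ty i ≤ 1) :
    ∃ ε : ℝ, 0 < ε ∧ ∀ (E : Dv D) (α : ℂ), Typ E ty → SmallD ε E → ‖α‖ < ε →
      ∃ ϑ ∈ WE D j k n E, ∃ u : ℂ → ℂ, DifferentiableOn ℂ u (ball 0 (1 / 4)) ∧
        (∀ s ∈ ball (0 : ℂ) (1 / 4),
          sh D j k ϑ i s = ((E i).map fun a => s - a).prod * u s) ∧ u α ≠ 0 := by
  classical
  obtain ⟨ε1, h1, h1'⟩ := dim_WE hD hj hk hjk hg hn ty hty
  obtain ⟨ε2, h2, h2'⟩ := dim_WE hD hj hk hjk hg hn (fun l => ty l + if l = i then 1 else 0)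
    (fun l => by
      by_cases hl : l = i
      · subst hl
        simp only [if_true]
        omega
      · simp only [hl, if_false, add_zero]
        exact hty l)
  refine ⟨min (min ε1 ε2) (1 / 4), by positivity, fun E α hE hs hα => ?_⟩
  have hα4 : α ∈ ball (0 : ℂ) (1 / 4) := by
    rw [mem_ball_zero_iff]
    exact lt_of_lt_of_le hα (min_le_right _ _)
  have ha := h1' E hE fun l a ha => lt_of_lt_of_le (hs l a ha)
    ((min_le_left _ _).trans (min_le_left _ _))
  have hb := h2' (fun l => E l + if l = i then {α} else 0)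
    (fun l => by
      simp only [Multiset.card_add, hE l]
      by_cases hl : l = i
      · simp [hl]
      · simp [hl])
    (fun l a ha => by
      rw [Multiset.mem_add] at ha
      rcases ha with ha | ha
      · exact lt_of_lt_of_le (hs l a ha) ((min_le_left _ _).trans (min_le_right _ _))
      · by_cases hl : l = i
        · rw [if_pos hl, Multiset.mem_singleton] at ha
          rw [ha]
          exact lt_of_lt_of_le hα ((min_le_left _ _).trans (min_le_right _ _))
        · rw [if_neg hl] at ha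
          simp at ha)
  rw [Finset.sum_add_distrib] at hb
  simp only [Finset.sum_ite_eq', Finset.mem_univ, if_true] at hb
  by_contra hcon
  push Not at hcon
  have hle : WE D j k n E ≤ WE D j k n (fun l => E l + if l = i then {α} else 0) := by
    intro ϑ hϑ
    refine ⟨hϑ.1, fun l => ?_⟩
    by_cases hl : l = i
    · subst hl
      obtain ⟨u, hu1, hu2⟩ := hϑ.2 l
      have := hcon ϑ hϑ u hu1 hu2
      simp only [if_true]
      exact van_add_of hu1 hu2 hα4 this
    · simp only [hl, if_false, add_zero]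
      exact hϑ.2 l
  have : Module.Finite ℂ (W D j k n) := finite_W hD hj hk hjk hg (by omega)
  have : Module.Finite ℂ (WE D j k n (fun l => E l + if l = i then {α} else 0)) :=
    Submodule.finiteDimensional_of_le (WE_le n _)
  have := Submodule.finrank_mono hle
  omega

end JKaux

open JKaux

variable {X μ : Type} [TopologicalSpace X] {h : X → μ → ℂ} {x0 : X} {D j k : ℕ}

/-- (JK1) residual families -/
theorem res_fam (hD : 3 ≤ D) (hj : 0 < j) (hk : 0 < k) (hjk : j + k < D)
    (hg : Nat.gcd (Nat.gcd j k) D = 1)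
    (hc : ContinuousAt h x0) {d : ℕ} {ty : Fin D → ℕ} (ha : Adt D j k d ty) {E e : X → Dv D}
    (hE : ∀ x, Typ (E x) ty) (hs : ∀ ε : ℝ, 0 < ε → ∀ᶠ x in 𝓝 x0, SmallD ε (E x))
    (hr : RegFam h x0 fun x => WE D j k 6 (E x))
    (he : ∀ x, Typ (e x) fun i => d - ty i)
    (hs' : ∀ ε : ℝ, 0 < ε → ∀ᶠ x in 𝓝 x0, SmallD ε (e x))
    (hφ : ∀ᶠ x in 𝓝 x0, ∃ φ : Fn D, φ ≠ 0 ∧ WE D j k d (E x) = Submodule.span ℂ {φ} ∧
      DivOf D j k φ fun i => E x i + e x i) :
    RegFam h x0 fun x => WE D j k 3 (e x) := by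
  have hD0 : 0 < D := by omega
  obtain ⟨hd2, hd1, hty⟩ := adt_le ha
  have hrank : ∀ᶠ x in 𝓝 x0, Module.finrank ℂ (WE D j k d (E x)) = 1 := by
    filter_upwards [hφ] with x hx
    obtain ⟨φ, h1, h2, _⟩ := hx
    rw [h2]
    exact finrank_span_singleton h1
  -- the line
  have hL : RegFam h x0 fun x => WE D j k d (E x) := by
    have h1 : ∀ x, WE D j k d (E x) = WE D j k 6 (E x) ⊓ W D j k d := fun x =>
      WE_eq_inf (by omega) (E x)
    have h2 : RegFam h x0 fun x => WE D j k 6 (E x) ⊓ W D j k d := by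
      refine RegFam.inf hc hr (regFam_W hD0 d) ?_
      filter_upwards [hrank] with x hx
      rw [← h1, ← h1, hx, hrank.self_of_nhds]
    exact h2.congr (Eventually.of_forall fun x => (h1 x).symm)
  refine RegFam.colon (j := j) (k := k) (n := 3) (n' := 9 - d) hD0 hc hr hL hrank.self_of_nhds ?_ ?_ ?_
  · -- injectivity
    filter_upwards [hφ] with x hx φ' hφ' hne χ hχ
    obtain ⟨φ, h1, h2, h3⟩ := hx
    rw [h2, Submodule.mem_span_singleton] at hφ'
    obtain ⟨c, rfl⟩ := hφ'
    have hc0 : c ≠ 0 := by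
      rintro rfl
      simp at hne
    exact mulF_inj hD0 (divOf_smul h3 hc0) hχ
  · -- the colon
    obtain ⟨δ, hδ, hdiv⟩ := div_phi hD hj hk hjk hg (d := d) (m := 9 - d) hd2 (by omega) (by omega)
    have hth : ∀ i : Fin D, ∃ ε : ℝ, 0 < ε ∧ (ty i ≤ 1 → ∀ (E : Dv D) (α : ℂ), Typ E ty →
        SmallD ε E → ‖α‖ < ε →
        ∃ ϑ ∈ WE D j k 6 E, ∃ u : ℂ → ℂ, DifferentiableOn ℂ u (ball 0 (1 / 4)) ∧
        (∀ s ∈ ball (0 : ℂ) (1 / 4),
          sh D j k ϑ i s = ((E i).map fun a => s - a).prod * u s) ∧ u α ≠ 0) := by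
      intro i
      by_cases hi : ty i ≤ 1
      · obtain ⟨ε, h1, h2⟩ := exists_theta hD hj hk hjk hg (n := 6) (by norm_num) ty i
          (fun l => (hty l).1.trans hd2) hi
        exact ⟨ε, h1, fun _ => h2⟩
      · exact ⟨1, one_pos, fun h => absurd h hi⟩
    choose εf hε0 hεf using hth
    have hall : ∀ᶠ x in 𝓝 x0, ∀ i : Fin D, SmallD (εf i) (E x) ∧ SmallD (εf i) (e x) := by
      rw [eventually_all]
      intro i
      exact (hs (εf i) (hε0 i)).and (hs' (εf i) (hε0 i))
    filter_upwards [hφ, hs δ hδ, hs' δ hδ, hs' (1 / 8) (by norm_num), hall]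
      with x hx hx1 hx2 hx3 hx4
    obtain ⟨φ, h1, h2, h3⟩ := hx
    ext ψ
    constructor
    · rintro ⟨hψ1, hψ2⟩
      refine ⟨hψ1, fun ϑ hϑ φ' hφ' hne => ?_⟩
      have hφW : φ' ∈ W D j k d := hφ'.1
      rw [h2, Submodule.mem_span_singleton] at hφ'
      obtain ⟨c, rfl⟩ := hφ'
      have hc0 : c ≠ 0 := by
        rintro rfl
        simp at hne
      have hmem : mulF D j k ψ ϑ ∈ WE D j k (9 - d + d) fun i => E x i + e x i := by
        have h9 : 9 - d + d = 3 + 6 := by omega
        refine ⟨?_, fun i => ?_⟩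
        · rw [h9]
          exact mulF_mem hD0 hψ1 hϑ.1
        · obtain ⟨u, hu1, hu2⟩ := hψ2 i
          obtain ⟨w, hw1, hw2⟩ := hϑ.2 i
          refine ⟨fun s => u s * w s, hu1.mul hw1, fun s hs => ?_⟩
          rw [sh_mulF hD0 _ _ _ (mem_quarter hs), hu2 s hs, hw2 s hs, Multiset.map_add,
            Multiset.prod_add]
          ring
      refine hdiv (fun i => E x i + e x i) (fun i => ?_) (fun i a ha => ?_) (c • φ) hφW
        (divOf_smul h3 hc0) _ hmem
      · have h4 : (e x i).card = d - ty i := he x i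
        have h5 : (E x i).card = ty i := hE x i
        have h6 := (hty i).1
        change (E x i + e x i).card = d
        rw [Multiset.card_add, h5, h4]
        omega
      · rw [Multiset.mem_add] at ha
        rcases ha with ha | ha
        · exact hx1 i a ha
        · exact hx2 i a ha
    · rintro ⟨hψ1, hψ2⟩
      refine ⟨hψ1, fun i => ?_⟩
      have hcard : (e x i).card = d - ty i := he x i
      have hti := hty i
      rcases Nat.lt_or_ge (ty i) d with hlt | hge
      · -- one point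
        have hc1 : (e x i).card = 1 := by
          rw [hcard]
          omega
        obtain ⟨α, hα⟩ := Multiset.card_eq_one.1 hc1
        have hαm : α ∈ e x i := by rw [hα]; simp
        have hα8 : ‖α‖ < 1 / 8 := hx3 i α hαm
        have hα4 : α ∈ ball (0 : ℂ) (1 / 4) := by
          rw [mem_ball_zero_iff]
          linarith
        rw [hα]
        obtain ⟨ϑ, hϑ, u, hu1, hu2, hu3⟩ := hεf i (by omega) (E x) α (hE x) (hx4 i).1
          ((hx4 i).2 i α hαm)
        have hφm : φ ∈ WE D j k d (E x) := by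
          rw [h2]
          exact Submodule.mem_span_singleton_self φ
        obtain ⟨χ, _, hχ⟩ := hψ2 ϑ hϑ φ hφm h1
        obtain ⟨v, hv1, _, hv3⟩ := h3 i
        apply van_single (sh_diff' ψ i) hα4
        have hcψ : ContinuousAt (sh D j k ψ i) α :=
          ((sh_diff' ψ i).differentiableAt (isOpen_ball.mem_nhds hα4)).continuousAt
        have hcχ : ContinuousAt (sh D j k χ i) α :=
          ((sh_diff' χ i).differentiableAt (isOpen_ball.mem_nhds hα4)).continuousAt
        have hcu : ContinuousAt u α :=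
          (hu1.differentiableAt (isOpen_ball.mem_nhds hα4)).continuousAt
        have hcv : ContinuousAt v α :=
          (hv1.differentiableAt (isOpen_ball.mem_nhds hα4)).continuousAt
        have hev : ∀ᶠ s in 𝓝[≠] α, sh D j k ψ i s * u s =
            (s - α) * (v s * sh D j k χ i s) := by
          filter_upwards [ev_not_mem (E x i) α,
            nhdsWithin_le_nhds (isOpen_ball.mem_nhds hα4)] with s h4 h5
          have h6 := sh_mulF (j := j) (k := k) hD0 ψ ϑ i (mem_quarter h5)
          have hv4 : sh D j k φ i s =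
              (Multiset.map (fun α => s - α) (E x i + e x i)).prod * v s := hv3 s h5
          rw [hχ, sh_mulF (j := j) (k := k) hD0 φ χ i (mem_quarter h5), hv4, hu2 s h5,
            hα, Multiset.map_add, Multiset.prod_add, Multiset.map_singleton,
            Multiset.prod_singleton] at h6
          have h7 := prod_ne h4
          apply mul_left_cancel₀ h7
          linear_combination -h6
        have hl1 : Tendsto (fun s => sh D j k ψ i s * u s) (𝓝[≠] α)
            (𝓝 (sh D j k ψ i α * u α)) :=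
          (hcψ.mul hcu).tendsto.mono_left nhdsWithin_le_nhds
        have hl2 : Tendsto (fun s => (s - α) * (v s * sh D j k χ i s)) (𝓝[≠] α)
            (𝓝 ((α - α) * (v α * sh D j k χ i α))) :=
          (((continuousAt_id.sub continuousAt_const).mul (hcv.mul hcχ)).tendsto).mono_left
            nhdsWithin_le_nhds
        have := tendsto_nhds_unique hl1 (hl2.congr' (hev.mono fun s h => h.symm))
        rw [sub_self, zero_mul] at this
        exact (mul_eq_zero.1 this).resolve_right hu3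
      · have hc0 : (e x i).card = 0 := by
          rw [hcard]
          omega
        rw [Multiset.card_eq_zero.1 hc0]
        exact van_zero (sh_diff' ψ i)
  · -- dimensions
    obtain ⟨ε, hε, hdim⟩ := dim_WE hD hj hk hjk hg (n := 3) le_rfl (fun i => d - ty i)
      (fun i => by omega)
    have hsm := hs' ε hε
    filter_upwards [hsm] with x hx
    have h1 := hdim (e x) (he x) hx
    have h2 := hdim (e x0) (he x0) hsm.self_of_nhds
    omega

end Pool.Agent.WW
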