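import Pool.Agent.WW.JK

set_option autoImplicit false

namespace Pool.Agent.WW

open MvPolynomial Metric Filter Topology

namespace JKaux

theorem div_unique (E : Multiset ℂ) : ∀ (E' : Multiset ℂ) (u u' : ℂ → ℂ),
    (∀ a ∈ E, ‖a‖ < 1 / 8) → (∀ a ∈ E', ‖a‖ < 1 / 8) →
    ContinuousOn u (ball 0 (1 / 8)) → ContinuousOn u' (ball 0 (1 / 8)) →
    (∀ s ∈ ball (0 : ℂ) (1 / 8), u s ≠ 0) → (∀ s ∈ ball (0 : ℂ) (1 / 8), u' s ≠ 0) →
    (∀ s ∈ ball (0 : ℂ) (1 / 8), (E.map fun a => s - a).prod * u s =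
      (E'.map fun a => s - a).prod * u' s) → E = E' := by
  induction E using Multiset.induction_on with
  | empty =>
    intro E' u u' _ hE' _ _ hu _ h
    symm
    by_contra hne
    obtain ⟨a, ha⟩ := Multiset.exists_mem_of_ne_zero hne
    have ha8 : a ∈ ball (0 : ℂ) (1 / 8) := mem_ball_zero_iff.2 (hE' a ha)
    have h1 := h a ha8
    have h2 : (E'.map fun b => a - b).prod = 0 :=
      Multiset.prod_eq_zero (Multiset.mem_map.2 ⟨a, ha, sub_self a⟩)
    rw [h2, zero_mul] at h1
    simp only [Multiset.map_zero, Multiset.prod_zero, one_mul] at h1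
    exact hu a ha8 h1
  | cons a E ih =>
    intro E' u u' hE hE' hcu hcu' hu hu' h
    have ha8 : a ∈ ball (0 : ℂ) (1 / 8) :=
      mem_ball_zero_iff.2 (hE a (Multiset.mem_cons_self a E))
    have haE' : a ∈ E' := by
      have h1 := h a ha8
      rw [Multiset.map_cons, Multiset.prod_cons, sub_self, zero_mul, zero_mul] at h1
      have h2 := (mul_eq_zero.1 h1.symm).resolve_right (hu' a ha8)
      by_contra hcon
      exact prod_ne hcon h2
    obtain ⟨E1, rfl⟩ := Multiset.exists_cons_of_mem haE'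
    congr 1
    refine ih E1 u u' (fun b hb => hE b (Multiset.mem_cons_of_mem hb))
      (fun b hb => hE' b (Multiset.mem_cons_of_mem hb)) hcu hcu' hu hu' fun s hs => ?_
    have hp : ∀ F : Multiset ℂ, Continuous fun s : ℂ => (F.map fun a => s - a).prod := by
      intro F
      induction F using Multiset.induction_on with
      | empty => simpa using continuous_const
      | cons b F ih =>
        simp only [Multiset.map_cons, Multiset.prod_cons]
        exact (continuous_id.sub continuous_const).mul ih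
    have hc1 : ContinuousAt (fun s => (E.map fun a => s - a).prod * u s) s :=
      (hp E).continuousAt.mul (hcu.continuousAt (isOpen_ball.mem_nhds hs))
    have hc2 : ContinuousAt (fun s => (E1.map fun a => s - a).prod * u' s) s :=
      (hp E1).continuousAt.mul (hcu'.continuousAt (isOpen_ball.mem_nhds hs))
    have hev : ∀ᶠ s' in 𝓝[≠] s, (E.map fun a => s' - a).prod * u s' =
        (E1.map fun a => s' - a).prod * u' s' := by
      filter_upwards [ev_not_mem {a} s, nhdsWithin_le_nhds (isOpen_ball.mem_nhds hs)]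
        with s' h4 h5
      have h6 := h s' h5
      rw [Multiset.map_cons, Multiset.prod_cons, Multiset.map_cons, Multiset.prod_cons,
        mul_assoc, mul_assoc] at h6
      refine mul_left_cancel₀ ?_ h6
      rw [sub_ne_zero]
      simpa using h4
    have hl1 := hc1.tendsto.mono_left (nhdsWithin_le_nhds (s := {s}ᶜ))
    have hl2 := hc2.tendsto.mono_left (nhdsWithin_le_nhds (s := {s}ᶜ))
    exact tendsto_nhds_unique hl1 (hl2.congr' (hev.mono fun s h => h.symm))

variable {D j k : ℕ}

theorem divOf_unique {φ : Fn D} {E E' : Dv D} {c : ℂ} (hc : c ≠ 0) (h : DivOf D j k φ E)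
    (h' : DivOf D j k (c • φ) E') (hs : SmallD (1 / 8) E) (hs' : SmallD (1 / 8) E') : E = E' := by
  funext i
  obtain ⟨v, h1, h2, h3⟩ := h i
  obtain ⟨v', h1', h2', h3'⟩ := h' i
  have hsub : ball (0 : ℂ) (1 / 8) ⊆ ball 0 (1 / 4) := ball_subset_ball (by norm_num)
  refine div_unique (E i) (E' i) (fun s => c * v s) v' (hs i) (hs' i)
    (continuousOn_const.mul (h1.continuousOn.mono hsub)) (h1'.continuousOn.mono hsub)
    (fun s hs => mul_ne_zero hc (h2 s hs)) h2' fun s hs => ?_
  have h4 := h3 s (hsub hs)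
  have h5 := h3' s (hsub hs)
  rw [sh_smul, h4] at h5
  rw [← h5]
  ring

theorem AJ_add (E E' : Dv D) (t : ℕ) :
    AJ D j k (fun i => E i + E' i) t = AJ D j k E t + AJ D j k E' t := by
  simp only [AJ, Multiset.map_add, Multiset.sum_add, mul_add, Finset.sum_add_distrib]

theorem AJ_D0 (d : Fin D → ℕ) (t : ℕ) : AJ D j k (D0 d) t = 0 := by
  simp only [AJ, D0, Multiset.map_replicate, aint_zero, Multiset.sum_replicate, smul_zero,
    mul_zero, Finset.sum_const_zero]

theorem typ_D0 (d : Fin D → ℕ) : Typ (D0 d) d := fun _ => Multiset.card_replicate _ _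

theorem small_D0 (d : Fin D → ℕ) {ε : ℝ} (hε : 0 < ε) : SmallD ε (D0 d) := by
  intro i a ha
  rw [Multiset.eq_of_mem_replicate ha, norm_zero]
  exact hε

theorem small_add {E E' : Dv D} {ε : ℝ} (h : SmallD ε E) (h' : SmallD ε E') :
    SmallD ε fun i => E i + E' i := by
  intro i a ha
  rw [Multiset.mem_add] at ha
  rcases ha with ha | ha
  · exact h i a ha
  · exact h' i a ha

variable {X μ : Type} [TopologicalSpace X] {h : X → μ → ℂ} {x0 : X}

/-- residual family of a regular family of full type -/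
theorem step_gen (hD : 3 ≤ D) (hj : 0 < j) (hk : 0 < k) (hjk : j + k < D)
    (hg : Nat.gcd (Nat.gcd j k) D = 1)
    (hc : ContinuousAt h x0) {d : ℕ} {ty : Fin D → ℕ} (ha : Adt D j k d ty) {E : X → Dv D}
    (hE : ∀ x, Typ (E x) ty) (hs : ∀ ε : ℝ, 0 < ε → ∀ᶠ x in 𝓝 x0, SmallD ε (E x))
    (hr : RegFam h x0 fun x => WE D j k 6 (E x)) :
    ∃ e : X → Dv D, Fam D j k h x0 e (fun i => d - ty i) ∧
      ∀ᶠ x in 𝓝 x0, ∀ t : PJ D j k, AJ D j k (e x) t.1 = - AJ D j k (E x) t.1 := by
  classical
  obtain ⟨δ, hδ, hres⟩ := residual hD hj hk hjk hg ha (1 / 16) (by norm_num)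
  have hex : ∀ x, ∃ e : Dv D, (Typ e fun i => d - ty i) ∧ (SmallD δ (E x) →
      SmallD (1 / 16) e ∧
      (∃ φ : Fn D, φ ≠ 0 ∧ WE D j k d (E x) = Submodule.span ℂ {φ} ∧
        DivOf D j k φ fun i => E x i + e i) ∧
      ∀ t : PJ D j k, AJ D j k e t.1 = - AJ D j k (E x) t.1) := by
    intro x
    by_cases hx : SmallD δ (E x)
    · obtain ⟨e, h1, h2, h3, h4⟩ := hres (E x) (hE x) hx
      exact ⟨e, h1, fun _ => ⟨h2, h3, h4⟩⟩
    · exact ⟨D0 fun i => d - ty i, typ_D0 _, fun h => absurd h hx⟩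
  choose e he1 he2 using hex
  have hsm : ∀ ε : ℝ, 0 < ε → ∀ᶠ x in 𝓝 x0, SmallD ε (e x) := by
    intro ε hε
    obtain ⟨δ', hδ', hres'⟩ := residual hD hj hk hjk hg ha (min ε (1 / 16)) (by positivity)
    filter_upwards [hs δ hδ, hs δ' hδ', hs (1 / 8) (by norm_num)] with x hx hx' hx8
    obtain ⟨e', h1, h2, ⟨φ', h3, h4, h5⟩, h6⟩ := hres' (E x) (hE x) hx'
    obtain ⟨g1, ⟨φ, g2, g3, g4⟩, g5⟩ := he2 x hx
    have hmem : φ' ∈ Submodule.span ℂ {φ} := by
      rw [← g3, h4]
      exact Submodule.mem_span_singleton_self φ'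
    obtain ⟨c, rfl⟩ := Submodule.mem_span_singleton.1 hmem
    have hc0 : c ≠ 0 := by
      rintro rfl
      simp at h3
    have heq := divOf_unique hc0 g4 h5
      (small_add hx8 fun i a ha => (g1 i a ha).trans (by norm_num))
      (small_add hx8 fun i a ha => (h2 i a ha).trans_le ((min_le_right _ _).trans (by norm_num)))
    have hee : e x = e' := by
      funext i
      exact add_left_cancel (congrFun heq i)
    rw [hee]
    exact fun i a ha => (h2 i a ha).trans_le (min_le_left _ _)
  refine ⟨e, ⟨he1, hsm, ?_⟩, ?_⟩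
  · refine res_fam hD hj hk hjk hg hc ha hE hs hr he1 hsm ?_
    filter_upwards [hs δ hδ] with x hx
    exact (he2 x hx).2.1
  · filter_upwards [hs δ hδ] with x hx
    exact (he2 x hx).2.2

end JKaux

open JKaux

variable {X μ : Type} [TopologicalSpace X] {h : X → μ → ℂ} {x0 : X} {D j k : ℕ}

/-- (JK2) one step with functions in `W 1` -/
theorem Fam.step1 (hD : 3 ≤ D) (hj : 0 < j) (hk : 0 < k) (hjk : j + k < D)
    (hg : Nat.gcd (Nat.gcd j k) D = 1)
    (hc : ContinuousAt h x0) {ty : Fin D → ℕ} (ht : ty = tA D j k ∨ ty = tB D j k)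
    {d : Fin D → ℕ} (hd : ∀ i, d i ≤ ty i) {E : X → Dv D} (hE : Fam D j k h x0 E d) :
    ∃ e : X → Dv D, Fam D j k h x0 e (fun i => 1 - ty i) ∧
      ∀ᶠ x in 𝓝 x0, ∀ t : PJ D j k, AJ D j k (e x) t.1 = - AJ D j k (E x) t.1 := by
  have ha : Adt D j k 1 ty := by
    rcases ht with rfl | rfl
    · exact Or.inl ⟨rfl, rfl⟩
    · exact Or.inr (Or.inl ⟨rfl, rfl⟩)
  have hty := (adt_le ha).2.2
  have h0 : RegFam h x0 fun x => WE D j k 6 (E x) := by
    have := Fam.mul hD hj hk hjk hg hc (fun i => (hd i).trans (hty i).1)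
      (fun i => Nat.zero_le _) hE (Fam.zero hD hj hk hjk hg)
    simpa using this
  have h1 := RegFam.add_const hD hj hk hjk hg hc (d := d) (d' := fun i => ty i - d i)
    (fun i => by
      have := hd i
      have := (hty i).1
      omega)
    (fun i => by
      have := hd i
      have := (hty i).1
      omega) hE.typ hE.small h0
  obtain ⟨e, h2, h3⟩ := step_gen hD hj hk hjk hg hc ha
    (E := fun x i => E x i + D0 (fun i => ty i - d i) i)
    (fun x i => by
      have h4 : (E x i).card = d i := hE.typ x i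
      have h5 : (D0 (fun i => ty i - d i) i).card = ty i - d i := typ_D0 _ i
      have := hd i
      rw [Multiset.card_add, h4, h5]
      omega)
    (fun ε hε => (hE.small ε hε).mono fun x hx => small_add hx (small_D0 _ hε)) h1
  refine ⟨e, h2, ?_⟩
  filter_upwards [h3] with x hx t
  rw [hx t, AJ_add, AJ_D0, add_zero]

/-- (JK3) one step with functions in `W 2` -/
theorem Fam.step2 (hD : 3 ≤ D) (hj : 0 < j) (hk : 0 < k) (hjk : j + k < D)
    (hg : Nat.gcd (Nat.gcd j k) D = 1)
    (hc : ContinuousAt h x0) {d d' : Fin D → ℕ} (hd : ∀ i, d i ≤ 1) (hd' : ∀ i, d' i ≤ 1)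
    (hdd : ∀ i, d i + d' i = 0 ∨ d i + d' i = tC D j k i) {E E' : X → Dv D}
    (hE : Fam D j k h x0 E d) (hE' : Fam D j k h x0 E' d') :
    ∃ e : X → Dv D, Fam D j k h x0 e (fun i => 1 - tA D j k i) ∧
      ∀ᶠ x in 𝓝 x0, ∀ t : PJ D j k,
        AJ D j k (e x) t.1 = - AJ D j k (E x) t.1 - AJ D j k (E' x) t.1 := by
  have ha : Adt D j k 2 (tC D j k) := Or.inr (Or.inr ⟨rfl, rfl⟩)
  have hty := (adt_le ha).2.2
  have h0 := Fam.mul hD hj hk hjk hg hc hd hd' hE hE'
  have hcard : ∀ x, Typ (fun i => E x i + E' x i) fun i => d i + d' i := fun x i => by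
    have h4 : (E x i).card = d i := hE.typ x i
    have h5 : (E' x i).card = d' i := hE'.typ x i
    rw [Multiset.card_add, h4, h5]
  have h1 := RegFam.add_const hD hj hk hjk hg hc (d := fun i => d i + d' i)
    (d' := fun i => tC D j k i - (d i + d' i))
    (fun i => by
      have := hdd i
      have := (hty i).1
      omega)
    (fun i => by
      have := hdd i
      have := (hty i).1
      omega) hcard
    (fun ε hε => ((hE.small ε hε).and (hE'.small ε hε)).mono fun x hx =>
      small_add hx.1 hx.2) h0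
  obtain ⟨e, h2, h3⟩ := step_gen hD hj hk hjk hg hc ha
    (E := fun x i => E x i + E' x i + D0 (fun i => tC D j k i - (d i + d' i)) i)
    (fun x i => by
      have h4 : (E x i + E' x i).card = d i + d' i := hcard x i
      have h5 : (D0 (fun i => tC D j k i - (d i + d' i)) i).card =
        tC D j k i - (d i + d' i) := typ_D0 _ i
      have := hdd i
      rw [Multiset.card_add, h4, h5]
      omega)
    (fun ε hε => ((hE.small ε hε).and (hE'.small ε hε)).mono fun x hx =>
      small_add (small_add hx.1 hx.2) (small_D0 _ hε)) h1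
  have h6 : (fun i => 2 - tC D j k i) = fun i => 1 - tA D j k i := by
    funext i
    simp only [tC, tA]
    split_ifs <;> omega
  rw [h6] at h2
  refine ⟨e, h2, ?_⟩
  filter_upwards [h3] with x hx t
  rw [hx t, AJ_add (fun i => E x i + E' x i), AJ_add, AJ_D0, add_zero]
  ring

end Pool.Agent.WW
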