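import Pool.Agent.WW.JF

set_option autoImplicit false

namespace Pool.Agent.WW

open Metric Filter Topology

variable {D j k : ℕ}

namespace JL

theorem ze_prim (hD : 0 < D) : IsPrimitiveRoot (ze D) D :=
  Complex.isPrimitiveRoot_exp D hD.ne'

theorem wt_zero_ne (t : ℕ) : wt D j k t 0 ≠ 0 := by
  have h := wt_eq (D := D) (j := j) (k := k) t (s := 0) (by simp)
  intro h0
  rw [h0, zero_mul] at h
  unfold et at h
  have h1 : (1 / 2 + 0 : ℂ) ≠ 0 := by norm_num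
  have h2 : (1 / 2 - 0 : ℂ) ≠ 0 := by norm_num
  rcases mul_eq_zero.1 h.symm with h3 | h3
  · exact h1 ((Complex.cpow_eq_zero_iff _ _).1 h3).1
  · exact h2 ((Complex.cpow_eq_zero_iff _ _).1 h3).1

theorem aint_contDiffAt (t : ℕ) {s : ℂ} (hs : ‖s‖ < 1 / 2) :
    ContDiffAt ℂ 1 (aint D j k t) s := by
  have h1 : DifferentiableOn ℂ (aint D j k t) (ball 0 (1 / 2)) := by
    intro z hz
    rw [mem_ball_zero_iff] at hz
    exact (aint_deriv t hz).differentiableAt.differentiableWithinAt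
  exact (h1.contDiffOn isOpen_ball).contDiffAt (isOpen_ball.mem_nhds (by rwa [mem_ball_zero_iff]))

/-- the derivative of `zp` at the origin -/
noncomputable def dzp {T : Type} [Fintype T] (D j k n : ℕ) (τ : T → Fin D) :
    (Fin n → ℂ) →L[ℂ] (T → ℂ) :=
  ContinuousLinearMap.pi fun t => ∑ i : Fin n,
    (ze D ^ ((τ t : ℕ) * (i : ℕ)) * wt D j k (τ t) 0) •
      (ContinuousLinearMap.proj i : (Fin n → ℂ) →L[ℂ] ℂ)

theorem dzp_apply {T : Type} [Fintype T] (n : ℕ) (τ : T → Fin D) (v : Fin n → ℂ) (t : T) :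
    dzp D j k n τ v t = ∑ i : Fin n, ze D ^ ((τ t : ℕ) * (i : ℕ)) * wt D j k (τ t) 0 * v i := by
  simp [dzp]

theorem zp_hasFDerivAt {T : Type} [Fintype T] (n : ℕ) (τ : T → Fin D) :
    HasFDerivAt (zp D j k n τ) (dzp D j k n τ) 0 := by
  rw [hasFDerivAt_pi']
  intro t
  have h1 : ∀ i : Fin n, HasFDerivAt (fun ξ : Fin n → ℂ => aint D j k (τ t) (ξ i))
      (wt D j k (τ t) 0 • (ContinuousLinearMap.proj i : (Fin n → ℂ) →L[ℂ] ℂ)) 0 := by
    intro i
    have e1 : HasDerivAt (aint D j k (τ t)) (wt D j k (τ t) 0) ((0 : Fin n → ℂ) i) :=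
      aint_deriv _ (by simp)
    have e2 : HasFDerivAt (fun ξ : Fin n → ℂ => ξ i)
        (ContinuousLinearMap.proj i : (Fin n → ℂ) →L[ℂ] ℂ) 0 := hasFDerivAt_apply i 0
    exact HasDerivAt.comp_hasFDerivAt (f := fun ξ : Fin n → ℂ => ξ i) 0 e1 e2
  have h2 := HasFDerivAt.fun_sum (u := (Finset.univ : Finset (Fin n)))
    (fun i _ => (h1 i).const_mul (ze D ^ ((τ t : ℕ) * (i : ℕ))))
  have h3 : (ContinuousLinearMap.proj t).comp (dzp D j k n τ) = ∑ i : Fin n,
      ze D ^ ((τ t : ℕ) * (i : ℕ)) • (wt D j k (τ t) 0 •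
        (ContinuousLinearMap.proj i : (Fin n → ℂ) →L[ℂ] ℂ)) := by
    ext v
    simp [dzp, smul_smul]
  rw [h3]
  exact h2

theorem zp_contDiffAt {T : Type} [Fintype T] (n : ℕ) (τ : T → Fin D) :
    ContDiffAt ℂ 1 (zp D j k n τ) 0 := by
  rw [contDiffAt_pi]
  intro t
  unfold zp
  apply ContDiffAt.sum
  intro i _
  apply ContDiffAt.mul contDiffAt_const
  have e1 : ContDiffAt ℂ 1 (aint D j k (τ t)) ((0 : Fin n → ℂ) i) := aint_contDiffAt _ (by simp)
  exact ContDiffAt.comp (0 : Fin n → ℂ) (g := aint D j k (τ t)) (f := fun ξ => ξ i) e1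
    (contDiff_apply ℂ ℂ i).contDiffAt

theorem dzp_injective (hD : 0 < D) {T : Type} [Fintype T] [DecidableEq T] (τ : T → Fin D)
    (hτ : Function.Injective τ) (n : ℕ) (hn : Fintype.card T = n) :
    Function.Injective (dzp D j k n τ) := by
  rw [injective_iff_map_eq_zero]
  intro v hv
  set p : Polynomial ℂ := ∑ i : Fin n, Polynomial.C (v i) * Polynomial.X ^ (i : ℕ) with hp
  have hnode : Function.Injective fun t : T => ze D ^ (τ t : ℕ) := by
    intro a b hab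
    have h1 := (ze_prim hD).pow_inj (τ a).2 (τ b).2 hab
    exact hτ (Fin.ext h1)
  have hroot : ∀ t : T, p.eval (ze D ^ (τ t : ℕ)) = 0 := by
    intro t
    have h1 := congrFun hv t
    rw [dzp_apply] at h1
    have h2 : ∑ i : Fin n, ze D ^ ((τ t : ℕ) * (i : ℕ)) * wt D j k (τ t) 0 * v i =
        wt D j k (τ t) 0 * p.eval (ze D ^ (τ t : ℕ)) := by
      rw [hp, Polynomial.eval_finsetSum, Finset.mul_sum]
      apply Finset.sum_congr rfl
      intro i _
      simp only [Polynomial.eval_mul, Polynomial.eval_C, Polynomial.eval_pow, Polynomial.eval_X]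
      rw [← pow_mul]
      ring
    rw [h2] at h1
    exact (mul_eq_zero.1 h1).resolve_left (wt_zero_ne _)
  have hdeg : p.degree < n := by
    rw [hp]
    exact Polynomial.degree_sum_fin_lt v
  have hp0 : p = 0 := by
    apply Polynomial.eq_zero_of_degree_lt_of_eval_finset_eq_zero
      (Finset.univ.image fun t : T => ze D ^ (τ t : ℕ))
    · rw [Finset.card_image_of_injective _ hnode, Finset.card_univ, hn]
      exact hdeg
    · intro x hx
      obtain ⟨t, _, rfl⟩ := Finset.mem_image.1 hx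
      exact hroot t
  funext i
  have h1 : p.coeff (i : ℕ) = v i := by
    rw [hp, Polynomial.finsetSum_coeff]
    rw [Finset.sum_eq_single i]
    · simp
    · intro b _ hb
      rw [Polynomial.coeff_C_mul_X_pow, if_neg]
      intro h
      exact hb (Fin.ext h.symm)
    · intro h
      exact absurd (Finset.mem_univ i) h
  rw [← h1, hp0]
  simp

end JL

/-- (JL) the local chart -/
theorem chart (hD : 3 ≤ D) {T : Type} [Fintype T] [DecidableEq T] (τ : T → Fin D)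
    (hτ : Function.Injective τ) (n : ℕ) (hn : Fintype.card T = n) :
    ∃ (ρ : ℝ) (Ξ : (T → ℂ) → (Fin n → ℂ)), 0 < ρ ∧ DifferentiableOn ℂ Ξ (ball 0 ρ) ∧ Ξ 0 = 0 ∧
      (∀ z ∈ ball (0 : T → ℂ) ρ, ∀ i, ‖Ξ z i‖ < 1 / 8) ∧ Set.InjOn Ξ (ball 0 ρ) ∧
      (∀ z ∈ ball (0 : T → ℂ) ρ, zp D j k n τ (Ξ z) = z) ∧
      ∃ ρ' : ℝ, 0 < ρ' ∧ ∀ ξ : Fin n → ℂ, ‖ξ‖ < ρ' →
        zp D j k n τ ξ ∈ ball (0 : T → ℂ) ρ ∧ Ξ (zp D j k n τ ξ) = ξ := by
  have hinj := JL.dzp_injective (j := j) (k := k) (by omega : 0 < D) τ hτ n hn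
  have hfr : Module.finrank ℂ (Fin n → ℂ) = Module.finrank ℂ (T → ℂ) := by
    rw [Module.finrank_fintype_fun_eq_card, Module.finrank_fintype_fun_eq_card, Fintype.card_fin, hn]
  have hsurj : Function.Surjective (JL.dzp D j k n τ) :=
    (LinearMap.injective_iff_surjective_of_finrank_eq_finrank
      (f := (JL.dzp D j k n τ : (Fin n → ℂ) →ₗ[ℂ] (T → ℂ))) hfr).1 hinj
  set L : (Fin n → ℂ) ≃L[ℂ] (T → ℂ) :=
    (LinearEquiv.ofBijective (JL.dzp D j k n τ : (Fin n → ℂ) →ₗ[ℂ] (T → ℂ))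
      ⟨hinj, hsurj⟩).toContinuousLinearEquiv with hL
  have hLd : (L : (Fin n → ℂ) →L[ℂ] (T → ℂ)) = JL.dzp D j k n τ := by
    ext v
    rfl
  have hf : ContDiffAt ℂ 1 (zp D j k n τ) 0 := JL.zp_contDiffAt n τ
  have hf' : HasFDerivAt (zp D j k n τ) (L : (Fin n → ℂ) →L[ℂ] (T → ℂ)) 0 := by
    rw [hLd]
    exact JL.zp_hasFDerivAt n τ
  set e := hf.toOpenPartialHomeomorph (zp D j k n τ) hf' one_ne_zero with he
  have hecoe : ∀ ξ, e ξ = zp D j k n τ ξ := fun ξ => rfl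
  have h0s : (0 : Fin n → ℂ) ∈ e.source := hf.mem_toOpenPartialHomeomorph_source hf' one_ne_zero
  have hz0 : zp D j k n τ 0 = 0 := by
    funext t
    simp [zp, aint_zero]
  have h0t : (0 : T → ℂ) ∈ e.target := by
    have := e.map_source h0s
    rw [hecoe, hz0] at this
    exact this
  have hsymm0 : e.symm 0 = 0 := by
    have := e.left_inv h0s
    rw [hecoe, hz0] at this
    exact this
  -- smoothness of the inverse
  have hsm : ContDiffAt ℂ 1 e.symm 0 := by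
    have h1 := hf.to_localInverse hf' one_ne_zero
    rw [hz0] at h1
    exact h1
  have hev1 : ∀ᶠ z in 𝓝 (0 : T → ℂ), ContDiffAt ℂ 1 e.symm z := hsm.eventually (by simp)
  have hev2 : ∀ᶠ z in 𝓝 (0 : T → ℂ), z ∈ e.target := e.open_target.mem_nhds h0t
  have hev3 : ∀ᶠ z in 𝓝 (0 : T → ℂ), ‖e.symm z‖ < 1 / 8 := by
    have h1 : Tendsto (fun z => ‖e.symm z‖) (𝓝 0) (𝓝 ‖e.symm 0‖) := hsm.continuousAt.norm
    rw [hsymm0, norm_zero] at h1
    exact h1.eventually (gt_mem_nhds (by norm_num))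
  obtain ⟨ρ, hρ, hball⟩ := Metric.eventually_nhds_iff_ball.1 (hev1.and (hev2.and hev3))
  refine ⟨ρ, e.symm, hρ, ?_, hsymm0, ?_, ?_, ?_, ?_⟩
  · intro z hz
    exact ((hball z hz).1.differentiableAt (by norm_num)).differentiableWithinAt
  · intro z hz i
    exact lt_of_le_of_lt (norm_le_pi_norm _ i) (hball z hz).2.2
  · intro z hz w hw hzw
    rw [← e.right_inv (hball z hz).2.1, ← e.right_inv (hball w hw).2.1, hzw]
  · intro z hz
    have := e.right_inv (hball z hz).2.1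
    rw [hecoe] at this
    exact this
  · have hev4 : ∀ᶠ ξ in 𝓝 (0 : Fin n → ℂ), ξ ∈ e.source ∧ zp D j k n τ ξ ∈ ball (0 : T → ℂ) ρ := by
      have h5 : ∀ᶠ ξ in 𝓝 (0 : Fin n → ℂ), ξ ∈ e.source := e.open_source.mem_nhds h0s
      apply h5.and
      have h1 : Tendsto (zp D j k n τ) (𝓝 0) (𝓝 (zp D j k n τ 0)) := hf.continuousAt
      rw [hz0] at h1
      exact h1.eventually (ball_mem_nhds _ hρ)
    obtain ⟨ρ', hρ', hball'⟩ := Metric.eventually_nhds_iff_ball.1 hev4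
    refine ⟨ρ', hρ', fun ξ hξ => ?_⟩
    obtain ⟨h1, h2⟩ := hball' ξ (by rwa [mem_ball_zero_iff])
    refine ⟨h2, ?_⟩
    have := e.left_inv h1
    rw [hecoe] at this
    exact this

/-- (JL2) the sums `zp` are the Abel-Jacobi sums -/
theorem AJ_PD (hD : 0 < D) {T : Type} (τ : T → Fin D) (n : ℕ) (hn : n ≤ D) (ξ : Fin n → ℂ) (t : T) :
    AJ D j k (PD ξ : Dv D) (τ t) = zp D j k n τ ξ t := by
  unfold AJ zp
  symm
  apply Fintype.sum_of_injective (Fin.castLE hn) (Fin.castLE_injective hn)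
  · intro i hi
    have h1 : ¬ (i : ℕ) < n := by
      intro h
      exact hi ⟨⟨i, h⟩, rfl⟩
    simp [PD, h1]
  · intro i
    simp [PD, i.2]

end Pool.Agent.WW
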