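import Pool.Agent.WW.JI
import Pool.Agent.WW.JL

set_option autoImplicit false

namespace Pool.Agent.WW

open MvPolynomial Metric Filter Topology

namespace JMx

variable {X μ : Type} [TopologicalSpace X] {h : X → μ → ℂ} {x0 : X} {D j k : ℕ}

/-- coordinates on a finite-dimensional space -/
lemma exists_coords {M ι : Type} [AddCommGroup M] [Module ℂ M] [Fintype ι] [DecidableEq ι]
    (f : ι → M →ₗ[ℂ] ℂ) (V : Submodule ℂ M) (hV : ∀ g ∈ V, (∀ i, f i g = 0) → g = 0) :
    ∃ J : Finset ι, ∀ c : J → ℂ, ∃! g : M, g ∈ V ∧ ∀ a : J, f a g = c a := by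
  classical
  set F : ι → Module.Dual ℂ V := fun i => (f i).comp V.subtype with hF
  obtain ⟨κ, a, ha, hs, hli⟩ := exists_linearIndependent' ℂ F
  have : Finite κ := Finite.of_injective a ha
  have := Fintype.ofFinite κ
  set Ψ : V →ₗ[ℂ] (ι → ℂ) := LinearMap.pi F with hΨ
  have hΨi : Function.Injective Ψ := by
    rw [← LinearMap.ker_eq_bot, LinearMap.ker_eq_bot']
    intro g hg
    apply Subtype.ext
    exact hV g.1 g.2 (fun i => congrFun hg i)
  have : FiniteDimensional ℂ V := Module.Finite.of_injective Ψ hΨi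
  set Φ : V →ₗ[ℂ] (κ → ℂ) := LinearMap.pi (fun k => F (a k)) with hΦ
  have hΦi : Function.Injective Φ := by
    rw [← LinearMap.ker_eq_bot, LinearMap.ker_eq_bot']
    intro g hg
    have h1 : ∀ φ ∈ Submodule.span ℂ (Set.range (F ∘ a)), φ g = 0 := by
      intro φ hφ
      induction hφ using Submodule.span_induction with
      | mem x hx =>
        obtain ⟨k, rfl⟩ := hx
        exact congrFun hg k
      | zero => rfl
      | add x y _ _ hx hy => rw [LinearMap.add_apply, hx, hy, add_zero]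
      | smul c x _ hx => rw [LinearMap.smul_apply, hx, smul_zero]
    rw [hs] at h1
    apply Subtype.ext
    exact hV g.1 g.2 (fun i => h1 (F i) (Submodule.subset_span ⟨i, rfl⟩))
  have hle : Module.finrank ℂ V ≤ Fintype.card κ := by
    have := LinearMap.finrank_le_finrank_of_injective hΦi
    rwa [Module.finrank_fintype_fun_eq_card] at this
  have hge : Fintype.card κ ≤ Module.finrank ℂ V := by
    have := hli.fintype_card_le_finrank
    rwa [Subspace.dual_finrank_eq] at this
  have hΦs : Function.Surjective Φ :=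
    (LinearMap.injective_iff_surjective_of_finrank_eq_finrank
      (by rw [Module.finrank_fintype_fun_eq_card]; omega)).1 hΦi
  refine ⟨Finset.univ.image a, fun c => ?_⟩
  have hm : ∀ k, a k ∈ Finset.univ.image a := fun k => Finset.mem_image_of_mem a (Finset.mem_univ k)
  obtain ⟨g, hg⟩ := hΦs (fun k => c ⟨a k, hm k⟩)
  refine ⟨g.1, ⟨g.2, ?_⟩, ?_⟩
  · rintro ⟨i, hi⟩
    obtain ⟨k, -, rfl⟩ := Finset.mem_image.1 hi
    exact congrFun hg k
  · rintro g' ⟨hg', hg2⟩
    have h1 : Φ ⟨g', hg'⟩ = Φ g := by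
      rw [hg]
      funext k
      exact hg2 ⟨a k, hm k⟩
    exact congrArg Subtype.val (hΦi h1)

/-- coordinates as linear maps -/
noncomputable def coL {D : ℕ} (p : Fin D × Fin 4) : Fn D →ₗ[ℂ] ℂ :=
  (Polynomial.lcoeff ℂ (p.2 : ℕ)).comp (LinearMap.proj p.1)

lemma coL_apply {D : ℕ} (p : Fin D × Fin 4) (g : Fn D) : coL p g = co g p := rfl

lemma co_inj {D j k : ℕ} {g : Fn D} (hg : g ∈ W D j k 3) (h : ∀ p, co g p = 0) : g = 0 := by
  funext t
  ext l
  rw [Pi.zero_apply, Polynomial.coeff_zero]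
  by_cases hl : l < 4
  · exact h (t, ⟨l, hl⟩)
  · have h1 := (Submodule.mem_pi.1 hg) t (Set.mem_univ t)
    rw [Polynomial.mem_degreeLT] at h1
    apply Polynomial.coeff_eq_zero_of_degree_lt
    refine h1.trans_le ?_
    exact_mod_cast (by omega : 3 + 1 - cc D j k t ≤ l)

lemma co_sum {D : ℕ} {τ : Type} (S : Finset τ) (c : τ → ℂ) (v : τ → Fn D) (p : Fin D × Fin 4) :
    co (∑ b ∈ S, c b • v b) p = ∑ b ∈ S, c b * co (v b) p := by
  rw [← coL_apply, map_sum]
  refine Finset.sum_congr rfl fun b _ => ?_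
  rw [map_smul, smul_eq_mul, coL_apply]

lemma regF_det (hc : ContinuousAt h x0) {n : ℕ} (M : X → Matrix (Fin n) (Fin n) ℂ)
    (hM : ∀ a b, RegF h x0 fun x => M x a b) : RegF h x0 fun x => (M x).det := by
  simp only [Matrix.det_apply']
  refine RegF.sum hc _ fun σ _ => ?_
  refine RegF.mul hc ?_ (RegF.prod hc _ fun i _ => hM _ _)
  refine RegF.const ?_
  exact isAlgebraic_algebraMap (A := ℂ) (((Equiv.Perm.sign σ : ℤˣ) : ℤ) : ℚ) |> fun h => by
    simpa using h

lemma regF_inv (hc : ContinuousAt h x0) {n : ℕ} (M : X → Matrix (Fin n) (Fin n) ℂ)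
    (hM : ∀ a b, RegF h x0 fun x => M x a b) (h0 : (M x0).det ≠ 0) (a b : Fin n) :
    RegF h x0 fun x => (M x)⁻¹ a b := by
  have e : (fun x => (M x)⁻¹ a b) = fun x => ((M x).det)⁻¹ *
      ((M x).updateRow b (Pi.single a 1)).det := by
    funext x
    rw [Matrix.inv_def, Ring.inverse_eq_inv', Matrix.smul_apply, smul_eq_mul,
      Matrix.adjugate_apply]
  rw [e]
  refine RegF.mul hc (RegF.inv hc (regF_det hc M hM) h0) (regF_det hc _ fun i i' => ?_)
  by_cases hi : i = b
  · subst hi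
    simp only [Matrix.updateRow_self]
    refine RegF.const ?_
    by_cases hi' : i' = a
    · subst hi'
      rw [Pi.single_eq_same]
      exact isAlgebraic_one
    · rw [Pi.single_eq_of_ne hi']
      exact isAlgebraic_zero
  · simp only [Matrix.updateRow_ne hi]
    exact hM i i'

open Classical in
lemma nb_spec {J : Finset (Fin D × Fin 4)} {U : Submodule ℂ (Fn D)} (hJ : Good J U) (a : J) :
    nb J U a ∈ U ∧ ∀ b : J, co (nb J U a) b = if b = a then 1 else 0 :=
  Classical.epsilon_spec (hJ fun b => if b = a then 1 else 0).exists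

open Classical in
lemma nb_unique {J : Finset (Fin D × Fin 4)} {U : Submodule ℂ (Fn D)} (hJ : Good J U) (a : J)
    {g : Fn D} (hg : g ∈ U) (h : ∀ b : J, co g b = if b = a then 1 else 0) : nb J U a = g :=
  (hJ fun b => if b = a then 1 else 0).unique (nb_spec hJ a) ⟨hg, h⟩

open Classical in
lemma good_of {d : ℕ} {v : Fin d → Fn D} {U : Submodule ℂ (Fn D)} (hli : LinearIndependent ℂ v)
    (hU : U = Submodule.span ℂ (Set.range v)) {J : Finset (Fin D × Fin 4)} (e : Fin d ≃ J)
    (h0 : (Matrix.of fun a b : Fin d => co (v b) (e a)).det ≠ 0) :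
    Good J U ∧ ∀ a : J, nb J U a =
      ∑ b, (Matrix.of fun a b : Fin d => co (v b) (e a))⁻¹ b (e.symm a) • v b := by
  set M : Matrix (Fin d) (Fin d) ℂ := Matrix.of fun a b : Fin d => co (v b) (e a) with hM
  have hMu : IsUnit M.det := isUnit_iff_ne_zero.2 h0
  have hvU : ∀ b, v b ∈ U := fun b => by
    rw [hU]; exact Submodule.subset_span ⟨b, rfl⟩
  have hco : ∀ (c : Fin d → ℂ) (a : Fin d), co (∑ b, c b • v b) (e a) = M.mulVec c a := by
    intro c a
    rw [co_sum, Matrix.mulVec, dotProduct]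
    refine Finset.sum_congr rfl fun b _ => ?_
    rw [hM, Matrix.of_apply, mul_comm]
  have hgood : Good J U := by
    intro c
    refine ⟨∑ b, (M⁻¹.mulVec fun a => c (e a)) b • v b, ⟨?_, ?_⟩, ?_⟩
    · exact Submodule.sum_mem _ fun b _ => Submodule.smul_mem _ _ (hvU b)
    · intro a
      obtain ⟨a, rfl⟩ := e.surjective a
      rw [hco, Matrix.mulVec_mulVec, Matrix.mul_nonsing_inv _ hMu, Matrix.one_mulVec]
    · rintro g ⟨hg, hg2⟩
      rw [hU, Submodule.mem_span_range_iff_exists_fun] at hg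
      obtain ⟨c', rfl⟩ := hg
      have h1 : M.mulVec c' = fun a => c (e a) := by
        funext a
        rw [← hco]
        exact hg2 (e a)
      rw [← h1, Matrix.mulVec_mulVec, Matrix.nonsing_inv_mul _ hMu, Matrix.one_mulVec]
  refine ⟨hgood, fun a => ?_⟩
  refine nb_unique hgood a (Submodule.sum_mem _ fun b _ => Submodule.smul_mem _ _ (hvU b)) ?_
  intro b
  obtain ⟨b, rfl⟩ := e.surjective b
  obtain ⟨a, rfl⟩ := e.surjective a
  rw [e.symm_apply_apply, hco]
  have h1 : M.mulVec (fun b => M⁻¹ b a) b = (M * M⁻¹) b a := rfl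
  rw [h1, Matrix.mul_nonsing_inv _ hMu, Matrix.one_apply]
  simp only [e.injective.eq_iff]

lemma card_of_good {d : ℕ} {v : Fin d → Fn D} {U : Submodule ℂ (Fn D)}
    (hli : LinearIndependent ℂ v) (hU : U = Submodule.span ℂ (Set.range v))
    {J : Finset (Fin D × Fin 4)} (hJ : Good J U) : ∃ e : Fin d ≃ J,
      (Matrix.of fun a b : Fin d => co (v b) (e a)).det ≠ 0 := by
  classical
  have hvU : ∀ b, v b ∈ U := fun b => by
    rw [hU]; exact Submodule.subset_span ⟨b, rfl⟩
  set Φ : (Fin d → ℂ) →ₗ[ℂ] (J → ℂ) :=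
    LinearMap.pi (fun a : J => (coL a.1).comp (Fintype.linearCombination ℂ v)) with hΦ
  have hΦa : ∀ c a, Φ c a = co (∑ b, c b • v b) a.1 := fun c a => by
    rw [hΦ, LinearMap.pi_apply, LinearMap.comp_apply, Fintype.linearCombination_apply, coL_apply]
  have hzero : ∀ g ∈ U, (∀ a : J, co g a = 0) → g = 0 := by
    intro g hg h
    exact (hJ fun _ => 0).unique ⟨hg, h⟩ ⟨zero_mem _, fun a => by simp [co]⟩
  have hinj : Function.Injective Φ := by
    rw [← LinearMap.ker_eq_bot, LinearMap.ker_eq_bot']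
    intro c hc
    have h1 : ∑ b, c b • v b = 0 := by
      refine hzero _ (Submodule.sum_mem _ fun b _ => Submodule.smul_mem _ _ (hvU b)) fun a => ?_
      rw [← hΦa, hc]
      rfl
    funext b
    exact (Fintype.linearIndependent_iff.1 hli) c h1 b
  have hsurj : Function.Surjective Φ := by
    intro c
    obtain ⟨g, ⟨hg, hg2⟩, -⟩ := hJ c
    rw [hU, Submodule.mem_span_range_iff_exists_fun] at hg
    obtain ⟨c', rfl⟩ := hg
    exact ⟨c', funext fun a => by rw [hΦa]; exact hg2 a⟩
  have hcard : Fintype.card (Fin d) = Fintype.card J := by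
    have := (LinearEquiv.ofBijective Φ ⟨hinj, hsurj⟩).finrank_eq
    rwa [Module.finrank_fintype_fun_eq_card, Module.finrank_fintype_fun_eq_card] at this
  refine ⟨Fintype.equivOfCardEq hcard, ?_⟩
  intro h0
  obtain ⟨c, hc0, hc⟩ := Matrix.exists_mulVec_eq_zero_iff.2 h0
  apply hc0
  apply hinj
  rw [map_zero]
  funext a
  obtain ⟨a, rfl⟩ := (Fintype.equivOfCardEq hcard).surjective a
  rw [hΦa, co_sum]
  have h1 := congrFun hc a
  rw [Matrix.mulVec, dotProduct] at h1
  refine Eq.trans (Finset.sum_congr rfl fun b _ => ?_) h1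
  rw [Matrix.of_apply, mul_comm]

/-- the function with given coordinates -/
noncomputable def toF {D : ℕ} : ((Fin D × Fin 4) → ℂ) →ₗ[ℂ] Fn D :=
  LinearMap.pi fun t => ∑ l : Fin 4, (Polynomial.monomial (l : ℕ)).comp (LinearMap.proj (t, l))

lemma toF_apply (c : (Fin D × Fin 4) → ℂ) (t : Fin D) :
    toF c t = ∑ l : Fin 4, Polynomial.monomial (l : ℕ) (c (t, l)) := by
  simp [toF]

lemma toF_coeff (c : (Fin D × Fin 4) → ℂ) (t : Fin D) (l : ℕ) :
    (toF c t).coeff l = if hl : l < 4 then c (t, ⟨l, hl⟩) else 0 := by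
  rw [toF_apply, Polynomial.finsetSum_coeff]
  simp only [Polynomial.coeff_monomial]
  split_ifs with hl
  · rw [Finset.sum_eq_single (⟨l, hl⟩ : Fin 4)]
    · simp
    · intro b _ hb
      rw [if_neg]
      intro h
      exact hb (Fin.ext h)
    · intro h
      exact absurd (Finset.mem_univ _) h
  · refine Finset.sum_eq_zero fun b _ => ?_
    rw [if_neg]
    have := b.2
    omega

lemma co_toF (c : (Fin D × Fin 4) → ℂ) (p : Fin D × Fin 4) : co (toF c) p = c p := by
  rw [co, toF_coeff, dif_pos p.2.2]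

lemma toF_inj : Function.Injective (toF (D := D)) := by
  intro a b h
  funext p
  rw [← co_toF a, h, co_toF]

lemma toF_co {g : Fn D} (hg : g ∈ W D j k 3) : toF (co g) = g := by
  funext t
  ext l
  rw [toF_coeff]
  split_ifs with hl
  · rfl
  · have h2 := (Submodule.mem_pi.1 hg) t (Set.mem_univ t)
    rw [Polynomial.mem_degreeLT] at h2
    rw [Polynomial.coeff_eq_zero_of_degree_lt]
    refine h2.trans_le ?_
    exact_mod_cast (by omega : 3 + 1 - cc D j k t ≤ l)

/-- the function on sheet `i` with one coordinate -/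
noncomputable def bas (D j k : ℕ) (i : ℕ) (p : Fin D × Fin 4) (s : ℂ) : ℂ :=
  s ^ (p.2 : ℕ) * (ze D ^ ((p.1 : ℕ) * i) * et D j k p.1 s)

lemma sh_toF (c : (Fin D × Fin 4) → ℂ) (i : ℕ) (s : ℂ) :
    sh D j k (toF c) i s = ∑ p, c p * bas D j k i p s := by
  unfold sh
  rw [Fintype.sum_prod_type]
  refine Finset.sum_congr rfl fun t _ => ?_
  rw [toF_apply, Polynomial.eval_finsetSum, Finset.sum_mul, Finset.sum_mul]
  refine Finset.sum_congr rfl fun l _ => ?_
  rw [Polynomial.eval_monomial]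
  unfold bas
  ring

lemma sh_co {g : Fn D} (hg : g ∈ W D j k 3) (i : ℕ) (s : ℂ) :
    sh D j k g i s = ∑ p, co g p * bas D j k i p s := by
  conv_lhs => rw [← toF_co hg]
  exact sh_toF _ _ _

lemma van_zero {f : ℂ → ℂ} (hf : DifferentiableOn ℂ f (ball 0 (1 / 4))) : Van f 0 :=
  ⟨f, hf, fun s _ => by simp⟩

lemma van_single {f : ℂ → ℂ} (hf : DifferentiableOn ℂ f (ball 0 (1 / 4))) {a : ℂ}
    (ha : a ∈ ball (0 : ℂ) (1 / 4)) : Van f {a} ↔ f a = 0 := by
  constructor
  · rintro ⟨χ, _, h⟩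
    rw [h a ha]
    simp
  · intro h
    refine ⟨dslope f a, (Complex.differentiableOn_dslope (isOpen_ball.mem_nhds ha)).2 hf,
      fun s _ => ?_⟩
    have h1 := sub_smul_dslope f a s
    rw [h, sub_zero, smul_eq_mul] at h1
    simp [h1]

lemma sh_diff4 (g : Fn D) (i : ℕ) : DifferentiableOn ℂ (sh D j k g i) (ball 0 (1 / 4)) :=
  (sh_diff g i).mono (ball_subset_ball (by norm_num))

lemma mem_W3 (c : (Fin D × Fin 4) → ℂ) :
    toF c ∈ W D j k 3 ↔ ∀ p : Fin D × Fin 4, 4 ≤ (p.2 : ℕ) + cc D j k p.1 → c p = 0 := by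
  unfold W
  rw [Submodule.mem_pi]
  constructor
  · intro h p hp
    have h1 := h p.1 (Set.mem_univ _)
    rw [Polynomial.mem_degreeLT] at h1
    have h2 : (toF c p.1).coeff (p.2 : ℕ) = 0 := by
      apply Polynomial.coeff_eq_zero_of_degree_lt
      refine h1.trans_le ?_
      exact_mod_cast (by omega : 3 + 1 - cc D j k p.1 ≤ p.2)
    rw [← co_toF c p]
    exact h2
  · intro h t _
    rw [Polynomial.mem_degreeLT, Polynomial.degree_lt_iff_coeff_zero]
    intro l hl
    rw [toF_coeff]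
    split_ifs with hl4
    · exact h (t, ⟨l, hl4⟩) (by simp only; omega)
    · rfl

/-- the matrix of the conditions -/
noncomputable def mat (D j k n : ℕ) (ξ : Fin n → ℂ) :
    Matrix (Fin n ⊕ (Fin D × Fin 4)) (Fin D × Fin 4) ℂ :=
  Matrix.of fun r q => Sum.elim (fun i : Fin n => bas D j k i q (ξ i))
    (fun p : Fin D × Fin 4 => if p = q ∧ 4 ≤ (p.2 : ℕ) + cc D j k p.1 then 1 else 0) r

lemma mem_ker {n : ℕ} (hn : n ≤ D) {ξ : Fin n → ℂ} (hξ : ∀ i, ‖ξ i‖ < 1 / 4)
    (c : (Fin D × Fin 4) → ℂ) :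
    c ∈ LinearMap.ker (mat D j k n ξ).mulVecLin ↔ toF c ∈ WE D j k 3 (PD ξ) := by
  have h1 : c ∈ LinearMap.ker (mat D j k n ξ).mulVecLin ↔
      (∀ i : Fin n, sh D j k (toF c) i (ξ i) = 0) ∧
      (∀ p : Fin D × Fin 4, 4 ≤ (p.2 : ℕ) + cc D j k p.1 → c p = 0) := by
    rw [LinearMap.mem_ker, Matrix.mulVecLin_apply]
    constructor
    · intro h
      refine ⟨fun i => ?_, fun p hp => ?_⟩
      · have h2 := congrFun h (Sum.inl i)
        rw [sh_toF]
        refine Eq.trans (Finset.sum_congr rfl fun q _ => ?_) h2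
        simp only [mat, Matrix.of_apply, Sum.elim_inl]
        ring
      · have h2 := congrFun h (Sum.inr p)
        rw [Matrix.mulVec, dotProduct, Finset.sum_eq_single p] at h2
        · simpa [mat, hp] using h2
        · intro q _ hq
          simp [mat, Ne.symm hq]
        · intro h
          exact absurd (Finset.mem_univ _) h
    · rintro ⟨h2, h3⟩
      funext r
      rcases r with i | p
      · have h4 := h2 i
        rw [sh_toF] at h4
        refine Eq.trans (Finset.sum_congr rfl fun q _ => ?_) h4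
        simp only [mat, Matrix.of_apply, Sum.elim_inl]
        ring
      · rw [Matrix.mulVec, dotProduct, Finset.sum_eq_single p]
        · by_cases hp : 4 ≤ (p.2 : ℕ) + cc D j k p.1
          · rw [h3 p hp, mul_zero]; rfl
          · simp [mat, hp]
        · intro q _ hq
          simp [mat, Ne.symm hq]
        · intro h
          exact absurd (Finset.mem_univ _) h
  rw [h1, ← mem_W3 (j := j) (k := k)]
  constructor
  · rintro ⟨h2, h3⟩
    refine ⟨h3, fun i => ?_⟩
    by_cases hi : (i : ℕ) < n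
    · have e : (PD ξ : Dv D) i = {ξ ⟨i, hi⟩} := by simp [PD, hi]
      rw [e, van_single (sh_diff4 _ _) (by simpa using hξ ⟨i, hi⟩)]
      exact h2 ⟨i, hi⟩
    · have e : (PD ξ : Dv D) i = 0 := by simp [PD, hi]
      rw [e]
      exact van_zero (sh_diff4 _ _)
  · rintro ⟨h3, h2⟩
    refine ⟨fun i => ?_, h3⟩
    have h4 := h2 ⟨i, by omega⟩
    have e : (PD ξ : Dv D) ⟨i, by omega⟩ = {ξ i} := by simp [PD]
    rw [e, van_single (sh_diff4 _ _) (by simpa using hξ i)] at h4
    exact h4

end JMx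

variable {X μ : Type} [TopologicalSpace X] {h : X → μ → ℂ} {x0 : X} {D j k : ℕ}

/-- (JM1) existence of coordinates -/
theorem exists_good (U : Submodule ℂ (Fn D)) (hU : U ≤ W D j k 3) :
    ∃ J : Finset (Fin D × Fin 4), Good J U := by
  obtain ⟨J, hJ⟩ := JMx.exists_coords (fun p : Fin D × Fin 4 => JMx.coL p) U
    (fun g hg h => JMx.co_inj (hU hg) h)
  exact ⟨J, hJ⟩

/-- (JM2) normal coordinates of a regular family -/
theorem RegFam.norm (hc : ContinuousAt h x0) {U : X → Submodule ℂ (Fn D)} (hU : RegFam h x0 U)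
    (hW : ∀ x, U x ≤ W D j k 3) {J : Finset (Fin D × Fin 4)} (hJ : Good J (U x0)) :
    (∀ᶠ x in 𝓝 x0, Good J (U x)) ∧ ∀ q, RegF h x0 fun x => nc J (U x) q := by
  classical
  obtain ⟨n, d, v, hv1, hv2, hv3⟩ := hU
  obtain ⟨hli, hsp⟩ := hv3.self_of_nhds
  obtain ⟨e, he⟩ := JMx.card_of_good hli hsp hJ
  set M : X → Matrix (Fin d) (Fin d) ℂ := fun x => Matrix.of fun a b : Fin d => co (v b x) (e a)
    with hM
  have hMr : ∀ a b, RegF h x0 fun x => M x a b := fun a b => hv2 b _ _
  have hdet := JMx.regF_det hc M hMr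
  have hdet0 : ∀ᶠ x in 𝓝 x0, (M x).det ≠ 0 := (hdet.continuousAt hc).eventually_ne he
  have hall : ∀ᶠ x in 𝓝 x0, Good J (U x) ∧ ∀ a : J, nb J (U x) a =
      ∑ b, (M x)⁻¹ b (e.symm a) • v b x := by
    filter_upwards [hv3, hdet0] with x hx hx2
    exact JMx.good_of hx.1 hx.2 e hx2
  refine ⟨hall.mono fun x hx => hx.1, fun q => ?_⟩
  have h1 : RegF h x0 fun x => ∑ b, (M x)⁻¹ b (e.symm q.1) * co (v b x) q.2 := by
    refine RegF.sum hc _ fun b _ => RegF.mul hc (JMx.regF_inv hc M hMr he _ _) (hv2 b _ _)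
  refine h1.congr (hall.mono fun x hx => ?_)
  rw [nc, hx.2 q.1, JMx.co_sum]

/-- (JM3) a family is regular over its normal coordinates -/
theorem regFam_nc {U : X → Submodule ℂ (Fn D)} (hW : ∀ x, U x ≤ W D j k 3)
    {J : Finset (Fin D × Fin 4)} (hJ : ∀ᶠ x in 𝓝 x0, Good J (U x)) :
    RegFam (fun x => nc J (U x)) x0 U := by
  classical
  set e : Fin (Fintype.card J) ≃ J := (Fintype.equivFin J).symm with he
  set v : Fin (Fintype.card J) → X → Fn D := fun a x t =>
    ∑ l : Fin 4, Polynomial.monomial (l : ℕ) (nc J (U x) (e a, (t, l))) with hv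
  have hcoeff : ∀ a x t l, (v a x t).coeff l =
      if hl : l < 4 then nc J (U x) (e a, (t, ⟨l, hl⟩)) else 0 := by
    intro a x t l
    simp only [hv, Polynomial.finsetSum_coeff, Polynomial.coeff_monomial]
    split_ifs with hl
    · rw [Finset.sum_eq_single (⟨l, hl⟩ : Fin 4)]
      · simp
      · intro b _ hb
        rw [if_neg]
        intro h
        exact hb (Fin.ext h)
      · intro h
        exact absurd (Finset.mem_univ _) h
    · refine Finset.sum_eq_zero fun b _ => ?_
      rw [if_neg]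
      have := b.2
      omega
  refine ⟨4, Fintype.card J, v, fun a x t => ?_, fun a t l => ?_, ?_⟩
  · refine Submodule.sum_mem _ fun l _ => ?_
    rw [Polynomial.mem_degreeLT]
    refine (Polynomial.degree_monomial_le _ _).trans_lt ?_
    exact_mod_cast l.2
  · simp only [hcoeff]
    split_ifs with hl
    · exact RegF.gen (h := fun x => nc J (U x)) (e a, (t, ⟨l, hl⟩))
    · exact RegF.const isAlgebraic_zero
  · filter_upwards [hJ] with x hx
    have hvx : ∀ a, v a x = nb J (U x) (e a) := by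
      intro a
      have h1 := (JMx.nb_spec hx (e a)).1
      funext t
      ext l
      rw [hcoeff]
      split_ifs with hl
      · rfl
      · have h2 := (Submodule.mem_pi.1 (hW x h1)) t (Set.mem_univ t)
        rw [Polynomial.mem_degreeLT] at h2
        rw [Polynomial.coeff_eq_zero_of_degree_lt]
        refine h2.trans_le ?_
        exact_mod_cast (by omega : 3 + 1 - cc D j k t ≤ l)
    have hvx' : (fun a => v a x) = fun a => nb J (U x) (e a) := funext hvx
    rw [hvx']
    have hco : ∀ (c : Fin (Fintype.card J) → ℂ) (a : Fin (Fintype.card J)),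
        co (∑ b, c b • nb J (U x) (e b)) (e a) = c a := by
      intro c a
      rw [JMx.co_sum, Finset.sum_eq_single a]
      · rw [(JMx.nb_spec hx (e a)).2 (e a), if_pos rfl, mul_one]
      · intro b _ hb
        rw [(JMx.nb_spec hx (e b)).2 (e a), if_neg (fun h => hb (e.injective h).symm), mul_zero]
      · intro h
        exact absurd (Finset.mem_univ _) h
    constructor
    · rw [Fintype.linearIndependent_iff]
      intro c hc a
      rw [← hco c a, hc]
      simp [co]
    · apply le_antisymm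
      · intro g hg
        rw [Submodule.mem_span_range_iff_exists_fun]
        refine ⟨fun a => co g (e a), ?_⟩
        refine (hx fun a => co g a).unique ⟨?_, ?_⟩ ⟨hg, fun a => rfl⟩
        · exact Submodule.sum_mem _ fun b _ => Submodule.smul_mem _ _ (JMx.nb_spec hx (e b)).1
        · intro a
          obtain ⟨a, rfl⟩ := e.surjective a
          exact hco _ a
      · rw [Submodule.span_le]
        rintro _ ⟨a, rfl⟩
        exact (JMx.nb_spec hx (e a)).1

namespace JMx

lemma regF_pow (hc : ContinuousAt h x0) {f : X → ℂ} (hf : RegF h x0 f) (n : ℕ) :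
    RegF h x0 fun x => f x ^ n := by
  have := RegF.prod hc (Finset.range n) (f := fun _ => f) (fun _ _ => hf)
  simpa using this

lemma cont_br {a b : ℂ} {s : ℂ} (hs : ‖s‖ < 1 / 2) :
    DifferentiableAt ℂ (fun s : ℂ => (1 / 2 + s) ^ a * (1 / 2 - s) ^ b) s := by
  have hre : |s.re| ≤ ‖s‖ := Complex.abs_re_le_norm s
  have h1 := abs_lt.1 (lt_of_le_of_lt hre hs)
  have m1 : (1 / 2 + s : ℂ) ∈ Complex.slitPlane := Or.inl (by
    simp only [one_div, Complex.add_re, Complex.inv_re, Complex.re_ofNat, Complex.normSq_ofNat]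
    norm_num
    linarith [h1.1])
  have m2 : (1 / 2 - s : ℂ) ∈ Complex.slitPlane := Or.inl (by
    simp only [one_div, Complex.sub_re, Complex.inv_re, Complex.re_ofNat, Complex.normSq_ofNat]
    norm_num
    linarith [h1.2])
  exact ((differentiableAt_id.const_add (1 / 2 : ℂ)).cpow_const m1).mul
    ((differentiableAt_id.const_sub (1 / 2 : ℂ)).cpow_const m2)

lemma gens_ana {n : ℕ} (a : Fin n ⊕ Fin n) :
    AnalyticAt ℂ (fun ξ : Fin n → ℂ => gens D j k n ξ a) 0 := by
  have hp : ∀ i, AnalyticAt ℂ (fun ξ : Fin n → ℂ => ξ i) 0 := fun i =>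
    (ContinuousLinearMap.proj (R := ℂ) (φ := fun _ : Fin n => ℂ) i).analyticAt 0
  rcases a with i | i
  · exact analyticAt_const.add (hp i)
  · have hy : AnalyticAt ℂ (ybr D j k) 0 := by
      rw [Complex.analyticAt_iff_eventually_differentiableAt]
      filter_upwards [isOpen_ball.mem_nhds (mem_ball_self (by norm_num : (0 : ℝ) < 1 / 2))]
        with s hs
      exact cont_br (by simpa using hs)
    exact analyticAt_const.mul (AnalyticAt.fun_comp (g := ybr D j k) (x := (0 : Fin n → ℂ)) hy (hp i))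

lemma gens_cont {n : ℕ} : ContinuousAt (gens D j k n) 0 :=
  continuousAt_pi.2 fun a => (gens_ana a).continuousAt

lemma ev_small {n : ℕ} {ε : ℝ} (hε : 0 < ε) :
    ∀ᶠ ξ in 𝓝 (0 : Fin n → ℂ), ∀ i, ‖ξ i‖ < ε := by
  filter_upwards [isOpen_ball.mem_nhds (mem_ball_self hε)] with ξ hξ i
  exact lt_of_le_of_lt (norm_le_pi_norm ξ i) (by simpa using hξ)

lemma regF_bas (hD : 0 < D) {n : ℕ} (i : Fin n) (p : Fin D × Fin 4) :
    RegF (gens D j k n) 0 fun ξ => bas D j k i p (ξ i) := by
  have hc : ContinuousAt (gens D j k n) 0 := gens_cont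
  have hx : RegF (gens D j k n) 0 fun ξ => 1 / 2 + ξ i :=
    RegF.gen (h := gens D j k n) (x0 := 0) (Sum.inl i)
  have hy : RegF (gens D j k n) 0 fun ξ => ze D ^ (i : ℕ) * ybr D j k (ξ i) :=
    RegF.gen (h := gens D j k n) (x0 := 0) (Sum.inr i)
  have hhalf : IsAlgebraic ℚ (1 / 2 : ℂ) := by
    have := isAlgebraic_algebraMap (A := ℂ) (1 / 2 : ℚ)
    simpa using this
  have hξ : RegF (gens D j k n) 0 fun ξ => ξ i := by
    have := RegF.add hc hx (RegF.neg (RegF.const hhalf))
    refine this.congr (Eventually.of_forall fun ξ => ?_)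
    ring
  have hx' : RegF (gens D j k n) 0 fun ξ => 1 / 2 - ξ i :=
    RegF.add hc (RegF.const hhalf) (RegF.neg hξ)
  have hden : RegF (gens D j k n) 0 fun ξ => ((1 / 2 + ξ i) ^ ((p.1 : ℕ) * j / D) *
      (1 / 2 - ξ i) ^ ((p.1 : ℕ) * k / D))⁻¹ := by
    refine RegF.inv hc (RegF.mul hc (regF_pow hc hx _) (regF_pow hc hx' _)) ?_
    simp
  refine (RegF.mul hc (regF_pow hc hξ (p.2 : ℕ)) (RegF.mul hc (regF_pow hc hy (p.1 : ℕ)) hden)).congr
    ((ev_small (by norm_num : (0 : ℝ) < 1 / 2)).mono fun ξ h => ?_)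
  have hs := h i
  have e1 := et_ybr (j := j) (k := k) hD (p.1 : ℕ) hs
  have n1 : (1 / 2 + ξ i) ≠ 0 := by
    intro h0
    have : ξ i = -(1 / 2) := by linear_combination h0
    rw [this] at hs
    norm_num at hs
  have n2 : (1 / 2 - ξ i) ≠ 0 := by
    intro h0
    have : ξ i = 1 / 2 := by linear_combination -h0
    rw [this] at hs
    norm_num at hs
  have n3 : ((1 / 2 + ξ i) ^ ((p.1 : ℕ) * j / D) * (1 / 2 - ξ i) ^ ((p.1 : ℕ) * k / D)) ≠ 0 :=
    mul_ne_zero (pow_ne_zero _ n1) (pow_ne_zero _ n2)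
  unfold bas
  rw [mul_pow, ← e1, ← pow_mul, mul_comm (i : ℕ) (p.1 : ℕ)]
  generalize (1 / 2 + ξ i) ^ ((p.1 : ℕ) * j / D) * (1 / 2 - ξ i) ^ ((p.1 : ℕ) * k / D) = dd
    at n3
  field_simp

end JMx

/-- (JM4) points near the fibre: regular over the coordinates of the points -/
theorem regFam_PD (hD : 3 ≤ D) (hj : 0 < j) (hk : 0 < k) (hjk : j + k < D)
    (hg : Nat.gcd (Nat.gcd j k) D = 1) :
    RegFam (gens D j k (genus D j k)) 0 fun ξ => WE D j k 3 (PD ξ) := by
  classical
  have hD0 : 0 < D := by omega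
  have hn : genus D j k ≤ D := by
    have := genus_le hD hj hk hjk hg
    omega
  set n := genus D j k with hndef
  have hc : ContinuousAt (gens D j k n) 0 := JMx.gens_cont
  obtain ⟨ε, hε, hdim⟩ := dim_WE hD hj hk hjk hg (n := 3) le_rfl
    (fun i : Fin D => if (i : ℕ) < n then 1 else 0) (fun i => by split_ifs <;> norm_num)
  have htyp : ∀ ξ : Fin n → ℂ, Typ (PD ξ : Dv D) (fun i : Fin D => if (i : ℕ) < n then 1 else 0) := by
    intro ξ i
    by_cases hi : (i : ℕ) < n <;> simp [PD, hi]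
  have hsm : ∀ᶠ ξ in 𝓝 (0 : Fin n → ℂ), SmallD ε (PD ξ : Dv D) := by
    filter_upwards [JMx.ev_small hε] with ξ hξ i α hα
    by_cases hi : (i : ℕ) < n
    · simp only [PD, hi, dif_pos, Multiset.mem_singleton] at hα
      rw [hα]
      exact hξ _
    · simp [PD, hi] at hα
  have hq := JMx.ev_small (n := n) (by norm_num : (0 : ℝ) < 1 / 4)
  have hmap : ∀ ξ : Fin n → ℂ, (∀ i, ‖ξ i‖ < 1 / 4) →
      (LinearMap.ker (JMx.mat D j k n ξ).mulVecLin).map JMx.toF = WE D j k 3 (PD ξ) := by
    intro ξ hξ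
    ext g
    rw [Submodule.mem_map]
    constructor
    · rintro ⟨c, hc', rfl⟩
      exact (JMx.mem_ker hn hξ c).1 hc'
    · intro hg'
      have e := JMx.toF_co hg'.1
      exact ⟨co g, (JMx.mem_ker hn hξ _).2 (by rw [e]; exact hg'), e⟩
  have hrank : ∀ ξ : Fin n → ℂ, (∀ i, ‖ξ i‖ < 1 / 4) →
      Module.finrank ℂ (LinearMap.ker (JMx.mat D j k n ξ).mulVecLin) =
        Module.finrank ℂ (WE D j k 3 (PD ξ)) := by
    intro ξ hξ
    rw [← hmap ξ hξ]
    exact (Submodule.equivMapOfInjective _ JMx.toF_inj _).finrank_eq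
  obtain ⟨v, hv1, hv2⟩ := RegF.ker hc (JMx.mat D j k n) (fun a b => by
      rcases a with i | p
      · exact JMx.regF_bas hD0 i b
      · by_cases hp : p = b ∧ 4 ≤ (p.2 : ℕ) + cc D j k p.1
        · have e : (fun ξ => JMx.mat D j k n ξ (Sum.inr p) b) = fun _ => 1 := by
            funext ξ; simp only [JMx.mat, Matrix.of_apply, Sum.elim_inr, if_pos hp]
          rw [e]
          exact RegF.const isAlgebraic_one
        · have e : (fun ξ => JMx.mat D j k n ξ (Sum.inr p) b) = fun _ => 0 := by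
            funext ξ; simp only [JMx.mat, Matrix.of_apply, Sum.elim_inr, if_neg hp]
          rw [e]
          exact RegF.const isAlgebraic_zero) (by
      filter_upwards [hsm, hq] with ξ h1 h2
      have h3 := hdim (PD ξ) (htyp ξ) h1
      have h4 := hdim (PD 0) (htyp 0) hsm.self_of_nhds
      rw [hrank ξ h2, hrank 0 hq.self_of_nhds]
      omega)
  refine ⟨4, _, fun a ξ => JMx.toF (v a ξ), fun a ξ t => ?_, fun a t l => ?_, ?_⟩
  · rw [Polynomial.mem_degreeLT, Polynomial.degree_lt_iff_coeff_zero]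
    intro l hl
    rw [JMx.toF_coeff, dif_neg (by omega)]
  · simp only [JMx.toF_coeff]
    split_ifs with hl
    · exact hv1 a _
    · exact RegF.const isAlgebraic_zero
  · filter_upwards [hv2, hq] with ξ h1 h2
    constructor
    · exact h1.1.map' JMx.toF (LinearMap.ker_eq_bot.2 JMx.toF_inj)
    · rw [← hmap ξ h2, h1.2, Submodule.map_span, ← Set.range_comp]
      rfl

namespace JMx

lemma bas_diff (i : ℕ) (p : Fin D × Fin 4) : DifferentiableAt ℂ (bas D j k i p) 0 := by
  have h1 : DifferentiableAt ℂ (et D j k p.1) 0 :=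
    (et_diff (D := D) (j := j) (k := k) (p.1 : ℕ)).differentiableAt
      (isOpen_ball.mem_nhds (mem_ball_self (by norm_num)))
  exact (differentiableAt_id.pow _).mul (h1.const_mul _)

lemma deriv_sh {g : Fn D} (hg : g ∈ W D j k 3) (i : ℕ) :
    deriv (sh D j k g i) 0 = ∑ p, co g p * deriv (bas D j k i p) 0 := by
  have e : sh D j k g i = fun s => ∑ p, co g p * bas D j k i p s := funext fun s => sh_co hg i s
  rw [e]
  exact (HasDerivAt.fun_sum fun p _ => (bas_diff i p).hasDerivAt.const_mul (co g p)).deriv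

end JMx

/-- (JM5) the family determines the divisor infinitesimally -/
theorem imm_PD (hD : 3 ≤ D) (hj : 0 < j) (hk : 0 < k) (hjk : j + k < D)
    (hg : Nat.gcd (Nat.gcd j k) D = 1)
    {J : Finset (Fin D × Fin 4)} (hJ : Good J (WE D j k 3 (PD (0 : Fin (genus D j k) → ℂ))))
    (v : Fin (genus D j k) → ℂ) (hv : v ≠ 0) :
    ∃ q, DifferentiableAt ℂ (fun ξ : Fin (genus D j k) → ℂ => nc J (WE D j k 3 (PD ξ)) q) 0 ∧
      fderiv ℂ (fun ξ : Fin (genus D j k) → ℂ => nc J (WE D j k 3 (PD ξ)) q) 0 v ≠ 0 := by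
  classical
  have hn : genus D j k ≤ D := by
    have := genus_le hD hj hk hjk hg
    omega
  have hc : ContinuousAt (gens D j k (genus D j k)) 0 := JMx.gens_cont
  obtain ⟨hgood, hreg⟩ := (regFam_PD hD hj hk hjk hg).norm hc (fun ξ g hg => hg.1) hJ
  have hana : ∀ q, AnalyticAt ℂ
      (fun ξ : Fin (genus D j k) → ℂ => nc J (WE D j k 3 (PD ξ)) q) 0 :=
    fun q => (hreg q).analyticAt JMx.gens_ana
  by_contra hcon
  push Not at hcon
  have hdz : ∀ q, fderiv ℂ (fun ξ : Fin (genus D j k) → ℂ => nc J (WE D j k 3 (PD ξ)) q) 0 v = 0 :=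
    fun q => hcon q (hana q).differentiableAt
  have hPD : ∀ (ξ : Fin (genus D j k) → ℂ) (i : Fin (genus D j k)) (hi : (i : ℕ) < D),
      (PD ξ : Dv D) ⟨i, hi⟩ = {ξ i} := by
    intro ξ i hi
    simp [PD]
  have key : ∀ (a : J) (i : Fin (genus D j k)),
      v i * ∑ p, co (nb J (WE D j k 3 (PD (0 : Fin (genus D j k) → ℂ))) a) p *
        deriv (JMx.bas D j k i p) 0 = 0 := by
    intro a i
    have hline : HasDerivAt (fun τ : ℂ => τ • v) v 0 := by
      simpa using (hasDerivAt_id (0 : ℂ)).smul_const v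
    have hN : ∀ p, HasDerivAt (fun τ : ℂ => nc J (WE D j k 3 (PD (τ • v))) (a, p)) 0 0 := by
      intro p
      have h1 := (hana (a, p)).differentiableAt.hasFDerivAt
      have h2 : HasFDerivAt (fun ξ : Fin (genus D j k) → ℂ => nc J (WE D j k 3 (PD ξ)) (a, p))
          (fderiv ℂ (fun ξ : Fin (genus D j k) → ℂ => nc J (WE D j k 3 (PD ξ)) (a, p)) 0)
          ((fun τ : ℂ => τ • v) 0) := by
        simp only [zero_smul]
        exact h1
      have h3 := h2.comp_hasDerivAt (0 : ℂ) hline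
      rw [hdz (a, p)] at h3
      exact h3
    have hb : ∀ p, HasDerivAt (fun τ : ℂ => JMx.bas D j k i p (τ * v i))
        (deriv (JMx.bas D j k i p) 0 * v i) 0 := by
      intro p
      have h1 : HasDerivAt (fun τ : ℂ => τ * v i) (v i) 0 := by
        simpa using (hasDerivAt_id (0 : ℂ)).mul_const (v i)
      have h2 : HasDerivAt (JMx.bas D j k i p) (deriv (JMx.bas D j k i p) 0)
          ((fun τ : ℂ => τ * v i) 0) := by
        simp only [zero_mul]
        exact (JMx.bas_diff (i : ℕ) p).hasDerivAt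
      exact h2.comp (0 : ℂ) h1
    have hF : HasDerivAt (fun τ : ℂ => ∑ p, nc J (WE D j k 3 (PD (τ • v))) (a, p) *
        JMx.bas D j k i p (τ * v i))
        (∑ p, (0 * JMx.bas D j k i p (0 * v i) + nc J (WE D j k 3 (PD ((0 : ℂ) • v))) (a, p) *
          (deriv (JMx.bas D j k i p) 0 * v i))) 0 :=
      HasDerivAt.fun_sum fun p _ => (hN p).mul (hb p)
    have hline0 : Tendsto (fun τ : ℂ => τ • v) (𝓝 0) (𝓝 0) := by
      have := hline.continuousAt.tendsto
      simpa using this
    have hq := JMx.ev_small (n := genus D j k) (by norm_num : (0 : ℝ) < 1 / 4)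
    have hzero : (fun τ : ℂ => ∑ p, nc J (WE D j k 3 (PD (τ • v))) (a, p) *
        JMx.bas D j k i p (τ * v i)) =ᶠ[𝓝 0] fun _ => 0 := by
      filter_upwards [hline0.eventually hgood, hline0.eventually hq] with τ h1 h2
      have h3 := (JMx.nb_spec h1 a).1
      have h4 := h3.2 ⟨i, by omega⟩
      rw [hPD _ i (by omega), JMx.van_single (JMx.sh_diff4 _ _) (by simpa using h2 i)] at h4
      rw [JMx.sh_co h3.1] at h4
      exact h4
    have h0 := hF.unique ((hasDerivAt_const (0 : ℂ) (0 : ℂ)).congr_of_eventuallyEq hzero)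
    rw [Finset.mul_sum]
    refine Eq.trans (Finset.sum_congr rfl fun p _ => ?_) h0
    rw [zero_smul, zero_mul, zero_add, nc]
    ring
  apply hv
  funext i
  have hiD : (i : ℕ) < D := by omega
  obtain ⟨φ, hφ, hjet⟩ := fibre_jets hD hj hk hjk hg (n := 3) le_rfl (fun _ => 0)
    (fun i' : Fin D => if i' = ⟨i, hiD⟩ then 1 else 0)
  have hφU : φ ∈ WE D j k 3 (PD (0 : Fin (genus D j k) → ℂ)) := by
    refine ⟨hφ, fun i' => ?_⟩
    by_cases hi' : (i' : ℕ) < genus D j k
    · have e : (PD (0 : Fin (genus D j k) → ℂ) : Dv D) i' = {0} := by simp [PD, hi']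
      rw [e, JMx.van_single (JMx.sh_diff4 _ _) (mem_ball_self (by norm_num))]
      exact (hjet i').1
    · have e : (PD (0 : Fin (genus D j k) → ℂ) : Dv D) i' = 0 := by simp [PD, hi']
      rw [e]
      exact JMx.van_zero (JMx.sh_diff4 _ _)
  have h1 : φ = ∑ a : J, co φ a • nb J (WE D j k 3 (PD (0 : Fin (genus D j k) → ℂ))) a := by
    refine (hJ fun a => co φ a).unique ⟨hφU, fun a => rfl⟩ ⟨?_, fun a => ?_⟩
    · exact Submodule.sum_mem _ fun b _ => Submodule.smul_mem _ _ (JMx.nb_spec hJ b).1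
    · rw [JMx.co_sum, Finset.sum_eq_single a]
      · rw [(JMx.nb_spec hJ a).2 a, if_pos rfl, mul_one]
      · intro b _ hb
        rw [(JMx.nb_spec hJ b).2 a, if_neg (fun h => hb h.symm), mul_zero]
      · intro h
        exact absurd (Finset.mem_univ _) h
  have h2 := (hjet ⟨i, hiD⟩).2
  rw [if_pos rfl, JMx.deriv_sh hφ] at h2
  rw [Pi.zero_apply]
  calc v i = v i * ∑ p, co φ p * deriv (JMx.bas D j k i p) 0 := by rw [h2, mul_one]
    _ = ∑ a : J, co φ a * (v i * ∑ p,
        co (nb J (WE D j k 3 (PD (0 : Fin (genus D j k) → ℂ))) a) p *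
        deriv (JMx.bas D j k i p) 0) := by
        have h3 : ∀ p, co φ p = ∑ a : J, co φ a *
            co (nb J (WE D j k 3 (PD (0 : Fin (genus D j k) → ℂ))) a) p := by
          intro p
          conv_lhs => rw [h1]
          exact JMx.co_sum _ _ _ _
        simp only [Finset.mul_sum]
        rw [Finset.sum_comm]
        refine Finset.sum_congr rfl fun p _ => ?_
        conv_lhs => rw [h3 p]
        rw [Finset.sum_mul, Finset.mul_sum]
        refine Finset.sum_congr rfl fun a _ => ?_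
        ring
    _ = 0 := Finset.sum_eq_zero fun a _ => by rw [key a i, mul_zero]

end Pool.Agent.WW
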