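import Pool.Agent.WW.JK2
import Pool.Agent.WW.JM

set_option autoImplicit false

namespace Pool.Agent.WW

open MvPolynomial Metric Filter Topology

variable {X μ : Type} [TopologicalSpace X] {h : X → μ → ℂ} {x0 : X} {D j k : ℕ}

/-- the sums `zp` are analytic -/
theorem zp_analyticAt {T : Type} [Fintype T] (n : ℕ) (τ : T → Fin D) :
    AnalyticAt ℂ (zp D j k n τ) 0 := by
  rw [analyticAt_pi_iff]
  intro t
  unfold zp
  refine Finset.analyticAt_fun_sum _ fun i _ => ?_
  refine analyticAt_const.mul ?_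
  have h1 : AnalyticAt ℂ (aint D j k (τ t)) 0 := by
    have hd : DifferentiableOn ℂ (aint D j k (τ t)) (ball 0 (1 / 2)) := fun s hs =>
      (aint_deriv (τ t) (by simpa using hs)).differentiableAt.differentiableWithinAt
    exact hd.analyticAt (isOpen_ball.mem_nhds (mem_ball_self (by norm_num)))
  have h2 : AnalyticAt ℂ (fun ξ : Fin n → ℂ => ξ i) 0 :=
    (ContinuousLinearMap.proj (R := ℂ) (φ := fun _ : Fin n => ℂ) i).analyticAt 0
  exact AnalyticAt.fun_comp (g := aint D j k (τ t)) (f := fun ξ : Fin n → ℂ => ξ i) h1 h2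

/-- a differentiable local inverse of an analytic map is analytic -/
theorem analyticAt_of_inverse {E F : Type} [NormedAddCommGroup E] [NormedSpace ℂ E]
    [CompleteSpace E] [NormedAddCommGroup F] [NormedSpace ℂ F] [CompleteSpace F] {f : E → F}
    {g : F → E} (hf : AnalyticAt ℂ f 0) (hg : DifferentiableAt ℂ g 0) (hg0 : g 0 = 0)
    (h1 : ∀ᶠ z in 𝓝 (0 : F), f (g z) = z) (h2 : ∀ᶠ x in 𝓝 (0 : E), g (f x) = x) :
    AnalyticAt ℂ g 0 := by
  have hf0 : f 0 = 0 := by
    have := h1.self_of_nhds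
    rwa [hg0] at this
  have hfs : HasStrictFDerivAt f (fderiv ℂ f 0) 0 := hf.hasStrictFDerivAt
  have hfd : HasFDerivAt f (fderiv ℂ f 0) (g 0) := by
    rw [hg0]
    exact hfs.hasFDerivAt
  have hgd : HasFDerivAt g (fderiv ℂ g 0) (f 0) := by
    rw [hf0]
    exact hg.hasFDerivAt
  have e1 : (fderiv ℂ f 0).comp (fderiv ℂ g 0) = ContinuousLinearMap.id ℂ F :=
    ((hfd.comp 0 hg.hasFDerivAt).congr_of_eventuallyEq
      (by filter_upwards [h1] with z hz using hz.symm)).unique (hasFDerivAt_id 0)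
  have e2 : (fderiv ℂ g 0).comp (fderiv ℂ f 0) = ContinuousLinearMap.id ℂ E :=
    ((hgd.comp 0 hfs.hasFDerivAt).congr_of_eventuallyEq
      (by filter_upwards [h2] with z hz using hz.symm)).unique (hasFDerivAt_id 0)
  let i : E ≃L[ℂ] F := ContinuousLinearEquiv.equivOfInverse (fderiv ℂ f 0) (fderiv ℂ g 0)
    (fun x => by rw [← ContinuousLinearMap.comp_apply, e2]; rfl)
    (fun x => by rw [← ContinuousLinearMap.comp_apply, e1]; rfl)
  have hi : (i : E →L[ℂ] F) = fderiv ℂ f 0 := by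
    ext x
    rfl
  have hfs' : HasStrictFDerivAt f (i : E →L[ℂ] F) 0 := by
    rw [hi]
    exact hfs
  let Φ := hfs'.toOpenPartialHomeomorph f
  have hΦ : ∀ x, Φ x = f x := fun x => by
    rw [HasStrictFDerivAt.toOpenPartialHomeomorph_coe]
  have hΦ' : (Φ : E → F) = f := funext hΦ
  have hs : (0 : E) ∈ Φ.source := hfs'.mem_toOpenPartialHomeomorph_source
  have ha : AnalyticAt ℂ Φ.symm (Φ 0) := by
    refine OpenPartialHomeomorph.analyticAt_symm' (i := i) Φ hs ?_ ?_
    · rw [hΦ']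
      exact hf
    · rw [hΦ', hi]
  rw [hΦ, hf0] at ha
  refine ha.congr ?_
  have hgc : ContinuousAt g 0 := hg.continuousAt
  have h3 : ∀ᶠ z in 𝓝 (0 : F), g z ∈ Φ.source := by
    refine hgc.eventually_mem ?_
    rw [hg0]
    exact Φ.open_source.mem_nhds hs
  filter_upwards [h1, h3] with z hz hz'
  have h4 := Φ.left_inv hz'
  rw [hΦ, hz] at h4
  exact h4

theorem exists_chartOK (hD : 3 ≤ D) :
    ∃ Ξ : (PJ D j k → ℂ) → (Fin (genus D j k) → ℂ), ChartOK D j k Ξ := by
  obtain ⟨ρ, Ξ, hρ, hd, h0, -, -, hr, ρ', hρ', hl⟩ :=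
    chart (j := j) (k := k) hD (T := PJ D j k) Subtype.val Subtype.val_injective (genus D j k) rfl
  have hr' : ∀ᶠ z in 𝓝 (0 : PJ D j k → ℂ), zp D j k (genus D j k) Subtype.val (Ξ z) = z := by
    filter_upwards [ball_mem_nhds (0 : PJ D j k → ℂ) hρ] with z hz using hr z hz
  have hl' : ∀ᶠ ξ in 𝓝 (0 : Fin (genus D j k) → ℂ),
      Ξ (zp D j k (genus D j k) Subtype.val ξ) = ξ := by
    filter_upwards [ball_mem_nhds (0 : Fin (genus D j k) → ℂ) hρ'] with ξ hξ
    exact (hl ξ (by simpa using hξ)).2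
  refine ⟨Ξ, ⟨?_, h0, hr', hl'⟩⟩
  exact analyticAt_of_inverse (zp_analyticAt _ _)
    (hd.differentiableAt (ball_mem_nhds _ hρ)) h0 hr' hl'

/-- the family of points given by the chart -/
theorem famPD {Ξ : (PJ D j k → ℂ) → (Fin (genus D j k) → ℂ)}
    (hΞ : ChartOK D j k Ξ) {z : X → PJ D j k → ℂ} (hz : ContinuousAt z x0) (hz0 : z x0 = 0)
    (h1 : RegFam h x0 fun x => UU D j k Ξ (z x)) :
    Fam D j k h x0 (fun x => PD (Ξ (z x))) (fun i => if (i : ℕ) < genus D j k then 1 else 0) := by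
  refine ⟨fun x i => ?_, fun ε hε => ?_, h1⟩
  · unfold PD
    by_cases hi : (i : ℕ) < genus D j k
    · rw [dif_pos hi, if_pos hi]
      exact Multiset.card_singleton _
    · rw [dif_neg hi, if_neg hi]
      exact Multiset.card_zero
  · have hc : ContinuousAt (fun x => Ξ (z x)) x0 := by
      refine ContinuousAt.comp (g := Ξ) ?_ hz
      rw [hz0]
      exact hΞ.ana.continuousAt
    have h2 : ∀ᶠ x in 𝓝 x0, Ξ (z x) ∈ ball (0 : Fin (genus D j k) → ℂ) ε := by
      refine hc.eventually_mem ?_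
      rw [hz0, hΞ.zero]
      exact ball_mem_nhds _ hε
    filter_upwards [h2] with x hx i α hα
    unfold PD at hα
    by_cases hi : (i : ℕ) < genus D j k
    · rw [dif_pos hi, Multiset.mem_singleton] at hα
      rw [hα]
      rw [mem_ball_zero_iff] at hx
      exact (norm_le_pi_norm (Ξ (z x)) ⟨i, hi⟩).trans_lt hx
    · rw [dif_neg hi] at hα
      exact absurd hα (Multiset.notMem_zero α)

/-- its Abel-Jacobi sums -/
theorem AJ_famPD (hD : 3 ≤ D) (hj : 0 < j) (hk : 0 < k) (hjk : j + k < D)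
    (hg : Nat.gcd (Nat.gcd j k) D = 1) {Ξ : (PJ D j k → ℂ) → (Fin (genus D j k) → ℂ)}
    (hΞ : ChartOK D j k Ξ) {z : X → PJ D j k → ℂ} (hz : ContinuousAt z x0) (hz0 : z x0 = 0) :
    ∀ᶠ x in 𝓝 x0, ∀ t : PJ D j k, AJ D j k (PD (Ξ (z x))) t.1 = z x t := by
  have hgl := genus_le hD hj hk hjk hg
  have h1 : ∀ᶠ x in 𝓝 x0, zp D j k (genus D j k) Subtype.val (Ξ (z x)) = z x := by
    have h2 := hΞ.right
    rw [← hz0] at h2
    exact hz.eventually h2
  filter_upwards [h1] with x hx t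
  rw [AJ_PD (by omega) (Subtype.val : PJ D j k → Fin D) (genus D j k) (by omega), hx]

/-- a family with one point on each of the first sheets is given by the chart -/
theorem fam_back (hD : 3 ≤ D) (hj : 0 < j) (hk : 0 < k) (hjk : j + k < D)
    (hg : Nat.gcd (Nat.gcd j k) D = 1) {Ξ : (PJ D j k → ℂ) → (Fin (genus D j k) → ℂ)}
    (hΞ : ChartOK D j k Ξ) {e : X → Dv D} (he : Fam D j k h x0 e fun i => 1 - tB D j k i)
    {z : X → PJ D j k → ℂ}
    (hz : ∀ᶠ x in 𝓝 x0, ∀ t : PJ D j k, AJ D j k (e x) t.1 = z x t) :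
    RegFam h x0 fun x => UU D j k Ξ (z x) := by
  have hgl := genus_le hD hj hk hjk hg
  have hex : ∀ x, ∃ ξ : Fin (genus D j k) → ℂ, e x = PD ξ := by
    intro x
    have h1 : ∀ i : Fin (genus D j k), ∃ a, e x ⟨i, by omega⟩ = {a} := by
      intro i
      have h2 := he.typ x ⟨i, by omega⟩
      have h3 : (1 : ℕ) - tB D j k ⟨i, by omega⟩ = 1 := by
        unfold tB
        rw [if_neg (by simp)]
      rw [h3] at h2
      exact Multiset.card_eq_one.1 h2
    choose ξ hξ using h1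
    refine ⟨ξ, funext fun i => ?_⟩
    unfold PD
    by_cases hi : (i : ℕ) < genus D j k
    · rw [dif_pos hi]
      exact hξ ⟨i, hi⟩
    · rw [dif_neg hi]
      have h2 := he.typ x i
      have h3 : (1 : ℕ) - tB D j k i = 0 := by
        unfold tB
        rw [if_pos (by omega)]
      rw [h3] at h2
      exact Multiset.card_eq_zero.1 h2
  choose ξ hξ using hex
  have ht : Tendsto ξ (𝓝 x0) (𝓝 0) := by
    rw [Metric.tendsto_nhds]
    intro ε hε
    filter_upwards [he.small ε hε] with x hx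
    rw [dist_zero_right, pi_norm_lt_iff hε]
    intro i
    refine hx ⟨i, by omega⟩ (ξ x i) ?_
    rw [hξ x]
    unfold PD
    rw [dif_pos i.2]
    exact Multiset.mem_singleton_self _
  have h1 : ∀ᶠ x in 𝓝 x0, Ξ (zp D j k (genus D j k) Subtype.val (ξ x)) = ξ x :=
    ht.eventually hΞ.left
  refine he.reg.congr ?_
  filter_upwards [h1, hz] with x hx hzx
  have h2 : zp D j k (genus D j k) Subtype.val (ξ x) = z x := by
    funext t
    rw [← hzx t, hξ x, AJ_PD (by omega) (Subtype.val : PJ D j k → Fin D) (genus D j k) (by omega)]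
  rw [h2] at hx
  unfold UU
  rw [hx, ← hξ x]

/-- (JN1) addition law -/
theorem law_add (hD : 3 ≤ D) (hj : 0 < j) (hk : 0 < k) (hjk : j + k < D)
    (hg : Nat.gcd (Nat.gcd j k) D = 1)
    {Ξ : (PJ D j k → ℂ) → (Fin (genus D j k) → ℂ)} (hΞ : ChartOK D j k Ξ)
    (hc : ContinuousAt h x0) {z w : X → PJ D j k → ℂ} (hz : ContinuousAt z x0) (hz0 : z x0 = 0)
    (hw : ContinuousAt w x0) (hw0 : w x0 = 0) (h1 : RegFam h x0 fun x => UU D j k Ξ (z x))
    (h2 : RegFam h x0 fun x => UU D j k Ξ (w x)) :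
    RegFam h x0 fun x => UU D j k Ξ (z x + w x) := by
  have hgl := genus_le hD hj hk hjk hg
  have hE := famPD hΞ hz hz0 h1
  have hE' := famPD hΞ hw hw0 h2
  have hAE := AJ_famPD hD hj hk hjk hg hΞ hz hz0
  have hAE' := AJ_famPD hD hj hk hjk hg hΞ hw hw0
  obtain ⟨e, he, hAe⟩ := Fam.step2 hD hj hk hjk hg hc
    (fun i => by split_ifs <;> omega) (fun i => by split_ifs <;> omega)
    (fun i => by
      unfold tC
      by_cases hi : (i : ℕ) < genus D j k
      · right
        rw [if_pos hi, if_pos (by omega)]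
      · left
        rw [if_neg hi]) hE hE'
  obtain ⟨e', he', hAe'⟩ := Fam.step1 hD hj hk hjk hg hc (Or.inr rfl)
    (fun i => by
      unfold tA tB
      split_ifs <;> omega) he
  refine fam_back hD hj hk hjk hg hΞ he' ?_
  filter_upwards [hAE, hAE', hAe, hAe'] with x a1 a2 a3 a4 t
  rw [a4 t, a3 t, a1 t, a2 t, Pi.add_apply]
  ring

/-- (JN2) opposite -/
theorem law_neg (hD : 3 ≤ D) (hj : 0 < j) (hk : 0 < k) (hjk : j + k < D)
    (hg : Nat.gcd (Nat.gcd j k) D = 1)
    {Ξ : (PJ D j k → ℂ) → (Fin (genus D j k) → ℂ)} (hΞ : ChartOK D j k Ξ)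
    (hc : ContinuousAt h x0) {z : X → PJ D j k → ℂ} (hz : ContinuousAt z x0) (hz0 : z x0 = 0)
    (h1 : RegFam h x0 fun x => UU D j k Ξ (z x)) :
    RegFam h x0 fun x => UU D j k Ξ (- z x) := by
  have hgl := genus_le hD hj hk hjk hg
  have hE := famPD hΞ hz hz0 h1
  have hAE := AJ_famPD hD hj hk hjk hg hΞ hz hz0
  obtain ⟨e, he, hAe⟩ := Fam.step1 hD hj hk hjk hg hc (Or.inl rfl)
    (fun i => by
      unfold tA
      split_ifs <;> omega) hE
  obtain ⟨e2, he2, hAe2⟩ := Fam.step2 hD hj hk hjk hg hc (d' := fun _ => 0)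
    (fun i => by omega) (fun i => by omega)
    (fun i => by
      unfold tA tC
      by_cases hi : (i : ℕ) + genus D j k < D
      · left
        rw [if_pos hi]
      · right
        rw [if_neg hi, if_neg hi]) he (Fam.zero hD hj hk hjk hg)
  obtain ⟨e', he', hAe'⟩ := Fam.step1 hD hj hk hjk hg hc (Or.inr rfl)
    (fun i => by
      unfold tA tB
      split_ifs <;> omega) he2
  refine fam_back hD hj hk hjk hg hΞ he' ?_
  filter_upwards [hAE, hAe, hAe2, hAe'] with x a1 a2 a3 a4 t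
  have h0 : AJ D j k (fun _ => 0 : Dv D) t.1 = 0 := by
    unfold AJ
    simp
  rw [a4 t, a3 t, a2 t, a1 t, h0, Pi.neg_apply]
  ring

/-- (JN3) multiplication by the root of unity -/
theorem law_zeta (hD : 3 ≤ D) (hj : 0 < j) (hk : 0 < k) (hjk : j + k < D)
    (hg : Nat.gcd (Nat.gcd j k) D = 1)
    {Ξ : (PJ D j k → ℂ) → (Fin (genus D j k) → ℂ)} (hΞ : ChartOK D j k Ξ)
    (hc : ContinuousAt h x0) {z : X → PJ D j k → ℂ} (hz : ContinuousAt z x0) (hz0 : z x0 = 0)
    (h1 : RegFam h x0 fun x => UU D j k Ξ (z x)) :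
    RegFam h x0 fun x => UU D j k Ξ (fun t => ze D ^ (t.1 : ℕ) * z x t) := by
  have hgl := genus_le hD hj hk hjk hg
  have : NeZero D := ⟨by omega⟩
  have hE := famPD hΞ hz hz0 h1
  have hAE := AJ_famPD hD hj hk hjk hg hΞ hz hz0
  let σ : Equiv.Perm (Fin D) := Equiv.addRight (1 : Fin D)
  have hσ : ∀ i : Fin D, (σ i : ℕ) = ((i : ℕ) + 1) % D := by
    intro i
    change ((i + 1 : Fin D) : ℕ) = _
    rw [Fin.val_add, Fin.val_one', Nat.mod_eq_of_lt (show 1 < D by omega)]
  have hzD : ze D ^ D = 1 := by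
    unfold ze
    rw [← Complex.exp_nat_mul]
    rw [show (D : ℂ) * (2 * Real.pi * Complex.I / D) = 2 * Real.pi * Complex.I by
      have : (D : ℂ) ≠ 0 := by exact_mod_cast (show D ≠ 0 by omega)
      field_simp]
    exact Complex.exp_two_pi_mul_I
  -- the shifted family
  have hEs : Fam D j k h x0 (fun x i => PD (Ξ (z x)) (σ.symm i))
      (fun i => if (σ.symm i : ℕ) < genus D j k then 1 else 0) := by
    refine ⟨fun x i => hE.typ x (σ.symm i), fun ε hε => ?_, ?_⟩
    · filter_upwards [hE.small ε hε] with x hx i α hα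
      exact hx (σ.symm i) α hα
    · refine RegFam.tw (D := D) (by omega) 1 hE.reg hc (Eventually.of_forall fun x g => ?_)
      have hW : g ∈ W D j k 3 ↔ tw D 1 g ∈ W D j k 3 := by
        unfold W
        rw [Submodule.mem_pi, Submodule.mem_pi]
        refine forall₂_congr fun t _ => ?_
        have hne : ze D ^ ((t : ℕ) * 1) ≠ 0 := by
          refine pow_ne_zero _ ?_
          intro h0
          rw [h0, zero_pow (by omega)] at hzD
          exact zero_ne_one hzD
        unfold tw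
        rw [← Polynomial.smul_eq_C_mul, Submodule.smul_mem_iff _ hne]
      change (g ∈ W D j k 3 ∧ ∀ i : Fin D, Van (sh D j k g i) (PD (Ξ (z x)) (σ.symm i))) ↔
        (tw D 1 g ∈ W D j k 3 ∧ ∀ i : Fin D, Van (sh D j k (tw D 1 g) i) (PD (Ξ (z x)) i))
      refine and_congr hW ?_
      have hfe : ∀ i : Fin D, sh D j k (tw D 1 g) i = sh D j k g (σ i : ℕ) := by
        intro i
        funext s
        rw [sh_tw (by omega), hσ i, sh_mod (by omega)]
      constructor
      · intro hh i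
        have := hh (σ i)
        rw [Equiv.symm_apply_apply] at this
        rw [hfe i]
        exact this
      · intro hh i
        have := hh (σ.symm i)
        rw [hfe, Equiv.apply_symm_apply] at this
        exact this
  have hAs : ∀ᶠ x in 𝓝 x0, ∀ t : PJ D j k,
      AJ D j k (fun i => PD (Ξ (z x)) (σ.symm i)) t.1 = ze D ^ (t.1 : ℕ) * z x t := by
    filter_upwards [hAE] with x hx t
    rw [← hx t]
    unfold AJ
    rw [← Equiv.sum_comp σ, Finset.mul_sum]
    refine Finset.sum_congr rfl fun i _ => ?_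
    beta_reduce
    rw [Equiv.symm_apply_apply, ← mul_assoc, hσ i]
    congr 1
    have h3 : ze D ^ ((t.1 : ℕ) * (((i : ℕ) + 1) % D)) = ze D ^ ((t.1 : ℕ) * ((i : ℕ) + 1)) := by
      conv_rhs => rw [← Nat.mod_add_div ((i : ℕ) + 1) D]
      rw [mul_add, pow_add, show (t.1 : ℕ) * (D * (((i : ℕ) + 1) / D)) =
        D * ((t.1 : ℕ) * (((i : ℕ) + 1) / D)) by ring, pow_mul (ze D) D, hzD, one_pow, mul_one]
    rw [h3, mul_add, mul_one, pow_add, mul_comm]
  obtain ⟨e, he, hAe⟩ := Fam.step1 hD hj hk hjk hg hc (Or.inl rfl)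
    (fun i => by
      by_cases hi : (σ.symm i : ℕ) < genus D j k
      · rw [if_pos hi]
        have h4 := hσ (σ.symm i)
        rw [Equiv.apply_symm_apply, Nat.mod_eq_of_lt (by omega)] at h4
        unfold tA
        rw [if_pos (by omega)]
      · rw [if_neg hi]
        exact Nat.zero_le _) hEs
  obtain ⟨e', he', hAe'⟩ := Fam.step1 hD hj hk hjk hg hc (Or.inr rfl)
    (fun i => by
      unfold tA tB
      split_ifs <;> omega) he
  refine fam_back hD hj hk hjk hg hΞ he' ?_
  filter_upwards [hAs, hAe, hAe'] with x a1 a2 a3 t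
  rw [a3 t, a2 t, a1 t]
  ring

end Pool.Agent.WW
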