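import Pool.Agent.WW.JN

set_option autoImplicit false

namespace Pool.Agent.WW

open MvPolynomial Metric Filter Topology

variable {D j k : ℕ}

/-- (JP1) a polynomial in the automorphism which kills the non-primitive part -/
theorem exists_psi (hD : 3 ≤ D) : ∃ Ψ : Polynomial ℤ, ∀ t : ℕ,
    (Nat.Coprime t D → Polynomial.aeval (ze D ^ t) Ψ ≠ 0) ∧
    (¬ Nat.Coprime t D → Polynomial.aeval (ze D ^ t) Ψ = 0) := by
  have hD0 : D ≠ 0 := by omega
  have hz : IsPrimitiveRoot (ze D) D := Complex.isPrimitiveRoot_exp D hD0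
  refine ⟨∏ d ∈ Nat.properDivisors D, Polynomial.cyclotomic d ℤ, fun t => ⟨fun ht => ?_,
    fun ht => ?_⟩⟩
  · rw [map_prod, Finset.prod_ne_zero_iff]
    intro d hd h0
    have hd1 := Nat.mem_properDivisors.1 hd
    have h1 : IsPrimitiveRoot (ze D ^ t) D := hz.pow_of_coprime t ht
    rw [Polynomial.aeval_def, Polynomial.eval₂_eq_eval_map, Polynomial.map_cyclotomic] at h0
    have hdpos : 0 < d := Nat.pos_of_dvd_of_pos hd1.1 (by omega)
    have : NeZero (d : ℂ) := ⟨by exact_mod_cast hdpos.ne'⟩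
    have h2 : IsPrimitiveRoot (ze D ^ t) d := Polynomial.isRoot_cyclotomic_iff.1 h0
    have h3 := h1.unique h2
    omega
  · have hdvd : orderOf (ze D ^ t) ∣ D := by
      apply orderOf_dvd_of_pow_eq_one
      rw [← pow_mul, mul_comm, pow_mul, hz.pow_eq_one, one_pow]
    have hne : orderOf (ze D ^ t) ≠ D := by
      intro h
      apply ht
      have h1 : IsPrimitiveRoot (ze D ^ t) D := by
        have := IsPrimitiveRoot.orderOf (ze D ^ t)
        rwa [h] at this
      exact (hz.pow_iff_coprime (by omega) t).1 h1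
    have hpos : 0 < orderOf (ze D ^ t) := Nat.pos_of_dvd_of_pos hdvd (by omega)
    have hmem : orderOf (ze D ^ t) ∈ Nat.properDivisors D :=
      Nat.mem_properDivisors.2 ⟨hdvd, lt_of_le_of_ne (Nat.le_of_dvd (by omega) hdvd) hne⟩
    rw [map_prod]
    apply Finset.prod_eq_zero hmem
    rw [Polynomial.aeval_def, Polynomial.eval₂_eq_eval_map, Polynomial.map_cyclotomic]
    exact (IsPrimitiveRoot.orderOf (ze D ^ t)).isRoot_cyclotomic hpos

namespace JPx

variable {X μ : Type} [TopologicalSpace X] {h : X → μ → ℂ} {x0 : X}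

/-- admissible families -/
def Adm (D j k : ℕ) (Ξ : (PJ D j k → ℂ) → (Fin (genus D j k) → ℂ)) (h : X → μ → ℂ) (x0 : X)
    (w : X → PJ D j k → ℂ) : Prop :=
  ContinuousAt w x0 ∧ w x0 = 0 ∧ RegFam h x0 fun x => UU D j k Ξ (w x)

variable {Ξ : (PJ D j k → ℂ) → (Fin (genus D j k) → ℂ)}

section clos

variable (hD : 3 ≤ D) (hj : 0 < j) (hk : 0 < k) (hjk : j + k < D)
    (hg : Nat.gcd (Nat.gcd j k) D = 1) (hΞ : ChartOK D j k Ξ) (hc : ContinuousAt h x0)

include hD hj hk hjk hg hΞ hc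

theorem adm_add {w w' : X → PJ D j k → ℂ} (hw : Adm D j k Ξ h x0 w) (hw' : Adm D j k Ξ h x0 w') :
    Adm D j k Ξ h x0 fun x t => w x t + w' x t := by
  refine ⟨hw.1.add hw'.1, ?_, ?_⟩
  · funext t
    show w x0 t + w' x0 t = 0
    rw [hw.2.1, hw'.2.1]
    simp
  · exact law_add hD hj hk hjk hg hΞ hc hw.1 hw.2.1 hw'.1 hw'.2.1 hw.2.2 hw'.2.2

theorem adm_neg {w : X → PJ D j k → ℂ} (hw : Adm D j k Ξ h x0 w) :
    Adm D j k Ξ h x0 fun x t => - w x t := by
  refine ⟨hw.1.neg, ?_, ?_⟩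
  · funext t
    show - w x0 t = 0
    rw [hw.2.1]
    simp
  · exact law_neg hD hj hk hjk hg hΞ hc hw.1 hw.2.1 hw.2.2

theorem adm_zero {w : X → PJ D j k → ℂ} (hw : Adm D j k Ξ h x0 w) :
    Adm D j k Ξ h x0 fun _ _ => 0 := by
  have := adm_add hD hj hk hjk hg hΞ hc hw (adm_neg hD hj hk hjk hg hΞ hc hw)
  simpa using this

theorem adm_zeta {w : X → PJ D j k → ℂ} (hw : Adm D j k Ξ h x0 w) (n : ℕ) :
    Adm D j k Ξ h x0 fun x t => (ze D ^ (t.1 : ℕ)) ^ n * w x t := by
  induction n with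
  | zero => simpa using hw
  | succ n ih =>
    have h1 : Adm D j k Ξ h x0 fun x t => ze D ^ (t.1 : ℕ) *
        ((ze D ^ (t.1 : ℕ)) ^ n * w x t) := by
      refine ⟨?_, ?_, law_zeta hD hj hk hjk hg hΞ hc ih.1 ih.2.1 ih.2.2⟩
      · rw [continuousAt_pi]
        intro t
        exact continuousAt_const.mul ((continuousAt_pi.1 ih.1) t)
      · funext t
        have := congrFun ih.2.1 t
        show ze D ^ (t.1 : ℕ) * ((ze D ^ (t.1 : ℕ)) ^ n * w x0 t) = 0
        simp only [Pi.zero_apply] at this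
        rw [this, mul_zero]
    refine cast ?_ h1
    congr 1
    funext x t
    ring

theorem adm_nat {w : X → PJ D j k → ℂ} (hw : Adm D j k Ξ h x0 w) (n : ℕ) :
    Adm D j k Ξ h x0 fun x t => (n : ℂ) * w x t := by
  induction n with
  | zero => simpa using adm_zero hD hj hk hjk hg hΞ hc hw
  | succ n ih =>
    have h1 := adm_add hD hj hk hjk hg hΞ hc ih hw
    refine cast ?_ h1
    congr 1
    funext x t
    push_cast
    ring

theorem adm_int {w : X → PJ D j k → ℂ} (hw : Adm D j k Ξ h x0 w) (n : ℤ) :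
    Adm D j k Ξ h x0 fun x t => (n : ℂ) * w x t := by
  obtain ⟨m, rfl | rfl⟩ := n.eq_nat_or_neg
  · simpa using adm_nat hD hj hk hjk hg hΞ hc hw m
  · have h1 := adm_neg hD hj hk hjk hg hΞ hc (adm_nat hD hj hk hjk hg hΞ hc hw m)
    refine cast ?_ h1
    congr 1
    funext x t
    push_cast
    ring

theorem adm_poly {w : X → PJ D j k → ℂ} (hw : Adm D j k Ξ h x0 w) (p : Polynomial ℤ) :
    Adm D j k Ξ h x0 fun x t => Polynomial.aeval (ze D ^ (t.1 : ℕ)) p * w x t := by
  induction p using Polynomial.induction_on' with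
  | add p q hp hq =>
    have h1 := adm_add hD hj hk hjk hg hΞ hc hp hq
    refine cast ?_ h1
    congr 1
    funext x t
    rw [map_add]
    ring
  | monomial n a =>
    have h1 := adm_int hD hj hk hjk hg hΞ hc (adm_zeta hD hj hk hjk hg hΞ hc hw n) a
    refine cast ?_ h1
    congr 1
    funext x t
    rw [Polynomial.aeval_monomial]
    simp
    ring

end clos

theorem ybr_pow' (D j k : ℕ) (hD : D ≠ 0) (s : ℂ) :
    ybr D j k s ^ D = (1 / 2 + s) ^ j * (1 / 2 - s) ^ k := by
  have hD' : (D : ℂ) ≠ 0 := Nat.cast_ne_zero.2 hD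
  unfold ybr
  rw [mul_pow, ← Complex.cpow_nat_mul, ← Complex.cpow_nat_mul, mul_div_cancel₀ _ hD',
    mul_div_cancel₀ _ hD', Complex.cpow_natCast, Complex.cpow_natCast]

theorem half_alg' : IsAlgebraic ℚ (1 / 2 : ℂ) := by
  have h1 : (1 / 2 : ℂ) = algebraMap ℚ ℂ (1 / 2) := by
    rw [eq_ratCast]
    norm_num
  rw [h1]
  exact isAlgebraic_algebraMap _

theorem ze_alg (hD : 3 ≤ D) (i : ℕ) : IsAlgebraic ℚ (ze D ^ i) := by
  have hz : IsPrimitiveRoot (ze D) D := Complex.isPrimitiveRoot_exp D (by omega)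
  have h1 : IsAlgebraic ℚ (ze D ^ D) := by rw [hz.pow_eq_one]; exact isAlgebraic_one
  exact (h1.of_pow (by omega)).pow i

theorem ybr_alg (hD : 3 ≤ D) : IsAlgebraic ℚ (ybr D j k 0) := by
  have h1 : IsAlgebraic ℚ (ybr D j k 0 ^ D) := by
    rw [ybr_pow' D j k (by omega)]
    simp only [add_zero, sub_zero]
    exact (half_alg'.pow _).mul (half_alg'.pow _)
  exact h1.of_pow (by omega)

theorem ybr_ana : AnalyticAt ℂ (ybr D j k) 0 := by
  unfold ybr
  have h1 : (1 / 2 + (0 : ℂ)) ∈ Complex.slitPlane := by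
    simp [Complex.slitPlane]
  have h2 : (1 / 2 - (0 : ℂ)) ∈ Complex.slitPlane := by
    simp [Complex.slitPlane]
  exact ((analyticAt_const.add analyticAt_id).cpow analyticAt_const h1).mul
    ((analyticAt_const.sub analyticAt_id).cpow analyticAt_const h2)

/-- the generators composed with an analytic map -/
theorem gens_ana {E : Type} [NormedAddCommGroup E] [NormedSpace ℂ E] {n : ℕ} {u : E → Fin n → ℂ}
    {y0 : E} (hu : AnalyticAt ℂ u y0) (h0 : u y0 = 0) (a : Fin n ⊕ Fin n) :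
    AnalyticAt ℂ (fun y => gens D j k n (u y) a) y0 := by
  have hi : ∀ i, AnalyticAt ℂ (fun y => u y i) y0 := fun i =>
    (analyticAt_pi_iff.1 hu) i
  rcases a with i | i
  · exact analyticAt_const.add (hi i)
  · refine analyticAt_const.mul ?_
    refine AnalyticAt.fun_comp ?_ (hi i)
    rw [h0]
    exact ybr_ana

theorem UU_le (Ξ : (PJ D j k → ℂ) → (Fin (genus D j k) → ℂ)) (z : PJ D j k → ℂ) :
    UU D j k Ξ z ≤ W D j k 3 := fun _ hg => hg.1

theorem WE_le (E : Dv D) : WE D j k 3 E ≤ W D j k 3 := fun _ hg => hg.1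

/-- extension by zero -/
def xt (m g : ℕ) (ξ : Fin m → ℂ) (i : Fin g) : ℂ := if h : (i : ℕ) < m then ξ ⟨i, h⟩ else 0

theorem xt_cont (m g : ℕ) : Continuous (xt m g) := by
  rw [continuous_pi_iff]
  intro i
  unfold xt
  split_ifs with h
  · exact continuous_apply _
  · exact continuous_const

theorem xt_zero (m g : ℕ) : xt m g 0 = 0 := by
  funext i
  unfold xt
  split_ifs <;> rfl

theorem sum_xt {m g : ℕ} (hmg : m ≤ g) (c : ℕ → ℂ) (F : ℂ → ℂ) (hF : F 0 = 0) (ξ : Fin m → ℂ) :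
    ∑ i : Fin g, c i * F (xt m g ξ i) = ∑ i : Fin m, c i * F (ξ i) := by
  obtain ⟨G, hG⟩ : ∃ G : ℕ → ℂ, ∀ i, G i = if h : i < m then c i * F (ξ ⟨i, h⟩) else 0 :=
    ⟨_, fun _ => rfl⟩
  have h1 : ∑ i : Fin g, c i * F (xt m g ξ i) = ∑ i : Fin g, G i := by
    apply Finset.sum_congr rfl
    intro i _
    rw [hG]
    unfold xt
    split_ifs with h
    · rfl
    · rw [hF, mul_zero]
  have h2 : ∑ i : Fin m, c i * F (ξ i) = ∑ i : Fin m, G i := by
    apply Finset.sum_congr rfl
    intro i _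
    rw [hG, dif_pos i.2]
  rw [h1, h2, Fin.sum_univ_eq_sum_range, Fin.sum_univ_eq_sum_range]
  symm
  apply Finset.sum_subset (Finset.range_mono hmg)
  intro i _ hi
  rw [Finset.mem_range] at hi
  rw [hG, dif_neg hi]

/-- the embedding of the primitive part -/
noncomputable def io (D j k : ℕ) (Ψ : Polynomial ℤ) : (Ph D j k → ℂ) →ₗ[ℂ] (PJ D j k → ℂ) where
  toFun z t := if h : Nat.Coprime (t.1 : ℕ) D then
    Polynomial.aeval (ze D ^ (t.1 : ℕ)) Ψ * z ⟨t.1, h, t.2.2.2⟩ else 0
  map_add' z w := by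
    funext t
    simp only [Pi.add_apply]
    split_ifs
    · ring
    · simp
  map_smul' c z := by
    funext t
    simp only [Pi.smul_apply, smul_eq_mul, RingHom.id_apply]
    split_ifs
    · ring
    · simp

theorem io_inj (hj : 0 < j) (hk : 0 < k) (hjk : j + k < D) {Ψ : Polynomial ℤ}
    (hΨ : ∀ t : ℕ, Nat.Coprime t D → Polynomial.aeval (ze D ^ t) Ψ ≠ 0)
    {z : Ph D j k → ℂ} (hz : io D j k Ψ z = 0) : z = 0 := by
  funext t
  have hpos : ∀ a, 0 < a → a < D → 0 < (t.1 : ℕ) * a % D := by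
    intro a ha haD
    rw [Nat.pos_iff_ne_zero]
    intro h0
    have h1 : D ∣ (t.1 : ℕ) * a := Nat.dvd_of_mod_eq_zero h0
    have h2 : D ∣ a := (Nat.Coprime.symm t.2.1).dvd_of_dvd_mul_left h1
    have := Nat.le_of_dvd ha h2
    omega
  have h1 := congrFun hz ⟨t.1, hpos j hj (by omega), hpos k hk (by omega), t.2.2⟩
  simp only [io, LinearMap.coe_mk, AddHom.coe_mk, Pi.zero_apply] at h1
  rw [dif_pos t.2.1] at h1
  rcases mul_eq_zero.1 h1 with h2 | h2
  · exact absurd h2 (hΨ _ t.2.1)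
  · exact h2

theorem io_cont (Ψ : Polynomial ℤ) : Continuous (io D j k Ψ) :=
  LinearMap.continuous_of_finiteDimensional _

end JPx

open JPx in
/-- (JP2) abelian functions of the primitive part -/
theorem prim (hD : 3 ≤ D) (hj : 0 < j) (hk : 0 < k) (hjk : j + k < D)
    (hg : Nat.gcd (Nat.gcd j k) D = 1) :
    ∃ (μ : Type) (_ : Fintype μ) (_ : DecidableEq μ) (h : (Ph D j k → ℂ) → μ → ℂ),
      (∀ a, AnalyticAt ℂ (fun z => h z a) 0) ∧
      (∀ a, RegF (gens D j k (Fintype.card (Ph D j k))) 0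
        fun ξ => h (zp D j k (Fintype.card (Ph D j k)) Subtype.val ξ) a) ∧
      (∀ a, RegF (fun x : (Ph D j k → ℂ) × (Ph D j k → ℂ) => Sum.elim (h x.1) (h x.2)) 0
        fun x => h (x.1 + x.2) a) ∧
      ∀ v : Ph D j k → ℂ, v ≠ 0 → ∃ a, fderiv ℂ (fun z => h z a) 0 v ≠ 0 := by
  classical
  obtain ⟨Ψ, hΨ⟩ := exists_psi hD
  obtain ⟨Ξ, hΞ⟩ := exists_chartOK (j := j) (k := k) hD
  obtain ⟨J, hJ⟩ := exists_good (D := D) (j := j) (k := k)
    (WE D j k 3 (PD (0 : Fin (genus D j k) → ℂ))) (WE_le _)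
  have hJU : Good J (UU D j k Ξ 0) := by
    unfold UU
    rw [hΞ.zero]
    exact hJ
  have hιc : Continuous (io D j k Ψ) := io_cont Ψ
  have hι0 : io D j k Ψ 0 = 0 := map_zero _
  -- the map `z ↦ Ξ (ι z)`
  have hΞι : AnalyticAt ℂ (fun z => Ξ (io D j k Ψ z)) 0 := by
    refine AnalyticAt.fun_comp ?_ ?_
    · rw [hι0]; exact hΞ.ana
    · exact (LinearMap.toContinuousLinearMap (io D j k Ψ)).analyticAt 0
  have hΞι0 : Ξ (io D j k Ψ 0) = 0 := by rw [hι0, hΞ.zero]
  -- family over the points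
  have hreg0 : RegFam (fun z => gens D j k (genus D j k) (Ξ (io D j k Ψ z))) 0
      (fun z => UU D j k Ξ (io D j k Ψ z)) :=
    RegFam.pull (fun z => Ξ (io D j k Ψ z)) hΞι.continuousAt hΞι0
      (regFam_PD hD hj hk hjk hg)
  have hgc : ContinuousAt (fun z => gens D j k (genus D j k) (Ξ (io D j k Ψ z))) 0 := by
    rw [continuousAt_pi]
    intro a
    exact (gens_ana hΞι hΞι0 a).continuousAt
  have hnorm0 := hreg0.norm hgc (fun _ => UU_le _ _) (J := J) (by rw [hι0]; exact hJU)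
  obtain ⟨hgood, hregnc⟩ := hnorm0
  have hana : ∀ q, AnalyticAt ℂ (fun z => nc J (UU D j k Ξ (io D j k Ψ z)) q) 0 :=
    fun q => (hregnc q).analyticAt (fun a => gens_ana hΞι hΞι0 a)
  refine ⟨J × (Fin D × Fin 4), inferInstance, inferInstance,
    fun z => nc J (UU D j k Ξ (io D j k Ψ z)), hana, ?_, ?_, ?_⟩
  · -- (ii)
    intro a
    set m := Fintype.card (Ph D j k) with hm
    have hmg : m ≤ genus D j k := card_Ph_le hD hj hk hjk
    have hgmc : ContinuousAt (gens D j k m) 0 := by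
      rw [continuousAt_pi]
      intro a
      exact (gens_ana (analyticAt_id (𝕜 := ℂ) (E := Fin m → ℂ) (z := 0)) rfl a).continuousAt
    obtain ⟨w, hw⟩ : ∃ w : (Fin m → ℂ) → PJ D j k → ℂ,
        ∀ ξ, w ξ = zp D j k (genus D j k) Subtype.val (xt m (genus D j k) ξ) :=
      ⟨_, fun _ => rfl⟩
    have hwt : ∀ ξ t, w ξ t = ∑ i : Fin m, ze D ^ ((t.1 : ℕ) * (i : ℕ)) * aint D j k t.1 (ξ i) := by
      intro ξ t
      rw [hw]
      unfold zp
      exact sum_xt hmg (fun i => ze D ^ ((t.1 : ℕ) * i)) (aint D j k t.1) (aint_zero _) ξ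
    have haintc : ∀ t, ContinuousAt (aint D j k t) 0 := fun t =>
      (aint_deriv t (by norm_num)).continuousAt
    have hwc : ContinuousAt w 0 := by
      rw [continuousAt_pi]
      intro t
      have h1 : (fun ξ => w ξ t) = fun ξ => ∑ i : Fin m, ze D ^ ((t.1 : ℕ) * (i : ℕ)) *
          aint D j k t.1 (ξ i) := by
        funext ξ
        exact hwt ξ t
      rw [h1]
      refine tendsto_finsetSum _ fun i _ => ?_
      refine tendsto_const_nhds.mul ?_
      exact ContinuousAt.comp (f := fun ξ : Fin m → ℂ => ξ i) (x := (0 : Fin m → ℂ))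
        (by simpa using haintc t.1) (continuous_apply i).continuousAt
    have hw0 : w 0 = 0 := by
      funext t
      rw [hwt]
      simp [aint_zero]
    have hadm : Adm D j k Ξ (gens D j k m) 0 w := by
      refine ⟨hwc, hw0, ?_⟩
      have h1 : RegFam (fun ξ => gens D j k (genus D j k) (xt m (genus D j k) ξ)) 0
          (fun ξ => WE D j k 3 (PD (xt m (genus D j k) ξ))) :=
        RegFam.pull (xt m (genus D j k)) (xt_cont _ _).continuousAt (xt_zero _ _)
          (regFam_PD hD hj hk hjk hg)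
      have h2 : RegFam (gens D j k m) 0
          (fun ξ => WE D j k 3 (PD (xt m (genus D j k) ξ))) := by
        refine RegFam.comp hgmc ?_ h1
        rintro (i | i)
        · by_cases hi : (i : ℕ) < m
          · refine (RegF.gen (h := gens D j k m) (x0 := 0) (Sum.inl ⟨i, hi⟩)).congr ?_
            refine Eventually.of_forall fun ξ => ?_
            simp [gens, xt, hi]
          · refine (RegF.const (c := 1 / 2) half_alg').congr ?_
            refine Eventually.of_forall fun ξ => ?_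
            simp [gens, xt, hi]
        · by_cases hi : (i : ℕ) < m
          · refine (RegF.gen (h := gens D j k m) (x0 := 0) (Sum.inr ⟨i, hi⟩)).congr ?_
            refine Eventually.of_forall fun ξ => ?_
            simp [gens, xt, hi]
          · refine (RegF.const (c := ze D ^ (i : ℕ) * ybr D j k 0)
              ((ze_alg hD _).mul (ybr_alg hD))).congr ?_
            refine Eventually.of_forall fun ξ => ?_
            simp [gens, xt, hi]
      refine h2.congr ?_
      have h3 : Tendsto (xt m (genus D j k)) (𝓝 0) (𝓝 0) := by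
        have := (xt_cont m (genus D j k)).tendsto 0
        rwa [xt_zero] at this
      filter_upwards [h3.eventually hΞ.left] with ξ hξ
      unfold UU
      rw [hw, hξ]
    have hadm2 := adm_poly hD hj hk hjk hg hΞ hgmc hadm Ψ
    have heq : ∀ ξ, io D j k Ψ (zp D j k m Subtype.val ξ) =
        fun t => Polynomial.aeval (ze D ^ (t.1 : ℕ)) Ψ * w ξ t := by
      intro ξ
      funext t
      simp only [io, LinearMap.coe_mk, AddHom.coe_mk]
      split_ifs with h
      · rw [hwt]
        rfl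
      · rw [(hΨ _).2 h, zero_mul]
    have h5 := hadm2.2.2.norm hgmc (fun _ => UU_le _ _) (J := J) (by
      have := hadm2.2.1
      rw [this]; exact hJU)
    refine (h5.2 a).congr ?_
    refine Eventually.of_forall fun ξ => ?_
    show _ = nc J (UU D j k Ξ (io D j k Ψ (zp D j k m Subtype.val ξ))) a
    rw [heq]
  · -- (iii)
    intro a
    set h : (Ph D j k → ℂ) → J × (Fin D × Fin 4) → ℂ :=
      fun z => nc J (UU D j k Ξ (io D j k Ψ z)) with hh
    have hhc : ContinuousAt h 0 := by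
      rw [continuousAt_pi]
      exact fun q => (hana q).continuousAt
    have hcc : ContinuousAt (fun x : (Ph D j k → ℂ) × (Ph D j k → ℂ) =>
        Sum.elim (h x.1) (h x.2)) 0 := by
      rw [continuousAt_pi]
      rintro (q | q)
      · exact ContinuousAt.comp (f := Prod.fst) (x := (0 : (Ph D j k → ℂ) × (Ph D j k → ℂ)))
          (g := fun z => h z q) ((continuousAt_pi.1 hhc) q) continuousAt_fst
      · exact ContinuousAt.comp (f := Prod.snd) (x := (0 : (Ph D j k → ℂ) × (Ph D j k → ℂ)))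
          (g := fun z => h z q) ((continuousAt_pi.1 hhc) q) continuousAt_snd
    have hfst : Tendsto (Prod.fst : (Ph D j k → ℂ) × (Ph D j k → ℂ) → (Ph D j k → ℂ))
        (𝓝 0) (𝓝 0) := continuous_fst.tendsto 0
    have hsnd : Tendsto (Prod.snd : (Ph D j k → ℂ) × (Ph D j k → ℂ) → (Ph D j k → ℂ))
        (𝓝 0) (𝓝 0) := continuous_snd.tendsto 0
    have hr1 : RegFam (fun x : (Ph D j k → ℂ) × (Ph D j k → ℂ) => Sum.elim (h x.1) (h x.2)) 0
        (fun x => UU D j k Ξ (io D j k Ψ x.1)) := by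
      have h1 := regFam_nc (x0 := (0 : (Ph D j k → ℂ) × (Ph D j k → ℂ)))
        (U := fun x => UU D j k Ξ (io D j k Ψ x.1)) (fun _ => UU_le _ _) (J := J)
        (hfst.eventually hgood)
      refine RegFam.comp hcc ?_ h1
      intro b
      exact RegF.gen (h := fun x : (Ph D j k → ℂ) × (Ph D j k → ℂ) => Sum.elim (h x.1) (h x.2))
        (x0 := 0) (Sum.inl b)
    have hr2 : RegFam (fun x : (Ph D j k → ℂ) × (Ph D j k → ℂ) => Sum.elim (h x.1) (h x.2)) 0
        (fun x => UU D j k Ξ (io D j k Ψ x.2)) := by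
      have h1 := regFam_nc (x0 := (0 : (Ph D j k → ℂ) × (Ph D j k → ℂ)))
        (U := fun x => UU D j k Ξ (io D j k Ψ x.2)) (fun _ => UU_le _ _) (J := J)
        (hsnd.eventually hgood)
      refine RegFam.comp hcc ?_ h1
      intro b
      exact RegF.gen (h := fun x : (Ph D j k → ℂ) × (Ph D j k → ℂ) => Sum.elim (h x.1) (h x.2))
        (x0 := 0) (Sum.inr b)
    have hc1 : ContinuousAt (fun x : (Ph D j k → ℂ) × (Ph D j k → ℂ) => io D j k Ψ x.1) 0 :=
      (hιc.comp continuous_fst).continuousAt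
    have hc2 : ContinuousAt (fun x : (Ph D j k → ℂ) × (Ph D j k → ℂ) => io D j k Ψ x.2) 0 :=
      (hιc.comp continuous_snd).continuousAt
    have h3 := law_add hD hj hk hjk hg hΞ hcc hc1 hι0 hc2 hι0 hr1 hr2
    have h4 := h3.norm hcc (fun _ => UU_le _ _) (J := J) (by
      show Good J (UU D j k Ξ (io D j k Ψ 0 + io D j k Ψ 0))
      rw [hι0, add_zero]; exact hJU)
    refine (h4.2 a).congr ?_
    refine Eventually.of_forall fun x => ?_
    show _ = nc J (UU D j k Ξ (io D j k Ψ (x.1 + x.2))) a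
    rw [map_add]
  · -- (iv)
    intro v hv
    have hιv : io D j k Ψ v ≠ 0 := fun h0 =>
      hv (io_inj hj hk hjk (fun t ht => (hΨ t).1 ht) h0)
    have hzpd : DifferentiableAt ℂ (zp D j k (genus D j k) (Subtype.val : PJ D j k → Fin D)) 0 := by
      rw [differentiableAt_pi]
      intro t
      unfold zp
      refine DifferentiableAt.fun_sum fun i _ => ?_
      refine DifferentiableAt.const_mul ?_ _
      have h1 : DifferentiableAt ℂ (aint D j k t.1) ((fun ξ : Fin (genus D j k) → ℂ => ξ i) 0) :=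
        (aint_deriv t.1 (by simp)).differentiableAt
      exact DifferentiableAt.comp (g := aint D j k t.1)
        (f := fun ξ : Fin (genus D j k) → ℂ => ξ i) 0 h1
        (ContinuousLinearMap.proj (R := ℂ) (φ := fun _ : Fin (genus D j k) => ℂ) i).differentiableAt
    have hΞd : DifferentiableAt ℂ Ξ 0 := hΞ.ana.differentiableAt
    have hu : fderiv ℂ Ξ 0 (io D j k Ψ v) ≠ 0 := by
      intro h0
      have h1 : fderiv ℂ (fun z => zp D j k (genus D j k) Subtype.val (Ξ z)) 0 =
          ContinuousLinearMap.id ℂ (PJ D j k → ℂ) := by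
        have h2 : (fun z => zp D j k (genus D j k) Subtype.val (Ξ z)) =ᶠ[𝓝 0] id := hΞ.right
        rw [h2.fderiv_eq, fderiv_id]
      have h3 : fderiv ℂ (fun z => zp D j k (genus D j k) Subtype.val (Ξ z)) 0 =
          (fderiv ℂ (zp D j k (genus D j k) (Subtype.val : PJ D j k → Fin D)) (Ξ 0)).comp
            (fderiv ℂ Ξ 0) := by
        apply fderiv_fun_comp (0 : PJ D j k → ℂ)
        · rw [hΞ.zero]; exact hzpd
        · exact hΞd
      rw [h1] at h3
      have h4 := congrArg (fun L => L (io D j k Ψ v)) h3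
      simp only [ContinuousLinearMap.id_apply, ContinuousLinearMap.comp_apply] at h4
      rw [h0, map_zero] at h4
      exact hιv h4
    obtain ⟨q, hq1, hq2⟩ := imm_PD hD hj hk hjk hg hJ _ hu
    refine ⟨q, ?_⟩
    have h5 : HasFDerivAt (fun z => Ξ (io D j k Ψ z))
        ((fderiv ℂ Ξ 0).comp (LinearMap.toContinuousLinearMap (io D j k Ψ))) 0 := by
      have h6 : HasFDerivAt Ξ (fderiv ℂ Ξ 0) (LinearMap.toContinuousLinearMap (io D j k Ψ) 0) := by
        rw [map_zero]; exact hΞd.hasFDerivAt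
      exact h6.comp (0 : Ph D j k → ℂ)
        (LinearMap.toContinuousLinearMap (io D j k Ψ)).hasFDerivAt
    have h7 : HasFDerivAt (fun ξ : Fin (genus D j k) → ℂ => nc J (WE D j k 3 (PD ξ)) q)
        (fderiv ℂ (fun ξ : Fin (genus D j k) → ℂ => nc J (WE D j k 3 (PD ξ)) q) 0)
        (Ξ (io D j k Ψ 0)) := by
      rw [hΞι0]; exact hq1.hasFDerivAt
    have h8 := h7.comp (0 : Ph D j k → ℂ) h5
    have h9 : fderiv ℂ (fun z => nc J (UU D j k Ξ (io D j k Ψ z)) q) 0 v =
        fderiv ℂ (fun ξ : Fin (genus D j k) → ℂ => nc J (WE D j k 3 (PD ξ)) q) 0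
          (fderiv ℂ Ξ 0 (io D j k Ψ v)) := by
      have h10 : HasFDerivAt (fun z => nc J (UU D j k Ξ (io D j k Ψ z)) q)
        ((fderiv ℂ (fun ξ : Fin (genus D j k) → ℂ => nc J (WE D j k 3 (PD ξ)) q) 0).comp
          ((fderiv ℂ Ξ 0).comp (LinearMap.toContinuousLinearMap (io D j k Ψ)))) 0 := h8
      rw [h10.fderiv]
      rfl
    rw [h9]
    exact hq2

end Pool.Agent.WW
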