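import Mathlib

set_option autoImplicit false

namespace Pool.Agent.WW

open MvPolynomial Metric Filter Topology

namespace JQ

variable {μ : Type} [Fintype μ]

/-- homogenised evaluation -/
noncomputable def hev (d : ℕ) (q : MvPolynomial μ ℂ) (x0 : ℂ) (x : μ → ℂ) : ℂ :=
  ∑ m ∈ q.support, q.coeff m * x0 ^ (d - ∑ i, m i) * ∏ i, x i ^ m i

/-- the sum of the absolute values of the coefficients -/
noncomputable def nm (q : MvPolynomial μ ℂ) : ℝ := ∑ m ∈ q.support, ‖q.coeff m‖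

omit [Fintype μ] in
theorem nm_nonneg (q : MvPolynomial μ ℂ) : 0 ≤ nm q :=
  Finset.sum_nonneg fun _ _ => norm_nonneg _

theorem deg_le {d : ℕ} {q : MvPolynomial μ ℂ} (hd : q.totalDegree ≤ d) {m : μ →₀ ℕ}
    (hm : m ∈ q.support) : ∑ i, m i ≤ d := by
  have h := MvPolynomial.le_totalDegree hm
  rw [Finsupp.sum_fintype _ _ (fun _ => rfl)] at h
  exact h.trans hd

theorem hev_mul {d : ℕ} {q : MvPolynomial μ ℂ} (hd : q.totalDegree ≤ d) (x0 : ℂ) (y : μ → ℂ) :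
    hev d q x0 (fun a => y a * x0) = x0 ^ d * eval y q := by
  rw [MvPolynomial.eval_eq', hev, Finset.mul_sum]
  refine Finset.sum_congr rfl fun m hm => ?_
  have h1 : (∏ i, (y i * x0) ^ m i) = (∏ i, y i ^ m i) * x0 ^ (∑ i, m i) := by
    simp only [mul_pow]
    rw [Finset.prod_mul_distrib, Finset.prod_pow_eq_pow_sum]
  rw [h1]
  have h2 : x0 ^ d = x0 ^ (d - ∑ i, m i) * x0 ^ (∑ i, m i) := by
    rw [← pow_add, Nat.sub_add_cancel (deg_le hd hm)]
  rw [h2]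
  ring

theorem hev_le {d : ℕ} {q : MvPolynomial μ ℂ} (hd : q.totalDegree ≤ d) (x0 : ℂ) (x : μ → ℂ)
    {R : ℝ} (hR : 0 ≤ R) (h0 : ‖x0‖ ≤ R) (h1 : ∀ i, ‖x i‖ ≤ R) :
    ‖hev d q x0 x‖ ≤ nm q * R ^ d := by
  rw [hev, nm, Finset.sum_mul]
  refine (norm_sum_le _ _).trans (Finset.sum_le_sum fun m hm => ?_)
  rw [norm_mul, norm_mul, norm_pow, mul_assoc]
  refine mul_le_mul_of_nonneg_left ?_ (norm_nonneg _)
  have h2 : ‖∏ i, x i ^ m i‖ ≤ R ^ (∑ i, m i) := by
    rw [norm_prod, ← Finset.prod_pow_eq_pow_sum]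
    refine Finset.prod_le_prod (fun i _ => norm_nonneg _) fun i _ => ?_
    rw [norm_pow]
    exact pow_le_pow_left₀ (norm_nonneg _) (h1 i) _
  have h3 : ‖x0‖ ^ (d - ∑ i, m i) ≤ R ^ (d - ∑ i, m i) :=
    pow_le_pow_left₀ (norm_nonneg _) h0 _
  calc ‖x0‖ ^ (d - ∑ i, m i) * ‖∏ i, x i ^ m i‖ ≤ R ^ (d - ∑ i, m i) * R ^ (∑ i, m i) :=
        mul_le_mul h3 h2 (norm_nonneg _) (pow_nonneg hR _)
    _ = R ^ d := by rw [← pow_add, Nat.sub_add_cancel (deg_le hd hm)]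

theorem hev_diff {E : Type} [NormedAddCommGroup E] [NormedSpace ℂ E] (d : ℕ)
    (q : MvPolynomial μ ℂ) {s : Set E} {f : E → ℂ} {g : μ → E → ℂ} (hf : DifferentiableOn ℂ f s)
    (hg : ∀ a, DifferentiableOn ℂ (g a) s) :
    DifferentiableOn ℂ (fun z => hev d q (f z) (fun a => g a z)) s := by
  simp only [hev]
  refine DifferentiableOn.fun_sum fun m _ => ?_
  refine ((hf.pow _).const_mul _).mul ?_
  have key : ∀ t : Finset μ, DifferentiableOn ℂ (fun z => ∏ i ∈ t, g i z ^ m i) s := by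
    intro t
    classical
    induction t using Finset.induction_on with
    | empty => simp
    | insert a t ha ih =>
      have e : (fun z => ∏ i ∈ insert a t, g i z ^ m i) =
          fun z => g a z ^ m a * ∏ i ∈ t, g i z ^ m i := funext fun z => Finset.prod_insert ha
      rw [e]
      exact ((hg a).fun_pow _).fun_mul ih
  exact key _

/-- the sequence of numerators and denominators -/
noncomputable def GG {ι : Type} (d : ℕ) (h : (ι → ℂ) → μ → ℂ) (q : MvPolynomial μ ℂ)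
    (p : μ → MvPolynomial μ ℂ) : ℕ → (ι → ℂ) → ℂ × (μ → ℂ)
  | 0 => fun z => (1, h z)
  | n + 1 => fun z =>
      (hev d q (GG d h q p n ((1 / 2 : ℂ) • z)).1 (GG d h q p n ((1 / 2 : ℂ) • z)).2,
        fun a => hev d (p a) (GG d h q p n ((1 / 2 : ℂ) • z)).1 (GG d h q p n ((1 / 2 : ℂ) • z)).2)

theorem half_mem {ι : Type} [Fintype ι] {R : ℝ} {z : ι → ℂ} (hz : z ∈ ball (0 : ι → ℂ) (2 * R)) :
    (1 / 2 : ℂ) • z ∈ ball (0 : ι → ℂ) R := by
  rw [mem_ball_zero_iff] at hz ⊢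
  rw [norm_smul]
  have : ‖(1 / 2 : ℂ)‖ = 1 / 2 := by norm_num
  rw [this]
  linarith

end JQ

open JQ

/-- (JQ) meromorphic continuation by duplication -/
theorem continuation {ι μ : Type} [Fintype ι] [Fintype μ] (r : ℝ) (hr : 0 < r)
    (h : (ι → ℂ) → μ → ℂ) (hh : ∀ a, DifferentiableOn ℂ (fun z => h z a) (ball 0 r)) (C : ℝ)
    (hC : ∀ z ∈ ball (0 : ι → ℂ) r, ∀ a, ‖h z a‖ ≤ C) (q : MvPolynomial μ ℂ)
    (p : μ → MvPolynomial μ ℂ) (η : ℝ) (hη : 0 < η)
    (hq : ∀ z ∈ ball (0 : ι → ℂ) (r / 2), η ≤ ‖eval (h z) q‖)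
    (hd : ∀ z ∈ ball (0 : ι → ℂ) (r / 2), ∀ a,
      h ((2 : ℂ) • z) a * eval (h z) q = eval (h z) (p a)) :
    ∃ (B Cg : ℝ) (G0 : ℕ → (ι → ℂ) → ℂ) (G : ℕ → μ → (ι → ℂ) → ℂ), 1 ≤ B ∧ 0 ≤ Cg ∧
      (∀ n, DifferentiableOn ℂ (G0 n) (ball 0 (2 ^ n * r))) ∧
      (∀ n a, DifferentiableOn ℂ (G n a) (ball 0 (2 ^ n * r))) ∧
      (∀ n, ∀ z ∈ ball (0 : ι → ℂ) (2 ^ n * r), ‖G0 n z‖ ≤ Real.exp (Cg * B ^ n)) ∧
      (∀ n a, ∀ z ∈ ball (0 : ι → ℂ) (2 ^ n * r), ‖G n a z‖ ≤ Real.exp (Cg * B ^ n)) ∧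
      (∀ n, ∀ z ∈ ball (0 : ι → ℂ) r, Real.exp (-(Cg * B ^ n)) ≤ ‖G0 n z‖) ∧
      (∀ n a, ∀ z ∈ ball (0 : ι → ℂ) r, G n a z = h z a * G0 n z) := by
  obtain ⟨d, hdq, hdp⟩ : ∃ d : ℕ, q.totalDegree ≤ d ∧ ∀ a, (p a).totalDegree ≤ d :=
    ⟨q.totalDegree + ∑ a, (p a).totalDegree, by omega, fun a =>
      (Finset.single_le_sum (f := fun a => (p a).totalDegree) (fun _ _ => Nat.zero_le _)
        (Finset.mem_univ a)).trans (by omega)⟩
  obtain ⟨Cg, hCg0, hCgC, hCgq, hCgp, hCgη⟩ : ∃ Cg : ℝ, 0 ≤ Cg ∧ C ≤ Real.exp Cg ∧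
      nm q ≤ Real.exp Cg ∧ (∀ a, nm (p a) ≤ Real.exp Cg) ∧ Real.exp (-Cg) ≤ η := by
    have hP : 0 ≤ ∑ a, nm (p a) := Finset.sum_nonneg fun a _ => nm_nonneg _
    have hQ := nm_nonneg q
    have hA := abs_nonneg C
    have hL := abs_nonneg (Real.log η)
    have key : ∀ x : ℝ, x ≤ |C| + nm q + ∑ a, nm (p a) + |Real.log η| →
        x ≤ Real.exp (|C| + nm q + ∑ a, nm (p a) + |Real.log η|) := fun x hx => by
      have := Real.add_one_le_exp (|C| + nm q + ∑ a, nm (p a) + |Real.log η|)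
      linarith
    refine ⟨|C| + nm q + ∑ a, nm (p a) + |Real.log η|, by linarith,
      key _ (by linarith [le_abs_self C]), key _ (by linarith), fun a => key _ ?_, ?_⟩
    · have := Finset.single_le_sum (f := fun a => nm (p a)) (fun _ _ => nm_nonneg _)
        (Finset.mem_univ a)
      linarith
    · rw [← Real.le_log_iff_exp_le hη]
      have := neg_abs_le (Real.log η)
      linarith
  have hstep : ∀ n, (2 : ℝ) ^ (n + 1) * r = 2 * (2 ^ n * r) := fun n => by ring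
  have hB1 : (1 : ℝ) ≤ (d : ℝ) + 1 := by
    have : (0 : ℝ) ≤ d := Nat.cast_nonneg d
    linarith
  have hpow : ∀ n, Cg ≤ Cg * ((d : ℝ) + 1) ^ n := fun n =>
    le_mul_of_one_le_right hCg0 (one_le_pow₀ hB1)
  -- differentiability
  have hdiff : ∀ n, DifferentiableOn ℂ (fun z => (GG d h q p n z).1) (ball 0 (2 ^ n * r)) ∧
      ∀ a, DifferentiableOn ℂ (fun z => (GG d h q p n z).2 a) (ball 0 (2 ^ n * r)) := by
    intro n
    induction n with
    | zero =>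
      refine ⟨differentiableOn_const _, fun a => ?_⟩
      simpa [GG] using hh a
    | succ n ih =>
      have hm : Set.MapsTo (fun z : ι → ℂ => (1 / 2 : ℂ) • z) (ball 0 (2 ^ (n + 1) * r))
          (ball 0 (2 ^ n * r)) := fun z hz => half_mem (by rwa [hstep] at hz)
      have hs : DifferentiableOn ℂ (fun z : ι → ℂ => (1 / 2 : ℂ) • z)
          (ball 0 (2 ^ (n + 1) * r)) := ((differentiable_id (𝕜 := ℂ) (E := ι → ℂ)).fun_const_smul (1 / 2 : ℂ)).differentiableOn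
      have h1 := ih.1.comp hs hm
      have h2 := fun a => (ih.2 a).comp hs hm
      exact ⟨hev_diff d q h1 h2, fun a => hev_diff d (p a) h1 h2⟩
  -- upper bounds
  have hup : ∀ n, ∀ z ∈ ball (0 : ι → ℂ) (2 ^ n * r),
      ‖(GG d h q p n z).1‖ ≤ Real.exp (Cg * ((d : ℝ) + 1) ^ n) ∧
      ∀ a, ‖(GG d h q p n z).2 a‖ ≤ Real.exp (Cg * ((d : ℝ) + 1) ^ n) := by
    intro n
    induction n with
    | zero =>
      intro z hz
      simp only [pow_zero, mul_one, one_mul] at hz ⊢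
      refine ⟨?_, fun a => (hC z hz a).trans hCgC⟩
      simp only [GG, norm_one]
      exact Real.one_le_exp hCg0
    | succ n ih =>
      intro z hz
      obtain ⟨h1, h2⟩ := ih _ (half_mem (by rwa [hstep] at hz))
      have key : ∀ P : MvPolynomial μ ℂ, P.totalDegree ≤ d → nm P ≤ Real.exp Cg →
          ‖hev d P (GG d h q p n ((1 / 2 : ℂ) • z)).1 (GG d h q p n ((1 / 2 : ℂ) • z)).2‖ ≤
            Real.exp (Cg * ((d : ℝ) + 1) ^ (n + 1)) := by
        intro P hP hn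
        refine (hev_le hP _ _ (Real.exp_nonneg _) h1 h2).trans ?_
        refine (mul_le_mul_of_nonneg_right hn (pow_nonneg (Real.exp_nonneg _) _)).trans ?_
        rw [← Real.exp_nat_mul, ← Real.exp_add]
        refine Real.exp_le_exp.2 ?_
        have := hpow n
        have e : Cg * ((d : ℝ) + 1) ^ (n + 1) =
            (d : ℝ) * (Cg * ((d : ℝ) + 1) ^ n) + Cg * ((d : ℝ) + 1) ^ n := by ring
        linarith
      exact ⟨key q hdq hCgq, fun a => key (p a) (hdp a) (hCgp a)⟩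
  -- the equation
  have hzhalf : ∀ z ∈ ball (0 : ι → ℂ) r, (1 / 2 : ℂ) • z ∈ ball (0 : ι → ℂ) (r / 2) := by
    intro z hz
    exact half_mem (by rwa [show 2 * (r / 2) = r by ring])
  have hsub : ∀ z ∈ ball (0 : ι → ℂ) (r / 2), z ∈ ball (0 : ι → ℂ) r := fun z hz =>
    ball_subset_ball (by linarith) hz
  have heq : ∀ n, ∀ z ∈ ball (0 : ι → ℂ) r, ∀ a,
      (GG d h q p n z).2 a = h z a * (GG d h q p n z).1 := by
    intro n
    induction n with
    | zero => intro z _ a; simp [GG]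
    | succ n ih =>
      intro z hz a
      have hz2 := hzhalf z hz
      have e1 : (GG d h q p n ((1 / 2 : ℂ) • z)).2 =
          fun a => h ((1 / 2 : ℂ) • z) a * (GG d h q p n ((1 / 2 : ℂ) • z)).1 :=
        funext fun a => ih _ (hsub _ hz2) a
      simp only [GG]
      rw [e1, hev_mul (hdp a), hev_mul hdq, ← hd _ hz2 a]
      have e2 : (2 : ℂ) • ((1 / 2 : ℂ) • z) = z := by
        rw [smul_smul]; norm_num
      rw [e2]
      ring
  -- lower bounds
  have hlow : ∀ n, ∀ z ∈ ball (0 : ι → ℂ) r,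
      Real.exp (-(Cg * ((d : ℝ) + 1) ^ n)) ≤ ‖(GG d h q p n z).1‖ := by
    intro n
    induction n with
    | zero =>
      intro z _
      simp only [GG, norm_one, pow_zero, mul_one]
      rw [Real.exp_le_one_iff]
      linarith
    | succ n ih =>
      intro z hz
      have hz2 := hzhalf z hz
      have e1 : (GG d h q p n ((1 / 2 : ℂ) • z)).2 =
          fun a => h ((1 / 2 : ℂ) • z) a * (GG d h q p n ((1 / 2 : ℂ) • z)).1 :=
        funext fun a => heq n _ (hsub _ hz2) a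
      simp only [GG]
      rw [e1, hev_mul hdq, norm_mul, norm_pow]
      have h1 := ih _ (hsub _ hz2)
      have h2 : Real.exp (-(Cg * ((d : ℝ) + 1) ^ n)) ^ d * Real.exp (-Cg) ≤
          ‖(GG d h q p n ((1 / 2 : ℂ) • z)).1‖ ^ d * ‖eval (h ((1 / 2 : ℂ) • z)) q‖ :=
        mul_le_mul (pow_le_pow_left₀ (Real.exp_nonneg _) h1 _) (hCgη.trans (hq _ hz2))
          (Real.exp_nonneg _) (pow_nonneg (norm_nonneg _) _)
      refine le_trans ?_ h2
      rw [← Real.exp_nat_mul, ← Real.exp_add]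
      refine Real.exp_le_exp.2 ?_
      have := hpow n
      have e : Cg * ((d : ℝ) + 1) ^ (n + 1) =
          (d : ℝ) * (Cg * ((d : ℝ) + 1) ^ n) + Cg * ((d : ℝ) + 1) ^ n := by ring
      linarith
  exact ⟨(d : ℝ) + 1, Cg, fun n z => (GG d h q p n z).1, fun n a z => (GG d h q p n z).2 a, hB1,
    hCg0, fun n => (hdiff n).1, fun n a => (hdiff n).2 a, fun n z hz => (hup n z hz).1,
    fun n a z hz => (hup n z hz).2 a, hlow, fun n a z hz => heq n z hz a⟩

end Pool.Agent.WW
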