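import Pool.Agent.WW.PRing

set_option autoImplicit false

namespace Pool.Agent.WW

open MvPolynomial Metric

variable {π ι : Type} [Fintype π] [Fintype ι] [DecidableEq π] [DecidableEq ι] (P : Pkg π ι)

/-- (PA4) values of polynomials in the generators -/
theorem Pkg.aeval_gr (p : MvPolynomial (Gx π) ℂ) (z : P.Bl) :
    ((aeval P.gr p : P.Rg) : P.Bl → ℂ) z = eval (P.bv z) p := by
  have h : P.ev z (aeval P.gr p) = aeval (fun g => P.ev z (P.gr g)) p := by
    rw [← AlgHom.comp_apply, comp_aeval]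
  change P.ev z (aeval P.gr p) = _
  rw [h]
  rfl

namespace PA

/-- polynomials in differentiable functions -/
theorem dpoly {E τ : Type*} [NormedAddCommGroup E] [NormedSpace ℂ E] {s : Set E}
    (v : E → τ → ℂ) (h : ∀ t, DifferentiableOn ℂ (fun z => v z t) s) (p : MvPolynomial τ ℂ) :
    DifferentiableOn ℂ (fun z => eval (v z) p) s := by
  induction p using MvPolynomial.induction_on with
  | C a => simp only [eval_C]; exact differentiableOn_const _
  | add p q hp hq => simp only [map_add]; exact hp.add hq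
  | mul_X p i hp => simp only [map_mul, eval_X]; exact hp.mul (h i)

theorem ext_eq (f : P.Bl → ℂ) {z : ι → ℂ} (hz : z ∈ ball (0 : ι → ℂ) P.r) :
    P.ext f z = f ⟨z, hz⟩ := by
  unfold Pkg.ext
  rw [dif_pos hz]

theorem ext_ev {f : P.Bl → ℂ} {F : (ι → ℂ) → ℂ} (h : ∀ z : P.Bl, f z = F z) {z : ι → ℂ}
    (hz : z ∈ ball (0 : ι → ℂ) P.r) : P.ext f =ᶠ[nhds z] F := by
  filter_upwards [isOpen_ball.mem_nhds hz] with w hw
  rw [ext_eq P f hw, h]

theorem ext_don {f : P.Bl → ℂ} {F : (ι → ℂ) → ℂ} (h : ∀ z : P.Bl, f z = F z)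
    (hF : DifferentiableOn ℂ F (ball 0 P.r)) : DifferentiableOn ℂ (P.ext f) (ball 0 P.r) := by
  refine hF.congr fun z hz => ?_
  rw [ext_eq P f hz, h]

theorem ext_add (f g : P.Bl → ℂ) : P.ext (f + g) = P.ext f + P.ext g := by
  funext z
  unfold Pkg.ext
  by_cases hz : z ∈ ball (0 : ι → ℂ) P.r
  · simp only [Pi.add_apply, dif_pos hz]
  · simp only [Pi.add_apply, dif_neg hz, add_zero]

theorem ext_mul (f g : P.Bl → ℂ) : P.ext (f * g) = P.ext f * P.ext g := by
  funext z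
  unfold Pkg.ext
  by_cases hz : z ∈ ball (0 : ι → ℂ) P.r
  · simp only [Pi.mul_apply, dif_pos hz]
  · simp only [Pi.mul_apply, dif_neg hz, mul_zero]

theorem dat {f : P.Bl → ℂ} (hf : DifferentiableOn ℂ (P.ext f) (ball 0 P.r)) (z : P.Bl) :
    DifferentiableAt ℂ (P.ext f) (z : ι → ℂ) :=
  hf.differentiableAt (isOpen_ball.mem_nhds z.2)

theorem dext_add {f g : P.Bl → ℂ} (hf : DifferentiableOn ℂ (P.ext f) (ball 0 P.r))
    (hg : DifferentiableOn ℂ (P.ext g) (ball 0 P.r)) (z : P.Bl) :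
    fderiv ℂ (P.ext (f + g)) (z : ι → ℂ) =
      fderiv ℂ (P.ext f) (z : ι → ℂ) + fderiv ℂ (P.ext g) (z : ι → ℂ) := by
  rw [ext_add, fderiv_add (dat P hf z) (dat P hg z)]

theorem dext_mul {f g : P.Bl → ℂ} (hf : DifferentiableOn ℂ (P.ext f) (ball 0 P.r))
    (hg : DifferentiableOn ℂ (P.ext g) (ball 0 P.r)) (z : P.Bl) :
    fderiv ℂ (P.ext (f * g)) (z : ι → ℂ) =
      f z • fderiv ℂ (P.ext g) (z : ι → ℂ) + g z • fderiv ℂ (P.ext f) (z : ι → ℂ) := by
  rw [ext_mul, fderiv_mul (dat P hf z) (dat P hg z), ext_eq P f z.2, ext_eq P g z.2]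

/-- partial derivative as a function on the ball -/
noncomputable def pd (t : ι) (f : P.Bl → ℂ) : P.Bl → ℂ := fun z =>
  fderiv ℂ (P.ext f) (z : ι → ℂ) (Pi.single t 1)

/-- functions of the ring that are holomorphic with all partial derivatives in the ring -/
structure Good (f : P.Bl → ℂ) : Prop where
  mem : f ∈ P.Rg
  don : DifferentiableOn ℂ (P.ext f) (ball 0 P.r)
  pdm : ∀ t, pd P t f ∈ P.Rg

theorem Good.const (c : ℂ) : Good P (algebraMap ℂ (P.Bl → ℂ) c) := by
  refine ⟨P.Rg.algebraMap_mem c, ext_don P (F := fun _ => c) (fun _ => rfl)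
    (differentiableOn_const _), fun t => ?_⟩
  have h : pd P t (algebraMap ℂ (P.Bl → ℂ) c) = 0 := by
    funext z
    unfold pd
    rw [(ext_ev P (f := algebraMap ℂ (P.Bl → ℂ) c) (F := fun _ => c) (fun _ => rfl) z.2).fderiv_eq]
    simp
  rw [h]
  exact P.Rg.zero_mem

theorem Good.add {f g : P.Bl → ℂ} (hf : Good P f) (hg : Good P g) : Good P (f + g) := by
  refine ⟨P.Rg.add_mem hf.mem hg.mem, ?_, fun t => ?_⟩
  · rw [ext_add]
    exact hf.don.add hg.don
  · have h : PA.pd P t (f + g) = PA.pd P t f + PA.pd P t g := by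
      funext z
      simp only [PA.pd, dext_add P hf.don hg.don, Pi.add_apply]
      rfl
    rw [h]
    exact P.Rg.add_mem (hf.pdm t) (hg.pdm t)

theorem pd_mul {f g : P.Bl → ℂ} (hf : DifferentiableOn ℂ (P.ext f) (ball 0 P.r))
    (hg : DifferentiableOn ℂ (P.ext g) (ball 0 P.r)) (t : ι) :
    PA.pd P t (f * g) = f * PA.pd P t g + g * PA.pd P t f := by
  funext z
  simp only [PA.pd, dext_mul P hf hg, Pi.add_apply, Pi.mul_apply]
  rfl

theorem Good.mul {f g : P.Bl → ℂ} (hf : Good P f) (hg : Good P g) : Good P (f * g) := by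
  refine ⟨P.Rg.mul_mem hf.mem hg.mem, ?_, fun t => ?_⟩
  · rw [ext_mul]
    exact hf.don.mul hg.don
  · rw [pd_mul P hf.don hg.don]
    exact P.Rg.add_mem (P.Rg.mul_mem hf.mem (hg.pdm t)) (P.Rg.mul_mem hg.mem (hf.pdm t))

theorem Good.inv {f g : P.Bl → ℂ} (hf : Good P f) (hg : g ∈ P.Rg) (h : ∀ z, f z ≠ 0)
    (hfg : ∀ z, g z = (f z)⁻¹) : Good P g := by
  have h1 : ∀ z : P.Bl, g z = (P.ext f z)⁻¹ := fun z => by rw [hfg, ext_eq P f z.2]
  have h0 : ∀ z : P.Bl, P.ext f z ≠ 0 := fun z => by rw [ext_eq P f z.2]; exact h z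
  refine ⟨hg, ext_don P (F := fun z => (P.ext f z)⁻¹) h1 ?_, fun t => ?_⟩
  · exact hf.don.inv fun z hz => h0 ⟨z, hz⟩
  · have h2 : PA.pd P t g = - (g * g * PA.pd P t f) := by
      funext z
      have h3 : HasFDerivAt (fun z => (P.ext f z)⁻¹)
          (-((P.ext f z) ^ 2)⁻¹ • fderiv ℂ (P.ext f) (z : ι → ℂ)) (z : ι → ℂ) :=
        (hasDerivAt_inv (h0 z)).comp_hasFDerivAt (z : ι → ℂ) (dat P hf.don z).hasFDerivAt
      simp only [PA.pd, Pi.neg_apply, Pi.mul_apply]
      rw [(ext_ev P (F := fun z => (P.ext f z)⁻¹) h1 z.2).fderiv_eq, h3.fderiv, h1]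
      simp only [ContinuousLinearMap.smul_apply, smul_eq_mul]
      ring
    rw [h2]
    exact P.Rg.neg_mem (P.Rg.mul_mem (P.Rg.mul_mem hg hg) (hf.pdm t))


theorem pd_x (hP : P.Ok) (i : π) (t : ι) : pd P t (P.gn (some (Sum.inl i))) =
    ((aeval P.gr (P.Jf i t) : P.Rg) : P.Bl → ℂ) := by
  have h1 : ∀ z : P.Bl, P.gn (some (Sum.inl i)) z = 1 / 2 + P.ξ z i := fun z => rfl
  funext z
  rw [Pkg.aeval_gr]
  unfold pd
  rw [(ext_ev P (F := fun z => 1 / 2 + P.ξ z i) h1 z.2).fderiv_eq, fderiv_const_add]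
  exact hP.Jf z z.2 i t

theorem xi_don (i : π) : DifferentiableOn ℂ (fun z => P.ξ z i) (ball 0 P.r) :=
  (differentiableOn_pi.1 P.ξana) i

theorem good_x (hP : P.Ok) (i : π) : Good P (P.gn (some (Sum.inl i))) := by
  have h1 : ∀ z : P.Bl, P.gn (some (Sum.inl i)) z = 1 / 2 + P.ξ z i := fun z => rfl
  refine ⟨(P.gr (some (Sum.inl i))).2, ext_don P (F := fun z => 1 / 2 + P.ξ z i) h1
    ((xi_don P i).const_add _), fun t => ?_⟩
  rw [pd_x P hP]
  exact (aeval P.gr (P.Jf i t) : P.Rg).2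

theorem ybr_deriv (D j k : ℕ) (s : ℂ) (hs : ‖s‖ < 1 / 4) :
    HasDerivAt (ybr D j k)
      (ybr D j k s * ((j : ℂ) / D / (1 / 2 + s) - (k : ℂ) / D / (1 / 2 - s))) s := by
  have hre : |s.re| < 1 / 4 := lt_of_le_of_lt (Complex.abs_re_le_norm s) hs
  rw [abs_lt] at hre
  have h1 : (1 / 2 + s) ∈ Complex.slitPlane := by
    rw [Complex.mem_slitPlane_iff]
    left
    have : (1 / 2 + s : ℂ).re = 1 / 2 + s.re := by
      rw [Complex.add_re]
      norm_num
    rw [this]
    linarith [hre.1]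
  have h2 : (1 / 2 - s) ∈ Complex.slitPlane := by
    rw [Complex.mem_slitPlane_iff]
    left
    have : (1 / 2 - s : ℂ).re = 1 / 2 - s.re := by
      rw [Complex.sub_re]
      norm_num
    rw [this]
    linarith [hre.2]
  have h10 : (1 / 2 + s) ≠ 0 := Complex.slitPlane_ne_zero h1
  have h20 : (1 / 2 - s) ≠ 0 := Complex.slitPlane_ne_zero h2
  have e1 := ((hasDerivAt_id s).const_add (1 / 2 : ℂ)).cpow_const (c := (j : ℂ) / D) h1
  have e2 := ((hasDerivAt_id s).const_sub (1 / 2 : ℂ)).cpow_const (c := (k : ℂ) / D) h2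
  have e3 := e1.mul e2
  refine e3.congr_deriv ?_
  simp only [id]
  rw [Complex.cpow_sub _ _ h10, Complex.cpow_sub _ _ h20, Complex.cpow_one, Complex.cpow_one]
  unfold ybr
  field_simp
  ring

theorem good_y (hP : P.Ok) (i : π) : Good P (P.gn (some (Sum.inr i))) := by
  have h1 : ∀ z : P.Bl, P.gn (some (Sum.inr i)) z =
      P.s i * ybr (P.D i) (P.j i) (P.k i) (P.ξ z i) := fun z => rfl
  have hat : ∀ z : P.Bl, HasFDerivAt (fun z => P.s i * ybr (P.D i) (P.j i) (P.k i) (P.ξ z i))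
      (P.s i • ((ybr (P.D i) (P.j i) (P.k i) (P.ξ z i) *
        ((P.j i : ℂ) / P.D i / (1 / 2 + P.ξ z i) - (P.k i : ℂ) / P.D i / (1 / 2 - P.ξ z i))) •
        fderiv ℂ (fun w => P.ξ w i) (z : ι → ℂ))) (z : ι → ℂ) := by
    intro z
    have e1 : HasFDerivAt (fun w => ybr (P.D i) (P.j i) (P.k i) (P.ξ w i))
        ((ybr (P.D i) (P.j i) (P.k i) (P.ξ z i) *
        ((P.j i : ℂ) / P.D i / (1 / 2 + P.ξ z i) - (P.k i : ℂ) / P.D i / (1 / 2 - P.ξ z i))) •
        fderiv ℂ (fun w => P.ξ w i) (z : ι → ℂ)) (z : ι → ℂ) := by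
      have e0 := ybr_deriv (P.D i) (P.j i) (P.k i) (P.ξ z i) (P.ξle z z.2 i)
      have e2 : HasFDerivAt (fun w => P.ξ w i) (fderiv ℂ (fun w => P.ξ w i) (z : ι → ℂ))
          (z : ι → ℂ) := ((xi_don P i).differentiableAt (isOpen_ball.mem_nhds z.2)).hasFDerivAt
      exact HasDerivAt.comp_hasFDerivAt (h₂ := ybr (P.D i) (P.j i) (P.k i))
        (f := fun w => P.ξ w i) (z : ι → ℂ) e0 e2
    exact e1.const_mul (P.s i)
  refine ⟨(P.gr (some (Sum.inr i))).2, ext_don P (F := fun z =>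
    P.s i * ybr (P.D i) (P.j i) (P.k i) (P.ξ z i)) h1 fun z hz =>
    (hat ⟨z, hz⟩).differentiableAt.differentiableWithinAt, fun t => ?_⟩
  have h2 : pd P t (P.gn (some (Sum.inr i))) =
      ((P.gr (some (Sum.inr i)) * aeval P.gr (P.Jf i t) *
        (algebraMap ℂ P.Rg ((P.j i : ℂ) / P.D i) * (1 - P.gr (some (Sum.inl i))) -
          algebraMap ℂ P.Rg ((P.k i : ℂ) / P.D i) * P.gr (some (Sum.inl i))) *
        aeval P.gr (P.ux i) : P.Rg) : P.Bl → ℂ) := by
    funext z
    have h3 : ((P.gr (some (Sum.inr i)) * aeval P.gr (P.Jf i t) *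
        (algebraMap ℂ P.Rg ((P.j i : ℂ) / P.D i) * (1 - P.gr (some (Sum.inl i))) -
          algebraMap ℂ P.Rg ((P.k i : ℂ) / P.D i) * P.gr (some (Sum.inl i))) *
        aeval P.gr (P.ux i) : P.Rg) : P.Bl → ℂ) z =
        P.gn (some (Sum.inr i)) z * ((aeval P.gr (P.Jf i t) : P.Rg) : P.Bl → ℂ) z *
        ((P.j i : ℂ) / P.D i * (1 - P.gn (some (Sum.inl i)) z) -
          (P.k i : ℂ) / P.D i * P.gn (some (Sum.inl i)) z) *
        ((aeval P.gr (P.ux i) : P.Rg) : P.Bl → ℂ) z := rfl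
    rw [h3, Pkg.aeval_gr, Pkg.aeval_gr]
    unfold pd
    rw [(ext_ev P (F := fun z =>
      P.s i * ybr (P.D i) (P.j i) (P.k i) (P.ξ z i)) h1 z.2).fderiv_eq, (hat z).fderiv]
    have h4 := hP.ux z z.2 i
    have h5 := hP.Jf z z.2 i t
    have h6 : P.gn (some (Sum.inr i)) z = P.s i * ybr (P.D i) (P.j i) (P.k i) (P.ξ z i) := rfl
    have h7 : P.gn (some (Sum.inl i)) z = 1 / 2 + P.ξ z i := rfl
    rw [h6, h7]
    simp only [ContinuousLinearMap.smul_apply, smul_eq_mul]
    rw [h5]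
    have h8 : (1 / 2 + P.ξ z i) * (1 / 2 - P.ξ z i) ≠ 0 := right_ne_zero_of_mul_eq_one h4
    have h9 : eval (P.bv z) (P.ux i) = 1 / ((1 / 2 + P.ξ z i) * (1 / 2 - P.ξ z i)) :=
      (eq_div_iff h8).2 h4
    rw [h9]
    have h10 : (1 / 2 + P.ξ z i) ≠ 0 := left_ne_zero_of_mul h8
    have h11 : (1 / 2 - P.ξ z i) ≠ 0 := right_ne_zero_of_mul h8
    have h12 : 1 - (1 / 2 + P.ξ z i) = 1 / 2 - P.ξ z i := by ring
    rw [h12, div_sub_div _ _ h10 h11]
    generalize eval (P.bv z) (P.Jf i t) = J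
    generalize ybr (P.D i) (P.j i) (P.k i) (P.ξ z i) = Y
    generalize (P.j i : ℂ) / P.D i = a
    generalize (P.k i : ℂ) / P.D i = b
    field_simp
  rw [h2]
  exact Subtype.property _

theorem good_poly (hP : P.Ok) (p : MvPolynomial (π ⊕ π) ℂ) :
    Good P (fun z => eval (Sum.elim (fun i => 1 / 2 + P.ξ z i)
      (fun i => P.s i * ybr (P.D i) (P.j i) (P.k i) (P.ξ z i))) p) := by
  induction p using MvPolynomial.induction_on with
  | C a =>
    simp only [eval_C]
    exact Good.const P a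
  | add p q hp hq =>
    simp only [map_add]
    exact Good.add P hp hq
  | mul_X p i hp =>
    simp only [map_mul, eval_X]
    refine Good.mul P hp ?_
    cases i with
    | inl i => exact good_x P hP i
    | inr i => exact good_y P hP i

theorem good_gn (hP : P.Ok) (g : Gx π) : Good P (P.gn g) := by
  rcases g with _ | i | i
  · exact Good.inv P (good_poly P hP P.δ) (P.gr none).2 (fun z => P.δne z z.2) fun z => rfl
  · exact good_x P hP i
  · exact good_y P hP i

theorem good (hP : P.Ok) (f : P.Rg) : Good P (f : P.Bl → ℂ) := by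
  have h : ∀ x (hx : x ∈ Algebra.adjoin ℂ (Set.range P.gn)), Good P x := by
    intro x hx
    induction hx using Algebra.adjoin_induction with
    | mem x hx =>
      obtain ⟨g, rfl⟩ := hx
      exact good_gn P hP g
    | algebraMap r => exact Good.const P r
    | add x y _ _ h1 h2 => exact Good.add P h1 h2
    | mul x y _ _ h1 h2 => exact Good.mul P h1 h2
  exact h f f.2

theorem fderiv_sum {f : P.Bl → ℂ} (w : ι → ℂ) :
    fderiv ℂ (P.ext f) w = ∑ t, fderiv ℂ (P.ext f) w (Pi.single t 1) •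
      (ContinuousLinearMap.proj t : (ι → ℂ) →L[ℂ] ℂ) := by
  ext v
  rw [ContinuousLinearMap.sum_apply]
  simp only [ContinuousLinearMap.smul_apply, ContinuousLinearMap.proj_apply, smul_eq_mul]
  have hv : v = ∑ t, v t • (Pi.single t (1 : ℂ) : ι → ℂ) := by
    funext u
    simp [Finset.sum_apply, Pi.single_apply]
  conv_lhs => rw [hv]
  rw [map_sum]
  refine Finset.sum_congr rfl fun t _ => ?_
  rw [map_smul, smul_eq_mul, mul_comm]

theorem pd_comm (hP : P.Ok) (f : P.Rg) (t t' : ι) :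
    pd P t (pd P t' (f : P.Bl → ℂ)) = pd P t' (pd P t (f : P.Bl → ℂ)) := by
  funext z
  have hg : ∀ u, Good P (pd P u (f : P.Bl → ℂ)) := fun u =>
    good P hP ⟨pd P u (f : P.Bl → ℂ), (good P hP f).pdm u⟩
  let f' : (ι → ℂ) → (ι → ℂ) →L[ℂ] ℂ := fun w => ∑ u, P.ext (pd P u (f : P.Bl → ℂ)) w •
      (ContinuousLinearMap.proj u : (ι → ℂ) →L[ℂ] ℂ)
  let f'' : (ι → ℂ) →L[ℂ] (ι → ℂ) →L[ℂ] ℂ := ∑ u,
    (fderiv ℂ (P.ext (pd P u (f : P.Bl → ℂ))) z).smulRight
      (ContinuousLinearMap.proj u : (ι → ℂ) →L[ℂ] ℂ)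
  have h1 : ∀ᶠ y in nhds (z : ι → ℂ), HasFDerivAt (P.ext (f : P.Bl → ℂ)) (f' y) y := by
    filter_upwards [isOpen_ball.mem_nhds z.2] with y hy
    have h2 : f' y = fderiv ℂ (P.ext (f : P.Bl → ℂ)) y := by
      rw [fderiv_sum P y]
      refine Finset.sum_congr rfl fun u _ => ?_
      rw [ext_eq P _ hy]
      rfl
    rw [h2]
    exact (dat P (good P hP f).don ⟨y, hy⟩).hasFDerivAt
  have h3 : HasFDerivAt f' f'' (z : ι → ℂ) := by
    refine HasFDerivAt.fun_sum fun u _ => ?_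
    exact (dat P (hg u).don z).hasFDerivAt.smul_const
      (ContinuousLinearMap.proj u : (ι → ℂ) →L[ℂ] ℂ)
  have h4 := second_derivative_symmetric_of_eventually h1 h3 (Pi.single t 1) (Pi.single t' 1)
  have h5 : ∀ a b : ι, f'' (Pi.single a 1) (Pi.single b 1) =
      pd P a (pd P b (f : P.Bl → ℂ)) z := by
    intro a b
    simp only [f'', ContinuousLinearMap.sum_apply, ContinuousLinearMap.smulRight_apply,
      ContinuousLinearMap.smul_apply, ContinuousLinearMap.proj_apply, smul_eq_mul]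
    rw [Finset.sum_eq_single b]
    · rw [Pi.single_eq_same, mul_one]
      rfl
    · intro u _ hu
      rw [Pi.single_eq_of_ne hu, mul_zero]
    · intro h
      exact absurd (Finset.mem_univ b) h
  rw [h5, h5] at h4
  exact h4

/-- the derivations -/
noncomputable def der (hP : P.Ok) (t : ι) : Derivation ℂ P.Rg P.Rg :=
  Derivation.mk'
    { toFun := fun f => ⟨pd P t (f : P.Bl → ℂ), (good P hP f).pdm t⟩
      map_add' := by
        intro f g
        apply Subtype.ext
        funext z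
        have h := dext_add P (good P hP f).don (good P hP g).don z
        change fderiv ℂ (P.ext ((f : P.Bl → ℂ) + (g : P.Bl → ℂ))) (z : ι → ℂ) (Pi.single t 1) = _
        rw [h]
        rfl
      map_smul' := by
        intro c f
        apply Subtype.ext
        have h0 : ((c • f : P.Rg) : P.Bl → ℂ) = algebraMap ℂ (P.Bl → ℂ) c * (f : P.Bl → ℂ) := by
          rw [← Algebra.smul_def]
          rfl
        have h1 := pd_mul P (Good.const P c).don (good P hP f).don t
        have h2 : pd P t (algebraMap ℂ (P.Bl → ℂ) c) = 0 := by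
          funext z
          unfold pd
          rw [(ext_ev P (f := algebraMap ℂ (P.Bl → ℂ) c) (F := fun _ => c) (fun _ => rfl)
            z.2).fderiv_eq]
          simp
        change pd P t ((c • f : P.Rg) : P.Bl → ℂ) = _
        rw [h0, h1, h2, mul_zero, add_zero, ← Algebra.smul_def]
        rfl }
    (by
      intro f g
      apply Subtype.ext
      exact pd_mul P (good P hP f).don (good P hP g).don t)

end PA

/-- (PA1) elements of the ring are holomorphic on the ball -/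
theorem Pkg.Ok.ana (hP : P.Ok) (f : P.Rg) : DifferentiableOn ℂ (P.ext f) (ball 0 P.r) :=
  (PA.good P hP f).don

/-- (PA2) the ring is a domain -/
theorem Pkg.Ok.dom (hP : P.Ok) : IsDomain P.Rg := by
  have hne : Nontrivial P.Rg := by
    refine ⟨⟨0, 1, fun h => ?_⟩⟩
    have h0 : (0 : ι → ℂ) ∈ ball (0 : ι → ℂ) P.r := mem_ball_self P.hr
    have h1 : P.ev ⟨0, h0⟩ 0 = P.ev ⟨0, h0⟩ 1 := by rw [h]
    rw [map_zero, map_one] at h1
    exact zero_ne_one h1
  have hnz : NoZeroDivisors P.Rg := by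
    refine ⟨fun {f g} hfg => ?_⟩
    by_contra hcon
    rw [not_or] at hcon
    obtain ⟨hf, hg⟩ := hcon
    apply hg
    have h1 : ∃ z : P.Bl, (f : P.Bl → ℂ) z ≠ 0 := by
      by_contra hall
      push Not at hall
      exact hf (Subtype.ext (funext hall))
    obtain ⟨z0, hz0⟩ := h1
    have hmul : ∀ z : P.Bl, (f : P.Bl → ℂ) z * (g : P.Bl → ℂ) z = 0 := fun z =>
      congrFun (congrArg Subtype.val hfg) z
    apply Subtype.ext
    funext w
    let L : ℂ → ι → ℂ := fun t => (z0 : ι → ℂ) + t • ((w : ι → ℂ) - (z0 : ι → ℂ))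
    have hLd : Differentiable ℂ L := by
      intro t
      exact ((differentiableAt_id.smul_const _).const_add _)
    let U : Set ℂ := L ⁻¹' ball (0 : ι → ℂ) P.r
    have hUo : IsOpen U := isOpen_ball.preimage hLd.continuous
    have hUc : Convex ℝ U := by
      intro a ha b hb α β hα hβ hαβ
      have h2 : L (α • a + β • b) = α • L a + β • L b := by
        simp only [L]
        funext i
        simp only [Pi.add_apply, Pi.smul_apply, Pi.sub_apply, smul_eq_mul, Complex.real_smul]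
        have h3 : (α : ℂ) = 1 - β := by
          rw [← Complex.ofReal_one, ← Complex.ofReal_sub, ← hαβ]
          congr 1
          ring
        rw [h3]
        ring
      change L (α • a + β • b) ∈ ball (0 : ι → ℂ) P.r
      rw [h2]
      exact convex_ball (0 : ι → ℂ) P.r ha hb hα hβ hαβ
    have hgd : DifferentiableOn ℂ (fun t => P.ext (g : P.Bl → ℂ) (L t)) U :=
      (PA.good P hP g).don.comp hLd.differentiableOn fun t ht => ht
    have hfd : DifferentiableOn ℂ (fun t => P.ext (f : P.Bl → ℂ) (L t)) U :=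
      (PA.good P hP f).don.comp hLd.differentiableOn fun t ht => ht
    have h0U : (0 : ℂ) ∈ U := by
      change L 0 ∈ ball (0 : ι → ℂ) P.r
      simp only [L, zero_smul, add_zero]
      exact z0.2
    have hL0 : L 0 = (z0 : ι → ℂ) := by simp only [L, zero_smul, add_zero]
    have hL1 : L 1 = (w : ι → ℂ) := by simp only [L, one_smul, add_sub_cancel]
    have h1U : (1 : ℂ) ∈ U := by
      change L 1 ∈ ball (0 : ι → ℂ) P.r
      rw [hL1]
      exact w.2
    have hev : (fun t => P.ext (g : P.Bl → ℂ) (L t)) =ᶠ[nhds 0] 0 := by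
      have hc : ContinuousAt (fun t => P.ext (f : P.Bl → ℂ) (L t)) 0 :=
        (hfd.differentiableAt (hUo.mem_nhds h0U)).continuousAt
      have hn : P.ext (f : P.Bl → ℂ) (L 0) ≠ 0 := by
        rw [hL0, PA.ext_eq P _ z0.2]
        exact hz0
      filter_upwards [hc.eventually_ne hn, hUo.mem_nhds h0U] with t ht htU
      have h5 := hmul ⟨L t, htU⟩
      rw [← PA.ext_eq P (f : P.Bl → ℂ) htU, ← PA.ext_eq P (g : P.Bl → ℂ) htU] at h5
      exact (mul_eq_zero.1 h5).resolve_left ht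
    have h6 := (hgd.analyticOnNhd hUo).eqOn_zero_of_preconnected_of_eventuallyEq_zero
      hUc.isPreconnected h0U hev h1U
    simp only [Pi.zero_apply] at h6
    rw [hL1, PA.ext_eq P _ w.2] at h6
    exact h6
  exact NoZeroDivisors.to_isDomain _

/-- (PA3) partial derivatives -/
theorem Pkg.Ok.exists_pd (hP : P.Ok) :
    ∃ d : ι → Derivation ℂ P.Rg P.Rg, P.IsPd d ∧ (∀ t t' f, d t (d t' f) = d t' (d t f)) ∧
      (∀ t i, d t (P.gr (some (Sum.inl i))) = aeval P.gr (P.Jf i t)) := by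
  refine ⟨PA.der P hP, fun t f z => rfl, fun t t' f => ?_, fun t i => ?_⟩
  · apply Subtype.ext
    exact PA.pd_comm P hP f t t'
  · apply Subtype.ext
    exact PA.pd_x P hP i t

end Pool.Agent.WW
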