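import Pool.Agent.WW.JRDefs
import Pool.Agent.WW.JP
import Pool.Agent.WW.JQ
import Pool.Agent.WW.JL
import Pool.Agent.WW.JF0
import Pool.Agent.WW.JA
import Pool.Agent.WW.PA

set_option autoImplicit false

namespace Pool.Agent.WW

open MvPolynomial Metric Filter Topology

variable {D j k : ℕ}

namespace JRaux

/-! polynomials with algebraic coefficients -/

noncomputable abbrev KA : IntermediateField ℚ ℂ := algebraicClosure ℚ ℂ

/-- the subring of polynomials with algebraic coefficients -/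
noncomputable def SA (τ : Type) : Subring (MvPolynomial τ ℂ) :=
  (MvPolynomial.map (σ := τ) (algebraMap KA ℂ)).range

theorem algC_iff {τ : Type} (p : MvPolynomial τ ℂ) : AlgC p ↔ p ∈ SA τ := by
  constructor
  · intro h
    have h2 : p ∈ Set.range (MvPolynomial.map (σ := τ) (algebraMap KA ℂ)) := by
      rw [mem_range_map_iff_coeffs_subset]
      intro c hc
      rw [Finset.mem_coe, mem_coeffs_iff] at hc
      obtain ⟨a, ha, hc⟩ := hc
      rw [hc]
      exact ⟨⟨p.coeff a, mem_algebraicClosure_iff.2 (h a)⟩, rfl⟩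
    exact h2
  · rintro ⟨q, rfl⟩ a
    rw [coeff_map]
    exact mem_algebraicClosure_iff.1 (q.coeff a).2

theorem SA_X {τ : Type} (i : τ) : (X i : MvPolynomial τ ℂ) ∈ SA τ := ⟨X i, by simp⟩

theorem SA_rename {τ τ' : Type} (f : τ → τ') {p : MvPolynomial τ ℂ} (hp : p ∈ SA τ) :
    rename f p ∈ SA τ' := by
  obtain ⟨q, rfl⟩ := hp
  exact ⟨rename f q, by rw [map_rename]⟩

theorem SA_lift {τ κ : Type} [Fintype κ] [DecidableEq κ] (M : Matrix κ κ (MvPolynomial τ ℂ)) (hM : ∀ a b, M a b ∈ SA τ) :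
    ∃ M' : Matrix κ κ (MvPolynomial τ KA), (MvPolynomial.map (algebraMap KA ℂ)).mapMatrix M' = M := by
  choose M' hM' using hM
  refine ⟨Matrix.of M', ?_⟩
  ext1 a b
  exact hM' a b

theorem SA_det {τ κ : Type} [Fintype κ] [DecidableEq κ] (M : Matrix κ κ (MvPolynomial τ ℂ))
    (hM : ∀ a b, M a b ∈ SA τ) : M.det ∈ SA τ := by
  obtain ⟨M', rfl⟩ := SA_lift M hM
  rw [← RingHom.map_det]
  exact ⟨_, rfl⟩

theorem SA_adj {τ κ : Type} [Fintype κ] [DecidableEq κ] (M : Matrix κ κ (MvPolynomial τ ℂ))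
    (hM : ∀ a b, M a b ∈ SA τ) (a b : κ) : M.adjugate a b ∈ SA τ := by
  obtain ⟨M', rfl⟩ := SA_lift M hM
  rw [← RingHom.map_adjugate]
  exact ⟨_, rfl⟩

/-! linear algebra -/

theorem exists_basis_rows {ι μ : Type} [Fintype ι] [DecidableEq ι] (d : μ → ι → ℂ)
    (h : ∀ v : ι → ℂ, v ≠ 0 → ∃ a, ∑ t, v t * d a t ≠ 0) :
    ∃ u : ι → μ, (Matrix.of fun t t' => d (u t') t).det ≠ 0 := by
  have hspan : Submodule.span ℂ (Set.range d) = ⊤ := by
    by_contra hne
    obtain ⟨f, hf, hker⟩ := Submodule.exists_le_ker_of_lt_top _ (lt_top_iff_ne_top.2 hne)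
    have hrep : ∀ w : ι → ℂ, f w = ∑ t, f (Pi.single t 1) * w t := by
      intro w
      conv_lhs => rw [← Finset.univ_sum_single w]
      rw [map_sum]
      refine Finset.sum_congr rfl fun t _ => ?_
      have h1 : (Pi.single t (w t) : ι → ℂ) = w t • Pi.single t 1 := by
        rw [← Pi.single_smul, smul_eq_mul, mul_one]
      rw [h1, map_smul, smul_eq_mul, mul_comm]
    have hv : (fun t => f (Pi.single t 1)) ≠ 0 := by
      intro h0
      apply hf
      refine LinearMap.ext fun w => ?_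
      rw [hrep, LinearMap.zero_apply]
      refine Finset.sum_eq_zero fun t _ => ?_
      rw [show f (Pi.single t 1) = 0 from congrFun h0 t, zero_mul]
    obtain ⟨a, ha⟩ := h _ hv
    apply ha
    rw [← hrep]
    exact hker (Submodule.subset_span ⟨a, rfl⟩)
  obtain ⟨κ, a, ha, hsp, hli⟩ := exists_linearIndependent' ℂ d
  rw [hspan] at hsp
  let b : Module.Basis κ ℂ (ι → ℂ) := Module.Basis.mk hli hsp.ge
  let e : ι ≃ κ := (Pi.basisFun ℂ ι).indexEquiv b
  refine ⟨fun t' => a (e t'), ?_⟩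
  have h1 : LinearIndependent ℂ (Matrix.of fun t' t => d (a (e t')) t).row :=
    hli.comp e e.injective
  rw [Matrix.linearIndependent_rows_iff_isUnit, Matrix.isUnit_iff_isUnit_det] at h1
  have h2 : (Matrix.of fun t t' => d (a (e t')) t) = (Matrix.of fun t' t => d (a (e t')) t).transpose := rfl
  rw [h2, Matrix.det_transpose]
  exact h1.ne_zero

/-! the chart -/

/-- the numerators of the matrix of differentials -/
noncomputable def Nb (D j k m : ℕ) (t : ℕ) (i : Fin m) : MvPolynomial (Fin m ⊕ Fin m) ℂ :=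
  X (Sum.inr i) ^ t * X (Sum.inl i) ^ (D - 1 - t * j / D) * (1 - X (Sum.inl i)) ^ (D - 1 - t * k / D)

/-- `x_i (1 - x_i)` -/
noncomputable def xx (m : ℕ) (i : Fin m) : MvPolynomial (Fin m ⊕ Fin m) ℂ :=
  X (Sum.inl i) * (1 - X (Sum.inl i))

theorem SA_xx (m : ℕ) (i : Fin m) : xx m i ∈ SA (Fin m ⊕ Fin m) :=
  (SA _).mul_mem (SA_X _) ((SA _).sub_mem (SA _).one_mem (SA_X _))

theorem SA_Nb (m t : ℕ) (i : Fin m) : Nb D j k m t i ∈ SA (Fin m ⊕ Fin m) :=
  (SA _).mul_mem ((SA _).mul_mem ((SA _).pow_mem (SA_X _) _) ((SA _).pow_mem (SA_X _) _))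
    ((SA _).pow_mem ((SA _).sub_mem (SA _).one_mem (SA_X _)) _)

theorem eval_xx (m : ℕ) (ξ : Fin m → ℂ) (i : Fin m) :
    eval (gens D j k m ξ) (xx m i) = (1 / 2 + ξ i) * (1 / 2 - ξ i) := by
  simp only [xx, map_mul, map_sub, map_one, eval_X, gens, Sum.elim_inl]
  ring

theorem eval_Nb (hD : 0 < D) (hj : j < D) (hk : k < D) {m t : ℕ} (ht : t < D) (ξ : Fin m → ℂ)
    (i : Fin m) (hs : ‖ξ i‖ < 1 / 2) :
    eval (gens D j k m ξ) (Nb D j k m t i) =
      ze D ^ (t * (i : ℕ)) * wt D j k t (ξ i) * ((1 / 2 + ξ i) * (1 / 2 - ξ i)) ^ D := by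
  have h1 := et_ybr (D := D) (j := j) (k := k) hD t hs
  have h2 := wt_eq (D := D) (j := j) (k := k) t hs
  have hA : t * j / D ≤ D - 1 := by
    have : t * j / D < D := by
      rw [Nat.div_lt_iff_lt_mul hD]
      exact Nat.mul_lt_mul'' ht hj
    omega
  have hB : t * k / D ≤ D - 1 := by
    have : t * k / D < D := by
      rw [Nat.div_lt_iff_lt_mul hD]
      exact Nat.mul_lt_mul'' ht hk
    omega
  simp only [Nb, map_mul, map_pow, map_sub, map_one, eval_X, gens, Sum.elim_inl, Sum.elim_inr]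
  have h3 : (1 : ℂ) - (1 / 2 + ξ i) = 1 / 2 - ξ i := by ring
  rw [h3, mul_pow, ← h1, ← h2]
  obtain ⟨a, ha⟩ := Nat.exists_eq_add_of_le hA
  obtain ⟨b, hb⟩ := Nat.exists_eq_add_of_le hB
  have ha' : D - 1 - t * j / D = a := by omega
  have hb' : D - 1 - t * k / D = b := by omega
  have hDa : D = t * j / D + a + 1 := by omega
  have hDb : D = t * k / D + b + 1 := by omega
  rw [ha', hb']
  rw [mul_pow (1 / 2 + ξ i)]
  have e1 : (1 / 2 + ξ i) ^ D = (1 / 2 + ξ i) ^ (t * j / D) * (1 / 2 + ξ i) ^ a * (1 / 2 + ξ i) := by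
    conv_lhs => rw [hDa]
    rw [pow_succ, pow_add]
  have e2 : (1 / 2 - ξ i) ^ D = (1 / 2 - ξ i) ^ (t * k / D) * (1 / 2 - ξ i) ^ b * (1 / 2 - ξ i) := by
    conv_lhs => rw [hDb]
    rw [pow_succ, pow_add]
  rw [e1, e2, ← pow_mul, mul_comm (i : ℕ) t]
  ring

/-- the derivative of the chart -/
theorem chain {m : ℕ} {T : Type} [Fintype T] [DecidableEq T] (τ : T → Fin D)
    (Ξ : (T → ℂ) → (Fin m → ℂ)) {ρ : ℝ} (hΞ : DifferentiableOn ℂ Ξ (ball 0 ρ))
    (hle : ∀ z ∈ ball (0 : T → ℂ) ρ, ∀ i, ‖Ξ z i‖ < 1 / 2)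
    (hzp : ∀ z ∈ ball (0 : T → ℂ) ρ, zp D j k m τ (Ξ z) = z) {z : T → ℂ}
    (hz : z ∈ ball (0 : T → ℂ) ρ) (t t' : T) :
    ∑ i : Fin m, ze D ^ ((τ t : ℕ) * (i : ℕ)) * wt D j k (τ t) (Ξ z i) *
      fderiv ℂ (fun w => Ξ w i) z (Pi.single t' 1) = if t = t' then 1 else 0 := by
  have hd : DifferentiableAt ℂ Ξ z := hΞ.differentiableAt (isOpen_ball.mem_nhds hz)
  have hi : ∀ i : Fin m, HasFDerivAt (fun w => Ξ w i) (fderiv ℂ (fun w => Ξ w i) z) z := by
    intro i
    exact (differentiableAt_pi.1 hd i).hasFDerivAt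
  have h1 : HasFDerivAt (fun w => zp D j k m τ (Ξ w) t)
      (∑ i : Fin m, ze D ^ ((τ t : ℕ) * (i : ℕ)) • (wt D j k (τ t) (Ξ z i) •
        fderiv ℂ (fun w => Ξ w i) z)) z := by
    unfold zp
    refine HasFDerivAt.fun_sum fun i _ => ?_
    exact ((aint_deriv (D := D) (j := j) (k := k) (τ t) (hle z hz i)).comp_hasFDerivAt z
      (hi i)).const_mul _
  have h2 : HasFDerivAt (fun w : T → ℂ => w t) (ContinuousLinearMap.proj t) z :=
    (ContinuousLinearMap.proj (R := ℂ) (φ := fun _ : T => ℂ) t).hasFDerivAt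
  have h3 : (fun w => zp D j k m τ (Ξ w) t) =ᶠ[𝓝 z] fun w => w t := by
    filter_upwards [isOpen_ball.mem_nhds hz] with w hw
    rw [hzp w hw]
  have h4 := (h1.congr_of_eventuallyEq h3.symm).unique h2
  have h5 := DFunLike.congr_fun h4 (Pi.single t' 1 : T → ℂ)
  rw [ContinuousLinearMap.proj_apply, Pi.single_apply] at h5
  rw [← h5, _root_.sum_apply]
  refine Finset.sum_congr rfl fun i _ => ?_
  simp only [_root_.smul_apply, smul_eq_mul]
  ring

/-- linear algebra of the chart -/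
theorem matrices {m : ℕ} {T : Type} [Fintype T] [DecidableEq T] (e : T ≃ Fin m)
    (B : T → Fin m → ℂ) (F : Fin m → T → ℂ)
    (h : ∀ t t', ∑ i, B t i * F i t' = if t = t' then 1 else 0) :
    (∀ i i', ∑ t, F i t * B t i' = if i = i' then 1 else 0) ∧
    ∀ c : Fin m → ℂ, (∀ i, c i ≠ 0) → (Matrix.of fun t t' => B t (e t') * c (e t')).det ≠ 0 ∧
      ∀ i t, F i t * (Matrix.of fun t t' => B t (e t') * c (e t')).det =
        c i * (Matrix.of fun t t' => B t (e t') * c (e t')).adjugate (e.symm i) t := by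
  have h1 : (Matrix.of fun t t' => B t (e t')) * (Matrix.of fun t' t => F (e t') t) = 1 := by
    ext1 t t'
    rw [Matrix.mul_apply, Matrix.one_apply, ← h t t']
    exact Fintype.sum_equiv e _ _ fun _ => rfl
  have h2 := mul_eq_one_comm.1 h1
  refine ⟨fun i i' => ?_, fun c hc => ?_⟩
  · have h3 := congrFun (congrFun h2 (e.symm i)) (e.symm i')
    rw [Matrix.mul_apply, Matrix.one_apply] at h3
    simp only [Matrix.of_apply, Equiv.apply_symm_apply, EmbeddingLike.apply_eq_iff_eq] at h3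
    exact h3
  · have h3 : (Matrix.of fun t t' => B t (e t') * c (e t')) *
        (Matrix.of fun t' t => (c (e t'))⁻¹ * F (e t') t) = 1 := by
      rw [← h1]
      ext1 t t'
      rw [Matrix.mul_apply, Matrix.mul_apply]
      refine Finset.sum_congr rfl fun i _ => ?_
      simp only [Matrix.of_apply]
      have := hc (e i)
      field_simp
    refine ⟨(Matrix.isUnit_det_of_right_inverse h3).ne_zero, fun i t => ?_⟩
    set A : Matrix T T ℂ := Matrix.of fun t t' => B t (e t') * c (e t') with hA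
    have h4 : A.adjugate = A.det • (Matrix.of fun t' t => (c (e t'))⁻¹ * F (e t') t) := by
      calc A.adjugate = A.adjugate * (A * (Matrix.of fun t' t => (c (e t'))⁻¹ * F (e t') t)) := by
            rw [h3, Matrix.mul_one]
        _ = _ := by rw [← Matrix.mul_assoc, Matrix.adjugate_mul, Matrix.smul_mul, Matrix.one_mul]
    have h5 := congrFun (congrFun h4 (e.symm i)) t
    rw [h5]
    simp only [Matrix.smul_apply, Matrix.of_apply, Equiv.apply_symm_apply, smul_eq_mul]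
    have := hc i
    field_simp

/-- values of the generators -/
noncomputable def bvv {π : Type} (δ : MvPolynomial (π ⊕ π) ℂ) (g : π ⊕ π → ℂ) : Gx π → ℂ
  | none => (eval g δ)⁻¹
  | some x => g x

theorem eval_some {π : Type} (δ : MvPolynomial (π ⊕ π) ℂ) (g : π ⊕ π → ℂ)
    (p : MvPolynomial (π ⊕ π) ℂ) : eval (bvv δ g) (rename some p) = eval g p := by
  rw [eval_rename]
  rfl

theorem eval_inv {π : Type} {δ f c : MvPolynomial (π ⊕ π) ℂ} (g : π ⊕ π → ℂ) (h : δ = f * c)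
    (hδ : eval g δ ≠ 0) : eval (bvv δ g) (X none * rename some c) * eval g f = 1 := by
  rw [map_mul, eval_some, eval_X]
  change (eval g δ)⁻¹ * eval g c * eval g f = 1
  have h2 : eval g δ = eval g f * eval g c := by rw [h, map_mul]
  rw [mul_assoc, mul_comm (eval g c), ← h2]
  exact inv_mul_cancel₀ hδ

theorem SA_prod {τ κ : Type} [DecidableEq κ] (s : Finset κ) (f : κ → MvPolynomial τ ℂ)
    (h : ∀ a, f a ∈ SA τ) : ∏ a ∈ s, f a ∈ SA τ :=
  (SA τ).prod_mem fun a _ => h a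

theorem polys (hD : 3 ≤ D) (hj : j < D) (hk : k < D) {m : ℕ} {T : Type} [Fintype T]
    [DecidableEq T] (τ : T → Fin D) (e : T ≃ Fin m) {μ : Type} [Fintype μ] [DecidableEq μ]
    (p q : μ → MvPolynomial (Fin m ⊕ Fin m) ℂ) (hp : ∀ a, p a ∈ SA (Fin m ⊕ Fin m))
    (hq : ∀ a, q a ∈ SA (Fin m ⊕ Fin m)) :
    ∃ (δ : MvPolynomial (Fin m ⊕ Fin m) ℂ) (ux : Fin m → MvPolynomial (Gx (Fin m)) ℂ)
      (Jf : Fin m → T → MvPolynomial (Gx (Fin m)) ℂ) (Jb : T → Fin m → MvPolynomial (Gx (Fin m)) ℂ)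
      (H : μ → MvPolynomial (Gx (Fin m)) ℂ),
      δ ∈ SA (Fin m ⊕ Fin m) ∧ (∀ i, ux i ∈ SA (Gx (Fin m))) ∧ (∀ i t, Jf i t ∈ SA (Gx (Fin m))) ∧
      (∀ t i, Jb t i ∈ SA (Gx (Fin m))) ∧ (∀ a, H a ∈ SA (Gx (Fin m))) ∧
      ∀ (ξ : Fin m → ℂ) (F : Fin m → T → ℂ), (∀ i, ‖ξ i‖ < 1 / 2) →
        (∀ a, eval (gens D j k m ξ) (q a) ≠ 0) →
        (∀ t t', ∑ i : Fin m, ze D ^ ((τ t : ℕ) * (i : ℕ)) * wt D j k (τ t) (ξ i) * F i t' =
          if t = t' then 1 else 0) →
        eval (gens D j k m ξ) δ ≠ 0 ∧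
        (∀ i, eval (bvv δ (gens D j k m ξ)) (ux i) * ((1 / 2 + ξ i) * (1 / 2 - ξ i)) = 1) ∧
        (∀ i t, F i t = eval (bvv δ (gens D j k m ξ)) (Jf i t)) ∧
        (∀ t i, eval (bvv δ (gens D j k m ξ)) (Jb t i) =
          ze D ^ ((τ t : ℕ) * (i : ℕ)) * wt D j k (τ t) (ξ i)) ∧
        ∀ a, eval (bvv δ (gens D j k m ξ)) (H a) * eval (gens D j k m ξ) (q a) =
          eval (gens D j k m ξ) (p a) := by
  have hD0 : 0 < D := by omega
  set NbM : Matrix T T (MvPolynomial (Fin m ⊕ Fin m) ℂ) :=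
    Matrix.of fun t t' => Nb D j k m (τ t) (e t') with hNbM
  have hNs : ∀ a b, NbM a b ∈ SA (Fin m ⊕ Fin m) := fun a b => SA_Nb m _ _
  set δ : MvPolynomial (Fin m ⊕ Fin m) ℂ := (∏ i, xx m i) * NbM.det * ∏ a, q a with hδ
  have hxxs : ∀ i, xx m i ∈ SA (Fin m ⊕ Fin m) := SA_xx m
  have hdet : NbM.det ∈ SA (Fin m ⊕ Fin m) := SA_det _ hNs
  set cx : Fin m → MvPolynomial (Fin m ⊕ Fin m) ℂ := fun i =>
    (∏ i' ∈ Finset.univ.erase i, xx m i') * NbM.det * ∏ a, q a with hcx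
  set cd : MvPolynomial (Fin m ⊕ Fin m) ℂ := (∏ i, xx m i) * ∏ a, q a with hcd
  set cq : μ → MvPolynomial (Fin m ⊕ Fin m) ℂ := fun a =>
    (∏ i, xx m i) * NbM.det * ∏ a' ∈ Finset.univ.erase a, q a' with hcq
  have ex : ∀ i, δ = xx m i * cx i := by
    intro i
    rw [hδ, hcx, ← Finset.mul_prod_erase Finset.univ (xx m) (Finset.mem_univ i)]
    ring
  have ed : δ = NbM.det * cd := by rw [hδ, hcd]; ring
  have eq : ∀ a, δ = q a * cq a := by
    intro a
    rw [hδ, hcq, ← Finset.mul_prod_erase Finset.univ q (Finset.mem_univ a)]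
    ring
  have scx : ∀ i, cx i ∈ SA (Fin m ⊕ Fin m) := fun i =>
    (SA _).mul_mem ((SA _).mul_mem (SA_prod _ _ hxxs) hdet) (SA_prod _ _ hq)
  have scd : cd ∈ SA (Fin m ⊕ Fin m) := (SA _).mul_mem (SA_prod _ _ hxxs) (SA_prod _ _ hq)
  have scq : ∀ a, cq a ∈ SA (Fin m ⊕ Fin m) := fun a =>
    (SA _).mul_mem ((SA _).mul_mem (SA_prod _ _ hxxs) hdet) (SA_prod _ _ hq)
  have sinv : ∀ c ∈ SA (Fin m ⊕ Fin m), (X none * rename some c : MvPolynomial (Gx (Fin m)) ℂ) ∈
      SA (Gx (Fin m)) := fun c hc => (SA _).mul_mem (SA_X _) (SA_rename _ hc)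
  refine ⟨δ, fun i => X none * rename some (cx i),
    fun i t => rename some (xx m i ^ D * NbM.adjugate (e.symm i) t) * (X none * rename some cd),
    fun t i => rename some (Nb D j k m (τ t) i) * (X none * rename some (cx i)) ^ D,
    fun a => rename some (p a) * (X none * rename some (cq a)),
    (SA _).mul_mem ((SA _).mul_mem (SA_prod _ _ hxxs) hdet) (SA_prod _ _ hq),
    fun i => sinv _ (scx i),
    fun i t => (SA _).mul_mem (SA_rename _ ((SA _).mul_mem ((SA _).pow_mem (hxxs i) _)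
      (SA_adj _ hNs _ _))) (sinv _ scd),
    fun t i => (SA _).mul_mem (SA_rename _ (SA_Nb m _ _)) ((SA _).pow_mem (sinv _ (scx i)) _),
    fun a => (SA _).mul_mem (SA_rename _ (hp a)) (sinv _ (scq a)), ?_⟩
  intro ξ F hξ hq0 hF
  have hc : ∀ i, (1 / 2 + ξ i) * (1 / 2 - ξ i) ≠ 0 := by
    intro i
    have h1 : (1 / 2 + ξ i : ℂ) ≠ 0 := by
      intro h0
      have : ξ i = -(1 / 2) := by linear_combination h0
      have h2 := hξ i
      rw [this, norm_neg] at h2
      norm_num at h2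
    have h1' : (1 / 2 - ξ i : ℂ) ≠ 0 := by
      intro h0
      have : ξ i = (1 / 2) := by linear_combination -h0
      have h2 := hξ i
      rw [this] at h2
      norm_num at h2
    exact mul_ne_zero h1 h1'
  have hmat : (eval (gens D j k m ξ)).mapMatrix NbM = Matrix.of fun t t' =>
      (fun (t : T) (i : Fin m) => ze D ^ ((τ t : ℕ) * (i : ℕ)) * wt D j k (τ t) (ξ i)) t (e t') *
        (fun i : Fin m => ((1 / 2 + ξ i) * (1 / 2 - ξ i)) ^ D) (e t') := by
    ext1 t t'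
    exact eval_Nb hD0 hj hk (τ t).2 ξ (e t') (hξ _)
  obtain ⟨M1, M2⟩ := matrices e (fun (t : T) (i : Fin m) => ze D ^ ((τ t : ℕ) * (i : ℕ)) * wt D j k (τ t) (ξ i)) F hF
  obtain ⟨M3, M4⟩ := M2 (fun i => ((1 / 2 + ξ i) * (1 / 2 - ξ i)) ^ D) (fun i => pow_ne_zero _ (hc i))
  rw [← hmat] at M3 M4
  have hdn : eval (gens D j k m ξ) NbM.det = ((eval (gens D j k m ξ)).mapMatrix NbM).det :=
    RingHom.map_det _ _
  have hδn : eval (gens D j k m ξ) δ ≠ 0 := by
    rw [hδ, map_mul, map_mul, map_prod, map_prod, hdn]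
    refine mul_ne_zero (mul_ne_zero (Finset.prod_ne_zero_iff.2 fun i _ => ?_) M3)
      (Finset.prod_ne_zero_iff.2 fun a _ => hq0 a)
    rw [eval_xx]
    exact hc i
  refine ⟨hδn, fun i => ?_, fun i t => ?_, fun t i => ?_, fun a => ?_⟩
  · rw [← eval_xx (D := D) (j := j) (k := k) m ξ i]
    exact eval_inv _ (ex i) hδn
  · have h1 := eval_inv _ ed hδn
    have h2 : eval (gens D j k m ξ) (NbM.adjugate (e.symm i) t) =
        ((eval (gens D j k m ξ)).mapMatrix NbM).adjugate (e.symm i) t := by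
      rw [← RingHom.map_adjugate]
      rfl
    have h3 := M4 i t
    rw [← h2, ← hdn] at h3
    rw [map_mul, eval_some, map_mul, map_pow, eval_xx]
    rw [hdn] at h1 h3
    calc F i t = F i t * (eval (bvv δ (gens D j k m ξ)) (X none * rename some cd) *
          ((eval (gens D j k m ξ)).mapMatrix NbM).det) := by rw [h1, mul_one]
      _ = (F i t * ((eval (gens D j k m ξ)).mapMatrix NbM).det) *
          eval (bvv δ (gens D j k m ξ)) (X none * rename some cd) := by ring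
      _ = _ := by rw [h3]
  · have h1 := eval_inv _ (ex i) hδn
    rw [eval_xx] at h1
    rw [map_mul, eval_some, map_pow, eval_Nb hD0 hj hk (τ t).2 ξ i (hξ i)]
    rw [mul_assoc, ← mul_pow, mul_comm ((1 / 2 + ξ i) * (1 / 2 - ξ i)), h1, one_pow, mul_one]
  · have h1 := eval_inv _ (eq a) hδn
    rw [map_mul, eval_some, mul_assoc, h1, mul_one]

theorem gens_cont (m : ℕ) : ContinuousAt (gens D j k m) 0 := by
  rw [continuousAt_pi]
  rintro (i | i)
  · exact continuousAt_const.add (continuous_apply i).continuousAt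
  · change ContinuousAt (fun ξ : Fin m → ℂ => ze D ^ (i : ℕ) * ybr D j k (ξ i)) 0
    have h1 : ContinuousAt (fun ξ : Fin m → ℂ => ξ i) 0 := (continuous_apply i).continuousAt
    unfold ybr
    refine continuousAt_const.mul (((continuousAt_const.add h1).cpow continuousAt_const ?_).mul
      ((continuousAt_const.sub h1).cpow continuousAt_const ?_))
    · change (1 / 2 + (0 : Fin m → ℂ) i) ∈ Complex.slitPlane
      rw [Pi.zero_apply, add_zero]
      left
      norm_num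
    · change (1 / 2 - (0 : Fin m → ℂ) i) ∈ Complex.slitPlane
      rw [Pi.zero_apply, sub_zero]
      left
      norm_num

end JRaux

open JRaux

/-- (JR) the package without periods -/
theorem exists_pkg0 (hD : 3 ≤ D) (hj : 0 < j) (hk : 0 < k) (hjk : j + k < D)
    (hg : Nat.gcd (Nat.gcd j k) D = 1) :
    ∃ P : Pkg (Fin (Fintype.card (Ph D j k))) (Ph D j k), P.Ok0 ∧ Std D j k P := by
  obtain ⟨ρ, Ξ, hρ, hΞ, hΞ0, hΞle, hΞinj, hzp, -⟩ := chart (j := j) (k := k) hD
    (Subtype.val : Ph D j k → Fin D) Subtype.val_injective _ rfl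
  obtain ⟨μ, _, _, h, h1, h2, h3, h4⟩ := prim hD hj hk hjk hg
  choose p q hp hq hq0 hpq using h2
  choose P Q hP hQ hQ0 hPQ using h3
  obtain ⟨δ, ux, Jf, Jb, H, sδ, sux, sJf, sJb, sH, main⟩ := polys hD (j := j) (k := k) (by omega)
    (by omega) (Subtype.val : Ph D j k → Fin D) (Fintype.equivFin _) p q
    (fun a => (algC_iff _).1 (hp a)) (fun a => (algC_iff _).1 (hq a))
  set ad0 : MvPolynomial (μ ⊕ μ) ℂ := ∏ a, Q a with had0
  set ad : μ → MvPolynomial (μ ⊕ μ) ℂ := fun a => P a * ∏ a' ∈ Finset.univ.erase a, Q a' with had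
  have sad0 : ad0 ∈ SA (μ ⊕ μ) := SA_prod _ _ fun a => (algC_iff _).1 (hQ a)
  have sad : ∀ a, ad a ∈ SA (μ ⊕ μ) := fun a => (SA _).mul_mem ((algC_iff _).1 (hP a))
    (SA_prod _ _ fun a => (algC_iff _).1 (hQ a))
  have ead0 : ∀ a, ad0 = Q a * ∏ a' ∈ Finset.univ.erase a, Q a' := fun a => by
    rw [had0, ← Finset.mul_prod_erase Finset.univ Q (Finset.mem_univ a)]
  -- continuity
  have cΞ : ContinuousAt Ξ 0 := (hΞ.differentiableAt (ball_mem_nhds 0 hρ)).continuousAt
  have tΞ : Tendsto Ξ (𝓝 0) (𝓝 0) := by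
    have := cΞ.tendsto
    rwa [hΞ0] at this
  have cg : Tendsto (fun z => gens D j k (Fintype.card (Ph D j k)) (Ξ z)) (𝓝 0) (𝓝 (gens D j k (Fintype.card (Ph D j k)) 0)) :=
    (gens_cont _).tendsto.comp tΞ
  have ch : ContinuousAt h 0 := continuousAt_pi.2 fun a => (h1 a).continuousAt
  have E1 : ∀ᶠ z in 𝓝 (0 : Ph D j k → ℂ), ∀ a, eval (gens D j k (Fintype.card (Ph D j k)) (Ξ z)) (q a) ≠ 0 :=
    eventually_all.2 fun a => (((MvPolynomial.continuous_eval (q a)).tendsto _).comp cg).eventually_ne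
      (hq0 a)
  have E2 : ∀ᶠ z in 𝓝 (0 : Ph D j k → ℂ), ∀ a, h (zp D j k (Fintype.card (Ph D j k)) Subtype.val (Ξ z)) a *
      eval (gens D j k (Fintype.card (Ph D j k)) (Ξ z)) (q a) = eval (gens D j k (Fintype.card (Ph D j k)) (Ξ z)) (p a) :=
    eventually_all.2 fun a => tΞ.eventually (hpq a)
  have E3 : ∀ᶠ z in 𝓝 (0 : Ph D j k → ℂ), ∀ a, DifferentiableAt ℂ (fun z => h z a) z :=
    eventually_all.2 fun a => (h1 a).eventually_analyticAt.mono fun z hz => hz.differentiableAt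
  have E4 : ∀ᶠ z in 𝓝 (0 : Ph D j k → ℂ), ∀ a, ‖h z a‖ < 1 + ‖h 0‖ :=
    eventually_all.2 fun a => by
      have h5 : ContinuousAt (fun z => ‖h z a‖) 0 := (h1 a).continuousAt.norm
      refine h5.eventually_lt_const (lt_of_le_of_lt (norm_le_pi_norm (h 0) a) (by linarith))
  have ch2 : ContinuousAt (fun x : (Ph D j k → ℂ) × (Ph D j k → ℂ) => Sum.elim (h x.1) (h x.2)) 0 := by
    have c1 : ContinuousAt (fun x : (Ph D j k → ℂ) × (Ph D j k → ℂ) => h x.1) 0 :=
      ContinuousAt.comp (f := Prod.fst) (x := (0 : (Ph D j k → ℂ) × (Ph D j k → ℂ))) ch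
        continuousAt_fst
    have c2 : ContinuousAt (fun x : (Ph D j k → ℂ) × (Ph D j k → ℂ) => h x.2) 0 :=
      ContinuousAt.comp (f := Prod.snd) (x := (0 : (Ph D j k → ℂ) × (Ph D j k → ℂ))) ch
        continuousAt_snd
    rw [continuousAt_pi]
    rintro (a | a)
    · exact continuousAt_pi.1 c1 a
    · exact continuousAt_pi.1 c2 a
  have n0 : eval (Sum.elim (h 0) (h 0)) ad0 ≠ 0 := by
    rw [had0, map_prod]
    exact Finset.prod_ne_zero_iff.2 fun a _ => hQ0 a
  have cad : ContinuousAt (fun x : (Ph D j k → ℂ) × (Ph D j k → ℂ) =>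
      eval (Sum.elim (h x.1) (h x.2)) ad0) 0 :=
    ((MvPolynomial.continuous_eval ad0).tendsto _).comp ch2
  have E5 : ∀ᶠ x in 𝓝 (0 : (Ph D j k → ℂ) × (Ph D j k → ℂ)),
      ‖eval (Sum.elim (h 0) (h 0)) ad0‖ / 2 < ‖eval (Sum.elim (h x.1) (h x.2)) ad0‖ := by
    refine cad.norm.eventually_const_lt ?_
    exact half_lt_self (norm_pos_iff.2 n0)
  have E7 : ∀ᶠ x in 𝓝 (0 : (Ph D j k → ℂ) × (Ph D j k → ℂ)), ∀ a,
      h (x.1 + x.2) a * eval (Sum.elim (h x.1) (h x.2)) (Q a) =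
        eval (Sum.elim (h x.1) (h x.2)) (P a) := eventually_all.2 fun a => hPQ a
  obtain ⟨ε1, hε1, HE⟩ := Metric.eventually_nhds_iff_ball.1 (E1.and (E2.and (E3.and E4)))
  obtain ⟨ε2, hε2, HP⟩ := Metric.eventually_nhds_iff_ball.1 (E5.and E7)
  set r : ℝ := min ρ (min ε1 ε2) with hr
  have hr0 : 0 < r := lt_min hρ (lt_min hε1 hε2)
  have br : ∀ z ∈ ball (0 : Ph D j k → ℂ) r, z ∈ ball (0 : Ph D j k → ℂ) ρ := fun z hz =>
    ball_subset_ball (min_le_left _ _) hz
  have b1 : ∀ z ∈ ball (0 : Ph D j k → ℂ) r, z ∈ ball (0 : Ph D j k → ℂ) ε1 := fun z hz =>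
    ball_subset_ball ((min_le_right _ _).trans (min_le_left _ _)) hz
  have b2 : ∀ z ∈ ball (0 : Ph D j k → ℂ) r, ∀ w ∈ ball (0 : Ph D j k → ℂ) r,
      (z, w) ∈ ball (0 : (Ph D j k → ℂ) × (Ph D j k → ℂ)) ε2 := by
    intro z hz w hw
    have h5 : ∀ y ∈ ball (0 : Ph D j k → ℂ) r, ‖y‖ < ε2 := fun y hy => by
      rw [mem_ball_zero_iff] at hy
      exact hy.trans_le ((min_le_right _ _).trans (min_le_right _ _))
    rw [mem_ball_zero_iff, Prod.norm_def]
    exact max_lt (h5 z hz) (h5 w hw)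
  have hhalf : ∀ z ∈ ball (0 : Ph D j k → ℂ) (r / 2), z ∈ ball (0 : Ph D j k → ℂ) r := fun z hz =>
    ball_subset_ball (by linarith) hz
  have hsum : ∀ z ∈ ball (0 : Ph D j k → ℂ) (r / 2), ∀ w ∈ ball (0 : Ph D j k → ℂ) (r / 2),
      z + w ∈ ball (0 : Ph D j k → ℂ) r := by
    intro z hz w hw
    rw [mem_ball_zero_iff] at hz hw ⊢
    exact (norm_add_le z w).trans_lt (by linarith)
  have HE1 := fun z hz => (HE z (b1 z hz)).1
  have HE2 := fun z hz => (HE z (b1 z hz)).2.1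
  have HE3 := fun z hz => (HE z (b1 z hz)).2.2.1
  have HE4 := fun z hz => (HE z (b1 z hz)).2.2.2
  have HP0 : ∀ z ∈ ball (0 : Ph D j k → ℂ) r, ∀ w ∈ ball (0 : Ph D j k → ℂ) r,
      ‖eval (Sum.elim (h 0) (h 0)) ad0‖ / 2 < ‖eval (Sum.elim (h z) (h w)) ad0‖ :=
    fun z hz w hw => (HP _ (b2 z hz w hw)).1
  have HP1 : ∀ z ∈ ball (0 : Ph D j k → ℂ) r, ∀ w ∈ ball (0 : Ph D j k → ℂ) r, ∀ a,
      h (z + w) a * eval (Sum.elim (h z) (h w)) ad0 = eval (Sum.elim (h z) (h w)) (ad a) := by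
    intro z hz w hw a
    have h5 : h (z + w) a * eval (Sum.elim (h z) (h w)) (Q a) =
      eval (Sum.elim (h z) (h w)) (P a) := (HP _ (b2 z hz w hw)).2 a
    rw [ead0 a, had, map_mul, map_mul, ← mul_assoc, h5]
  -- the chart
  have M := fun z hz => main (Ξ z) (fun i t => fderiv ℂ (fun w => Ξ w i) z (Pi.single t 1))
    (fun i => (hΞle z (br z hz) i).trans (by norm_num : (1 / 8 : ℝ) < 1 / 2)) (HE1 z hz)
    (fun t t' => chain Subtype.val Ξ hΞ (fun z hz i => (hΞle z hz i).trans (by norm_num : (1 / 8 : ℝ) < 1 / 2)) hzp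
      (br z hz) t t')
  have J := fun z hz => (matrices (Fintype.equivFin (Ph D j k))
    (fun (t : Ph D j k) (i : Fin (Fintype.card (Ph D j k))) => ze D ^ ((t.1 : ℕ) * (i : ℕ)) * wt D j k t.1 (Ξ z i))
    (fun i t => fderiv ℂ (fun w => Ξ w i) z (Pi.single t 1))
    (fun t t' => chain Subtype.val Ξ hΞ (fun z hz i => (hΞle z hz i).trans (by norm_num : (1 / 8 : ℝ) < 1 / 2)) hzp
      (br z hz) t t')).1
  have Hh : ∀ z ∈ ball (0 : Ph D j k → ℂ) r, ∀ a, eval (bvv δ (gens D j k (Fintype.card (Ph D j k)) (Ξ z))) (H a) = h z a := by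
    intro z hz a
    have h5 := (M z hz).2.2.2.2 a
    have h6 := HE2 z hz a
    rw [hzp z (br z hz)] at h6
    rw [← h6] at h5
    exact mul_right_cancel₀ (HE1 z hz a) h5
  -- continuation
  have edup : ∀ (z : Ph D j k → ℂ) (p : MvPolynomial (μ ⊕ μ) ℂ),
      eval (h z) (rename (Sum.elim id id) p) = eval (Sum.elim (h z) (h z)) p := by
    intro z p
    rw [eval_rename]
    congr 2
    funext x
    rcases x with x | x <;> rfl
  obtain ⟨B, Cg, G0, G, hB, hCg, G1, G2, G3, G4, G5, G6⟩ := continuation r hr0 h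
    (fun a z hz => (HE3 z hz a).differentiableWithinAt) (1 + ‖h 0‖)
    (fun z hz a => (HE4 z hz a).le) (rename (Sum.elim id id) ad0)
    (fun a => rename (Sum.elim id id) (ad a)) (‖eval (Sum.elim (h 0) (h 0)) ad0‖ / 2)
    (half_pos (norm_pos_iff.2 n0))
    (fun z hz => by
      rw [edup]
      exact (HP0 z (hhalf z hz) z (hhalf z hz)).le)
    (fun z hz a => by
      rw [edup, edup, two_smul]
      exact HP1 z (hhalf z hz) z (hhalf z hz) a)
  -- the package
  let Pk : Pkg (Fin (Fintype.card (Ph D j k))) (Ph D j k) :=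
    { D := fun _ => D
      j := fun _ => j
      k := fun _ => k
      hD := fun _ => ⟨hD, hj, hk, hjk, hg⟩
      s := fun i => ze D ^ (i : ℕ)
      hs := fun i => by
        have h5 : ze D ^ D = 1 := (Complex.isPrimitiveRoot_exp D (by omega)).pow_eq_one
        rw [← pow_mul, mul_comm, pow_mul, h5, one_pow]
      r := r
      hr := hr0
      ξ := Ξ
      ξana := hΞ.mono (ball_subset_ball (min_le_left _ _))
      ξ0 := hΞ0
      ξinj := hΞinj.mono (ball_subset_ball (min_le_left _ _))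
      ξle := fun z hz i => (hΞle z (br z hz) i).trans (by norm_num)
      δ := δ
      δalg := (algC_iff _).2 sδ
      δne := fun z hz => (M z hz).1
      ux := ux
      uxalg := fun i => (algC_iff _).2 (sux i)
      Jf := Jf
      Jb := Jb
      Jfalg := fun i t => (algC_iff _).2 (sJf i t)
      Jbalg := fun t i => (algC_iff _).2 (sJb t i)
      μ := μ
      H := H
      Halg := fun a => (algC_iff _).2 (sH a)
      ad0 := ad0
      ad := ad
      ad0alg := (algC_iff _).2 sad0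
      adalg := fun a => (algC_iff _).2 (sad a)
      B := B
      hB := hB
      Cg := Cg
      hCg := hCg
      G0 := G0
      G := G
      Λ := ⊥ }
  have ebv : ∀ z, Pk.bv z = bvv δ (gens D j k (Fintype.card (Ph D j k)) (Ξ z)) := by
    intro z
    funext x
    rcases x with _ | (x | x) <;> rfl
  have eh : ∀ z ∈ ball (0 : Ph D j k → ℂ) r, ∀ a, Pk.h z a = h z a := by
    intro z hz a
    change eval (Pk.bv z) (H a) = h z a
    rw [ebv]
    exact Hh z hz a
  have eh' : ∀ z ∈ ball (0 : Ph D j k → ℂ) r, Pk.h z = h z := fun z hz => funext (eh z hz)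
  refine ⟨Pk, ?_, ?_⟩
  · refine ⟨?_, ?_, ?_, ?_, ?_, ?_, ?_, G1, G2, G3, G4, G5, ?_⟩
    · intro z hz i
      rw [ebv]
      exact (M z hz).2.1 i
    · intro z hz i t
      rw [ebv]
      exact (M z hz).2.2.1 i t
    · intro z hz i i'
      rw [ebv, ← J z hz i i']
      refine Finset.sum_congr rfl fun t _ => ?_
      rw [(M z hz).2.2.1 i t]
      exact congrArg _ ((M z hz).2.2.2.1 t i')
    · intro z hz t t'
      rw [ebv]
      rw [← chain Subtype.val Ξ hΞ (fun z hz i => (hΞle z hz i).trans (by norm_num : (1 / 8 : ℝ) < 1 / 2)) hzp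
        (br z hz) t t']
      refine Finset.sum_congr rfl fun i _ => ?_
      rw [(M z hz).2.2.1 i t']
      exact congrArg (· * _) ((M z hz).2.2.2.1 t i)
    · intro z hz w hw
      rw [eh' z (hhalf z hz), eh' w (hhalf w hw)]
      have h5 := HP0 z (hhalf z hz) w (hhalf w hw)
      intro h6
      change eval (Sum.elim (h z) (h w)) ad0 = 0 at h6
      rw [h6, norm_zero] at h5
      have := norm_nonneg (eval (Sum.elim (h 0) (h 0)) ad0)
      linarith
    · intro z hz w hw a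
      rw [eh' z (hhalf z hz), eh' w (hhalf w hw), eh (z + w) (hsum z hz w hw) a]
      exact HP1 z (hhalf z hz) w (hhalf w hw) a
    · obtain ⟨u, hu⟩ := exists_basis_rows
        (fun (a : μ) (t : Ph D j k) => fderiv ℂ (fun z => h z a) 0 (Pi.single t 1)) (by
          intro v hv
          obtain ⟨a, ha⟩ := h4 v hv
          refine ⟨a, fun h5 => ha ?_⟩
          rw [← h5]
          conv_lhs => rw [← Finset.univ_sum_single v]
          rw [map_sum]
          refine Finset.sum_congr rfl fun t _ => ?_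
          have h6 : (Pi.single t (v t) : Ph D j k → ℂ) = v t • Pi.single t 1 := by
            rw [← Pi.single_smul, smul_eq_mul, mul_one]
          rw [h6, map_smul, smul_eq_mul])
      refine ⟨u, ?_⟩
      have h5 : (Matrix.of fun t t' => fderiv ℂ (fun w => Pk.h w (u t')) 0 (Pi.single t 1)) =
          (Matrix.of fun t t' => fderiv ℂ (fun z => h z (u t')) 0 (Pi.single t 1)) := by
        ext1 t t'
        simp only [Matrix.of_apply]
        have h6 : (fun w => Pk.h w (u t')) =ᶠ[𝓝 0] fun z => h z (u t') := by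
          filter_upwards [ball_mem_nhds (0 : Ph D j k → ℂ) hr0] with z hz
          exact eh z hz _
        rw [h6.fderiv_eq]
      rw [h5]
      exact hu
    · intro n a z hz
      rw [eh z hz a]
      exact G6 n a z hz
  · exact ⟨fun _ => rfl, fun _ => rfl, fun _ => rfl, fun _ => rfl, fun z hz => hzp z (br z hz)⟩

end Pool.Agent.WW
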