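import Pool.Agent.WW.JDefs

set_option autoImplicit false

namespace Pool.Agent.WW

open MvPolynomial Metric Filter Topology

variable {π ι : Type} [Fintype π] [Fintype ι] [DecidableEq π] [DecidableEq ι] (P : Pkg π ι)

/-- the properties of a package except those about periods -/
structure Pkg.Ok0 : Prop where
  ux : ∀ z ∈ ball (0 : ι → ℂ) P.r, ∀ i,
    eval (P.bv z) (P.ux i) * ((1 / 2 + P.ξ z i) * (1 / 2 - P.ξ z i)) = 1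
  Jf : ∀ z ∈ ball (0 : ι → ℂ) P.r, ∀ i t,
    fderiv ℂ (fun w => P.ξ w i) z (Pi.single t 1) = eval (P.bv z) (P.Jf i t)
  Jfb : ∀ z ∈ ball (0 : ι → ℂ) P.r, ∀ i i',
    ∑ t, eval (P.bv z) (P.Jf i t) * eval (P.bv z) (P.Jb t i') = if i = i' then 1 else 0
  Jbf : ∀ z ∈ ball (0 : ι → ℂ) P.r, ∀ t t',
    ∑ i, eval (P.bv z) (P.Jb t i) * eval (P.bv z) (P.Jf i t') = if t = t' then 1 else 0
  ad0 : ∀ z ∈ ball (0 : ι → ℂ) (P.r / 2), ∀ w ∈ ball (0 : ι → ℂ) (P.r / 2),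
    eval (Sum.elim (P.h z) (P.h w)) P.ad0 ≠ 0
  ad : ∀ z ∈ ball (0 : ι → ℂ) (P.r / 2), ∀ w ∈ ball (0 : ι → ℂ) (P.r / 2), ∀ a,
    P.h (z + w) a * eval (Sum.elim (P.h z) (P.h w)) P.ad0 = eval (Sum.elim (P.h z) (P.h w)) (P.ad a)
  imm : ∃ u : ι → P.μ,
    (Matrix.of fun t t' => fderiv ℂ (fun w => P.h w (u t')) 0 (Pi.single t 1)).det ≠ 0
  G0ana : ∀ n, DifferentiableOn ℂ (P.G0 n) (ball 0 (2 ^ n * P.r))
  Gana : ∀ n a, DifferentiableOn ℂ (P.G n a) (ball 0 (2 ^ n * P.r))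
  G0le : ∀ n, ∀ z ∈ ball (0 : ι → ℂ) (2 ^ n * P.r), ‖P.G0 n z‖ ≤ Real.exp (P.Cg * P.B ^ n)
  Gle : ∀ n a, ∀ z ∈ ball (0 : ι → ℂ) (2 ^ n * P.r), ‖P.G n a z‖ ≤ Real.exp (P.Cg * P.B ^ n)
  G0ge : ∀ n, ∀ z ∈ ball (0 : ι → ℂ) P.r, Real.exp (-(P.Cg * P.B ^ n)) ≤ ‖P.G0 n z‖
  Geq : ∀ n a, ∀ z ∈ ball (0 : ι → ℂ) P.r, P.G n a z = P.h z a * P.G0 n z

/-- change of the group of periods -/
def Pkg.setL (L : AddSubgroup (ι → ℂ)) : Pkg π ι := { P with Λ := L }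

theorem Pkg.Ok0.ok (hP : P.Ok0) (L : AddSubgroup (ι → ℂ))
    (per : ∀ l ∈ L, ∀ n, ‖l‖ + P.r ≤ 2 ^ n * P.r → ∀ z ∈ ball (0 : ι → ℂ) P.r, ∀ a,
      P.G n a (l + z) * P.G0 n z = P.G n a z * P.G0 n (l + z))
    (full : Submodule.span ℝ (L : Set (ι → ℂ)) = ⊤) : (P.setL L).Ok where
  ux := hP.ux
  Jf := hP.Jf
  Jfb := hP.Jfb
  Jbf := hP.Jbf
  ad0 := hP.ad0
  ad := hP.ad
  imm := hP.imm
  G0ana := hP.G0ana
  Gana := hP.Gana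
  G0le := hP.G0le
  Gle := hP.Gle
  G0ge := hP.G0ge
  Geq := hP.Geq
  per := per
  full := full

/-- the package uses the standard chart of the curve `y^D = x^j (1-x)^k` -/
structure Std (D j k : ℕ) (P : Pkg (Fin (Fintype.card (Ph D j k))) (Ph D j k)) : Prop where
  eD : ∀ i, P.D i = D
  ej : ∀ i, P.j i = j
  ek : ∀ i, P.k i = k
  es : ∀ i, P.s i = ze D ^ (i : ℕ)
  chart : ∀ z ∈ ball (0 : Ph D j k → ℂ) P.r,
    zp D j k (Fintype.card (Ph D j k)) Subtype.val (P.ξ z) = z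

end Pool.Agent.WW
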