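import Pool.Agent.WW.JRDefs
import Pool.Agent.WW.JL
import Pool.Agent.WW.Fin0

set_option autoImplicit false

namespace Pool.Agent.WW

open MvPolynomial Metric Filter Topology

variable {D j k : ℕ}

/-- the half Beta values -/
noncomputable def bh (D j k t : ℕ) : ℂ := ∫ u in (0 : ℝ)..(1 / 2),
  (u : ℂ) ^ (((t * j % D : ℕ) : ℂ) / D - 1) * (1 - u : ℂ) ^ (((t * k % D : ℕ) : ℂ) / D - 1)

/-- the other half -/
noncomputable def bh' (D j k t : ℕ) : ℂ := ∫ u in (1 / 2 : ℝ)..1,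
  (u : ℂ) ^ (((t * j % D : ℕ) : ℂ) / D - 1) * (1 - u : ℂ) ^ (((t * k % D : ℕ) : ℂ) / D - 1)

/-- `x^α G(x) = ∫_0^x v^(α-1) (1-v)^(β-1) dv` -/
noncomputable def jsG (α β x : ℂ) : ℂ :=
  ∫ v in (0 : ℝ)..1, (v : ℂ) ^ (α - 1) * (1 - v * x) ^ (β - 1)

lemma js_slit {v : ℝ} {x : ℂ} (h0 : 0 ≤ v) (h1 : v ≤ 1) (hx : ‖x‖ < 1) :
    1 - (v : ℂ) * x ∈ Complex.slitPlane := by
  rw [Complex.mem_slitPlane_iff]
  left
  have h2 := (Complex.abs_re_le_norm x)
  have h3 : |x.re| < 1 := lt_of_le_of_lt h2 hx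
  rw [abs_lt] at h3
  simp only [Complex.sub_re, Complex.one_re, Complex.mul_re, Complex.ofReal_re, Complex.ofReal_im,
    zero_mul, sub_zero]
  nlinarith

lemma js_int {α : ℂ} (hα : 0 < α.re) {ψ : ℝ → ℂ} (hψ : ContinuousOn ψ (Set.Icc 0 1)) :
    IntervalIntegrable (fun v : ℝ => (v : ℂ) ^ (α - 1) * ψ v) MeasureTheory.volume 0 1 := by
  refine IntervalIntegrable.mul_continuousOn ?_ (by rwa [Set.uIcc_of_le zero_le_one])
  refine intervalIntegral.intervalIntegrable_cpow' ?_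
  simp only [Complex.sub_re, Complex.one_re]
  linarith

lemma js_cont {x : ℂ} (hx : ‖x‖ < 1) (γ : ℂ) :
    ContinuousOn (fun v : ℝ => (1 - (v : ℂ) * x) ^ γ) (Set.Icc 0 1) := by
  intro v hv
  refine ContinuousAt.continuousWithinAt ?_
  refine ContinuousAt.cpow (by fun_prop) continuousAt_const (js_slit hv.1 hv.2 hx)

lemma js_G_deriv {α β x₀ : ℂ} (hα : 0 < α.re) (hx : ‖x₀‖ < 1) :
    HasDerivAt (jsG α β) (∫ v in (0:ℝ)..1, (v : ℂ) ^ (α - 1) *
      ((β - 1) * (1 - v * x₀) ^ (β - 1 - 1) * (-v))) x₀ := by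
  set r : ℝ := (1 - ‖x₀‖) / 2 with hr
  have hr0 : 0 < r := by rw [hr]; linarith
  have hball : ∀ x ∈ closedBall x₀ r, ‖x‖ < 1 := by
    intro x hx'
    have h1 : ‖x - x₀‖ ≤ r := by rwa [mem_closedBall, dist_eq_norm] at hx'
    have h2 : ‖x‖ ≤ ‖x₀‖ + ‖x - x₀‖ := by
      calc ‖x‖ = ‖x₀ + (x - x₀)‖ := by ring_nf
        _ ≤ _ := norm_add_le _ _
    rw [hr] at h1
    linarith
  -- bound of the kernel
  have hK : ∃ C : ℝ, ∀ p ∈ closedBall x₀ r ×ˢ Set.Icc (0:ℝ) 1,
      ‖(β - 1) * (1 - (p.2 : ℂ) * p.1) ^ (β - 1 - 1) * (-(p.2 : ℂ))‖ ≤ C := by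
    refine (IsCompact.exists_bound_of_continuousOn
      ((isCompact_closedBall x₀ r).prod isCompact_Icc) ?_)
    intro p hp
    refine ContinuousAt.continuousWithinAt ?_
    refine ContinuousAt.mul (ContinuousAt.mul continuousAt_const ?_) (by fun_prop)
    refine ContinuousAt.cpow (by fun_prop) continuousAt_const
      (js_slit hp.2.1 hp.2.2 (hball _ hp.1))
  obtain ⟨C, hC⟩ := hK
  have h := intervalIntegral.hasDerivAt_integral_of_dominated_loc_of_deriv_le
    (μ := MeasureTheory.volume) (a := (0:ℝ)) (b := 1) (𝕜 := ℂ)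
    (F := fun x v => (v : ℂ) ^ (α - 1) * (1 - v * x) ^ (β - 1))
    (F' := fun x v => (v : ℂ) ^ (α - 1) * ((β - 1) * (1 - v * x) ^ (β - 1 - 1) * (-v)))
    (x₀ := x₀) (s := closedBall x₀ r) (bound := fun v => ‖(v : ℂ) ^ (α - 1)‖ * C)
    (closedBall_mem_nhds x₀ hr0) ?_ ?_ ?_ ?_ ?_ ?_
  · exact h.2
  · filter_upwards [closedBall_mem_nhds x₀ hr0] with x hx'
    have := js_int hα (js_cont (hball x hx') (β - 1))
    rw [intervalIntegrable_iff] at this
    exact this.aestronglyMeasurable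
  · exact js_int hα (js_cont hx (β - 1))
  · have := js_int hα (ψ := fun v => (β - 1) * (1 - v * x₀) ^ (β - 1 - 1) * (-v))
      ((continuousOn_const.mul (js_cont hx (β - 1 - 1))).mul (by fun_prop))
    rw [intervalIntegrable_iff] at this
    exact this.aestronglyMeasurable
  · refine Eventually.of_forall fun v hv x hx' => ?_
    rw [norm_mul]
    refine mul_le_mul_of_nonneg_left ?_ (norm_nonneg _)
    rw [Set.uIoc_of_le zero_le_one] at hv
    exact hC (x, v) ⟨hx', hv.1.le, hv.2⟩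
  · have := (js_int hα (ψ := fun _ => 1) continuousOn_const).norm
    simp only [mul_one] at this
    exact this.mul_const C
  · refine Eventually.of_forall fun v hv x hx' => ?_
    rw [Set.uIoc_of_le zero_le_one] at hv
    refine HasDerivAt.const_mul _ ?_
    have h1 : HasDerivAt (fun x : ℂ => 1 - (v : ℂ) * x) (-(v : ℂ)) x := by
      have := ((hasDerivAt_id x).const_mul (v : ℂ)).const_sub 1
      simpa using this
    exact h1.cpow_const (js_slit hv.1.le hv.2 (hball x hx'))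

lemma js_G_ode {α β x : ℂ} (hα : 0 < α.re) (hx : ‖x‖ < 1) :
    α * jsG α β x + x * (∫ v in (0:ℝ)..1, (v : ℂ) ^ (α - 1) *
      ((β - 1) * (1 - v * x) ^ (β - 1 - 1) * (-v))) = (1 - x) ^ (β - 1) := by
  have i1 := js_int hα (js_cont hx (β - 1))
  have i2 := js_int hα (ψ := fun v => (β - 1) * (1 - v * x) ^ (β - 1 - 1) * (-v))
      ((continuousOn_const.mul (js_cont hx (β - 1 - 1))).mul (by fun_prop))
  unfold jsG
  rw [← intervalIntegral.integral_const_mul, ← intervalIntegral.integral_const_mul,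
    ← intervalIntegral.integral_add (i1.const_mul α) (i2.const_mul x)]
  have hα0 : α ≠ 0 := by
    intro h
    rw [h] at hα
    simp at hα
  have h := intervalIntegral.integral_eq_sub_of_hasDerivAt_of_le
    (f := fun v : ℝ => (v : ℂ) ^ α * (1 - v * x) ^ (β - 1)) (a := (0:ℝ)) (b := 1)
    (f' := fun v : ℝ => α * ((v : ℂ) ^ (α - 1) * (1 - v * x) ^ (β - 1)) +
      x * ((v : ℂ) ^ (α - 1) * ((β - 1) * (1 - v * x) ^ (β - 1 - 1) * (-v))))
    zero_le_one ?_ ?_ ((i1.const_mul α).add (i2.const_mul x))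
  · rw [h]
    simp [hα0]
  · refine ContinuousOn.mul ?_ (js_cont hx (β - 1))
    intro v hv
    refine ContinuousAt.continuousWithinAt ?_
    exact Complex.continuousAt_ofReal_cpow_const v α (Or.inl hα)
  · intro v hv
    have hv0 : (v : ℂ) ≠ 0 := by exact_mod_cast hv.1.ne'
    have h1 : HasDerivAt (fun v : ℝ => (v : ℂ) ^ α) (α * (v : ℂ) ^ (α - 1)) v := by
      have h2 : HasDerivAt (fun z : ℂ => z ^ α) (α * (v : ℂ) ^ (α - 1) * 1) (v : ℂ) :=
        (hasDerivAt_id (v : ℂ)).cpow_const (by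
          rw [id, Complex.mem_slitPlane_iff]; left; simpa using hv.1)
      have := h2.comp_ofReal
      simpa using this
    have h3 : HasDerivAt (fun v : ℝ => (1 - (v : ℂ) * x) ^ (β - 1))
        ((β - 1) * (1 - (v : ℂ) * x) ^ (β - 1 - 1) * (-x)) v := by
      have h4 : HasDerivAt (fun z : ℂ => 1 - z * x) (-x) (v : ℂ) := by
        have := ((hasDerivAt_id (v : ℂ)).mul_const x).const_sub 1
        simpa using this
      exact (h4.cpow_const (js_slit hv.1.le hv.2.le hx)).comp_ofReal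
    refine (h1.mul h3).congr_deriv ?_
    have h5 : (v : ℂ) ^ α = (v : ℂ) ^ (α - 1) * v := by
      rw [Complex.cpow_sub _ _ hv0, Complex.cpow_one]
      field_simp
    rw [h5]
    ring

/-- the primitive in the coordinate `u = log x` -/
noncomputable def jsA (α β u : ℂ) : ℂ := Complex.exp (α * u) * jsG α β (Complex.exp u)

lemma js_exp_lt {u : ℂ} (hu : u.re < 0) : ‖Complex.exp u‖ < 1 := by
  rw [Complex.norm_exp]
  have := Real.exp_lt_exp.2 hu
  rwa [Real.exp_zero] at this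

lemma js_A_deriv {α β u : ℂ} (hα : 0 < α.re) (hu : u.re < 0) :
    HasDerivAt (jsA α β) (Complex.exp (α * u) * (1 - Complex.exp u) ^ (β - 1)) u := by
  have h1 : HasDerivAt (fun u => Complex.exp (α * u)) (Complex.exp (α * u) * α) u := by
    have := ((hasDerivAt_id u).const_mul α).cexp
    simpa using this
  have h2 := (js_G_deriv (β := β) hα (js_exp_lt hu)).comp u (Complex.hasDerivAt_exp u)
  refine (h1.mul h2).congr_deriv ?_
  rw [← js_G_ode hα (js_exp_lt hu)]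
  simp only [Function.comp]
  ring

lemma js_A_period (α β u : ℂ) :
    jsA α β (u + 2 * Real.pi * Complex.I) = Complex.exp (α * (2 * Real.pi * Complex.I)) *
      jsA α β u := by
  unfold jsA
  rw [Complex.exp_periodic u, mul_add, Complex.exp_add]
  ring

/-- the base point -/
noncomputable def jsu : ℂ := ((-Real.log 2 : ℝ) : ℂ)

lemma jsu_re : jsu.re < 0 := by
  unfold jsu
  rw [Complex.ofReal_re]
  have := Real.log_pos one_lt_two
  linarith

lemma jsu_exp : Complex.exp jsu = 1 / 2 := by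
  unfold jsu
  rw [← Complex.ofReal_exp, Real.exp_neg, Real.exp_log two_pos]
  norm_num

lemma js_A_base (α β : ℂ) :
    jsA α β jsu = ∫ u in (0 : ℝ)..(1 / 2), (u : ℂ) ^ (α - 1) * (1 - u : ℂ) ^ (β - 1) := by
  have h1 : Complex.exp (α * jsu) = (1 / 2 : ℂ) ^ α := by
    rw [Complex.cpow_def_of_ne_zero (by norm_num)]
    have : Complex.log (1 / 2) = jsu := by
      have h2 : (1 / 2 : ℂ) = ((1 / 2 : ℝ) : ℂ) := by norm_num
      rw [h2, ← Complex.ofReal_log (by norm_num)]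
      unfold jsu
      rw [one_div, Real.log_inv]
    rw [this, mul_comm]
  unfold jsA jsG
  rw [jsu_exp, h1, ← intervalIntegral.integral_const_mul]
  have h3 := intervalIntegral.integral_comp_mul_left
    (fun u : ℝ => (u : ℂ) ^ (α - 1) * (1 - u : ℂ) ^ (β - 1)) (a := (0:ℝ)) (b := 1)
    (c := (1/2 : ℝ)) (by norm_num)
  have h4 : (∫ u in (0 : ℝ)..(1 / 2), (u : ℂ) ^ (α - 1) * (1 - u : ℂ) ^ (β - 1)) =
      (1 / 2 : ℝ) • ∫ x in (0:ℝ)..1, (((1/2 * x : ℝ) : ℂ)) ^ (α - 1) *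
        (1 - ((1 / 2 * x : ℝ) : ℂ)) ^ (β - 1) := by
    rw [h3]
    norm_num
    ring
  rw [h4, ← intervalIntegral.integral_smul]
  refine intervalIntegral.integral_congr fun v hv => ?_
  rw [Set.uIcc_of_le zero_le_one] at hv
  have h5 : ((1 / 2 * v : ℝ) : ℂ) ^ (α - 1) = (1 / 2 : ℂ) ^ (α - 1) * (v : ℂ) ^ (α - 1) := by
    rw [Complex.ofReal_mul, Complex.mul_cpow_ofReal_nonneg (by norm_num) hv.1]
    norm_num
  rw [h5, Complex.cpow_sub _ _ (by norm_num : (1 / 2 : ℂ) ≠ 0), Complex.cpow_one,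
    Complex.real_smul]
  have h6 : (1 - ((1 / 2 * v : ℝ) : ℂ)) = 1 - (v : ℂ) * (1 / 2) := by
    push_cast
    ring
  rw [h6]
  push_cast
  ring

lemma js_ident {Φ : ℂ → ℂ} {U : Set ℂ} (hU : IsOpen U) (hΦ : DifferentiableOn ℂ Φ U) {a b : ℂ}
    (hab : segment ℝ a b ⊆ U) (hne : a ≠ b) (h : ∀ᶠ u in 𝓝 a, Φ u = 0) :
    ∀ᶠ u in 𝓝 b, Φ u = 0 := by
  have h1 : AnalyticOnNhd ℂ Φ (segment ℝ a b) := (hΦ.analyticOnNhd hU).mono hab
  have h2 : Set.EqOn Φ 0 (segment ℝ a b) :=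
    h1.eqOn_zero_of_preconnected_of_eventuallyEq_zero (convex_segment a b).isPreconnected
      (left_mem_segment ℝ a b) h
  refine (h1 b (right_mem_segment ℝ a b)).frequently_zero_iff_eventually_zero.1 ?_
  intro h3
  have h4 : Tendsto (fun θ : ℝ => b + (θ : ℂ) * (a - b)) (𝓝[>] 0) (𝓝[≠] b) := by
    rw [tendsto_nhdsWithin_iff]
    constructor
    · have : Tendsto (fun θ : ℝ => b + (θ : ℂ) * (a - b)) (𝓝 0) (𝓝 (b + ((0 : ℝ) : ℂ) * (a - b))) := by
        refine Continuous.tendsto ?_ 0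
        fun_prop
      simp only [Complex.ofReal_zero, zero_mul, add_zero] at this
      exact this.mono_left nhdsWithin_le_nhds
    · filter_upwards [self_mem_nhdsWithin] with θ hθ
      simp only [Set.mem_compl_iff, Set.mem_singleton_iff, add_eq_left, mul_eq_zero,
        Complex.ofReal_eq_zero, sub_eq_zero, not_or]
      exact ⟨(Set.mem_Ioi.1 hθ).ne', hne⟩
  have h5 := h4.eventually h3
  have h6 : ∀ᶠ θ : ℝ in 𝓝[>] 0, θ ∈ Set.Ioo (0 : ℝ) 1 := Ioo_mem_nhdsGT one_pos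
  obtain ⟨θ, h7, h8⟩ := (h5.and h6).exists
  apply h7
  refine h2 ?_
  rw [segment_symm, segment_eq_image]
  refine ⟨θ, ⟨h8.1.le, h8.2.le⟩, ?_⟩
  simp only [Complex.real_smul]
  push_cast
  ring

lemma js_log {u : ℂ} (hu : |u.im| < Real.pi) : Complex.log (Complex.exp u) = u := by
  rw [abs_lt] at hu
  exact Complex.log_exp hu.1 hu.2.le

/-- the good neighbourhood of the base point -/
lemma js_nhd : ∃ ε : ℝ, 0 < ε ∧ ∀ u ∈ ball jsu ε,
    |u.im| < Real.pi ∧ u.re < 0 ∧ ‖Complex.exp u - 1 / 2‖ < 1 / 2 := by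
  have h1 : ∀ᶠ u in 𝓝 jsu, |u.im| < Real.pi := by
    refine ContinuousAt.eventually_lt (f := fun u : ℂ => |u.im|) (g := fun _ => Real.pi)
      (by fun_prop) continuousAt_const ?_
    unfold jsu
    rw [Complex.ofReal_im, abs_zero]
    exact Real.pi_pos
  have h2 : ∀ᶠ u in 𝓝 jsu, u.re < 0 :=
    ContinuousAt.eventually_lt (f := fun u : ℂ => u.re) (g := fun _ => (0:ℝ))
      (by fun_prop) continuousAt_const jsu_re
  have h3 : ∀ᶠ u in 𝓝 jsu, ‖Complex.exp u - 1 / 2‖ < 1 / 2 := by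
    refine ContinuousAt.eventually_lt (f := fun u : ℂ => ‖Complex.exp u - 1 / 2‖)
      (g := fun _ => (1 / 2 : ℝ)) (by fun_prop) continuousAt_const ?_
    rw [jsu_exp]
    norm_num
  obtain ⟨ε, h4, h5⟩ := Metric.eventually_nhds_iff_ball.1 (h1.and (h2.and h3))
  exact ⟨ε, h4, h5⟩

lemma js_re {a : ℕ} (hD : 0 < D) (ha : 0 < a) : 0 < ((((a : ℕ) : ℂ) / D)).re := by
  have h1 : (((a : ℕ) : ℂ) / D) = ((((a : ℕ) : ℝ) / (D : ℝ) : ℝ) : ℂ) := by
    push_cast; rfl
  rw [h1, Complex.ofReal_re]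
  have : (0 : ℝ) < ((a : ℕ) : ℝ) := by exact_mod_cast ha
  have hD' : (0 : ℝ) < D := by exact_mod_cast hD
  positivity

lemma js_aint (hD : 0 < D) {t : ℕ} (ht : 0 < t * j % D) : ∀ᶠ u in 𝓝 jsu,
    aint D j k t (Complex.exp u - 1 / 2) =
      jsA (((t * j % D : ℕ) : ℂ) / D) (((t * k % D : ℕ) : ℂ) / D) u -
      jsA (((t * j % D : ℕ) : ℂ) / D) (((t * k % D : ℕ) : ℂ) / D) jsu := by
  have hα := js_re (D := D) hD ht
  set α : ℂ := ((t * j % D : ℕ) : ℂ) / D with hαd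
  set β : ℂ := ((t * k % D : ℕ) : ℂ) / D with hβd
  obtain ⟨ε, hε, hb⟩ := js_nhd
  have hd : ∀ u ∈ ball jsu ε, HasDerivAt (fun u => aint D j k t (Complex.exp u - 1 / 2) -
      jsA α β u) 0 u := by
    intro u hu
    obtain ⟨h1, h2, h3⟩ := hb u hu
    have h4 : HasDerivAt (fun u : ℂ => Complex.exp u - 1 / 2) (Complex.exp u) u :=
      (Complex.hasDerivAt_exp u).sub_const _
    have h5 := (aint_deriv (D := D) (j := j) (k := k) t h3).comp u h4
    refine (h5.sub (js_A_deriv (β := β) hα h2)).congr_deriv ?_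
    unfold wt
    have e1 : (1 / 2 + (Complex.exp u - 1 / 2) : ℂ) = Complex.exp u := by ring
    have e2 : (1 / 2 - (Complex.exp u - 1 / 2) : ℂ) = 1 - Complex.exp u := by ring
    rw [e1, e2, Complex.cpow_def_of_ne_zero (Complex.exp_ne_zero u), js_log h1]
    have e3 : Complex.exp (α * u) = Complex.exp (u * (α - 1)) * Complex.exp u := by
      rw [← Complex.exp_add]
      congr 1
      ring
    rw [e3]
    ring
  filter_upwards [ball_mem_nhds jsu hε] with u hu
  have h := isOpen_ball.is_const_of_deriv_eq_zero (convex_ball jsu ε).isPreconnected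
    (fun v hv => (hd v hv).differentiableAt.differentiableWithinAt)
    (fun v hv => (hd v hv).deriv) hu (mem_ball_self hε)
  rw [jsu_exp, sub_self, aint_zero] at h
  linear_combination h

/-- the function `y` in the coordinate `u = log x` -/
noncomputable def jsY (D j k : ℕ) (u : ℂ) : ℂ :=
  Complex.exp (u * ((j : ℂ) / D)) * (1 - Complex.exp u) ^ ((k : ℂ) / D)

lemma js_ybr (D j k : ℕ) : ∀ᶠ u in 𝓝 jsu, ybr D j k (Complex.exp u - 1 / 2) = jsY D j k u := by
  obtain ⟨ε, hε, hb⟩ := js_nhd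
  filter_upwards [ball_mem_nhds jsu hε] with u hu
  obtain ⟨h1, h2, h3⟩ := hb u hu
  unfold ybr jsY
  have e1 : (1 / 2 + (Complex.exp u - 1 / 2) : ℂ) = Complex.exp u := by ring
  have e2 : (1 / 2 - (Complex.exp u - 1 / 2) : ℂ) = 1 - Complex.exp u := by ring
  rw [e1, e2, Complex.cpow_def_of_ne_zero (Complex.exp_ne_zero u), js_log h1]

lemma jsY_diff (D j k : ℕ) {u : ℂ} (hu : u.re < 0) : DifferentiableAt ℂ (jsY D j k) u := by
  unfold jsY
  refine DifferentiableAt.mul (by fun_prop) ?_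
  refine DifferentiableAt.cpow_const (by fun_prop) ?_
  have := js_slit (v := 1) (x := Complex.exp u) zero_le_one le_rfl (js_exp_lt hu)
  simpa using this

lemma jsY_period (D j k : ℕ) (u : ℂ) :
    jsY D j k (u + 2 * Real.pi * Complex.I) = ze D ^ j * jsY D j k u := by
  unfold jsY ze
  rw [Complex.exp_periodic u, ← Complex.exp_nat_mul, add_mul, Complex.exp_add]
  have : (2 * Real.pi * Complex.I * ((j : ℂ) / D)) = (j : ℂ) * (2 * Real.pi * Complex.I / D) := by
    ring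
  rw [this]
  ring

lemma js_ze_norm (D n : ℕ) : ‖ze D ^ n‖ = 1 := by
  have : ‖ze D‖ = 1 := by
    unfold ze
    have h1 : (2 * (Real.pi : ℂ) * Complex.I / D) = ((2 * Real.pi / D : ℝ) : ℂ) * Complex.I := by
      push_cast; ring
    rw [h1, Complex.norm_exp_ofReal_mul_I]
  rw [norm_pow, this, one_pow]

lemma js_ze_mod (hD : 0 < D) (n : ℕ) :
    Complex.exp (((n % D : ℕ) : ℂ) / D * (2 * Real.pi * Complex.I)) = ze D ^ n := by
  have h1 : ze D ^ n = ze D ^ (n % D) := by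
    have h2 : ze D ^ D = 1 := (Complex.isPrimitiveRoot_exp D hD.ne').pow_eq_one
    conv_lhs => rw [← Nat.div_add_mod n D, pow_add, pow_mul, h2, one_pow, one_mul]
  rw [h1]
  unfold ze
  rw [← Complex.exp_nat_mul]
  congr 1
  ring

/-- the core statement, for a general finite index set and general functions of `x`, `y` -/
theorem js_core (hD : 0 < D) {T : Type} [Fintype T] (τ : T → ℕ) (hτ : ∀ t, 0 < τ t * j % D) :
    ∃ R : ℝ, 0 < R ∧ ∀ (f g : (T → ℂ) → ℂ) (M N : ℂ → ℂ → ℂ),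
      (Differentiable ℂ fun p : ℂ × ℂ => M p.1 p.2) → (Differentiable ℂ fun p : ℂ × ℂ => N p.1 p.2) →
      ∀ (c : T → ℂ) (κ : ℕ) (ρ : ℝ), ‖c‖ + R < ρ → DifferentiableOn ℂ f (ball 0 ρ) →
      DifferentiableOn ℂ g (ball 0 ρ) →
      ((∀ᶠ s in 𝓝 (0 : ℂ),
        f (fun t => c t + ze D ^ (τ t * κ) * aint D j k (τ t) s) *
          M (1 / 2 + s) (ze D ^ κ * ybr D j k s) =
        g (fun t => c t + ze D ^ (τ t * κ) * aint D j k (τ t) s) *
          N (1 / 2 + s) (ze D ^ κ * ybr D j k s)) ↔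
      (∀ᶠ s in 𝓝 (0 : ℂ),
        f (fun t => (c t + ze D ^ (τ t * κ) * (ze D ^ (τ t * j) - 1) *
            (∫ u in (0 : ℝ)..(1 / 2), (u : ℂ) ^ (((τ t * j % D : ℕ) : ℂ) / D - 1) *
              (1 - u : ℂ) ^ (((τ t * k % D : ℕ) : ℂ) / D - 1))) +
            ze D ^ (τ t * (κ + j)) * aint D j k (τ t) s) *
          M (1 / 2 + s) (ze D ^ (κ + j) * ybr D j k s) =
        g (fun t => (c t + ze D ^ (τ t * κ) * (ze D ^ (τ t * j) - 1) *
            (∫ u in (0 : ℝ)..(1 / 2), (u : ℂ) ^ (((τ t * j % D : ℕ) : ℂ) / D - 1) *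
              (1 - u : ℂ) ^ (((τ t * k % D : ℕ) : ℂ) / D - 1))) +
            ze D ^ (τ t * (κ + j)) * aint D j k (τ t) s) *
          N (1 / 2 + s) (ze D ^ (κ + j) * ybr D j k s))) := by
  classical
  set α : T → ℂ := fun t => ((τ t * j % D : ℕ) : ℂ) / D with hα
  set β : T → ℂ := fun t => ((τ t * k % D : ℕ) : ℂ) / D with hβ
  have hαre : ∀ t, 0 < (α t).re := fun t => js_re hD (hτ t)
  -- the function `A`
  set A : ℂ → T → ℂ := fun u t => jsA (α t) (β t) u - jsA (α t) (β t) jsu with hA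
  have hAd : ∀ u : ℂ, u.re < 0 → DifferentiableAt ℂ A u := by
    intro u hu
    rw [differentiableAt_pi]
    intro t
    exact ((js_A_deriv (β := β t) (hαre t) hu).sub_const _).differentiableAt
  set u₁ : ℂ := jsu + 2 * Real.pi * Complex.I with hu₁
  have hseg : ∀ u ∈ segment ℝ jsu u₁, u.re < 0 := by
    intro u hu
    have hc : Convex ℝ {z : ℂ | z.re < 0} := convex_halfSpace_re_lt 0
    refine hc.segment_subset jsu_re ?_ hu
    show u₁.re < 0
    rw [hu₁]
    simpa using jsu_re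
  have hcomp : IsCompact (segment ℝ jsu u₁) := by
    rw [segment_eq_image]
    exact isCompact_Icc.image (by fun_prop)
  obtain ⟨C, hC⟩ := hcomp.exists_bound_of_continuousOn (f := A)
    (fun u hu => (hAd u (hseg u hu)).continuousAt.continuousWithinAt)
  refine ⟨max C 1, lt_of_lt_of_le one_pos (le_max_right _ _), ?_⟩
  intro f g M N hM hN c κ ρ hρ hf hg
  -- the argument
  set Z : ℂ → T → ℂ := fun u t => c t + ze D ^ (τ t * κ) * A u t with hZ
  have hZd : ∀ u : ℂ, u.re < 0 → DifferentiableAt ℂ Z u := by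
    intro u hu
    rw [differentiableAt_pi]
    intro t
    have := (differentiableAt_pi.1 (hAd u hu)) t
    exact (this.const_mul _).const_add _
  set Φ : ℂ → ℂ := fun u => f (Z u) * M (Complex.exp u) (ze D ^ κ * jsY D j k u) -
    g (Z u) * N (Complex.exp u) (ze D ^ κ * jsY D j k u) with hΦ
  set U : Set ℂ := {u | u.re < 0} ∩ Z ⁻¹' ball 0 ρ with hU
  have hHo : IsOpen {u : ℂ | u.re < 0} := isOpen_lt Complex.continuous_re continuous_const
  have hUo : IsOpen U := by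
    refine ContinuousOn.isOpen_inter_preimage (fun u hu => ?_) hHo isOpen_ball
    exact (hZd u hu).continuousAt.continuousWithinAt
  have hΦd : DifferentiableOn ℂ Φ U := by
    intro u hu
    refine DifferentiableAt.differentiableWithinAt ?_
    have hz := hZd u hu.1
    have hf' : DifferentiableAt ℂ (fun u => f (Z u)) u :=
      ((hf.differentiableAt (isOpen_ball.mem_nhds hu.2))).comp u hz
    have hg' : DifferentiableAt ℂ (fun u => g (Z u)) u :=
      ((hg.differentiableAt (isOpen_ball.mem_nhds hu.2))).comp u hz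
    have hy : DifferentiableAt ℂ (fun u => (Complex.exp u, ze D ^ κ * jsY D j k u)) u :=
      DifferentiableAt.prodMk (by fun_prop) ((jsY_diff D j k hu.1).const_mul _)
    have hM' : DifferentiableAt ℂ (fun u => M (Complex.exp u) (ze D ^ κ * jsY D j k u)) u :=
      DifferentiableAt.comp (g := fun p : ℂ × ℂ => M p.1 p.2)
        (f := fun u => (Complex.exp u, ze D ^ κ * jsY D j k u)) u hM.differentiableAt hy
    have hN' : DifferentiableAt ℂ (fun u => N (Complex.exp u) (ze D ^ κ * jsY D j k u)) u :=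
      DifferentiableAt.comp (g := fun p : ℂ × ℂ => N p.1 p.2)
        (f := fun u => (Complex.exp u, ze D ^ κ * jsY D j k u)) u hN.differentiableAt hy
    exact (hf'.mul hM').sub (hg'.mul hN')
  have hsegU : segment ℝ jsu u₁ ⊆ U := by
    intro u hu
    refine ⟨hseg u hu, ?_⟩
    rw [Set.mem_preimage, mem_ball_zero_iff]
    have h1 : ‖Z u‖ ≤ ‖c‖ + max C 1 := by
      rw [pi_norm_le_iff_of_nonneg (by positivity)]
      intro t
      calc ‖c t + ze D ^ (τ t * κ) * A u t‖ ≤ ‖c t‖ + ‖ze D ^ (τ t * κ) * A u t‖ := norm_add_le _ _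
        _ = ‖c t‖ + ‖A u t‖ := by rw [norm_mul, js_ze_norm, one_mul]
        _ ≤ ‖c‖ + ‖A u‖ := add_le_add (norm_le_pi_norm c t) (norm_le_pi_norm (A u) t)
        _ ≤ ‖c‖ + C := by linarith [hC u hu]
        _ ≤ ‖c‖ + max C 1 := by linarith [le_max_left C 1]
    linarith
  have hne : jsu ≠ u₁ := by
    rw [hu₁]
    intro h
    have : (2 * Real.pi * Complex.I : ℂ) = 0 := by linear_combination -h
    exact Complex.two_pi_I_ne_zero this
  have hiff : (∀ᶠ u in 𝓝 jsu, Φ u = 0) ↔ (∀ᶠ u in 𝓝 u₁, Φ u = 0) :=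
    ⟨js_ident hUo hΦd hsegU hne, js_ident hUo hΦd (by rwa [segment_symm]) hne.symm⟩
  -- transport of neighbourhoods
  have hmap : Filter.map (fun u : ℂ => Complex.exp u - 1 / 2) (𝓝 jsu) = 𝓝 (0 : ℂ) := by
    have h1 : HasStrictDerivAt (fun u : ℂ => Complex.exp u - 1 / 2) (Complex.exp jsu) jsu :=
      (Complex.hasStrictDerivAt_exp jsu).sub_const _
    have h2 := h1.map_nhds_eq (Complex.exp_ne_zero jsu)
    rw [h2, jsu_exp, sub_self]
  have hev : ∀ P : ℂ → Prop, (∀ᶠ s in 𝓝 (0 : ℂ), P s) ↔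
      ∀ᶠ u in 𝓝 jsu, P (Complex.exp u - 1 / 2) := by
    intro P
    rw [← hmap, eventually_map]
  have hmap2 : Filter.map (fun u : ℂ => u + 2 * Real.pi * Complex.I) (𝓝 jsu) = 𝓝 u₁ :=
    (Homeomorph.addRight (2 * Real.pi * Complex.I : ℂ)).map_nhds_eq jsu
  have hall : ∀ᶠ u in 𝓝 jsu, ∀ t, aint D j k (τ t) (Complex.exp u - 1 / 2) = A u t := by
    rw [eventually_all]
    intro t
    exact js_aint hD (hτ t)
  have hy0 := js_ybr D j k
  have hint : ∀ t, (∫ u in (0 : ℝ)..(1 / 2), (u : ℂ) ^ (((τ t * j % D : ℕ) : ℂ) / D - 1) *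
      (1 - u : ℂ) ^ (((τ t * k % D : ℕ) : ℂ) / D - 1)) = jsA (α t) (β t) jsu := by
    intro t
    rw [js_A_base]
  simp only [hint]
  rw [hev, hev]
  have hΦ1 : (∀ᶠ u in 𝓝 u₁, Φ u = 0) ↔
      ∀ᶠ u in 𝓝 jsu, Φ (u + 2 * Real.pi * Complex.I) = 0 := by
    rw [← hmap2, eventually_map]
  rw [hΦ1] at hiff
  have hx : ∀ u : ℂ, (1 / 2 + (Complex.exp u - 1 / 2) : ℂ) = Complex.exp u := fun u => by ring
  have hL : (∀ᶠ u in 𝓝 jsu,
      (f fun t => c t + ze D ^ (τ t * κ) * aint D j k (τ t) (Complex.exp u - 1 / 2)) *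
          M (1 / 2 + (Complex.exp u - 1 / 2)) (ze D ^ κ * ybr D j k (Complex.exp u - 1 / 2)) =
        (g fun t => c t + ze D ^ (τ t * κ) * aint D j k (τ t) (Complex.exp u - 1 / 2)) *
          N (1 / 2 + (Complex.exp u - 1 / 2)) (ze D ^ κ * ybr D j k (Complex.exp u - 1 / 2))) ↔
      ∀ᶠ u in 𝓝 jsu, Φ u = 0 := by
    refine eventually_congr ?_
    filter_upwards [hall, hy0] with u h1 h2
    simp only [h1, h2, hx]
    exact sub_eq_zero.symm
  refine hL.trans (hiff.trans (Iff.symm ?_))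
  refine eventually_congr ?_
  filter_upwards [hall, hy0] with u h1 h2
  have hex : Complex.exp (u + 2 * Real.pi * Complex.I) = Complex.exp u := Complex.exp_periodic u
  have hZ2 : Z (u + 2 * Real.pi * Complex.I) = fun t =>
      (c t + ze D ^ (τ t * κ) * (ze D ^ (τ t * j) - 1) * jsA (α t) (β t) jsu) +
        ze D ^ (τ t * (κ + j)) * A u t := by
    funext t
    simp only [hZ, hA]
    rw [js_A_period]
    have h3 : Complex.exp (α t * (2 * Real.pi * Complex.I)) = ze D ^ (τ t * j) :=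
      js_ze_mod hD (τ t * j)
    rw [h3, mul_add (τ t) κ j, pow_add]
    ring
  have hY2 : ze D ^ κ * jsY D j k (u + 2 * Real.pi * Complex.I) =
      ze D ^ (κ + j) * jsY D j k u := by
    rw [jsY_period, pow_add]
    ring
  simp only [hΦ]
  rw [hZ2, hex, hY2]
  simp only [h1, h2, hx]
  exact sub_eq_zero.symm

lemma js_mod_pos {D t j : ℕ} (ht : Nat.Coprime t D) (hj : 0 < j) (hjD : j < D) :
    0 < t * j % D := by
  rcases Nat.eq_zero_or_pos (t * j % D) with h | h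
  · exfalso
    have h1 : D ∣ t * j := Nat.dvd_of_mod_eq_zero h
    have h2 : D ∣ j := (Nat.Coprime.symm ht).dvd_of_dvd_mul_left h1
    exact absurd (Nat.le_of_dvd hj h2) (by omega)
  · exact h

theorem bh_add (hD : 3 ≤ D) (hj : 0 < j) (hk : 0 < k) (hjk : j + k < D) (t : Ph D j k) :
    bh D j k t.1 + bh' D j k t.1 = be D j k t.1 := by
  have h1 := js_re (D := D) (by omega) (js_mod_pos t.2.1 hj (by omega))
  have h2 := js_re (D := D) (by omega) (js_mod_pos t.2.1 hk (by omega))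
  have h3 := Complex.betaIntegral_convergent h1 h2
  unfold bh bh' be Complex.betaIntegral
  refine intervalIntegral.integral_add_adjacent_intervals ?_ ?_
  · refine h3.mono_set ?_
    rw [Set.uIcc_of_le (by norm_num), Set.uIcc_of_le (by norm_num)]
    exact Set.Icc_subset_Icc_right (by norm_num)
  · refine h3.mono_set ?_
    rw [Set.uIcc_of_le (by norm_num), Set.uIcc_of_le (by norm_num)]
    exact Set.Icc_subset_Icc_left (by norm_num)

/-- relation on the sheet `κ` with constants `c`: `f`, `g` functions of the integrals, `M`, `N`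
polynomials in `x`, `y` -/
def Rel (D j k : ℕ) (f g : (Ph D j k → ℂ) → ℂ) (M N : MvPolynomial (Fin 2) ℂ) (c : Ph D j k → ℂ)
    (κ : ℕ) : Prop :=
  ∀ᶠ s in 𝓝 (0 : ℂ),
    f (fun t => c t + ze D ^ ((t.1 : ℕ) * κ) * aint D j k t.1 s) *
      eval ![1 / 2 + s, ze D ^ κ * ybr D j k s] M =
    g (fun t => c t + ze D ^ ((t.1 : ℕ) * κ) * aint D j k t.1 s) *
      eval ![1 / 2 + s, ze D ^ κ * ybr D j k s] N

lemma js_eval_diff (M : MvPolynomial (Fin 2) ℂ) :
    Differentiable ℂ fun p : ℂ × ℂ => eval ![p.1, p.2] M := by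
  induction M using MvPolynomial.induction_on with
  | C a => simp only [eval_C]; exact differentiable_const a
  | add p q hp hq => simp only [map_add]; exact hp.add hq
  | mul_X p n hp =>
    simp only [map_mul, eval_X]
    refine hp.mul ?_
    fin_cases n
    · exact differentiable_fst
    · exact differentiable_snd

/-- (JS1) analytic continuation once around `x = 0` -/
theorem rel_zero (hD : 3 ≤ D) (hj : 0 < j) (hk : 0 < k) (hjk : j + k < D) :
    ∃ R : ℝ, 0 < R ∧ ∀ (f g : (Ph D j k → ℂ) → ℂ) (M N : MvPolynomial (Fin 2) ℂ)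
      (c : Ph D j k → ℂ) (κ : ℕ) (ρ : ℝ), ‖c‖ + R < ρ → DifferentiableOn ℂ f (ball 0 ρ) →
      DifferentiableOn ℂ g (ball 0 ρ) →
      (Rel D j k f g M N c κ ↔ Rel D j k f g M N
        (fun t => c t + ze D ^ ((t.1 : ℕ) * κ) * (ze D ^ ((t.1 : ℕ) * j) - 1) * bh D j k t.1)
        (κ + j)) := by
  obtain ⟨R, hR, h⟩ := js_core (D := D) (j := j) (k := k) (by omega) (T := Ph D j k)
    (fun t => (t.1 : ℕ)) (fun t => js_mod_pos t.2.1 hj (by omega))
  refine ⟨R, hR, fun f g M N c κ ρ hρ hf hg => ?_⟩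
  exact h f g (fun x y => eval ![x, y] M) (fun x y => eval ![x, y] N) (js_eval_diff M)
    (js_eval_diff N) c κ ρ hρ hf hg

lemma js_wt_symm (D j k t : ℕ) (s : ℂ) : wt D k j t (-s) = wt D j k t s := by
  unfold wt
  rw [sub_neg_eq_add, ← sub_eq_add_neg, mul_comm]

lemma js_aint_symm (D j k t : ℕ) (s : ℂ) : aint D j k t (-s) = -aint D k j t s := by
  unfold aint
  rw [← intervalIntegral.integral_neg]
  refine intervalIntegral.integral_congr fun u _ => ?_
  rw [mul_neg, js_wt_symm, neg_mul]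

lemma js_ybr_symm (D j k : ℕ) (s : ℂ) : ybr D j k (-s) = ybr D k j s := by
  unfold ybr
  rw [sub_neg_eq_add, ← sub_eq_add_neg, mul_comm]

lemma js_bh_symm (D j k t : ℕ) : (∫ u in (0 : ℝ)..(1 / 2),
    (u : ℂ) ^ (((t * k % D : ℕ) : ℂ) / D - 1) * (1 - u : ℂ) ^ (((t * j % D : ℕ) : ℂ) / D - 1)) =
      bh' D j k t := by
  unfold bh'
  have h := intervalIntegral.integral_comp_sub_left (fun u : ℝ =>
    (u : ℂ) ^ (((t * j % D : ℕ) : ℂ) / D - 1) * (1 - u : ℂ) ^ (((t * k % D : ℕ) : ℂ) / D - 1))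
    (a := 0) (b := 1 / 2) 1
  have h2 : ((1 : ℝ) - 1 / 2) = 1 / 2 := by norm_num
  rw [h2, sub_zero] at h
  rw [← h]
  refine intervalIntegral.integral_congr fun u _ => ?_
  push_cast
  rw [sub_sub_cancel, mul_comm]

lemma js_neg (P : ℂ → Prop) : (∀ᶠ s in 𝓝 (0 : ℂ), P s) ↔ ∀ᶠ s in 𝓝 (0 : ℂ), P (-s) := by
  have h : Filter.map (fun u : ℂ => -u) (𝓝 0) = 𝓝 (0 : ℂ) := by
    have := (Homeomorph.neg ℂ).map_nhds_eq 0
    simpa using this
  conv_lhs => rw [← h, eventually_map]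

/-- (JS2) analytic continuation once around `x = 1` -/
theorem rel_one (hD : 3 ≤ D) (hj : 0 < j) (hk : 0 < k) (hjk : j + k < D) :
    ∃ R : ℝ, 0 < R ∧ ∀ (f g : (Ph D j k → ℂ) → ℂ) (M N : MvPolynomial (Fin 2) ℂ)
      (c : Ph D j k → ℂ) (κ : ℕ) (ρ : ℝ), ‖c‖ + R < ρ → DifferentiableOn ℂ f (ball 0 ρ) →
      DifferentiableOn ℂ g (ball 0 ρ) →
      (Rel D j k f g M N c κ ↔ Rel D j k f g M N
        (fun t => c t + ze D ^ ((t.1 : ℕ) * κ) * (1 - ze D ^ ((t.1 : ℕ) * k)) * bh' D j k t.1)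
        (κ + k)) := by
  obtain ⟨R, hR, h⟩ := js_core (D := D) (j := k) (k := j) (by omega) (T := Ph D j k)
    (fun t => (t.1 : ℕ)) (fun t => js_mod_pos t.2.1 hk (by omega))
  refine ⟨R, hR, fun f g M N c κ ρ hρ hf hg => ?_⟩
  have hneg : ∀ {f : (Ph D j k → ℂ) → ℂ}, DifferentiableOn ℂ f (ball 0 ρ) →
      DifferentiableOn ℂ (fun z => f (-z)) (ball 0 ρ) := by
    intro f hf
    refine hf.comp (f := fun z : Ph D j k → ℂ => -z) (by fun_prop) ?_
    intro z hz
    rwa [mem_ball_zero_iff, norm_neg, ← mem_ball_zero_iff]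
  have hd : ∀ M : MvPolynomial (Fin 2) ℂ,
      Differentiable ℂ fun p : ℂ × ℂ => eval ![1 - p.1, p.2] M := by
    intro M
    exact (js_eval_diff M).comp (f := fun p : ℂ × ℂ => (1 - p.1, p.2)) (by fun_prop)
  have h1 := h (fun z => f (-z)) (fun z => g (-z)) (fun x y => eval ![1 - x, y] M)
    (fun x y => eval ![1 - x, y] N) (hd M) (hd N) (-c) κ ρ (by rwa [norm_neg]) (hneg hf) (hneg hg)
  unfold Rel
  rw [js_neg (fun s => f (fun t => c t + ze D ^ ((t.1 : ℕ) * κ) * aint D j k t.1 s) *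
      eval ![1 / 2 + s, ze D ^ κ * ybr D j k s] M =
    g (fun t => c t + ze D ^ ((t.1 : ℕ) * κ) * aint D j k t.1 s) *
      eval ![1 / 2 + s, ze D ^ κ * ybr D j k s] N),
    js_neg (fun s => f (fun t => c t + ze D ^ ((t.1 : ℕ) * κ) * (1 - ze D ^ ((t.1 : ℕ) * k)) *
        bh' D j k t.1 + ze D ^ ((t.1 : ℕ) * (κ + k)) * aint D j k t.1 s) *
      eval ![1 / 2 + s, ze D ^ (κ + k) * ybr D j k s] M =
    g (fun t => c t + ze D ^ ((t.1 : ℕ) * κ) * (1 - ze D ^ ((t.1 : ℕ) * k)) *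
        bh' D j k t.1 + ze D ^ ((t.1 : ℕ) * (κ + k)) * aint D j k t.1 s) *
      eval ![1 / 2 + s, ze D ^ (κ + k) * ybr D j k s] N)]
  have e0 : ∀ s : ℂ, (1 - (1 / 2 + s) : ℂ) = 1 / 2 + -s := fun s => by ring
  have e1 : ∀ s : ℂ, (-fun t : Ph D j k => (-c) t + ze D ^ ((t.1 : ℕ) * κ) *
      aint D k j t.1 s) = fun t => c t + ze D ^ ((t.1 : ℕ) * κ) * aint D j k t.1 (-s) := by
    intro s
    funext t
    simp only [Pi.neg_apply, js_aint_symm]
    ring
  have e2 : ∀ s : ℂ, (-fun t : Ph D j k => (-c) t + ze D ^ ((t.1 : ℕ) * κ) *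
      (ze D ^ ((t.1 : ℕ) * k) - 1) * (∫ u in (0 : ℝ)..(1 / 2),
    (u : ℂ) ^ ((((t.1 : ℕ) * k % D : ℕ) : ℂ) / D - 1) *
      (1 - u : ℂ) ^ ((((t.1 : ℕ) * j % D : ℕ) : ℂ) / D - 1)) +
      ze D ^ ((t.1 : ℕ) * (κ + k)) * aint D k j t.1 s) =
      fun t => c t + ze D ^ ((t.1 : ℕ) * κ) * (1 - ze D ^ ((t.1 : ℕ) * k)) *
        bh' D j k t.1 + ze D ^ ((t.1 : ℕ) * (κ + k)) * aint D j k t.1 (-s) := by
    intro s
    funext t
    simp only [Pi.neg_apply, js_aint_symm, js_bh_symm]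
    ring
  simp only [e0, e1, e2, ← js_ybr_symm D j k] at h1
  exact h1

end Pool.Agent.WW
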