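import Pool.Agent.WW.QC2
import Pool.Agent.WW.PA

set_option autoImplicit false

namespace Pool.Agent.WW

open MvPolynomial Metric Filter Topology

namespace QC

/-- the least subspace containing a germ of a curve -/
theorem exists_least {E : Type*} [AddCommGroup E] [Module ℂ E] [FiniteDimensional ℂ E]
    (γ : ℂ → E) :
    ∃ N : Submodule ℂ E, (∀ᶠ s in 𝓝 (0 : ℂ), γ s ∈ N) ∧
      ∀ M : Submodule ℂ E, (∀ᶠ s in 𝓝 (0 : ℂ), γ s ∈ M) → N ≤ M := by
  let S : Set (Submodule ℂ E) := {N | ∀ᶠ s in 𝓝 (0 : ℂ), γ s ∈ N}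
  have hS : S.Nonempty := ⟨⊤, by simp [S]⟩
  obtain ⟨N, hN, hmin⟩ := WellFounded.has_min (wellFounded_lt (α := Submodule ℂ E)) S hS
  refine ⟨N, hN, fun M hM => ?_⟩
  by_contra hcon
  have h1 : N ⊓ M ∈ S := by
    have hN' : ∀ᶠ s in 𝓝 (0 : ℂ), γ s ∈ N := hN
    filter_upwards [hN', hM] with s hs hs'
    exact ⟨hs, hs'⟩
  exact hmin _ h1 (inf_lt_left.2 hcon)

/-- identity theorem along a complex line -/
theorem ident {E : Type*} [NormedAddCommGroup E] [NormedSpace ℂ E] {r : ℝ} (g : E → ℂ)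
    (hg : DifferentiableOn ℂ g (ball 0 r)) (N : Submodule ℂ E) {z0 : E}
    (hz0 : z0 ∈ ball (0 : E) r) (hN0 : z0 ∈ N)
    (h : ∀ᶠ z in 𝓝 z0, z ∈ N → g z = 0) {z : E} (hz : z ∈ ball (0 : E) r) (hN : z ∈ N) :
    g z = 0 := by
  let L : ℂ → E := fun t => z0 + t • (z - z0)
  have hLd : Differentiable ℂ L := by
    intro t
    exact (differentiableAt_const z0).add (differentiableAt_id.smul_const (z - z0))
  have hL0 : L 0 = z0 := by simp [L]
  have hL1 : L 1 = z := by simp [L]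
  have hLN : ∀ t, L t ∈ N := fun t => N.add_mem hN0 (N.smul_mem t (N.sub_mem hN hN0))
  let U : Set ℂ := L ⁻¹' ball 0 r
  have hUo : IsOpen U := isOpen_ball.preimage hLd.continuous
  have hUc : Convex ℝ U := by
    intro t1 h1 t2 h2 a b ha hb hab
    have hc : Convex ℝ (ball (0 : E) r) := convex_ball 0 r
    have := hc h1 h2 ha hb hab
    change L (a • t1 + b • t2) ∈ ball (0 : E) r
    convert this using 1
    have e1 : ((a : ℂ) + (b : ℂ)) = 1 := by exact_mod_cast hab
    simp only [L]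
    rw [← Complex.coe_smul a (z0 + t1 • (z - z0)), ← Complex.coe_smul b (z0 + t2 • (z - z0))]
    rw [Complex.real_smul, Complex.real_smul]
    generalize z - z0 = w
    have e3 : (a : ℂ) • (z0 + t1 • w) + (b : ℂ) • (z0 + t2 • w) =
        ((a : ℂ) + (b : ℂ)) • z0 + ((a : ℂ) * t1 + (b : ℂ) * t2) • w := by module
    rw [e3, e1, one_smul]
  have hφ : DifferentiableOn ℂ (g ∘ L) U := hg.comp hLd.differentiableOn (fun t ht => ht)
  have h0U : (0 : ℂ) ∈ U := by change L 0 ∈ ball (0 : E) r; rw [hL0]; exact hz0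
  have h1U : (1 : ℂ) ∈ U := by change L 1 ∈ ball (0 : E) r; rw [hL1]; exact hz
  have hev : (g ∘ L) =ᶠ[𝓝 0] 0 := by
    have hLt : Tendsto L (𝓝 0) (𝓝 z0) := by
      have := hLd.continuous.tendsto 0
      rwa [hL0] at this
    filter_upwards [hLt.eventually h] with t ht
    exact ht (hLN t)
  have h2 := (hφ.analyticOnNhd hUo).eqOn_zero_of_preconnected_of_eventuallyEq_zero
    hUc.isPreconnected h0U hev h1U
  simpa [hL1] using h2

variable {π ι : Type} [Fintype π] [Fintype ι] [DecidableEq π] [DecidableEq ι] (P : Pkg π ι)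

theorem h_don (hP : P.Ok) (a : P.μ) : DifferentiableOn ℂ (fun z => P.h z a) (ball 0 P.r) := by
  refine (hP.ana P (P.hr' a)).congr fun z hz => ?_
  rw [PA.ext_eq P _ hz]
  exact (Pkg.aeval_gr P (P.H a) ⟨z, hz⟩).symm

/-- points of the curve whose tangent vectors span the least subspace -/
theorem exists_basis {E : Type*} [NormedAddCommGroup E] [NormedSpace ℂ E]
    [FiniteDimensional ℂ E] (γ : ℂ → E) (h0 : γ 0 = 0) (N : Submodule ℂ E)
    (hmin : ∀ M : Submodule ℂ E, (∀ᶠ s in 𝓝 (0 : ℂ), γ s ∈ M) → N ≤ M) {ε : ℝ} (hε : 0 < ε)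
    (hd : DifferentiableOn ℂ γ (ball 0 ε)) (hN : ∀ s ∈ ball (0 : ℂ) ε, γ s ∈ N) :
    ∃ s : Fin (Module.finrank ℂ N) → ℂ, (∀ i, s i ∈ ball (0 : ℂ) ε) ∧
      Submodule.span ℂ (Set.range fun i => deriv γ (s i)) = N := by
  let T : Set E := (deriv γ) '' ball (0 : ℂ) ε
  let D : Submodule ℂ E := Submodule.span ℂ T
  have hDN : D ≤ N := by
    refine Submodule.span_le.2 ?_
    rintro _ ⟨s, hs, rfl⟩
    have hda : HasDerivAt γ (deriv γ s) s :=
      (hd.differentiableAt (isOpen_ball.mem_nhds hs)).hasDerivAt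
    have hcl : IsClosed (N : Set E) := N.closed_of_finiteDimensional
    have ht := hda.tendsto_slope
    refine hcl.mem_of_tendsto ht ?_
    have hnb : ∀ᶠ y in 𝓝[≠] s, y ∈ ball (0 : ℂ) ε :=
      nhdsWithin_le_nhds (isOpen_ball.mem_nhds hs)
    filter_upwards [hnb] with y hy
    simp only [slope]
    exact N.smul_mem _ (N.sub_mem (hN y hy) (hN s hs))
  have hND : N ≤ D := by
    refine hmin D ?_
    filter_upwards [isOpen_ball.mem_nhds (mem_ball_self hε : (0 : ℂ) ∈ ball (0 : ℂ) ε)] with s hs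
    -- all functionals vanishing on `D` vanish on `γ s`
    by_contra hcon
    obtain ⟨f, hf1, hf2⟩ := Submodule.exists_le_ker_of_notMem hcon
    let φ : E →L[ℂ] ℂ := LinearMap.toContinuousLinearMap f
    have hderiv : ∀ t ∈ ball (0 : ℂ) ε, HasDerivAt (fun t => φ (γ t)) 0 t := by
      intro t ht
      have hda : HasDerivAt γ (deriv γ t) t :=
        (hd.differentiableAt (isOpen_ball.mem_nhds ht)).hasDerivAt
      have h1 := φ.hasFDerivAt.comp_hasDerivAt t hda
      have h2 : φ (deriv γ t) = 0 := hf2 (Submodule.subset_span ⟨t, ht, rfl⟩)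
      rw [h2] at h1
      exact h1
    have hconst : φ (γ s) = φ (γ 0) := by
      refine (convex_ball (0 : ℂ) ε).is_const_of_fderivWithin_eq_zero (𝕜 := ℂ)
        (f := fun t => φ (γ t)) (fun t ht => (hderiv t ht).differentiableAt.differentiableWithinAt)
        (fun t ht => ?_) hs (mem_ball_self hε)
      have h3 := (hderiv t ht).hasFDerivAt.hasFDerivWithinAt (s := ball (0 : ℂ) ε)
      rw [h3.fderivWithin (isOpen_ball.uniqueDiffWithinAt ht)]
      ext
      simp
    rw [h0, map_zero] at hconst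
    exact hf1 hconst
  have hD : D = N := le_antisymm hDN hND
  obtain ⟨v, hv, hspan, -⟩ := Submodule.exists_fun_fin_finrank_span_eq ℂ T
  have hrank : Module.finrank ℂ (Submodule.span ℂ T) = Module.finrank ℂ N := by
    change Module.finrank ℂ D = _
    rw [hD]
  choose s hs hsv using hv
  refine ⟨fun i => s (Fin.cast hrank.symm i), fun i => hs _, ?_⟩
  have : (Set.range fun i : Fin (Module.finrank ℂ N) => deriv γ (s (Fin.cast hrank.symm i))) =
      Set.range v := by
    ext x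
    constructor
    · rintro ⟨i, rfl⟩
      exact ⟨Fin.cast hrank.symm i, (hsv _).symm⟩
    · rintro ⟨i, rfl⟩
      refine ⟨Fin.cast hrank i, ?_⟩
      simp [hsv]
  rw [this, hspan]
  exact hD

end QC

/-- (QC) an algebraic curve through the origin generates a linear space `N` on which any
`dim N + 1` abelian functions are dependent -/
theorem Pkg.Ok.exists_dep {π ι : Type} [Fintype π] [Fintype ι] [DecidableEq π] [DecidableEq ι]
    (P : Pkg π ι) (hP : P.Ok) (γ : ℂ → (ι → ℂ)) (hγ : AnalyticAt ℂ γ 0) (h0 : γ 0 = 0)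
    (halg : ∀ a, AlgGerm fun s => P.h (γ s) a) (hne : ¬ ∀ᶠ s in 𝓝 (0 : ℂ), γ s = 0) :
    ∃ N : Submodule ℂ (ι → ℂ), N ≠ ⊥ ∧ P.Dep N ∧
      ∀ M : Submodule ℂ (ι → ℂ), (∀ᶠ s in 𝓝 (0 : ℂ), γ s ∈ M) → N ≤ M := by
  obtain ⟨N, hN, hmin⟩ := QC.exists_least γ
  refine ⟨N, ?_, ?_, hmin⟩
  · rintro rfl
    exact hne (by simpa using hN)
  · intro a
    obtain ⟨ρ, hρ, hball, hdep⟩ :=
      Pkg.Ok.sum_dep P hP γ hγ h0 halg (Module.finrank ℂ N)
    obtain ⟨F, hF0, hF⟩ := hdep a
    refine ⟨F, hF0, ?_⟩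
    -- a small disc
    obtain ⟨ε1, hε1, hd1⟩ := Metric.eventually_nhds_iff_ball.1 hγ.eventually_analyticAt
    obtain ⟨ε2, hε2, hd2⟩ := Metric.eventually_nhds_iff_ball.1 hN
    set ε : ℝ := min (min ε1 ε2) ρ with hεdef
    have hε : 0 < ε := lt_min (lt_min hε1 hε2) hρ
    have hsub1 : ball (0 : ℂ) ε ⊆ ball 0 ε1 :=
      ball_subset_ball ((min_le_left _ _).trans (min_le_left _ _))
    have hsub2 : ball (0 : ℂ) ε ⊆ ball 0 ε2 :=
      ball_subset_ball ((min_le_left _ _).trans (min_le_right _ _))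
    have hsub3 : ε ≤ ρ := min_le_right _ _
    have hd : DifferentiableOn ℂ γ (ball 0 ε) := fun s hs =>
      (hd1 s (hsub1 hs)).differentiableAt.differentiableWithinAt
    have hNs : ∀ s ∈ ball (0 : ℂ) ε, γ s ∈ N := fun s hs => hd2 s (hsub2 hs)
    obtain ⟨s0, hs0, hspan⟩ := QC.exists_basis γ h0 N hmin hε hd hNs
    -- the sum map
    obtain ⟨pr, hpr⟩ := N.exists_isCompl
    let pc : (ι → ℂ) →L[ℂ] N := LinearMap.toContinuousLinearMap (N.projectionOnto pr hpr)
    have hpc : ∀ x : N, pc (x : ι → ℂ) = x := fun x =>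
      Submodule.projectionOnto_apply_left hpr x
    let Z : (Fin (Module.finrank ℂ N) → ℂ) → (ι → ℂ) := fun s => ∑ i, γ (s i)
    let Z' : (Fin (Module.finrank ℂ N) → ℂ) →L[ℂ] (ι → ℂ) :=
      ∑ i, (ContinuousLinearMap.smulRight (ContinuousLinearMap.proj i :
        (Fin (Module.finrank ℂ N) → ℂ) →L[ℂ] ℂ) (deriv γ (s0 i)))
    have hZ : HasStrictFDerivAt Z Z' s0 := by
      refine HasStrictFDerivAt.fun_sum fun i _ => ?_
      have h1 : HasStrictDerivAt γ (deriv γ (s0 i)) (s0 i) :=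
        (hd1 _ (hsub1 (hs0 i))).hasStrictDerivAt
      have h2 : HasStrictFDerivAt (fun s : Fin (Module.finrank ℂ N) → ℂ => s i)
        (ContinuousLinearMap.proj i : (Fin (Module.finrank ℂ N) → ℂ) →L[ℂ] ℂ) s0 :=
        (ContinuousLinearMap.proj i :
          (Fin (Module.finrank ℂ N) → ℂ) →L[ℂ] ℂ).hasStrictFDerivAt
      have h3 := h1.hasStrictFDerivAt.comp s0 h2
      convert h3 using 1
      ext v
      simp
    have hW : HasStrictFDerivAt (fun s => pc (Z s)) (pc.comp Z') s0 :=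
      pc.hasStrictFDerivAt.comp s0 hZ
    have hsurj : LinearMap.range (pc.comp Z' : (Fin (Module.finrank ℂ N) → ℂ) →ₗ[ℂ] N) = ⊤ := by
      rw [eq_top_iff]
      rintro ⟨x, hx⟩ -
      have hx' := hx
      rw [← hspan] at hx'
      obtain ⟨c, hc⟩ := (Submodule.mem_span_range_iff_exists_fun ℂ).1 hx'
      refine ⟨c, ?_⟩
      have h1 : Z' c = x := by
        rw [← hc]
        simp [Z']
      change pc (Z' c) = _
      rw [h1]
      exact hpc ⟨x, hx⟩
    have hmap := hW.map_nhds_eq_of_surj hsurj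
    have hsN : ‖s0‖ < ρ := by
      refine (pi_norm_lt_iff hρ).2 fun i => ?_
      have := hs0 i
      rw [mem_ball_zero_iff] at this
      exact this.trans_le hsub3
    have hZN : ∀ s : Fin (Module.finrank ℂ N) → ℂ, (∀ i, s i ∈ ball (0 : ℂ) ε) → Z s ∈ N :=
      fun s hs => N.sum_mem fun i _ => hNs _ (hs i)
    set z0 : ι → ℂ := Z s0 with hz0def
    have hz0N : z0 ∈ N := hZN s0 hs0
    have hz0r : z0 ∈ ball (0 : ι → ℂ) P.r := by
      rw [mem_ball_zero_iff]
      exact hball s0 hsN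
    -- the function
    let g : (ι → ℂ) → ℂ := fun z => eval (fun i => P.h z (a i)) F
    have hg : DifferentiableOn ℂ g (ball 0 P.r) :=
      PA.dpoly (fun z i => P.h z (a i)) (fun i => QC.h_don P hP (a i)) F
    have hev : ∀ᶠ z in 𝓝 z0, z ∈ N → g z = 0 := by
      have hopen : {s : Fin (Module.finrank ℂ N) → ℂ | ‖s‖ < ρ ∧ ∀ i, s i ∈ ball (0 : ℂ) ε} ∈ 𝓝 s0 := by
        refine inter_mem ?_ ?_
        · exact (isOpen_lt continuous_norm continuous_const).mem_nhds hsN
        · have h7 : (Set.pi Set.univ fun _ => ball (0 : ℂ) ε : Set (Fin (Module.finrank ℂ N) → ℂ)) ∈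
              𝓝 s0 := (isOpen_set_pi Set.finite_univ fun _ _ => isOpen_ball).mem_nhds
            (fun i _ => hs0 i)
          exact mem_of_superset h7 fun s hs i => hs i (Set.mem_univ i)
      have him := image_mem_map (m := fun s => pc (Z s)) hopen
      rw [hmap] at him
      have hpcc : Tendsto (fun z : ι → ℂ => pc z) (𝓝 z0) (𝓝 (pc z0)) := pc.continuous.tendsto z0
      filter_upwards [hpcc him] with z hz hzN
      obtain ⟨s, ⟨hs1, hs2⟩, hs3⟩ := hz
      have h1 : Z s = z := by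
        have h4 := hpc ⟨Z s, hZN s hs2⟩
        have h5 := hpc ⟨z, hzN⟩
        have h6 : (⟨Z s, hZN s hs2⟩ : N) = ⟨z, hzN⟩ := by
          rw [← h4, ← h5]
          exact hs3
        exact congrArg Subtype.val h6
      change eval (fun i => P.h z (a i)) F = 0
      rw [← h1]
      exact hF s hs1
    intro z hzN hzr
    exact QC.ident g hg N hz0r hz0N hev (by rwa [mem_ball_zero_iff]) hzN

end Pool.Agent.WW
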