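import Pool.Agent.WW.QDefs

set_option autoImplicit false

namespace Pool.Agent.WW

open MvPolynomial Metric Filter Topology

namespace QC1

/-- germs of analytic functions at `0` -/
noncomputable def An : Subring (Germ (𝓝 (0 : ℂ)) ℂ) where
  carrier := {x | ∃ f : ℂ → ℂ, AnalyticAt ℂ f 0 ∧ (f : Germ (𝓝 (0 : ℂ)) ℂ) = x}
  mul_mem' := by
    rintro _ _ ⟨f, hf, rfl⟩ ⟨g, hg, rfl⟩
    exact ⟨f * g, hf.mul hg, rfl⟩
  one_mem' := ⟨1, analyticAt_const, rfl⟩
  add_mem' := by
    rintro _ _ ⟨f, hf, rfl⟩ ⟨g, hg, rfl⟩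
    exact ⟨f + g, hf.add hg, rfl⟩
  zero_mem' := ⟨0, analyticAt_const, rfl⟩
  neg_mem' := by
    rintro _ ⟨f, hf, rfl⟩
    exact ⟨-f, hf.neg, rfl⟩

theorem coe_eq_zero_iff (f : ℂ → ℂ) :
    (f : Germ (𝓝 (0 : ℂ)) ℂ) = 0 ↔ ∀ᶠ s in 𝓝 (0 : ℂ), f s = 0 := by
  have : (0 : Germ (𝓝 (0 : ℂ)) ℂ) = ((0 : ℂ → ℂ) : Germ (𝓝 (0 : ℂ)) ℂ) := rfl
  rw [this, Germ.coe_eq]
  rfl

instance : IsDomain An := by
  have : NoZeroDivisors An := by
    refine ⟨?_⟩
    rintro ⟨_, f, hf, rfl⟩ ⟨_, g, hg, rfl⟩ h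
    have h1 : ((f * g : ℂ → ℂ) : Germ (𝓝 (0 : ℂ)) ℂ) = 0 := by
      have := congrArg (Subtype.val) h
      simpa using this
    rw [coe_eq_zero_iff] at h1
    rcases hf.eventually_eq_zero_or_eventually_ne_zero with h2 | h2
    · left
      apply Subtype.ext
      exact (coe_eq_zero_iff f).mpr h2
    rcases hg.eventually_eq_zero_or_eventually_ne_zero with h3 | h3
    · right
      apply Subtype.ext
      exact (coe_eq_zero_iff g).mpr h3
    exfalso
    have h4 : ∀ᶠ z in 𝓝[≠] (0 : ℂ), False := by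
      filter_upwards [h2, h3, h1.filter_mono nhdsWithin_le_nhds] with z a b c
      rcases mul_eq_zero.mp c with c | c
      · exact a c
      · exact b c
    exact (h4.exists).elim (fun _ h => h)
  have : Nontrivial An := inferInstance
  exact NoZeroDivisors.to_isDomain _

/-- functions that are analytic at zero, as germs -/
noncomputable def mk (f : ℂ → ℂ) (hf : AnalyticAt ℂ f 0) : An := ⟨(f : Germ (𝓝 (0 : ℂ)) ℂ), f, hf, rfl⟩

/-- polynomials as functions -/
noncomputable def pf : Polynomial ℂ →+* (ℂ → ℂ) where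
  toFun p := fun s => p.eval s
  map_one' := by ext s; simp
  map_mul' p q := by ext s; simp
  map_zero' := by ext s; simp
  map_add' p q := by ext s; simp

/-- polynomials as analytic germs -/
noncomputable def pg : Polynomial ℂ →+* An where
  toFun p := mk (pf p) (by
    change AnalyticAt ℂ (fun s => p.eval s) 0
    exact (Polynomial.differentiable p).analyticAt 0)
  map_one' := by
    apply Subtype.ext
    change ((pf 1 : ℂ → ℂ) : Germ (𝓝 (0 : ℂ)) ℂ) = 1
    rw [map_one]; rfl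
  map_mul' p q := by
    apply Subtype.ext
    change ((pf (p * q) : ℂ → ℂ) : Germ (𝓝 (0 : ℂ)) ℂ) = _
    rw [map_mul]; rfl
  map_zero' := by
    apply Subtype.ext
    change ((pf 0 : ℂ → ℂ) : Germ (𝓝 (0 : ℂ)) ℂ) = 0
    rw [map_zero]; rfl
  map_add' p q := by
    apply Subtype.ext
    change ((pf (p + q) : ℂ → ℂ) : Germ (𝓝 (0 : ℂ)) ℂ) = _
    rw [map_add]; rfl

noncomputable instance : Algebra (Polynomial ℂ) An := pg.toAlgebra

theorem aeval_mk (g : ℂ → ℂ) (hg : AnalyticAt ℂ g 0) (F : Polynomial (Polynomial ℂ)) :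
    ((Polynomial.aeval (mk g hg) F : An) : Germ (𝓝 (0 : ℂ)) ℂ) =
      ((fun s => (F.map (Polynomial.evalRingHom s)).eval (g s) : ℂ → ℂ) : Germ (𝓝 (0 : ℂ)) ℂ) := by
  induction F using Polynomial.induction_on' with
  | add p q hp hq =>
    rw [map_add]
    push_cast
    rw [hp, hq, ← Germ.coe_add]
    congr 1
    ext s
    simp
  | monomial n a =>
    rw [Polynomial.aeval_monomial]
    have h1 : (fun s => ((Polynomial.monomial n a).map (Polynomial.evalRingHom s)).eval (g s)) =
        (pf a) * g ^ n := by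
      ext s
      simp [pf]
    rw [h1]
    rfl

theorem algGerm_iff (g : ℂ → ℂ) (hg : AnalyticAt ℂ g 0) :
    AlgGerm g ↔ IsAlgebraic (Polynomial ℂ) (mk g hg) := by
  constructor
  · rintro ⟨_, F, hF, h⟩
    refine ⟨F, hF, ?_⟩
    apply Subtype.ext
    rw [aeval_mk]
    exact (coe_eq_zero_iff _).mpr h
  · rintro ⟨F, hF, h⟩
    refine ⟨hg, F, hF, ?_⟩
    rw [← coe_eq_zero_iff, ← aeval_mk g hg, h]
    rfl

theorem analytic_eval {τ : Type} [Fintype τ] (g : τ → ℂ → ℂ) (hg : ∀ a, AnalyticAt ℂ (g a) 0)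
    (p : MvPolynomial τ ℂ) : AnalyticAt ℂ (fun s => eval (fun a => g a s) p) 0 := by
  induction p using MvPolynomial.induction_on with
  | C a => simpa using analyticAt_const
  | add p q hp hq =>
    simp only [map_add]
    exact hp.add hq
  | mul_X p i hp =>
    simp only [map_mul, eval_X]
    exact hp.mul (hg i)

theorem alg_eval {τ : Type} [Fintype τ] (g : τ → ℂ → ℂ) (hg : ∀ a, AlgGerm (g a))
    (p : MvPolynomial τ ℂ) : AlgGerm (fun s => eval (fun a => g a s) p) := by
  rw [algGerm_iff _ (analytic_eval g (fun a => (hg a).1) p)]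
  induction p using MvPolynomial.induction_on with
  | C a =>
    have : mk (fun s => eval (fun i => g i s) (C a)) (analytic_eval g (fun a => (hg a).1) (C a)) =
        algebraMap (Polynomial ℂ) An (Polynomial.C a) := by
      apply Subtype.ext
      change ((fun s => eval (fun i => g i s) (C a) : ℂ → ℂ) : Germ (𝓝 (0 : ℂ)) ℂ) =
        ((pf (Polynomial.C a) : ℂ → ℂ) : Germ (𝓝 (0 : ℂ)) ℂ)
      congr 1
      ext s
      simp [pf]
    rw [this]
    exact isAlgebraic_algebraMap _
  | add p q hp hq =>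
    have : mk (fun s => eval (fun i => g i s) (p + q))
        (analytic_eval g (fun a => (hg a).1) (p + q)) =
        mk _ (analytic_eval g (fun a => (hg a).1) p) +
        mk _ (analytic_eval g (fun a => (hg a).1) q) := by
      apply Subtype.ext
      change ((fun s => eval (fun i => g i s) (p + q) : ℂ → ℂ) : Germ (𝓝 (0 : ℂ)) ℂ) =
        (((fun s => eval (fun i => g i s) p) + (fun s => eval (fun i => g i s) q) : ℂ → ℂ) :
          Germ (𝓝 (0 : ℂ)) ℂ)
      congr 1
      ext s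
      simp
    rw [this]
    exact hp.add hq
  | mul_X p i hp =>
    have : mk (fun s => eval (fun i => g i s) (p * X i))
        (analytic_eval g (fun a => (hg a).1) (p * X i)) =
        mk _ (analytic_eval g (fun a => (hg a).1) p) * mk (g i) (hg i).1 := by
      apply Subtype.ext
      change ((fun s => eval (fun i => g i s) (p * X i) : ℂ → ℂ) : Germ (𝓝 (0 : ℂ)) ℂ) =
        (((fun s => eval (fun i => g i s) p) * (g i) : ℂ → ℂ) : Germ (𝓝 (0 : ℂ)) ℂ)
      congr 1
      ext s
      simp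
    rw [this]
    exact hp.mul ((algGerm_iff _ _).mp (hg i))

end QC1

/-- (QC1) rational expressions in algebraic germs are algebraic germs -/
theorem AlgGerm.of_eq {τ : Type} [Fintype τ] (g : τ → ℂ → ℂ) (hg : ∀ a, AlgGerm (g a))
    (p q : MvPolynomial τ ℂ) (f : ℂ → ℂ) (hq : eval (fun a => g a 0) q ≠ 0)
    (hf : ∀ᶠ s in 𝓝 (0 : ℂ), f s * eval (fun a => g a s) q = eval (fun a => g a s) p) :
    AlgGerm f := by
  have hqa := QC1.analytic_eval g (fun a => (hg a).1) q
  have hpa := QC1.analytic_eval g (fun a => (hg a).1) p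
  have hfa : AnalyticAt ℂ f 0 := by
    have h1 : AnalyticAt ℂ (fun s => eval (fun a => g a s) p / eval (fun a => g a s) q) 0 :=
      hpa.div hqa hq
    refine h1.congr ?_
    have h2 : ∀ᶠ s in 𝓝 (0 : ℂ), eval (fun a => g a s) q ≠ 0 :=
      hqa.continuousAt.eventually_ne hq
    filter_upwards [hf, h2] with s a b
    rw [← a]
    field_simp
  rw [QC1.algGerm_iff f hfa]
  have hmul : QC1.mk f hfa * QC1.mk _ hqa = QC1.mk _ hpa := by
    apply Subtype.ext
    change ((f * (fun s => eval (fun a => g a s) q) : ℂ → ℂ) : Germ (𝓝 (0 : ℂ)) ℂ) =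
      ((fun s => eval (fun a => g a s) p : ℂ → ℂ) : Germ (𝓝 (0 : ℂ)) ℂ)
    rw [Germ.coe_eq]
    exact hf
  have hq0 : QC1.mk _ hqa ≠ 0 := by
    intro h
    have h1 := (QC1.coe_eq_zero_iff _).mp (congrArg Subtype.val h)
    exact hq h1.self_of_nhds
  have hp1 := (QC1.algGerm_iff _ hpa).mp (QC1.alg_eval g hg p)
  have hq1 := (QC1.algGerm_iff _ hqa).mp (QC1.alg_eval g hg q)
  have hinj : Function.Injective (algebraMap QC1.An (FractionRing QC1.An)) :=
    IsFractionRing.injective _ _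
  rw [← isAlgebraic_algebraMap_iff hinj]
  have h3 : algebraMap QC1.An (FractionRing QC1.An) (QC1.mk f hfa) =
      algebraMap QC1.An (FractionRing QC1.An) (QC1.mk _ hpa) *
      (algebraMap QC1.An (FractionRing QC1.An) (QC1.mk _ hqa))⁻¹ := by
    rw [← hmul, map_mul, mul_assoc, mul_inv_cancel₀, mul_one]
    rw [Ne, map_eq_zero_iff _ hinj]
    exact hq0
  rw [h3]
  exact ((isAlgebraic_algebraMap_iff hinj).mpr hp1).mul
    (((isAlgebraic_algebraMap_iff hinj).mpr hq1).inv)

end Pool.Agent.WW
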