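import Mathlib

set_option autoImplicit false

namespace Pool.Agent.WW

open Filter Topology

/-- simultaneous approximation: multiples of `v` come arbitrarily close to `Λ` -/
theorem exists_mul_near {E : Type} [NormedAddCommGroup E] [NormedSpace ℝ E] [FiniteDimensional ℝ E]
    (Λ : AddSubgroup E) (hΛ : Submodule.span ℝ (Λ : Set E) = ⊤) (v : E) {ε : ℝ} (hε : 0 < ε) :
    ∃ l : ℕ, 1 ≤ l ∧ ∃ y ∈ Λ, ‖(l : ℝ) • v - y‖ < ε := by
  obtain ⟨f, hfΛ, hfs, hfi⟩ := Submodule.exists_fun_fin_finrank_span_eq ℝ (Λ : Set E)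
  let b := Module.Basis.mk hfi (by rw [hfs, hΛ])
  have hbΛ : Submodule.span ℤ (Set.range b) ≤ AddSubgroup.toIntSubmodule Λ := by
    rw [Submodule.span_le]
    rintro _ ⟨i, rfl⟩
    simpa [b] using hfΛ i
  obtain ⟨a, -, φ, hφ, hlim⟩ := tendsto_subseq_of_bounded (ZSpan.fundamentalDomain_isBounded b)
    (x := fun n : ℕ => ZSpan.fract b ((n : ℝ) • v)) (fun n => ZSpan.fract_mem_fundamentalDomain b _)
  have hc := hlim.cauchySeq
  rw [Metric.cauchySeq_iff'] at hc
  obtain ⟨N, hN⟩ := hc ε hε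
  have h1 := hN (N + 1) (Nat.le_succ N)
  have hlt : φ N < φ (N + 1) := hφ (Nat.lt_succ_self N)
  refine ⟨φ (N + 1) - φ N, by omega,
    (ZSpan.floor b ((φ (N + 1) : ℝ) • v) : E) - (ZSpan.floor b ((φ N : ℝ) • v) : E), ?_, ?_⟩
  · exact Λ.sub_mem (hbΛ (ZSpan.floor b _).2) (hbΛ (ZSpan.floor b _).2)
  · rw [dist_eq_norm] at h1
    simp only [Function.comp, ZSpan.fract_apply] at h1
    have h2 : (((φ (N + 1) - φ N : ℕ) : ℝ) • v -
        ((ZSpan.floor b ((φ (N + 1) : ℝ) • v) : E) - (ZSpan.floor b ((φ N : ℝ) • v) : E))) =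
        (φ (N + 1) : ℝ) • v - (ZSpan.floor b ((φ (N + 1) : ℝ) • v) : E) -
          ((φ N : ℝ) • v - (ZSpan.floor b ((φ N : ℝ) • v) : E)) := by
      rw [Nat.cast_sub hlt.le, sub_smul]
      abel
    rw [h2]
    exact h1

/-- (QD2) if the subgroup `Λ` spans the real space `E` and the subspace `N` is not spanned by
`N ∩ Λ`, then the closure of `N + Λ` contains a line not in `N` -/
theorem exists_line {E : Type} [NormedAddCommGroup E] [NormedSpace ℝ E] [FiniteDimensional ℝ E]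
    (Λ : AddSubgroup E) (hΛ : Submodule.span ℝ (Λ : Set E) = ⊤) (N : Submodule ℝ E)
    (hN : Submodule.span ℝ {z : E | z ∈ N ∧ z ∈ Λ} ≠ N) :
    ∃ e : E, e ∉ N ∧ ∀ t : ℝ, t • e ∈ closure ((N.toAddSubgroup ⊔ Λ : AddSubgroup E) : Set E) := by
  set N' := Submodule.span ℝ {z : E | z ∈ N ∧ z ∈ Λ} with hN'
  have hle : N' ≤ N := Submodule.span_le.2 (fun z hz => hz.1)
  obtain ⟨v, hvN, hvN'⟩ := SetLike.exists_of_lt (lt_of_le_of_ne hle hN)
  -- elements of `N + Λ` outside `N` arbitrarily close to `0`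
  have key : ∀ ε : ℝ, 0 < ε → ∃ β : E, ‖β‖ < ε ∧ β ∉ N ∧ β ∈ (N.toAddSubgroup ⊔ Λ : AddSubgroup E) := by
    intro ε hε
    by_contra hcon
    push Not at hcon
    apply hvN'
    have hcl : IsClosed (N' : Set E) := N'.closed_of_finiteDimensional
    rw [← SetLike.mem_coe, ← hcl.closure_eq, Metric.mem_closure_iff]
    intro δ hδ
    obtain ⟨l, hl, y, hy, hly⟩ := exists_mul_near Λ hΛ v (lt_min hε hδ)
    have hl0 : (0 : ℝ) < l := by exact_mod_cast hl
    have hl1 : (1 : ℝ) ≤ l := by exact_mod_cast hl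
    have hmem : (l : ℝ) • v - y ∈ (N.toAddSubgroup ⊔ Λ : AddSubgroup E) := by
      rw [sub_eq_add_neg]
      exact AddSubgroup.add_mem_sup (N.smul_mem _ hvN) (Λ.neg_mem hy)
    have hβN : (l : ℝ) • v - y ∈ N := by
      by_contra hβ
      exact hcon _ (lt_of_lt_of_le hly (min_le_left _ _)) hβ hmem
    have hyN : y ∈ N := by
      have := N.sub_mem (N.smul_mem (l : ℝ) hvN) hβN
      simpa using this
    refine ⟨(l : ℝ)⁻¹ • y, N'.smul_mem _ (Submodule.subset_span ⟨hyN, hy⟩), ?_⟩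
    have h1 : v - (l : ℝ)⁻¹ • y = (l : ℝ)⁻¹ • ((l : ℝ) • v - y) := by
      rw [smul_sub, smul_smul, inv_mul_cancel₀ hl0.ne', one_smul]
    rw [dist_eq_norm, h1, norm_smul, Real.norm_eq_abs, abs_of_pos (inv_pos.2 hl0)]
    calc (l : ℝ)⁻¹ * ‖(l : ℝ) • v - y‖ ≤ 1 * ‖(l : ℝ) • v - y‖ := by
          apply mul_le_mul_of_nonneg_right _ (norm_nonneg _)
          exact inv_le_one_of_one_le₀ hl1
      _ < δ := by rw [one_mul]; exact lt_of_lt_of_le hly (min_le_right _ _)
  -- the complement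
  obtain ⟨E', hE'⟩ := N.exists_isCompl
  let Q : E →ₗ[ℝ] E := E'.projection N hE'.symm
  have hQc : Continuous Q := Q.continuous_of_finiteDimensional
  choose β hβn hβN hβH using fun n : ℕ => key (1 / ((n : ℝ) + 1)) (by positivity)
  have hβ0 : Tendsto β atTop (𝓝 0) := by
    rw [tendsto_zero_iff_norm_tendsto_zero]
    exact squeeze_zero (fun n => norm_nonneg _) (fun n => (hβn n).le) tendsto_one_div_add_atTop_nhds_zero_nat
  let u : ℕ → E := fun n => Q (β n)
  have hu0 : Tendsto u atTop (𝓝 0) := by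
    have := (hQc.tendsto 0).comp hβ0
    simpa [u, Function.comp_def] using this
  have hune : ∀ n, u n ≠ 0 := by
    intro n h
    apply hβN n
    have h1 := Submodule.sub_projection_mem hE'.symm (β n)
    change β n - u n ∈ N at h1
    rwa [h, sub_zero] at h1
  have huE' : ∀ n, u n ∈ E' := fun n => Submodule.projection_apply_mem _ _
  set H : AddSubgroup E := (N.toAddSubgroup ⊔ Λ : AddSubgroup E) with hH
  have huH : ∀ n, u n ∈ H := by
    intro n
    have h1 := Submodule.sub_projection_mem hE'.symm (β n)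
    change β n - u n ∈ N at h1
    have h2 : β n - u n ∈ H := by
      have h3 : N.toAddSubgroup ≤ H := le_sup_left
      exact h3 h1
    have := H.sub_mem (hβH n) h2
    simpa using this
  -- the limit of the directions
  have hsph : ∀ n, ‖u n‖⁻¹ • u n ∈ Metric.sphere (0 : E) 1 := by
    intro n
    rw [mem_sphere_zero_iff_norm, norm_smul, norm_inv, norm_norm,
      inv_mul_cancel₀ (norm_ne_zero_iff.2 (hune n))]
  obtain ⟨e, he, φ, hφ, hlim⟩ := (isCompact_sphere (0 : E) 1).tendsto_subseq hsph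
  have he1 : ‖e‖ = 1 := by simpa using he
  have heE' : e ∈ E' := by
    have hcl : IsClosed (E' : Set E) := E'.closed_of_finiteDimensional
    exact hcl.mem_of_tendsto hlim (Eventually.of_forall (fun n => E'.smul_mem _ (huE' _)))
  refine ⟨e, ?_, ?_⟩
  · intro heN
    have := (Submodule.disjoint_def.1 hE'.disjoint) e heN heE'
    rw [this, norm_zero] at he1
    exact zero_ne_one he1
  · intro t
    apply mem_closure_of_tendsto (b := atTop) (f := fun n => ⌊t / ‖u (φ n)‖⌋ • u (φ n))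
    · have h1 : ∀ n, ⌊t / ‖u (φ n)‖⌋ • u (φ n) =
          (⌊t / ‖u (φ n)‖⌋ * ‖u (φ n)‖ : ℝ) • (‖u (φ n)‖⁻¹ • u (φ n)) := by
        intro n
        rw [smul_smul, mul_assoc, mul_inv_cancel₀ (norm_ne_zero_iff.2 (hune _)), mul_one, Int.cast_smul_eq_zsmul]
      simp_rw [h1]
      refine Tendsto.smul ?_ hlim
      have h2 : Tendsto (fun n => ‖u (φ n)‖) atTop (𝓝 0) := by
        have := (hu0.norm).comp hφ.tendsto_atTop
        simpa [Function.comp_def] using this
      have h3 : Tendsto (fun n => t - ‖u (φ n)‖) atTop (𝓝 t) := by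
        simpa using (tendsto_const_nhds (x := t)).sub h2
      refine tendsto_of_tendsto_of_tendsto_of_le_of_le h3 tendsto_const_nhds (fun n => ?_) (fun n => ?_)
      · have hpos : 0 < ‖u (φ n)‖ := norm_pos_iff.2 (hune _)
        have h4 := Int.sub_one_lt_floor (t / ‖u (φ n)‖)
        have h5 : (t / ‖u (φ n)‖ - 1) * ‖u (φ n)‖ ≤ (⌊t / ‖u (φ n)‖⌋ : ℝ) * ‖u (φ n)‖ :=
          mul_le_mul_of_nonneg_right h4.le hpos.le
        rw [sub_mul, div_mul_cancel₀ _ hpos.ne', one_mul] at h5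
        exact h5
      · have hpos : 0 < ‖u (φ n)‖ := norm_pos_iff.2 (hune _)
        have h4 := Int.floor_le (t / ‖u (φ n)‖)
        have h5 : (⌊t / ‖u (φ n)‖⌋ : ℝ) * ‖u (φ n)‖ ≤ t / ‖u (φ n)‖ * ‖u (φ n)‖ :=
          mul_le_mul_of_nonneg_right h4 hpos.le
        rw [div_mul_cancel₀ _ hpos.ne'] at h5
        exact h5
    · exact Eventually.of_forall (fun n => H.zsmul_mem (huH _) _)

end Pool.Agent.WW
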