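import Pool.Agent.WW.QDefs
import Pool.Agent.WW.PA

set_option autoImplicit false

namespace Pool.Agent.WW

open MvPolynomial Metric Filter Topology

namespace QD3

/-- some `d` of the functionals of a separating family form coordinates -/
theorem exists_coord {V κ : Type} [AddCommGroup V] [Module ℂ V] [FiniteDimensional ℂ V] [Fintype κ]
    (φ : κ → Module.Dual ℂ V) (hφ : ∀ z : V, (∀ k, φ k z = 0) → z = 0) {d : ℕ}
    (hd : Module.finrank ℂ V = d) :
    ∃ e : Fin d → κ, Function.Surjective (LinearMap.pi fun i => φ (e i) : V →ₗ[ℂ] (Fin d → ℂ)) := by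
  classical
  obtain ⟨κ', a, ha, hsp, hli⟩ := exists_linearIndependent' ℂ φ
  haveI : Finite κ' := Finite.of_injective a ha
  letI : Fintype κ' := Fintype.ofFinite κ'
  have hinj : ∀ z : V, (∀ k, φ (a k) z = 0) → z = 0 := by
    intro z hz
    apply hφ
    intro k
    have h1 : φ k ∈ Submodule.span ℂ (Set.range (φ ∘ a)) := by
      rw [hsp]
      exact Submodule.subset_span ⟨k, rfl⟩
    have h2 : Submodule.span ℂ (Set.range (φ ∘ a)) ≤ LinearMap.ker (Module.Dual.eval ℂ V z) := by
      rw [Submodule.span_le]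
      rintro _ ⟨k', rfl⟩
      exact hz k'
    exact h2 h1
  have hcard1 : Fintype.card κ' ≤ d := by
    have := hli.fintype_card_le_finrank
    rwa [Subspace.dual_finrank_eq, hd] at this
  have hinj' : Function.Injective (LinearMap.pi fun k => φ (a k) : V →ₗ[ℂ] (κ' → ℂ)) := by
    rw [← LinearMap.ker_eq_bot, LinearMap.ker_eq_bot']
    intro z hz
    exact hinj z fun k => congrFun hz k
  have hcard2 : d ≤ Fintype.card κ' := by
    have := LinearMap.finrank_le_finrank_of_injective hinj'
    rwa [hd, Module.finrank_fintype_fun_eq_card] at this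
  have hcard : Fintype.card κ' = d := le_antisymm hcard1 hcard2
  let eq := (Fintype.equivFinOfCardEq hcard).symm
  refine ⟨fun i => a (eq i), ?_⟩
  have hfin : Module.finrank ℂ V = Module.finrank ℂ (Fin d → ℂ) := by
    rw [hd, Module.finrank_fin_fun]
  have hinj'' : Function.Injective (LinearMap.pi fun i => φ (a (eq i)) : V →ₗ[ℂ] (Fin d → ℂ)) := by
    rw [← LinearMap.ker_eq_bot, LinearMap.ker_eq_bot']
    intro z hz
    refine hinj z fun k => ?_
    have h := congrFun hz (eq.symm k)
    simp only [LinearMap.pi_apply, Equiv.apply_symm_apply] at h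
    exact h
  exact (LinearMap.injective_iff_surjective_of_finrank_eq_finrank hfin).1 hinj''

variable {π ι : Type} [Fintype π] [Fintype ι] [DecidableEq π] [DecidableEq ι] (P : Pkg π ι)

/-- the abelian functions on the ball -/
theorem ext_hr' (a : P.μ) {z : ι → ℂ} (hz : z ∈ ball (0 : ι → ℂ) P.r) :
    P.ext (P.hr' a : P.Bl → ℂ) z = P.h z a := by
  rw [PA.ext_eq P _ hz]
  exact P.aeval_gr (P.H a) ⟨z, hz⟩

theorem h_don (hP : P.Ok) (a : P.μ) : DifferentiableOn ℂ (fun z => P.h z a) (ball 0 P.r) :=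
  (hP.ana P (P.hr' a)).congr fun _ hz => (ext_hr' P a hz).symm

/-- the abelian functions are strictly differentiable at `0` -/
theorem h_strict (hP : P.Ok) (a : P.μ) :
    HasStrictFDerivAt (fun z => P.h z a) (fderiv ℂ (fun z => P.h z a) 0) 0 := by
  obtain ⟨d, hd, -, -⟩ := hP.exists_pd P
  have hball : ball (0 : ι → ℂ) P.r ∈ 𝓝 (0 : ι → ℂ) := ball_mem_nhds 0 P.hr
  let f' : (ι → ℂ) → ((ι → ℂ) →L[ℂ] ℂ) := fun z =>
    ∑ t, (P.ext (d t (P.hr' a) : P.Bl → ℂ) z) • (ContinuousLinearMap.proj t : (ι → ℂ) →L[ℂ] ℂ)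
  have hf' : ∀ z ∈ ball (0 : ι → ℂ) P.r, HasFDerivAt (fun z => P.h z a) (f' z) z := by
    intro z hz
    have h1 : DifferentiableAt ℂ (fun z => P.h z a) z :=
      (h_don P hP a).differentiableAt (isOpen_ball.mem_nhds hz)
    have h2 : fderiv ℂ (fun z => P.h z a) z = f' z := by
      apply ContinuousLinearMap.coe_injective
      apply LinearMap.pi_ext'
      intro t
      apply LinearMap.ext_ring
      have h3 := hd t (P.hr' a) ⟨z, hz⟩
      have h4 : P.ext (P.hr' a : P.Bl → ℂ) =ᶠ[𝓝 z] fun z => P.h z a := by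
        filter_upwards [isOpen_ball.mem_nhds hz] with w hw
        exact ext_hr' P a hw
      have h5 : P.ext (d t (P.hr' a) : P.Bl → ℂ) z = fderiv ℂ (fun z => P.h z a) z (Pi.single t 1) := by
        rw [PA.ext_eq P _ hz, h3, h4.fderiv_eq]
      simp only [LinearMap.comp_apply, LinearMap.single_apply, ContinuousLinearMap.coe_coe]
      rw [← h5]
      simp only [f', ContinuousLinearMap.sum_apply, ContinuousLinearMap.smul_apply,
        ContinuousLinearMap.proj_apply, smul_eq_mul]
      rw [Finset.sum_eq_single t]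
      · simp
      · intro t' _ ht'
        rw [Pi.single_eq_of_ne ht', mul_zero]
      · intro h; exact absurd (Finset.mem_univ t) h
    rw [← h2]
    exact h1.hasFDerivAt
  have hcont : ContinuousAt f' 0 := by
    refine tendsto_finsetSum _ fun t _ => ?_
    refine ContinuousAt.smul (f := fun z => P.ext (d t (P.hr' a) : P.Bl → ℂ) z)
      (g := fun _ => (ContinuousLinearMap.proj t : (ι → ℂ) →L[ℂ] ℂ)) ?_ continuousAt_const
    exact ((hP.ana P (d t (P.hr' a))).differentiableAt hball).continuousAt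
  have h6 := hasStrictFDerivAt_of_hasFDerivAt_of_continuousAt
    (Filter.eventually_of_mem hball hf') hcont
  have h7 : fderiv ℂ (fun z => P.h z a) 0 = f' 0 := h6.hasFDerivAt.fderiv
  rw [h7]
  exact h6

end QD3

/-- (QD3) on a linear space of dimension `d` some `d` abelian functions are independent near `0` -/
theorem Pkg.Ok.exists_indep {π ι : Type} [Fintype π] [Fintype ι] [DecidableEq π] [DecidableEq ι]
    (P : Pkg π ι) (hP : P.Ok) (N : Submodule ℂ (ι → ℂ)) {d : ℕ} (hd : Module.finrank ℂ N = d) :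
    ∃ a : Fin d → P.μ, ∀ F : MvPolynomial (Fin d) ℂ, ∀ ρ : ℝ, 0 < ρ →
      (∀ z ∈ N, ‖z‖ < ρ → eval (fun i => P.h z (a i)) F = 0) → F = 0 := by
  classical
  obtain ⟨u, hu⟩ := hP.imm
  let φ : ι → ((ι → ℂ) →L[ℂ] ℂ) := fun t' => fderiv ℂ (fun w => P.h w (u t')) 0
  have hφ : ∀ z : ι → ℂ, (∀ t', φ t' z = 0) → z = 0 := by
    intro z hz
    refine Matrix.eq_zero_of_vecMul_eq_zero hu ?_
    funext t'
    have h1 : z = ∑ t, z t • (Pi.single t 1 : ι → ℂ) := by
      funext s
      rw [Finset.sum_apply, Finset.sum_eq_single s]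
      · simp
      · intro t' _ ht'
        rw [Pi.smul_apply, Pi.single_eq_of_ne (Ne.symm ht'), smul_zero]
      · intro h; exact absurd (Finset.mem_univ s) h
    have h2 := hz t'
    rw [h1, map_sum] at h2
    simp only [map_smul, smul_eq_mul] at h2
    simpa [Matrix.vecMul, dotProduct] using h2
  obtain ⟨e, he⟩ := QD3.exists_coord (V := N)
    (fun t' => ((φ t').comp N.subtypeL : N →L[ℂ] ℂ).toLinearMap)
    (by
      intro z hz
      apply Subtype.ext
      exact hφ _ hz) hd
  refine ⟨fun i => u (e i), ?_⟩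
  intro F ρ hρ hF
  let g : N → (Fin d → ℂ) := fun z i => P.h (z : ι → ℂ) (u (e i))
  let g' : N →L[ℂ] (Fin d → ℂ) := ContinuousLinearMap.pi fun i => (φ (e i)).comp N.subtypeL
  have hg : HasStrictFDerivAt g g' 0 := by
    rw [hasStrictFDerivAt_pi']
    intro i
    have h1 := QD3.h_strict P hP (u (e i))
    have h2 : HasStrictFDerivAt (fun z : N => P.h (N.subtypeL z) (u (e i)))
        ((φ (e i)).comp N.subtypeL) 0 := by
      have h3 : HasStrictFDerivAt (fun z => P.h z (u (e i))) (φ (e i)) (N.subtypeL 0) := by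
        rw [map_zero]; exact h1
      exact h3.comp 0 N.subtypeL.hasStrictFDerivAt
    exact h2
  have hsurj : g'.range = ⊤ := by
    rw [LinearMap.range_eq_top]
    exact he
  have hmap := hg.map_nhds_eq_of_surj hsurj
  have hmem : g '' {z : N | ‖(z : ι → ℂ)‖ < ρ} ∈ 𝓝 (g 0) := by
    rw [← hmap]
    apply Filter.image_mem_map
    have : {z : N | ‖(z : ι → ℂ)‖ < ρ} = ball (0 : N) ρ := by
      ext z
      simp
    rw [this]
    exact ball_mem_nhds 0 hρ
  obtain ⟨ε, hε, hball⟩ := Metric.mem_nhds_iff.1 hmem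
  refine funext_set (fun i => ball (g 0 i) ε) (fun i => ?_) ?_
  · exact infinite_of_mem_nhds (g 0 i) (ball_mem_nhds _ hε)
  · intro x hx
    rw [map_zero]
    have hx' : x ∈ ball (g 0) ε := by
      rw [mem_ball, dist_pi_lt_iff hε]
      intro i
      exact hx i (Set.mem_univ i)
    obtain ⟨z, hz, rfl⟩ := hball hx'
    exact hF z z.2 hz

end Pool.Agent.WW
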