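import Pool.Agent.WW.QD1
import Pool.Agent.WW.QD2
import Pool.Agent.WW.QD3

set_option autoImplicit false

namespace Pool.Agent.WW

open MvPolynomial Metric Filter Topology

/-- (QD) a space on which any `dim N + 1` abelian functions are dependent is spanned by periods -/
theorem Pkg.Ok.dep_span {π ι : Type} [Fintype π] [Fintype ι] [DecidableEq π] [DecidableEq ι]
    (P : Pkg π ι) (hP : P.Ok) (N : Submodule ℂ (ι → ℂ)) (hN : P.Dep N) :
    Submodule.span ℝ {z : ι → ℂ | z ∈ N ∧ z ∈ P.Λ} = N.restrictScalars ℝ := by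
  classical
  by_contra hne
  obtain ⟨e, heN, he⟩ := exists_line P.Λ hP.full (N.restrictScalars ℝ) hne
  -- the map `(z, τ) ↦ z + τ e`
  let f : (N × ℂ) →ₗ[ℂ] (ι → ℂ) := N.subtype.coprod (LinearMap.toSpanSingleton ℂ (ι → ℂ) e)
  have hfa : ∀ z : N, ∀ τ : ℂ, f (z, τ) = (z : ι → ℂ) + τ • e := by
    intro z τ
    simp [f]
  have hinj : LinearMap.ker f = ⊥ := by
    rw [LinearMap.ker_eq_bot']
    rintro ⟨z, τ⟩ hz
    rw [hfa] at hz
    have hτ : τ = 0 := by
      by_contra hτ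
      apply heN
      have h1 : e = -(τ⁻¹ • (z : ι → ℂ)) := by
        have h2 : τ • e = -(z : ι → ℂ) := by
          rw [eq_neg_iff_add_eq_zero, add_comm]; exact hz
        rw [← smul_neg, ← h2, smul_smul, inv_mul_cancel₀ hτ, one_smul]
      rw [h1]
      exact N.neg_mem (N.smul_mem _ z.2)
    subst hτ
    rw [zero_smul, add_zero] at hz
    have : z = 0 := Subtype.ext hz
    rw [this]; rfl
  have hfin : Module.finrank ℂ (LinearMap.range f) = Module.finrank ℂ N + 1 := by
    rw [LinearMap.finrank_range_of_inj (LinearMap.ker_eq_bot.1 hinj), Module.finrank_prod,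
      Module.finrank_self]
  obtain ⟨a, ha⟩ := hP.exists_indep P (LinearMap.range f) hfin
  obtain ⟨F, hF0, hF⟩ := hN a
  apply hF0
  obtain ⟨K, hK0, hK⟩ := LinearMap.exists_antilipschitzWith f hinj
  have hK' : ∀ z : N, ∀ τ : ℂ, ‖(z : ι → ℂ)‖ ≤ K * ‖(z : ι → ℂ) + τ • e‖ := by
    intro z τ
    have h1 := hK.le_mul_dist (z, τ) 0
    rw [map_zero, dist_zero_right, dist_zero_right, hfa] at h1
    refine le_trans ?_ h1
    rw [Prod.norm_def]
    exact le_max_left _ _
  have hKpos : (0 : ℝ) < K := by exact_mod_cast hK0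
  refine ha F (min P.r (P.r / K)) (lt_min P.hr (div_pos P.hr hKpos)) ?_
  rintro _ ⟨⟨z, τ⟩, rfl⟩ hz
  rw [hfa] at hz ⊢
  have hz1 : ‖(z : ι → ℂ) + τ • e‖ < P.r := lt_of_lt_of_le hz (min_le_left _ _)
  have hz2 : ‖(z : ι → ℂ)‖ < P.r := by
    refine lt_of_le_of_lt (hK' z τ) ?_
    have := lt_of_lt_of_le hz (min_le_right _ _)
    rw [lt_div_iff₀ hKpos] at this
    rwa [mul_comm]
  -- the function `τ ↦ F (h (z + τ e))`
  let U : Set ℂ := {τ | ‖(z : ι → ℂ) + τ • e‖ < P.r}
  have hcont : Continuous fun τ : ℂ => (z : ι → ℂ) + τ • e :=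
    continuous_const.add (continuous_id.smul continuous_const)
  have hUo : IsOpen U := by
    have : U = (fun τ : ℂ => (z : ι → ℂ) + τ • e) ⁻¹' ball 0 P.r := by
      ext τ
      simp [U]
    rw [this]
    exact isOpen_ball.preimage hcont
  have hUc : Convex ℝ U := by
    intro x hx y hy s t hs ht hst
    have h1 : (z : ι → ℂ) + (s • x + t • y) • e =
        s • ((z : ι → ℂ) + x • e) + t • ((z : ι → ℂ) + y • e) := by
      have h2 : (z : ι → ℂ) = s • (z : ι → ℂ) + t • (z : ι → ℂ) := by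
        rw [← add_smul, hst, one_smul]
      rw [smul_add, smul_add, add_smul, smul_assoc, smul_assoc]
      nth_rewrite 1 [h2]
      abel
    have hx' : (z : ι → ℂ) + x • e ∈ ball (0 : ι → ℂ) P.r := by
      rw [mem_ball_zero_iff]; exact hx
    have hy' : (z : ι → ℂ) + y • e ∈ ball (0 : ι → ℂ) P.r := by
      rw [mem_ball_zero_iff]; exact hy
    have h3 := (convex_ball (0 : ι → ℂ) P.r) hx' hy' hs ht hst
    rw [← h1, mem_ball_zero_iff] at h3
    exact h3
  let Φ : ℂ → ℂ := fun τ => eval (fun i => P.h ((z : ι → ℂ) + τ • e) (a i)) F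
  have hΦ : DifferentiableOn ℂ Φ U := by
    refine PA.dpoly (fun τ i => P.h ((z : ι → ℂ) + τ • e) (a i)) (fun i => ?_) F
    have h1 := QD3.h_don P hP (a i)
    refine DifferentiableOn.comp (g := fun z => P.h z (a i)) (t := ball 0 P.r)
      (f := fun τ : ℂ => (z : ι → ℂ) + τ • e) h1 ?_ ?_
    · exact ((differentiable_id.smul_const e).const_add _).differentiableOn
    · intro τ hτ
      rw [mem_ball_zero_iff]
      exact hτ
  have h0U : (0 : ℂ) ∈ U := by
    show ‖(z : ι → ℂ) + (0 : ℂ) • e‖ < P.r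
    rw [zero_smul, add_zero]
    exact hz2
  have hreal : ∀ t : ℝ, (t : ℂ) ∈ U → Φ t = 0 := by
    intro t ht
    refine hP.rel_closure P N a F hF _ ht ?_
    have h1 : ((t : ℂ) • e : ι → ℂ) = t • e := by
      funext i
      simp
    rw [h1]
    have h2 : (z : ι → ℂ) ∈ (N.toAddSubgroup ⊔ P.Λ : AddSubgroup (ι → ℂ)).topologicalClosure :=
      subset_closure (AddSubgroup.mem_sup_left z.2)
    have h3 : t • e ∈ (N.toAddSubgroup ⊔ P.Λ : AddSubgroup (ι → ℂ)).topologicalClosure := he t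
    exact AddSubgroup.add_mem _ h2 h3
  have hana : AnalyticOnNhd ℂ Φ U := hΦ.analyticOnNhd hUo
  have hfreq : ∃ᶠ τ in 𝓝[≠] (0 : ℂ), Φ τ = 0 := by
    rw [Filter.Frequently]
    intro hev
    have hUn : ∀ᶠ τ in 𝓝[≠] (0 : ℂ), τ ∈ U := nhdsWithin_le_nhds (hUo.mem_nhds h0U)
    have h1 := hev.and hUn
    rw [eventually_nhdsWithin_iff, Metric.eventually_nhds_iff] at h1
    obtain ⟨ε, hε, h1⟩ := h1
    have h2 := h1 (y := ((ε / 2 : ℝ) : ℂ)) (by
      rw [dist_zero_right, Complex.norm_real, Real.norm_eq_abs, abs_of_pos (half_pos hε)]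
      exact half_lt_self hε) (by
      simp only [Set.mem_compl_iff, Set.mem_singleton_iff, Complex.ofReal_eq_zero]
      exact (half_pos hε).ne')
    exact h2.1 (hreal _ h2.2)
  have hzero := hana.eqOn_zero_of_preconnected_of_frequently_eq_zero hUc.isPreconnected h0U hfreq
  exact hzero hz1

end Pool.Agent.WW
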