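import Pool.Agent.WW.QB
import Pool.Agent.WW.QC1
import Pool.Agent.WW.QC
import Pool.Agent.WW.QD

set_option autoImplicit false

namespace Pool.Agent.WW

open MvPolynomial Metric Filter Topology

variable {π : Type} [Fintype π] [DecidableEq π] {m : ℕ} (P : Pkg π (Fin (m + 1)))

private theorem qe_ext (a : P.μ) {z : Fin (m + 1) → ℂ} (hz : z ∈ ball (0 : Fin (m + 1) → ℂ) P.r) :
    P.ext (P.hr' a : P.Rg) z = P.h z a := by
  unfold Pkg.ext
  rw [dif_pos hz]
  exact P.aeval_gr (P.H a) ⟨z, hz⟩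

/-- partial evaluation of a polynomial in two groups of variables -/
private theorem qe_eval {μ : Type} (q : MvPolynomial (μ ⊕ μ) ℂ) (c g : μ → ℂ) :
    eval g (aeval (Sum.elim X (fun b => C (c b)) : μ ⊕ μ → MvPolynomial μ ℂ) q) = eval (Sum.elim g c) q := by
  have h : ∀ q : MvPolynomial (μ ⊕ μ) ℂ,
      aeval g (aeval (Sum.elim X (fun b => C (c b)) : μ ⊕ μ → MvPolynomial μ ℂ) q)
        = aeval (Sum.elim g c) q := by
    intro q
    rw [← AlgHom.comp_apply]
    congr 1
    ext i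
    rcases i with i | i
    · simp
    · simp
  have := h q
  simpa [MvPolynomial.aeval_eq_eval] using this

/-- (QE) all algebraic arcs are transversal to the hyperplane -/
theorem Pkg.Ok.arcOK (hP : P.Ok) (hN : P.NoSub) {N : ℕ} (A : DR P.Rg m N) (hA : P.IsPd A.d)
    (p : P.Bl) (hp : ‖(p : Fin (m + 1) → ℂ)‖ < P.r / 4) : A.ArcOK (P.ev p) := by
  intro ψ hc hnc ht v hv hlast
  obtain ⟨z, hza, hz0, halg, hncz, hl⟩ := Pkg.Ok.arc_curve P hP A hA p ψ hc ht v hv
  have hr := P.hr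
  have hne := hncz hnc
  have hl' := hl hlast
  set p' : Fin (m + 1) → ℂ := (p : Fin (m + 1) → ℂ) with hp'
  have hp2 : p' ∈ ball (0 : Fin (m + 1) → ℂ) (P.r / 2) := by
    rw [mem_ball_zero_iff]; linarith
  have hp2' : -p' ∈ ball (0 : Fin (m + 1) → ℂ) (P.r / 2) := by
    rw [mem_ball_zero_iff, norm_neg]; linarith
  have hev : ∀ᶠ s in 𝓝 (0 : ℂ), z s ∈ ball (0 : Fin (m + 1) → ℂ) (P.r / 2) := by
    apply hza.continuousAt
    rw [hz0]
    exact isOpen_ball.mem_nhds hp2
  have hsub : ball (0 : Fin (m + 1) → ℂ) (P.r / 2) ⊆ ball (0 : Fin (m + 1) → ℂ) P.r :=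
    ball_subset_ball (by linarith)
  have hγalg : ∀ a, AlgGerm fun s => P.h (z s - p') a := by
    intro a
    refine AlgGerm.of_eq (fun b s => P.ext (P.hr' b : P.Rg) (z s)) (fun b => halg (P.hr' b))
      (aeval (Sum.elim X (fun b => C (P.h (-p') b)) : P.μ ⊕ P.μ → MvPolynomial P.μ ℂ) (P.ad a))
      (aeval (Sum.elim X (fun b => C (P.h (-p') b)) : P.μ ⊕ P.μ → MvPolynomial P.μ ℂ) P.ad0)
      _ ?_ ?_
    · rw [qe_eval]
      have h1 : (fun b => P.ext (P.hr' b : P.Rg) (z 0)) = P.h p' := by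
        funext b
        rw [qe_ext P b (by rw [hz0]; exact hsub hp2), hz0]
      rw [h1]
      exact hP.ad0 p' hp2 (-p') hp2'
    · filter_upwards [hev] with s hs
      rw [qe_eval, qe_eval]
      have h1 : (fun b => P.ext (P.hr' b : P.Rg) (z s)) = P.h (z s) := by
        funext b
        rw [qe_ext P b (hsub hs)]
      rw [h1, sub_eq_add_neg]
      exact hP.ad (z s) hs (-p') hp2' a
  obtain ⟨N, hN0, hdep, hmin⟩ := Pkg.Ok.exists_dep P hP (fun s => z s - p')
    (hza.sub analyticAt_const) (by simp [hz0]) hγalg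
    (fun h => hne (h.mono fun s hs => sub_eq_zero.1 hs))
  have hker : N ≤ LinearMap.ker (LinearMap.proj (Fin.last m) : (Fin (m + 1) → ℂ) →ₗ[ℂ] ℂ) := by
    apply hmin
    filter_upwards [hl'] with s hs
    rw [LinearMap.mem_ker]
    simp only [LinearMap.proj_apply, Pi.sub_apply]
    rw [hs, sub_self]
  exact hN N hN0 (fun w hw => by
    have := hker hw
    rw [LinearMap.mem_ker] at this
    simpa using this) (Pkg.Ok.dep_span P hP N hdep)

end Pool.Agent.WW
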