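import Mathlib

set_option autoImplicit false

namespace Pool.Agent.WW

namespace T1aAux

theorem prod_emb (K : Type) [Field K] [NumberField K] (z : K) :
    ∏ σ : K →+* ℂ, ‖σ z‖ = ‖((Algebra.norm ℚ z : ℚ) : ℂ)‖ := by
  have h := Algebra.norm_eq_prod_embeddings ℚ ℂ z
  have h2 : ∏ σ : K →ₐ[ℚ] ℂ, σ z = ∏ σ : K →+* ℂ, σ z :=
    (Fintype.prod_equiv (RingHom.equivRatAlgHom K ℂ) _ _ (fun σ => rfl)).symm
  have h3 : algebraMap ℚ ℂ (Algebra.norm ℚ z) = ((Algebra.norm ℚ z : ℚ) : ℂ) := rfl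
  rw [h2, h3] at h
  rw [h, norm_prod]

theorem one_le_prod (K : Type) [Field K] [NumberField K] (z : K) (hz : z ≠ 0)
    (hi : IsIntegral ℤ z) : 1 ≤ ∏ σ : K →+* ℂ, ‖σ z‖ := by
  rw [prod_emb]
  have h1 : IsIntegral ℤ (Algebra.norm ℚ z) := Algebra.isIntegral_norm ℚ hi
  obtain ⟨n, hn⟩ := IsIntegrallyClosed.isIntegral_iff.1 h1
  have hn0 : n ≠ 0 := by
    rintro rfl
    rw [map_zero] at hn
    exact hz (Algebra.norm_eq_zero_iff.1 hn.symm)
  rw [← hn]
  have : (((algebraMap ℤ ℚ n : ℚ)) : ℂ) = ((n : ℝ) : ℂ) := by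
    simp
  rw [this, Complex.norm_real, Real.norm_eq_abs]
  have : (1 : ℤ) ≤ |n| := Int.one_le_abs hn0
  exact_mod_cast this

end T1aAux

open T1aAux

/-- (T1a) Siegel's lemma: integer unknowns, coefficients algebraic integers of a number field -/
theorem siegel_int (K : Type) [Field K] [NumberField K] {α β : Type} [Fintype α] [Fintype β]
    (a : α → β → K) (hint : ∀ i j, IsIntegral ℤ (a i j)) (A : ℝ) (hA : 1 ≤ A)
    (hle : ∀ i j, ∀ σ : K →+* ℂ, ‖σ (a i j)‖ ≤ A)
    (hcard : 4 * Module.finrank ℚ K * Fintype.card α < Fintype.card β) :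
    ∃ x : β → ℤ, x ≠ 0 ∧ (∀ i, ∑ j, (x j : K) * a i j = 0) ∧
      ∀ j, |(x j : ℝ)| ≤ 20 * (Fintype.card β * A) ^ 2 := by
  classical
  set d := Module.finrank ℚ K with hd
  set p := Fintype.card α with hp
  set q := Fintype.card β with hq
  have hq1 : 1 ≤ q := by omega
  have hqA : 1 ≤ (q : ℝ) * A := by
    have : (1 : ℝ) ≤ q := by exact_mod_cast hq1
    nlinarith
  set H : ℕ := ⌈4 * (q * A)⌉₊ with hH
  have hH1 : 4 * (q * A) ≤ (H : ℝ) := Nat.le_ceil _
  have hH2 : (H : ℝ) ≤ 4 * (q * A) + 1 := (Nat.ceil_lt_add_one (by linarith)).le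
  -- the cells
  set C : ℕ := ⌈4 * (q * H * A) + 1⌉₊ + 1 with hC
  let B : ℤ := ⌈2 * (q * H * A)⌉
  -- value of a vector
  let val : (β → Fin (H + 1)) → α → (K →+* ℂ) → ℂ := fun x i σ =>
    σ (∑ j, ((x j : ℕ) : K) * a i j)
  have hval : ∀ x i σ, ‖val x i σ‖ ≤ q * H * A := by
    intro x i σ
    simp only [val, map_sum, map_mul, map_natCast]
    refine (norm_sum_le _ _).trans ?_
    have : ∀ j ∈ Finset.univ, ‖(((x j : ℕ) : ℂ)) * σ (a i j)‖ ≤ H * A := by
      intro j _
      rw [norm_mul]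
      have h1 : ‖(((x j : ℕ) : ℂ))‖ ≤ H := by
        rw [Complex.norm_natCast]
        exact_mod_cast Nat.lt_succ_iff.1 (x j).2
      exact mul_le_mul h1 (hle i j σ) (norm_nonneg _) (Nat.cast_nonneg _)
    refine (Finset.sum_le_card_nsmul _ _ _ this).trans ?_
    rw [Finset.card_univ, nsmul_eq_mul, ← hq]
    linarith [mul_assoc (q : ℝ) (H : ℝ) A]
  let cell : (β → Fin (H + 1)) → α × (K →+* ℂ) × Bool → ℤ := fun x t =>
    if t.2.2 = true then ⌊2 * (val x t.1 t.2.1).re⌋ else ⌊2 * (val x t.1 t.2.1).im⌋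
  have hcell : ∀ x t, cell x t ∈ Finset.Icc (-B) B := by
    intro x t
    have hx := hval x t.1 t.2.1
    have hre : |(val x t.1 t.2.1).re| ≤ q * H * A := (Complex.abs_re_le_norm _).trans hx
    have him : |(val x t.1 t.2.1).im| ≤ q * H * A := (Complex.abs_im_le_norm _).trans hx
    have key : ∀ r : ℝ, |r| ≤ q * H * A → ⌊2 * r⌋ ∈ Finset.Icc (-B) B := by
      intro r hr
      rw [Finset.mem_Icc]
      have hb : 2 * (q * H * A) ≤ (B : ℝ) := Int.le_ceil _
      obtain ⟨h1, h2⟩ := abs_le.1 hr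
      constructor
      · rw [Int.le_floor]
        push_cast
        linarith
      · have h3 : (⌊2 * r⌋ : ℝ) ≤ 2 * r := Int.floor_le _
        have h4 : (⌊2 * r⌋ : ℝ) ≤ B := by linarith
        exact_mod_cast h4
    simp only [cell]
    split_ifs
    · exact key _ hre
    · exact key _ him
  -- counting
  have hBle : (B : ℝ) ≤ 2 * (q * H * A) + 1 := (Int.ceil_lt_add_one _).le
  have hB0 : 0 ≤ B := by
    apply Int.ceil_nonneg
    positivity
  have hcardIcc : ((Finset.Icc (-B) B).card : ℝ) ≤ (H + 1 : ℝ) ^ 2 := by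
    rw [Int.card_Icc]
    have h1 : ((B + 1 - -B).toNat : ℝ) = 2 * B + 1 := by
      have : ((B + 1 - -B).toNat : ℤ) = 2 * B + 1 := by
        rw [Int.toNat_of_nonneg (by omega)]
        ring
      exact_mod_cast this
    rw [h1]
    nlinarith [hBle, hH1, hqA]
  have hcardN : (Finset.Icc (-B) B).card ≤ (H + 1) ^ 2 := by exact_mod_cast hcardIcc
  have hemb : Fintype.card (K →+* ℂ) = d := NumberField.Embeddings.card K ℂ
  have hlt : (Fintype.piFinset (fun _ : α × (K →+* ℂ) × Bool => Finset.Icc (-B) B)).card <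
      (Finset.univ : Finset (β → Fin (H + 1))).card := by
    rw [Fintype.card_piFinset, Finset.prod_const, Finset.card_univ, Finset.card_univ,
      Fintype.card_prod, Fintype.card_prod, hemb, Fintype.card_bool, ← hp, Fintype.card_fun,
      Fintype.card_fin, ← hq]
    calc (Finset.Icc (-B) B).card ^ (p * (d * 2)) ≤ ((H + 1) ^ 2) ^ (p * (d * 2)) :=
          Nat.pow_le_pow_left hcardN _
      _ = (H + 1) ^ (4 * d * p) := by
          rw [← pow_mul]
          congr 1
          ring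
      _ < (H + 1) ^ q := by
          apply Nat.pow_lt_pow_right _ hcard
          have : (4 : ℝ) ≤ H := by nlinarith
          have : 4 ≤ H := by exact_mod_cast this
          omega
  obtain ⟨x, _, x', _, hne, heq⟩ := Finset.exists_ne_map_eq_of_card_lt_of_maps_to hlt
    (f := cell) (fun x _ => by
      rw [Finset.mem_coe, Fintype.mem_piFinset]
      exact fun t => hcell x t)
  refine ⟨fun j => ((x j : ℕ) : ℤ) - ((x' j : ℕ) : ℤ), ?_, ?_, ?_⟩
  · intro h
    apply hne
    funext j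
    have h1 := congrFun h j
    simp only [Pi.zero_apply] at h1
    apply Fin.ext
    omega
  · intro i
    by_contra hne0
    set z : K := ∑ j, ((((x j : ℕ) : ℤ) - ((x' j : ℕ) : ℤ) : ℤ) : K) * a i j with hz
    have hzi : IsIntegral ℤ z := by
      refine IsIntegral.sum _ fun j _ => ?_
      refine IsIntegral.mul ?_ (hint i j)
      exact isIntegral_algebraMap (R := ℤ) (A := K) (x := ((x j : ℕ) : ℤ) - ((x' j : ℕ) : ℤ))
    have h1 := one_le_prod K z hne0 hzi
    have hσ : ∀ σ : K →+* ℂ, ‖σ z‖ < 1 := by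
      intro σ
      have hzv : σ z = val x i σ - val x' i σ := by
        simp only [val, hz, ← map_sub, ← Finset.sum_sub_distrib]
        congr 1
        refine Finset.sum_congr rfl fun j _ => ?_
        push_cast
        ring
      have hre : |(σ z).re| < 1 / 2 := by
        have h2 := congrFun heq (i, σ, true)
        simp only [cell, if_true] at h2
        have h3 := Int.abs_sub_lt_one_of_floor_eq_floor h2
        rw [hzv, Complex.sub_re, abs_lt]
        rw [abs_lt] at h3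
        constructor <;> linarith [h3.1, h3.2]
      have him : |(σ z).im| < 1 / 2 := by
        have h2 := congrFun heq (i, σ, false)
        simp only [cell] at h2
        have h3 := Int.abs_sub_lt_one_of_floor_eq_floor h2
        rw [hzv, Complex.sub_im, abs_lt]
        rw [abs_lt] at h3
        constructor <;> linarith [h3.1, h3.2]
      have := Complex.norm_le_abs_re_add_abs_im (σ z)
      linarith
    have hcardpos : 0 < d := Module.finrank_pos
    have hlt1 : ∏ σ : K →+* ℂ, ‖σ z‖ < 1 := by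
      have hnon : (Finset.univ : Finset (K →+* ℂ)).Nonempty := by
        rw [← Finset.card_pos, Finset.card_univ, hemb]
        exact hcardpos
      have hpos : ∀ σ ∈ (Finset.univ : Finset (K →+* ℂ)), 0 < ‖σ z‖ := by
        intro σ _
        rw [norm_pos_iff]
        exact (map_ne_zero σ).2 hne0
      calc ∏ σ : K →+* ℂ, ‖σ z‖ < ∏ σ : K →+* ℂ, (1 : ℝ) := by
            obtain ⟨σ0, h0⟩ := hnon
            exact Finset.prod_lt_prod hpos (fun σ _ => (hσ σ).le) ⟨σ0, h0, hσ σ0⟩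
        _ = 1 := by simp
    linarith
  · intro j
    have h1 : ((x j : ℕ) : ℝ) ≤ H := by exact_mod_cast Nat.lt_succ_iff.1 (x j).2
    have h2 : ((x' j : ℕ) : ℝ) ≤ H := by exact_mod_cast Nat.lt_succ_iff.1 (x' j).2
    have h3 : (0 : ℝ) ≤ ((x j : ℕ) : ℝ) := Nat.cast_nonneg _
    have h4 : (0 : ℝ) ≤ ((x' j : ℕ) : ℝ) := Nat.cast_nonneg _
    have h5 : |((((x j : ℕ) : ℤ) - ((x' j : ℕ) : ℤ) : ℤ) : ℝ)| ≤ H := by
      push_cast
      rw [abs_le]
      constructor <;> linarith
    refine h5.trans (hH2.trans ?_)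
    nlinarith

/-- (T1b) Liouville's inequality -/
theorem liouville_int (K : Type) [Field K] [NumberField K] (x : K) (hx : x ≠ 0) (q : ℕ)
    (hq : 0 < q) (hint : IsIntegral ℤ ((q : K) * x)) (A : ℝ) (hA : 1 ≤ A)
    (hle : ∀ σ : K →+* ℂ, ‖σ x‖ ≤ A) (σ : K →+* ℂ) :
    1 ≤ ‖σ x‖ * ((q : ℝ) * A) ^ Module.finrank ℚ K := by
  classical
  have hq0 : (q : K) ≠ 0 := by exact_mod_cast hq.ne'
  have h1 := one_le_prod K _ (mul_ne_zero hq0 hx) hint
  have hqr : (1 : ℝ) ≤ q := by exact_mod_cast hq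
  have hnorm : ∀ τ : K →+* ℂ, ‖τ ((q : K) * x)‖ = q * ‖τ x‖ := by
    intro τ
    rw [map_mul, norm_mul, map_natCast, Complex.norm_natCast]
  rw [Finset.prod_congr rfl (fun τ _ => hnorm τ),
    ← Finset.mul_prod_erase Finset.univ _ (Finset.mem_univ σ)] at h1
  have hemb : Fintype.card (K →+* ℂ) = Module.finrank ℚ K := NumberField.Embeddings.card K ℂ
  have h2 : ∏ τ ∈ Finset.univ.erase σ, ((q : ℝ) * ‖τ x‖) ≤ (q * A) ^ (Module.finrank ℚ K - 1) := by
    rw [← hemb, ← Finset.card_univ, ← Finset.card_erase_of_mem (Finset.mem_univ σ)]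
    rw [← Finset.prod_const]
    refine Finset.prod_le_prod (fun τ _ => by positivity) fun τ _ => ?_
    exact mul_le_mul_of_nonneg_left (hle τ) (by positivity)
  have hpos : 0 < Module.finrank ℚ K := Module.finrank_pos
  have h3 : ((q : ℝ) * A) ^ Module.finrank ℚ K = (q * A) ^ (Module.finrank ℚ K - 1) * (q * A) := by
    rw [← pow_succ]
    congr 1
    omega
  rw [h3]
  have hP : (0 : ℝ) ≤ (q * A) ^ (Module.finrank ℚ K - 1) := by positivity
  have hs : (0 : ℝ) ≤ ‖σ x‖ := norm_nonneg _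
  calc (1 : ℝ) ≤ q * ‖σ x‖ * ∏ τ ∈ Finset.univ.erase σ, ((q : ℝ) * ‖τ x‖) := h1
    _ ≤ q * ‖σ x‖ * (q * A) ^ (Module.finrank ℚ K - 1) :=
        mul_le_mul_of_nonneg_left h2 (by positivity)
    _ ≤ q * ‖σ x‖ * (q * A) ^ (Module.finrank ℚ K - 1) * A := by
        have : 0 ≤ q * ‖σ x‖ * (q * A) ^ (Module.finrank ℚ K - 1) := by positivity
        nlinarith
    _ = ‖σ x‖ * ((q * A) ^ (Module.finrank ℚ K - 1) * (q * A)) := by ring

end Pool.Agent.WW
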