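import Pool.Agent.WW.T0
import Pool.Agent.WW.T1a

set_option autoImplicit false

namespace Pool.Agent.WW

open MvPolynomial Metric Filter Topology

section words

variable {R : Type} [CommRing R] [Algebra ℂ R] {m N : ℕ}

private theorem dw_perm (A : DR R m N) {l l' : List (Fin (m + 1))} (h : l.Perm l') (f : R) :
    A.dw l f = A.dw l' f := by
  induction h generalizing f with
  | nil => rfl
  | cons x _ ih =>
    simp only [DR.dw, LinearMap.comp_apply]
    rw [ih]
  | swap x y l =>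
    simp only [DR.dw, LinearMap.comp_apply, Derivation.coeFn_coe]
    exact A.comm _ _ _
  | trans _ _ ih1 ih2 => rw [ih1, ih2]

private theorem vw_perm (A : DR R m N) {l l' : List (Fin m)} (h : l.Perm l') (f : R) :
    A.vw l f = A.vw l' f := by
  unfold DR.vw
  exact dw_perm A (h.map _) f

end words

variable {π : Type} [Fintype π] [DecidableEq π] {m : ℕ} (P : Pkg π (Fin (m + 1)))

private theorem ev_dw_zsmul {N : ℕ} (A : DR P.Rg m N) (z : P.Bl) (l : List (Fin (m + 1)))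
    {ι : Type} (s : Finset ι) (c : ι → ℤ) (f : ι → P.Rg) :
    P.ev z (A.dw l (∑ i ∈ s, (algebraMap ℤ P.Rg (c i)) * f i)) =
      ∑ i ∈ s, ((c i : ℤ) : ℂ) * P.ev z (A.dw l (f i)) := by
  rw [map_sum, map_sum]
  refine Finset.sum_congr rfl fun i _ => ?_
  have e : (algebraMap ℤ P.Rg (c i)) * f i = ((c i : ℤ) : ℂ) • f i := by
    rw [Algebra.smul_def]
    simp
  rw [e, map_smul, map_smul, smul_eq_mul]

private theorem pow_bd {B : ℝ} {c0 m : ℕ} (T : ℕ) (hB1 : 1 ≤ B) (hc : (c0 : ℝ) ≤ B) (hT : (T : ℝ) + 1 ≤ B) :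
    (c0 : ℝ) ^ T * (((T : ℝ) + 1) ^ (m + 1) * B ^ (c0 * T)) ≤ B ^ ((c0 + m + 2) * T) := by
  have h1 : (c0 : ℝ) ^ T ≤ B ^ T := pow_le_pow_left₀ (Nat.cast_nonneg _) hc T
  have h2 : ((T : ℝ) + 1) ^ (m + 1) ≤ B ^ ((m + 1) * T) := by
    rcases Nat.eq_zero_or_pos T with h0 | h0
    · subst h0
      simp
    · calc ((T : ℝ) + 1) ^ (m + 1) ≤ B ^ (m + 1) :=
            pow_le_pow_left₀ (by positivity) hT _
        _ ≤ B ^ ((m + 1) * T) := by
            apply pow_le_pow_right₀ hB1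
            exact Nat.le_mul_of_pos_right _ h0
  have hB0 : 0 ≤ B := by linarith
  calc (c0 : ℝ) ^ T * (((T : ℝ) + 1) ^ (m + 1) * B ^ (c0 * T))
      ≤ B ^ T * (B ^ ((m + 1) * T) * B ^ (c0 * T)) := by
        gcongr
    _ = B ^ ((c0 + m + 2) * T) := by
        rw [← pow_add, ← pow_add]
        congr 1
        ring

/-- (T1) construction of the auxiliary polynomial -/
theorem Pkg.Ok.siegel (hP : P.Ok) {N : ℕ} (A : DR P.Rg m N) (hA : P.IsPd A.d)
    (u : Fin (m + 1) → P.μ) :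
    ∃ c : ℕ, 0 < c ∧ ∀ L T : ℕ, 1 ≤ L → L ≤ T → c * T ^ m ≤ L ^ (m + 1) →
      ∃ p : MvPolynomial (Fin (m + 1)) ℤ, p ≠ 0 ∧ p.totalDegree ≤ L ∧
        (∀ β, |((p.coeff β : ℤ) : ℝ)| ≤ ((c : ℝ) * (T + 1)) ^ (c * T)) ∧ A.VOrd (P.ev P.o) T (P.U u p) := by
  classical
  have hz : ∀ g, IsAlgebraic ℚ (P.bv P.o g) := by
    refine hP.alg_of_x P _ P.o.2 fun i => ?_
    have e : ((P.o : P.Bl) : Fin (m + 1) → ℂ) = 0 := rfl
    rw [e, P.ξ0]
    exact isAlgebraic_zero
  obtain ⟨K, hK, c0, hc0, hval⟩ := hP.val P A hA u P.o hz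
  have : NumberField K := { to_charZero := inferInstance, to_finiteDimensional := hK }
  set d := Module.finrank ℚ K with hd
  refine ⟨4 * d * (m + 1) ^ (m + 1) + 20 * c0 + 2 * (c0 + m + 2) + 1, by omega, ?_⟩
  intro L T hL hLT hcT
  set c := 4 * d * (m + 1) ^ (m + 1) + 20 * c0 + 2 * (c0 + m + 2) + 1 with hcdef
  set n := L / (m + 1) with hn
  let α := {γ : Fin m → Fin T // ∃ w : List (Fin m), w.length < T ∧ ∀ i, w.count i = (γ i : ℕ)}
  have hα : ∀ γ : α, ∃ w : List (Fin m), w.length < T ∧ ∀ i, w.count i = (γ.1 i : ℕ) := fun γ => γ.2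
  choose w hw1 hw2 using hα
  have hb : ∀ b : Fin (m + 1) → Fin (n + 1), ∑ t, (b t : ℕ) ≤ L := by
    intro b
    calc ∑ t, (b t : ℕ) ≤ ∑ _t : Fin (m + 1), n :=
          Finset.sum_le_sum fun t _ => Nat.lt_succ_iff.1 (b t).2
      _ = (m + 1) * n := by simp
      _ ≤ L := Nat.mul_div_le L (m + 1)
  have hx : ∀ (γ : α) (b : Fin (m + 1) → Fin (n + 1)), ∃ x : K,
      (x : ℂ) = P.ev P.o (A.vw (w γ) (∏ t, P.hr' (u t) ^ (b t : ℕ))) ∧
          IsIntegral ℤ ((c0 : K) ^ T * x) ∧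
          ∀ σ : K →+* ℂ, ‖σ x‖ ≤ ((c0 : ℝ) * (T + 1)) ^ (c0 * T) := by
    intro γ b
    obtain ⟨x, hx1, hx2, hx3⟩ := hval T ((w γ).map Fin.castSucc) (fun t => (b t : ℕ))
      (by rw [List.length_map]; exact (hw1 γ).le) ((hb b).trans hLT)
    exact ⟨x, hx1, hx2, hx3⟩
  choose x hx1 hx2 hx3 using hx
  set B : ℝ := (c0 : ℝ) * (T + 1) with hB
  have hc0' : (1 : ℝ) ≤ c0 := by exact_mod_cast hc0
  have hT0 : (0 : ℝ) ≤ T := Nat.cast_nonneg T
  have hB1 : 1 ≤ B := by nlinarith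
  have hBc : (c0 : ℝ) ≤ B := by nlinarith
  have hBT : (T : ℝ) + 1 ≤ B := by nlinarith
  obtain ⟨y, hy0, hy1, hy2⟩ := siegel_int K (fun (γ : α) (b : Fin (m + 1) → Fin (n + 1)) => (c0 : K) ^ T * x γ b)
    (fun γ b => hx2 γ b) ((c0 : ℝ) ^ T * B ^ (c0 * T))
    (one_le_mul_of_one_le_of_one_le (one_le_pow₀ hc0') (one_le_pow₀ hB1))
    (fun γ b σ => by
      rw [map_mul, map_pow, map_natCast, norm_mul, norm_pow, Complex.norm_natCast]
      exact mul_le_mul_of_nonneg_left (hx3 γ b σ) (by positivity))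
    (by
      have h1 : Fintype.card α ≤ T ^ m := by
        calc Fintype.card α ≤ Fintype.card (Fin m → Fin T) := Fintype.card_subtype_le _
          _ = T ^ m := by simp
      have h2 : Fintype.card (Fin (m + 1) → Fin (n + 1)) = (n + 1) ^ (m + 1) := by simp
      rw [h2]
      have h3 : L < (n + 1) * (m + 1) := by
        have := Nat.lt_div_mul_add (a := L) (Nat.succ_pos m)
        rw [hn]
        nlinarith [this]
      have h4 : 4 * d * (m + 1) ^ (m + 1) * T ^ m < (n + 1) ^ (m + 1) * (m + 1) ^ (m + 1) := by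
        calc 4 * d * (m + 1) ^ (m + 1) * T ^ m ≤ c * T ^ m := by
              apply Nat.mul_le_mul_right
              rw [hcdef]
              omega
          _ ≤ L ^ (m + 1) := hcT
          _ < ((n + 1) * (m + 1)) ^ (m + 1) := Nat.pow_lt_pow_left h3 (Nat.succ_ne_zero m)
          _ = _ := by rw [mul_pow]
      have h5 : (4 * d * T ^ m) * (m + 1) ^ (m + 1) < (n + 1) ^ (m + 1) * (m + 1) ^ (m + 1) := by
        calc (4 * d * T ^ m) * (m + 1) ^ (m + 1) = 4 * d * (m + 1) ^ (m + 1) * T ^ m := by ring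
          _ < _ := h4
      have h6 : 4 * d * T ^ m < (n + 1) ^ (m + 1) := lt_of_mul_lt_mul_right h5 (Nat.zero_le _)
      calc 4 * d * Fintype.card α ≤ 4 * d * T ^ m := Nat.mul_le_mul_left _ h1
        _ < _ := h6)
  let fs : (Fin (m + 1) → Fin (n + 1)) → (Fin (m + 1) →₀ ℕ) :=
    fun b => Finsupp.equivFunOnFinite.symm (fun t => (b t : ℕ))
  have hfs : Function.Injective fs := by
    intro b b' h
    have h' := Finsupp.equivFunOnFinite.symm.injective h
    funext t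
    exact Fin.ext (congrFun h' t)
  let p : MvPolynomial (Fin (m + 1)) ℤ := ∑ b, monomial (fs b) (y b)
  have hcoeff : ∀ b, p.coeff (fs b) = y b := by
    intro b
    simp only [p, coeff_sum, coeff_monomial]
    rw [Finset.sum_eq_single b]
    · simp
    · intro b' _ hne
      rw [if_neg]
      exact fun h => hne (hfs h)
    · intro h
      exact absurd (Finset.mem_univ b) h
  have hcoeff' : ∀ β, (∀ b, fs b ≠ β) → p.coeff β = 0 := by
    intro β hβ
    simp only [p, coeff_sum, coeff_monomial]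
    exact Finset.sum_eq_zero fun b _ => if_neg (hβ b)
  refine ⟨p, ?_, ?_, ?_, ?_⟩
  · intro h0
    apply hy0
    funext b
    rw [← hcoeff b, h0]
    simp
  · refine (totalDegree_finsetSum _ _).trans (Finset.sup_le fun b _ => ?_)
    refine (totalDegree_monomial_le _ _).trans ?_
    rw [Finsupp.sum_fintype _ _ (fun _ => rfl)]
    exact hb b
  · have hcard : ((Fintype.card (Fin (m + 1) → Fin (n + 1)) : ℕ) : ℝ) ≤ ((T : ℝ) + 1) ^ (m + 1) := by
      have h2 : Fintype.card (Fin (m + 1) → Fin (n + 1)) = (n + 1) ^ (m + 1) := by simp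
      rw [h2]
      push_cast
      have : (n : ℝ) ≤ T := by
        have : n ≤ T := (Nat.div_le_self _ _).trans hLT
        exact_mod_cast this
      gcongr
    have hbig : ∀ b, |((y b : ℤ) : ℝ)| ≤ ((c : ℝ) * (T + 1)) ^ (c * T) := by
      intro b
      have h1 : ((Fintype.card (Fin (m + 1) → Fin (n + 1)) : ℕ) : ℝ) * ((c0 : ℝ) ^ T * B ^ (c0 * T)) ≤
          B ^ ((c0 + m + 2) * T) := by
        calc _ ≤ ((T : ℝ) + 1) ^ (m + 1) * ((c0 : ℝ) ^ T * B ^ (c0 * T)) := by gcongr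
          _ = (c0 : ℝ) ^ T * (((T : ℝ) + 1) ^ (m + 1) * B ^ (c0 * T)) := by ring
          _ ≤ _ := pow_bd T hB1 hBc hBT
      have hT1 : 1 ≤ T := hL.trans hLT
      have hcc : (20 : ℝ) ≤ c := by
        have : 20 ≤ c := by
          rw [hcdef]
          have : 20 * 1 ≤ 20 * c0 := Nat.mul_le_mul_left _ hc0
          omega
        exact_mod_cast this
      have hcB : B ≤ (c : ℝ) * (T + 1) := by
        rw [hB]
        have : (c0 : ℝ) ≤ c := by
          have : c0 ≤ c := by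
            rw [hcdef]
            omega
          exact_mod_cast this
        gcongr
      have hC1 : (1 : ℝ) ≤ (c : ℝ) * (T + 1) := hB1.trans hcB
      calc |((y b : ℤ) : ℝ)| ≤ 20 * (Fintype.card (Fin (m + 1) → Fin (n + 1)) *
              ((c0 : ℝ) ^ T * B ^ (c0 * T))) ^ 2 := hy2 b
        _ ≤ 20 * (B ^ ((c0 + m + 2) * T)) ^ 2 := by gcongr
        _ ≤ ((c : ℝ) * (T + 1)) ^ T * (((c : ℝ) * (T + 1)) ^ ((c0 + m + 2) * T)) ^ 2 := by
            gcongr
            calc (20 : ℝ) ≤ (c : ℝ) * (T + 1) := by nlinarith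
              _ ≤ ((c : ℝ) * (T + 1)) ^ T := le_self_pow₀ hC1 (by omega)
        _ = ((c : ℝ) * (T + 1)) ^ ((1 + 2 * (c0 + m + 2)) * T) := by
            rw [← pow_mul, ← pow_add]
            congr 1
            ring
        _ ≤ ((c : ℝ) * (T + 1)) ^ (c * T) := by
            apply pow_le_pow_right₀ hC1
            apply Nat.mul_le_mul_right
            rw [hcdef]
            omega
    intro β
    by_cases h : ∃ b, fs b = β
    · obtain ⟨b, rfl⟩ := h
      rw [hcoeff b]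
      exact hbig b
    · push Not at h
      rw [hcoeff' β h]
      simp only [Int.cast_zero, abs_zero]
      positivity
  · intro l hl
    have hcnt : ∀ i, l.count i < T := fun i => lt_of_le_of_lt List.count_le_length hl
    let γ : α := ⟨fun i => ⟨l.count i, hcnt i⟩, l, hl, fun i => rfl⟩
    have hperm : (w γ).Perm l := List.perm_iff_count.2 fun i => hw2 γ i
    rw [← vw_perm A hperm]
    have hU : P.U u p = ∑ b, (algebraMap ℤ P.Rg (y b)) * ∏ t, P.hr' (u t) ^ (b t : ℕ) := by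
      simp only [Pkg.U, p, map_sum, aeval_monomial]
      refine Finset.sum_congr rfl fun b _ => ?_
      rw [Finsupp.prod_fintype _ _ (fun _ => pow_zero _)]
      rfl
    rw [hU]
    unfold DR.vw
    rw [ev_dw_zsmul]
    have h1 := hy1 γ
    have h2 : ∑ b, ((y b : ℤ) : K) * x γ b = 0 := by
      have hc0K : ((c0 : K) ^ T) ≠ 0 := pow_ne_zero _ (Nat.cast_ne_zero.2 hc0.ne')
      have : (c0 : K) ^ T * ∑ b, ((y b : ℤ) : K) * x γ b = 0 := by
        rw [Finset.mul_sum, ← h1]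
        refine Finset.sum_congr rfl fun b _ => ?_
        ring
      exact (mul_eq_zero.1 this).resolve_left hc0K
    have h3 := congrArg (algebraMap K ℂ) h2
    rw [map_sum, map_zero] at h3
    rw [← h3]
    refine Finset.sum_congr rfl fun b _ => ?_
    rw [map_mul, map_intCast]
    congr 1
    exact (hx1 γ b).symm

/-- (T2) lower bound for the derivatives of the auxiliary polynomial at an algebraic point -/
theorem Pkg.Ok.lower (hP : P.Ok) {N : ℕ} (A : DR P.Rg m N) (hA : P.IsPd A.d)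
    (u : Fin (m + 1) → P.μ) (z : P.Bl) (hz : ∀ g, IsAlgebraic ℚ (P.bv z g)) :
    ∃ c : ℕ, 0 < c ∧ ∀ (T : ℕ) (H : ℝ) (p : MvPolynomial (Fin (m + 1)) ℤ), 1 ≤ H →
      p.totalDegree ≤ T → (∀ β, |((p.coeff β : ℤ) : ℝ)| ≤ H) → ∀ l : List (Fin (m + 1)),
      l.length ≤ T → P.ev z (A.dw l (P.U u p)) ≠ 0 →
        1 ≤ ‖P.ev z (A.dw l (P.U u p))‖ * (H * ((c : ℝ) * (T + 1)) ^ T) ^ c := by
  classical
  obtain ⟨K, hK, c0, hc0, hval⟩ := hP.val P A hA u z hz
  have : NumberField K := { to_charZero := inferInstance, to_finiteDimensional := hK }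
  set d := Module.finrank ℚ K with hd
  refine ⟨(c0 + m + 2) * (d + 1), by positivity, ?_⟩
  intro T H p hH hdeg hcoef l hl hne
  have hdeg' : ∀ β ∈ p.support, ∑ t, β t ≤ T := by
    intro β hβ
    have h := (le_totalDegree hβ).trans hdeg
    rwa [Finsupp.sum_fintype _ _ (fun _ => rfl)] at h
  have hx : ∀ β : Fin (m + 1) →₀ ℕ, β ∈ p.support → ∃ x : K,
      (x : ℂ) = P.ev z (A.dw l (∏ t, P.hr' (u t) ^ β t)) ∧
          IsIntegral ℤ ((c0 : K) ^ T * x) ∧
          ∀ σ : K →+* ℂ, ‖σ x‖ ≤ ((c0 : ℝ) * (T + 1)) ^ (c0 * T) := fun β hβ => hval T l β hl (hdeg' β hβ)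
  choose! x hx1 hx2 hx3 using hx
  have hU : P.U u p = ∑ β ∈ p.support, (algebraMap ℤ P.Rg (p.coeff β)) * ∏ t, P.hr' (u t) ^ β t := by
    simp only [Pkg.U, aeval_def, eval₂_eq']
  have hsum : P.ev z (A.dw l (P.U u p)) =
      ∑ β ∈ p.support, ((p.coeff β : ℤ) : ℂ) * P.ev z (A.dw l (∏ t, P.hr' (u t) ^ β t)) := by
    rw [hU, ev_dw_zsmul]
  set X : K := ∑ β ∈ p.support, ((p.coeff β : ℤ) : K) * x β with hX
  have hXC : algebraMap K ℂ X = P.ev z (A.dw l (P.U u p)) := by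
    rw [hsum, hX, map_sum]
    refine Finset.sum_congr rfl fun β hβ => ?_
    rw [map_mul, map_intCast]
    congr 1
    exact hx1 β hβ
  have hX0 : X ≠ 0 := by
    intro h0
    apply hne
    rw [← hXC, h0, map_zero]
  set B : ℝ := (c0 : ℝ) * (T + 1) with hB
  have hc0' : (1 : ℝ) ≤ c0 := by exact_mod_cast hc0
  have hT0 : (0 : ℝ) ≤ T := Nat.cast_nonneg T
  have hB1 : 1 ≤ B := by nlinarith
  have hBc : (c0 : ℝ) ≤ B := by nlinarith
  have hBT : (T : ℝ) + 1 ≤ B := by nlinarith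
  have hsupp : ((p.support.card : ℕ) : ℝ) ≤ ((T : ℝ) + 1) ^ (m + 1) := by
    have h1 : p.support.card ≤ (T + 1) ^ (m + 1) := by
      have h2 : (Fintype.piFinset fun _ : Fin (m + 1) => Finset.range (T + 1)).card = (T + 1) ^ (m + 1) := by
        simp
      rw [← h2]
      refine Finset.card_le_card_of_injOn (fun β => (β : Fin (m + 1) → ℕ)) ?_ ?_
      · intro β hβ
        rw [Finset.mem_coe, Fintype.mem_piFinset]
        intro t
        rw [Finset.mem_range, Nat.lt_succ_iff]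
        exact (Finset.single_le_sum (f := fun t => β t) (fun _ _ => Nat.zero_le _) (Finset.mem_univ t)).trans
          (hdeg' β hβ)
      · intro β _ β' _ h
        exact DFunLike.coe_injective h
    exact_mod_cast h1
  have hXle : ∀ σ : K →+* ℂ, ‖σ X‖ ≤ ((T : ℝ) + 1) ^ (m + 1) * (H * B ^ (c0 * T)) := by
    intro σ
    rw [hX, map_sum]
    calc ‖∑ β ∈ p.support, σ (((p.coeff β : ℤ) : K) * x β)‖
        ≤ ∑ β ∈ p.support, ‖σ (((p.coeff β : ℤ) : K) * x β)‖ := norm_sum_le _ _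
      _ ≤ ∑ _β ∈ p.support, H * B ^ (c0 * T) := by
          refine Finset.sum_le_sum fun β hβ => ?_
          rw [map_mul, map_intCast, norm_mul, Complex.norm_intCast]
          exact mul_le_mul (hcoef β) (hx3 β hβ σ) (norm_nonneg _) (by linarith)
      _ = p.support.card * (H * B ^ (c0 * T)) := by simp
      _ ≤ _ := by gcongr
  have hA1 : 1 ≤ ((T : ℝ) + 1) ^ (m + 1) * (H * B ^ (c0 * T)) :=
    one_le_mul_of_one_le_of_one_le (one_le_pow₀ (by linarith))
      (one_le_mul_of_one_le_of_one_le hH (one_le_pow₀ hB1))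
  have hint : IsIntegral ℤ (((c0 ^ T : ℕ) : K) * X) := by
    rw [hX, Finset.mul_sum]
    refine IsIntegral.sum _ fun β hβ => ?_
    have e : ((c0 ^ T : ℕ) : K) * (((p.coeff β : ℤ) : K) * x β) =
        ((p.coeff β : ℤ) : K) * ((c0 : K) ^ T * x β) := by
      push_cast
      ring
    rw [e]
    exact (isIntegral_algebraMap (R := ℤ) (A := K) (x := p.coeff β)).mul (hx2 β hβ)
  have hL := liouville_int K X hX0 (c0 ^ T) (pow_pos hc0 T) hint _ hA1 hXle (algebraMap K ℂ)
  rw [hXC, ← hd] at hL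
  refine hL.trans ?_
  refine mul_le_mul_of_nonneg_left ?_ (norm_nonneg _)
  set e := c0 + m + 2 with he
  have hCc : B ≤ (((e * (d + 1) : ℕ) : ℝ)) * (T + 1) := by
    rw [hB]
    have : (c0 : ℝ) ≤ ((e * (d + 1) : ℕ) : ℝ) := by
      have : c0 ≤ e * (d + 1) := by
        rw [he]
        nlinarith
      exact_mod_cast this
    gcongr
  calc (((c0 ^ T : ℕ) : ℝ) * (((T : ℝ) + 1) ^ (m + 1) * (H * B ^ (c0 * T)))) ^ d
      = (H * ((c0 : ℝ) ^ T * (((T : ℝ) + 1) ^ (m + 1) * B ^ (c0 * T)))) ^ d := by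
        push_cast
        ring
    _ ≤ (H * B ^ (e * T)) ^ d := by
        have := pow_bd (m := m) (c0 := c0) T hB1 hBc hBT
        gcongr
    _ ≤ ((H * B ^ T) ^ e) ^ d := by
        have h1 : H * B ^ (e * T) ≤ (H * B ^ T) ^ e := by
          rw [mul_pow H (B ^ T) e, ← pow_mul B T e, mul_comm T e]
          gcongr
          exact le_self_pow₀ hH (by omega)
        have : 0 ≤ H * B ^ (e * T) := by positivity
        gcongr
    _ = (H * B ^ T) ^ (e * d) := by rw [← pow_mul]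
    _ ≤ (H * ((((e * (d + 1) : ℕ) : ℝ)) * (T + 1)) ^ T) ^ (e * d) := by gcongr
    _ ≤ (H * ((((e * (d + 1) : ℕ) : ℝ)) * (T + 1)) ^ T) ^ (e * (d + 1)) := by
        apply pow_le_pow_right₀
        · exact one_le_mul_of_one_le_of_one_le hH (one_le_pow₀ (hB1.trans hCc))
        · exact Nat.mul_le_mul_left _ (Nat.le_succ d)

end Pool.Agent.WW
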