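import Pool.Agent.WW.PDefs

set_option autoImplicit false

namespace Pool.Agent.WW

open MvPolynomial Metric

namespace PC1

/-- identity theorem on a convex open set -/
theorem ident {f : ℂ → ℂ} {U V : Set ℂ} (hU : IsOpen U) (hc : Convex ℝ U)
    (hf : DifferentiableOn ℂ f U) (hV : IsOpen V) (hVU : V ⊆ U) (hne : V.Nonempty)
    (h : ∀ z ∈ V, f z = 0) : ∀ z ∈ U, f z = 0 := by
  obtain ⟨v, hv⟩ := hne
  have ha : AnalyticOnNhd ℂ f U := hf.analyticOnNhd hU
  have := ha.eqOn_zero_of_preconnected_of_eventuallyEq_zero hc.isPreconnected (hVU hv)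
    (Filter.eventuallyEq_of_mem (hV.mem_nhds hv) h)
  exact fun z hz => this hz

/-- power of the negative, upper half plane -/
theorem cpow_up {x a : ℂ} (hx : 0 < x.im) :
    x ^ a = Complex.exp (Real.pi * Complex.I * a) * (-x) ^ a := by
  have h0 : x ≠ 0 := by rintro rfl; simp at hx
  have h1 : -x ≠ 0 := neg_ne_zero.2 h0
  rw [Complex.cpow_def_of_ne_zero h0, Complex.cpow_def_of_ne_zero h1, ← Complex.exp_add]
  congr 1
  have : Complex.log (-x) = Complex.log x - Real.pi * Complex.I := by
    rw [Complex.log, Complex.log, Complex.arg_neg_eq_arg_sub_pi_of_im_pos hx, norm_neg]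
    push_cast
    ring
  rw [this]
  ring

/-- power of the negative, lower half plane -/
theorem cpow_low {x a : ℂ} (hx : x.im < 0) :
    x ^ a = Complex.exp (-(Real.pi * Complex.I * a)) * (-x) ^ a := by
  have h0 : x ≠ 0 := by rintro rfl; simp at hx
  have h1 : -x ≠ 0 := neg_ne_zero.2 h0
  rw [Complex.cpow_def_of_ne_zero h0, Complex.cpow_def_of_ne_zero h1, ← Complex.exp_add]
  congr 1
  have : Complex.log (-x) = Complex.log x + Real.pi * Complex.I := by
    rw [Complex.log, Complex.log, Complex.arg_neg_eq_arg_add_pi_of_im_neg hx, norm_neg]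
    push_cast
    ring
  rw [this]
  ring

/-- the principal branch is holomorphic -/
theorem ybr_diff (D j k : ℕ) {s : ℂ} (h1 : 1 / 2 + s ∈ Complex.slitPlane)
    (h2 : 1 / 2 - s ∈ Complex.slitPlane) : DifferentiableAt ℂ (ybr D j k) s := by
  unfold ybr
  have e1 : DifferentiableAt ℂ (fun s : ℂ => 1 / 2 + s) s := by fun_prop
  have e2 : DifferentiableAt ℂ (fun s : ℂ => 1 / 2 - s) s := by fun_prop
  exact (e1.cpow_const h1).mul (e2.cpow_const h2)

/-- the sum -/
noncomputable def Fs {D : ℕ} (p : Fin D → Polynomial ℂ) (Y : ℂ → ℂ) (s : ℂ) : ℂ :=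
  ∑ t : Fin D, (p t).eval (1 / 2 + s) * Y s ^ (t : ℕ)

theorem Fs_diff {D : ℕ} (p : Fin D → Polynomial ℂ) {Y : ℂ → ℂ} {s : ℂ}
    (h : DifferentiableAt ℂ Y s) : DifferentiableAt ℂ (Fs p Y) s := by
  unfold Fs
  have : ∀ t : Fin D, DifferentiableAt ℂ
      (fun s => (p t).eval (1 / 2 + s) * Y s ^ (t : ℕ)) s := by
    intro t
    have e1 : DifferentiableAt ℂ (fun s : ℂ => (p t).eval (1 / 2 + s)) s := by
      have := ((p t).differentiable (1 / 2 + s)).comp s
        (show DifferentiableAt ℂ (fun s : ℂ => 1 / 2 + s) s by fun_prop)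
      exact this
    exact e1.mul (h.pow _)
  fun_prop

/-- the continuation across the left cut -/
noncomputable def yL (D j k : ℕ) (s : ℂ) : ℂ :=
  Complex.exp (Real.pi * Complex.I * ((j : ℂ) / D)) *
    ((-(1 / 2 + s)) ^ ((j : ℂ) / D) * (1 / 2 - s) ^ ((k : ℂ) / D))

/-- the root of unity -/
noncomputable def zt (D : ℕ) : ℂ := Complex.exp (2 * Real.pi * Complex.I / D)

theorem mono_left (D j k : ℕ) (hD : D ≠ 0) (c : ℂ) (p : Fin D → Polynomial ℂ) (ρ : ℝ) (hρ : 0 < ρ)
    (h : ∀ s ∈ ball (0 : ℂ) ρ, Fs p (fun s => c * ybr D j k s) s = 0) :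
    ∀ s ∈ ball (0 : ℂ) (1 / 2), Fs p (fun s => c * zt D ^ j * ybr D j k s) s = 0 := by
  -- upper half plane
  set Hu : Set ℂ := {s | 0 < s.im}
  set Hl : Set ℂ := {s | s.im < 0}
  set L : Set ℂ := {s | s.re < -1 / 2}
  have oHu : IsOpen Hu := isOpen_lt continuous_const Complex.continuous_im
  have oHl : IsOpen Hl := isOpen_lt Complex.continuous_im continuous_const
  have oL : IsOpen L := isOpen_lt Complex.continuous_re continuous_const
  have cHu : Convex ℝ Hu := convex_halfSpace_im_gt 0
  have cHl : Convex ℝ Hl := convex_halfSpace_im_lt 0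
  have cL : Convex ℝ L := convex_halfSpace_re_lt _
  have dy : ∀ s : ℂ, s.im ≠ 0 → DifferentiableAt ℂ (ybr D j k) s := by
    intro s hs
    apply ybr_diff
    · rw [Complex.mem_slitPlane_iff]; right; simpa using hs
    · rw [Complex.mem_slitPlane_iff]; right; simpa using hs
  have s1 : ∀ s ∈ Hu, Fs p (fun s => c * ybr D j k s) s = 0 := by
    apply ident oHu cHu ?_ (oHu.inter isOpen_ball) Set.inter_subset_left ?_
      (fun z hz => h z hz.2)
    · intro s hs
      exact (Fs_diff p ((dy s (ne_of_gt hs)).const_mul c)).differentiableWithinAt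
    · refine ⟨((ρ / 2 : ℝ) : ℂ) * Complex.I, ?_, ?_⟩
      · simp only [Hu, Set.mem_ofPred_eq, Complex.mul_im, Complex.ofReal_re, Complex.I_im,
          Complex.ofReal_im, Complex.I_re]
        linarith
      · rw [mem_ball_zero_iff, norm_mul, Complex.norm_I, Complex.norm_real, Real.norm_eq_abs,
          abs_of_pos (by linarith)]
        linarith
  have hzt : zt D ^ j = Complex.exp (Real.pi * Complex.I * ((j : ℂ) / D)) *
      Complex.exp (Real.pi * Complex.I * ((j : ℂ) / D)) := by
    rw [zt, ← Complex.exp_nat_mul, ← Complex.exp_add]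
    congr 1
    field_simp
    ring
  have eL1 : ∀ s : ℂ, 0 < s.im → yL D j k s = ybr D j k s := by
    intro s hs
    unfold yL ybr
    rw [cpow_up (x := 1 / 2 + s) (by simpa using hs)]
    ring
  have eL2 : ∀ s : ℂ, s.im < 0 → yL D j k s = zt D ^ j * ybr D j k s := by
    intro s hs
    unfold yL ybr
    rw [cpow_low (x := 1 / 2 + s) (by simpa using hs), hzt]
    rw [Complex.exp_neg]
    have := Complex.exp_ne_zero (Real.pi * Complex.I * ((j : ℂ) / D))
    field_simp
  have s2 : ∀ s ∈ L, Fs p (fun s => c * yL D j k s) s = 0 := by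
    apply ident oL cL ?_ (oL.inter oHu) Set.inter_subset_left ?_ ?_
    · intro s hs
      refine (Fs_diff p (DifferentiableAt.const_mul ?_ c)).differentiableWithinAt
      unfold yL
      have e1 : DifferentiableAt ℂ (fun s : ℂ => -(1 / 2 + s)) s := by fun_prop
      have e2 : DifferentiableAt ℂ (fun s : ℂ => 1 / 2 - s) s := by fun_prop
      have m1 : -(1 / 2 + s) ∈ Complex.slitPlane := by
        rw [Complex.mem_slitPlane_iff]; left
        have : s.re < -1 / 2 := hs
        simp only [Complex.neg_re, Complex.add_re]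
        norm_num
        linarith
      have m2 : 1 / 2 - s ∈ Complex.slitPlane := by
        rw [Complex.mem_slitPlane_iff]; left
        have : s.re < -1 / 2 := hs
        simp only [Complex.sub_re]
        norm_num
        linarith
      exact ((e1.cpow_const m1).mul (e2.cpow_const m2)).const_mul _
    · refine ⟨⟨-1, 1⟩, ?_, ?_⟩
      · show (-1 : ℝ) < -1 / 2
        norm_num
      · show (0 : ℝ) < 1
        norm_num
    · intro z hz
      have := s1 z hz.2
      unfold Fs at this ⊢
      simpa only [eL1 z hz.2] using this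
  have s3 : ∀ s ∈ Hl, Fs p (fun s => c * zt D ^ j * ybr D j k s) s = 0 := by
    apply ident oHl cHl ?_ (oL.inter oHl) Set.inter_subset_right ?_ ?_
    · intro s hs
      exact (Fs_diff p ((dy s (ne_of_lt hs)).const_mul _)).differentiableWithinAt
    · refine ⟨⟨-1, -1⟩, ?_, ?_⟩
      · show (-1 : ℝ) < -1 / 2
        norm_num
      · show (-1 : ℝ) < 0
        norm_num
    · intro z hz
      have := s2 z hz.1
      unfold Fs at this ⊢
      simp only [eL2 z hz.2] at this
      simpa only [mul_assoc] using this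
  apply ident isOpen_ball (convex_ball _ _) ?_ (isOpen_ball.inter oHl) Set.inter_subset_left ?_
    (fun z hz => s3 z hz.2)
  · intro s hs
    rw [mem_ball_zero_iff] at hs
    have hre : |s.re| < 1 / 2 := lt_of_le_of_lt (Complex.abs_re_le_norm s) hs
    have h12 := abs_lt.1 hre
    refine (Fs_diff p (DifferentiableAt.const_mul (ybr_diff D j k ?_ ?_) _)).differentiableWithinAt
    · rw [Complex.mem_slitPlane_iff]; left
      simp only [Complex.add_re]
      norm_num
      linarith
    · rw [Complex.mem_slitPlane_iff]; left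
      simp only [Complex.sub_re]
      norm_num
      linarith
  · refine ⟨⟨0, -1 / 4⟩, ?_, ?_⟩
    · rw [mem_ball_zero_iff]
      have : (⟨0, -1 / 4⟩ : ℂ) = ((-1 / 4 : ℝ) : ℂ) * Complex.I := by
        apply Complex.ext <;> simp
      rw [this, norm_mul, Complex.norm_I, Complex.norm_real, Real.norm_eq_abs]
      norm_num [abs_of_neg]
    · show (-1 / 4 : ℝ) < 0
      norm_num

theorem ybr_symm (D j k : ℕ) (s : ℂ) : ybr D k j (-s) = ybr D j k s := by
  unfold ybr
  rw [mul_comm]
  congr 2
  all_goals ring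

theorem mono_right (D j k : ℕ) (hD : D ≠ 0) (c : ℂ) (p : Fin D → Polynomial ℂ) (ρ : ℝ) (hρ : 0 < ρ)
    (h : ∀ s ∈ ball (0 : ℂ) ρ, Fs p (fun s => c * ybr D j k s) s = 0) :
    ∀ s ∈ ball (0 : ℂ) (1 / 2), Fs p (fun s => c * zt D ^ k * ybr D j k s) s = 0 := by
  set q : Fin D → Polynomial ℂ := fun t => (p t).comp (1 - Polynomial.X)
  have hq : ∀ (Y : ℂ → ℂ) (s : ℂ), Fs q Y s = Fs p (fun s => Y (-s)) (-s) := by
    intro Y s
    unfold Fs
    apply Finset.sum_congr rfl
    intro t _
    simp only [q, Polynomial.eval_comp, Polynomial.eval_sub, Polynomial.eval_one,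
      Polynomial.eval_X, neg_neg]
    congr 2
    ring
  have key := mono_left D k j hD c q ρ hρ (by
    intro s hs
    rw [hq]
    have := h (-s) (by simpa using hs)
    simpa only [ybr_symm] using this)
  intro s hs
  have := key (-s) (by simpa using hs)
  rw [hq] at this
  simpa only [ybr_symm, neg_neg] using this

theorem iter (D j k : ℕ) (hD : D ≠ 0) (p : Fin D → Polynomial ℂ) (ρ : ℝ) (hρ : 0 < ρ)
    (h : ∀ s ∈ ball (0 : ℂ) ρ, Fs p (fun s => ybr D j k s) s = 0) (a b : ℕ) :
    ∃ ρ' : ℝ, 0 < ρ' ∧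
      ∀ s ∈ ball (0 : ℂ) ρ', Fs p (fun s => zt D ^ (a * j + b * k) * ybr D j k s) s = 0 := by
  induction a with
  | zero =>
    induction b with
    | zero => exact ⟨ρ, hρ, by simpa using h⟩
    | succ b ih =>
      obtain ⟨ρ', h1, h2⟩ := ih
      refine ⟨1 / 2, by norm_num, ?_⟩
      have := mono_right D j k hD _ p ρ' h1 h2
      have e : zt D ^ (0 * j + (b + 1) * k) = zt D ^ (0 * j + b * k) * zt D ^ k := by
        rw [← pow_add]; congr 1; ring
      rw [e]
      exact this
  | succ a ih =>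
    obtain ⟨ρ', h1, h2⟩ := ih
    refine ⟨1 / 2, by norm_num, ?_⟩
    have := mono_left D j k hD _ p ρ' h1 h2
    have e : zt D ^ ((a + 1) * j + b * k) = zt D ^ (a * j + b * k) * zt D ^ j := by
      rw [← pow_add]; congr 1; ring
    rw [e]
    exact this

theorem rep (D j k : ℕ) (hD : 0 < D) (hg : Nat.gcd (Nat.gcd j k) D = 1) (i : ℕ) :
    ∃ a b : ℕ, (a * j + b * k) % D = i % D := by
  have h1 : ((Nat.gcd j k : ℕ) : ℤ) = j * Nat.gcdA j k + k * Nat.gcdB j k := Nat.gcd_eq_gcd_ab j k
  have h2 : ((Nat.gcd (Nat.gcd j k) D : ℕ) : ℤ) = (Nat.gcd j k : ℕ) * Nat.gcdA (Nat.gcd j k) D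
      + D * Nat.gcdB (Nat.gcd j k) D := Nat.gcd_eq_gcd_ab _ _
  rw [hg, h1] at h2
  set u := Nat.gcdA j k
  set v := Nat.gcdB j k
  set w := Nat.gcdA (Nat.gcd j k) D
  set z := Nat.gcdB (Nat.gcd j k) D
  have hD' : (D : ℤ) ≠ 0 := by positivity
  refine ⟨((i * (u * w)) % D).toNat, ((i * (v * w)) % D).toNat, ?_⟩
  have e1 : (((i * (u * w)) % (D : ℤ)).toNat : ℤ) = (i * (u * w)) % D :=
    Int.toNat_of_nonneg (Int.emod_nonneg _ hD')
  have e2 : (((i * (v * w)) % (D : ℤ)).toNat : ℤ) = (i * (v * w)) % D :=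
    Int.toNat_of_nonneg (Int.emod_nonneg _ hD')
  zify
  rw [e1, e2]
  have : (i : ℤ) = (i * (u * w)) * j + (i * (v * w)) * k + D * (i * z) := by
    have := congrArg (fun t => (i : ℤ) * t) h2
    simp only [Nat.cast_one, mul_one] at this
    calc (i : ℤ) = (i : ℤ) * ((↑j * u + ↑k * v) * w + ↑D * z) := this
      _ = _ := by ring
  conv_rhs => rw [this]
  rw [Int.add_mul_emod_self_left]
  rw [Int.add_emod, Int.mul_emod (i * (u * w) % D), Int.emod_emod_of_dvd _ dvd_rfl,
    ← Int.mul_emod, Int.mul_emod (i * (v * w) % D), Int.emod_emod_of_dvd _ dvd_rfl,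
    ← Int.mul_emod, ← Int.add_emod]

end PC1

/-- (PC1) one variable: `1, y, .., y^(D-1)` are linearly independent over the polynomials in `x` -/
theorem ybr_indep (D j k : ℕ) (hD : 3 ≤ D) (hj : 0 < j) (hk : 0 < k)
    (hg : Nat.gcd (Nat.gcd j k) D = 1) (p : Fin D → Polynomial ℂ) (ρ : ℝ) (hρ : 0 < ρ)
    (h : ∀ s ∈ ball (0 : ℂ) ρ, ∑ t : Fin D, (p t).eval (1 / 2 + s) * ybr D j k s ^ (t : ℕ) = 0) :
    ∀ t, p t = 0 := by
  classical
  have hD0 : D ≠ 0 := by omega
  have prim : IsPrimitiveRoot (PC1.zt D) D := Complex.isPrimitiveRoot_exp D hD0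
  have key : ∀ i : Fin D, ∃ ρ' : ℝ, 0 < ρ' ∧
      ∀ s ∈ ball (0 : ℂ) ρ', PC1.Fs p (fun s => PC1.zt D ^ (i : ℕ) * ybr D j k s) s = 0 := by
    intro i
    obtain ⟨a, b, hab⟩ := PC1.rep D j k (by omega) hg i
    obtain ⟨ρ', h1, h2⟩ := PC1.iter D j k hD0 p ρ hρ h a b
    refine ⟨ρ', h1, ?_⟩
    have : PC1.zt D ^ (i : ℕ) = PC1.zt D ^ (a * j + b * k) := by
      rw [← pow_mod_orderOf, ← prim.eq_orderOf, ← hab]
      conv_rhs => rw [← pow_mod_orderOf, ← prim.eq_orderOf]
    rw [this]
    exact h2
  choose r hr1 hr2 using key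
  have hne : (Finset.univ : Finset (Fin D)).Nonempty := ⟨⟨0, by omega⟩, Finset.mem_univ _⟩
  set R : ℝ := min (1 / 2) (Finset.univ.inf' hne r)
  have hR : 0 < R := by
    apply lt_min (by norm_num)
    rw [Finset.lt_inf'_iff]
    exact fun i _ => hr1 i
  have hRi : ∀ i, R ≤ r i := fun i => (min_le_right _ _).trans (Finset.inf'_le r (Finset.mem_univ i))
  have vals : ∀ s ∈ ball (0 : ℂ) R, ∀ t, (p t).eval (1 / 2 + s) = 0 := by
    intro s hs
    set P : Polynomial ℂ := ∑ t : Fin D, Polynomial.C ((p t).eval (1 / 2 + s)) * Polynomial.X ^ (t : ℕ)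
    have hs' : ‖s‖ < 1 / 2 := by
      rw [mem_ball_zero_iff] at hs
      exact lt_of_lt_of_le hs (min_le_left _ _)
    have hre := abs_lt.1 (lt_of_le_of_lt (Complex.abs_re_le_norm s) hs')
    have hy : ybr D j k s ≠ 0 := by
      unfold ybr
      apply mul_ne_zero
      · rw [Ne, Complex.cpow_eq_zero_iff]
        rintro ⟨h1, -⟩
        have := congrArg Complex.re h1
        simp only [Complex.add_re, Complex.zero_re] at this
        norm_num at this
        linarith
      · rw [Ne, Complex.cpow_eq_zero_iff]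
        rintro ⟨h1, -⟩
        have := congrArg Complex.re h1
        simp only [Complex.sub_re, Complex.zero_re] at this
        norm_num at this
        linarith
    have hP : P = 0 := by
      apply Polynomial.eq_zero_of_degree_lt_of_eval_finset_eq_zero
        (Finset.univ.image fun i : Fin D => PC1.zt D ^ (i : ℕ) * ybr D j k s)
      · have hcard : (Finset.univ.image fun i : Fin D => PC1.zt D ^ (i : ℕ) * ybr D j k s).card = D := by
          rw [Finset.card_image_of_injective]
          · simp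
          · intro i i' hii
            have h1 := mul_right_cancel₀ hy hii
            exact Fin.ext (prim.pow_inj i.2 i'.2 h1)
        rw [hcard]
        apply lt_of_le_of_lt (Polynomial.degree_sum_le _ _)
        rw [Finset.sup_lt_iff (by exact WithBot.bot_lt_coe D)]
        intro t _
        apply lt_of_le_of_lt (Polynomial.degree_C_mul_X_pow_le _ _)
        exact_mod_cast t.2
      · intro x hx
        obtain ⟨i, -, rfl⟩ := Finset.mem_image.1 hx
        have := hr2 i s (ball_subset_ball (hRi i) hs)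
        simp only [P, Polynomial.eval_finsetSum, Polynomial.eval_mul, Polynomial.eval_C,
          Polynomial.eval_pow, Polynomial.eval_X]
        exact this
    intro t
    have := congrArg (fun Q => Polynomial.coeff Q (t : ℕ)) hP
    simp only [P, Polynomial.finsetSum_coeff, Polynomial.coeff_C_mul, Polynomial.coeff_X_pow,
      Polynomial.coeff_zero] at this
    rw [Finset.sum_eq_single t] at this
    · simpa using this
    · intro t' _ ht'
      rw [if_neg, mul_zero]
      intro h
      exact ht' (Fin.ext h.symm)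
    · simp
  intro t
  apply Polynomial.eq_zero_of_infinite_isRoot
  have hinf : (ball (0 : ℂ) R).Infinite := by
    have := (Set.infinite_of_injective_forall_mem (f := fun n : ℕ => (((R / ((n : ℝ) + 2) : ℝ)) : ℂ))
      (s := ball (0 : ℂ) R) ?_ ?_)
    · exact this
    · intro n n' hnn
      have h1 : R / ((n : ℝ) + 2) = R / ((n' : ℝ) + 2) := Complex.ofReal_injective hnn
      have h2 : (n : ℝ) + 2 = n' + 2 := by
        have a1 : (0 : ℝ) < n + 2 := by positivity
        have a2 : (0 : ℝ) < n' + 2 := by positivity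
        field_simp at h1
        linarith
      exact_mod_cast (add_right_cancel h2)
    · intro n
      rw [mem_ball_zero_iff, Complex.norm_real, Real.norm_eq_abs, abs_of_pos (by positivity)]
      exact div_lt_self hR (by have : (0 : ℝ) ≤ n := by positivity
                               linarith)
  apply (hinf.image (f := fun s => 1 / 2 + s) (fun a _ b _ hab => add_left_cancel hab)).mono
  rintro _ ⟨s, hs, rfl⟩
  exact vals s hs t

end Pool.Agent.WW
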