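import Mathlib

/-!
`X_i - a_i` is a weakly regular sequence on the polynomial ring; products of linearly independent
functions of different variables are linearly independent.
-/

set_option autoImplicit false

namespace Pool.Agent.WW.PC2

open MvPolynomial

noncomputable section

variable {π : Type} [DecidableEq π]

/-- the substitution `X_l ↦ a_l` for `l` in `T` -/
def th (a : π → ℂ) (T : Finset π) : MvPolynomial π ℂ →ₐ[ℂ] MvPolynomial π ℂ :=
  aeval (fun l => if l ∈ T then C (a l) else X l)

/-- the ideal of the hyperplanes -/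
def idl (a : π → ℂ) (T : Finset π) : Ideal (MvPolynomial π ℂ) :=
  Ideal.span ((fun l => X l - C (a l)) '' (T : Set π))

theorem sub_th_mem (a : π → ℂ) (T : Finset π) (f : MvPolynomial π ℂ) :
    f - th a T f ∈ idl a T := by
  have h : (Ideal.Quotient.mkₐ ℂ (idl a T)) = (Ideal.Quotient.mkₐ ℂ (idl a T)).comp (th a T) := by
    apply MvPolynomial.algHom_ext
    intro l
    rw [AlgHom.comp_apply, th, aeval_X]
    split_ifs with hl
    · rw [Ideal.Quotient.mkₐ_eq_mk, Ideal.Quotient.mk_eq_mk_iff_sub_mem]
      exact Ideal.subset_span ⟨l, hl, rfl⟩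
    · rfl
  have h2 := DFunLike.congr_fun h f
  rw [AlgHom.comp_apply, Ideal.Quotient.mkₐ_eq_mk, Ideal.Quotient.mk_eq_mk_iff_sub_mem] at h2
  exact h2

theorem th_of_mem (a : π → ℂ) (T : Finset π) (f : MvPolynomial π ℂ) (hf : f ∈ idl a T) :
    th a T f = 0 := by
  have : idl a T ≤ RingHom.ker (th a T) := by
    rw [idl, Ideal.span_le]
    rintro _ ⟨l, hl, rfl⟩
    simp only [SetLike.mem_coe, RingHom.mem_ker, map_sub]
    have hl' : l ∈ T := hl
    rw [th, aeval_X, if_pos hl', ← algebraMap_eq, AlgHom.commutes, sub_self]
  exact this hf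

theorem mem_of_mul_mem (a : π → ℂ) (T : Finset π) (i : π) (hi : i ∉ T) (f : MvPolynomial π ℂ)
    (hf : (X i - C (a i)) * f ∈ idl a T) : f ∈ idl a T := by
  have h1 := th_of_mem a T _ hf
  rw [map_mul, mul_eq_zero] at h1
  rcases h1 with h1 | h1
  · exfalso
    rw [map_sub, th, aeval_X, if_neg hi, ← algebraMap_eq, AlgHom.commutes, algebraMap_eq,
      sub_eq_zero] at h1
    have h2 := congrArg (fun p => MvPolynomial.eval (fun _ => a i + 1) p) h1
    simp at h2
  · have h2 := sub_th_mem a T f
    rwa [h1, sub_zero] at h2

theorem mvreg {n : ℕ} (e : Fin n ≃ π) (a : π → ℂ) :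
    RingTheory.Sequence.IsWeaklyRegular (MvPolynomial π ℂ)
      (List.ofFn fun i => (X (e i) - C (a (e i)) : MvPolynomial π ℂ)) := by
  constructor
  intro i hi
  rw [isSMulRegular_quotient_iff_mem_of_smul_mem]
  intro f hf
  rw [List.length_ofFn] at hi
  have hI : (Ideal.ofList ((List.ofFn fun i => (X (e i) - C (a (e i)) : MvPolynomial π ℂ)).take i)
      • ⊤ : Submodule (MvPolynomial π ℂ) (MvPolynomial π ℂ)) =
      idl a ((Finset.univ.filter fun j : Fin n => (j : ℕ) < i).image e) := by
    rw [smul_eq_mul, Ideal.mul_top, Ideal.ofList, idl]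
    congr 1
    ext f
    simp only [Set.mem_setOf_eq, Set.mem_image, Finset.coe_image, Finset.coe_filter,
      Finset.mem_univ, true_and]
    rw [List.mem_take_iff_getElem]
    constructor
    · rintro ⟨j, hj, rfl⟩
      rw [List.length_ofFn] at hj
      refine ⟨e ⟨j, by omega⟩, ⟨⟨j, by omega⟩, by simp; omega, rfl⟩, by simp⟩
    · rintro ⟨_, ⟨j, hj, rfl⟩, rfl⟩
      exact ⟨j, by rw [List.length_ofFn]; omega, by simp⟩
  rw [hI] at hf ⊢
  rw [List.getElem_ofFn, smul_eq_mul] at hf
  refine mem_of_mul_mem a _ (e ⟨i, hi⟩) ?_ f hf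
  simp

omit [DecidableEq π] in
open Classical in
/-- products of linearly independent functions of different variables are independent -/
theorem indep_prod [Fintype π] {A Y : π → Type}
    (f : ∀ i, A i → Y i → ℂ) (hf : ∀ i, LinearIndependent ℂ (f i))
    {K : Type} (s : Finset K) (α : K → ∀ i, A i) (hα : Function.Injective α)
    (c : K → ℂ) (h : ∀ w : ∀ i, Y i, ∑ k ∈ s, c k * ∏ i, f i (α k i) (w i) = 0) :
    ∀ k ∈ s, c k = 0 := by
  have key : ∀ T : Finset π, ∀ (b : ∀ i, A i) (w : ∀ i, Y i),
      ∑ k ∈ s.filter (fun k => ∀ i ∈ T, α k i = b i), c k * ∏ i ∈ Tᶜ, f i (α k i) (w i) = 0 := by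
    intro T
    induction T using Finset.induction_on with
    | empty => intro b w; simpa using h w
    | insert t T ht ih =>
      intro b w
      set s' := s.filter (fun k => ∀ i ∈ T, α k i = b i) with hs'
      have hfil : s.filter (fun k => ∀ i ∈ insert t T, α k i = b i)
          = s'.filter (fun k => α k t = b t) := by
        rw [hs', Finset.filter_filter]
        apply Finset.filter_congr
        intro k _
        rw [Finset.forall_mem_insert, and_comm]
      rw [hfil]
      by_cases hb : b t ∈ s'.image (fun k => α k t)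
      · refine linearIndependent_iff'.mp (hf t) (s'.image (fun k => α k t))
          (fun v => ∑ k ∈ s'.filter (fun k => α k t = v),
            c k * ∏ i ∈ (insert t T)ᶜ, f i (α k i) (w i)) ?_ (b t) hb
        funext x
        rw [Finset.sum_apply, Pi.zero_apply]
        have h1 := ih b (Function.update w t x)
        rw [← Finset.sum_fiberwise_of_maps_to (t := s'.image (fun k => α k t))
          (g := fun k => α k t) (fun k hk => Finset.mem_image_of_mem _ hk)] at h1
        rw [← h1]
        apply Finset.sum_congr rfl
        intro v _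
        rw [Pi.smul_apply, smul_eq_mul, Finset.sum_mul]
        apply Finset.sum_congr rfl
        intro k hk
        have hkv := (Finset.mem_filter.mp hk).2
        have hT : Tᶜ = insert t (insert t T)ᶜ := by
          ext i
          simp only [Finset.mem_compl, Finset.mem_insert]
          by_cases hit : i = t
          · subst hit; simp [ht]
          · simp [hit]
        rw [hT, Finset.prod_insert (by simp), Function.update_self, ← hkv]
        have : ∏ i ∈ (insert t T)ᶜ, f i (α k i) (Function.update w t x i)
            = ∏ i ∈ (insert t T)ᶜ, f i (α k i) (w i) := by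
          apply Finset.prod_congr rfl
          intro i hi
          rw [Function.update_of_ne]
          rintro rfl
          simp at hi
        rw [this]
        ring
      · have : s'.filter (fun k => α k t = b t) = ∅ := by
          apply Finset.filter_eq_empty_iff.mpr
          intro k hk hkt
          exact hb (Finset.mem_image.mpr ⟨k, hk, hkt⟩)
        rw [this, Finset.sum_empty]
  intro k hk
  by_cases hY : Nonempty (∀ i, Y i)
  · obtain ⟨w⟩ := hY
    have h1 := key Finset.univ (α k) w
    have h2 : s.filter (fun k' => ∀ i ∈ Finset.univ, α k' i = α k i) = {k} := by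
      ext k'
      simp only [Finset.mem_filter, Finset.mem_univ, true_implies, Finset.mem_singleton]
      constructor
      · rintro ⟨_, h3⟩
        exact hα (funext h3)
      · rintro rfl
        exact ⟨hk, fun _ => rfl⟩
    rw [h2] at h1
    simpa using h1
  · exfalso
    apply hY
    have hne : ∀ i, Nonempty (Y i) := by
      intro i
      by_contra hne
      rw [not_nonempty_iff] at hne
      exact (hf i).ne_zero (α k i) (funext fun x => hne.elim x)
    exact ⟨fun i => Classical.choice (hne i)⟩

section flat

variable {S R : Type} [CommRing S] [CommRing R] [Algebra S R] [Fintype π]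

/-- the products of powers -/
def pw (y : π → R) (D : π → ℕ) (β : ∀ i, Fin (D i)) : R := ∏ i, y i ^ (β i : ℕ)

theorem mul_pw_mem (y : π → R) (D : π → ℕ) (q : π → S) (hq : ∀ i, y i ^ D i = algebraMap S R (q i))
    (hD : ∀ i, 0 < D i) (i : π) (x : R) (hx : x ∈ Submodule.span S (Set.range (pw y D))) :
    y i * x ∈ Submodule.span S (Set.range (pw y D)) := by
  induction hx using Submodule.span_induction with
  | mem x hx =>
    obtain ⟨β, rfl⟩ := hx
    by_cases hb : (β i : ℕ) + 1 < D i
    · apply Submodule.subset_span
      refine ⟨Function.update β i ⟨β i + 1, hb⟩, ?_⟩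
      rw [pw, pw, Fintype.prod_eq_mul_prod_compl i, Fintype.prod_eq_mul_prod_compl i,
        Function.update_self, pow_succ, ← mul_assoc, mul_comm (y i)]
      congr 1
      apply Finset.prod_congr rfl
      intro j hj
      rw [Function.update_of_ne (by simpa using hj)]
    · have hb2 : (β i : ℕ) + 1 = D i := by have := (β i).isLt; omega
      have : y i * pw y D β = q i • pw y D (Function.update β i ⟨0, hD i⟩) := by
        rw [pw, pw, Fintype.prod_eq_mul_prod_compl i, Fintype.prod_eq_mul_prod_compl i,
          Function.update_self, ← mul_assoc, ← pow_succ', hb2, hq, Algebra.smul_def]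
        simp only [pow_zero, one_mul]
        congr 1
        apply Finset.prod_congr rfl
        intro j hj
        rw [Function.update_of_ne (by simpa using hj)]
      rw [this]
      exact Submodule.smul_mem _ _ (Submodule.subset_span ⟨_, rfl⟩)
  | zero => rw [mul_zero]; exact Submodule.zero_mem _
  | add x z _ _ hx hz => rw [mul_add]; exact Submodule.add_mem _ hx hz
  | smul a x _ hx => rw [mul_smul_comm]; exact Submodule.smul_mem _ _ hx

theorem adjoin_eq_span_pw (y : π → R) (D : π → ℕ) (q : π → S)
    (hq : ∀ i, y i ^ D i = algebraMap S R (q i)) (hD : ∀ i, 0 < D i) :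
    Subalgebra.toSubmodule (Algebra.adjoin S (Set.range y)) =
      Submodule.span S (Set.range (pw y D)) := by
  apply le_antisymm
  · rw [Algebra.adjoin_eq_span, Submodule.span_le]
    intro x hx
    induction hx using Submonoid.closure_induction_left with
    | one =>
      apply Submodule.subset_span
      exact ⟨fun i => ⟨0, hD i⟩, by simp [pw]⟩
    | mul_left a ha b _ hb =>
      obtain ⟨i, rfl⟩ := ha
      exact mul_pw_mem y D q hq hD i b hb
  · rw [Submodule.span_le]
    rintro _ ⟨β, rfl⟩
    rw [SetLike.mem_coe, Subalgebra.mem_toSubmodule]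
    exact Subalgebra.prod_mem _ fun i _ =>
      Subalgebra.pow_mem _ (Algebra.subset_adjoin (Set.mem_range_self i)) _

theorem flat_of (y : π → R) (D : π → ℕ) (q : π → S)
    (hq : ∀ i, y i ^ D i = algebraMap S R (q i)) (hD : ∀ i, 0 < D i)
    (hli : LinearIndependent S (pw y D))
    (u δ : R) (hu : u * δ = 1) (hδ : δ ∈ Algebra.adjoin S (Set.range y))
    (htop : Algebra.adjoin S (insert u (Set.range y)) = ⊤) : Module.Flat S R := by
  set R0 := Algebra.adjoin S (Set.range y) with hR0
  have hfree : Module.Free S R0 := by
    have h1 : Module.Free S (Submodule.span S (Set.range (pw y D))) :=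
      Module.Free.of_basis (Module.Basis.span hli)
    exact Module.Free.of_equiv (LinearEquiv.ofEq _ _ (adjoin_eq_span_pw y D q hq hD).symm)
  have hloc : IsLocalization (Submonoid.powers (⟨δ, hδ⟩ : R0)) R := by
    refine { map_units := ?_, surj := ?_, exists_of_eq := ?_ }
    · rintro ⟨_, n, rfl⟩
      change IsUnit (algebraMap R0 R ((⟨δ, hδ⟩ : R0) ^ n))
      rw [map_pow]
      apply IsUnit.pow
      exact IsUnit.of_mul_eq_one_right u hu
    · have key : ∀ z ∈ Algebra.adjoin S (insert u (Set.range y)), ∃ (n : ℕ) (a : R0),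
          z * δ ^ n = a := by
        intro z hz
        induction hz using Algebra.adjoin_induction with
        | mem z hz =>
          rcases hz with rfl | hz
          · exact ⟨1, 1, by rw [pow_one, hu]; rfl⟩
          · exact ⟨0, ⟨z, Algebra.subset_adjoin hz⟩, by simp⟩
        | algebraMap r => exact ⟨0, algebraMap S R0 r, by simp⟩
        | add x z _ _ hx hz =>
          obtain ⟨n, a, ha⟩ := hx
          obtain ⟨m, b, hb⟩ := hz
          refine ⟨n + m, a * ⟨δ, hδ⟩ ^ m + b * ⟨δ, hδ⟩ ^ n, ?_⟩
          push_cast
          rw [← ha, ← hb]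
          ring
        | mul x z _ _ hx hz =>
          obtain ⟨n, a, ha⟩ := hx
          obtain ⟨m, b, hb⟩ := hz
          refine ⟨n + m, a * b, ?_⟩
          push_cast
          rw [← ha, ← hb]
          ring
      intro z
      obtain ⟨n, a, ha⟩ := key z (by rw [htop]; trivial)
      refine ⟨(a, ⟨⟨δ, hδ⟩ ^ n, n, rfl⟩), ?_⟩
      change z * algebraMap R0 R ((⟨δ, hδ⟩ : R0) ^ n) = algebraMap R0 R a
      rw [map_pow]
      exact ha
    · intro x z hxz
      exact ⟨1, by rw [Subtype.ext hxz]⟩
  have : Module.Flat R0 R := IsLocalization.flat R (Submonoid.powers (⟨δ, hδ⟩ : R0))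
  exact Module.Flat.trans S R0 R

end flat

end

end Pool.Agent.WW.PC2
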