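import Pool.Agent.WW.PA
import Pool.Agent.WW.PC1
import Pool.Agent.WW.PC2a

set_option autoImplicit false

namespace Pool.Agent.WW

open MvPolynomial Metric

namespace PC2

/-- one variable: `x^m y^t` are linearly independent over the complex numbers -/
theorem indep_one (D j k : ℕ) (hD : 3 ≤ D) (hj : 0 < j) (hk : 0 < k)
    (hg : Nat.gcd (Nat.gcd j k) D = 1) (ρ : ℝ) (hρ : 0 < ρ) :
    LinearIndependent ℂ (fun (a : ℕ × Fin D) (s : ball (0 : ℂ) ρ) =>
      ((1 / 2 + (s : ℂ)) ^ a.1 * ybr D j k s ^ (a.2 : ℕ) : ℂ)) := by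
  classical
  rw [linearIndependent_iff']
  intro T g hT
  set p : Fin D → Polynomial ℂ := fun t =>
    ∑ a ∈ T.filter (fun a => a.2 = t), Polynomial.monomial a.1 (g a) with hp
  have h0 := ybr_indep D j k hD hj hk hg p ρ hρ (by
    intro s hs
    have h1 := congrFun hT ⟨s, hs⟩
    rw [Finset.sum_apply, Pi.zero_apply] at h1
    rw [← h1, ← Finset.sum_fiberwise (s := T) (g := fun a : ℕ × Fin D => a.2)]
    apply Finset.sum_congr rfl
    intro t _
    rw [hp, Polynomial.eval_finset_sum, Finset.sum_mul]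
    apply Finset.sum_congr rfl
    intro a ha
    have ha2 := (Finset.mem_filter.mp ha).2
    rw [Polynomial.eval_monomial, Pi.smul_apply, smul_eq_mul, ← ha2]
    ring)
  intro a ha
  have h1 := congrArg (fun q => q.coeff a.1) (h0 a.2)
  rw [hp] at h1
  simp only [Polynomial.finset_sum_coeff, Polynomial.coeff_monomial, Polynomial.coeff_zero] at h1
  rw [Finset.sum_eq_single a] at h1
  · simpa using h1
  · intro b hb hba
    rw [if_neg]
    intro hb1
    exact hba (Prod.ext hb1 (Finset.mem_filter.mp hb).2)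
  · intro hna
    exact (hna (Finset.mem_filter.mpr ⟨ha, rfl⟩)).elim

variable {π ι : Type} [Fintype π] [Fintype ι] [DecidableEq π] [DecidableEq ι] (P : Pkg π ι)

theorem slit (s : ℂ) (hs : ‖s‖ < 1 / 4) : 1 / 2 + s ∈ Complex.slitPlane ∧
    1 / 2 - s ∈ Complex.slitPlane := by
  have h1 := (abs_le.mp (Complex.abs_re_le_norm s))
  constructor
  · left
    rw [Complex.add_re]
    norm_num
    linarith [h1.1]
  · left
    rw [Complex.sub_re]
    norm_num
    linarith [h1.2]

theorem ybr_cont (D j k : ℕ) (s : ℂ) (hs : ‖s‖ < 1 / 4) : ContinuousAt (ybr D j k) s := by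
  obtain ⟨h1, h2⟩ := slit s hs
  unfold ybr
  apply ContinuousAt.mul
  · exact ContinuousAt.cpow (by fun_prop) continuousAt_const h1
  · exact ContinuousAt.cpow (by fun_prop) continuousAt_const h2

theorem bv_cont (z : ι → ℂ) (hz : z ∈ ball (0 : ι → ℂ) P.r) (g : Gx π) :
    ContinuousAt (fun z => P.bv z g) z := by
  have hξ : ContinuousAt P.ξ z :=
    ((P.ξana z hz).differentiableAt (isOpen_ball.mem_nhds hz)).continuousAt
  have hξi : ∀ i, ContinuousAt (fun z => P.ξ z i) z := fun i =>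
    (continuous_apply i).continuousAt.comp hξ
  have hy : ∀ i, ContinuousAt (fun z => P.s i * ybr (P.D i) (P.j i) (P.k i) (P.ξ z i)) z := by
    intro i
    apply ContinuousAt.mul continuousAt_const
    exact ContinuousAt.comp (g := ybr (P.D i) (P.j i) (P.k i)) (ybr_cont _ _ _ _ (P.ξle z hz i))
      (hξi i)
  have hv : ContinuousAt (fun z => (Sum.elim (fun i => 1 / 2 + P.ξ z i)
      (fun i => P.s i * ybr (P.D i) (P.j i) (P.k i) (P.ξ z i)) : π ⊕ π → ℂ)) z := by
    rw [continuousAt_pi]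
    rintro (i | i)
    · exact ContinuousAt.add continuousAt_const (hξi i)
    · exact hy i
  match g with
  | none =>
    have h2 := ContinuousAt.comp (g := fun v => eval v P.δ)
      (MvPolynomial.continuous_eval P.δ).continuousAt hv
    exact ContinuousAt.inv₀ h2 (P.δne z hz)
  | some (Sum.inl i) => exact ContinuousAt.add continuousAt_const (hξi i)
  | some (Sum.inr i) => exact hy i

theorem evbv_cont (z : ι → ℂ) (hz : z ∈ ball (0 : ι → ℂ) P.r) (q : MvPolynomial (Gx π) ℂ) :
    ContinuousAt (fun z => eval (P.bv z) q) z := by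
  have hv : ContinuousAt (fun z => P.bv z) z := by
    rw [continuousAt_pi]
    exact fun g => bv_cont P z hz g
  exact ContinuousAt.comp (g := fun v => eval v q) (MvPolynomial.continuous_eval q).continuousAt hv

/-- the chart is onto a neighbourhood of `0` -/
theorem chart_open (hP : P.Ok) : ∃ ρ : ℝ, 0 < ρ ∧ ∀ w : π → ℂ, (∀ i, ‖w i‖ < ρ) →
    ∃ z ∈ ball (0 : ι → ℂ) P.r, P.ξ z = w := by
  have hr := P.hr
  have h0 : (0 : ι → ℂ) ∈ ball (0 : ι → ℂ) P.r := mem_ball_self hr
  have hd : ∀ z ∈ ball (0 : ι → ℂ) P.r, DifferentiableAt ℂ P.ξ z := fun z hz =>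
    (P.ξana z hz).differentiableAt (isOpen_ball.mem_nhds hz)
  have hfd : ∀ z ∈ ball (0 : ι → ℂ) P.r, ∀ v i, fderiv ℂ P.ξ z v i =
      ∑ t, v t * eval (P.bv z) (P.Jf i t) := by
    intro z hz v i
    have h1 : fderiv ℂ P.ξ z v i = fderiv ℂ (fun w => P.ξ w i) z v := by
      have h2 := (hasFDerivAt_pi'.mp (hd z hz).hasFDerivAt i).fderiv
      rw [h2]
      rfl
    rw [h1]
    have h2 : v = ∑ t, v t • (Pi.single t (1 : ℂ) : ι → ℂ) := by
      ext t
      simp [Finset.sum_apply, Pi.single_apply]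
    conv_lhs => rw [h2]
    rw [map_sum]
    apply Finset.sum_congr rfl
    intro t _
    rw [map_smul, hP.Jf z hz, smul_eq_mul]
  have hstrict : HasStrictFDerivAt P.ξ (fderiv ℂ P.ξ 0) 0 := by
    apply hasStrictFDerivAt_of_hasFDerivAt_of_continuousAt (f' := fderiv ℂ P.ξ)
    · filter_upwards [isOpen_ball.mem_nhds h0] with z hz
      exact (hd z hz).hasFDerivAt
    · rw [continuousAt_clm_apply]
      intro v
      rw [continuousAt_pi]
      intro i
      have : (fun z => ∑ t, v t * eval (P.bv z) (P.Jf i t)) =ᶠ[nhds 0]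
          fun z => fderiv ℂ P.ξ z v i := by
        filter_upwards [isOpen_ball.mem_nhds h0] with z hz
        rw [hfd z hz]
      refine ContinuousAt.congr ?_ this
      apply tendsto_finset_sum
      intro t _
      exact ContinuousAt.mul continuousAt_const (evbv_cont P 0 h0 _)
  have hsurj : (fderiv ℂ P.ξ 0).range = ⊤ := by
    rw [LinearMap.range_eq_top]
    intro u
    refine ⟨fun t => ∑ i', eval (P.bv 0) (P.Jb t i') * u i', ?_⟩
    ext i
    change fderiv ℂ P.ξ 0 _ i = _
    rw [hfd 0 h0]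
    have h1 : ∀ i', ∑ t, eval (P.bv 0) (P.Jf i t) * eval (P.bv 0) (P.Jb t i') =
        if i = i' then 1 else 0 := hP.Jfb 0 h0 i
    calc ∑ t, (∑ i', eval (P.bv 0) (P.Jb t i') * u i') * eval (P.bv 0) (P.Jf i t)
        = ∑ t, ∑ i', (eval (P.bv 0) (P.Jf i t) * eval (P.bv 0) (P.Jb t i')) * u i' := by
          apply Finset.sum_congr rfl
          intro t _
          rw [Finset.sum_mul]
          apply Finset.sum_congr rfl
          intro i' _
          ring
      _ = ∑ i', (∑ t, eval (P.bv 0) (P.Jf i t) * eval (P.bv 0) (P.Jb t i')) * u i' := by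
          rw [Finset.sum_comm]
          simp_rw [Finset.sum_mul]
      _ = u i := by
          simp_rw [h1]
          simp
  have hmap := hstrict.map_nhds_eq_of_surj hsurj
  have himg : P.ξ '' ball (0 : ι → ℂ) P.r ∈ nhds (P.ξ 0) := by
    rw [← hmap]
    exact Filter.image_mem_map (isOpen_ball.mem_nhds h0)
  rw [P.ξ0] at himg
  obtain ⟨ρ, hρ, hsub⟩ := Metric.mem_nhds_iff.mp himg
  refine ⟨ρ, hρ, fun w hw => ?_⟩
  have : w ∈ ball (0 : π → ℂ) ρ := by
    rw [mem_ball_zero_iff, pi_norm_lt_iff hρ]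
    exact hw
  obtain ⟨z, hz, hzw⟩ := hsub this
  exact ⟨z, hz, hzw⟩

/-- the `x` coordinates -/
noncomputable def phi : MvPolynomial π ℂ →ₐ[ℂ] P.Rg := aeval (fun i => P.gr (some (Sum.inl i)))

theorem ev_phi (z : P.Bl) (p : MvPolynomial π ℂ) :
    P.ev z (phi P p) = eval (fun i => 1 / 2 + P.ξ z i) p := by
  rw [phi, ← AlgHom.comp_apply]
  have : (P.ev z).comp (aeval (fun i => P.gr (some (Sum.inl i)))) =
      (aeval (fun i => 1 / 2 + P.ξ z i) : MvPolynomial π ℂ →ₐ[ℂ] ℂ) := by
    apply MvPolynomial.algHom_ext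
    intro i
    rw [AlgHom.comp_apply, aeval_X, aeval_X]
    rfl
  rw [this]
  exact DFunLike.congr_fun (coe_aeval_eq_eval (fun i => 1 / 2 + P.ξ z i)) p

theorem s_ne (i : π) : P.s i ≠ 0 := by
  intro h
  have h1 := P.hs i
  have h2 := (P.hD i).1
  rw [h, zero_pow (by omega)] at h1
  exact zero_ne_one h1

theorem indep_all (hP : P.Ok) (g : (∀ i, Fin (P.D i)) → MvPolynomial π ℂ)
    (hg : ∑ β, phi P (g β) * pw (fun i => P.gr (some (Sum.inr i))) P.D β = 0) :
    ∀ β, g β = 0 := by
  classical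
  obtain ⟨ρ, hρ, hw⟩ := chart_open P hP
  set s : Finset (π →₀ ℕ) := Finset.univ.biUnion fun β => (g β).support with hs
  have key := indep_prod (π := π) (A := fun i => ℕ × Fin (P.D i)) (Y := fun _ => ball (0 : ℂ) ρ)
    (fun i a s => (1 / 2 + (s : ℂ)) ^ a.1 * ybr (P.D i) (P.j i) (P.k i) s ^ (a.2 : ℕ))
    (fun i => indep_one _ _ _ (P.hD i).1 (P.hD i).2.1 (P.hD i).2.2.1 (P.hD i).2.2.2.2 ρ hρ)
    (K := (∀ i, Fin (P.D i)) × (π →₀ ℕ)) (Finset.univ ×ˢ s) (fun k i => (k.2 i, k.1 i))
    (by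
      rintro ⟨β, m⟩ ⟨β', m'⟩ h
      have h1 : ∀ i, (m i, β i) = (m' i, β' i) := fun i => congrFun h i
      refine Prod.ext (funext fun i => (Prod.ext_iff.mp (h1 i)).2) ?_
      ext i
      exact (Prod.ext_iff.mp (h1 i)).1)
    (fun k => coeff k.2 (g k.1) * ∏ i, P.s i ^ (k.1 i : ℕ)) (by
      intro w
      obtain ⟨z, hz, hzw⟩ := hw (fun i => (w i : ℂ)) (fun i => by
        have := (w i).2
        rwa [mem_ball_zero_iff] at this)
      have h1 := congrArg (P.ev ⟨z, hz⟩) hg
      rw [map_sum, map_zero] at h1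
      refine Eq.trans ?_ h1
      rw [Finset.sum_product]
      apply Finset.sum_congr rfl
      intro β _
      rw [map_mul, ev_phi, eval_eq', pw, map_prod, Finset.sum_mul]
      symm
      apply Finset.sum_subset_zero_on_sdiff
      · rw [hs]
        exact Finset.subset_biUnion_of_mem (fun β => (g β).support) (Finset.mem_univ β)
      · intro m hm
        rw [notMem_support_iff.mp (Finset.mem_sdiff.mp hm).2]
        simp
      · intro m _
        have h3 : ∀ i, P.ξ z i = w i := fun i => congrFun hzw i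
        have h2 : ∀ i, P.ev ⟨z, hz⟩ (P.gr (some (Sum.inr i)) ^ (β i : ℕ)) =
            (P.s i * ybr (P.D i) (P.j i) (P.k i) (w i)) ^ (β i : ℕ) := by
          intro i
          rw [map_pow]
          change (P.s i * ybr (P.D i) (P.j i) (P.k i) (P.ξ z i)) ^ (β i : ℕ) = _
          rw [h3]
        simp_rw [h2, mul_pow, Finset.prod_mul_distrib, h3]
        ring)
  intro β
  ext m
  rw [coeff_zero]
  by_cases hm : m ∈ (g β).support
  · have h1 := key (β, m) (Finset.mem_product.mpr ⟨Finset.mem_univ _, by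
      rw [hs]; exact Finset.mem_biUnion.mpr ⟨β, Finset.mem_univ _, hm⟩⟩)
    rcases mul_eq_zero.mp h1 with h1 | h1
    · exact h1
    · exact (Finset.prod_ne_zero_iff.mpr (fun i _ => pow_ne_zero _ (s_ne P i)) h1).elim
  · exact notMem_support_iff.mp hm

theorem aeval_mem_sub {τ S R : Type} [CommRing S] [CommRing R] [Algebra S R] [Algebra ℂ R]
    (B : Subalgebra S R) (hc : ∀ c : ℂ, algebraMap ℂ R c ∈ B) (f : τ → R) (hf : ∀ i, f i ∈ B)
    (p : MvPolynomial τ ℂ) : aeval f p ∈ B := by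
  induction p using MvPolynomial.induction_on with
  | C c => rw [aeval_C]; exact hc c
  | add p q hp hq => rw [map_add]; exact B.add_mem hp hq
  | mul_X p i hp => rw [map_mul, aeval_X]; exact B.mul_mem hp (hf i)

theorem exists_poly (f : P.Rg) : ∃ p : MvPolynomial (Gx π) ℂ, aeval P.gr p = f := by
  have h1 : (f : P.Bl → ℂ) ∈ Algebra.adjoin ℂ (Set.range P.gn) := f.2
  rw [Algebra.adjoin_range_eq_range_aeval, AlgHom.mem_range] at h1
  obtain ⟨p, hp⟩ := h1
  refine ⟨p, Subtype.ext ?_⟩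
  rw [← hp]
  have : (P.Rg.val).comp (aeval P.gr) = (aeval P.gn : MvPolynomial (Gx π) ℂ →ₐ[ℂ] P.Bl → ℂ) := by
    apply MvPolynomial.algHom_ext
    intro i
    rw [AlgHom.comp_apply, aeval_X, aeval_X]
    rfl
  exact DFunLike.congr_fun this p

theorem y_pow (i : π) : P.gr (some (Sum.inr i)) ^ P.D i =
    phi P (X i ^ P.j i * (1 - X i) ^ P.k i) := by
  apply Subtype.ext
  funext z
  have h1 : ((phi P (X i ^ P.j i * (1 - X i) ^ P.k i) : P.Rg) : P.Bl → ℂ) z =
      P.ev z (phi P (X i ^ P.j i * (1 - X i) ^ P.k i)) := rfl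
  rw [h1, ev_phi]
  simp only [map_mul, map_pow, map_sub, map_one, eval_X]
  change (P.s i * ybr (P.D i) (P.j i) (P.k i) (P.ξ z i)) ^ P.D i = _
  have hD0 : (P.D i : ℂ) ≠ 0 := by
    have := (P.hD i).1
    exact_mod_cast (by omega : P.D i ≠ 0)
  rw [mul_pow, P.hs, one_mul, ybr, mul_pow, ← Complex.cpow_nat_mul, ← Complex.cpow_nat_mul,
    mul_div_cancel₀ _ hD0, mul_div_cancel₀ _ hD0, Complex.cpow_natCast, Complex.cpow_natCast]
  congr 2
  ring

end PC2

variable {π ι : Type} [Fintype π] [Fintype ι] [DecidableEq π] [DecidableEq ι] (P : Pkg π ι)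

/-- (PC2) the `x_i - σ(x_i)`, in any order, form a weakly regular sequence on the ring -/
theorem Pkg.Ok.reg (hP : P.Ok) {n : ℕ} (e : Fin n ≃ π) (σ : P.Rg →ₐ[ℂ] ℂ) :
    RingTheory.Sequence.IsWeaklyRegular P.Rg
      (List.ofFn fun i => P.gr (some (Sum.inl (e i))) -
        algebraMap ℂ P.Rg (σ (P.gr (some (Sum.inl (e i)))))) := by
  letI : Algebra (MvPolynomial π ℂ) P.Rg := (PC2.phi P).toRingHom.toAlgebra
  have hmap : ∀ p, algebraMap (MvPolynomial π ℂ) P.Rg p = PC2.phi P p := fun p => rfl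
  have hc : ∀ (B : Subalgebra (MvPolynomial π ℂ) P.Rg) (c : ℂ), algebraMap ℂ P.Rg c ∈ B := by
    intro B c
    have h1 : algebraMap ℂ P.Rg c = algebraMap (MvPolynomial π ℂ) P.Rg (C c) := by
      rw [hmap, PC2.phi, aeval_C]
    rw [h1]
    exact B.algebraMap_mem _
  have hx : ∀ (B : Subalgebra (MvPolynomial π ℂ) P.Rg) (i : π),
      P.gr (some (Sum.inl i)) ∈ B := by
    intro B i
    have h1 : P.gr (some (Sum.inl i)) = algebraMap (MvPolynomial π ℂ) P.Rg (X i) := by
      rw [hmap, PC2.phi, aeval_X]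
    rw [h1]
    exact B.algebraMap_mem _
  have hflat : Module.Flat (MvPolynomial π ℂ) P.Rg := by
    refine PC2.flat_of (S := MvPolynomial π ℂ) (fun i => P.gr (some (Sum.inr i))) P.D
      (fun i => X i ^ P.j i * (1 - X i) ^ P.k i) (fun i => PC2.y_pow P i)
      (fun i => by have := (P.hD i).1; omega) ?_
      (P.gr none) (aeval (fun v => P.gr (some v)) P.δ) ?_ ?_ ?_
    · rw [Fintype.linearIndependent_iff]
      intro g hg
      exact PC2.indep_all P hP g hg
    · apply Subtype.ext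
      funext z
      have h1 : P.ev z (aeval (fun v => P.gr (some v)) P.δ) =
          eval (Sum.elim (fun i => 1 / 2 + P.ξ z i)
            (fun i => P.s i * ybr (P.D i) (P.j i) (P.k i) (P.ξ z i))) P.δ := by
        rw [← AlgHom.comp_apply]
        have : (P.ev z).comp (aeval (fun v => P.gr (some v))) =
            (aeval (Sum.elim (fun i => 1 / 2 + P.ξ z i)
            (fun i => P.s i * ybr (P.D i) (P.j i) (P.k i) (P.ξ z i))) :
              MvPolynomial (π ⊕ π) ℂ →ₐ[ℂ] ℂ) := by
          apply MvPolynomial.algHom_ext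
          intro i
          rw [AlgHom.comp_apply, aeval_X, aeval_X]
          rcases i with i | i <;> rfl
        rw [this]
        exact DFunLike.congr_fun (coe_aeval_eq_eval _) P.δ
      change P.ev z (P.gr none * aeval (fun v => P.gr (some v)) P.δ) = 1
      rw [map_mul, h1]
      exact inv_mul_cancel₀ (P.δne z z.2)
    · apply PC2.aeval_mem_sub _ (hc _)
      rintro (i | i)
      · exact hx _ i
      · exact Algebra.subset_adjoin (Set.mem_range_self i)
    · rw [eq_top_iff]
      intro f _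
      obtain ⟨p, rfl⟩ := PC2.exists_poly P f
      apply PC2.aeval_mem_sub _ (hc _)
      rintro (_ | i | i)
      · exact Algebra.subset_adjoin (Set.mem_insert _ _)
      · exact hx _ i
      · exact Algebra.subset_adjoin (Set.mem_insert_of_mem _ (Set.mem_range_self i))
  have h1 := (PC2.mvreg e (fun i => σ (P.gr (some (Sum.inl i))))).of_flat (S := P.Rg)
  rw [List.map_ofFn] at h1
  convert h1 using 2
  funext i
  simp only [Function.comp_apply, hmap, map_sub, PC2.phi, aeval_X, aeval_C]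

end Pool.Agent.WW
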