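import Pool.Agent.WW.PB
import Pool.Agent.WW.PC

set_option autoImplicit false

namespace Pool.Agent.WW

open MvPolynomial Metric

variable {π : Type} [Fintype π] [DecidableEq π] {m : ℕ} (P : Pkg π (Fin (m + 1)))

namespace PD

theorem card_eq (hP : P.Ok) : Fintype.card π = m + 1 := by
  have h0 : (0 : Fin (m + 1) → ℂ) ∈ ball (0 : Fin (m + 1) → ℂ) P.r := mem_ball_self P.hr
  have h1 := hP.Jfb 0 h0
  have h2 := hP.Jbf 0 h0
  set A : Matrix π (Fin (m + 1)) ℂ := Matrix.of fun i t => eval (P.bv 0) (P.Jf i t) with hA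
  set B : Matrix (Fin (m + 1)) π ℂ := Matrix.of fun t i => eval (P.bv 0) (P.Jb t i) with hB
  have e1 : A * B = 1 := by
    ext i i'
    rw [Matrix.mul_apply, Matrix.one_apply]
    exact h1 i i'
  have e2 : B * A = 1 := by
    ext i i'
    rw [Matrix.mul_apply, Matrix.one_apply]
    exact h2 i i'
  have := Matrix.square_of_invertible A B e1 e2
  rwa [Fintype.card_fin] at this

/-- the matrix identity in the ring -/
theorem Jbf_ring (hP : P.Ok) (t t' : Fin (m + 1)) :
    ∑ i, (aeval P.gr (P.Jb t i) : P.Rg) * aeval P.gr (P.Jf i t') = if t = t' then 1 else 0 := by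
  rw [← Finset.sum_congr rfl fun i _ => map_mul (aeval P.gr) (P.Jb t i) (P.Jf i t'), ← map_sum]
  apply Subtype.ext
  funext z
  rw [Pkg.aeval_gr, map_sum]
  have h := hP.Jbf z z.2 t t'
  rw [Finset.sum_congr rfl fun i _ => map_mul (eval (P.bv z)) (P.Jb t i) (P.Jf i t'), h]
  split_ifs <;> rfl

end PD

open PD

/-- (PD) the differential ring of a package -/
theorem Pkg.Ok.exists_dr (hP : P.Ok) :
    ∃ (N : ℕ) (A : DR P.Rg m N) (e : Gx π ≃ Fin N) (e' : Fin (m + 1) ≃ π),
      (∀ g, A.b (e g) = P.gr g) ∧ (∀ i, A.x i = P.gr (some (Sum.inl (e' i)))) ∧ P.IsPd A.d := by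
  obtain ⟨d, hd, hcomm, hdx⟩ := hP.exists_pd
  let e : Gx π ≃ Fin (Fintype.card (Gx π)) := Fintype.equivFin _
  let e' : Fin (m + 1) ≃ π := (Fintype.equivFinOfCardEq (card_eq P hP)).symm
  have hrange : (Set.range fun i : Fin (m + 1) => P.gr (some (Sum.inl (e' i))))
      = Set.range fun i => P.gr (some (Sum.inl i)) := by
    ext a
    constructor
    · rintro ⟨i, rfl⟩
      exact ⟨e' i, rfl⟩
    · rintro ⟨i, rfl⟩
      exact ⟨e'.symm i, by simp⟩
  refine ⟨Fintype.card (Gx π),
    { b := fun i => P.gr (e.symm i)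
      gen := ?_
      d := d
      comm := fun i j f => hcomm i j f
      x := fun i => P.gr (some (Sum.inl (e' i)))
      det := ?_
      alg := ?_
      unr := ?_
      reg := fun σ => hP.reg P e' σ }, e, e', fun g => by simp, fun i => rfl, hd⟩
  · rw [eq_top_iff]
    intro f _
    refine PB.rg_induction P (p := fun f => f ∈ Algebra.adjoin ℂ (Set.range fun i => P.gr (e.symm i)))
      ?_ (fun c => Subalgebra.algebraMap_mem _ c) (fun x y h1 h2 => add_mem h1 h2)
      (fun x y h1 h2 => mul_mem h1 h2) f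
    intro g
    apply Algebra.subset_adjoin
    exact ⟨e g, by simp⟩
  · apply Matrix.isUnit_det_of_right_inverse
      (B := Matrix.of fun j k => (aeval P.gr (P.Jb k (e' j)) : P.Rg))
    refine Matrix.ext fun i k => ?_
    rw [Matrix.mul_apply, Matrix.one_apply]
    have h := Jbf_ring P hP k i
    rw [← Equiv.sum_comp e'] at h
    rw [if_congr (eq_comm (a := i) (b := k)) rfl rfl, ← h]
    apply Finset.sum_congr rfl
    intro j _
    rw [Matrix.of_apply, Matrix.of_apply, hdx, mul_comm]
  · intro f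
    rw [hrange]
    exact hP.alg P f
  · intro F _ _ ψ D hD hx
    refine hP.unr P F ψ D hD fun i => ?_
    have := hx (e'.symm i)
    simpa using this

end Pool.Agent.WW
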