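import Mathlib

set_option autoImplicit false

namespace Pool.Agent.WW

open Metric Filter Topology

namespace T3a

/-- division by a power of `w - a` -/
theorem div_pow {U : Set ℂ} (hU : IsOpen U) {f : ℂ → ℂ} (hf : DifferentiableOn ℂ f U) {a : ℂ}
    (ha : a ∈ U) {M : ℕ} (h : (M : ℕ∞) ≤ analyticOrderAt f a) :
    ∃ g : ℂ → ℂ, DifferentiableOn ℂ g U ∧ ∀ w ∈ U, f w = (w - a) ^ M * g w := by
  classical
  have hfa : AnalyticAt ℂ f a := hf.analyticAt (hU.mem_nhds ha)
  obtain ⟨g0, hg0, hev⟩ := (natCast_le_analyticOrderAt hfa).1 h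
  refine ⟨fun w => if w = a then g0 a else f w / (w - a) ^ M, ?_, ?_⟩
  · intro w hw
    apply DifferentiableAt.differentiableWithinAt
    by_cases hwa : w = a
    · subst hwa
      apply hg0.differentiableAt.congr_of_eventuallyEq
      filter_upwards [hev] with z hz
      by_cases hza : z = w
      · simp [hza]
      · have : (z - w) ^ M ≠ 0 := pow_ne_zero _ (sub_ne_zero.2 hza)
        simp only [hza, if_false]
        rw [hz, smul_eq_mul, mul_div_cancel_left₀ _ this]
    · have h1 : DifferentiableAt ℂ (fun w => f w / (w - a) ^ M) w := by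
        apply DifferentiableAt.div ((hf w hw).differentiableAt (hU.mem_nhds hw)) (by fun_prop)
        exact pow_ne_zero _ (sub_ne_zero.2 hwa)
      apply h1.congr_of_eventuallyEq
      filter_upwards [isOpen_ne.mem_nhds hwa] with z hz
      have hz' : z ≠ a := hz
      simp [hz']
  · intro w hw
    by_cases hwa : w = a
    · subst hwa
      simp only [if_true]
      have := hev.self_of_nhds
      rw [smul_eq_mul] at this
      exact this
    · simp only [hwa, if_false]
      rw [mul_div_cancel₀]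
      exact pow_ne_zero _ (sub_ne_zero.2 hwa)

/-- division by a product of powers -/
theorem div_prod {U : Set ℂ} (hU : IsOpen U) {M : ℕ} (S : Finset ℤ) (hS : ∀ j ∈ S, (j : ℂ) ∈ U) :
    ∀ f : ℂ → ℂ, DifferentiableOn ℂ f U → (∀ j ∈ S, (M : ℕ∞) ≤ analyticOrderAt f (j : ℂ)) →
    ∃ g : ℂ → ℂ, DifferentiableOn ℂ g U ∧ ∀ w ∈ U, f w = (∏ j ∈ S, (w - (j : ℂ)) ^ M) * g w := by
  classical
  induction S using Finset.induction_on with
  | empty =>
    intro f hf _
    exact ⟨f, hf, fun w _ => by simp⟩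
  | insert a S haS ih =>
    intro f hf hord
    obtain ⟨g1, hg1, h1⟩ := div_pow hU hf (hS a (Finset.mem_insert_self _ _))
      (hord a (Finset.mem_insert_self _ _))
    obtain ⟨g, hg, h2⟩ := ih (fun j hj => hS j (Finset.mem_insert_of_mem hj)) g1 hg1 (by
      intro j hj
      have hjU := hS j (Finset.mem_insert_of_mem hj)
      have hja : j ≠ a := fun h => haS (h ▸ hj)
      have h3 := hord j (Finset.mem_insert_of_mem hj)
      have h4 : f =ᶠ[𝓝 (j : ℂ)] (fun w => (w - (a : ℂ)) ^ M) * g1 := by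
        filter_upwards [hU.mem_nhds hjU] with w hw
        rw [Pi.mul_apply]
        exact h1 w hw
      rw [analyticOrderAt_congr h4] at h3
      have h5 : AnalyticAt ℂ (fun w : ℂ => (w - (a : ℂ)) ^ M) (j : ℂ) := by fun_prop
      rw [analyticOrderAt_mul h5 (hg1.analyticAt (hU.mem_nhds hjU))] at h3
      have h6 : analyticOrderAt (fun w : ℂ => (w - (a : ℂ)) ^ M) (j : ℂ) = 0 := by
        rw [h5.analyticOrderAt_eq_zero]
        apply pow_ne_zero
        rw [sub_ne_zero]
        exact_mod_cast hja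
      rw [h6, zero_add] at h3
      exact h3)
    refine ⟨g, hg, ?_⟩
    intro w hw
    rw [h1 w hw, h2 w hw, Finset.prod_insert haS]
    ring

end T3a

/-- (T3a) Schwarz lemma with zeros of order `M` at the integers `|j| ≤ R` -/
theorem schwarz_int (f : ℂ → ℂ) (R M : ℕ) (hR : 1 ≤ R) (hf : DifferentiableOn ℂ f (ball 0 (9 * R)))
    (hz : ∀ j : ℤ, |j| ≤ R → ∀ n < M, iteratedDeriv n f (j : ℂ) = 0) (K : ℝ)
    (hK : ∀ w ∈ ball (0 : ℂ) (9 * R), ‖f w‖ ≤ K) (w : ℂ) (hw : ‖w‖ ≤ 1) :
    ‖f w‖ ≤ K * (1 / 2 : ℝ) ^ (M * (2 * R + 1)) := by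
  classical
  have hR' : (1 : ℝ) ≤ R := by exact_mod_cast hR
  have hR0 : (0 : ℝ) < R := by linarith
  have hmem : ∀ j ∈ Finset.Icc (-(R : ℤ)) R, |j| ≤ (R : ℤ) := by
    intro j hj
    rw [Finset.mem_Icc] at hj
    exact abs_le.2 hj
  have hnorm : ∀ j ∈ Finset.Icc (-(R : ℤ)) R, ‖(j : ℂ)‖ ≤ R := by
    intro j hj
    rw [Complex.norm_intCast]
    exact_mod_cast hmem j hj
  have hU : ∀ j ∈ Finset.Icc (-(R : ℤ)) R, (j : ℂ) ∈ ball (0 : ℂ) (9 * R) := by
    intro j hj
    rw [mem_ball_zero_iff]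
    have := hnorm j hj
    linarith
  have hcard : (Finset.Icc (-(R : ℤ)) R).card = 2 * R + 1 := by
    rw [Int.card_Icc]
    omega
  obtain ⟨g, hg, hfg⟩ := T3a.div_prod isOpen_ball (M := M) (Finset.Icc (-(R : ℤ)) R) hU f hf (by
    intro j hj
    rw [natCast_le_analyticOrderAt_iff_iteratedDeriv_eq_zero
      (hf.analyticAt (isOpen_ball.mem_nhds (hU j hj)))]
    exact hz j (hmem j hj))
  have hK0 : 0 ≤ K := le_trans (norm_nonneg _) (hK 0 (by simp; linarith))
  have hP : ∀ z : ℂ, ‖∏ j ∈ Finset.Icc (-(R : ℤ)) R, (z - (j : ℂ)) ^ M‖ =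
      ∏ j ∈ Finset.Icc (-(R : ℤ)) R, ‖z - (j : ℂ)‖ ^ M := by
    intro z
    rw [norm_prod]
    apply Finset.prod_congr rfl
    intro j _
    rw [norm_pow]
  set N := M * (2 * R + 1) with hN
  -- the bound for g on the circle
  have hgb : ∀ z ∈ frontier (ball (0 : ℂ) (5 * R)), ‖g z‖ ≤ K / (4 * R : ℝ) ^ N := by
    intro z hz
    rw [frontier_ball (0 : ℂ) (by positivity), mem_sphere_zero_iff_norm] at hz
    have hzU : z ∈ ball (0 : ℂ) (9 * R) := by
      rw [mem_ball_zero_iff, hz]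
      linarith
    have h1 := hK z hzU
    rw [hfg z hzU, norm_mul, hP] at h1
    have h2 : (4 * R : ℝ) ^ N ≤ ∏ j ∈ Finset.Icc (-(R : ℤ)) R, ‖z - (j : ℂ)‖ ^ M := by
      have h3 : (4 * R : ℝ) ^ N = ∏ _j ∈ Finset.Icc (-(R : ℤ)) R, (4 * R : ℝ) ^ M := by
        rw [Finset.prod_const, hcard, ← pow_mul]
      rw [h3]
      apply Finset.prod_le_prod
      · intro j _
        positivity
      · intro j hj
        apply pow_le_pow_left₀ (by positivity)
        have h4 := norm_sub_norm_le z (j : ℂ)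
        have h5 := hnorm j hj
        rw [hz] at h4
        linarith
    rw [le_div_iff₀ (by positivity), mul_comm]
    exact le_trans (mul_le_mul_of_nonneg_right h2 (norm_nonneg _)) h1
  have hgw : ‖g w‖ ≤ K / (4 * R : ℝ) ^ N := by
    apply Complex.norm_le_of_forall_mem_frontier_norm_le (isBounded_ball (x := (0 : ℂ)) (r := 5 * R))
      _ hgb
    · apply subset_closure
      rw [mem_ball_zero_iff]
      linarith
    · apply DifferentiableOn.diffContOnCl
      apply hg.mono
      intro z hz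
      have h1 := closure_ball_subset_closedBall hz
      rw [mem_closedBall_zero_iff] at h1
      rw [mem_ball_zero_iff]
      linarith
  have hwU : w ∈ ball (0 : ℂ) (9 * R) := by
    rw [mem_ball_zero_iff]
    linarith
  have hPw : ∏ j ∈ Finset.Icc (-(R : ℤ)) R, ‖w - (j : ℂ)‖ ^ M ≤ (2 * R : ℝ) ^ N := by
    have h3 : (2 * R : ℝ) ^ N = ∏ _j ∈ Finset.Icc (-(R : ℤ)) R, (2 * R : ℝ) ^ M := by
      rw [Finset.prod_const, hcard, ← pow_mul]
    rw [h3]
    apply Finset.prod_le_prod
    · intro j _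
      positivity
    · intro j hj
      apply pow_le_pow_left₀ (norm_nonneg _)
      have h4 := norm_sub_le w (j : ℂ)
      have h5 := hnorm j hj
      linarith
  rw [hfg w hwU, norm_mul, hP]
  calc (∏ j ∈ Finset.Icc (-(R : ℤ)) R, ‖w - (j : ℂ)‖ ^ M) * ‖g w‖
      ≤ (2 * R : ℝ) ^ N * (K / (4 * R : ℝ) ^ N) :=
        mul_le_mul hPw hgw (norm_nonneg _) (by positivity)
    _ = K * (1 / 2 : ℝ) ^ N := by
        have h1 : (4 * R : ℝ) ^ N = (2 * R : ℝ) ^ N * 2 ^ N := by
          rw [← mul_pow]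
          ring_nf
        rw [h1]
        have h2 : (2 * R : ℝ) ^ N ≠ 0 := by positivity
        rw [one_div, inv_pow]
        field_simp

end Pool.Agent.WW
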