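import Pool.Agent.WW.T3o

/-!
Iterated partial derivatives in the directions of the hyperplane `z_last = 0`.
-/

set_option autoImplicit false

namespace Pool.Agent.WW.T3

open Metric Filter Topology

variable {m : ℕ}

/-- partial derivative -/
noncomputable def pd (t : Fin m) (F : (Fin (m + 1) → ℂ) → ℂ) : (Fin (m + 1) → ℂ) → ℂ :=
  fun y => fderiv ℂ F y (Pi.single t.castSucc 1)

/-- iterated partial derivatives -/
noncomputable def pw : List (Fin m) → ((Fin (m + 1) → ℂ) → ℂ) → (Fin (m + 1) → ℂ) → ℂ
  | [], F => F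
  | t :: s, F => pd t (pw s F)

theorem pw_append (s : List (Fin m)) (t : Fin m) (F : (Fin (m + 1) → ℂ) → ℂ) :
    pw (s ++ [t]) F = pw s (pd t F) := by
  induction s with
  | nil => rfl
  | cons a s ih => rw [List.cons_append, pw, ih, pw]

variable {U : Set (Fin (m + 1) → ℂ)}

theorem pd_don (hU : IsOpen U) {F : (Fin (m + 1) → ℂ) → ℂ} (hF : DifferentiableOn ℂ F U)
    (t : Fin m) : DifferentiableOn ℂ (pd t F) U :=
  differentiableOn_fderiv_apply hU hF _

theorem pw_don (hU : IsOpen U) {F : (Fin (m + 1) → ℂ) → ℂ} (hF : DifferentiableOn ℂ F U)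
    (s : List (Fin m)) : DifferentiableOn ℂ (pw s F) U := by
  induction s with
  | nil => exact hF
  | cons a s ih => exact pd_don hU ih a

theorem pd_congr (hU : IsOpen U) {F F' : (Fin (m + 1) → ℂ) → ℂ} (h : ∀ y ∈ U, F y = F' y)
    (t : Fin m) : ∀ y ∈ U, pd t F y = pd t F' y := by
  intro y hy
  have : F =ᶠ[𝓝 y] F' := by
    filter_upwards [hU.mem_nhds hy] with x hx
    exact h x hx
  rw [pd, pd, this.fderiv_eq]

theorem pw_congr (hU : IsOpen U) {F F' : (Fin (m + 1) → ℂ) → ℂ} (h : ∀ y ∈ U, F y = F' y)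
    (s : List (Fin m)) : ∀ y ∈ U, pw s F y = pw s F' y := by
  induction s with
  | nil => exact h
  | cons a s ih => exact pd_congr hU ih a

theorem pd_shift (a : Fin (m + 1) → ℂ) (F : (Fin (m + 1) → ℂ) → ℂ) (t : Fin m) :
    pd t (fun y => F (a + y)) = fun y => pd t F (a + y) := by
  funext y
  rw [pd, pd, fderiv_comp_add_left]

theorem pw_shift (a : Fin (m + 1) → ℂ) (F : (Fin (m + 1) → ℂ) → ℂ) (s : List (Fin m)) :
    pw s (fun y => F (a + y)) = fun y => pw s F (a + y) := by
  induction s with
  | nil => rfl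
  | cons t s ih => rw [pw, ih, pd_shift, pw]

theorem pd_add (hU : IsOpen U) {F G : (Fin (m + 1) → ℂ) → ℂ} (hF : DifferentiableOn ℂ F U)
    (hG : DifferentiableOn ℂ G U) (t : Fin m) :
    ∀ y ∈ U, pd t (fun y => F y + G y) y = pd t F y + pd t G y := by
  intro y hy
  have h1 := (hF y hy).differentiableAt (hU.mem_nhds hy)
  have h2 := (hG y hy).differentiableAt (hU.mem_nhds hy)
  rw [pd, pd, pd, fderiv_fun_add h1 h2]
  rfl

theorem pw_add (hU : IsOpen U) {F G : (Fin (m + 1) → ℂ) → ℂ} (hF : DifferentiableOn ℂ F U)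
    (hG : DifferentiableOn ℂ G U) (s : List (Fin m)) :
    ∀ y ∈ U, pw s (fun y => F y + G y) y = pw s F y + pw s G y := by
  induction s with
  | nil => intro y _; rfl
  | cons a s ih =>
    intro y hy
    rw [pw, pd_congr hU ih a y hy, pd_add hU (pw_don hU hF s) (pw_don hU hG s) a y hy, pw, pw]

theorem pd_mul (hU : IsOpen U) {F G : (Fin (m + 1) → ℂ) → ℂ} (hF : DifferentiableOn ℂ F U)
    (hG : DifferentiableOn ℂ G U) (t : Fin m) :
    ∀ y ∈ U, pd t (fun y => G y * F y) y = pd t G y * F y + G y * pd t F y := by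
  intro y hy
  have h1 := (hF y hy).differentiableAt (hU.mem_nhds hy)
  have h2 := (hG y hy).differentiableAt (hU.mem_nhds hy)
  rw [pd, pd, pd, fderiv_fun_mul h2 h1]
  simp only [add_apply, smul_apply, smul_eq_mul]
  ring

/-- all derivatives of order less than `n` vanish at `y` -/
def Van (F : (Fin (m + 1) → ℂ) → ℂ) (y : Fin (m + 1) → ℂ) (n : ℕ) : Prop :=
  ∀ s : List (Fin m), s.length < n → pw s F y = 0

theorem Van.mono {F : (Fin (m + 1) → ℂ) → ℂ} {y : Fin (m + 1) → ℂ} {n n' : ℕ} (h : Van F y n)
    (hn : n' ≤ n) : Van F y n' := fun s hs => h s (lt_of_lt_of_le hs hn)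

theorem Van.pd {F : (Fin (m + 1) → ℂ) → ℂ} {y : Fin (m + 1) → ℂ} {n : ℕ} (h : Van F y (n + 1))
    (t : Fin m) : Van (pd t F) y n := by
  intro s hs
  rw [← pw_append]
  apply h
  rw [List.length_append, List.length_singleton]
  omega

theorem Van.mul (hU : IsOpen U) {y : Fin (m + 1) → ℂ} (hy : y ∈ U) (n : ℕ) :
    ∀ {F G : (Fin (m + 1) → ℂ) → ℂ}, DifferentiableOn ℂ F U → DifferentiableOn ℂ G U →
      Van F y n → Van (fun y => G y * F y) y n := by
  induction n with
  | zero => intro F G _ _ _ s hs; omega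
  | succ n ih =>
    intro F G hF hG h s hs
    rcases List.eq_nil_or_concat s with rfl | ⟨s', t, rfl⟩
    · have h0 := h [] (by simp)
      rw [pw] at h0 ⊢
      rw [h0, mul_zero]
    · rw [List.concat_eq_append, pw_append, pw_congr hU (pd_mul hU hF hG t) s' y hy,
        pw_add hU (F := fun y => T3.pd t G y * F y) (G := fun y => G y * T3.pd t F y)
          ((pd_don hU hG t).mul hF) (hG.mul (pd_don hU hF t)) s' y hy]
      have hs' : s'.length < n := by
        rw [List.concat_eq_append, List.length_append, List.length_singleton] at hs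
        omega
      rw [ih hF (pd_don hU hG t) (h.mono (Nat.le_succ n)) s' hs',
        ih (pd_don hU hF t) hG (h.pd t) s' hs', add_zero]

/-- the leading derivative of a product -/
theorem pw_mul_lead (hU : IsOpen U) {y : Fin (m + 1) → ℂ} (hy : y ∈ U) (n : ℕ) :
    ∀ {F G : (Fin (m + 1) → ℂ) → ℂ}, DifferentiableOn ℂ F U → DifferentiableOn ℂ G U →
      Van F y n → ∀ s : List (Fin m), s.length = n →
        pw s (fun y => G y * F y) y = G y * pw s F y := by
  induction n with
  | zero =>
    intro F G _ _ _ s hs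
    rw [List.length_eq_zero_iff] at hs
    subst hs
    rfl
  | succ n ih =>
    intro F G hF hG h s hs
    rcases List.eq_nil_or_concat s with rfl | ⟨s', t, rfl⟩
    · simp at hs
    · have hs' : s'.length = n := by
        rw [List.concat_eq_append, List.length_append, List.length_singleton] at hs
        omega
      rw [List.concat_eq_append, pw_append, pw_congr hU (pd_mul hU hF hG t) s' y hy,
        pw_add hU (F := fun y => T3.pd t G y * F y) (G := fun y => G y * T3.pd t F y)
          ((pd_don hU hG t).mul hF) (hG.mul (pd_don hU hF t)) s' y hy,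
        ih (pd_don hU hF t) hG (h.pd t) s' hs', pw_append]
      rw [Van.mul hU hy (n + 1) hF (pd_don hU hG t) h s' (by omega), zero_add]

/-- Cauchy estimates for iterated derivatives -/
theorem pw_bound {F : (Fin (m + 1) → ℂ) → ℂ} {R0 M ε : ℝ} (hε : 0 < ε) (hM : 0 ≤ M)
    (hF : DifferentiableOn ℂ F (ball 0 R0)) (hb : ∀ y ∈ ball (0 : Fin (m + 1) → ℂ) R0, ‖F y‖ ≤ M)
    (s : List (Fin m)) :
    ∀ y ∈ ball (0 : Fin (m + 1) → ℂ) (R0 - s.length * ε), ‖pw s F y‖ ≤ M / ε ^ s.length := by
  induction s with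
  | nil =>
    intro y hy
    simp only [List.length_nil, Nat.cast_zero, zero_mul, sub_zero] at hy
    simpa [pw] using hb y hy
  | cons a s ih =>
    intro y hy
    rw [List.length_cons, Nat.cast_add, Nat.cast_one] at hy
    have hsub : ball y ε ⊆ ball (0 : Fin (m + 1) → ℂ) (R0 - s.length * ε) := by
      intro x hx
      rw [mem_ball_zero_iff] at hy ⊢
      rw [mem_ball, dist_eq_norm] at hx
      calc ‖x‖ = ‖(x - y) + y‖ := by rw [sub_add_cancel]
        _ ≤ ‖x - y‖ + ‖y‖ := norm_add_le _ _
        _ < ε + (R0 - (s.length + 1) * ε) := add_lt_add hx hy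
        _ = R0 - s.length * ε := by ring
    have hsub' : ball (0 : Fin (m + 1) → ℂ) (R0 - s.length * ε) ⊆ ball 0 R0 := by
      apply ball_subset_ball
      have : 0 ≤ (s.length : ℝ) * ε := by positivity
      linarith
    have h1 := T3o.norm_fderiv_le (f := pw s F) hε (C := M / ε ^ s.length) (by positivity)
      ((pw_don isOpen_ball hF s).mono (hsub.trans hsub')) (fun x hx => ih x (hsub hx))
    rw [pw, pd]
    calc ‖fderiv ℂ (pw s F) y (Pi.single a.castSucc 1)‖
        ≤ ‖fderiv ℂ (pw s F) y‖ * ‖(Pi.single a.castSucc 1 : Fin (m + 1) → ℂ)‖ :=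
          ContinuousLinearMap.le_opNorm _ _
      _ = ‖fderiv ℂ (pw s F) y‖ := by rw [Pi.norm_single, norm_one, mul_one]
      _ ≤ M / ε ^ s.length / ε := h1
      _ = M / ε ^ (a :: s).length := by rw [List.length_cons, pow_succ, div_div]

/-- restriction to the line through `l` -/
theorem line_zero {F : (Fin (m + 1) → ℂ) → ℂ} (hU : IsOpen U) (hF : DifferentiableOn ℂ F U)
    (l : Fin (m + 1) → ℂ) (hlast : l (Fin.last m) = 0) (w0 : ℂ) (hw0 : w0 • l ∈ U) (n : ℕ) :
    ∀ (i : List (Fin m)) (T : ℕ), n + i.length < T → Van F (w0 • l) T →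
      iteratedDeriv n (fun w : ℂ => pw i F (w • l)) w0 = 0 := by
  induction n with
  | zero =>
    intro i T hi h
    rw [iteratedDeriv_zero]
    exact h i (by omega)
  | succ n ih =>
    intro i T hi h
    have hV : IsOpen {w : ℂ | w • l ∈ U} := hU.preimage (by fun_prop)
    have hdiff : ∀ s : List (Fin m), DifferentiableOn ℂ (fun w : ℂ => pw s F (w • l))
        {w : ℂ | w • l ∈ U} := by
      intro s w hw
      have h2 : DifferentiableAt ℂ (pw s F) (w • l) :=
        ((pw_don hU hF s) _ hw).differentiableAt (hU.mem_nhds hw)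
      apply DifferentiableAt.differentiableWithinAt
      exact h2.comp w (by fun_prop)
    have hev : deriv (fun w : ℂ => pw i F (w • l)) =ᶠ[𝓝 w0]
        fun w => ∑ t : Fin m, l t.castSucc * pw (t :: i) F (w • l) := by
      filter_upwards [hV.mem_nhds hw0] with w hw
      have h2 : DifferentiableAt ℂ (pw i F) (w • l) :=
        ((pw_don hU hF i) _ hw).differentiableAt (hU.mem_nhds hw)
      have hline : HasDerivAt (fun s : ℂ => s • l) l w := by
        simpa using (hasDerivAt_id w).smul_const l
      have h3 := (h2.hasFDerivAt.comp_hasDerivAt w hline).deriv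
      have h4 : (fun w : ℂ => pw i F (w • l)) = pw i F ∘ fun s : ℂ => s • l := rfl
      rw [h4, h3]
      have h5 : l = ∑ t : Fin m, l t.castSucc • (Pi.single t.castSucc 1 : Fin (m + 1) → ℂ) := by
        funext j
        rw [Finset.sum_apply]
        refine Fin.lastCases ?_ (fun j => ?_) j
        · rw [hlast]
          symm
          apply Finset.sum_eq_zero
          intro t _
          rw [Pi.smul_apply, Pi.single_eq_of_ne (Fin.castSucc_lt_last t).ne', smul_zero]
        · rw [Finset.sum_eq_single j]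
          · simp
          · intro t _ ht
            rw [Pi.smul_apply, Pi.single_eq_of_ne, smul_zero]
            intro h
            exact ht (Fin.castSucc_injective m h).symm
          · simp
      conv_lhs => rw [h5]
      rw [map_sum]
      apply Finset.sum_congr rfl
      intro t _
      rw [map_smul, smul_eq_mul]
      rw [← h5]
      rfl
    rw [iteratedDeriv_succ', hev.iteratedDeriv_eq]
    have hcd : ∀ s : List (Fin m), ContDiffAt ℂ n (fun w : ℂ => pw s F (w • l)) w0 := fun s =>
      ((hdiff s).analyticAt (hV.mem_nhds hw0)).contDiffAt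
    have : iteratedDeriv n (fun w => ∑ t : Fin m, l t.castSucc * pw (t :: i) F (w • l)) w0
        = ∑ t : Fin m, l t.castSucc * iteratedDeriv n (fun w => pw (t :: i) F (w • l)) w0 := by
      rw [iteratedDeriv_fun_sum fun t _ => contDiffAt_const.mul (hcd (t :: i))]
      apply Finset.sum_congr rfl
      intro t _
      exact iteratedDeriv_const_mul_field _ _
    rw [this]
    apply Finset.sum_eq_zero
    intro t _
    rw [ih (t :: i) T (by rw [List.length_cons]; omega) h, mul_zero]

end Pool.Agent.WW.T3
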