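import Pool.Agent.WW.QDefs
import Pool.Agent.WW.PD
import Pool.Agent.WW.T3a
import Pool.Agent.WW.T3p

set_option autoImplicit false

namespace Pool.Agent.WW

open MvPolynomial Metric Filter Topology

variable {π : Type} [Fintype π] [DecidableEq π] {m : ℕ} (P : Pkg π (Fin (m + 1)))

namespace T3

theorem vw_eq {N : ℕ} (A : DR P.Rg m N) (hA : P.IsPd A.d) (f : P.Rg) (s : List (Fin m)) :
    ∀ y ∈ ball (0 : Fin (m + 1) → ℂ) P.r, pw s (P.ext f) y = P.ext (A.vw s f) y := by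
  induction s with
  | nil => intro y _; rfl
  | cons t s ih =>
    intro y hy
    rw [pw, pd_congr isOpen_ball ih t y hy, PA.ext_eq P _ hy]
    exact (hA t.castSucc (A.vw s f) ⟨y, hy⟩).symm

theorem ev_vw {N : ℕ} (A : DR P.Rg m N) (hA : P.IsPd A.d) (f : P.Rg) (s : List (Fin m))
    (z : P.Bl) : P.ev z (A.vw s f) = pw s (P.ext f) z := by
  rw [vw_eq P A hA f s z z.2, PA.ext_eq P _ z.2]
  rfl

theorem ext_U {n : ℕ} (u : Fin n → P.μ) (p : MvPolynomial (Fin n) ℤ) {y : Fin (m + 1) → ℂ}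
    (hy : y ∈ ball (0 : Fin (m + 1) → ℂ) P.r) :
    P.ext (P.U u p) y = ∑ β ∈ p.support, ((p.coeff β : ℤ) : ℂ) * ∏ t, P.h y (u t) ^ β t := by
  rw [PA.ext_eq P _ hy]
  change (P.ev ⟨y, hy⟩ : P.Rg →+* ℂ) (P.U u p) = _
  rw [Pkg.U, map_aeval, coe_eval₂Hom, eval₂_eq']
  apply Finset.sum_congr rfl
  intro β _
  have h1 : ((P.ev ⟨y, hy⟩ : P.Rg →+* ℂ).comp (algebraMap ℤ P.Rg)) (p.coeff β) =
      ((p.coeff β : ℤ) : ℂ) := by simp
  rw [h1]
  congr 1
  apply Finset.prod_congr rfl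
  intro t _
  congr 1
  exact P.aeval_gr (P.H (u t)) ⟨y, hy⟩

/-- the auxiliary function on the large ball -/
noncomputable def Phi (k L : ℕ) (u : Fin (m + 1) → P.μ) (p : MvPolynomial (Fin (m + 1)) ℤ)
    (y : Fin (m + 1) → ℂ) : ℂ :=
  ∑ β ∈ p.support, ((p.coeff β : ℤ) : ℂ) * P.G0 k y ^ (L - ∑ t, β t) *
    ∏ t, P.G k (u t) y ^ β t

theorem prod_don {E τ : Type*} [NormedAddCommGroup E] [NormedSpace ℂ E] {s : Set E}
    {f : τ → E → ℂ} (T : Finset τ) (h : ∀ t, DifferentiableOn ℂ (f t) s) :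
    DifferentiableOn ℂ (fun y => ∏ t ∈ T, f t y) s := by
  classical
  induction T using Finset.induction_on with
  | empty => simp
  | insert a T ha ih =>
    simp only [Finset.prod_insert ha]
    exact (h a).mul ih

theorem Phi_don (hP : P.Ok) (k L : ℕ) (u : Fin (m + 1) → P.μ)
    (p : MvPolynomial (Fin (m + 1)) ℤ) :
    DifferentiableOn ℂ (Phi P k L u p) (ball 0 (2 ^ k * P.r)) := by
  unfold Phi
  refine DifferentiableOn.fun_sum fun β _ => ?_
  refine DifferentiableOn.mul ?_ ?_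
  · exact (differentiableOn_const _).mul ((hP.G0ana k).pow _)
  · exact prod_don Finset.univ fun t => (hP.Gana k (u t)).fun_pow _

theorem deg_le {L : ℕ} {p : MvPolynomial (Fin (m + 1)) ℤ} (hp : p.totalDegree ≤ L)
    {β : Fin (m + 1) →₀ ℕ} (hβ : β ∈ p.support) : ∑ t, β t ≤ L := by
  have := le_totalDegree hβ
  rw [Finsupp.sum_fintype _ _ (fun _ => rfl)] at this
  exact this.trans hp

theorem card_supp {L : ℕ} {p : MvPolynomial (Fin (m + 1)) ℤ} (hp : p.totalDegree ≤ L) :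
    p.support.card ≤ (L + 1) ^ (m + 1) := by
  classical
  have h1 : p.support.card ≤ (Fintype.piFinset fun _ : Fin (m + 1) => Finset.range (L + 1)).card := by
    apply Finset.card_le_card_of_injOn (fun β : Fin (m + 1) →₀ ℕ => (β : Fin (m + 1) → ℕ))
    · intro β hβ
      rw [Finset.mem_coe, Fintype.mem_piFinset]
      intro t
      rw [Finset.mem_range, Nat.lt_succ_iff]
      exact (Finset.single_le_sum (f := fun t => β t) (fun _ _ => Nat.zero_le _)
        (Finset.mem_univ t)).trans (deg_le hp hβ)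
    · intro β _ β' _ h
      exact DFunLike.coe_injective h
  rwa [Fintype.card_piFinset, Finset.prod_const, Finset.card_range, Finset.card_univ,
    Fintype.card_fin] at h1

theorem Phi_bound (hP : P.Ok) (k L : ℕ) (u : Fin (m + 1) → P.μ)
    (p : MvPolynomial (Fin (m + 1)) ℤ) (hp : p.totalDegree ≤ L) {H : ℝ} (hH0 : 0 ≤ H)
    (hH : ∀ β, |((p.coeff β : ℤ) : ℝ)| ≤ H) :
    ∀ y ∈ ball (0 : Fin (m + 1) → ℂ) (2 ^ k * P.r),
      ‖Phi P k L u p y‖ ≤ ((L : ℝ) + 1) ^ (m + 1) * H * Real.exp (P.Cg * P.B ^ k) ^ L := by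
  intro y hy
  set X := Real.exp (P.Cg * P.B ^ k) with hX
  have hX0 : 0 < X := Real.exp_pos _
  have hterm : ∀ β ∈ p.support, ‖((p.coeff β : ℤ) : ℂ) * P.G0 k y ^ (L - ∑ t, β t) *
      ∏ t, P.G k (u t) y ^ β t‖ ≤ H * X ^ L := by
    intro β hβ
    rw [norm_mul, norm_mul, norm_pow, norm_prod]
    have h1 : ‖((p.coeff β : ℤ) : ℂ)‖ ≤ H := by
      rw [Complex.norm_intCast]
      exact hH β
    have h2 : ‖P.G0 k y‖ ^ (L - ∑ t, β t) ≤ X ^ (L - ∑ t, β t) :=
      pow_le_pow_left₀ (norm_nonneg _) (hP.G0le k y hy) _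
    have h3 : ∏ t, ‖P.G k (u t) y ^ β t‖ ≤ X ^ (∑ t, β t) := by
      rw [← Finset.prod_pow_eq_pow_sum]
      apply Finset.prod_le_prod
      · intro t _
        positivity
      · intro t _
        rw [norm_pow]
        exact pow_le_pow_left₀ (norm_nonneg _) (hP.Gle k (u t) y hy) _
    calc ‖((p.coeff β : ℤ) : ℂ)‖ * ‖P.G0 k y‖ ^ (L - ∑ t, β t) * ∏ t, ‖P.G k (u t) y ^ β t‖
        ≤ H * X ^ (L - ∑ t, β t) * X ^ (∑ t, β t) := by gcongr
      _ = H * X ^ L := by
        rw [mul_assoc, ← pow_add, Nat.sub_add_cancel (deg_le hp hβ)]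
  calc ‖Phi P k L u p y‖ ≤ ∑ β ∈ p.support, ‖((p.coeff β : ℤ) : ℂ) * P.G0 k y ^ (L - ∑ t, β t) *
      ∏ t, P.G k (u t) y ^ β t‖ := norm_sum_le _ _
    _ ≤ ∑ _β ∈ p.support, H * X ^ L := Finset.sum_le_sum hterm
    _ = p.support.card * (H * X ^ L) := by rw [Finset.sum_const, nsmul_eq_mul]
    _ ≤ ((L : ℝ) + 1) ^ (m + 1) * (H * X ^ L) := by
      gcongr
      exact_mod_cast card_supp hp
    _ = ((L : ℝ) + 1) ^ (m + 1) * H * X ^ L := by ring

theorem G0_ne (hP : P.Ok) (k : ℕ) {y : Fin (m + 1) → ℂ}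
    (hy : y ∈ ball (0 : Fin (m + 1) → ℂ) P.r) : P.G0 k y ≠ 0 := by
  intro h
  have := hP.G0ge k y hy
  rw [h, norm_zero] at this
  exact absurd (Real.exp_pos _) (not_lt.2 this)

theorem Phi_shift (hP : P.Ok) (k L : ℕ) (u : Fin (m + 1) → P.μ)
    (p : MvPolynomial (Fin (m + 1)) ℤ) (hp : p.totalDegree ≤ L) {a : Fin (m + 1) → ℂ}
    (ha : a ∈ P.Λ) (hak : ‖a‖ + P.r ≤ 2 ^ k * P.r) {y : Fin (m + 1) → ℂ}
    (hy : y ∈ ball (0 : Fin (m + 1) → ℂ) P.r) :
    Phi P k L u p (a + y) = P.G0 k (a + y) ^ L * P.ext (P.U u p) y := by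
  have hG : ∀ b, P.G k b (a + y) = P.h y b * P.G0 k (a + y) := by
    intro b
    have h1 := hP.per a ha k hak y hy b
    rw [hP.Geq k b y hy] at h1
    apply mul_right_cancel₀ (G0_ne P hP k hy)
    rw [h1]
    ring
  rw [Phi, ext_U P u p hy, Finset.mul_sum]
  apply Finset.sum_congr rfl
  intro β hβ
  have h2 : ∏ t, P.G k (u t) (a + y) ^ β t =
      (∏ t, P.h y (u t) ^ β t) * P.G0 k (a + y) ^ (∑ t, β t) := by
    rw [← Finset.prod_pow_eq_pow_sum, ← Finset.prod_mul_distrib]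
    apply Finset.prod_congr rfl
    intro t _
    rw [hG, mul_pow]
  rw [h2]
  have h3 : P.G0 k (a + y) ^ L =
      P.G0 k (a + y) ^ (L - ∑ t, β t) * P.G0 k (a + y) ^ (∑ t, β t) := by
    rw [← pow_add, Nat.sub_add_cancel (deg_le hp hβ)]
  rw [h3]
  ring

/-- vanishing at the periods -/
theorem van_period (hP : P.Ok) {N : ℕ} (A : DR P.Rg m N) (hA : P.IsPd A.d) (k L T : ℕ)
    (u : Fin (m + 1) → P.μ) (p : MvPolynomial (Fin (m + 1)) ℤ) (hp : p.totalDegree ≤ L)
    (hord : A.VOrd (P.ev P.o) T (P.U u p)) {a : Fin (m + 1) → ℂ}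
    (ha : a ∈ P.Λ) (hak : ‖a‖ + P.r ≤ 2 ^ k * P.r) : Van (Phi P k L u p) a T := by
  intro s hs
  have h0 : (0 : Fin (m + 1) → ℂ) ∈ ball (0 : Fin (m + 1) → ℂ) P.r := mem_ball_self P.hr
  have h1 : pw s (Phi P k L u p) a = pw s (fun y => Phi P k L u p (a + y)) 0 := by
    rw [pw_shift]
    simp only [add_zero]
  have hG : DifferentiableOn ℂ (fun y => P.G0 k (a + y) ^ L) (ball 0 P.r) := by
    refine DifferentiableOn.fun_pow ?_ L
    refine (hP.G0ana k).comp (differentiableOn_id.const_add a) ?_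
    intro y hy
    rw [mem_ball_zero_iff] at hy ⊢
    calc ‖a + y‖ ≤ ‖a‖ + ‖y‖ := norm_add_le _ _
      _ < ‖a‖ + P.r := by linarith
      _ ≤ 2 ^ k * P.r := hak
  have hvan : Van (P.ext (P.U u p)) 0 T := by
    intro s' hs'
    have h2 := hord s' hs'
    rw [ev_vw P A hA] at h2
    exact h2
  rw [h1, pw_congr isOpen_ball (fun y hy => Phi_shift P hP k L u p hp ha hak hy) s 0 h0]
  exact Van.mul isOpen_ball h0 T (hP.ana P (P.U u p)) hG hvan s hs

/-- the two bounds before the numerical estimates -/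
theorem core (hP : P.Ok) {N : ℕ} (A : DR P.Rg m N) (hA : P.IsPd A.d) (k L T R : ℕ)
    (u : Fin (m + 1) → P.μ) (l : Fin (m + 1) → ℂ) (hl : l ∈ P.Λ) (hlast : l (Fin.last m) = 0)
    (p : MvPolynomial (Fin (m + 1)) ℤ) (hp : p.totalDegree ≤ L) {H : ℝ} (hH0 : 0 ≤ H)
    (hH : ∀ β, |((p.coeff β : ℤ) : ℝ)| ≤ H)
    (hord : A.VOrd (P.ev P.o) T (P.U u p)) (z : P.Bl) (w : ℂ)
    (hz : ‖(z : Fin (m + 1) → ℂ)‖ < P.r / 2) (hw : ‖w‖ ≤ 1) (hzw : (z : Fin (m + 1) → ℂ) = w • l)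
    (i : List (Fin m))
    (hlow : ∀ i' : List (Fin m), i'.length < i.length → P.ev z (A.vw i' (P.U u p)) = 0) :
    ‖P.ev z (A.vw i (P.U u p))‖ ≤ Real.exp (P.Cg * P.B ^ k) ^ L *
      (((L : ℝ) + 1) ^ (m + 1) * H * Real.exp (P.Cg * P.B ^ k) ^ L *
        (2 * (i.length + 1) / P.r) ^ i.length) ∧
    (1 ≤ R → 9 * R * ‖l‖ + P.r / 2 < 2 ^ k * P.r → R * ‖l‖ + P.r ≤ 2 ^ k * P.r →
      ‖P.ev z (A.vw i (P.U u p))‖ ≤ Real.exp (P.Cg * P.B ^ k) ^ L *
      (((L : ℝ) + 1) ^ (m + 1) * H * Real.exp (P.Cg * P.B ^ k) ^ L *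
        (2 * (i.length + 1) / P.r) ^ i.length * (1 / 2 : ℝ) ^ ((T - i.length) * (2 * R + 1)))) := by
  have hr := P.hr
  set d := i.length with hd
  set X := Real.exp (P.Cg * P.B ^ k) with hX
  have hX0 : 0 < X := Real.exp_pos _
  set M : ℝ := ((L : ℝ) + 1) ^ (m + 1) * H * X ^ L with hM
  have hM0 : 0 ≤ M := by positivity
  set ε : ℝ := P.r / (2 * (d + 1)) with hε
  have hε0 : 0 < ε := by positivity
  have hdε : (d : ℝ) * ε ≤ P.r / 2 := by
    rw [hε]
    have h1 : (d : ℝ) * (P.r / (2 * (d + 1))) = P.r / 2 * (d / (d + 1)) := by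
      field_simp
    rw [h1]
    have h2 : (d : ℝ) / (d + 1) ≤ 1 := by
      rw [div_le_one (by positivity)]
      linarith
    nlinarith
  have hεd : M / ε ^ d = M * (2 * (d + 1) / P.r) ^ d := by
    rw [div_eq_mul_inv, ← inv_pow, hε, inv_div]
  have h2k : (1 : ℝ) ≤ 2 ^ k := one_le_pow₀ (by norm_num)
  have hbd : ∀ y : Fin (m + 1) → ℂ, ‖y‖ < 2 ^ k * P.r - P.r / 2 →
      ‖pw i (Phi P k L u p) y‖ ≤ M * (2 * (d + 1) / P.r) ^ d := by
    intro y hy
    rw [← hεd]
    apply pw_bound hε0 hM0 (Phi_don P hP k L u p) (Phi_bound P hP k L u p hp hH0 hH) i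
    rw [mem_ball_zero_iff]
    linarith
  have hzb : (z : Fin (m + 1) → ℂ) ∈ ball (0 : Fin (m + 1) → ℂ) P.r := z.2
  -- the leading term
  have hlead : pw i (Phi P k L u p) z = P.G0 k z ^ L * P.ev z (A.vw i (P.U u p)) := by
    have hsh : ∀ y ∈ ball (0 : Fin (m + 1) → ℂ) P.r,
        Phi P k L u p y = P.G0 k y ^ L * P.ext (P.U u p) y := by
      intro y hy
      have := Phi_shift P hP k L u p hp (a := 0) P.Λ.zero_mem (by
        rw [norm_zero, zero_add]
        nlinarith) hy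
      rwa [zero_add] at this
    have hG : DifferentiableOn ℂ (fun y => P.G0 k y ^ L) (ball 0 P.r) := by
      refine DifferentiableOn.fun_pow ?_ L
      refine (hP.G0ana k).mono (ball_subset_ball ?_)
      nlinarith
    have hvan : Van (P.ext (P.U u p)) z d := by
      intro s' hs'
      rw [← ev_vw P A hA]
      exact hlow s' hs'
    rw [pw_congr isOpen_ball hsh i z hzb,
      pw_mul_lead isOpen_ball hzb d (hP.ana P (P.U u p)) hG hvan i rfl, ev_vw P A hA]
  have hG0 : X⁻¹ ≤ ‖P.G0 k z‖ := by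
    have := hP.G0ge k z hzb
    rwa [Real.exp_neg] at this
  have hfin : ‖P.ev z (A.vw i (P.U u p))‖ ≤ X ^ L * ‖pw i (Phi P k L u p) z‖ := by
    rw [hlead, norm_mul, norm_pow, ← mul_assoc, ← mul_pow]
    have h1 : 1 ≤ X * ‖P.G0 k z‖ := by
      calc (1 : ℝ) = X * X⁻¹ := (mul_inv_cancel₀ hX0.ne').symm
        _ ≤ X * ‖P.G0 k z‖ := by gcongr
    have h2 : 1 ≤ (X * ‖P.G0 k z‖) ^ L := one_le_pow₀ h1
    have h3 := norm_nonneg (P.ev z (A.vw i (P.U u p)))
    nlinarith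
  refine ⟨?_, ?_⟩
  · refine hfin.trans ?_
    gcongr
    apply hbd
    nlinarith
  · intro hR h9 h1R
    refine hfin.trans ?_
    gcongr
    rw [hzw]
    have hR0 : (0 : ℝ) < R := by exact_mod_cast hR
    have hsub : ∀ v ∈ ball (0 : ℂ) (9 * R), ‖v • l‖ < 2 ^ k * P.r - P.r / 2 := by
      intro v hv
      rw [mem_ball_zero_iff] at hv
      rw [norm_smul]
      have : ‖v‖ * ‖l‖ ≤ 9 * R * ‖l‖ := by gcongr
      linarith
    refine schwarz_int (fun v => pw i (Phi P k L u p) (v • l)) R (T - d) hR ?_ ?_ _ ?_ w hw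
    · refine (pw_don isOpen_ball (Phi_don P hP k L u p) i).comp (by fun_prop) ?_
      intro v hv
      have := hsub v hv
      rw [mem_ball_zero_iff]
      linarith
    · intro j hj n hn
      have hjl : ‖(j : ℂ) • l‖ ≤ R * ‖l‖ := by
        rw [norm_smul, Complex.norm_intCast]
        have : (|j| : ℝ) ≤ R := by exact_mod_cast hj
        gcongr
      have hjΛ : (j : ℂ) • l ∈ P.Λ := by
        have h1 : (j : ℂ) • l = j • l := Int.cast_smul_eq_zsmul ℂ j l
        rw [h1]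
        exact P.Λ.zsmul_mem hl j
      refine line_zero isOpen_ball (Phi_don P hP k L u p) l hlast j ?_ n i T (by omega)
        (van_period P hP A hA k L T u p hp hord hjΛ (by linarith))
      rw [mem_ball_zero_iff]
      linarith
    · intro v hv
      exact hbd _ (hsub v hv)

/-- the numerical estimate -/
theorem numeric {T L k d m : ℕ} {Cg B r lam c : ℝ} (hT : 1 ≤ T) (hLT : L ≤ T) (hd : 2 * d ≤ T)
    (hCg : 0 ≤ Cg) (hB : 1 ≤ B) (hr : 0 < r) (hlam : 1 ≤ lam)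
    (hc : c = m + 1 + 2 * (1 + 2 / r) + 4 + 2 * Cg + 128 * lam / r) :
    Real.exp (Cg * B ^ k) ^ L *
      (((L : ℝ) + 1) ^ (m + 1) * Real.exp (Cg * B ^ k) ^ L * (2 * (d + 1) / r) ^ d) ≤
      Real.exp ((c - 1) * T * Real.log (T + 1) + c * L * B ^ k) := by
  have hT' : (1 : ℝ) ≤ T := by exact_mod_cast hT
  have hlog : (1 : ℝ) / 2 ≤ Real.log (T + 1) := by
    have h1 : Real.log 2 ≤ Real.log (T + 1) := Real.log_le_log (by norm_num) (by linarith)
    have := Real.log_two_gt_d9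
    linarith
  have hTp : (0 : ℝ) < T + 1 := by linarith
  have hLr : (L : ℝ) ≤ T := by exact_mod_cast hLT
  have hdr : 2 * (d : ℝ) ≤ T := by exact_mod_cast hd
  have hB0 : 0 ≤ B := by linarith
  have e1 : Real.exp (Cg * B ^ k) ^ L = Real.exp (L * (Cg * B ^ k)) := by
    rw [← Real.exp_nat_mul]
  have e2 : ((L : ℝ) + 1) ^ (m + 1) ≤ Real.exp ((m + 1) * T * Real.log (T + 1)) := by
    have h1 : ((L : ℝ) + 1) ^ (m + 1) ≤ ((T : ℝ) + 1) ^ (m + 1) := by gcongr
    have h2 : ((T : ℝ) + 1) ^ (m + 1) = Real.exp ((m + 1) * Real.log (T + 1)) := by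
      rw [show ((m : ℝ) + 1) = ((m + 1 : ℕ) : ℝ) by push_cast; ring, Real.exp_nat_mul,
        Real.exp_log hTp]
    refine h1.trans ?_
    rw [h2]
    apply Real.exp_le_exp.2
    have h3 : 0 ≤ ((m : ℝ) + 1) * Real.log (T + 1) := by positivity
    nlinarith
  have e3 : (2 * ((d : ℝ) + 1) / r) ^ d ≤
      Real.exp ((1 + 2 * (1 + 2 / r)) * T * Real.log (T + 1)) := by
    have h2r : 0 < 2 / r := by positivity
    have h1 : 2 * ((d : ℝ) + 1) / r ≤ (T + 1) * Real.exp (1 + 2 / r) := by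
      have h3 : 2 / r ≤ Real.exp (1 + 2 / r) := by
        have := Real.add_one_le_exp (1 + 2 / r)
        linarith
      calc 2 * ((d : ℝ) + 1) / r = (d + 1) * (2 / r) := by ring
        _ ≤ (T + 1) * Real.exp (1 + 2 / r) := by
          apply mul_le_mul _ h3 h2r.le hTp.le
          linarith
    have h4 : (1 : ℝ) ≤ (T + 1) * Real.exp (1 + 2 / r) := by
      have := Real.add_one_le_exp (1 + 2 / r)
      nlinarith
    calc (2 * ((d : ℝ) + 1) / r) ^ d ≤ ((T + 1) * Real.exp (1 + 2 / r)) ^ d := by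
          gcongr
      _ ≤ ((T + 1) * Real.exp (1 + 2 / r)) ^ T := by
          apply pow_le_pow_right₀ h4
          omega
      _ = Real.exp (T * (Real.log (T + 1) + (1 + 2 / r))) := by
          rw [Real.exp_nat_mul, Real.exp_add (Real.log ((T : ℝ) + 1)) (1 + 2 / r), Real.exp_log hTp]
      _ ≤ Real.exp ((1 + 2 * (1 + 2 / r)) * T * Real.log (T + 1)) := by
          apply Real.exp_le_exp.2
          have h5 : (1 + 2 / r) * T ≤ 2 * (1 + 2 / r) * T * Real.log (T + 1) := by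
            have h6 : 0 ≤ (1 + 2 / r) * T := by positivity
            nlinarith
          linarith
  calc Real.exp (Cg * B ^ k) ^ L *
      (((L : ℝ) + 1) ^ (m + 1) * Real.exp (Cg * B ^ k) ^ L * (2 * (d + 1) / r) ^ d)
      ≤ Real.exp (L * (Cg * B ^ k)) * (Real.exp ((m + 1) * T * Real.log (T + 1)) *
        Real.exp (L * (Cg * B ^ k)) *
        Real.exp ((1 + 2 * (1 + 2 / r)) * T * Real.log (T + 1))) := by
        rw [e1]
        gcongr
    _ = Real.exp ((m + 1 + (1 + 2 * (1 + 2 / r))) * T * Real.log (T + 1)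
        + 2 * Cg * L * B ^ k) := by
        rw [← Real.exp_add, ← Real.exp_add, ← Real.exp_add]
        congr 1
        ring
    _ ≤ Real.exp ((c - 1) * T * Real.log (T + 1) + c * L * B ^ k) := by
        apply Real.exp_le_exp.2
        have h7 : 0 ≤ 128 * lam / r := by positivity
        have h8 : 0 ≤ 2 / r := by positivity
        have h9 : 0 ≤ (T : ℝ) * Real.log (T + 1) := by positivity
        have h10 : 0 ≤ (L : ℝ) * B ^ k := by positivity
        have hm : (0 : ℝ) ≤ m := Nat.cast_nonneg m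
        have h11 : (m + 1 + (1 + 2 * (1 + 2 / r))) * (T * Real.log (T + 1)) ≤
            (c - 1) * (T * Real.log (T + 1)) := by
          apply mul_le_mul_of_nonneg_right _ h9
          rw [hc]
          linarith
        have h12 : 2 * Cg * (L * B ^ k) ≤ c * (L * B ^ k) := by
          apply mul_le_mul_of_nonneg_right _ h10
          rw [hc]
          linarith
        nlinarith

end T3

/-- (T3) analytic upper bound at the points `w l`, `l` a period in the hyperplane -/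
theorem Pkg.Ok.upper (hP : P.Ok) {N : ℕ} (A : DR P.Rg m N) (hA : P.IsPd A.d)
    (u : Fin (m + 1) → P.μ) (l : Fin (m + 1) → ℂ) (hl : l ∈ P.Λ) (hlast : l (Fin.last m) = 0) :
    ∃ c : ℝ, 1 ≤ c ∧ ∀ (T L k : ℕ) (H : ℝ) (p : MvPolynomial (Fin (m + 1)) ℤ), 1 ≤ T → 1 ≤ H →
      L ≤ T → p.totalDegree ≤ L → (∀ β, |((p.coeff β : ℤ) : ℝ)| ≤ H) → A.VOrd (P.ev P.o) T (P.U u p) →
      ∀ (z : P.Bl) (w : ℂ), ‖(z : Fin (m + 1) → ℂ)‖ < P.r / 2 → ‖w‖ ≤ 1 →
        (z : Fin (m + 1) → ℂ) = w • l →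
        ∀ i : List (Fin m), 2 * i.length ≤ T →
          (∀ i' : List (Fin m), i'.length < i.length → P.ev z (A.vw i' (P.U u p)) = 0) →
          ‖P.ev z (A.vw i (P.U u p))‖ ≤
            H * Real.exp (c * T * Real.log (T + 1) + c * L * P.B ^ k - T * 2 ^ k / c) := by
  have hr := P.hr
  have hCg := P.hCg
  have hB := P.hB
  set lam : ℝ := ‖l‖ + 1 with hlam
  have hlam1 : 1 ≤ lam := by
    rw [hlam]
    linarith [norm_nonneg l]
  obtain ⟨c, hc⟩ : ∃ c : ℝ, c = m + 1 + 2 * (1 + 2 / P.r) + 4 + 2 * P.Cg + 128 * lam / P.r :=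
    ⟨_, rfl⟩
  have hm : (0 : ℝ) ≤ m := Nat.cast_nonneg m
  have h2r : 0 < 2 / P.r := by positivity
  have h128 : 0 < 128 * lam / P.r := by positivity
  have hc4 : 4 ≤ c := by rw [hc]; linarith
  have hc0 : 0 < c := by linarith
  have hcl : 128 * lam / P.r ≤ c := by rw [hc]; linarith
  refine ⟨c, by linarith, ?_⟩
  intro T L k H p hT hH hLT hp hcoef hord z w hz hw hzw i hi hlow
  have hT' : (1 : ℝ) ≤ T := by exact_mod_cast hT
  have hH0 : 0 ≤ H := by linarith
  have hlog : (1 : ℝ) / 2 ≤ Real.log (T + 1) := by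
    have h1 : Real.log 2 ≤ Real.log (T + 1) := Real.log_le_log (by norm_num) (by linarith)
    have := Real.log_two_gt_d9
    linarith
  set X0 : ℝ := 2 ^ k * P.r / (32 * lam) with hX0
  have hX00 : 0 < X0 := by positivity
  set R : ℕ := ⌊X0⌋₊ with hR
  have hRle : (R : ℝ) ≤ X0 := Nat.floor_le hX00.le
  have hRlt : X0 < R + 1 := Nat.lt_floor_add_one X0
  have hnum := T3.numeric (T := T) (L := L) (k := k) (d := i.length) (m := m) (c := c) hT hLT hi
    hCg hB hr hlam1 hc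
  obtain ⟨ha, hb⟩ := T3.core P hP A hA k L T R u l hl hlast p hp hH0 hcoef hord z w hz hw hzw i hlow
  set Y : ℝ := Real.exp (P.Cg * P.B ^ k) ^ L *
      (((L : ℝ) + 1) ^ (m + 1) * Real.exp (P.Cg * P.B ^ k) ^ L *
        (2 * (i.length + 1) / P.r) ^ i.length) with hY
  have hX0c : T * 2 ^ k / c ≤ T * X0 / 4 := by
    have h1 : T * X0 / 4 = T * 2 ^ k / (128 * lam / P.r) := by
      rw [hX0]
      field_simp
      ring
    rw [h1]
    gcongr
  by_cases hcase : 1 ≤ k ∧ 1 ≤ R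
  · obtain ⟨hk, hR1⟩ := hcase
    have h2k : (2 : ℝ) ≤ 2 ^ k := by
      calc (2 : ℝ) = 2 ^ 1 := by norm_num
        _ ≤ 2 ^ k := pow_le_pow_right₀ (by norm_num) hk
    have hRl : (R : ℝ) * ‖l‖ ≤ 2 ^ k * P.r / 32 := by
      calc (R : ℝ) * ‖l‖ ≤ X0 * lam := by
            gcongr
            rw [hlam]
            linarith
        _ = 2 ^ k * P.r / 32 := by rw [hX0]; field_simp
    have hb' := hb hR1 (by nlinarith) (by nlinarith)
    have hpow : (1 / 2 : ℝ) ^ ((T - i.length) * (2 * R + 1)) ≤ Real.exp (-(T * X0 / 4)) := by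
      have h1 : (1 / 2 : ℝ) = Real.exp (-Real.log 2) := by
        rw [Real.exp_neg, Real.exp_log (by norm_num)]
        norm_num
      rw [h1, ← Real.exp_nat_mul]
      apply Real.exp_le_exp.2
      have h2 : (T : ℝ) / 2 ≤ ((T - i.length : ℕ) : ℝ) := by
        rw [Nat.cast_sub (by omega)]
        have : 2 * (i.length : ℝ) ≤ T := by exact_mod_cast hi
        linarith
      have h3 : X0 ≤ ((2 * R + 1 : ℕ) : ℝ) := by
        push_cast
        have : (0 : ℝ) ≤ R := Nat.cast_nonneg R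
        linarith
      have h4 := Real.log_two_gt_d9
      have h5 : (T : ℝ) / 2 * X0 ≤ (((T - i.length) * (2 * R + 1) : ℕ) : ℝ) := by
        rw [Nat.cast_mul]
        gcongr
      have h6 : (T : ℝ) / 2 * X0 * (1 / 2) ≤
          (((T - i.length) * (2 * R + 1) : ℕ) : ℝ) * Real.log 2 := by
        apply mul_le_mul h5 _ (by norm_num) (by positivity)
        linarith
      nlinarith
    calc ‖P.ev z (A.vw i (P.U u p))‖ ≤ _ := hb'
      _ = H * (Y * (1 / 2 : ℝ) ^ ((T - i.length) * (2 * R + 1))) := by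
        rw [hY]
        ring
      _ ≤ H * (Real.exp ((c - 1) * T * Real.log (T + 1) + c * L * P.B ^ k) *
          Real.exp (-(T * X0 / 4))) := by
        gcongr
      _ = H * Real.exp ((c - 1) * T * Real.log (T + 1) + c * L * P.B ^ k - T * X0 / 4) := by
        rw [← Real.exp_add]
        rfl
      _ ≤ H * Real.exp (c * T * Real.log (T + 1) + c * L * P.B ^ k - T * 2 ^ k / c) := by
        gcongr
        linarith
  · have hsmall : T * 2 ^ k / c ≤ T * Real.log (T + 1) := by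
      rcases not_and_or.1 hcase with h | h
      · have hk : k = 0 := by omega
        subst hk
        rw [pow_zero, mul_one, div_le_iff₀ hc0]
        have : (T : ℝ) * (1 / 2) * 4 ≤ T * Real.log (T + 1) * c := by
          gcongr
        linarith
      · have hR0 : R = 0 := by omega
        rw [hR0] at hRlt
        have h1 : X0 < 1 := by simpa using hRlt
        have h2 : (T : ℝ) * X0 / 4 ≤ T / 4 := by nlinarith
        have h3 : (T : ℝ) / 4 ≤ T * Real.log (T + 1) := by nlinarith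
        linarith
    calc ‖P.ev z (A.vw i (P.U u p))‖ ≤ _ := ha
      _ = H * Y := by
        rw [hY]
        ring
      _ ≤ H * Real.exp ((c - 1) * T * Real.log (T + 1) + c * L * P.B ^ k) := by
        gcongr
      _ ≤ H * Real.exp (c * T * Real.log (T + 1) + c * L * P.B ^ k - T * 2 ^ k / c) := by
        gcongr
        linarith

end Pool.Agent.WW
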