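import Pool.Agent.WW.TA2

set_option autoImplicit false

namespace Pool.Agent.WW

open MvPolynomial Metric Filter Topology

namespace TA3

/-! ### polynomials with algebraic coefficients -/

/-- the subring of the polynomials with algebraic coefficients -/
noncomputable def S (τ : Type) : Subring (MvPolynomial τ ℂ) :=
  (MvPolynomial.map (σ := τ) (algebraMap (algebraicClosure ℚ ℂ) ℂ)).range

theorem mem_S {τ : Type} {p : MvPolynomial τ ℂ} : p ∈ S τ ↔ AlgC p := by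
  have key : p ∈ S τ ↔
      p ∈ Set.range (MvPolynomial.map (σ := τ) (algebraMap (algebraicClosure ℚ ℂ) ℂ)) := Iff.rfl
  rw [key, mem_range_map_iff_coeffs_subset]
  constructor
  · intro h a
    by_cases h0 : p.coeff a = 0
    · rw [h0]; exact isAlgebraic_zero
    · have h1 := h (coeff_mem_coeffs a h0)
      obtain ⟨c, hc⟩ := h1
      rw [← hc]
      exact mem_algebraicClosure_iff.1 c.2
  · intro h c hc
    obtain ⟨a, _, ha⟩ := (mem_coeffs_iff.1 hc)
    rw [ha]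
    exact ⟨⟨p.coeff a, mem_algebraicClosure_iff.2 (h a)⟩, rfl⟩

theorem S_C {τ : Type} {c : ℂ} (hc : IsAlgebraic ℚ c) : (C c : MvPolynomial τ ℂ) ∈ S τ := by
  rw [mem_S]
  intro a
  classical
  rw [coeff_C]
  split_ifs
  · exact hc
  · exact isAlgebraic_zero

theorem S_X {τ : Type} (i : τ) : (X i : MvPolynomial τ ℂ) ∈ S τ := by
  rw [mem_S]
  intro a
  classical
  rw [coeff_X]
  split_ifs
  · exact isAlgebraic_one
  · exact isAlgebraic_zero

theorem S_aeval {σ τ : Type} [Fintype σ] {Q : MvPolynomial σ ℂ} (hQ : AlgC Q)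
    {s : σ → MvPolynomial τ ℂ} (hs : ∀ i, s i ∈ S τ) : (aeval s Q) ∈ S τ := by
  rw [aeval_def, eval₂_eq']
  refine Subring.sum_mem _ fun d _ => Subring.mul_mem _ (S_C (hQ d)) ?_
  exact Subring.prod_mem _ fun i _ => Subring.pow_mem _ (hs i) _

theorem alg_eval {σ : Type} [Fintype σ] {Q : MvPolynomial σ ℂ} (hQ : AlgC Q) {y : σ → ℂ}
    (hy : ∀ i, IsAlgebraic ℚ (y i)) : IsAlgebraic ℚ (eval y Q) := by
  rw [← mem_algebraicClosure_iff, eval_eq']
  refine sum_mem fun d _ => mul_mem ?_ ?_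
  · rw [mem_algebraicClosure_iff]; exact hQ d
  · refine prod_mem fun i _ => pow_mem ?_ _
    rw [mem_algebraicClosure_iff]; exact hy i

theorem eval_aeval' {σ τ : Type} (s : σ → MvPolynomial τ ℂ) (y : τ → ℂ) (Q : MvPolynomial σ ℂ) :
    eval y (aeval s Q) = eval (fun i => eval y (s i)) Q := by
  induction Q using MvPolynomial.induction_on with
  | C c => rw [algHom_C, algebraMap_eq, eval_C, eval_C]
  | add p q hp hq => rw [map_add, map_add, map_add, hp, hq]
  | mul_X p i hp => rw [map_mul, map_mul, map_mul, hp, aeval_X, eval_X]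

/-- clearing denominators -/
theorem clear {σ τ : Type} [Fintype σ] (Q : MvPolynomial σ ℂ) (d : ℕ) (hd : Q.totalDegree ≤ d)
    (a0 : MvPolynomial τ ℂ) (a : σ → MvPolynomial τ ℂ) :
    ∃ R : MvPolynomial τ ℂ, (AlgC Q → AlgC a0 → (∀ i, AlgC (a i)) → AlgC R) ∧
      ∀ (v : τ → ℂ) (y : σ → ℂ), (∀ i, y i * eval v a0 = eval v (a i)) →
        eval y Q * eval v a0 ^ d = eval v R := by
  classical
  refine ⟨∑ β ∈ Q.support, C (Q.coeff β) * (a0 ^ (d - ∑ i, β i) * ∏ i, a i ^ β i), ?_, ?_⟩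
  · intro hQ h0 ha
    rw [← mem_S]
    refine Subring.sum_mem _ fun β _ => Subring.mul_mem _ (S_C (hQ β)) (Subring.mul_mem _ ?_ ?_)
    · exact Subring.pow_mem _ (mem_S.2 h0) _
    · exact Subring.prod_mem _ fun i _ => Subring.pow_mem _ (mem_S.2 (ha i)) _
  · intro v y hy
    rw [eval_eq', map_sum, Finset.sum_mul]
    refine Finset.sum_congr rfl fun β hβ => ?_
    have hle : ∑ i, β i ≤ d := by
      refine le_trans ?_ hd
      have h1 := le_totalDegree hβ
      rwa [Finsupp.sum_fintype _ _ (fun _ => rfl)] at h1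
    rw [map_mul, eval_C, map_mul, map_pow, map_prod]
    have h2 : ∏ i, eval v (a i ^ β i) = (∏ i, y i ^ β i) * eval v a0 ^ (∑ i, β i) := by
      rw [← Finset.prod_pow_eq_pow_sum, ← Finset.prod_mul_distrib]
      refine Finset.prod_congr rfl fun i _ => ?_
      rw [map_pow, ← hy i, mul_pow]
    rw [h2]
    have h3 : eval v a0 ^ d = eval v a0 ^ (d - ∑ i, β i) * eval v a0 ^ (∑ i, β i) := by
      rw [← pow_add]
      congr 1
      omega
    rw [h3]
    ring

/-! ### analytic tools -/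

/-- identity theorem along a line -/
theorem line_zero {ι : Type} [Fintype ι] (Φ : (ι → ℂ) → ℂ) {R : ℝ}
    (hΦ : DifferentiableOn ℂ Φ (ball 0 R)) {p q : ι → ℂ} (hp : p ∈ ball (0 : ι → ℂ) R)
    (hq : q ∈ ball (0 : ι → ℂ) R) (h : ∀ᶠ z in 𝓝 p, Φ z = 0) : Φ q = 0 := by
  set L : ℂ → (ι → ℂ) := fun t => p + t • (q - p) with hLdef
  have hL : Differentiable ℂ L := by
    rw [hLdef]; fun_prop
  set U : Set ℂ := L ⁻¹' (ball 0 R) with hU
  have hUo : IsOpen U := isOpen_ball.preimage hL.continuous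
  have hUc : Convex ℝ U := by
    intro s hs t ht a b ha hb hab
    have e : L (a • s + b • t) = a • L s + b • L t := by
      rw [hLdef]
      funext i
      simp only [Pi.add_apply, Pi.smul_apply, Pi.sub_apply, smul_eq_mul, Complex.real_smul]
      have hab' : (a : ℂ) + b = 1 := by exact_mod_cast hab
      linear_combination -(p i) * hab'
    change L _ ∈ ball 0 R
    rw [e]
    exact convex_ball (0 : ι → ℂ) R hs ht ha hb hab
  have hf : DifferentiableOn ℂ (Φ ∘ L) U := hΦ.comp hL.differentiableOn (fun t ht => ht)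
  have hA : AnalyticOnNhd ℂ (Φ ∘ L) U := hf.analyticOnNhd hUo
  have e0 : L 0 = p := by simp [hLdef]
  have e1 : L 1 = q := by simp [hLdef]
  have h0 : (0 : ℂ) ∈ U := by
    change L 0 ∈ ball 0 R
    rw [e0]; exact hp
  have h1 : (1 : ℂ) ∈ U := by
    change L 1 ∈ ball 0 R
    rw [e1]; exact hq
  have hev : (Φ ∘ L) =ᶠ[𝓝 0] 0 := by
    have h2 : Tendsto L (𝓝 0) (𝓝 p) := by
      rw [← e0]; exact hL.continuous.continuousAt
    exact h2.eventually h
  have h3 := hA.eqOn_zero_of_preconnected_of_eventuallyEq_zero hUc.isPreconnected h0 hev h1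
  simp only [Function.comp_apply, Pi.zero_apply] at h3
  rwa [e1] at h3

theorem diff_eval {σ E : Type} [NormedAddCommGroup E] [NormedSpace ℂ E] (Q : MvPolynomial σ ℂ)
    (y : E → σ → ℂ) (s : Set E) (hy : ∀ i, DifferentiableOn ℂ (fun z => y z i) s) :
    DifferentiableOn ℂ (fun z => eval (y z) Q) s := by
  induction Q using MvPolynomial.induction_on with
  | C c => simp only [eval_C]; exact differentiableOn_const _
  | add p q hp hq => simp only [map_add]; exact hp.add hq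
  | mul_X p i hp => simp only [map_mul, eval_X]; exact hp.mul (hy i)

variable {π ι : Type} [Fintype π] [Fintype ι] [DecidableEq π] [DecidableEq ι] (P : Pkg π ι)

theorem h_diff (hP : P.Ok) (a : P.μ) : DifferentiableOn ℂ (fun z => P.h z a) (ball 0 P.r) := by
  refine (Pkg.Ok.ana P hP (P.hr' a)).congr ?_
  intro z hz
  unfold Pkg.ext
  rw [dif_pos hz]
  exact (P.aeval_gr (P.H a) ⟨z, hz⟩).symm

/-- `y` is a vector of rational functions in the generators with algebraic coefficients,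
regular at `p` -/
def RatAt (p : ι → ℂ) {σ : Type} (y : (ι → ℂ) → σ → ℂ) : Prop :=
  ∃ (F0 : MvPolynomial (Gx π) ℂ) (F : σ → MvPolynomial (Gx π) ℂ), AlgC F0 ∧ (∀ a, AlgC (F a)) ∧
    eval (P.bv p) F0 ≠ 0 ∧ ∀ᶠ z in 𝓝 p, ∀ a, y z a * eval (P.bv z) F0 = eval (P.bv z) (F a)

theorem RatAt.comp {P : Pkg π ι} {p : ι → ℂ} {σ σ' : Type} [Fintype σ] [Fintype σ']
    {y : (ι → ℂ) → σ → ℂ}
    (h : RatAt P p y) (Q0 : MvPolynomial σ ℂ) (Q : σ' → MvPolynomial σ ℂ) (hQ0 : AlgC Q0)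
    (hQ : ∀ a, AlgC (Q a)) (y' : (ι → ℂ) → σ' → ℂ) (hne : eval (y p) Q0 ≠ 0)
    (h' : ∀ᶠ z in 𝓝 p, ∀ a, y' z a * eval (y z) Q0 = eval (y z) (Q a)) : RatAt P p y' := by
  classical
  obtain ⟨F0, F, hF0, hF, hp, hev⟩ := h
  set d := Q0.totalDegree + ∑ a, (Q a).totalDegree with hd
  obtain ⟨R0, hR0, hR0'⟩ := clear Q0 d (by omega) F0 F
  have hle : ∀ a, (Q a).totalDegree ≤ d := by
    intro a
    have : (Q a).totalDegree ≤ ∑ a, (Q a).totalDegree :=
      Finset.single_le_sum (f := fun a => (Q a).totalDegree) (fun _ _ => Nat.zero_le _)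
        (Finset.mem_univ a)
    omega
  choose R hR hR' using fun a => clear (Q a) d (hle a) F0 F
  have hself := hev.self_of_nhds
  refine ⟨R0, R, hR0 hQ0 hF0 hF, fun a => hR a (hQ a) hF0 hF, ?_, ?_⟩
  · rw [← hR0' (P.bv p) (y p) hself]
    exact mul_ne_zero hne (pow_ne_zero _ hp)
  · filter_upwards [hev, h'] with z hz hz' a
    rw [← hR0' (P.bv z) (y z) hz, ← hR' a (P.bv z) (y z) hz, ← hz' a, mul_assoc]

end TA3

open TA3

variable {π ι : Type} [Fintype π] [Fintype ι] [DecidableEq π] [DecidableEq ι] (P : Pkg π ι)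

/-- (TA3a) multiplication by `2^e` on the small ball -/
theorem Pkg.Ok.mul_pow (hP : P.Ok) (e : ℕ) :
    ∃ (M : MvPolynomial P.μ ℂ) (N : P.μ → MvPolynomial P.μ ℂ), AlgC M ∧ (∀ a, AlgC (N a)) ∧
      ∀ z ∈ ball (0 : ι → ℂ) (P.r / 2 ^ e), eval (P.h z) M ≠ 0 ∧
        ∀ a, P.h ((2 ^ e : ℂ) • z) a * eval (P.h z) M = eval (P.h z) (N a) := by
  classical
  have hr := P.hr
  induction e with
  | zero =>
    refine ⟨1, fun a => X a, mem_S.1 (one_mem _), fun a => mem_S.1 (S_X a), ?_⟩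
    intro z _
    simp
  | succ e ih =>
    obtain ⟨M, N, hM, hN, h⟩ := ih
    set s : P.μ ⊕ P.μ → MvPolynomial P.μ ℂ := Sum.elim X X with hs
    have hsS : ∀ i, s i ∈ S P.μ := by
      rintro (i | i) <;> exact S_X i
    have ev0 : ∀ (y : P.μ → ℂ) (Q : MvPolynomial (P.μ ⊕ P.μ) ℂ),
        eval y (aeval s Q) = eval (Sum.elim y y) Q := by
      intro y Q
      rw [eval_aeval']
      congr 2
      funext i
      rcases i with i | i <;> simp [hs]
    set a0 : MvPolynomial P.μ ℂ := aeval s P.ad0 with ha0def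
    set a1 : P.μ → MvPolynomial P.μ ℂ := fun b => aeval s (P.ad b) with ha1def
    have ha0 : AlgC a0 := mem_S.1 (S_aeval P.ad0alg hsS)
    have ha1 : ∀ b, AlgC (a1 b) := fun b => mem_S.1 (S_aeval (P.adalg b) hsS)
    set d := M.totalDegree + ∑ a, (N a).totalDegree with hd
    have hle : ∀ a, (N a).totalDegree ≤ d := by
      intro a
      have : (N a).totalDegree ≤ ∑ a, (N a).totalDegree :=
        Finset.single_le_sum (f := fun a => (N a).totalDegree) (fun _ _ => Nat.zero_le _)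
          (Finset.mem_univ a)
      omega
    obtain ⟨RM, hRM, hRM'⟩ := clear M d (by omega) a0 a1
    choose RN hRN hRN' using fun b => clear (N b) d (hle b) a0 a1
    refine ⟨RM, RN, hRM hM ha0 ha1, fun b => hRN b (hN b) ha0 ha1, ?_⟩
    intro z hz
    rw [mem_ball_zero_iff] at hz
    have hpow : (0 : ℝ) < 2 ^ e := by positivity
    have e1 : P.r / 2 ^ (e + 1) = P.r / 2 ^ e / 2 := by rw [pow_succ]; field_simp
    have hle1 : P.r / 2 ^ e ≤ P.r := div_le_self hr.le (one_le_pow₀ (by norm_num))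
    have hz2 : z ∈ ball (0 : ι → ℂ) (P.r / 2) := by
      rw [mem_ball_zero_iff]
      rw [e1] at hz
      linarith
    have h2z : (2 : ℂ) • z ∈ ball (0 : ι → ℂ) (P.r / 2 ^ e) := by
      rw [mem_ball_zero_iff, norm_smul]
      rw [e1] at hz
      have : ‖(2 : ℂ)‖ = 2 := by simp
      rw [this]
      linarith
    have hyp : ∀ i, P.h ((2 : ℂ) • z) i * eval (P.h z) a0 = eval (P.h z) (a1 i) := by
      intro i
      rw [ha0def, ha1def]
      simp only
      rw [ev0, ev0, two_smul]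
      exact hP.ad z hz2 z hz2 i
    have hA0 : eval (P.h z) a0 ≠ 0 := by
      rw [ha0def, ev0]
      exact hP.ad0 z hz2 z hz2
    have h3 := hRM' (P.h z) (P.h ((2 : ℂ) • z)) hyp
    obtain ⟨h4, h5⟩ := h _ h2z
    have e2 : (2 ^ (e + 1) : ℂ) • z = (2 ^ e : ℂ) • ((2 : ℂ) • z) := by
      rw [smul_smul, pow_succ]
    constructor
    · rw [← h3]
      exact mul_ne_zero h4 (pow_ne_zero _ hA0)
    · intro b
      rw [← h3, ← hRN' b _ _ hyp, ← h5 b, e2, mul_assoc]


/-- (TA3b) torsion points of order `2^e` in the ball are algebraic -/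
theorem Pkg.Ok.alg_tors (hP : P.Ok) (e : ℕ) (p : ι → ℂ) (hp : p ∈ ball (0 : ι → ℂ) (P.r / 2))
    (h : (2 ^ e : ℂ) • p ∈ P.Λ) : ∀ g, IsAlgebraic ℚ (P.bv p g) := by
  classical
  have hr := P.hr
  have hpow : (0 : ℝ) < 2 ^ e := by positivity
  have hpc : (2 ^ e : ℂ) ≠ 0 := pow_ne_zero _ (by norm_num)
  have hnorm : ‖(2 ^ e : ℂ)‖ = 2 ^ e := by rw [norm_pow]; simp
  obtain ⟨M, N, hM, hN, hMN⟩ := Pkg.Ok.mul_pow P hP e
  -- the level
  obtain ⟨n, hn1, hn2⟩ : ∃ n, e ≤ n ∧ ‖(2 ^ e : ℂ) • p‖ + P.r ≤ 2 ^ n * P.r := by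
    obtain ⟨m, hm⟩ := pow_unbounded_of_one_lt ((‖(2 ^ e : ℂ) • p‖ + P.r) / P.r)
      (one_lt_two (α := ℝ))
    rw [div_lt_iff₀ hr] at hm
    refine ⟨max e m, le_max_left _ _, hm.le.trans ?_⟩
    exact mul_le_mul_of_nonneg_right (pow_le_pow_right₀ (by norm_num) (le_max_right _ _)) hr.le
  have hen : (2 : ℝ) ^ e ≤ 2 ^ n := pow_le_pow_right₀ (by norm_num) hn1
  have hle1 : P.r / 2 ^ e ≤ P.r := div_le_self hr.le (one_le_pow₀ (by norm_num))
  -- scaling
  have hsc : ∀ (z : ι → ℂ) (R : ℝ), ‖z‖ < R / 2 ^ e → ‖(2 ^ e : ℂ) • z‖ < R := by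
    intro z R hz
    rw [norm_smul, hnorm]
    rw [lt_div_iff₀ hpow] at hz
    linarith [mul_comm ‖z‖ ((2 : ℝ) ^ e)]
  have hmap : Set.MapsTo (fun z : ι → ℂ => (2 ^ e : ℂ) • z) (ball 0 P.r) (ball 0 (2 ^ n * P.r)) := by
    intro z hz
    rw [mem_ball_zero_iff] at hz ⊢
    rw [norm_smul, hnorm]
    have h1 : 2 ^ e * ‖z‖ < 2 ^ e * P.r := by nlinarith
    have h2 : 2 ^ e * P.r ≤ 2 ^ n * P.r := mul_le_mul_of_nonneg_right hen hr.le
    linarith
  have hsd : DifferentiableOn ℂ (fun z : ι → ℂ => (2 ^ e : ℂ) • z) (ball 0 P.r) := by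
    fun_prop
  have hG0d : DifferentiableOn ℂ (fun z : ι → ℂ => P.G0 n ((2 ^ e : ℂ) • z)) (ball 0 P.r) :=
    (hP.G0ana n).comp hsd hmap
  have hGd : ∀ a, DifferentiableOn ℂ (fun z : ι → ℂ => P.G n a ((2 ^ e : ℂ) • z)) (ball 0 P.r) :=
    fun a => (hP.Gana n a).comp hsd hmap
  have hev : ∀ Q : MvPolynomial P.μ ℂ, DifferentiableOn ℂ (fun z => eval (P.h z) Q) (ball 0 P.r) :=
    fun Q => diff_eval Q P.h _ (h_diff P hP)
  -- the identity (*)
  have star : ∀ z ∈ ball (0 : ι → ℂ) P.r, ∀ a,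
      P.G n a ((2 ^ e : ℂ) • z) * eval (P.h z) M = eval (P.h z) (N a) * P.G0 n ((2 ^ e : ℂ) • z) := by
    intro z hz a
    have h1 := line_zero (fun z => P.G n a ((2 ^ e : ℂ) • z) * eval (P.h z) M -
      eval (P.h z) (N a) * P.G0 n ((2 ^ e : ℂ) • z))
      (((hGd a).mul (hev M)).sub ((hev (N a)).mul hG0d)) (mem_ball_self hr) hz ?_
    · exact sub_eq_zero.1 h1
    · filter_upwards [ball_mem_nhds (0 : ι → ℂ) (show 0 < P.r / 2 ^ e by positivity)] with y hy
      have hy' := mem_ball_zero_iff.1 hy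
      have h2 : (2 ^ e : ℂ) • y ∈ ball (0 : ι → ℂ) P.r :=
        mem_ball_zero_iff.2 (hsc y P.r hy')
      have h3 := (hMN y hy).2 a
      rw [hP.Geq n a _ h2, ← h3]
      ring
  -- the open set
  set ε := P.r / 4 / 2 ^ e with hε
  have hεpos : 0 < ε := by positivity
  set s : Set (ι → ℂ) := ball 0 (P.r / 2) ∩ ball p ε with hs
  have hso : IsOpen s := isOpen_ball.inter isOpen_ball
  have hps : p ∈ s := ⟨hp, mem_ball_self hεpos⟩
  have hsub : s ⊆ ball (0 : ι → ℂ) P.r := fun z hz => by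
    have := mem_ball_zero_iff.1 hz.1
    rw [mem_ball_zero_iff]; linarith
  set Ψ : (ι → ℂ) → ℂ := fun z => eval (P.h z) M * P.G0 n ((2 ^ e : ℂ) • z) with hΨ
  have hΨd : DifferentiableOn ℂ Ψ (ball 0 P.r) := (hev M).mul hG0d
  set O : Set (ι → ℂ) := s ∩ Ψ ⁻¹' {0}ᶜ with hO
  have hOo : IsOpen O :=
    (hΨd.continuousOn.mono hsub).isOpen_inter_preimage hso isOpen_compl_singleton
  have hΨ0 : Ψ 0 ≠ 0 := by
    refine mul_ne_zero (hMN 0 (mem_ball_self (by positivity))).1 ?_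
    have h1 := hP.G0ge n 0 (mem_ball_self hr)
    have h2 := Real.exp_pos (-(P.Cg * P.B ^ n))
    rw [smul_zero]
    exact norm_pos_iff.1 (by linarith)
  have hOne : O.Nonempty := by
    by_contra hemp
    rw [Set.not_nonempty_iff_eq_empty] at hemp
    apply hΨ0
    refine line_zero Ψ hΨd (hsub hps) (mem_ball_self hr) ?_
    filter_upwards [hso.mem_nhds hps] with z hz
    by_contra hne
    have : z ∈ O := ⟨hz, hne⟩
    rw [hemp] at this
    exact this
  obtain ⟨z0, ⟨⟨hz0a, hz0b⟩, hz0c⟩, hz0alg⟩ := Pkg.Ok.alg_dense P hP O hOo hOne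
    (fun z hz => hsub hz.1)
  have hz0c' : Ψ z0 ≠ 0 := hz0c
  have hz0M : eval (P.h z0) M ≠ 0 := left_ne_zero_of_mul hz0c'
  have hz0G : P.G0 n ((2 ^ e : ℂ) • z0) ≠ 0 := right_ne_zero_of_mul hz0c'
  have hz0r : z0 ∈ ball (0 : ι → ℂ) P.r := hsub ⟨hz0a, hz0b⟩
  -- the small translate
  set w' : ι → ℂ := (2 ^ e : ℂ) • (z0 - p) with hw'
  have hw'n : ‖w'‖ < P.r / 4 := by
    apply hsc
    rw [← dist_eq_norm]
    exact mem_ball.1 hz0b
  have hw'r : w' ∈ ball (0 : ι → ℂ) P.r := mem_ball_zero_iff.2 (by linarith)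
  have hw'2 : w' ∈ ball (0 : ι → ℂ) (P.r / 2) := mem_ball_zero_iff.2 (by linarith)
  have hz0eq : (2 ^ e : ℂ) • p + w' = (2 ^ e : ℂ) • z0 := by
    rw [hw', smul_sub]; abel
  have hG0w : P.G0 n w' ≠ 0 := by
    have h1 := hP.G0ge n w' hw'r
    have h2 := Real.exp_pos (-(P.Cg * P.B ^ n))
    exact norm_pos_iff.1 (by linarith)
  have hκ : ∀ a, P.h w' a * eval (P.h z0) M = eval (P.h z0) (N a) := by
    intro a
    have h1 := hP.per _ h n hn2 w' hw'r a
    rw [hz0eq, hP.Geq n a w' hw'r] at h1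
    have h2 : P.G n a ((2 ^ e : ℂ) • z0) = P.h w' a * P.G0 n ((2 ^ e : ℂ) • z0) := by
      apply mul_right_cancel₀ hG0w
      rw [h1]; ring
    have h3 := star z0 hz0r a
    rw [h2] at h3
    apply mul_right_cancel₀ hz0G
    rw [← h3]; ring
  -- algebraic values
  have hh0 : ∀ a, IsAlgebraic ℚ (P.h z0 a) := fun a => alg_eval (P.Halg a) hz0alg
  have hκalg : ∀ a, IsAlgebraic ℚ (P.h w' a) := by
    intro a
    have h1 : P.h w' a = eval (P.h z0) (N a) * (eval (P.h z0) M)⁻¹ := by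
      rw [← hκ a]; field_simp
    rw [h1]
    exact (alg_eval (hN a) hh0).mul (alg_eval hM hh0).inv
  have hneg : ∀ a, IsAlgebraic ℚ (P.h (-z0) a) := fun a =>
    alg_eval (P.Halg a) (Pkg.Ok.alg_neg P hP z0 hz0a hz0alg)
  have hnz0 : -z0 ∈ ball (0 : ι → ℂ) (P.r / 2) := by
    rw [mem_ball_zero_iff, norm_neg]; exact mem_ball_zero_iff.1 hz0a
  -- the chain of rational functions
  have r1 : RatAt P p P.h := by
    refine ⟨1, P.H, mem_S.1 (one_mem _), P.Halg, by simp, Eventually.of_forall fun z a => ?_⟩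
    rw [map_one, mul_one]
    rfl
  have evc : ∀ (c y : P.μ → ℂ) (Q : MvPolynomial (P.μ ⊕ P.μ) ℂ),
      eval y (aeval (Sum.elim X (fun a => C (c a))) Q) = eval (Sum.elim y c) Q := by
    intro c y Q
    rw [eval_aeval']
    congr 2
    funext i
    rcases i with i | i <;> simp
  have algc : ∀ (c : P.μ → ℂ), (∀ a, IsAlgebraic ℚ (c a)) → ∀ (Q : MvPolynomial (P.μ ⊕ P.μ) ℂ),
      AlgC Q → AlgC (aeval (Sum.elim X (fun a => C (c a))) Q : MvPolynomial P.μ ℂ) := by
    intro c hc Q hQ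
    refine mem_S.1 (S_aeval hQ ?_)
    rintro (i | i)
    · exact S_X i
    · exact S_C (hc i)
  have r2 : RatAt P p (fun z => P.h (z + -z0)) := by
    refine r1.comp (aeval (Sum.elim X (fun a => C (P.h (-z0) a))) P.ad0)
      (fun b => aeval (Sum.elim X (fun a => C (P.h (-z0) a))) (P.ad b))
      (algc _ hneg _ P.ad0alg) (fun b => algc _ hneg _ (P.adalg b)) _ ?_ ?_
    · rw [evc]; exact hP.ad0 p hp _ hnz0
    · filter_upwards [isOpen_ball.mem_nhds hp] with z hz a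
      rw [evc, evc]
      exact hP.ad z hz _ hnz0 a
  have hball : ∀ z ∈ ball p ε, ‖z + -z0‖ < P.r / 2 / 2 ^ e := by
    intro z hz
    have h1 : ‖z - p‖ < ε := by rw [← dist_eq_norm]; exact mem_ball.1 hz
    have h2 : ‖z0 - p‖ < ε := by rw [← dist_eq_norm]; exact mem_ball.1 hz0b
    have h3 : z + -z0 = (z - p) - (z0 - p) := by abel
    rw [h3]
    have h4 := norm_sub_le (z - p) (z0 - p)
    have h5 : ε + ε = P.r / 2 / 2 ^ e := by rw [hε]; ring
    linarith
  have r3 : RatAt P p (fun z => P.h ((2 ^ e : ℂ) • (z + -z0))) := by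
    have hin : ∀ z ∈ ball p ε, z + -z0 ∈ ball (0 : ι → ℂ) (P.r / 2 ^ e) := by
      intro z hz
      rw [mem_ball_zero_iff]
      refine (hball z hz).trans_le ?_
      apply div_le_div_of_nonneg_right _ hpow.le
      linarith
    refine r2.comp M N hM hN _ ?_ ?_
    · exact (hMN _ (hin p (mem_ball_self hεpos))).1
    · filter_upwards [ball_mem_nhds p hεpos] with z hz a
      exact (hMN _ (hin z hz)).2 a
  have r4 : RatAt P p (fun z => P.h ((2 ^ e : ℂ) • (z - p))) := by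
    have hin : ∀ z ∈ ball p ε, (2 ^ e : ℂ) • (z + -z0) ∈ ball (0 : ι → ℂ) (P.r / 2) := by
      intro z hz
      rw [mem_ball_zero_iff]
      exact hsc _ _ (hball z hz)
    refine r3.comp (aeval (Sum.elim X (fun a => C (P.h w' a))) P.ad0)
      (fun b => aeval (Sum.elim X (fun a => C (P.h w' a))) (P.ad b))
      (algc _ hκalg _ P.ad0alg) (fun b => algc _ hκalg _ (P.adalg b)) _ ?_ ?_
    · rw [evc]; exact hP.ad0 _ (hin p (mem_ball_self hεpos)) _ hw'2
    · filter_upwards [ball_mem_nhds p hεpos] with z hz a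
      rw [evc, evc]
      have h1 := hP.ad _ (hin z hz) _ hw'2 a
      have h2 : (2 ^ e : ℂ) • (z + -z0) + w' = (2 ^ e : ℂ) • (z - p) := by
        rw [hw', ← smul_add]
        congr 1
        abel
      rw [h2] at h1
      exact h1
  obtain ⟨F0, F, hF0, hF, hne, hevF⟩ := r4
  have hpr : p ∈ ball (0 : ι → ℂ) P.r := hsub hps
  exact Pkg.Ok.alg_of_germ P hP p hpr (2 ^ e : ℂ) hpc F0 F hF0 hF hne hevF

end Pool.Agent.WW
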