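import Pool.Agent.WW.ZI
import Pool.Agent.WW.QE
import Pool.Agent.WW.TA3
import Pool.Agent.WW.T1
import Pool.Agent.WW.T3

set_option autoImplicit false

namespace Pool.Agent.WW

open MvPolynomial Metric Filter Topology

namespace Main

theorem exists_big (α β γ : ℝ) (hγ : 0 < γ) :
    ∃ K : ℕ, ∀ k : ℕ, K ≤ k → α + β * k < γ * 2 ^ k := by
  have h1 : Tendsto (fun k : ℕ => (k : ℝ) / 2 ^ k) atTop (𝓝 0) := by
    have := tendsto_pow_const_div_const_pow_of_one_lt 1 (r := (2 : ℝ)) (by norm_num)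
    simpa using this
  have h2 : Tendsto (fun k : ℕ => (1 : ℝ) / 2 ^ k) atTop (𝓝 0) := by
    have := tendsto_pow_const_div_const_pow_of_one_lt 0 (r := (2 : ℝ)) (by norm_num)
    simpa using this
  have h3 : Tendsto (fun k : ℕ => α * (1 / 2 ^ k) + β * ((k : ℝ) / 2 ^ k)) atTop
      (𝓝 (α * 0 + β * 0)) := (h2.const_mul α).add (h1.const_mul β)
  have h4 := h3.eventually (gt_mem_nhds (show α * 0 + β * 0 < γ by simpa using hγ))
  obtain ⟨K, hK⟩ := eventually_atTop.mp h4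
  refine ⟨K, fun k hk => ?_⟩
  have h5 := hK k hk
  have h6 : (0 : ℝ) < 2 ^ k := by positivity
  have h7 : α * (1 / 2 ^ k) + β * ((k : ℝ) / 2 ^ k) = (α + β * k) / 2 ^ k := by ring
  rw [h7, div_lt_iff₀ h6] at h5
  exact h5

theorem pow_le_exp {x y : ℝ} (hx : 0 ≤ x) (hy : 0 < y) (h : x ≤ y) (n : ℕ) :
    x ^ n ≤ Real.exp (n * Real.log y) := by
  have h1 : x ^ n ≤ y ^ n := pow_le_pow_left₀ hx h n
  have h2 : y ^ n = Real.exp (n * Real.log y) := by
    rw [Real.exp_nat_mul, Real.exp_log hy]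
  rwa [h2] at h1

/-- the numerical inequality -/
theorem num (c1 c2 m b : ℕ) (hc1 : 0 < c1) (hb : 2 ≤ b) (c3 B : ℝ) (hc3 : 1 ≤ c3)
    (hB : 1 ≤ B) (hBb : B ≤ b) :
    ∃ K : ℕ, ∀ k : ℕ, K ≤ k → ∀ n T L : ℕ, n = b ^ k → T = c1 * n ^ (m + 1) → L = c1 * n ^ m →
      ((c1 : ℝ) * (T + 1)) ^ (c1 * T) *
        Real.exp (c3 * T * Real.log (T + 1) + c3 * L * B ^ k - T * 2 ^ k / c3) *
        (((c1 : ℝ) * (T + 1)) ^ (c1 * T) * ((c2 : ℝ) * (T + 1)) ^ T) ^ c2 < 1 := by
  set q : ℝ := (c1 : ℝ) + c2 with hq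
  set a : ℝ := (c1 : ℝ) + c3 + c2 * c1 + c2 with ha
  obtain ⟨K, hK⟩ := exists_big (a * Real.log (2 * q * c1) + c3) (a * (m + 1) * Real.log b) (1 / c3)
    (by positivity)
  refine ⟨K, fun k hk n T L hn hT hL => ?_⟩
  have hk' := hK k hk
  have hc1r : (1 : ℝ) ≤ c1 := by exact_mod_cast hc1
  have hc2r : (0 : ℝ) ≤ c2 := Nat.cast_nonneg _
  have hqpos : 1 ≤ q := by rw [hq]; linarith
  have hapos : 0 < a := by rw [ha]; positivity
  have hnpos : 0 < n := by rw [hn]; positivity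
  have hTpos : 0 < T := by rw [hT]; positivity
  have hT1 : (1 : ℝ) ≤ T := by exact_mod_cast hTpos
  set Λ : ℝ := Real.log (q * (T + 1)) with hΛ
  have hTq : (T : ℝ) + 1 ≤ q * (T + 1) := by nlinarith
  have hy : (0 : ℝ) < q * (T + 1) := by positivity
  have hlogT : Real.log (T + 1) ≤ Λ := Real.log_le_log (by positivity) hTq
  have hlogT0 : 0 ≤ Real.log ((T : ℝ) + 1) := Real.log_nonneg (by linarith)
  have hΛ0 : 0 ≤ Λ := hlogT0.trans hlogT
  have hA1 : ((c1 : ℝ) * (T + 1)) ^ (c1 * T) ≤ Real.exp ((c1 * T : ℕ) * Λ) :=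
    pow_le_exp (by positivity) hy (by rw [hq]; nlinarith) _
  have hA2 : ((c2 : ℝ) * (T + 1)) ^ T ≤ Real.exp (T * Λ) :=
    pow_le_exp (by positivity) hy (by rw [hq]; nlinarith) _
  have hLB : (L : ℝ) * B ^ k ≤ T := by
    have h1 : B ^ k ≤ (n : ℝ) := by
      rw [hn]; push_cast; exact pow_le_pow_left₀ (by linarith) hBb k
    have h2 : (T : ℝ) = L * n := by rw [hT, hL]; push_cast; ring
    rw [h2]
    exact mul_le_mul_of_nonneg_left h1 (Nat.cast_nonneg _)
  have hΛle : Λ ≤ Real.log (2 * q * c1) + (m + 1) * k * Real.log b := by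
    have hb0 : (0 : ℝ) < b := by exact_mod_cast (by omega : 0 < b)
    have h1 : q * (T + 1) ≤ 2 * q * c1 * (b : ℝ) ^ ((m + 1) * k) := by
      have h2 : (T : ℝ) = c1 * (b : ℝ) ^ ((m + 1) * k) := by
        rw [hT, hn]; push_cast; rw [← pow_mul, mul_comm k]
      have h3 : 2 * q * c1 * (b : ℝ) ^ ((m + 1) * k) = q * (2 * T) := by rw [h2]; ring
      rw [h3]
      apply mul_le_mul_of_nonneg_left _ (by linarith)
      linarith
    calc Λ ≤ Real.log (2 * q * c1 * (b : ℝ) ^ ((m + 1) * k)) := Real.log_le_log hy h1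
      _ = Real.log (2 * q * c1) + Real.log ((b : ℝ) ^ ((m + 1) * k)) :=
          Real.log_mul (by positivity) (by positivity)
      _ = Real.log (2 * q * c1) + (m + 1) * k * Real.log b := by
          rw [Real.log_pow]; push_cast; ring
  -- combine
  have hstep : ((c1 : ℝ) * (T + 1)) ^ (c1 * T) *
        Real.exp (c3 * T * Real.log (T + 1) + c3 * L * B ^ k - T * 2 ^ k / c3) *
        (((c1 : ℝ) * (T + 1)) ^ (c1 * T) * ((c2 : ℝ) * (T + 1)) ^ T) ^ c2
      ≤ Real.exp ((c1 * T : ℕ) * Λ) *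
        Real.exp (c3 * T * Λ + c3 * T - T * 2 ^ k / c3) *
        (Real.exp ((c1 * T : ℕ) * Λ) * Real.exp (T * Λ)) ^ c2 := by
    apply mul_le_mul
    · apply mul_le_mul hA1 _ (Real.exp_pos _).le (Real.exp_pos _).le
      apply Real.exp_le_exp.mpr
      have h1 : c3 * T * Real.log (T + 1) ≤ c3 * T * Λ :=
        mul_le_mul_of_nonneg_left hlogT (by positivity)
      have h2 : c3 * L * B ^ k ≤ c3 * T := by
        rw [mul_assoc]; exact mul_le_mul_of_nonneg_left hLB (by linarith)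
      linarith
    · apply pow_le_pow_left₀ (by positivity)
      exact mul_le_mul hA1 hA2 (by positivity) (Real.exp_pos _).le
    · positivity
    · positivity
  refine lt_of_le_of_lt hstep ?_
  rw [← Real.exp_add, ← Real.exp_add, ← Real.exp_nat_mul, ← Real.exp_add, ← Real.exp_zero]
  apply Real.exp_lt_exp.mpr
  have hE : ((c1 * T : ℕ) : ℝ) * Λ + (c3 * T * Λ + c3 * T - T * 2 ^ k / c3)
      + c2 * (((c1 * T : ℕ) : ℝ) * Λ + T * Λ) = T * (a * Λ + c3 - 1 / c3 * 2 ^ k) := by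
    rw [ha]; push_cast; ring
  rw [hE]
  have h1 : a * Λ ≤ a * Real.log (2 * q * c1) + a * (m + 1) * Real.log b * k := by
    have := mul_le_mul_of_nonneg_left hΛle hapos.le
    calc a * Λ ≤ _ := this
      _ = _ := by ring
  have h2 : a * Λ + c3 - 1 / c3 * 2 ^ k < 0 := by linarith
  exact mul_neg_of_pos_of_neg (by positivity) h2


section ring

variable {π : Type} [Fintype π] [DecidableEq π] {m : ℕ} (P : Pkg π (Fin (m + 1)))

theorem ev_hr (z : P.Bl) (a : P.μ) : P.ev z (P.hr' a) = P.h z a :=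
  Pkg.aeval_gr P (P.H a) z

theorem ev_U {n : ℕ} (u : Fin n → P.μ) (p : MvPolynomial (Fin n) ℤ) (z : P.Bl) :
    P.ev z (P.U u p) = eval (fun t => P.h z (u t)) (map (Int.castRingHom ℂ) p) := by
  rw [eval_map]
  change (P.ev z).toRingHom (eval₂ (algebraMap ℤ P.Rg) (fun t => P.hr' (u t)) p) = _
  rw [← coe_eval₂Hom, ← RingHom.comp_apply, comp_eval₂Hom]
  have h1 : ((P.ev z).toRingHom.comp (algebraMap ℤ P.Rg)) = Int.castRingHom ℂ := Subsingleton.elim _ _
  have h2 : (fun i => (P.ev z).toRingHom (P.hr' (u i))) = fun t => P.h z (u t) := by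
    funext t
    exact ev_hr P z (u t)
  rw [h1]
  exact congrArg (fun g => eval₂ (Int.castRingHom ℂ) g p) h2

/-- abelian functions which form local coordinates are algebraically independent -/
theorem exists_u (hP : P.Ok) : ∃ u : Fin (m + 1) → P.μ,
    ∀ p : MvPolynomial (Fin (m + 1)) ℤ, P.U u p = 0 → p = 0 := by
  obtain ⟨u, hu⟩ := hP.exists_indep P ⊤ (d := m + 1) (by simp)
  refine ⟨u, fun p hp => ?_⟩
  have h1 : map (Int.castRingHom ℂ) p = 0 := by
    apply hu _ P.r P.hr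
    intro z _ hz
    have hz' : z ∈ ball (0 : Fin (m + 1) → ℂ) P.r := by rwa [mem_ball_zero_iff]
    have h2 := ev_U P u p ⟨z, hz'⟩
    rw [hp, map_zero] at h2
    exact h2.symm
  exact (map_injective (Int.castRingHom ℂ) (RingHom.injective_int _)) (by rw [h1, map_zero])

theorem U_mem {N : ℕ} (A : DR P.Rg m N) {n : ℕ} (u : Fin n → P.μ) :
    ∃ c : ℕ, 0 < c ∧ ∀ (L : ℕ) (p : MvPolynomial (Fin n) ℤ), p.totalDegree ≤ L →
      P.U u p ∈ A.le (c * L) := by
  choose ce hce using fun t => ZB.exists_le A (P.hr' (u t))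
  have hle : ∀ t, ce t ≤ ∑ t, ce t + 1 := fun t => by
    have := Finset.single_le_sum (f := ce) (fun _ _ => Nat.zero_le _) (Finset.mem_univ t)
    omega
  refine ⟨∑ t, ce t + 1, by omega, fun L p hp => ?_⟩
  rw [Pkg.U, aeval_def, eval₂_eq']
  apply Submodule.sum_mem
  intro s hs
  have h1 := ZB.le_prod A Finset.univ (fun t => P.hr' (u t) ^ s t) (fun t => (∑ t, ce t + 1) * s t)
    (fun t => ZB.le_mono A (Nat.mul_le_mul_right _ (hle t)) (ZB.le_pow A (hce t) (s t)))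
  rw [← Finset.mul_sum] at h1
  have h2 := le_totalDegree hs
  rw [Finsupp.sum_fintype _ _ (fun _ => rfl)] at h2
  have h3 := ZB.le_mono A (Nat.mul_le_mul_left (∑ t, ce t + 1) (h2.trans hp)) h1
  have h4 : (algebraMap ℤ P.Rg) (coeff s p) * ∏ t, P.hr' (u t) ^ s t
      = ((coeff s p : ℤ) : ℂ) • ∏ t, P.hr' (u t) ^ s t := by
    rw [Algebra.smul_def]
    congr 1
  rw [h4]
  exact Submodule.smul_mem _ _ h3

theorem ev_inj {z z' : P.Bl} (h : P.ev z = P.ev z') : z = z' := by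
  have h1 : P.ξ z = P.ξ z' := by
    funext i
    have h2 : P.ev z (P.gr (some (Sum.inl i))) = P.ev z' (P.gr (some (Sum.inl i))) := by rw [h]
    have h3 : (1 / 2 + P.ξ z i : ℂ) = 1 / 2 + P.ξ z' i := h2
    exact add_left_cancel h3
  exact Subtype.ext (P.ξinj z.2 z'.2 h1)

end ring

end Main

variable {π : Type} [Fintype π] [DecidableEq π] {m : ℕ} (P : Pkg π (Fin (m + 1)))

/-- (MAIN) no period lies in a hyperplane (with algebraic equation) which contains no complex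
subspace spanned by periods -/
theorem Pkg.Ok.main (hP : P.Ok) (hN : P.NoSub) (l : Fin (m + 1) → ℂ) (hl : l ∈ P.Λ)
    (hlast : l (Fin.last m) = 0) : l = 0 := by
  classical
  by_contra hl0
  have := hP.dom
  obtain ⟨N, A, -, -, -, -, hA⟩ := hP.exists_dr
  obtain ⟨u, hu⟩ := Main.exists_u P hP
  obtain ⟨cH, hcH, hUle⟩ := Main.U_mem P A u
  obtain ⟨C, hC, hZ⟩ := zeroEstimate A
  obtain ⟨c1, hc1, hS⟩ := hP.siegel P A hA u
  -- the number of points
  obtain ⟨s, hs⟩ : ∃ s : ℕ, s = 3 ^ m * (C * cH ^ (m + 1) * c1) + 1 := ⟨_, rfl⟩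
  have hlpos : 0 < ‖l‖ := norm_pos_iff.mpr hl0
  obtain ⟨e, he1, he2⟩ : ∃ e : ℕ, (s : ℝ) ≤ 2 ^ e ∧ (s : ℝ) * ‖l‖ / 2 ^ e < P.r / 4 := by
    have hr := P.hr
    obtain ⟨e, he⟩ := pow_unbounded_of_one_lt (max (s : ℝ) ((s : ℝ) * ‖l‖ / (P.r / 4)))
      (by norm_num : (1 : ℝ) < 2)
    refine ⟨e, ((le_max_left _ _).trans_lt he).le, ?_⟩
    have h1 := (le_max_right _ _).trans_lt he
    rw [div_lt_iff₀ (by positivity)] at h1
    rw [div_lt_iff₀ (by positivity)]
    linarith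
  -- the points
  have he0 : (0 : ℝ) < 2 ^ e := by positivity
  let w : Fin s → ℂ := fun j => (((j : ℕ) + 1 : ℕ) : ℂ) / 2 ^ e
  have hw : ∀ j, ‖w j‖ = (((j : ℕ) + 1 : ℕ) : ℝ) / 2 ^ e := by
    intro j
    simp only [w]
    rw [norm_div, Complex.norm_natCast, norm_pow]
    simp
  have hjs : ∀ j : Fin s, (((j : ℕ) + 1 : ℕ) : ℝ) ≤ s := by
    intro j
    exact_mod_cast j.2
  have hw1 : ∀ j, ‖w j‖ ≤ 1 := by
    intro j
    rw [hw, div_le_one he0]
    exact (hjs j).trans he1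
  have hpn : ∀ j, ‖w j • l‖ < P.r / 4 := by
    intro j
    rw [norm_smul, hw]
    refine lt_of_le_of_lt ?_ he2
    rw [div_mul_eq_mul_div]
    apply div_le_div_of_nonneg_right _ he0.le
    exact mul_le_mul_of_nonneg_right (hjs j) hlpos.le
  have hpb : ∀ j, w j • l ∈ ball (0 : Fin (m + 1) → ℂ) P.r := by
    intro j
    rw [mem_ball_zero_iff]
    have := hpn j
    have := P.hr
    linarith
  let pt : Fin s → P.Bl := fun j => ⟨w j • l, hpb j⟩
  have halg : ∀ j, ∀ g, IsAlgebraic ℚ (P.bv (pt j) g) := by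
    intro j
    apply hP.alg_tors P e (w j • l)
    · rw [mem_ball_zero_iff]
      have := hpn j
      have := P.hr
      linarith
    · have h1 : ((2 : ℂ) ^ e) • (w j • l) = ((j : ℕ) + 1) • l := by
        rw [smul_smul]
        simp only [w]
        rw [mul_div_cancel₀ _ (pow_ne_zero e two_ne_zero), Nat.cast_smul_eq_nsmul]
      rw [h1]
      exact AddSubgroup.nsmul_mem _ hl _
  have hinj : Function.Injective (fun j => P.ev (pt j)) := by
    intro j j' h
    have h1 : pt j = pt j' := Main.ev_inj P h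
    have h2 : w j • l = w j' • l := congrArg Subtype.val h1
    have h3 : w j = w j' := smul_left_injective ℂ hl0 h2
    have h4 : (((j : ℕ) + 1 : ℕ) : ℂ) = (((j' : ℕ) + 1 : ℕ) : ℂ) := by
      simp only [w] at h3
      have h5 : ((2 : ℂ) ^ e) ≠ 0 := pow_ne_zero e two_ne_zero
      field_simp at h3
      exact_mod_cast h3
    have h5 : (j : ℕ) + 1 = (j' : ℕ) + 1 := by exact_mod_cast h4
    exact Fin.ext (by omega)
  -- the constants of the lower and upper bounds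
  choose c2 hc2 hlow using fun j => hP.lower P A hA u (pt j) (halg j)
  obtain ⟨c3, hc3, hup⟩ := hP.upper P A hA u l hl hlast
  obtain ⟨c, hc⟩ : ∃ c : ℕ, c = ∑ j, c2 j := ⟨_, rfl⟩
  have hc2c : ∀ j, c2 j ≤ c := by
    intro j
    rw [hc]
    exact Finset.single_le_sum (f := c2) (fun _ _ => Nat.zero_le _) (Finset.mem_univ j)
  obtain ⟨b, hb, hBb⟩ : ∃ b : ℕ, 2 ≤ b ∧ P.B ≤ b :=
    ⟨max 2 ⌈P.B⌉₊, le_max_left _ _, (Nat.le_ceil _).trans (by exact_mod_cast le_max_right _ _)⟩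
  obtain ⟨K, hK⟩ := Main.num c1 c m b hc1 hb c3 P.B hc3 P.hB hBb
  -- the parameters
  obtain ⟨k, hk⟩ : ∃ k : ℕ, k = max K (3 * C * cH + 1) := ⟨_, rfl⟩
  have hkK : K ≤ k := by rw [hk]; exact le_max_left _ _
  have hkC : 3 * C * cH + 1 ≤ k := by rw [hk]; exact le_max_right _ _
  obtain ⟨n, hn⟩ : ∃ n : ℕ, n = b ^ k := ⟨_, rfl⟩
  obtain ⟨T, hT⟩ : ∃ T : ℕ, T = c1 * n ^ (m + 1) := ⟨_, rfl⟩
  obtain ⟨L, hL⟩ : ∃ L : ℕ, L = c1 * n ^ m := ⟨_, rfl⟩
  have hnk : k < n := by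
    rw [hn]
    exact Nat.lt_pow_self (by omega)
  have hn2 : 2 ≤ n := by omega
  have hLn : T = L * n := by rw [hT, hL, pow_succ]; ring
  have hL1 : 1 ≤ L := by
    rw [hL]
    exact Nat.mul_pos hc1 (by positivity)
  have hLT : L ≤ T := by
    rw [hLn]
    exact Nat.le_mul_of_pos_right _ (by omega)
  have hT2 : 2 ≤ T := by
    rw [hLn]
    nlinarith
  have hLT' : L ^ (m + 1) = c1 * T ^ m := by
    rw [hL, hT, _root_.mul_pow, _root_.mul_pow, ← pow_mul, ← pow_mul, pow_succ c1 m, Nat.mul_comm m (m + 1)]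
    ring
  obtain ⟨p, hp0, hpd, hpc, hpo⟩ := hS L T hL1 hLT hLT'.ge
  obtain ⟨H, hH⟩ : ∃ H : ℝ, H = ((c1 : ℝ) * (T + 1)) ^ (c1 * T) := ⟨_, rfl⟩
  rw [← hH] at hpc
  have hc1r : (1 : ℝ) ≤ c1 := by exact_mod_cast hc1
  have hTr : (0 : ℝ) ≤ T := Nat.cast_nonneg _
  have hH1 : 1 ≤ H := by
    rw [hH]
    apply one_le_pow₀
    nlinarith
  have hKk := hK k hkK n T L hn hT hL
  rw [← hH] at hKk
  -- the auxiliary polynomial vanishes at the points
  have claim : ∀ j, ∀ d : ℕ, ∀ i : List (Fin m), i.length = d → 2 * d ≤ T →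
      P.ev (pt j) (A.vw i (P.U u p)) = 0 := by
    intro j d
    induction d using Nat.strong_induction_on with
    | _ d ih =>
      intro i hi hd
      by_contra hne
      have h1 := hup T L k H p (by omega) hH1 hLT hpd hpc hpo (pt j) (w j)
        (by have := hpn j; have := P.hr; change ‖w j • l‖ < P.r / 2; linarith) (hw1 j) rfl i
        (by rw [hi]; exact hd)
        (fun i' hi' => ih i'.length (by omega) i' rfl (by omega))
      have h2 := hlow j T H p hH1 (hpd.trans hLT) hpc (i.map Fin.castSucc)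
        (by rw [List.length_map]; omega) hne
      have h3 : (H * ((c2 j : ℝ) * (T + 1)) ^ T) ^ c2 j ≤ (H * ((c : ℝ) * (T + 1)) ^ T) ^ c := by
        have hc2r : (1 : ℝ) ≤ c2 j := by exact_mod_cast hc2 j
        have hcr : (c2 j : ℝ) ≤ c := by exact_mod_cast hc2c j
        have h4 : H * ((c2 j : ℝ) * (T + 1)) ^ T ≤ H * ((c : ℝ) * (T + 1)) ^ T := by
          apply mul_le_mul_of_nonneg_left _ (by linarith)
          apply pow_le_pow_left₀ (by positivity)
          exact mul_le_mul_of_nonneg_right hcr (by positivity)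
        have h5 : 1 ≤ H * ((c2 j : ℝ) * (T + 1)) ^ T := by
          apply one_le_mul_of_one_le_of_one_le hH1
          apply one_le_pow₀
          nlinarith
        calc (H * ((c2 j : ℝ) * (T + 1)) ^ T) ^ c2 j ≤ (H * ((c2 j : ℝ) * (T + 1)) ^ T) ^ c :=
              pow_le_pow_right₀ h5 (hc2c j)
          _ ≤ _ := pow_le_pow_left₀ (by positivity) h4 _
      have h6 : ‖P.ev (pt j) (A.vw i (P.U u p))‖ * (H * ((c2 j : ℝ) * (T + 1)) ^ T) ^ c2 j ≤
          H * Real.exp (c3 * T * Real.log (T + 1) + c3 * L * P.B ^ k - T * 2 ^ k / c3) *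
            (H * ((c : ℝ) * (T + 1)) ^ T) ^ c :=
        mul_le_mul h1 h3 (by positivity) (by positivity)
      have h7 : 1 ≤ ‖P.ev (pt j) (A.vw i (P.U u p))‖ * (H * ((c2 j : ℝ) * (T + 1)) ^ T) ^ c2 j := h2
      linarith
  -- the zero estimate
  have hT3 : T ≤ 3 * (T / 2) := by omega
  have hzero := hZ (cH * L) (T / 2) (Nat.mul_pos hcH hL1) (by
      have h1 : L * (3 * C * cH) ≤ T := by
        rw [hLn]
        exact Nat.mul_le_mul_left _ (by omega)
      have h2 : 3 * (C * (cH * L)) ≤ 3 * (T / 2) := by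
        calc 3 * (C * (cH * L)) = L * (3 * C * cH) := by ring
          _ ≤ T := h1
          _ ≤ _ := hT3
      omega)
    (P.U u p) (hUle L p hpd) (fun h => hp0 (hu p h))
    (Finset.univ.image fun j => P.ev (pt j))
    (by
      intro σ hσ
      obtain ⟨j, -, rfl⟩ := Finset.mem_image.mp hσ
      exact hP.arcOK P hN A hA (pt j) (hpn j))
    (by
      intro σ hσ
      obtain ⟨j, -, rfl⟩ := Finset.mem_image.mp hσ
      intro i hi
      exact claim j i.length i rfl (by omega))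
  rw [Finset.card_image_of_injective _ hinj, Finset.card_univ, Fintype.card_fin] at hzero
  -- the final contradiction
  have h1 : s * T ^ m ≤ 3 ^ m * (C * cH ^ (m + 1) * c1) * T ^ m := by
    calc s * T ^ m ≤ s * (3 * (T / 2)) ^ m := Nat.mul_le_mul_left _ (Nat.pow_le_pow_left hT3 m)
      _ = 3 ^ m * (s * (T / 2) ^ m) := by rw [_root_.mul_pow]; ring
      _ ≤ 3 ^ m * (C * (cH * L) ^ (m + 1)) := Nat.mul_le_mul_left _ hzero
      _ = 3 ^ m * (C * cH ^ (m + 1) * c1) * T ^ m := by rw [_root_.mul_pow, hLT']; ring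
  have h2 : s ≤ 3 ^ m * (C * cH ^ (m + 1) * c1) :=
    Nat.le_of_mul_le_mul_right h1 (by positivity)
  omega

end Pool.Agent.WW
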