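import Pool.Agent.WW.PA

set_option autoImplicit false

namespace Pool.Agent.WW

open MvPolynomial Metric

variable {π ι : Type} [Fintype π] [Fintype ι] [DecidableEq π] [DecidableEq ι] (P : Pkg π ι)

namespace PB

/-- induction on the elements of the ring -/
theorem rg_induction {p : P.Rg → Prop} (hg : ∀ g, p (P.gr g)) (hc : ∀ c, p (algebraMap ℂ P.Rg c))
    (ha : ∀ x y, p x → p y → p (x + y)) (hm : ∀ x y, p x → p y → p (x * y)) (f : P.Rg) : p f := by
  obtain ⟨f, hf⟩ := f
  have hf' : f ∈ Algebra.adjoin ℂ (Set.range P.gn) := hf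
  induction hf' using Algebra.adjoin_induction with
  | mem x hx =>
    obtain ⟨g, rfl⟩ := hx
    exact hg g
  | algebraMap r => exact hc r
  | add x y hx hy h1 h2 => exact ha ⟨x, hx⟩ ⟨y, hy⟩ (h1 hx) (h2 hy)
  | mul x y hx hy h1 h2 => exact hm ⟨x, hx⟩ ⟨y, hy⟩ (h1 hx) (h2 hy)

/-- the coordinate `x_i` of the ring -/
noncomputable abbrev xg (i : π) : P.Rg := P.gr (some (Sum.inl i))

/-- the coordinate `y_i` of the ring -/
noncomputable abbrev yg (i : π) : P.Rg := P.gr (some (Sum.inr i))

theorem gr_apply (g : Gx π) (z : P.Bl) : (P.gr g : P.Bl → ℂ) z = P.bv z g := rfl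

/-- the equation of the curve -/
theorem y_pow (i : π) : yg P i ^ P.D i = xg P i ^ P.j i * (1 - xg P i) ^ P.k i := by
  apply Subtype.ext
  funext z
  have h1 : ((yg P i ^ P.D i : P.Rg) : P.Bl → ℂ) z
      = (P.s i * ybr (P.D i) (P.j i) (P.k i) (P.ξ z i)) ^ P.D i := rfl
  have h2 : ((xg P i ^ P.j i * (1 - xg P i) ^ P.k i : P.Rg) : P.Bl → ℂ) z
      = (1 / 2 + P.ξ z i) ^ P.j i * (1 - (1 / 2 + P.ξ z i)) ^ P.k i := rfl
  rw [h1, h2]
  have hD : P.D i ≠ 0 := by
    have := (P.hD i).1
    omega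
  have hDC : (P.D i : ℂ) ≠ 0 := by exact_mod_cast hD
  unfold ybr
  rw [mul_pow, P.hs i, one_mul, mul_pow, ← Complex.cpow_nat_mul, ← Complex.cpow_nat_mul,
    mul_div_cancel₀ _ hDC, mul_div_cancel₀ _ hDC, Complex.cpow_natCast, Complex.cpow_natCast]
  congr 2
  ring

/-- `x_i (1 - x_i)` is a unit -/
theorem x_unit (hP : P.Ok) (i : π) :
    aeval P.gr (P.ux i) * (xg P i * (1 - xg P i)) = 1 := by
  apply Subtype.ext
  funext z
  have h1 : ((aeval P.gr (P.ux i) * (xg P i * (1 - xg P i)) : P.Rg) : P.Bl → ℂ) z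
      = ((aeval P.gr (P.ux i) : P.Rg) : P.Bl → ℂ) z *
        ((1 / 2 + P.ξ z i) * (1 - (1 / 2 + P.ξ z i))) := rfl
  rw [h1, Pkg.aeval_gr]
  have h2 := hP.ux z z.2 i
  have h3 : (1 : ℂ) - (1 / 2 + P.ξ z i) = 1 / 2 - P.ξ z i := by ring
  rw [h3, h2]
  rfl

/-- the denominator as an element of the ring -/
noncomputable abbrev dn : P.Rg := aeval P.gr (rename some P.δ)

theorem dn_apply (z : P.Bl) : ((dn P : P.Rg) : P.Bl → ℂ) z
    = eval (Sum.elim (fun i => 1 / 2 + P.ξ z i)
        (fun i => P.s i * ybr (P.D i) (P.j i) (P.k i) (P.ξ z i))) P.δ := by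
  unfold dn
  rw [Pkg.aeval_gr, eval_rename]
  congr 2
  funext g
  rcases g with g | g <;> rfl

theorem dn_mul : P.gr none * dn P = 1 := by
  apply Subtype.ext
  funext z
  have h1 : ((P.gr none * dn P : P.Rg) : P.Bl → ℂ) z
      = (P.gr none : P.Bl → ℂ) z * ((dn P : P.Rg) : P.Bl → ℂ) z := rfl
  rw [h1, dn_apply, gr_apply]
  exact inv_mul_cancel₀ (P.δne z z.2)

end PB

open PB

/-- (PB1) the ring is algebraic over the polynomials in the `x_i` -/
theorem Pkg.Ok.alg (hP : P.Ok) (f : P.Rg) :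
    IsAlgebraic (Algebra.adjoin ℂ (Set.range fun i => P.gr (some (Sum.inl i)))) f := by
  have : IsDomain P.Rg := hP.dom
  set A := Algebra.adjoin ℂ (Set.range fun i => P.gr (some (Sum.inl i))) with hA
  have hx : ∀ i, P.gr (some (Sum.inl i)) ∈ A := fun i => Algebra.subset_adjoin ⟨i, rfl⟩
  have hmem : ∀ a ∈ A, IsAlgebraic A a := by
    intro a ha
    have := isAlgebraic_algebraMap (R := A) (A := P.Rg) (⟨a, ha⟩ : A)
    exact this
  have hxa : ∀ i, IsAlgebraic A (P.gr (some (Sum.inl i))) := fun i => hmem _ (hx i)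
  have hya : ∀ i, IsAlgebraic A (P.gr (some (Sum.inr i))) := by
    intro i
    have hD : 0 < P.D i := by
      have := (P.hD i).1
      omega
    have h1 : xg P i ^ P.j i * (1 - xg P i) ^ P.k i ∈ A :=
      mul_mem (pow_mem (hx i) _) (pow_mem (sub_mem (one_mem _) (hx i)) _)
    have h2 : IsIntegral A (yg P i ^ P.D i) := by
      rw [y_pow]
      exact isIntegral_algebraMap (R := A) (A := P.Rg) (x := (⟨_, h1⟩ : A))
    exact (IsIntegral.of_pow hD h2).isAlgebraic
  have hadd : ∀ x y : P.Rg, IsAlgebraic A x → IsAlgebraic A y → IsAlgebraic A (x + y) :=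
    fun x y h1 h2 => h1.add h2
  have hmul : ∀ x y : P.Rg, IsAlgebraic A x → IsAlgebraic A y → IsAlgebraic A (x * y) :=
    fun x y h1 h2 => h1.mul h2
  have hc : ∀ c, IsAlgebraic A (algebraMap ℂ P.Rg c) := fun c => hmem _ (A.algebraMap_mem c)
  have hdn : IsAlgebraic A (dn P) := by
    unfold dn
    rw [aeval_rename]
    induction P.δ using MvPolynomial.induction_on with
    | C a => rw [aeval_C]; exact hc a
    | add p q h1 h2 => rw [map_add]; exact hadd _ _ h1 h2
    | mul_X p n h =>
      rw [map_mul, aeval_X]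
      apply hmul _ _ h
      rcases n with n | n
      · exact hxa n
      · exact hya n
  have hz : IsAlgebraic A (P.gr none) := by
    let _ : Invertible (dn P) := ⟨P.gr none, dn_mul P, by rw [mul_comm]; exact dn_mul P⟩
    exact hdn.invOf
  refine rg_induction P ?_ hc hadd hmul f
  rintro (_ | g | g)
  · exact hz
  · exact hxa g
  · exact hya g

/-- (PB2) the ring is unramified over the polynomials in the `x_i` -/
theorem Pkg.Ok.unr (hP : P.Ok) (F : Type) [Field F] [Algebra ℂ F] (ψ : P.Rg →ₐ[ℂ] F)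
    (D : P.Rg →ₗ[ℂ] F) (hD : ∀ f g, D (f * g) = ψ f * D g + ψ g * D f)
    (hx : ∀ i, D (P.gr (some (Sum.inl i))) = 0) : D = 0 := by
  have : CharZero F := charZero_of_injective_algebraMap (algebraMap ℂ F).injective
  have h1 : D 1 = 0 := by
    have := hD 1 1
    simp only [mul_one, map_one, one_mul] at this
    have h := this.symm
    rwa [add_eq_left] at h
  have hc : ∀ c, D (algebraMap ℂ P.Rg c) = 0 := by
    intro c
    rw [Algebra.algebraMap_eq_smul_one, map_smul, h1, smul_zero]
  have hadd : ∀ x y : P.Rg, D x = 0 → D y = 0 → D (x + y) = 0 := by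
    intro x y h2 h3
    rw [map_add, h2, h3, add_zero]
  have hmul : ∀ x y : P.Rg, D x = 0 → D y = 0 → D (x * y) = 0 := by
    intro x y h2 h3
    rw [hD, h2, h3, mul_zero, mul_zero, add_zero]
  have hpow : ∀ (x : P.Rg) (n : ℕ), D (x ^ (n + 1)) = (n + 1 : ℕ) * (ψ x ^ n * D x) := by
    intro x n
    induction n with
    | zero => simp
    | succ n ih =>
      rw [pow_succ, hD, ih, map_pow]
      push_cast
      ring
  have hpow0 : ∀ (x : P.Rg) (n : ℕ), D x = 0 → D (x ^ n) = 0 := by
    intro x n h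
    rcases n with _ | n
    · rw [pow_zero]; exact h1
    · rw [hpow, h]; ring
  have hy : ∀ i, D (P.gr (some (Sum.inr i))) = 0 := by
    intro i
    have hD0 : 3 ≤ P.D i := (P.hD i).1
    obtain ⟨n, hn⟩ : ∃ n, P.D i = n + 1 := ⟨P.D i - 1, by omega⟩
    have e1 := y_pow P i
    have e2 : D (yg P i ^ P.D i) = 0 := by
      rw [e1]
      apply hmul
      · exact hpow0 _ _ (hx i)
      · apply hpow0
        have := hadd 1 (-(xg P i)) h1 (by rw [map_neg]; rw [hx i, neg_zero])
        rwa [← sub_eq_add_neg] at this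
    rw [hn, hpow] at e2
    have e3 : ψ (yg P i) ≠ 0 := by
      intro h0
      have e4 : ψ (yg P i ^ P.D i) = 0 := by rw [map_pow, h0, hn, zero_pow (by omega)]
      rw [e1, map_mul, map_pow, map_pow] at e4
      have e5 := congrArg ψ (x_unit P hP i)
      rw [map_mul, map_mul, map_one] at e5
      rcases mul_eq_zero.1 e4 with h | h
      · have h := pow_eq_zero_iff (P.hD i).2.1.ne' |>.1 h
        rw [h, zero_mul, mul_zero] at e5
        exact zero_ne_one e5
      · have h := pow_eq_zero_iff (P.hD i).2.2.1.ne' |>.1 h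
        rw [h, mul_zero, mul_zero] at e5
        exact zero_ne_one e5
    rcases mul_eq_zero.1 e2 with h | h
    · exact absurd h (by exact_mod_cast Nat.succ_ne_zero n)
    · rcases mul_eq_zero.1 h with h | h
      · exact absurd (pow_eq_zero_iff (n := n) (by omega) |>.1 h) e3
      · exact h
  have hdn : D (dn P) = 0 := by
    unfold dn
    rw [aeval_rename]
    induction P.δ using MvPolynomial.induction_on with
    | C a => rw [aeval_C]; exact hc a
    | add p q h1 h2 => rw [map_add]; exact hadd _ _ h1 h2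
    | mul_X p n h =>
      rw [map_mul, aeval_X]
      apply hmul _ _ h
      rcases n with n | n
      · exact hx n
      · exact hy n
  have hz : D (P.gr none) = 0 := by
    have e1 := congrArg D (dn_mul P)
    rw [h1, hD, hdn, mul_zero, zero_add] at e1
    have e2 := congrArg ψ (dn_mul P)
    rw [map_mul, map_one] at e2
    rcases mul_eq_zero.1 e1 with h | h
    · rw [h, mul_zero] at e2
      exact absurd e2 zero_ne_one
    · exact h
  apply LinearMap.ext
  intro f
  change D f = 0
  refine rg_induction P ?_ hc hadd hmul f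
  rintro (_ | g | g)
  · exact hz
  · exact hx g
  · exact hy g

end Pool.Agent.WW
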