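import Pool.Agent.WW.ZDefs

/-!
The package: local algebraic coordinates on an abelian variety, its abelian functions `H`, their
addition law, their meromorphic continuation with growth control, and a lattice of periods.
-/

set_option autoImplicit false

namespace Pool.Agent.WW

open MvPolynomial Metric

noncomputable section

/-- all coefficients are algebraic numbers -/
def AlgC {τ : Type} (p : MvPolynomial τ ℂ) : Prop := ∀ a, IsAlgebraic ℚ (p.coeff a)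

/-- the principal branch of `y = x^(j/D) (1-x)^(k/D)` at `x = 1/2 + s` -/
def ybr (D j k : ℕ) (s : ℂ) : ℂ := (1 / 2 + s) ^ ((j : ℂ) / D) * (1 / 2 - s) ^ ((k : ℂ) / D)

/-- index type of the ring generators `1/δ`, `x_i`, `y_i` -/
abbrev Gx (π : Type) := Option (π ⊕ π)

/-- The package.  `π` indexes the points of the curves (`i : π` lies on `y^D = x^j (1-x)^k` near
`x = 1/2`), `ι` indexes the linear coordinates `z`. -/
structure Pkg (π ι : Type) [Fintype π] [Fintype ι] [DecidableEq π] [DecidableEq ι] where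
  D : π → ℕ
  j : π → ℕ
  k : π → ℕ
  hD : ∀ i, 3 ≤ D i ∧ 0 < j i ∧ 0 < k i ∧ j i + k i < D i ∧ Nat.gcd (Nat.gcd (j i) (k i)) (D i) = 1
  /-- the sheets -/
  s : π → ℂ
  hs : ∀ i, s i ^ D i = 1
  /-- radius -/
  r : ℝ
  hr : 0 < r
  /-- the local chart `z ↦ ξ(z)`, `x_i = 1/2 + ξ_i` -/
  ξ : (ι → ℂ) → (π → ℂ)
  ξana : DifferentiableOn ℂ ξ (ball 0 r)
  ξ0 : ξ 0 = 0
  ξinj : Set.InjOn ξ (ball 0 r)
  ξle : ∀ z ∈ ball (0 : ι → ℂ) r, ∀ i, ‖ξ z i‖ < 1 / 4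
  /-- the denominator -/
  δ : MvPolynomial (π ⊕ π) ℂ
  δalg : AlgC δ
  δne : ∀ z ∈ ball (0 : ι → ℂ) r,
    eval (Sum.elim (fun i => 1 / 2 + ξ z i) (fun i => s i * ybr (D i) (j i) (k i) (ξ z i))) δ ≠ 0
  /-- `x_i (1 - x_i)` divides a power of the denominator: its inverse as a polynomial -/
  ux : π → MvPolynomial (Gx π) ℂ
  uxalg : ∀ i, AlgC (ux i)
  /-- the derivative of the chart and its inverse as polynomials in the generators -/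
  Jf : π → ι → MvPolynomial (Gx π) ℂ
  Jb : ι → π → MvPolynomial (Gx π) ℂ
  Jfalg : ∀ i t, AlgC (Jf i t)
  Jbalg : ∀ t i, AlgC (Jb t i)
  /-- finite set of abelian functions as polynomials in the generators -/
  μ : Type
  [μf : Fintype μ]
  [μd : DecidableEq μ]
  H : μ → MvPolynomial (Gx π) ℂ
  Halg : ∀ a, AlgC (H a)
  /-- addition law -/
  ad0 : MvPolynomial (μ ⊕ μ) ℂ
  ad : μ → MvPolynomial (μ ⊕ μ) ℂ
  ad0alg : AlgC ad0
  adalg : ∀ a, AlgC (ad a)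
  /-- continuation -/
  B : ℝ
  hB : 1 ≤ B
  Cg : ℝ
  hCg : 0 ≤ Cg
  G0 : ℕ → (ι → ℂ) → ℂ
  G : ℕ → μ → (ι → ℂ) → ℂ
  /-- periods -/
  Λ : AddSubgroup (ι → ℂ)

attribute [instance] Pkg.μf Pkg.μd

namespace Pkg

variable {π ι : Type} [Fintype π] [Fintype ι] [DecidableEq π] [DecidableEq ι] (P : Pkg π ι)

/-- values of the generators -/
def bv (z : ι → ℂ) : Gx π → ℂ
  | none => (eval (Sum.elim (fun i => 1 / 2 + P.ξ z i)
      (fun i => P.s i * ybr (P.D i) (P.j i) (P.k i) (P.ξ z i))) P.δ)⁻¹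
  | some (Sum.inl i) => 1 / 2 + P.ξ z i
  | some (Sum.inr i) => P.s i * ybr (P.D i) (P.j i) (P.k i) (P.ξ z i)

/-- values of the abelian functions -/
def h (z : ι → ℂ) (a : P.μ) : ℂ := eval (P.bv z) (P.H a)

/-- the properties of a package -/
structure Ok : Prop where
  ux : ∀ z ∈ ball (0 : ι → ℂ) P.r, ∀ i,
    eval (P.bv z) (P.ux i) * ((1 / 2 + P.ξ z i) * (1 / 2 - P.ξ z i)) = 1
  Jf : ∀ z ∈ ball (0 : ι → ℂ) P.r, ∀ i t,
    fderiv ℂ (fun w => P.ξ w i) z (Pi.single t 1) = eval (P.bv z) (P.Jf i t)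
  Jfb : ∀ z ∈ ball (0 : ι → ℂ) P.r, ∀ i i',
    ∑ t, eval (P.bv z) (P.Jf i t) * eval (P.bv z) (P.Jb t i') = if i = i' then 1 else 0
  Jbf : ∀ z ∈ ball (0 : ι → ℂ) P.r, ∀ t t',
    ∑ i, eval (P.bv z) (P.Jb t i) * eval (P.bv z) (P.Jf i t') = if t = t' then 1 else 0
  ad0 : ∀ z ∈ ball (0 : ι → ℂ) (P.r / 2), ∀ w ∈ ball (0 : ι → ℂ) (P.r / 2),
    eval (Sum.elim (P.h z) (P.h w)) P.ad0 ≠ 0
  ad : ∀ z ∈ ball (0 : ι → ℂ) (P.r / 2), ∀ w ∈ ball (0 : ι → ℂ) (P.r / 2), ∀ a,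
    P.h (z + w) a * eval (Sum.elim (P.h z) (P.h w)) P.ad0 = eval (Sum.elim (P.h z) (P.h w)) (P.ad a)
  imm : ∃ u : ι → P.μ,
    (Matrix.of fun t t' => fderiv ℂ (fun w => P.h w (u t')) 0 (Pi.single t 1)).det ≠ 0
  G0ana : ∀ n, DifferentiableOn ℂ (P.G0 n) (ball 0 (2 ^ n * P.r))
  Gana : ∀ n a, DifferentiableOn ℂ (P.G n a) (ball 0 (2 ^ n * P.r))
  G0le : ∀ n, ∀ z ∈ ball (0 : ι → ℂ) (2 ^ n * P.r), ‖P.G0 n z‖ ≤ Real.exp (P.Cg * P.B ^ n)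
  Gle : ∀ n a, ∀ z ∈ ball (0 : ι → ℂ) (2 ^ n * P.r), ‖P.G n a z‖ ≤ Real.exp (P.Cg * P.B ^ n)
  G0ge : ∀ n, ∀ z ∈ ball (0 : ι → ℂ) P.r, Real.exp (-(P.Cg * P.B ^ n)) ≤ ‖P.G0 n z‖
  Geq : ∀ n a, ∀ z ∈ ball (0 : ι → ℂ) P.r, P.G n a z = P.h z a * P.G0 n z
  per : ∀ l ∈ P.Λ, ∀ n, ‖l‖ + P.r ≤ 2 ^ n * P.r → ∀ z ∈ ball (0 : ι → ℂ) P.r, ∀ a,
    P.G n a (l + z) * P.G0 n z = P.G n a z * P.G0 n (l + z)
  full : Submodule.span ℝ (P.Λ : Set (ι → ℂ)) = ⊤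

end Pkg

end

end Pool.Agent.WW
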