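import Pool.Agent.WW.PDefs

/-!
The ring of a package as a ring of functions on the ball.
-/

set_option autoImplicit false

namespace Pool.Agent.WW

open MvPolynomial Metric

noncomputable section

namespace Pkg

variable {π ι : Type} [Fintype π] [Fintype ι] [DecidableEq π] [DecidableEq ι] (P : Pkg π ι)

/-- the ball as a type -/
abbrev Bl : Type := ball (0 : ι → ℂ) P.r

/-- the generators as functions on the ball -/
def gn (g : Gx π) : P.Bl → ℂ := fun z => P.bv z g

/-- the ring of a package -/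
def Rg : Subalgebra ℂ (P.Bl → ℂ) := Algebra.adjoin ℂ (Set.range P.gn)

/-- the generators as elements of the ring -/
def gr (g : Gx π) : P.Rg := ⟨P.gn g, Algebra.subset_adjoin ⟨g, rfl⟩⟩

/-- evaluation at a point -/
def ev (z : P.Bl) : P.Rg →ₐ[ℂ] ℂ where
  toFun f := (f : P.Bl → ℂ) z
  map_one' := rfl
  map_mul' _ _ := rfl
  map_zero' := rfl
  map_add' _ _ := rfl
  commutes' _ := rfl

open Classical in
/-- extension by zero of a function on the ball -/
def ext (f : P.Bl → ℂ) (z : ι → ℂ) : ℂ := if hz : z ∈ ball (0 : ι → ℂ) P.r then f ⟨z, hz⟩ else 0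

/-- the abelian functions as elements of the ring -/
def hr' (a : P.μ) : P.Rg := aeval P.gr (P.H a)

/-- `d t` is the partial derivative with respect to `z_t` -/
def IsPd (d : ι → Derivation ℂ P.Rg P.Rg) : Prop :=
  ∀ t f (z : P.Bl), (d t f : P.Bl → ℂ) z = fderiv ℂ (P.ext f) (z : ι → ℂ) (Pi.single t 1)

/-- the hyperplane `z_last = 0` contains no complex subspace spanned over the reals by periods -/
def NoSub {π : Type} [Fintype π] [DecidableEq π] {m : ℕ} (P : Pkg π (Fin (m + 1))) : Prop :=
  ∀ N : Submodule ℂ (Fin (m + 1) → ℂ), N ≠ ⊥ → (∀ z ∈ N, z (Fin.last m) = 0) →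
    Submodule.span ℝ {z : Fin (m + 1) → ℂ | z ∈ N ∧ z ∈ P.Λ} ≠ N.restrictScalars ℝ

end Pkg

end

end Pool.Agent.WW
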