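import Pool.Agent.WW.PDefs

set_option autoImplicit false

namespace Pool.Agent.WW

open MvPolynomial Metric

/-- (PS) a package can be restricted to a smaller ball -/
theorem Pkg.Ok.shrink {π ι : Type} [Fintype π] [Fintype ι] [DecidableEq π] [DecidableEq ι]
    (P : Pkg π ι) (hP : P.Ok) (r' : ℝ) (h0 : 0 < r') (h1 : r' ≤ P.r) :
    ∃ P' : Pkg π ι, P'.Ok ∧ P'.r = r' ∧ P'.Λ = P.Λ := by
  have hb : ball (0 : ι → ℂ) r' ⊆ ball 0 P.r := ball_subset_ball h1
  have hb2 : ball (0 : ι → ℂ) (r' / 2) ⊆ ball 0 (P.r / 2) := ball_subset_ball (by linarith)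
  have hbn : ∀ n : ℕ, ball (0 : ι → ℂ) (2 ^ n * r') ⊆ ball 0 (2 ^ n * P.r) := fun n =>
    ball_subset_ball (mul_le_mul_of_nonneg_left h1 (by positivity))
  let P' : Pkg π ι :=
    { P with
      r := r'
      hr := h0
      ξana := P.ξana.mono hb
      ξinj := P.ξinj.mono hb
      ξle := fun z hz => P.ξle z (hb hz)
      δne := fun z hz => P.δne z (hb hz) }
  refine ⟨P', ?_, rfl, rfl⟩
  exact
    { ux := fun z hz => hP.ux z (hb hz)
      Jf := fun z hz => hP.Jf z (hb hz)
      Jfb := fun z hz => hP.Jfb z (hb hz)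
      Jbf := fun z hz => hP.Jbf z (hb hz)
      ad0 := fun z hz w hw => hP.ad0 z (hb2 hz) w (hb2 hw)
      ad := fun z hz w hw => hP.ad z (hb2 hz) w (hb2 hw)
      imm := hP.imm
      G0ana := fun n => (hP.G0ana n).mono (hbn n)
      Gana := fun n a => (hP.Gana n a).mono (hbn n)
      G0le := fun n z hz => hP.G0le n z (hbn n hz)
      Gle := fun n a z hz => hP.Gle n a z (hbn n hz)
      G0ge := fun n z hz => hP.G0ge n z (hb hz)
      Geq := fun n a z hz => hP.Geq n a z (hb hz)
      per := by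
        intro l hl n hn z hz a
        refine hP.per l hl n ?_ z (hb hz) a
        have h2 : (1 : ℝ) ≤ 2 ^ n := one_le_pow₀ (by norm_num)
        have h3 : ‖l‖ ≤ (2 ^ n - 1) * r' := by
          have h4 : ‖l‖ + r' ≤ 2 ^ n * r' := hn
          linarith
        have h5 : (2 ^ n - 1) * r' ≤ (2 ^ n - 1) * P.r :=
          mul_le_mul_of_nonneg_left h1 (by linarith)
        linarith
      full := hP.full }

end Pool.Agent.WW
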