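import Pool.Agent.WW.ZDefs

set_option autoImplicit false

namespace Pool.Agent.WW

open Finset PowerSeries

/-- weighted partial sums of the coefficients -/
noncomputable def psS (ρ : ℝ) (n : ℕ) (a : PowerSeries ℂ) : ℝ :=
  ∑ k ∈ range n, ‖coeff k a‖ * ρ ^ k

lemma psS_nonneg {ρ : ℝ} (hρ : 0 ≤ ρ) (n : ℕ) (a : PowerSeries ℂ) : 0 ≤ psS ρ n a :=
  Finset.sum_nonneg fun k _ => mul_nonneg (norm_nonneg _) (pow_nonneg hρ k)

lemma psS_add {ρ : ℝ} (hρ : 0 ≤ ρ) (n : ℕ) (a b : PowerSeries ℂ) :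
    psS ρ n (a + b) ≤ psS ρ n a + psS ρ n b := by
  unfold psS
  rw [← Finset.sum_add_distrib]
  refine Finset.sum_le_sum fun k _ => ?_
  rw [← add_mul, map_add]
  exact mul_le_mul_of_nonneg_right (norm_add_le _ _) (pow_nonneg hρ k)

lemma psS_sum {ρ : ℝ} (hρ : 0 ≤ ρ) (n : ℕ) {ι : Type*} (s : Finset ι) (a : ι → PowerSeries ℂ) :
    psS ρ n (∑ i ∈ s, a i) ≤ ∑ i ∈ s, psS ρ n (a i) := by
  classical
  induction s using Finset.induction_on with
  | empty => simp [psS]
  | insert i s hi ih =>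
    rw [Finset.sum_insert hi, Finset.sum_insert hi]
    exact (psS_add hρ n _ _).trans (add_le_add le_rfl ih)

lemma psS_mul {ρ : ℝ} (hρ : 0 ≤ ρ) (n : ℕ) (a b : PowerSeries ℂ) :
    psS ρ n (a * b) ≤ psS ρ n a * psS ρ n b := by
  unfold psS
  calc ∑ k ∈ range n, ‖coeff k (a * b)‖ * ρ ^ k
      ≤ ∑ k ∈ range n, ∑ ij ∈ antidiagonal k,
          (‖coeff ij.1 a‖ * ρ ^ ij.1) * (‖coeff ij.2 b‖ * ρ ^ ij.2) := by
        refine Finset.sum_le_sum fun k _ => ?_
        rw [coeff_mul]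
        calc ‖∑ p ∈ antidiagonal k, coeff p.1 a * coeff p.2 b‖ * ρ ^ k
            ≤ (∑ p ∈ antidiagonal k, ‖coeff p.1 a * coeff p.2 b‖) * ρ ^ k :=
              mul_le_mul_of_nonneg_right (norm_sum_le _ _) (pow_nonneg hρ k)
          _ = ∑ ij ∈ antidiagonal k,
              (‖coeff ij.1 a‖ * ρ ^ ij.1) * (‖coeff ij.2 b‖ * ρ ^ ij.2) := by
              rw [Finset.sum_mul]
              refine Finset.sum_congr rfl fun p hp => ?_
              rw [← mem_antidiagonal.mp hp, norm_mul, pow_add]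
              ring
    _ = ∑ ij ∈ (range n).biUnion antidiagonal,
          (‖coeff ij.1 a‖ * ρ ^ ij.1) * (‖coeff ij.2 b‖ * ρ ^ ij.2) := by
        rw [Finset.sum_biUnion]
        intro k _ l _ hkl
        refine Finset.disjoint_left.mpr fun p hp hq => hkl ?_
        rw [← mem_antidiagonal.mp hp, ← mem_antidiagonal.mp hq]
    _ ≤ ∑ ij ∈ range n ×ˢ range n,
          (‖coeff ij.1 a‖ * ρ ^ ij.1) * (‖coeff ij.2 b‖ * ρ ^ ij.2) := by
        refine Finset.sum_le_sum_of_subset_of_nonneg ?_ fun p _ _ =>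
          mul_nonneg (mul_nonneg (norm_nonneg _) (pow_nonneg hρ _))
            (mul_nonneg (norm_nonneg _) (pow_nonneg hρ _))
        intro p hp
        obtain ⟨k, hk, hpk⟩ := Finset.mem_biUnion.mp hp
        have h1 := mem_antidiagonal.mp hpk
        have h2 := Finset.mem_range.mp hk
        rw [Finset.mem_product, Finset.mem_range, Finset.mem_range]
        omega
    _ = (∑ k ∈ range n, ‖coeff k a‖ * ρ ^ k) * ∑ k ∈ range n, ‖coeff k b‖ * ρ ^ k := by
        rw [Finset.sum_mul_sum, Finset.sum_product]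

lemma psS_one {ρ : ℝ} (n : ℕ) : psS ρ n 1 ≤ 1 := by
  unfold psS
  cases n with
  | zero => simp
  | succ n =>
    rw [Finset.sum_range_succ']
    simp [coeff_one]

lemma psS_pow {ρ : ℝ} (hρ : 0 ≤ ρ) (n : ℕ) (a : PowerSeries ℂ) (i : ℕ) :
    psS ρ n (a ^ i) ≤ psS ρ n a ^ i := by
  induction i with
  | zero => simpa using psS_one n
  | succ i ih =>
    rw [pow_succ, pow_succ]
    exact (psS_mul hρ n _ _).trans (mul_le_mul_of_nonneg_right ih (psS_nonneg hρ n a))

lemma psS_X_mul {ρ : ℝ} (n : ℕ) (a : PowerSeries ℂ) :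
    psS ρ (n + 1) (X * a) = ρ * psS ρ n a := by
  unfold psS
  rw [Finset.sum_range_succ', Finset.mul_sum]
  simp only [coeff_succ_X_mul, coeff_zero_X_mul, norm_zero, zero_mul, add_zero]
  exact Finset.sum_congr rfl fun k _ => by ring

/-- power series with summable coefficients -/
def PsB (a : PowerSeries ℂ) : Prop := ∃ M : ℝ, ∀ n, ∑ k ∈ range n, ‖coeff k a‖ ≤ M

lemma PsB.psS_le {a : PowerSeries ℂ} (h : PsB a) :
    ∃ M : ℝ, 0 ≤ M ∧ ∀ ρ : ℝ, 0 ≤ ρ → ρ ≤ 1 → ∀ n, psS ρ n a ≤ M := by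
  obtain ⟨M, hM⟩ := h
  refine ⟨M, by simpa using hM 0, fun ρ h0 h1 n => le_trans ?_ (hM n)⟩
  refine Finset.sum_le_sum fun k _ => ?_
  exact mul_le_of_le_one_right (norm_nonneg _) (pow_le_one₀ h0 h1)

lemma PsB.coe (p : Polynomial ℂ) : PsB (p : PowerSeries ℂ) := by
  refine ⟨∑ k ∈ p.support, ‖p.coeff k‖, fun n => ?_⟩
  simp only [Polynomial.coeff_coe]
  calc ∑ k ∈ range n, ‖p.coeff k‖ ≤ ∑ k ∈ range n ∪ p.support, ‖p.coeff k‖ :=
        Finset.sum_le_sum_of_subset_of_nonneg Finset.subset_union_left fun _ _ _ => norm_nonneg _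
    _ = ∑ k ∈ p.support, ‖p.coeff k‖ := by
        symm
        refine Finset.sum_subset Finset.subset_union_right fun k _ hk => ?_
        rw [Polynomial.notMem_support_iff.mp hk, norm_zero]

lemma PsB.of_X_pow_mul {a : PowerSeries ℂ} (k : ℕ) (h : PsB (X ^ k * a)) : PsB a := by
  obtain ⟨M, hM⟩ := h
  refine ⟨M, fun n => le_trans ?_ (hM (k + n))⟩
  rw [Finset.sum_range_add]
  have h1 : ∀ j, coeff (k + j) (X ^ k * a) = coeff j a := by
    intro j
    rw [add_comm, coeff_X_pow_mul]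
  simp only [h1]
  exact le_add_of_nonneg_left (Finset.sum_nonneg fun _ _ => norm_nonneg _)

lemma PsB.mul_X_pow {a : PowerSeries ℂ} (h : PsB a) (k : ℕ) : PsB (a * X ^ k) := by
  obtain ⟨M, h0, hM⟩ := h.psS_le
  refine ⟨M, fun n => ?_⟩
  have h1 := psS_mul (ρ := 1) zero_le_one n a (X ^ k)
  have h2 : psS 1 n (X ^ k : PowerSeries ℂ) ≤ 1 := by
    refine (psS_pow zero_le_one n X k).trans (pow_le_one₀ (psS_nonneg zero_le_one n _) ?_)
    cases n with
    | zero => simp [psS]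
    | succ n =>
      have := psS_X_mul (ρ := 1) n 1
      rw [mul_one] at this
      rw [this, one_mul]
      exact psS_one n
  have h3 : psS 1 n (a * X ^ k) = ∑ k_1 ∈ range n, ‖coeff k_1 (a * X ^ k)‖ := by
    unfold psS; simp
  rw [← h3]
  calc psS 1 n (a * X ^ k) ≤ psS 1 n a * psS 1 n (X ^ k) := h1
    _ ≤ M * 1 := mul_le_mul (hM 1 zero_le_one le_rfl n) h2 (psS_nonneg zero_le_one n _) h0
    _ = M := mul_one M

lemma PsB.C_mul {a : PowerSeries ℂ} (h : PsB a) (c : ℂ) : PsB (C c * a) := by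
  obtain ⟨M, hM⟩ := h
  refine ⟨‖c‖ * M, fun n => ?_⟩
  simp only [coeff_C_mul, norm_mul]
  rw [← Finset.mul_sum]
  exact mul_le_mul_of_nonneg_left (hM n) (norm_nonneg _)

/-- the majorant argument -/
lemma psS_le_one (u b c : PowerSeries ℂ) (m : ℕ) (d : ℕ → PowerSeries ℂ) (hb : PsB b)
    (hc : PsB c) (hd : ∀ i, PsB (d i))
    (h : u = X * (b + c * u + ∑ i ∈ range m, d i * u ^ (i + 2))) :
    ∃ ρ : ℝ, 0 < ρ ∧ ∀ n, psS ρ n u ≤ 1 := by
  obtain ⟨B, hB0, hB⟩ := hb.psS_le
  obtain ⟨D, hD0, hD⟩ := hc.psS_le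
  choose E hE0 hE using fun i => (hd i).psS_le
  set K : ℝ := B + D + ∑ i ∈ range m, E i with hK
  have hK0 : 0 ≤ K := by
    have := Finset.sum_nonneg fun i (_ : i ∈ range m) => hE0 i
    positivity
  refine ⟨1 / (K + 1), by positivity, ?_⟩
  set ρ : ℝ := 1 / (K + 1) with hρ
  have hρ0 : 0 ≤ ρ := by positivity
  have hρ1 : ρ ≤ 1 := by
    rw [hρ, div_le_one (by positivity)]; linarith
  intro n
  induction n with
  | zero => simp [psS]
  | succ n ih =>
    have hu0 := psS_nonneg hρ0 n u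
    have h1 : psS ρ n (b + c * u + ∑ i ∈ range m, d i * u ^ (i + 2)) ≤ K := by
      refine (psS_add hρ0 n _ _).trans (add_le_add ((psS_add hρ0 n _ _).trans
        (add_le_add (hB ρ hρ0 hρ1 n) ?_)) ((psS_sum hρ0 n _ _).trans
          (Finset.sum_le_sum fun i _ => ?_)))
      · calc psS ρ n (c * u) ≤ psS ρ n c * psS ρ n u := psS_mul hρ0 n _ _
          _ ≤ D * 1 := mul_le_mul (hD ρ hρ0 hρ1 n) ih hu0 hD0
          _ = D := mul_one D
      · calc psS ρ n (d i * u ^ (i + 2)) ≤ psS ρ n (d i) * psS ρ n (u ^ (i + 2)) :=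
              psS_mul hρ0 n _ _
          _ ≤ E i * 1 := mul_le_mul (hE i ρ hρ0 hρ1 n)
              ((psS_pow hρ0 n u _).trans (pow_le_one₀ hu0 ih)) (psS_nonneg hρ0 n _) (hE0 i)
          _ = E i := mul_one _
    rw [h, psS_X_mul]
    calc ρ * psS ρ n (b + c * u + ∑ i ∈ range m, d i * u ^ (i + 2)) ≤ ρ * K :=
          mul_le_mul_of_nonneg_left h1 hρ0
      _ ≤ 1 := by
          rw [hρ, one_div, inv_mul_le_iff₀ (by positivity)]
          linarith

lemma exists_min_poly (f : PowerSeries ℂ) (hf : IsAlgebraic (Polynomial ℂ) f) :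
    ∃ p : Polynomial (Polynomial ℂ), Polynomial.aeval f p = 0 ∧
      Polynomial.aeval f (Polynomial.derivative p) ≠ 0 := by
  classical
  have hex : ∃ n : ℕ, ∃ p : Polynomial (Polynomial ℂ), p ≠ 0 ∧ Polynomial.aeval f p = 0 ∧
      p.natDegree = n := by
    obtain ⟨p, hp, h⟩ := hf
    exact ⟨_, p, hp, h, rfl⟩
  obtain ⟨p, hp, hpf, hdeg⟩ := Nat.find_spec hex
  have hmin := fun m => Nat.find_min hex (m := m)
  refine ⟨p, hpf, fun hcon => ?_⟩
  have hpos : 0 < p.natDegree := by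
    by_contra h0
    have h0' : p.natDegree = 0 := by omega
    obtain ⟨c, rfl⟩ := Polynomial.natDegree_eq_zero.mp h0'
    rw [Polynomial.aeval_C] at hpf
    have hc : c = 0 := by
      have : ((c : Polynomial ℂ) : PowerSeries ℂ) = 0 := hpf
      exact_mod_cast this
    exact hp (by rw [hc, Polynomial.C_0])
  have hd0 : Polynomial.derivative p ≠ 0 := by
    intro h0
    have := Polynomial.derivative_eq_zero.mp h0
    omega
  refine hmin (Polynomial.derivative p).natDegree ?_ ⟨_, hd0, hcon, rfl⟩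
  rw [← hdeg]
  exact Polynomial.natDegree_derivative_lt (by omega)

/-- (QA) formal power series which are algebraic over `ℂ[X]` converge -/
theorem powerSeries_conv (f : PowerSeries ℂ) (hf : IsAlgebraic (Polynomial ℂ) f) :
    ∃ C : ℝ, ∀ n : ℕ, ‖PowerSeries.coeff n f‖ ≤ C ^ (n + 1) := by
  classical
  obtain ⟨p, hpf, hp'⟩ := exists_min_poly f hf
  -- the order of the derivative
  have hex : ∃ n, coeff n (Polynomial.aeval f (Polynomial.derivative p)) ≠ 0 := by
    by_contra hcon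
    push Not at hcon
    exact hp' (PowerSeries.ext fun n => by rw [hcon n, map_zero])
  set e := Nat.find hex with he
  have he1 := Nat.find_spec hex
  have he2 : ∀ m < e, coeff m (Polynomial.aeval f (Polynomial.derivative p)) = 0 := by
    intro m hm
    by_contra h
    exact Nat.find_min hex hm h
  obtain ⟨q', hq'⟩ := X_pow_dvd_iff.mpr he2
  have hq'0 : coeff 0 q' ≠ 0 := by
    rw [← he, hq'] at he1
    have := coeff_X_pow_mul q' e 0
    rw [zero_add] at this
    rwa [this] at he1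
  -- truncation
  set g : Polynomial ℂ := trunc (e + 2) f with hg
  have hfg : ∀ m < e + 2, coeff m (f - (g : PowerSeries ℂ)) = 0 := by
    intro m hm
    rw [map_sub, Polynomial.coeff_coe, hg, coeff_trunc, if_pos hm, sub_self]
  obtain ⟨w, hw⟩ := X_pow_dvd_iff.mpr hfg
  set u : PowerSeries ℂ := X * w with hu
  have hf1 : f = (X ^ (e + 1) * u) + (g : PowerSeries ℂ) := by
    have : f = (f - (g : PowerSeries ℂ)) + (g : PowerSeries ℂ) := by ring
    rw [hw] at this
    rw [this, hu]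
    ring
  -- Taylor expansion
  set t : Polynomial (Polynomial ℂ) := Polynomial.taylor g p with ht
  have halg : ∀ c : Polynomial ℂ, algebraMap (Polynomial ℂ) (PowerSeries ℂ) c = (c : PowerSeries ℂ) :=
    fun c => rfl
  have ht0 : Polynomial.aeval (X ^ (e + 1) * u) t = 0 := by
    rw [ht, Polynomial.taylor_apply, Polynomial.aeval_comp]
    rw [map_add, Polynomial.aeval_X, Polynomial.aeval_C, halg, ← hf1]
    exact hpf
  set m := t.natDegree with hm
  have hE : ∑ i ∈ range m, ((t.coeff (i + 2) : Polynomial ℂ) : PowerSeries ℂ) *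
      (X ^ (e + 1) * u) ^ (i + 2) + ((t.coeff 1 : Polynomial ℂ) : PowerSeries ℂ) *
      (X ^ (e + 1) * u) + ((t.coeff 0 : Polynomial ℂ) : PowerSeries ℂ) = 0 := by
    rw [Polynomial.aeval_eq_sum_range' (n := m + 2) (by omega)] at ht0
    simp only [Algebra.smul_def, halg] at ht0
    rw [Finset.sum_range_succ', Finset.sum_range_succ'] at ht0
    simpa using ht0
  -- the linear coefficient
  have ht1 : ∃ q : PowerSeries ℂ, ((t.coeff 1 : Polynomial ℂ) : PowerSeries ℂ) = X ^ e * q ∧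
      coeff 0 q ≠ 0 := by
    have h1 : ((t.coeff 1 : Polynomial ℂ) : PowerSeries ℂ) =
        Polynomial.aeval (g : PowerSeries ℂ) (Polynomial.derivative p) := by
      rw [ht, Polynomial.taylor_coeff_one]
      have := Polynomial.aeval_algebraMap_apply (PowerSeries ℂ) g (Polynomial.derivative p)
      rw [halg, halg] at this
      rw [this]
      rfl
    have h2 : f - (g : PowerSeries ℂ) ∣ Polynomial.aeval f (Polynomial.derivative p) -
        Polynomial.aeval (g : PowerSeries ℂ) (Polynomial.derivative p) := by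
      rw [Polynomial.aeval_def, Polynomial.aeval_def, Polynomial.eval₂_eq_eval_map,
        Polynomial.eval₂_eq_eval_map]
      exact Polynomial.sub_dvd_eval_sub _ _ _
    obtain ⟨z, hz⟩ := h2
    refine ⟨q' - X ^ 2 * w * z, ?_, ?_⟩
    · rw [h1, mul_sub, ← hq']
      rw [hw] at hz
      linear_combination -hz
    · have h3 : coeff 0 (X ^ 2 * w * z) = 0 := by
        rw [pow_two, mul_assoc, mul_assoc, coeff_zero_X_mul]
      rw [map_sub, h3, sub_zero]
      exact hq'0
  obtain ⟨q, hq, hq0⟩ := ht1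
  -- the constant coefficient
  set S : PowerSeries ℂ := ∑ i ∈ range m, ((t.coeff (i + 2) : Polynomial ℂ) : PowerSeries ℂ) *
      X ^ ((e + 1) * i) * u ^ (i + 2) with hS
  have hS1 : ∑ i ∈ range m, ((t.coeff (i + 2) : Polynomial ℂ) : PowerSeries ℂ) *
      (X ^ (e + 1) * u) ^ (i + 2) = X ^ (2 * e + 2) * S := by
    rw [hS, Finset.mul_sum]
    refine Finset.sum_congr rfl fun i _ => ?_
    rw [mul_pow, ← pow_mul]
    have : (e + 1) * (i + 2) = (e + 1) * i + (2 * e + 2) := by ring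
    rw [this, pow_add]
    ring
  set b : PowerSeries ℂ := -(S + q * w) with hb
  have hb1 : ((t.coeff 0 : Polynomial ℂ) : PowerSeries ℂ) = X ^ (2 * e + 2) * b := by
    rw [hS1, hq] at hE
    rw [hb, hu] at *
    linear_combination hE
  have hbB : PsB b := by
    apply PsB.of_X_pow_mul (2 * e + 2)
    rw [← hb1]
    exact PsB.coe _
  have hqB : PsB q := by
    apply PsB.of_X_pow_mul e
    rw [← hq]
    exact PsB.coe _
  -- split off the constant coefficient of `q`
  obtain ⟨q1, hq1⟩ : ∃ q1, q = C (coeff 0 q) + X * q1 := by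
    have : (X : PowerSeries ℂ) ∣ q - C (coeff 0 q) := by
      rw [X_dvd_iff]
      simp
    obtain ⟨q1, h⟩ := this
    exact ⟨q1, by rw [← h]; ring⟩
  have hq1B : PsB q1 := by
    obtain ⟨M, hM⟩ := hqB
    refine ⟨M, fun n => le_trans ?_ (hM (n + 1))⟩
    rw [Finset.sum_range_succ']
    have : ∀ k, coeff (k + 1) q = coeff k q1 := by
      intro k
      rw [hq1, map_add, coeff_succ_X_mul]
      simp
    simp only [this]
    exact le_add_of_nonneg_right (norm_nonneg _)
  set c0 : ℂ := -(coeff 0 q)⁻¹ with hc0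
  have hcc : C c0 * C (coeff 0 q) = (-1 : PowerSeries ℂ) := by
    rw [← map_mul, hc0, neg_mul, inv_mul_cancel₀ hq0, map_neg, map_one]
  have hmain : u = X * (C c0 * b + (C c0 * q1) * u + ∑ i ∈ range m,
      (C c0 * (((t.coeff (i + 2) : Polynomial ℂ) : PowerSeries ℂ) * X ^ ((e + 1) * i))) *
        u ^ (i + 2)) := by
    have h1 : ∑ i ∈ range m, (C c0 * (((t.coeff (i + 2) : Polynomial ℂ) : PowerSeries ℂ) *
        X ^ ((e + 1) * i))) * u ^ (i + 2) = C c0 * S := by
      rw [hS, Finset.mul_sum]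
      exact Finset.sum_congr rfl fun i _ => by ring
    rw [h1]
    have h2 : b + S + q * w = 0 := by rw [hb]; ring
    have h3 : X * b + X * S + (C (coeff 0 q) + X * q1) * u = 0 := by
      rw [← hq1, hu]
      linear_combination X * h2
    linear_combination (-C c0) * h3 + u * hcc
  obtain ⟨ρ, hρ, hbound⟩ := psS_le_one u _ _ m _ (hbB.C_mul c0) (hq1B.C_mul c0)
    (fun i => ((PsB.coe _).mul_X_pow _).C_mul c0) hmain
  have hub : ∀ n, ‖coeff n u‖ ≤ (ρ⁻¹) ^ n := by
    intro n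
    have h1 := hbound (n + 1)
    unfold psS at h1
    rw [Finset.sum_range_succ] at h1
    have h2 : 0 ≤ ∑ k ∈ range n, ‖coeff k u‖ * ρ ^ k :=
      Finset.sum_nonneg fun k _ => mul_nonneg (norm_nonneg _) (pow_nonneg hρ.le k)
    rw [inv_pow, ← one_div, le_div_iff₀ (pow_pos hρ n)]
    linarith
  -- the bound
  refine ⟨1 + ρ⁻¹ + ∑ k ∈ range (e + 2), ‖coeff k f‖, fun n => ?_⟩
  have hs0 : 0 ≤ ∑ k ∈ range (e + 2), ‖coeff k f‖ := Finset.sum_nonneg fun _ _ => norm_nonneg _
  have hi0 : 0 ≤ ρ⁻¹ := by positivity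
  have hC1 : 1 ≤ 1 + ρ⁻¹ + ∑ k ∈ range (e + 2), ‖coeff k f‖ := by linarith
  by_cases hn : n < e + 2
  · calc ‖coeff n f‖ ≤ ∑ k ∈ range (e + 2), ‖coeff k f‖ :=
          Finset.single_le_sum (f := fun k => ‖coeff k f‖) (fun _ _ => norm_nonneg _)
            (Finset.mem_range.mpr hn)
      _ ≤ 1 + ρ⁻¹ + ∑ k ∈ range (e + 2), ‖coeff k f‖ := by linarith
      _ ≤ _ := le_self_pow₀ hC1 (by omega)
  · have h1 : coeff n f = coeff (n - (e + 1)) u := by
      rw [hf1, map_add, Polynomial.coeff_coe, hg, coeff_trunc, if_neg hn, add_zero]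
      have := coeff_X_pow_mul u (e + 1) (n - (e + 1))
      rwa [Nat.sub_add_cancel (by omega)] at this
    rw [h1]
    calc ‖coeff (n - (e + 1)) u‖ ≤ (ρ⁻¹) ^ (n - (e + 1)) := hub _
      _ ≤ (1 + ρ⁻¹ + ∑ k ∈ range (e + 2), ‖coeff k f‖) ^ (n - (e + 1)) :=
          pow_le_pow_left₀ hi0 (by linarith) _
      _ ≤ _ := pow_le_pow_right₀ hC1 (by omega)

end Pool.Agent.WW
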