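import Pool.Agent.WW.QDefs
import Pool.Agent.WW.QA
import Pool.Agent.WW.PD

set_option autoImplicit false

namespace Pool.Agent.WW

open MvPolynomial Metric Filter Topology

namespace QB

/-- Taylor series at `0` -/
noncomputable def T (g : ℂ → ℂ) : PowerSeries ℂ :=
  PowerSeries.mk fun n => iteratedDeriv n g 0 / (n.factorial : ℂ)

theorem T_coeff (g : ℂ → ℂ) (n : ℕ) :
    PowerSeries.coeff n (T g) = iteratedDeriv n g 0 / (n.factorial : ℂ) := by
  unfold T
  rw [PowerSeries.coeff_mk]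

theorem T_congr {g h : ℂ → ℂ} (e : g =ᶠ[𝓝 0] h) : T g = T h := by
  ext n
  rw [T_coeff, T_coeff, e.iteratedDeriv_eq n]

theorem T_inj {g h : ℂ → ℂ} (hg : AnalyticAt ℂ g 0) (hh : AnalyticAt ℂ h 0) (e : T g = T h) :
    g =ᶠ[𝓝 0] h := by
  have h1 := hg.hasFPowerSeriesAt
  have h2 := hh.hasFPowerSeriesAt
  have h3 : (fun n => iteratedDeriv n g 0 / (n.factorial : ℂ)) =
      fun n => iteratedDeriv n h 0 / (n.factorial : ℂ) := by
    funext n
    rw [← T_coeff, ← T_coeff, e]
  rw [h3] at h1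
  have h4 := h1.sub h2
  rw [sub_self] at h4
  filter_upwards [h4.eventually_eq_zero] with z hz
  exact sub_eq_zero.mp hz

theorem T_add {g h : ℂ → ℂ} (hg : AnalyticAt ℂ g 0) (hh : AnalyticAt ℂ h 0) :
    T (g + h) = T g + T h := by
  ext n
  rw [map_add, T_coeff, T_coeff, T_coeff, iteratedDeriv_add hg.contDiffAt hh.contDiffAt, add_div]

theorem T_mul {g h : ℂ → ℂ} (hg : AnalyticAt ℂ g 0) (hh : AnalyticAt ℂ h 0) :
    T (g * h) = T g * T h := by
  ext n
  rw [PowerSeries.coeff_mul, T_coeff, iteratedDeriv_mul hg.contDiffAt hh.contDiffAt,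
    Finset.Nat.sum_antidiagonal_eq_sum_range_succ_mk, Finset.sum_div]
  refine Finset.sum_congr rfl fun i hi => ?_
  have hi' : i ≤ n := Nat.lt_succ_iff.mp (Finset.mem_range.mp hi)
  rw [T_coeff, T_coeff, Nat.cast_choose ℂ hi']
  have h1 : (n.factorial : ℂ) ≠ 0 := by exact_mod_cast n.factorial_ne_zero
  have h2 : (i.factorial : ℂ) ≠ 0 := by exact_mod_cast i.factorial_ne_zero
  have h3 : ((n - i).factorial : ℂ) ≠ 0 := by exact_mod_cast (n - i).factorial_ne_zero
  field_simp

theorem T_const (c : ℂ) : T (fun _ => c) = PowerSeries.C c := by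
  ext n
  rw [T_coeff, iteratedDeriv_const, PowerSeries.coeff_C]
  split_ifs with h
  · subst h
    simp
  · simp

theorem T_deriv (g : ℂ → ℂ) : T (deriv g) = PowerSeries.derivative ℂ (T g) := by
  ext n
  rw [PowerSeries.coeff_derivative, T_coeff, T_coeff, ← iteratedDeriv_succ', Nat.factorial_succ]
  have h1 : (n.factorial : ℂ) ≠ 0 := by exact_mod_cast n.factorial_ne_zero
  have h2 : ((n : ℂ) + 1) ≠ 0 := by exact_mod_cast n.succ_ne_zero
  push_cast
  field_simp

theorem T_cc (g : ℂ → ℂ) : PowerSeries.constantCoeff (T g) = g 0 := by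
  rw [← PowerSeries.coeff_zero_eq_constantCoeff_apply, T_coeff]
  simp

theorem T_X : T (fun s => s) = PowerSeries.X := by
  ext n
  rw [T_coeff, iteratedDeriv_fun_id_zero, PowerSeries.coeff_X]
  split_ifs with h
  · subst h
    simp
  · simp

/-- a power series with geometrically bounded coefficients is a Taylor series -/
theorem exists_T (f : PowerSeries ℂ)
    (hf : ∃ C : ℝ, ∀ n : ℕ, ‖PowerSeries.coeff n f‖ ≤ C ^ (n + 1)) :
    ∃ g : ℂ → ℂ, AnalyticAt ℂ g 0 ∧ T g = f := by
  obtain ⟨C, hC⟩ := hf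
  have hC0 : 0 ≤ C := by
    have := (norm_nonneg _).trans (hC 0)
    simpa using this
  set K : ℝ := C + 1 with hK
  have hK0 : 0 < K := by linarith
  let p : FormalMultilinearSeries ℂ ℂ ℂ :=
    FormalMultilinearSeries.ofScalars ℂ (fun n => PowerSeries.coeff n f)
  let ρ : NNReal := ⟨K⁻¹, by positivity⟩
  have hr : (ρ : ENNReal) ≤ p.radius := by
    refine p.le_radius_of_bound K fun n => ?_
    change _ * K⁻¹ ^ n ≤ K
    have h1 : ‖p n‖ = ‖PowerSeries.coeff n f‖ := FormalMultilinearSeries.ofScalars_norm _ _ _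
    rw [h1]
    have h2 : ‖PowerSeries.coeff n f‖ ≤ K ^ (n + 1) :=
      (hC n).trans (pow_le_pow_left₀ hC0 (by linarith) _)
    calc ‖PowerSeries.coeff n f‖ * K⁻¹ ^ n ≤ K ^ (n + 1) * K⁻¹ ^ n :=
          mul_le_mul_of_nonneg_right h2 (by positivity)
      _ = K := by
          rw [pow_succ, inv_pow]
          field_simp
  have hpos : 0 < p.radius := by
    refine lt_of_lt_of_le ?_ hr
    rw [ENNReal.coe_pos]
    exact inv_pos.mpr hK0
  have h1 := (p.hasFPowerSeriesOnBall hpos).hasFPowerSeriesAt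
  refine ⟨p.sum, h1.analyticAt, ?_⟩
  have h2 := h1.analyticAt.hasFPowerSeriesAt
  have h3 := h2.eq_formalMultilinearSeries h1
  have h4 := (FormalMultilinearSeries.ofScalars_series_injective ℂ ℂ) h3
  ext n
  rw [T_coeff]
  exact congrFun h4 n

theorem T_poly (a : Polynomial ℂ) :
    AnalyticAt ℂ (fun s => a.eval s) 0 ∧ T (fun s => a.eval s) = (a : PowerSeries ℂ) := by
  induction a using Polynomial.induction_on' with
  | add p q hp hq =>
    have h1 : (fun s => (p + q).eval s) = (fun s => p.eval s) + fun s => q.eval s := by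
      funext s
      simp
    rw [h1, Polynomial.coe_add, T_add hp.1 hq.1, hp.2, hq.2]
    exact ⟨hp.1.add hq.1, rfl⟩
  | monomial n c =>
    have h0 : ∀ n : ℕ, AnalyticAt ℂ (fun s : ℂ => s ^ n) 0 ∧
        T (fun s : ℂ => s ^ n) = PowerSeries.X ^ n := by
      intro n
      induction n with
      | zero =>
        refine ⟨analyticAt_const.congr (f := fun _ => 1) (Eventually.of_forall fun s => by simp), ?_⟩
        rw [pow_zero]
        have : (fun s : ℂ => s ^ 0) = fun _ => 1 := by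
          funext s
          simp
        rw [this, T_const, map_one]
      | succ n ih =>
        have h1 : (fun s : ℂ => s ^ (n + 1)) = (fun s : ℂ => s ^ n) * fun s : ℂ => s := by
          funext s
          simp [pow_succ]
        have h2 : AnalyticAt ℂ (fun s : ℂ => s) 0 := analyticAt_id
        rw [h1, T_mul ih.1 h2, ih.2, pow_succ, T_X]
        exact ⟨ih.1.mul h2, rfl⟩
    have h1 : (fun s => (Polynomial.monomial n c).eval s) = (fun _ => c) * fun s => s ^ n := by
      funext s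
      simp
    rw [h1, T_mul analyticAt_const (h0 n).1, (h0 n).2, T_const]
    refine ⟨analyticAt_const.mul (h0 n).1, ?_⟩
    rw [Polynomial.coe_monomial]
    ext k
    rw [PowerSeries.coeff_C_mul, PowerSeries.coeff_X_pow, PowerSeries.coeff_monomial]
    split_ifs <;> simp

theorem T_aeval {g : ℂ → ℂ} (hg : AnalyticAt ℂ g 0) (F : Polynomial (Polynomial ℂ)) :
    AnalyticAt ℂ (fun s => (F.map (Polynomial.evalRingHom s)).eval (g s)) 0 ∧
      T (fun s => (F.map (Polynomial.evalRingHom s)).eval (g s)) = Polynomial.aeval (T g) F := by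
  induction F using Polynomial.induction_on' with
  | add p q hp hq =>
    have h1 : (fun s => ((p + q).map (Polynomial.evalRingHom s)).eval (g s)) =
        (fun s => (p.map (Polynomial.evalRingHom s)).eval (g s)) +
        fun s => (q.map (Polynomial.evalRingHom s)).eval (g s) := by
      funext s
      simp
    rw [h1, map_add, T_add hp.1 hq.1, hp.2, hq.2]
    exact ⟨hp.1.add hq.1, rfl⟩
  | monomial n c =>
    have h0 : ∀ n : ℕ, AnalyticAt ℂ (fun s : ℂ => g s ^ n) 0 ∧
        T (fun s : ℂ => g s ^ n) = T g ^ n := by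
      intro n
      induction n with
      | zero =>
        have : (fun s : ℂ => g s ^ 0) = fun _ => 1 := by
          funext s
          simp
        rw [this, pow_zero, T_const, map_one]
        exact ⟨analyticAt_const, rfl⟩
      | succ n ih =>
        have h1 : (fun s : ℂ => g s ^ (n + 1)) = (fun s : ℂ => g s ^ n) * g := by
          funext s
          simp [pow_succ]
        rw [h1, T_mul ih.1 hg, ih.2, pow_succ]
        exact ⟨ih.1.mul hg, rfl⟩
    have h1 : (fun s => ((Polynomial.monomial n c).map (Polynomial.evalRingHom s)).eval (g s)) =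
        (fun s => c.eval s) * fun s => g s ^ n := by
      funext s
      simp
    rw [h1, T_mul (T_poly c).1 (h0 n).1, (h0 n).2, (T_poly c).2]
    refine ⟨(T_poly c).1.mul (h0 n).1, ?_⟩
    rw [Polynomial.aeval_monomial]
    rfl

variable {π ι : Type} [Fintype π] [Fintype ι] [DecidableEq π] [DecidableEq ι] (P : Pkg π ι)

theorem xi_fderiv (hP : P.Ok) {z : ι → ℂ} (hz : z ∈ ball (0 : ι → ℂ) P.r) (v : ι → ℂ) (i : π) :
    fderiv ℂ P.ξ z v i = ∑ t, v t * eval (P.bv z) (P.Jf i t) := by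
  have hd : DifferentiableAt ℂ P.ξ z := (P.ξana z hz).differentiableAt (isOpen_ball.mem_nhds hz)
  have h1 : fderiv ℂ P.ξ z v i = fderiv ℂ (fun w => P.ξ w i) z v := by
    have h2 := (hasFDerivAt_pi'.mp hd.hasFDerivAt i).fderiv
    rw [h2]
    rfl
  rw [h1]
  have h2 : v = ∑ t, v t • (Pi.single t (1 : ℂ) : ι → ℂ) := by
    ext t
    simp [Finset.sum_apply, Pi.single_apply]
  conv_lhs => rw [h2]
  rw [map_sum]
  apply Finset.sum_congr rfl
  intro t _
  rw [map_smul, hP.Jf z hz, smul_eq_mul]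

theorem xi_cd (hP : P.Ok) {z : ι → ℂ} (hz : z ∈ ball (0 : ι → ℂ) P.r) : ContDiffAt ℂ 1 P.ξ z := by
  rw [contDiffAt_one_iff]
  refine ⟨fderiv ℂ P.ξ, ball 0 P.r, isOpen_ball.mem_nhds hz, fun w hw => ?_, fun w hw =>
    ((P.ξana w hw).differentiableAt (isOpen_ball.mem_nhds hw)).hasFDerivAt⟩
  apply ContinuousAt.continuousWithinAt
  rw [continuousAt_clm_apply]
  intro v
  rw [continuousAt_pi]
  intro i
  have : (fun z => ∑ t, v t * eval (P.bv z) (P.Jf i t)) =ᶠ[nhds w]
      fun z => fderiv ℂ P.ξ z v i := by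
    filter_upwards [isOpen_ball.mem_nhds hw] with z hz
    rw [xi_fderiv P hP hz]
  refine ContinuousAt.congr ?_ this
  apply tendsto_finsetSum
  intro t _
  exact ContinuousAt.mul continuousAt_const (PC2.evbv_cont P w hw _)

/-- the derivative of the chart as an equivalence -/
theorem xi_equiv (hP : P.Ok) {z : ι → ℂ} (hz : z ∈ ball (0 : ι → ℂ) P.r) :
    ∃ e : (ι → ℂ) ≃L[ℂ] (π → ℂ), (e : (ι → ℂ) →L[ℂ] (π → ℂ)) = fderiv ℂ P.ξ z := by
  have hbij : Function.Bijective (fderiv ℂ P.ξ z) := by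
    constructor
    · rw [injective_iff_map_eq_zero]
      intro v hv
      have h1 : ∀ i, ∑ t, v t * eval (P.bv z) (P.Jf i t) = 0 := fun i => by
        rw [← xi_fderiv P hP hz, hv]
        rfl
      funext t
      have h2 : ∑ i, eval (P.bv z) (P.Jb t i) * ∑ t', v t' * eval (P.bv z) (P.Jf i t') = 0 := by
        refine Finset.sum_eq_zero fun i _ => ?_
        rw [h1, mul_zero]
      have h3 : ∑ i, eval (P.bv z) (P.Jb t i) * ∑ t', v t' * eval (P.bv z) (P.Jf i t') =
          ∑ t', v t' * ∑ i, eval (P.bv z) (P.Jb t i) * eval (P.bv z) (P.Jf i t') := by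
        simp_rw [Finset.mul_sum]
        rw [Finset.sum_comm]
        refine Finset.sum_congr rfl fun t' _ => Finset.sum_congr rfl fun i _ => ?_
        ring
      rw [h3] at h2
      simp_rw [hP.Jbf z hz t] at h2
      simpa using h2
    · intro u
      refine ⟨fun t => ∑ i', eval (P.bv z) (P.Jb t i') * u i', ?_⟩
      ext i
      rw [xi_fderiv P hP hz]
      have h1 : ∀ i', ∑ t, eval (P.bv z) (P.Jf i t) * eval (P.bv z) (P.Jb t i') =
          if i = i' then 1 else 0 := hP.Jfb z hz i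
      calc ∑ t, (∑ i', eval (P.bv z) (P.Jb t i') * u i') * eval (P.bv z) (P.Jf i t)
          = ∑ t, ∑ i', (eval (P.bv z) (P.Jf i t) * eval (P.bv z) (P.Jb t i')) * u i' := by
            apply Finset.sum_congr rfl
            intro t _
            rw [Finset.sum_mul]
            apply Finset.sum_congr rfl
            intro i' _
            ring
        _ = ∑ i', (∑ t, eval (P.bv z) (P.Jf i t) * eval (P.bv z) (P.Jb t i')) * u i' := by
            rw [Finset.sum_comm]
            simp_rw [Finset.sum_mul]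
        _ = u i := by
            simp_rw [h1]
            simp
  refine ⟨(LinearEquiv.ofBijective (fderiv ℂ P.ξ z : (ι → ℂ) →ₗ[ℂ] (π → ℂ))
    hbij).toContinuousLinearEquiv, ?_⟩
  ext v
  rfl

/-- curves in the image of the chart lift -/
theorem lift (hP : P.Ok) (p : P.Bl) (X : π → ℂ → ℂ) (hX : ∀ i, AnalyticAt ℂ (X i) 0)
    (hX0 : ∀ i, X i 0 = 1 / 2 + P.ξ p i) :
    ∃ z : ℂ → (ι → ℂ), AnalyticAt ℂ z 0 ∧ z 0 = (p : ι → ℂ) ∧
      (∀ᶠ s in 𝓝 (0 : ℂ), z s ∈ ball (0 : ι → ℂ) P.r) ∧
      ∀ᶠ s in 𝓝 (0 : ℂ), ∀ i, 1 / 2 + P.ξ (z s) i = X i s := by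
  obtain ⟨e, he⟩ := xi_equiv P hP p.2
  have hcd := xi_cd P hP p.2
  have hd : HasFDerivAt P.ξ (e : (ι → ℂ) →L[ℂ] (π → ℂ)) (p : ι → ℂ) := by
    rw [he]
    exact ((P.ξana p p.2).differentiableAt (isOpen_ball.mem_nhds p.2)).hasFDerivAt
  let L : (π → ℂ) → (ι → ℂ) := hcd.localInverse hd one_ne_zero
  have hL0 : L (P.ξ p) = p := hcd.localInverse_apply_image hd one_ne_zero
  have hL1 : ContDiffAt ℂ 1 L (P.ξ p) := hcd.to_localInverse hd one_ne_zero
  have hL2 : ∀ᶠ w in 𝓝 (P.ξ p), P.ξ (L w) = w :=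
    (hcd.hasStrictFDerivAt' hd one_ne_zero).eventually_right_inverse
  let Y : ℂ → (π → ℂ) := fun s i => X i s - 1 / 2
  have hY0 : Y 0 = P.ξ p := by
    funext i
    simp only [Y, hX0]
    ring
  have hYa : AnalyticAt ℂ Y 0 := by
    rw [analyticAt_pi_iff]
    intro i
    exact (hX i).sub analyticAt_const
  have hz : AnalyticAt ℂ (fun s => L (Y s)) 0 := by
    rw [Complex.analyticAt_iff_eventually_differentiableAt]
    have h1 : ∀ᶠ w in 𝓝 (P.ξ p), ContDiffAt ℂ 1 L w := hL1.eventually (by decide)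
    have h2 : ContinuousAt Y 0 := hYa.continuousAt
    have h3 : ∀ᶠ s in 𝓝 (0 : ℂ), ContDiffAt ℂ 1 L (Y s) := by
      refine h2.eventually ?_
      rw [hY0]
      exact h1
    filter_upwards [h3, Complex.analyticAt_iff_eventually_differentiableAt.mp hYa] with s h4 h5
    exact (h4.differentiableAt one_ne_zero).comp s h5
  refine ⟨fun s => L (Y s), hz, ?_, ?_, ?_⟩
  · show L (Y 0) = p
    rw [hY0, hL0]
  · have : ball (0 : ι → ℂ) P.r ∈ 𝓝 (L (Y 0)) := by
      rw [hY0, hL0]
      exact isOpen_ball.mem_nhds p.2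
    exact hz.continuousAt.eventually this
  · have h2 : ContinuousAt Y 0 := hYa.continuousAt
    have h3 : ∀ᶠ s in 𝓝 (0 : ℂ), P.ξ (L (Y s)) = Y s := by
      refine h2.eventually (p := fun w => P.ξ (L w) = w) ?_
      rw [hY0]
      exact hL2
    filter_upwards [h3] with s h4 i
    rw [h4]
    simp only [Y]
    ring

theorem comp_an (hP : P.Ok) {z : ℂ → (ι → ℂ)} (hz : AnalyticAt ℂ z 0)
    (hb : ∀ᶠ s in 𝓝 (0 : ℂ), z s ∈ ball (0 : ι → ℂ) P.r) (f : P.Rg) :
    AnalyticAt ℂ (fun s => P.ext f (z s)) 0 := by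
  rw [Complex.analyticAt_iff_eventually_differentiableAt]
  filter_upwards [hb, Complex.analyticAt_iff_eventually_differentiableAt.mp hz] with s h1 h2
  exact ((hP.ana P f).differentiableAt (isOpen_ball.mem_nhds h1)).comp s h2

theorem T_ext_const {z : ℂ → (ι → ℂ)}
    (hb : ∀ᶠ s in 𝓝 (0 : ℂ), z s ∈ ball (0 : ι → ℂ) P.r) (c : ℂ) :
    T (fun s => P.ext (algebraMap ℂ P.Rg c : P.Rg) (z s)) = PowerSeries.C c := by
  rw [← T_const]
  apply T_congr
  filter_upwards [hb] with s hs
  rw [PA.ext_eq P _ hs]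
  rfl

/-- the Taylor series of the elements of the ring along a curve -/
noncomputable def Tm (hP : P.Ok) {z : ℂ → (ι → ℂ)} (hz : AnalyticAt ℂ z 0)
    (hb : ∀ᶠ s in 𝓝 (0 : ℂ), z s ∈ ball (0 : ι → ℂ) P.r) : P.Rg →ₐ[ℂ] PowerSeries ℂ where
  toFun f := T (fun s => P.ext f (z s))
  map_one' := by
    have := T_ext_const P hb 1
    rwa [map_one, map_one] at this
  map_zero' := by
    have := T_ext_const P hb 0
    rwa [map_zero, map_zero] at this
  map_mul' f g := by
    rw [← T_mul (comp_an P hP hz hb f) (comp_an P hP hz hb g)]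
    congr 1
    funext s
    change P.ext ((f : P.Bl → ℂ) * (g : P.Bl → ℂ)) (z s) = _
    rw [PA.ext_mul]
    rfl
  map_add' f g := by
    rw [← T_add (comp_an P hP hz hb f) (comp_an P hP hz hb g)]
    congr 1
    funext s
    change P.ext ((f : P.Bl → ℂ) + (g : P.Bl → ℂ)) (z s) = _
    rw [PA.ext_add]
    rfl
  commutes' c := T_ext_const P hb c

theorem pow_inj {a b : PowerSeries ℂ} {D : ℕ} (hD : D ≠ 0) (h : a ^ D = b ^ D)
    (h1 : PowerSeries.constantCoeff a = PowerSeries.constantCoeff b)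
    (h2 : PowerSeries.constantCoeff b ≠ 0) : a = b := by
  have h3 := geom_sum₂_mul a b D
  rw [h, sub_self] at h3
  rcases mul_eq_zero.mp h3 with h4 | h4
  · exfalso
    have h5 := congrArg PowerSeries.constantCoeff h4
    rw [map_sum, map_zero] at h5
    have h6 : ∀ i ∈ Finset.range D, PowerSeries.constantCoeff (a ^ i * b ^ (D - 1 - i)) =
        PowerSeries.constantCoeff b ^ (D - 1) := by
      intro i hi
      have : i < D := Finset.mem_range.mp hi
      rw [map_mul, map_pow, map_pow, h1, ← pow_add]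
      congr 1
      omega
    rw [Finset.sum_congr rfl h6, Finset.sum_const, Finset.card_range, nsmul_eq_mul] at h5
    rcases mul_eq_zero.mp h5 with h7 | h7
    · exact hD (by exact_mod_cast h7)
    · exact pow_ne_zero _ h2 h7
  · exact sub_eq_zero.mp h4

theorem ev_y_ne (hP : P.Ok) (p : P.Bl) (i : π) : P.ev p (PB.yg P i) ≠ 0 := by
  intro h
  have h1 := congrArg (P.ev p) (PB.y_pow P i)
  have h2 := congrArg (P.ev p) (PB.x_unit P hP i)
  rw [map_pow, h, zero_pow (by have := (P.hD i).1; omega), map_mul, map_pow, map_pow, eq_comm,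
    mul_eq_zero] at h1
  rw [map_mul, map_mul, map_one] at h2
  rcases h1 with h1 | h1
  · rw [pow_eq_zero_iff (by have := (P.hD i).2.1; omega)] at h1
    rw [h1] at h2
    simp at h2
  · rw [pow_eq_zero_iff (by have := (P.hD i).2.2.1; omega)] at h1
    rw [h1] at h2
    simp at h2

theorem hom_eq (hP : P.Ok) (p : P.Bl) (ψ φ : P.Rg →ₐ[ℂ] PowerSeries ℂ)
    (hψ : Centered (P.ev p) ψ) (hφ : Centered (P.ev p) φ)
    (hx : ∀ i, ψ (PB.xg P i) = φ (PB.xg P i)) : ψ = φ := by
  have hy : ∀ i, ψ (PB.yg P i) = φ (PB.yg P i) := by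
    intro i
    refine pow_inj (D := P.D i) (by have := (P.hD i).1; omega) ?_ ?_ ?_
    · rw [← map_pow, ← map_pow, PB.y_pow]
      simp only [map_mul, map_pow, map_sub, map_one, hx]
    · rw [hψ, hφ]
    · rw [hφ]
      exact ev_y_ne P hP p i
  have hdn : ψ (PB.dn P) = φ (PB.dn P) := by
    unfold PB.dn
    rw [aeval_rename, comp_aeval_apply, comp_aeval_apply]
    congr 2
    funext g
    rcases g with i | i
    · exact hx i
    · exact hy i
  have hn : ψ (P.gr none) = φ (P.gr none) := by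
    have h1 := congrArg ψ (PB.dn_mul P)
    have h2 := congrArg φ (PB.dn_mul P)
    rw [map_mul, map_one] at h1 h2
    rw [hdn] at h1
    calc ψ (P.gr none) = ψ (P.gr none) * (φ (P.gr none) * φ (PB.dn P)) := by rw [h2, mul_one]
      _ = φ (P.gr none) * (ψ (P.gr none) * φ (PB.dn P)) := by ring
      _ = φ (P.gr none) := by rw [h1, mul_one]
  ext1 f
  refine PB.rg_induction P (p := fun f => ψ f = φ f) ?_ ?_ ?_ ?_ f
  · rintro (_ | i | i)
    · exact hn
    · exact hx i
    · exact hy i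
  · intro c
    rw [AlgHom.commutes, AlgHom.commutes]
  · intro x y h1 h2
    rw [map_add, map_add, h1, h2]
  · intro x y h1 h2
    rw [map_mul, map_mul, h1, h2]

theorem T_sum {κ : Type} (s : Finset κ) (g : κ → ℂ → ℂ) (hg : ∀ i, AnalyticAt ℂ (g i) 0) :
    AnalyticAt ℂ (∑ i ∈ s, g i) 0 ∧ T (∑ i ∈ s, g i) = ∑ i ∈ s, T (g i) := by
  classical
  induction s using Finset.induction_on with
  | empty =>
    rw [Finset.sum_empty, Finset.sum_empty]
    refine ⟨analyticAt_const (v := (0 : ℂ)), ?_⟩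
    have := T_const 0
    rwa [map_zero] at this
  | insert a s ha ih =>
    rw [Finset.sum_insert ha, Finset.sum_insert ha, T_add (hg a) ih.1, ih.2]
    exact ⟨(hg a).add ih.1, rfl⟩

/-- chain rule -/
theorem vel (hP : P.Ok) {z : ℂ → (ι → ℂ)} (hz : AnalyticAt ℂ z 0)
    (hb : ∀ᶠ s in 𝓝 (0 : ℂ), z s ∈ ball (0 : ι → ℂ) P.r) (d : ι → Derivation ℂ P.Rg P.Rg)
    (hd : P.IsPd d) (f : P.Rg) :
    PowerSeries.derivative ℂ (Tm P hP hz hb f) =
      ∑ i, T (deriv fun s => z s i) * Tm P hP hz hb (d i f) := by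
  have hzi : ∀ i, AnalyticAt ℂ (fun s => z s i) 0 := fun i => (analyticAt_pi_iff.mp hz) i
  change PowerSeries.derivative ℂ (T (fun s => P.ext f (z s))) =
    ∑ i, T (deriv fun s => z s i) * T (fun s => P.ext (d i f : P.Rg) (z s))
  rw [← T_deriv]
  have h1 : deriv (fun s => P.ext f (z s)) =ᶠ[𝓝 0]
      ∑ i, (deriv fun s => z s i) * fun s => P.ext (d i f : P.Rg) (z s) := by
    filter_upwards [hb, Complex.analyticAt_iff_eventually_differentiableAt.mp hz] with s h1 h2
    have h3 : HasFDerivAt (P.ext f) (fderiv ℂ (P.ext f) (z s)) (z s) :=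
      ((hP.ana P f).differentiableAt (isOpen_ball.mem_nhds h1)).hasFDerivAt
    have h4 := h3.comp_hasDerivAt s h2.hasDerivAt
    have h5 : deriv (fun s => P.ext f (z s)) s = fderiv ℂ (P.ext f) (z s) (deriv z s) := h4.deriv
    rw [h5, PA.fderiv_sum P (z s), Finset.sum_apply, _root_.sum_apply]
    refine Finset.sum_congr rfl fun i _ => ?_
    have h6 : deriv (fun s => z s i) s = deriv z s i := by
      exact ((hasDerivAt_pi.mp h2.hasDerivAt) i).deriv
    rw [Pi.mul_apply, h6, PA.ext_eq P _ h1, hd i f ⟨z s, h1⟩]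
    simp only [_root_.smul_apply, ContinuousLinearMap.proj_apply, smul_eq_mul]
    ring
  rw [T_congr h1, (T_sum _ _ fun i => (hzi i).deriv.mul (comp_an P hP hz hb (d i f))).2]
  exact Finset.sum_congr rfl fun i _ => T_mul (hzi i).deriv (comp_an P hP hz hb (d i f))

end QB

open QB

variable {π : Type} [Fintype π] [DecidableEq π] {m : ℕ} (P : Pkg π (Fin (m + 1)))

/-- (QB) a formal arc with algebraic components, centered at a point of the ball, comes from an
analytic curve in the ball -/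
theorem Pkg.Ok.arc_curve (hP : P.Ok) {N : ℕ} (A : DR P.Rg m N) (hA : P.IsPd A.d) (p : P.Bl)
    (ψ : P.Rg →ₐ[ℂ] PowerSeries ℂ) (hc : Centered (P.ev p) ψ) (ht : Thin ψ)
    (v : Fin (m + 1) → PowerSeries ℂ)
    (hv : ∀ f, PowerSeries.derivative ℂ (ψ f) = ∑ i, v i * ψ (A.d i f)) :
    ∃ z : ℂ → (Fin (m + 1) → ℂ), AnalyticAt ℂ z 0 ∧ z 0 = (p : Fin (m + 1) → ℂ) ∧
      (∀ f : P.Rg, AlgGerm fun s => P.ext f (z s)) ∧
      (NonConst (P.ev p) ψ → ¬ ∀ᶠ s in 𝓝 (0 : ℂ), z s = (p : Fin (m + 1) → ℂ)) ∧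
      (v (Fin.last m) = 0 → ∀ᶠ s in 𝓝 (0 : ℂ),
        z s (Fin.last m) = (p : Fin (m + 1) → ℂ) (Fin.last m)) := by
  have hX : ∀ i : π, ∃ g : ℂ → ℂ, AnalyticAt ℂ g 0 ∧ T g = ψ (PB.xg P i) := fun i =>
    exists_T _ (powerSeries_conv _ (ht _))
  choose X hXa hXT using hX
  have hX0 : ∀ i, X i 0 = 1 / 2 + P.ξ p i := by
    intro i
    rw [← T_cc (X i), hXT, hc]
    rfl
  obtain ⟨z, hz, hz0, hb, hzX⟩ := lift P hP p X hXa hX0
  have hφ : Centered (P.ev p) (Tm P hP hz hb) := by
    intro f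
    change PowerSeries.constantCoeff (T _) = _
    rw [T_cc, hz0, PA.ext_eq P _ p.2]
    rfl
  have hψ : ψ = Tm P hP hz hb := by
    refine hom_eq P hP p _ _ hc hφ fun i => ?_
    rw [← hXT]
    change _ = T _
    apply T_congr
    filter_upwards [hb, hzX] with s h1 h2
    rw [PA.ext_eq P _ h1]
    exact (h2 i).symm
  have hT : ∀ f : P.Rg, ψ f = T (fun s => P.ext f (z s)) := fun f => by rw [hψ]; rfl
  refine ⟨z, hz, hz0, ?_, ?_, ?_⟩
  · intro f
    refine ⟨comp_an P hP hz hb f, ?_⟩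
    obtain ⟨F, hF0, hF⟩ := ht f
    refine ⟨F, hF0, ?_⟩
    obtain ⟨h1, h2⟩ := T_aeval (comp_an P hP hz hb f) F
    rw [← hT, hF] at h2
    have h3 : T (fun _ => (0 : ℂ)) = 0 := by rw [T_const, map_zero]
    exact T_inj h1 analyticAt_const (h2.trans h3.symm)
  · rintro ⟨f, hf⟩ h
    apply hf
    rw [hT, ← T_const]
    apply T_congr
    filter_upwards [h] with s hs
    rw [hs, PA.ext_eq P _ p.2]
    rfl
  · intro hvl
    have hzi : ∀ i, AnalyticAt ℂ (fun s => z s i) 0 := fun i => (analyticAt_pi_iff.mp hz) i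
    have key : ∀ f : P.Rg, PowerSeries.derivative ℂ (ψ f) =
        ∑ i, T (deriv fun s => z s i) * ψ (A.d i f) := by
      rw [hψ]
      exact vel P hP hz hb A.d hA
    have hM : Matrix.vecMul (fun i => v i - T (deriv fun s => z s i))
        (Matrix.of fun i j => ψ (A.d i (A.x j))) = 0 := by
      funext j
      have h1 := (hv (A.x j)).symm.trans (key (A.x j))
      rw [← sub_eq_zero, ← Finset.sum_sub_distrib] at h1
      rw [Matrix.vecMul_eq_sum, Finset.sum_apply, Pi.zero_apply, ← h1]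
      refine Finset.sum_congr rfl fun i _ => ?_
      rw [Pi.smul_apply, smul_eq_mul, Matrix.of_apply, sub_mul]
    have hdet : (Matrix.of fun i j => ψ (A.d i (A.x j))).det ≠ 0 := by
      have h1 := A.det.map ψ
      have h2 : ψ (Matrix.of fun i j => A.d i (A.x j)).det =
          (Matrix.of fun i j => ψ (A.d i (A.x j))).det := by
        rw [AlgHom.map_det]
        rfl
      rw [h2] at h1
      exact h1.ne_zero
    have h1 := congrFun (Matrix.eq_zero_of_vecMul_eq_zero hdet hM) (Fin.last m)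
    have h2 : T (deriv fun s => z s (Fin.last m)) = T (fun _ => (0 : ℂ)) := by
      rw [T_const, map_zero]
      have h3 : v (Fin.last m) - T (deriv fun s => z s (Fin.last m)) = 0 := h1
      rw [hvl, zero_sub, neg_eq_zero] at h3
      exact h3
    have h4 : T (fun s => z s (Fin.last m)) = T (fun _ => z 0 (Fin.last m)) := by
      rw [T_const]
      ext n
      cases n with
      | zero =>
        rw [PowerSeries.coeff_zero_eq_constantCoeff_apply, T_cc,
          PowerSeries.coeff_zero_eq_constantCoeff_apply, PowerSeries.constantCoeff_C]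
      | succ n =>
        have h5 := congrArg (PowerSeries.coeff n) (T_deriv fun s => z s (Fin.last m))
        rw [h2, T_const, map_zero, map_zero, PowerSeries.coeff_derivative] at h5
        have h6 : ((n : ℂ) + 1) ≠ 0 := by exact_mod_cast n.succ_ne_zero
        rw [PowerSeries.coeff_C, if_neg (Nat.succ_ne_zero n)]
        exact (mul_eq_zero.mp h5.symm).resolve_right h6
    have h5 := T_inj (hzi (Fin.last m)) analyticAt_const h4
    rw [hz0] at h5
    exact h5

end Pool.Agent.WW
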