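import Pool.Agent.WW.QDefs
import Pool.Agent.WW.PA

set_option autoImplicit false

namespace Pool.Agent.WW

open MvPolynomial Metric Filter Topology

namespace QC2

/-- identity theorem on lines -/
theorem line_zero {E : Type*} [NormedAddCommGroup E] [NormedSpace ℂ E] {g : E → ℂ} {ρ : ℝ}
    (hg : DifferentiableOn ℂ g (ball 0 ρ)) {z0 w : E} (hz0 : z0 ∈ ball (0 : E) ρ)
    (hw : w ∈ ball (0 : E) ρ) (h : ∀ᶠ z in 𝓝 z0, g z = 0) : g w = 0 := by
  let L : ℂ → E := fun t => z0 + t • (w - z0)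
  have hLd : Differentiable ℂ L := by
    intro t
    exact ((differentiableAt_id.smul_const _).const_add _)
  let U : Set ℂ := L ⁻¹' ball (0 : E) ρ
  have hUo : IsOpen U := isOpen_ball.preimage hLd.continuous
  have hUc : Convex ℝ U := by
    intro a ha b hb α β hα hβ hαβ
    have h2 : L (α • a + β • b) = α • L a + β • L b := by
      simp only [L]
      rw [smul_add, smul_add]
      have h3 : α • z0 + β • z0 = z0 := by rw [← add_smul, hαβ, one_smul]
      have h4 : (α • a + β • b) • (w - z0) = α • a • (w - z0) + β • b • (w - z0) := by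
        rw [add_smul, smul_assoc, smul_assoc]
      rw [h4]
      calc z0 + (α • a • (w - z0) + β • b • (w - z0))
          = (α • z0 + β • z0) + (α • a • (w - z0) + β • b • (w - z0)) := by rw [h3]
        _ = _ := by abel
    change L (α • a + β • b) ∈ ball (0 : E) ρ
    rw [h2]
    exact convex_ball (0 : E) ρ ha hb hα hβ hαβ
  have hgd : DifferentiableOn ℂ (fun t => g (L t)) U :=
    hg.comp hLd.differentiableOn fun t ht => ht
  have hL0 : L 0 = z0 := by simp only [L, zero_smul, add_zero]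
  have hL1 : L 1 = w := by simp only [L, one_smul, add_sub_cancel]
  have h0U : (0 : ℂ) ∈ U := by
    change L 0 ∈ ball (0 : E) ρ
    rw [hL0]
    exact hz0
  have h1U : (1 : ℂ) ∈ U := by
    change L 1 ∈ ball (0 : E) ρ
    rw [hL1]
    exact hw
  have hev : (fun t => g (L t)) =ᶠ[𝓝 0] 0 := by
    have hc : ContinuousAt L 0 := hLd.continuous.continuousAt
    have h5 : ∀ᶠ z in 𝓝 (L 0), g z = 0 := by rw [hL0]; exact h
    exact hc.eventually h5
  have h6 := (hgd.analyticOnNhd hUo).eqOn_zero_of_preconnected_of_eventuallyEq_zero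
    hUc.isPreconnected h0U hev h1U
  simp only [Pi.zero_apply] at h6
  rwa [hL1] at h6

/-- the ball as a type -/
abbrev Dn (n : ℕ) (ρ : ℝ) : Type := ball (0 : Fin n → ℂ) ρ

/-- holomorphic functions on a polydisc -/
def An (n : ℕ) (ρ : ℝ) : Subalgebra ℂ (Dn n ρ → ℂ) where
  carrier := {f | ∃ g : (Fin n → ℂ) → ℂ, DifferentiableOn ℂ g (ball 0 ρ) ∧ ∀ s : Dn n ρ, f s = g s}
  mul_mem' := by
    rintro f f' ⟨g, hg, h⟩ ⟨g', hg', h'⟩
    exact ⟨g * g', hg.mul hg', fun s => by simp [h, h']⟩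
  add_mem' := by
    rintro f f' ⟨g, hg, h⟩ ⟨g', hg', h'⟩
    exact ⟨g + g', hg.add hg', fun s => by simp [h, h']⟩
  algebraMap_mem' c := ⟨fun _ => c, differentiableOn_const _, fun _ => rfl⟩

/-- evaluation at a point -/
def evn {n : ℕ} {ρ : ℝ} (s : Dn n ρ) : An n ρ →ₐ[ℂ] ℂ where
  toFun f := (f : Dn n ρ → ℂ) s
  map_one' := rfl
  map_mul' _ _ := rfl
  map_zero' := rfl
  map_add' _ _ := rfl
  commutes' _ := rfl

theorem evn_ext {n : ℕ} {ρ : ℝ} {f g : An n ρ} (h : ∀ s, evn s f = evn s g) : f = g :=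
  Subtype.ext (funext h)

theorem An_dom {n : ℕ} {ρ : ℝ} (hρ : 0 < ρ) : IsDomain (An n ρ) := by
  have hne : Nontrivial (An n ρ) := by
    refine ⟨⟨0, 1, fun h => ?_⟩⟩
    have h0 : (0 : Fin n → ℂ) ∈ ball (0 : Fin n → ℂ) ρ := mem_ball_self hρ
    have h1 : evn ⟨0, h0⟩ 0 = evn ⟨0, h0⟩ 1 := by rw [h]
    rw [map_zero, map_one] at h1
    exact zero_ne_one h1
  have hnz : NoZeroDivisors (An n ρ) := by
    refine ⟨fun {f g} hfg => ?_⟩
    by_contra hcon
    rw [not_or] at hcon
    obtain ⟨hf, hg⟩ := hcon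
    apply hg
    have h1 : ∃ z : Dn n ρ, evn z f ≠ 0 := by
      by_contra hall
      push Not at hall
      exact hf (evn_ext fun s => by rw [hall, map_zero])
    obtain ⟨z0, hz0⟩ := h1
    obtain ⟨F, hF, hF'⟩ := f.2
    obtain ⟨G, hG, hG'⟩ := g.2
    refine evn_ext fun w => ?_
    rw [map_zero]
    change (g : Dn n ρ → ℂ) w = 0
    rw [hG']
    refine line_zero hG z0.2 w.2 ?_
    have hc : ContinuousAt F z0 := (hF.differentiableAt (isOpen_ball.mem_nhds z0.2)).continuousAt
    have hn : F z0 ≠ 0 := by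
      rw [← hF']
      exact hz0
    filter_upwards [hc.eventually_ne hn, isOpen_ball.mem_nhds z0.2] with t ht htU
    have h5 : evn ⟨t, htU⟩ (f * g) = 0 := by rw [hfg, map_zero]
    rw [map_mul] at h5
    have h6 : evn ⟨t, htU⟩ f = F t := hF' ⟨t, htU⟩
    have h7 : evn ⟨t, htU⟩ g = G t := hG' ⟨t, htU⟩
    rw [h6, h7] at h5
    exact (mul_eq_zero.1 h5).resolve_left ht
  exact NoZeroDivisors.to_isDomain _

/-- transcendence degree -/
theorem dep_of_alg {A : Type} [CommRing A] [IsDomain A] [Algebra ℂ A] {n : ℕ} (x : Fin n → A)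
    (f : Fin (n + 1) → A) (hf : ∀ i, IsAlgebraic (Algebra.adjoin ℂ (Set.range x)) (f i)) :
    ¬ AlgebraicIndependent ℂ f := by
  intro hfi
  have h1 : (AlgebraicIndependent.matroid ℂ A).Indep (Set.range f) :=
    AlgebraicIndependent.matroid_indep_iff.2 hfi.coe_range
  have h2 : Set.range f ⊆ (AlgebraicIndependent.matroid ℂ A).closure (Set.range x) := by
    rw [AlgebraicIndependent.matroid_closure_eq]
    rintro _ ⟨i, rfl⟩
    exact hf i
  have h3 := h1.encard_le_eRk_of_subset h2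
  rw [Matroid.eRk_closure_eq] at h3
  have h4 := Matroid.eRk_le_encard (AlgebraicIndependent.matroid ℂ A) (Set.range x)
  have h5 : (Set.range f).encard = n + 1 := by
    rw [← Set.image_univ, hfi.injective.encard_image, Set.encard_univ, ENat.card_eq_coe_fintype_card]
    simp
  have h6 : (Set.range x).encard ≤ n := by
    rw [← Set.image_univ]
    refine (Set.encard_image_le _ _).trans ?_
    rw [Set.encard_univ, ENat.card_eq_coe_fintype_card]
    simp
  have h7 := (h3.trans h4).trans h6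
  rw [h5] at h7
  have h8 : ((n + 1 : ℕ) : ℕ∞) ≤ (n : ℕ∞) := by exact_mod_cast h7
  rw [Nat.cast_le] at h8
  omega

/-- the coordinates -/
def Xn {n : ℕ} {ρ : ℝ} (i : Fin n) : An n ρ :=
  ⟨fun s => (s : Fin n → ℂ) i, fun s => s i, (differentiable_apply i).differentiableOn, fun _ => rfl⟩

/-- a germ algebraic over `ℂ(s)` gives an element algebraic over the coordinates -/
theorem alg_of_germ {n : ℕ} {ρ : ℝ} (hρ : 0 < ρ) (i : Fin n) (f : An n ρ) (g : ℂ → ℂ)
    (hfg : ∀ s : Dn n ρ, evn s f = g ((s : Fin n → ℂ) i)) (F : Polynomial (Polynomial ℂ)) (hF : F ≠ 0)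
    (h : ∀ s : ℂ, ‖s‖ < ρ → (F.map (Polynomial.evalRingHom s)).eval (g s) = 0) :
    IsAlgebraic (Algebra.adjoin ℂ (Set.range (Xn : Fin n → An n ρ))) f := by
  have hi : (Xn i : An n ρ) ∈ Algebra.adjoin ℂ (Set.range (Xn : Fin n → An n ρ)) :=
    Algebra.subset_adjoin ⟨i, rfl⟩
  let φ : Polynomial ℂ →ₐ[ℂ] Algebra.adjoin ℂ (Set.range (Xn : Fin n → An n ρ)) :=
    Polynomial.aeval ⟨Xn i, hi⟩
  have hφ : ∀ (s : Dn n ρ) (p : Polynomial ℂ), evn s (φ p : An n ρ) = p.eval ((s : Fin n → ℂ) i) := by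
    intro s p
    have h1 : (((evn s).comp (Algebra.adjoin ℂ (Set.range (Xn : Fin n → An n ρ))).val).comp φ) =
        Polynomial.aeval ((s : Fin n → ℂ) i) := by
      apply Polynomial.algHom_ext
      simp only [AlgHom.comp_apply, φ, Polynomial.aeval_X]
      rfl
    have h2 := DFunLike.congr_fun h1 p
    rw [Polynomial.coe_aeval_eq_eval] at h2
    exact h2
  have hinj : Function.Injective φ := by
    rw [injective_iff_map_eq_zero]
    intro p hp
    refine Polynomial.eq_zero_of_infinite_isRoot p ?_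
    refine Set.Infinite.mono (s := ball (0 : ℂ) ρ) ?_ ?_
    · intro c hc
      have hc' : (fun _ => c : Fin n → ℂ) ∈ ball (0 : Fin n → ℂ) ρ := by
        rw [mem_ball_zero_iff] at hc ⊢
        rw [pi_norm_lt_iff hρ]
        exact fun _ => hc
      have h1 := hφ ⟨_, hc'⟩ p
      rw [hp] at h1
      change p.eval c = 0
      rw [← h1]
      simp
    · exact infinite_of_mem_nhds 0 (ball_mem_nhds 0 hρ)
  refine ⟨F.map φ.toRingHom, ?_, ?_⟩
  · rw [Ne, Polynomial.map_eq_zero_iff hinj]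
    exact hF
  · refine evn_ext fun s => ?_
    rw [map_zero, Polynomial.aeval_def, Polynomial.eval₂_map]
    have h1 := Polynomial.hom_eval₂ F ((algebraMap (Algebra.adjoin ℂ (Set.range (Xn : Fin n → An n ρ)))
      (An n ρ)).comp φ.toRingHom) (evn s).toRingHom f
    have h2 : (evn s).toRingHom.comp ((algebraMap (Algebra.adjoin ℂ (Set.range (Xn : Fin n → An n ρ)))
      (An n ρ)).comp φ.toRingHom) = Polynomial.evalRingHom ((s : Fin n → ℂ) i) := by
      ext p
      · exact hφ s _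
      · exact hφ s _
    rw [h2] at h1
    refine h1.trans ?_
    have h3 := h ((s : Fin n → ℂ) i) (lt_of_le_of_lt (norm_le_pi_norm _ i) (mem_ball_zero_iff.1 s.2))
    rw [Polynomial.eval_map] at h3
    rw [← h3]
    exact congrArg (fun c => Polynomial.eval₂ _ c F) (hfg s)

/-- polynomials in algebraic elements -/
theorem alg_poly {A τ : Type} [CommRing A] [IsDomain A] [Algebra ℂ A] (L : Subalgebra ℂ A) (v : τ → A)
    (hv : ∀ t, IsAlgebraic L (v t)) (p : MvPolynomial τ ℂ) : IsAlgebraic L (aeval v p) := by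
  induction p using MvPolynomial.induction_on with
  | C a =>
    rw [aeval_C, IsScalarTower.algebraMap_apply ℂ L A]
    exact isAlgebraic_algebraMap _
  | add p q hp hq => rw [map_add]; exact hp.add hq
  | mul_X p i hp => rw [map_mul, aeval_X]; exact hp.mul (hv i)

/-- the abelian functions are holomorphic -/
theorem h_don {π ι : Type} [Fintype π] [Fintype ι] [DecidableEq π] [DecidableEq ι] (P : Pkg π ι)
    (hP : P.Ok) (a : P.μ) : DifferentiableOn ℂ (fun z => P.h z a) (ball 0 P.r) := by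
  refine (hP.ana P (P.hr' a)).congr fun z hz => ?_
  rw [PA.ext_eq P _ hz]
  exact (Pkg.aeval_gr P (P.H a) ⟨z, hz⟩).symm

end QC2

open QC2 in
/-- (QC2) sums of points of an algebraic curve through the origin: `n` copies.  The functions
`h_a (γ s_1 + ... + γ s_n)` are algebraic over `ℂ(s_1, .., s_n)`, so any `n + 1` of them are
algebraically dependent over `ℂ` (near the origin). -/
theorem Pkg.Ok.sum_dep {π ι : Type} [Fintype π] [Fintype ι] [DecidableEq π] [DecidableEq ι]
    (P : Pkg π ι) (hP : P.Ok) (γ : ℂ → (ι → ℂ)) (hγ : AnalyticAt ℂ γ 0) (h0 : γ 0 = 0)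
    (halg : ∀ a, AlgGerm fun s => P.h (γ s) a) (n : ℕ) :
    ∃ ρ : ℝ, 0 < ρ ∧ (∀ s : Fin n → ℂ, ‖s‖ < ρ → ‖∑ i, γ (s i)‖ < P.r) ∧
      ∀ a : Fin (n + 1) → P.μ, ∃ F : MvPolynomial (Fin (n + 1)) ℂ, F ≠ 0 ∧
        ∀ s : Fin n → ℂ, ‖s‖ < ρ → eval (fun t => P.h (∑ i, γ (s i)) (a t)) F = 0 := by
  classical
  have hr := P.hr
  choose hana F hF hFz using halg
  obtain ⟨ρ, hρ, hρ1⟩ : ∃ ρ : ℝ, 0 < ρ ∧ ∀ s : ℂ, ‖s‖ < ρ → DifferentiableAt ℂ γ s ∧
      ‖γ s‖ < P.r / (4 * (n + 1)) ∧ ∀ a, ((F a).map (Polynomial.evalRingHom s)).eval (P.h (γ s) a) = 0 := by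
    have e1 : ∀ᶠ s in 𝓝 (0 : ℂ), DifferentiableAt ℂ γ s :=
      hγ.eventually_analyticAt.mono fun s hs => hs.differentiableAt
    have e2 : ∀ᶠ s in 𝓝 (0 : ℂ), ‖γ s‖ < P.r / (4 * (n + 1)) := by
      have hc : ContinuousAt (fun s => ‖γ s‖) 0 := hγ.continuousAt.norm
      refine hc.eventually_lt continuousAt_const ?_
      simp only [h0, norm_zero]
      positivity
    have e3 : ∀ᶠ s in 𝓝 (0 : ℂ), ∀ a, ((F a).map (Polynomial.evalRingHom s)).eval (P.h (γ s) a) = 0 :=
      Filter.eventually_all.2 hFz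
    obtain ⟨ρ, hρ, h⟩ := Metric.eventually_nhds_iff.1 (e1.and (e2.and e3))
    refine ⟨ρ, hρ, fun s hs => h ?_⟩
    rwa [dist_zero_right]
  -- partial sums
  have hpn : ∀ (s : Fin n → ℂ), ‖s‖ < ρ → ∀ S : Finset (Fin n), ‖∑ i ∈ S, γ (s i)‖ < P.r / 2 := by
    intro s hs S
    have h1 : ‖∑ i ∈ S, γ (s i)‖ ≤ ∑ i ∈ S, P.r / (4 * (n + 1)) := by
      refine (norm_sum_le _ _).trans (Finset.sum_le_sum fun i _ => ?_)
      exact (hρ1 (s i) (lt_of_le_of_lt (norm_le_pi_norm s i) hs)).2.1.le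
    have h2 : (∑ i ∈ S, P.r / (4 * (n + 1))) ≤ (n : ℝ) * (P.r / (4 * (n + 1))) := by
      rw [Finset.sum_const, nsmul_eq_mul]
      refine mul_le_mul_of_nonneg_right ?_ (by positivity)
      have h3 : S.card ≤ n := by
        have := Finset.card_le_univ S
        simpa using this
      exact_mod_cast h3
    have h3 : (n : ℝ) * (P.r / (4 * (n + 1))) < P.r / 2 := by
      have h4 : (0 : ℝ) < 4 * (n + 1) := by positivity
      rw [mul_div_assoc', div_lt_div_iff₀ h4 (by norm_num)]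
      nlinarith [hr, (Nat.cast_nonneg n : (0 : ℝ) ≤ n)]
    linarith
  have hZd : ∀ S : Finset (Fin n), DifferentiableOn ℂ (fun s : Fin n → ℂ => ∑ i ∈ S, γ (s i))
      (ball 0 ρ) := by
    intro S s hs
    refine (DifferentiableAt.fun_sum fun i _ => ?_).differentiableWithinAt
    have h1 : DifferentiableAt ℂ γ (s i) :=
      (hρ1 (s i) (lt_of_le_of_lt (norm_le_pi_norm s i) (mem_ball_zero_iff.1 hs))).1
    exact h1.comp s (differentiable_apply i).differentiableAt
  have hdom : IsDomain (An n ρ) := An_dom hρ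
  -- the abelian functions of the partial sums
  let hS : Finset (Fin n) → P.μ → An n ρ := fun S a =>
    ⟨fun s => P.h (∑ i ∈ S, γ ((s : Fin n → ℂ) i)) a, fun s => P.h (∑ i ∈ S, γ (s i)) a, by
      refine (h_don P hP a).comp (hZd S) fun s hs => ?_
      rw [mem_ball_zero_iff] at hs ⊢
      have := hpn s hs S
      linarith, fun _ => rfl⟩
  have hSev : ∀ S a (s : Dn n ρ), evn s (hS S a) = P.h (∑ i ∈ S, γ ((s : Fin n → ℂ) i)) a :=
    fun S a s => rfl
  let L : Subalgebra ℂ (An n ρ) := Algebra.adjoin ℂ (Set.range (Xn : Fin n → An n ρ))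
  have hsing : ∀ i a, IsAlgebraic L (hS {i} a) := by
    intro i a
    refine alg_of_germ hρ i (hS {i} a) (fun s => P.h (γ s) a) (fun s => ?_) (F a) (hF a)
      (fun s hs => (hρ1 s hs).2.2 a)
    rw [hSev, Finset.sum_singleton]
  have hall : ∀ S : Finset (Fin n), ∀ a, IsAlgebraic L (hS S a) := by
    intro S
    induction S using Finset.induction_on with
    | empty =>
      intro a
      have h1 : hS ∅ a = algebraMap ℂ (An n ρ) (P.h 0 a) := by
        refine evn_ext fun s => ?_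
        rw [hSev, Finset.sum_empty, AlgHom.commutes]
        rfl
      rw [h1, IsScalarTower.algebraMap_apply ℂ L (An n ρ)]
      exact isAlgebraic_algebraMap _
    | insert i S hi ih =>
      intro a
      have hv : ∀ t : P.μ ⊕ P.μ, IsAlgebraic L (Sum.elim (hS {i}) (hS S) t) := by
        rintro (t | t)
        · exact hsing i t
        · exact ih t
      have hev : ∀ (s : Dn n ρ) (p : MvPolynomial (P.μ ⊕ P.μ) ℂ),
          evn s (aeval (Sum.elim (hS {i}) (hS S)) p) =
            eval (Sum.elim (P.h (γ ((s : Fin n → ℂ) i))) (P.h (∑ i ∈ S, γ ((s : Fin n → ℂ) i)))) p := by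
        intro s p
        have h1 : (evn s).comp (aeval (Sum.elim (hS {i}) (hS S))) =
            aeval (Sum.elim (P.h (γ ((s : Fin n → ℂ) i))) (P.h (∑ i ∈ S, γ ((s : Fin n → ℂ) i)))) := by
          apply MvPolynomial.algHom_ext
          rintro (t | t)
          · simp only [AlgHom.comp_apply, aeval_X, Sum.elim_inl]
            rw [hSev, Finset.sum_singleton]
          · simp only [AlgHom.comp_apply, aeval_X, Sum.elim_inr]
            rw [hSev]
        have h2 := DFunLike.congr_fun h1 p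
        rw [AlgHom.comp_apply] at h2
        rw [h2]
        rfl
      have hb : ∀ (s : Dn n ρ), γ ((s : Fin n → ℂ) i) ∈ ball (0 : ι → ℂ) (P.r / 2) ∧
          (∑ i ∈ S, γ ((s : Fin n → ℂ) i)) ∈ ball (0 : ι → ℂ) (P.r / 2) := by
        intro s
        rw [mem_ball_zero_iff, mem_ball_zero_iff]
        have h1 := hpn s (mem_ball_zero_iff.1 s.2) {i}
        rw [Finset.sum_singleton] at h1
        exact ⟨h1, hpn s (mem_ball_zero_iff.1 s.2) S⟩
      have hq : aeval (Sum.elim (hS {i}) (hS S)) P.ad0 * hS (insert i S) a =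
          aeval (Sum.elim (hS {i}) (hS S)) (P.ad a) := by
        refine evn_ext fun s => ?_
        rw [map_mul, hev, hev, hSev, Finset.sum_insert hi, mul_comm]
        exact hP.ad _ (hb s).1 _ (hb s).2 a
      have hq0 : aeval (Sum.elim (hS {i}) (hS S)) P.ad0 ≠ 0 := by
        intro h1
        have h2 := hev ⟨0, mem_ball_self hρ⟩ P.ad0
        rw [h1, map_zero] at h2
        exact hP.ad0 _ (hb ⟨0, mem_ball_self hρ⟩).1 _ (hb ⟨0, mem_ball_self hρ⟩).2 h2.symm
      refine IsAlgebraic.of_mul (mem_nonZeroDivisors_of_ne_zero hq0) (alg_poly L _ hv _) ?_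
      rw [hq]
      exact alg_poly L _ hv _
  refine ⟨ρ, hρ, fun s hs => ?_, fun a => ?_⟩
  · have := hpn s hs Finset.univ
    linarith
  · have h1 := dep_of_alg (Xn : Fin n → An n ρ) (fun t => hS Finset.univ (a t)) (fun t => hall _ _)
    rw [algebraicIndependent_iff] at h1
    push Not at h1
    obtain ⟨G, hG, hG0⟩ := h1
    refine ⟨G, hG0, fun s hs => ?_⟩
    have h2 := congrArg (evn (⟨s, mem_ball_zero_iff.2 hs⟩ : Dn n ρ)) hG
    rw [map_zero, ← AlgHom.comp_apply, comp_aeval] at h2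
    exact h2

end Pool.Agent.WW
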