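import Pool.Agent.WW.QDefs

set_option autoImplicit false

namespace Pool.Agent.WW

open MvPolynomial Metric Filter Topology

namespace QD1

/-- the homogenised polynomial -/
noncomputable def hm {n : ℕ} (F : MvPolynomial (Fin n) ℂ) (g0 : ℂ) (g : Fin n → ℂ) : ℂ :=
  ∑ β ∈ F.support, F.coeff β * g0 ^ (F.totalDegree - ∑ i, β i) * ∏ i, g i ^ β i

theorem sum_le {n : ℕ} {F : MvPolynomial (Fin n) ℂ} {β : Fin n →₀ ℕ} (h : β ∈ F.support) :
    ∑ i, β i ≤ F.totalDegree := by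
  have h1 := le_totalDegree h
  rwa [Finsupp.sum_fintype _ _ (fun _ => rfl)] at h1

theorem hm_mul {n : ℕ} (F : MvPolynomial (Fin n) ℂ) (g0 : ℂ) (x g : Fin n → ℂ)
    (h : ∀ i, g i = x i * g0) : hm F g0 g = g0 ^ F.totalDegree * eval x F := by
  rw [hm, eval_eq', Finset.mul_sum]
  refine Finset.sum_congr rfl fun β hβ => ?_
  have h1 : ∏ i, g i ^ β i = (∏ i, x i ^ β i) * g0 ^ (∑ i, β i) := by
    rw [← Finset.prod_pow_eq_pow_sum, ← Finset.prod_mul_distrib]
    exact Finset.prod_congr rfl fun i _ => by rw [h i, mul_pow]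
  have h2 : g0 ^ F.totalDegree = g0 ^ (F.totalDegree - ∑ i, β i) * g0 ^ (∑ i, β i) := by
    rw [← pow_add, Nat.sub_add_cancel (sum_le hβ)]
  rw [h1, h2]
  ring

theorem hm_swap {n : ℕ} (F : MvPolynomial (Fin n) ℂ) (c c' : ℂ) (g g' : Fin n → ℂ)
    (h : ∀ i, g i * c = g' i * c') : c ^ F.totalDegree * hm F c' g = c' ^ F.totalDegree * hm F c g' := by
  rw [hm, hm, Finset.mul_sum, Finset.mul_sum]
  refine Finset.sum_congr rfl fun β hβ => ?_
  have h1 : (∏ i, g i ^ β i) * c ^ (∑ i, β i) = (∏ i, g' i ^ β i) * c' ^ (∑ i, β i) := by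
    rw [← Finset.prod_pow_eq_pow_sum, ← Finset.prod_mul_distrib, ← Finset.prod_pow_eq_pow_sum,
      ← Finset.prod_mul_distrib]
    exact Finset.prod_congr rfl fun i _ => by rw [← mul_pow, h i, mul_pow]
  have h2 : c ^ F.totalDegree = c ^ (F.totalDegree - ∑ i, β i) * c ^ (∑ i, β i) := by
    rw [← pow_add, Nat.sub_add_cancel (sum_le hβ)]
  have h3 : c' ^ F.totalDegree = c' ^ (F.totalDegree - ∑ i, β i) * c' ^ (∑ i, β i) := by
    rw [← pow_add, Nat.sub_add_cancel (sum_le hβ)]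
  calc c ^ F.totalDegree * (F.coeff β * c' ^ (F.totalDegree - ∑ i, β i) * ∏ i, g i ^ β i)
      = F.coeff β * c ^ (F.totalDegree - ∑ i, β i) * c' ^ (F.totalDegree - ∑ i, β i) *
        ((∏ i, g i ^ β i) * c ^ (∑ i, β i)) := by rw [h2]; ring
    _ = F.coeff β * c ^ (F.totalDegree - ∑ i, β i) * c' ^ (F.totalDegree - ∑ i, β i) *
        ((∏ i, g' i ^ β i) * c' ^ (∑ i, β i)) := by rw [h1]
    _ = _ := by rw [h3]; ring

theorem eq_zero_of_pow {x : ℂ} {n : ℕ} (h : x ^ n = 0) : x = 0 := by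
  by_contra h1
  exact pow_ne_zero n h1 h

variable {π ι : Type} [Fintype π] [Fintype ι] [DecidableEq π] [DecidableEq ι]

theorem G0_ne (P : Pkg π ι) (hP : P.Ok) (n : ℕ) {z : ι → ℂ} (hz : z ∈ ball (0 : ι → ℂ) P.r) :
    P.G0 n z ≠ 0 := by
  have h1 := hP.G0ge n z hz
  intro h2
  rw [h2, norm_zero] at h1
  exact absurd h1 (not_le.2 (Real.exp_pos _))

theorem h_eq (P : Pkg π ι) (hP : P.Ok) {z : ι → ℂ} (hz : z ∈ ball (0 : ι → ℂ) P.r) (a : P.μ) :
    P.h z a = P.G 0 a z / P.G0 0 z := by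
  rw [hP.Geq 0 a z hz, mul_div_cancel_right₀ _ (G0_ne P hP 0 hz)]

theorem h_cont (P : Pkg π ι) (hP : P.Ok) (a : P.μ) :
    ContinuousOn (fun z => P.h z a) (ball (0 : ι → ℂ) P.r) := by
  have h1 : ContinuousOn (fun z => P.G 0 a z / P.G0 0 z) (ball (0 : ι → ℂ) P.r) := by
    have h2 := (hP.Gana 0 a).continuousOn
    have h3 := (hP.G0ana 0).continuousOn
    rw [pow_zero, one_mul] at h2 h3
    exact h2.div h3 fun z hz => G0_ne P hP 0 hz
  exact h1.congr fun z hz => h_eq P hP hz a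

theorem eval_cont (P : Pkg π ι) (hP : P.Ok) {n : ℕ} (a : Fin n → P.μ) (F : MvPolynomial (Fin n) ℂ) :
    ContinuousOn (fun z => eval (fun i => P.h z (a i)) F) (ball (0 : ι → ℂ) P.r) := by
  have h1 : Continuous fun x : Fin n → ℂ => eval x F := F.continuous_eval
  exact h1.comp_continuousOn (continuousOn_pi.2 fun i => h_cont P hP (a i))

omit [DecidableEq ι] in
/-- the line through `w` in the large ball -/
theorem line_pre (w : ι → ℂ) (R : ℝ) :
    IsPreconnected {t : ℂ | t • w ∈ ball (0 : ι → ℂ) R} ∧ IsOpen {t : ℂ | t • w ∈ ball (0 : ι → ℂ) R} := by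
  have hc : Continuous fun t : ℂ => t • w := continuous_id.smul continuous_const
  refine ⟨?_, isOpen_ball.preimage hc⟩
  have h1 : Convex ℝ ((((LinearMap.id : ℂ →ₗ[ℂ] ℂ).smulRight w).restrictScalars ℝ) ⁻¹'
      ball (0 : ι → ℂ) R) := (convex_ball _ _).linear_preimage _
  exact h1.isPreconnected

omit [DecidableEq ι] in
theorem line_diff {f : (ι → ℂ) → ℂ} {R : ℝ} (hf : DifferentiableOn ℂ f (ball 0 R)) (w : ι → ℂ) :
    DifferentiableOn ℂ (fun t : ℂ => f (t • w)) {t : ℂ | t • w ∈ ball (0 : ι → ℂ) R} := by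
  refine hf.comp ?_ fun t ht => ht
  exact (differentiable_id.smul_const w).differentiableOn

/-- the homogenised relation holds on `N` in the large ball -/
theorem hm_zero (P : Pkg π ι) (hP : P.Ok) (N : Submodule ℂ (ι → ℂ)) {n : ℕ} (a : Fin n → P.μ)
    (F : MvPolynomial (Fin n) ℂ)
    (hF : ∀ z ∈ N, ‖z‖ < P.r → eval (fun i => P.h z (a i)) F = 0) (k : ℕ)
    (w : ι → ℂ) (hw : w ∈ N) (hwk : ‖w‖ < 2 ^ k * P.r) :
    hm F (P.G0 k w) (fun i => P.G k (a i) w) = 0 := by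
  set U : Set ℂ := {t : ℂ | t • w ∈ ball (0 : ι → ℂ) (2 ^ k * P.r)} with hU
  obtain ⟨hpre, hop⟩ := line_pre w (2 ^ k * P.r)
  set φ : ℂ → ℂ := fun t => hm F (P.G0 k (t • w)) (fun i => P.G k (a i) (t • w)) with hφ
  have hd : DifferentiableOn ℂ φ U := by
    rw [hφ]
    unfold hm
    refine DifferentiableOn.fun_sum fun β _ => ?_
    refine ((line_diff (hP.G0ana k) w).pow _).const_mul _ |>.mul ?_
    refine DifferentiableOn.fun_finsetProd fun i _ => ?_
    exact (line_diff (hP.Gana k (a i)) w).pow _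
  have han : AnalyticOnNhd ℂ φ U := hd.analyticOnNhd hop
  have hR : P.r ≤ 2 ^ k * P.r := by
    have h1 : (1 : ℝ) ≤ 2 ^ k := one_le_pow₀ (by norm_num)
    nlinarith [P.hr]
  have h0 : (0 : ℂ) ∈ U := by
    rw [hU, Set.mem_ofPred_eq, zero_smul]
    exact mem_ball_self (lt_of_lt_of_le P.hr hR)
  have hev : φ =ᶠ[𝓝 0] 0 := by
    have hc : Tendsto (fun t : ℂ => t • w) (𝓝 0) (𝓝 ((0 : ℂ) • w)) :=
      (continuous_id.smul continuous_const).continuousAt
    rw [zero_smul] at hc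
    filter_upwards [hc.eventually (ball_mem_nhds 0 P.hr)] with t ht
    have h1 : eval (fun i => P.h (t • w) (a i)) F = 0 :=
      hF _ (N.smul_mem t hw) (by simpa using ht)
    rw [hφ]
    simp only [Pi.zero_apply]
    rw [hm_mul F (P.G0 k (t • w)) (fun i => P.h (t • w) (a i)) _ fun i => hP.Geq k (a i) _ ht, h1,
      mul_zero]
  have h1 := han.eqOn_zero_of_preconnected_of_eventuallyEq_zero hpre h0 hev
  have h2 : (1 : ℂ) ∈ U := by
    rw [hU, Set.mem_ofPred_eq, one_smul]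
    simpa using hwk
  have h3 := h1 h2
  simpa [hφ] using h3

/-- the relation at points of `N + Λ` -/
theorem rel_sum (P : Pkg π ι) (hP : P.Ok) (N : Submodule ℂ (ι → ℂ)) {n : ℕ} (a : Fin n → P.μ)
    (F : MvPolynomial (Fin n) ℂ)
    (hF : ∀ z ∈ N, ‖z‖ < P.r → eval (fun i => P.h z (a i)) F = 0)
    (z : ι → ℂ) (hz : ‖z‖ < P.r) (w : ι → ℂ) (hw : w ∈ N) (l : ι → ℂ) (hl : l ∈ P.Λ)
    (hwl : l + z = w) : eval (fun i => P.h z (a i)) F = 0 := by
  obtain ⟨k, hk⟩ : ∃ k : ℕ, (‖l‖ + P.r + ‖w‖ + 1) / P.r < 2 ^ k :=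
    pow_unbounded_of_one_lt _ (by norm_num)
  rw [div_lt_iff₀ P.hr] at hk
  have hr := P.hr
  have hlk : ‖l‖ + P.r ≤ 2 ^ k * P.r := by
    have := norm_nonneg w
    linarith
  have hwk : ‖w‖ < 2 ^ k * P.r := by
    have := norm_nonneg l
    linarith
  set U : Set ℂ := {t : ℂ | t • w ∈ ball (0 : ι → ℂ) (2 ^ k * P.r)} with hU
  obtain ⟨hpre, hop⟩ := line_pre w (2 ^ k * P.r)
  have han : AnalyticOnNhd ℂ (fun t : ℂ => P.G0 k (t • w)) U :=
    (line_diff (hP.G0ana k) w).analyticOnNhd hop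
  have h1U : (1 : ℂ) ∈ U := by
    rw [hU, Set.mem_ofPred_eq, one_smul]
    simpa using hwk
  have h0U : (0 : ℂ) ∈ U := by
    rw [hU, Set.mem_ofPred_eq, zero_smul]
    exact mem_ball_self (by positivity)
  have hne : ∀ᶠ t in 𝓝[≠] (1 : ℂ), P.G0 k (t • w) ≠ 0 := by
    rcases (han 1 h1U).eventually_eq_zero_or_eventually_ne_zero with h | h
    · exfalso
      have h2 := han.eqOn_zero_of_preconnected_of_eventuallyEq_zero hpre h1U h h0U
      simp only [zero_smul, Pi.zero_apply] at h2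
      exact G0_ne P hP k (mem_ball_self P.hr) h2
    · exact h
  have hzt : Tendsto (fun t : ℂ => z + (t - 1) • w) (𝓝[≠] 1) (𝓝 z) := by
    have hc : ContinuousAt (fun t : ℂ => z + (t - 1) • w) 1 := by fun_prop
    have h2 := hc.tendsto
    simp only [sub_self, zero_smul, add_zero] at h2
    exact h2.mono_left nhdsWithin_le_nhds
  have hzr : ∀ᶠ t in 𝓝[≠] (1 : ℂ), z + (t - 1) • w ∈ ball (0 : ι → ℂ) P.r :=
    hzt.eventually (isOpen_ball.mem_nhds (by simpa using hz))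
  have hUn : ∀ᶠ t in 𝓝[≠] (1 : ℂ), t ∈ U := nhdsWithin_le_nhds (hop.mem_nhds h1U)
  have hzero : ∀ᶠ t in 𝓝[≠] (1 : ℂ), eval (fun i => P.h (z + (t - 1) • w) (a i)) F = 0 := by
    filter_upwards [hne, hzr, hUn] with t h1 h2 h3
    have h4 : l + (z + (t - 1) • w) = t • w := by
      rw [← add_assoc, hwl, sub_smul, one_smul]
      abel
    have h5 := hm_zero P hP N a F hF k (t • w) (N.smul_mem t hw) (mem_ball_zero_iff.1 h3)
    have h6 : ∀ i, P.G k (a i) (t • w) * P.G0 k (z + (t - 1) • w) =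
        P.G k (a i) (z + (t - 1) • w) * P.G0 k (t • w) := by
      intro i
      have h7 := hP.per l hl k hlk _ h2 (a i)
      rwa [h4] at h7
    have h7 := hm_swap F (P.G0 k (z + (t - 1) • w)) (P.G0 k (t • w)) _ _ h6
    rw [h5, mul_zero] at h7
    have h8 := hm_mul F (P.G0 k (z + (t - 1) • w)) (fun i => P.h (z + (t - 1) • w) (a i)) _
      fun i => hP.Geq k (a i) _ h2
    rw [h8] at h7
    have h9 := G0_ne P hP k h2
    rcases mul_eq_zero.1 h7.symm with h10 | h10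
    · exact absurd (eq_zero_of_pow h10) h1
    · rcases mul_eq_zero.1 h10 with h11 | h11
      · exact absurd (eq_zero_of_pow h11) h9
      · exact h11
  have hcont : ContinuousAt (fun y => eval (fun i => P.h y (a i)) F) z :=
    (eval_cont P hP a F).continuousAt (isOpen_ball.mem_nhds (by simpa using hz))
  have h10 : Tendsto (fun t : ℂ => eval (fun i => P.h (z + (t - 1) • w) (a i)) F) (𝓝[≠] 1)
      (𝓝 (eval (fun i => P.h z (a i)) F)) := hcont.tendsto.comp hzt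
  have h11 : Tendsto (fun t : ℂ => eval (fun i => P.h (z + (t - 1) • w) (a i)) F) (𝓝[≠] 1)
      (𝓝 0) := tendsto_const_nhds.congr' (hzero.mono fun t ht => ht.symm)
  exact tendsto_nhds_unique h10 h11

end QD1

/-- (QD1) a polynomial relation on `N` extends to the closure of `N + Λ` -/
theorem Pkg.Ok.rel_closure {π ι : Type} [Fintype π] [Fintype ι] [DecidableEq π] [DecidableEq ι]
    (P : Pkg π ι) (hP : P.Ok) (N : Submodule ℂ (ι → ℂ)) {n : ℕ} (a : Fin n → P.μ)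
    (F : MvPolynomial (Fin n) ℂ)
    (hF : ∀ z ∈ N, ‖z‖ < P.r → eval (fun i => P.h z (a i)) F = 0)
    (z : ι → ℂ) (hz : ‖z‖ < P.r)
    (hc : z ∈ closure ((N.toAddSubgroup ⊔ P.Λ : AddSubgroup (ι → ℂ)) : Set (ι → ℂ))) :
    eval (fun i => P.h z (a i)) F = 0 := by
  have hzb : z ∈ ball (0 : ι → ℂ) P.r := by simpa using hz
  have h1 : z ∈ closure (((N.toAddSubgroup ⊔ P.Λ : AddSubgroup (ι → ℂ)) : Set (ι → ℂ)) ∩
      ball (0 : ι → ℂ) P.r) := by
    rw [mem_closure_iff_nhds] at hc ⊢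
    intro t ht
    obtain ⟨y, hy1, hy2⟩ := hc (t ∩ ball (0 : ι → ℂ) P.r) (inter_mem ht (isOpen_ball.mem_nhds hzb))
    exact ⟨y, hy1.1, hy2, hy1.2⟩
  have hcont : ContinuousAt (fun y => eval (fun i => P.h y (a i)) F) z :=
    (QD1.eval_cont P hP a F).continuousAt (isOpen_ball.mem_nhds hzb)
  rw [mem_closure_iff_nhdsWithin_neBot] at h1
  have h2 : Tendsto (fun y => eval (fun i => P.h y (a i)) F)
      (𝓝[((N.toAddSubgroup ⊔ P.Λ : AddSubgroup (ι → ℂ)) : Set (ι → ℂ)) ∩ ball (0 : ι → ℂ) P.r] z)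
      (𝓝 (eval (fun i => P.h z (a i)) F)) := hcont.tendsto.mono_left nhdsWithin_le_nhds
  have h3 : Tendsto (fun y => eval (fun i => P.h y (a i)) F)
      (𝓝[((N.toAddSubgroup ⊔ P.Λ : AddSubgroup (ι → ℂ)) : Set (ι → ℂ)) ∩ ball (0 : ι → ℂ) P.r] z)
      (𝓝 0) := by
    refine tendsto_const_nhds.congr' ?_
    filter_upwards [self_mem_nhdsWithin] with y hy
    obtain ⟨w, hw, l, hl, hwl⟩ := AddSubgroup.mem_sup.1 hy.1
    refine (QD1.rel_sum P hP N a F hF y (by simpa using hy.2) w hw (-l) (P.Λ.neg_mem hl) ?_).symm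
    rw [← hwl]
    abel
  exact tendsto_nhds_unique h2 h3

end Pool.Agent.WW
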