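import Pool.Agent.WW.PRing

/-!
Definitions for the part on algebraic arcs (Q) and for the transcendence machine (T).
-/

set_option autoImplicit false

namespace Pool.Agent.WW

open MvPolynomial Metric Filter Topology

noncomputable section

/-- analytic germ at `0` which is algebraic over `ℂ(s)` -/
def AlgGerm (g : ℂ → ℂ) : Prop :=
  AnalyticAt ℂ g 0 ∧ ∃ F : Polynomial (Polynomial ℂ), F ≠ 0 ∧
    ∀ᶠ s in 𝓝 (0 : ℂ), (F.map (Polynomial.evalRingHom s)).eval (g s) = 0

namespace Pkg

variable {π ι : Type} [Fintype π] [Fintype ι] [DecidableEq π] [DecidableEq ι] (P : Pkg π ι)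

/-- any `dim N + 1` of the abelian functions satisfy a polynomial relation on `N` -/
def Dep (N : Submodule ℂ (ι → ℂ)) : Prop :=
  ∀ a : Fin (Module.finrank ℂ N + 1) → P.μ,
    ∃ F : MvPolynomial (Fin (Module.finrank ℂ N + 1)) ℂ, F ≠ 0 ∧
      ∀ z ∈ N, ‖z‖ < P.r → eval (fun i => P.h z (a i)) F = 0

/-- the origin of the ball -/
def o : P.Bl := ⟨0, mem_ball_self P.hr⟩

/-- a polynomial with integer coefficients in abelian functions, as an element of the ring -/
def U {n : ℕ} (u : Fin n → P.μ) (p : MvPolynomial (Fin n) ℤ) : P.Rg :=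
  aeval (fun t => P.hr' (u t)) p

end Pkg

end

end Pool.Agent.WW
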