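import Mathlib

/-!
Regular sequences from derivations.  In a Noetherian `ℂ`-algebra an element `y` with `e y = 1` for
a derivation `e` is a non-zero-divisor; hence etale coordinates form weakly regular sequences.
-/

set_option autoImplicit false

namespace Pool.Agent.WW

open RingTheory.Sequence

variable {R : Type*} [CommRing R] [Algebra ℂ R]

/-- If a derivation `e` preserves the ideal `I` and `e y = 1` then `y` is regular modulo `I`. -/
theorem mem_of_mul_mem_of_der [IsNoetherianRing R] (I : Ideal R) (e : Derivation ℂ R R)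
    (hI : ∀ f ∈ I, e f ∈ I) (y : R) (hy : e y = 1) (f : R) (hf : y * f ∈ I) : f ∈ I := by
  classical
  -- the chain of the ideals `{f | y ^ k * f ∈ I}`
  let A : ℕ →o Ideal R :=
    { toFun := fun k => Submodule.comap (LinearMap.mulLeft R (y ^ k)) I
      monotone' := by
        apply monotone_nat_of_le_succ
        intro k g hg
        simp only [Submodule.mem_comap, LinearMap.mulLeft_apply] at hg ⊢
        have : y ^ (k + 1) * g = y * (y ^ k * g) := by ring
        rw [this]
        exact I.mul_mem_left _ hg }
  have hmem : ∀ k g, g ∈ A k ↔ y ^ k * g ∈ I := fun k g => Iff.rfl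
  obtain ⟨N, hN⟩ := monotone_stabilizes_iff_noetherian.mpr (inferInstance : IsNoetherian R R) A
  have hex : ∃ N, ∀ g, y ^ (N + 1) * g ∈ I → y ^ N * g ∈ I := by
    refine ⟨N, fun g hg => ?_⟩
    have h1 : g ∈ A (N + 1) := (hmem _ _).mpr hg
    rw [← hN (N + 1) (by omega)] at h1
    exact (hmem _ _).mp h1
  have hmin := Nat.find_spec hex
  have hlt := fun k (hk : k < Nat.find hex) => Nat.find_min hex hk
  set M := Nat.find hex with hM
  rcases Nat.eq_zero_or_pos M with h0 | hpos
  · rw [h0] at hmin
    have := hmin f (by simpa using hf)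
    simpa using this
  · exfalso
    refine hlt (M - 1) (by omega) ?_
    intro g hg
    have hM1 : M - 1 + 1 = M := by omega
    rw [hM1] at hg
    -- apply the derivation
    have h1 : e (y ^ M * g) ∈ I := hI _ hg
    have h2 : e (y ^ M * g) = y ^ M * e g + (M : R) * (y ^ (M - 1) * g) := by
      rw [Derivation.leibniz, Derivation.leibniz_pow, hy]
      simp only [smul_eq_mul, nsmul_eq_mul, mul_one]
      ring
    rw [h2] at h1
    have h3 : y ^ (M + 1) * e g ∈ I := by
      have h4 := I.mul_mem_left y h1
      have h5 : y * (y ^ M * e g + (M : R) * (y ^ (M - 1) * g))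
          = y ^ (M + 1) * e g + (M : R) * (y ^ M * g) := by
        have h9 : y * y ^ (M - 1) = y ^ M := by
          rw [← pow_succ', hM1]
        calc y * (y ^ M * e g + (M : R) * (y ^ (M - 1) * g))
            = (y * y ^ M) * e g + (M : R) * ((y * y ^ (M - 1)) * g) := by ring
          _ = y ^ (M + 1) * e g + (M : R) * (y ^ M * g) := by rw [h9, ← pow_succ']
      rw [h5] at h4
      exact (I.add_mem_iff_left (I.mul_mem_left _ hg)).mp h4
    have h6 : y ^ M * e g ∈ I := hmin _ h3
    have h7 : (M : R) * (y ^ (M - 1) * g) ∈ I := (I.add_mem_iff_right h6).mp h1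
    have h8 : y ^ (M - 1) * g = algebraMap ℂ R ((M : ℂ)⁻¹) * ((M : R) * (y ^ (M - 1) * g)) := by
      have hM0 : (M : ℂ) ≠ 0 := by exact_mod_cast hpos.ne'
      have : algebraMap ℂ R ((M : ℂ)⁻¹) * (M : R) = 1 := by
        rw [← map_natCast (algebraMap ℂ R) M, ← map_mul, inv_mul_cancel₀ hM0, map_one]
      rw [← mul_assoc, this, one_mul]
    rw [h8]
    exact I.mul_mem_left _ h7

/-- a derivation killing the generators of an ideal preserves it -/
theorem der_mem_span (e : Derivation ℂ R R) (S : Set R) (hS : ∀ s ∈ S, e s = 0) :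
    ∀ f ∈ Ideal.span S, e f ∈ Ideal.span S := by
  intro f hf
  induction hf using Submodule.span_induction with
  | mem x hx => rw [hS x hx]; exact Submodule.zero_mem _
  | zero => rw [map_zero]; exact Submodule.zero_mem _
  | add x y _ _ h1 h2 => rw [map_add]; exact Submodule.add_mem _ h1 h2
  | smul a x hx h =>
    rw [smul_eq_mul, Derivation.leibniz]
    simp only [smul_eq_mul]
    exact Ideal.add_mem _ (Ideal.mul_mem_left _ _ h) (Ideal.mul_mem_right _ _ hx)

/-- Elements `x i` with a dual system of derivations: `x i - c i` is a weakly regular sequence. -/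
theorem isWeaklyRegular_of_dual [IsNoetherianRing R] {n : ℕ} (e : Fin n → Derivation ℂ R R)
    (x : Fin n → R) (h : ∀ i j, e i (x j) = if i = j then 1 else 0) (c : Fin n → ℂ) :
    IsWeaklyRegular R (List.ofFn fun i => x i - algebraMap ℂ R (c i)) := by
  constructor
  intro i hi
  have hin : i < n := by simpa using hi
  rw [isSMulRegular_quotient_iff_mem_of_smul_mem]
  intro f hf
  have hJ : (Ideal.ofList ((List.ofFn fun i => x i - algebraMap ℂ R (c i)).take i) • ⊤ :
      Submodule R R) = Ideal.ofList ((List.ofFn fun i => x i - algebraMap ℂ R (c i)).take i) := by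
    rw [smul_eq_mul, Ideal.mul_top]
  rw [hJ] at hf ⊢
  refine mem_of_mul_mem_of_der _ (e ⟨i, hin⟩) ?_
    ((List.ofFn fun i => x i - algebraMap ℂ R (c i))[i]) ?_ f hf
  · apply der_mem_span
    intro s hs
    change s ∈ List.take i _ at hs
    rw [List.mem_take_iff_getElem] at hs
    obtain ⟨j, hj, rfl⟩ := hs
    have hj2 : j < i ∧ j < n := by
      rw [List.length_ofFn] at hj
      omega
    rw [List.getElem_ofFn, map_sub, h, Derivation.map_algebraMap, sub_zero, if_neg]
    intro h'
    have := congrArg Fin.val h'
    simp only at this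
    omega
  · rw [List.getElem_ofFn, map_sub, h, Derivation.map_algebraMap, sub_zero, if_pos rfl]

/-- the dual system of derivations of etale coordinates -/
theorem exists_dual {n : ℕ} (d : Fin n → Derivation ℂ R R) (x : Fin n → R)
    (hdet : IsUnit (Matrix.of fun i j => d i (x j)).det) :
    ∃ e : Fin n → Derivation ℂ R R, ∀ i j, e i (x j) = if i = j then 1 else 0 := by
  classical
  set K : Matrix (Fin n) (Fin n) R := (Matrix.of fun i j => d i (x j))⁻¹ with hK
  have hmul : K * (Matrix.of fun i j => d i (x j)) = 1 := Matrix.nonsing_inv_mul _ hdet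
  refine ⟨fun i => ∑ k, K i k • d k, fun i j => ?_⟩
  have h1 := congrFun (congrFun hmul i) j
  rw [Matrix.mul_apply, Matrix.one_apply] at h1
  rw [← h1, ← Derivation.coeFnAddMonoidHom_apply, map_sum, Finset.sum_apply]
  rfl

/-- Etale coordinates minus constants form a weakly regular sequence. -/
theorem isWeaklyRegular_of_det [IsNoetherianRing R] {n : ℕ} (d : Fin n → Derivation ℂ R R)
    (x : Fin n → R) (hdet : IsUnit (Matrix.of fun i j => d i (x j)).det) (c : Fin n → ℂ) :
    IsWeaklyRegular R (List.ofFn fun i => x i - algebraMap ℂ R (c i)) := by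
  obtain ⟨e, he⟩ := exists_dual d x hdet
  exact isWeaklyRegular_of_dual e x he c

end Pool.Agent.WW
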