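import Pool.Agent.WW.TA1

set_option autoImplicit false

namespace Pool.Agent.WW

open MvPolynomial Metric Filter Topology

namespace TA2

private theorem mem_Qb {x : ℂ} : x ∈ integralClosure ℚ ℂ ↔ IsAlgebraic ℚ x := by
  rw [mem_integralClosure_iff, isAlgebraic_iff_isIntegral]

private theorem alg_eval {τ : Type} (p : MvPolynomial τ ℂ) (hp : AlgC p) (v : τ → ℂ)
    (hv : ∀ t, IsAlgebraic ℚ (v t)) : IsAlgebraic ℚ (eval v p) := by
  rw [← mem_Qb, eval_eq]
  refine Subalgebra.sum_mem _ fun d _ => Subalgebra.mul_mem _ (mem_Qb.2 (hp d))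
    (Subalgebra.prod_mem _ fun i _ => Subalgebra.pow_mem _ (mem_Qb.2 (hv i)) _)

private theorem algC_mul {τ : Type} {p q : MvPolynomial τ ℂ} (hp : AlgC p) (hq : AlgC q) :
    AlgC (p * q) := by
  classical
  intro a
  rw [coeff_mul, ← mem_Qb]
  exact Subalgebra.sum_mem _ fun d _ => Subalgebra.mul_mem _ (mem_Qb.2 (hp _)) (mem_Qb.2 (hq _))

private theorem algC_C {τ : Type} {c : ℂ} (hc : IsAlgebraic ℚ c) :
    AlgC (C c : MvPolynomial τ ℂ) := by
  classical
  intro a
  rw [coeff_C]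
  split_ifs
  · exact hc
  · exact isAlgebraic_zero

private theorem algC_pow {τ : Type} {p : MvPolynomial τ ℂ} (hp : AlgC p) (n : ℕ) :
    AlgC (p ^ n) := by
  induction n with
  | zero =>
    rw [pow_zero, ← C_1]
    exact algC_C isAlgebraic_one
  | succ n ih =>
    rw [pow_succ]
    exact algC_mul ih hp

private theorem algC_prod {τ σ : Type} (s : Finset σ) (f : σ → MvPolynomial τ ℂ)
    (h : ∀ i ∈ s, AlgC (f i)) : AlgC (∏ i ∈ s, f i) := by
  classical
  induction s using Finset.induction_on with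
  | empty =>
    rw [Finset.prod_empty, ← C_1]
    exact algC_C isAlgebraic_one
  | insert a s ha ih =>
    rw [Finset.prod_insert ha]
    exact algC_mul (h a (Finset.mem_insert_self a s)) (ih fun i hi => h i (Finset.mem_insert_of_mem hi))

private theorem algC_sum {τ σ : Type} (s : Finset σ) (f : σ → MvPolynomial τ ℂ)
    (h : ∀ i ∈ s, AlgC (f i)) : AlgC (∑ i ∈ s, f i) := by
  intro a
  rw [coeff_sum, ← mem_Qb]
  exact Subalgebra.sum_mem _ fun d hd => mem_Qb.2 (h d hd a)

private theorem algC_bind {τ σ : Type} (f : σ → MvPolynomial τ ℂ) (hf : ∀ i, AlgC (f i))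
    (p : MvPolynomial σ ℂ) (hp : AlgC p) : AlgC (bind₁ f p) := by
  rw [bind₁, aeval_def, eval₂_eq]
  exact algC_sum _ _ fun d _ => algC_mul (algC_C (hp d)) (algC_prod _ _ fun i _ => algC_pow (hf i) _)

private theorem eval_bind {τ σ : Type} (f : σ → MvPolynomial τ ℂ) (v : τ → ℂ)
    (p : MvPolynomial σ ℂ) : eval v (bind₁ f p) = eval (fun i => eval v (f i)) p := by
  have h := aeval_bind₁ (R := ℂ) (f := v) (g := f) p
  simpa [coe_aeval_eq_eval] using h

/-- algebraic numbers are dense -/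
private theorem dense_alg : Dense {x : ℂ | IsAlgebraic ℚ x} := by
  rw [Metric.dense_iff]
  intro x r hr
  obtain ⟨p, hp⟩ := exists_rat_near x.re (half_pos hr)
  obtain ⟨q, hq⟩ := exists_rat_near x.im (half_pos hr)
  refine ⟨(p : ℂ) + (q : ℂ) * Complex.I, ?_, ?_⟩
  · rw [mem_ball, dist_comm, dist_eq_norm]
    have h1 : x - ((p : ℂ) + (q : ℂ) * Complex.I) =
        ((x.re - p : ℝ) : ℂ) + ((x.im - q : ℝ) : ℂ) * Complex.I := by
      apply Complex.ext <;> simp
    rw [h1]
    calc ‖((x.re - p : ℝ) : ℂ) + ((x.im - q : ℝ) : ℂ) * Complex.I‖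
        ≤ ‖((x.re - p : ℝ) : ℂ)‖ + ‖((x.im - q : ℝ) : ℂ) * Complex.I‖ := norm_add_le _ _
      _ = |x.re - p| + |x.im - q| := by
          rw [norm_mul, Complex.norm_I, mul_one, Complex.norm_real, Complex.norm_real,
            Real.norm_eq_abs, Real.norm_eq_abs]
      _ < r / 2 + r / 2 := add_lt_add hp hq
      _ = r := by ring
  · have hI : IsAlgebraic ℚ Complex.I := by
      rw [isAlgebraic_iff_isIntegral]
      refine ⟨Polynomial.X ^ 2 + Polynomial.C 1, Polynomial.monic_X_pow_add_C 1 two_ne_zero, ?_⟩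
      simp
    have h1 : ∀ s : ℚ, IsAlgebraic ℚ (s : ℂ) := fun s => isAlgebraic_algebraMap s
    exact (h1 p).add ((h1 q).mul hI)

variable {π ι : Type} [Fintype π] [Fintype ι] [DecidableEq π] [DecidableEq ι] (P : Pkg π ι)

private theorem bv_don (hP : P.Ok) (g : Gx π) :
    DifferentiableOn ℂ (fun z => P.bv z g) (ball 0 P.r) :=
  (PA.good_gn P hP g).don.congr fun z hz => by
    rw [PA.ext_eq P _ hz]
    rfl

private theorem ev_don (hP : P.Ok) (p : MvPolynomial (Gx π) ℂ) :
    DifferentiableOn ℂ (fun z => eval (P.bv z) p) (ball 0 P.r) :=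
  PA.dpoly P.bv (bv_don P hP) p

/-- the derivative of the chart -/
private noncomputable def L (z : ι → ℂ) : (ι → ℂ) →L[ℂ] (π → ℂ) :=
  ∑ i, ∑ t, eval (P.bv z) (P.Jf i t) •
    (ContinuousLinearMap.proj t : (ι → ℂ) →L[ℂ] ℂ).smulRight (Pi.single i (1 : ℂ) : π → ℂ)

private theorem L_apply (z v : ι → ℂ) (i : π) : L P z v i = ∑ t, eval (P.bv z) (P.Jf i t) * v t := by
  unfold L
  simp only [ContinuousLinearMap.sum_apply, ContinuousLinearMap.smul_apply,
    ContinuousLinearMap.smulRight_apply, ContinuousLinearMap.proj_apply, Finset.sum_apply,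
    Pi.smul_apply, smul_eq_mul]
  rw [Finset.sum_eq_single i]
  · simp
  · intro j _ hj
    refine Finset.sum_eq_zero fun t _ => ?_
    rw [Pi.single_eq_of_ne (Ne.symm hj), mul_zero, mul_zero]
  · intro h
    exact absurd (Finset.mem_univ i) h

/-- the inverse of the derivative of the chart -/
private noncomputable def L' (z : ι → ℂ) : (π → ℂ) →L[ℂ] (ι → ℂ) :=
  ∑ t, ∑ i, eval (P.bv z) (P.Jb t i) •
    (ContinuousLinearMap.proj i : (π → ℂ) →L[ℂ] ℂ).smulRight (Pi.single t (1 : ℂ) : ι → ℂ)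

private theorem L'_apply (z : ι → ℂ) (v : π → ℂ) (t : ι) :
    L' P z v t = ∑ i, eval (P.bv z) (P.Jb t i) * v i := by
  unfold L'
  simp only [ContinuousLinearMap.sum_apply, ContinuousLinearMap.smul_apply,
    ContinuousLinearMap.smulRight_apply, ContinuousLinearMap.proj_apply, Finset.sum_apply,
    Pi.smul_apply, smul_eq_mul]
  rw [Finset.sum_eq_single t]
  · simp
  · intro j _ hj
    refine Finset.sum_eq_zero fun i _ => ?_
    rw [Pi.single_eq_of_ne (Ne.symm hj), mul_zero, mul_zero]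
  · intro h
    exact absurd (Finset.mem_univ t) h

private theorem xi_fderiv (hP : P.Ok) (z : ι → ℂ) (hz : z ∈ ball (0 : ι → ℂ) P.r) :
    HasFDerivAt P.ξ (L P z) z := by
  rw [hasFDerivAt_pi']
  intro i
  have h1 : HasFDerivAt (fun w => P.ξ w i) (fderiv ℂ (fun w => P.ξ w i) z) z :=
    ((PA.xi_don P i).differentiableAt (isOpen_ball.mem_nhds hz)).hasFDerivAt
  have h2 : (ContinuousLinearMap.proj i).comp (L P z) = fderiv ℂ (fun w => P.ξ w i) z := by
    ext v
    rw [ContinuousLinearMap.comp_apply, ContinuousLinearMap.proj_apply, L_apply]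
    have hv : v = ∑ t, v t • (Pi.single t (1 : ℂ) : ι → ℂ) := by
      funext u
      simp [Finset.sum_apply, Pi.single_apply]
    conv_rhs => rw [hv]
    rw [map_sum]
    refine Finset.sum_congr rfl fun t _ => ?_
    rw [map_smul, hP.Jf z hz i t, smul_eq_mul, mul_comm]
  rw [h2]
  exact h1

private theorem xi_open (hP : P.Ok) (z : ι → ℂ) (hz : z ∈ ball (0 : ι → ℂ) P.r) :
    map P.ξ (𝓝 z) = 𝓝 (P.ξ z) := by
  have hcont : ContinuousAt (fun w => L P w) z := by
    unfold L
    refine tendsto_finsetSum _ fun i _ => tendsto_finsetSum _ fun t _ => ?_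
    have h1 : ContinuousAt (fun w => eval (P.bv w) (P.Jf i t)) z :=
      ((ev_don P hP (P.Jf i t)).differentiableAt (isOpen_ball.mem_nhds hz)).continuousAt
    exact Tendsto.smul h1 tendsto_const_nhds
  have hs : HasStrictFDerivAt P.ξ (L P z) z := by
    refine hasStrictFDerivAt_of_hasFDerivAt_of_continuousAt ?_ hcont
    filter_upwards [isOpen_ball.mem_nhds hz] with w hw
    exact xi_fderiv P hP w hw
  let e : (ι → ℂ) ≃L[ℂ] (π → ℂ) := ContinuousLinearEquiv.equivOfInverse (L P z) (L' P z)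
    (by
      intro v
      funext t
      rw [L'_apply]
      simp only [L_apply]
      calc ∑ i, eval (P.bv z) (P.Jb t i) * ∑ t', eval (P.bv z) (P.Jf i t') * v t'
          = ∑ t', (∑ i, eval (P.bv z) (P.Jb t i) * eval (P.bv z) (P.Jf i t')) * v t' := by
            simp only [Finset.mul_sum, Finset.sum_mul]
            rw [Finset.sum_comm]
            refine Finset.sum_congr rfl fun _ _ => Finset.sum_congr rfl fun _ _ => by ring
        _ = ∑ t', (if t = t' then 1 else 0) * v t' :=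
            Finset.sum_congr rfl fun t' _ => by rw [hP.Jbf z hz t t']
        _ = v t := by simp)
    (by
      intro v
      funext i
      rw [L_apply]
      simp only [L'_apply]
      calc ∑ t, eval (P.bv z) (P.Jf i t) * ∑ i', eval (P.bv z) (P.Jb t i') * v i'
          = ∑ i', (∑ t, eval (P.bv z) (P.Jf i t) * eval (P.bv z) (P.Jb t i')) * v i' := by
            simp only [Finset.mul_sum, Finset.sum_mul]
            rw [Finset.sum_comm]
            refine Finset.sum_congr rfl fun _ _ => Finset.sum_congr rfl fun _ _ => by ring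
        _ = ∑ i', (if i = i' then 1 else 0) * v i' :=
            Finset.sum_congr rfl fun i' _ => by rw [hP.Jfb z hz i i']
        _ = v i := by simp)
  exact HasStrictFDerivAt.map_nhds_eq_of_equiv (f' := e) hs

end TA2

variable {π ι : Type} [Fintype π] [Fintype ι] [DecidableEq π] [DecidableEq ι] (P : Pkg π ι)

/-- (TA2a) algebraic `x_i` give algebraic generators -/
theorem Pkg.Ok.alg_of_x (hP : P.Ok) (z : ι → ℂ) (hz : z ∈ ball (0 : ι → ℂ) P.r)
    (h : ∀ i, IsAlgebraic ℚ (P.ξ z i)) : ∀ g, IsAlgebraic ℚ (P.bv z g) := by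
  have h2 : IsAlgebraic ℚ ((1 : ℂ) / 2) := by
    have : ((1 : ℂ) / 2) = algebraMap ℚ ℂ (1 / 2) := by simp
    rw [this]
    exact isAlgebraic_algebraMap _
  have hx : ∀ i, IsAlgebraic ℚ (1 / 2 + P.ξ z i) := fun i => h2.add (h i)
  have hx' : ∀ i, IsAlgebraic ℚ (1 / 2 - P.ξ z i) := fun i => h2.sub (h i)
  have hy : ∀ i, IsAlgebraic ℚ (P.s i * ybr (P.D i) (P.j i) (P.k i) (P.ξ z i)) := by
    intro i
    have hD : P.D i ≠ 0 := by
      have := (P.hD i).1
      omega
    have hDc : (P.D i : ℂ) ≠ 0 := Nat.cast_ne_zero.2 hD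
    refine IsAlgebraic.of_pow (Nat.pos_of_ne_zero hD) ?_
    rw [mul_pow, P.hs i, one_mul]
    unfold ybr
    rw [mul_pow, ← Complex.cpow_nat_mul, ← Complex.cpow_nat_mul, mul_div_cancel₀ _ hDc,
      mul_div_cancel₀ _ hDc, Complex.cpow_natCast, Complex.cpow_natCast]
    exact ((hx i).pow _).mul ((hx' i).pow _)
  intro g
  rcases g with _ | i | i
  · show IsAlgebraic ℚ (eval (Sum.elim (fun i => 1 / 2 + P.ξ z i)
      (fun i => P.s i * ybr (P.D i) (P.j i) (P.k i) (P.ξ z i))) P.δ)⁻¹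
    refine IsAlgebraic.inv (TA2.alg_eval _ P.δalg _ fun t => ?_)
    rcases t with i | i
    · exact hx i
    · exact hy i
  · exact hx i
  · exact hy i

/-- (TA2b) points with algebraic generators are dense -/
theorem Pkg.Ok.alg_dense (hP : P.Ok) (O : Set (ι → ℂ)) (hO : IsOpen O) (hne : O.Nonempty)
    (hsub : O ⊆ ball (0 : ι → ℂ) P.r) : ∃ z ∈ O, ∀ g, IsAlgebraic ℚ (P.bv z g) := by
  obtain ⟨z0, hz0⟩ := hne
  have h1 : P.ξ '' O ∈ 𝓝 (P.ξ z0) := by
    rw [← TA2.xi_open P hP z0 (hsub hz0)]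
    exact image_mem_map (hO.mem_nhds hz0)
  have h2 : Dense (Set.pi (Set.univ : Set π) fun _ => {x : ℂ | IsAlgebraic ℚ x}) :=
    dense_pi _ fun _ _ => TA2.dense_alg
  obtain ⟨v, hv, hv'⟩ := h2.inter_nhds_nonempty h1
  obtain ⟨z, hz, rfl⟩ := hv'
  exact ⟨z, hz, Pkg.Ok.alg_of_x P hP z (hsub hz) fun i => hv i (Set.mem_univ i)⟩

/-- (TA2c) the opposite of an algebraic point is algebraic -/
theorem Pkg.Ok.alg_neg (hP : P.Ok) (z : ι → ℂ) (hz : z ∈ ball (0 : ι → ℂ) (P.r / 2))
    (h : ∀ g, IsAlgebraic ℚ (P.bv z g)) : ∀ g, IsAlgebraic ℚ (P.bv (-z) g) := by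
  have hr := P.hr
  have hh : ∀ a, IsAlgebraic ℚ (P.h z a) := fun a => TA2.alg_eval _ (P.Halg a) _ h
  have hzn : -z ∈ ball (0 : ι → ℂ) (P.r / 2) := by
    rw [mem_ball_zero_iff] at hz ⊢
    rwa [norm_neg]
  have hzr : -z ∈ ball (0 : ι → ℂ) P.r := ball_subset_ball (by linarith) hzn
  let f : P.μ ⊕ P.μ → MvPolynomial (Gx π) ℂ := Sum.elim (fun a => C (P.h z a)) P.H
  have hf : ∀ b, AlgC (f b) := by
    intro b
    rcases b with a | a
    · exact TA2.algC_C (hh a)
    · exact P.Halg a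
  have he : ∀ (z' : ι → ℂ) (p : MvPolynomial (P.μ ⊕ P.μ) ℂ),
      eval (P.bv z') (bind₁ f p) = eval (Sum.elim (P.h z) (P.h z')) p := by
    intro z' p
    rw [TA2.eval_bind]
    congr 1
    congr 1
    funext b
    rcases b with a | a
    · exact eval_C _
    · rfl
  refine Pkg.Ok.alg_of_germ P hP (-z) hzr 1 one_ne_zero (bind₁ f P.ad0) (fun a => bind₁ f (P.ad a))
    (TA2.algC_bind f hf _ P.ad0alg) (fun a => TA2.algC_bind f hf _ (P.adalg a)) ?_ ?_
  · rw [he]
    exact hP.ad0 z hz (-z) hzn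
  · filter_upwards [isOpen_ball.mem_nhds hzn] with z' hz' a
    rw [he, he, one_smul]
    have h1 : z' - -z = z + z' := by abel
    rw [h1]
    exact hP.ad z hz z' hz' a

end Pool.Agent.WW
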