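import Pool.Agent.WW.QDefs
import Pool.Agent.WW.PD
import Pool.Agent.WW.TA2

set_option autoImplicit false

namespace Pool.Agent.WW

open MvPolynomial Metric Filter Topology

namespace T0

section

variable {τ K : Type} [Fintype τ] [Field K]

/-- representation of a polynomial as a sum of monomials with control of the degree `d`, of the
denominator `den ^ N` and of the sum `L` of the absolute values of the coefficients -/
def Rep (den d N : ℕ) (L : ℝ) (Q : MvPolynomial τ K) : Prop :=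
  ∃ (I : Type) (_ : Fintype I) (e : I → (τ →₀ ℕ)) (c : I → K),
    Q = ∑ i, monomial (e i) (c i) ∧ (∀ i, ∑ g, e i g ≤ d) ∧
      (∀ i, IsIntegral ℤ ((den : K) ^ N * c i)) ∧ ∀ σ : K →+* ℂ, ∑ i, ‖σ (c i)‖ ≤ L

theorem int_nat (n : ℕ) : IsIntegral ℤ (n : K) := by
  have : (n : K) = algebraMap ℤ K n := by simp
  rw [this]
  exact isIntegral_algebraMap

theorem Rep.mono {den d d' N N' : ℕ} {L L' : ℝ} {Q : MvPolynomial τ K} (h : Rep den d N L Q)
    (hd : d ≤ d') (hN : N ≤ N') (hL : L ≤ L') : Rep den d' N' L' Q := by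
  obtain ⟨I, hI, e, c, h1, h2, h3, h4⟩ := h
  refine ⟨I, hI, e, c, h1, fun i => (h2 i).trans hd, fun i => ?_, fun σ => (h4 σ).trans hL⟩
  have : (den : K) ^ N' * c i = (den : K) ^ (N' - N) * ((den : K) ^ N * c i) := by
    rw [← mul_assoc, ← pow_add, Nat.sub_add_cancel hN]
  rw [this]
  exact ((int_nat den).pow _).mul (h3 i)

theorem Rep.one (den : ℕ) : Rep den 0 0 1 (1 : MvPolynomial τ K) := by
  refine ⟨Unit, inferInstance, fun _ => 0, fun _ => 1, ?_, ?_, ?_, ?_⟩
  · simp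
  · intro i
    simp
  · intro i
    simpa using (isIntegral_one : IsIntegral ℤ (1 : K))
  · intro σ
    simp

theorem Rep.mul {den d d' N N' : ℕ} {L L' : ℝ} {Q Q' : MvPolynomial τ K} (h : Rep den d N L Q)
    (h' : Rep den d' N' L' Q') : Rep den (d + d') (N + N') (L * L') (Q * Q') := by
  obtain ⟨I, hI, e, c, h1, h2, h3, h4⟩ := h
  obtain ⟨J, hJ, e', c', h1', h2', h3', h4'⟩ := h'
  refine ⟨I × J, inferInstance, fun x => e x.1 + e' x.2, fun x => c x.1 * c' x.2, ?_, ?_, ?_, ?_⟩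
  · rw [h1, h1', Finset.sum_mul_sum, Fintype.sum_prod_type]
    refine Finset.sum_congr rfl fun i _ => Finset.sum_congr rfl fun j _ => ?_
    rw [monomial_mul]
  · rintro ⟨i, j⟩
    simp only [Finsupp.add_apply, Finset.sum_add_distrib]
    exact add_le_add (h2 i) (h2' j)
  · rintro ⟨i, j⟩
    have : (den : K) ^ (N + N') * (c i * c' j) = ((den : K) ^ N * c i) * ((den : K) ^ N' * c' j) := by
      rw [pow_add]
      ring
    show IsIntegral ℤ ((den : K) ^ (N + N') * (c i * c' j))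
    rw [this]
    exact (h3 i).mul (h3' j)
  · intro σ
    have e1 : ∑ x : I × J, ‖σ (c x.1 * c' x.2)‖ = (∑ i, ‖σ (c i)‖) * ∑ j, ‖σ (c' j)‖ := by
      rw [Finset.sum_mul_sum, Fintype.sum_prod_type]
      refine Finset.sum_congr rfl fun i _ => Finset.sum_congr rfl fun j _ => ?_
      rw [map_mul, norm_mul]
    rw [e1]
    have p1 : 0 ≤ ∑ i, ‖σ (c i)‖ := Finset.sum_nonneg fun i _ => norm_nonneg _
    have p2 : 0 ≤ ∑ j, ‖σ (c' j)‖ := Finset.sum_nonneg fun i _ => norm_nonneg _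
    exact mul_le_mul (h4 σ) (h4' σ) p2 (p1.trans (h4 σ))

theorem Rep.sum {den d N : ℕ} {L : ℝ} {Q : τ → MvPolynomial τ K} (h : ∀ g, Rep den d N L (Q g)) :
    Rep den d N (Fintype.card τ * L) (∑ g, Q g) := by
  choose I hI e c h1 h2 h3 h4 using h
  refine ⟨Σ g, I g, inferInstance, fun x => e x.1 x.2, fun x => c x.1 x.2, ?_, ?_, ?_, ?_⟩
  · rw [Fintype.sum_sigma]
    refine Finset.sum_congr rfl fun g _ => ?_
    rw [h1 g]
  · rintro ⟨g, i⟩
    exact h2 g i
  · rintro ⟨g, i⟩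
    exact h3 g i
  · intro σ
    rw [Fintype.sum_sigma]
    calc ∑ g, ∑ i, ‖σ (c g i)‖ ≤ ∑ _g : τ, L := Finset.sum_le_sum fun g _ => h4 g σ
      _ = Fintype.card τ * L := by simp

theorem Rep.pderiv {den d N : ℕ} {L : ℝ} {Q : MvPolynomial τ K} (h : Rep den d N L Q) (g : τ) :
    Rep den d N (d * L) (MvPolynomial.pderiv g Q) := by
  classical
  obtain ⟨I, hI, e, c, h1, h2, h3, h4⟩ := h
  refine ⟨I, hI, fun i => e i - Finsupp.single g 1, fun i => c i * (e i g : K), ?_, ?_, ?_, ?_⟩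
  · rw [h1, map_sum]
    refine Finset.sum_congr rfl fun i _ => ?_
    rw [pderiv_monomial]
  · intro i
    refine le_trans (Finset.sum_le_sum fun x _ => ?_) (h2 i)
    rw [Finsupp.tsub_apply]
    exact Nat.sub_le _ _
  · intro i
    show IsIntegral ℤ ((den : K) ^ N * (c i * (e i g : K)))
    rw [← mul_assoc]
    exact (h3 i).mul (int_nat _)
  · intro σ
    have hle : ∀ i, e i g ≤ d := fun i =>
      (Finset.single_le_sum (f := fun x => e i x) (fun x _ => Nat.zero_le _) (Finset.mem_univ g)).trans (h2 i)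
    calc ∑ i, ‖σ (c i * (e i g : K))‖ ≤ ∑ i, (d : ℝ) * ‖σ (c i)‖ := by
          refine Finset.sum_le_sum fun i _ => ?_
          rw [map_mul, norm_mul, map_natCast, mul_comm]
          have : ‖((e i g : ℕ) : ℂ)‖ = (e i g : ℝ) := by simp
          rw [this]
          exact mul_le_mul_of_nonneg_right (by exact_mod_cast hle i) (norm_nonneg _)
      _ = d * ∑ i, ‖σ (c i)‖ := by rw [Finset.mul_sum]
      _ ≤ d * L := mul_le_mul_of_nonneg_left (h4 σ) (Nat.cast_nonneg d)

theorem Rep.pow {den d N : ℕ} {L : ℝ} {Q : MvPolynomial τ K} (h : Rep den d N L Q) (n : ℕ) :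
    Rep den (n * d) (n * N) (L ^ n) (Q ^ n) := by
  induction n with
  | zero => simpa using Rep.one (τ := τ) (K := K) den
  | succ n ih =>
    have := ih.mul h
    rw [pow_succ, pow_succ]
    exact this.mono (by rw [Nat.succ_mul]) (by rw [Nat.succ_mul]) le_rfl

theorem Rep.prod {m : ℕ} {den d N : ℕ} {L : ℝ} (Q : Fin m → MvPolynomial τ K)
    (h : ∀ t, Rep den d N L (Q t)) (β : Fin m → ℕ) :
    Rep den ((∑ t, β t) * d) ((∑ t, β t) * N) (L ^ (∑ t, β t)) (∏ t, Q t ^ β t) := by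
  classical
  have key : ∀ s : Finset (Fin m), Rep den ((∑ t ∈ s, β t) * d) ((∑ t ∈ s, β t) * N)
      (L ^ (∑ t ∈ s, β t)) (∏ t ∈ s, Q t ^ β t) := by
    intro s
    induction s using Finset.induction_on with
    | empty => simpa using Rep.one (τ := τ) (K := K) den
    | insert a s ha ih =>
      rw [Finset.prod_insert ha, Finset.sum_insert ha, add_mul, add_mul, pow_add]
      exact ((h a).pow (β a)).mul ih
  exact key Finset.univ

theorem Rep.eval {den d N : ℕ} {L Cb : ℝ} {Q : MvPolynomial τ K} (h : Rep den d N L Q) (b : τ → K)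
    (hb : ∀ g, IsIntegral ℤ ((den : K) * b g)) (hC : 1 ≤ Cb) (hb' : ∀ (σ : K →+* ℂ) g, ‖σ (b g)‖ ≤ Cb) :
    IsIntegral ℤ ((den : K) ^ (N + d) * MvPolynomial.eval b Q) ∧
      ∀ σ : K →+* ℂ, ‖σ (MvPolynomial.eval b Q)‖ ≤ L * Cb ^ d := by
  obtain ⟨I, hI, e, c, h1, h2, h3, h4⟩ := h
  have hev : ∀ i, MvPolynomial.eval b (monomial (e i) (c i)) = c i * ∏ g, b g ^ (e i g) := by
    intro i
    rw [eval_monomial, Finsupp.prod_fintype]
    intro g
    simp
  constructor
  · rw [h1, map_sum, Finset.mul_sum]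
    refine IsIntegral.sum _ fun i _ => ?_
    rw [hev i]
    have hd : N + d = N + ((∑ g, e i g) + (d - ∑ g, e i g)) := by
      have := h2 i
      omega
    have e1 : (den : K) ^ (N + d) * (c i * ∏ g, b g ^ (e i g)) =
        ((den : K) ^ N * c i) * (∏ g, ((den : K) * b g) ^ (e i g)) * (den : K) ^ (d - ∑ g, e i g) := by
      rw [hd, pow_add, pow_add]
      simp only [mul_pow, Finset.prod_mul_distrib, Finset.prod_pow_eq_pow_sum]
      have : ∑ g, e i g + (d - ∑ g, e i g) - ∑ g, e i g = d - ∑ g, e i g := by omega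
      ring_nf
    rw [e1]
    refine ((h3 i).mul (IsIntegral.prod _ fun g _ => (hb g).pow _)).mul ((int_nat den).pow _)
  · intro σ
    rw [h1, map_sum, map_sum]
    calc ‖∑ i, σ (MvPolynomial.eval b (monomial (e i) (c i)))‖
        ≤ ∑ i, ‖σ (MvPolynomial.eval b (monomial (e i) (c i)))‖ := norm_sum_le _ _
      _ ≤ ∑ i, ‖σ (c i)‖ * Cb ^ d := by
          refine Finset.sum_le_sum fun i _ => ?_
          rw [hev i, map_mul, norm_mul, map_prod, norm_prod]
          refine mul_le_mul_of_nonneg_left ?_ (norm_nonneg _)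
          calc ∏ g, ‖σ (b g ^ (e i g))‖ ≤ ∏ g, Cb ^ (e i g) := by
                refine Finset.prod_le_prod (fun g _ => norm_nonneg _) fun g _ => ?_
                rw [map_pow, norm_pow]
                exact pow_le_pow_left₀ (norm_nonneg _) (hb' σ g) _
            _ = Cb ^ (∑ g, e i g) := by rw [Finset.prod_pow_eq_pow_sum]
            _ ≤ Cb ^ d := pow_le_pow_right₀ hC (h2 i)
      _ = (∑ i, ‖σ (c i)‖) * Cb ^ d := by rw [Finset.sum_mul]
      _ ≤ L * Cb ^ d := mul_le_mul_of_nonneg_right (h4 σ) (pow_nonneg (zero_le_one.trans hC) _)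

theorem Rep.base [Finite (K →+* ℂ)] (den : ℕ) (Q : MvPolynomial τ K)
    (h : ∀ m, IsIntegral ℤ ((den : K) * Q.coeff m)) : ∃ (d : ℕ) (L : ℝ), Rep den d 1 L Q := by
  classical
  have := Fintype.ofFinite (K →+* ℂ)
  refine ⟨∑ m ∈ Q.support, ∑ g, m g, ∑ σ : K →+* ℂ, ∑ i : {m // m ∈ Q.support}, ‖σ (Q.coeff i.1)‖,
    {m // m ∈ Q.support}, inferInstance, fun i => i.1, fun i => Q.coeff i.1, ?_, ?_, ?_, ?_⟩
  · conv_lhs => rw [Q.as_sum]
    exact (Finset.sum_coe_sort Q.support fun m => monomial m (Q.coeff m)).symm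
  · intro i
    exact Finset.single_le_sum (f := fun m : τ →₀ ℕ => ∑ g, m g) (fun m _ => Nat.zero_le _) i.2
  · intro i
    rw [pow_one]
    exact h i.1
  · intro σ
    exact Finset.single_le_sum (f := fun σ : K →+* ℂ => ∑ i : {m // m ∈ Q.support}, ‖σ (Q.coeff i.1)‖)
      (fun σ _ => Finset.sum_nonneg fun i _ => norm_nonneg _) (Finset.mem_univ σ)

/-- the derivation with values `D g` on the generators -/
noncomputable def Dop (D : τ → MvPolynomial τ K) (Q : MvPolynomial τ K) : MvPolynomial τ K :=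
  ∑ g, MvPolynomial.pderiv g Q * D g

/-- composition of derivations -/
noncomputable def Dl {m : ℕ} (D : Fin m → τ → MvPolynomial τ K) :
    List (Fin m) → MvPolynomial τ K → MvPolynomial τ K
  | [], Q => Q
  | i :: l, Q => Dop (D i) (Dl D l Q)

theorem Rep.Dop {den d N d' N' : ℕ} {L L' : ℝ} {Q : MvPolynomial τ K} (h : Rep den d N L Q)
    {D : τ → MvPolynomial τ K} (h' : ∀ g, Rep den d' N' L' (D g)) :
    Rep den (d + d') (N + N') (Fintype.card τ * (d * L * L')) (T0.Dop D Q) :=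
  Rep.sum fun g => (h.pderiv g).mul (h' g)

theorem Rep.Dl {m : ℕ} {den d0 N0 e M : ℕ} {L0 L' : ℝ} {Q : MvPolynomial τ K} (h : Rep den d0 N0 L0 Q)
    (hL0 : 0 ≤ L0) (hL' : 0 ≤ L') {D : Fin m → τ → MvPolynomial τ K} (h' : ∀ i g, Rep den e 1 L' (D i g))
    (l : List (Fin m)) (hl : l.length ≤ M) :
    Rep den (d0 + l.length * e) (N0 + l.length)
      (L0 * (Fintype.card τ * ((d0 + M * e : ℕ) : ℝ) * L') ^ l.length) (T0.Dl D l Q) := by
  induction l with
  | nil => simpa [T0.Dl] using h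
  | cons i l ih =>
    have h1 := ih (by simp only [List.length_cons] at hl; omega)
    have h2 := h1.Dop (h' i)
    refine h2.mono ?_ ?_ ?_
    · simp only [List.length_cons]
      ring_nf
      exact le_rfl
    · simp only [List.length_cons]
      omega
    · simp only [List.length_cons]
      have h3 : ((d0 + l.length * e : ℕ) : ℝ) ≤ ((d0 + M * e : ℕ) : ℝ) := by
        have : l.length ≤ M := by simp only [List.length_cons] at hl; omega
        exact_mod_cast Nat.add_le_add_left (Nat.mul_le_mul_right e this) d0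
      have h4 : 0 ≤ L0 * (Fintype.card τ * ((d0 + M * e : ℕ) : ℝ) * L') ^ l.length := by positivity
      rw [pow_succ]
      calc (Fintype.card τ : ℝ) * (((d0 + l.length * e : ℕ) : ℝ) *
            (L0 * (Fintype.card τ * ((d0 + M * e : ℕ) : ℝ) * L') ^ l.length) * L')
          ≤ (Fintype.card τ : ℝ) * (((d0 + M * e : ℕ) : ℝ) *
            (L0 * (Fintype.card τ * ((d0 + M * e : ℕ) : ℝ) * L') ^ l.length) * L') := by
            gcongr
        _ = _ := by ring

end


section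

variable {π ι : Type} [Fintype π] [Fintype ι] [DecidableEq π] [DecidableEq ι] (P : Pkg π ι)

/-- chain rule for derivations -/
theorem der_aeval {R τ : Type} [CommRing R] [Algebra ℂ R] [Fintype τ] (d : Derivation ℂ R R)
    (f : τ → R) (Q : MvPolynomial τ ℂ) :
    d (aeval f Q) = ∑ g, aeval f (MvPolynomial.pderiv g Q) * d (f g) := by
  classical
  induction Q using MvPolynomial.induction_on with
  | C a => simp
  | add p q hp hq =>
    simp only [map_add, hp, hq, add_mul, Finset.sum_add_distrib]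
  | mul_X p i hp =>
    simp only [map_mul, aeval_X, Derivation.leibniz, hp, smul_eq_mul, map_add, add_mul,
      Finset.sum_add_distrib, Finset.mul_sum]
    congr 1
    · rw [Finset.sum_eq_single i]
      · simp
      · intro g' _ hg
        rw [pderiv_X_of_ne hg.symm, map_zero, mul_zero, zero_mul]
      · intro h
        exact absurd (Finset.mem_univ i) h
    · refine Finset.sum_congr rfl fun g _ => ?_
      ring

/-- lifting of polynomials to a subfield -/
theorem exists_lift {τ : Type} (K : IntermediateField ℚ ℂ) (Q : MvPolynomial τ ℂ)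
    (h : ∀ m, Q.coeff m ∈ K) : ∃ Q' : MvPolynomial τ K, map (algebraMap K ℂ) Q' = Q := by
  have h1 : Q ∈ Set.range (MvPolynomial.map (algebraMap K ℂ)) := by
    rw [mem_range_map_iff_coeffs_subset]
    intro c hc
    obtain ⟨m, hm, rfl⟩ := mem_coeffs_iff.1 hc
    exact ⟨⟨_, h m⟩, rfl⟩
  exact h1

theorem bv_xy (z : ι → ℂ) (p : MvPolynomial (π ⊕ π) ℂ) :
    eval (P.bv z) (rename some p) = eval (TA1.xy P z) p := by
  rw [eval_rename]
  have h : P.bv z ∘ some = TA1.xy P z := by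
    funext g
    rcases g with i | i <;> rfl
  rw [h]

/-- the values of the derivations on the generators -/
theorem fd_none (hP : P.Ok) (w : ι → ℂ) (hw : w ∈ ball (0 : ι → ℂ) P.r) (e : ι → ℂ) :
    fderiv ℂ (fun z => P.bv z none) w e = - P.bv w none ^ 2 *
      ∑ g : π ⊕ π, eval (P.bv w) (rename some (MvPolynomial.pderiv g P.δ)) *
        fderiv ℂ (fun z => P.bv z (some g)) w e := by
  have hnh := isOpen_ball.mem_nhds hw
  have hd : ∀ g, DifferentiableAt ℂ (fun z => TA1.xy P z g) w := by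
    rintro (i | i)
    · exact (TA1.bv_don P hP (some (Sum.inl i))).differentiableAt hnh
    · exact (TA1.bv_don P hP (some (Sum.inr i))).differentiableAt hnh
  obtain ⟨hB1, hB2⟩ := TA1.chB (TA1.xy P) hd P.δ
  have hne : eval (TA1.xy P w) P.δ ≠ 0 := P.δne w hw
  have h3 : HasFDerivAt (fun z => (eval (TA1.xy P z) P.δ)⁻¹)
      (-((eval (TA1.xy P w) P.δ) ^ 2)⁻¹ • fderiv ℂ (fun z => eval (TA1.xy P z) P.δ) w) w :=
    (hasDerivAt_inv hne).comp_hasFDerivAt w hB1.hasFDerivAt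
  have h4 : fderiv ℂ (fun z => P.bv z none) w =
      (-((eval (TA1.xy P w) P.δ) ^ 2)⁻¹ • fderiv ℂ (fun z => eval (TA1.xy P z) P.δ) w) := h3.fderiv
  have h5 : P.bv w none = (eval (TA1.xy P w) P.δ)⁻¹ := rfl
  have h6 : ∀ g : π ⊕ π, (fun z => P.bv z (some g)) = fun z => TA1.xy P z g := by
    rintro (i | i) <;> rfl
  rw [h4, h5]
  change -((eval (TA1.xy P w) P.δ) ^ 2)⁻¹ * fderiv ℂ (fun z => eval (TA1.xy P z) P.δ) w e = _
  rw [hB2 e, inv_pow]
  congr 1
  refine Finset.sum_congr rfl fun g _ => ?_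
  rw [bv_xy, h6 g]

/-- polynomials for the derivations of the generators, over any ring -/
noncomputable def Dg {K : Type} [CommRing K] (Jf : π → MvPolynomial (Gx π) K)
    (ux : π → MvPolynomial (Gx π) K) (δ : MvPolynomial (π ⊕ π) K) (a b : π → K) :
    Gx π → MvPolynomial (Gx π) K
  | some (Sum.inl i) => Jf i
  | some (Sum.inr i) => X (some (Sum.inr i)) *
      ((C (a i) * (1 - X (some (Sum.inl i))) - C (b i) * X (some (Sum.inl i))) * ux i) * Jf i
  | none => - X none ^ 2 * (∑ i, rename some (MvPolynomial.pderiv (Sum.inl i) δ) * Jf i +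
      ∑ i, rename some (MvPolynomial.pderiv (Sum.inr i) δ) * (X (some (Sum.inr i)) *
      ((C (a i) * (1 - X (some (Sum.inl i))) - C (b i) * X (some (Sum.inl i))) * ux i) * Jf i))

theorem map_Dg {K : Type} [CommRing K] (f : K →+* ℂ) (Jf : π → MvPolynomial (Gx π) K)
    (ux : π → MvPolynomial (Gx π) K) (δ : MvPolynomial (π ⊕ π) K) (a b : π → K) (g : Gx π) :
    map f (Dg Jf ux δ a b g) = Dg (fun i => map f (Jf i)) (fun i => map f (ux i)) (map f δ)
      (fun i => f (a i)) (fun i => f (b i)) g := by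
  rcases g with _ | i | i
  · simp only [Dg, map_mul, map_neg, map_pow, map_X, map_add, map_sum, map_sub, map_C, map_one,
      map_rename, pderiv_map]
  · rfl
  · simp only [Dg, map_mul, map_X, map_sub, map_C, map_one]

theorem fd_gen (hP : P.Ok) (w : ι → ℂ) (hw : w ∈ ball (0 : ι → ℂ) P.r) (t : ι) (g : Gx π) :
    fderiv ℂ (fun z => P.bv z g) w (Pi.single t 1) = eval (P.bv w) (Dg (fun i => P.Jf i t) P.ux P.δ
      (fun i => (P.j i : ℂ) / P.D i) (fun i => (P.k i : ℂ) / P.D i) g) := by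
  have hx : ∀ i, fderiv ℂ (fun z => P.bv z (some (Sum.inl i))) w (Pi.single t 1) =
      eval (P.bv w) (P.Jf i t) := by
    intro i
    have h1 : fderiv ℂ (fun z => P.bv z (some (Sum.inl i))) w = fderiv ℂ (fun z => P.ξ z i) w :=
      fderiv_const_add (1 / 2 : ℂ)
    rw [h1]
    exact hP.Jf w hw i t
  have hy : ∀ i, fderiv ℂ (fun z => P.bv z (some (Sum.inr i))) w (Pi.single t 1) =
      eval (P.bv w) (X (some (Sum.inr i)) *
      ((C ((P.j i : ℂ) / P.D i) * (1 - X (some (Sum.inl i))) - C ((P.k i : ℂ) / P.D i) *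
        X (some (Sum.inl i))) * P.ux i) * P.Jf i t) := by
    intro i
    rw [TA1.fd_y P w hw i, hP.Jf w hw i t]
    simp only [map_mul, map_sub, eval_X, eval_C, map_one]
    have h4 := hP.ux w hw i
    have h8 : (1 / 2 + P.ξ w i) * (1 / 2 - P.ξ w i) ≠ 0 := right_ne_zero_of_mul_eq_one h4
    have h9 : eval (P.bv w) (P.ux i) = 1 / ((1 / 2 + P.ξ w i) * (1 / 2 - P.ξ w i)) :=
      (eq_div_iff h8).2 h4
    have h10 : (1 / 2 + P.ξ w i) ≠ 0 := left_ne_zero_of_mul h8
    have h11 : (1 / 2 - P.ξ w i) ≠ 0 := right_ne_zero_of_mul h8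
    have h12 : P.bv w (some (Sum.inl i)) = 1 / 2 + P.ξ w i := rfl
    rw [h9, h12]
    have h13 : 1 - (1 / 2 + P.ξ w i) = 1 / 2 - P.ξ w i := by ring
    rw [h13, div_sub_div _ _ h10 h11]
    generalize eval (P.bv w) (P.Jf i t) = J
    generalize P.bv w (some (Sum.inr i)) = Y
    generalize (P.j i : ℂ) / P.D i = a
    generalize (P.k i : ℂ) / P.D i = b
    field_simp
  rcases g with _ | i | i
  · rw [fd_none P hP w hw, Fintype.sum_sum_type]
    simp only [hx, hy, Dg, map_mul, map_neg, map_pow, eval_X, map_add, map_sum]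
  · exact hx i
  · exact hy i

theorem d_gen (hP : P.Ok) {d : ι → Derivation ℂ P.Rg P.Rg} (hd : P.IsPd d) (t : ι) (g : Gx π) :
    d t (P.gr g) = aeval P.gr (Dg (fun i => P.Jf i t) P.ux P.δ
      (fun i => (P.j i : ℂ) / P.D i) (fun i => (P.k i : ℂ) / P.D i) g) := by
  apply Subtype.ext
  funext z
  rw [Pkg.aeval_gr, hd t (P.gr g) z, ← fd_gen P hP z z.2 t g]
  rw [(PA.ext_ev P (f := P.gn g) (F := fun z => P.bv z g) (fun _ => rfl) z.2).fderiv_eq.symm]
  rfl

end

end T0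

variable {π : Type} [Fintype π] [DecidableEq π] {m : ℕ} (P : Pkg π (Fin (m + 1)))

/-- (T0) arithmetic size of the derivatives of monomials in abelian functions at an algebraic
point -/
theorem Pkg.Ok.val (hP : P.Ok) {N : ℕ} (A : DR P.Rg m N) (hA : P.IsPd A.d)
    (u : Fin (m + 1) → P.μ) (z : P.Bl) (hz : ∀ g, IsAlgebraic ℚ (P.bv z g)) :
    ∃ K : IntermediateField ℚ ℂ, FiniteDimensional ℚ K ∧ ∃ c : ℕ, 0 < c ∧
      ∀ (M : ℕ) (l : List (Fin (m + 1))) (β : Fin (m + 1) → ℕ), l.length ≤ M → ∑ t, β t ≤ M →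
        ∃ x : K, (x : ℂ) = P.ev z (A.dw l (∏ t, P.hr' (u t) ^ β t)) ∧
          IsIntegral ℤ ((c : K) ^ M * x) ∧
          ∀ σ : K →+* ℂ, ‖σ x‖ ≤ ((c : ℝ) * (M + 1)) ^ (c * M) := by
  classical
  -- the field
  let S : Set ℂ := (⋃ t, ((P.H (u t)).coeffs : Set ℂ)) ∪ (⋃ i, ⋃ t, ((P.Jf i t).coeffs : Set ℂ)) ∪
    (⋃ i, ((P.ux i).coeffs : Set ℂ)) ∪ (P.δ.coeffs : Set ℂ) ∪ Set.range (P.bv z)
  have hSf : S.Finite := by
    refine ((((Set.finite_iUnion fun t => Finset.finite_toSet _).union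
      (Set.finite_iUnion fun i => Set.finite_iUnion fun t => Finset.finite_toSet _)).union
      (Set.finite_iUnion fun i => Finset.finite_toSet _)).union (Finset.finite_toSet _)).union
      (Set.finite_range _)
  have hSa : ∀ x ∈ S, IsIntegral ℚ x := by
    rintro x ((((hx | hx) | hx) | hx) | hx)
    · obtain ⟨t, hx⟩ := Set.mem_iUnion.1 hx
      obtain ⟨k, -, rfl⟩ := mem_coeffs_iff.1 hx
      exact (P.Halg (u t) k).isIntegral
    · obtain ⟨i, hx⟩ := Set.mem_iUnion.1 hx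
      obtain ⟨t, hx⟩ := Set.mem_iUnion.1 hx
      obtain ⟨k, -, rfl⟩ := mem_coeffs_iff.1 hx
      exact (P.Jfalg i t k).isIntegral
    · obtain ⟨t, hx⟩ := Set.mem_iUnion.1 hx
      obtain ⟨k, -, rfl⟩ := mem_coeffs_iff.1 hx
      exact (P.uxalg t k).isIntegral
    · obtain ⟨k, -, rfl⟩ := mem_coeffs_iff.1 hx
      exact (P.δalg k).isIntegral
    · obtain ⟨g, rfl⟩ := hx
      exact (hz g).isIntegral
  have hfin : Finite S := hSf
  let K : IntermediateField ℚ ℂ := IntermediateField.adjoin ℚ S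
  have hKfd : FiniteDimensional ℚ K := IntermediateField.finiteDimensional_adjoin hSa
  have hSK : ∀ x ∈ S, x ∈ K := fun x hx => IntermediateField.subset_adjoin ℚ S hx
  have hNF : NumberField K := ⟨⟩
  have hfe : Finite (K →+* ℂ) := inferInstance
  have hcoef : ∀ {τ : Type} (Q : MvPolynomial τ ℂ), (Q.coeffs : Set ℂ) ⊆ S → ∀ k, Q.coeff k ∈ K := by
    intro τ Q hQ k
    by_cases hk : Q.coeff k = 0
    · rw [hk]
      exact K.zero_mem
    · exact hSK _ (hQ (coeff_mem_coeffs k hk))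
  -- lifts
  have hH : ∀ t, ∃ Q' : MvPolynomial (Gx π) K, map (algebraMap K ℂ) Q' = P.H (u t) := fun t =>
    T0.exists_lift K _ (hcoef _ fun x hx => Or.inl (Or.inl (Or.inl (Or.inl (Set.mem_iUnion.2 ⟨t, hx⟩)))))
  have hJ : ∀ i t, ∃ Q' : MvPolynomial (Gx π) K, map (algebraMap K ℂ) Q' = P.Jf i t := fun i t =>
    T0.exists_lift K _ (hcoef _ fun x hx =>
      Or.inl (Or.inl (Or.inl (Or.inr (Set.mem_iUnion.2 ⟨i, Set.mem_iUnion.2 ⟨t, hx⟩⟩)))))
  have hu : ∀ i, ∃ Q' : MvPolynomial (Gx π) K, map (algebraMap K ℂ) Q' = P.ux i := fun i =>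
    T0.exists_lift K _ (hcoef _ fun x hx => Or.inl (Or.inl (Or.inr (Set.mem_iUnion.2 ⟨i, hx⟩))))
  obtain ⟨δ', hδ'⟩ : ∃ Q' : MvPolynomial (π ⊕ π) K, map (algebraMap K ℂ) Q' = P.δ :=
    T0.exists_lift K _ (hcoef _ fun x hx => Or.inl (Or.inr hx))
  choose H' hH' using hH
  choose J' hJ' using hJ
  choose u' hu' using hu
  let b : Gx π → K := fun g => ⟨P.bv z g, hSK _ (Or.inr ⟨g, rfl⟩)⟩
  let D' : Fin (m + 1) → Gx π → MvPolynomial (Gx π) K := fun t =>
    T0.Dg (fun i => J' i t) u' δ' (fun i => (P.j i : K) / P.D i) (fun i => (P.k i : K) / P.D i)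
  have hD' : ∀ t g, A.d t (P.gr g) = aeval P.gr (map (algebraMap K ℂ) (D' t g)) := by
    intro t g
    rw [T0.d_gen P hP hA t g, T0.map_Dg]
    simp only [hJ', hu', hδ', map_div₀, map_natCast]
  have hDop : ∀ t Q, A.d t (aeval P.gr (map (algebraMap K ℂ) Q)) =
      aeval P.gr (map (algebraMap K ℂ) (T0.Dop (D' t) Q)) := by
    intro t Q
    rw [T0.der_aeval]
    unfold T0.Dop
    simp only [map_sum, map_mul, hD', pderiv_map]
  have hDl : ∀ l Q, A.dw l (aeval P.gr (map (algebraMap K ℂ) Q)) =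
      aeval P.gr (map (algebraMap K ℂ) (T0.Dl D' l Q)) := by
    intro l Q
    induction l with
    | nil => rfl
    | cons i l ih =>
      show A.d i (A.dw l _) = _
      rw [ih, hDop]
      rfl
  have hprod : ∀ β : Fin (m + 1) → ℕ, ∏ t, P.hr' (u t) ^ β t =
      aeval P.gr (map (algebraMap K ℂ) (∏ t, H' t ^ β t)) := by
    intro β
    simp only [map_prod, map_pow, hH']
    rfl
  have hev : ∀ Q : MvPolynomial (Gx π) K, P.ev z (aeval P.gr (map (algebraMap K ℂ) Q)) =
      ((eval b Q : K) : ℂ) := by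
    intro Q
    have h1 : P.ev z (aeval P.gr (map (algebraMap K ℂ) Q)) =
        ((aeval P.gr (map (algebraMap K ℂ) Q) : P.Rg) : P.Bl → ℂ) z := rfl
    rw [h1, Pkg.aeval_gr, eval_map]
    have h2 : ((eval b Q : K) : ℂ) = algebraMap K ℂ (eval b Q) := rfl
    rw [h2, ← eval₂_id Q, hom_eval₂]
    rfl
  -- the denominator
  let F : Finset K := (Finset.univ.biUnion fun t => (H' t).coeffs) ∪
    (Finset.univ.biUnion fun t => Finset.univ.biUnion fun g => (D' t g).coeffs) ∪ Finset.univ.image b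
  obtain ⟨y, hy0, hy⟩ := exists_integral_multiples ℤ ℚ F
  let den : ℕ := y.natAbs
  have hden0 : 0 < den := Int.natAbs_pos.2 hy0
  have hden : ∀ x ∈ F, IsIntegral ℤ ((den : K) * x) := by
    intro x hx
    have h1 := hy x hx
    rw [zsmul_eq_mul] at h1
    rcases Int.natAbs_eq y with h2 | h2
    · have h3 : ((y : ℤ) : K) = (den : K) := by
        rw [h2]
        simp [den]
      rwa [h3] at h1
    · have h3 : ((y : ℤ) : K) = -(den : K) := by
        rw [h2]
        simp [den]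
      rw [h3, neg_mul] at h1
      simpa using h1.neg
  have hFc : ∀ (Q : MvPolynomial (Gx π) K), (Q.coeffs : Set K) ⊆ F →
      ∀ k, IsIntegral ℤ ((den : K) * Q.coeff k) := by
    intro Q hQ k
    by_cases hk : Q.coeff k = 0
    · rw [hk, mul_zero]
      exact isIntegral_zero
    · exact hden _ (hQ (coeff_mem_coeffs k hk))
  have hrH : ∀ t, ∃ (d : ℕ) (L : ℝ), T0.Rep den d 1 L (H' t) := fun t =>
    T0.Rep.base den _ (hFc _ fun x hx => by
      simp only [F, Finset.coe_union, Finset.coe_biUnion]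
      exact Or.inl (Or.inl (Set.mem_biUnion (Finset.mem_coe.2 (Finset.mem_univ t)) hx)))
  have hrD : ∀ t g, ∃ (d : ℕ) (L : ℝ), T0.Rep den d 1 L (D' t g) := fun t g =>
    T0.Rep.base den _ (hFc _ fun x hx => by
      simp only [F, Finset.coe_union, Finset.coe_biUnion]
      exact Or.inl (Or.inr (Set.mem_biUnion (Finset.mem_coe.2 (Finset.mem_univ t))
        (Set.mem_biUnion (Finset.mem_coe.2 (Finset.mem_univ g)) hx))))
  choose dH LH hrH using hrH
  choose dD LD hrD using hrD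
  have := Fintype.ofFinite (K →+* ℂ)
  -- uniform constants
  obtain ⟨e, he1, he2⟩ : ∃ e : ℕ, (∀ t, dH t ≤ e) ∧ ∀ t g, dD t g ≤ e := by
    refine ⟨∑ t, dH t + ∑ t, ∑ g, dD t g, fun t => ?_, fun t g => ?_⟩
    · exact (Finset.single_le_sum (f := dH) (fun _ _ => Nat.zero_le _) (Finset.mem_univ t)).trans
        (Nat.le_add_right _ _)
    · refine le_trans ?_ (Nat.le_add_left _ _)
      exact (Finset.single_le_sum (f := dD t) (fun _ _ => Nat.zero_le _) (Finset.mem_univ g)).trans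
        (Finset.single_le_sum (f := fun t => ∑ g, dD t g) (fun _ _ => Nat.zero_le _) (Finset.mem_univ t))
  obtain ⟨L, hL1, hL2, hL3, hL4⟩ : ∃ L : ℕ, 1 ≤ L ∧ (∀ t, LH t ≤ L) ∧ (∀ t g, LD t g ≤ L) ∧
      ∀ (σ : K →+* ℂ) g, ‖σ (b g)‖ ≤ L := by
    obtain ⟨L, hL⟩ := exists_nat_ge (1 + ∑ t, |LH t| + ∑ t, ∑ g, |LD t g| +
      ∑ σ : K →+* ℂ, ∑ g, ‖σ (b g)‖)
    have p1 : 0 ≤ ∑ t, |LH t| := Finset.sum_nonneg fun _ _ => abs_nonneg _
    have p2 : 0 ≤ ∑ t, ∑ g, |LD t g| := Finset.sum_nonneg fun _ _ => Finset.sum_nonneg fun _ _ => abs_nonneg _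
    have p3 : 0 ≤ ∑ σ : K →+* ℂ, ∑ g, ‖σ (b g)‖ :=
      Finset.sum_nonneg fun _ _ => Finset.sum_nonneg fun _ _ => norm_nonneg _
    refine ⟨L, ?_, fun t => ?_, fun t g => ?_, fun σ g => ?_⟩
    · have : (1 : ℝ) ≤ L := by linarith
      exact_mod_cast this
    · have h1 : |LH t| ≤ ∑ t, |LH t| :=
        Finset.single_le_sum (f := fun t => |LH t|) (fun _ _ => abs_nonneg _) (Finset.mem_univ t)
      have h2 := le_abs_self (LH t)
      linarith
    · have h1 : |LD t g| ≤ ∑ g, |LD t g| :=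
        Finset.single_le_sum (f := fun g => |LD t g|) (fun _ _ => abs_nonneg _) (Finset.mem_univ g)
      have h3 : ∑ g, |LD t g| ≤ ∑ t, ∑ g, |LD t g| :=
        Finset.single_le_sum (f := fun t => ∑ g, |LD t g|)
          (fun _ _ => Finset.sum_nonneg fun _ _ => abs_nonneg _) (Finset.mem_univ t)
      have h2 := le_abs_self (LD t g)
      linarith
    · have h1 : ‖σ (b g)‖ ≤ ∑ g, ‖σ (b g)‖ :=
        Finset.single_le_sum (f := fun g => ‖σ (b g)‖) (fun _ _ => norm_nonneg _) (Finset.mem_univ g)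
      have h3 : ∑ g, ‖σ (b g)‖ ≤ ∑ σ : K →+* ℂ, ∑ g, ‖σ (b g)‖ :=
        Finset.single_le_sum (f := fun σ : K →+* ℂ => ∑ g, ‖σ (b g)‖)
          (fun _ _ => Finset.sum_nonneg fun _ _ => norm_nonneg _) (Finset.mem_univ σ)
      linarith
  have hLR : (1 : ℝ) ≤ L := by exact_mod_cast hL1
  have hrH' : ∀ t, T0.Rep den e 1 (L : ℝ) (H' t) := fun t => (hrH t).mono (he1 t) le_rfl (hL2 t)
  have hrD' : ∀ t g, T0.Rep den e 1 (L : ℝ) (D' t g) := fun t g =>
    (hrD t g).mono (he2 t g) le_rfl (hL3 t g)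
  -- the constant
  let κ : ℕ := Fintype.card (Gx π)
  let B : ℕ := L * (κ * (2 * e) * L + 1) * L ^ (2 * e) + 3
  have hB1 : 1 ≤ B := by simp only [B]; omega
  let c : ℕ := den ^ (2 + 2 * e) * B
  have hc0 : 0 < c := Nat.mul_pos (Nat.pow_pos hden0) hB1
  have hBc : B ≤ c := Nat.le_mul_of_pos_left _ (Nat.pow_pos hden0)
  refine ⟨K, hKfd, c, hc0, ?_⟩
  intro M l β hl hβ
  have r1 := T0.Rep.prod (τ := Gx π) (K := K) H' hrH' β
  have r2 : T0.Rep den (M * e) (M * 1) ((L : ℝ) ^ M) (∏ t, H' t ^ β t) :=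
    r1.mono (Nat.mul_le_mul_right e hβ) (Nat.mul_le_mul_right 1 hβ) (pow_le_pow_right₀ hLR hβ)
  have r3 := r2.Dl (by positivity) (by positivity) hrD' l hl
  have r4 : T0.Rep den (2 * e * M) (2 * M)
      ((L : ℝ) ^ M * (κ * ((M * e + M * e : ℕ) : ℝ) * L + 1) ^ M) (T0.Dl D' l (∏ t, H' t ^ β t)) := by
    refine r3.mono ?_ ?_ ?_
    · have := Nat.mul_le_mul_right e hl
      nlinarith
    · omega
    · refine mul_le_mul_of_nonneg_left ?_ (by positivity)
      calc ((κ : ℝ) * ((M * e + M * e : ℕ) : ℝ) * L) ^ l.length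
          ≤ ((κ : ℝ) * ((M * e + M * e : ℕ) : ℝ) * L + 1) ^ l.length :=
            pow_le_pow_left₀ (by positivity) (by linarith) _
        _ ≤ ((κ : ℝ) * ((M * e + M * e : ℕ) : ℝ) * L + 1) ^ M := by
            refine pow_le_pow_right₀ ?_ hl
            have : 0 ≤ (κ : ℝ) * ((M * e + M * e : ℕ) : ℝ) * L := by positivity
            linarith
  obtain ⟨r5, r6⟩ := r4.eval b (fun g => hden _ (by
    simp only [F, Finset.mem_union, Finset.mem_image]
    exact Or.inr ⟨g, Finset.mem_univ g, rfl⟩)) hLR hL4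
  refine ⟨eval b (T0.Dl D' l (∏ t, H' t ^ β t)), ?_, ?_, ?_⟩
  · rw [hprod, hDl, hev]
  · have h1 : ((c : ℕ) : K) ^ M * eval b (T0.Dl D' l (∏ t, H' t ^ β t)) =
        ((B ^ M : ℕ) : K) * ((den : K) ^ (2 * M + 2 * e * M) * eval b (T0.Dl D' l (∏ t, H' t ^ β t))) := by
      simp only [c]
      push_cast
      rw [mul_pow, ← pow_mul]
      have : (2 + 2 * e) * M = 2 * M + 2 * e * M := by ring
      rw [this]
      ring
    rw [h1]
    exact (T0.int_nat _).mul r5
  · intro σ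
    refine (r6 σ).trans ?_
    have hM1 : (1 : ℝ) ≤ (M : ℝ) + 1 := by
      have : (0 : ℝ) ≤ M := Nat.cast_nonneg M
      linarith
    have hBR : (B : ℝ) = L * (κ * (2 * e) * L + 1) * L ^ (2 * e) + 3 := by
      simp only [B]
      push_cast
      ring
    have h1 : (L : ℝ) * (κ * ((M * e + M * e : ℕ) : ℝ) * L + 1) * L ^ (2 * e) ≤ B * (M + 1) := by
      rw [hBR]
      push_cast
      have p1 : (κ : ℝ) * ((M : ℝ) * e + M * e) * L + 1 ≤ (κ * (2 * e) * L + 1) * (M + 1) := by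
        have q1 : (0 : ℝ) ≤ M := Nat.cast_nonneg M
        have q2 : (0 : ℝ) ≤ κ * (2 * e) * L := by positivity
        nlinarith
      have p2 : (0 : ℝ) ≤ (L : ℝ) ^ (2 * e) := by positivity
      have p3 : (0 : ℝ) ≤ (L : ℝ) := by positivity
      calc (L : ℝ) * ((κ : ℝ) * ((M : ℝ) * e + M * e) * L + 1) * L ^ (2 * e)
          ≤ (L : ℝ) * ((κ * (2 * e) * L + 1) * (M + 1)) * L ^ (2 * e) := by gcongr
        _ = (L * (κ * (2 * e) * L + 1) * L ^ (2 * e)) * (M + 1) := by ring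
        _ ≤ (L * (κ * (2 * e) * L + 1) * L ^ (2 * e) + 3) * (M + 1) := by gcongr; linarith
    calc (L : ℝ) ^ M * (κ * ((M * e + M * e : ℕ) : ℝ) * L + 1) ^ M * (L : ℝ) ^ (2 * e * M)
        = ((L : ℝ) * (κ * ((M * e + M * e : ℕ) : ℝ) * L + 1) * L ^ (2 * e)) ^ M := by
          rw [mul_pow, mul_pow, pow_mul]
      _ ≤ ((B : ℝ) * (M + 1)) ^ M := pow_le_pow_left₀ (by positivity) h1 M
      _ ≤ ((c : ℝ) * (M + 1)) ^ M := by
          refine pow_le_pow_left₀ (by positivity) ?_ M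
          have : (B : ℝ) ≤ c := by exact_mod_cast hBc
          gcongr
      _ ≤ ((c : ℝ) * (M + 1)) ^ (c * M) := by
          refine pow_le_pow_right₀ ?_ (Nat.le_mul_of_pos_left _ hc0)
          have : (1 : ℝ) ≤ c := by exact_mod_cast hc0
          nlinarith

end Pool.Agent.WW
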