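import Mathlib

/-!
The directional derivatives of a complex differentiable function on an open subset of `ℂ^n` are
complex differentiable (Osgood, Goursat).
-/

set_option autoImplicit false

namespace Pool.Agent.WW

open Metric Filter Topology MeasureTheory

namespace T3o

variable {E : Type*} [NormedAddCommGroup E] [NormedSpace ℂ E]

/-- Cauchy estimate for the derivative -/
theorem norm_fderiv_le {f : E → ℂ} {y : E} {ρ C : ℝ} (hρ : 0 < ρ) (hC : 0 ≤ C)
    (hf : DifferentiableOn ℂ f (ball y ρ)) (hb : ∀ x ∈ ball y ρ, ‖f x‖ ≤ C) :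
    ‖fderiv ℂ f y‖ ≤ C / ρ := by
  apply ContinuousLinearMap.opNorm_le_bound _ (by positivity)
  intro v
  by_cases hv : v = 0
  · simp [hv]
  have hv0 : 0 < ‖v‖ := norm_pos_iff.2 hv
  have hfy : DifferentiableAt ℂ f y := (hf y (mem_ball_self hρ)).differentiableAt
    (isOpen_ball.mem_nhds (mem_ball_self hρ))
  have hline : HasDerivAt (fun s : ℂ => y + s • v) v 0 := by
    have := ((hasDerivAt_id (0 : ℂ)).smul_const v).const_add y
    simpa using this
  have hd : HasDerivAt (fun s : ℂ => f (y + s • v)) (fderiv ℂ f y v) 0 := by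
    have h1 : HasFDerivAt f (fderiv ℂ f y) (y + (0 : ℂ) • v) := by
      simpa using hfy.hasFDerivAt
    exact h1.comp_hasDerivAt (0 : ℂ) hline
  -- Cauchy on each smaller radius
  have key : ∀ R : ℝ, 0 < R → R < ρ / ‖v‖ → ‖fderiv ℂ f y v‖ ≤ C / R := by
    intro R hR hRlt
    rw [← hd.deriv]
    have hmem : ∀ s : ℂ, ‖s‖ ≤ R → y + s • v ∈ ball y ρ := by
      intro s hs
      rw [mem_ball, dist_eq_norm, add_sub_cancel_left, norm_smul]
      calc ‖s‖ * ‖v‖ ≤ R * ‖v‖ := by gcongr
        _ < ρ / ‖v‖ * ‖v‖ := by gcongr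
        _ = ρ := div_mul_cancel₀ _ hv0.ne'
    apply Complex.norm_deriv_le_of_forall_mem_sphere_norm_le hR
    · apply DifferentiableOn.diffContOnCl
      rw [closure_ball _ hR.ne']
      intro s hs
      rw [mem_closedBall_zero_iff] at hs
      have h2 : DifferentiableAt ℂ f (y + s • v) :=
        (hf _ (hmem s hs)).differentiableAt (isOpen_ball.mem_nhds (hmem s hs))
      apply DifferentiableAt.differentiableWithinAt
      exact h2.comp s (by fun_prop)
    · intro s hs
      rw [mem_sphere_zero_iff_norm] at hs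
      exact hb _ (hmem s hs.le)
  -- let R tend to ρ / ‖v‖
  have hlim : Tendsto (fun R : ℝ => C / R) (𝓝[<] (ρ / ‖v‖)) (𝓝 (C / (ρ / ‖v‖))) := by
    apply Tendsto.mono_left _ nhdsWithin_le_nhds
    exact (continuousAt_const.div continuousAt_id (div_pos hρ hv0).ne').tendsto
  have hge := ge_of_tendsto hlim (b := ‖fderiv ℂ f y v‖) (by
    have h0 : (0 : ℝ) < ρ / ‖v‖ := by positivity
    filter_upwards [Ioo_mem_nhdsLT h0] with R hR
    exact key R hR.1 hR.2)
  calc ‖fderiv ℂ f y v‖ ≤ C / (ρ / ‖v‖) := hge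
    _ = C / ρ * ‖v‖ := by field_simp

end T3o

/-- directional derivatives of holomorphic functions are holomorphic -/
theorem differentiableOn_fderiv_apply {n : ℕ} {f : (Fin n → ℂ) → ℂ} {U : Set (Fin n → ℂ)}
    (hU : IsOpen U) (hf : DifferentiableOn ℂ f U) (e : Fin n → ℂ) :
    DifferentiableOn ℂ (fun y => fderiv ℂ f y e) U := by
  intro y0 hy0
  -- a ball where f is bounded
  obtain ⟨ρ0, hρ0, hball⟩ := Metric.isOpen_iff.1 hU y0 hy0
  have hcont : ContinuousAt f y0 := ((hf y0 hy0).differentiableAt (hU.mem_nhds hy0)).continuousAt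
  obtain ⟨ρ1, hρ1, hbd⟩ := Metric.continuousAt_iff.1 hcont 1 one_pos
  set δ := min ρ0 ρ1 with hδ
  have hδ0 : 0 < δ := lt_min hρ0 hρ1
  set C : ℝ := ‖f y0‖ + 1 with hC
  have hC0 : 0 ≤ C := by positivity
  have hfδ : DifferentiableOn ℂ f (ball y0 δ) :=
    hf.mono ((ball_subset_ball (min_le_left _ _)).trans hball)
  have hbδ : ∀ x ∈ ball y0 δ, ‖f x‖ ≤ C := by
    intro x hx
    have h1 := hbd (lt_of_lt_of_le (mem_ball.1 hx) (min_le_right _ _))
    rw [dist_eq_norm] at h1
    calc ‖f x‖ = ‖f y0 + (f x - f y0)‖ := by rw [add_sub_cancel]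
      _ ≤ ‖f y0‖ + ‖f x - f y0‖ := norm_add_le _ _
      _ ≤ C := by rw [hC]; linarith
  have hfd : ∀ x ∈ ball y0 (δ / 2), ‖fderiv ℂ f x‖ ≤ C / (δ / 2) := by
    intro x hx
    have hsub : ball x (δ / 2) ⊆ ball y0 δ := by
      apply ball_subset_ball'
      have := mem_ball.1 hx
      linarith
    exact T3o.norm_fderiv_le (by positivity) hC0 (hfδ.mono hsub) fun z hz => hbδ z (hsub hz)
  set κ : ℝ := δ / (4 * (‖e‖ + 1)) with hκ
  have hκ0 : 0 < κ := by positivity
  have hκe : ∀ s : ℂ, ‖s‖ ≤ κ → ‖s • e‖ ≤ δ / 4 := by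
    intro s hs
    rw [norm_smul]
    calc ‖s‖ * ‖e‖ ≤ κ * (‖e‖ + 1) := by gcongr; linarith
      _ = δ / 4 := by rw [hκ]; field_simp
  have hmem : ∀ y ∈ ball y0 (δ / 4), ∀ s : ℂ, ‖s‖ ≤ κ → y + s • e ∈ ball y0 (δ / 2) := by
    intro y hy s hs
    rw [mem_ball, dist_eq_norm] at hy ⊢
    calc ‖y + s • e - y0‖ = ‖(y - y0) + s • e‖ := by congr 1; abel
      _ ≤ ‖y - y0‖ + ‖s • e‖ := norm_add_le _ _
      _ < δ / 4 + δ / 4 := add_lt_add_of_lt_of_le hy (hκe s hs)
      _ = δ / 2 := by ring
  have hsub2 : ball y0 (δ / 2) ⊆ ball y0 δ := ball_subset_ball (by linarith)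
  -- the coefficient
  set a : ℝ → ℂ := fun θ => (2 * Real.pi * Complex.I : ℂ)⁻¹ *
    (deriv (circleMap 0 κ) θ * ((circleMap 0 κ θ - 0) ^ 2)⁻¹) with ha
  have hcm : Continuous (circleMap (0 : ℂ) κ) := continuous_circleMap 0 κ
  have hcm0 : ∀ θ, circleMap (0 : ℂ) κ θ ≠ 0 := fun θ => circleMap_ne_center hκ0.ne'
  have hac : Continuous a := by
    have h1 : deriv (circleMap (0 : ℂ) κ) = fun θ => circleMap 0 κ θ * Complex.I := by
      funext θ
      exact deriv_circleMap 0 κ θ
    rw [ha, h1]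
    refine continuous_const.mul ((hcm.mul continuous_const).mul ?_)
    refine Continuous.inv₀ ((hcm.sub continuous_const).pow 2) fun θ => ?_
    rw [sub_zero]
    exact pow_ne_zero _ (hcm0 θ)
  have hnc : ∀ θ, ‖circleMap (0 : ℂ) κ θ‖ ≤ κ := fun θ => by
    rw [norm_circleMap_zero, abs_of_pos hκ0]
  have hform : ∀ y ∈ ball y0 (δ / 4),
      fderiv ℂ f y e = ∫ θ in (0 : ℝ)..2 * Real.pi, a θ * f (y + circleMap 0 κ θ • e) := by
    intro y hy
    have hyδ : y ∈ ball y0 δ := ball_subset_ball (by linarith) hy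
    set V : Set ℂ := {s | y + s • e ∈ ball y0 δ} with hV
    have hVo : IsOpen V := isOpen_ball.preimage (by fun_prop)
    have hcl : closedBall (0 : ℂ) κ ⊆ V := fun s hs =>
      hsub2 (hmem y hy s (mem_closedBall_zero_iff.1 hs))
    have hg : DifferentiableOn ℂ (fun s : ℂ => f (y + s • e)) V := by
      intro s hs
      have h2 : DifferentiableAt ℂ f (y + s • e) :=
        (hfδ _ hs).differentiableAt (isOpen_ball.mem_nhds hs)
      apply DifferentiableAt.differentiableWithinAt
      exact h2.comp s (by fun_prop)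
    have hd : HasDerivAt (fun s : ℂ => f (y + s • e)) (fderiv ℂ f y e) 0 := by
      have hline : HasDerivAt (fun s : ℂ => y + s • e) e 0 := by
        have := ((hasDerivAt_id (0 : ℂ)).smul_const e).const_add y
        simpa using this
      have h1 : HasFDerivAt f (fderiv ℂ f y) (y + (0 : ℂ) • e) := by
        simpa using ((hfδ y hyδ).differentiableAt (isOpen_ball.mem_nhds hyδ)).hasFDerivAt
      exact h1.comp_hasDerivAt (0 : ℂ) hline
    rw [← hd.deriv, ← Complex.two_pi_I_inv_smul_circleIntegral_sub_sq_inv_smul_of_differentiable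
      hVo hcl hg (mem_ball_self hκ0), circleIntegral, smul_eq_mul,
      ← intervalIntegral.integral_const_mul]
    apply intervalIntegral.integral_congr
    intro θ _
    simp only [ha, smul_eq_mul]
    ring
  have hmain : HasFDerivAt (fun y => ∫ θ in (0 : ℝ)..2 * Real.pi, a θ * f (y + circleMap 0 κ θ • e))
      (∫ θ in (0 : ℝ)..2 * Real.pi, a θ • fderiv ℂ f (y0 + circleMap 0 κ θ • e)) y0 := by
    have hcF : ∀ y ∈ ball y0 (δ / 4), Continuous fun θ => a θ * f (y + circleMap 0 κ θ • e) := by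
      intro y hy
      refine hac.mul ?_
      refine hfδ.continuousOn.comp_continuous (by fun_prop) fun θ => ?_
      exact hsub2 (hmem y hy _ (hnc θ))
    apply intervalIntegral.hasFDerivAt_integral_of_dominated_of_fderiv_le
      (F := fun y θ => a θ * f (y + circleMap 0 κ θ • e))
      (F' := fun y θ => a θ • fderiv ℂ f (y + circleMap 0 κ θ • e))
      (bound := fun θ => ‖a θ‖ * (C / (δ / 2)))
      (ball_mem_nhds y0 (by positivity : 0 < δ / 4))
    · filter_upwards [ball_mem_nhds y0 (by positivity : 0 < δ / 4)] with y hy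
      exact (hcF y hy).aestronglyMeasurable
    · exact (hcF y0 (mem_ball_self (by positivity))).intervalIntegrable _ _
    · apply AEStronglyMeasurable.smul hac.aestronglyMeasurable
      have hm : Measurable fun θ => fderiv ℂ f (y0 + circleMap 0 κ θ • e) :=
        (measurable_fderiv ℂ f).comp (Continuous.measurable (by fun_prop))
      exact hm.aestronglyMeasurable
    · refine Eventually.of_forall fun θ _ y hy => ?_
      rw [norm_smul]
      exact mul_le_mul_of_nonneg_left (hfd _ (hmem y hy _ (hnc θ))) (norm_nonneg _)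
    · exact (Continuous.mul hac.norm continuous_const).intervalIntegrable _ _
    · refine Eventually.of_forall fun θ _ y hy => ?_
      have hx := hsub2 (hmem y hy _ (hnc θ))
      have h1 : HasFDerivAt f (fderiv ℂ f (y + circleMap 0 κ θ • e))
          (y + circleMap 0 κ θ • e) :=
        ((hfδ _ hx).differentiableAt (isOpen_ball.mem_nhds hx)).hasFDerivAt
      have h2 := h1.comp y ((hasFDerivAt_id y).add_const (circleMap 0 κ θ • e))
      rw [ContinuousLinearMap.comp_id] at h2
      exact h2.const_mul (a θ)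
  have hev : (fun y => fderiv ℂ f y e) =ᶠ[𝓝 y0]
      fun y => ∫ θ in (0 : ℝ)..2 * Real.pi, a θ * f (y + circleMap 0 κ θ • e) := by
    filter_upwards [ball_mem_nhds y0 (by positivity : 0 < δ / 4)] with y hy
    exact hform y hy
  exact (hmain.differentiableAt.congr_of_eventuallyEq hev).differentiableWithinAt

end Pool.Agent.WW
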