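import Mathlib

set_option autoImplicit false

namespace Pool.Agent.WW

open TensorProduct in
/-- (TA0) some derivation of `ℂ` does not vanish at a given transcendental number -/
theorem exists_derivation (x : ℂ) (hx : Transcendental ℚ x) :
    ∃ δ : Derivation ℚ ℂ ℂ, δ x ≠ 0 := by
  classical
  have hind : AlgebraicIndepOn ℚ (id : ℂ → ℂ) ({x} : Set ℂ) := by
    have h1 : AlgebraicIndependent ℚ (fun i : ({x} : Set ℂ) => (i : ℂ)) := by
      rw [algebraicIndependent_unique_type_iff]
      exact hx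
    exact h1
  obtain ⟨B, hxB, hB⟩ := exists_isTranscendenceBasis_superset hind
  have hxB' : x ∈ B := hxB rfl
  let R := MvPolynomial B ℚ
  let _ : Algebra R ℂ := (MvPolynomial.aeval (Subtype.val : B → ℂ)).toAlgebra
  have : IsScalarTower ℚ R ℂ := IsScalarTower.of_algebraMap_eq (fun q => by
    change _ = (MvPolynomial.aeval (Subtype.val : B → ℂ)) _
    simp [R])
  have hF : FaithfulSMul R ℂ := by
    rw [faithfulSMul_iff_algebraMap_injective]
    exact hB.1
  let _ : Algebra (FractionRing R) ℂ := FractionRing.liftAlgebra R ℂ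
  have : IsScalarTower R (FractionRing R) ℂ := FractionRing.isScalarTower_liftAlgebra R ℂ
  have hA : Algebra.IsAlgebraic R ℂ := by
    have := hB.isAlgebraic
    refine Algebra.IsAlgebraic.of_ringHom_of_comp_eq
      (S := Algebra.adjoin ℚ (Set.range (Subtype.val : B → ℂ))) (B := ℂ)
      (hB.1.aevalEquiv : R →+* Algebra.adjoin ℚ (Set.range (Subtype.val : B → ℂ)))
      (RingHom.id ℂ) hB.1.aevalEquiv.surjective Function.injective_id ?_
    ext p
    · simp
    · have h1 : algebraMap R ℂ (MvPolynomial.X p) = (p : ℂ) := by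
        change (MvPolynomial.aeval (Subtype.val : B → ℂ)) _ = _
        simp
      simp [h1]
  have : Algebra.IsAlgebraic (FractionRing R) ℂ :=
    (IsFractionRing.comap_isAlgebraic_iff (A := R)).mp hA
  have : CharZero (FractionRing R) :=
    charZero_of_injective_algebraMap (IsFractionRing.injective R (FractionRing R))
  have : Algebra.FormallyEtale (FractionRing R) ℂ := Algebra.FormallyEtale.of_isSeparable _ _
  have : Algebra.FormallyEtale R (FractionRing R) :=
    Algebra.FormallyEtale.of_isLocalization (nonZeroDivisors R)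
  have : Algebra.FormallyEtale R ℂ := Algebra.FormallyEtale.comp R (FractionRing R) ℂ
  let e := KaehlerDifferential.tensorKaehlerEquivOfFormallyEtale ℚ R ℂ
  let b := (KaehlerDifferential.mvPolynomialBasis ℚ B).baseChange ℂ
  let f : Ω[ℂ⁄ℚ] →ₗ[ℂ] ℂ := (b.coord ⟨x, hxB'⟩) ∘ₗ e.symm.toLinearMap
  refine ⟨f.compDer (KaehlerDifferential.D ℚ ℂ), ?_⟩
  have h1 : algebraMap R ℂ (MvPolynomial.X ⟨x, hxB'⟩) = x := by
    change (MvPolynomial.aeval (Subtype.val : B → ℂ)) _ = _
    simp
  have h2 : e.symm (KaehlerDifferential.D ℚ ℂ x) =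
      1 ⊗ₜ KaehlerDifferential.D ℚ R (MvPolynomial.X ⟨x, hxB'⟩) := by
    conv_lhs => rw [← h1]
    exact KaehlerDifferential.tensorKaehlerEquivOfFormallyEtale_symm_D_algebraMap ℚ R ℂ _
  have h3 : f (KaehlerDifferential.D ℚ ℂ x) = 1 := by
    change b.repr (e.symm (KaehlerDifferential.D ℚ ℂ x)) ⟨x, hxB'⟩ = 1
    rw [h2]
    refine (Module.Basis.baseChange_repr_tmul (S := ℂ)
      (KaehlerDifferential.mvPolynomialBasis ℚ B) 1 _ ⟨x, hxB'⟩).trans ?_
    rw [KaehlerDifferential.mvPolynomialBasis_repr_D_X]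
    simp
  change f (KaehlerDifferential.D ℚ ℂ x) ≠ 0
  rw [h3]
  exact one_ne_zero

end Pool.Agent.WW
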