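import Pool.Agent.WW.QDefs
import Pool.Agent.WW.PA
import Pool.Agent.WW.TA0

set_option autoImplicit false

namespace Pool.Agent.WW

open MvPolynomial Metric Filter Topology

namespace TA1

/-- a derivation kills algebraic numbers -/
theorem der_alg (δ : Derivation ℚ ℂ ℂ) {a : ℂ} (ha : IsAlgebraic ℚ a) : δ a = 0 := by
  have hi : IsIntegral ℚ a := ha.isIntegral
  have h1 : Polynomial.aeval a (minpoly ℚ a) = 0 := minpoly.aeval ℚ a
  have h2 := δ.map_aeval (minpoly ℚ a) a
  rw [h1, map_zero] at h2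
  have h3 : Polynomial.aeval a (Polynomial.derivative (minpoly ℚ a)) ≠ 0 := by
    have hs : (minpoly ℚ a).Separable := (minpoly.irreducible hi).separable
    exact hs.aeval_derivative_ne_zero h1
  exact (smul_eq_zero.1 h2.symm).resolve_left h3

/-- polynomials obeying the chain rule for a derivation of `ℂ` -/
noncomputable def chS {τ : Type} [Fintype τ] (δ : Derivation ℚ ℂ ℂ) (c : τ → ℂ) :
    Subring (MvPolynomial τ ℂ) where
  carrier := {Q | δ (eval c Q) = ∑ g, eval c (pderiv g Q) * δ (c g)}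
  mul_mem' := by
    intro p q hp hq
    simp only [Set.mem_ofPred_eq] at hp hq ⊢
    simp only [Derivation.leibniz, map_mul, map_add, smul_eq_mul, hp, hq, Finset.mul_sum,
      ← Finset.sum_add_distrib]
    refine Finset.sum_congr rfl fun g _ => ?_
    ring
  one_mem' := by
    simp
  add_mem' := by
    intro p q hp hq
    simp only [Set.mem_ofPred_eq] at hp hq ⊢
    simp only [map_add, hp, hq, ← Finset.sum_add_distrib, add_mul]
  zero_mem' := by
    simp
  neg_mem' := by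
    intro p hp
    simp only [Set.mem_ofPred_eq] at hp ⊢
    simp only [map_neg, hp, neg_mul, Finset.sum_neg_distrib]

theorem chA {τ : Type} [Fintype τ] (δ : Derivation ℚ ℂ ℂ) (c : τ → ℂ) (Q : MvPolynomial τ ℂ)
    (hQ : AlgC Q) : δ (eval c Q) = ∑ g, eval c (pderiv g Q) * δ (c g) := by
  classical
  have hC : ∀ a : ℂ, IsAlgebraic ℚ a → C a ∈ chS δ c := by
    intro a ha
    change δ (eval c (C a)) = ∑ g, eval c (pderiv g (C a)) * δ (c g)
    simp [der_alg δ ha]
  have hX : ∀ g : τ, X g ∈ chS δ c := by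
    intro g
    change δ (eval c (X g)) = ∑ g', eval c (pderiv g' (X g)) * δ (c g')
    rw [eval_X, Finset.sum_eq_single g]
    · simp
    · intro g' _ hg
      rw [pderiv_X_of_ne (Ne.symm hg), map_zero, zero_mul]
    · intro h
      exact absurd (Finset.mem_univ g) h
  have h1 : Q ∈ chS δ c := by
    rw [Q.as_sum]
    refine Subring.sum_mem _ fun m _ => ?_
    rw [monomial_eq]
    exact Subring.mul_mem _ (hC _ (hQ m))
      (Subring.prod_mem _ fun g _ => Subring.pow_mem _ (hX g) _)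
  exact h1

theorem chB {E τ : Type} [NormedAddCommGroup E] [NormedSpace ℂ E] [Fintype τ] {w : E}
    (c : E → τ → ℂ) (h : ∀ t, DifferentiableAt ℂ (fun z => c z t) w) (Q : MvPolynomial τ ℂ) :
    DifferentiableAt ℂ (fun z => eval (c z) Q) w ∧ ∀ e, fderiv ℂ (fun z => eval (c z) Q) w e =
      ∑ g, eval (c w) (pderiv g Q) * fderiv ℂ (fun z => c z g) w e := by
  classical
  induction Q using MvPolynomial.induction_on with
  | C a =>
    simp only [eval_C, pderiv_C, map_zero, zero_mul, Finset.sum_const_zero]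
    exact ⟨differentiableAt_const _, fun e => by simp⟩
  | add p q hp hq =>
    simp only [map_add, add_mul, Finset.sum_add_distrib]
    refine ⟨hp.1.add hq.1, fun e => ?_⟩
    rw [← hp.2 e, ← hq.2 e]
    have h1 := fderiv_add hp.1 hq.1
    have h2 : fderiv ℂ (fun z => eval (c z) p + eval (c z) q) w =
        fderiv ℂ (fun z => eval (c z) p) w + fderiv ℂ (fun z => eval (c z) q) w := h1
    rw [h2]
    rfl
  | mul_X p i hp =>
    simp only [map_mul, eval_X]
    refine ⟨hp.1.mul (h i), fun e => ?_⟩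
    have h1 := fderiv_mul hp.1 (h i)
    have h2 : fderiv ℂ (fun z => eval (c z) p * c z i) w =
        eval (c w) p • fderiv ℂ (fun z => c z i) w + c w i • fderiv ℂ (fun z => eval (c z) p) w :=
      h1
    have h3 : (eval (c w) p • fderiv ℂ (fun z => c z i) w +
        c w i • fderiv ℂ (fun z => eval (c z) p) w) e =
        eval (c w) p * fderiv ℂ (fun z => c z i) w e +
        c w i * fderiv ℂ (fun z => eval (c z) p) w e := rfl
    rw [h2, h3, hp.2 e]
    simp only [Derivation.leibniz, map_add, smul_eq_mul, map_mul, eval_X, add_mul,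
      Finset.sum_add_distrib, Finset.mul_sum]
    congr 1
    · rw [Finset.sum_eq_single i]
      · simp
      · intro g' _ hg
        rw [pderiv_X_of_ne hg.symm, map_zero, mul_zero, zero_mul]
      · intro h
        exact absurd (Finset.mem_univ i) h
    · refine Finset.sum_congr rfl fun g _ => ?_
      ring

theorem eval_alg {τ : Type} (c : τ → ℂ) (hc : ∀ g, IsAlgebraic ℚ (c g))
    (Q : MvPolynomial τ ℂ) (hQ : AlgC Q) : IsAlgebraic ℚ (eval c Q) := by
  rw [eval_eq]
  refine (IsIntegral.sum _ fun m _ => ?_).isAlgebraic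
  refine (hQ m).isIntegral.mul ?_
  refine IsIntegral.prod _ fun g _ => ?_
  exact (hc g).isIntegral.pow _

/-- the equation of the curve -/
theorem ybr_pow (D j k : ℕ) (hD : D ≠ 0) (s : ℂ) :
    ybr D j k s ^ D = (1 / 2 + s) ^ j * (1 / 2 - s) ^ k := by
  have hD' : (D : ℂ) ≠ 0 := Nat.cast_ne_zero.2 hD
  unfold ybr
  rw [mul_pow, ← Complex.cpow_nat_mul, ← Complex.cpow_nat_mul, mul_div_cancel₀ _ hD',
    mul_div_cancel₀ _ hD', Complex.cpow_natCast, Complex.cpow_natCast]

theorem ybr_ne (s : ℂ) (hs : ‖s‖ < 1 / 4) : (1 / 2 + s) ≠ 0 ∧ (1 / 2 - s) ≠ 0 := by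
  constructor
  · intro h
    have h1 : s = -(1 / 2) := by linear_combination h
    rw [h1] at hs
    norm_num at hs
  · intro h
    have h1 : s = 1 / 2 := by linear_combination -h
    rw [h1] at hs
    norm_num at hs

variable {π ι : Type} [Fintype π] [Fintype ι] [DecidableEq π] [DecidableEq ι] (P : Pkg π ι)

theorem y_pow (z : ι → ℂ) (i : π) : (P.bv z (some (Sum.inr i))) ^ P.D i =
    (1 / 2 + P.ξ z i) ^ P.j i * (1 / 2 - P.ξ z i) ^ P.k i := by
  change (P.s i * ybr (P.D i) (P.j i) (P.k i) (P.ξ z i)) ^ P.D i = _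
  have h1 : P.D i ≠ 0 := by
    have := (P.hD i).1
    omega
  rw [mul_pow, P.hs, one_mul, ybr_pow _ _ _ h1]

theorem half_alg : IsAlgebraic ℚ (1 / 2 : ℂ) := by
  have h1 : (1 / 2 : ℂ) = algebraMap ℚ ℂ (1 / 2) := by
    rw [eq_ratCast]
    norm_num
  rw [h1]
  exact isAlgebraic_algebraMap _

/-- algebraic `x_i` give algebraic generators -/
theorem alg_bv (z : ι → ℂ) (h : ∀ i, IsAlgebraic ℚ (P.ξ z i)) :
    ∀ g, IsAlgebraic ℚ (P.bv z g) := by
  have hx : ∀ i, IsAlgebraic ℚ (P.bv z (some (Sum.inl i))) := fun i => half_alg.add (h i)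
  have hy : ∀ i, IsAlgebraic ℚ (P.bv z (some (Sum.inr i))) := by
    intro i
    have h1 : P.D i ≠ 0 := by
      have := (P.hD i).1
      omega
    have h2 : IsAlgebraic ℚ (P.bv z (some (Sum.inr i)) ^ P.D i) := by
      rw [y_pow]
      exact ((half_alg.add (h i)).pow _).mul ((half_alg.sub (h i)).pow _)
    exact h2.of_pow (Nat.pos_of_ne_zero h1)
  intro g
  rcases g with _ | i | i
  · change IsAlgebraic ℚ (eval (Sum.elim (fun i => 1 / 2 + P.ξ z i)
      (fun i => P.s i * ybr (P.D i) (P.j i) (P.k i) (P.ξ z i))) P.δ)⁻¹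
    refine (eval_alg _ ?_ _ P.δalg).inv
    rintro (i | i)
    · exact hx i
    · exact hy i
  · exact hx i
  · exact hy i

theorem h_alg (z : ι → ℂ) (h : ∀ g, IsAlgebraic ℚ (P.bv z g)) (a : P.μ) :
    IsAlgebraic ℚ (P.h z a) := eval_alg _ h _ (P.Halg a)

theorem bv_don (hP : P.Ok) (g : Gx π) :
    DifferentiableOn ℂ (fun z => P.bv z g) (ball 0 P.r) := by
  refine (PA.good_gn P hP g).don.congr fun z hz => ?_
  rw [PA.ext_eq P _ hz]
  rfl

/-- the values of the two algebraic functions -/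
noncomputable def xy (z : ι → ℂ) : π ⊕ π → ℂ := Sum.elim (fun i => 1 / 2 + P.ξ z i)
  (fun i => P.s i * ybr (P.D i) (P.j i) (P.k i) (P.ξ z i))

theorem pow_ld (δ : Derivation ℚ ℂ ℂ) (a : ℂ) (n : ℕ) : δ (a ^ n) * a = n * a ^ n * δ a := by
  rw [Derivation.leibniz_pow]
  rcases n with _ | n
  · simp
  · simp only [Nat.add_sub_cancel, nsmul_eq_mul, smul_eq_mul]
    ring

theorem y_ne (w : ι → ℂ) (hw : w ∈ ball (0 : ι → ℂ) P.r) (i : π) :
    P.bv w (some (Sum.inr i)) ≠ 0 := by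
  intro h
  have h1 := y_pow P w i
  have h2 : P.D i ≠ 0 := by
    have := (P.hD i).1
    omega
  have h3 := ybr_ne (P.ξ w i) (P.ξle w hw i)
  rw [h, zero_pow h2] at h1
  exact mul_ne_zero (pow_ne_zero _ h3.1) (pow_ne_zero _ h3.2) h1.symm

theorem der_y (δ : Derivation ℚ ℂ ℂ) (w : ι → ℂ) (hw : w ∈ ball (0 : ι → ℂ) P.r) (i : π) :
    δ (P.bv w (some (Sum.inr i))) = P.bv w (some (Sum.inr i)) *
      ((P.j i : ℂ) / P.D i / (1 / 2 + P.ξ w i) - (P.k i : ℂ) / P.D i / (1 / 2 - P.ξ w i)) *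
      δ (P.ξ w i) := by
  have h2 : (P.D i : ℂ) ≠ 0 := by
    have := (P.hD i).1
    rw [Nat.cast_ne_zero]
    omega
  have h3 := ybr_ne (P.ξ w i) (P.ξle w hw i)
  have h4 := y_ne P w hw i
  have h5 := y_pow P w i
  have h6 := pow_ld δ (P.bv w (some (Sum.inr i))) (P.D i)
  have h7 := pow_ld δ (1 / 2 + P.ξ w i) (P.j i)
  have h8 := pow_ld δ (1 / 2 - P.ξ w i) (P.k i)
  have h9 : δ (1 / 2 + P.ξ w i) = δ (P.ξ w i) := by
    rw [map_add, der_alg δ half_alg, zero_add]
  have h10 : δ (1 / 2 - P.ξ w i) = - δ (P.ξ w i) := by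
    rw [map_sub, der_alg δ half_alg, zero_sub]
  rw [h9] at h7
  rw [h10] at h8
  rw [h5, Derivation.leibniz, smul_eq_mul, smul_eq_mul] at h6
  have h11 : (1 / 2 + P.ξ w i) ^ P.j i ≠ 0 := pow_ne_zero _ h3.1
  have h12 : (1 / 2 - P.ξ w i) ^ P.k i ≠ 0 := pow_ne_zero _ h3.2
  generalize hX : (1 / 2 + P.ξ w i) = X at *
  generalize hX' : (1 / 2 - P.ξ w i) = X' at *
  generalize δ (P.bv w (some (Sum.inr i))) = dy at *
  generalize P.bv w (some (Sum.inr i)) = y at *
  generalize δ (X ^ P.j i) = a at *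
  generalize δ (X' ^ P.k i) = b at *
  generalize X ^ P.j i = A at *
  generalize X' ^ P.k i = B at *
  generalize δ (P.ξ w i) = dx at *
  have h13 := h3.1
  have h14 := h3.2
  have ha : a = P.j i * A * dx / X := (eq_div_iff h13).2 h7
  have hb : b = P.k i * B * (-dx) / X' := (eq_div_iff h14).2 h8
  rw [ha, hb] at h6
  have h15 : dy = (A * (P.k i * B * (-dx) / X') + B * (P.j i * A * dx / X)) * y /
      (P.D i * (A * B)) := by
    rw [eq_div_iff (mul_ne_zero h2 (mul_ne_zero h11 h12)), h6]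
    ring
  rw [h15]
  field_simp
  ring

theorem fd_y (w : ι → ℂ) (hw : w ∈ ball (0 : ι → ℂ) P.r) (i : π) (e : ι → ℂ) :
    fderiv ℂ (fun z => P.bv z (some (Sum.inr i))) w e = P.bv w (some (Sum.inr i)) *
      ((P.j i : ℂ) / P.D i / (1 / 2 + P.ξ w i) - (P.k i : ℂ) / P.D i / (1 / 2 - P.ξ w i)) *
      fderiv ℂ (fun z => P.ξ z i) w e := by
  have e0 := PA.ybr_deriv (P.D i) (P.j i) (P.k i) (P.ξ w i) (P.ξle w hw i)
  have e2 : HasFDerivAt (fun w => P.ξ w i) (fderiv ℂ (fun w => P.ξ w i) w) w :=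
    ((PA.xi_don P i).differentiableAt (isOpen_ball.mem_nhds hw)).hasFDerivAt
  have e3 := (HasDerivAt.comp_hasFDerivAt (h₂ := ybr (P.D i) (P.j i) (P.k i))
        (f := fun w => P.ξ w i) w e0 e2).const_mul (P.s i)
  have e4 : fderiv ℂ (fun z => P.bv z (some (Sum.inr i))) w = P.s i •
      ((ybr (P.D i) (P.j i) (P.k i) (P.ξ w i) *
        ((P.j i : ℂ) / P.D i / (1 / 2 + P.ξ w i) - (P.k i : ℂ) / P.D i / (1 / 2 - P.ξ w i))) •
        fderiv ℂ (fun w => P.ξ w i) w) := e3.fderiv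
  rw [e4]
  change P.s i * ((ybr (P.D i) (P.j i) (P.k i) (P.ξ w i) *
        ((P.j i : ℂ) / P.D i / (1 / 2 + P.ξ w i) - (P.k i : ℂ) / P.D i / (1 / 2 - P.ξ w i))) *
        fderiv ℂ (fun w => P.ξ w i) w e) =
        P.s i * ybr (P.D i) (P.j i) (P.k i) (P.ξ w i) * _ * _
  ring

/-- derivation of the generators -/
theorem der_gen (hP : P.Ok) (δ : Derivation ℚ ℂ ℂ) (w : ι → ℂ) (hw : w ∈ ball (0 : ι → ℂ) P.r)
    (g : Gx π) : δ (P.bv w g) = ∑ t, (∑ i, eval (P.bv w) (P.Jb t i) * δ (P.ξ w i)) *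
      fderiv ℂ (fun z => P.bv z g) w (Pi.single t 1) := by
  have hnh := isOpen_ball.mem_nhds hw
  have hx0 : ∀ i, δ (P.ξ w i) = ∑ t, (∑ i, eval (P.bv w) (P.Jb t i) * δ (P.ξ w i)) *
      fderiv ℂ (fun z => P.ξ z i) w (Pi.single t 1) := by
    intro i
    simp only [hP.Jf w hw, Finset.sum_mul]
    rw [Finset.sum_comm]
    have h1 : ∀ i', ∑ t, eval (P.bv w) (P.Jb t i') * δ (P.ξ w i') * eval (P.bv w) (P.Jf i t) =
        δ (P.ξ w i') * if i = i' then 1 else 0 := by
      intro i'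
      rw [← hP.Jfb w hw i i', Finset.mul_sum]
      refine Finset.sum_congr rfl fun t _ => ?_
      ring
    rw [Finset.sum_congr rfl fun i' _ => h1 i']
    simp
  have hx : ∀ i, δ (xy P w (Sum.inl i)) = ∑ t, (∑ i, eval (P.bv w) (P.Jb t i) * δ (P.ξ w i)) *
      fderiv ℂ (fun z => xy P z (Sum.inl i)) w (Pi.single t 1) := by
    intro i
    have h1 : δ (xy P w (Sum.inl i)) = δ (P.ξ w i) := by
      change δ (1 / 2 + P.ξ w i) = _
      rw [map_add, der_alg δ half_alg, zero_add]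
    have h2 : fderiv ℂ (fun z => xy P z (Sum.inl i)) w = fderiv ℂ (fun z => P.ξ z i) w :=
      fderiv_const_add (1 / 2 : ℂ)
    rw [h1, h2]
    exact hx0 i
  have hy : ∀ i, δ (xy P w (Sum.inr i)) = ∑ t, (∑ i, eval (P.bv w) (P.Jb t i) * δ (P.ξ w i)) *
      fderiv ℂ (fun z => xy P z (Sum.inr i)) w (Pi.single t 1) := by
    intro i
    change δ (P.bv w (some (Sum.inr i))) =
      ∑ t, (∑ i, eval (P.bv w) (P.Jb t i) * δ (P.ξ w i)) *
      fderiv ℂ (fun z => P.bv z (some (Sum.inr i))) w (Pi.single t 1)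
    rw [der_y P δ w hw i, hx0 i, Finset.mul_sum]
    refine Finset.sum_congr rfl fun t _ => ?_
    rw [fd_y P w hw i]
    ring
  have hxy : ∀ g, δ (xy P w g) = ∑ t, (∑ i, eval (P.bv w) (P.Jb t i) * δ (P.ξ w i)) *
      fderiv ℂ (fun z => xy P z g) w (Pi.single t 1) := by
    rintro (i | i)
    · exact hx i
    · exact hy i
  rcases g with _ | i | i
  · have hd : ∀ g, DifferentiableAt ℂ (fun z => xy P z g) w := by
      rintro (i | i)
      · exact (bv_don P hP (some (Sum.inl i))).differentiableAt hnh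
      · exact (bv_don P hP (some (Sum.inr i))).differentiableAt hnh
    have hA := chA δ (xy P w) P.δ P.δalg
    obtain ⟨hB1, hB2⟩ := chB (xy P) hd P.δ
    have hne : eval (xy P w) P.δ ≠ 0 := P.δne w hw
    have h1 : δ (P.bv w none) = -(eval (xy P w) P.δ)⁻¹ ^ 2 * δ (eval (xy P w) P.δ) := by
      change δ (eval (xy P w) P.δ)⁻¹ = _
      rw [Derivation.leibniz_inv]
      rfl
    have h2 : ∀ e, fderiv ℂ (fun z => P.bv z none) w e =
        -(eval (xy P w) P.δ)⁻¹ ^ 2 * fderiv ℂ (fun z => eval (xy P z) P.δ) w e := by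
      intro e
      have h3 : HasFDerivAt (fun z => (eval (xy P z) P.δ)⁻¹)
          (-((eval (xy P w) P.δ) ^ 2)⁻¹ • fderiv ℂ (fun z => eval (xy P z) P.δ) w) w :=
        (hasDerivAt_inv hne).comp_hasFDerivAt w hB1.hasFDerivAt
      have h4 : fderiv ℂ (fun z => P.bv z none) w =
          (-((eval (xy P w) P.δ) ^ 2)⁻¹ • fderiv ℂ (fun z => eval (xy P z) P.δ) w) := h3.fderiv
      rw [h4]
      change -((eval (xy P w) P.δ) ^ 2)⁻¹ * fderiv ℂ (fun z => eval (xy P z) P.δ) w e = _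
      rw [inv_pow]
    rw [h1, hA]
    simp only [h2, hB2, hxy, Finset.mul_sum]
    rw [Finset.sum_comm]
    refine Finset.sum_congr rfl fun t _ => Finset.sum_congr rfl fun g _ => ?_
    ring
  · exact hx i
  · exact hy i

/-- derivation of a polynomial in the generators -/
theorem der_poly (hP : P.Ok) (δ : Derivation ℚ ℂ ℂ) (w : ι → ℂ)
    (hw : w ∈ ball (0 : ι → ℂ) P.r) (Q : MvPolynomial (Gx π) ℂ) (hQ : AlgC Q) :
    δ (eval (P.bv w) Q) = ∑ t, (∑ i, eval (P.bv w) (P.Jb t i) * δ (P.ξ w i)) *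
      fderiv ℂ (fun z => eval (P.bv z) Q) w (Pi.single t 1) := by
  have hd : ∀ g, DifferentiableAt ℂ (fun z => P.bv z g) w := fun g =>
    (bv_don P hP g).differentiableAt (isOpen_ball.mem_nhds hw)
  obtain ⟨hB1, hB2⟩ := chB P.bv hd Q
  rw [chA δ _ Q hQ]
  simp only [hB2, Finset.mul_sum]
  rw [Finset.sum_comm]
  refine Finset.sum_congr rfl fun g _ => ?_
  rw [der_gen P hP δ w hw g, Finset.mul_sum]
  refine Finset.sum_congr rfl fun t _ => ?_
  ring

end TA1

/-- (TA1) criterion for a point `w` to be algebraic: the abelian functions of `κ (z - w)` are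
rational functions in the generators with algebraic coefficients, regular at `w` -/
theorem Pkg.Ok.alg_of_germ {π ι : Type} [Fintype π] [Fintype ι] [DecidableEq π] [DecidableEq ι]
    (P : Pkg π ι) (hP : P.Ok) (w : ι → ℂ) (hw : w ∈ ball (0 : ι → ℂ) P.r) (κ : ℂ) (hκ : κ ≠ 0)
    (F0 : MvPolynomial (Gx π) ℂ) (F : P.μ → MvPolynomial (Gx π) ℂ) (hF0 : AlgC F0)
    (hF : ∀ a, AlgC (F a)) (h0 : eval (P.bv w) F0 ≠ 0)
    (h : ∀ᶠ z in 𝓝 w, ∀ a, P.h (κ • (z - w)) a * eval (P.bv z) F0 = eval (P.bv z) (F a)) :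
    ∀ g, IsAlgebraic ℚ (P.bv w g) := by
  intro g
  by_contra hg
  obtain ⟨δ, hδ⟩ := exists_derivation (P.bv w g) hg
  apply hδ
  let v : ι → ℂ := fun t => ∑ i, eval (P.bv w) (P.Jb t i) * δ (P.ξ w i)
  suffices hv : v = 0 by
    rw [TA1.der_gen P hP δ w hw g]
    refine Finset.sum_eq_zero fun t _ => ?_
    have h1 : v t = 0 := by rw [hv]; rfl
    change v t * _ = 0
    rw [h1, zero_mul]
  have h0b : (0 : ι → ℂ) ∈ ball (0 : ι → ℂ) P.r := mem_ball_self P.hr
  have hbv0 : ∀ g, IsAlgebraic ℚ (P.bv 0 g) := TA1.alg_bv P 0 fun i => by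
    rw [P.ξ0]
    exact isAlgebraic_zero
  have hnh := isOpen_ball.mem_nhds hw
  have hdb : ∀ g, DifferentiableAt ℂ (fun z => P.bv z g) w := fun g =>
    (TA1.bv_don P hP g).differentiableAt hnh
  have hdh : ∀ a, DifferentiableAt ℂ (fun z => P.h z a) 0 := fun a =>
    (TA1.chB P.bv (fun g => (TA1.bv_don P hP g).differentiableAt (isOpen_ball.mem_nhds h0b))
      (P.H a)).1
  have key : ∀ a, ∑ t, v t * fderiv ℂ (fun z => P.h z a) 0 (Pi.single t 1) = 0 := by
    intro a
    let Q : MvPolynomial (Gx π) ℂ := F a - C (P.h 0 a) * F0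
    have hca : IsAlgebraic ℚ (P.h 0 a) := TA1.h_alg P 0 hbv0 a
    have hQ : AlgC Q := by
      intro m
      change IsAlgebraic ℚ ((F a - C (P.h 0 a) * F0).coeff m)
      rw [coeff_sub, coeff_C_mul]
      exact (hF a m).sub (hca.mul (hF0 m))
    have hev : ∀ z, eval (P.bv z) Q = eval (P.bv z) (F a) - P.h 0 a * eval (P.bv z) F0 := by
      intro z
      simp only [Q, map_sub, map_mul, eval_C]
    have hQ0 : eval (P.bv w) Q = 0 := by
      have h1 := h.self_of_nhds a
      rw [sub_self, smul_zero] at h1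
      rw [hev, ← h1, sub_self]
    have h2 := TA1.der_poly P hP δ w hw Q hQ
    rw [hQ0, map_zero] at h2
    have h3 : (fun z => eval (P.bv z) Q) =ᶠ[𝓝 w]
        fun z => (P.h (κ • (z - w)) a - P.h 0 a) * eval (P.bv z) F0 := by
      filter_upwards [h] with z hz
      rw [hev, ← hz a]
      ring
    have h4 : HasFDerivAt (fun z : ι → ℂ => κ • (z - w)) (κ • ContinuousLinearMap.id ℂ (ι → ℂ)) w :=
      ((hasFDerivAt_id w).sub_const w).const_smul κ
    have h5 : HasFDerivAt (fun z => P.h z a) (fderiv ℂ (fun z => P.h z a) 0) (κ • (w - w)) := by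
      rw [sub_self, smul_zero]
      exact (hdh a).hasFDerivAt
    have h6 := h5.comp w h4
    have h7 : HasFDerivAt (fun z => P.h (κ • (z - w)) a - P.h 0 a)
        ((fderiv ℂ (fun z => P.h z a) 0).comp (κ • ContinuousLinearMap.id ℂ (ι → ℂ))) w :=
      h6.sub_const _
    have h8 := h7.mul (TA1.chB P.bv hdb F0).1.hasFDerivAt
    have h9 : fderiv ℂ (fun z => eval (P.bv z) Q) w =
        (P.h (κ • (w - w)) a - P.h 0 a) • fderiv ℂ (fun z => eval (P.bv z) F0) w +
        eval (P.bv w) F0 • ((fderiv ℂ (fun z => P.h z a) 0).comp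
          (κ • ContinuousLinearMap.id ℂ (ι → ℂ))) := by
      rw [h3.fderiv_eq]
      exact h8.fderiv
    have h10 : ∀ e, fderiv ℂ (fun z => eval (P.bv z) Q) w e =
        eval (P.bv w) F0 * κ * fderiv ℂ (fun z => P.h z a) 0 e := by
      intro e
      rw [h9]
      change (P.h (κ • (w - w)) a - P.h 0 a) * fderiv ℂ (fun z => eval (P.bv z) F0) w e +
        eval (P.bv w) F0 * (fderiv ℂ (fun z => P.h z a) 0) (κ • e) = _
      rw [map_smul, smul_eq_mul, sub_self, smul_zero, sub_self]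
      ring
    simp only [h10] at h2
    have h11 : eval (P.bv w) F0 * κ *
        ∑ t, v t * fderiv ℂ (fun z => P.h z a) 0 (Pi.single t 1) = 0 := by
      rw [Finset.mul_sum, h2]
      refine Finset.sum_congr rfl fun t _ => ?_
      change _ = v t * _
      ring
    exact (mul_eq_zero.1 h11).resolve_left (mul_ne_zero h0 hκ)
  obtain ⟨u, hu⟩ := hP.imm
  refine Matrix.eq_zero_of_vecMul_eq_zero hu ?_
  funext t'
  rw [Matrix.vecMul_eq_sum]
  simp only [Finset.sum_apply, Pi.smul_apply, Matrix.of_apply, smul_eq_mul, Pi.zero_apply]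
  exact key (u t')

end Pool.Agent.WW
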