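import Pool.Agent.WW.TupPair

/-!
Counting tuples of gamma values with the two-term theorem.
-/

set_option autoImplicit false

namespace Pool.Agent.WW

open Finset Pool.Agent.Helper29.Rohr

namespace Tup

lemma mem_box {D r : ℕ} {j : Fin r → ℕ} : j ∈ box D r ↔ ∀ i, 0 < j i ∧ j i < D := by
  simp [Pool.Agent.Helper29.Rohr.box]

lemma card_box (D r : ℕ) : (box D r).card = (D - 1) ^ r := by
  simp [Pool.Agent.Helper29.Rohr.box, Fintype.card_piFinset]

/-- product of the gamma values of a tuple -/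
noncomputable def gpr (D k : ℕ) (t : Fin k → ℕ) : ℝ := ∏ i, Real.Gamma ((t i : ℝ) / D)

lemma gpr_ne (D k : ℕ) (hD : 0 < D) (t : Fin k → ℕ) (ht : t ∈ box D k) : gpr D k t ≠ 0 := by
  rw [mem_box] at ht
  exact prod_ne_zero_iff.2 (fun i _ => (gpos D (t i) hD (ht i).1).ne')

lemma gammaMult_two (D k : ℕ) (hD : 0 < D) (z : ℝ) (j : Fin (k + 2) → ℕ)
    (hj : j ∈ box D (k + 2)) (h : GammaMult D (k + 2) j z) :
    ∃ α : ℝ, IsAlgebraic ℚ α ∧ Real.Gamma ((j 0 : ℝ) / D) * Real.Gamma ((j 1 : ℝ) / D) =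
      α * (z / gpr D k (Fin.tail (Fin.tail j))) := by
  obtain ⟨α, hα, h⟩ := h
  have ht : Fin.tail (Fin.tail j) ∈ box D k := by
    rw [mem_box] at hj ⊢
    exact fun i => hj i.succ.succ
  have hQ := gpr_ne D k hD _ ht
  refine ⟨α, hα, ?_⟩
  rw [Fin.prod_univ_succ, Fin.prod_univ_succ] at h
  have e : ∏ i : Fin k, Real.Gamma ((j i.succ.succ : ℝ) / D) =
      gpr D k (Fin.tail (Fin.tail j)) := rfl
  rw [e] at h
  have e1 : j (Fin.succ 0) = j 1 := rfl
  rw [e1] at h
  rw [← mul_div_assoc, ← h]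
  field_simp

lemma tail_mem {D k : ℕ} {j : Fin (k + 2) → ℕ} (hj : j ∈ box D (k + 2)) :
    Fin.tail (Fin.tail j) ∈ box D k := by
  rw [mem_box] at hj ⊢
  exact fun i => hj i.succ.succ

lemma ext_two {k : ℕ} {j j' : Fin (k + 2) → ℕ} (h0 : j 0 = j' 0) (h1 : j 1 = j' 1)
    (ht : Fin.tail (Fin.tail j) = Fin.tail (Fin.tail j')) : j = j' := by
  funext i
  refine Fin.cases h0 (fun i => ?_) i
  refine Fin.cases h1 (fun i => ?_) i
  exact congrFun ht i

lemma sum_two {k : ℕ} (j : Fin (k + 2) → ℕ) :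
    ∑ i, j i = j 0 + j 1 + ∑ i, Fin.tail (Fin.tail j) i := by
  rw [Fin.sum_univ_succ, Fin.sum_univ_succ]
  have e1 : j (Fin.succ 0) = j 1 := rfl
  rw [e1, ← add_assoc]
  rfl

open Classical in
/-- number of pairs with a given class -/
lemma sum_prsS_le (hTT : TwoTerm) (D : ℕ) (hD : 2 ≤ D) (w : ℝ) :
    ∑ s ∈ Icc 2 (2 * D - 2), ((prsS D s w).card : ℝ) ≤
      (2 * classBound D + 1) * ((D : ℝ) - 1) := by
  have hD2 : (2 : ℝ) ≤ D := by exact_mod_cast hD
  have hmem : D ∈ Icc 2 (2 * D - 2) := by rw [mem_Icc]; omega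
  rw [← add_sum_erase _ _ hmem]
  have h1 : ((prsS D D w).card : ℝ) ≤ (D : ℝ) - 1 := by
    have := card_prsS_self D w D
    have h2 : ((prsS D D w).card : ℝ) ≤ ((D - 1 : ℕ) : ℝ) := by exact_mod_cast this
    rw [Nat.cast_sub (by omega)] at h2
    simpa using h2
  have h2 : ∑ s ∈ (Icc 2 (2 * D - 2)).erase D, ((prsS D s w).card : ℝ) ≤
      ∑ _s ∈ (Icc 2 (2 * D - 2)).erase D, classBound D := by
    refine sum_le_sum (fun s hs => ?_)
    exact card_prsS_le hTT D hD s (ne_of_mem_erase hs) w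
  rw [sum_const, card_erase_of_mem hmem, Nat.card_Icc, nsmul_eq_mul] at h2
  have h3 : ((2 * D - 2 + 1 - 2 - 1 : ℕ) : ℝ) ≤ 2 * ((D : ℝ) - 1) := by
    have : (2 * D - 2 + 1 - 2 - 1 : ℕ) ≤ 2 * (D - 1) := by omega
    have h4 : ((2 * D - 2 + 1 - 2 - 1 : ℕ) : ℝ) ≤ ((2 * (D - 1) : ℕ) : ℝ) := by exact_mod_cast this
    refine h4.trans (le_of_eq ?_)
    push_cast [Nat.cast_sub (by omega : 1 ≤ D)]
    ring
  have h4 := mul_le_mul_of_nonneg_right h3 (classBound_nonneg (D := D))
  linarith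

/-- number of `r`-tuples, `r ≥ 2` -/
theorem count_le (hTT : TwoTerm) (D : ℕ) (hD : 2 ≤ D) (k : ℕ) (z : ℝ) :
    (count D (k + 2) z : ℝ) ≤ (2 * classBound D + 1) * ((D : ℝ) - 1) ^ (k + 1) := by
  classical
  have hD0 : 0 < D := by omega
  have hD2 : (2 : ℝ) ≤ D := by exact_mod_cast hD
  unfold count
  rw [card_eq_sum_card_fiberwise (f := fun j => Fin.tail (Fin.tail j)) (t := box D k)
    (fun j hj => mem_coe.2 (tail_mem (mem_filter.1 (mem_coe.1 hj)).1)), Nat.cast_sum]
  have hfib : ∀ t ∈ box D k,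
      ((((box D (k + 2)).filter (fun j => GammaMult D (k + 2) j z)).filter
        (fun j => Fin.tail (Fin.tail j) = t)).card : ℝ) ≤
        (2 * classBound D + 1) * ((D : ℝ) - 1) := by
    intro t ht
    refine le_trans ?_ (sum_prsS_le hTT D hD (z / gpr D k t))
    rw [← Nat.cast_sum]
    refine Nat.cast_le.2 ?_
    rw [card_eq_sum_card_fiberwise (f := fun j : Fin (k + 2) → ℕ => j 0 + j 1)
      (t := Icc 2 (2 * D - 2))]
    · refine sum_le_sum (fun s _ => ?_)
      refine card_le_card_of_injOn (fun j => (j 0, j 1)) ?_ ?_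
      · intro j hj
        have hj' := mem_coe.1 hj
        simp only [mem_filter] at hj'
        obtain ⟨⟨⟨h1, h2⟩, h3⟩, h4⟩ := hj'
        refine mem_coe.2 (mem_prsS.2 ⟨⟨mem_box.1 h1 0, mem_box.1 h1 1⟩, h4, ?_⟩)
        have h5 := gammaMult_two D k hD0 z j h1 h2
        rw [h3] at h5
        exact h5
      · intro j hj j' hj' h
        have hj1 := mem_coe.1 hj
        have hj2 := mem_coe.1 hj'
        simp only [mem_filter] at hj1 hj2
        simp only [Prod.mk.injEq] at h
        exact ext_two h.1 h.2 (hj1.1.2.trans hj2.1.2.symm)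
    · intro j hj
      have hj' := mem_coe.1 hj
      simp only [mem_filter] at hj'
      have h0 := mem_box.1 hj'.1.1 0
      have h1 := mem_box.1 hj'.1.1 1
      refine mem_coe.2 (mem_Icc.2 ?_)
      simp only
      omega
  calc _ ≤ ∑ _t ∈ box D k, (2 * classBound D + 1) * ((D : ℝ) - 1) := sum_le_sum hfib
    _ = (2 * classBound D + 1) * ((D : ℝ) - 1) ^ (k + 1) := by
      rw [sum_const, card_box, nsmul_eq_mul, Nat.cast_pow, Nat.cast_sub (by omega)]
      push_cast
      ring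

/-- tuples with a given sum -/
lemma card_sum_le (D k n : ℕ) :
    ((box D (k + 1)).filter (fun t => ∑ i, t i = n)).card ≤ (D - 1) ^ k := by
  classical
  rw [← card_box]
  refine card_le_card_of_injOn (fun t => Fin.tail t) ?_ ?_
  · intro t ht
    have ht' := mem_coe.1 ht
    rw [mem_filter, mem_box] at ht'
    exact mem_coe.2 (mem_box.2 (fun i => ht'.1 i.succ))
  · intro t ht t' ht' h
    have h1 := mem_coe.1 ht
    have h2 := mem_coe.1 ht'
    rw [mem_filter, Fin.sum_univ_succ] at h1 h2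
    have h3 : ∑ i : Fin k, t i.succ = ∑ i : Fin k, t' i.succ :=
      sum_congr rfl (fun i _ => congrFun h i)
    funext i
    refine Fin.cases ?_ (fun i => congrFun h i) i
    omega

/-- number of `r`-tuples with given sum, `r ≥ 3` -/
theorem countSum_le (hTT : TwoTerm) (D : ℕ) (hD : 2 ≤ D) (k n : ℕ) (z : ℝ) :
    (countSum D (k + 3) n z : ℝ) ≤ (classBound D + 1) * ((D : ℝ) - 1) ^ (k + 1) := by
  classical
  have hD0 : 0 < D := by omega
  have hD2 : (2 : ℝ) ≤ D := by exact_mod_cast hD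
  have hU := classBound_nonneg (D := D)
  unfold countSum
  rw [card_eq_sum_card_fiberwise (f := fun j => Fin.tail (Fin.tail j)) (t := box D (k + 1))
    (fun j hj => mem_coe.2 (tail_mem (mem_filter.1 (mem_coe.1 hj)).1)), Nat.cast_sum]
  have hfib : ∀ t ∈ box D (k + 1),
      ((((box D (k + 3)).filter (fun j => ∑ i, j i = n ∧ GammaMult D (k + 3) j z)).filter
        (fun j => Fin.tail (Fin.tail j) = t)).card : ℝ) ≤
        classBound D + if D + ∑ i, t i = n then (D : ℝ) - 1 else 0 := by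
    intro t ht
    have h0 : (((box D (k + 3)).filter (fun j => ∑ i, j i = n ∧ GammaMult D (k + 3) j z)).filter
        (fun j => Fin.tail (Fin.tail j) = t)).card ≤
        (prsS D (n - ∑ i, t i) (z / gpr D (k + 1) t)).card := by
      refine card_le_card_of_injOn (fun j => (j 0, j 1)) ?_ ?_
      · intro j hj
        have hj' := mem_coe.1 hj
        simp only [mem_filter] at hj'
        obtain ⟨⟨h1, h2, h3⟩, h4⟩ := hj'
        refine mem_coe.2 (mem_prsS.2 ⟨⟨mem_box.1 h1 0, mem_box.1 h1 1⟩, ?_, ?_⟩)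
        · rw [sum_two, h4] at h2
          simp only
          omega
        · have h5 := gammaMult_two D (k + 1) hD0 z j h1 h3
          rw [h4] at h5
          exact h5
      · intro j hj j' hj' h
        have hj1 := mem_coe.1 hj
        have hj2 := mem_coe.1 hj'
        simp only [mem_filter] at hj1 hj2
        simp only [Prod.mk.injEq] at h
        exact ext_two h.1 h.2 (hj1.2.trans hj2.2.symm)
    split_ifs with hc
    · have h1 := card_prsS_self D (z / gpr D (k + 1) t) (n - ∑ i, t i)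
      have h2 : (((((box D (k + 3)).filter
          (fun j => ∑ i, j i = n ∧ GammaMult D (k + 3) j z)).filter
          (fun j => Fin.tail (Fin.tail j) = t)).card : ℕ) : ℝ) ≤ ((D - 1 : ℕ) : ℝ) :=
        Nat.cast_le.2 (h0.trans h1)
      rw [Nat.cast_sub (by omega : 1 ≤ D), Nat.cast_one] at h2
      linarith
    · rw [add_zero]
      by_cases hne : n - ∑ i, t i = D
      · exfalso
        apply hc
        omega
      · exact (Nat.cast_le.2 h0).trans (card_prsS_le hTT D hD _ hne _)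
  refine (sum_le_sum hfib).trans ?_
  rw [sum_add_distrib, sum_const, card_box, nsmul_eq_mul, ← sum_filter, sum_const, nsmul_eq_mul]
  have h1 : ((box D (k + 1)).filter (fun t => D + ∑ i, t i = n)).card ≤ (D - 1) ^ k := by
    refine le_trans (card_le_card ?_) (card_sum_le D k (n - D))
    intro t ht
    rw [mem_filter] at ht ⊢
    exact ⟨ht.1, by omega⟩
  have h2 : ((((box D (k + 1)).filter (fun t => D + ∑ i, t i = n)).card : ℕ) : ℝ) ≤
      ((D : ℝ) - 1) ^ k := by
    have h3 : ((((box D (k + 1)).filter (fun t => D + ∑ i, t i = n)).card : ℕ) : ℝ) ≤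
      (((D - 1) ^ k : ℕ) : ℝ) := Nat.cast_le.2 h1
    rw [Nat.cast_pow, Nat.cast_sub (by omega), Nat.cast_one] at h3
    exact h3
  have h3 : (0 : ℝ) ≤ (D : ℝ) - 1 := by linarith
  have h4 := mul_le_mul_of_nonneg_right h2 h3
  rw [Nat.cast_pow, Nat.cast_sub (by omega : 1 ≤ D), Nat.cast_one]
  rw [pow_succ] at *
  linarith

/-- `r = 1` -/
theorem count_one_le (hTT : TwoTerm) (D : ℕ) (hD : 2 ≤ D) (z : ℝ) :
    (count D 1 z : ℝ) ^ 2 ≤ (2 * classBound D + 1) * ((D : ℝ) - 1) := by
  classical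
  refine le_trans ?_ (sum_prsS_le hTT D hD (z * z))
  rw [← Nat.cast_sum, ← Nat.cast_pow]
  refine Nat.cast_le.2 ?_
  unfold count
  rw [sq, ← card_product, card_eq_sum_card_fiberwise
    (f := fun x : (Fin 1 → ℕ) × (Fin 1 → ℕ) => x.1 0 + x.2 0) (t := Icc 2 (2 * D - 2))]
  · refine sum_le_sum (fun s _ => ?_)
    refine card_le_card_of_injOn (fun x => (x.1 0, x.2 0)) ?_ ?_
    · intro x hx
      have hx' := mem_coe.1 hx
      simp only [mem_filter, mem_product] at hx'
      obtain ⟨⟨⟨h1, α, hα, h2⟩, h3, β, hβ, h4⟩, h5⟩ := hx'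
      refine mem_coe.2 (mem_prsS.2 ⟨⟨mem_box.1 h1 0, mem_box.1 h3 0⟩, h5, α * β, hα.mul hβ, ?_⟩)
      rw [Fin.prod_univ_one] at h2 h4
      simp only
      rw [h2, h4]
      ring
    · intro x _ y _ h
      simp only [Prod.mk.injEq] at h
      have e1 : x.1 = y.1 := by
        funext i; rw [Subsingleton.elim i 0]; exact h.1
      have e2 : x.2 = y.2 := by
        funext i; rw [Subsingleton.elim i 0]; exact h.2
      exact Prod.ext e1 e2
  · intro x hx
    have hx' := mem_coe.1 hx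
    simp only [mem_filter, mem_product] at hx'
    have h0 := mem_box.1 hx'.1.1 0
    have h1 := mem_box.1 hx'.2.1 0
    refine mem_coe.2 (mem_Icc.2 ?_)
    simp only
    omega

end Tup

end Pool.Agent.WW
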