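import Pool.Agent.WW.TupFrac

/-!
Rohrlich's question holds for almost all tuples of every level, from the two-term theorem.
-/

set_option autoImplicit false

namespace Pool.Agent.WW

open Finset Filter Topology Pool.Agent.Helper29.Rohr

namespace Tup

lemma tendsto_two : Tendsto (fun D : ℕ => (2 * classBound D + 2) / ((D : ℝ) - 1)) atTop (𝓝 0) := by
  have h := tendsto_classBound.const_mul 2
  rw [mul_zero] at h
  refine squeeze_zero' ?_ ?_ h
  · filter_upwards [eventually_ge_atTop 2] with D hD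
    have h2 : (2 : ℝ) ≤ D := by exact_mod_cast hD
    have h3 := classBound_nonneg (D := D)
    have h4 : (0 : ℝ) < (D : ℝ) - 1 := by linarith
    positivity
  · filter_upwards [eventually_ge_atTop 2] with D hD
    have h2 : (2 : ℝ) ≤ D := by exact_mod_cast hD
    have h3 := classBound_nonneg (D := D)
    have h4 : (0 : ℝ) < (D : ℝ) - 1 := by linarith
    rw [← mul_div_assoc]
    refine div_le_div_of_nonneg_right (by linarith) h4.le

/-- all tuples -/
theorem tendsto_fails (hTT : TwoTerm) (r : ℕ) (hr : 1 ≤ r) :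
    Tendsto (fun D : ℕ => (fails D r : ℝ) / ((D : ℝ) - 1) ^ r) atTop (𝓝 0) := by
  rcases Nat.lt_or_ge r 2 with h1 | h2
  · have hr1 : r = 1 := by omega
    subst hr1
    have hsq := tendsto_classBound.sqrt.add tendsto_two
    rw [Real.sqrt_zero, add_zero] at hsq
    refine squeeze_zero' ?_ ?_ hsq
    · filter_upwards [eventually_ge_atTop 2] with D hD
      have h2 : (2 : ℝ) ≤ D := by exact_mod_cast hD
      have h4 : (0 : ℝ) < (D : ℝ) - 1 := by linarith
      positivity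
    · filter_upwards [eventually_ge_atTop 2] with D hD
      have h2 : (2 : ℝ) ≤ D := by exact_mod_cast hD
      have hU := classBound_nonneg (D := D)
      have h4 : (0 : ℝ) < (D : ℝ) - 1 := by linarith
      have h5 := fails_one hTT D hD
      have e : Real.sqrt ((2 * classBound D + 1) * ((D : ℝ) - 1)) =
          Real.sqrt ((2 * classBound D + 1) / ((D : ℝ) - 1)) * ((D : ℝ) - 1) := by
        have e1 : (2 * classBound D + 1) * ((D : ℝ) - 1) =
            (2 * classBound D + 1) / ((D : ℝ) - 1) * ((D : ℝ) - 1) ^ 2 := by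
          field_simp
        rw [e1, Real.sqrt_mul (by positivity), Real.sqrt_sq h4.le]
      rw [e] at h5
      rw [pow_one, div_le_iff₀ h4, add_mul, div_mul_cancel₀ _ h4.ne']
      linarith
  · obtain ⟨k, rfl⟩ : ∃ k, r = k + 2 := ⟨r - 2, by omega⟩
    refine squeeze_zero' ?_ ?_ tendsto_two
    · filter_upwards [eventually_ge_atTop 2] with D hD
      have h2 : (2 : ℝ) ≤ D := by exact_mod_cast hD
      have h4 : (0 : ℝ) < (D : ℝ) - 1 := by linarith
      positivity
    · filter_upwards [eventually_ge_atTop 2] with D hD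
      have h2 : (2 : ℝ) ≤ D := by exact_mod_cast hD
      have h4 : (0 : ℝ) < (D : ℝ) - 1 := by linarith
      have h5 := fails_bound hTT D hD k
      rw [div_le_div_iff₀ (by positivity) h4]
      calc ((fails D (k + 2) : ℕ) : ℝ) * ((D : ℝ) - 1)
          ≤ ((2 * classBound D + 2) * ((D : ℝ) - 1) ^ (k + 1)) * ((D : ℝ) - 1) :=
            mul_le_mul_of_nonneg_right h5 h4.le
        _ = (2 * classBound D + 2) * ((D : ℝ) - 1) ^ (k + 2) := by ring

/-- tuples with sum of the arguments equal to `r / 2` -/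
theorem tendsto_failsHalf (hTT : TwoTerm) (r : ℕ) (hr : 3 ≤ r) :
    Tendsto (fun D : ℕ => (failsHalf D r : ℝ) / numHalf D r) atTop (𝓝 0) := by
  obtain ⟨k, rfl⟩ : ∃ k, r = k + 3 := ⟨r - 3, by omega⟩
  have hlim := tendsto_two.const_mul ((4 * ((k : ℝ) + 3)) ^ (k + 2))
  rw [mul_zero] at hlim
  refine squeeze_zero' (Eventually.of_forall fun D => by positivity) ?_ hlim
  filter_upwards [eventually_ge_atTop (4 * (k + 3))] with D hD
  have hD2 : 2 ≤ D := by omega
  have h2 : (2 : ℝ) ≤ D := by exact_mod_cast hD2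
  have h4 : (0 : ℝ) < (D : ℝ) - 1 := by linarith
  have hU := classBound_nonneg (D := D)
  by_cases hev : ∃ n, 2 * n = (k + 3) * D
  · obtain ⟨n, hn⟩ := hev
    have h5 := failsHalf_bound hTT D hD2 k
    have h7 := numHalf_ge D (k + 2) n (by omega) hn
    have h8 : (((D / (2 * (k + 2 + 1))) ^ (k + 2) : ℕ) : ℝ) ≤ (numHalf D (k + 3) : ℝ) :=
      Nat.cast_le.2 h7
    have h9 : (D : ℝ) / (4 * (k + 3)) ≤ ((D / (2 * (k + 2 + 1)) : ℕ) : ℝ) := by
      have h10 : D < (D / (2 * (k + 2 + 1)) + 1) * (2 * (k + 2 + 1)) := by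
        have := Nat.lt_div_mul_add (a := D) (b := 2 * (k + 2 + 1)) (by omega)
        calc D < D / (2 * (k + 2 + 1)) * (2 * (k + 2 + 1)) + 2 * (k + 2 + 1) := this
          _ = _ := by ring
      have h11 : 2 ≤ D / (2 * (k + 2 + 1)) := by
        rw [Nat.le_div_iff_mul_le (by omega)]
        omega
      have h12 : D ≤ (D / (2 * (k + 2 + 1))) * (4 * (k + 3)) := by
        refine h10.le.trans ?_
        have : (D / (2 * (k + 2 + 1)) + 1) ≤ D / (2 * (k + 2 + 1)) * 2 := by omega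
        calc (D / (2 * (k + 2 + 1)) + 1) * (2 * (k + 2 + 1))
            ≤ (D / (2 * (k + 2 + 1)) * 2) * (2 * (k + 2 + 1)) := Nat.mul_le_mul_right _ this
          _ = _ := by ring
      rw [div_le_iff₀ (by positivity)]
      exact_mod_cast h12
    have h10 : ((D : ℝ) / (4 * (k + 3))) ^ (k + 2) ≤ (numHalf D (k + 3) : ℝ) := by
      refine le_trans (pow_le_pow_left₀ (by positivity) h9 _) ?_
      rw [Nat.cast_pow] at h8
      exact h8
    have h11 : (0 : ℝ) < ((D : ℝ) / (4 * (k + 3))) ^ (k + 2) := by positivity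
    have h12 : (0 : ℝ) < (numHalf D (k + 3) : ℝ) := lt_of_lt_of_le h11 h10
    rw [div_le_iff₀ h12]
    refine h5.trans ?_
    have h14 : (4 * ((k : ℝ) + 3)) ^ (k + 2) * ((2 * classBound D + 2) / ((D : ℝ) - 1)) *
        ((D : ℝ) / (4 * (k + 3))) ^ (k + 2) ≤
        (4 * ((k : ℝ) + 3)) ^ (k + 2) * ((2 * classBound D + 2) / ((D : ℝ) - 1)) *
          (numHalf D (k + 3) : ℝ) := mul_le_mul_of_nonneg_left h10 (by positivity)
    refine le_trans ?_ h14
    have e : (4 * ((k : ℝ) + 3)) ^ (k + 2) * ((2 * classBound D + 2) / ((D : ℝ) - 1)) *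
        ((D : ℝ) / (4 * (k + 3))) ^ (k + 2) =
        (2 * classBound D + 2) * ((D : ℝ) ^ (k + 2) / ((D : ℝ) - 1)) := by
      rw [div_pow]
      field_simp
    rw [e]
    refine mul_le_mul_of_nonneg_left ?_ (by positivity)
    rw [le_div_iff₀ h4, ← pow_succ]
    exact pow_le_pow_left₀ h4.le (by linarith) _
  · have h0 : failsHalf D (k + 3) = 0 := by
      classical
      unfold failsHalf
      rw [card_eq_zero, filter_eq_empty_iff]
      rintro j _ ⟨h, -⟩
      exact hev ⟨_, h⟩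
    rw [h0, Nat.cast_zero, zero_div]
    positivity

end Tup

/-- Rohrlich's question for almost all tuples. -/
theorem almost_all (hTT : TwoTerm) :
    (∀ D : ℕ, 2 ≤ D →
      (∀ z : ℝ, (count D 1 z : ℝ) ^ 2 ≤ (2 * classBound D + 1) * ((D : ℝ) - 1) ∧
        (∀ r : ℕ, 2 ≤ r →
          (count D r z : ℝ) ≤ (2 * classBound D + 1) * ((D : ℝ) - 1) ^ (r - 1)) ∧
        (∀ r n : ℕ, 3 ≤ r →
          (countSum D r n z : ℝ) ≤ (classBound D + 1) * ((D : ℝ) - 1) ^ (r - 2))) ∧
      (∀ r : ℕ, 2 ≤ r → (fails D r : ℝ) ≤ (2 * classBound D + 2) * ((D : ℝ) - 1) ^ (r - 1)) ∧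
      (∀ r : ℕ, 3 ≤ r →
        (failsHalf D r : ℝ) ≤ (2 * classBound D + 2) * ((D : ℝ) - 1) ^ (r - 2))) ∧
    (∀ r : ℕ, 1 ≤ r →
      Tendsto (fun D : ℕ => (fails D r : ℝ) / ((D : ℝ) - 1) ^ r) atTop (𝓝 0)) ∧
    (∀ r : ℕ, 3 ≤ r →
      Tendsto (fun D : ℕ => (failsHalf D r : ℝ) / numHalf D r) atTop (𝓝 0)) := by
  refine ⟨fun D hD => ⟨fun z => ⟨Tup.count_one_le hTT D hD z, fun r hr => ?_, fun r n hr => ?_⟩,
    fun r hr => ?_, fun r hr => ?_⟩, Tup.tendsto_fails hTT, Tup.tendsto_failsHalf hTT⟩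
  · obtain ⟨k, rfl⟩ : ∃ k, r = k + 2 := ⟨r - 2, by omega⟩
    exact Tup.count_le hTT D hD k z
  · obtain ⟨k, rfl⟩ : ∃ k, r = k + 3 := ⟨r - 3, by omega⟩
    exact Tup.countSum_le hTT D hD k n z
  · obtain ⟨k, rfl⟩ : ∃ k, r = k + 2 := ⟨r - 2, by omega⟩
    exact Tup.fails_bound hTT D hD k
  · obtain ⟨k, rfl⟩ : ∃ k, r = k + 3 := ⟨r - 3, by omega⟩
    exact Tup.failsHalf_bound hTT D hD k

end Pool.Agent.WW
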