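import Pool.Agent.WW.TupMain

/-!
Tuples satisfying the fractional-part identity, and the failures of the equivalence.
-/

set_option autoImplicit false

namespace Pool.Agent.WW

open Finset Filter Topology Pool.Agent.Helper29.Rohr

open Classical in
/-- Number of `r`-tuples `j` of level `D` for which the equivalence of the question fails. -/
noncomputable def fails (D r : ℕ) : ℕ :=
  ((box D r).filter (fun j =>
    ¬ (GammaMult D r j (Real.pi ^ ((r : ℝ) / 2)) ↔ FracId D r j))).card

open Classical in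
/-- Number of those with `j_1/D + .. + j_r/D = r/2` (the condition of the question for `m = 1`). -/
noncomputable def failsHalf (D r : ℕ) : ℕ :=
  ((box D r).filter (fun j => 2 * ∑ i, j i = r * D ∧
    ¬ (GammaMult D r j (Real.pi ^ ((r : ℝ) / 2)) ↔ FracId D r j))).card

namespace Tup

open Classical in
/-- Number of `r`-tuples `j` of level `D` with the fractional-part identity -/
noncomputable def fracs (D r : ℕ) : ℕ := ((box D r).filter (fun j => FracId D r j)).card

lemma fracId_res {D r : ℕ} (hD : 0 < D) {j : Fin r → ℕ} (h : FracId D r j) (m : ℕ) (hm : 1 ≤ m)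
    (hmD : m < D) (hc : m.Coprime D) : 2 * ∑ i, (m * j i) % D = r * D := by
  have h1 := h m hm hmD hc
  have hDQ : (D : ℚ) ≠ 0 := by exact_mod_cast hD.ne'
  have e : ∀ i, Int.fract ((m : ℚ) * ((j i : ℚ) / D)) = (((m * j i) % D : ℕ) : ℚ) / D := by
    intro i
    have : (m : ℚ) * ((j i : ℚ) / D) = ((m * j i : ℕ) : ℚ) / ((D : ℕ) : ℚ) := by push_cast; ring
    rw [this, Int.fract_div_natCast_eq_div_natCast_mod]
  rw [sum_congr rfl (fun i _ => e i), ← sum_div, ← Nat.cast_sum] at h1
  field_simp at h1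
  have h2 : (∑ i, (m * j i) % D) * 2 = D * r := by exact_mod_cast h1
  rw [mul_comm 2, h2, mul_comm]

lemma fracId_sum {D r : ℕ} (hD : 2 ≤ D) {j : Fin r → ℕ} (hj : j ∈ box D r)
    (h : FracId D r j) : 2 * ∑ i, j i = r * D := by
  rw [← fracId_res (by omega) h 1 le_rfl (by omega) (Nat.coprime_one_left D)]
  congr 1
  refine sum_congr rfl (fun i _ => ?_)
  rw [one_mul, Nat.mod_eq_of_lt (mem_box.1 hj i).2]

/-- trivial bound -/
lemma fracs_le_triv (D k : ℕ) (hD : 2 ≤ D) : fracs D (k + 1) ≤ (D - 1) ^ k := by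
  classical
  unfold fracs
  by_cases hn : ∃ n, 2 * n = (k + 1) * D
  · obtain ⟨n, hn⟩ := hn
    refine le_trans (card_le_card ?_) (card_sum_le D k n)
    intro j hj
    rw [mem_filter] at hj ⊢
    have := fracId_sum hD hj.1 hj.2
    exact ⟨hj.1, by omega⟩
  · have : (box D (k + 1)).filter (fun j => FracId D (k + 1) j) = ∅ := by
      rw [filter_eq_empty_iff]
      intro j hj h
      exact hn ⟨_, fracId_sum hD hj h⟩
    rw [this, card_empty]
    exact Nat.zero_le _

/-- the bound for `r ≥ 3` -/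
theorem fracs_le (D : ℕ) (hD : 2 ≤ D) (k : ℕ) :
    (fracs D (k + 3) : ℝ) ≤ (classBound D + 1) * ((D : ℝ) - 1) ^ (k + 1) := by
  classical
  have hD0 : 0 < D := by omega
  have hD2 : (2 : ℝ) ≤ D := by exact_mod_cast hD
  have hU := classBound_nonneg (D := D)
  by_cases hn : ∃ n, 2 * n = (k + 3) * D
  swap
  · have h0 : fracs D (k + 3) = 0 := by
      unfold fracs
      rw [card_eq_zero, filter_eq_empty_iff]
      intro j hj h
      exact hn ⟨_, fracId_sum hD hj h⟩
    rw [h0, Nat.cast_zero]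
    have : (0 : ℝ) ≤ (D : ℝ) - 1 := by linarith
    positivity
  obtain ⟨n, hn⟩ := hn
  unfold fracs
  rw [card_eq_sum_card_fiberwise (f := fun j => Fin.tail (Fin.tail j)) (t := box D (k + 1))
    (fun j hj => mem_coe.2 (tail_mem (mem_filter.1 (mem_coe.1 hj)).1)), Nat.cast_sum]
  have hfib : ∀ t ∈ box D (k + 1),
      ((((box D (k + 3)).filter (fun j => FracId D (k + 3) j)).filter
        (fun j => Fin.tail (Fin.tail j) = t)).card : ℝ) ≤
        classBound D + if D + ∑ i, t i = n then (D : ℝ) - 1 else 0 := by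
    intro t ht
    set A := ((box D (k + 3)).filter (fun j => FracId D (k + 3) j)).filter
        (fun j => Fin.tail (Fin.tail j) = t) with hA
    have hinj : Set.InjOn (fun j : Fin (k + 3) → ℕ => (j 0, j 1)) (A : Set (Fin (k + 3) → ℕ)) := by
      intro j hj j' hj' h
      have hj1 := mem_coe.1 hj
      have hj2 := mem_coe.1 hj'
      rw [hA] at hj1 hj2
      simp only [mem_filter] at hj1 hj2
      simp only [Prod.mk.injEq] at h
      exact ext_two h.1 h.2 (hj1.2.trans hj2.2.symm)
    have hsum : ∀ j ∈ A, j 0 + j 1 + ∑ i, t i = n := by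
      intro j hj
      rw [hA] at hj
      simp only [mem_filter] at hj
      have h1 := fracId_sum hD hj.1.1 hj.1.2
      rw [sum_two, hj.2] at h1
      omega
    split_ifs with hc
    · have h1 : A.card ≤ D - 1 := by
        have hI : (Ioo 0 D).card = D - 1 := by simp
        rw [← hI]
        refine card_le_card_of_injOn (fun j => j 0) ?_ ?_
        · intro j hj
          have hj1 := mem_coe.1 hj
          rw [hA] at hj1
          simp only [mem_filter] at hj1
          exact mem_coe.2 (mem_Ioo.2 (mem_box.1 hj1.1.1 0))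
        · intro j hj j' hj' h
          have h1 := hsum j (mem_coe.1 hj)
          have h2 := hsum j' (mem_coe.1 hj')
          have h3 : j 0 = j' 0 := h
          refine hinj hj hj' (Prod.ext h3 ?_)
          change j 1 = j' 1
          omega
      have h2 : ((A.card : ℕ) : ℝ) ≤ ((D - 1 : ℕ) : ℝ) := Nat.cast_le.2 h1
      rw [Nat.cast_sub (by omega : 1 ≤ D), Nat.cast_one] at h2
      linarith
    · rw [add_zero, ← card_image_of_injOn hinj]
      by_cases hne : n - ∑ i, t i = D
      · exfalso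
        apply hc
        omega
      refine card_le_of_res D hD (n - ∑ i, t i) hne _ (fun x hx => ?_)
        (fun x hx y hy m hm1 hmD hm => ?_)
      · obtain ⟨j, hj, rfl⟩ := mem_image.1 hx
        have hj1 := hj
        rw [hA] at hj1
        simp only [mem_filter] at hj1
        have h1 := hsum j hj
        exact ⟨⟨mem_box.1 hj1.1.1 0, mem_box.1 hj1.1.1 1⟩, by simp only; omega⟩
      · obtain ⟨j, hj, rfl⟩ := mem_image.1 hx
        obtain ⟨j', hj', rfl⟩ := mem_image.1 hy
        rw [hA] at hj hj'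
        simp only [mem_filter] at hj hj'
        have h1 := fracId_res hD0 hj.1.2 m hm1 hmD hm
        have h2 := fracId_res hD0 hj'.1.2 m hm1 hmD hm
        have e : ∀ i : Fin (k + 3) → ℕ, ∑ l, (m * i l) % D =
            (m * i 0) % D + (m * i 1) % D +
              ∑ l, (m * Fin.tail (Fin.tail i) l) % D := by
          intro i
          rw [Fin.sum_univ_succ, Fin.sum_univ_succ, ← add_assoc]
          rfl
        rw [e, hj.2] at h1
        rw [e, hj'.2] at h2
        simp only
        omega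
  refine (sum_le_sum hfib).trans ?_
  rw [sum_add_distrib, sum_const, card_box, nsmul_eq_mul, ← sum_filter, sum_const, nsmul_eq_mul]
  have h1 : ((box D (k + 1)).filter (fun t => D + ∑ i, t i = n)).card ≤ (D - 1) ^ k := by
    refine le_trans (card_le_card ?_) (card_sum_le D k (n - D))
    intro t ht
    rw [mem_filter] at ht ⊢
    exact ⟨ht.1, by omega⟩
  have h2 : ((((box D (k + 1)).filter (fun t => D + ∑ i, t i = n)).card : ℕ) : ℝ) ≤
      ((D : ℝ) - 1) ^ k := by
    have h3 : ((((box D (k + 1)).filter (fun t => D + ∑ i, t i = n)).card : ℕ) : ℝ) ≤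
      (((D - 1) ^ k : ℕ) : ℝ) := Nat.cast_le.2 h1
    rw [Nat.cast_pow, Nat.cast_sub (by omega), Nat.cast_one] at h3
    exact h3
  have h3 : (0 : ℝ) ≤ (D : ℝ) - 1 := by linarith
  have h4 := mul_le_mul_of_nonneg_right h2 h3
  rw [Nat.cast_pow, Nat.cast_sub (by omega : 1 ≤ D), Nat.cast_one]
  rw [pow_succ] at *
  linarith

lemma fails_le (D r : ℕ) :
    fails D r ≤ count D r (Real.pi ^ ((r : ℝ) / 2)) + fracs D r := by
  classical
  unfold fails count fracs
  refine (card_le_card (fun j hj => ?_)).trans (card_union_le _ _)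
  rw [mem_filter] at hj
  rw [mem_union, mem_filter, mem_filter]
  by_cases hA : GammaMult D r j (Real.pi ^ ((r : ℝ) / 2))
  · exact Or.inl ⟨hj.1, hA⟩
  · refine Or.inr ⟨hj.1, ?_⟩
    by_contra hF
    exact hj.2 ⟨fun h => absurd h hA, fun h => absurd h hF⟩

lemma failsHalf_le (D r n : ℕ) (hn : 2 * n = r * D) :
    failsHalf D r ≤ countSum D r n (Real.pi ^ ((r : ℝ) / 2)) + fracs D r := by
  classical
  unfold failsHalf countSum fracs
  refine (card_le_card (fun j hj => ?_)).trans (card_union_le _ _)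
  rw [mem_filter] at hj
  rw [mem_union, mem_filter, mem_filter]
  by_cases hA : GammaMult D r j (Real.pi ^ ((r : ℝ) / 2))
  · exact Or.inl ⟨hj.1, by omega, hA⟩
  · refine Or.inr ⟨hj.1, ?_⟩
    by_contra hF
    exact hj.2.2 ⟨fun h => absurd h hA, fun h => absurd h hF⟩

/-- `r ≥ 2` -/
theorem fails_bound (hTT : TwoTerm) (D : ℕ) (hD : 2 ≤ D) (k : ℕ) :
    (fails D (k + 2) : ℝ) ≤ (2 * classBound D + 2) * ((D : ℝ) - 1) ^ (k + 1) := by
  have h1 := count_le hTT D hD k (Real.pi ^ (((k + 2 : ℕ) : ℝ) / 2))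
  have h2 : ((fails D (k + 2) : ℕ) : ℝ) ≤
      ((count D (k + 2) (Real.pi ^ (((k + 2 : ℕ) : ℝ) / 2)) + fracs D (k + 2) : ℕ) : ℝ) :=
    Nat.cast_le.2 (fails_le D (k + 2))
  have h3 : ((fracs D (k + 2) : ℕ) : ℝ) ≤ (((D - 1) ^ (k + 1) : ℕ) : ℝ) :=
    Nat.cast_le.2 (fracs_le_triv D (k + 1) hD)
  rw [Nat.cast_pow, Nat.cast_sub (by omega : 1 ≤ D), Nat.cast_one] at h3
  push_cast at h2
  push_cast at h1
  linarith

/-- `r ≥ 3`, sum `r D / 2` -/
theorem failsHalf_bound (hTT : TwoTerm) (D : ℕ) (hD : 2 ≤ D) (k : ℕ) :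
    (failsHalf D (k + 3) : ℝ) ≤ (2 * classBound D + 2) * ((D : ℝ) - 1) ^ (k + 1) := by
  by_cases hn : ∃ n, 2 * n = (k + 3) * D
  · obtain ⟨n, hn⟩ := hn
    have h1 := countSum_le hTT D hD k n (Real.pi ^ (((k + 3 : ℕ) : ℝ) / 2))
    have h2 : ((failsHalf D (k + 3) : ℕ) : ℝ) ≤
        ((countSum D (k + 3) n (Real.pi ^ (((k + 3 : ℕ) : ℝ) / 2)) + fracs D (k + 3) : ℕ) : ℝ) :=
      Nat.cast_le.2 (failsHalf_le D (k + 3) n hn)
    have h3 := fracs_le D hD k
    push_cast at h2
    push_cast at h1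
    linarith
  · have h0 : failsHalf D (k + 3) = 0 := by
      classical
      unfold failsHalf
      rw [card_eq_zero, filter_eq_empty_iff]
      rintro j _ ⟨h, -⟩
      exact hn ⟨_, h⟩
    have hD2 : (2 : ℝ) ≤ D := by exact_mod_cast hD
    have hU := classBound_nonneg (D := D)
    have : (0 : ℝ) ≤ (D : ℝ) - 1 := by linarith
    rw [h0, Nat.cast_zero]
    positivity

/-- `r = 1` -/
theorem fails_one (hTT : TwoTerm) (D : ℕ) (hD : 2 ≤ D) :
    (fails D 1 : ℝ) ≤ Real.sqrt ((2 * classBound D + 1) * ((D : ℝ) - 1)) + 1 := by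
  have h1 := count_one_le hTT D hD (Real.pi ^ (((1 : ℕ) : ℝ) / 2))
  have h2 : ((fails D 1 : ℕ) : ℝ) ≤
      ((count D 1 (Real.pi ^ (((1 : ℕ) : ℝ) / 2)) + fracs D 1 : ℕ) : ℝ) :=
    Nat.cast_le.2 (fails_le D 1)
  have h3 : ((fracs D 1 : ℕ) : ℝ) ≤ ((1 : ℕ) : ℝ) :=
    Nat.cast_le.2 (fracs_le_triv D 0 hD)
  have h4 := Real.le_sqrt_of_sq_le h1
  push_cast at h2 h3 h4 ⊢
  linarith

end Tup

end Pool.Agent.WW
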