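import Pool.Agent.WW.TupCount
import Pool.Agent.Helper27.DivBound

/-!
The proportion of exceptional tuples tends to zero.
-/

set_option autoImplicit false

namespace Pool.Agent.WW

open Finset Filter Topology Pool.Agent.Helper29.Rohr

open Classical in
/-- Number of all `r`-tuples `j` of level `D` with `j_1/D + .. + j_r/D = r/2`. -/
noncomputable def numHalf (D r : ℕ) : ℕ :=
  ((box D r).filter (fun j => 2 * ∑ i, j i = r * D)).card

namespace Tup

lemma le_totient_mul_card (n : ℕ) (hn : 0 < n) : n ≤ n.totient * n.divisors.card := by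
  revert hn
  induction n using Nat.recOnPosPrimePosCoprime with
  | zero => intro h; exact absurd h (lt_irrefl 0)
  | one => intro _; simp
  | prime_pow q a hq ha =>
    intro _
    obtain ⟨b, rfl⟩ : ∃ b, a = b + 1 := ⟨a - 1, by omega⟩
    rw [Nat.totient_prime_pow_succ hq, Nat.divisors_prime_pow hq, Finset.card_map,
      Finset.card_range, pow_succ, mul_assoc]
    refine Nat.mul_le_mul_left _ ?_
    have h2 := hq.two_le
    calc q ≤ (q - 1) * 2 := by omega
      _ ≤ (q - 1) * (b + 1 + 1) := Nat.mul_le_mul_left _ (by omega)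
  | coprime a b ha hb hab iha ihb =>
    intro _
    rw [Nat.totient_mul hab, hab.card_divisors_mul]
    calc a * b ≤ (a.totient * a.divisors.card) * (b.totient * b.divisors.card) :=
          Nat.mul_le_mul (iha (by omega)) (ihb (by omega))
      _ = _ := by ring

lemma classBound_le (D : ℕ) (hD : 0 < D) :
    classBound D ≤ 2 + 160 * ((D.divisors.card : ℝ) ^ 2 * (1 + Real.log D) ^ 2) := by
  have hD0 : (0 : ℝ) < D := by exact_mod_cast hD
  have hφ : (0 : ℝ) < Nat.totient D := by exact_mod_cast Nat.totient_pos.2 hD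
  unfold classBound
  split_ifs
  · have : 0 ≤ 160 * ((D.divisors.card : ℝ) ^ 2 * (1 + Real.log D) ^ 2) := by positivity
    linarith
  · have h1 : (D : ℝ) / Nat.totient D ≤ D.divisors.card := by
      rw [div_le_iff₀ hφ, mul_comm]
      exact_mod_cast le_totient_mul_card D hD
    have h2 : 160 * ((D : ℝ) / Nat.totient D) * (D.divisors.card) * (1 + Real.log D) ^ 2 ≤
        160 * (D.divisors.card) * (D.divisors.card) * (1 + Real.log D) ^ 2 := by
      gcongr
    refine h2.trans ?_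
    have : 160 * ((D.divisors.card : ℝ) ^ 2 * (1 + Real.log D) ^ 2) =
      160 * (D.divisors.card) * (D.divisors.card) * (1 + Real.log D) ^ 2 := by ring
    linarith

/-- the constant of the divisor bound -/
noncomputable def cdiv : ℝ := (((2 * 8 ^ 8) ^ (2 ^ 8) : ℕ) : ℝ) ^ ((1 : ℝ) / 4)

lemma card_divisors_sq_le (D : ℕ) (hD : 0 < D) :
    (D.divisors.card : ℝ) ^ 2 ≤ cdiv * (D : ℝ) ^ ((1 : ℝ) / 4) := by
  have h1 := Pool.Agent.Helper27.card_divisors_pow_le' 8 (by norm_num) D hD
  have h2 : ((D.divisors.card : ℝ)) ^ 8 ≤ (((2 * 8 ^ 8) ^ (2 ^ 8) : ℕ) : ℝ) * D := by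
    exact_mod_cast h1
  have h3 : (((D.divisors.card : ℝ)) ^ 8) ^ ((1 : ℝ) / 4) ≤
      ((((2 * 8 ^ 8) ^ (2 ^ 8) : ℕ) : ℝ) * D) ^ ((1 : ℝ) / 4) :=
    Real.rpow_le_rpow (by positivity) h2 (by norm_num)
  rw [Real.mul_rpow (by positivity) (by positivity)] at h3
  have h4 : (((D.divisors.card : ℝ)) ^ 8) ^ ((1 : ℝ) / 4) = (D.divisors.card : ℝ) ^ 2 := by
    rw [← Real.rpow_natCast, ← Real.rpow_mul (by positivity)]
    norm_num
  rw [h4] at h3
  exact h3

lemma cdiv_nonneg : 0 ≤ cdiv := by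
  unfold cdiv
  positivity

/-- the bound tends to zero -/
theorem tendsto_classBound :
    Tendsto (fun D : ℕ => (2 * classBound D + 1) / ((D : ℝ) - 1)) atTop (𝓝 0) := by
  have hlog : Tendsto (fun x : ℝ => x ^ ((1 : ℝ) / 4) * (1 + Real.log x) ^ 2 / x) atTop (𝓝 0) := by
    have h1 : Tendsto (fun x : ℝ => x ^ (-((3 : ℝ) / 8))) atTop (𝓝 0) :=
      tendsto_rpow_neg_atTop (by norm_num)
    have h2 : Tendsto (fun x : ℝ => Real.log x / x ^ ((3 : ℝ) / 8)) atTop (𝓝 0) :=
      (isLittleO_log_rpow_atTop (by norm_num : (0 : ℝ) < 3 / 8)).tendsto_div_nhds_zero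
    have h3 := (h1.add h2).pow 2
    rw [add_zero, zero_pow two_ne_zero] at h3
    refine h3.congr' ?_
    filter_upwards [eventually_gt_atTop 0] with x hx
    rw [Real.rpow_neg hx.le]
    have hx1 : x = x ^ ((1 : ℝ) / 4) * (x ^ ((3 : ℝ) / 8)) ^ 2 := by
      rw [← Real.rpow_natCast, ← Real.rpow_mul hx.le, ← Real.rpow_add hx]
      norm_num
    have hx2 : 0 < x ^ ((1 : ℝ) / 4) := Real.rpow_pos_of_pos hx _
    have hx3 : 0 < x ^ ((3 : ℝ) / 8) := Real.rpow_pos_of_pos hx _
    have e : x ^ ((1 : ℝ) / 4) * (1 + Real.log x) ^ 2 / x =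
        x ^ ((1 : ℝ) / 4) * (1 + Real.log x) ^ 2 /
          (x ^ ((1 : ℝ) / 4) * (x ^ ((3 : ℝ) / 8)) ^ 2) := by
      rw [← hx1]
    rw [e]
    field_simp
  have hlogN := hlog.comp tendsto_natCast_atTop_atTop
  have h1N : Tendsto (fun D : ℕ => (5 : ℝ) / (D : ℝ)) atTop (𝓝 0) :=
    tendsto_const_div_atTop_nhds_zero_nat 5
  have hlim := ((hlogN.const_mul (320 * cdiv)).add h1N).const_mul 2
  simp only [mul_zero, add_zero] at hlim
  refine squeeze_zero' ?_ ?_ hlim
  · filter_upwards [eventually_ge_atTop 2] with D hD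
    have h2 : (2 : ℝ) ≤ D := by exact_mod_cast hD
    have h3 := classBound_nonneg (D := D)
    have h4 : (0 : ℝ) < (D : ℝ) - 1 := by linarith
    positivity
  · filter_upwards [eventually_ge_atTop 2] with D hD
    have h2 : (2 : ℝ) ≤ D := by exact_mod_cast hD
    have h4 : (0 : ℝ) < (D : ℝ) - 1 := by linarith
    have h0 : (0 : ℝ) < D := by linarith
    have h5 := classBound_le D (by omega)
    have h6 := card_divisors_sq_le D (by omega)
    have h7 := cdiv_nonneg
    simp only [Function.comp]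
    rw [div_le_iff₀ h4]
    set L : ℝ := (1 + Real.log D) ^ 2 with hL
    have hL0 : 0 ≤ L := sq_nonneg _
    set R : ℝ := (D : ℝ) ^ ((1 : ℝ) / 4) with hR
    have hR0 : 0 ≤ R := Real.rpow_nonneg h0.le _
    have h8 : (D.divisors.card : ℝ) ^ 2 * L ≤ cdiv * R * L := mul_le_mul_of_nonneg_right h6 hL0
    have h9 : 2 * classBound D + 1 ≤ 320 * cdiv * (R * L) + 5 := by nlinarith
    have h10 : 320 * cdiv * (R * L) + 5 ≤
        2 * (320 * cdiv * (R * L / D) + 5 / D) * (D - 1) := by
      have e : 2 * (320 * cdiv * (R * L / D) + 5 / D) * ((D : ℝ) - 1) =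
          (320 * cdiv * (R * L) + 5) * (2 * (D - 1) / D) := by
        field_simp
      rw [e]
      have h11 : 1 ≤ 2 * ((D : ℝ) - 1) / D := by
        rw [le_div_iff₀ h0]; linarith
      have h12 : 0 ≤ 320 * cdiv * (R * L) + 5 := by positivity
      nlinarith
    exact h9.trans h10

end Tup

end Pool.Agent.WW
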