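import Pool.Agent.WW.TupLim

/-!
Lower bound for the number of tuples with sum `r D / 2`.
-/

set_option autoImplicit false

namespace Pool.Agent.WW

open Finset Filter Topology Pool.Agent.Helper29.Rohr

namespace Tup

/-- lower bound for the number of tuples with sum `r D / 2` -/
lemma numHalf_ge (D k n : ℕ) (hk : 1 ≤ k) (hn : 2 * n = (k + 1) * D) :
    (D / (2 * (k + 1))) ^ k ≤ numHalf D (k + 1) := by
  classical
  set K := D / (2 * (k + 1)) with hK
  rcases Nat.eq_zero_or_pos K with h0 | hKpos
  · rw [h0, zero_pow (by omega)]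
    exact Nat.zero_le _
  have hKD : K * (2 * (k + 1)) ≤ D := Nat.div_mul_le_self D _
  have e1 : K * (2 * (k + 1)) = 2 * (k * K) + 2 * K := by ring
  have hkK : K ≤ k * K := Nat.le_mul_of_pos_left K hk
  set A := (D + 1) / 2 with hA
  have hA1 : D ≤ 2 * A := by omega
  have hA2 : 2 * A ≤ D + 1 := by omega
  have hcard : (Fintype.piFinset (fun _ : Fin k => range K)).card = K ^ k := by
    simp [Fintype.card_piFinset]
  rw [← hcard]
  unfold numHalf
  have hS : ∀ x ∈ Fintype.piFinset (fun _ : Fin k => range K),
      k * A ≤ ∑ i, (A + x i) ∧ ∑ i, (A + x i) ≤ k * A + k * (K - 1) := by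
    intro x hx
    rw [Fintype.mem_piFinset] at hx
    rw [sum_add_distrib, sum_const, card_univ, Fintype.card_fin, smul_eq_mul]
    constructor
    · omega
    · have : ∑ i, x i ≤ ∑ _i : Fin k, (K - 1) := sum_le_sum (fun i _ => by
        have := mem_range.1 (hx i)
        omega)
      rw [sum_const, card_univ, Fintype.card_fin, smul_eq_mul] at this
      omega
  have e2 : k * (K - 1) + k = k * K := by
    rw [← Nat.mul_succ]; congr 1; omega
  have e3 : k * A * 2 ≤ k * D + k := by
    have := Nat.mul_le_mul_left k hA2
    have e : k * (D + 1) = k * D + k := by ring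
    have e' : k * (2 * A) = k * A * 2 := by ring
    omega
  have e4 : k * D ≤ k * A * 2 := by
    have := Nat.mul_le_mul_left k hA1
    have e' : k * (2 * A) = k * A * 2 := by ring
    omega
  have e5 : (k + 1) * D = k * D + D := by ring
  refine card_le_card_of_injOn
    (fun x => Fin.cons (n - ∑ i, (A + x i)) (fun i => A + x i)) ?_ ?_
  · intro x hx
    have hx' := mem_coe.1 hx
    obtain ⟨s1, s2⟩ := hS x hx'
    rw [Fintype.mem_piFinset] at hx'
    refine mem_coe.2 (mem_filter.2 ⟨mem_box.2 ?_, ?_⟩)
    · intro i
      refine Fin.cases ?_ (fun i => ?_) i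
      · simp only [Fin.cons_zero]
        omega
      · simp only [Fin.cons_succ]
        have := mem_range.1 (hx' i)
        omega
    · rw [Fin.sum_univ_succ]
      simp only [Fin.cons_zero, Fin.cons_succ]
      omega
  · intro x _ y _ h
    funext i
    have h1 := congrFun h i.succ
    simp only [Fin.cons_succ] at h1
    omega

end Tup

end Pool.Agent.WW
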