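import Pool.Agent.WW.TupDefs

/-!
Pairs with a given sum and a given class of the product of the gamma values.
-/

set_option autoImplicit false

namespace Pool.Agent.WW

open Finset Pool.Agent.Helper29.Rohr

namespace Tup

lemma alg_ofReal {x : ℝ} : IsAlgebraic ℚ (x : ℂ) ↔ IsAlgebraic ℚ x :=
  isAlgebraic_algebraMap_iff (R := ℚ) (S := ℝ) (A := ℂ) (algebraMap ℝ ℂ).injective

lemma gpos (D x : ℕ) (hD : 0 < D) (hx : 0 < x) : 0 < Real.Gamma ((x : ℝ) / D) := by
  have h1 : (0 : ℝ) < D := by exact_mod_cast hD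
  have h2 : (0 : ℝ) < x := by exact_mod_cast hx
  exact Real.Gamma_pos_of_pos (by positivity)

lemma bet_eq (D x y : ℕ) (hD : 0 < D) (hx : 0 < x) (hy : 0 < y) :
    Pool.Agent.GP.bet D x y = ((Real.Gamma ((x : ℝ) / D) * Real.Gamma ((y : ℝ) / D) /
        Real.Gamma (((x + y : ℕ) : ℝ) / D) : ℝ) : ℂ) := by
  have hDR : (0 : ℝ) < D := by exact_mod_cast hD
  have hxR : (0 : ℝ) < x := by exact_mod_cast hx
  have hyR : (0 : ℝ) < y := by exact_mod_cast hy
  unfold Pool.Agent.GP.bet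
  have ex : ((x : ℂ) / D) = (((x : ℝ) / D : ℝ) : ℂ) := by push_cast; rfl
  have ey : ((y : ℂ) / D) = (((y : ℝ) / D : ℝ) : ℂ) := by push_cast; rfl
  have h1 : 0 < ((((x : ℝ) / D : ℝ) : ℂ)).re := by rw [Complex.ofReal_re]; positivity
  have h2 : 0 < ((((y : ℝ) / D : ℝ) : ℂ)).re := by rw [Complex.ofReal_re]; positivity
  have h3 := Complex.Gamma_mul_Gamma_eq_betaIntegral h1 h2
  have h4 : (((x : ℝ) / D : ℝ) : ℂ) + (((y : ℝ) / D : ℝ) : ℂ) =
      (((((x + y : ℕ) : ℝ)) / D : ℝ) : ℂ) := by push_cast; ring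
  rw [h4, Complex.Gamma_ofReal, Complex.Gamma_ofReal, Complex.Gamma_ofReal] at h3
  have h5 : ((Real.Gamma (((x + y : ℕ) : ℝ) / D) : ℝ) : ℂ) ≠ 0 := by
    exact_mod_cast (gpos D (x + y) hD (by omega)).ne'
  rw [ex, ey, Complex.ofReal_div (Real.Gamma ((x : ℝ) / D) * Real.Gamma ((y : ℝ) / D)),
    Complex.ofReal_mul (Real.Gamma ((x : ℝ) / D)), h3, mul_div_cancel_left₀ _ h5]

/-- residues of two numbers with the same sum -/
lemma res_eq (D a b c d : ℕ) (hD : 0 < D) (hs : a + b = c + d)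
    (h : a % D + b % D < D ↔ c % D + d % D < D) : a % D + b % D = c % D + d % D := by
  have h1 := Nat.mod_lt a hD
  have h2 := Nat.mod_lt b hD
  have h3 := Nat.mod_lt c hD
  have h4 := Nat.mod_lt d hD
  have e1 : (a % D + b % D) % D = (c % D + d % D) % D := by
    rw [← Nat.add_mod, ← Nat.add_mod, hs]
  by_cases hlt : a % D + b % D < D
  · have hlt' := h.1 hlt
    rw [Nat.mod_eq_of_lt hlt, Nat.mod_eq_of_lt hlt'] at e1
    exact e1
  · have hlt' : ¬ c % D + d % D < D := fun h' => hlt (h.2 h')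
    have e2 : (a % D + b % D) % D = a % D + b % D - D := by
      rw [Nat.mod_eq_sub_mod (by omega), Nat.mod_eq_of_lt (by omega)]
    have e3 : (c % D + d % D) % D = c % D + d % D - D := by
      rw [Nat.mod_eq_sub_mod (by omega), Nat.mod_eq_of_lt (by omega)]
    omega

lemma mod_pos (D a m : ℕ) (ha : 0 < a) (haD : a < D) (hm : m.Coprime D) : 0 < (m * a) % D := by
  rcases Nat.eq_zero_or_pos ((m * a) % D) with h | h
  · exfalso
    have h1 : D ∣ m * a := Nat.dvd_of_mod_eq_zero h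
    have h2 : D ∣ a := (Nat.Coprime.dvd_of_dvd_mul_left hm.symm h1)
    exact absurd (Nat.le_of_dvd ha h2) (by omega)
  · exact h

lemma mod_compl (D a m : ℕ) (ha : 0 < a) (haD : a < D) (hm : m.Coprime D) :
    (m * (D - a)) % D + (m * a) % D = D := by
  have h1 := mod_pos D a m ha haD hm
  have h2 := mod_pos D (D - a) m (by omega) (by omega) hm
  have h3 := Nat.mod_lt (m * a) (by omega : D > 0)
  have h4 := Nat.mod_lt (m * (D - a)) (by omega : D > 0)
  have h5 : D ∣ (m * (D - a)) % D + (m * a) % D := by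
    apply Nat.dvd_of_mod_eq_zero
    rw [← Nat.add_mod, ← Nat.mul_add, Nat.sub_add_cancel haD.le, Nat.mul_mod_left]
  obtain ⟨k, hk⟩ := h5
  have : k = 1 := by
    have h6 : D * k < D * 2 := by omega
    have h7 : k < 2 := Nat.lt_of_mul_lt_mul_left h6
    have h8 : k ≠ 0 := by rintro rfl; omega
    omega
  rw [hk, this, mul_one]

/-- reflection formula modulo algebraic numbers -/
lemma refl_alg (D a : ℕ) (ha : 0 < a) (haD : a < D) :
    IsAlgebraic ℚ (Real.Gamma ((a : ℝ) / D) * Real.Gamma (((D - a : ℕ) : ℝ) / D) / Real.pi) := by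
  have hDR : (0 : ℝ) < D := by exact_mod_cast (by omega : 0 < D)
  have h1 : (((D - a : ℕ) : ℝ) / D) = 1 - (a : ℝ) / D := by
    rw [Nat.cast_sub haD.le]
    field_simp
  rw [h1, Real.Gamma_mul_Gamma_one_sub]
  have h2 : Real.pi / Real.sin (Real.pi * ((a : ℝ) / D)) / Real.pi =
      (Real.sin (((a : ℚ) / D : ℚ) * Real.pi))⁻¹ := by
    push_cast
    rw [mul_comm Real.pi, div_right_comm, div_self Real.pi_ne_zero, one_div]
  rw [h2]
  refine IsAlgebraic.inv ?_
  have := Real.isAlgebraic_sin_rat_mul_pi ((a : ℚ) / D)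
  exact (IsFractionRing.isAlgebraic_iff ℤ ℚ ℝ).1 this

/-- the two-term theorem for pairs with the same sum, in terms of residues -/
theorem res_of_alg (hTT : TwoTerm) {D a b c d : ℕ}
    (ha : 0 < a) (haD : a < D) (hb : 0 < b) (hbD : b < D)
    (hc : 0 < c) (hcD : c < D) (hd : 0 < d) (hdD : d < D)
    (hs : a + b = c + d) (hne : a + b ≠ D)
    (halg : IsAlgebraic ℚ (Real.Gamma ((a : ℝ) / D) * Real.Gamma ((b : ℝ) / D) /
      (Real.Gamma ((c : ℝ) / D) * Real.Gamma ((d : ℝ) / D)))) :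
    ∀ m : ℕ, Nat.Coprime m D → (m * a) % D + (m * b) % D = (m * c) % D + (m * d) % D := by
  have hD : 0 < D := by omega
  -- first the case of sum `< D`
  have key : ∀ a b c d : ℕ, 0 < a → 0 < b → 0 < c → 0 < d → a + b = c + d → a + b < D →
      IsAlgebraic ℚ (Real.Gamma ((a : ℝ) / D) * Real.Gamma ((b : ℝ) / D) /
      (Real.Gamma ((c : ℝ) / D) * Real.Gamma ((d : ℝ) / D))) →
      ∀ m : ℕ, Nat.Coprime m D → (m * a) % D + (m * b) % D = (m * c) % D + (m * d) % D := by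
    intro a b c d ha hb hc hd hs hlt halg m hm
    refine res_eq D (m * a) (m * b) (m * c) (m * d) hD (by rw [← Nat.mul_add, ← Nat.mul_add, hs]) ?_
    refine hTT D a b c d ha hb hlt hc hd (by omega) ?_ m hm
    rw [bet_eq D a b hD ha hb, bet_eq D c d hD hc hd, ← Complex.ofReal_div, alg_ofReal]
    have g1 := (gpos D c hD hc).ne'
    have g2 := (gpos D d hD hd).ne'
    have g3 := (gpos D (a + b) hD (by omega)).ne'
    rw [← hs]
    have e : Real.Gamma ((a : ℝ) / D) * Real.Gamma ((b : ℝ) / D) /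
        Real.Gamma (((a + b : ℕ) : ℝ) / D) /
        (Real.Gamma ((c : ℝ) / D) * Real.Gamma ((d : ℝ) / D) /
        Real.Gamma (((a + b : ℕ) : ℝ) / D)) =
        Real.Gamma ((a : ℝ) / D) * Real.Gamma ((b : ℝ) / D) /
        (Real.Gamma ((c : ℝ) / D) * Real.Gamma ((d : ℝ) / D)) := by
      field_simp
    rw [e]
    exact halg
  rcases lt_or_gt_of_ne hne with hlt | hgt
  · exact key a b c d ha hb hc hd hs hlt halg
  · intro m hm
    have hA := refl_alg D a ha haD
    have hB := refl_alg D b hb hbD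
    have hC := refl_alg D c hc hcD
    have hE := refl_alg D d hd hdD
    have g1 := (gpos D a hD ha).ne'
    have g2 := (gpos D b hD hb).ne'
    have g3 := (gpos D c hD hc).ne'
    have g4 := (gpos D d hD hd).ne'
    have g5 := (gpos D (D - a) hD (by omega)).ne'
    have g6 := (gpos D (D - b) hD (by omega)).ne'
    have g7 := (gpos D (D - c) hD (by omega)).ne'
    have g8 := (gpos D (D - d) hD (by omega)).ne'
    have hpi := Real.pi_ne_zero
    have h1 : IsAlgebraic ℚ (Real.Gamma (((D - a : ℕ) : ℝ) / D) *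
        Real.Gamma (((D - b : ℕ) : ℝ) / D) /
        (Real.Gamma (((D - c : ℕ) : ℝ) / D) * Real.Gamma (((D - d : ℕ) : ℝ) / D))) := by
      have h2 := ((hA.mul hB).mul (hC.mul hE).inv).mul halg.inv
      refine (congrArg (IsAlgebraic ℚ) ?_).mp h2
      generalize Real.Gamma ((a : ℝ) / D) = xa at *
      generalize Real.Gamma ((b : ℝ) / D) = xb at *
      generalize Real.Gamma ((c : ℝ) / D) = xc at *
      generalize Real.Gamma ((d : ℝ) / D) = xd at *
      generalize Real.Gamma (((D - a : ℕ) : ℝ) / D) = ya at *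
      generalize Real.Gamma (((D - b : ℕ) : ℝ) / D) = yb at *
      generalize Real.Gamma (((D - c : ℕ) : ℝ) / D) = yc at *
      generalize Real.Gamma (((D - d : ℕ) : ℝ) / D) = yd at *
      field_simp
    have h2 := key (D - a) (D - b) (D - c) (D - d) (by omega) (by omega) (by omega) (by omega)
      (by omega) (by omega) h1 m hm
    have e1 := mod_compl D a m ha haD hm
    have e2 := mod_compl D b m hb hbD hm
    have e3 := mod_compl D c m hc hcD hm
    have e4 := mod_compl D d m hd hdD hm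
    omega

/-- pairs with the same sum `s ≠ D` and the same residue sums -/
theorem card_le_of_res (D : ℕ) (hD : 2 ≤ D) (s : ℕ) (hs : s ≠ D) (P : Finset (ℕ × ℕ))
    (h1 : ∀ x ∈ P, ((0 < x.1 ∧ x.1 < D) ∧ (0 < x.2 ∧ x.2 < D)) ∧ x.1 + x.2 = s)
    (h2 : ∀ x ∈ P, ∀ y ∈ P, ∀ m : ℕ, 1 ≤ m → m < D → Nat.Coprime m D →
      (m * x.1) % D + (m * x.2) % D = (m * y.1) % D + (m * y.2) % D) :
    (P.card : ℝ) ≤ classBound D := by
  classical
  have : NeZero D := ⟨by omega⟩
  rcases P.eq_empty_or_nonempty with he | ⟨x, hx⟩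
  · rw [he, card_empty, Nat.cast_zero]
    exact classBound_nonneg
  obtain ⟨⟨⟨ha, haD⟩, hb, hbD⟩, hxs⟩ := h1 x hx
  set a := x.1 with hadef
  set b := x.2 with hbdef
  have cast_ne : ∀ u : ℕ, 0 < u → u < D → ((u : ZMod D)) ≠ 0 := by
    intro u hu huD h0
    rw [ZMod.natCast_eq_zero_iff] at h0
    exact absurd (Nat.le_of_dvd hu h0) (by omega)
  have hab : ((a : ZMod D)) + (b : ZMod D) ≠ 0 := by
    rw [← Nat.cast_add, Ne, ZMod.natCast_eq_zero_iff]
    rintro ⟨k, hk⟩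
    have h6 : D * k < D * 2 := by omega
    have h7 : k < 2 := Nat.lt_of_mul_lt_mul_left h6
    have h8 : k ≠ 0 := by rintro rfl; omega
    have h9 : k = 1 := by omega
    rw [h9, mul_one] at hk
    omega
  refine le_trans (Nat.cast_le.2 ?_) (cls_le_classBound (D := D) (a : ZMod D) (b : ZMod D)
    (cast_ne a ha haD) (cast_ne b hb hbD) hab)
  refine card_le_card_of_injOn (fun y => (((y.1 : ℕ) : ZMod D), ((y.2 : ℕ) : ZMod D))) ?_ ?_
  · intro y hy
    obtain ⟨⟨⟨hc, hcD⟩, hd, hdD⟩, hys⟩ := h1 y (mem_coe.1 hy)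
    refine mem_coe.2 ?_
    simp only [cls, mem_filter, mem_product, mem_nz]
    refine ⟨⟨cast_ne _ hc hcD, cast_ne _ hd hdD⟩, ?_, ?_⟩
    · rw [← Nat.cast_add, ← Nat.cast_add, hxs, hys]
    · have hres := h2 x hx y (mem_coe.1 hy)
      intro t
      have hm : Nat.Coprime (t : ZMod D).val D := ZMod.val_coe_unit_coprime t
      have hm1 : 1 ≤ (t : ZMod D).val := by
        rcases Nat.eq_zero_or_pos (t : ZMod D).val with h0 | h0
        · rw [h0] at hm
          rw [Nat.coprime_zero_left] at hm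
          omega
        · exact h0
      have h1 : ((t : ZMod D).val * a) % D + ((t : ZMod D).val * b) % D =
        ((t : ZMod D).val * y.1) % D + ((t : ZMod D).val * y.2) % D :=
        hres _ hm1 (ZMod.val_lt _) hm
      have ev : ∀ u : ℕ, ((t : ZMod D) * (u : ZMod D)).val = ((t : ZMod D).val * u) % D := by
        intro u
        rw [ZMod.val_mul, ZMod.val_natCast, Nat.mul_mod_mod]
      have n1 := val_unit_neg t (cast_ne y.1 hc hcD)
      have n2 := val_unit_neg t (cast_ne y.2 hd hdD)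
      rw [ev] at n1 n2
      rw [ev, ev]
      omega
  · intro y hy z hz hyz
    obtain ⟨⟨⟨hc, hcD⟩, hd, hdD⟩, -⟩ := h1 y (mem_coe.1 hy)
    obtain ⟨⟨⟨hc', hcD'⟩, hd', hdD'⟩, -⟩ := h1 z (mem_coe.1 hz)
    simp only [Prod.mk.injEq] at hyz
    obtain ⟨e1, e2⟩ := hyz
    have e1 := congrArg ZMod.val e1
    have e2 := congrArg ZMod.val e2
    rw [ZMod.val_natCast, ZMod.val_natCast, Nat.mod_eq_of_lt hcD, Nat.mod_eq_of_lt hcD'] at e1
    rw [ZMod.val_natCast, ZMod.val_natCast, Nat.mod_eq_of_lt hdD, Nat.mod_eq_of_lt hdD'] at e2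
    exact Prod.ext e1 e2

open Classical in
/-- pairs with sum `s` and product of gamma values in the class of `w` -/
noncomputable def prsS (D s : ℕ) (w : ℝ) : Finset (ℕ × ℕ) :=
  (Ioo 0 D ×ˢ Ioo 0 D).filter (fun x => x.1 + x.2 = s ∧ ∃ α : ℝ, IsAlgebraic ℚ α ∧
    Real.Gamma ((x.1 : ℝ) / D) * Real.Gamma ((x.2 : ℝ) / D) = α * w)

lemma mem_prsS {D s : ℕ} {w : ℝ} {x : ℕ × ℕ} : x ∈ prsS D s w ↔
    ((0 < x.1 ∧ x.1 < D) ∧ (0 < x.2 ∧ x.2 < D)) ∧ x.1 + x.2 = s ∧
      ∃ α : ℝ, IsAlgebraic ℚ α ∧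
        Real.Gamma ((x.1 : ℝ) / D) * Real.Gamma ((x.2 : ℝ) / D) = α * w := by
  classical
  simp [prsS]

/-- at most `classBound D` pairs have a given sum `s ≠ D` and a given class -/
theorem card_prsS_le (hTT : TwoTerm) (D : ℕ) (hD : 2 ≤ D) (s : ℕ) (hs : s ≠ D) (w : ℝ) :
    ((prsS D s w).card : ℝ) ≤ classBound D := by
  have hDpos : 0 < D := by omega
  refine card_le_of_res D hD s hs _ (fun x hx => ?_) (fun x hx y hy m _ _ hm => ?_)
  · obtain ⟨h, h', -⟩ := mem_prsS.1 hx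
    exact ⟨h, h'⟩
  · obtain ⟨⟨⟨ha, haD⟩, hb, hbD⟩, hxs, α, hα, hα'⟩ := mem_prsS.1 hx
    obtain ⟨⟨⟨hc, hcD⟩, hd, hdD⟩, hys, β, hβ, hβ'⟩ := mem_prsS.1 hy
    have g1 := (gpos D x.1 hDpos ha).ne'
    have g2 := (gpos D x.2 hDpos hb).ne'
    have g3 := (gpos D y.1 hDpos hc).ne'
    have g4 := (gpos D y.2 hDpos hd).ne'
    have hw : w ≠ 0 := by
      rintro rfl
      rw [mul_zero] at hα'
      exact mul_ne_zero g1 g2 hα'
    have halg : IsAlgebraic ℚ (Real.Gamma ((x.1 : ℝ) / D) * Real.Gamma ((x.2 : ℝ) / D) /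
        (Real.Gamma ((y.1 : ℝ) / D) * Real.Gamma ((y.2 : ℝ) / D))) := by
      rw [hα', hβ', mul_div_mul_right _ _ hw, div_eq_mul_inv]
      exact hα.mul hβ.inv
    exact res_of_alg hTT ha haD hb hbD hc hcD hd hdD (by rw [hxs, hys])
      (by rw [hxs]; exact hs) halg m hm

/-- for `s = D` there are at most `D - 1` pairs -/
theorem card_prsS_self (D : ℕ) (w : ℝ) (s : ℕ) : (prsS D s w).card ≤ D - 1 := by
  classical
  have h1 : (Ioo 0 D).card = D - 1 := by simp
  rw [← h1]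
  refine card_le_card_of_injOn (fun y => y.1) ?_ ?_
  · intro y hy
    obtain ⟨⟨hc, -⟩, -⟩ := mem_prsS.1 (mem_coe.1 hy)
    exact mem_coe.2 (mem_Ioo.2 hc)
  · intro y hy z hz hyz
    obtain ⟨-, h1, -⟩ := mem_prsS.1 (mem_coe.1 hy)
    obtain ⟨-, h2, -⟩ := mem_prsS.1 (mem_coe.1 hz)
    have h3 : y.1 = z.1 := hyz
    exact Prod.ext h3 (by omega)

end Tup

end Pool.Agent.WW
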