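import Pool.Agent.WW.TupWord

/-!
Counting tuples of rational numbers with a multiplicative relation of bounded height between
their gamma values.
-/

set_option autoImplicit false

namespace Pool.Agent.WW

open Finset

namespace Tup

open Pool.Agent.GP.DedM

open Classical in
/-- solutions of one relation -/
lemma word_count {V : Type*} [AddCommGroup V] [Module ℚ V] (f : ℚ → V) (S : Finset ℚ) (L : ℝ)
    (hL : ∀ v, ((S.filter (fun x => f x = v)).card : ℝ) ≤ L) {r : ℕ} (n : Fin r → ℤ) (hn : n ≠ 0)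
    (v : V) :
    (((Fintype.piFinset (fun _ : Fin r => S)).filter
      (fun x => ∑ i, (n i : ℚ) • f (x i) = v)).card : ℝ) ≤ (S.card : ℝ) ^ (r - 1) * L := by
  obtain ⟨i₀, hi₀⟩ : ∃ i, n i ≠ 0 := by
    by_contra h
    push Not at h
    exact hn (funext h)
  have hr : r ≠ 0 := by
    rintro rfl
    exact i₀.elim0
  obtain ⟨k, rfl⟩ : ∃ k, r = k + 1 := ⟨r - 1, by omega⟩
  rw [card_eq_sum_card_fiberwise (f := fun x : Fin (k + 1) → ℚ => Fin.removeNth i₀ x)
    (t := Fintype.piFinset (fun _ : Fin k => S)), Nat.cast_sum]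
  · have h1 : ∀ t ∈ Fintype.piFinset (fun _ : Fin k => S),
        ((((Fintype.piFinset (fun _ : Fin (k + 1) => S)).filter
          (fun x => ∑ i, (n i : ℚ) • f (x i) = v)).filter
          (fun x => Fin.removeNth i₀ x = t)).card : ℝ) ≤ L := by
      intro t _
      refine le_trans ?_ (hL ((n i₀ : ℚ)⁻¹ • (v - ∑ i, (n (i₀.succAbove i) : ℚ) • f (t i))))
      refine Nat.cast_le.2 (card_le_card_of_injOn (fun x => x i₀) ?_ ?_)
      · intro x hx
        have hx' := mem_coe.1 hx
        simp only [mem_filter, Fintype.mem_piFinset] at hx'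
        obtain ⟨⟨h1, h2⟩, h3⟩ := hx'
        refine mem_coe.2 (mem_filter.2 ⟨h1 i₀, ?_⟩)
        rw [Fin.sum_univ_succAbove _ i₀] at h2
        have h4 : ∀ i, x (i₀.succAbove i) = t i := fun i => congrFun h3 i
        rw [← h2, sum_congr rfl (fun i _ => by rw [h4 i]), add_sub_cancel_right, smul_smul,
          inv_mul_cancel₀ (by exact_mod_cast hi₀), one_smul]
      · intro x hx y hy hxy
        have hx' := mem_coe.1 hx
        have hy' := mem_coe.1 hy
        simp only [mem_filter] at hx' hy'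
        have h1 := hx'.2.trans hy'.2.symm
        simp only at hxy
        rw [← Fin.insertNth_self_removeNth i₀ x, ← Fin.insertNth_self_removeNth i₀ y, h1, hxy]
    refine (sum_le_sum h1).trans (le_of_eq ?_)
    rw [sum_const, nsmul_eq_mul, Fintype.card_piFinset]
    simp
  · intro x hx
    have hx' := mem_coe.1 hx
    simp only [mem_filter, Fintype.mem_piFinset] at hx'
    exact mem_coe.2 (Fintype.mem_piFinset.2 fun i => hx'.1 _)

open Classical in
/-- tuples with a relation of height at most `N` -/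
theorem rel_count (S : Finset ℚ) (L : ℝ)
    (hL : ∀ v : ℝ ⧸ LA 0, ((S.filter (fun x => nc0 x = v)).card : ℝ) ≤ L) (N r : ℕ) :
    (((Fintype.piFinset (fun _ : Fin r => S)).filter (fun x => Rel N x)).card : ℝ) ≤
      (2 * N + 1) ^ r * (N + 1) * (S.card : ℝ) ^ (r - 1) * (L + 1) := by
  have hlin : ∀ v : ℚ, ((S.filter (fun x => x - 1 / 2 = v)).card : ℝ) ≤ 1 := by
    intro v
    have : (S.filter (fun x => x - 1 / 2 = v)).card ≤ 1 := by
      rw [card_le_one]
      intro a ha b hb
      rw [mem_filter] at ha hb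
      linarith [ha.2, hb.2]
    exact_mod_cast this
  set A : (Fin r → ℤ) → ℕ → Finset (Fin r → ℚ) := fun n h =>
    (Fintype.piFinset (fun _ : Fin r => S)).filter
      (fun x => ∑ i, (n i : ℚ) • nc0 (x i) = ((h : ℚ) / 2) • cl (LA 0) (Real.log Real.pi)) ∪
    (Fintype.piFinset (fun _ : Fin r => S)).filter
      (fun x => ∑ i, (n i : ℚ) • (x i - 1 / 2) = (h : ℚ) / 2) with hA
  set P : Finset (Fin r → ℤ) :=
    (Fintype.piFinset (fun _ : Fin r => Icc (-(N : ℤ)) N)).filter (fun n => n ≠ 0) with hP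
  have hsub : (Fintype.piFinset (fun _ : Fin r => S)).filter (fun x => Rel N x) ⊆
      (P ×ˢ range (N + 1)).biUnion (fun p => A p.1 p.2) := by
    intro x hx
    rw [mem_filter] at hx
    obtain ⟨hxS, n, hn, hnN, h, hh, hrel⟩ := hx
    rw [mem_biUnion]
    refine ⟨(n, h), mem_product.2 ⟨?_, mem_range.2 (by omega)⟩, ?_⟩
    · rw [hP, mem_filter, Fintype.mem_piFinset]
      exact ⟨fun i => mem_Icc.2 (abs_le.1 (hnN i)), hn⟩
    · rw [hA, mem_union, mem_filter, mem_filter]
      rcases hrel with h1 | h1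
      · exact Or.inl ⟨hxS, h1⟩
      · refine Or.inr ⟨hxS, ?_⟩
        simpa only [smul_eq_mul] using h1
  have hAcard : ∀ p ∈ P ×ˢ range (N + 1), ((A p.1 p.2).card : ℝ) ≤
      (S.card : ℝ) ^ (r - 1) * (L + 1) := by
    intro p hp
    have hn : p.1 ≠ 0 := (mem_filter.1 (mem_product.1 hp).1).2
    have h1 := word_count (fun x => nc0 x) S L hL p.1 hn
      (((p.2 : ℚ) / 2) • cl (LA 0) (Real.log Real.pi))
    have h2 := word_count (fun x : ℚ => x - 1 / 2) S 1 (fun v => by convert hlin v) p.1 hn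
      ((p.2 : ℚ) / 2)
    have h3 : ((A p.1 p.2).card : ℝ) ≤ _ := Nat.cast_le.2 (card_union_le _ _)
    rw [Nat.cast_add] at h3
    rw [mul_add]
    refine h3.trans (add_le_add h1 (le_trans (le_of_eq ?_) h2))
    refine congrArg Nat.cast (congrArg card ?_)
    ext x
    simp only [mem_filter]
  have hPcard : ((P ×ˢ range (N + 1)).card : ℝ) ≤ (2 * N + 1) ^ r * (N + 1) := by
    rw [card_product, card_range]
    push_cast
    refine mul_le_mul_of_nonneg_right ?_ (by positivity)
    have h1 : P.card ≤ (2 * N + 1) ^ r := by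
      refine (card_filter_le _ _).trans (le_of_eq ?_)
      rw [Fintype.card_piFinset]
      simp only [Int.card_Icc, prod_const, card_univ, Fintype.card_fin]
      congr 1
      omega
    exact_mod_cast h1
  have hL1 : 0 ≤ L + 1 := by
    have h0 := hL 0
    have h1 : (0 : ℝ) ≤ ((S.filter (fun x => nc0 x = 0)).card : ℝ) := Nat.cast_nonneg _
    linarith
  calc (((Fintype.piFinset (fun _ : Fin r => S)).filter (fun x => Rel N x)).card : ℝ)
      ≤ (((P ×ˢ range (N + 1)).biUnion (fun p => A p.1 p.2)).card : ℝ) :=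
        Nat.cast_le.2 (card_le_card hsub)
    _ ≤ ∑ p ∈ P ×ˢ range (N + 1), ((A p.1 p.2).card : ℝ) := by
        rw [← Nat.cast_sum]
        exact Nat.cast_le.2 card_biUnion_le
    _ ≤ ∑ _p ∈ P ×ˢ range (N + 1), (S.card : ℝ) ^ (r - 1) * (L + 1) := sum_le_sum hAcard
    _ = ((P ×ˢ range (N + 1)).card : ℝ) * ((S.card : ℝ) ^ (r - 1) * (L + 1)) := by
        rw [sum_const, nsmul_eq_mul]
    _ ≤ ((2 * N + 1) ^ r * (N + 1)) * ((S.card : ℝ) ^ (r - 1) * (L + 1)) :=
        mul_le_mul_of_nonneg_right hPcard (by positivity)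
    _ = _ := by ring

end Tup

end Pool.Agent.WW
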