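import Pool.Agent.WW.TupRel

/-!
Finite sets of rational numbers: fixed common denominator, bounded denominators.
-/

set_option autoImplicit false

namespace Pool.Agent.WW

open Finset Pool.Agent.Helper29.Rohr

/-- The rational numbers `j / D` with `0 < j < D`. -/
def ratLevel (D : ℕ) : Finset ℚ := (Ioo 0 D).image (fun j : ℕ => (j : ℚ) / D)

/-- The rational numbers `j / D` with `0 < j < D` for some `D ≤ X`, i.e. those in `(0, 1)` with
denominator at most `X`. -/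
def ratSet (X : ℕ) : Finset ℚ := (range (X + 1)).biUnion ratLevel

open Classical in
/-- Number of the tuples `x ∈ S ^ r` for which the equivalence of the question fails for some
tuple of length at most `N` built from `x`. -/
noncomputable def notRohr (S : Finset ℚ) (N r : ℕ) : ℕ :=
  ((Fintype.piFinset (fun _ : Fin r => S)).filter (fun x => ¬ Rohr N x)).card

/-- Bound for the number of points of `ratSet X` with gamma values in one class. -/
noncomputable def setBound (X : ℕ) : ℝ :=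
  ∑ D ∈ Icc 2 X, Real.sqrt ((2 * classBound D + 1) * ((D : ℝ) - 1))

namespace Tup

open Pool.Agent.GP.DedM

lemma mem_ratLevel {D : ℕ} {x : ℚ} : x ∈ ratLevel D ↔ ∃ j : ℕ, 0 < j ∧ j < D ∧ x = (j : ℚ) / D := by
  unfold ratLevel
  rw [mem_image]
  constructor
  · rintro ⟨j, hj, rfl⟩
    rw [mem_Ioo] at hj
    exact ⟨j, hj.1, hj.2, rfl⟩
  · rintro ⟨j, h0, h1, rfl⟩
    exact ⟨j, mem_Ioo.2 ⟨h0, h1⟩, rfl⟩

lemma mem_ratLevel_pos {D : ℕ} {x : ℚ} (h : x ∈ ratLevel D) : 0 < x ∧ x < 1 := by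
  obtain ⟨j, h0, h1, rfl⟩ := mem_ratLevel.1 h
  have h2 : (0 : ℚ) < j := by exact_mod_cast h0
  have h3 : (j : ℚ) < D := by exact_mod_cast h1
  have h4 : (0 : ℚ) < D := h2.trans h3
  exact ⟨by positivity, (div_lt_one h4).2 h3⟩

lemma mem_ratSet_pos {X : ℕ} {x : ℚ} (h : x ∈ ratSet X) : 0 < x ∧ x < 1 := by
  unfold ratSet at h
  rw [mem_biUnion] at h
  obtain ⟨D, _, h⟩ := h
  exact mem_ratLevel_pos h

lemma card_ratLevel (D : ℕ) : (ratLevel D).card = D - 1 := by
  unfold ratLevel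
  rw [card_image_of_injOn, Nat.card_Ioo]
  · omega
  · intro a ha b hb h
    have ha' := mem_Ioo.1 (mem_coe.1 ha)
    have hD : (D : ℚ) ≠ 0 := by
      have : D ≠ 0 := by omega
      exact_mod_cast this
    simp only at h
    rw [div_left_inj' hD] at h
    exact_mod_cast h

open Classical in
/-- level sets at level `D` -/
lemma level_nc (hTT : TwoTerm) (D : ℕ) (hD : 2 ≤ D) (v : ℝ ⧸ LA 0) :
    (((ratLevel D).filter (fun x => nc0 x = v)).card : ℝ) ≤
      Real.sqrt ((2 * classBound D + 1) * ((D : ℝ) - 1)) := by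
  have hD0 : 0 < D := by omega
  have hDR : (0 : ℝ) < D := by exact_mod_cast hD0
  rcases ((ratLevel D).filter (fun x => nc0 x = v)).eq_empty_or_nonempty with h | ⟨x₀, hx₀⟩
  · rw [h, card_empty, Nat.cast_zero]
    exact Real.sqrt_nonneg _
  apply Real.le_sqrt_of_sq_le
  refine le_trans ?_ (count_one_le hTT D hD (Real.Gamma (x₀ : ℝ)))
  refine pow_le_pow_left₀ (Nat.cast_nonneg _) (Nat.cast_le.2 ?_) 2
  unfold count
  rw [mem_filter] at hx₀
  obtain ⟨hx₀, hv⟩ := hx₀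
  have hx0 := (mem_ratLevel_pos hx₀).1
  have hx0' : (0 : ℝ) < x₀ := by exact_mod_cast hx0
  refine card_le_card_of_surjOn (fun j : Fin 1 → ℕ => (j 0 : ℚ) / D) ?_
  intro x hx
  have hx' := mem_filter.1 (mem_coe.1 hx)
  obtain ⟨hxl, hxv⟩ := hx'
  obtain ⟨j, h0, h1, rfl⟩ := mem_ratLevel.1 hxl
  refine ⟨fun _ => j, mem_coe.2 (mem_filter.2 ⟨mem_box.2 fun _ => ⟨h0, h1⟩, ?_⟩), rfl⟩
  have h2 : cl (LA 0) (Real.log (Real.Gamma (((j : ℚ) / D : ℚ) : ℝ)) -
      (1 / 2 : ℚ) • Real.log Real.pi) = cl (LA 0) (Real.log (Real.Gamma (x₀ : ℝ)) -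
      (1 / 2 : ℚ) • Real.log Real.pi) := hxv.trans hv.symm
  rw [cl_eq] at h2
  have e1 : (((j : ℚ) / D : ℚ) : ℝ) = (j : ℝ) / D := by push_cast; rfl
  rw [e1] at h2
  have hj0 : (0 : ℝ) < (j : ℝ) / D := by
    have : (0 : ℝ) < j := by exact_mod_cast h0
    positivity
  have g1 := Real.Gamma_pos_of_pos hj0
  have g2 := Real.Gamma_pos_of_pos hx0'
  have e2 : Real.log (Real.Gamma ((j : ℝ) / D)) - (1 / 2 : ℚ) • Real.log Real.pi -
      (Real.log (Real.Gamma (x₀ : ℝ)) - (1 / 2 : ℚ) • Real.log Real.pi) =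
      Real.log (Real.Gamma ((j : ℝ) / D) / Real.Gamma (x₀ : ℝ)) := by
    rw [Real.log_div g1.ne' g2.ne']
    ring
  rw [e2] at h2
  have h3 := mem_zero h2
  rw [Real.exp_log (by positivity)] at h3
  refine ⟨_, h3, ?_⟩
  rw [Fin.prod_univ_one]
  field_simp

open Classical in
/-- level sets for bounded denominators -/
lemma set_nc (hTT : TwoTerm) (X : ℕ) (v : ℝ ⧸ LA 0) :
    (((ratSet X).filter (fun x => nc0 x = v)).card : ℝ) ≤ setBound X := by
  have h1 : (ratSet X).filter (fun x => nc0 x = v) ⊆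
      (Icc 2 X).biUnion (fun D => (ratLevel D).filter (fun x => nc0 x = v)) := by
    intro x hx
    rw [mem_filter] at hx
    obtain ⟨hx, hv⟩ := hx
    unfold ratSet at hx
    rw [mem_biUnion] at hx
    obtain ⟨D, hD, hx⟩ := hx
    rw [mem_biUnion]
    refine ⟨D, ?_, mem_filter.2 ⟨hx, hv⟩⟩
    obtain ⟨j, h0, h1, -⟩ := mem_ratLevel.1 hx
    have h2 := mem_range.1 hD
    rw [mem_Icc]
    omega
  calc (((ratSet X).filter (fun x => nc0 x = v)).card : ℝ)
      ≤ (((Icc 2 X).biUnion (fun D => (ratLevel D).filter (fun x => nc0 x = v))).card : ℝ) :=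
        Nat.cast_le.2 (card_le_card h1)
    _ ≤ ∑ D ∈ Icc 2 X, (((ratLevel D).filter (fun x => nc0 x = v)).card : ℝ) := by
        rw [← Nat.cast_sum]
        exact Nat.cast_le.2 card_biUnion_le
    _ ≤ setBound X := sum_le_sum fun D hD => level_nc hTT D (mem_Icc.1 hD).1 v

open Classical in
/-- counting failures -/
lemma notRohr_le (S : Finset ℚ) (hS : ∀ x ∈ S, 0 < x ∧ x < 1) (L : ℝ)
    (hL : ∀ v : ℝ ⧸ LA 0, ((S.filter (fun x => nc0 x = v)).card : ℝ) ≤ L) (N r : ℕ) :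
    (notRohr S N r : ℝ) ≤ (2 * N + 1) ^ r * (N + 1) * (S.card : ℝ) ^ (r - 1) * (L + 1) := by
  refine le_trans (Nat.cast_le.2 (card_le_card ?_)) (rel_count S L hL N r)
  intro x hx
  rw [mem_filter] at hx ⊢
  refine ⟨hx.1, ?_⟩
  by_contra h
  refine hx.2 (rohr_of_not_rel (fun i => ?_) (fun i => ?_) h)
  · exact (hS _ (Fintype.mem_piFinset.1 hx.1 i)).1
  · exact (hS _ (Fintype.mem_piFinset.1 hx.1 i)).2

/-- failures at level `D` -/
theorem notRohr_level (hTT : TwoTerm) (D : ℕ) (hD : 2 ≤ D) (N r : ℕ) :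
    (notRohr (ratLevel D) N r : ℝ) ≤ (2 * N + 1) ^ r * (N + 1) * ((D : ℝ) - 1) ^ (r - 1) *
      (Real.sqrt ((2 * classBound D + 1) * ((D : ℝ) - 1)) + 1) := by
  classical
  have h := notRohr_le (ratLevel D) (fun x hx => mem_ratLevel_pos hx) _ (level_nc hTT D hD) N r
  rw [card_ratLevel, Nat.cast_sub (by omega : 1 ≤ D), Nat.cast_one] at h
  exact h

/-- failures for bounded denominators -/
theorem notRohr_set (hTT : TwoTerm) (X N r : ℕ) :
    (notRohr (ratSet X) N r : ℝ) ≤ (2 * N + 1) ^ r * (N + 1) *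
      ((ratSet X).card : ℝ) ^ (r - 1) * (setBound X + 1) := by
  classical
  exact notRohr_le (ratSet X) (fun x hx => mem_ratSet_pos hx) _ (set_nc hTT X) N r

end Tup

end Pool.Agent.WW
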