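import Pool.Agent.WW.TupFinal
import Pool.Agent.GP.DedMi

/-!
The equivalence of the question for all short tuples built from given rational numbers.
-/

set_option autoImplicit false

namespace Pool.Agent.WW

open Finset

/-- The equivalence of the question holds for all tuples `b` of at most `N` rationals, none of
them in `{0, -1, -2, ..}`, whose entries lie in the classes of `x i`, `- x i`, `1 / 2` and `0`
modulo `1`. -/
def Rohr (N : ℕ) {r : ℕ} (x : Fin r → ℚ) : Prop :=
  ∀ (s : ℕ) (b : Fin s → ℚ), s ≤ N → (∀ (l : Fin s) (k : ℕ), b l ≠ -(k : ℚ)) →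
    (∀ l, (∃ z : ℤ, b l = z / 2) ∨ ∃ i, ∃ z : ℤ, b l = x i + z ∨ b l = - x i + z) →
    ∀ D : ℕ, 0 < D → (∀ l, ∃ z : ℤ, (D : ℚ) * b l = z) →
      ((∃ α : ℝ, IsAlgebraic ℚ α ∧
        ∏ l, Real.Gamma ((b l : ℚ) : ℝ) = α * Real.pi ^ ((s : ℝ) / 2)) ↔
      ∀ m : ℕ, 1 ≤ m → m ≤ D → Nat.Coprime m D →
        ∑ l, Int.fract ((m : ℚ) * b l) = (s : ℚ) / 2)

namespace Tup

open Pool.Agent.GP.DedM

/-- normalised classes of gamma values modulo algebraic numbers -/
noncomputable abbrev nc0 (x : ℚ) : ℝ ⧸ LA 0 := nc (LA 0) x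

/-- a nontrivial multiplicative relation of height at most `N` -/
def Rel (N : ℕ) {r : ℕ} (x : Fin r → ℚ) : Prop :=
  ∃ n : Fin r → ℤ, n ≠ 0 ∧ (∀ i, |n i| ≤ N) ∧ ∃ h : ℕ, h ≤ N ∧
    (∑ i, (n i : ℚ) • nc0 (x i) = ((h : ℚ) / 2) • cl (LA 0) (Real.log Real.pi) ∨
      ∑ i, (n i : ℚ) * (x i - 1 / 2) = (h : ℚ) / 2)

/-- the data of an entry -/
lemma entry' {r : ℕ} {x : Fin r → ℚ} (hx0 : ∀ i, 0 < x i) (hx1 : ∀ i, x i < 1) {a : ℚ}
    (hnp : ∀ k : ℕ, a ≠ -(k : ℚ))
    (ha : (∃ z : ℤ, a = z / 2) ∨ ∃ i, ∃ z : ℤ, a = x i + z ∨ a = - x i + z)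
    {D : ℕ} (hD : ∃ z : ℤ, (D : ℚ) * a = z) :
    ∃ (σ : Fin r → ℤ) (e : ℕ), (∀ i, |σ i| ≤ 1) ∧ e ≤ 1 ∧
      nc0 a = ∑ i, (σ i : ℚ) • nc0 (x i) - ((e : ℚ) / 2) • cl (LA 0) (Real.log Real.pi) ∧
      (∀ m : ℕ, Nat.Coprime m D →
        Int.fract ((m : ℚ) * a) = 1 / 2 + ∑ i, (σ i : ℚ) * (Int.fract ((m : ℚ) * x i) - 1 / 2)
          - (e : ℚ) / 2) := by
  classical
  have hM : HasAlg (LA 0) := LA_hasAlg 0
  rcases ha with ⟨w, hw⟩ | ⟨i, w, hw | hw⟩
  · rcases Int.even_or_odd' w with ⟨k, hk | hk⟩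
    · -- an integer
      refine ⟨0, 1, fun i => by simp, le_rfl, ?_, fun m _ => ?_⟩
      · have h1 : a = 1 + ((k - 1 : ℤ) : ℚ) := by
          rw [hw, hk]; push_cast; ring
        unfold nc0
        rw [nc_shift hM a 1 hnp one_pos (k - 1) h1, nc_one]
        simp
      · have h1 : (m : ℚ) * a = ((m * k : ℤ) : ℚ) := by
          rw [hw, hk]; push_cast; ring
        rw [h1, Int.fract_intCast]
        simp
    · -- a half-integer
      refine ⟨0, 0, fun i => by simp, by norm_num, ?_, fun m hm => ?_⟩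
      · have h1 : a = 1 / 2 + (k : ℚ) := by
          rw [hw, hk]; push_cast; ring
        unfold nc0
        rw [nc_shift hM a (1 / 2) hnp (by norm_num) k h1, nc_half hM]
        simp
      · have hwk : a = 1 / 2 + (k : ℚ) := by
          rw [hw, hk]; push_cast; ring
        obtain ⟨z, hz⟩ := hD
        have h1 : ((D * (1 + 2 * k) : ℤ) : ℚ) = ((2 * z : ℤ) : ℚ) := by
          push_cast
          rw [← hz, hwk]; ring
        have h2 : (D : ℤ) * (1 + 2 * k) = 2 * z := by exact_mod_cast h1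
        have h3 : ¬ Odd (D : ℤ) := by
          intro ho
          have h4 : Odd ((D : ℤ) * (1 + 2 * k)) := ho.mul ⟨k, by ring⟩
          rw [h2] at h4
          exact (Int.not_odd_iff_even.2 ⟨z, by ring⟩) h4
        have h4 : Odd m := by
          rw [← Nat.not_even_iff_odd]
          intro he
          apply h3
          by_contra ho
          rw [Int.not_odd_iff_even] at ho
          have h5 : 2 ∣ D := by
            have h6 := ho.two_dvd
            exact_mod_cast h6
          have h6 := Nat.dvd_gcd he.two_dvd h5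
          rw [Nat.Coprime.gcd_eq_one hm] at h6
          omega
        obtain ⟨l, hl⟩ := h4
        have h5 : (m : ℚ) * a = 1 / 2 + ((l + m * k : ℤ) : ℚ) := by
          rw [hwk]
          have h6 : (m : ℚ) = 2 * l + 1 := by exact_mod_cast hl
          push_cast
          rw [h6]; ring
        rw [h5, Int.fract_add_intCast]
        have h6 : Int.fract (1 / 2 : ℚ) = 1 / 2 := by
          rw [Int.fract_eq_self]; norm_num
        rw [h6]
        simp
  · refine ⟨Pi.single i 1, 0, fun j => ?_, by norm_num, ?_, fun m _ => ?_⟩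
    · by_cases hj : j = i
      · subst hj; simp
      · rw [Pi.single_eq_of_ne hj]; simp
    · unfold nc0
      rw [nc_shift hM a (x i) hnp (hx0 i) w hw, sum_eq_single i]
      · simp
      · intro j _ hj
        rw [Pi.single_eq_of_ne hj]; simp
      · intro h; exact absurd (mem_univ i) h
    · have h1 : (m : ℚ) * a = (m : ℚ) * x i + ((m * w : ℤ) : ℚ) := by
        rw [hw]; push_cast; ring
      rw [h1, Int.fract_add_intCast, sum_eq_single i]
      · simp
      · intro j _ hj
        rw [Pi.single_eq_of_ne hj]; simp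
      · intro h; exact absurd (mem_univ i) h
  · refine ⟨Pi.single i (-1), 0, fun j => ?_, by norm_num, ?_, fun m hm => ?_⟩
    · by_cases hj : j = i
      · subst hj; simp
      · rw [Pi.single_eq_of_ne hj]; simp
    · unfold nc0
      rw [nc_shift hM a (1 - x i) hnp (by have := hx1 i; linarith) (w - 1)
        (by rw [hw]; push_cast; ring), nc_refl hM (hx0 i) (hx1 i), sum_eq_single i]
      · simp
      · intro j _ hj
        rw [Pi.single_eq_of_ne hj]; simp
      · intro h; exact absurd (mem_univ i) h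
    · have hint : ∀ z : ℤ, a ≠ z := by
        intro z hz
        have h1 : x i = ((w - z : ℤ) : ℚ) := by push_cast; linarith
        have h2 : (0 : ℚ) < ((w - z : ℤ) : ℚ) := by rw [← h1]; exact hx0 i
        have h3 : ((w - z : ℤ) : ℚ) < 1 := by rw [← h1]; exact hx1 i
        have h4 : 0 < w - z := by exact_mod_cast h2
        have h5 : w - z < 1 := by exact_mod_cast h3
        omega
      have hmint' := fract_ne hm hD hint
      have h1 : (m : ℚ) * a = -((m : ℚ) * x i) + ((m * w : ℤ) : ℚ) := by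
        rw [hw]; push_cast; ring
      rw [h1, Int.fract_add_intCast] at hmint' ⊢
      have h2 : Int.fract ((m : ℚ) * x i) ≠ 0 := by
        intro h0
        apply hmint'
        have h3 := Int.self_sub_fract ((m : ℚ) * x i)
        rw [h0, sub_zero] at h3
        have h4 : -((m : ℚ) * x i) = ((-⌊(m : ℚ) * x i⌋ : ℤ) : ℚ) := by
          push_cast; rw [← h3]
        rw [h4]; exact Int.fract_intCast _
      rw [Int.fract_neg h2, sum_eq_single i]
      · rw [Pi.single_eq_same]
        push_cast; ring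
      · intro j _ hj
        rw [Pi.single_eq_of_ne hj]; simp
      · intro h; exact absurd (mem_univ i) h

/-- without relations the equivalence holds -/
theorem rohr_of_not_rel {N r : ℕ} {x : Fin r → ℚ} (hx0 : ∀ i, 0 < x i) (hx1 : ∀ i, x i < 1)
    (h : ¬ Rel N x) : Rohr N x := by
  classical
  intro s b hs hnp hb D hD0 hD
  have hM : HasAlg (LA 0) := LA_hasAlg 0
  have hen := fun l => entry' hx0 hx1 (hnp l) (hb l) (hD l)
  choose σ e hσ he h1 h2 using hen
  set n : Fin r → ℤ := fun i => ∑ l, σ l i with hn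
  set E : ℕ := ∑ l, e l with hE
  have hnN : ∀ i, |n i| ≤ N := by
    intro i
    calc |n i| ≤ ∑ l, |σ l i| := abs_sum_le_sum_abs _ _
      _ ≤ ∑ _l : Fin s, (1 : ℤ) := sum_le_sum fun l _ => hσ l i
      _ = s := by simp
      _ ≤ N := by exact_mod_cast hs
  have hEN : E ≤ N := by
    calc E ≤ ∑ _l : Fin s, 1 := sum_le_sum fun l _ => he l
      _ = s := by simp
      _ ≤ N := hs
  have hsum1 : ∑ l, nc0 (b l) = ∑ i, (n i : ℚ) • nc0 (x i) -
      ((E : ℚ) / 2) • cl (LA 0) (Real.log Real.pi) := by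
    rw [sum_congr rfl fun l _ => h1 l, sum_sub_distrib, sum_comm]
    congr 1
    · refine sum_congr rfl fun i _ => ?_
      rw [← sum_smul, hn]
      push_cast
      rfl
    · rw [← sum_smul, ← sum_div, hE]
      push_cast
      rfl
  have hsum2 : ∀ m : ℕ, Nat.Coprime m D → ∑ l, Int.fract ((m : ℚ) * b l) =
      (s : ℚ) / 2 + ∑ i, (n i : ℚ) * (Int.fract ((m : ℚ) * x i) - 1 / 2) - (E : ℚ) / 2 := by
    intro m hm
    rw [sum_congr rfl fun l _ => h2 l m hm, sum_sub_distrib, sum_add_distrib, sum_comm, sum_const,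
      card_univ, Fintype.card_fin, nsmul_eq_mul]
    have e1 : ∑ i, ∑ l, (σ l i : ℚ) * (Int.fract ((m : ℚ) * x i) - 1 / 2) =
        ∑ i, (n i : ℚ) * (Int.fract ((m : ℚ) * x i) - 1 / 2) := by
      refine sum_congr rfl fun i _ => ?_
      rw [← sum_mul, hn]
      push_cast
      rfl
    have e2 : ∑ l, ((e l : ℚ) / 2) = (E : ℚ) / 2 := by
      rw [← sum_div, hE]
      push_cast
      rfl
    rw [e1, e2]
    ring
  have hfr : ∀ i, Int.fract (((1 : ℕ) : ℚ) * x i) = x i := by
    intro i
    rw [Nat.cast_one, one_mul, Int.fract_eq_self]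
    exact ⟨(hx0 i).le, hx1 i⟩
  constructor
  · intro hG
    have h3 := sum_nc hM b hnp hG
    have h4 : ∑ i, (n i : ℚ) • nc0 (x i) =
        ((E : ℚ) / 2) • cl (LA 0) (Real.log Real.pi) := by
      rw [← sub_eq_zero, ← hsum1]
      exact h3
    have hn0 : n = 0 := by
      by_contra hne
      exact h ⟨n, hne, hnN, E, hEN, Or.inl h4⟩
    have hE0 : E = 0 := by
      by_contra hne
      rw [hn0] at h4
      simp only [Pi.zero_apply, Int.cast_zero, zero_smul, sum_const_zero] at h4
      rcases smul_eq_zero.1 h4.symm with h5 | h5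
      · apply hne
        have h6 : (E : ℚ) = 0 := by linarith
        exact_mod_cast h6
      · rw [cl_eq_zero] at h5
        have h6 := mem_zero h5
        rw [Real.exp_log Real.pi_pos] at h6
        exact (pi_transcendental thmAll) h6
    intro m _ _ hm
    rw [hsum2 m hm, hn0, hE0]
    simp
  · intro hF
    have h3 := hF 1 le_rfl hD0 (Nat.coprime_one_left _)
    rw [hsum2 1 (Nat.coprime_one_left _)] at h3
    have h4 : ∑ i, (n i : ℚ) * (x i - 1 / 2) = (E : ℚ) / 2 := by
      have e1 : ∑ i, (n i : ℚ) * (Int.fract (((1 : ℕ) : ℚ) * x i) - 1 / 2) =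
          ∑ i, (n i : ℚ) * (x i - 1 / 2) := sum_congr rfl fun i _ => by rw [hfr i]
      rw [e1] at h3
      linarith
    have hn0 : n = 0 := by
      by_contra hne
      exact h ⟨n, hne, hnN, E, hEN, Or.inr h4⟩
    rw [hn0] at h4
    simp only [Pi.zero_apply, Int.cast_zero, zero_mul, sum_const_zero] at h4
    have hE0 : E = 0 := by
      have h6 : (E : ℚ) = 0 := by linarith
      exact_mod_cast h6
    apply of_sum_nc b hnp
    have h5 : ∑ i, nc (LA 0) (b i) = ∑ l, nc0 (b l) := rfl
    rw [h5, hsum1, hn0, hE0]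
    simp

end Tup

end Pool.Agent.WW
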