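import Pool.Agent.WW.ZDefs

set_option autoImplicit false

namespace Pool.Agent.WW

namespace ZA

section

variable {R : Type} [CommRing R] [Algebra ℂ R] {n N : ℕ} (x : Fin n → R) (b : Fin N → R)

/-- span of the monomials in `x` with all exponents at most `k` -/
def X (k : ℕ) : Submodule ℂ R :=
  Submodule.span ℂ (Set.range fun a : Fin n → Fin (k + 1) => ∏ i, x i ^ (a i : ℕ))

/-- span of the monomials in `b` with exponents below `E` -/
def Y (E : Fin N → ℕ) : Submodule ℂ R :=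
  Submodule.span ℂ (Set.range fun β : (j : Fin N) → Fin (E j) => ∏ j, b j ^ (β j : ℕ))

theorem mem_X (k : ℕ) (a : Fin n → ℕ) (h : ∀ i, a i ≤ k) : ∏ i, x i ^ a i ∈ X x k :=
  Submodule.subset_span ⟨fun i => ⟨a i, Nat.lt_succ_of_le (h i)⟩, rfl⟩

theorem mem_Y (E : Fin N → ℕ) (a : Fin N → ℕ) (h : ∀ i, a i < E i) : ∏ i, b i ^ a i ∈ Y b E :=
  Submodule.subset_span ⟨fun i => ⟨a i, h i⟩, rfl⟩

theorem X_mono {k l : ℕ} (h : k ≤ l) : X x k ≤ X x l := by
  rw [X, Submodule.span_le]
  rintro _ ⟨a, rfl⟩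
  exact mem_X x l (fun i => a i) (fun i => (Nat.le_of_lt_succ (a i).2).trans h)

theorem X_mul (k l : ℕ) : X x k * X x l ≤ X x (k + l) := by
  rw [X, X, Submodule.span_mul_span, Submodule.span_le]
  rintro _ ⟨_, ⟨a, rfl⟩, _, ⟨c, rfl⟩, rfl⟩
  have e : (∏ i, x i ^ (a i : ℕ)) * (∏ i, x i ^ (c i : ℕ)) = ∏ i, x i ^ ((a i : ℕ) + (c i : ℕ)) := by
    rw [← Finset.prod_mul_distrib]
    exact Finset.prod_congr rfl fun i _ => (pow_add _ _ _).symm
  show (∏ i, x i ^ (a i : ℕ)) * (∏ i, x i ^ (c i : ℕ)) ∈ X x (k + l)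
  rw [e]
  refine mem_X x (k + l) _ fun i => ?_
  have h1 := (a i).2
  have h2 := (c i).2
  omega

theorem one_mem_X (k : ℕ) : (1 : R) ∈ X x k := by
  have h := mem_X x k (fun _ => 0) (fun _ => Nat.zero_le _)
  simpa using h

theorem one_mem_Y (E : Fin N → ℕ) (hE : ∀ j, 0 < E j) : (1 : R) ∈ Y b E := by
  have h := mem_Y b E (fun _ => 0) hE
  simpa using h

theorem pow_mem_X {K : ℕ} {c : R} (hc : c ∈ X x K) (r : ℕ) : c ^ r ∈ X x (K * r) := by
  induction r with
  | zero => simpa using one_mem_X x 0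
  | succ r ih =>
    rw [pow_succ, Nat.mul_succ]
    exact X_mul x _ _ (Submodule.mul_mem_mul ih hc)

/-- every element of the subalgebra generated by `x` is in some `X k` -/
theorem exists_mem_X (s : R) (hs : s ∈ Algebra.adjoin ℂ (Set.range x)) : ∃ k, s ∈ X x k := by
  rw [Algebra.adjoin_range_eq_range_aeval] at hs
  obtain ⟨p, rfl⟩ := hs
  refine ⟨p.totalDegree, ?_⟩
  show MvPolynomial.aeval x p ∈ X x p.totalDegree
  rw [MvPolynomial.aeval_def, MvPolynomial.eval₂_eq']
  refine Submodule.sum_mem _ fun d hd => ?_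
  rw [← Algebra.smul_def]
  refine Submodule.smul_mem _ _ (mem_X x _ _ fun i => ?_)
  have h1 := MvPolynomial.le_totalDegree hd
  have h2 : d i ≤ d.sum fun _ e => e := by
    by_cases hi : d i = 0
    · rw [hi]; exact Nat.zero_le _
    · exact Finset.single_le_sum (f := fun j => d j) (fun _ _ => Nat.zero_le _)
        (Finsupp.mem_support_iff.mpr hi)
  exact h2.trans h1

theorem W_finrank (E : Fin N → ℕ) (k : ℕ) :
    Module.Finite ℂ (X x k * Y b E : Submodule ℂ R) ∧
      Module.finrank ℂ (X x k * Y b E : Submodule ℂ R) ≤ (k + 1) ^ n * ∏ j, E j := by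
  have e : (X x k * Y b E : Submodule ℂ R) = Submodule.span ℂ (Set.range
      fun p : (Fin n → Fin (k + 1)) × ((j : Fin N) → Fin (E j)) =>
        (∏ i, x i ^ (p.1 i : ℕ)) * ∏ j, b j ^ (p.2 j : ℕ)) := by
    rw [X, Y, Submodule.span_mul_span]
    congr 1
    ext t
    constructor
    · rintro ⟨_, ⟨a, rfl⟩, _, ⟨c, rfl⟩, rfl⟩
      exact ⟨(a, c), rfl⟩
    · rintro ⟨⟨a, c⟩, rfl⟩
      exact ⟨_, ⟨a, rfl⟩, _, ⟨c, rfl⟩, rfl⟩
  rw [e]
  refine ⟨Module.Finite.span_of_finite ℂ (Set.finite_range _), ?_⟩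
  have h := finrank_range_le_card (R := ℂ)
    (b := fun p : (Fin n → Fin (k + 1)) × ((j : Fin N) → Fin (E j)) =>
        (∏ i, x i ^ (p.1 i : ℕ)) * ∏ j, b j ^ (p.2 j : ℕ))
  refine h.trans (le_of_eq ?_)
  simp

/-- multiplication by `c b_j` on `Y` -/
theorem step_Y {E : Fin N → ℕ} {K : ℕ} {c : R} (hc : c ∈ X x K) (j : Fin N)
    (hrel : ∃ a : Fin (E j) → R, (∀ l, a l ∈ X x K) ∧ c * b j ^ E j = ∑ l, a l * b j ^ (l : ℕ))
    {y : R} (hy : y ∈ Y b E) : c * b j * y ∈ X x K * Y b E := by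
  rw [Y] at hy
  induction hy using Submodule.span_induction with
  | mem y hy =>
    obtain ⟨β, rfl⟩ := hy
    set q : R := ∏ i ∈ Finset.univ.erase j, b i ^ (β i : ℕ) with hq
    have hupd : ∀ l : ℕ, b j ^ l * q = ∏ i, b i ^ (Function.update (fun i => (β i : ℕ)) j l i) := by
      intro l
      rw [← Finset.mul_prod_erase Finset.univ _ (Finset.mem_univ j), Function.update_self, hq]
      congr 1
      refine Finset.prod_congr rfl fun i hi => ?_
      rw [Function.update_of_ne (Finset.ne_of_mem_erase hi)]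
    have hmem : ∀ l : ℕ, l < E j → b j ^ l * q ∈ Y b E := by
      intro l hl
      rw [hupd]
      refine mem_Y b E _ fun i => ?_
      by_cases hi : i = j
      · subst hi
        rw [Function.update_self]; exact hl
      · rw [Function.update_of_ne hi]; exact (β i).2
    have h0 : (∏ i, b i ^ (β i : ℕ)) = b j ^ (β j : ℕ) * q := by
      rw [hq, Finset.mul_prod_erase Finset.univ (fun i => b i ^ (β i : ℕ)) (Finset.mem_univ j)]
    show c * b j * (∏ i, b i ^ (β i : ℕ)) ∈ _
    rw [h0]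
    have h1 : c * b j * (b j ^ (β j : ℕ) * q) = c * (b j ^ ((β j : ℕ) + 1) * q) := by
      rw [pow_succ]; ring
    rw [h1]
    rcases Nat.lt_or_ge ((β j : ℕ) + 1) (E j) with h | h
    · exact Submodule.mul_mem_mul hc (hmem _ h)
    · have h2 : (β j : ℕ) + 1 = E j := le_antisymm (β j).2 h
      obtain ⟨a, ha, hs⟩ := hrel
      have h3 : c * (b j ^ ((β j : ℕ) + 1) * q) = ∑ l, a l * (b j ^ (l : ℕ) * q) := by
        rw [h2, ← mul_assoc, hs, Finset.sum_mul]
        exact Finset.sum_congr rfl fun l _ => by ring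
      rw [h3]
      exact Submodule.sum_mem _ fun l _ => Submodule.mul_mem_mul (ha l) (hmem _ l.2)
  | zero => rw [mul_zero]; exact Submodule.zero_mem _
  | add y z _ _ h1 h2 => rw [mul_add]; exact Submodule.add_mem _ h1 h2
  | smul r y _ h => rw [mul_smul_comm]; exact Submodule.smul_mem _ _ h

theorem X_mul_W (E : Fin N → ℕ) (k l : ℕ) {s w : R} (hs : s ∈ X x k) (hw : w ∈ X x l * Y b E) :
    s * w ∈ X x (k + l) * Y b E := by
  have h := Submodule.mul_mem_mul hs hw
  rw [← mul_assoc] at h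
  exact mul_le_mul' (X_mul x k l) le_rfl h

theorem step_W {E : Fin N → ℕ} {K k : ℕ} {c : R} (hc : c ∈ X x K) (j : Fin N)
    (hrel : ∃ a : Fin (E j) → R, (∀ l, a l ∈ X x K) ∧ c * b j ^ E j = ∑ l, a l * b j ^ (l : ℕ))
    {w : R} (hw : w ∈ X x k * Y b E) : c * b j * w ∈ X x (k + K) * Y b E := by
  induction hw using Submodule.mul_induction_on' with
  | mem_mul_mem s hs y hy =>
    have h : c * b j * (s * y) = s * (c * b j * y) := by ring
    rw [h]
    exact X_mul_W x b E k K hs (step_Y x b hc j hrel hy)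
  | add s _ t _ h1 h2 => rw [mul_add]; exact Submodule.add_mem _ h1 h2

theorem mono_W {E : Fin N → ℕ} (hE : ∀ j, 0 < E j) {K : ℕ} {c : R} (hc : c ∈ X x K)
    (hrel : ∀ j, ∃ a : Fin (E j) → R, (∀ l, a l ∈ X x K) ∧
      c * b j ^ E j = ∑ l, a l * b j ^ (l : ℕ)) :
    ∀ (s : ℕ) (α : Fin N → ℕ), ∑ i, α i = s → c ^ s * ∏ i, b i ^ α i ∈ X x (K * s) * Y b E := by
  intro s
  induction s with
  | zero =>
    intro α hα
    have h0 : ∀ i, α i = 0 := by
      intro i
      have := Finset.sum_eq_zero_iff.mp hα i (Finset.mem_univ i)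
      exact this
    have h1 : ∏ i, b i ^ α i = 1 := Finset.prod_eq_one fun i _ => by rw [h0 i, pow_zero]
    rw [h1, pow_zero, Nat.mul_zero]
    exact Submodule.mul_mem_mul (one_mem_X x 0) (one_mem_Y b E hE)
  | succ s ih =>
    intro α hα
    have hex : ∃ j, α j ≠ 0 := by
      by_contra hcon
      push Not at hcon
      rw [Finset.sum_eq_zero fun i _ => hcon i] at hα
      omega
    obtain ⟨j, hj⟩ := hex
    set α' : Fin N → ℕ := Function.update α j (α j - 1) with hα'
    have e1 : ∑ i, α' i = s := by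
      have h1 := Finset.add_sum_erase Finset.univ α (Finset.mem_univ j)
      have h2 := Finset.add_sum_erase Finset.univ α' (Finset.mem_univ j)
      have h3 : ∑ i ∈ Finset.univ.erase j, α' i = ∑ i ∈ Finset.univ.erase j, α i :=
        Finset.sum_congr rfl fun i hi => by
          rw [hα', Function.update_of_ne (Finset.ne_of_mem_erase hi)]
      have h4 : α' j = α j - 1 := by rw [hα', Function.update_self]
      omega
    have e2 : ∏ i, b i ^ α i = b j * ∏ i, b i ^ α' i := by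
      rw [← Finset.mul_prod_erase Finset.univ (fun i => b i ^ α i) (Finset.mem_univ j),
        ← Finset.mul_prod_erase Finset.univ (fun i => b i ^ α' i) (Finset.mem_univ j)]
      have h3 : ∏ i ∈ Finset.univ.erase j, b i ^ α' i = ∏ i ∈ Finset.univ.erase j, b i ^ α i :=
        Finset.prod_congr rfl fun i hi => by
          rw [hα', Function.update_of_ne (Finset.ne_of_mem_erase hi)]
      have h4 : α' j = α j - 1 := by rw [hα', Function.update_self]
      rw [h3, h4, ← mul_assoc, ← pow_succ']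
      congr 2
      omega
    have h := step_W x b hc j (hrel j) (ih α' e1)
    have h5 : c * b j * (c ^ s * ∏ i, b i ^ α' i) = c ^ (s + 1) * ∏ i, b i ^ α i := by
      rw [e2, pow_succ]; ring
    rw [h5] at h
    rw [Nat.mul_succ]
    exact h

end

end ZA

open MvPolynomial in
/-- (ZA) upper bound of the Hilbert function of `R` -/
theorem hilb_le {R : Type} [CommRing R] [IsDomain R] [Algebra ℂ R] {m N : ℕ} (A : DR R m N) :
    ∃ C0 : ℕ, ∀ e : ℕ, 1 ≤ e → Module.finrank ℂ (A.le e) ≤ C0 * e ^ (m + 1) := by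
  classical
  set S := Algebra.adjoin ℂ (Set.range A.x) with hS
  have hrel0 : ∀ j, ∃ E : ℕ, 0 < E ∧ ∃ c : S, c ≠ 0 ∧ ∃ a : Fin E → S,
      (c : R) * A.b j ^ E = ∑ l, (a l : R) * A.b j ^ (l : ℕ) := by
    intro j
    obtain ⟨p, hp0, hp⟩ := A.alg (A.b j)
    have hinj : Function.Injective (algebraMap S R) := Subtype.val_injective
    refine ⟨p.natDegree, ?_, p.leadingCoeff, Polynomial.leadingCoeff_ne_zero.mpr hp0,
      fun l => - p.coeff l, ?_⟩
    · rcases Nat.eq_zero_or_pos p.natDegree with h | h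
      · exfalso
        rw [Polynomial.eq_C_of_natDegree_eq_zero h, Polynomial.aeval_C] at hp
        have h1 : p.coeff 0 = 0 := hinj (by rw [hp, map_zero])
        exact hp0 (by rw [Polynomial.eq_C_of_natDegree_eq_zero h, h1, Polynomial.C_0])
      · exact h
    · rw [Polynomial.aeval_eq_sum_range, Finset.sum_range_succ] at hp
      have h1 : (p.leadingCoeff : R) * A.b j ^ p.natDegree =
          p.coeff p.natDegree • A.b j ^ p.natDegree := rfl
      rw [h1, eq_neg_of_add_eq_zero_right hp, ← Finset.sum_neg_distrib, ← Fin.sum_univ_eq_sum_range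
        (fun i => - (p.coeff i • A.b j ^ i))]
      refine Finset.sum_congr rfl fun l _ => ?_
      show - ((p.coeff l : R) * A.b j ^ (l : ℕ)) = ((- p.coeff l : S) : R) * A.b j ^ (l : ℕ)
      push_cast
      ring
  choose E hE c hc a ha using hrel0
  set cc : S := ∏ j, c j with hcc
  have hcc0 : cc ≠ 0 := Finset.prod_ne_zero_iff.mpr fun j _ => hc j
  set cj : Fin N → S := fun j => ∏ k ∈ Finset.univ.erase j, c k with hcj
  have hex : ∀ s : S, ∃ k, (s : R) ∈ ZA.X A.x k := fun s => ZA.exists_mem_X A.x s s.2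
  choose kk hkk using hex
  set K : ℕ := kk cc + ∑ j, ∑ l, kk (cj j * a j l) with hK
  have hccX : (cc : R) ∈ ZA.X A.x K := ZA.X_mono A.x (Nat.le_add_right _ _) (hkk cc)
  have hrel : ∀ j, ∃ a : Fin (E j) → R, (∀ l, a l ∈ ZA.X A.x K) ∧
      (cc : R) * A.b j ^ E j = ∑ l, a l * A.b j ^ (l : ℕ) := by
    intro j
    refine ⟨fun l => ((cj j * a j l : S) : R), fun l => ?_, ?_⟩
    · refine ZA.X_mono A.x ?_ (hkk (cj j * a j l))
      have h1 : kk (cj j * a j l) ≤ ∑ l, kk (cj j * a j l) :=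
        Finset.single_le_sum (f := fun l => kk (cj j * a j l)) (fun _ _ => Nat.zero_le _)
          (Finset.mem_univ l)
      have h2 : ∑ l, kk (cj j * a j l) ≤ ∑ j, ∑ l, kk (cj j * a j l) :=
        Finset.single_le_sum (f := fun j => ∑ l, kk (cj j * a j l)) (fun _ _ => Nat.zero_le _)
          (Finset.mem_univ j)
      omega
    · have h1 : cc = cj j * c j := by
        rw [hcc, hcj, mul_comm, Finset.mul_prod_erase Finset.univ c (Finset.mem_univ j)]
      have h2 : (cc : R) = (cj j : R) * (c j : R) := by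
        rw [h1]; rfl
      rw [h2, mul_assoc, ha j, Finset.mul_sum]
      refine Finset.sum_congr rfl fun l _ => ?_
      show _ = ((cj j : R) * (a j l : R)) * _
      ring
  have hmain : ∀ e : ℕ, ∀ f ∈ A.le e, (cc : R) ^ e * f ∈ ZA.X A.x (K * e) * ZA.Y A.b E := by
    intro e f hf
    obtain ⟨p, hp, rfl⟩ := hf
    have hp' : p.totalDegree ≤ e := (mem_restrictTotalDegree _ _ p).mp hp
    show (cc : R) ^ e * (aeval A.b p) ∈ _
    rw [aeval_def, eval₂_eq', Finset.mul_sum]
    refine Submodule.sum_mem _ fun d hd => ?_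
    rw [← Algebra.smul_def, mul_smul_comm]
    refine Submodule.smul_mem _ _ ?_
    have h1 : ∑ i, d i ≤ e := by
      have h2 := le_totalDegree hd
      rw [Finsupp.sum_fintype _ _ (fun _ => rfl)] at h2
      exact h2.trans hp'
    obtain ⟨r, hr⟩ := Nat.exists_eq_add_of_le' h1
    have h3 := ZA.mono_W A.x A.b hE hccX hrel _ (fun i => d i) rfl
    have h4 := ZA.X_mul_W A.x A.b E _ _ (ZA.pow_mem_X A.x hccX r) h3
    have h5 : (cc : R) ^ r * ((cc : R) ^ (∑ i, d i) * ∏ i, A.b i ^ d i) =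
        (cc : R) ^ e * ∏ i, A.b i ^ d i := by
      rw [← mul_assoc, ← pow_add, ← hr]
    rw [h5, ← Nat.mul_add, ← hr] at h4
    exact h4
  have hccR : (cc : R) ≠ 0 := fun h => hcc0 (Subtype.ext h)
  refine ⟨(K + 1) ^ (m + 1) * ∏ j, E j, fun e he => ?_⟩
  obtain ⟨hfin, hbd⟩ := ZA.W_finrank A.x A.b E (K * e)
  let φ : A.le e →ₗ[ℂ] (ZA.X A.x (K * e) * ZA.Y A.b E : Submodule ℂ R) :=
    LinearMap.codRestrict _ ((LinearMap.mulLeft ℂ ((cc : R) ^ e)).comp (A.le e).subtype)
      (fun f => hmain e f f.2)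
  have hφ : Function.Injective φ := by
    intro f g hfg
    have h1 : (cc : R) ^ e * (f : R) = (cc : R) ^ e * (g : R) := congrArg Subtype.val hfg
    exact Subtype.ext (mul_left_cancel₀ (pow_ne_zero _ hccR) h1)
  have h1 := LinearMap.finrank_le_finrank_of_injective hφ
  refine h1.trans (hbd.trans ?_)
  have h2 : K * e + 1 ≤ (K + 1) * e := by nlinarith
  calc (K * e + 1) ^ (m + 1) * ∏ j, E j ≤ ((K + 1) * e) ^ (m + 1) * ∏ j, E j :=
        Nat.mul_le_mul_right _ (Nat.pow_le_pow_left h2 _)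
    _ = (K + 1) ^ (m + 1) * (∏ j, E j) * e ^ (m + 1) := by rw [mul_pow]; ring

end Pool.Agent.WW
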