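import Pool.Agent.WW.ZA

set_option autoImplicit false

namespace Pool.Agent.WW

open MvPolynomial

namespace ZB

section

variable {R : Type} [CommRing R] [Algebra ℂ R]

theorem d_aeval (D : Derivation ℂ R R) {n : ℕ} (x : Fin n → R) (F : MvPolynomial (Fin n) ℂ) :
    D (aeval x F) = ∑ j, aeval x (pderiv j F) * D (x j) := by
  induction F using MvPolynomial.induction_on with
  | C c => simp
  | add p q hp hq => simp [hp, hq, add_mul, Finset.sum_add_distrib]
  | mul_X p i hp =>
    rw [map_mul, aeval_X, Derivation.leibniz, hp]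
    have h : ∀ j, aeval x (pderiv j (p * X i)) * D (x j)
        = x i * (aeval x (pderiv j p) * D (x j)) + (if j = i then aeval x p * D (x j) else 0) := by
      intro j
      rw [pderiv_mul, map_add, map_mul, map_mul, aeval_X]
      by_cases hj : j = i
      · subst hj
        simp
        ring
      · rw [pderiv_X_of_ne (Ne.symm hj)]
        simp [hj]
        ring
    rw [Finset.sum_congr rfl (fun j _ => h j), Finset.sum_add_distrib, ← Finset.mul_sum]
    simp
    ring

variable {m N : ℕ} (A : DR R m N)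

theorem pderiv_deg {n : ℕ} {F : MvPolynomial (Fin n) ℂ} {k : ℕ} (hF : F.totalDegree ≤ k + 1)
    (j : Fin n) : (pderiv j F).totalDegree ≤ k := by
  classical
  rw [totalDegree, Finset.sup_le_iff]
  intro s hs
  rw [mem_support_iff, coeff_pderiv] at hs
  have h1 : coeff (s + Finsupp.single j 1) F ≠ 0 := left_ne_zero_of_mul hs
  have h2 := le_totalDegree (mem_support_iff.mpr h1)
  rw [Finsupp.sum_add_index' (fun _ => rfl) (fun _ _ _ => rfl), Finsupp.sum_single_index rfl] at h2
  omega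

theorem eq_C_of_pderiv {n : ℕ} {F : MvPolynomial (Fin n) ℂ} (h : ∀ j, pderiv j F = 0) :
    F = C (coeff 0 F) := by
  classical
  ext s
  rw [coeff_C]
  by_cases hs : 0 = s
  · rw [if_pos hs, hs]
  · rw [if_neg hs]
    have : ∃ j, s j ≠ 0 := by
      by_contra hc
      push Not at hc
      exact hs (Finsupp.ext fun j => (hc j).symm)
    obtain ⟨j, hj⟩ := this
    have h1 := coeff_pderiv (i := j) F (s - Finsupp.single j 1)
    rw [h j, coeff_zero] at h1
    have h2 : s - Finsupp.single j 1 + Finsupp.single j 1 = s := by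
      apply tsub_add_cancel_of_le
      rw [Finsupp.single_le_iff]
      omega
    rw [h2] at h1
    have h3 : (((s - Finsupp.single j 1 : Fin n →₀ ℕ) j : ℕ) : ℂ) + 1 ≠ 0 := Nat.cast_add_one_ne_zero _
    exact (mul_eq_zero.mp h1.symm).resolve_right h3

theorem alg_indep [IsDomain R] : ∀ (k : ℕ) (F : MvPolynomial (Fin (m + 1)) ℂ),
    F.totalDegree ≤ k → aeval A.x F = 0 → F = 0 := by
  intro k
  induction k with
  | zero =>
    intro F hF h
    have h1 : F = C (coeff 0 F) := totalDegree_eq_zero_iff_eq_C.mp (Nat.le_zero.mp hF)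
    rw [h1, aeval_C] at h
    have h2 : coeff 0 F = 0 := by
      apply (algebraMap ℂ R).injective
      rw [h, map_zero]
    rw [h1, h2, map_zero]
  | succ k ih =>
    intro F hF h
    have key : ∀ j, aeval A.x (pderiv j F) = 0 := by
      have h1 : (Matrix.of fun i j => A.d i (A.x j)).mulVec
          (fun j => aeval A.x (pderiv j F)) = 0 := by
        funext i
        have h2 := d_aeval (A.d i) A.x F
        rw [h, map_zero] at h2
        simp only [Matrix.mulVec, dotProduct, Matrix.of_apply, Pi.zero_apply]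
        rw [h2]
        exact Finset.sum_congr rfl fun j _ => mul_comm _ _
      have h3 := Matrix.eq_zero_of_mulVec_eq_zero A.det.ne_zero h1
      intro j
      exact congrFun h3 j
    have h4 : ∀ j, pderiv j F = 0 := fun j => ih _ (pderiv_deg hF j) (key j)
    have h5 := eq_C_of_pderiv h4
    rw [h5, aeval_C] at h
    have h6 : coeff 0 F = 0 := by
      apply (algebraMap ℂ R).injective
      rw [h, map_zero]
    rw [h5, h6, map_zero]

theorem mem_le {e : ℕ} {f : R} : f ∈ A.le e ↔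
    ∃ G : MvPolynomial (Fin N) ℂ, G.totalDegree ≤ e ∧ aeval A.b G = f := by
  constructor
  · rintro ⟨G, hG, rfl⟩
    exact ⟨G, (mem_restrictTotalDegree _ _ _).mp hG, rfl⟩
  · rintro ⟨G, hG, rfl⟩
    exact ⟨G, (mem_restrictTotalDegree _ _ _).mpr hG, rfl⟩

theorem le_mono {a b : ℕ} (h : a ≤ b) {f : R} (hf : f ∈ A.le a) : f ∈ A.le b := by
  obtain ⟨G, hG, rfl⟩ := (mem_le A).mp hf
  exact (mem_le A).mpr ⟨G, hG.trans h, rfl⟩

theorem le_mul {a b : ℕ} {f g : R} (hf : f ∈ A.le a) (hg : g ∈ A.le b) : f * g ∈ A.le (a + b) := by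
  obtain ⟨G, hG, rfl⟩ := (mem_le A).mp hf
  obtain ⟨H, hH, rfl⟩ := (mem_le A).mp hg
  exact (mem_le A).mpr ⟨G * H, (totalDegree_mul _ _).trans (add_le_add hG hH), map_mul _ _ _⟩

theorem le_one : (1 : R) ∈ A.le 0 := (mem_le A).mpr ⟨1, by simp, by simp⟩

theorem le_prod {ι : Type} (s : Finset ι) (f : ι → R) (a : ι → ℕ) (h : ∀ i, f i ∈ A.le (a i)) :
    ∏ i ∈ s, f i ∈ A.le (∑ i ∈ s, a i) := by
  classical
  induction s using Finset.induction_on with
  | empty => simpa using le_one A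
  | insert i s hi ih =>
    rw [Finset.prod_insert hi, Finset.sum_insert hi]
    exact le_mul A (h i) ih

theorem le_pow {a : ℕ} {f : R} (hf : f ∈ A.le a) (k : ℕ) : f ^ k ∈ A.le (a * k) := by
  induction k with
  | zero => simpa using le_one A
  | succ k ih =>
    rw [pow_succ, Nat.mul_succ]
    exact le_mul A ih hf

theorem exists_le (f : R) : ∃ e, f ∈ A.le e := by
  have h : f ∈ Algebra.adjoin ℂ (Set.range A.b) := by rw [A.gen]; exact Algebra.mem_top
  rw [Algebra.adjoin_range_eq_range_aeval] at h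
  obtain ⟨G, hG⟩ := h
  exact ⟨G.totalDegree, (mem_le A).mpr ⟨G, le_rfl, hG⟩⟩

theorem exists_c : ∃ c : ℕ, 1 ≤ c ∧ ∀ i, A.x i ∈ A.le c := by
  choose e he using fun i => exists_le A (A.x i)
  refine ⟨(∑ i, e i) + 1, by omega, fun i => le_mono A ?_ (he i)⟩
  have := Finset.single_le_sum (f := e) (fun _ _ => Nat.zero_le _) (Finset.mem_univ i)
  omega

theorem aeval_x_mem {c : ℕ} (hc : ∀ i, A.x i ∈ A.le c) {k : ℕ}
    {F : MvPolynomial (Fin (m + 1)) ℂ} (hF : F.totalDegree ≤ k) : aeval A.x F ∈ A.le (c * k) := by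
  rw [aeval_def, eval₂_eq']
  apply Submodule.sum_mem
  intro s hs
  rw [← Algebra.smul_def]
  apply Submodule.smul_mem
  have h1 := le_prod A Finset.univ (fun i => A.x i ^ s i) (fun i => c * s i)
    (fun i => le_pow A (hc i) (s i))
  refine le_mono A ?_ h1
  rw [← Finset.mul_sum]
  apply Nat.mul_le_mul_left
  have h2 := le_totalDegree hs
  rw [Finsupp.sum_fintype _ _ (fun _ => rfl)] at h2
  exact h2.trans hF

instance fin_le (e : ℕ) : Module.Finite ℂ (A.le e) := by
  unfold DR.le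
  infer_instance

theorem card_le (n s : ℕ) : (s + 1) ^ n ≤ Module.finrank ℂ (restrictDegree (Fin n) ℂ s) := by
  have hfin : Finite {f : Fin n →₀ ℕ | ∀ a, f a ≤ s} :=
    ((Set.Finite.pi' fun _ ↦ Set.finite_le_nat _).preimage DFunLike.coe_injective.injOn).to_subtype
  have h1 : Module.finrank ℂ (restrictDegree (Fin n) ℂ s)
      = Nat.card {f : Fin n →₀ ℕ | ∀ a, f a ≤ s} :=
    Module.finrank_eq_nat_card_basis (basisRestrictSupport ℂ {f : Fin n →₀ ℕ | ∀ a, f a ≤ s})
  rw [h1]
  let φ : (Fin n → Fin (s + 1)) → {f : Fin n →₀ ℕ | ∀ a, f a ≤ s} := fun g =>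
    ⟨Finsupp.equivFunOnFinite.symm (fun i => (g i : ℕ)), fun a => by
      show (g a : ℕ) ≤ s
      have := (g a).isLt
      omega⟩
  have hφ : Function.Injective φ := by
    intro g1 g2 h
    have h2 := congrArg Subtype.val h
    funext i
    apply Fin.ext
    exact DFunLike.congr_fun h2 i
  have h3 := Nat.card_le_card_of_injective φ hφ
  rw [Nat.card_eq_fintype_card] at h3
  simpa using h3

theorem deg_of_restrict {n s : ℕ} {F : MvPolynomial (Fin n) ℂ} (hF : F ∈ restrictDegree (Fin n) ℂ s) :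
    F.totalDegree ≤ n * s := by
  rw [totalDegree, Finset.sup_le_iff]
  intro t ht
  rw [mem_restrictDegree] at hF
  rw [Finsupp.sum_fintype _ _ (fun _ => rfl)]
  calc ∑ i, t i ≤ ∑ _i : Fin n, s := Finset.sum_le_sum fun i _ => hF t ht i
    _ = n * s := by simp

theorem step [IsDomain R] {c : ℕ} (hc : ∀ i, A.x i ∈ A.le c) {L s e : ℕ} {P : R}
    (hP : P ∈ A.le L) (hP0 : P ≠ 0)
    (hno : ∀ F : MvPolynomial (Fin (m + 1)) ℂ, F ≠ 0 → F.totalDegree ≤ (m + 1) * s →
      ¬ P ∣ aeval A.x F)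
    (he : c * ((m + 1) * s) ≤ e) :
    Module.finrank ℂ (A.le e) + (s + 1) ^ (m + 1) ≤ Module.finrank ℂ (A.le (e + L)) := by
  set W : Submodule ℂ R := (restrictDegree (Fin (m + 1)) ℂ s).map
    (aeval A.x : MvPolynomial (Fin (m + 1)) ℂ →ₐ[ℂ] R).toLinearMap with hW
  set V : Submodule ℂ R := (A.le e).map (LinearMap.mulLeft ℂ P) with hV
  have hinj : Function.Injective (aeval A.x : MvPolynomial (Fin (m + 1)) ℂ →ₐ[ℂ] R).toLinearMap := by
    rw [← LinearMap.ker_eq_bot, LinearMap.ker_eq_bot']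
    intro F hF
    exact alg_indep A _ F le_rfl hF
  have hinjP : Function.Injective (LinearMap.mulLeft ℂ P) := by
    intro f g h
    exact mul_left_cancel₀ hP0 h
  have h1 : (s + 1) ^ (m + 1) ≤ Module.finrank ℂ W := by
    rw [hW, ← LinearEquiv.finrank_eq (Submodule.equivMapOfInjective _ hinj _)]
    exact card_le (m + 1) s
  have h2 : Module.finrank ℂ V = Module.finrank ℂ (A.le e) := by
    rw [hV, ← LinearEquiv.finrank_eq (Submodule.equivMapOfInjective _ hinjP _)]
  have hWle : W ≤ A.le (e + L) := by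
    rintro _ ⟨F, hF, rfl⟩
    exact le_mono A (by omega) (aeval_x_mem A hc (deg_of_restrict hF))
  have hVle : V ≤ A.le (e + L) := by
    rintro _ ⟨f, hf, rfl⟩
    have := le_mul A hP hf
    rw [add_comm] at this
    exact this
  have hdis : W ⊓ V = ⊥ := by
    rw [eq_bot_iff]
    rintro _ ⟨⟨F, hF, rfl⟩, ⟨f, hf, hfe⟩⟩
    rw [Submodule.mem_bot]
    by_contra hne
    have hF0 : F ≠ 0 := by
      rintro rfl
      exact hne (map_zero _)
    exact hno F hF0 (deg_of_restrict hF) ⟨f, hfe.symm⟩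
  have : Module.Finite ℂ W := by rw [hW]; infer_instance
  have : Module.Finite ℂ V := by rw [hV]; infer_instance
  have h3 := Submodule.finrank_sup_add_finrank_inf_eq W V
  rw [hdis, finrank_bot, add_zero] at h3
  have h4 : Module.finrank ℂ ↥(W ⊔ V) ≤ Module.finrank ℂ (A.le (e + L)) :=
    Submodule.finrank_mono (sup_le hWle hVle)
  omega

end

end ZB

open ZB in
/-- (ZB) every element of degree `≤ L` divides a nonzero polynomial of degree `≤ J L` in the
etale coordinates -/
theorem norm_mul {R : Type} [CommRing R] [IsDomain R] [Algebra ℂ R] {m N : ℕ} (A : DR R m N) :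
    ∃ J : ℕ, ∀ L : ℕ, 1 ≤ L → ∀ P ∈ A.le L, P ≠ 0 →
      ∃ F : MvPolynomial (Fin (m + 1)) ℂ, F ≠ 0 ∧ F.totalDegree ≤ J * L ∧ P ∣ aeval A.x F := by
  obtain ⟨C0, hC0⟩ := hilb_le A
  obtain ⟨c, hc1, hc⟩ := exists_c A
  set n := m + 1 with hn
  set a := C0 * (2 * (c * n)) ^ n + 1 with ha
  refine ⟨n * a, fun L hL P hP hP0 => ?_⟩
  by_contra hcon
  push Not at hcon
  set s := a * L with hs
  have hno : ∀ F : MvPolynomial (Fin (m + 1)) ℂ, F ≠ 0 → F.totalDegree ≤ (m + 1) * s →
      ¬ P ∣ aeval A.x F := by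
    intro F hF0 hF
    refine hcon F hF0 ?_
    rw [hs] at hF
    rw [Nat.mul_assoc]
    exact hF
  have hgrow : ∀ I : ℕ, I * (s + 1) ^ n ≤ Module.finrank ℂ (A.le (c * (n * s) + I * L)) := by
    intro I
    induction I with
    | zero => simp
    | succ I ih =>
      have h1 := step A hc hP hP0 hno (e := c * (n * s) + I * L) (Nat.le_add_right _ _)
      have h2 : c * (n * s) + (I + 1) * L = c * (n * s) + I * L + L := by ring
      rw [h2, Nat.succ_mul]
      exact (Nat.add_le_add_right ih _).trans h1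
  have h1 := hgrow (c * n * a)
  have ha1 : 1 ≤ a := by omega
  have hn1 : 1 ≤ n := by omega
  have hcn : 1 ≤ c * n := Nat.mul_pos hc1 hn1
  have he : c * (n * s) + c * n * a * L = 2 * (c * n) * s := by rw [hs]; ring
  have hs1 : 1 ≤ s := Nat.mul_pos ha1 hL
  have h2 := hC0 (2 * (c * n) * s) (Nat.mul_pos (Nat.mul_pos (by norm_num) hcn) hs1)
  rw [he] at h1
  have h3 : c * n * a * (s + 1) ^ n ≤ C0 * (2 * (c * n) * s) ^ n := h1.trans h2
  have h4 : C0 * (2 * (c * n) * s) ^ n = (C0 * (2 * (c * n)) ^ n) * s ^ n := by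
    rw [mul_pow]; ring
  have h5 : C0 * (2 * (c * n)) ^ n + 1 ≤ c * n * a := by
    calc C0 * (2 * (c * n)) ^ n + 1 = 1 * a := by rw [ha, one_mul]
      _ ≤ c * n * a := Nat.mul_le_mul_right _ hcn
  have h6 : s ^ n ≤ (s + 1) ^ n := Nat.pow_le_pow_left (Nat.le_succ s) n
  have h7 : 1 ≤ s ^ n := Nat.one_le_pow _ _ hs1
  have h8 : (C0 * (2 * (c * n)) ^ n + 1) * s ^ n ≤ c * n * a * (s + 1) ^ n :=
    Nat.mul_le_mul h5 h6
  rw [h4] at h3
  have h9 := h8.trans h3
  rw [Nat.add_mul, one_mul] at h9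
  omega

end Pool.Agent.WW
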