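import Pool.Agent.WW.ZB

set_option autoImplicit false

namespace Pool.Agent.WW

open MvPolynomial

variable {R : Type} [CommRing R] [IsDomain R] [Algebra ℂ R] {m N : ℕ} (A : DR R m N)

namespace ZC

variable {R : Type} [CommRing R] [Algebra ℂ R] {m N : ℕ} (A : DR R m N)

lemma dw_d (l : List (Fin (m + 1))) (i : Fin (m + 1)) (f : R) :
    A.dw l (A.d i f) = A.d i (A.dw l f) := by
  induction l with
  | nil => rfl
  | cons j l ih =>
    show A.d j (A.dw l (A.d i f)) = A.d i (A.d j (A.dw l f))
    rw [ih, A.comm]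

lemma dw_cons (l : List (Fin (m + 1))) (i : Fin (m + 1)) (f : R) :
    A.dw (i :: l) f = A.dw l (A.d i f) := by
  rw [dw_d]; rfl

/-- Leibniz -/
lemma leib {B : Type} [CommRing B] [Algebra ℂ B] (ψ : R →ₐ[ℂ] B) (l : List (Fin (m + 1))) :
    ∀ f g : R, (∀ l' : List (Fin (m + 1)), l'.length ≤ l.length → ψ (A.dw l' g) = 0) →
      ψ (A.dw l (f * g)) = 0 := by
  induction l with
  | nil =>
    intro f g h
    have := h [] le_rfl
    show ψ (f * g) = 0
    rw [map_mul]
    have h1 : ψ g = 0 := this
    rw [h1, mul_zero]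
  | cons i l ih =>
    intro f g h
    rw [dw_cons, Derivation.leibniz, map_add, map_add, smul_eq_mul, smul_eq_mul,
      ih f (A.d i g) ?_, mul_comm g, ih (A.d i f) g ?_, add_zero]
    · intro l' hl'
      exact h l' (hl'.trans (by simp))
    · intro l' hl'
      rw [← dw_cons]
      exact h (i :: l') (by simpa using hl')

/-- the chain rule -/
lemma chain (D : Derivation ℂ R R) (x : Fin (m + 1) → R) (F : MvPolynomial (Fin (m + 1)) ℂ) :
    D (aeval x F) = ∑ j, aeval x (pderiv j F) * D (x j) := by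
  induction F using MvPolynomial.induction_on with
  | C a => simp [Derivation.map_algebraMap]
  | add p q hp hq =>
    simp only [map_add, hp, hq, add_mul, Finset.sum_add_distrib]
  | mul_X p i hp =>
    simp only [map_mul, Derivation.leibniz, smul_eq_mul, hp, aeval_X, map_add, pderiv_X]
    simp only [add_mul, Finset.sum_add_distrib, Finset.mul_sum]
    congr 1
    · rw [Finset.sum_eq_single i]
      · simp
      · intro j _ hj
        rw [Pi.single_eq_of_ne (fun h => hj h.symm)]
        simp
      · simp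
    · exact Finset.sum_congr rfl fun j _ => by ring

/-- a polynomial with vanishing partial derivatives is constant -/
lemma eq_C {F : MvPolynomial (Fin (m + 1)) ℂ} (h : ∀ j, pderiv j F = 0) : F = C (coeff 0 F) := by
  ext s
  rw [coeff_C]
  split_ifs with hs
  · rw [← hs]
  · obtain ⟨j, hj⟩ : ∃ j, s j ≠ 0 := by
      by_contra hcon
      push Not at hcon
      exact hs (by ext j; simp [hcon j])
    have h1 := congrArg (coeff (s - Finsupp.single j 1)) (h j)
    rw [coeff_zero] at h1
    rw [coeff_pderiv] at h1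
    have h2 : s - Finsupp.single j 1 + Finsupp.single j 1 = s := by
      apply tsub_add_cancel_of_le
      rw [Finsupp.single_le_iff]
      omega
    rw [h2] at h1
    refine (mul_eq_zero.mp h1).resolve_right ?_
    exact Nat.cast_add_one_ne_zero _

lemma zero_of_kill {B : Type} [CommRing B] [Nontrivial B] [Algebra ℂ B] (ψ : R →ₐ[ℂ] B) (M : ℕ) :
    ∀ F : MvPolynomial (Fin (m + 1)) ℂ, F.totalDegree ≤ M →
      (∀ l : List (Fin (m + 1)), l.length ≤ M → ψ (A.dw l (aeval A.x F)) = 0) → F = 0 := by
  have const : ∀ c : ℂ, ψ (aeval A.x (C c : MvPolynomial (Fin (m + 1)) ℂ)) = 0 → c = 0 := by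
    intro c h
    rw [aeval_C, AlgHom.commutes] at h
    exact (map_eq_zero_iff _ (algebraMap ℂ B).injective).mp h
  induction M with
  | zero =>
    intro F hF h
    have hC : F = C (coeff 0 F) := totalDegree_eq_zero_iff_eq_C.mp (Nat.le_zero.mp hF)
    have h0 := h [] le_rfl
    have h1 : ψ (aeval A.x F) = 0 := h0
    rw [hC] at h1
    rw [hC, const _ h1, C_0]
  | succ M ih =>
    intro F hF h
    have key : ∀ j, pderiv j F = 0 := by
      intro j
      apply ih
      · calc (pderiv j F).totalDegree ≤ F.totalDegree - 1 := ?_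
          _ ≤ M := by omega
        apply Finset.sup_le
        intro s hs
        rw [mem_support_iff, coeff_pderiv] at hs
        have hs' : s + Finsupp.single j 1 ∈ F.support := by
          rw [mem_support_iff]
          exact left_ne_zero_of_mul hs
        have h1 := le_totalDegree hs'
        rw [Finsupp.sum_add_index' (fun _ => rfl) (fun _ _ _ => rfl), Finsupp.sum_single_index rfl]
          at h1
        omega
      · intro l hl
        set K := (Matrix.of fun i j => A.d i (A.x j))⁻¹ with hK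
        have h1 : aeval A.x (pderiv j F) = ∑ i, K j i * A.d i (aeval A.x F) := by
          have h2 : (fun i => A.d i (aeval A.x F)) =
              (Matrix.of fun i j => A.d i (A.x j)).mulVec
                (fun j => aeval A.x (pderiv j F)) := by
            funext i
            rw [chain]
            simp only [Matrix.mulVec, dotProduct, Matrix.of_apply]
            exact Finset.sum_congr rfl fun j _ => mul_comm _ _
          have h3 : K.mulVec (fun i => A.d i (aeval A.x F)) = fun j => aeval A.x (pderiv j F) := by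
            rw [h2, Matrix.mulVec_mulVec, hK, Matrix.nonsing_inv_mul _ A.det, Matrix.one_mulVec]
          exact (congrFun h3 j).symm
        rw [h1, map_sum, map_sum]
        refine Finset.sum_eq_zero fun i _ => ?_
        apply leib
        intro l' hl'
        rw [← dw_cons]
        exact h (i :: l') (by simp; omega)
    have hC := eq_C key
    have h0 := h [] (Nat.zero_le _)
    have h1 : ψ (aeval A.x F) = 0 := h0
    rw [hC] at h1
    rw [hC, const _ h1, C_0]

/-- reordering of a word -/
lemma reorder (l : List (Fin (m + 1))) (P : R) : ∃ (l' : List (Fin m)) (j : ℕ),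
    l'.length + j = l.length ∧ A.dw l P = A.vw l' ((A.d (Fin.last m))^[j] P) := by
  induction l with
  | nil => exact ⟨[], 0, rfl, rfl⟩
  | cons i l ih =>
    obtain ⟨l', j, h1, h2⟩ := ih
    rcases Fin.eq_castSucc_or_eq_last i with ⟨i', rfl⟩ | rfl
    · refine ⟨i' :: l', j, by simp; omega, ?_⟩
      show A.d i'.castSucc (A.dw l P) = A.d i'.castSucc (A.vw l' _)
      rw [h2]
    · refine ⟨l', j + 1, by simp; omega, ?_⟩
      show A.d (Fin.last m) (A.dw l P) = _
      rw [h2, Function.iterate_succ_apply']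
      exact (dw_d A _ _ _).symm

end ZC

open ZC

/-- (ZC1) a nonzero element of degree `≤ L` has order `≤ J L` along every homomorphism into a
domain; `J` is the constant of ZB -/
theorem ord_le {J : ℕ} (hJ : ∀ L : ℕ, 1 ≤ L → ∀ P ∈ A.le L, P ≠ 0 →
      ∃ F : MvPolynomial (Fin (m + 1)) ℂ, F ≠ 0 ∧ F.totalDegree ≤ J * L ∧ P ∣ aeval A.x F)
    {B : Type} [CommRing B] [IsDomain B] [Algebra ℂ B] (ψ : R →ₐ[ℂ] B)
    {L : ℕ} (hL : 1 ≤ L) {P : R} (hP : P ∈ A.le L) (h0 : P ≠ 0) :
    ∃ l : List (Fin (m + 1)), l.length ≤ J * L ∧ ψ (A.dw l P) ≠ 0 := by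
  obtain ⟨F, hF, hd, c, hc⟩ := hJ L hL P hP h0
  by_contra hcon
  push Not at hcon
  apply hF
  refine zero_of_kill A ψ (J * L) F hd fun l hl => ?_
  rw [hc, mul_comm]
  exact leib A ψ l c P fun l' hl' => hcon l' (hl'.trans hl)

/-- (ZC2) the velocity of a formal arc -/
theorem arc_v (ψ : R →ₐ[ℂ] PowerSeries ℂ) :
    ∃ v : Fin (m + 1) → PowerSeries ℂ,
      ∀ f, PowerSeries.derivative ℂ (ψ f) = ∑ i, v i * ψ (A.d i f) := by
  classical
  set Mx : Matrix (Fin (m + 1)) (Fin (m + 1)) (PowerSeries ℂ) :=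
    Matrix.of fun i j => ψ (A.d i (A.x j)) with hMx
  have hdet : IsUnit Mx.det := by
    have h1 : Mx = (ψ : R →+* PowerSeries ℂ).mapMatrix (Matrix.of fun i j => A.d i (A.x j)) := by
      ext i j
      rfl
    rw [h1, ← RingHom.map_det]
    exact A.det.map _
  set w : Fin (m + 1) → PowerSeries ℂ := fun j => PowerSeries.derivative ℂ (ψ (A.x j)) with hw
  set v : Fin (m + 1) → PowerSeries ℂ := Matrix.vecMul w Mx⁻¹ with hv
  have hvw : Matrix.vecMul v Mx = w := by
    rw [hv, Matrix.vecMul_vecMul, Matrix.nonsing_inv_mul _ hdet, Matrix.vecMul_one]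
  refine ⟨v, ?_⟩
  let D : R →ₗ[ℂ] PowerSeries ℂ := (PowerSeries.derivative ℂ).toLinearMap ∘ₗ ψ.toLinearMap -
    ∑ i, (LinearMap.mulLeft ℂ (v i)) ∘ₗ ψ.toLinearMap ∘ₗ (A.d i).toLinearMap
  have hD : ∀ f, D f = PowerSeries.derivative ℂ (ψ f) - ∑ i, v i * ψ (A.d i f) := by
    intro f
    simp [D]
  let ι : PowerSeries ℂ →ₐ[ℂ] FractionRing (PowerSeries ℂ) :=
    IsScalarTower.toAlgHom ℂ (PowerSeries ℂ) (FractionRing (PowerSeries ℂ))
  have hι : Function.Injective ι := IsFractionRing.injective _ _
  have h0 : ι.toLinearMap ∘ₗ D = 0 := by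
    refine A.unr (FractionRing (PowerSeries ℂ)) (ι.comp ψ) _ ?_ ?_
    · intro f g
      have h1 : D (f * g) = ψ f * D g + ψ g * D f := by
        rw [hD, hD, hD, map_mul, Derivation.leibniz]
        simp only [Derivation.leibniz, smul_eq_mul, map_add, map_mul, mul_add,
          Finset.sum_add_distrib, mul_sub, Finset.mul_sum]
        have e1 : ∀ i, v i * (ψ f * ψ (A.d i g)) = ψ f * (v i * ψ (A.d i g)) := fun i => by ring
        have e2 : ∀ i, v i * (ψ g * ψ (A.d i f)) = ψ g * (v i * ψ (A.d i f)) := fun i => by ring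
        simp only [e1, e2]
        ring
      show ι (D (f * g)) = ι (ψ f) * ι (D g) + ι (ψ g) * ι (D f)
      rw [h1, map_add, map_mul, map_mul]
    · intro j
      show ι (D (A.x j)) = 0
      rw [hD]
      have h1 := congrFun hvw j
      simp only [Matrix.vecMul, dotProduct, hMx, Matrix.of_apply, hw] at h1
      rw [h1, sub_self, map_zero]
  intro f
  have h1 : ι (D f) = 0 := by
    have := LinearMap.congr_fun h0 f
    exact this
  have h2 : D f = 0 := hι (by rw [h1, map_zero])
  rw [hD, sub_eq_zero] at h2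
  exact h2

/-- (ZC3) along a transversal arc some derivative of order `≤ J L` in the directions of `V` does
not vanish -/
theorem arc_trans {J : ℕ} (hJ : ∀ L : ℕ, 1 ≤ L → ∀ P ∈ A.le L, P ≠ 0 →
      ∃ F : MvPolynomial (Fin (m + 1)) ℂ, F ≠ 0 ∧ F.totalDegree ≤ J * L ∧ P ∣ aeval A.x F)
    (ψ : R →ₐ[ℂ] PowerSeries ℂ) (v : Fin (m + 1) → PowerSeries ℂ)
    (hv : ∀ f, PowerSeries.derivative ℂ (ψ f) = ∑ i, v i * ψ (A.d i f))
    (hlast : v (Fin.last m) ≠ 0)
    {L : ℕ} (hL : 1 ≤ L) {P : R} (hP : P ∈ A.le L) (h0 : P ≠ 0) :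
    ∃ l : List (Fin m), l.length ≤ J * L ∧ ψ (A.vw l P) ≠ 0 := by
  by_contra hcon
  push Not at hcon
  have claim : ∀ j : ℕ, ∀ l : List (Fin m), l.length + j ≤ J * L →
      ψ (A.vw l ((A.d (Fin.last m))^[j] P)) = 0 := by
    intro j
    induction j with
    | zero => intro l hl; exact hcon l (by omega)
    | succ j ih =>
      intro l hl
      have h1 := hv (A.vw l ((A.d (Fin.last m))^[j] P))
      rw [ih l (by omega), map_zero, Fin.sum_univ_castSucc] at h1
      have h2 : ∀ i : Fin m, v i.castSucc *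
          ψ (A.d i.castSucc (A.vw l ((A.d (Fin.last m))^[j] P))) = 0 := by
        intro i
        have h3 : ψ (A.vw (i :: l) ((A.d (Fin.last m))^[j] P)) = 0 :=
          ih (i :: l) (by simp; omega)
        have h4 : ψ (A.d i.castSucc (A.vw l ((A.d (Fin.last m))^[j] P))) = 0 := h3
        rw [h4, mul_zero]
      rw [Finset.sum_eq_zero fun i _ => h2 i, zero_add] at h1
      have h5 := (mul_eq_zero.mp h1.symm).resolve_left hlast
      rw [Function.iterate_succ_apply']
      rw [← h5]
      congr 1
      exact dw_d A _ _ _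
  obtain ⟨l, hl, hne⟩ := ord_le A hJ ψ hL hP h0
  apply hne
  obtain ⟨l', j, h1, h2⟩ := reorder A l P
  rw [h2]
  exact claim j l' (by omega)

end Pool.Agent.WW
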