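import Pool.Agent.WW.ZDefs

set_option autoImplicit false

namespace Pool.Agent.WW

namespace ZD

variable {R : Type} [CommRing R] [Algebra ℂ R] {m N : ℕ} (A : DR R m N)

instance le_finite (e : ℕ) : Module.Finite ℂ (A.le e) := by
  unfold DR.le
  infer_instance

theorem le_mono {e e' : ℕ} (h : e ≤ e') : A.le e ≤ A.le e' := by
  unfold DR.le
  refine Submodule.map_mono ?_
  intro p hp
  rw [MvPolynomial.mem_restrictTotalDegree] at hp ⊢
  omega

theorem le_mul {e e' : ℕ} {f g : R} (hf : f ∈ A.le e) (hg : g ∈ A.le e') :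
    f * g ∈ A.le (e + e') := by
  unfold DR.le at *
  obtain ⟨p, hp, rfl⟩ := hf
  obtain ⟨q, hq, rfl⟩ := hg
  refine ⟨p * q, ?_, by simp⟩
  simp only [SetLike.mem_coe, MvPolynomial.mem_restrictTotalDegree] at hp hq ⊢
  exact (MvPolynomial.totalDegree_mul p q).trans (add_le_add hp hq)

theorem hf_mono (I : Ideal R) {e e' : ℕ} (h : e ≤ e') : A.hf I e ≤ A.hf I e' := by
  unfold DR.hf
  exact Submodule.finrank_mono (Submodule.map_mono (le_mono A h))

theorem hf_add (I I' : Ideal R) (hI : I ≤ I') (p : R) (δ : ℕ) (hp : p ∈ A.le δ)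
    (hpI : p ∈ I') (hreg : ∀ f, p * f ∈ I → f ∈ I) (e : ℕ) :
    A.hf I' (e + δ) + A.hf I e ≤ A.hf I (e + δ) := by
  unfold DR.hf
  set W := (A.le (e + δ)).map (Ideal.Quotient.mkₐ ℂ I).toLinearMap with hW
  let φ : (R ⧸ I) →ₗ[ℂ] (R ⧸ I') := (Ideal.Quotient.factorₐ ℂ hI).toLinearMap
  have hφ : ∀ f : R, φ (Ideal.Quotient.mk I f) = Ideal.Quotient.mk I' f := fun f => rfl
  have h1 : (A.le (e + δ)).map (Ideal.Quotient.mkₐ ℂ I').toLinearMap = W.map φ := by
    rw [hW, ← Submodule.map_comp]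
    rfl
  have h2 := LinearMap.finrank_range_add_finrank_ker (φ.domRestrict W)
  have h3 : LinearMap.range (φ.domRestrict W) = W.map φ := LinearMap.range_domRestrict _ _
  rw [h3] at h2
  rw [h1, ← h2]
  refine Nat.add_le_add_left ?_ _
  -- multiplication by p
  let μ : (R ⧸ I) →ₗ[ℂ] (R ⧸ I) := LinearMap.mulLeft ℂ (Ideal.Quotient.mk I p)
  have hμ : Function.Injective μ := by
    rw [injective_iff_map_eq_zero]
    intro a ha
    obtain ⟨f, rfl⟩ := Ideal.Quotient.mk_surjective a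
    simp only [μ, LinearMap.mulLeft_apply, ← map_mul] at ha
    rw [Ideal.Quotient.eq_zero_iff_mem] at ha ⊢
    exact hreg f ha
  set W0 := (A.le e).map (Ideal.Quotient.mkₐ ℂ I).toLinearMap with hW0
  have h4 : W0.map μ ≤ (LinearMap.ker (φ.domRestrict W)).map W.subtype := by
    rintro _ ⟨_, ⟨f, hf, rfl⟩, rfl⟩
    have hmem : μ ((Ideal.Quotient.mkₐ ℂ I).toLinearMap f) ∈ W := by
      refine ⟨p * f, ?_, ?_⟩
      · rw [add_comm]
        exact le_mul A hp hf
      · simp [μ]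
    refine ⟨⟨_, hmem⟩, ?_, rfl⟩
    simp only [SetLike.mem_coe, LinearMap.mem_ker, LinearMap.domRestrict_apply]
    have : μ ((Ideal.Quotient.mkₐ ℂ I).toLinearMap f) = Ideal.Quotient.mk I (p * f) := by
      simp [μ]
    rw [this, hφ, Ideal.Quotient.eq_zero_iff_mem]
    exact I'.mul_mem_right _ hpI
  calc Module.finrank ℂ W0 = Module.finrank ℂ (W0.map μ) :=
        (LinearEquiv.finrank_eq (Submodule.equivMapOfInjective μ hμ W0))
    _ ≤ Module.finrank ℂ ((LinearMap.ker (φ.domRestrict W)).map W.subtype) :=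
        Submodule.finrank_mono h4
    _ = _ := (LinearEquiv.finrank_eq
        (Submodule.equivMapOfInjective W.subtype (Submodule.injective_subtype _) _)).symm

theorem hf_anti (I I' : Ideal R) (hI : I ≤ I') (e : ℕ) : A.hf I' e ≤ A.hf I e := by
  unfold DR.hf
  let φ : (R ⧸ I) →ₗ[ℂ] (R ⧸ I') := (Ideal.Quotient.factorₐ ℂ hI).toLinearMap
  have h1 : (A.le e).map (Ideal.Quotient.mkₐ ℂ I').toLinearMap =
      ((A.le e).map (Ideal.Quotient.mkₐ ℂ I).toLinearMap).map φ := by
    rw [← Submodule.map_comp]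
    rfl
  rw [h1]
  exact Submodule.finrank_map_le _ _

theorem shift_sum (F : ℕ → ℕ) (hF : Monotone F) (δ : ℕ) (a b : ℕ) (hab : a ≤ b) :
    ∑ e ∈ Finset.Ioc a b, F (e + δ) ≤ ∑ e ∈ Finset.Ioc a b, F e + δ * F (b + δ) := by
  induction δ with
  | zero => simp
  | succ δ ih =>
    have h1 : ∑ e ∈ Finset.Ioc a b, F (e + (δ + 1)) + F (a + 1 + δ) =
        ∑ e ∈ Finset.Ioc a b, F (e + δ) + F (b + 1 + δ) := by
      clear ih
      induction b, hab using Nat.le_induction with
      | base => simp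
      | succ b hb ih2 =>
        rw [Finset.sum_Ioc_succ_top (by omega), Finset.sum_Ioc_succ_top (by omega)]
        have e1 : b + 1 + (δ + 1) = b + 1 + 1 + δ := by ring
        rw [e1]
        omega
    have h2 : F (b + δ) ≤ F (b + (δ + 1)) := hF (by omega)
    have h3 : b + 1 + δ = b + (δ + 1) := by ring
    rw [h3] at h1
    nlinarith [Nat.mul_le_mul_left δ h2]

end ZD

variable {R : Type} [CommRing R] [Algebra ℂ R] {m N : ℕ} (A : DR R m N)

/-- (ZD) one step of the Bezout inequality for Hilbert functions -/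
theorem hf_step (I I' : Ideal R) (hI : I ≤ I') (p : R) (δ : ℕ) (hδ : 1 ≤ δ) (hp : p ∈ A.le δ)
    (hpI : p ∈ I') (hreg : ∀ f, p * f ∈ I → f ∈ I) (c r : ℕ)
    (hH : ∀ e : ℕ, 1 ≤ e → A.hf I e ≤ c * e ^ (r + 1)) :
    ∀ e : ℕ, 1 ≤ e → A.hf I' e ≤ (δ * c * 2 ^ (r + 1)) * e ^ r := by
  intro K hK
  let F : ℕ → ℕ := fun n => if n < δ then 0 else A.hf I (n - δ)
  have hF : Monotone F := by
    intro a b hab
    simp only [F]
    split_ifs with h1 h2
    · exact le_rfl
    · exact Nat.zero_le _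
    · omega
    · exact ZD.hf_mono A I (by omega)
  have hFs : ∀ e, F (e + δ) = A.hf I e := by
    intro e
    simp [F]
  have hle : ∀ e, A.hf I' e + F e ≤ A.hf I e := by
    intro e
    simp only [F]
    split_ifs with h1
    · simpa using ZD.hf_anti A I I' hI e
    · obtain ⟨k, rfl⟩ := Nat.exists_eq_add_of_le (not_lt.mp h1)
      have := ZD.hf_add A I I' hI p δ hp hpI hreg k
      rw [add_comm δ k, Nat.add_sub_cancel]
      exact this
  have h1 : K * A.hf I' K ≤ ∑ e ∈ Finset.Ioc K (2 * K), A.hf I' e := by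
    have : ∑ e ∈ Finset.Ioc K (2 * K), A.hf I' K ≤ ∑ e ∈ Finset.Ioc K (2 * K), A.hf I' e := by
      refine Finset.sum_le_sum ?_
      intro e he
      rw [Finset.mem_Ioc] at he
      exact ZD.hf_mono A I' he.1.le
    rw [Finset.sum_const, Nat.card_Ioc, smul_eq_mul] at this
    have e1 : 2 * K - K = K := by omega
    rwa [e1] at this
  have h2 := ZD.shift_sum F hF δ K (2 * K) (by omega)
  have h3 : ∑ e ∈ Finset.Ioc K (2 * K), A.hf I' e + ∑ e ∈ Finset.Ioc K (2 * K), F e ≤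
      ∑ e ∈ Finset.Ioc K (2 * K), F (e + δ) := by
    rw [← Finset.sum_add_distrib]
    refine Finset.sum_le_sum ?_
    intro e _
    rw [hFs]
    exact hle e
  rw [hFs] at h2
  have h4 : K * A.hf I' K ≤ δ * (c * (2 * K) ^ (r + 1)) := by
    have := hH (2 * K) (by omega)
    have h5 := Nat.mul_le_mul_left δ this
    omega
  have h5 : δ * (c * (2 * K) ^ (r + 1)) = K * ((δ * c * 2 ^ (r + 1)) * K ^ r) := by
    rw [mul_pow, pow_succ K r]
    ring
  rw [h5] at h4
  exact Nat.le_of_mul_le_mul_left h4 (by omega)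

end Pool.Agent.WW
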