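import Mathlib

/-!
Zero estimate on a differential ring: definitions.
`DR R m N`: `R` is a finitely generated `ℂ`-algebra (generators `b`), with `m + 1` commuting
derivations `d`, etale coordinates `x`.  The first `m` derivations span the hyperplane `V`.
-/

set_option autoImplicit false

namespace Pool.Agent.WW

open MvPolynomial

noncomputable section

/-- differential ring data -/
structure DR (R : Type) [CommRing R] [Algebra ℂ R] (m N : ℕ) where
  /-- generators -/
  b : Fin N → R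
  gen : Algebra.adjoin ℂ (Set.range b) = ⊤
  /-- derivations -/
  d : Fin (m + 1) → Derivation ℂ R R
  comm : ∀ i j f, d i (d j f) = d j (d i f)
  /-- etale coordinates -/
  x : Fin (m + 1) → R
  det : IsUnit (Matrix.of fun i j => d i (x j)).det
  alg : ∀ f : R, IsAlgebraic (Algebra.adjoin ℂ (Set.range x)) f
  unr : ∀ (F : Type) [Field F] [Algebra ℂ F] (ψ : R →ₐ[ℂ] F) (D : R →ₗ[ℂ] F),
    (∀ f g, D (f * g) = ψ f * D g + ψ g * D f) → (∀ i, D (x i) = 0) → D = 0
  reg : ∀ σ : R →ₐ[ℂ] ℂ, RingTheory.Sequence.IsWeaklyRegular R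
    (List.ofFn fun i => x i - algebraMap ℂ R (σ (x i)))

namespace DR

variable {R : Type} [CommRing R] [Algebra ℂ R] {m N : ℕ} (A : DR R m N)

/-- the composition of the derivations of a word (all `m + 1` directions) -/
def dw : List (Fin (m + 1)) → R →ₗ[ℂ] R
  | [] => LinearMap.id
  | i :: l => (A.d i).toLinearMap ∘ₗ dw l

/-- the composition of the derivations of a word in the directions of `V` -/
def vw (l : List (Fin m)) : R →ₗ[ℂ] R := A.dw (l.map Fin.castSucc)

/-- elements that are polynomials of degree at most `e` in the generators -/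
def le (e : ℕ) : Submodule ℂ R :=
  (restrictTotalDegree (Fin N) ℂ e).map (aeval A.b : MvPolynomial (Fin N) ℂ →ₐ[ℂ] R).toLinearMap

/-- `f` vanishes at the point `σ` to order at least `T` in the directions of `V` -/
def VOrd (σ : R →ₐ[ℂ] ℂ) (T : ℕ) (f : R) : Prop :=
  ∀ l : List (Fin m), l.length < T → σ (A.vw l f) = 0

/-- affine Hilbert function of an ideal -/
def hf (I : Ideal R) (e : ℕ) : ℕ :=
  Module.finrank ℂ ((A.le e).map (Ideal.Quotient.mkₐ ℂ I).toLinearMap)

end DR

variable {R : Type} [CommRing R] [Algebra ℂ R]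

/-- `ψ` is a formal arc centered at the point `σ` -/
def Centered (σ : R →ₐ[ℂ] ℂ) (ψ : R →ₐ[ℂ] PowerSeries ℂ) : Prop :=
  ∀ f, PowerSeries.constantCoeff (ψ f) = σ f

/-- the arc is not constant -/
def NonConst (σ : R →ₐ[ℂ] ℂ) (ψ : R →ₐ[ℂ] PowerSeries ℂ) : Prop :=
  ∃ f, ψ f ≠ PowerSeries.C (σ f)

/-- the arc lies in an algebraic curve, the parameter being an algebraic function on the curve -/
def Thin (ψ : R →ₐ[ℂ] PowerSeries ℂ) : Prop :=
  ∀ f, IsAlgebraic (Polynomial ℂ) (ψ f)

/-- all algebraic arcs centered at `σ` are transversal to `V` -/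
def DR.ArcOK {m N : ℕ} (A : DR R m N) (σ : R →ₐ[ℂ] ℂ) : Prop :=
  ∀ ψ : R →ₐ[ℂ] PowerSeries ℂ, Centered σ ψ → NonConst σ ψ → Thin ψ →
    ∀ v : Fin (m + 1) → PowerSeries ℂ,
      (∀ f, PowerSeries.derivative ℂ (ψ f) = ∑ i, v i * ψ (A.d i f)) → v (Fin.last m) ≠ 0

/-- the contraction of the extension of `I` to the semilocal ring at the points of `S` -/
def locI (S : Finset (R →ₐ[ℂ] ℂ)) (I : Ideal R) : Ideal R where
  carrier := {f | ∀ σ ∈ S, ∃ g, σ g ≠ 0 ∧ g * f ∈ I}
  zero_mem' := fun σ _ => ⟨1, by simp, by simp⟩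
  add_mem' := by
    intro f1 f2 h1 h2 σ hσ
    obtain ⟨g1, k1, l1⟩ := h1 σ hσ
    obtain ⟨g2, k2, l2⟩ := h2 σ hσ
    refine ⟨g1 * g2, by rw [map_mul]; exact mul_ne_zero k1 k2, ?_⟩
    have e : g1 * g2 * (f1 + f2) = g2 * (g1 * f1) + g1 * (g2 * f2) := by ring
    rw [e]
    exact I.add_mem (I.mul_mem_left _ l1) (I.mul_mem_left _ l2)
  smul_mem' := by
    intro c f h σ hσ
    obtain ⟨g, k, l⟩ := h σ hσ
    refine ⟨g, k, ?_⟩
    have e : g * (c • f) = c * (g * f) := by rw [smul_eq_mul]; ring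
    rw [e]
    exact I.mul_mem_left _ l

end

end Pool.Agent.WW
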