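import Mathlib

set_option autoImplicit false

namespace Pool.Agent.WW

open CategoryTheory Abelian RingTheory.Sequence

open scoped Pointwise

/-- the depth induction: if `Ext^i (N, M) = 0` for `i < n` then the same holds for `M / r M` and
`i < n - 1`, hence `Hom (N, M / (rs) M) = 0` for a weakly regular sequence of length `< n` -/
private theorem ZE.hom_quot {B : Type} [CommRing B] (N : ModuleCat.{0} B) (rs : List B) :
    ∀ (n : ℕ) (M : ModuleCat.{0} B), (∀ i < n, Subsingleton (Ext N M i)) →
      rs.length < n → IsWeaklyRegular M rs →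
      Subsingleton (N →ₗ[B] (M ⧸ (Ideal.ofList rs • ⊤ : Submodule B M))) := by
  induction rs with
  | nil =>
    intro n M hE hn _
    have h0 : Subsingleton (N ⟶ M) := Ext.addEquiv₀.subsingleton_congr.mp (hE 0 (by simpa using hn))
    have h1 : Subsingleton (N →ₗ[B] M) := ModuleCat.homAddEquiv.symm.subsingleton
    have e : (M ⧸ (Ideal.ofList ([] : List B) • ⊤ : Submodule B M)) ≃ₗ[B] M :=
      Submodule.quotEquivOfEqBot _ (by simp)
    exact ⟨fun f g => by
      have := Subsingleton.elim (e.toLinearMap ∘ₗ f) (e.toLinearMap ∘ₗ g)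
      ext x
      have hx := LinearMap.congr_fun this x
      simpa using hx⟩
  | cons r rs ih =>
    intro n M hE hn hw
    obtain ⟨h1, h2⟩ := (isWeaklyRegular_cons_iff M r rs).mp hw
    obtain ⟨n, rfl⟩ : ∃ k, n = k + 1 := ⟨n - 1, by simp at hn; omega⟩
    have hE' : ∀ i < n, Subsingleton (Ext N (ModuleCat.of B (QuotSMulTop r M)) i) := by
      intro i hi
      have zero1 := AddCommGrpCat.isZero_of_iff_subsingleton.mpr (hE i (by omega))
      have zero2 := AddCommGrpCat.isZero_of_iff_subsingleton.mpr (hE (i + 1) (by omega))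
      exact AddCommGrpCat.subsingleton_of_isZero <| ShortComplex.Exact.isZero_of_both_zeros
        ((Ext.covariant_sequence_exact₃' N h1.smulShortComplex_shortExact) i (i + 1) rfl)
        (zero1.eq_zero_of_src _) (zero2.eq_zero_of_tgt _)
    have hs := ih n (ModuleCat.of B (QuotSMulTop r M)) hE' (by simpa using hn) h2
    let e := Submodule.quotOfListConsSMulTopEquivQuotSMulTopInner M r rs
    exact ⟨fun f g => by
      have := @Subsingleton.elim _ hs (e.toLinearMap ∘ₗ f) (e.toLinearMap ∘ₗ g)
      ext x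
      have hx := LinearMap.congr_fun this x
      simpa using hx⟩

/-- (ZE) if a Noetherian local ring has a regular sequence of length `n` in its maximal ideal, then
for every weakly regular sequence of length `< n` in the maximal ideal, the maximal ideal is not
associated to the quotient (use the Rees theorem `ModuleCat.exists_isRegular_tfae`) -/
theorem not_assoc {B : Type} [CommRing B] [IsLocalRing B] [IsNoetherianRing B] (n : ℕ)
    (xs : List B) (hxs : xs.length = n) (hx : ∀ x ∈ xs, x ∈ IsLocalRing.maximalIdeal B)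
    (hxr : RingTheory.Sequence.IsWeaklyRegular B xs)
    (rs : List B) (hrs : rs.length < n) (hr : ∀ r ∈ rs, r ∈ IsLocalRing.maximalIdeal B)
    (hrr : RingTheory.Sequence.IsWeaklyRegular B rs) :
    IsLocalRing.maximalIdeal B ∉ associatedPrimes B (B ⧸ Ideal.ofList rs) := by
  have _ := hr
  intro hass
  set I := IsLocalRing.maximalIdeal B with hI
  have hreg : IsRegular B xs :=
    (IsLocalRing.isRegular_iff_isWeaklyRegular_of_subset_maximalIdeal hx).mpr hxr
  have hlt : I • (⊤ : Submodule B B) < ⊤ := by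
    rw [smul_eq_mul, Ideal.mul_top]
    exact lt_top_iff_ne_top.mpr (Ideal.IsPrime.ne_top inferInstance)
  have hE := (ModuleCat.exists_isRegular_tfae I n (ModuleCat.of B B) hlt).out 3 1
  have hE1 := hE.mp ⟨xs, hxs, hx, hreg⟩
  have hs := ZE.hom_quot (ModuleCat.of B (Shrink.{0} (B ⧸ I))) rs n (ModuleCat.of B B) hE1 hrs hrr
  obtain ⟨hp, f, hf⟩ :=
    (isAssociatedPrime_iff_exists_injective_linearMap I (B ⧸ Ideal.ofList rs)).mp hass
  have e : (B ⧸ Ideal.ofList rs) ≃ₗ[B] (B ⧸ (Ideal.ofList rs • ⊤ : Submodule B B)) :=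
    Submodule.quotEquivOfEq _ _ (by rw [smul_eq_mul, Ideal.mul_top])
  have hf0 : (e.toLinearMap ∘ₗ f ∘ₗ (Shrink.linearEquiv B (B ⧸ I)).toLinearMap) = 0 :=
    @Subsingleton.elim _ hs _ _
  have h1 : f 1 = 0 := by
    have := LinearMap.congr_fun hf0 ((Shrink.linearEquiv B (B ⧸ I)).symm 1)
    simpa using this
  have h2 : (1 : B ⧸ I) = 0 := hf (by rw [h1, map_zero])
  have : I = ⊤ := by
    rw [Ideal.eq_top_iff_one, ← Ideal.Quotient.eq_zero_iff_mem, map_one]
    exact h2
  exact hp.ne_top this

end Pool.Agent.WW
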