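import Pool.Agent.WW.ZDefs
import Pool.Agent.WW.ZE

set_option autoImplicit false

namespace Pool.Agent.WW

/-- `P 0, .., P (i-1)` is a regular sequence at all points of `S` (elementwise form) -/
def RegAt {R : Type} [CommRing R] [Algebra ℂ R] (S : Finset (R →ₐ[ℂ] ℂ)) {i : ℕ}
    (P : Fin i → R) : Prop :=
  ∀ l : Fin i, ∀ f, P l * f ∈ locI S (Ideal.span (P '' {k | k < l})) →
    f ∈ locI S (Ideal.span (P '' {k | k < l}))

namespace ZF

/-- weak regularity of a list on the ring itself, elementwise -/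
private theorem wr_of {B : Type} [CommRing B] (rs : List B)
    (h : ∀ (l : ℕ) (hl : l < rs.length) (b : B), rs[l] * b ∈ Ideal.ofList (rs.take l) →
      b ∈ Ideal.ofList (rs.take l)) : RingTheory.Sequence.IsWeaklyRegular B rs := by
  refine ⟨fun l hl => ?_⟩
  have e : (Ideal.ofList (rs.take l) • ⊤ : Submodule B B) = Ideal.ofList (rs.take l) := by
    simp
  rw [e]
  rw [isSMulRegular_iff_right_eq_zero_of_smul]
  intro q hq
  obtain ⟨b, rfl⟩ := Submodule.Quotient.mk_surjective _ q
  rw [← Submodule.Quotient.mk_smul, Submodule.Quotient.mk_eq_zero] at hq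
  rw [Submodule.Quotient.mk_eq_zero]
  exact h l hl b hq

private theorem ofList_take {B : Type} [CommRing B] {i : ℕ} (P : Fin i → B) (l : ℕ) (hl : l < i) :
    Ideal.ofList ((List.ofFn P).take l) = Ideal.span (P '' {k | k < ⟨l, hl⟩}) := by
  unfold Ideal.ofList
  congr 1
  ext x
  simp only [Set.mem_image]
  constructor
  · intro hx
    have hx' : x ∈ (List.ofFn P).take l := hx
    rw [List.mem_take_iff_getElem] at hx'
    obtain ⟨j, hj, rfl⟩ := hx'
    have hj' : j < i := by
      have := hj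
      simp at this
      omega
    refine ⟨⟨j, hj'⟩, ?_, by simp⟩
    show (⟨j, hj'⟩ : Fin i) < ⟨l, hl⟩
    rw [Fin.lt_def]
    show j < l
    omega
  · rintro ⟨k, hk, rfl⟩
    show P k ∈ (List.ofFn P).take l
    rw [List.mem_take_iff_getElem]
    have hk' : (k : ℕ) < l := hk
    refine ⟨k, ?_, by simp⟩
    simp
    omega

private theorem ofList_all {B : Type} [CommRing B] {i : ℕ} (P : Fin i → B) :
    Ideal.ofList (List.ofFn P) = Ideal.span (Set.range P) := by
  unfold Ideal.ofList
  congr 1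
  ext x
  simp

/-- the ideal `K` of elements killed by something outside of the kernel -/
private theorem mem_locI_singleton {R : Type} [CommRing R] [Algebra ℂ R] (σ : R →ₐ[ℂ] ℂ)
    (I : Ideal R) (f : R) : f ∈ locI {σ} I ↔ ∃ g, σ g ≠ 0 ∧ g * f ∈ I := by
  constructor
  · intro h
    exact h σ (by simp)
  · intro h τ hτ
    rw [Finset.mem_singleton] at hτ
    subst hτ
    exact h

private theorem mem_locI_iff {R : Type} [CommRing R] [Algebra ℂ R] (S : Finset (R →ₐ[ℂ] ℂ))
    (I : Ideal R) (f : R) : f ∈ locI S I ↔ ∀ σ ∈ S, f ∈ locI {σ} I := by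
  constructor
  · intro h σ hσ
    rw [mem_locI_singleton]
    exact h σ hσ
  · intro h σ hσ
    have := h σ hσ
    rwa [mem_locI_singleton] at this

/-- the maximal ideal of the point is not associated to `R / locI {σ} (P)` -/
private theorem not_ass {R : Type} [CommRing R] [IsDomain R] [Algebra ℂ R] {m N : ℕ}
    (A : DR R m N) [IsNoetherianRing R]
    (S : Finset (R →ₐ[ℂ] ℂ)) {i : ℕ} (hi : i < m + 1) (P : Fin i → R)
    (hP : ∀ l, ∀ σ ∈ S, σ (P l) = 0) (hreg : RegAt S P) (σ : R →ₐ[ℂ] ℂ) (hσ : σ ∈ S) (f : R)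
    (hf : ∀ a, a ∈ RingHom.ker σ ↔ a * f ∈ locI {σ} (Ideal.span (Set.range P))) : False := by
  classical
  have hprime : (RingHom.ker σ).IsPrime := RingHom.ker_isPrime σ
  let B := Localization.AtPrime (RingHom.ker σ)
  have hB : IsNoetherianRing B := IsLocalization.isNoetherianRing (RingHom.ker σ).primeCompl B inferInstance
  have hmap : ∀ (I : Ideal R) (x : R), algebraMap R B x ∈ I.map (algebraMap R B) ↔
      ∃ g, σ g ≠ 0 ∧ g * x ∈ I := by
    intro I x
    rw [IsLocalization.algebraMap_mem_map_algebraMap_iff (RingHom.ker σ).primeCompl B]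
    constructor
    · rintro ⟨g, hg, hgx⟩
      exact ⟨g, fun h => hg (by rw [SetLike.mem_coe, RingHom.mem_ker]; exact h), hgx⟩
    · rintro ⟨g, hg, hgx⟩
      exact ⟨g, fun h => hg (by rw [SetLike.mem_coe, RingHom.mem_ker] at h; exact h), hgx⟩
  have hmem : ∀ x : R, algebraMap R B x ∈ IsLocalRing.maximalIdeal B ↔ σ x = 0 := by
    intro x
    rw [IsLocalization.AtPrime.to_map_mem_maximal_iff B (RingHom.ker σ)]
    exact RingHom.mem_ker
  -- the regular sequence of the coordinates
  set xs : List R := List.ofFn fun i => A.x i - algebraMap ℂ R (σ (A.x i)) with hxs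
  have hxs1 : RingTheory.Sequence.IsWeaklyRegular B (xs.map (algebraMap R B)) :=
    (A.reg σ).of_isLocalization B (RingHom.ker σ).primeCompl
  have hxs2 : ∀ x ∈ xs.map (algebraMap R B), x ∈ IsLocalRing.maximalIdeal B := by
    intro x hx
    rw [List.mem_map] at hx
    obtain ⟨y, hy, rfl⟩ := hx
    rw [hmem]
    rw [hxs, List.mem_ofFn] at hy
    obtain ⟨j, rfl⟩ := hy
    simp
  -- the sequence `P`
  set rs : List B := List.ofFn fun l => algebraMap R B (P l) with hrs
  have hspan : ∀ (T : Set (Fin i)), Ideal.span ((fun l => algebraMap R B (P l)) '' T) =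
      (Ideal.span (P '' T)).map (algebraMap R B) := by
    intro T
    rw [Ideal.map_span, ← Set.image_comp]
    rfl
  have hrs1 : RingTheory.Sequence.IsWeaklyRegular B rs := by
    apply wr_of
    intro l hl b hb
    have hl' : l < i := by simpa [hrs] using hl
    have hget : rs[l] = algebraMap R B (P ⟨l, hl'⟩) := by simp [hrs]
    rw [hget] at hb
    rw [hrs, ofList_take _ l hl', hspan] at hb ⊢
    obtain ⟨a, t, rfl⟩ := IsLocalization.exists_mk'_eq (RingHom.ker σ).primeCompl b
    have h1 : algebraMap R B (P ⟨l, hl'⟩ * a) ∈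
        (Ideal.span (P '' {k | k < (⟨l, hl'⟩ : Fin i)})).map (algebraMap R B) := by
      have h2 := Ideal.mul_mem_left _ (algebraMap R B (t : R)) hb
      have h3 : algebraMap R B (t : R) * (algebraMap R B (P ⟨l, hl'⟩) *
          IsLocalization.mk' B a t) = algebraMap R B (P ⟨l, hl'⟩ * a) := by
        rw [map_mul]
        have := IsLocalization.mk'_spec B a t
        calc _ = algebraMap R B (P ⟨l, hl'⟩) * (IsLocalization.mk' B a t *
              algebraMap R B (t : R)) := by ring
          _ = _ := by rw [this]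
      rwa [h3] at h2
    rw [hmap] at h1
    obtain ⟨g, hg, hgm⟩ := h1
    have h4 : P ⟨l, hl'⟩ * (g * a) ∈ locI S (Ideal.span (P '' {k | k < (⟨l, hl'⟩ : Fin i)})) := by
      intro τ hτ
      refine ⟨1, by simp, ?_⟩
      have : 1 * (P ⟨l, hl'⟩ * (g * a)) = g * (P ⟨l, hl'⟩ * a) := by ring
      rw [this]
      exact hgm
    obtain ⟨g', hg', hm'⟩ := hreg ⟨l, hl'⟩ _ h4 σ hσ
    have h5 : algebraMap R B a ∈
        (Ideal.span (P '' {k | k < (⟨l, hl'⟩ : Fin i)})).map (algebraMap R B) := by
      rw [hmap]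
      refine ⟨g' * g, by rw [map_mul]; exact mul_ne_zero hg' hg, ?_⟩
      rw [mul_assoc]
      exact hm'
    have h6 : IsLocalization.mk' B a t = IsLocalization.mk' B 1 t * algebraMap R B a := by
      rw [mul_comm, IsLocalization.mul_mk'_eq_mk'_of_mul, mul_one]
    rw [h6]
    exact Ideal.mul_mem_left _ _ h5
  have hrs2 : ∀ r ∈ rs, r ∈ IsLocalRing.maximalIdeal B := by
    intro r hr
    rw [hrs, List.mem_ofFn] at hr
    obtain ⟨l, rfl⟩ := hr
    rw [hmem]
    exact hP l σ hσ
  have key := not_assoc (B := B) (m + 1) (xs.map (algebraMap R B)) (by simp [hxs]) hxs2 hxs1 rs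
    (by simpa [hrs] using hi) hrs2 hrs1
  apply key
  have hI : Ideal.ofList rs = (Ideal.span (Set.range P)).map (algebraMap R B) := by
    rw [hrs, ofList_all, ← Set.image_univ, hspan, Set.image_univ]
  rw [AssociatedPrimes.mem_iff, isAssociatedPrime_iff]
  refine ⟨(IsLocalRing.maximalIdeal.isMaximal B).isPrime, Ideal.Quotient.mk _ (algebraMap R B f), ?_⟩
  ext b
  rw [Submodule.mem_colon_singleton, Submodule.mem_bot]
  have hb0 : b • (Ideal.Quotient.mk (Ideal.ofList rs)) (algebraMap R B f) =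
      Ideal.Quotient.mk (Ideal.ofList rs) (b * algebraMap R B f) := rfl
  rw [hb0, Ideal.Quotient.eq_zero_iff_mem, hI]
  obtain ⟨a, t, rfl⟩ := IsLocalization.exists_mk'_eq (RingHom.ker σ).primeCompl b
  have ht : σ (t : R) ≠ 0 := by
    intro h
    exact t.2 (by rw [SetLike.mem_coe, RingHom.mem_ker]; exact h)
  have h7 : IsLocalization.mk' B a t ∈ IsLocalRing.maximalIdeal B ↔ a ∈ RingHom.ker σ := by
    rw [IsLocalization.AtPrime.mk'_mem_maximal_iff B (RingHom.ker σ)]
  rw [h7, hf a, mem_locI_singleton, ← hmap]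
  have h8 : IsLocalization.mk' B a t = IsLocalization.mk' B 1 t * algebraMap R B a := by
    rw [mul_comm, IsLocalization.mul_mk'_eq_mk'_of_mul, mul_one]
  have hu : algebraMap R B (t : R) * IsLocalization.mk' B 1 t = 1 := by
    rw [mul_comm, IsLocalization.mk'_spec, map_one]
  constructor
  · intro h
    rw [h8, mul_assoc, ← map_mul]
    exact Ideal.mul_mem_left _ _ h
  · intro h
    have h9 := Ideal.mul_mem_left _ (algebraMap R B (t : R)) h
    have h10 : algebraMap R B (t : R) * (IsLocalization.mk' B a t * algebraMap R B f) =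
        algebraMap R B (a * f) := by
      rw [h8, map_mul]
      calc _ = (algebraMap R B (t : R) * IsLocalization.mk' B 1 t) *
            (algebraMap R B a * algebraMap R B f) := by ring
        _ = _ := by rw [hu, one_mul]
    rwa [h10] at h9

end ZF

/-- (ZF) a regular sequence of length `i < m + 1` at the points of `S`, inside their maximal
ideals, can be prolonged by an element of a subspace `Q` which is not contained in any prime
strictly below one of the maximal ideals -/
theorem reg_extend {R : Type} [CommRing R] [IsDomain R] [Algebra ℂ R] {m N : ℕ} (A : DR R m N)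
    (S : Finset (R →ₐ[ℂ] ℂ)) {i : ℕ} (hi : i < m + 1) (P : Fin i → R)
    (hP : ∀ l, ∀ σ ∈ S, σ (P l) = 0) (hreg : RegAt S P) (Q : Submodule ℂ R)
    (hQ : ∀ σ ∈ S, ∀ q : Ideal R, q.IsPrime → q < RingHom.ker σ → ¬ (Q : Set R) ⊆ q) :
    ∃ p ∈ Q, ∀ f, p * f ∈ locI S (Ideal.span (Set.range P)) →
      f ∈ locI S (Ideal.span (Set.range P)) := by
  classical
  have hft : Algebra.FiniteType ℂ R := by
    refine ⟨⟨Finset.univ.image A.b, ?_⟩⟩
    rw [Finset.coe_image, Finset.coe_univ, Set.image_univ]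
    exact A.gen
  have hno : IsNoetherianRing R := Algebra.FiniteType.isNoetherianRing ℂ R
  set J : Ideal R := Ideal.span (Set.range P) with hJ
  -- the finite set of primes
  let F : Set (Ideal R) := ⋃ σ ∈ S, associatedPrimes R (R ⧸ locI {σ} J)
  have hF : F.Finite := Set.Finite.biUnion (Finset.finite_toSet S)
    (fun σ _ => associatedPrimes.finite R (R ⧸ locI {σ} J))
  have hmain : ∀ q ∈ F, ¬ (Q : Set R) ⊆ q := by
    intro q hq
    simp only [F, Set.mem_iUnion] at hq
    obtain ⟨σ, hσ, hq⟩ := hq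
    rw [AssociatedPrimes.mem_iff, isAssociatedPrime_iff] at hq
    obtain ⟨hqp, x, hx⟩ := hq
    obtain ⟨f, rfl⟩ := Ideal.Quotient.mk_surjective x
    have hmemq : ∀ a, a ∈ q ↔ a * f ∈ locI {σ} J := by
      intro a
      rw [hx, Submodule.mem_colon_singleton, Submodule.mem_bot]
      have : a • (Ideal.Quotient.mk (locI {σ} J)) f = Ideal.Quotient.mk (locI {σ} J) (a * f) := rfl
      rw [this, Ideal.Quotient.eq_zero_iff_mem]
    have hle : q ≤ RingHom.ker σ := by
      intro a ha
      rw [RingHom.mem_ker]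
      by_contra hne
      rw [hmemq, ZF.mem_locI_singleton] at ha
      obtain ⟨g, hg, hga⟩ := ha
      apply hqp.ne_top
      rw [Ideal.eq_top_iff_one, hmemq, ZF.mem_locI_singleton]
      refine ⟨g * a, by rw [map_mul]; exact mul_ne_zero hg hne, ?_⟩
      rw [one_mul, mul_assoc]
      exact hga
    have hne : q ≠ RingHom.ker σ := by
      intro he
      apply ZF.not_ass A S hi P hP hreg σ hσ f
      intro a
      rw [← he]
      exact hmemq a
    exact hQ σ hσ q hqp (lt_of_le_of_ne hle hne)
  -- avoidance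
  have havoid : ∃ p ∈ Q, ∀ q ∈ F, p ∉ q := by
    let Fs : Finset (Subspace ℂ Q) := hF.toFinset.image
      (fun q => (q.restrictScalars ℂ).comap Q.subtype)
    have htop : (⊤ : Subspace ℂ Q) ∉ Fs := by
      intro h
      simp only [Fs, Finset.mem_image, Set.Finite.mem_toFinset] at h
      obtain ⟨q, hq, he⟩ := h
      apply hmain q hq
      intro p hp
      have : (⟨p, hp⟩ : Q) ∈ (q.restrictScalars ℂ).comap Q.subtype := by
        rw [he]
        trivial
      simpa using this
    have h1 := Subspace.biUnion_ne_univ_of_top_notMem htop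
    rw [Set.ne_univ_iff_exists_notMem] at h1
    obtain ⟨p, hp⟩ := h1
    refine ⟨p, p.2, fun q hq hpq => hp ?_⟩
    rw [Set.mem_iUnion₂]
    refine ⟨(q.restrictScalars ℂ).comap Q.subtype, ?_, ?_⟩
    · simp only [Fs, Finset.mem_image, Set.Finite.mem_toFinset]
      exact ⟨q, hq, rfl⟩
    · simpa using hpq
  obtain ⟨p, hpQ, hp⟩ := havoid
  refine ⟨p, hpQ, fun f hf => ?_⟩
  rw [ZF.mem_locI_iff] at hf ⊢
  intro σ hσ
  by_contra hcon
  have hzd : p ∈ ⋃ q ∈ associatedPrimes R (R ⧸ locI {σ} J), (q : Set R) := by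
    rw [biUnion_associatedPrimes_eq_zero_divisors]
    refine ⟨Ideal.Quotient.mk _ f, ?_, ?_⟩
    · intro h
      exact hcon (Ideal.Quotient.eq_zero_iff_mem.1 h)
    · have : p • (Ideal.Quotient.mk (locI {σ} J)) f = Ideal.Quotient.mk (locI {σ} J) (p * f) := rfl
      rw [this, Ideal.Quotient.eq_zero_iff_mem]
      exact hf σ hσ
  rw [Set.mem_iUnion₂] at hzd
  obtain ⟨q, hq, hpq⟩ := hzd
  exact hp q (by simp only [F, Set.mem_iUnion]; exact ⟨σ, hσ, hq⟩) hpq

end Pool.Agent.WW
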