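import Mathlib

/-!
Expansions in a uniformizer of a function field of one variable are algebraic over `ℂ[X]`.
-/

set_option autoImplicit false

namespace Pool.Agent.WW

open Polynomial

/-- if `O` is algebraic over `ℂ[u]` and embeds into `ℂ⟦X⟧` with `X` in the image, then the image
is algebraic over `ℂ[X]` -/
theorem isAlgebraic_expand {O : Type} [CommRing O] [Algebra ℂ O] [Algebra ℂ[X] O]
    [IsScalarTower ℂ ℂ[X] O] (hinj : Function.Injective (algebraMap ℂ[X] O))
    (halg : Algebra.IsAlgebraic ℂ[X] O) (φ : O →ₐ[ℂ] PowerSeries ℂ) (hφ : Function.Injective φ)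
    (t : O) (ht : φ t = PowerSeries.X) (o : O) : IsAlgebraic ℂ[X] (φ o) := by
  set u : PowerSeries ℂ := φ (algebraMap ℂ[X] O X) with hu
  have hw : ∀ p : ℂ[X], φ (algebraMap ℂ[X] O p) = aeval u p := by
    intro p
    have h : φ.comp (IsScalarTower.toAlgHom ℂ ℂ[X] O) = aeval u := by
      refine Polynomial.algHom_ext ?_
      rw [aeval_X]
      rfl
    exact DFunLike.congr_fun h p
  have key : ∀ (o : O) (p : ℂ[X][X]), aevalAeval u (φ o) p = φ (aeval o p) := by
    intro o p
    have h : ((aevalAeval u (φ o) : ℂ[X][X] →ₐ[ℂ] PowerSeries ℂ) : ℂ[X][X] →+* PowerSeries ℂ) =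
        (φ : O →+* PowerSeries ℂ).comp ((aeval o : ℂ[X][X] →ₐ[ℂ[X]] O) : ℂ[X][X] →+* O) := by
      refine Polynomial.ringHom_ext (fun q => ?_) ?_
      · show aevalAeval u (φ o) (C q) = φ (aeval o (C q))
        rw [aevalAeval_C, aeval_C, hw]
      · show aevalAeval u (φ o) (X : ℂ[X][X]) = φ (aeval o X)
        rw [aevalAeval_Y, aeval_X]
    exact DFunLike.congr_fun h p
  have key2 : ∀ (f : PowerSeries ℂ) (p : ℂ[X][X]), aevalAeval PowerSeries.X f p = aeval f p := by
    intro f p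
    have h : ((aevalAeval PowerSeries.X f : ℂ[X][X] →ₐ[ℂ] PowerSeries ℂ) :
        ℂ[X][X] →+* PowerSeries ℂ) = ((aeval f : ℂ[X][X] →ₐ[ℂ[X]] PowerSeries ℂ) :
        ℂ[X][X] →+* PowerSeries ℂ) := by
      refine Polynomial.ringHom_ext (fun q => ?_) ?_
      · show aevalAeval PowerSeries.X f (C q) = aeval f (C q)
        rw [aevalAeval_C, aeval_C]
        have h3 : (aeval (PowerSeries.X : PowerSeries ℂ) : ℂ[X] →ₐ[ℂ] PowerSeries ℂ) =
            IsScalarTower.toAlgHom ℂ ℂ[X] (PowerSeries ℂ) := by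
          refine Polynomial.algHom_ext ?_
          rw [aeval_X]
          show PowerSeries.X = algebraMap ℂ[X] (PowerSeries ℂ) X
          rw [PowerSeries.algebraMap_apply']
          simp
        exact DFunLike.congr_fun h3 q
      · show aevalAeval PowerSeries.X f (X : ℂ[X][X]) = aeval f X
        rw [aevalAeval_Y, aeval_X]
    exact DFunLike.congr_fun h p
  have hu' : IsAlgebraic ℂ[X] u := by
    obtain ⟨p, hp0, hp⟩ := halg.isAlgebraic t
    refine ⟨Bivariate.swap p, ?_, ?_⟩
    · intro h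
      exact hp0 ((map_eq_zero_iff _ (Bivariate.swap (R := ℂ)).injective).mp h)
    · rw [← key2, Bivariate.aevalAeval_swap, ← ht, key, hp, map_zero]
  let A1 := Subalgebra.algebraicClosure ℂ[X] (PowerSeries ℂ)
  let w1 : ℂ[X] →+* A1 := eval₂RingHom ((algebraMap ℂ[X] A1).comp C) ⟨u, hu'⟩
  have hw1 : ∀ p : ℂ[X], ((w1 p : A1) : PowerSeries ℂ) = aeval u p := by
    intro p
    have h : (A1.val : A1 →+* PowerSeries ℂ).comp w1 =
        ((aeval u : ℂ[X] →ₐ[ℂ] PowerSeries ℂ) : ℂ[X] →+* PowerSeries ℂ) := by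
      refine Polynomial.ringHom_ext (fun c => ?_) ?_
      · show ((eval₂ ((algebraMap ℂ[X] A1).comp C) (⟨u, hu'⟩ : A1) (C c) : A1) : PowerSeries ℂ) =
          aeval u (C c)
        rw [eval₂_C, aeval_C]
        show algebraMap ℂ[X] (PowerSeries ℂ) (C c) = _
        exact (IsScalarTower.algebraMap_apply ℂ ℂ[X] (PowerSeries ℂ) c).symm
      · show ((eval₂ ((algebraMap ℂ[X] A1).comp C) (⟨u, hu'⟩ : A1) X : A1) : PowerSeries ℂ) =
          aeval u X
        rw [eval₂_X, aeval_X]
    exact DFunLike.congr_fun h p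
  have hw1i : Function.Injective w1 := by
    intro p q h
    have h1 : aeval u p = aeval u q := by rw [← hw1, ← hw1, h]
    rw [← hw, ← hw] at h1
    exact hinj (hφ h1)
  have h1 : IsAlgebraic A1 (φ o) := by
    obtain ⟨p, hp0, hp⟩ := halg.isAlgebraic o
    refine ⟨p.map w1, (Polynomial.map_ne_zero_iff hw1i).mpr hp0, ?_⟩
    have h2 : aeval (φ o) (p.map w1) = aevalAeval u (φ o) p := by
      have h : ((aevalAeval u (φ o) : ℂ[X][X] →ₐ[ℂ] PowerSeries ℂ) : ℂ[X][X] →+* PowerSeries ℂ) =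
          ((aeval (φ o) : A1[X] →ₐ[A1] PowerSeries ℂ) : A1[X] →+* PowerSeries ℂ).comp
            (mapRingHom w1) := by
        refine Polynomial.ringHom_ext (fun q => ?_) ?_
        · show aevalAeval u (φ o) (C q) = aeval (φ o) ((C q).map w1)
          rw [aevalAeval_C, map_C, aeval_C, ← hw1]
          rfl
        · show aevalAeval u (φ o) (X : ℂ[X][X]) = aeval (φ o) ((X : ℂ[X][X]).map w1)
          rw [aevalAeval_Y, map_X, aeval_X]
      exact (DFunLike.congr_fun h p).symm
    rw [h2, key, hp, map_zero]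
  exact h1.restrictScalars ℂ[X]

end Pool.Agent.WW
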