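import Pool.Agent.WW.ZGc
import Pool.Agent.WW.ZGt

/-!
Formal arcs on algebraic curves: a domain that is finite over `ℂ[X]` embeds into `ℂ⟦X⟧` with a
given center.
-/

set_option autoImplicit false

namespace Pool.Agent.WW

open Polynomial

attribute [local instance] FractionRing.liftAlgebra

/-- (ZG b) a domain that is finite over `ℂ[X]` embeds into `ℂ⟦X⟧` with a given center -/
theorem exists_curve_arc {B : Type} [CommRing B] [IsDomain B] [Algebra ℂ B] [Algebra ℂ[X] B]
    [IsScalarTower ℂ ℂ[X] B] (hinj : Function.Injective (algebraMap ℂ[X] B)) [Module.Finite ℂ[X] B]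
    (σ : B →ₐ[ℂ] ℂ) :
    ∃ φ : B →ₐ[ℂ] PowerSeries ℂ, Function.Injective φ ∧
      (∀ f, PowerSeries.constantCoeff (φ f) = σ f) ∧ ∀ f, IsAlgebraic ℂ[X] (φ f) := by
  classical
  have htf : Module.IsTorsionFree ℂ[X] B := by
    rw [← faithfulSMul_iff_algebraMap_injective] at hinj
    infer_instance
  have hfs : FaithfulSMul ℂ[X] B := (faithfulSMul_iff_algebraMap_injective _ _).mpr hinj
  let K := FractionRing B
  let F := FractionRing ℂ[X]
  have hfd : FiniteDimensional F K := inferInstance
  let C' := integralClosure ℂ[X] K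
  have hded : IsDedekindDomain C' := inferInstance
  have hint : Algebra.IsIntegral ℂ[X] B := inferInstance
  -- the inclusion of `B`
  let i : B →+* C' := (algebraMap B K).codRestrict C'.toSubring fun f => by
    have h1 : IsIntegral ℂ[X] f := hint.isIntegral f
    exact h1.algebraMap
  let _ : Algebra B C' := i.toAlgebra
  have hiK : ∀ f : B, ((algebraMap B C' f : C') : K) = algebraMap B K f := fun f => rfl
  have : IsScalarTower ℂ[X] B C' := IsScalarTower.of_algebraMap_eq fun r => by
    apply Subtype.ext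
    rw [hiK, ← IsScalarTower.algebraMap_apply]
    rfl
  have hintC : Algebra.IsIntegral ℂ[X] C' := inferInstance
  have : Algebra.IsIntegral B C' := ⟨fun c => (hintC.isIntegral c).tower_top⟩
  have hiinj : Function.Injective (algebraMap B C') := by
    intro f g h
    have h1 := congrArg (fun c : C' => (c : K)) h
    simp only [hiK] at h1
    exact IsFractionRing.injective B K h1
  have hσs : Function.Surjective σ := fun c => ⟨algebraMap ℂ B c, by rw [AlgHom.commutes]; rfl⟩
  have hmax : (RingHom.ker σ).IsMaximal := RingHom.ker_isMaximal_of_surjective σ hσs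
  obtain ⟨M, hM, hMc⟩ := Ideal.exists_ideal_over_maximal_of_isIntegral (S := C') (RingHom.ker σ)
    (by rw [(RingHom.injective_iff_ker_eq_bot _).mp hiinj]; exact bot_le)
  have hMne : M ≠ ⊥ := by
    intro h
    rw [h] at hMc
    have h1 : RingHom.ker σ = ⊥ := by
      rw [← hMc]
      exact (RingHom.injective_iff_ker_eq_bot _).mp hiinj
    set c : ℂ := σ (algebraMap ℂ[X] B X) with hc
    have h2 : algebraMap ℂ[X] B (X - C c) ∈ RingHom.ker σ := by
      rw [RingHom.mem_ker, map_sub, map_sub, ← hc]
      have h3 : algebraMap ℂ[X] B (C c) = algebraMap ℂ B c :=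
        (IsScalarTower.algebraMap_apply ℂ ℂ[X] B c).symm
      rw [h3, AlgHom.commutes]
      exact sub_self _
    rw [h1, Ideal.mem_bot] at h2
    have h4 : (X - C c : ℂ[X]) = 0 := hinj (by rw [h2, map_zero])
    exact X_sub_C_ne_zero c h4
  have hMp : M.IsPrime := hM.isPrime
  have hsc : IsScalarTower ℂ B C' := IsScalarTower.of_algebraMap_eq fun r => by
    apply Subtype.ext
    rw [hiK, ← IsScalarTower.algebraMap_apply]
    rfl
  let k := C' ⧸ M
  let _ : Field k := Ideal.Quotient.field M
  have hmk : ∀ f : B, Ideal.Quotient.mk M (algebraMap B C' f) = algebraMap ℂ k (σ f) := by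
    intro f
    have h1 : f - algebraMap ℂ B (σ f) ∈ RingHom.ker σ := by
      rw [RingHom.mem_ker, map_sub, AlgHom.commutes]
      exact sub_self _
    rw [← hMc, Ideal.mem_comap, map_sub] at h1
    have h2 := Ideal.Quotient.eq.mpr h1
    rw [h2, ← IsScalarTower.algebraMap_apply ℂ B C']
    rfl
  have hk : Algebra.IsIntegral ℂ k := by
    constructor
    intro c
    obtain ⟨c, rfl⟩ := Ideal.Quotient.mk_surjective c
    obtain ⟨p, hp, hpc⟩ := hintC.isIntegral c
    refine ⟨p.map ((σ : B →+* ℂ).comp (algebraMap ℂ[X] B)), hp.map _, ?_⟩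
    rw [eval₂_map]
    have h1 : (algebraMap ℂ k).comp ((σ : B →+* ℂ).comp (algebraMap ℂ[X] B)) =
        (Ideal.Quotient.mk M).comp (algebraMap ℂ[X] C') := by
      refine RingHom.ext fun a => ?_
      show algebraMap ℂ k (σ (algebraMap ℂ[X] B a)) = Ideal.Quotient.mk M (algebraMap ℂ[X] C' a)
      rw [← hmk, ← IsScalarTower.algebraMap_apply ℂ[X] B C']
    rw [h1, ← hom_eval₂, hpc, map_zero]
  have hbij := IsAlgClosed.algebraMap_bijective_of_isIntegral (k := ℂ) (K := k)
  let e : ℂ ≃ₐ[ℂ] k := AlgEquiv.ofBijective (Algebra.ofId ℂ k) hbij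
  let ρ : C' →ₐ[ℂ] ℂ := (e.symm : k →ₐ[ℂ] ℂ).comp (Ideal.Quotient.mkₐ ℂ M)
  have hρ : ∀ f : B, ρ (algebraMap B C' f) = σ f := by
    intro f
    show e.symm (Ideal.Quotient.mk M (algebraMap B C' f)) = σ f
    rw [hmk]
    exact e.symm_apply_apply (σ f)
  have hρM : ∀ c : C', c ∉ M → IsUnit (ρ c) := by
    intro c hc
    rw [isUnit_iff_ne_zero]
    intro h
    have h1 : Ideal.Quotient.mk M c = 0 := by
      have h2 : e.symm (Ideal.Quotient.mk M c) = 0 := h
      exact (map_eq_zero_iff e.symm e.symm.injective).mp h2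
    exact hc (Ideal.Quotient.eq_zero_iff_mem.mp h1)
  let O := Localization.AtPrime M
  have hO : IsDiscreteValuationRing O :=
    IsLocalization.AtPrime.isDiscreteValuationRing_of_dedekind_domain C' hMne O
  let π : O →ₐ[ℂ] ℂ := IsLocalization.liftAlgHom (M := M.primeCompl) (S := O) (f := ρ)
    fun y => hρM y y.2
  have hπ : ∀ c : C', π (algebraMap C' O c) = ρ c := fun c => IsLocalization.lift_eq _ c
  have hπs : Function.Surjective π := fun c => ⟨algebraMap ℂ O c, by rw [AlgHom.commutes]; rfl⟩
  have hπk : RingHom.ker π = IsLocalRing.maximalIdeal O :=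
    IsLocalRing.eq_maximalIdeal (RingHom.ker_isMaximal_of_surjective π hπs)
  have hdomO : IsDomain O := inferInstance
  obtain ⟨φ, hφi, hφc, t, ht⟩ := exists_expand (O := O) π hπk
  have hCO : Function.Injective (algebraMap C' O) :=
    IsLocalization.injective O M.primeCompl_le_nonZeroDivisors
  refine ⟨φ.comp ((IsScalarTower.toAlgHom ℂ C' O).comp (IsScalarTower.toAlgHom ℂ B C')),
    ?_, ?_, ?_⟩
  · intro f g h
    exact hiinj (hCO (hφi h))
  · intro f
    show PowerSeries.constantCoeff (φ (algebraMap C' O (algebraMap B C' f))) = σ f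
    rw [hφc, hπ, hρ]
  · intro f
    have halgO : Algebra.IsAlgebraic ℂ[X] O := by
      have h1 : Algebra.IsAlgebraic C' O := IsLocalization.isAlgebraic O M.primeCompl
      exact Algebra.IsAlgebraic.trans ℂ[X] C' O
    have hinjO : Function.Injective (algebraMap ℂ[X] O) := by
      rw [IsScalarTower.algebraMap_eq ℂ[X] C' O, IsScalarTower.algebraMap_eq ℂ[X] B C']
      exact hCO.comp (hiinj.comp hinj)
    exact isAlgebraic_expand hinjO halgO φ hφi t ht _

end Pool.Agent.WW
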