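import Pool.Agent.WW.ZDefs
import Pool.Agent.WW.ZGb

set_option autoImplicit false

namespace Pool.Agent.WW

open Polynomial

/-- curve case with the prime over a line: `B` finite over a polynomial ring in `s` variables -/
theorem exists_arc_aux {B : Type} [CommRing B] [IsDomain B] [Algebra ℂ B] [Algebra.FiniteType ℂ B]
    (σ : B →ₐ[ℂ] ℂ) (hlt : (⊥ : Ideal B) < RingHom.ker σ) :
    ∃ ψ : B →ₐ[ℂ] PowerSeries ℂ, Centered σ ψ ∧ NonConst σ ψ ∧ Thin ψ := by
  classical
  obtain ⟨s, g, hgi, hgf⟩ := exists_finite_inj_algHom_of_fg ℂ B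
  let A := MvPolynomial (Fin s) ℂ
  let _ : Algebra A B := g.toRingHom.toAlgebra
  have hAB : ∀ a : A, algebraMap A B a = g a := fun a => rfl
  have hfin : Module.Finite A B := hgf
  have hint : Algebra.IsIntegral A B := inferInstance
  have hfs : FaithfulSMul A B := (faithfulSMul_iff_algebraMap_injective _ _).mpr hgi
  have hσs : Function.Surjective σ := fun c => ⟨algebraMap ℂ B c, by rw [AlgHom.commutes]; rfl⟩
  have hmax : (RingHom.ker σ).IsMaximal := RingHom.ker_isMaximal_of_surjective σ hσs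
  have hmaxp : (RingHom.ker σ).IsPrime := hmax.isPrime
  -- the number of variables is positive
  have hs : s ≠ 0 := by
    rintro rfl
    have hCB : Algebra.IsIntegral ℂ B := by
      constructor
      intro b
      have h1 : IsIntegral A b := hint.isIntegral b
      obtain ⟨p, hp, hpb⟩ := h1
      let e := MvPolynomial.isEmptyAlgEquiv ℂ (Fin 0)
      refine ⟨p.map (e : A →+* ℂ), hp.map _, ?_⟩
      rw [eval₂_map]
      have h2 : (algebraMap ℂ B).comp (e : A →+* ℂ) = algebraMap A B := by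
        refine RingHom.ext fun a => ?_
        obtain ⟨c, rfl⟩ := e.symm.surjective a
        show algebraMap ℂ B (e (e.symm c)) = g (e.symm c)
        rw [e.apply_symm_apply]
        have h3 : e.symm c = algebraMap ℂ A c := e.symm.commutes c
        rw [h3, AlgHom.commutes]
      rw [h2, hpb]
    have hinj := IsAlgClosed.algebraMap_bijective_of_isIntegral (k := ℂ) (K := B)
    obtain ⟨b, hb, hb0⟩ := Set.exists_of_ssubset (show ((⊥ : Ideal B) : Set B) ⊂ RingHom.ker σ from hlt)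
    obtain ⟨c, rfl⟩ := hinj.2 b
    have h4 : σ (algebraMap ℂ B c) = 0 := hb
    rw [AlgHom.commutes] at h4
    have h5 : c = 0 := h4
    exact hb0 (by rw [h5, map_zero]; exact Submodule.zero_mem _)
  obtain ⟨d, rfl⟩ := Nat.exists_eq_succ_of_ne_zero hs
  -- the line through the point
  let a : Fin (d + 1) → ℂ := fun i => σ (g (MvPolynomial.X i))
  let ℓ : A →ₐ[ℂ] ℂ[X] := MvPolynomial.aeval fun i => if i = 0 then X else C (a i)
  have hℓ0 : ℓ (MvPolynomial.X 0) = X := (MvPolynomial.aeval_X _ _).trans (if_pos rfl)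
  have hℓi : ∀ i, i ≠ 0 → ℓ (MvPolynomial.X i) = C (a i) := fun i hi =>
    (MvPolynomial.aeval_X _ _).trans (if_neg hi)
  let p : Ideal A := RingHom.ker ℓ
  have hpp : p.IsPrime := RingHom.ker_isPrime ℓ
  let n : Ideal A := (RingHom.ker σ).under A
  have hnp : n.IsPrime := inferInstance
  have hLO : (RingHom.ker σ).LiesOver n := ⟨rfl⟩
  have hσℓ : ∀ f : A, σ (g f) = eval (a 0) (ℓ f) := by
    intro f
    have h : σ.comp g = (aeval (a 0) : ℂ[X] →ₐ[ℂ] ℂ).comp ℓ := by
      refine MvPolynomial.algHom_ext fun i => ?_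
      show σ (g (MvPolynomial.X i)) = aeval (a 0) (ℓ (MvPolynomial.X i))
      by_cases hi : i = 0
      · rw [hi, hℓ0, aeval_X]
      · rw [hℓi i hi, aeval_C]
        rfl
    have h1 := DFunLike.congr_fun h f
    rw [← coe_aeval_eq_eval]
    exact h1
  have hpn : p < n := by
    refine lt_of_le_of_ne ?_ ?_
    · intro f hf
      have h1 : ℓ f = 0 := hf
      show σ (g f) = 0
      rw [hσℓ, h1, eval_zero]
    · intro h
      have h1 : (MvPolynomial.X 0 - MvPolynomial.C (a 0) : A) ∈ n := by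
        show σ (g (MvPolynomial.X 0 - MvPolynomial.C (a 0))) = 0
        rw [hσℓ, map_sub, hℓ0]
        have h2 : ℓ (MvPolynomial.C (a 0)) = C (a 0) := ℓ.commutes (a 0)
        rw [h2, eval_sub, eval_X, eval_C, sub_self]
      rw [← h] at h1
      have h3 : ℓ (MvPolynomial.X 0 - MvPolynomial.C (a 0)) = 0 := h1
      have h2 : ℓ (MvPolynomial.C (a 0)) = C (a 0) := ℓ.commutes (a 0)
      rw [map_sub, hℓ0, h2] at h3
      exact X_sub_C_ne_zero (a 0) h3
  obtain ⟨P, hPlt, hPp, hPo⟩ := Ideal.exists_ideal_lt_liesOver_of_lt (RingHom.ker σ) hpn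
  let D := B ⧸ P
  have hD : IsDomain D := inferInstance
  let h : A →ₐ[ℂ] D := (Ideal.Quotient.mkₐ ℂ P).comp g
  have hker : ∀ f : A, h f = 0 ↔ ℓ f = 0 := by
    intro f
    have h1 : f ∈ p ↔ g f ∈ P := by
      rw [hPo.over]
      exact Iff.rfl
    have h2 : h f = 0 ↔ g f ∈ P := Ideal.Quotient.eq_zero_iff_mem
    rw [h2, ← h1]
    exact Iff.rfl
  let j : ℂ[X] →ₐ[ℂ] D := aeval (h (MvPolynomial.X 0))
  have hjℓ : j.comp ℓ = h := by
    refine MvPolynomial.algHom_ext fun i => ?_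
    show j (ℓ (MvPolynomial.X i)) = h (MvPolynomial.X i)
    by_cases hi : i = 0
    · rw [hi, hℓ0]
      exact aeval_X _
    · rw [hℓi i hi]
      have h1 : ℓ (MvPolynomial.X i - MvPolynomial.C (a i)) = 0 := by
        have h2 : ℓ (MvPolynomial.C (a i)) = C (a i) := ℓ.commutes (a i)
        rw [map_sub, hℓi i hi, h2, sub_self]
      have h3 := (hker _).mpr h1
      rw [map_sub, sub_eq_zero] at h3
      rw [h3]
      have h4 : j (C (a i)) = algebraMap ℂ D (a i) := j.commutes (a i)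
      have h5 : h (MvPolynomial.C (a i)) = algebraMap ℂ D (a i) := h.commutes (a i)
      rw [h4, h5]
  have hji : Function.Injective j := by
    rw [injective_iff_map_eq_zero]
    intro f hf
    have h1 : ℓ (aeval (MvPolynomial.X 0 : A) f) = f := by
      have h2 : ℓ.comp (aeval (MvPolynomial.X 0 : A) : ℂ[X] →ₐ[ℂ] A) = AlgHom.id ℂ ℂ[X] := by
        refine Polynomial.algHom_ext ?_
        show ℓ (aeval (MvPolynomial.X 0 : A) X) = X
        rw [aeval_X, hℓ0]
      exact DFunLike.congr_fun h2 f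
    have h3 : h (aeval (MvPolynomial.X 0 : A) f) = 0 := by
      rw [← hjℓ]
      show j (ℓ _) = 0
      rw [h1, hf]
    have h4 := (hker _).mp h3
    rw [h1] at h4
    exact h4
  have hjf : j.toRingHom.Finite := by
    have h1 : (h.toRingHom).Finite := by
      have h2 : ((Ideal.Quotient.mkₐ ℂ P).toRingHom).Finite :=
        RingHom.Finite.of_surjective _ Ideal.Quotient.mk_surjective
      exact h2.comp hgf
    have h3 : (j.toRingHom.comp ℓ.toRingHom).Finite := by
      have h4 : j.toRingHom.comp ℓ.toRingHom = h.toRingHom := by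
        rw [← hjℓ]
        rfl
      rw [h4]
      exact h1
    exact RingHom.Finite.of_comp_finite h3
  let _ : Algebra ℂ[X] D := j.toRingHom.toAlgebra
  have hjst : IsScalarTower ℂ ℂ[X] D := IsScalarTower.of_algebraMap_eq fun r => (j.commutes r).symm
  have hjM : Module.Finite ℂ[X] D := hjf
  let σ' : D →ₐ[ℂ] ℂ := Ideal.Quotient.liftₐ P σ fun f hf => hPlt.le hf
  obtain ⟨φ, hφi, hφc, hφt⟩ := exists_curve_arc (B := D) hji σ'
  refine ⟨φ.comp (Ideal.Quotient.mkₐ ℂ P), ?_, ?_, ?_⟩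
  · intro f
    exact hφc _
  · obtain ⟨b, hb, hbP⟩ := Set.exists_of_ssubset (show (P : Set B) ⊂ RingHom.ker σ from hPlt)
    refine ⟨b, fun hc => hbP ?_⟩
    have h1 : σ b = 0 := hb
    rw [h1, map_zero] at hc
    have h2 : φ (Ideal.Quotient.mk P b) = 0 := hc
    have h3 := (injective_iff_map_eq_zero φ).mp hφi _ h2
    exact Ideal.Quotient.eq_zero_iff_mem.mp h3
  · intro f
    exact hφt _

/-- (ZG) arcs in algebraic curves through a point, inside the zero set of a prime -/
theorem exists_arc {R : Type} [CommRing R] [IsDomain R] [Algebra ℂ R] [Algebra.FiniteType ℂ R]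
    (σ : R →ₐ[ℂ] ℂ) (q : Ideal R) (hq : q.IsPrime) (hlt : q < RingHom.ker σ) :
    ∃ ψ : R →ₐ[ℂ] PowerSeries ℂ, Centered σ ψ ∧ NonConst σ ψ ∧ Thin ψ ∧ ∀ f ∈ q, ψ f = 0 := by
  let B := R ⧸ q
  let σ' : B →ₐ[ℂ] ℂ := Ideal.Quotient.liftₐ q σ fun f hf => hlt.le hf
  have hσ' : ∀ f, σ' (Ideal.Quotient.mk q f) = σ f := fun f => rfl
  have hlt' : (⊥ : Ideal B) < RingHom.ker σ' := by
    refine bot_lt_iff_ne_bot.mpr fun h => ?_
    obtain ⟨b, hb, hbq⟩ := Set.exists_of_ssubset (show (q : Set R) ⊂ RingHom.ker σ from hlt)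
    have h1 : Ideal.Quotient.mk q b ∈ RingHom.ker σ' := by
      rw [RingHom.mem_ker, hσ']
      exact hb
    rw [h, Ideal.mem_bot] at h1
    exact hbq (Ideal.Quotient.eq_zero_iff_mem.mp h1)
  obtain ⟨ψ, h1, h2, h3⟩ := exists_arc_aux σ' hlt'
  refine ⟨ψ.comp (Ideal.Quotient.mkₐ ℂ q), ?_, ?_, ?_, ?_⟩
  · intro f
    exact h1 _
  · obtain ⟨b, hb⟩ := h2
    obtain ⟨f, rfl⟩ := Ideal.Quotient.mk_surjective b
    exact ⟨f, hb⟩
  · intro f
    exact h3 _
  · intro f hf
    have h4 : Ideal.Quotient.mk q f = 0 := Ideal.Quotient.eq_zero_iff_mem.mpr hf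
    show ψ (Ideal.Quotient.mk q f) = 0
    rw [h4, map_zero]

end Pool.Agent.WW
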