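import Mathlib

/-!
Expansion of the elements of a discrete valuation ring with residue field `ℂ` in a uniformizer.
-/

set_option autoImplicit false

namespace Pool.Agent.WW

namespace ZGc

noncomputable section

variable {O : Type} [CommRing O] [IsDomain O] [Algebra ℂ O]
  (π : O →ₐ[ℂ] ℂ) (t : O) (ht0 : t ≠ 0) (ht : RingHom.ker π = Ideal.span {t})

include ht in
theorem exists_S (f : O) : ∃ g : O, f = algebraMap ℂ O (π f) + t * g := by
  have h : f - algebraMap ℂ O (π f) ∈ RingHom.ker π := by
    rw [RingHom.mem_ker, map_sub, AlgHom.commutes]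
    exact sub_self _
  rw [ht, Ideal.mem_span_singleton] at h
  obtain ⟨g, hg⟩ := h
  exact ⟨g, by rw [← hg]; ring⟩

/-- shift of the expansion -/
def S (f : O) : O := Classical.choose (exists_S π t ht f)

theorem S_spec (f : O) : f = algebraMap ℂ O (π f) + t * S π t ht f :=
  Classical.choose_spec (exists_S π t ht f)

include ht0 in
theorem S_unique (f g : O) (c : ℂ) (h : f = algebraMap ℂ O c + t * g) : S π t ht f = g := by
  have htk : π t = 0 := by
    have : t ∈ RingHom.ker π := by rw [ht]; exact Ideal.mem_span_singleton_self t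
    exact this
  have hc : π f = c := by
    rw [h, map_add, map_mul, AlgHom.commutes, htk, zero_mul, add_zero]; rfl
  have h1 := S_spec π t ht f
  rw [hc] at h1
  have h2 : t * S π t ht f = t * g := by
    have := h1.symm.trans h
    exact add_left_cancel this
  exact mul_left_cancel₀ ht0 h2

/-- the expansion -/
def ex (f : O) : PowerSeries ℂ := PowerSeries.mk fun n => π ((S π t ht)^[n] f)

theorem ex_eq (f : O) : ex π t ht f = PowerSeries.C (π f) + PowerSeries.X * ex π t ht (S π t ht f) := by
  ext n
  rcases n with _ | n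
  · simp [ex]
  · rw [map_add, PowerSeries.coeff_succ_X_mul, PowerSeries.coeff_C, if_neg (Nat.succ_ne_zero n),
      zero_add]
    simp only [ex, PowerSeries.coeff_mk]
    rw [Function.iterate_succ_apply]

include ht0 in
theorem S_add (f g : O) : S π t ht (f + g) = S π t ht f + S π t ht g := by
  refine S_unique π t ht0 ht _ _ (π f + π g) ?_
  conv_lhs => rw [S_spec π t ht f, S_spec π t ht g]
  rw [map_add]; ring

include ht0 in
theorem S_smul (c : ℂ) (f : O) : S π t ht (c • f) = c • S π t ht f := by
  refine S_unique π t ht0 ht _ _ (c * π f) ?_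
  conv_lhs => rw [S_spec π t ht f]
  rw [map_mul, Algebra.smul_def, Algebra.smul_def]; ring

include ht0 in
theorem ex_add (f g : O) : ex π t ht (f + g) = ex π t ht f + ex π t ht g := by
  have h : ∀ n, ∀ f g : O, (S π t ht)^[n] (f + g) = (S π t ht)^[n] f + (S π t ht)^[n] g := by
    intro n
    induction n with
    | zero => intro f g; rfl
    | succ n ih =>
      intro f g
      rw [Function.iterate_succ_apply, Function.iterate_succ_apply, Function.iterate_succ_apply,
        S_add π t ht0 ht, ih]
  ext n
  rw [map_add]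
  simp only [ex, PowerSeries.coeff_mk]
  rw [h, map_add]

include ht0 in
theorem ex_smul (c : ℂ) (f : O) : ex π t ht (c • f) = c • ex π t ht f := by
  have h : ∀ n, ∀ f : O, (S π t ht)^[n] (c • f) = c • (S π t ht)^[n] f := by
    intro n
    induction n with
    | zero => intro f; rfl
    | succ n ih =>
      intro f
      rw [Function.iterate_succ_apply, Function.iterate_succ_apply, S_smul π t ht0 ht, ih]
  ext n
  rw [map_smul]
  simp only [ex, PowerSeries.coeff_mk]
  rw [h, map_smul]

include ht0 in
theorem ex_mul_t (f : O) : ex π t ht (t * f) = PowerSeries.X * ex π t ht f := by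
  have htk : π (t * f) = 0 := by
    have : t ∈ RingHom.ker π := by rw [ht]; exact Ideal.mem_span_singleton_self t
    rw [map_mul, show π t = 0 from this, zero_mul]
  rw [ex_eq, htk, map_zero, zero_add, S_unique π t ht0 ht (t * f) f 0 (by rw [map_zero, zero_add])]

include ht0 in
theorem ex_mul (f g : O) : ex π t ht (f * g) = ex π t ht f * ex π t ht g := by
  have h : ∀ n, ∀ f g : O, PowerSeries.coeff n (ex π t ht (f * g)) =
      PowerSeries.coeff n (ex π t ht f * ex π t ht g) := by
    have key : ∀ f g : O, ex π t ht (f * g) =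
        π f • ex π t ht g + PowerSeries.X * ex π t ht (S π t ht f * g) := by
      intro f g
      have e : f * g = π f • g + t * (S π t ht f * g) := by
        conv_lhs => rw [S_spec π t ht f]
        rw [Algebra.smul_def]; ring
      conv_lhs => rw [e]
      rw [ex_add π t ht0 ht, ex_smul π t ht0 ht, ex_mul_t π t ht0 ht]
    have key2 : ∀ f g : O, ex π t ht f * ex π t ht g =
        π f • ex π t ht g + PowerSeries.X * (ex π t ht (S π t ht f) * ex π t ht g) := by
      intro f g
      conv_lhs => rw [ex_eq π t ht f]
      rw [PowerSeries.smul_eq_C_mul]; ring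
    intro n
    induction n with
    | zero =>
      intro f g
      rw [key, key2]
      simp
    | succ n ih =>
      intro f g
      rw [key, key2, map_add, map_add, PowerSeries.coeff_succ_X_mul, PowerSeries.coeff_succ_X_mul,
        ih]
  ext n
  exact h n f g

include ht0 in
theorem ex_alg (c : ℂ) : ex π t ht (algebraMap ℂ O c) = PowerSeries.C c := by
  have h0 : ex π t ht (0 : O) = 0 := by
    have := ex_smul π t ht0 ht 0 (0 : O)
    rwa [zero_smul, zero_smul] at this
  rw [ex_eq, S_unique π t ht0 ht _ 0 c (by rw [mul_zero, add_zero]), h0, mul_zero, add_zero,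
    AlgHom.commutes]
  rfl

/-- the expansion as an algebra homomorphism -/
def exHom : O →ₐ[ℂ] PowerSeries ℂ where
  toFun := ex π t ht
  map_one' := by
    have := ex_alg π t ht0 ht 1
    rwa [map_one, map_one] at this
  map_mul' := ex_mul π t ht0 ht
  map_zero' := by
    have := ex_alg π t ht0 ht 0
    rwa [map_zero, map_zero] at this
  map_add' := ex_add π t ht0 ht
  commutes' := fun c => ex_alg π t ht0 ht c

end

end ZGc

/-- a discrete valuation ring over `ℂ` with residue field `ℂ` embeds into `ℂ⟦X⟧` -/
theorem exists_expand {O : Type} [CommRing O] [IsDomain O] [IsDiscreteValuationRing O]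
    [Algebra ℂ O] (π : O →ₐ[ℂ] ℂ) (hπ : RingHom.ker π = IsLocalRing.maximalIdeal O) :
    ∃ φ : O →ₐ[ℂ] PowerSeries ℂ, Function.Injective φ ∧
      (∀ f, PowerSeries.constantCoeff (φ f) = π f) ∧ ∃ t : O, φ t = PowerSeries.X := by
  obtain ⟨t, ht⟩ := IsDiscreteValuationRing.exists_irreducible O
  have ht0 : t ≠ 0 := ht.ne_zero
  have hk : RingHom.ker π = Ideal.span {t} := by
    rw [hπ]; exact ht.maximalIdeal_eq
  have hcc : ∀ f, PowerSeries.constantCoeff (ZGc.exHom π t ht0 hk f) = π f := by
    intro f
    show PowerSeries.constantCoeff (ZGc.ex π t hk f) = π f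
    rw [ZGc.ex_eq]
    simp
  have htX : ZGc.exHom π t ht0 hk t = PowerSeries.X := by
    have h := ZGc.ex_mul_t π t ht0 hk 1
    rw [mul_one] at h
    have h1 : ZGc.ex π t hk 1 = 1 := map_one (ZGc.exHom π t ht0 hk)
    rw [h1, mul_one] at h
    exact h
  refine ⟨ZGc.exHom π t ht0 hk, ?_, hcc, t, htX⟩
  rw [injective_iff_map_eq_zero]
  intro f hf
  by_contra hne
  obtain ⟨n, u, hu⟩ := IsDiscreteValuationRing.eq_unit_mul_pow_irreducible hne ht
  rw [hu, map_mul, map_pow, htX] at hf
  rcases mul_eq_zero.mp hf with h | h
  · have h1 := hcc (u : O)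
    rw [h, map_zero] at h1
    have h2 : (u : O) ∈ RingHom.ker π := h1.symm
    rw [hπ] at h2
    exact (IsLocalRing.mem_maximalIdeal _).mp h2 u.isUnit
  · exact pow_ne_zero n PowerSeries.X_ne_zero h

end Pool.Agent.WW
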