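import Pool.Agent.WW.ZDefs

set_option autoImplicit false

namespace Pool.Agent.WW

namespace ZH

open MvPolynomial

variable {R : Type} [CommRing R] [Algebra ℂ R] {m N : ℕ}

theorem dw_append (A : DR R m N) (l : List (Fin (m + 1))) (i : Fin (m + 1)) (f : R) :
    A.dw (l ++ [i]) f = A.dw l (A.d i f) := by
  induction l with
  | nil => rfl
  | cons j l ih =>
    simp only [List.cons_append, DR.dw, LinearMap.comp_apply]
    rw [ih]

theorem vw_append (A : DR R m N) (l : List (Fin m)) (i : Fin m) (f : R) :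
    A.vw (l ++ [i]) f = A.vw l (A.d i.castSucc f) := by
  unfold DR.vw
  rw [List.map_append]
  exact dw_append A _ _ f

theorem vw_nil (A : DR R m N) (f : R) : A.vw [] f = f := rfl

variable {A : DR R m N} {σ : R →ₐ[ℂ] ℂ}

theorem vord_mono {s t : ℕ} (h : s ≤ t) {f : R} (hf : A.VOrd σ t f) : A.VOrd σ s f :=
  fun l hl => hf l (hl.trans_le h)

theorem vord_zero (f : R) : A.VOrd σ 0 f := fun l hl => absurd hl (by simp)

theorem vord_succ {t : ℕ} {f : R} :
    A.VOrd σ (t + 1) f ↔ σ f = 0 ∧ ∀ i : Fin m, A.VOrd σ t (A.d i.castSucc f) := by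
  constructor
  · intro h
    refine ⟨?_, ?_⟩
    · have h2 := h [] (by simp)
      rwa [vw_nil] at h2
    · intro i l hl
      have h2 := h (l ++ [i]) (by simp; omega)
      rwa [vw_append] at h2
  · rintro ⟨h0, h1⟩ l hl
    rcases List.eq_nil_or_concat l with rfl | ⟨l', i, rfl⟩
    · rw [vw_nil]; exact h0
    · rw [List.concat_eq_append, vw_append]
      apply h1 i
      rw [List.concat_eq_append] at hl
      simp at hl
      omega

theorem vord_add {t : ℕ} {f g : R} (hf : A.VOrd σ t f) (hg : A.VOrd σ t g) :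
    A.VOrd σ t (f + g) := by
  intro l hl
  rw [map_add, map_add, hf l hl, hg l hl, add_zero]

theorem vord_mul (n : ℕ) : ∀ (s t : ℕ) (f g : R), s + t = n → A.VOrd σ s f → A.VOrd σ t g →
    A.VOrd σ n (f * g) := by
  induction n with
  | zero => intro s t f g _ _ _; exact vord_zero _
  | succ n ih =>
    intro s t f g hst hf hg
    rw [vord_succ]
    refine ⟨?_, ?_⟩
    · rw [map_mul]
      rcases Nat.eq_zero_or_pos s with hs | hs
      · have : 0 < t := by omega
        have h2 := hg [] (by simpa using this)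
        rw [vw_nil] at h2
        rw [h2, mul_zero]
      · have h2 := hf [] (by simpa using hs)
        rw [vw_nil] at h2
        rw [h2, zero_mul]
    · intro i
      have e : A.d i.castSucc (f * g) = f * A.d i.castSucc g + g * A.d i.castSucc f := by
        rw [Derivation.leibniz]; rfl
      rw [e]
      apply vord_add
      · rcases Nat.eq_zero_or_pos t with ht | ht
        · exact ih n 0 f _ (by omega) (vord_mono (by omega) hf) (vord_zero _)
        · obtain ⟨t', rfl⟩ : ∃ t', t = t' + 1 := ⟨t - 1, by omega⟩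
          exact ih s t' f _ (by omega) hf ((vord_succ.1 hg).2 i)
      · rcases Nat.eq_zero_or_pos s with hs | hs
        · exact ih n 0 g _ (by omega) (vord_mono (by omega) hg) (vord_zero _)
        · obtain ⟨s', rfl⟩ : ∃ s', s = s' + 1 := ⟨s - 1, by omega⟩
          exact ih t s' g _ (by omega) hg ((vord_succ.1 hf).2 i)

/-- the ideal of elements vanishing to order `t` at `σ` in the directions of `V` -/
def ordI (A : DR R m N) (σ : R →ₐ[ℂ] ℂ) (t : ℕ) : Ideal R where
  carrier := {f | A.VOrd σ t f}
  zero_mem' := fun l _ => by rw [map_zero, map_zero]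
  add_mem' := fun hf hg => vord_add hf hg
  smul_mem' := fun c f hf => by
    rw [smul_eq_mul]
    exact vord_mul t 0 t c f (by omega) (vord_zero _) hf

theorem mem_ordI {t : ℕ} {f : R} : f ∈ ordI A σ t ↔ A.VOrd σ t f := Iff.rfl

theorem ker_eq : RingHom.ker σ = ordI A σ 1 := by
  ext f
  rw [RingHom.mem_ker, mem_ordI, vord_succ]
  constructor
  · intro h; exact ⟨h, fun i => vord_zero _⟩
  · intro h; exact h.1

theorem pow_le (t : ℕ) : (RingHom.ker σ) ^ t ≤ ordI A σ t := by
  induction t with
  | zero => intro f _; exact vord_zero _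
  | succ t ih =>
    rw [pow_succ, Ideal.mul_le]
    intro f hf g hg
    rw [mem_ordI]
    refine vord_mul (t + 1) t 1 f g rfl (ih hf) ?_
    rw [ker_eq (A := A)] at hg
    exact hg

theorem lead_mul {t : ℕ} {g : R} (hg : A.VOrd σ t g) (h : R) {l : List (Fin m)}
    (hl : l.length = t) : σ (A.vw l (g * h)) = σ h * σ (A.vw l g) := by
  have e : g * h = g * (h - algebraMap ℂ R (σ h)) + (σ h) • g := by
    rw [Algebra.smul_def]; ring
  have h1 : A.VOrd σ (t + 1) (g * (h - algebraMap ℂ R (σ h))) := by
    refine vord_mul (t + 1) t 1 _ _ rfl hg ?_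
    rw [vord_succ]
    refine ⟨?_, fun i => vord_zero _⟩
    rw [map_sub, AlgHom.commutes]
    simp
  rw [e, map_add, map_add, h1 l (by omega), zero_add, map_smul, map_smul, smul_eq_mul]

/-- words of partial derivatives -/
noncomputable def pw : List (Fin m) → MvPolynomial (Fin m) ℂ →ₗ[ℂ] MvPolynomial (Fin m) ℂ
  | [] => LinearMap.id
  | i :: l => (pderiv i).toLinearMap ∘ₗ pw l

theorem pw_append (l : List (Fin m)) (i : Fin m) (f : MvPolynomial (Fin m) ℂ) :
    pw (l ++ [i]) f = pw l (pderiv i f) := by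
  induction l with
  | nil => rfl
  | cons j l ih =>
    simp only [List.cons_append, pw, LinearMap.comp_apply]
    rw [ih]

theorem der_aeval (D : Derivation ℂ R R) (y : Fin m → R) (p : MvPolynomial (Fin m) ℂ) :
    D (aeval y p) = ∑ i, aeval y (pderiv i p) * D (y i) := by
  induction p using MvPolynomial.induction_on with
  | C a =>
    simp only [algHom_C, Derivation.map_algebraMap, pderiv_C, map_zero, zero_mul,
      Finset.sum_const_zero]
  | add p q hp hq =>
    simp only [map_add, hp, hq, add_mul, Finset.sum_add_distrib]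
  | mul_X p j hp =>
    have e1 : ∀ i, aeval y (pderiv i (p * X j)) * D (y i) =
        y j * (aeval y (pderiv i p) * D (y i)) + (if j = i then aeval y p * D (y j) else 0) := by
      intro i
      rw [pderiv_mul, pderiv_X, map_add, map_mul, map_mul, aeval_X]
      by_cases h : j = i
      · subst h
        simp
        ring
      · have h' : Pi.single (M := fun _ => MvPolynomial (Fin m) ℂ) i 1 j = 0 := by
          rw [Pi.single_apply, if_neg h]
        rw [if_neg h, h']
        simp
        ring
    rw [Finset.sum_congr rfl (fun i _ => e1 i), Finset.sum_add_distrib, ← Finset.mul_sum, ← hp,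
      Finset.sum_ite_eq]
    simp only [Finset.mem_univ, if_true]
    rw [map_mul, aeval_X, Derivation.leibniz]
    simp only [smul_eq_mul]
    ring

theorem lead_aeval (y : Fin m → R) (hy : ∀ k i : Fin m, σ (A.d k.castSucc (y i)) = if k = i then 1 else 0)
    (hy0 : ∀ i, σ (y i) = 0) (n : ℕ) : ∀ (p : MvPolynomial (Fin m) ℂ),
    (∀ l : List (Fin m), l.length < n → constantCoeff (pw l p) = 0) →
    ∀ l : List (Fin m), l.length = n → σ (A.vw l (aeval y p)) = constantCoeff (pw l p) := by
  induction n using Nat.strong_induction_on with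
  | _ n ih =>
  intro p hp l hl
  rcases List.eq_nil_or_concat l with rfl | ⟨l', k, rfl⟩
  · rw [vw_nil]
    have h1 : σ (aeval y p) = aeval (fun i => σ (y i)) p := by
      rw [aeval_def, aeval_def, ← AlgHom.coe_toRingHom]
      rw [MvPolynomial.hom_eval₂]
      congr 1
      ext z
      simp
    rw [h1]
    have h2 : (fun i => σ (y i)) = (0 : Fin m → ℂ) := by
      funext i; exact hy0 i
    rw [h2]
    simp [pw, MvPolynomial.aeval_zero]
  · rw [List.concat_eq_append] at hl ⊢
    rw [vw_append, pw_append]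
    have hl' : l'.length + 1 = n := by simpa using hl
    -- derivative of the composite
    have hd : A.d k.castSucc (aeval y p) =
        ∑ i, aeval y (pderiv i p) * A.d k.castSucc (y i) := der_aeval _ _ _
    rw [hd, map_sum, map_sum]
    have key : ∀ i, σ (A.vw l' (aeval y (pderiv i p) * A.d k.castSucc (y i))) =
        (if k = i then 1 else 0) * constantCoeff (pw l' (pderiv i p)) := by
      intro i
      have hpi : ∀ l2 : List (Fin m), l2.length < l'.length →
          constantCoeff (pw l2 (pderiv i p)) = 0 := by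
        intro l2 h2
        rw [← pw_append]
        apply hp
        simp
        omega
      have hg : A.VOrd σ l'.length (aeval y (pderiv i p)) := by
        intro l2 h2
        rw [ih l2.length (by omega) (pderiv i p) (fun l3 h3 => hpi l3 (by omega)) l2 rfl]
        exact hpi l2 h2
      rw [lead_mul hg _ rfl, hy k i, ih l'.length (by omega) (pderiv i p) hpi l' rfl]
    rw [Finset.sum_congr rfl (fun i _ => key i)]
    simp

theorem coeff_zero_of_pw (t : ℕ) : ∀ p : MvPolynomial (Fin m) ℂ,
    (∀ l : List (Fin m), l.length = t → constantCoeff (pw l p) = 0) →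
    ∀ a : Fin m →₀ ℕ, a.degree = t → coeff a p = 0 := by
  induction t with
  | zero =>
    intro p hp a ha
    have h0 : a = 0 := by rwa [Finsupp.degree_eq_zero_iff] at ha
    have h1 := hp [] rfl
    rw [h0]
    exact h1
  | succ t ih =>
    intro p hp a ha
    obtain ⟨i, hi⟩ : ∃ i, a i ≠ 0 := by
      by_contra h
      push Not at h
      have : a = 0 := Finsupp.ext h
      rw [this] at ha
      simp at ha
    obtain ⟨a', rfl⟩ : ∃ a', a = a' + Finsupp.single i 1 := by
      refine ⟨a - Finsupp.single i 1, ?_⟩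
      rw [tsub_add_cancel_of_le]
      rw [Finsupp.single_le_iff]
      omega
    have h2 := ih (pderiv i p) (fun l hl => by
      rw [← pw_append]
      apply hp
      simp
      omega) a' (by
        rw [map_add, Finsupp.degree_single] at ha
        omega)
    rw [coeff_pderiv] at h2
    rcases mul_eq_zero.1 h2 with h3 | h3
    · exact h3
    · exfalso
      have : ((a' i + 1 : ℕ) : ℂ) = 0 := by push_cast; exact h3
      rw [Nat.cast_eq_zero] at this
      omega

/-- polynomials of degree `< T` in transversal coordinates are determined by their jets -/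
theorem poly_inj (y : Fin m → R) (hy : ∀ k i : Fin m, σ (A.d k.castSucc (y i)) = if k = i then 1 else 0)
    (hy0 : ∀ i, σ (y i) = 0) {T : ℕ} (p : MvPolynomial (Fin m) ℂ)
    (hp : A.VOrd σ T (aeval y p)) : ∀ a : Fin m →₀ ℕ, a.degree < T → coeff a p = 0 := by
  have key : ∀ n, n ≤ T → ∀ l : List (Fin m), l.length < n → constantCoeff (pw l p) = 0 := by
    intro n
    induction n with
    | zero => intro _ l hl; exact absurd hl (by simp)
    | succ n ih =>
      intro hn l hl
      have hl' : l.length ≤ n := by omega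
      rcases Nat.lt_or_ge l.length n with h | h
      · exact ih (by omega) l h
      · have h2 := lead_aeval (A := A) (σ := σ) y hy hy0 n p (ih (by omega)) l (by omega)
        rw [← h2]
        exact hp l (by omega)
  intro a ha
  exact coeff_zero_of_pw a.degree p (fun l hl => key T le_rfl l (by omega)) a rfl

/-- transversal coordinates exist at every point -/
theorem exists_coord (A : DR R m N) (σ : R →ₐ[ℂ] ℂ) : ∃ y : Fin m → R,
    (∀ k i : Fin m, σ (A.d k.castSucc (y i)) = if k = i then 1 else 0) ∧ ∀ i, σ (y i) = 0 := by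
  set M : Matrix (Fin (m + 1)) (Fin (m + 1)) ℂ := Matrix.of fun i j => σ (A.d i (A.x j)) with hM
  have hdet : IsUnit M.det := by
    have h := A.det.map σ
    rw [AlgHom.map_det] at h
    exact h
  refine ⟨fun i => ∑ j, (M⁻¹ j i.castSucc) • (A.x j - algebraMap ℂ R (σ (A.x j))), ?_, ?_⟩
  · intro k i
    have e : A.d k.castSucc (∑ j, (M⁻¹ j i.castSucc) • (A.x j - algebraMap ℂ R (σ (A.x j)))) =
        ∑ j, (M⁻¹ j i.castSucc) • A.d k.castSucc (A.x j) := by
      rw [map_sum]
      refine Finset.sum_congr rfl (fun j _ => ?_)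
      rw [Derivation.map_smul, map_sub, Derivation.map_algebraMap, sub_zero]
    rw [e, map_sum]
    have e2 : ∀ j, σ ((M⁻¹ j i.castSucc) • A.d k.castSucc (A.x j)) =
        M k.castSucc j * M⁻¹ j i.castSucc := by
      intro j
      rw [map_smul, smul_eq_mul, mul_comm]
      rfl
    rw [Finset.sum_congr rfl (fun j _ => e2 j), ← Matrix.mul_apply, Matrix.mul_nonsing_inv _ hdet,
      Matrix.one_apply]
    simp [Fin.castSucc_inj]
  · intro i
    rw [map_sum]
    refine Finset.sum_eq_zero (fun j _ => ?_)
    rw [map_smul, map_sub, AlgHom.commutes]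
    simp

/-- monomials of degree `< T` in transversal coordinates are independent modulo `ordI` -/
theorem indep (A : DR R m N) (σ : R →ₐ[ℂ] ℂ) (T : ℕ) :
    ∃ v : {a : Fin m →₀ ℕ // a.degree < T} → R ⧸ ordI A σ T, LinearIndependent ℂ v := by
  obtain ⟨y, hy, hy0⟩ := exists_coord A σ
  refine ⟨fun a => Ideal.Quotient.mk _ (aeval y (monomial a.1 (1 : ℂ))), ?_⟩
  rw [linearIndependent_iff']
  intro s g hg a ha
  have h1 : A.VOrd σ T (aeval y (∑ b ∈ s, monomial b.1 (g b))) := by
    rw [← mem_ordI, ← Ideal.Quotient.eq_zero_iff_mem, ← hg, map_sum, map_sum]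
    refine Finset.sum_congr rfl (fun b _ => ?_)
    have : (monomial b.1 (g b) : MvPolynomial (Fin m) ℂ) = g b • monomial b.1 1 := by
      rw [smul_monomial, smul_eq_mul, mul_one]
    rw [this, map_smul, Algebra.smul_def, Algebra.smul_def, map_mul]
    rfl
  have h2 := poly_inj y hy hy0 _ h1 a.1 a.2
  rw [coeff_sum, Finset.sum_eq_single a] at h2
  · simpa using h2
  · intro b _ hb
    rw [coeff_monomial, if_neg]
    intro h
    exact hb (Subtype.ext h)
  · intro h; exact absurd ha h

theorem coprime (A : DR R m N) {σ τ : R →ₐ[ℂ] ℂ} (h : σ ≠ τ) (T : ℕ) :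
    IsCoprime (ordI A σ T) (ordI A τ T) := by
  have h1 : IsCoprime (RingHom.ker σ) (RingHom.ker τ) := by
    obtain ⟨f, hf⟩ : ∃ f, σ f ≠ τ f := by
      by_contra hc
      push Not at hc
      exact h (AlgHom.ext hc)
    rw [Ideal.isCoprime_iff_exists]
    have hne : σ f - τ f ≠ 0 := sub_ne_zero.2 hf
    refine ⟨(algebraMap ℂ R (τ f - σ f)⁻¹) * (f - algebraMap ℂ R (σ f)), ?_,
      (algebraMap ℂ R (σ f - τ f)⁻¹) * (f - algebraMap ℂ R (τ f)), ?_, ?_⟩
    · rw [RingHom.mem_ker, map_mul, map_sub, AlgHom.commutes σ (σ f)]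
      simp
    · rw [RingHom.mem_ker, map_mul, map_sub, AlgHom.commutes τ (τ f)]
      simp
    · have e : (τ f - σ f)⁻¹ = -(σ f - τ f)⁻¹ := by rw [← neg_sub, inv_neg]
      rw [e, map_neg]
      have e2 : algebraMap ℂ R (σ f - τ f)⁻¹ * (algebraMap ℂ R (σ f) - algebraMap ℂ R (τ f)) = 1 := by
        rw [← map_sub, ← map_mul, inv_mul_cancel₀ hne, map_one]
      linear_combination e2
  have h2 := h1.pow (m := T) (n := T)
  rw [Ideal.isCoprime_iff_sup_eq] at h2 ⊢
  rw [eq_top_iff, ← h2]
  exact sup_le_sup (pow_le T) (pow_le T)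

theorem card_lt (T : ℕ) (hT : 1 ≤ T) [Fintype {a : Fin m →₀ ℕ // a.degree < T}] :
    Fintype.card {a : Fin m →₀ ℕ // a.degree < T} = (T - 1 + m).choose m := by
  classical
  rw [← Nat.sum_range_multichoose]
  have e : T - 1 + 1 = T := by omega
  rw [e]
  have h : ∀ n, (Finset.univ.finsuppAntidiag n : Finset (Fin m →₀ ℕ)).card = m.multichoose n := by
    intro n
    rw [Finset.card_finsuppAntidiag_nat_eq_multichoose]
    simp
  rw [← Finset.sum_congr rfl (fun n _ => h n), ← Finset.card_biUnion]
  · apply Fintype.card_of_subtype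
    intro a
    rw [Finset.mem_biUnion]
    constructor
    · rintro ⟨n, hn, ha⟩
      rw [Finset.mem_finsuppAntidiag] at ha
      rw [Finset.mem_range] at hn
      rw [Finsupp.degree_eq_sum, ha.1]
      exact hn
    · intro ha
      refine ⟨a.degree, Finset.mem_range.2 ha, ?_⟩
      rw [Finset.mem_finsuppAntidiag]
      exact ⟨(Finsupp.degree_eq_sum a).symm, Finset.subset_univ _⟩
  · intro x _ y _ hxy
    rw [Function.onFun, Finset.disjoint_left]
    intro a ha hb
    rw [Finset.mem_finsuppAntidiag] at ha hb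
    exact hxy (ha.1.symm.trans hb.1)

theorem le_mono (A : DR R m N) {e e' : ℕ} (h : e ≤ e') : A.le e ≤ A.le e' := by
  apply Submodule.map_mono
  intro p hp
  rw [mem_restrictTotalDegree] at hp ⊢
  exact hp.trans h

theorem exists_le (A : DR R m N) (f : R) : ∃ e, f ∈ A.le e := by
  have h : f ∈ Algebra.adjoin ℂ (Set.range A.b) := by rw [A.gen]; trivial
  rw [Algebra.adjoin_range_eq_range_aeval] at h
  obtain ⟨p, hp⟩ := h
  refine ⟨p.totalDegree, p, ?_, hp⟩
  rw [SetLike.mem_coe, mem_restrictTotalDegree]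

end ZH

/-- (ZH) lower bound of the Hilbert function of an ideal of elements vanishing to order `T` in the
directions of `V` at the points of `S` -/
theorem hf_lower {R : Type} [CommRing R] [IsDomain R] [Algebra ℂ R] {m N : ℕ} (A : DR R m N)
    (S : Finset (R →ₐ[ℂ] ℂ)) (T : ℕ) (hT : 1 ≤ T) (I : Ideal R)
    (hI : ∀ f ∈ I, ∀ σ ∈ S, A.VOrd σ T f) :
    ∃ e0 : ℕ, ∀ e : ℕ, e0 ≤ e → S.card * (T - 1 + m).choose m ≤ A.hf I e := by
  classical
  open MvPolynomial ZH in
  choose v hv using fun σ : S => indep A σ.1 T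
  have : Finite {a : Fin m →₀ ℕ // a.degree < T} := by
    rw [← Set.coe_ofPred, Set.finite_coe_iff]
    have h1 : ({a : Fin m →₀ ℕ | a.degree < T} : Set (Fin m →₀ ℕ)) ⊆
        ↑((Finset.range T).biUnion fun n => (Finset.univ.finsuppAntidiag n : Finset (Fin m →₀ ℕ))) := by
      intro a ha
      rw [Finset.mem_coe, Finset.mem_biUnion]
      refine ⟨a.degree, Finset.mem_range.2 ha, ?_⟩
      rw [Finset.mem_finsuppAntidiag]
      exact ⟨(Finsupp.degree_eq_sum a).symm, Finset.subset_univ _⟩
    exact (Finset.finite_toSet _).subset h1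
  have : Fintype {a : Fin m →₀ ℕ // a.degree < T} := Fintype.ofFinite _
  -- lifts
  have hlift : ∀ (ia : (_ : S) × {a : Fin m →₀ ℕ // a.degree < T}), ∃ f : R, ∀ τ : S,
      Ideal.Quotient.mk (ordI A τ.1 T) f = (Pi.single ia.1 (v ia.1 ia.2) : ∀ τ : S, R ⧸ ordI A τ.1 T) τ := by
    intro ia
    choose g hg using fun τ : S => Ideal.Quotient.mk_surjective
      ((Pi.single ia.1 (v ia.1 ia.2) : ∀ τ : S, R ⧸ ordI A τ.1 T) τ)
    have hp : Pairwise fun i j : S => IsCoprime (ordI A i.1 T) (ordI A j.1 T) := by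
      intro i j hij
      exact coprime A (fun h => hij (Subtype.ext h)) T
    obtain ⟨r, hr⟩ := Ideal.exists_forall_sub_mem_ideal
      (I := fun τ : S => ordI A τ.1 T) hp g
    refine ⟨r, fun τ => ?_⟩
    rw [← hg τ]
    exact Ideal.Quotient.eq.2 (hr τ)
  choose f hf using hlift
  -- the family is independent modulo `I`
  have hker : ∀ r ∈ I, ∀ τ : S, r ∈ ordI A τ.1 T := fun r hr τ => hI r hr τ.1 τ.2
  let Φ : R ⧸ I →ₗ[ℂ] (∀ τ : S, R ⧸ ordI A τ.1 T) :=
    LinearMap.pi fun τ => (Ideal.Quotient.factorₐ ℂ (fun r hr => hker r hr τ) :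
      (R ⧸ I) →ₐ[ℂ] (R ⧸ ordI A τ.1 T)).toLinearMap
  have hind : LinearIndependent ℂ fun ia => Ideal.Quotient.mk I (f ia) := by
    apply LinearIndependent.of_comp Φ
    have e : (Φ ∘ fun ia => Ideal.Quotient.mk I (f ia)) =
        fun ia : (_ : S) × {a : Fin m →₀ ℕ // a.degree < T} =>
          (Pi.single ia.1 (v ia.1 ia.2) : ∀ τ : S, R ⧸ ordI A τ.1 T) := by
      funext ia
      funext τ
      exact hf ia τ
    rw [e]
    exact Pi.linearIndependent_single v hv
  choose e1 he1 using fun ia => exists_le A (f ia)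
  refine ⟨Finset.univ.sup e1, fun e he => ?_⟩
  have hmem : ∀ ia, Ideal.Quotient.mk I (f ia) ∈
      (A.le e).map (Ideal.Quotient.mkₐ ℂ I).toLinearMap := by
    intro ia
    refine ⟨f ia, ?_, rfl⟩
    exact le_mono A ((Finset.le_sup (Finset.mem_univ ia)).trans he) (he1 ia)
  have hind2 : LinearIndependent ℂ fun ia => (⟨Ideal.Quotient.mk I (f ia), hmem ia⟩ :
      ↥((A.le e).map (Ideal.Quotient.mkₐ ℂ I).toLinearMap)) := by
    apply LinearIndependent.of_comp (Submodule.subtype _)
    exact hind
  have : Module.Finite ℂ ↥(A.le e) := by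
    unfold DR.le
    infer_instance
  have h3 := hind2.fintype_card_le_finrank
  rw [Fintype.card_sigma] at h3
  simp only [Finset.sum_const, smul_eq_mul] at h3
  rw [card_lt T hT] at h3
  have h4 : (Finset.univ : Finset S).card = S.card := by simp
  rw [h4] at h3
  exact h3

end Pool.Agent.WW
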