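import Pool.Agent.WW.ZC
import Pool.Agent.WW.ZD
import Pool.Agent.WW.ZF
import Pool.Agent.WW.ZG
import Pool.Agent.WW.ZH

set_option autoImplicit false

namespace Pool.Agent.WW

open MvPolynomial

namespace ZI

section basic

variable {R : Type} [CommRing R] [Algebra ℂ R] {m N : ℕ} (A : DR R m N)

include A in
theorem finType : Algebra.FiniteType ℂ R := by
  classical
  exact ⟨⟨Finset.univ.image A.b, by simpa using A.gen⟩⟩

theorem le_mono {a b : ℕ} (h : a ≤ b) : A.le a ≤ A.le b := by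
  refine Submodule.map_mono ?_
  intro p hp
  rw [mem_restrictTotalDegree] at hp ⊢
  exact hp.trans h

theorem aeval_mem_le {p : MvPolynomial (Fin N) ℂ} {e : ℕ} (h : p.totalDegree ≤ e) :
    aeval A.b p ∈ A.le e :=
  Submodule.mem_map.2 ⟨p, (mem_restrictTotalDegree _ _ _).2 h, rfl⟩

theorem exists_le (f : R) : ∃ e, f ∈ A.le e := by
  have hf : f ∈ (Algebra.adjoin ℂ (Set.range A.b)) := by rw [A.gen]; trivial
  rw [Algebra.adjoin_range_eq_range_aeval] at hf
  obtain ⟨p, rfl⟩ := hf
  exact ⟨p.totalDegree, aeval_mem_le A le_rfl⟩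

theorem mul_mem_le {a b : ℕ} {f g : R} (hf : f ∈ A.le a) (hg : g ∈ A.le b) :
    f * g ∈ A.le (a + b) := by
  obtain ⟨p, hp, rfl⟩ := Submodule.mem_map.1 hf
  obtain ⟨q, hq, rfl⟩ := Submodule.mem_map.1 hg
  rw [mem_restrictTotalDegree] at hp hq
  have : (aeval A.b p) * (aeval A.b q) = aeval A.b (p * q) := by rw [map_mul]
  simp only [AlgHom.toLinearMap_apply]
  rw [this]
  exact aeval_mem_le A ((totalDegree_mul _ _).trans (add_le_add hp hq))

theorem one_mem_le (e : ℕ) : (1 : R) ∈ A.le e := by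
  have := aeval_mem_le A (p := (1 : MvPolynomial (Fin N) ℂ)) (e := e) (by simp)
  simpa using this

theorem b_mem_le (j : Fin N) : A.b j ∈ A.le 1 := by
  have := aeval_mem_le A (p := (X j : MvPolynomial (Fin N) ℂ)) (e := 1) (by simp)
  simpa using this

theorem mono_mem {c0 : ℕ} (hc : ∀ i j, A.d i (A.b j) ∈ A.le (1 + c0)) (i : Fin (m + 1)) :
    ∀ k : ℕ, ∀ s : Fin N →₀ ℕ, s.degree ≤ k →
      aeval A.b (monomial s (1 : ℂ)) ∈ A.le k ∧
      A.d i (aeval A.b (monomial s (1 : ℂ))) ∈ A.le (k + c0) := by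
  intro k
  induction k with
  | zero =>
    intro s hs
    have h0 : s = 0 := by
      rw [← Finsupp.degree_eq_zero_iff]; omega
    subst h0
    have e : aeval A.b (monomial 0 (1 : ℂ)) = (1 : R) := by
      have : (monomial 0 (1 : ℂ) : MvPolynomial (Fin N) ℂ) = 1 := rfl
      rw [this, map_one]
    rw [e]
    refine ⟨one_mem_le A _, ?_⟩
    rw [Derivation.map_one_eq_zero]
    exact Submodule.zero_mem _
  | succ k ih =>
    intro s hs
    by_cases h0 : s = 0
    · subst h0
      have e : aeval A.b (monomial 0 (1 : ℂ)) = (1 : R) := by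
        have : (monomial 0 (1 : ℂ) : MvPolynomial (Fin N) ℂ) = 1 := rfl
        rw [this, map_one]
      rw [e]
      refine ⟨one_mem_le A _, ?_⟩
      rw [Derivation.map_one_eq_zero]
      exact Submodule.zero_mem _
    · obtain ⟨j, hj⟩ : ∃ j, s j ≠ 0 := by
        by_contra hcon
        push Not at hcon
        exact h0 (Finsupp.ext hcon)
      have hle : Finsupp.single j 1 ≤ s := by
        rw [Finsupp.single_le_iff]; omega
      obtain ⟨t, rfl⟩ := exists_add_of_le hle
      have hdeg : t.degree ≤ k := by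
        rw [map_add, Finsupp.degree_single] at hs
        omega
      obtain ⟨i1, i2⟩ := ih t hdeg
      have e : aeval A.b (monomial (Finsupp.single j 1 + t) (1 : ℂ)) =
          A.b j * aeval A.b (monomial t (1 : ℂ)) := by
        have : (monomial (Finsupp.single j 1 + t) (1 : ℂ) : MvPolynomial (Fin N) ℂ) =
            X j * monomial t 1 := by
          rw [X, monomial_mul, one_mul]
        rw [this, map_mul, aeval_X]
      rw [e]
      constructor
      · have := mul_mem_le A (b_mem_le A j) i1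
        rwa [add_comm 1 k] at this
      · rw [Derivation.leibniz, smul_eq_mul, smul_eq_mul]
        refine Submodule.add_mem _ ?_ ?_
        · have := mul_mem_le A (b_mem_le A j) i2
          have e2 : 1 + (k + c0) = k + 1 + c0 := by ring
          rwa [e2] at this
        · have := mul_mem_le A i1 (hc i j)
          have e2 : k + (1 + c0) = k + 1 + c0 := by ring
          rwa [e2] at this

theorem d_mem_le {c0 : ℕ} (hc : ∀ i j, A.d i (A.b j) ∈ A.le (1 + c0)) (i : Fin (m + 1))
    {e : ℕ} {f : R} (hf : f ∈ A.le e) : A.d i f ∈ A.le (e + c0) := by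
  obtain ⟨p, hp, rfl⟩ := Submodule.mem_map.1 hf
  rw [mem_restrictTotalDegree] at hp
  simp only [AlgHom.toLinearMap_apply]
  rw [p.as_sum, map_sum, map_sum]
  refine Submodule.sum_mem _ fun s hs => ?_
  have hdeg : s.degree ≤ e := by
    have := le_totalDegree hs
    rw [Finsupp.degree]
    exact le_trans (by simpa [Finsupp.sum] using this) hp
  have e1 : (monomial s (coeff s p) : MvPolynomial (Fin N) ℂ) =
      (coeff s p) • monomial s (1 : ℂ) := by
    rw [smul_monomial, smul_eq_mul, mul_one]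
  rw [e1, map_smul, Derivation.map_smul]
  exact Submodule.smul_mem _ _ (mono_mem A hc i e s hdeg).2

theorem dw_mem_le {c0 : ℕ} (hc : ∀ i j, A.d i (A.b j) ∈ A.le (1 + c0))
    {e : ℕ} {f : R} (hf : f ∈ A.le e) :
    ∀ l : List (Fin (m + 1)), A.dw l f ∈ A.le (e + c0 * l.length) := by
  intro l
  induction l with
  | nil => simpa [DR.dw] using hf
  | cons i l ih =>
    have := d_mem_le A hc i ih
    have e2 : e + c0 * l.length + c0 = e + c0 * (i :: l).length := by
      simp only [List.length_cons]; ring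
    rw [e2] at this
    simpa [DR.dw] using this

theorem exists_c0 : ∃ c0 : ℕ, ∀ i j, A.d i (A.b j) ∈ A.le (1 + c0) := by
  choose e he using fun ij : Fin (m + 1) × Fin N => exists_le A (A.d ij.1 (A.b ij.2))
  refine ⟨∑ ij, e ij, fun i j => le_mono A ?_ (he (i, j))⟩
  have : e (i, j) ≤ ∑ ij, e ij :=
    Finset.single_le_sum (f := e) (fun _ _ => Nat.zero_le _) (Finset.mem_univ (i, j))
  omega

theorem dw_append (l1 l2 : List (Fin (m + 1))) (f : R) :
    A.dw (l1 ++ l2) f = A.dw l1 (A.dw l2 f) := by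
  induction l1 with
  | nil => rfl
  | cons i l ih =>
    simp only [List.cons_append, DR.dw, LinearMap.comp_apply]
    rw [ih]

theorem vw_append (l1 l2 : List (Fin m)) (f : R) :
    A.vw (l1 ++ l2) f = A.vw l1 (A.vw l2 f) := by
  rw [DR.vw, List.map_append, dw_append]; rfl

theorem vw_nil (f : R) : A.vw [] f = f := rfl

theorem vw_single (i : Fin m) (f : R) : A.vw [i] f = A.d i.castSucc f := rfl

variable {σ : R →ₐ[ℂ] ℂ}

theorem vOrd_zero (f : R) : A.VOrd σ 0 f := fun l hl => absurd hl (by omega)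

theorem vOrd_mono {a b : ℕ} (h : a ≤ b) {f : R} (hf : A.VOrd σ b f) : A.VOrd σ a f :=
  fun l hl => hf l (by omega)

theorem vOrd_succ {t : ℕ} {f : R} :
    A.VOrd σ (t + 1) f ↔ σ f = 0 ∧ ∀ i : Fin m, A.VOrd σ t (A.d i.castSucc f) := by
  constructor
  · intro h
    refine ⟨h [] (by simp), fun i l hl => ?_⟩
    have := h (l ++ [i]) (by simp; omega)
    rwa [vw_append, vw_single] at this
  · rintro ⟨h1, h2⟩ l hl
    rcases List.eq_nil_or_concat l with rfl | ⟨l', i, rfl⟩
    · exact h1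
    · rw [List.concat_eq_append, vw_append, vw_single]
      refine h2 i l' ?_
      simp at hl
      omega

theorem vOrd_add {t : ℕ} {f g : R} (hf : A.VOrd σ t f) (hg : A.VOrd σ t g) :
    A.VOrd σ t (f + g) := fun l hl => by
  rw [map_add, map_add, hf l hl, hg l hl, add_zero]

theorem vOrd_neg {t : ℕ} {f : R} (hf : A.VOrd σ t f) :
    A.VOrd σ t (-f) := fun l hl => by
  rw [map_neg, map_neg, hf l hl, neg_zero]

theorem vOrd_mul {t : ℕ} : ∀ {f : R} (g : R), A.VOrd σ t f → A.VOrd σ t (g * f) := by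
  induction t with
  | zero => intro f g _; exact vOrd_zero A _
  | succ t ih =>
    intro f g hf
    have hf' := (vOrd_succ A).1 hf
    refine (vOrd_succ A).2 ⟨by rw [map_mul, hf'.1, mul_zero], fun i => ?_⟩
    rw [Derivation.leibniz, smul_eq_mul, smul_eq_mul]
    refine vOrd_add A (ih g (hf'.2 i)) ?_
    rw [mul_comm]
    exact ih _ (vOrd_mono A (by omega) hf)

theorem vOrd_of_mul {t : ℕ} : ∀ {f g : R}, σ g ≠ 0 → A.VOrd σ t (g * f) → A.VOrd σ t f := by
  induction t with
  | zero => intro f g _ _; exact vOrd_zero A _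
  | succ t ih =>
    intro f g hg h
    have h' := (vOrd_succ A).1 h
    have hft : A.VOrd σ t f := ih hg (vOrd_mono A (by omega) h)
    refine (vOrd_succ A).2 ⟨?_, fun i => ?_⟩
    · have := h'.1
      rw [map_mul] at this
      exact (mul_eq_zero.1 this).resolve_left hg
    · have h1 := h'.2 i
      rw [Derivation.leibniz, smul_eq_mul, smul_eq_mul] at h1
      have h2 : A.VOrd σ t (A.d i.castSucc g * f) := vOrd_mul A _ hft
      have h3 : A.VOrd σ t (g * A.d i.castSucc f) := by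
        have := vOrd_add A h1 (vOrd_neg A h2)
        have e : g * A.d i.castSucc f + f * A.d i.castSucc g + -(A.d i.castSucc g * f) =
            g * A.d i.castSucc f := by ring
        rwa [e] at this
      exact ih hg h3

theorem vOrd_vw {t s : ℕ} {f : R} (hf : A.VOrd σ t f) (l : List (Fin m))
    (hl : l.length + s ≤ t) : A.VOrd σ s (A.vw l f) := by
  intro l' hl'
  rw [← vw_append]
  exact hf _ (by simp; omega)

theorem vOrd_span {t : ℕ} {P : Set R} (hP : ∀ p ∈ P, A.VOrd σ t p) :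
    ∀ f ∈ Ideal.span P, A.VOrd σ t f := by
  intro f hf
  induction hf using Submodule.span_induction with
  | mem x hx => exact hP x hx
  | zero => intro l _; simp
  | add x y _ _ hx hy => exact vOrd_add A hx hy
  | smul a x _ hx => exact vOrd_mul A a hx

theorem vOrd_subspan {t : ℕ} {P : Set R} (hP : ∀ p ∈ P, A.VOrd σ t p) :
    ∀ f ∈ Submodule.span ℂ P, A.VOrd σ t f := by
  intro f hf
  induction hf using Submodule.span_induction with
  | mem x hx => exact hP x hx
  | zero => intro l _; simp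
  | add x y _ _ hx hy => exact vOrd_add A hx hy
  | smul a x _ hx =>
    rw [Algebra.smul_def]
    exact vOrd_mul A _ hx

end basic

theorem le_locI {R : Type} [CommRing R] [Algebra ℂ R] (S : Finset (R →ₐ[ℂ] ℂ)) (I : Ideal R) :
    I ≤ locI S I := fun f hf σ _ => ⟨1, by simp, by simpa using hf⟩

theorem locI_mono {R : Type} [CommRing R] [Algebra ℂ R] (S : Finset (R →ₐ[ℂ] ℂ))
    {I J : Ideal R} (h : I ≤ J) : locI S I ≤ locI S J := fun f hf σ hσ => by
  obtain ⟨g, h1, h2⟩ := hf σ hσ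
  exact ⟨g, h1, h h2⟩

theorem exists_seq {R : Type} [CommRing R] [IsDomain R] [Algebra ℂ R] {m N : ℕ}
    (A : DR R m N) (S : Finset (R →ₐ[ℂ] ℂ)) (Q : Submodule ℂ R)
    (hk : ∀ p ∈ Q, ∀ σ ∈ S, σ p = 0)
    (hQ : ∀ σ ∈ S, ∀ q : Ideal R, q.IsPrime → q < RingHom.ker σ → ¬ (Q : Set R) ⊆ q) :
    ∀ i : ℕ, i ≤ m + 1 → ∃ P : Fin i → R, (∀ l, P l ∈ Q) ∧ RegAt S P := by
  intro i
  induction i with
  | zero => exact fun _ => ⟨Fin.elim0, fun l => l.elim0, fun l => l.elim0⟩
  | succ i ih =>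
    intro hi
    obtain ⟨P, hP, hreg⟩ := ih (by omega)
    obtain ⟨p, hp, hpr⟩ := reg_extend A S (by omega : i < m + 1) P
      (fun l σ hσ => hk _ (hP l) σ hσ) hreg Q hQ
    refine ⟨Fin.snoc P p, fun l => ?_, fun l => ?_⟩
    · refine Fin.lastCases ?_ (fun j => ?_) l
      · rw [Fin.snoc_last]; exact hp
      · rw [Fin.snoc_castSucc]; exact hP j
    · refine Fin.lastCases ?_ (fun j => ?_) l
      · have e : (Fin.snoc P p : Fin (i + 1) → R) '' {k | k < Fin.last i} = Set.range P := by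
          ext y
          constructor
          · rintro ⟨k, hk1, rfl⟩
            obtain ⟨k', rfl⟩ := Fin.exists_castSucc_eq.2 (ne_of_lt hk1)
            exact ⟨k', by rw [Fin.snoc_castSucc]⟩
          · rintro ⟨k, rfl⟩
            exact ⟨k.castSucc, Fin.castSucc_lt_last k, by rw [Fin.snoc_castSucc]⟩
        rw [e, Fin.snoc_last]
        exact hpr
      · have e : (Fin.snoc P p : Fin (i + 1) → R) '' {k | k < Fin.castSucc j} =
            P '' {k | k < j} := by
          ext y
          constructor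
          · rintro ⟨k, hk1, rfl⟩
            have hk1' : k < Fin.castSucc j := hk1
            obtain ⟨k', rfl⟩ := Fin.exists_castSucc_eq.2
              (ne_of_lt (lt_of_lt_of_le hk1' (Fin.le_last _)))
            exact ⟨k', Fin.castSucc_lt_castSucc_iff.1 hk1', by rw [Fin.snoc_castSucc]⟩
          · rintro ⟨k, hk1, rfl⟩
            exact ⟨k.castSucc, Fin.castSucc_lt_castSucc_iff.2 hk1, by rw [Fin.snoc_castSucc]⟩
        rw [e, Fin.snoc_castSucc]
        exact hreg j

theorem hf_chain {R : Type} [CommRing R] [IsDomain R] [Algebra ℂ R] {m N : ℕ}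
    (A : DR R m N) (S : Finset (R →ₐ[ℂ] ℂ)) (P : Fin (m + 1) → R) (hreg : RegAt S P)
    (δ : ℕ) (hδ : 1 ≤ δ) (hP : ∀ l, P l ∈ A.le δ) (C0 : ℕ)
    (hC0 : ∀ e : ℕ, 1 ≤ e → Module.finrank ℂ (A.le e) ≤ C0 * e ^ (m + 1)) :
    ∀ k : ℕ, k ≤ m + 1 → ∀ e : ℕ, 1 ≤ e →
      A.hf (locI S (Ideal.span (P '' {l | (l : ℕ) < k}))) e ≤
        C0 * (δ * 2 ^ (m + 1)) ^ k * e ^ (m + 1 - k) := by
  intro k
  induction k with
  | zero =>
    intro _ e he
    have hfd : Module.Finite ℂ (A.le e) := by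
      have : Module.Finite ℂ (restrictTotalDegree (Fin N) ℂ e) := by
        infer_instance
      exact Module.Finite.map _ _
    refine le_trans (Submodule.finrank_map_le _ _) ?_
    simpa using hC0 e he
  | succ k ih =>
    intro hk e he
    have hkm : k ≤ m := by omega
    have h1 := ih (by omega)
    have hstep := hf_step A (locI S (Ideal.span (P '' {l | (l : ℕ) < k})))
      (locI S (Ideal.span (P '' {l | (l : ℕ) < k + 1})))
      (locI_mono S (Ideal.span_mono (Set.image_mono (fun l hl => by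
        have : (l : ℕ) < k := hl
        show (l : ℕ) < k + 1
        omega))))
      (P ⟨k, by omega⟩) δ hδ (hP _)
      (le_locI S _ (Ideal.subset_span ⟨⟨k, by omega⟩, by show k < k + 1; omega, rfl⟩))
      (fun f hf => by
        have := hreg ⟨k, by omega⟩ f
        have e1 : {l : Fin (m + 1) | l < ⟨k, by omega⟩} = {l : Fin (m + 1) | (l : ℕ) < k} := by
          ext l; simp [Fin.lt_def]
        rw [e1] at this
        exact this hf)
      (C0 * (δ * 2 ^ (m + 1)) ^ k) (m - k)
      (fun e he => by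
        have := h1 e he
        have e2 : m + 1 - k = m - k + 1 := by omega
        rwa [e2] at this)
    refine le_trans (hstep e he) ?_
    have e3 : m + 1 - (k + 1) = m - k := by omega
    rw [e3]
    refine Nat.mul_le_mul_right _ ?_
    have h2 : 2 ^ (m - k + 1) ≤ 2 ^ (m + 1) := Nat.pow_le_pow_right (by norm_num) (by omega)
    calc δ * (C0 * (δ * 2 ^ (m + 1)) ^ k) * 2 ^ (m - k + 1)
        ≤ δ * (C0 * (δ * 2 ^ (m + 1)) ^ k) * 2 ^ (m + 1) := Nat.mul_le_mul_left _ h2
      _ = C0 * (δ * 2 ^ (m + 1)) ^ (k + 1) := by ring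

end ZI

/-- (ZI) the zero estimate -/
theorem zeroEstimate {R : Type} [CommRing R] [IsDomain R] [Algebra ℂ R] {m N : ℕ}
    (A : DR R m N) :
    ∃ C : ℕ, 0 < C ∧ ∀ L T : ℕ, 1 ≤ L → C * L ≤ T → ∀ P ∈ A.le L, P ≠ 0 →
      ∀ S : Finset (R →ₐ[ℂ] ℂ), (∀ σ ∈ S, A.ArcOK σ) → (∀ σ ∈ S, A.VOrd σ T P) →
        S.card * T ^ m ≤ C * L ^ (m + 1) := by
  classical
  obtain ⟨C0, hC0⟩ := hilb_le A
  obtain ⟨J, hJ⟩ := norm_mul A
  obtain ⟨c0, hc0⟩ := ZI.exists_c0 A
  have hft : Algebra.FiniteType ℂ R := ZI.finType A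
  set C2 : ℕ := 1 + c0 * J with hC2
  set D : ℕ := 2 ^ m * (m.factorial * (C0 * (C2 * 2 ^ (m + 1)) ^ (m + 1))) with hD
  refine ⟨D + 2 * J + 2, by omega, ?_⟩
  intro L T hL hT P hP hP0 S hS hV
  set G : Set R := {f | ∃ l : List (Fin m), l.length ≤ J * L ∧ f = A.vw l P} with hG
  set Q : Submodule ℂ R := Submodule.span ℂ G with hQ
  have hTJ : 2 * (J * L) + 2 ≤ T := by
    refine le_trans ?_ hT
    have : 2 * (J * L) + 2 ≤ (2 * J + 2) * L := by nlinarith
    refine this.trans (Nat.mul_le_mul_right _ (by omega))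
  have hQle : ∀ p ∈ Q, p ∈ A.le (C2 * L) := by
    intro p hp
    have : Q ≤ A.le (C2 * L) := by
      rw [hQ]
      refine Submodule.span_le.2 ?_
      rintro f ⟨l, hl, rfl⟩
      have h1 := ZI.dw_mem_le A hc0 hP (l.map Fin.castSucc)
      refine ZI.le_mono A ?_ h1
      rw [List.length_map]
      calc L + c0 * l.length ≤ L + c0 * (J * L) :=
            Nat.add_le_add_left (Nat.mul_le_mul_left _ hl) _
        _ = C2 * L := by rw [hC2]; ring
    exact this hp
  have hQV : ∀ p ∈ Q, ∀ σ ∈ S, A.VOrd σ (T - J * L) p := by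
    intro p hp σ hσ
    refine ZI.vOrd_subspan A ?_ p hp
    rintro f ⟨l, hl, rfl⟩
    exact ZI.vOrd_vw A (hV σ hσ) l (by omega)
  have hQker : ∀ p ∈ Q, ∀ σ ∈ S, σ p = 0 := by
    intro p hp σ hσ
    exact hQV p hp σ hσ [] (by simp only [List.length_nil]; omega)
  have hQn : ∀ σ ∈ S, ∀ q : Ideal R, q.IsPrime → q < RingHom.ker σ → ¬ (Q : Set R) ⊆ q := by
    intro σ hσ q hq hlt hsub
    obtain ⟨ψ, hc, hn, ht, hz⟩ := exists_arc σ q hq hlt
    obtain ⟨v, hv⟩ := arc_v A ψ
    have hlast := hS σ hσ ψ hc hn ht v hv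
    obtain ⟨l, hl, hne⟩ := arc_trans A hJ ψ v hv hlast hL hP hP0
    exact hne (hz _ (hsub (Submodule.subset_span ⟨l, hl, rfl⟩)))
  obtain ⟨p, hpQ, hreg⟩ := ZI.exists_seq A S Q hQker hQn (m + 1) le_rfl
  have hC2L : 1 ≤ C2 * L := Nat.one_le_iff_ne_zero.2 (by
    refine Nat.mul_ne_zero ?_ (by omega)
    rw [hC2]; omega)
  have hchain := ZI.hf_chain A S p hreg (C2 * L) hC2L (fun l => hQle _ (hpQ l)) C0 hC0
    (m + 1) le_rfl
  set I : Ideal R := locI S (Ideal.span (p '' {l | (l : ℕ) < m + 1})) with hI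
  have hIV : ∀ f ∈ I, ∀ σ ∈ S, A.VOrd σ (T - J * L) f := by
    intro f hf σ hσ
    obtain ⟨g, hg, hgf⟩ := hf σ hσ
    refine ZI.vOrd_of_mul A hg ?_
    refine ZI.vOrd_span A ?_ _ hgf
    rintro _ ⟨l, _, rfl⟩
    exact hQV _ (hpQ l) σ hσ
  obtain ⟨e0, he0⟩ := hf_lower A S (T - J * L) (by omega) I hIV
  have h1 := he0 (max e0 1) (le_max_left _ _)
  have h2 := hchain (max e0 1) (le_max_right _ _)
  have h3 : S.card * (T - J * L - 1 + m).choose m ≤
      C0 * (C2 * L * 2 ^ (m + 1)) ^ (m + 1) := by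
    have := h1.trans h2
    simpa using this
  have h4 : (T - J * L) ^ m ≤ m.factorial * (T - J * L - 1 + m).choose m := by
    have h5 := Nat.pow_sub_le_descFactorial (T - J * L - 1 + m) m
    rw [Nat.descFactorial_eq_factorial_mul_choose] at h5
    refine le_trans (le_of_eq ?_) h5
    congr 1
    omega
  have h6 : T ^ m ≤ 2 ^ m * (T - J * L) ^ m := by
    rw [← mul_pow]
    exact Nat.pow_le_pow_left (by omega) m
  calc S.card * T ^ m ≤ S.card * (2 ^ m * (m.factorial * (T - J * L - 1 + m).choose m)) :=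
        Nat.mul_le_mul_left _ (h6.trans (Nat.mul_le_mul_left _ h4))
    _ = 2 ^ m * (m.factorial * (S.card * (T - J * L - 1 + m).choose m)) := by ring
    _ ≤ 2 ^ m * (m.factorial * (C0 * (C2 * L * 2 ^ (m + 1)) ^ (m + 1))) :=
        Nat.mul_le_mul_left _ (Nat.mul_le_mul_left _ h3)
    _ = D * L ^ (m + 1) := by
        rw [hD, show C2 * L * 2 ^ (m + 1) = C2 * 2 ^ (m + 1) * L by ring,
          mul_pow _ L (m + 1)]
        ring
    _ ≤ (D + 2 * J + 2) * L ^ (m + 1) := Nat.mul_le_mul_right _ (by omega)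

end Pool.Agent.WW
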